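import Pool.Agent.Helper6.TOP.Br2

set_option autoImplicit false
set_option linter.all false
set_option maxRecDepth 100000

namespace Pool.Agent.TOPR.R61135

open Helper10.PC hiding V3
open Helper80.CW.DL Pool.Agent.Helper6.TOP

/-- `p` scaled by `2 ^ mu`, degree in `p` at most `dp`, degree in `u` at most `Kd` -/
def mu : ℕ := 12
def dp : ℕ := 6
def Kd : ℕ := 11

/-- exponents of `u` -/
def AL : List Al := [(0, 0, 0), (0, 0, 2), (0, 0, 5), (0, 0, 6), (0, 0, 7), (0, 0, 8), (0, 0, 9), (0, 0, 10), (0, 0, 11), (0, 1, 1), (0, 1, 4), (0, 1, 5), (0, 1, 6), (0, 1, 7), (0, 1, 8), (0, 1, 9), (0, 1, 10), (0, 2, 0), (0, 2, 3), (0, 2, 4), (0, 2, 5), (0, 2, 6), (0, 2, 7), (0, 2, 8), (0, 2, 9), (0, 3, 2), (0, 3, 3), (0, 3, 4), (0, 3, 5), (0, 3, 6), (0, 3, 7), (0, 3, 8), (0, 4, 1), (0, 4, 2), (0, 4, 3), (0, 4, 4), (0, 4, 5), (0, 4, 6), (0, 4, 7), (0, 5, 0), (0, 5, 1), (0, 5, 2), (0, 5, 3), (0, 5, 4), (0, 5, 5), (0, 5, 6), (0, 6, 0), (0, 6, 1), (0, 6, 2), (0, 6, 3),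 (0, 6, 4), (0, 6, 5), (0, 7, 0), (0, 7, 1), (0, 7, 2), (0, 7, 3), (0, 7, 4), (0, 8, 0), (0, 8, 1), (0, 8, 2), (0, 8, 3), (0, 9, 0), (0, 9, 1), (0, 9, 2), (0, 10, 0), (0, 10, 1), (0, 11, 0), (1, 0, 4), (1, 0, 5), (1, 0, 6), (1, 0, 7), (1, 0, 8), (1, 0, 9), (1, 0, 10), (1, 1, 3), (1, 1, 4), (1, 1, 5), (1, 1, 6), (1, 1, 7), (1, 1, 8), (1, 1, 9), (1, 2, 2), (1, 2, 3), (1, 2, 4), (1, 2, 5), (1, 2, 6), (1, 2, 7), (1, 2, 8), (1, 3, 1), (1, 3, 2), (1, 3, 3), (1, 3, 4), (1, 3, 5), (1, 3, 6), (1, 3, 7), (1, 4, 0), (1, 4, 1), (1, 4, 2), (1, 4, 3), (1, 4, 4), (1, 4, 5), (1, 4, 6), (1, 5, 0), (1, 5, 1), (1, 5, 2), (1, 5, 3), (1, 5, 4), (1, 5, 5), (1, 6, 0), (1, 6, 1), (1, 6, 2), (1, 6, 3), (1, 6, 4), (1, 7, 0), (1, 7, 1), (1, 7, 2), (1, 7, 3), (1, 8, 0), (1, 8, 1), (1, 8, 2), (1, 9, 0), (1, 9, 1), (1, 10, 0), (2, 0, 0), (2, 0, 3), (2, 0, 4), (2, 0, 5), (2, 0, 6), (2, 0, 7), (2, 0, 8), (2, 0, 9), (2, 1, 2), (2, 1, 3), (2, 1, 4), (2, 1, 5), (2, 1, 6), (2, 1, 7),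 (2, 1, 8), (2, 2, 1), (2, 2, 2), (2, 2, 3), (2, 2, 4), (2, 2, 5), (2, 2, 6), (2, 2, 7), (2, 3, 0), (2, 3, 1), (2, 3, 2), (2, 3, 3), (2, 3, 4), (2, 3, 5), (2, 3, 6), (2, 4, 0), (2, 4, 1), (2, 4, 2), (2, 4, 3), (2, 4, 4), (2, 4, 5), (2, 5, 0), (2, 5, 1), (2, 5, 2), (2, 5, 3), (2, 5, 4), (2, 6, 0), (2, 6, 1), (2, 6, 2), (2, 6, 3), (2, 7, 0), (2, 7, 1), (2, 7, 2), (2, 8, 0), (2, 8, 1), (2, 9, 0), (3, 0, 2), (3, 0, 3), (3, 0, 4), (3, 0, 5), (3, 0, 6), (3, 0, 7), (3, 0, 8), (3, 1, 1), (3, 1, 2), (3, 1, 3), (3, 1, 4), (3, 1, 5), (3, 1, 6), (3, 1, 7), (3, 2, 0), (3, 2, 1), (3, 2, 2), (3, 2, 3), (3, 2, 4), (3, 2, 5), (3, 2, 6), (3, 3, 0), (3, 3, 1), (3, 3, 2), (3, 3, 3), (3, 3, 4), (3, 3, 5), (3, 4, 0), (3, 4, 1), (3, 4, 2), (3, 4, 3), (3, 4, 4), (3, 5, 0), (3, 5, 1), (3, 5, 2), (3, 5, 3), (3, 6, 0), (3, 6, 1), (3, 6, 2), (3, 7, 0), (3, 7, 1), (3, 8, 0), (4, 0, 1), (4, 0, 2), (4, 0, 3), (4, 0, 4), (4, 0, 5), (4, 0, 6), (4, 0, 7), (4, 1, 0), (4, 1, 1), (4,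 1, 2), (4, 1, 3), (4, 1, 4), (4, 1, 5), (4, 1, 6), (4, 2, 0), (4, 2, 1), (4, 2, 2), (4, 2, 3), (4, 2, 4), (4, 2, 5), (4, 3, 0), (4, 3, 1), (4, 3, 2), (4, 3, 3), (4, 3, 4), (4, 4, 0), (4, 4, 1), (4, 4, 2), (4, 4, 3), (4, 5, 0), (4, 5, 1), (4, 5, 2), (4, 6, 0), (4, 6, 1), (4, 7, 0), (5, 0, 0), (5, 0, 1), (5, 0, 2), (5, 0, 3), (5, 0, 4), (5, 0, 5), (5, 0, 6), (5, 1, 0), (5, 1, 1), (5, 1, 2), (5, 1, 3), (5, 1, 4), (5, 1, 5), (5, 2, 0), (5, 2, 1), (5, 2, 2), (5, 2, 3), (5, 2, 4), (5, 3, 0), (5, 3, 1), (5, 3, 2), (5, 3, 3), (5, 4, 0), (5, 4, 1), (5, 4, 2), (5, 5, 0), (5, 5, 1), (5, 6, 0), (6, 0, 0), (6, 0, 1), (6, 0, 2), (6, 0, 3), (6, 0, 4), (6, 0, 5), (6, 1, 0), (6, 1, 1), (6, 1, 2), (6, 1, 3), (6, 1, 4), (6, 2, 0), (6, 2, 1), (6, 2, 2), (6, 2, 3), (6, 3, 0), (6, 3, 1), (6, 3, 2), (6, 4, 0), (6, 4, 1), (6, 5, 0), (7, 0, 0), (7, 0, 1), (7, 0, 2), (7, 0, 3), (7, 0, 4), (7, 1, 0), (7, 1, 1), (7, 1, 2), (7, 1, 3), (7, 2, 0), (7, 2, 1), (7, 2, 2), (7, 3,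 0), (7, 3, 1), (7, 4, 0), (8, 0, 0), (8, 0, 1), (8, 0, 2), (8, 0, 3), (8, 1, 0), (8, 1, 1), (8, 1, 2), (8, 2, 0), (8, 2, 1), (8, 3, 0), (9, 0, 0), (9, 0, 1), (9, 0, 2), (9, 1, 0), (9, 1, 1), (9, 2, 0), (10, 0, 0), (10, 0, 1), (10, 1, 0), (11, 0, 0)]


def lQp_0 : List (T ℤ) := [(P (nat_lit 5034231565398356583608483840000)), (P (nat_lit 0)), (T.h (T.h (T.h (P (nat_lit 0)) (T.h (M (nat_lit 3839514313513014043615428607)) (T.h (P (nat_lit 0)) (T.h (P (nat_lit 3646535431745731297280)) (T.h (P (nat_lit 0)) (M (nat_lit 137409198948351))))))) (T.h (P (nat_lit 0)) (T.h (T.h (P (nat_lit 0)) (T.h (P (nat_lit 1686860910799498510336)) (T.h (P (nat_lit 0)) (M (nat_lit 4778343383728127))))) (T.h (P (nat_lit 0)) (T.h (T.h (P (nat_lit 0)) (M (nat_lit 1885774712307711))) (P (nat_lit 0))))))) (T.h (T.h (P (nat_lit 0)) (T.h (T.h (P (nat_lit 2802841087763088546988032)) (T.h (P (nat_lit 0)) (T.h (M (nat_lit 15043258930488672255)) (T.h (P (nat_lit 0)) (M (nat_lit 90631147302591))))))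 (T.h (P (nat_lit 0)) (T.h (T.h (P (nat_lit 1002591225452167168)) (T.h (P (nat_lit 0)) (M (nat_lit 6893533280159)))) (T.h (P (nat_lit 0)) (P (nat_lit 1007079246328))))))) (T.h (T.h (T.h (P (nat_lit 0)) (T.h (P (nat_lit 1686860910799498510336)) (T.h (P (nat_lit 0)) (M (nat_lit 4778343383728127))))) (T.h (P (nat_lit 0)) (T.h (T.h (P (nat_lit 0)) (P (nat_lit 9154749834854400))) (P (nat_lit 0))))) (T.h (T.h (P (nat_lit 0)) (T.h (T.h (P (nat_lit 1002591225452167168)) (T.h (P (nat_lit 0)) (M (nat_lit 6893533280159)))) (T.h (P (nat_lit 0)) (P (nat_lit 48440508656))))) (T.h (T.h (T.h (P (nat_lit 0)) (M (nat_lit 1885774712307711))) (P (nat_lit 0))) (T.h (T.h (P (nat_lit 0)) (P (nat_lit 1007079246328))) (P (nat_lit 0)))))))), (T.h (T.h (T.h (M (nat_lit 7433080326342683754766599716863)) (T.h (P (nat_lit 0)) (T.h (M (nat_lit 10067385610448579600580607)) (T.h (P (nat_lit 0)) (T.h (P (nat_lit 4366090264486346752)) (T.h (P (nat_lit 0)) (P (nat_lit 10239292669440))))))))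 (T.h (P (nat_lit 0)) (T.h (T.h (P (nat_lit 3778435464726847852380160)) (T.h (P (nat_lit 0)) (T.h (M (nat_lit 26327728948397473791)) (T.h (P (nat_lit 0)) (M (nat_lit 6531616341807)))))) (T.h (P (nat_lit 0)) (T.h (T.h (P (nat_lit 775294767817818112)) (T.h (P (nat_lit 0)) (M (nat_lit 12025278876719)))) (T.h (P (nat_lit 0)) (M (nat_lit 394146612063)))))))) (T.h (T.h (P (nat_lit 0)) (T.h (T.h (P (nat_lit 0)) (T.h (M (nat_lit 10073615372514213494783)) (T.h (P (nat_lit 0)) (M (nat_lit 153757479444742143))))) (T.h (P (nat_lit 0)) (T.h (T.h (P (nat_lit 0)) (P (nat_lit 11749017991118848))) (P (nat_lit 0)))))) (T.h (T.h (T.h (P (nat_lit 3778435464726847852380160)) (T.h (P (nat_lit 0)) (T.h (M (nat_lit 26327728948397473791)) (T.h (P (nat_lit 0)) (M (nat_lit 6531616341807)))))) (T.h (P (nat_lit 0)) (T.h (T.h (M (nat_lit 2350797395471630335)) (T.h (P (nat_lit 0)) (M (nat_lit 46369747134399)))) (T.h (P (nat_lit 0)) (M (nat_lit 1928525502543)))))) (T.h (T.h (P (nat_lit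 0)) (T.h (T.h (P (nat_lit 0)) (P (nat_lit 11749017991118848))) (P (nat_lit 0)))) (T.h (T.h (T.h (P (nat_lit 775294767817818112)) (T.h (P (nat_lit 0)) (M (nat_lit 12025278876719)))) (T.h (P (nat_lit 0)) (M (nat_lit 1928525502543)))) (T.h (P (nat_lit 0)) (M (nat_lit 394146612063)))))))), (T.h (T.h (T.h (P (nat_lit 0)) (T.h (M (nat_lit 3147512656405071884711886847)) (T.h (P (nat_lit 0)) (T.h (M (nat_lit 13783003363915946000383)) (T.h (P (nat_lit 0)) (P (nat_lit 83436595345620992))))))) (T.h (P (nat_lit 0)) (T.h (T.h (P (nat_lit 0)) (T.h (P (nat_lit 275758408499906740224)) (T.h (P (nat_lit 0)) (P (nat_lit 32178130169331712))))) (T.h (P (nat_lit 0)) (T.h (T.h (P (nat_lit 0)) (M (nat_lit 6796418047999999))) (P (nat_lit 0))))))) (T.h (T.h (P (nat_lit 0)) (T.h (T.h (M (nat_lit 639228361562408211185663)) (T.h (P (nat_lit 0)) (T.h (M (nat_lit 4295856609243955199)) (T.h (P (nat_lit 0)) (P (nat_lit 181262294860032)))))) (T.h (P (nat_lit 0)) (T.h (T.h (P (nat_lit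 3612582974958075904)) (T.h (P (nat_lit 0)) (P (nat_lit 24592427548416)))) (T.h (P (nat_lit 0)) (M (nat_lit 1035188088447))))))) (T.h (T.h (T.h (P (nat_lit 0)) (T.h (P (nat_lit 275758408499906740224)) (T.h (P (nat_lit 0)) (P (nat_lit 32178130169331712))))) (T.h (P (nat_lit 0)) (T.h (T.h (P (nat_lit 0)) (M (nat_lit 24836961151156223))) (P (nat_lit 0))))) (T.h (T.h (P (nat_lit 0)) (T.h (T.h (P (nat_lit 3612582974958075904)) (T.h (P (nat_lit 0)) (P (nat_lit 24592427548416)))) (T.h (P (nat_lit 0)) (M (nat_lit 96880908671))))) (T.h (T.h (T.h (P (nat_lit 0)) (M (nat_lit 6796418047999999))) (P (nat_lit 0))) (T.h (T.h (P (nat_lit 0)) (M (nat_lit 1035188088447))) (P (nat_lit 0)))))))), (T.h (T.h (T.h (P (nat_lit 2404850019828621642210004172800)) (T.h (P (nat_lit 0)) (T.h (P (nat_lit 9662666993077348152115200)) (T.h (P (nat_lit 0)) (T.h (P (nat_lit 7533545651754237952)) (T.h (P (nat_lit 0)) (M (nat_lit 18430719318143)))))))) (T.h (P (nat_lit 0)) (T.h (T.h (M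 (nat_lit 3441592084653494088237055)) (T.h (P (nat_lit 0)) (T.h (P (nat_lit 850769915450228736)) (T.h (P (nat_lit 0)) (P (nat_lit 17223692796864)))))) (T.h (P (nat_lit 0)) (T.h (T.h (P (nat_lit 343924005943640064)) (T.h (P (nat_lit 0)) (P (nat_lit 21823059736368)))) (T.h (P (nat_lit 0)) (P (nat_lit 485082553536)))))))) (T.h (T.h (P (nat_lit 0)) (T.h (T.h (P (nat_lit 0)) (T.h (P (nat_lit 4858780883919092842496)) (T.h (P (nat_lit 0)) (P (nat_lit 221025023427870720))))) (T.h (P (nat_lit 0)) (T.h (T.h (P (nat_lit 0)) (P (nat_lit 8976329387016192))) (P (nat_lit 0)))))) (T.h (T.h (T.h (M (nat_lit 3441592084653494088237055)) (T.h (P (nat_lit 0)) (T.h (P (nat_lit 850769915450228736)) (T.h (P (nat_lit 0)) (P (nat_lit 17223692796864)))))) (T.h (P (nat_lit 0)) (T.h (T.h (M (nat_lit 4101749946523320319)) (T.h (P (nat_lit 0)) (P (nat_lit 83465545105728)))) (T.h (P (nat_lit 0)) (P (nat_lit 6479329439808)))))) (T.h (T.h (P (nat_lit 0)) (T.h (T.h (P (nat_lit 0))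 (P (nat_lit 8976329387016192))) (P (nat_lit 0)))) (T.h (T.h (T.h (P (nat_lit 343924005943640064)) (T.h (P (nat_lit 0)) (P (nat_lit 21823059736368)))) (T.h (P (nat_lit 0)) (P (nat_lit 6479329439808)))) (T.h (P (nat_lit 0)) (P (nat_lit 485082553536)))))))), (T.h (T.h (T.h (P (nat_lit 0)) (T.h (P (nat_lit 6946700081529947634800787456)) (T.h (P (nat_lit 0)) (T.h (P (nat_lit 6537014371178130702336)) (T.h (P (nat_lit 0)) (M (nat_lit 25164075442372607))))))) (T.h (P (nat_lit 0)) (T.h (T.h (P (nat_lit 0)) (T.h (M (nat_lit 2528644232359897464831)) (T.h (P (nat_lit 0)) (P (nat_lit 15677387932434432))))) (T.h (P (nat_lit 0)) (T.h (T.h (P (nat_lit 0)) (P (nat_lit 9931916964462592))) (P (nat_lit 0))))))) (T.h (T.h (P (nat_lit 0)) (T.h (T.h (M (nat_lit 2399690788163493904252927)) (T.h (P (nat_lit 0)) (P (nat_lit 24174887929991135232)))) (T.h (P (nat_lit 0)) (M (nat_lit 822611858266521599))))) (T.h (T.h (T.h (P (nat_lit 0)) (T.h (M (nat_lit 2528644232359897464831))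 (T.h (P (nat_lit 0)) (P (nat_lit 15677387932434432))))) (T.h (P (nat_lit 0)) (T.h (T.h (P (nat_lit 0)) (P (nat_lit 37986096972562432))) (P (nat_lit 0))))) (T.h (T.h (P (nat_lit 0)) (M (nat_lit 822611858266521599))) (T.h (T.h (T.h (P (nat_lit 0)) (P (nat_lit 9931916964462592))) (P (nat_lit 0))) (P (nat_lit 0))))))), (P (nat_lit 0))]
def lQp_1 : List (T ℤ) := [(P (nat_lit 0)), (P (nat_lit 0)), (T.h (T.h (P (nat_lit 0)) (T.h (T.h (P (nat_lit 6109297295370027237344542720)) (T.h (P (nat_lit 0)) (T.h (P (nat_lit 3043298767001555566592)) (T.h (P (nat_lit 0)) (M (nat_lit 42195277170933759)))))) (T.h (P (nat_lit 0)) (T.h (T.h (P (nat_lit 6470624315378690424832)) (T.h (P (nat_lit 0)) (P (nat_lit 23901466144571392)))) (T.h (P (nat_lit 0)) (M (nat_lit 7102852997021695))))))) (T.h (T.h (T.h (P (nat_lit 0)) (T.h (M (nat_lit 284033478414364619833343)) (T.h (P (nat_lit 0)) (T.h (M (nat_lit 5938503625511796735)) (T.h (P (nat_lit 0)) (P (nat_lit 11280567779312)))))))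 (T.h (P (nat_lit 0)) (T.h (T.h (P (nat_lit 0)) (T.h (P (nat_lit 849028859926937600)) (T.h (P (nat_lit 0)) (M (nat_lit 72270515840055))))) (T.h (P (nat_lit 0)) (T.h (T.h (P (nat_lit 0)) (P (nat_lit 8644918464696))) (P (nat_lit 0))))))) (T.h (T.h (P (nat_lit 0)) (T.h (T.h (P (nat_lit 1686258149179302871040)) (T.h (P (nat_lit 0)) (M (nat_lit 1978227750830079)))) (T.h (P (nat_lit 0)) (M (nat_lit 433781979512831))))) (T.h (T.h (T.h (P (nat_lit 0)) (T.h (P (nat_lit 2140135256919900160)) (T.h (P (nat_lit 0)) (P (nat_lit 1179281324744))))) (T.h (P (nat_lit 0)) (T.h (T.h (P (nat_lit 0)) (P (nat_lit 365975489448))) (P (nat_lit 0))))) (T.h (T.h (P (nat_lit 0)) (P (nat_lit 417833758720000))) (T.h (T.h (T.h (P (nat_lit 0)) (M (nat_lit 2562489162783))) (P (nat_lit 0))) (P (nat_lit 0)))))))), (T.h (T.h (P (nat_lit 0)) (T.h (T.h (P (nat_lit 0)) (T.h (P (nat_lit 7108667783362390295314432)) (T.h (P (nat_lit 0)) (T.h (M (nat_lit 154584634236227026943)) (T.h (P (nat_lit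 0)) (M (nat_lit 335941989346463))))))) (T.h (P (nat_lit 0)) (T.h (T.h (P (nat_lit 0)) (T.h (P (nat_lit 6429138738500075520)) (T.h (P (nat_lit 0)) (P (nat_lit 19834863972112))))) (T.h (P (nat_lit 0)) (T.h (T.h (P (nat_lit 0)) (M (nat_lit 2171138809055))) (P (nat_lit 0)))))))) (T.h (T.h (T.h (M (nat_lit 8791771181520521901880901631)) (T.h (P (nat_lit 0)) (T.h (P (nat_lit 22020359117771091476480)) (T.h (P (nat_lit 0)) (M (nat_lit 121640918615326719)))))) (T.h (P (nat_lit 0)) (T.h (T.h (P (nat_lit 9840168828146097848320)) (T.h (P (nat_lit 0)) (P (nat_lit 38653626529546240)))) (T.h (P (nat_lit 0)) (P (nat_lit 28202771527335936)))))) (T.h (T.h (P (nat_lit 0)) (T.h (T.h (P (nat_lit 0)) (T.h (M (nat_lit 6625341527327506431)) (T.h (P (nat_lit 0)) (P (nat_lit 19291176429520))))) (T.h (P (nat_lit 0)) (T.h (T.h (P (nat_lit 0)) (P (nat_lit 7731991111936))) (P (nat_lit 0)))))) (T.h (T.h (T.h (P (nat_lit 1197127384719865937920)) (T.h (P (nat_lit 0)) (M (nat_lit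 644596779991039)))) (T.h (P (nat_lit 0)) (P (nat_lit 8554117372231680)))) (T.h (T.h (P (nat_lit 0)) (T.h (T.h (P (nat_lit 0)) (M (nat_lit 6391443606815))) (P (nat_lit 0)))) (M (nat_lit 578348013797375))))))), (T.h (T.h (P (nat_lit 0)) (T.h (T.h (M (nat_lit 6839413366052023076718116863)) (T.h (P (nat_lit 0)) (T.h (M (nat_lit 24888676228541148299263)) (T.h (P (nat_lit 0)) (M (nat_lit 395879561561014271)))))) (T.h (P (nat_lit 0)) (T.h (T.h (M (nat_lit 12737252216992320978943)) (T.h (P (nat_lit 0)) (M (nat_lit 10511957737865215)))) (T.h (P (nat_lit 0)) (P (nat_lit 17277707598233600))))))) (T.h (T.h (T.h (P (nat_lit 0)) (T.h (P (nat_lit 5168368424837279068979200)) (T.h (P (nat_lit 0)) (T.h (M (nat_lit 157094665944054104063)) (T.h (P (nat_lit 0)) (M (nat_lit 131752181722495))))))) (T.h (P (nat_lit 0)) (T.h (T.h (P (nat_lit 0)) (T.h (M (nat_lit 8926032916207632383)) (T.h (P (nat_lit 0)) (M (nat_lit 41957170643903))))) (T.h (P (nat_lit 0)) (T.h (T.h (P (nat_lit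 0)) (M (nat_lit 7728486802623))) (P (nat_lit 0))))))) (T.h (T.h (P (nat_lit 0)) (T.h (T.h (P (nat_lit 84204815432911159296)) (T.h (P (nat_lit 0)) (P (nat_lit 103386342155976704)))) (T.h (P (nat_lit 0)) (P (nat_lit 10516355926327296))))) (T.h (T.h (T.h (P (nat_lit 0)) (T.h (M (nat_lit 23742450305689714687)) (T.h (P (nat_lit 0)) (P (nat_lit 17796002755584))))) (T.h (P (nat_lit 0)) (T.h (T.h (P (nat_lit 0)) (M (nat_lit 24569655262335))) (P (nat_lit 0))))) (T.h (T.h (P (nat_lit 0)) (M (nat_lit 24592959480430591))) (T.h (T.h (T.h (P (nat_lit 0)) (P (nat_lit 2784107884416))) (P (nat_lit 0))) (P (nat_lit 0)))))))), (T.h (T.h (P (nat_lit 0)) (T.h (T.h (P (nat_lit 0)) (T.h (P (nat_lit 2647328885556425852452864)) (T.h (P (nat_lit 0)) (T.h (P (nat_lit 88326269022941216768)) (T.h (P (nat_lit 0)) (P (nat_lit 310329193881600))))))) (T.h (P (nat_lit 0)) (T.h (T.h (P (nat_lit 0)) (T.h (M (nat_lit 14044839506763317247)) (T.h (P (nat_lit 0)) (M (nat_lit 15746492039039)))))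 (T.h (P (nat_lit 0)) (T.h (T.h (P (nat_lit 0)) (M (nat_lit 3743196082991))) (P (nat_lit 0)))))))) (T.h (T.h (T.h (P (nat_lit 7229277941798989040011182080)) (T.h (P (nat_lit 0)) (T.h (P (nat_lit 55893712121856740294656)) (T.h (P (nat_lit 0)) (P (nat_lit 43907669705129984)))))) (T.h (P (nat_lit 0)) (T.h (T.h (M (nat_lit 5074626016790479634431)) (T.h (P (nat_lit 0)) (M (nat_lit 37873789833461759)))) (T.h (P (nat_lit 0)) (M (nat_lit 25150337114456063)))))) (T.h (T.h (P (nat_lit 0)) (T.h (T.h (P (nat_lit 0)) (T.h (M (nat_lit 9959165120451969023)) (T.h (P (nat_lit 0)) (M (nat_lit 157763501468927))))) (T.h (P (nat_lit 0)) (T.h (T.h (P (nat_lit 0)) (M (nat_lit 43491366017423))) (P (nat_lit 0)))))) (T.h (T.h (T.h (M (nat_lit 1700234646761114697727)) (T.h (P (nat_lit 0)) (P (nat_lit 24900390032965632)))) (T.h (P (nat_lit 0)) (P (nat_lit 6140512668286976)))) (T.h (T.h (P (nat_lit 0)) (T.h (T.h (P (nat_lit 0)) (P (nat_lit 17575024374576))) (P (nat_lit 0))))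 (M (nat_lit 1766672385900543))))))), (T.h (T.h (P (nat_lit 0)) (T.h (T.h (P (nat_lit 1069719061105742419312246784)) (T.h (P (nat_lit 0)) (T.h (P (nat_lit 9039233065320873721856)) (T.h (P (nat_lit 0)) (P (nat_lit 360924354560393216)))))) (T.h (P (nat_lit 0)) (T.h (T.h (M (nat_lit 4810639926731932172287)) (T.h (P (nat_lit 0)) (P (nat_lit 9114228696940544)))) (T.h (P (nat_lit 0)) (M (nat_lit 189485684457471))))))) (T.h (T.h (T.h (P (nat_lit 0)) (T.h (P (nat_lit 1761177201905144919228416)) (T.h (P (nat_lit 0)) (P (nat_lit 159289274093619118080))))) (T.h (P (nat_lit 0)) (T.h (T.h (P (nat_lit 0)) (M (nat_lit 13635200529196908543))) (P (nat_lit 0))))) (T.h (T.h (P (nat_lit 0)) (T.h (T.h (M (nat_lit 167114983961662586879)) (T.h (P (nat_lit 0)) (M (nat_lit 69713786696892415)))) (T.h (P (nat_lit 0)) (M (nat_lit 3999072314753023))))) (T.h (T.h (T.h (P (nat_lit 0)) (P (nat_lit 1424453042811437056))) (P (nat_lit 0))) (T.h (T.h (P (nat_lit 0)) (P (nat_lit 6948109256065024)))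 (P (nat_lit 0))))))), (P (nat_lit 0))]
def lQp_2 : List (T ℤ) := [(P (nat_lit 0)), (P (nat_lit 0)), (T.h (T.h (T.h (P (nat_lit 0)) (T.h (P (nat_lit 1842636641669992651706859520)) (T.h (P (nat_lit 0)) (T.h (P (nat_lit 3692873907294676451328)) (T.h (P (nat_lit 0)) (M (nat_lit 7481609000026111))))))) (T.h (P (nat_lit 0)) (T.h (T.h (P (nat_lit 0)) (T.h (M (nat_lit 524702051116670517247)) (T.h (P (nat_lit 0)) (P (nat_lit 31824348569567232))))) (T.h (P (nat_lit 0)) (T.h (T.h (P (nat_lit 0)) (P (nat_lit 10857135824961536))) (P (nat_lit 0))))))) (T.h (T.h (P (nat_lit 0)) (T.h (T.h (M (nat_lit 3133008150478943286198271)) (T.h (P (nat_lit 0)) (T.h (M (nat_lit 75911826115607396351)) (T.h (P (nat_lit 0)) (M (nat_lit 11983016506303)))))) (T.h (P (nat_lit 0)) (T.h (T.h (P (nat_lit 1574276201889923072)) (T.h (P (nat_lit 0)) (P (nat_lit 1718313203016)))) (T.h (P (nat_lit 0)) (P (nat_lit 1092306519704))))))) (T.h (T.h (T.h (P (nat_lit 0)) (T.h (M (nat_lit 4907546594058516299775))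 (T.h (P (nat_lit 0)) (P (nat_lit 5832632511725568))))) (T.h (P (nat_lit 0)) (T.h (T.h (P (nat_lit 0)) (P (nat_lit 19556106663329792))) (P (nat_lit 0))))) (T.h (T.h (P (nat_lit 0)) (T.h (T.h (M (nat_lit 4506255607094837247)) (T.h (P (nat_lit 0)) (P (nat_lit 9670404085392)))) (T.h (P (nat_lit 0)) (M (nat_lit 4428334664711))))) (T.h (T.h (T.h (P (nat_lit 0)) (P (nat_lit 20897473785757696))) (P (nat_lit 0))) (T.h (T.h (P (nat_lit 0)) (M (nat_lit 8114091958647))) (P (nat_lit 0)))))))), (T.h (T.h (T.h (M (nat_lit 4760559981841400535819587944447)) (T.h (P (nat_lit 0)) (T.h (M (nat_lit 12686087327818927969402879)) (T.h (P (nat_lit 0)) (T.h (P (nat_lit 79083973133016760320)) (T.h (P (nat_lit 0)) (P (nat_lit 33595231580112)))))))) (T.h (P (nat_lit 0)) (T.h (T.h (M (nat_lit 23554564491741895231275007)) (T.h (P (nat_lit 0)) (T.h (M (nat_lit 98180377231073738751)) (T.h (P (nat_lit 0)) (M (nat_lit 19123657897535)))))) (T.h (P (nat_lit 0)) (T.h (T.h (M (nat_lit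 26277287895165304831)) (T.h (P (nat_lit 0)) (M (nat_lit 35834186439263)))) (T.h (P (nat_lit 0)) (P (nat_lit 5106811990464)))))))) (T.h (T.h (P (nat_lit 0)) (T.h (T.h (P (nat_lit 0)) (T.h (P (nat_lit 5718149774113176027136)) (T.h (P (nat_lit 0)) (P (nat_lit 88374154776510464))))) (T.h (P (nat_lit 0)) (T.h (T.h (P (nat_lit 0)) (M (nat_lit 87735198484725759))) (P (nat_lit 0)))))) (T.h (T.h (T.h (P (nat_lit 770520881638916390649856)) (T.h (P (nat_lit 0)) (T.h (M (nat_lit 20620189100488523775)) (T.h (P (nat_lit 0)) (P (nat_lit 52052519111328)))))) (T.h (P (nat_lit 0)) (T.h (T.h (M (nat_lit 6340317228499468287)) (T.h (P (nat_lit 0)) (M (nat_lit 23507951099487)))) (T.h (P (nat_lit 0)) (M (nat_lit 2332677536639)))))) (T.h (T.h (P (nat_lit 0)) (T.h (T.h (P (nat_lit 0)) (M (nat_lit 22477953384775679))) (P (nat_lit 0)))) (T.h (T.h (T.h (P (nat_lit 5476421613685571584)) (T.h (P (nat_lit 0)) (M (nat_lit 4136082018047)))) (T.h (P (nat_lit 0)) (P (nat_lit 3880953721632))))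 (T.h (P (nat_lit 0)) (M (nat_lit 1226078413135)))))))), (T.h (T.h (T.h (P (nat_lit 0)) (T.h (P (nat_lit 7964465409808473183024578560)) (T.h (P (nat_lit 0)) (T.h (M (nat_lit 7119774854517733982207)) (T.h (P (nat_lit 0)) (M (nat_lit 148082487392174079))))))) (T.h (P (nat_lit 0)) (T.h (T.h (P (nat_lit 0)) (T.h (M (nat_lit 135355189748246979280895)) (T.h (P (nat_lit 0)) (M (nat_lit 285802558304780287))))) (T.h (P (nat_lit 0)) (T.h (T.h (P (nat_lit 0)) (M (nat_lit 11688336278388735))) (P (nat_lit 0))))))) (T.h (T.h (P (nat_lit 0)) (T.h (T.h (M (nat_lit 36565551147893332237090815)) (T.h (P (nat_lit 0)) (T.h (M (nat_lit 136602560658321440767)) (T.h (P (nat_lit 0)) (M (nat_lit 206420040118655)))))) (T.h (P (nat_lit 0)) (T.h (T.h (M (nat_lit 22323664257476984831)) (T.h (P (nat_lit 0)) (M (nat_lit 66324274011007)))) (T.h (P (nat_lit 0)) (P (nat_lit 24139558673280))))))) (T.h (T.h (T.h (P (nat_lit 0)) (T.h (M (nat_lit 23922005058509963526143)) (T.h (P (nat_lit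 0)) (P (nat_lit 35586079954829312))))) (T.h (P (nat_lit 0)) (T.h (T.h (P (nat_lit 0)) (P (nat_lit 76855338413654016))) (P (nat_lit 0))))) (T.h (T.h (P (nat_lit 0)) (T.h (T.h (P (nat_lit 40838291985006592000)) (T.h (P (nat_lit 0)) (P (nat_lit 9075415495296)))) (T.h (P (nat_lit 0)) (M (nat_lit 4242820383295))))) (T.h (T.h (T.h (P (nat_lit 0)) (P (nat_lit 19433905954488320))) (P (nat_lit 0))) (T.h (T.h (P (nat_lit 0)) (M (nat_lit 2955205671167))) (P (nat_lit 0)))))))), (T.h (T.h (T.h (M (nat_lit 6550205974850090925245048291327)) (T.h (P (nat_lit 0)) (T.h (M (nat_lit 10820930293763412938719231)) (T.h (P (nat_lit 0)) (T.h (P (nat_lit 10167124700157706240)) (T.h (P (nat_lit 0)) (M (nat_lit 1900902457007)))))))) (T.h (P (nat_lit 0)) (T.h (T.h (P (nat_lit 24644433191013854713217024)) (T.h (P (nat_lit 0)) (T.h (P (nat_lit 247730919216223617024)) (T.h (P (nat_lit 0)) (P (nat_lit 135693679464000)))))) (T.h (P (nat_lit 0)) (T.h (T.h (P (nat_lit 12995145507583033344))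 (T.h (P (nat_lit 0)) (M (nat_lit 29246983189487)))) (T.h (P (nat_lit 0)) (M (nat_lit 12383001643247)))))))) (T.h (T.h (P (nat_lit 0)) (T.h (T.h (P (nat_lit 0)) (T.h (P (nat_lit 9561867817973534687232)) (T.h (P (nat_lit 0)) (M (nat_lit 202715487664177151))))) (T.h (P (nat_lit 0)) (T.h (T.h (P (nat_lit 0)) (M (nat_lit 36175207789887487))) (P (nat_lit 0)))))) (T.h (T.h (T.h (P (nat_lit 914669431254911916441600)) (T.h (P (nat_lit 0)) (T.h (P (nat_lit 32321156511269126144)) (T.h (P (nat_lit 0)) (M (nat_lit 154054818207791)))))) (T.h (P (nat_lit 0)) (T.h (T.h (P (nat_lit 16663814109501849600)) (T.h (P (nat_lit 0)) (M (nat_lit 154284181097903)))) (T.h (P (nat_lit 0)) (P (nat_lit 3747522647088)))))) (T.h (T.h (P (nat_lit 0)) (T.h (T.h (P (nat_lit 0)) (M (nat_lit 2980120280563711))) (P (nat_lit 0)))) (T.h (T.h (T.h (M (nat_lit 10956550989288570879)) (T.h (P (nat_lit 0)) (M (nat_lit 40633845785423)))) (T.h (P (nat_lit 0)) (M (nat_lit 40758030476063)))) (T.h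 (P (nat_lit 0)) (P (nat_lit 2262664312560)))))))), (T.h (T.h (T.h (P (nat_lit 0)) (T.h (M (nat_lit 5938840239767262457329876991)) (T.h (P (nat_lit 0)) (T.h (P (nat_lit 15260972577348049174528)) (T.h (P (nat_lit 0)) (P (nat_lit 68021766630866944))))))) (T.h (P (nat_lit 0)) (T.h (T.h (P (nat_lit 0)) (T.h (P (nat_lit 83505656668972851920896)) (T.h (P (nat_lit 0)) (P (nat_lit 112761797231247360))))) (T.h (P (nat_lit 0)) (T.h (T.h (P (nat_lit 0)) (M (nat_lit 17569552337108991))) (P (nat_lit 0))))))) (T.h (T.h (P (nat_lit 0)) (T.h (T.h (P (nat_lit 8121832179209592299847680)) (T.h (P (nat_lit 0)) (P (nat_lit 9408689513531703296)))) (T.h (P (nat_lit 0)) (M (nat_lit 18589109809936596991))))) (T.h (T.h (T.h (P (nat_lit 0)) (T.h (P (nat_lit 32448110580492473991168)) (T.h (P (nat_lit 0)) (M (nat_lit 176124080196288511))))) (T.h (P (nat_lit 0)) (T.h (T.h (P (nat_lit 0)) (M (nat_lit 99906550954229759))) (P (nat_lit 0))))) (T.h (T.h (P (nat_lit 0)) (P (nat_lit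 6818117037345210368))) (T.h (T.h (T.h (P (nat_lit 0)) (M (nat_lit 14493620268662783))) (P (nat_lit 0))) (P (nat_lit 0))))))), (P (nat_lit 0))]
def lQp_3 : List (T ℤ) := [(P (nat_lit 0)), (T.h (T.h (P (nat_lit 0)) (T.h (T.h (P (nat_lit 1842636641669992651706859520)) (T.h (P (nat_lit 0)) (T.h (M (nat_lit 524702051116670517247)) (T.h (P (nat_lit 0)) (P (nat_lit 10857135824961536)))))) (T.h (P (nat_lit 0)) (T.h (T.h (P (nat_lit 3692873907294676451328)) (T.h (P (nat_lit 0)) (P (nat_lit 31824348569567232)))) (T.h (P (nat_lit 0)) (M (nat_lit 7481609000026111))))))) (T.h (T.h (T.h (P (nat_lit 0)) (T.h (M (nat_lit 3133008150478943286198271)) (T.h (P (nat_lit 0)) (T.h (P (nat_lit 1574276201889923072)) (T.h (P (nat_lit 0)) (P (nat_lit 1092306519704))))))) (T.h (P (nat_lit 0)) (T.h (T.h (P (nat_lit 0)) (T.h (M (nat_lit 75911826115607396351)) (T.h (P (nat_lit 0)) (P (nat_lit 1718313203016))))) (T.h (P (nat_lit 0)) (T.h (T.h (P (nat_lit 0)) (M (nat_lit 11983016506303)))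 (P (nat_lit 0))))))) (T.h (T.h (P (nat_lit 0)) (T.h (T.h (M (nat_lit 4907546594058516299775)) (T.h (P (nat_lit 0)) (P (nat_lit 19556106663329792)))) (T.h (P (nat_lit 0)) (P (nat_lit 5832632511725568))))) (T.h (T.h (T.h (P (nat_lit 0)) (T.h (M (nat_lit 4506255607094837247)) (T.h (P (nat_lit 0)) (M (nat_lit 4428334664711))))) (T.h (P (nat_lit 0)) (T.h (T.h (P (nat_lit 0)) (P (nat_lit 9670404085392))) (P (nat_lit 0))))) (T.h (T.h (P (nat_lit 0)) (P (nat_lit 20897473785757696))) (T.h (T.h (T.h (P (nat_lit 0)) (M (nat_lit 8114091958647))) (P (nat_lit 0))) (P (nat_lit 0)))))))), (T.h (T.h (P (nat_lit 0)) (T.h (T.h (P (nat_lit 0)) (T.h (M (nat_lit 42890317912544783647113215)) (T.h (P (nat_lit 0)) (T.h (P (nat_lit 79130121664399933440)) (T.h (P (nat_lit 0)) (P (nat_lit 16513881934288))))))) (T.h (P (nat_lit 0)) (T.h (T.h (P (nat_lit 0)) (T.h (P (nat_lit 79130121664399933440)) (T.h (P (nat_lit 0)) (M (nat_lit 399778677697119))))) (T.h (P (nat_lit 0)) (T.h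 (T.h (P (nat_lit 0)) (P (nat_lit 16513881934288))) (P (nat_lit 0)))))))) (T.h (T.h (T.h (M (nat_lit 7510137570867912732181528575)) (T.h (P (nat_lit 0)) (T.h (M (nat_lit 5896902701901632503807)) (T.h (P (nat_lit 0)) (M (nat_lit 42764403516555263)))))) (T.h (P (nat_lit 0)) (T.h (T.h (M (nat_lit 5896902701901632503807)) (T.h (P (nat_lit 0)) (P (nat_lit 274027275200200704)))) (T.h (P (nat_lit 0)) (M (nat_lit 42764403516555263)))))) (T.h (T.h (P (nat_lit 0)) (T.h (T.h (P (nat_lit 0)) (T.h (P (nat_lit 20428739442244583424)) (T.h (P (nat_lit 0)) (P (nat_lit 48030240726480))))) (T.h (P (nat_lit 0)) (T.h (T.h (P (nat_lit 0)) (P (nat_lit 48030240726480))) (P (nat_lit 0)))))) (T.h (T.h (T.h (P (nat_lit 5625047517624010801152)) (T.h (P (nat_lit 0)) (M (nat_lit 773751558242303)))) (T.h (P (nat_lit 0)) (M (nat_lit 773751558242303)))) (T.h (T.h (P (nat_lit 0)) (T.h (T.h (P (nat_lit 0)) (P (nat_lit 191230761875616))) (P (nat_lit 0)))) (M (nat_lit 4707057777278975))))))),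 (T.h (T.h (P (nat_lit 0)) (T.h (T.h (M (nat_lit 1423075270604688150537175039)) (T.h (P (nat_lit 0)) (T.h (M (nat_lit 102376935112423459782655)) (T.h (P (nat_lit 0)) (P (nat_lit 90922673937416192)))))) (T.h (P (nat_lit 0)) (T.h (T.h (M (nat_lit 31541551321386582015999)) (T.h (P (nat_lit 0)) (M (nat_lit 583663088441327615)))) (T.h (P (nat_lit 0)) (P (nat_lit 83195228683403264))))))) (T.h (T.h (T.h (P (nat_lit 0)) (T.h (P (nat_lit 29511644478875987024543744)) (T.h (P (nat_lit 0)) (T.h (P (nat_lit 21689621509727846400)) (T.h (P (nat_lit 0)) (P (nat_lit 30960665769472))))))) (T.h (P (nat_lit 0)) (T.h (T.h (P (nat_lit 0)) (T.h (P (nat_lit 153691193197182582784)) (T.h (P (nat_lit 0)) (M (nat_lit 114302531773695))))) (T.h (P (nat_lit 0)) (T.h (T.h (P (nat_lit 0)) (P (nat_lit 50090625483520))) (P (nat_lit 0))))))) (T.h (T.h (P (nat_lit 0)) (T.h (T.h (M (nat_lit 13965267832501478359039)) (T.h (P (nat_lit 0)) (P (nat_lit 219915359221579776)))) (T.h (P (nat_lit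 0)) (P (nat_lit 56911183249440768))))) (T.h (T.h (T.h (P (nat_lit 0)) (T.h (P (nat_lit 2035048669127901184)) (T.h (P (nat_lit 0)) (M (nat_lit 17904918011519))))) (T.h (P (nat_lit 0)) (T.h (T.h (P (nat_lit 0)) (M (nat_lit 40199411623103))) (P (nat_lit 0))))) (T.h (T.h (P (nat_lit 0)) (P (nat_lit 53881761470775296))) (T.h (T.h (T.h (P (nat_lit 0)) (P (nat_lit 605003880000))) (P (nat_lit 0))) (P (nat_lit 0)))))))), (T.h (T.h (P (nat_lit 0)) (T.h (T.h (P (nat_lit 0)) (T.h (P (nat_lit 3925105225115737463455744)) (T.h (P (nat_lit 0)) (T.h (P (nat_lit 339200111039458836480)) (T.h (P (nat_lit 0)) (P (nat_lit 418099953986208))))))) (T.h (P (nat_lit 0)) (T.h (T.h (P (nat_lit 0)) (T.h (M (nat_lit 70756264808229634047)) (T.h (P (nat_lit 0)) (P (nat_lit 356919587573616))))) (T.h (P (nat_lit 0)) (T.h (T.h (P (nat_lit 0)) (M (nat_lit 153484319177423))) (P (nat_lit 0)))))))) (T.h (T.h (T.h (M (nat_lit 5651764205519451235941351423)) (T.h (P (nat_lit 0)) (T.h (M (nat_lit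 12670811359082753032191)) (T.h (P (nat_lit 0)) (P (nat_lit 201008201338093568)))))) (T.h (P (nat_lit 0)) (T.h (T.h (P (nat_lit 5401474684980102692864)) (T.h (P (nat_lit 0)) (M (nat_lit 208198211023503359)))) (T.h (P (nat_lit 0)) (P (nat_lit 31510804217823232)))))) (T.h (T.h (P (nat_lit 0)) (T.h (T.h (P (nat_lit 0)) (T.h (P (nat_lit 29510078247831863296)) (T.h (P (nat_lit 0)) (M (nat_lit 111663856591199))))) (T.h (P (nat_lit 0)) (T.h (T.h (P (nat_lit 0)) (P (nat_lit 157454749658304))) (P (nat_lit 0)))))) (T.h (T.h (T.h (P (nat_lit 2150413618614238183424)) (T.h (P (nat_lit 0)) (M (nat_lit 39058420179075071)))) (T.h (P (nat_lit 0)) (M (nat_lit 16334309095342079)))) (T.h (T.h (P (nat_lit 0)) (T.h (T.h (P (nat_lit 0)) (M (nat_lit 235517594865407))) (P (nat_lit 0)))) (P (nat_lit 2760467853754368))))))), (T.h (T.h (P (nat_lit 0)) (T.h (T.h (P (nat_lit 19010715559394962457480921088)) (T.h (P (nat_lit 0)) (T.h (P (nat_lit 337256168840861870718976)) (T.h (P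 (nat_lit 0)) (P (nat_lit 537460537767034880)))))) (T.h (P (nat_lit 0)) (T.h (T.h (M (nat_lit 17167194726438533070847)) (T.h (P (nat_lit 0)) (P (nat_lit 217035851084890112)))) (T.h (P (nat_lit 0)) (M (nat_lit 51833134429732863))))))) (T.h (T.h (T.h (P (nat_lit 0)) (T.h (P (nat_lit 11796831539250381828653056)) (T.h (P (nat_lit 0)) (P (nat_lit 201848382004607844352))))) (T.h (P (nat_lit 0)) (T.h (T.h (P (nat_lit 0)) (M (nat_lit 27730665333827043327))) (P (nat_lit 0))))) (T.h (T.h (P (nat_lit 0)) (T.h (T.h (P (nat_lit 4534848523537343315968)) (T.h (P (nat_lit 0)) (M (nat_lit 146445637852594175)))) (T.h (P (nat_lit 0)) (P (nat_lit 39240781425016832))))) (T.h (T.h (T.h (P (nat_lit 0)) (M (nat_lit 11447994264663883775))) (P (nat_lit 0))) (T.h (T.h (P (nat_lit 0)) (M (nat_lit 72142769679368191))) (P (nat_lit 0))))))), (P (nat_lit 0)), (P (nat_lit 0))]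
def lQp_4 : List (T ℤ) := [(T.h (T.h (T.h (P (nat_lit 0)) (T.h (P (nat_lit 6109297295370027237344542720)) (T.h (P (nat_lit 0)) (T.h (P (nat_lit 6470624315378690424832)) (T.h (P (nat_lit 0)) (M (nat_lit 7102852997021695))))))) (T.h (P (nat_lit 0)) (T.h (T.h (P (nat_lit 0)) (T.h (P (nat_lit 3043298767001555566592)) (T.h (P (nat_lit 0)) (P (nat_lit 23901466144571392))))) (T.h (P (nat_lit 0)) (T.h (T.h (P (nat_lit 0)) (M (nat_lit 42195277170933759))) (P (nat_lit 0))))))) (T.h (T.h (P (nat_lit 0)) (T.h (T.h (M (nat_lit 284033478414364619833343)) (T.h (P (nat_lit 0)) (T.h (P (nat_lit 849028859926937600)) (T.h (P (nat_lit 0)) (P (nat_lit 8644918464696)))))) (T.h (P (nat_lit 0)) (T.h (T.h (M (nat_lit 5938503625511796735)) (T.h (P (nat_lit 0)) (M (nat_lit 72270515840055)))) (T.h (P (nat_lit 0)) (P (nat_lit 11280567779312))))))) (T.h (T.h (T.h (P (nat_lit 0)) (T.h (P (nat_lit 1686258149179302871040)) (T.h (P (nat_lit 0)) (M (nat_lit 433781979512831))))) (T.h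 (P (nat_lit 0)) (T.h (T.h (P (nat_lit 0)) (M (nat_lit 1978227750830079))) (P (nat_lit 0))))) (T.h (T.h (P (nat_lit 0)) (T.h (T.h (P (nat_lit 2140135256919900160)) (T.h (P (nat_lit 0)) (P (nat_lit 365975489448)))) (T.h (P (nat_lit 0)) (P (nat_lit 1179281324744))))) (T.h (T.h (T.h (P (nat_lit 0)) (P (nat_lit 417833758720000))) (P (nat_lit 0))) (T.h (T.h (P (nat_lit 0)) (M (nat_lit 2562489162783))) (P (nat_lit 0)))))))), (T.h (T.h (T.h (M (nat_lit 4760559981841400535819587944447)) (T.h (P (nat_lit 0)) (T.h (M (nat_lit 23554564491741895231275007)) (T.h (P (nat_lit 0)) (T.h (M (nat_lit 26277287895165304831)) (T.h (P (nat_lit 0)) (P (nat_lit 5106811990464)))))))) (T.h (P (nat_lit 0)) (T.h (T.h (M (nat_lit 12686087327818927969402879)) (T.h (P (nat_lit 0)) (T.h (M (nat_lit 98180377231073738751)) (T.h (P (nat_lit 0)) (M (nat_lit 35834186439263)))))) (T.h (P (nat_lit 0)) (T.h (T.h (P (nat_lit 79083973133016760320)) (T.h (P (nat_lit 0)) (M (nat_lit 19123657897535))))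 (T.h (P (nat_lit 0)) (P (nat_lit 33595231580112)))))))) (T.h (T.h (P (nat_lit 0)) (T.h (T.h (P (nat_lit 0)) (T.h (P (nat_lit 5718149774113176027136)) (T.h (P (nat_lit 0)) (M (nat_lit 87735198484725759))))) (T.h (P (nat_lit 0)) (T.h (T.h (P (nat_lit 0)) (P (nat_lit 88374154776510464))) (P (nat_lit 0)))))) (T.h (T.h (T.h (P (nat_lit 770520881638916390649856)) (T.h (P (nat_lit 0)) (T.h (M (nat_lit 6340317228499468287)) (T.h (P (nat_lit 0)) (M (nat_lit 2332677536639)))))) (T.h (P (nat_lit 0)) (T.h (T.h (M (nat_lit 20620189100488523775)) (T.h (P (nat_lit 0)) (M (nat_lit 23507951099487)))) (T.h (P (nat_lit 0)) (P (nat_lit 52052519111328)))))) (T.h (T.h (P (nat_lit 0)) (T.h (T.h (P (nat_lit 0)) (M (nat_lit 22477953384775679))) (P (nat_lit 0)))) (T.h (T.h (T.h (P (nat_lit 5476421613685571584)) (T.h (P (nat_lit 0)) (P (nat_lit 3880953721632)))) (T.h (P (nat_lit 0)) (M (nat_lit 4136082018047)))) (T.h (P (nat_lit 0)) (M (nat_lit 1226078413135)))))))), (T.h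 (T.h (T.h (P (nat_lit 0)) (T.h (M (nat_lit 1423075270604688150537175039)) (T.h (P (nat_lit 0)) (T.h (M (nat_lit 31541551321386582015999)) (T.h (P (nat_lit 0)) (P (nat_lit 83195228683403264))))))) (T.h (P (nat_lit 0)) (T.h (T.h (P (nat_lit 0)) (T.h (M (nat_lit 102376935112423459782655)) (T.h (P (nat_lit 0)) (M (nat_lit 583663088441327615))))) (T.h (P (nat_lit 0)) (T.h (T.h (P (nat_lit 0)) (P (nat_lit 90922673937416192))) (P (nat_lit 0))))))) (T.h (T.h (P (nat_lit 0)) (T.h (T.h (P (nat_lit 29511644478875987024543744)) (T.h (P (nat_lit 0)) (T.h (P (nat_lit 153691193197182582784)) (T.h (P (nat_lit 0)) (P (nat_lit 50090625483520)))))) (T.h (P (nat_lit 0)) (T.h (T.h (P (nat_lit 21689621509727846400)) (T.h (P (nat_lit 0)) (M (nat_lit 114302531773695)))) (T.h (P (nat_lit 0)) (P (nat_lit 30960665769472))))))) (T.h (T.h (T.h (P (nat_lit 0)) (T.h (M (nat_lit 13965267832501478359039)) (T.h (P (nat_lit 0)) (P (nat_lit 56911183249440768))))) (T.h (P (nat_lit 0))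 (T.h (T.h (P (nat_lit 0)) (P (nat_lit 219915359221579776))) (P (nat_lit 0))))) (T.h (T.h (P (nat_lit 0)) (T.h (T.h (P (nat_lit 2035048669127901184)) (T.h (P (nat_lit 0)) (M (nat_lit 40199411623103)))) (T.h (P (nat_lit 0)) (M (nat_lit 17904918011519))))) (T.h (T.h (T.h (P (nat_lit 0)) (P (nat_lit 53881761470775296))) (P (nat_lit 0))) (T.h (T.h (P (nat_lit 0)) (P (nat_lit 605003880000))) (P (nat_lit 0)))))))), (T.h (T.h (T.h (P (nat_lit 2123357838476180763854191460352)) (T.h (P (nat_lit 0)) (T.h (M (nat_lit 22516782888906730065887231)) (T.h (P (nat_lit 0)) (T.h (M (nat_lit 104061882536860581887)) (T.h (P (nat_lit 0)) (M (nat_lit 123801535670687)))))))) (T.h (P (nat_lit 0)) (T.h (T.h (M (nat_lit 22516782888906730065887231)) (T.h (P (nat_lit 0)) (T.h (M (nat_lit 524537083175312031743)) (T.h (P (nat_lit 0)) (P (nat_lit 8403018471936)))))) (T.h (P (nat_lit 0)) (T.h (T.h (M (nat_lit 104061882536860581887)) (T.h (P (nat_lit 0)) (P (nat_lit 8403018471936))))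 (T.h (P (nat_lit 0)) (M (nat_lit 123801535670687)))))))) (T.h (T.h (P (nat_lit 0)) (T.h (T.h (P (nat_lit 0)) (T.h (M (nat_lit 117849340262303427198975)) (T.h (P (nat_lit 0)) (M (nat_lit 269575616239108095))))) (T.h (P (nat_lit 0)) (T.h (T.h (P (nat_lit 0)) (M (nat_lit 269575616239108095))) (P (nat_lit 0)))))) (T.h (T.h (T.h (M (nat_lit 3569970915382682005274623)) (T.h (P (nat_lit 0)) (T.h (P (nat_lit 10043804351757025280)) (T.h (P (nat_lit 0)) (P (nat_lit 41722221577392)))))) (T.h (P (nat_lit 0)) (T.h (T.h (P (nat_lit 10043804351757025280)) (T.h (P (nat_lit 0)) (P (nat_lit 330438239353728)))) (T.h (P (nat_lit 0)) (P (nat_lit 41722221577392)))))) (T.h (T.h (P (nat_lit 0)) (T.h (T.h (P (nat_lit 0)) (P (nat_lit 98096991864422400))) (P (nat_lit 0)))) (T.h (T.h (T.h (P (nat_lit 10733473574665846784)) (T.h (P (nat_lit 0)) (P (nat_lit 51762713890032)))) (T.h (P (nat_lit 0)) (P (nat_lit 51762713890032)))) (T.h (P (nat_lit 0)) (M (nat_lit 2380305145823)))))))),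 (T.h (T.h (T.h (P (nat_lit 0)) (T.h (M (nat_lit 4622686116289818125836222463)) (T.h (P (nat_lit 0)) (T.h (M (nat_lit 67326681209505262338047)) (T.h (P (nat_lit 0)) (M (nat_lit 73889396061962239))))))) (T.h (P (nat_lit 0)) (T.h (T.h (P (nat_lit 0)) (T.h (M (nat_lit 210632273554275901112319)) (T.h (P (nat_lit 0)) (P (nat_lit 251305719263821824))))) (T.h (P (nat_lit 0)) (T.h (T.h (P (nat_lit 0)) (M (nat_lit 170806740523974655))) (P (nat_lit 0))))))) (T.h (T.h (P (nat_lit 0)) (T.h (T.h (M (nat_lit 32368617483080180722302975)) (T.h (P (nat_lit 0)) (M (nat_lit 210714216620942688255)))) (T.h (P (nat_lit 0)) (M (nat_lit 70812932436679196671))))) (T.h (T.h (T.h (P (nat_lit 0)) (T.h (M (nat_lit 5038203398620824207359)) (T.h (P (nat_lit 0)) (P (nat_lit 12566762318135296))))) (T.h (P (nat_lit 0)) (T.h (T.h (P (nat_lit 0)) (P (nat_lit 257875223365943296))) (P (nat_lit 0))))) (T.h (T.h (P (nat_lit 0)) (P (nat_lit 30422275876538286080))) (T.h (T.h (T.h (P (nat_lit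 0)) (M (nat_lit 30035550910087167))) (P (nat_lit 0))) (P (nat_lit 0))))))), (P (nat_lit 0)), (P (nat_lit 0)), (T.h (T.h (P (nat_lit 0)) (T.h (T.h (M (nat_lit 3839514313513014043615428607)) (T.h (P (nat_lit 0)) (T.h (P (nat_lit 1686860910799498510336)) (T.h (P (nat_lit 0)) (M (nat_lit 1885774712307711)))))) (T.h (P (nat_lit 0)) (T.h (T.h (P (nat_lit 3646535431745731297280)) (T.h (P (nat_lit 0)) (M (nat_lit 4778343383728127)))) (T.h (P (nat_lit 0)) (M (nat_lit 137409198948351))))))) (T.h (T.h (T.h (P (nat_lit 0)) (T.h (P (nat_lit 2802841087763088546988032)) (T.h (P (nat_lit 0)) (T.h (P (nat_lit 1002591225452167168)) (T.h (P (nat_lit 0)) (P (nat_lit 1007079246328))))))) (T.h (P (nat_lit 0)) (T.h (T.h (P (nat_lit 0)) (T.h (M (nat_lit 15043258930488672255)) (T.h (P (nat_lit 0)) (M (nat_lit 6893533280159))))) (T.h (P (nat_lit 0)) (T.h (T.h (P (nat_lit 0)) (M (nat_lit 90631147302591))) (P (nat_lit 0))))))) (T.h (T.h (P (nat_lit 0)) (T.h (T.h (P (nat_lit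 1686860910799498510336)) (T.h (P (nat_lit 0)) (P (nat_lit 9154749834854400)))) (T.h (P (nat_lit 0)) (M (nat_lit 4778343383728127))))) (T.h (T.h (T.h (P (nat_lit 0)) (T.h (P (nat_lit 1002591225452167168)) (T.h (P (nat_lit 0)) (P (nat_lit 48440508656))))) (T.h (P (nat_lit 0)) (T.h (T.h (P (nat_lit 0)) (M (nat_lit 6893533280159))) (P (nat_lit 0))))) (T.h (T.h (P (nat_lit 0)) (M (nat_lit 1885774712307711))) (T.h (T.h (T.h (P (nat_lit 0)) (P (nat_lit 1007079246328))) (P (nat_lit 0))) (P (nat_lit 0))))))))]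
def lQp_5 : List (T ℤ) := [(T.h (T.h (P (nat_lit 0)) (T.h (T.h (P (nat_lit 0)) (T.h (P (nat_lit 7108667783362390295314432)) (T.h (P (nat_lit 0)) (T.h (P (nat_lit 6429138738500075520)) (T.h (P (nat_lit 0)) (M (nat_lit 2171138809055))))))) (T.h (P (nat_lit 0)) (T.h (T.h (P (nat_lit 0)) (T.h (M (nat_lit 154584634236227026943)) (T.h (P (nat_lit 0)) (P (nat_lit 19834863972112))))) (T.h (P (nat_lit 0)) (T.h (T.h (P (nat_lit 0)) (M (nat_lit 335941989346463))) (P (nat_lit 0)))))))) (T.h (T.h (T.h (M (nat_lit 8791771181520521901880901631)) (T.h (P (nat_lit 0)) (T.h (P (nat_lit 9840168828146097848320)) (T.h (P (nat_lit 0)) (P (nat_lit 28202771527335936)))))) (T.h (P (nat_lit 0)) (T.h (T.h (P (nat_lit 22020359117771091476480)) (T.h (P (nat_lit 0)) (P (nat_lit 38653626529546240)))) (T.h (P (nat_lit 0)) (M (nat_lit 121640918615326719)))))) (T.h (T.h (P (nat_lit 0)) (T.h (T.h (P (nat_lit 0)) (T.h (M (nat_lit 6625341527327506431)) (T.h (P (nat_lit 0)) (P (nat_lit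 7731991111936))))) (T.h (P (nat_lit 0)) (T.h (T.h (P (nat_lit 0)) (P (nat_lit 19291176429520))) (P (nat_lit 0)))))) (T.h (T.h (T.h (P (nat_lit 1197127384719865937920)) (T.h (P (nat_lit 0)) (P (nat_lit 8554117372231680)))) (T.h (P (nat_lit 0)) (M (nat_lit 644596779991039)))) (T.h (T.h (P (nat_lit 0)) (T.h (T.h (P (nat_lit 0)) (M (nat_lit 6391443606815))) (P (nat_lit 0)))) (M (nat_lit 578348013797375))))))), (T.h (T.h (P (nat_lit 0)) (T.h (T.h (P (nat_lit 7964465409808473183024578560)) (T.h (P (nat_lit 0)) (T.h (M (nat_lit 135355189748246979280895)) (T.h (P (nat_lit 0)) (M (nat_lit 11688336278388735)))))) (T.h (P (nat_lit 0)) (T.h (T.h (M (nat_lit 7119774854517733982207)) (T.h (P (nat_lit 0)) (M (nat_lit 285802558304780287)))) (T.h (P (nat_lit 0)) (M (nat_lit 148082487392174079))))))) (T.h (T.h (T.h (P (nat_lit 0)) (T.h (M (nat_lit 36565551147893332237090815)) (T.h (P (nat_lit 0)) (T.h (M (nat_lit 22323664257476984831)) (T.h (P (nat_lit 0)) (P (nat_lit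 24139558673280))))))) (T.h (P (nat_lit 0)) (T.h (T.h (P (nat_lit 0)) (T.h (M (nat_lit 136602560658321440767)) (T.h (P (nat_lit 0)) (M (nat_lit 66324274011007))))) (T.h (P (nat_lit 0)) (T.h (T.h (P (nat_lit 0)) (M (nat_lit 206420040118655))) (P (nat_lit 0))))))) (T.h (T.h (P (nat_lit 0)) (T.h (T.h (M (nat_lit 23922005058509963526143)) (T.h (P (nat_lit 0)) (P (nat_lit 76855338413654016)))) (T.h (P (nat_lit 0)) (P (nat_lit 35586079954829312))))) (T.h (T.h (T.h (P (nat_lit 0)) (T.h (P (nat_lit 40838291985006592000)) (T.h (P (nat_lit 0)) (M (nat_lit 4242820383295))))) (T.h (P (nat_lit 0)) (T.h (T.h (P (nat_lit 0)) (P (nat_lit 9075415495296))) (P (nat_lit 0))))) (T.h (T.h (P (nat_lit 0)) (P (nat_lit 19433905954488320))) (T.h (T.h (T.h (P (nat_lit 0)) (M (nat_lit 2955205671167))) (P (nat_lit 0))) (P (nat_lit 0)))))))), (T.h (T.h (P (nat_lit 0)) (T.h (T.h (P (nat_lit 0)) (T.h (P (nat_lit 3925105225115737463455744)) (T.h (P (nat_lit 0)) (T.h (M (nat_lit 70756264808229634047))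 (T.h (P (nat_lit 0)) (M (nat_lit 153484319177423))))))) (T.h (P (nat_lit 0)) (T.h (T.h (P (nat_lit 0)) (T.h (P (nat_lit 339200111039458836480)) (T.h (P (nat_lit 0)) (P (nat_lit 356919587573616))))) (T.h (P (nat_lit 0)) (T.h (T.h (P (nat_lit 0)) (P (nat_lit 418099953986208))) (P (nat_lit 0)))))))) (T.h (T.h (T.h (M (nat_lit 5651764205519451235941351423)) (T.h (P (nat_lit 0)) (T.h (P (nat_lit 5401474684980102692864)) (T.h (P (nat_lit 0)) (P (nat_lit 31510804217823232)))))) (T.h (P (nat_lit 0)) (T.h (T.h (M (nat_lit 12670811359082753032191)) (T.h (P (nat_lit 0)) (M (nat_lit 208198211023503359)))) (T.h (P (nat_lit 0)) (P (nat_lit 201008201338093568)))))) (T.h (T.h (P (nat_lit 0)) (T.h (T.h (P (nat_lit 0)) (T.h (P (nat_lit 29510078247831863296)) (T.h (P (nat_lit 0)) (P (nat_lit 157454749658304))))) (T.h (P (nat_lit 0)) (T.h (T.h (P (nat_lit 0)) (M (nat_lit 111663856591199))) (P (nat_lit 0)))))) (T.h (T.h (T.h (P (nat_lit 2150413618614238183424)) (T.h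 (P (nat_lit 0)) (M (nat_lit 16334309095342079)))) (T.h (P (nat_lit 0)) (M (nat_lit 39058420179075071)))) (T.h (T.h (P (nat_lit 0)) (T.h (T.h (P (nat_lit 0)) (M (nat_lit 235517594865407))) (P (nat_lit 0)))) (P (nat_lit 2760467853754368))))))), (T.h (T.h (P (nat_lit 0)) (T.h (T.h (M (nat_lit 4622686116289818125836222463)) (T.h (P (nat_lit 0)) (T.h (M (nat_lit 210632273554275901112319)) (T.h (P (nat_lit 0)) (M (nat_lit 170806740523974655)))))) (T.h (P (nat_lit 0)) (T.h (T.h (M (nat_lit 67326681209505262338047)) (T.h (P (nat_lit 0)) (P (nat_lit 251305719263821824)))) (T.h (P (nat_lit 0)) (M (nat_lit 73889396061962239))))))) (T.h (T.h (T.h (P (nat_lit 0)) (T.h (M (nat_lit 32368617483080180722302975)) (T.h (P (nat_lit 0)) (M (nat_lit 70812932436679196671))))) (T.h (P (nat_lit 0)) (T.h (T.h (P (nat_lit 0)) (M (nat_lit 210714216620942688255))) (P (nat_lit 0))))) (T.h (T.h (P (nat_lit 0)) (T.h (T.h (M (nat_lit 5038203398620824207359)) (T.h (P (nat_lit 0))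 (P (nat_lit 257875223365943296)))) (T.h (P (nat_lit 0)) (P (nat_lit 12566762318135296))))) (T.h (T.h (T.h (P (nat_lit 0)) (P (nat_lit 30422275876538286080))) (P (nat_lit 0))) (T.h (T.h (P (nat_lit 0)) (M (nat_lit 30035550910087167))) (P (nat_lit 0))))))), (P (nat_lit 0)), (P (nat_lit 0)), (T.h (T.h (T.h (M (nat_lit 7433080326342683754766599716863)) (T.h (P (nat_lit 0)) (T.h (P (nat_lit 3778435464726847852380160)) (T.h (P (nat_lit 0)) (T.h (P (nat_lit 775294767817818112)) (T.h (P (nat_lit 0)) (M (nat_lit 394146612063)))))))) (T.h (P (nat_lit 0)) (T.h (T.h (M (nat_lit 10067385610448579600580607)) (T.h (P (nat_lit 0)) (T.h (M (nat_lit 26327728948397473791)) (T.h (P (nat_lit 0)) (M (nat_lit 12025278876719)))))) (T.h (P (nat_lit 0)) (T.h (T.h (P (nat_lit 4366090264486346752)) (T.h (P (nat_lit 0)) (M (nat_lit 6531616341807)))) (T.h (P (nat_lit 0)) (P (nat_lit 10239292669440)))))))) (T.h (T.h (P (nat_lit 0)) (T.h (T.h (P (nat_lit 0)) (T.h (M (nat_lit 10073615372514213494783))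 (T.h (P (nat_lit 0)) (P (nat_lit 11749017991118848))))) (T.h (P (nat_lit 0)) (T.h (T.h (P (nat_lit 0)) (M (nat_lit 153757479444742143))) (P (nat_lit 0)))))) (T.h (T.h (T.h (P (nat_lit 3778435464726847852380160)) (T.h (P (nat_lit 0)) (T.h (M (nat_lit 2350797395471630335)) (T.h (P (nat_lit 0)) (M (nat_lit 1928525502543)))))) (T.h (P (nat_lit 0)) (T.h (T.h (M (nat_lit 26327728948397473791)) (T.h (P (nat_lit 0)) (M (nat_lit 46369747134399)))) (T.h (P (nat_lit 0)) (M (nat_lit 6531616341807)))))) (T.h (T.h (P (nat_lit 0)) (T.h (T.h (P (nat_lit 0)) (P (nat_lit 11749017991118848))) (P (nat_lit 0)))) (T.h (T.h (T.h (P (nat_lit 775294767817818112)) (T.h (P (nat_lit 0)) (M (nat_lit 1928525502543)))) (T.h (P (nat_lit 0)) (M (nat_lit 12025278876719)))) (T.h (P (nat_lit 0)) (M (nat_lit 394146612063)))))))), (T.h (T.h (T.h (P (nat_lit 0)) (T.h (M (nat_lit 6839413366052023076718116863)) (T.h (P (nat_lit 0)) (T.h (M (nat_lit 12737252216992320978943)) (T.h (P (nat_lit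 0)) (P (nat_lit 17277707598233600))))))) (T.h (P (nat_lit 0)) (T.h (T.h (P (nat_lit 0)) (T.h (M (nat_lit 24888676228541148299263)) (T.h (P (nat_lit 0)) (M (nat_lit 10511957737865215))))) (T.h (P (nat_lit 0)) (T.h (T.h (P (nat_lit 0)) (M (nat_lit 395879561561014271))) (P (nat_lit 0))))))) (T.h (T.h (P (nat_lit 0)) (T.h (T.h (P (nat_lit 5168368424837279068979200)) (T.h (P (nat_lit 0)) (T.h (M (nat_lit 8926032916207632383)) (T.h (P (nat_lit 0)) (M (nat_lit 7728486802623)))))) (T.h (P (nat_lit 0)) (T.h (T.h (M (nat_lit 157094665944054104063)) (T.h (P (nat_lit 0)) (M (nat_lit 41957170643903)))) (T.h (P (nat_lit 0)) (M (nat_lit 131752181722495))))))) (T.h (T.h (T.h (P (nat_lit 0)) (T.h (P (nat_lit 84204815432911159296)) (T.h (P (nat_lit 0)) (P (nat_lit 10516355926327296))))) (T.h (P (nat_lit 0)) (T.h (T.h (P (nat_lit 0)) (P (nat_lit 103386342155976704))) (P (nat_lit 0))))) (T.h (T.h (P (nat_lit 0)) (T.h (T.h (M (nat_lit 23742450305689714687)) (T.h (P (nat_lit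 0)) (M (nat_lit 24569655262335)))) (T.h (P (nat_lit 0)) (P (nat_lit 17796002755584))))) (T.h (T.h (T.h (P (nat_lit 0)) (M (nat_lit 24592959480430591))) (P (nat_lit 0))) (T.h (T.h (P (nat_lit 0)) (P (nat_lit 2784107884416))) (P (nat_lit 0))))))))]
def lQp_6 : List (T ℤ) := [(T.h (T.h (T.h (M (nat_lit 6550205974850090925245048291327)) (T.h (P (nat_lit 0)) (T.h (P (nat_lit 24644433191013854713217024)) (T.h (P (nat_lit 0)) (T.h (P (nat_lit 12995145507583033344)) (T.h (P (nat_lit 0)) (M (nat_lit 12383001643247)))))))) (T.h (P (nat_lit 0)) (T.h (T.h (M (nat_lit 10820930293763412938719231)) (T.h (P (nat_lit 0)) (T.h (P (nat_lit 247730919216223617024)) (T.h (P (nat_lit 0)) (M (nat_lit 29246983189487)))))) (T.h (P (nat_lit 0)) (T.h (T.h (P (nat_lit 10167124700157706240)) (T.h (P (nat_lit 0)) (P (nat_lit 135693679464000)))) (T.h (P (nat_lit 0)) (M (nat_lit 1900902457007)))))))) (T.h (T.h (P (nat_lit 0)) (T.h (T.h (P (nat_lit 0)) (T.h (P (nat_lit 9561867817973534687232))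 (T.h (P (nat_lit 0)) (M (nat_lit 36175207789887487))))) (T.h (P (nat_lit 0)) (T.h (T.h (P (nat_lit 0)) (M (nat_lit 202715487664177151))) (P (nat_lit 0)))))) (T.h (T.h (T.h (P (nat_lit 914669431254911916441600)) (T.h (P (nat_lit 0)) (T.h (P (nat_lit 16663814109501849600)) (T.h (P (nat_lit 0)) (P (nat_lit 3747522647088)))))) (T.h (P (nat_lit 0)) (T.h (T.h (P (nat_lit 32321156511269126144)) (T.h (P (nat_lit 0)) (M (nat_lit 154284181097903)))) (T.h (P (nat_lit 0)) (M (nat_lit 154054818207791)))))) (T.h (T.h (P (nat_lit 0)) (T.h (T.h (P (nat_lit 0)) (M (nat_lit 2980120280563711))) (P (nat_lit 0)))) (T.h (T.h (T.h (M (nat_lit 10956550989288570879)) (T.h (P (nat_lit 0)) (M (nat_lit 40758030476063)))) (T.h (P (nat_lit 0)) (M (nat_lit 40633845785423)))) (T.h (P (nat_lit 0)) (P (nat_lit 2262664312560)))))))), (T.h (T.h (T.h (P (nat_lit 0)) (T.h (P (nat_lit 19010715559394962457480921088)) (T.h (P (nat_lit 0)) (T.h (M (nat_lit 17167194726438533070847)) (T.h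 (P (nat_lit 0)) (M (nat_lit 51833134429732863))))))) (T.h (P (nat_lit 0)) (T.h (T.h (P (nat_lit 0)) (T.h (P (nat_lit 337256168840861870718976)) (T.h (P (nat_lit 0)) (P (nat_lit 217035851084890112))))) (T.h (P (nat_lit 0)) (T.h (T.h (P (nat_lit 0)) (P (nat_lit 537460537767034880))) (P (nat_lit 0))))))) (T.h (T.h (P (nat_lit 0)) (T.h (T.h (P (nat_lit 11796831539250381828653056)) (T.h (P (nat_lit 0)) (M (nat_lit 27730665333827043327)))) (T.h (P (nat_lit 0)) (P (nat_lit 201848382004607844352))))) (T.h (T.h (T.h (P (nat_lit 0)) (T.h (P (nat_lit 4534848523537343315968)) (T.h (P (nat_lit 0)) (P (nat_lit 39240781425016832))))) (T.h (P (nat_lit 0)) (T.h (T.h (P (nat_lit 0)) (M (nat_lit 146445637852594175))) (P (nat_lit 0))))) (T.h (T.h (P (nat_lit 0)) (M (nat_lit 11447994264663883775))) (T.h (T.h (T.h (P (nat_lit 0)) (M (nat_lit 72142769679368191))) (P (nat_lit 0))) (P (nat_lit 0))))))), (P (nat_lit 0)), (P (nat_lit 0)), (T.h (T.h (P (nat_lit 0)) (T.h (T.h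 (M (nat_lit 3147512656405071884711886847)) (T.h (P (nat_lit 0)) (T.h (P (nat_lit 275758408499906740224)) (T.h (P (nat_lit 0)) (M (nat_lit 6796418047999999)))))) (T.h (P (nat_lit 0)) (T.h (T.h (M (nat_lit 13783003363915946000383)) (T.h (P (nat_lit 0)) (P (nat_lit 32178130169331712)))) (T.h (P (nat_lit 0)) (P (nat_lit 83436595345620992))))))) (T.h (T.h (T.h (P (nat_lit 0)) (T.h (M (nat_lit 639228361562408211185663)) (T.h (P (nat_lit 0)) (T.h (P (nat_lit 3612582974958075904)) (T.h (P (nat_lit 0)) (M (nat_lit 1035188088447))))))) (T.h (P (nat_lit 0)) (T.h (T.h (P (nat_lit 0)) (T.h (M (nat_lit 4295856609243955199)) (T.h (P (nat_lit 0)) (P (nat_lit 24592427548416))))) (T.h (P (nat_lit 0)) (T.h (T.h (P (nat_lit 0)) (P (nat_lit 181262294860032))) (P (nat_lit 0))))))) (T.h (T.h (P (nat_lit 0)) (T.h (T.h (P (nat_lit 275758408499906740224)) (T.h (P (nat_lit 0)) (M (nat_lit 24836961151156223)))) (T.h (P (nat_lit 0)) (P (nat_lit 32178130169331712))))) (T.h (T.h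 (T.h (P (nat_lit 0)) (T.h (P (nat_lit 3612582974958075904)) (T.h (P (nat_lit 0)) (M (nat_lit 96880908671))))) (T.h (P (nat_lit 0)) (T.h (T.h (P (nat_lit 0)) (P (nat_lit 24592427548416))) (P (nat_lit 0))))) (T.h (T.h (P (nat_lit 0)) (M (nat_lit 6796418047999999))) (T.h (T.h (T.h (P (nat_lit 0)) (M (nat_lit 1035188088447))) (P (nat_lit 0))) (P (nat_lit 0)))))))), (T.h (T.h (P (nat_lit 0)) (T.h (T.h (P (nat_lit 0)) (T.h (P (nat_lit 2647328885556425852452864)) (T.h (P (nat_lit 0)) (T.h (M (nat_lit 14044839506763317247)) (T.h (P (nat_lit 0)) (M (nat_lit 3743196082991))))))) (T.h (P (nat_lit 0)) (T.h (T.h (P (nat_lit 0)) (T.h (P (nat_lit 88326269022941216768)) (T.h (P (nat_lit 0)) (M (nat_lit 15746492039039))))) (T.h (P (nat_lit 0)) (T.h (T.h (P (nat_lit 0)) (P (nat_lit 310329193881600))) (P (nat_lit 0)))))))) (T.h (T.h (T.h (P (nat_lit 7229277941798989040011182080)) (T.h (P (nat_lit 0)) (T.h (M (nat_lit 5074626016790479634431)) (T.h (P (nat_lit 0)) (M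 (nat_lit 25150337114456063)))))) (T.h (P (nat_lit 0)) (T.h (T.h (P (nat_lit 55893712121856740294656)) (T.h (P (nat_lit 0)) (M (nat_lit 37873789833461759)))) (T.h (P (nat_lit 0)) (P (nat_lit 43907669705129984)))))) (T.h (T.h (P (nat_lit 0)) (T.h (T.h (P (nat_lit 0)) (T.h (M (nat_lit 9959165120451969023)) (T.h (P (nat_lit 0)) (M (nat_lit 43491366017423))))) (T.h (P (nat_lit 0)) (T.h (T.h (P (nat_lit 0)) (M (nat_lit 157763501468927))) (P (nat_lit 0)))))) (T.h (T.h (T.h (M (nat_lit 1700234646761114697727)) (T.h (P (nat_lit 0)) (P (nat_lit 6140512668286976)))) (T.h (P (nat_lit 0)) (P (nat_lit 24900390032965632)))) (T.h (T.h (P (nat_lit 0)) (T.h (T.h (P (nat_lit 0)) (P (nat_lit 17575024374576))) (P (nat_lit 0)))) (M (nat_lit 1766672385900543))))))), (T.h (T.h (P (nat_lit 0)) (T.h (T.h (M (nat_lit 5938840239767262457329876991)) (T.h (P (nat_lit 0)) (T.h (P (nat_lit 83505656668972851920896)) (T.h (P (nat_lit 0)) (M (nat_lit 17569552337108991)))))) (T.h (P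 (nat_lit 0)) (T.h (T.h (P (nat_lit 15260972577348049174528)) (T.h (P (nat_lit 0)) (P (nat_lit 112761797231247360)))) (T.h (P (nat_lit 0)) (P (nat_lit 68021766630866944))))))) (T.h (T.h (T.h (P (nat_lit 0)) (T.h (P (nat_lit 8121832179209592299847680)) (T.h (P (nat_lit 0)) (M (nat_lit 18589109809936596991))))) (T.h (P (nat_lit 0)) (T.h (T.h (P (nat_lit 0)) (P (nat_lit 9408689513531703296))) (P (nat_lit 0))))) (T.h (T.h (P (nat_lit 0)) (T.h (T.h (P (nat_lit 32448110580492473991168)) (T.h (P (nat_lit 0)) (M (nat_lit 99906550954229759)))) (T.h (P (nat_lit 0)) (M (nat_lit 176124080196288511))))) (T.h (T.h (T.h (P (nat_lit 0)) (P (nat_lit 6818117037345210368))) (P (nat_lit 0))) (T.h (T.h (P (nat_lit 0)) (M (nat_lit 14493620268662783))) (P (nat_lit 0))))))), (P (nat_lit 0))]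
def lQp_7 : List (T ℤ) := [(P (nat_lit 0)), (T.h (T.h (T.h (P (nat_lit 2404850019828621642210004172800)) (T.h (P (nat_lit 0)) (T.h (M (nat_lit 3441592084653494088237055)) (T.h (P (nat_lit 0)) (T.h (P (nat_lit 343924005943640064)) (T.h (P (nat_lit 0)) (P (nat_lit 485082553536)))))))) (T.h (P (nat_lit 0)) (T.h (T.h (P (nat_lit 9662666993077348152115200)) (T.h (P (nat_lit 0)) (T.h (P (nat_lit 850769915450228736)) (T.h (P (nat_lit 0)) (P (nat_lit 21823059736368)))))) (T.h (P (nat_lit 0)) (T.h (T.h (P (nat_lit 7533545651754237952)) (T.h (P (nat_lit 0)) (P (nat_lit 17223692796864)))) (T.h (P (nat_lit 0)) (M (nat_lit 18430719318143)))))))) (T.h (T.h (P (nat_lit 0)) (T.h (T.h (P (nat_lit 0)) (T.h (P (nat_lit 4858780883919092842496)) (T.h (P (nat_lit 0)) (P (nat_lit 8976329387016192))))) (T.h (P (nat_lit 0)) (T.h (T.h (P (nat_lit 0)) (P (nat_lit 221025023427870720))) (P (nat_lit 0)))))) (T.h (T.h (T.h (M (nat_lit 3441592084653494088237055)) (T.h (P (nat_lit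 0)) (T.h (M (nat_lit 4101749946523320319)) (T.h (P (nat_lit 0)) (P (nat_lit 6479329439808)))))) (T.h (P (nat_lit 0)) (T.h (T.h (P (nat_lit 850769915450228736)) (T.h (P (nat_lit 0)) (P (nat_lit 83465545105728)))) (T.h (P (nat_lit 0)) (P (nat_lit 17223692796864)))))) (T.h (T.h (P (nat_lit 0)) (T.h (T.h (P (nat_lit 0)) (P (nat_lit 8976329387016192))) (P (nat_lit 0)))) (T.h (T.h (T.h (P (nat_lit 343924005943640064)) (T.h (P (nat_lit 0)) (P (nat_lit 6479329439808)))) (T.h (P (nat_lit 0)) (P (nat_lit 21823059736368)))) (T.h (P (nat_lit 0)) (P (nat_lit 485082553536)))))))), (T.h (T.h (T.h (P (nat_lit 0)) (T.h (P (nat_lit 1069719061105742419312246784)) (T.h (P (nat_lit 0)) (T.h (M (nat_lit 4810639926731932172287)) (T.h (P (nat_lit 0)) (M (nat_lit 189485684457471))))))) (T.h (P (nat_lit 0)) (T.h (T.h (P (nat_lit 0)) (T.h (P (nat_lit 9039233065320873721856)) (T.h (P (nat_lit 0)) (P (nat_lit 9114228696940544))))) (T.h (P (nat_lit 0)) (T.h (T.h (P (nat_lit 0))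 (P (nat_lit 360924354560393216))) (P (nat_lit 0))))))) (T.h (T.h (P (nat_lit 0)) (T.h (T.h (P (nat_lit 1761177201905144919228416)) (T.h (P (nat_lit 0)) (M (nat_lit 13635200529196908543)))) (T.h (P (nat_lit 0)) (P (nat_lit 159289274093619118080))))) (T.h (T.h (T.h (P (nat_lit 0)) (T.h (M (nat_lit 167114983961662586879)) (T.h (P (nat_lit 0)) (M (nat_lit 3999072314753023))))) (T.h (P (nat_lit 0)) (T.h (T.h (P (nat_lit 0)) (M (nat_lit 69713786696892415))) (P (nat_lit 0))))) (T.h (T.h (P (nat_lit 0)) (P (nat_lit 1424453042811437056))) (T.h (T.h (T.h (P (nat_lit 0)) (P (nat_lit 6948109256065024))) (P (nat_lit 0))) (P (nat_lit 0))))))), (P (nat_lit 0)), (P (nat_lit 0)), (T.h (T.h (P (nat_lit 0)) (T.h (T.h (P (nat_lit 6946700081529947634800787456)) (T.h (P (nat_lit 0)) (T.h (M (nat_lit 2528644232359897464831)) (T.h (P (nat_lit 0)) (P (nat_lit 9931916964462592)))))) (T.h (P (nat_lit 0)) (T.h (T.h (P (nat_lit 6537014371178130702336)) (T.h (P (nat_lit 0)) (P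 (nat_lit 15677387932434432)))) (T.h (P (nat_lit 0)) (M (nat_lit 25164075442372607))))))) (T.h (T.h (T.h (P (nat_lit 0)) (T.h (M (nat_lit 2399690788163493904252927)) (T.h (P (nat_lit 0)) (M (nat_lit 822611858266521599))))) (T.h (P (nat_lit 0)) (T.h (T.h (P (nat_lit 0)) (P (nat_lit 24174887929991135232))) (P (nat_lit 0))))) (T.h (T.h (P (nat_lit 0)) (T.h (T.h (M (nat_lit 2528644232359897464831)) (T.h (P (nat_lit 0)) (P (nat_lit 37986096972562432)))) (T.h (P (nat_lit 0)) (P (nat_lit 15677387932434432))))) (T.h (T.h (T.h (P (nat_lit 0)) (M (nat_lit 822611858266521599))) (P (nat_lit 0))) (T.h (T.h (P (nat_lit 0)) (P (nat_lit 9931916964462592))) (P (nat_lit 0))))))), (P (nat_lit 0)), (P (nat_lit 0))]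
def lQp_8 : List (T ℤ) := [(P (nat_lit 0)), (P (nat_lit 0)), (P (nat_lit 0)), (T.h (T.h (P (nat_lit 0)) (T.h (T.h (P (nat_lit 0)) (T.h (M (nat_lit 284033478414364619833343)) (T.h (P (nat_lit 0)) (T.h (M (nat_lit 5938503625511796735)) (T.h (P (nat_lit 0)) (P (nat_lit 11280567779312))))))) (T.h (P (nat_lit 0)) (T.h (T.h (P (nat_lit 0)) (T.h (P (nat_lit 2140135256919900160)) (T.h (P (nat_lit 0)) (P (nat_lit 1179281324744))))) (T.h (P (nat_lit 0)) (T.h (T.h (P (nat_lit 0)) (M (nat_lit 2562489162783))) (P (nat_lit 0)))))))) (T.h (T.h (T.h (P (nat_lit 6109297295370027237344542720)) (T.h (P (nat_lit 0)) (T.h (P (nat_lit 3043298767001555566592)) (T.h (P (nat_lit 0)) (M (nat_lit 42195277170933759)))))) (T.h (P (nat_lit 0)) (T.h (T.h (P (nat_lit 1686258149179302871040)) (T.h (P (nat_lit 0)) (M (nat_lit 1978227750830079)))) (T.h (P (nat_lit 0)) (P (nat_lit 417833758720000)))))) (T.h (T.h (P (nat_lit 0)) (T.h (T.h (P (nat_lit 0)) (T.h (P (nat_lit 849028859926937600))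 (T.h (P (nat_lit 0)) (M (nat_lit 72270515840055))))) (T.h (P (nat_lit 0)) (T.h (T.h (P (nat_lit 0)) (P (nat_lit 365975489448))) (P (nat_lit 0)))))) (T.h (T.h (T.h (P (nat_lit 6470624315378690424832)) (T.h (P (nat_lit 0)) (P (nat_lit 23901466144571392)))) (T.h (P (nat_lit 0)) (M (nat_lit 433781979512831)))) (T.h (T.h (P (nat_lit 0)) (T.h (T.h (P (nat_lit 0)) (P (nat_lit 8644918464696))) (P (nat_lit 0)))) (M (nat_lit 7102852997021695))))))), (T.h (T.h (P (nat_lit 0)) (T.h (T.h (M (nat_lit 8791771181520521901880901631)) (T.h (P (nat_lit 0)) (T.h (P (nat_lit 22020359117771091476480)) (T.h (P (nat_lit 0)) (M (nat_lit 121640918615326719)))))) (T.h (P (nat_lit 0)) (T.h (T.h (P (nat_lit 1197127384719865937920)) (T.h (P (nat_lit 0)) (M (nat_lit 644596779991039)))) (T.h (P (nat_lit 0)) (M (nat_lit 578348013797375))))))) (T.h (T.h (T.h (P (nat_lit 0)) (T.h (P (nat_lit 7108667783362390295314432)) (T.h (P (nat_lit 0)) (T.h (M (nat_lit 154584634236227026943))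 (T.h (P (nat_lit 0)) (M (nat_lit 335941989346463))))))) (T.h (P (nat_lit 0)) (T.h (T.h (P (nat_lit 0)) (T.h (M (nat_lit 6625341527327506431)) (T.h (P (nat_lit 0)) (P (nat_lit 19291176429520))))) (T.h (P (nat_lit 0)) (T.h (T.h (P (nat_lit 0)) (M (nat_lit 6391443606815))) (P (nat_lit 0))))))) (T.h (T.h (P (nat_lit 0)) (T.h (T.h (P (nat_lit 9840168828146097848320)) (T.h (P (nat_lit 0)) (P (nat_lit 38653626529546240)))) (T.h (P (nat_lit 0)) (P (nat_lit 8554117372231680))))) (T.h (T.h (T.h (P (nat_lit 0)) (T.h (P (nat_lit 6429138738500075520)) (T.h (P (nat_lit 0)) (P (nat_lit 19834863972112))))) (T.h (P (nat_lit 0)) (T.h (T.h (P (nat_lit 0)) (P (nat_lit 7731991111936))) (P (nat_lit 0))))) (T.h (T.h (P (nat_lit 0)) (P (nat_lit 28202771527335936))) (T.h (T.h (T.h (P (nat_lit 0)) (M (nat_lit 2171138809055))) (P (nat_lit 0))) (P (nat_lit 0)))))))), (T.h (T.h (P (nat_lit 0)) (T.h (T.h (P (nat_lit 0)) (T.h (P (nat_lit 5168368424837279068979200)) (T.h (P (nat_lit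 0)) (T.h (M (nat_lit 157094665944054104063)) (T.h (P (nat_lit 0)) (M (nat_lit 131752181722495))))))) (T.h (P (nat_lit 0)) (T.h (T.h (P (nat_lit 0)) (T.h (M (nat_lit 23742450305689714687)) (T.h (P (nat_lit 0)) (P (nat_lit 17796002755584))))) (T.h (P (nat_lit 0)) (T.h (T.h (P (nat_lit 0)) (P (nat_lit 2784107884416))) (P (nat_lit 0)))))))) (T.h (T.h (T.h (M (nat_lit 6839413366052023076718116863)) (T.h (P (nat_lit 0)) (T.h (M (nat_lit 24888676228541148299263)) (T.h (P (nat_lit 0)) (M (nat_lit 395879561561014271)))))) (T.h (P (nat_lit 0)) (T.h (T.h (P (nat_lit 84204815432911159296)) (T.h (P (nat_lit 0)) (P (nat_lit 103386342155976704)))) (T.h (P (nat_lit 0)) (M (nat_lit 24592959480430591)))))) (T.h (T.h (P (nat_lit 0)) (T.h (T.h (P (nat_lit 0)) (T.h (M (nat_lit 8926032916207632383)) (T.h (P (nat_lit 0)) (M (nat_lit 41957170643903))))) (T.h (P (nat_lit 0)) (T.h (T.h (P (nat_lit 0)) (M (nat_lit 24569655262335))) (P (nat_lit 0)))))) (T.h (T.h (T.h (M (nat_lit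 12737252216992320978943)) (T.h (P (nat_lit 0)) (M (nat_lit 10511957737865215)))) (T.h (P (nat_lit 0)) (P (nat_lit 10516355926327296)))) (T.h (T.h (P (nat_lit 0)) (T.h (T.h (P (nat_lit 0)) (M (nat_lit 7728486802623))) (P (nat_lit 0)))) (P (nat_lit 17277707598233600))))))), (T.h (T.h (P (nat_lit 0)) (T.h (T.h (P (nat_lit 7229277941798989040011182080)) (T.h (P (nat_lit 0)) (T.h (P (nat_lit 55893712121856740294656)) (T.h (P (nat_lit 0)) (P (nat_lit 43907669705129984)))))) (T.h (P (nat_lit 0)) (T.h (T.h (M (nat_lit 1700234646761114697727)) (T.h (P (nat_lit 0)) (P (nat_lit 24900390032965632)))) (T.h (P (nat_lit 0)) (M (nat_lit 1766672385900543))))))) (T.h (T.h (T.h (P (nat_lit 0)) (T.h (P (nat_lit 2647328885556425852452864)) (T.h (P (nat_lit 0)) (T.h (P (nat_lit 88326269022941216768)) (T.h (P (nat_lit 0)) (P (nat_lit 310329193881600))))))) (T.h (P (nat_lit 0)) (T.h (T.h (P (nat_lit 0)) (T.h (M (nat_lit 9959165120451969023)) (T.h (P (nat_lit 0)) (M (nat_lit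 157763501468927))))) (T.h (P (nat_lit 0)) (T.h (T.h (P (nat_lit 0)) (P (nat_lit 17575024374576))) (P (nat_lit 0))))))) (T.h (T.h (P (nat_lit 0)) (T.h (T.h (M (nat_lit 5074626016790479634431)) (T.h (P (nat_lit 0)) (M (nat_lit 37873789833461759)))) (T.h (P (nat_lit 0)) (P (nat_lit 6140512668286976))))) (T.h (T.h (T.h (P (nat_lit 0)) (T.h (M (nat_lit 14044839506763317247)) (T.h (P (nat_lit 0)) (M (nat_lit 15746492039039))))) (T.h (P (nat_lit 0)) (T.h (T.h (P (nat_lit 0)) (M (nat_lit 43491366017423))) (P (nat_lit 0))))) (T.h (T.h (P (nat_lit 0)) (M (nat_lit 25150337114456063))) (T.h (T.h (T.h (P (nat_lit 0)) (M (nat_lit 3743196082991))) (P (nat_lit 0))) (P (nat_lit 0)))))))), (T.h (T.h (P (nat_lit 0)) (T.h (T.h (P (nat_lit 0)) (T.h (P (nat_lit 1761177201905144919228416)) (T.h (P (nat_lit 0)) (P (nat_lit 159289274093619118080))))) (T.h (P (nat_lit 0)) (T.h (T.h (P (nat_lit 0)) (P (nat_lit 1424453042811437056))) (P (nat_lit 0)))))) (T.h (T.h (T.h (P (nat_lit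 1069719061105742419312246784)) (T.h (P (nat_lit 0)) (T.h (P (nat_lit 9039233065320873721856)) (T.h (P (nat_lit 0)) (P (nat_lit 360924354560393216)))))) (T.h (P (nat_lit 0)) (T.h (T.h (M (nat_lit 167114983961662586879)) (T.h (P (nat_lit 0)) (M (nat_lit 69713786696892415)))) (T.h (P (nat_lit 0)) (P (nat_lit 6948109256065024)))))) (T.h (T.h (P (nat_lit 0)) (T.h (T.h (P (nat_lit 0)) (M (nat_lit 13635200529196908543))) (P (nat_lit 0)))) (T.h (T.h (T.h (M (nat_lit 4810639926731932172287)) (T.h (P (nat_lit 0)) (P (nat_lit 9114228696940544)))) (T.h (P (nat_lit 0)) (M (nat_lit 3999072314753023)))) (T.h (P (nat_lit 0)) (M (nat_lit 189485684457471)))))))]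
def lQp_9 : List (T ℤ) := [(P (nat_lit 0)), (P (nat_lit 0)), (T.h (T.h (T.h (P (nat_lit 151115727451828646838272)) (T.h (P (nat_lit 0)) (T.h (M (nat_lit 189151184349560831)) (T.h (P (nat_lit 0)) (T.h (P (nat_lit 35970351104)) (T.h (P (nat_lit 0)) (P (nat_lit 1172928)))))))) (T.h (P (nat_lit 0)) (T.h (T.h (M (nat_lit 1407986837174246730366975)) (T.h (P (nat_lit 0)) (T.h (M (nat_lit 49332603644305997823)) (T.h (P (nat_lit 0)) (P (nat_lit 69255640301536)))))) (T.h (P (nat_lit 0)) (T.h (T.h (P (nat_lit 2118793442287943680)) (T.h (P (nat_lit 0)) (P (nat_lit 35755284631664)))) (T.h (P (nat_lit 0)) (P (nat_lit 895310700832)))))))) (T.h (T.h (P (nat_lit 0)) (T.h (T.h (P (nat_lit 0)) (T.h (P (nat_lit 376032976699392)) (T.h (P (nat_lit 0)) (M (nat_lit 1223163903))))) (T.h (P (nat_lit 0)) (T.h (T.h (P (nat_lit 0)) (M (nat_lit 71629951102091263))) (P (nat_lit 0)))))) (T.h (T.h (T.h (M (nat_lit 1407986837174246730366975)) (T.h (P (nat_lit 0)) (T.h (M (nat_lit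 49332603644305997823)) (T.h (P (nat_lit 0)) (P (nat_lit 69255640301536)))))) (T.h (P (nat_lit 0)) (T.h (T.h (M (nat_lit 362387865599)) (T.h (P (nat_lit 0)) (M (nat_lit 1023647)))) (T.h (P (nat_lit 0)) (M (nat_lit 16431680405455)))))) (T.h (T.h (P (nat_lit 0)) (T.h (T.h (P (nat_lit 0)) (M (nat_lit 71629951102091263))) (P (nat_lit 0)))) (T.h (T.h (T.h (P (nat_lit 2118793442287943680)) (T.h (P (nat_lit 0)) (P (nat_lit 35755284631664)))) (T.h (P (nat_lit 0)) (M (nat_lit 16431680405455)))) (T.h (P (nat_lit 0)) (P (nat_lit 895310700832)))))))), (T.h (T.h (T.h (P (nat_lit 0)) (T.h (P (nat_lit 14045086798794061153352810496)) (T.h (P (nat_lit 0)) (T.h (M (nat_lit 36699550170478542847999)) (T.h (P (nat_lit 0)) (P (nat_lit 53154154414211072))))))) (T.h (P (nat_lit 0)) (T.h (T.h (P (nat_lit 0)) (T.h (M (nat_lit 81096796728415458689023)) (T.h (P (nat_lit 0)) (M (nat_lit 15636010588487679))))) (T.h (P (nat_lit 0)) (T.h (T.h (P (nat_lit 0)) (P (nat_lit 48995516550889472)))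 (P (nat_lit 0))))))) (T.h (T.h (P (nat_lit 0)) (T.h (T.h (P (nat_lit 10159147398612175204384768)) (T.h (P (nat_lit 0)) (T.h (M (nat_lit 653684945632941309951)) (T.h (P (nat_lit 0)) (M (nat_lit 33739957894015)))))) (T.h (P (nat_lit 0)) (T.h (T.h (M (nat_lit 8466335218431688703)) (T.h (P (nat_lit 0)) (M (nat_lit 5250374281359)))) (T.h (P (nat_lit 0)) (M (nat_lit 12009131250063))))))) (T.h (T.h (T.h (P (nat_lit 0)) (T.h (M (nat_lit 81096796728415458689023)) (T.h (P (nat_lit 0)) (M (nat_lit 15636010588487679))))) (T.h (P (nat_lit 0)) (T.h (T.h (P (nat_lit 0)) (P (nat_lit 65038788471324672))) (P (nat_lit 0))))) (T.h (T.h (P (nat_lit 0)) (T.h (T.h (M (nat_lit 8466335218431688703)) (T.h (P (nat_lit 0)) (M (nat_lit 5250374281359)))) (T.h (P (nat_lit 0)) (P (nat_lit 15419168176256))))) (T.h (T.h (T.h (P (nat_lit 0)) (P (nat_lit 48995516550889472))) (P (nat_lit 0))) (T.h (T.h (P (nat_lit 0)) (M (nat_lit 12009131250063))) (P (nat_lit 0)))))))), (T.h (T.h (T.h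 (M (nat_lit 4053299408398625828304171565055)) (T.h (P (nat_lit 0)) (T.h (M (nat_lit 53056676337520515854893055)) (T.h (P (nat_lit 0)) (T.h (P (nat_lit 397972496668277342208)) (T.h (P (nat_lit 0)) (P (nat_lit 7636622023424)))))))) (T.h (P (nat_lit 0)) (T.h (T.h (P (nat_lit 37067833921382269212164096)) (T.h (P (nat_lit 0)) (T.h (P (nat_lit 155293772802848456704)) (T.h (P (nat_lit 0)) (P (nat_lit 115538776660864)))))) (T.h (P (nat_lit 0)) (T.h (T.h (M (nat_lit 26991685552134160383)) (T.h (P (nat_lit 0)) (M (nat_lit 142366674810751)))) (T.h (P (nat_lit 0)) (M (nat_lit 1696780565695)))))))) (T.h (T.h (P (nat_lit 0)) (T.h (T.h (P (nat_lit 0)) (T.h (P (nat_lit 209353643504278819569664)) (T.h (P (nat_lit 0)) (P (nat_lit 549401801988898816))))) (T.h (P (nat_lit 0)) (T.h (T.h (P (nat_lit 0)) (P (nat_lit 71074067616169984))) (P (nat_lit 0)))))) (T.h (T.h (T.h (P (nat_lit 37067833921382269212164096)) (T.h (P (nat_lit 0)) (T.h (P (nat_lit 155293772802848456704))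 (T.h (P (nat_lit 0)) (P (nat_lit 115538776660864)))))) (T.h (P (nat_lit 0)) (T.h (T.h (P (nat_lit 1942421519468593152)) (T.h (P (nat_lit 0)) (M (nat_lit 69316201926783)))) (T.h (P (nat_lit 0)) (M (nat_lit 72406491590655)))))) (T.h (T.h (P (nat_lit 0)) (T.h (T.h (P (nat_lit 0)) (P (nat_lit 71074067616169984))) (P (nat_lit 0)))) (T.h (T.h (T.h (M (nat_lit 26991685552134160383)) (T.h (P (nat_lit 0)) (M (nat_lit 142366674810751)))) (T.h (P (nat_lit 0)) (M (nat_lit 72406491590655)))) (T.h (P (nat_lit 0)) (M (nat_lit 1696780565695)))))))), (T.h (T.h (T.h (P (nat_lit 0)) (T.h (M (nat_lit 36904605446670005767472414719)) (T.h (P (nat_lit 0)) (T.h (P (nat_lit 146104923396987861073920)) (T.h (P (nat_lit 0)) (P (nat_lit 54833314301149184))))))) (T.h (P (nat_lit 0)) (T.h (T.h (P (nat_lit 0)) (T.h (P (nat_lit 44894562570463755632640)) (T.h (P (nat_lit 0)) (P (nat_lit 257858353791778816))))) (T.h (P (nat_lit 0)) (T.h (T.h (P (nat_lit 0)) (M (nat_lit 62873358504771583)))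 (P (nat_lit 0))))))) (T.h (T.h (P (nat_lit 0)) (T.h (T.h (P (nat_lit 25336504363163629171769344)) (T.h (P (nat_lit 0)) (T.h (P (nat_lit 485318653575390298112)) (T.h (P (nat_lit 0)) (P (nat_lit 354926245962528)))))) (T.h (P (nat_lit 0)) (T.h (T.h (M (nat_lit 26430034141272604671)) (T.h (P (nat_lit 0)) (P (nat_lit 71961381107280)))) (T.h (P (nat_lit 0)) (P (nat_lit 25603466475168))))))) (T.h (T.h (T.h (P (nat_lit 0)) (T.h (P (nat_lit 44894562570463755632640)) (T.h (P (nat_lit 0)) (P (nat_lit 257858353791778816))))) (T.h (P (nat_lit 0)) (T.h (T.h (P (nat_lit 0)) (P (nat_lit 54211224123867136))) (P (nat_lit 0))))) (T.h (T.h (P (nat_lit 0)) (T.h (T.h (M (nat_lit 26430034141272604671)) (T.h (P (nat_lit 0)) (P (nat_lit 71961381107280)))) (T.h (P (nat_lit 0)) (M (nat_lit 85814251092287))))) (T.h (T.h (T.h (P (nat_lit 0)) (M (nat_lit 62873358504771583))) (P (nat_lit 0))) (T.h (T.h (P (nat_lit 0)) (P (nat_lit 25603466475168))) (P (nat_lit 0)))))))), (T.h (T.h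 (T.h (P (nat_lit 3388291302366962560366419116032)) (T.h (P (nat_lit 0)) (T.h (P (nat_lit 52973080057366503088979968)) (T.h (P (nat_lit 0)) (P (nat_lit 201408859984088793088)))))) (T.h (P (nat_lit 0)) (T.h (T.h (M (nat_lit 4983474547258667095293951)) (T.h (P (nat_lit 0)) (P (nat_lit 91053075213775273984)))) (T.h (P (nat_lit 0)) (M (nat_lit 5571827366197460991)))))) (T.h (T.h (P (nat_lit 0)) (T.h (T.h (P (nat_lit 0)) (T.h (M (nat_lit 130518322924367101558783)) (T.h (P (nat_lit 0)) (P (nat_lit 179461911432396800))))) (T.h (P (nat_lit 0)) (T.h (T.h (P (nat_lit 0)) (P (nat_lit 28954197942730752))) (P (nat_lit 0)))))) (T.h (T.h (T.h (M (nat_lit 4983474547258667095293951)) (T.h (P (nat_lit 0)) (P (nat_lit 91053075213775273984)))) (T.h (P (nat_lit 0)) (P (nat_lit 46072855600505552896)))) (T.h (T.h (P (nat_lit 0)) (T.h (T.h (P (nat_lit 0)) (P (nat_lit 28954197942730752))) (P (nat_lit 0)))) (M (nat_lit 5571827366197460991)))))), (P (nat_lit 0))]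
def lQp_10 : List (T ℤ) := [(P (nat_lit 0)), (T.h (T.h (P (nat_lit 0)) (T.h (T.h (P (nat_lit 0)) (T.h (M (nat_lit 6540568087616169885827071)) (T.h (P (nat_lit 0)) (T.h (P (nat_lit 34911053992542863360)) (T.h (P (nat_lit 0)) (M (nat_lit 49104525143807))))))) (T.h (P (nat_lit 0)) (T.h (T.h (P (nat_lit 0)) (T.h (P (nat_lit 34911053992542863360)) (T.h (P (nat_lit 0)) (M (nat_lit 30759875023727))))) (T.h (P (nat_lit 0)) (T.h (T.h (P (nat_lit 0)) (M (nat_lit 49104525143807))) (P (nat_lit 0)))))))) (T.h (T.h (T.h (P (nat_lit 7676601293760344942171914240)) (T.h (P (nat_lit 0)) (T.h (P (nat_lit 2528467221433185992704)) (T.h (P (nat_lit 0)) (P (nat_lit 20274453471068160)))))) (T.h (P (nat_lit 0)) (T.h (T.h (P (nat_lit 2528467221433185992704)) (T.h (P (nat_lit 0)) (M (nat_lit 114226627383721983)))) (T.h (P (nat_lit 0)) (P (nat_lit 20274453471068160)))))) (T.h (T.h (P (nat_lit 0)) (T.h (T.h (P (nat_lit 0)) (T.h (M (nat_lit 2741480094106124287)) (T.h (P (nat_lit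 0)) (P (nat_lit 416351873837288))))) (T.h (P (nat_lit 0)) (T.h (T.h (P (nat_lit 0)) (P (nat_lit 416351873837288))) (P (nat_lit 0)))))) (T.h (T.h (T.h (M (nat_lit 843667312744360574975)) (T.h (P (nat_lit 0)) (P (nat_lit 94577210414956544)))) (T.h (P (nat_lit 0)) (P (nat_lit 94577210414956544)))) (T.h (T.h (P (nat_lit 0)) (T.h (T.h (P (nat_lit 0)) (P (nat_lit 49962957403376))) (P (nat_lit 0)))) (P (nat_lit 1155217284857856))))))), (T.h (T.h (P (nat_lit 0)) (T.h (T.h (M (nat_lit 12442159702627192574694129663)) (T.h (P (nat_lit 0)) (T.h (P (nat_lit 9314640038293583953920)) (T.h (P (nat_lit 0)) (M (nat_lit 50878799646982143)))))) (T.h (P (nat_lit 0)) (T.h (T.h (P (nat_lit 22743871949365672148992)) (T.h (P (nat_lit 0)) (P (nat_lit 211703931507752960)))) (T.h (P (nat_lit 0)) (P (nat_lit 18097103314681856))))))) (T.h (T.h (T.h (P (nat_lit 0)) (T.h (P (nat_lit 19361259890558873645350912)) (T.h (P (nat_lit 0)) (T.h (P (nat_lit 315625357326101250048)) (T.h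 (P (nat_lit 0)) (M (nat_lit 12012813532351))))))) (T.h (P (nat_lit 0)) (T.h (T.h (P (nat_lit 0)) (T.h (M (nat_lit 43470478741176582143)) (T.h (P (nat_lit 0)) (P (nat_lit 254418358177664))))) (T.h (P (nat_lit 0)) (T.h (T.h (P (nat_lit 0)) (P (nat_lit 54023327974512))) (P (nat_lit 0))))))) (T.h (T.h (P (nat_lit 0)) (T.h (T.h (M (nat_lit 55715830800575121850367)) (T.h (P (nat_lit 0)) (P (nat_lit 958406978850095104)))) (T.h (P (nat_lit 0)) (M (nat_lit 108479705473908735))))) (T.h (T.h (T.h (P (nat_lit 0)) (T.h (P (nat_lit 301861519813580423168)) (T.h (P (nat_lit 0)) (M (nat_lit 7866646795423))))) (T.h (P (nat_lit 0)) (T.h (T.h (P (nat_lit 0)) (P (nat_lit 90268290434928))) (P (nat_lit 0))))) (T.h (T.h (P (nat_lit 0)) (M (nat_lit 63682034683822079))) (T.h (T.h (T.h (P (nat_lit 0)) (M (nat_lit 4685423447423))) (P (nat_lit 0))) (P (nat_lit 0)))))))), (T.h (T.h (P (nat_lit 0)) (T.h (T.h (P (nat_lit 0)) (T.h (M (nat_lit 17136308746545256755888127)) (T.h (P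 (nat_lit 0)) (T.h (P (nat_lit 254244116952053186560)) (T.h (P (nat_lit 0)) (M (nat_lit 118685896343039))))))) (T.h (P (nat_lit 0)) (T.h (T.h (P (nat_lit 0)) (T.h (P (nat_lit 390903923725150715904)) (T.h (P (nat_lit 0)) (P (nat_lit 297158349740032))))) (T.h (P (nat_lit 0)) (T.h (T.h (P (nat_lit 0)) (P (nat_lit 41950637664832))) (P (nat_lit 0)))))))) (T.h (T.h (T.h (M (nat_lit 30439372902512087466491510783)) (T.h (P (nat_lit 0)) (T.h (P (nat_lit 163116600156994838462464)) (T.h (P (nat_lit 0)) (M (nat_lit 409804081434263551)))))) (T.h (P (nat_lit 0)) (T.h (T.h (P (nat_lit 5187693863199632785408)) (T.h (P (nat_lit 0)) (P (nat_lit 783145859356131328)))) (T.h (P (nat_lit 0)) (P (nat_lit 131697003819499520)))))) (T.h (T.h (P (nat_lit 0)) (T.h (T.h (P (nat_lit 0)) (T.h (P (nat_lit 40001066219060854784)) (T.h (P (nat_lit 0)) (M (nat_lit 435589951003263))))) (T.h (P (nat_lit 0)) (T.h (T.h (P (nat_lit 0)) (P (nat_lit 201592896292032))) (P (nat_lit 0)))))) (T.h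 (T.h (T.h (P (nat_lit 4512347180252872572928)) (T.h (P (nat_lit 0)) (M (nat_lit 390897227788976127)))) (T.h (P (nat_lit 0)) (M (nat_lit 165668878693040127)))) (T.h (T.h (P (nat_lit 0)) (T.h (T.h (P (nat_lit 0)) (M (nat_lit 224110488235839))) (P (nat_lit 0)))) (M (nat_lit 25401474191458303))))))), (T.h (T.h (P (nat_lit 0)) (T.h (T.h (M (nat_lit 19749972867985824880883924991)) (T.h (P (nat_lit 0)) (T.h (P (nat_lit 85813189506337280622592)) (T.h (P (nat_lit 0)) (P (nat_lit 99857125569953792)))))) (T.h (P (nat_lit 0)) (T.h (T.h (M (nat_lit 3964513970473056337919)) (T.h (P (nat_lit 0)) (M (nat_lit 771701867331026943)))) (T.h (P (nat_lit 0)) (P (nat_lit 22758469681364992))))))) (T.h (T.h (T.h (P (nat_lit 0)) (T.h (P (nat_lit 125077768936907594421764096)) (T.h (P (nat_lit 0)) (T.h (M (nat_lit 345759542040470749183)) (T.h (P (nat_lit 0)) (P (nat_lit 88368910367184))))))) (T.h (P (nat_lit 0)) (T.h (T.h (P (nat_lit 0)) (T.h (P (nat_lit 320132666256611344384))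 (T.h (P (nat_lit 0)) (P (nat_lit 480696106885200))))) (T.h (P (nat_lit 0)) (T.h (T.h (P (nat_lit 0)) (M (nat_lit 212902374284207))) (P (nat_lit 0))))))) (T.h (T.h (P (nat_lit 0)) (T.h (T.h (M (nat_lit 48149716623839597690879)) (T.h (P (nat_lit 0)) (M (nat_lit 206162730796777471)))) (T.h (P (nat_lit 0)) (M (nat_lit 65492402368675839))))) (T.h (T.h (T.h (P (nat_lit 0)) (T.h (M (nat_lit 278499119748561764351)) (T.h (P (nat_lit 0)) (M (nat_lit 40308873541055))))) (T.h (P (nat_lit 0)) (T.h (T.h (P (nat_lit 0)) (P (nat_lit 135400654107216))) (P (nat_lit 0))))) (T.h (T.h (P (nat_lit 0)) (M (nat_lit 90597181508173823))) (T.h (T.h (T.h (P (nat_lit 0)) (P (nat_lit 6090557697360))) (P (nat_lit 0))) (P (nat_lit 0)))))))), (T.h (T.h (P (nat_lit 0)) (T.h (T.h (P (nat_lit 0)) (T.h (M (nat_lit 15532778243652765473570815)) (T.h (P (nat_lit 0)) (P (nat_lit 292461774379792990208))))) (T.h (P (nat_lit 0)) (T.h (T.h (P (nat_lit 0)) (M (nat_lit 372027013451330093055)))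 (P (nat_lit 0)))))) (T.h (T.h (T.h (P (nat_lit 2802544089202721518058995712)) (T.h (P (nat_lit 0)) (T.h (M (nat_lit 219226733783414827122687)) (T.h (P (nat_lit 0)) (P (nat_lit 111197562056900608)))))) (T.h (P (nat_lit 0)) (T.h (T.h (P (nat_lit 11334887043216479092736)) (T.h (P (nat_lit 0)) (P (nat_lit 307064400049864704)))) (T.h (P (nat_lit 0)) (M (nat_lit 17610523673985023)))))) (T.h (T.h (P (nat_lit 0)) (T.h (T.h (P (nat_lit 0)) (P (nat_lit 132783142035194380288))) (P (nat_lit 0)))) (T.h (T.h (T.h (M (nat_lit 11706436078456893603839)) (T.h (P (nat_lit 0)) (M (nat_lit 48128141689192447)))) (T.h (P (nat_lit 0)) (M (nat_lit 64870222751039487)))) (T.h (P (nat_lit 0)) (P (nat_lit 10301442286452736))))))), (P (nat_lit 0)), (P (nat_lit 0))]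
def lQp_11 : List (T ℤ) := [(T.h (T.h (T.h (P (nat_lit 151115727451828646838272)) (T.h (P (nat_lit 0)) (T.h (M (nat_lit 1407986837174246730366975)) (T.h (P (nat_lit 0)) (T.h (P (nat_lit 2118793442287943680)) (T.h (P (nat_lit 0)) (P (nat_lit 895310700832)))))))) (T.h (P (nat_lit 0)) (T.h (T.h (M (nat_lit 189151184349560831)) (T.h (P (nat_lit 0)) (T.h (M (nat_lit 49332603644305997823)) (T.h (P (nat_lit 0)) (P (nat_lit 35755284631664)))))) (T.h (P (nat_lit 0)) (T.h (T.h (P (nat_lit 35970351104)) (T.h (P (nat_lit 0)) (P (nat_lit 69255640301536)))) (T.h (P (nat_lit 0)) (P (nat_lit 1172928)))))))) (T.h (T.h (P (nat_lit 0)) (T.h (T.h (P (nat_lit 0)) (T.h (P (nat_lit 376032976699392)) (T.h (P (nat_lit 0)) (M (nat_lit 71629951102091263))))) (T.h (P (nat_lit 0)) (T.h (T.h (P (nat_lit 0)) (M (nat_lit 1223163903))) (P (nat_lit 0)))))) (T.h (T.h (T.h (M (nat_lit 1407986837174246730366975)) (T.h (P (nat_lit 0)) (T.h (M (nat_lit 362387865599)) (T.h (P (nat_lit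 0)) (M (nat_lit 16431680405455)))))) (T.h (P (nat_lit 0)) (T.h (T.h (M (nat_lit 49332603644305997823)) (T.h (P (nat_lit 0)) (M (nat_lit 1023647)))) (T.h (P (nat_lit 0)) (P (nat_lit 69255640301536)))))) (T.h (T.h (P (nat_lit 0)) (T.h (T.h (P (nat_lit 0)) (M (nat_lit 71629951102091263))) (P (nat_lit 0)))) (T.h (T.h (T.h (P (nat_lit 2118793442287943680)) (T.h (P (nat_lit 0)) (M (nat_lit 16431680405455)))) (T.h (P (nat_lit 0)) (P (nat_lit 35755284631664)))) (T.h (P (nat_lit 0)) (P (nat_lit 895310700832)))))))), (T.h (T.h (T.h (P (nat_lit 0)) (T.h (M (nat_lit 12442159702627192574694129663)) (T.h (P (nat_lit 0)) (T.h (P (nat_lit 22743871949365672148992)) (T.h (P (nat_lit 0)) (P (nat_lit 18097103314681856))))))) (T.h (P (nat_lit 0)) (T.h (T.h (P (nat_lit 0)) (T.h (P (nat_lit 9314640038293583953920)) (T.h (P (nat_lit 0)) (P (nat_lit 211703931507752960))))) (T.h (P (nat_lit 0)) (T.h (T.h (P (nat_lit 0)) (M (nat_lit 50878799646982143))) (P (nat_lit 0)))))))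 (T.h (T.h (P (nat_lit 0)) (T.h (T.h (P (nat_lit 19361259890558873645350912)) (T.h (P (nat_lit 0)) (T.h (M (nat_lit 43470478741176582143)) (T.h (P (nat_lit 0)) (P (nat_lit 54023327974512)))))) (T.h (P (nat_lit 0)) (T.h (T.h (P (nat_lit 315625357326101250048)) (T.h (P (nat_lit 0)) (P (nat_lit 254418358177664)))) (T.h (P (nat_lit 0)) (M (nat_lit 12012813532351))))))) (T.h (T.h (T.h (P (nat_lit 0)) (T.h (M (nat_lit 55715830800575121850367)) (T.h (P (nat_lit 0)) (M (nat_lit 108479705473908735))))) (T.h (P (nat_lit 0)) (T.h (T.h (P (nat_lit 0)) (P (nat_lit 958406978850095104))) (P (nat_lit 0))))) (T.h (T.h (P (nat_lit 0)) (T.h (T.h (P (nat_lit 301861519813580423168)) (T.h (P (nat_lit 0)) (P (nat_lit 90268290434928)))) (T.h (P (nat_lit 0)) (M (nat_lit 7866646795423))))) (T.h (T.h (T.h (P (nat_lit 0)) (M (nat_lit 63682034683822079))) (P (nat_lit 0))) (T.h (T.h (P (nat_lit 0)) (M (nat_lit 4685423447423))) (P (nat_lit 0)))))))), (T.h (T.h (T.h (P (nat_lit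 10263605443189403653425365778432)) (T.h (P (nat_lit 0)) (T.h (M (nat_lit 24772719807162972498821119)) (T.h (P (nat_lit 0)) (T.h (M (nat_lit 61011841408129040383)) (T.h (P (nat_lit 0)) (M (nat_lit 42017837250687)))))))) (T.h (P (nat_lit 0)) (T.h (T.h (M (nat_lit 24772719807162972498821119)) (T.h (P (nat_lit 0)) (T.h (M (nat_lit 587946156236283576319)) (T.h (P (nat_lit 0)) (M (nat_lit 191627894557247)))))) (T.h (P (nat_lit 0)) (T.h (T.h (M (nat_lit 61011841408129040383)) (T.h (P (nat_lit 0)) (M (nat_lit 191627894557247)))) (T.h (P (nat_lit 0)) (M (nat_lit 42017837250687)))))))) (T.h (T.h (P (nat_lit 0)) (T.h (T.h (P (nat_lit 0)) (T.h (M (nat_lit 166602184250910184570879)) (T.h (P (nat_lit 0)) (M (nat_lit 1013632339182157823))))) (T.h (P (nat_lit 0)) (T.h (T.h (P (nat_lit 0)) (M (nat_lit 1013632339182157823))) (P (nat_lit 0)))))) (T.h (T.h (T.h (M (nat_lit 13113665670837237236891647)) (T.h (P (nat_lit 0)) (T.h (P (nat_lit 64117543320346951680)) (T.h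 (P (nat_lit 0)) (P (nat_lit 157229173674048)))))) (T.h (P (nat_lit 0)) (T.h (T.h (P (nat_lit 64117543320346951680)) (T.h (P (nat_lit 0)) (M (nat_lit 28784659885055)))) (T.h (P (nat_lit 0)) (P (nat_lit 157229173674048)))))) (T.h (T.h (P (nat_lit 0)) (T.h (T.h (P (nat_lit 0)) (P (nat_lit 340609925145034752))) (P (nat_lit 0)))) (T.h (T.h (T.h (P (nat_lit 81022462881515438080)) (T.h (P (nat_lit 0)) (P (nat_lit 141379929700032)))) (T.h (P (nat_lit 0)) (P (nat_lit 141379929700032)))) (T.h (P (nat_lit 0)) (P (nat_lit 16686407529984)))))))), (T.h (T.h (T.h (P (nat_lit 0)) (T.h (M (nat_lit 42505286476555310707194724351)) (T.h (P (nat_lit 0)) (T.h (P (nat_lit 13736814429644959776768)) (T.h (P (nat_lit 0)) (M (nat_lit 346456592703291391))))))) (T.h (P (nat_lit 0)) (T.h (T.h (P (nat_lit 0)) (T.h (M (nat_lit 176837335865706632183807)) (T.h (P (nat_lit 0)) (M (nat_lit 157327565251870719))))) (T.h (P (nat_lit 0)) (T.h (T.h (P (nat_lit 0)) (M (nat_lit 199091536319299583)))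 (P (nat_lit 0))))))) (T.h (T.h (P (nat_lit 0)) (T.h (T.h (P (nat_lit 3351747234530990319730688)) (T.h (P (nat_lit 0)) (T.h (M (nat_lit 68235848904299511807)) (T.h (P (nat_lit 0)) (M (nat_lit 493402670761247)))))) (T.h (P (nat_lit 0)) (T.h (T.h (M (nat_lit 115670365913472827391)) (T.h (P (nat_lit 0)) (M (nat_lit 187314034551551)))) (T.h (P (nat_lit 0)) (P (nat_lit 8562378236832))))))) (T.h (T.h (T.h (P (nat_lit 0)) (T.h (P (nat_lit 31378407630487934730240)) (T.h (P (nat_lit 0)) (P (nat_lit 133013457014423552))))) (T.h (P (nat_lit 0)) (T.h (T.h (P (nat_lit 0)) (M (nat_lit 155170297518686207))) (P (nat_lit 0))))) (T.h (T.h (P (nat_lit 0)) (T.h (T.h (P (nat_lit 297505605466797899776)) (T.h (P (nat_lit 0)) (M (nat_lit 105852932695583)))) (T.h (P (nat_lit 0)) (P (nat_lit 79993172440224))))) (T.h (T.h (T.h (P (nat_lit 0)) (M (nat_lit 4663950362312703))) (P (nat_lit 0))) (T.h (T.h (P (nat_lit 0)) (M (nat_lit 59828803719263))) (P (nat_lit 0)))))))), (T.h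 (T.h (T.h (M (nat_lit 6956814252741079948443380613119)) (T.h (P (nat_lit 0)) (T.h (M (nat_lit 7835852522007655234928639)) (T.h (P (nat_lit 0)) (M (nat_lit 190603457277588406271)))))) (T.h (P (nat_lit 0)) (T.h (T.h (M (nat_lit 12512308161857980632924159)) (T.h (P (nat_lit 0)) (M (nat_lit 696574428408140791807)))) (T.h (P (nat_lit 0)) (M (nat_lit 31284549361191616511)))))) (T.h (T.h (P (nat_lit 0)) (T.h (T.h (P (nat_lit 0)) (T.h (P (nat_lit 245888729080067128295424)) (T.h (P (nat_lit 0)) (M (nat_lit 281155397963546623))))) (T.h (P (nat_lit 0)) (T.h (T.h (P (nat_lit 0)) (M (nat_lit 207377764562108415))) (P (nat_lit 0)))))) (T.h (T.h (T.h (M (nat_lit 9834762153925330696404991)) (T.h (P (nat_lit 0)) (P (nat_lit 83243563760396271616)))) (T.h (P (nat_lit 0)) (M (nat_lit 89162961353009266687)))) (T.h (T.h (P (nat_lit 0)) (T.h (T.h (P (nat_lit 0)) (M (nat_lit 200925852248375295))) (P (nat_lit 0)))) (P (nat_lit 907467354663813120)))))), (P (nat_lit 0)), (P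 (nat_lit 0)), (T.h (T.h (P (nat_lit 0)) (T.h (T.h (P (nat_lit 0)) (T.h (M (nat_lit 284033478414364619833343)) (T.h (P (nat_lit 0)) (T.h (P (nat_lit 2140135256919900160)) (T.h (P (nat_lit 0)) (M (nat_lit 2562489162783))))))) (T.h (P (nat_lit 0)) (T.h (T.h (P (nat_lit 0)) (T.h (M (nat_lit 5938503625511796735)) (T.h (P (nat_lit 0)) (P (nat_lit 1179281324744))))) (T.h (P (nat_lit 0)) (T.h (T.h (P (nat_lit 0)) (P (nat_lit 11280567779312))) (P (nat_lit 0)))))))) (T.h (T.h (T.h (P (nat_lit 6109297295370027237344542720)) (T.h (P (nat_lit 0)) (T.h (P (nat_lit 1686258149179302871040)) (T.h (P (nat_lit 0)) (P (nat_lit 417833758720000)))))) (T.h (P (nat_lit 0)) (T.h (T.h (P (nat_lit 3043298767001555566592)) (T.h (P (nat_lit 0)) (M (nat_lit 1978227750830079)))) (T.h (P (nat_lit 0)) (M (nat_lit 42195277170933759)))))) (T.h (T.h (P (nat_lit 0)) (T.h (T.h (P (nat_lit 0)) (T.h (P (nat_lit 849028859926937600)) (T.h (P (nat_lit 0)) (P (nat_lit 365975489448))))) (T.h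 (P (nat_lit 0)) (T.h (T.h (P (nat_lit 0)) (M (nat_lit 72270515840055))) (P (nat_lit 0)))))) (T.h (T.h (T.h (P (nat_lit 6470624315378690424832)) (T.h (P (nat_lit 0)) (M (nat_lit 433781979512831)))) (T.h (P (nat_lit 0)) (P (nat_lit 23901466144571392)))) (T.h (T.h (P (nat_lit 0)) (T.h (T.h (P (nat_lit 0)) (P (nat_lit 8644918464696))) (P (nat_lit 0)))) (M (nat_lit 7102852997021695)))))))]
def lQp_12 : List (T ℤ) := [(T.h (T.h (P (nat_lit 0)) (T.h (T.h (P (nat_lit 14045086798794061153352810496)) (T.h (P (nat_lit 0)) (T.h (M (nat_lit 81096796728415458689023)) (T.h (P (nat_lit 0)) (P (nat_lit 48995516550889472)))))) (T.h (P (nat_lit 0)) (T.h (T.h (M (nat_lit 36699550170478542847999)) (T.h (P (nat_lit 0)) (M (nat_lit 15636010588487679)))) (T.h (P (nat_lit 0)) (P (nat_lit 53154154414211072))))))) (T.h (T.h (T.h (P (nat_lit 0)) (T.h (P (nat_lit 10159147398612175204384768)) (T.h (P (nat_lit 0)) (T.h (M (nat_lit 8466335218431688703)) (T.h (P (nat_lit 0)) (M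 (nat_lit 12009131250063))))))) (T.h (P (nat_lit 0)) (T.h (T.h (P (nat_lit 0)) (T.h (M (nat_lit 653684945632941309951)) (T.h (P (nat_lit 0)) (M (nat_lit 5250374281359))))) (T.h (P (nat_lit 0)) (T.h (T.h (P (nat_lit 0)) (M (nat_lit 33739957894015))) (P (nat_lit 0))))))) (T.h (T.h (P (nat_lit 0)) (T.h (T.h (M (nat_lit 81096796728415458689023)) (T.h (P (nat_lit 0)) (P (nat_lit 65038788471324672)))) (T.h (P (nat_lit 0)) (M (nat_lit 15636010588487679))))) (T.h (T.h (T.h (P (nat_lit 0)) (T.h (M (nat_lit 8466335218431688703)) (T.h (P (nat_lit 0)) (P (nat_lit 15419168176256))))) (T.h (P (nat_lit 0)) (T.h (T.h (P (nat_lit 0)) (M (nat_lit 5250374281359))) (P (nat_lit 0))))) (T.h (T.h (P (nat_lit 0)) (P (nat_lit 48995516550889472))) (T.h (T.h (T.h (P (nat_lit 0)) (M (nat_lit 12009131250063))) (P (nat_lit 0))) (P (nat_lit 0)))))))), (T.h (T.h (P (nat_lit 0)) (T.h (T.h (P (nat_lit 0)) (T.h (M (nat_lit 17136308746545256755888127)) (T.h (P (nat_lit 0)) (T.h (P (nat_lit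 390903923725150715904)) (T.h (P (nat_lit 0)) (P (nat_lit 41950637664832))))))) (T.h (P (nat_lit 0)) (T.h (T.h (P (nat_lit 0)) (T.h (P (nat_lit 254244116952053186560)) (T.h (P (nat_lit 0)) (P (nat_lit 297158349740032))))) (T.h (P (nat_lit 0)) (T.h (T.h (P (nat_lit 0)) (M (nat_lit 118685896343039))) (P (nat_lit 0)))))))) (T.h (T.h (T.h (M (nat_lit 30439372902512087466491510783)) (T.h (P (nat_lit 0)) (T.h (P (nat_lit 5187693863199632785408)) (T.h (P (nat_lit 0)) (P (nat_lit 131697003819499520)))))) (T.h (P (nat_lit 0)) (T.h (T.h (P (nat_lit 163116600156994838462464)) (T.h (P (nat_lit 0)) (P (nat_lit 783145859356131328)))) (T.h (P (nat_lit 0)) (M (nat_lit 409804081434263551)))))) (T.h (T.h (P (nat_lit 0)) (T.h (T.h (P (nat_lit 0)) (T.h (P (nat_lit 40001066219060854784)) (T.h (P (nat_lit 0)) (P (nat_lit 201592896292032))))) (T.h (P (nat_lit 0)) (T.h (T.h (P (nat_lit 0)) (M (nat_lit 435589951003263))) (P (nat_lit 0)))))) (T.h (T.h (T.h (P (nat_lit 4512347180252872572928))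 (T.h (P (nat_lit 0)) (M (nat_lit 165668878693040127)))) (T.h (P (nat_lit 0)) (M (nat_lit 390897227788976127)))) (T.h (T.h (P (nat_lit 0)) (T.h (T.h (P (nat_lit 0)) (M (nat_lit 224110488235839))) (P (nat_lit 0)))) (M (nat_lit 25401474191458303))))))), (T.h (T.h (P (nat_lit 0)) (T.h (T.h (M (nat_lit 42505286476555310707194724351)) (T.h (P (nat_lit 0)) (T.h (M (nat_lit 176837335865706632183807)) (T.h (P (nat_lit 0)) (M (nat_lit 199091536319299583)))))) (T.h (P (nat_lit 0)) (T.h (T.h (P (nat_lit 13736814429644959776768)) (T.h (P (nat_lit 0)) (M (nat_lit 157327565251870719)))) (T.h (P (nat_lit 0)) (M (nat_lit 346456592703291391))))))) (T.h (T.h (T.h (P (nat_lit 0)) (T.h (P (nat_lit 3351747234530990319730688)) (T.h (P (nat_lit 0)) (T.h (M (nat_lit 115670365913472827391)) (T.h (P (nat_lit 0)) (P (nat_lit 8562378236832))))))) (T.h (P (nat_lit 0)) (T.h (T.h (P (nat_lit 0)) (T.h (M (nat_lit 68235848904299511807)) (T.h (P (nat_lit 0)) (M (nat_lit 187314034551551)))))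 (T.h (P (nat_lit 0)) (T.h (T.h (P (nat_lit 0)) (M (nat_lit 493402670761247))) (P (nat_lit 0))))))) (T.h (T.h (P (nat_lit 0)) (T.h (T.h (P (nat_lit 31378407630487934730240)) (T.h (P (nat_lit 0)) (M (nat_lit 155170297518686207)))) (T.h (P (nat_lit 0)) (P (nat_lit 133013457014423552))))) (T.h (T.h (T.h (P (nat_lit 0)) (T.h (P (nat_lit 297505605466797899776)) (T.h (P (nat_lit 0)) (P (nat_lit 79993172440224))))) (T.h (P (nat_lit 0)) (T.h (T.h (P (nat_lit 0)) (M (nat_lit 105852932695583))) (P (nat_lit 0))))) (T.h (T.h (P (nat_lit 0)) (M (nat_lit 4663950362312703))) (T.h (T.h (T.h (P (nat_lit 0)) (M (nat_lit 59828803719263))) (P (nat_lit 0))) (P (nat_lit 0)))))))), (T.h (T.h (P (nat_lit 0)) (T.h (T.h (P (nat_lit 0)) (T.h (M (nat_lit 82022475448791551103205375)) (T.h (P (nat_lit 0)) (M (nat_lit 285002259208458993663))))) (T.h (P (nat_lit 0)) (T.h (T.h (P (nat_lit 0)) (M (nat_lit 285002259208458993663))) (P (nat_lit 0)))))) (T.h (T.h (T.h (P (nat_lit 23982801289164216537089835008))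 (T.h (P (nat_lit 0)) (T.h (P (nat_lit 103457444550888944304128)) (T.h (P (nat_lit 0)) (M (nat_lit 83546188554764287)))))) (T.h (P (nat_lit 0)) (T.h (T.h (P (nat_lit 103457444550888944304128)) (T.h (P (nat_lit 0)) (M (nat_lit 105359980908511231)))) (T.h (P (nat_lit 0)) (M (nat_lit 83546188554764287)))))) (T.h (T.h (P (nat_lit 0)) (T.h (T.h (P (nat_lit 0)) (M (nat_lit 145578080354680438783))) (P (nat_lit 0)))) (T.h (T.h (T.h (P (nat_lit 40637152726621985177600)) (T.h (P (nat_lit 0)) (P (nat_lit 77636821944369152)))) (T.h (P (nat_lit 0)) (P (nat_lit 77636821944369152)))) (T.h (P (nat_lit 0)) (M (nat_lit 30478663296221183))))))), (P (nat_lit 0)), (P (nat_lit 0)), (T.h (T.h (T.h (P (nat_lit 0)) (T.h (M (nat_lit 8791771181520521901880901631)) (T.h (P (nat_lit 0)) (T.h (P (nat_lit 1197127384719865937920)) (T.h (P (nat_lit 0)) (M (nat_lit 578348013797375))))))) (T.h (P (nat_lit 0)) (T.h (T.h (P (nat_lit 0)) (T.h (P (nat_lit 22020359117771091476480)) (T.h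 (P (nat_lit 0)) (M (nat_lit 644596779991039))))) (T.h (P (nat_lit 0)) (T.h (T.h (P (nat_lit 0)) (M (nat_lit 121640918615326719))) (P (nat_lit 0))))))) (T.h (T.h (P (nat_lit 0)) (T.h (T.h (P (nat_lit 7108667783362390295314432)) (T.h (P (nat_lit 0)) (T.h (M (nat_lit 6625341527327506431)) (T.h (P (nat_lit 0)) (M (nat_lit 6391443606815)))))) (T.h (P (nat_lit 0)) (T.h (T.h (M (nat_lit 154584634236227026943)) (T.h (P (nat_lit 0)) (P (nat_lit 19291176429520)))) (T.h (P (nat_lit 0)) (M (nat_lit 335941989346463))))))) (T.h (T.h (T.h (P (nat_lit 0)) (T.h (P (nat_lit 9840168828146097848320)) (T.h (P (nat_lit 0)) (P (nat_lit 8554117372231680))))) (T.h (P (nat_lit 0)) (T.h (T.h (P (nat_lit 0)) (P (nat_lit 38653626529546240))) (P (nat_lit 0))))) (T.h (T.h (P (nat_lit 0)) (T.h (T.h (P (nat_lit 6429138738500075520)) (T.h (P (nat_lit 0)) (P (nat_lit 7731991111936)))) (T.h (P (nat_lit 0)) (P (nat_lit 19834863972112))))) (T.h (T.h (T.h (P (nat_lit 0)) (P (nat_lit 28202771527335936)))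 (P (nat_lit 0))) (T.h (T.h (P (nat_lit 0)) (M (nat_lit 2171138809055))) (P (nat_lit 0)))))))), (T.h (T.h (T.h (M (nat_lit 4053299408398625828304171565055)) (T.h (P (nat_lit 0)) (T.h (P (nat_lit 37067833921382269212164096)) (T.h (P (nat_lit 0)) (T.h (M (nat_lit 26991685552134160383)) (T.h (P (nat_lit 0)) (M (nat_lit 1696780565695)))))))) (T.h (P (nat_lit 0)) (T.h (T.h (M (nat_lit 53056676337520515854893055)) (T.h (P (nat_lit 0)) (T.h (P (nat_lit 155293772802848456704)) (T.h (P (nat_lit 0)) (M (nat_lit 142366674810751)))))) (T.h (P (nat_lit 0)) (T.h (T.h (P (nat_lit 397972496668277342208)) (T.h (P (nat_lit 0)) (P (nat_lit 115538776660864)))) (T.h (P (nat_lit 0)) (P (nat_lit 7636622023424)))))))) (T.h (T.h (P (nat_lit 0)) (T.h (T.h (P (nat_lit 0)) (T.h (P (nat_lit 209353643504278819569664)) (T.h (P (nat_lit 0)) (P (nat_lit 71074067616169984))))) (T.h (P (nat_lit 0)) (T.h (T.h (P (nat_lit 0)) (P (nat_lit 549401801988898816))) (P (nat_lit 0)))))) (T.h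 (T.h (T.h (P (nat_lit 37067833921382269212164096)) (T.h (P (nat_lit 0)) (T.h (P (nat_lit 1942421519468593152)) (T.h (P (nat_lit 0)) (M (nat_lit 72406491590655)))))) (T.h (P (nat_lit 0)) (T.h (T.h (P (nat_lit 155293772802848456704)) (T.h (P (nat_lit 0)) (M (nat_lit 69316201926783)))) (T.h (P (nat_lit 0)) (P (nat_lit 115538776660864)))))) (T.h (T.h (P (nat_lit 0)) (T.h (T.h (P (nat_lit 0)) (P (nat_lit 71074067616169984))) (P (nat_lit 0)))) (T.h (T.h (T.h (M (nat_lit 26991685552134160383)) (T.h (P (nat_lit 0)) (M (nat_lit 72406491590655)))) (T.h (P (nat_lit 0)) (M (nat_lit 142366674810751)))) (T.h (P (nat_lit 0)) (M (nat_lit 1696780565695))))))))]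
def lQp_13 : List (T ℤ) := [(T.h (T.h (T.h (P (nat_lit 0)) (T.h (M (nat_lit 19749972867985824880883924991)) (T.h (P (nat_lit 0)) (T.h (M (nat_lit 3964513970473056337919)) (T.h (P (nat_lit 0)) (P (nat_lit 22758469681364992))))))) (T.h (P (nat_lit 0)) (T.h (T.h (P (nat_lit 0)) (T.h (P (nat_lit 85813189506337280622592)) (T.h (P (nat_lit 0)) (M (nat_lit 771701867331026943))))) (T.h (P (nat_lit 0)) (T.h (T.h (P (nat_lit 0)) (P (nat_lit 99857125569953792))) (P (nat_lit 0))))))) (T.h (T.h (P (nat_lit 0)) (T.h (T.h (P (nat_lit 125077768936907594421764096)) (T.h (P (nat_lit 0)) (T.h (P (nat_lit 320132666256611344384)) (T.h (P (nat_lit 0)) (M (nat_lit 212902374284207)))))) (T.h (P (nat_lit 0)) (T.h (T.h (M (nat_lit 345759542040470749183)) (T.h (P (nat_lit 0)) (P (nat_lit 480696106885200)))) (T.h (P (nat_lit 0)) (P (nat_lit 88368910367184))))))) (T.h (T.h (T.h (P (nat_lit 0)) (T.h (M (nat_lit 48149716623839597690879)) (T.h (P (nat_lit 0)) (M (nat_lit 65492402368675839)))))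 (T.h (P (nat_lit 0)) (T.h (T.h (P (nat_lit 0)) (M (nat_lit 206162730796777471))) (P (nat_lit 0))))) (T.h (T.h (P (nat_lit 0)) (T.h (T.h (M (nat_lit 278499119748561764351)) (T.h (P (nat_lit 0)) (P (nat_lit 135400654107216)))) (T.h (P (nat_lit 0)) (M (nat_lit 40308873541055))))) (T.h (T.h (T.h (P (nat_lit 0)) (M (nat_lit 90597181508173823))) (P (nat_lit 0))) (T.h (T.h (P (nat_lit 0)) (P (nat_lit 6090557697360))) (P (nat_lit 0)))))))), (T.h (T.h (T.h (M (nat_lit 6956814252741079948443380613119)) (T.h (P (nat_lit 0)) (T.h (M (nat_lit 12512308161857980632924159)) (T.h (P (nat_lit 0)) (M (nat_lit 31284549361191616511)))))) (T.h (P (nat_lit 0)) (T.h (T.h (M (nat_lit 7835852522007655234928639)) (T.h (P (nat_lit 0)) (M (nat_lit 696574428408140791807)))) (T.h (P (nat_lit 0)) (M (nat_lit 190603457277588406271)))))) (T.h (T.h (P (nat_lit 0)) (T.h (T.h (P (nat_lit 0)) (T.h (P (nat_lit 245888729080067128295424)) (T.h (P (nat_lit 0)) (M (nat_lit 207377764562108415)))))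 (T.h (P (nat_lit 0)) (T.h (T.h (P (nat_lit 0)) (M (nat_lit 281155397963546623))) (P (nat_lit 0)))))) (T.h (T.h (T.h (M (nat_lit 9834762153925330696404991)) (T.h (P (nat_lit 0)) (M (nat_lit 89162961353009266687)))) (T.h (P (nat_lit 0)) (P (nat_lit 83243563760396271616)))) (T.h (T.h (P (nat_lit 0)) (T.h (T.h (P (nat_lit 0)) (M (nat_lit 200925852248375295))) (P (nat_lit 0)))) (P (nat_lit 907467354663813120)))))), (P (nat_lit 0)), (P (nat_lit 0)), (T.h (T.h (P (nat_lit 0)) (T.h (T.h (P (nat_lit 0)) (T.h (P (nat_lit 5168368424837279068979200)) (T.h (P (nat_lit 0)) (T.h (M (nat_lit 23742450305689714687)) (T.h (P (nat_lit 0)) (P (nat_lit 2784107884416))))))) (T.h (P (nat_lit 0)) (T.h (T.h (P (nat_lit 0)) (T.h (M (nat_lit 157094665944054104063)) (T.h (P (nat_lit 0)) (P (nat_lit 17796002755584))))) (T.h (P (nat_lit 0)) (T.h (T.h (P (nat_lit 0)) (M (nat_lit 131752181722495))) (P (nat_lit 0)))))))) (T.h (T.h (T.h (M (nat_lit 6839413366052023076718116863)) (T.h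 (P (nat_lit 0)) (T.h (P (nat_lit 84204815432911159296)) (T.h (P (nat_lit 0)) (M (nat_lit 24592959480430591)))))) (T.h (P (nat_lit 0)) (T.h (T.h (M (nat_lit 24888676228541148299263)) (T.h (P (nat_lit 0)) (P (nat_lit 103386342155976704)))) (T.h (P (nat_lit 0)) (M (nat_lit 395879561561014271)))))) (T.h (T.h (P (nat_lit 0)) (T.h (T.h (P (nat_lit 0)) (T.h (M (nat_lit 8926032916207632383)) (T.h (P (nat_lit 0)) (M (nat_lit 24569655262335))))) (T.h (P (nat_lit 0)) (T.h (T.h (P (nat_lit 0)) (M (nat_lit 41957170643903))) (P (nat_lit 0)))))) (T.h (T.h (T.h (M (nat_lit 12737252216992320978943)) (T.h (P (nat_lit 0)) (P (nat_lit 10516355926327296)))) (T.h (P (nat_lit 0)) (M (nat_lit 10511957737865215)))) (T.h (T.h (P (nat_lit 0)) (T.h (T.h (P (nat_lit 0)) (M (nat_lit 7728486802623))) (P (nat_lit 0)))) (P (nat_lit 17277707598233600))))))), (T.h (T.h (P (nat_lit 0)) (T.h (T.h (M (nat_lit 36904605446670005767472414719)) (T.h (P (nat_lit 0)) (T.h (P (nat_lit 44894562570463755632640))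 (T.h (P (nat_lit 0)) (M (nat_lit 62873358504771583)))))) (T.h (P (nat_lit 0)) (T.h (T.h (P (nat_lit 146104923396987861073920)) (T.h (P (nat_lit 0)) (P (nat_lit 257858353791778816)))) (T.h (P (nat_lit 0)) (P (nat_lit 54833314301149184))))))) (T.h (T.h (T.h (P (nat_lit 0)) (T.h (P (nat_lit 25336504363163629171769344)) (T.h (P (nat_lit 0)) (T.h (M (nat_lit 26430034141272604671)) (T.h (P (nat_lit 0)) (P (nat_lit 25603466475168))))))) (T.h (P (nat_lit 0)) (T.h (T.h (P (nat_lit 0)) (T.h (P (nat_lit 485318653575390298112)) (T.h (P (nat_lit 0)) (P (nat_lit 71961381107280))))) (T.h (P (nat_lit 0)) (T.h (T.h (P (nat_lit 0)) (P (nat_lit 354926245962528))) (P (nat_lit 0))))))) (T.h (T.h (P (nat_lit 0)) (T.h (T.h (P (nat_lit 44894562570463755632640)) (T.h (P (nat_lit 0)) (P (nat_lit 54211224123867136)))) (T.h (P (nat_lit 0)) (P (nat_lit 257858353791778816))))) (T.h (T.h (T.h (P (nat_lit 0)) (T.h (M (nat_lit 26430034141272604671)) (T.h (P (nat_lit 0)) (M (nat_lit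 85814251092287))))) (T.h (P (nat_lit 0)) (T.h (T.h (P (nat_lit 0)) (P (nat_lit 71961381107280))) (P (nat_lit 0))))) (T.h (T.h (P (nat_lit 0)) (M (nat_lit 62873358504771583))) (T.h (T.h (T.h (P (nat_lit 0)) (P (nat_lit 25603466475168))) (P (nat_lit 0))) (P (nat_lit 0)))))))), (T.h (T.h (P (nat_lit 0)) (T.h (T.h (P (nat_lit 0)) (T.h (M (nat_lit 15532778243652765473570815)) (T.h (P (nat_lit 0)) (M (nat_lit 372027013451330093055))))) (T.h (P (nat_lit 0)) (T.h (T.h (P (nat_lit 0)) (P (nat_lit 292461774379792990208))) (P (nat_lit 0)))))) (T.h (T.h (T.h (P (nat_lit 2802544089202721518058995712)) (T.h (P (nat_lit 0)) (T.h (P (nat_lit 11334887043216479092736)) (T.h (P (nat_lit 0)) (M (nat_lit 17610523673985023)))))) (T.h (P (nat_lit 0)) (T.h (T.h (M (nat_lit 219226733783414827122687)) (T.h (P (nat_lit 0)) (P (nat_lit 307064400049864704)))) (T.h (P (nat_lit 0)) (P (nat_lit 111197562056900608)))))) (T.h (T.h (P (nat_lit 0)) (T.h (T.h (P (nat_lit 0)) (P (nat_lit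 132783142035194380288))) (P (nat_lit 0)))) (T.h (T.h (T.h (M (nat_lit 11706436078456893603839)) (T.h (P (nat_lit 0)) (M (nat_lit 64870222751039487)))) (T.h (P (nat_lit 0)) (M (nat_lit 48128141689192447)))) (T.h (P (nat_lit 0)) (P (nat_lit 10301442286452736))))))), (P (nat_lit 0))]
def lQp_14 : List (T ℤ) := [(P (nat_lit 0)), (T.h (T.h (T.h (P (nat_lit 0)) (T.h (P (nat_lit 7229277941798989040011182080)) (T.h (P (nat_lit 0)) (T.h (M (nat_lit 1700234646761114697727)) (T.h (P (nat_lit 0)) (M (nat_lit 1766672385900543))))))) (T.h (P (nat_lit 0)) (T.h (T.h (P (nat_lit 0)) (T.h (P (nat_lit 55893712121856740294656)) (T.h (P (nat_lit 0)) (P (nat_lit 24900390032965632))))) (T.h (P (nat_lit 0)) (T.h (T.h (P (nat_lit 0)) (P (nat_lit 43907669705129984))) (P (nat_lit 0))))))) (T.h (T.h (P (nat_lit 0)) (T.h (T.h (P (nat_lit 2647328885556425852452864)) (T.h (P (nat_lit 0)) (T.h (M (nat_lit 9959165120451969023)) (T.h (P (nat_lit 0)) (P (nat_lit 17575024374576))))))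 (T.h (P (nat_lit 0)) (T.h (T.h (P (nat_lit 88326269022941216768)) (T.h (P (nat_lit 0)) (M (nat_lit 157763501468927)))) (T.h (P (nat_lit 0)) (P (nat_lit 310329193881600))))))) (T.h (T.h (T.h (P (nat_lit 0)) (T.h (M (nat_lit 5074626016790479634431)) (T.h (P (nat_lit 0)) (P (nat_lit 6140512668286976))))) (T.h (P (nat_lit 0)) (T.h (T.h (P (nat_lit 0)) (M (nat_lit 37873789833461759))) (P (nat_lit 0))))) (T.h (T.h (P (nat_lit 0)) (T.h (T.h (M (nat_lit 14044839506763317247)) (T.h (P (nat_lit 0)) (M (nat_lit 43491366017423)))) (T.h (P (nat_lit 0)) (M (nat_lit 15746492039039))))) (T.h (T.h (T.h (P (nat_lit 0)) (M (nat_lit 25150337114456063))) (P (nat_lit 0))) (T.h (T.h (P (nat_lit 0)) (M (nat_lit 3743196082991))) (P (nat_lit 0)))))))), (T.h (T.h (T.h (P (nat_lit 3388291302366962560366419116032)) (T.h (P (nat_lit 0)) (T.h (M (nat_lit 4983474547258667095293951)) (T.h (P (nat_lit 0)) (M (nat_lit 5571827366197460991)))))) (T.h (P (nat_lit 0)) (T.h (T.h (P (nat_lit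 52973080057366503088979968)) (T.h (P (nat_lit 0)) (P (nat_lit 91053075213775273984)))) (T.h (P (nat_lit 0)) (P (nat_lit 201408859984088793088)))))) (T.h (T.h (P (nat_lit 0)) (T.h (T.h (P (nat_lit 0)) (T.h (M (nat_lit 130518322924367101558783)) (T.h (P (nat_lit 0)) (P (nat_lit 28954197942730752))))) (T.h (P (nat_lit 0)) (T.h (T.h (P (nat_lit 0)) (P (nat_lit 179461911432396800))) (P (nat_lit 0)))))) (T.h (T.h (T.h (M (nat_lit 4983474547258667095293951)) (T.h (P (nat_lit 0)) (P (nat_lit 46072855600505552896)))) (T.h (P (nat_lit 0)) (P (nat_lit 91053075213775273984)))) (T.h (T.h (P (nat_lit 0)) (T.h (T.h (P (nat_lit 0)) (P (nat_lit 28954197942730752))) (P (nat_lit 0)))) (M (nat_lit 5571827366197460991)))))), (P (nat_lit 0)), (P (nat_lit 0)), (T.h (T.h (P (nat_lit 0)) (T.h (T.h (P (nat_lit 0)) (T.h (P (nat_lit 1761177201905144919228416)) (T.h (P (nat_lit 0)) (P (nat_lit 1424453042811437056))))) (T.h (P (nat_lit 0)) (T.h (T.h (P (nat_lit 0)) (P (nat_lit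 159289274093619118080))) (P (nat_lit 0)))))) (T.h (T.h (T.h (P (nat_lit 1069719061105742419312246784)) (T.h (P (nat_lit 0)) (T.h (M (nat_lit 167114983961662586879)) (T.h (P (nat_lit 0)) (P (nat_lit 6948109256065024)))))) (T.h (P (nat_lit 0)) (T.h (T.h (P (nat_lit 9039233065320873721856)) (T.h (P (nat_lit 0)) (M (nat_lit 69713786696892415)))) (T.h (P (nat_lit 0)) (P (nat_lit 360924354560393216)))))) (T.h (T.h (P (nat_lit 0)) (T.h (T.h (P (nat_lit 0)) (M (nat_lit 13635200529196908543))) (P (nat_lit 0)))) (T.h (T.h (T.h (M (nat_lit 4810639926731932172287)) (T.h (P (nat_lit 0)) (M (nat_lit 3999072314753023)))) (T.h (P (nat_lit 0)) (P (nat_lit 9114228696940544)))) (T.h (P (nat_lit 0)) (M (nat_lit 189485684457471))))))), (P (nat_lit 0)), (P (nat_lit 0))]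
def lQp_15 : List (T ℤ) := [(P (nat_lit 0)), (P (nat_lit 0)), (P (nat_lit 0)), (P (nat_lit 0)), (T.h (T.h (T.h (P (nat_lit 0)) (T.h (P (nat_lit 1842636641669992651706859520)) (T.h (P (nat_lit 0)) (T.h (P (nat_lit 3692873907294676451328)) (T.h (P (nat_lit 0)) (M (nat_lit 7481609000026111))))))) (T.h (P (nat_lit 0)) (T.h (T.h (P (nat_lit 0)) (T.h (M (nat_lit 4907546594058516299775)) (T.h (P (nat_lit 0)) (P (nat_lit 5832632511725568))))) (T.h (P (nat_lit 0)) (T.h (T.h (P (nat_lit 0)) (P (nat_lit 20897473785757696))) (P (nat_lit 0))))))) (T.h (T.h (P (nat_lit 0)) (T.h (T.h (M (nat_lit 3133008150478943286198271)) (T.h (P (nat_lit 0)) (T.h (M (nat_lit 75911826115607396351)) (T.h (P (nat_lit 0)) (M (nat_lit 11983016506303)))))) (T.h (P (nat_lit 0)) (T.h (T.h (M (nat_lit 4506255607094837247)) (T.h (P (nat_lit 0)) (P (nat_lit 9670404085392)))) (T.h (P (nat_lit 0)) (M (nat_lit 8114091958647))))))) (T.h (T.h (T.h (P (nat_lit 0)) (T.h (M (nat_lit 524702051116670517247))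 (T.h (P (nat_lit 0)) (P (nat_lit 31824348569567232))))) (T.h (P (nat_lit 0)) (T.h (T.h (P (nat_lit 0)) (P (nat_lit 19556106663329792))) (P (nat_lit 0))))) (T.h (T.h (P (nat_lit 0)) (T.h (T.h (P (nat_lit 1574276201889923072)) (T.h (P (nat_lit 0)) (P (nat_lit 1718313203016)))) (T.h (P (nat_lit 0)) (M (nat_lit 4428334664711))))) (T.h (T.h (T.h (P (nat_lit 0)) (P (nat_lit 10857135824961536))) (P (nat_lit 0))) (T.h (T.h (P (nat_lit 0)) (P (nat_lit 1092306519704))) (P (nat_lit 0)))))))), (T.h (T.h (T.h (M (nat_lit 4760559981841400535819587944447)) (T.h (P (nat_lit 0)) (T.h (M (nat_lit 12686087327818927969402879)) (T.h (P (nat_lit 0)) (T.h (P (nat_lit 79083973133016760320)) (T.h (P (nat_lit 0)) (P (nat_lit 33595231580112)))))))) (T.h (P (nat_lit 0)) (T.h (T.h (P (nat_lit 770520881638916390649856)) (T.h (P (nat_lit 0)) (T.h (M (nat_lit 20620189100488523775)) (T.h (P (nat_lit 0)) (P (nat_lit 52052519111328)))))) (T.h (P (nat_lit 0)) (T.h (T.h (P (nat_lit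 5476421613685571584)) (T.h (P (nat_lit 0)) (M (nat_lit 4136082018047)))) (T.h (P (nat_lit 0)) (M (nat_lit 1226078413135)))))))) (T.h (T.h (P (nat_lit 0)) (T.h (T.h (P (nat_lit 0)) (T.h (P (nat_lit 5718149774113176027136)) (T.h (P (nat_lit 0)) (P (nat_lit 88374154776510464))))) (T.h (P (nat_lit 0)) (T.h (T.h (P (nat_lit 0)) (M (nat_lit 22477953384775679))) (P (nat_lit 0)))))) (T.h (T.h (T.h (M (nat_lit 23554564491741895231275007)) (T.h (P (nat_lit 0)) (T.h (M (nat_lit 98180377231073738751)) (T.h (P (nat_lit 0)) (M (nat_lit 19123657897535)))))) (T.h (P (nat_lit 0)) (T.h (T.h (M (nat_lit 6340317228499468287)) (T.h (P (nat_lit 0)) (M (nat_lit 23507951099487)))) (T.h (P (nat_lit 0)) (P (nat_lit 3880953721632)))))) (T.h (T.h (P (nat_lit 0)) (T.h (T.h (P (nat_lit 0)) (M (nat_lit 87735198484725759))) (P (nat_lit 0)))) (T.h (T.h (T.h (M (nat_lit 26277287895165304831)) (T.h (P (nat_lit 0)) (M (nat_lit 35834186439263)))) (T.h (P (nat_lit 0)) (M (nat_lit 2332677536639))))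 (T.h (P (nat_lit 0)) (P (nat_lit 5106811990464)))))))), (T.h (T.h (T.h (P (nat_lit 0)) (T.h (P (nat_lit 7964465409808473183024578560)) (T.h (P (nat_lit 0)) (T.h (M (nat_lit 7119774854517733982207)) (T.h (P (nat_lit 0)) (M (nat_lit 148082487392174079))))))) (T.h (P (nat_lit 0)) (T.h (T.h (P (nat_lit 0)) (T.h (M (nat_lit 23922005058509963526143)) (T.h (P (nat_lit 0)) (P (nat_lit 35586079954829312))))) (T.h (P (nat_lit 0)) (T.h (T.h (P (nat_lit 0)) (P (nat_lit 19433905954488320))) (P (nat_lit 0))))))) (T.h (T.h (P (nat_lit 0)) (T.h (T.h (M (nat_lit 36565551147893332237090815)) (T.h (P (nat_lit 0)) (T.h (M (nat_lit 136602560658321440767)) (T.h (P (nat_lit 0)) (M (nat_lit 206420040118655)))))) (T.h (P (nat_lit 0)) (T.h (T.h (P (nat_lit 40838291985006592000)) (T.h (P (nat_lit 0)) (P (nat_lit 9075415495296)))) (T.h (P (nat_lit 0)) (M (nat_lit 2955205671167))))))) (T.h (T.h (T.h (P (nat_lit 0)) (T.h (M (nat_lit 135355189748246979280895)) (T.h (P (nat_lit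 0)) (M (nat_lit 285802558304780287))))) (T.h (P (nat_lit 0)) (T.h (T.h (P (nat_lit 0)) (P (nat_lit 76855338413654016))) (P (nat_lit 0))))) (T.h (T.h (P (nat_lit 0)) (T.h (T.h (M (nat_lit 22323664257476984831)) (T.h (P (nat_lit 0)) (M (nat_lit 66324274011007)))) (T.h (P (nat_lit 0)) (M (nat_lit 4242820383295))))) (T.h (T.h (T.h (P (nat_lit 0)) (M (nat_lit 11688336278388735))) (P (nat_lit 0))) (T.h (T.h (P (nat_lit 0)) (P (nat_lit 24139558673280))) (P (nat_lit 0)))))))), (T.h (T.h (T.h (M (nat_lit 6550205974850090925245048291327)) (T.h (P (nat_lit 0)) (T.h (M (nat_lit 10820930293763412938719231)) (T.h (P (nat_lit 0)) (T.h (P (nat_lit 10167124700157706240)) (T.h (P (nat_lit 0)) (M (nat_lit 1900902457007)))))))) (T.h (P (nat_lit 0)) (T.h (T.h (P (nat_lit 914669431254911916441600)) (T.h (P (nat_lit 0)) (T.h (P (nat_lit 32321156511269126144)) (T.h (P (nat_lit 0)) (M (nat_lit 154054818207791)))))) (T.h (P (nat_lit 0)) (T.h (T.h (M (nat_lit 10956550989288570879))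 (T.h (P (nat_lit 0)) (M (nat_lit 40633845785423)))) (T.h (P (nat_lit 0)) (P (nat_lit 2262664312560)))))))) (T.h (T.h (P (nat_lit 0)) (T.h (T.h (P (nat_lit 0)) (T.h (P (nat_lit 9561867817973534687232)) (T.h (P (nat_lit 0)) (M (nat_lit 202715487664177151))))) (T.h (P (nat_lit 0)) (T.h (T.h (P (nat_lit 0)) (M (nat_lit 2980120280563711))) (P (nat_lit 0)))))) (T.h (T.h (T.h (P (nat_lit 24644433191013854713217024)) (T.h (P (nat_lit 0)) (T.h (P (nat_lit 247730919216223617024)) (T.h (P (nat_lit 0)) (P (nat_lit 135693679464000)))))) (T.h (P (nat_lit 0)) (T.h (T.h (P (nat_lit 16663814109501849600)) (T.h (P (nat_lit 0)) (M (nat_lit 154284181097903)))) (T.h (P (nat_lit 0)) (M (nat_lit 40758030476063)))))) (T.h (T.h (P (nat_lit 0)) (T.h (T.h (P (nat_lit 0)) (M (nat_lit 36175207789887487))) (P (nat_lit 0)))) (T.h (T.h (T.h (P (nat_lit 12995145507583033344)) (T.h (P (nat_lit 0)) (M (nat_lit 29246983189487)))) (T.h (P (nat_lit 0)) (P (nat_lit 3747522647088)))) (T.h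 (P (nat_lit 0)) (M (nat_lit 12383001643247))))))))]
def lQp_16 : List (T ℤ) := [(T.h (T.h (T.h (P (nat_lit 0)) (T.h (M (nat_lit 5938840239767262457329876991)) (T.h (P (nat_lit 0)) (T.h (P (nat_lit 15260972577348049174528)) (T.h (P (nat_lit 0)) (P (nat_lit 68021766630866944))))))) (T.h (P (nat_lit 0)) (T.h (T.h (P (nat_lit 0)) (T.h (P (nat_lit 32448110580492473991168)) (T.h (P (nat_lit 0)) (M (nat_lit 176124080196288511))))) (T.h (P (nat_lit 0)) (T.h (T.h (P (nat_lit 0)) (M (nat_lit 14493620268662783))) (P (nat_lit 0))))))) (T.h (T.h (P (nat_lit 0)) (T.h (T.h (P (nat_lit 8121832179209592299847680)) (T.h (P (nat_lit 0)) (P (nat_lit 9408689513531703296)))) (T.h (P (nat_lit 0)) (P (nat_lit 6818117037345210368))))) (T.h (T.h (T.h (P (nat_lit 0)) (T.h (P (nat_lit 83505656668972851920896)) (T.h (P (nat_lit 0)) (P (nat_lit 112761797231247360))))) (T.h (P (nat_lit 0)) (T.h (T.h (P (nat_lit 0)) (M (nat_lit 99906550954229759))) (P (nat_lit 0))))) (T.h (T.h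 (P (nat_lit 0)) (M (nat_lit 18589109809936596991))) (T.h (T.h (T.h (P (nat_lit 0)) (M (nat_lit 17569552337108991))) (P (nat_lit 0))) (P (nat_lit 0))))))), (P (nat_lit 0)), (P (nat_lit 0)), (T.h (T.h (P (nat_lit 0)) (T.h (T.h (P (nat_lit 7676601293760344942171914240)) (T.h (P (nat_lit 0)) (T.h (P (nat_lit 2528467221433185992704)) (T.h (P (nat_lit 0)) (P (nat_lit 20274453471068160)))))) (T.h (P (nat_lit 0)) (T.h (T.h (M (nat_lit 843667312744360574975)) (T.h (P (nat_lit 0)) (P (nat_lit 94577210414956544)))) (T.h (P (nat_lit 0)) (P (nat_lit 1155217284857856))))))) (T.h (T.h (T.h (P (nat_lit 0)) (T.h (M (nat_lit 6540568087616169885827071)) (T.h (P (nat_lit 0)) (T.h (P (nat_lit 34911053992542863360)) (T.h (P (nat_lit 0)) (M (nat_lit 49104525143807))))))) (T.h (P (nat_lit 0)) (T.h (T.h (P (nat_lit 0)) (T.h (M (nat_lit 2741480094106124287)) (T.h (P (nat_lit 0)) (P (nat_lit 416351873837288))))) (T.h (P (nat_lit 0)) (T.h (T.h (P (nat_lit 0)) (P (nat_lit 49962957403376)))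 (P (nat_lit 0))))))) (T.h (T.h (P (nat_lit 0)) (T.h (T.h (P (nat_lit 2528467221433185992704)) (T.h (P (nat_lit 0)) (M (nat_lit 114226627383721983)))) (T.h (P (nat_lit 0)) (P (nat_lit 94577210414956544))))) (T.h (T.h (T.h (P (nat_lit 0)) (T.h (P (nat_lit 34911053992542863360)) (T.h (P (nat_lit 0)) (M (nat_lit 30759875023727))))) (T.h (P (nat_lit 0)) (T.h (T.h (P (nat_lit 0)) (P (nat_lit 416351873837288))) (P (nat_lit 0))))) (T.h (T.h (P (nat_lit 0)) (P (nat_lit 20274453471068160))) (T.h (T.h (T.h (P (nat_lit 0)) (M (nat_lit 49104525143807))) (P (nat_lit 0))) (P (nat_lit 0)))))))), (T.h (T.h (P (nat_lit 0)) (T.h (T.h (P (nat_lit 0)) (T.h (P (nat_lit 19361259890558873645350912)) (T.h (P (nat_lit 0)) (T.h (P (nat_lit 315625357326101250048)) (T.h (P (nat_lit 0)) (M (nat_lit 12012813532351))))))) (T.h (P (nat_lit 0)) (T.h (T.h (P (nat_lit 0)) (T.h (P (nat_lit 301861519813580423168)) (T.h (P (nat_lit 0)) (M (nat_lit 7866646795423))))) (T.h (P (nat_lit 0))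 (T.h (T.h (P (nat_lit 0)) (M (nat_lit 4685423447423))) (P (nat_lit 0)))))))) (T.h (T.h (T.h (M (nat_lit 12442159702627192574694129663)) (T.h (P (nat_lit 0)) (T.h (P (nat_lit 9314640038293583953920)) (T.h (P (nat_lit 0)) (M (nat_lit 50878799646982143)))))) (T.h (P (nat_lit 0)) (T.h (T.h (M (nat_lit 55715830800575121850367)) (T.h (P (nat_lit 0)) (P (nat_lit 958406978850095104)))) (T.h (P (nat_lit 0)) (M (nat_lit 63682034683822079)))))) (T.h (T.h (P (nat_lit 0)) (T.h (T.h (P (nat_lit 0)) (T.h (M (nat_lit 43470478741176582143)) (T.h (P (nat_lit 0)) (P (nat_lit 254418358177664))))) (T.h (P (nat_lit 0)) (T.h (T.h (P (nat_lit 0)) (P (nat_lit 90268290434928))) (P (nat_lit 0)))))) (T.h (T.h (T.h (P (nat_lit 22743871949365672148992)) (T.h (P (nat_lit 0)) (P (nat_lit 211703931507752960)))) (T.h (P (nat_lit 0)) (M (nat_lit 108479705473908735)))) (T.h (T.h (P (nat_lit 0)) (T.h (T.h (P (nat_lit 0)) (P (nat_lit 54023327974512))) (P (nat_lit 0)))) (P (nat_lit 18097103314681856))))))),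 (T.h (T.h (P (nat_lit 0)) (T.h (T.h (M (nat_lit 30439372902512087466491510783)) (T.h (P (nat_lit 0)) (T.h (P (nat_lit 163116600156994838462464)) (T.h (P (nat_lit 0)) (M (nat_lit 409804081434263551)))))) (T.h (P (nat_lit 0)) (T.h (T.h (P (nat_lit 4512347180252872572928)) (T.h (P (nat_lit 0)) (M (nat_lit 390897227788976127)))) (T.h (P (nat_lit 0)) (M (nat_lit 25401474191458303))))))) (T.h (T.h (T.h (P (nat_lit 0)) (T.h (M (nat_lit 17136308746545256755888127)) (T.h (P (nat_lit 0)) (T.h (P (nat_lit 254244116952053186560)) (T.h (P (nat_lit 0)) (M (nat_lit 118685896343039))))))) (T.h (P (nat_lit 0)) (T.h (T.h (P (nat_lit 0)) (T.h (P (nat_lit 40001066219060854784)) (T.h (P (nat_lit 0)) (M (nat_lit 435589951003263))))) (T.h (P (nat_lit 0)) (T.h (T.h (P (nat_lit 0)) (M (nat_lit 224110488235839))) (P (nat_lit 0))))))) (T.h (T.h (P (nat_lit 0)) (T.h (T.h (P (nat_lit 5187693863199632785408)) (T.h (P (nat_lit 0)) (P (nat_lit 783145859356131328)))) (T.h (P (nat_lit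 0)) (M (nat_lit 165668878693040127))))) (T.h (T.h (T.h (P (nat_lit 0)) (T.h (P (nat_lit 390903923725150715904)) (T.h (P (nat_lit 0)) (P (nat_lit 297158349740032))))) (T.h (P (nat_lit 0)) (T.h (T.h (P (nat_lit 0)) (P (nat_lit 201592896292032))) (P (nat_lit 0))))) (T.h (T.h (P (nat_lit 0)) (P (nat_lit 131697003819499520))) (T.h (T.h (T.h (P (nat_lit 0)) (P (nat_lit 41950637664832))) (P (nat_lit 0))) (P (nat_lit 0)))))))), (T.h (T.h (P (nat_lit 0)) (T.h (T.h (P (nat_lit 0)) (T.h (P (nat_lit 125077768936907594421764096)) (T.h (P (nat_lit 0)) (T.h (M (nat_lit 345759542040470749183)) (T.h (P (nat_lit 0)) (P (nat_lit 88368910367184))))))) (T.h (P (nat_lit 0)) (T.h (T.h (P (nat_lit 0)) (T.h (M (nat_lit 278499119748561764351)) (T.h (P (nat_lit 0)) (M (nat_lit 40308873541055))))) (T.h (P (nat_lit 0)) (T.h (T.h (P (nat_lit 0)) (P (nat_lit 6090557697360))) (P (nat_lit 0)))))))) (T.h (T.h (T.h (M (nat_lit 19749972867985824880883924991)) (T.h (P (nat_lit 0)) (T.h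 (P (nat_lit 85813189506337280622592)) (T.h (P (nat_lit 0)) (P (nat_lit 99857125569953792)))))) (T.h (P (nat_lit 0)) (T.h (T.h (M (nat_lit 48149716623839597690879)) (T.h (P (nat_lit 0)) (M (nat_lit 206162730796777471)))) (T.h (P (nat_lit 0)) (M (nat_lit 90597181508173823)))))) (T.h (T.h (P (nat_lit 0)) (T.h (T.h (P (nat_lit 0)) (T.h (P (nat_lit 320132666256611344384)) (T.h (P (nat_lit 0)) (P (nat_lit 480696106885200))))) (T.h (P (nat_lit 0)) (T.h (T.h (P (nat_lit 0)) (P (nat_lit 135400654107216))) (P (nat_lit 0)))))) (T.h (T.h (T.h (M (nat_lit 3964513970473056337919)) (T.h (P (nat_lit 0)) (M (nat_lit 771701867331026943)))) (T.h (P (nat_lit 0)) (M (nat_lit 65492402368675839)))) (T.h (T.h (P (nat_lit 0)) (T.h (T.h (P (nat_lit 0)) (M (nat_lit 212902374284207))) (P (nat_lit 0)))) (P (nat_lit 22758469681364992))))))), (T.h (T.h (P (nat_lit 0)) (T.h (T.h (P (nat_lit 2802544089202721518058995712)) (T.h (P (nat_lit 0)) (T.h (M (nat_lit 219226733783414827122687))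 (T.h (P (nat_lit 0)) (P (nat_lit 111197562056900608)))))) (T.h (P (nat_lit 0)) (T.h (T.h (M (nat_lit 11706436078456893603839)) (T.h (P (nat_lit 0)) (M (nat_lit 48128141689192447)))) (T.h (P (nat_lit 0)) (P (nat_lit 10301442286452736))))))) (T.h (T.h (T.h (P (nat_lit 0)) (T.h (M (nat_lit 15532778243652765473570815)) (T.h (P (nat_lit 0)) (P (nat_lit 292461774379792990208))))) (T.h (P (nat_lit 0)) (T.h (T.h (P (nat_lit 0)) (P (nat_lit 132783142035194380288))) (P (nat_lit 0))))) (T.h (T.h (P (nat_lit 0)) (T.h (T.h (P (nat_lit 11334887043216479092736)) (T.h (P (nat_lit 0)) (P (nat_lit 307064400049864704)))) (T.h (P (nat_lit 0)) (M (nat_lit 64870222751039487))))) (T.h (T.h (T.h (P (nat_lit 0)) (M (nat_lit 372027013451330093055))) (P (nat_lit 0))) (T.h (T.h (P (nat_lit 0)) (M (nat_lit 17610523673985023))) (P (nat_lit 0)))))))]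
def lQp_17 : List (T ℤ) := [(P (nat_lit 0)), (P (nat_lit 0)), (T.h (T.h (T.h (P (nat_lit 0)) (T.h (P (nat_lit 7676601293760344942171914240)) (T.h (P (nat_lit 0)) (T.h (M (nat_lit 843667312744360574975)) (T.h (P (nat_lit 0)) (P (nat_lit 1155217284857856))))))) (T.h (P (nat_lit 0)) (T.h (T.h (P (nat_lit 0)) (T.h (P (nat_lit 2528467221433185992704)) (T.h (P (nat_lit 0)) (P (nat_lit 94577210414956544))))) (T.h (P (nat_lit 0)) (T.h (T.h (P (nat_lit 0)) (P (nat_lit 20274453471068160))) (P (nat_lit 0))))))) (T.h (T.h (P (nat_lit 0)) (T.h (T.h (M (nat_lit 6540568087616169885827071)) (T.h (P (nat_lit 0)) (T.h (M (nat_lit 2741480094106124287)) (T.h (P (nat_lit 0)) (P (nat_lit 49962957403376)))))) (T.h (P (nat_lit 0)) (T.h (T.h (P (nat_lit 34911053992542863360)) (T.h (P (nat_lit 0)) (P (nat_lit 416351873837288)))) (T.h (P (nat_lit 0)) (M (nat_lit 49104525143807))))))) (T.h (T.h (T.h (P (nat_lit 0)) (T.h (P (nat_lit 2528467221433185992704)) (T.h (P (nat_lit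 0)) (P (nat_lit 94577210414956544))))) (T.h (P (nat_lit 0)) (T.h (T.h (P (nat_lit 0)) (M (nat_lit 114226627383721983))) (P (nat_lit 0))))) (T.h (T.h (P (nat_lit 0)) (T.h (T.h (P (nat_lit 34911053992542863360)) (T.h (P (nat_lit 0)) (P (nat_lit 416351873837288)))) (T.h (P (nat_lit 0)) (M (nat_lit 30759875023727))))) (T.h (T.h (T.h (P (nat_lit 0)) (P (nat_lit 20274453471068160))) (P (nat_lit 0))) (T.h (T.h (P (nat_lit 0)) (M (nat_lit 49104525143807))) (P (nat_lit 0)))))))), (T.h (T.h (T.h (M (nat_lit 11791259417210696447868832579583)) (T.h (P (nat_lit 0)) (T.h (M (nat_lit 6038713356502016525860863)) (T.h (P (nat_lit 0)) (T.h (M (nat_lit 30488249492098252799)) (T.h (P (nat_lit 0)) (M (nat_lit 14057967842495)))))))) (T.h (P (nat_lit 0)) (T.h (T.h (M (nat_lit 6038713356502016525860863)) (T.h (P (nat_lit 0)) (T.h (P (nat_lit 252307700561771233280)) (T.h (P (nat_lit 0)) (M (nat_lit 97884385976735)))))) (T.h (P (nat_lit 0)) (T.h (T.h (M (nat_lit 30488249492098252799))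 (T.h (P (nat_lit 0)) (M (nat_lit 97884385976735)))) (T.h (P (nat_lit 0)) (M (nat_lit 14057967842495)))))))) (T.h (T.h (P (nat_lit 0)) (T.h (T.h (P (nat_lit 0)) (T.h (P (nat_lit 8421825983228606939136)) (T.h (P (nat_lit 0)) (M (nat_lit 193232041273327615))))) (T.h (P (nat_lit 0)) (T.h (T.h (P (nat_lit 0)) (M (nat_lit 193232041273327615))) (P (nat_lit 0)))))) (T.h (T.h (T.h (M (nat_lit 6038713356502016525860863)) (T.h (P (nat_lit 0)) (T.h (P (nat_lit 252307700561771233280)) (T.h (P (nat_lit 0)) (M (nat_lit 97884385976735)))))) (T.h (P (nat_lit 0)) (T.h (P (nat_lit 252307700561771233280)) (T.h (P (nat_lit 0)) (M (nat_lit 97884385976735)))))) (T.h (T.h (P (nat_lit 0)) (T.h (T.h (P (nat_lit 0)) (M (nat_lit 193232041273327615))) (P (nat_lit 0)))) (T.h (T.h (T.h (M (nat_lit 30488249492098252799)) (T.h (P (nat_lit 0)) (M (nat_lit 97884385976735)))) (T.h (P (nat_lit 0)) (M (nat_lit 97884385976735)))) (T.h (P (nat_lit 0)) (M (nat_lit 14057967842495)))))))),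 (T.h (T.h (T.h (P (nat_lit 0)) (T.h (P (nat_lit 9545874895522193633590640640)) (T.h (P (nat_lit 0)) (T.h (P (nat_lit 90618985186322737528832)) (T.h (P (nat_lit 0)) (M (nat_lit 19296232174452735))))))) (T.h (P (nat_lit 0)) (T.h (T.h (P (nat_lit 0)) (T.h (P (nat_lit 445491985582406009618432)) (T.h (P (nat_lit 0)) (P (nat_lit 146736208288743424))))) (T.h (P (nat_lit 0)) (T.h (T.h (P (nat_lit 0)) (M (nat_lit 270446748449570815))) (P (nat_lit 0))))))) (T.h (T.h (P (nat_lit 0)) (T.h (T.h (M (nat_lit 44471439507994196244955135)) (T.h (P (nat_lit 0)) (T.h (P (nat_lit 1687305341707791368192)) (T.h (P (nat_lit 0)) (P (nat_lit 337357176257408)))))) (T.h (P (nat_lit 0)) (T.h (T.h (P (nat_lit 110754958492724887552)) (T.h (P (nat_lit 0)) (M (nat_lit 64923611577791)))) (T.h (P (nat_lit 0)) (M (nat_lit 133890566166207))))))) (T.h (T.h (T.h (P (nat_lit 0)) (T.h (P (nat_lit 445491985582406009618432)) (T.h (P (nat_lit 0)) (P (nat_lit 146736208288743424))))) (T.h (P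 (nat_lit 0)) (T.h (T.h (P (nat_lit 0)) (P (nat_lit 35426960130179072))) (P (nat_lit 0))))) (T.h (T.h (P (nat_lit 0)) (T.h (T.h (P (nat_lit 110754958492724887552)) (T.h (P (nat_lit 0)) (M (nat_lit 64923611577791)))) (T.h (P (nat_lit 0)) (P (nat_lit 85561532059776))))) (T.h (T.h (T.h (P (nat_lit 0)) (M (nat_lit 270446748449570815))) (P (nat_lit 0))) (T.h (T.h (P (nat_lit 0)) (M (nat_lit 133890566166207))) (P (nat_lit 0)))))))), (T.h (T.h (T.h (M (nat_lit 9621836782640715442813122117631)) (T.h (P (nat_lit 0)) (T.h (P (nat_lit 95447913308479641767378944)) (T.h (P (nat_lit 0)) (T.h (P (nat_lit 14001697306391347200)) (T.h (P (nat_lit 0)) (P (nat_lit 335070000742752)))))))) (T.h (P (nat_lit 0)) (T.h (T.h (P (nat_lit 39709390679530183027851264)) (T.h (P (nat_lit 0)) (T.h (M (nat_lit 876055013546178641919)) (T.h (P (nat_lit 0)) (M (nat_lit 140036581379231)))))) (T.h (P (nat_lit 0)) (T.h (T.h (M (nat_lit 46137101300793343999)) (T.h (P (nat_lit 0)) (P (nat_lit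 48162526619760)))) (T.h (P (nat_lit 0)) (P (nat_lit 44261739818928)))))))) (T.h (T.h (P (nat_lit 0)) (T.h (T.h (P (nat_lit 0)) (T.h (P (nat_lit 693188341454905471401984)) (T.h (P (nat_lit 0)) (M (nat_lit 360564490332274687))))) (T.h (P (nat_lit 0)) (T.h (T.h (P (nat_lit 0)) (P (nat_lit 150070350940602368))) (P (nat_lit 0)))))) (T.h (T.h (T.h (P (nat_lit 39709390679530183027851264)) (T.h (P (nat_lit 0)) (T.h (M (nat_lit 876055013546178641919)) (T.h (P (nat_lit 0)) (M (nat_lit 140036581379231)))))) (T.h (P (nat_lit 0)) (T.h (T.h (P (nat_lit 325842093885051895808)) (T.h (P (nat_lit 0)) (P (nat_lit 140014755056160)))) (T.h (P (nat_lit 0)) (P (nat_lit 83994971528592)))))) (T.h (T.h (P (nat_lit 0)) (T.h (T.h (P (nat_lit 0)) (P (nat_lit 150070350940602368))) (P (nat_lit 0)))) (T.h (T.h (T.h (M (nat_lit 46137101300793343999)) (T.h (P (nat_lit 0)) (P (nat_lit 48162526619760)))) (T.h (P (nat_lit 0)) (P (nat_lit 83994971528592)))) (T.h (P (nat_lit 0)) (P (nat_lit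 44261739818928)))))))), (T.h (T.h (T.h (P (nat_lit 0)) (T.h (P (nat_lit 4579424526163621342888329216)) (T.h (P (nat_lit 0)) (T.h (P (nat_lit 85697005781413963759616)) (T.h (P (nat_lit 0)) (P (nat_lit 497699913998991360))))))) (T.h (P (nat_lit 0)) (T.h (T.h (P (nat_lit 0)) (T.h (M (nat_lit 248937398817884102197247)) (T.h (P (nat_lit 0)) (M (nat_lit 45596862977114111))))) (T.h (P (nat_lit 0)) (T.h (T.h (P (nat_lit 0)) (M (nat_lit 19598115853172735))) (P (nat_lit 0))))))) (T.h (T.h (P (nat_lit 0)) (T.h (T.h (M (nat_lit 39688469449529713359847423)) (T.h (P (nat_lit 0)) (M (nat_lit 34670609189121818623)))) (T.h (P (nat_lit 0)) (P (nat_lit 59325890128280289280))))) (T.h (T.h (T.h (P (nat_lit 0)) (T.h (M (nat_lit 248937398817884102197247)) (T.h (P (nat_lit 0)) (M (nat_lit 45596862977114111))))) (T.h (P (nat_lit 0)) (T.h (T.h (P (nat_lit 0)) (P (nat_lit 248589297153277952))) (P (nat_lit 0))))) (T.h (T.h (P (nat_lit 0)) (P (nat_lit 59325890128280289280)))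 (T.h (T.h (T.h (P (nat_lit 0)) (M (nat_lit 19598115853172735))) (P (nat_lit 0))) (P (nat_lit 0))))))), (P (nat_lit 0))]
def lQp_18 : List (T ℤ) := [(P (nat_lit 0)), (T.h (T.h (P (nat_lit 0)) (T.h (T.h (P (nat_lit 1842636641669992651706859520)) (T.h (P (nat_lit 0)) (T.h (M (nat_lit 4907546594058516299775)) (T.h (P (nat_lit 0)) (P (nat_lit 20897473785757696)))))) (T.h (P (nat_lit 0)) (T.h (T.h (P (nat_lit 3692873907294676451328)) (T.h (P (nat_lit 0)) (P (nat_lit 5832632511725568)))) (T.h (P (nat_lit 0)) (M (nat_lit 7481609000026111))))))) (T.h (T.h (T.h (P (nat_lit 0)) (T.h (M (nat_lit 3133008150478943286198271)) (T.h (P (nat_lit 0)) (T.h (M (nat_lit 4506255607094837247)) (T.h (P (nat_lit 0)) (M (nat_lit 8114091958647))))))) (T.h (P (nat_lit 0)) (T.h (T.h (P (nat_lit 0)) (T.h (M (nat_lit 75911826115607396351)) (T.h (P (nat_lit 0)) (P (nat_lit 9670404085392))))) (T.h (P (nat_lit 0)) (T.h (T.h (P (nat_lit 0)) (M (nat_lit 11983016506303))) (P (nat_lit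 0))))))) (T.h (T.h (P (nat_lit 0)) (T.h (T.h (M (nat_lit 524702051116670517247)) (T.h (P (nat_lit 0)) (P (nat_lit 19556106663329792)))) (T.h (P (nat_lit 0)) (P (nat_lit 31824348569567232))))) (T.h (T.h (T.h (P (nat_lit 0)) (T.h (P (nat_lit 1574276201889923072)) (T.h (P (nat_lit 0)) (M (nat_lit 4428334664711))))) (T.h (P (nat_lit 0)) (T.h (T.h (P (nat_lit 0)) (P (nat_lit 1718313203016))) (P (nat_lit 0))))) (T.h (T.h (P (nat_lit 0)) (P (nat_lit 10857135824961536))) (T.h (T.h (T.h (P (nat_lit 0)) (P (nat_lit 1092306519704))) (P (nat_lit 0))) (P (nat_lit 0)))))))), (T.h (T.h (P (nat_lit 0)) (T.h (T.h (P (nat_lit 0)) (T.h (P (nat_lit 19361259890558873645350912)) (T.h (P (nat_lit 0)) (T.h (P (nat_lit 301861519813580423168)) (T.h (P (nat_lit 0)) (M (nat_lit 4685423447423))))))) (T.h (P (nat_lit 0)) (T.h (T.h (P (nat_lit 0)) (T.h (P (nat_lit 315625357326101250048)) (T.h (P (nat_lit 0)) (M (nat_lit 7866646795423))))) (T.h (P (nat_lit 0)) (T.h (T.h (P (nat_lit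 0)) (M (nat_lit 12012813532351))) (P (nat_lit 0)))))))) (T.h (T.h (T.h (M (nat_lit 12442159702627192574694129663)) (T.h (P (nat_lit 0)) (T.h (M (nat_lit 55715830800575121850367)) (T.h (P (nat_lit 0)) (M (nat_lit 63682034683822079)))))) (T.h (P (nat_lit 0)) (T.h (T.h (P (nat_lit 9314640038293583953920)) (T.h (P (nat_lit 0)) (P (nat_lit 958406978850095104)))) (T.h (P (nat_lit 0)) (M (nat_lit 50878799646982143)))))) (T.h (T.h (P (nat_lit 0)) (T.h (T.h (P (nat_lit 0)) (T.h (M (nat_lit 43470478741176582143)) (T.h (P (nat_lit 0)) (P (nat_lit 90268290434928))))) (T.h (P (nat_lit 0)) (T.h (T.h (P (nat_lit 0)) (P (nat_lit 254418358177664))) (P (nat_lit 0)))))) (T.h (T.h (T.h (P (nat_lit 22743871949365672148992)) (T.h (P (nat_lit 0)) (M (nat_lit 108479705473908735)))) (T.h (P (nat_lit 0)) (P (nat_lit 211703931507752960)))) (T.h (T.h (P (nat_lit 0)) (T.h (T.h (P (nat_lit 0)) (P (nat_lit 54023327974512))) (P (nat_lit 0)))) (P (nat_lit 18097103314681856))))))),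 (T.h (T.h (P (nat_lit 0)) (T.h (T.h (P (nat_lit 9545874895522193633590640640)) (T.h (P (nat_lit 0)) (T.h (P (nat_lit 445491985582406009618432)) (T.h (P (nat_lit 0)) (M (nat_lit 270446748449570815)))))) (T.h (P (nat_lit 0)) (T.h (T.h (P (nat_lit 90618985186322737528832)) (T.h (P (nat_lit 0)) (P (nat_lit 146736208288743424)))) (T.h (P (nat_lit 0)) (M (nat_lit 19296232174452735))))))) (T.h (T.h (T.h (P (nat_lit 0)) (T.h (M (nat_lit 44471439507994196244955135)) (T.h (P (nat_lit 0)) (T.h (P (nat_lit 110754958492724887552)) (T.h (P (nat_lit 0)) (M (nat_lit 133890566166207))))))) (T.h (P (nat_lit 0)) (T.h (T.h (P (nat_lit 0)) (T.h (P (nat_lit 1687305341707791368192)) (T.h (P (nat_lit 0)) (M (nat_lit 64923611577791))))) (T.h (P (nat_lit 0)) (T.h (T.h (P (nat_lit 0)) (P (nat_lit 337357176257408))) (P (nat_lit 0))))))) (T.h (T.h (P (nat_lit 0)) (T.h (T.h (P (nat_lit 445491985582406009618432)) (T.h (P (nat_lit 0)) (P (nat_lit 35426960130179072)))) (T.h (P (nat_lit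 0)) (P (nat_lit 146736208288743424))))) (T.h (T.h (T.h (P (nat_lit 0)) (T.h (P (nat_lit 110754958492724887552)) (T.h (P (nat_lit 0)) (P (nat_lit 85561532059776))))) (T.h (P (nat_lit 0)) (T.h (T.h (P (nat_lit 0)) (M (nat_lit 64923611577791))) (P (nat_lit 0))))) (T.h (T.h (P (nat_lit 0)) (M (nat_lit 270446748449570815))) (T.h (T.h (T.h (P (nat_lit 0)) (M (nat_lit 133890566166207))) (P (nat_lit 0))) (P (nat_lit 0)))))))), (T.h (T.h (P (nat_lit 0)) (T.h (T.h (P (nat_lit 0)) (T.h (M (nat_lit 86898959468142454170976255)) (T.h (P (nat_lit 0)) (T.h (M (nat_lit 646848846316462669823)) (T.h (P (nat_lit 0)) (P (nat_lit 337671127368288))))))) (T.h (P (nat_lit 0)) (T.h (T.h (P (nat_lit 0)) (T.h (M (nat_lit 646848846316462669823)) (T.h (P (nat_lit 0)) (M (nat_lit 99566560820447))))) (T.h (P (nat_lit 0)) (T.h (T.h (P (nat_lit 0)) (P (nat_lit 337671127368288))) (P (nat_lit 0)))))))) (T.h (T.h (T.h (P (nat_lit 52310243088687655789380239360)) (T.h (P (nat_lit 0))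 (T.h (P (nat_lit 617189314113394654052352)) (T.h (P (nat_lit 0)) (P (nat_lit 4422557504126976)))))) (T.h (P (nat_lit 0)) (T.h (T.h (P (nat_lit 617189314113394654052352)) (T.h (P (nat_lit 0)) (M (nat_lit 196672124278702079)))) (T.h (P (nat_lit 0)) (P (nat_lit 4422557504126976)))))) (T.h (T.h (P (nat_lit 0)) (T.h (T.h (P (nat_lit 0)) (T.h (P (nat_lit 294794269230620475392)) (T.h (P (nat_lit 0)) (M (nat_lit 850977363897935))))) (T.h (P (nat_lit 0)) (T.h (T.h (P (nat_lit 0)) (M (nat_lit 850977363897935))) (P (nat_lit 0)))))) (T.h (T.h (T.h (P (nat_lit 144754076876271417032704)) (T.h (P (nat_lit 0)) (P (nat_lit 557050926757429248)))) (T.h (P (nat_lit 0)) (P (nat_lit 557050926757429248)))) (T.h (T.h (P (nat_lit 0)) (T.h (T.h (P (nat_lit 0)) (M (nat_lit 439370500807583))) (P (nat_lit 0)))) (M (nat_lit 110256827492040703))))))), (T.h (T.h (P (nat_lit 0)) (T.h (T.h (M (nat_lit 8678397838319954379703058431)) (T.h (P (nat_lit 0)) (T.h (M (nat_lit 378592996281651543670783))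 (T.h (P (nat_lit 0)) (P (nat_lit 208185981911433216)))))) (T.h (P (nat_lit 0)) (T.h (T.h (M (nat_lit 74394072377337271287807)) (T.h (P (nat_lit 0)) (M (nat_lit 66756519374815231)))) (T.h (P (nat_lit 0)) (P (nat_lit 139219386486030336))))))) (T.h (T.h (T.h (P (nat_lit 0)) (T.h (P (nat_lit 96179261992023780361240576)) (T.h (P (nat_lit 0)) (M (nat_lit 6753330301906190335))))) (T.h (P (nat_lit 0)) (T.h (T.h (P (nat_lit 0)) (P (nat_lit 53604245851376451584))) (P (nat_lit 0))))) (T.h (T.h (P (nat_lit 0)) (T.h (T.h (P (nat_lit 341199079021657320325120)) (T.h (P (nat_lit 0)) (M (nat_lit 589473878395617279)))) (T.h (P (nat_lit 0)) (M (nat_lit 62581864780890111))))) (T.h (T.h (T.h (P (nat_lit 0)) (P (nat_lit 217121808635813429248))) (P (nat_lit 0))) (T.h (T.h (P (nat_lit 0)) (M (nat_lit 129826036928675839))) (P (nat_lit 0))))))), (P (nat_lit 0)), (P (nat_lit 0))]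
def lQp_19 : List (T ℤ) := [(T.h (T.h (T.h (M (nat_lit 4760559981841400535819587944447)) (T.h (P (nat_lit 0)) (T.h (P (nat_lit 770520881638916390649856)) (T.h (P (nat_lit 0)) (T.h (P (nat_lit 5476421613685571584)) (T.h (P (nat_lit 0)) (M (nat_lit 1226078413135)))))))) (T.h (P (nat_lit 0)) (T.h (T.h (M (nat_lit 12686087327818927969402879)) (T.h (P (nat_lit 0)) (T.h (M (nat_lit 20620189100488523775)) (T.h (P (nat_lit 0)) (M (nat_lit 4136082018047)))))) (T.h (P (nat_lit 0)) (T.h (T.h (P (nat_lit 79083973133016760320)) (T.h (P (nat_lit 0)) (P (nat_lit 52052519111328)))) (T.h (P (nat_lit 0)) (P (nat_lit 33595231580112)))))))) (T.h (T.h (P (nat_lit 0)) (T.h (T.h (P (nat_lit 0)) (T.h (P (nat_lit 5718149774113176027136)) (T.h (P (nat_lit 0)) (M (nat_lit 22477953384775679))))) (T.h (P (nat_lit 0)) (T.h (T.h (P (nat_lit 0)) (P (nat_lit 88374154776510464))) (P (nat_lit 0)))))) (T.h (T.h (T.h (M (nat_lit 23554564491741895231275007)) (T.h (P (nat_lit 0)) (T.h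 (M (nat_lit 6340317228499468287)) (T.h (P (nat_lit 0)) (P (nat_lit 3880953721632)))))) (T.h (P (nat_lit 0)) (T.h (T.h (M (nat_lit 98180377231073738751)) (T.h (P (nat_lit 0)) (M (nat_lit 23507951099487)))) (T.h (P (nat_lit 0)) (M (nat_lit 19123657897535)))))) (T.h (T.h (P (nat_lit 0)) (T.h (T.h (P (nat_lit 0)) (M (nat_lit 87735198484725759))) (P (nat_lit 0)))) (T.h (T.h (T.h (M (nat_lit 26277287895165304831)) (T.h (P (nat_lit 0)) (M (nat_lit 2332677536639)))) (T.h (P (nat_lit 0)) (M (nat_lit 35834186439263)))) (T.h (P (nat_lit 0)) (P (nat_lit 5106811990464)))))))), (T.h (T.h (T.h (P (nat_lit 0)) (T.h (M (nat_lit 30439372902512087466491510783)) (T.h (P (nat_lit 0)) (T.h (P (nat_lit 4512347180252872572928)) (T.h (P (nat_lit 0)) (M (nat_lit 25401474191458303))))))) (T.h (P (nat_lit 0)) (T.h (T.h (P (nat_lit 0)) (T.h (P (nat_lit 163116600156994838462464)) (T.h (P (nat_lit 0)) (M (nat_lit 390897227788976127))))) (T.h (P (nat_lit 0)) (T.h (T.h (P (nat_lit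 0)) (M (nat_lit 409804081434263551))) (P (nat_lit 0))))))) (T.h (T.h (P (nat_lit 0)) (T.h (T.h (M (nat_lit 17136308746545256755888127)) (T.h (P (nat_lit 0)) (T.h (P (nat_lit 40001066219060854784)) (T.h (P (nat_lit 0)) (M (nat_lit 224110488235839)))))) (T.h (P (nat_lit 0)) (T.h (T.h (P (nat_lit 254244116952053186560)) (T.h (P (nat_lit 0)) (M (nat_lit 435589951003263)))) (T.h (P (nat_lit 0)) (M (nat_lit 118685896343039))))))) (T.h (T.h (T.h (P (nat_lit 0)) (T.h (P (nat_lit 5187693863199632785408)) (T.h (P (nat_lit 0)) (M (nat_lit 165668878693040127))))) (T.h (P (nat_lit 0)) (T.h (T.h (P (nat_lit 0)) (P (nat_lit 783145859356131328))) (P (nat_lit 0))))) (T.h (T.h (P (nat_lit 0)) (T.h (T.h (P (nat_lit 390903923725150715904)) (T.h (P (nat_lit 0)) (P (nat_lit 201592896292032)))) (T.h (P (nat_lit 0)) (P (nat_lit 297158349740032))))) (T.h (T.h (T.h (P (nat_lit 0)) (P (nat_lit 131697003819499520))) (P (nat_lit 0))) (T.h (T.h (P (nat_lit 0)) (P (nat_lit 41950637664832)))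 (P (nat_lit 0)))))))), (T.h (T.h (T.h (M (nat_lit 9621836782640715442813122117631)) (T.h (P (nat_lit 0)) (T.h (P (nat_lit 39709390679530183027851264)) (T.h (P (nat_lit 0)) (T.h (M (nat_lit 46137101300793343999)) (T.h (P (nat_lit 0)) (P (nat_lit 44261739818928)))))))) (T.h (P (nat_lit 0)) (T.h (T.h (P (nat_lit 95447913308479641767378944)) (T.h (P (nat_lit 0)) (T.h (M (nat_lit 876055013546178641919)) (T.h (P (nat_lit 0)) (P (nat_lit 48162526619760)))))) (T.h (P (nat_lit 0)) (T.h (T.h (P (nat_lit 14001697306391347200)) (T.h (P (nat_lit 0)) (M (nat_lit 140036581379231)))) (T.h (P (nat_lit 0)) (P (nat_lit 335070000742752)))))))) (T.h (T.h (P (nat_lit 0)) (T.h (T.h (P (nat_lit 0)) (T.h (P (nat_lit 693188341454905471401984)) (T.h (P (nat_lit 0)) (P (nat_lit 150070350940602368))))) (T.h (P (nat_lit 0)) (T.h (T.h (P (nat_lit 0)) (M (nat_lit 360564490332274687))) (P (nat_lit 0)))))) (T.h (T.h (T.h (P (nat_lit 39709390679530183027851264)) (T.h (P (nat_lit 0))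 (T.h (P (nat_lit 325842093885051895808)) (T.h (P (nat_lit 0)) (P (nat_lit 83994971528592)))))) (T.h (P (nat_lit 0)) (T.h (T.h (M (nat_lit 876055013546178641919)) (T.h (P (nat_lit 0)) (P (nat_lit 140014755056160)))) (T.h (P (nat_lit 0)) (M (nat_lit 140036581379231)))))) (T.h (T.h (P (nat_lit 0)) (T.h (T.h (P (nat_lit 0)) (P (nat_lit 150070350940602368))) (P (nat_lit 0)))) (T.h (T.h (T.h (M (nat_lit 46137101300793343999)) (T.h (P (nat_lit 0)) (P (nat_lit 83994971528592)))) (T.h (P (nat_lit 0)) (P (nat_lit 48162526619760)))) (T.h (P (nat_lit 0)) (P (nat_lit 44261739818928)))))))), (T.h (T.h (T.h (P (nat_lit 0)) (T.h (M (nat_lit 8678397838319954379703058431)) (T.h (P (nat_lit 0)) (T.h (M (nat_lit 74394072377337271287807)) (T.h (P (nat_lit 0)) (P (nat_lit 139219386486030336))))))) (T.h (P (nat_lit 0)) (T.h (T.h (P (nat_lit 0)) (T.h (M (nat_lit 378592996281651543670783)) (T.h (P (nat_lit 0)) (M (nat_lit 66756519374815231))))) (T.h (P (nat_lit 0)) (T.h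 (T.h (P (nat_lit 0)) (P (nat_lit 208185981911433216))) (P (nat_lit 0))))))) (T.h (T.h (P (nat_lit 0)) (T.h (T.h (P (nat_lit 96179261992023780361240576)) (T.h (P (nat_lit 0)) (P (nat_lit 53604245851376451584)))) (T.h (P (nat_lit 0)) (M (nat_lit 6753330301906190335))))) (T.h (T.h (T.h (P (nat_lit 0)) (T.h (P (nat_lit 341199079021657320325120)) (T.h (P (nat_lit 0)) (M (nat_lit 62581864780890111))))) (T.h (P (nat_lit 0)) (T.h (T.h (P (nat_lit 0)) (M (nat_lit 589473878395617279))) (P (nat_lit 0))))) (T.h (T.h (P (nat_lit 0)) (P (nat_lit 217121808635813429248))) (T.h (T.h (T.h (P (nat_lit 0)) (M (nat_lit 129826036928675839))) (P (nat_lit 0))) (P (nat_lit 0))))))), (P (nat_lit 0)), (P (nat_lit 0)), (T.h (T.h (P (nat_lit 0)) (T.h (T.h (P (nat_lit 7964465409808473183024578560)) (T.h (P (nat_lit 0)) (T.h (M (nat_lit 23922005058509963526143)) (T.h (P (nat_lit 0)) (P (nat_lit 19433905954488320)))))) (T.h (P (nat_lit 0)) (T.h (T.h (M (nat_lit 7119774854517733982207))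 (T.h (P (nat_lit 0)) (P (nat_lit 35586079954829312)))) (T.h (P (nat_lit 0)) (M (nat_lit 148082487392174079))))))) (T.h (T.h (T.h (P (nat_lit 0)) (T.h (M (nat_lit 36565551147893332237090815)) (T.h (P (nat_lit 0)) (T.h (P (nat_lit 40838291985006592000)) (T.h (P (nat_lit 0)) (M (nat_lit 2955205671167))))))) (T.h (P (nat_lit 0)) (T.h (T.h (P (nat_lit 0)) (T.h (M (nat_lit 136602560658321440767)) (T.h (P (nat_lit 0)) (P (nat_lit 9075415495296))))) (T.h (P (nat_lit 0)) (T.h (T.h (P (nat_lit 0)) (M (nat_lit 206420040118655))) (P (nat_lit 0))))))) (T.h (T.h (P (nat_lit 0)) (T.h (T.h (M (nat_lit 135355189748246979280895)) (T.h (P (nat_lit 0)) (P (nat_lit 76855338413654016)))) (T.h (P (nat_lit 0)) (M (nat_lit 285802558304780287))))) (T.h (T.h (T.h (P (nat_lit 0)) (T.h (M (nat_lit 22323664257476984831)) (T.h (P (nat_lit 0)) (M (nat_lit 4242820383295))))) (T.h (P (nat_lit 0)) (T.h (T.h (P (nat_lit 0)) (M (nat_lit 66324274011007))) (P (nat_lit 0))))) (T.h (T.h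 (P (nat_lit 0)) (M (nat_lit 11688336278388735))) (T.h (T.h (T.h (P (nat_lit 0)) (P (nat_lit 24139558673280))) (P (nat_lit 0))) (P (nat_lit 0)))))))), (T.h (T.h (P (nat_lit 0)) (T.h (T.h (P (nat_lit 0)) (T.h (P (nat_lit 125077768936907594421764096)) (T.h (P (nat_lit 0)) (T.h (M (nat_lit 278499119748561764351)) (T.h (P (nat_lit 0)) (P (nat_lit 6090557697360))))))) (T.h (P (nat_lit 0)) (T.h (T.h (P (nat_lit 0)) (T.h (M (nat_lit 345759542040470749183)) (T.h (P (nat_lit 0)) (M (nat_lit 40308873541055))))) (T.h (P (nat_lit 0)) (T.h (T.h (P (nat_lit 0)) (P (nat_lit 88368910367184))) (P (nat_lit 0)))))))) (T.h (T.h (T.h (M (nat_lit 19749972867985824880883924991)) (T.h (P (nat_lit 0)) (T.h (M (nat_lit 48149716623839597690879)) (T.h (P (nat_lit 0)) (M (nat_lit 90597181508173823)))))) (T.h (P (nat_lit 0)) (T.h (T.h (P (nat_lit 85813189506337280622592)) (T.h (P (nat_lit 0)) (M (nat_lit 206162730796777471)))) (T.h (P (nat_lit 0)) (P (nat_lit 99857125569953792))))))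 (T.h (T.h (P (nat_lit 0)) (T.h (T.h (P (nat_lit 0)) (T.h (P (nat_lit 320132666256611344384)) (T.h (P (nat_lit 0)) (P (nat_lit 135400654107216))))) (T.h (P (nat_lit 0)) (T.h (T.h (P (nat_lit 0)) (P (nat_lit 480696106885200))) (P (nat_lit 0)))))) (T.h (T.h (T.h (M (nat_lit 3964513970473056337919)) (T.h (P (nat_lit 0)) (M (nat_lit 65492402368675839)))) (T.h (P (nat_lit 0)) (M (nat_lit 771701867331026943)))) (T.h (T.h (P (nat_lit 0)) (T.h (T.h (P (nat_lit 0)) (M (nat_lit 212902374284207))) (P (nat_lit 0)))) (P (nat_lit 22758469681364992)))))))]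
def lQp_20 : List (T ℤ) := [(T.h (T.h (P (nat_lit 0)) (T.h (T.h (P (nat_lit 4579424526163621342888329216)) (T.h (P (nat_lit 0)) (T.h (M (nat_lit 248937398817884102197247)) (T.h (P (nat_lit 0)) (M (nat_lit 19598115853172735)))))) (T.h (P (nat_lit 0)) (T.h (T.h (P (nat_lit 85697005781413963759616)) (T.h (P (nat_lit 0)) (M (nat_lit 45596862977114111)))) (T.h (P (nat_lit 0)) (P (nat_lit 497699913998991360))))))) (T.h (T.h (T.h (P (nat_lit 0)) (T.h (M (nat_lit 39688469449529713359847423)) (T.h (P (nat_lit 0)) (P (nat_lit 59325890128280289280))))) (T.h (P (nat_lit 0)) (T.h (T.h (P (nat_lit 0)) (M (nat_lit 34670609189121818623))) (P (nat_lit 0))))) (T.h (T.h (P (nat_lit 0)) (T.h (T.h (M (nat_lit 248937398817884102197247)) (T.h (P (nat_lit 0)) (P (nat_lit 248589297153277952)))) (T.h (P (nat_lit 0)) (M (nat_lit 45596862977114111))))) (T.h (T.h (T.h (P (nat_lit 0)) (P (nat_lit 59325890128280289280))) (P (nat_lit 0))) (T.h (T.h (P (nat_lit 0)) (M (nat_lit 19598115853172735)))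 (P (nat_lit 0))))))), (P (nat_lit 0)), (P (nat_lit 0)), (T.h (T.h (T.h (M (nat_lit 6550205974850090925245048291327)) (T.h (P (nat_lit 0)) (T.h (P (nat_lit 914669431254911916441600)) (T.h (P (nat_lit 0)) (T.h (M (nat_lit 10956550989288570879)) (T.h (P (nat_lit 0)) (P (nat_lit 2262664312560)))))))) (T.h (P (nat_lit 0)) (T.h (T.h (M (nat_lit 10820930293763412938719231)) (T.h (P (nat_lit 0)) (T.h (P (nat_lit 32321156511269126144)) (T.h (P (nat_lit 0)) (M (nat_lit 40633845785423)))))) (T.h (P (nat_lit 0)) (T.h (T.h (P (nat_lit 10167124700157706240)) (T.h (P (nat_lit 0)) (M (nat_lit 154054818207791)))) (T.h (P (nat_lit 0)) (M (nat_lit 1900902457007)))))))) (T.h (T.h (P (nat_lit 0)) (T.h (T.h (P (nat_lit 0)) (T.h (P (nat_lit 9561867817973534687232)) (T.h (P (nat_lit 0)) (M (nat_lit 2980120280563711))))) (T.h (P (nat_lit 0)) (T.h (T.h (P (nat_lit 0)) (M (nat_lit 202715487664177151))) (P (nat_lit 0)))))) (T.h (T.h (T.h (P (nat_lit 24644433191013854713217024))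 (T.h (P (nat_lit 0)) (T.h (P (nat_lit 16663814109501849600)) (T.h (P (nat_lit 0)) (M (nat_lit 40758030476063)))))) (T.h (P (nat_lit 0)) (T.h (T.h (P (nat_lit 247730919216223617024)) (T.h (P (nat_lit 0)) (M (nat_lit 154284181097903)))) (T.h (P (nat_lit 0)) (P (nat_lit 135693679464000)))))) (T.h (T.h (P (nat_lit 0)) (T.h (T.h (P (nat_lit 0)) (M (nat_lit 36175207789887487))) (P (nat_lit 0)))) (T.h (T.h (T.h (P (nat_lit 12995145507583033344)) (T.h (P (nat_lit 0)) (P (nat_lit 3747522647088)))) (T.h (P (nat_lit 0)) (M (nat_lit 29246983189487)))) (T.h (P (nat_lit 0)) (M (nat_lit 12383001643247)))))))), (T.h (T.h (T.h (P (nat_lit 0)) (T.h (P (nat_lit 2802544089202721518058995712)) (T.h (P (nat_lit 0)) (T.h (M (nat_lit 11706436078456893603839)) (T.h (P (nat_lit 0)) (P (nat_lit 10301442286452736))))))) (T.h (P (nat_lit 0)) (T.h (T.h (P (nat_lit 0)) (T.h (M (nat_lit 219226733783414827122687)) (T.h (P (nat_lit 0)) (M (nat_lit 48128141689192447))))) (T.h (P (nat_lit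 0)) (T.h (T.h (P (nat_lit 0)) (P (nat_lit 111197562056900608))) (P (nat_lit 0))))))) (T.h (T.h (P (nat_lit 0)) (T.h (T.h (M (nat_lit 15532778243652765473570815)) (T.h (P (nat_lit 0)) (P (nat_lit 132783142035194380288)))) (T.h (P (nat_lit 0)) (P (nat_lit 292461774379792990208))))) (T.h (T.h (T.h (P (nat_lit 0)) (T.h (P (nat_lit 11334887043216479092736)) (T.h (P (nat_lit 0)) (M (nat_lit 64870222751039487))))) (T.h (P (nat_lit 0)) (T.h (T.h (P (nat_lit 0)) (P (nat_lit 307064400049864704))) (P (nat_lit 0))))) (T.h (T.h (P (nat_lit 0)) (M (nat_lit 372027013451330093055))) (T.h (T.h (T.h (P (nat_lit 0)) (M (nat_lit 17610523673985023))) (P (nat_lit 0))) (P (nat_lit 0))))))), (P (nat_lit 0)), (P (nat_lit 0)), (T.h (T.h (P (nat_lit 0)) (T.h (T.h (M (nat_lit 5938840239767262457329876991)) (T.h (P (nat_lit 0)) (T.h (P (nat_lit 32448110580492473991168)) (T.h (P (nat_lit 0)) (M (nat_lit 14493620268662783)))))) (T.h (P (nat_lit 0)) (T.h (T.h (P (nat_lit 15260972577348049174528))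 (T.h (P (nat_lit 0)) (M (nat_lit 176124080196288511)))) (T.h (P (nat_lit 0)) (P (nat_lit 68021766630866944))))))) (T.h (T.h (T.h (P (nat_lit 0)) (T.h (P (nat_lit 8121832179209592299847680)) (T.h (P (nat_lit 0)) (P (nat_lit 6818117037345210368))))) (T.h (P (nat_lit 0)) (T.h (T.h (P (nat_lit 0)) (P (nat_lit 9408689513531703296))) (P (nat_lit 0))))) (T.h (T.h (P (nat_lit 0)) (T.h (T.h (P (nat_lit 83505656668972851920896)) (T.h (P (nat_lit 0)) (M (nat_lit 99906550954229759)))) (T.h (P (nat_lit 0)) (P (nat_lit 112761797231247360))))) (T.h (T.h (T.h (P (nat_lit 0)) (M (nat_lit 18589109809936596991))) (P (nat_lit 0))) (T.h (T.h (P (nat_lit 0)) (M (nat_lit 17569552337108991))) (P (nat_lit 0)))))))]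
def lQp_21 : List (T ℤ) := [(P (nat_lit 0)), (P (nat_lit 0)), (P (nat_lit 0)), (P (nat_lit 0)), (P (nat_lit 0)), (T.h (T.h (P (nat_lit 0)) (T.h (T.h (P (nat_lit 0)) (T.h (M (nat_lit 3133008150478943286198271)) (T.h (P (nat_lit 0)) (T.h (P (nat_lit 1574276201889923072)) (T.h (P (nat_lit 0)) (P (nat_lit 1092306519704))))))) (T.h (P (nat_lit 0)) (T.h (T.h (P (nat_lit 0)) (T.h (M (nat_lit 4506255607094837247)) (T.h (P (nat_lit 0)) (M (nat_lit 4428334664711))))) (T.h (P (nat_lit 0)) (T.h (T.h (P (nat_lit 0)) (M (nat_lit 8114091958647))) (P (nat_lit 0)))))))) (T.h (T.h (T.h (P (nat_lit 1842636641669992651706859520)) (T.h (P (nat_lit 0)) (T.h (M (nat_lit 524702051116670517247)) (T.h (P (nat_lit 0)) (P (nat_lit 10857135824961536)))))) (T.h (P (nat_lit 0)) (T.h (T.h (M (nat_lit 4907546594058516299775)) (T.h (P (nat_lit 0)) (P (nat_lit 19556106663329792)))) (T.h (P (nat_lit 0)) (P (nat_lit 20897473785757696)))))) (T.h (T.h (P (nat_lit 0)) (T.h (T.h (P (nat_lit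 0)) (T.h (M (nat_lit 75911826115607396351)) (T.h (P (nat_lit 0)) (P (nat_lit 1718313203016))))) (T.h (P (nat_lit 0)) (T.h (T.h (P (nat_lit 0)) (P (nat_lit 9670404085392))) (P (nat_lit 0)))))) (T.h (T.h (T.h (P (nat_lit 3692873907294676451328)) (T.h (P (nat_lit 0)) (P (nat_lit 31824348569567232)))) (T.h (P (nat_lit 0)) (P (nat_lit 5832632511725568)))) (T.h (T.h (P (nat_lit 0)) (T.h (T.h (P (nat_lit 0)) (M (nat_lit 11983016506303))) (P (nat_lit 0)))) (M (nat_lit 7481609000026111))))))), (T.h (T.h (P (nat_lit 0)) (T.h (T.h (M (nat_lit 7510137570867912732181528575)) (T.h (P (nat_lit 0)) (T.h (M (nat_lit 5896902701901632503807)) (T.h (P (nat_lit 0)) (M (nat_lit 42764403516555263)))))) (T.h (P (nat_lit 0)) (T.h (T.h (P (nat_lit 5625047517624010801152)) (T.h (P (nat_lit 0)) (M (nat_lit 773751558242303)))) (T.h (P (nat_lit 0)) (M (nat_lit 4707057777278975))))))) (T.h (T.h (T.h (P (nat_lit 0)) (T.h (M (nat_lit 42890317912544783647113215)) (T.h (P (nat_lit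 0)) (T.h (P (nat_lit 79130121664399933440)) (T.h (P (nat_lit 0)) (P (nat_lit 16513881934288))))))) (T.h (P (nat_lit 0)) (T.h (T.h (P (nat_lit 0)) (T.h (P (nat_lit 20428739442244583424)) (T.h (P (nat_lit 0)) (P (nat_lit 48030240726480))))) (T.h (P (nat_lit 0)) (T.h (T.h (P (nat_lit 0)) (P (nat_lit 191230761875616))) (P (nat_lit 0))))))) (T.h (T.h (P (nat_lit 0)) (T.h (T.h (M (nat_lit 5896902701901632503807)) (T.h (P (nat_lit 0)) (P (nat_lit 274027275200200704)))) (T.h (P (nat_lit 0)) (M (nat_lit 773751558242303))))) (T.h (T.h (T.h (P (nat_lit 0)) (T.h (P (nat_lit 79130121664399933440)) (T.h (P (nat_lit 0)) (M (nat_lit 399778677697119))))) (T.h (P (nat_lit 0)) (T.h (T.h (P (nat_lit 0)) (P (nat_lit 48030240726480))) (P (nat_lit 0))))) (T.h (T.h (P (nat_lit 0)) (M (nat_lit 42764403516555263))) (T.h (T.h (T.h (P (nat_lit 0)) (P (nat_lit 16513881934288))) (P (nat_lit 0))) (P (nat_lit 0)))))))), (T.h (T.h (P (nat_lit 0)) (T.h (T.h (P (nat_lit 0)) (T.h (P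 (nat_lit 29511644478875987024543744)) (T.h (P (nat_lit 0)) (T.h (P (nat_lit 21689621509727846400)) (T.h (P (nat_lit 0)) (P (nat_lit 30960665769472))))))) (T.h (P (nat_lit 0)) (T.h (T.h (P (nat_lit 0)) (T.h (P (nat_lit 2035048669127901184)) (T.h (P (nat_lit 0)) (M (nat_lit 17904918011519))))) (T.h (P (nat_lit 0)) (T.h (T.h (P (nat_lit 0)) (P (nat_lit 605003880000))) (P (nat_lit 0)))))))) (T.h (T.h (T.h (M (nat_lit 1423075270604688150537175039)) (T.h (P (nat_lit 0)) (T.h (M (nat_lit 102376935112423459782655)) (T.h (P (nat_lit 0)) (P (nat_lit 90922673937416192)))))) (T.h (P (nat_lit 0)) (T.h (T.h (M (nat_lit 13965267832501478359039)) (T.h (P (nat_lit 0)) (P (nat_lit 219915359221579776)))) (T.h (P (nat_lit 0)) (P (nat_lit 53881761470775296)))))) (T.h (T.h (P (nat_lit 0)) (T.h (T.h (P (nat_lit 0)) (T.h (P (nat_lit 153691193197182582784)) (T.h (P (nat_lit 0)) (M (nat_lit 114302531773695))))) (T.h (P (nat_lit 0)) (T.h (T.h (P (nat_lit 0)) (M (nat_lit 40199411623103)))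 (P (nat_lit 0)))))) (T.h (T.h (T.h (M (nat_lit 31541551321386582015999)) (T.h (P (nat_lit 0)) (M (nat_lit 583663088441327615)))) (T.h (P (nat_lit 0)) (P (nat_lit 56911183249440768)))) (T.h (T.h (P (nat_lit 0)) (T.h (T.h (P (nat_lit 0)) (P (nat_lit 50090625483520))) (P (nat_lit 0)))) (P (nat_lit 83195228683403264)))))))]
def lQp_22 : List (T ℤ) := [(T.h (T.h (P (nat_lit 0)) (T.h (T.h (M (nat_lit 5651764205519451235941351423)) (T.h (P (nat_lit 0)) (T.h (M (nat_lit 12670811359082753032191)) (T.h (P (nat_lit 0)) (P (nat_lit 201008201338093568)))))) (T.h (P (nat_lit 0)) (T.h (T.h (P (nat_lit 2150413618614238183424)) (T.h (P (nat_lit 0)) (M (nat_lit 39058420179075071)))) (T.h (P (nat_lit 0)) (P (nat_lit 2760467853754368))))))) (T.h (T.h (T.h (P (nat_lit 0)) (T.h (P (nat_lit 3925105225115737463455744)) (T.h (P (nat_lit 0)) (T.h (P (nat_lit 339200111039458836480)) (T.h (P (nat_lit 0)) (P (nat_lit 418099953986208))))))) (T.h (P (nat_lit 0)) (T.h (T.h (P (nat_lit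 0)) (T.h (P (nat_lit 29510078247831863296)) (T.h (P (nat_lit 0)) (M (nat_lit 111663856591199))))) (T.h (P (nat_lit 0)) (T.h (T.h (P (nat_lit 0)) (M (nat_lit 235517594865407))) (P (nat_lit 0))))))) (T.h (T.h (P (nat_lit 0)) (T.h (T.h (P (nat_lit 5401474684980102692864)) (T.h (P (nat_lit 0)) (M (nat_lit 208198211023503359)))) (T.h (P (nat_lit 0)) (M (nat_lit 16334309095342079))))) (T.h (T.h (T.h (P (nat_lit 0)) (T.h (M (nat_lit 70756264808229634047)) (T.h (P (nat_lit 0)) (P (nat_lit 356919587573616))))) (T.h (P (nat_lit 0)) (T.h (T.h (P (nat_lit 0)) (P (nat_lit 157454749658304))) (P (nat_lit 0))))) (T.h (T.h (P (nat_lit 0)) (P (nat_lit 31510804217823232))) (T.h (T.h (T.h (P (nat_lit 0)) (M (nat_lit 153484319177423))) (P (nat_lit 0))) (P (nat_lit 0)))))))), (T.h (T.h (P (nat_lit 0)) (T.h (T.h (P (nat_lit 0)) (T.h (P (nat_lit 11796831539250381828653056)) (T.h (P (nat_lit 0)) (P (nat_lit 201848382004607844352))))) (T.h (P (nat_lit 0)) (T.h (T.h (P (nat_lit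 0)) (M (nat_lit 11447994264663883775))) (P (nat_lit 0)))))) (T.h (T.h (T.h (P (nat_lit 19010715559394962457480921088)) (T.h (P (nat_lit 0)) (T.h (P (nat_lit 337256168840861870718976)) (T.h (P (nat_lit 0)) (P (nat_lit 537460537767034880)))))) (T.h (P (nat_lit 0)) (T.h (T.h (P (nat_lit 4534848523537343315968)) (T.h (P (nat_lit 0)) (M (nat_lit 146445637852594175)))) (T.h (P (nat_lit 0)) (M (nat_lit 72142769679368191)))))) (T.h (T.h (P (nat_lit 0)) (T.h (T.h (P (nat_lit 0)) (M (nat_lit 27730665333827043327))) (P (nat_lit 0)))) (T.h (T.h (T.h (M (nat_lit 17167194726438533070847)) (T.h (P (nat_lit 0)) (P (nat_lit 217035851084890112)))) (T.h (P (nat_lit 0)) (P (nat_lit 39240781425016832)))) (T.h (P (nat_lit 0)) (M (nat_lit 51833134429732863))))))), (P (nat_lit 0)), (P (nat_lit 0)), (T.h (T.h (T.h (P (nat_lit 151115727451828646838272)) (T.h (P (nat_lit 0)) (T.h (M (nat_lit 1407986837174246730366975)) (T.h (P (nat_lit 0)) (T.h (P (nat_lit 2118793442287943680))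 (T.h (P (nat_lit 0)) (P (nat_lit 895310700832)))))))) (T.h (P (nat_lit 0)) (T.h (T.h (M (nat_lit 1407986837174246730366975)) (T.h (P (nat_lit 0)) (T.h (M (nat_lit 362387865599)) (T.h (P (nat_lit 0)) (M (nat_lit 16431680405455)))))) (T.h (P (nat_lit 0)) (T.h (T.h (P (nat_lit 2118793442287943680)) (T.h (P (nat_lit 0)) (M (nat_lit 16431680405455)))) (T.h (P (nat_lit 0)) (P (nat_lit 895310700832)))))))) (T.h (T.h (P (nat_lit 0)) (T.h (T.h (P (nat_lit 0)) (T.h (P (nat_lit 376032976699392)) (T.h (P (nat_lit 0)) (M (nat_lit 71629951102091263))))) (T.h (P (nat_lit 0)) (T.h (T.h (P (nat_lit 0)) (M (nat_lit 71629951102091263))) (P (nat_lit 0)))))) (T.h (T.h (T.h (M (nat_lit 189151184349560831)) (T.h (P (nat_lit 0)) (T.h (M (nat_lit 49332603644305997823)) (T.h (P (nat_lit 0)) (P (nat_lit 35755284631664)))))) (T.h (P (nat_lit 0)) (T.h (T.h (M (nat_lit 49332603644305997823)) (T.h (P (nat_lit 0)) (M (nat_lit 1023647)))) (T.h (P (nat_lit 0)) (P (nat_lit 35755284631664))))))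 (T.h (T.h (P (nat_lit 0)) (T.h (T.h (P (nat_lit 0)) (M (nat_lit 1223163903))) (P (nat_lit 0)))) (T.h (T.h (T.h (P (nat_lit 35970351104)) (T.h (P (nat_lit 0)) (P (nat_lit 69255640301536)))) (T.h (P (nat_lit 0)) (P (nat_lit 69255640301536)))) (T.h (P (nat_lit 0)) (P (nat_lit 1172928)))))))), (T.h (T.h (T.h (P (nat_lit 0)) (T.h (M (nat_lit 12442159702627192574694129663)) (T.h (P (nat_lit 0)) (T.h (P (nat_lit 22743871949365672148992)) (T.h (P (nat_lit 0)) (P (nat_lit 18097103314681856))))))) (T.h (P (nat_lit 0)) (T.h (T.h (P (nat_lit 0)) (T.h (M (nat_lit 55715830800575121850367)) (T.h (P (nat_lit 0)) (M (nat_lit 108479705473908735))))) (T.h (P (nat_lit 0)) (T.h (T.h (P (nat_lit 0)) (M (nat_lit 63682034683822079))) (P (nat_lit 0))))))) (T.h (T.h (P (nat_lit 0)) (T.h (T.h (P (nat_lit 19361259890558873645350912)) (T.h (P (nat_lit 0)) (T.h (M (nat_lit 43470478741176582143)) (T.h (P (nat_lit 0)) (P (nat_lit 54023327974512)))))) (T.h (P (nat_lit 0)) (T.h (T.h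 (P (nat_lit 301861519813580423168)) (T.h (P (nat_lit 0)) (P (nat_lit 90268290434928)))) (T.h (P (nat_lit 0)) (M (nat_lit 4685423447423))))))) (T.h (T.h (T.h (P (nat_lit 0)) (T.h (P (nat_lit 9314640038293583953920)) (T.h (P (nat_lit 0)) (P (nat_lit 211703931507752960))))) (T.h (P (nat_lit 0)) (T.h (T.h (P (nat_lit 0)) (P (nat_lit 958406978850095104))) (P (nat_lit 0))))) (T.h (T.h (P (nat_lit 0)) (T.h (T.h (P (nat_lit 315625357326101250048)) (T.h (P (nat_lit 0)) (P (nat_lit 254418358177664)))) (T.h (P (nat_lit 0)) (M (nat_lit 7866646795423))))) (T.h (T.h (T.h (P (nat_lit 0)) (M (nat_lit 50878799646982143))) (P (nat_lit 0))) (T.h (T.h (P (nat_lit 0)) (M (nat_lit 12012813532351))) (P (nat_lit 0)))))))), (T.h (T.h (T.h (P (nat_lit 10263605443189403653425365778432)) (T.h (P (nat_lit 0)) (T.h (M (nat_lit 24772719807162972498821119)) (T.h (P (nat_lit 0)) (T.h (M (nat_lit 61011841408129040383)) (T.h (P (nat_lit 0)) (M (nat_lit 42017837250687)))))))) (T.h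 (P (nat_lit 0)) (T.h (T.h (M (nat_lit 13113665670837237236891647)) (T.h (P (nat_lit 0)) (T.h (P (nat_lit 64117543320346951680)) (T.h (P (nat_lit 0)) (P (nat_lit 157229173674048)))))) (T.h (P (nat_lit 0)) (T.h (T.h (P (nat_lit 81022462881515438080)) (T.h (P (nat_lit 0)) (P (nat_lit 141379929700032)))) (T.h (P (nat_lit 0)) (P (nat_lit 16686407529984)))))))) (T.h (T.h (P (nat_lit 0)) (T.h (T.h (P (nat_lit 0)) (T.h (M (nat_lit 166602184250910184570879)) (T.h (P (nat_lit 0)) (M (nat_lit 1013632339182157823))))) (T.h (P (nat_lit 0)) (T.h (T.h (P (nat_lit 0)) (P (nat_lit 340609925145034752))) (P (nat_lit 0)))))) (T.h (T.h (T.h (M (nat_lit 24772719807162972498821119)) (T.h (P (nat_lit 0)) (T.h (M (nat_lit 587946156236283576319)) (T.h (P (nat_lit 0)) (M (nat_lit 191627894557247)))))) (T.h (P (nat_lit 0)) (T.h (T.h (P (nat_lit 64117543320346951680)) (T.h (P (nat_lit 0)) (M (nat_lit 28784659885055)))) (T.h (P (nat_lit 0)) (P (nat_lit 141379929700032)))))) (T.h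 (T.h (P (nat_lit 0)) (T.h (T.h (P (nat_lit 0)) (M (nat_lit 1013632339182157823))) (P (nat_lit 0)))) (T.h (T.h (T.h (M (nat_lit 61011841408129040383)) (T.h (P (nat_lit 0)) (M (nat_lit 191627894557247)))) (T.h (P (nat_lit 0)) (P (nat_lit 157229173674048)))) (T.h (P (nat_lit 0)) (M (nat_lit 42017837250687)))))))), (T.h (T.h (T.h (P (nat_lit 0)) (T.h (M (nat_lit 42505286476555310707194724351)) (T.h (P (nat_lit 0)) (T.h (P (nat_lit 13736814429644959776768)) (T.h (P (nat_lit 0)) (M (nat_lit 346456592703291391))))))) (T.h (P (nat_lit 0)) (T.h (T.h (P (nat_lit 0)) (T.h (P (nat_lit 31378407630487934730240)) (T.h (P (nat_lit 0)) (P (nat_lit 133013457014423552))))) (T.h (P (nat_lit 0)) (T.h (T.h (P (nat_lit 0)) (M (nat_lit 4663950362312703))) (P (nat_lit 0))))))) (T.h (T.h (P (nat_lit 0)) (T.h (T.h (P (nat_lit 3351747234530990319730688)) (T.h (P (nat_lit 0)) (T.h (M (nat_lit 68235848904299511807)) (T.h (P (nat_lit 0)) (M (nat_lit 493402670761247)))))) (T.h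 (P (nat_lit 0)) (T.h (T.h (P (nat_lit 297505605466797899776)) (T.h (P (nat_lit 0)) (M (nat_lit 105852932695583)))) (T.h (P (nat_lit 0)) (M (nat_lit 59828803719263))))))) (T.h (T.h (T.h (P (nat_lit 0)) (T.h (M (nat_lit 176837335865706632183807)) (T.h (P (nat_lit 0)) (M (nat_lit 157327565251870719))))) (T.h (P (nat_lit 0)) (T.h (T.h (P (nat_lit 0)) (M (nat_lit 155170297518686207))) (P (nat_lit 0))))) (T.h (T.h (P (nat_lit 0)) (T.h (T.h (M (nat_lit 115670365913472827391)) (T.h (P (nat_lit 0)) (M (nat_lit 187314034551551)))) (T.h (P (nat_lit 0)) (P (nat_lit 79993172440224))))) (T.h (T.h (T.h (P (nat_lit 0)) (M (nat_lit 199091536319299583))) (P (nat_lit 0))) (T.h (T.h (P (nat_lit 0)) (P (nat_lit 8562378236832))) (P (nat_lit 0))))))))]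
def lQp_23 : List (T ℤ) := [(T.h (T.h (T.h (M (nat_lit 6956814252741079948443380613119)) (T.h (P (nat_lit 0)) (T.h (M (nat_lit 7835852522007655234928639)) (T.h (P (nat_lit 0)) (M (nat_lit 190603457277588406271)))))) (T.h (P (nat_lit 0)) (T.h (T.h (M (nat_lit 9834762153925330696404991)) (T.h (P (nat_lit 0)) (P (nat_lit 83243563760396271616)))) (T.h (P (nat_lit 0)) (P (nat_lit 907467354663813120)))))) (T.h (T.h (P (nat_lit 0)) (T.h (T.h (P (nat_lit 0)) (T.h (P (nat_lit 245888729080067128295424)) (T.h (P (nat_lit 0)) (M (nat_lit 281155397963546623))))) (T.h (P (nat_lit 0)) (T.h (T.h (P (nat_lit 0)) (M (nat_lit 200925852248375295))) (P (nat_lit 0)))))) (T.h (T.h (T.h (M (nat_lit 12512308161857980632924159)) (T.h (P (nat_lit 0)) (M (nat_lit 696574428408140791807)))) (T.h (P (nat_lit 0)) (M (nat_lit 89162961353009266687)))) (T.h (T.h (P (nat_lit 0)) (T.h (T.h (P (nat_lit 0)) (M (nat_lit 207377764562108415))) (P (nat_lit 0)))) (M (nat_lit 31284549361191616511)))))),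 (P (nat_lit 0)), (P (nat_lit 0)), (T.h (T.h (P (nat_lit 0)) (T.h (T.h (P (nat_lit 0)) (T.h (M (nat_lit 3133008150478943286198271)) (T.h (P (nat_lit 0)) (T.h (M (nat_lit 4506255607094837247)) (T.h (P (nat_lit 0)) (M (nat_lit 8114091958647))))))) (T.h (P (nat_lit 0)) (T.h (T.h (P (nat_lit 0)) (T.h (P (nat_lit 1574276201889923072)) (T.h (P (nat_lit 0)) (M (nat_lit 4428334664711))))) (T.h (P (nat_lit 0)) (T.h (T.h (P (nat_lit 0)) (P (nat_lit 1092306519704))) (P (nat_lit 0)))))))) (T.h (T.h (T.h (P (nat_lit 1842636641669992651706859520)) (T.h (P (nat_lit 0)) (T.h (M (nat_lit 4907546594058516299775)) (T.h (P (nat_lit 0)) (P (nat_lit 20897473785757696)))))) (T.h (P (nat_lit 0)) (T.h (T.h (M (nat_lit 524702051116670517247)) (T.h (P (nat_lit 0)) (P (nat_lit 19556106663329792)))) (T.h (P (nat_lit 0)) (P (nat_lit 10857135824961536)))))) (T.h (T.h (P (nat_lit 0)) (T.h (T.h (P (nat_lit 0)) (T.h (M (nat_lit 75911826115607396351)) (T.h (P (nat_lit 0)) (P (nat_lit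 9670404085392))))) (T.h (P (nat_lit 0)) (T.h (T.h (P (nat_lit 0)) (P (nat_lit 1718313203016))) (P (nat_lit 0)))))) (T.h (T.h (T.h (P (nat_lit 3692873907294676451328)) (T.h (P (nat_lit 0)) (P (nat_lit 5832632511725568)))) (T.h (P (nat_lit 0)) (P (nat_lit 31824348569567232)))) (T.h (T.h (P (nat_lit 0)) (T.h (T.h (P (nat_lit 0)) (M (nat_lit 11983016506303))) (P (nat_lit 0)))) (M (nat_lit 7481609000026111))))))), (T.h (T.h (P (nat_lit 0)) (T.h (T.h (M (nat_lit 12442159702627192574694129663)) (T.h (P (nat_lit 0)) (T.h (M (nat_lit 55715830800575121850367)) (T.h (P (nat_lit 0)) (M (nat_lit 63682034683822079)))))) (T.h (P (nat_lit 0)) (T.h (T.h (P (nat_lit 22743871949365672148992)) (T.h (P (nat_lit 0)) (M (nat_lit 108479705473908735)))) (T.h (P (nat_lit 0)) (P (nat_lit 18097103314681856))))))) (T.h (T.h (T.h (P (nat_lit 0)) (T.h (P (nat_lit 19361259890558873645350912)) (T.h (P (nat_lit 0)) (T.h (P (nat_lit 301861519813580423168)) (T.h (P (nat_lit 0)) (M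 (nat_lit 4685423447423))))))) (T.h (P (nat_lit 0)) (T.h (T.h (P (nat_lit 0)) (T.h (M (nat_lit 43470478741176582143)) (T.h (P (nat_lit 0)) (P (nat_lit 90268290434928))))) (T.h (P (nat_lit 0)) (T.h (T.h (P (nat_lit 0)) (P (nat_lit 54023327974512))) (P (nat_lit 0))))))) (T.h (T.h (P (nat_lit 0)) (T.h (T.h (P (nat_lit 9314640038293583953920)) (T.h (P (nat_lit 0)) (P (nat_lit 958406978850095104)))) (T.h (P (nat_lit 0)) (P (nat_lit 211703931507752960))))) (T.h (T.h (T.h (P (nat_lit 0)) (T.h (P (nat_lit 315625357326101250048)) (T.h (P (nat_lit 0)) (M (nat_lit 7866646795423))))) (T.h (P (nat_lit 0)) (T.h (T.h (P (nat_lit 0)) (P (nat_lit 254418358177664))) (P (nat_lit 0))))) (T.h (T.h (P (nat_lit 0)) (M (nat_lit 50878799646982143))) (T.h (T.h (T.h (P (nat_lit 0)) (M (nat_lit 12012813532351))) (P (nat_lit 0))) (P (nat_lit 0)))))))), (T.h (T.h (P (nat_lit 0)) (T.h (T.h (P (nat_lit 0)) (T.h (M (nat_lit 44471439507994196244955135)) (T.h (P (nat_lit 0)) (T.h (P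 (nat_lit 110754958492724887552)) (T.h (P (nat_lit 0)) (M (nat_lit 133890566166207))))))) (T.h (P (nat_lit 0)) (T.h (T.h (P (nat_lit 0)) (T.h (P (nat_lit 110754958492724887552)) (T.h (P (nat_lit 0)) (P (nat_lit 85561532059776))))) (T.h (P (nat_lit 0)) (T.h (T.h (P (nat_lit 0)) (M (nat_lit 133890566166207))) (P (nat_lit 0)))))))) (T.h (T.h (T.h (P (nat_lit 9545874895522193633590640640)) (T.h (P (nat_lit 0)) (T.h (P (nat_lit 445491985582406009618432)) (T.h (P (nat_lit 0)) (M (nat_lit 270446748449570815)))))) (T.h (P (nat_lit 0)) (T.h (T.h (P (nat_lit 445491985582406009618432)) (T.h (P (nat_lit 0)) (P (nat_lit 35426960130179072)))) (T.h (P (nat_lit 0)) (M (nat_lit 270446748449570815)))))) (T.h (T.h (P (nat_lit 0)) (T.h (T.h (P (nat_lit 0)) (T.h (P (nat_lit 1687305341707791368192)) (T.h (P (nat_lit 0)) (M (nat_lit 64923611577791))))) (T.h (P (nat_lit 0)) (T.h (T.h (P (nat_lit 0)) (M (nat_lit 64923611577791))) (P (nat_lit 0)))))) (T.h (T.h (T.h (P (nat_lit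 90618985186322737528832)) (T.h (P (nat_lit 0)) (P (nat_lit 146736208288743424)))) (T.h (P (nat_lit 0)) (P (nat_lit 146736208288743424)))) (T.h (T.h (P (nat_lit 0)) (T.h (T.h (P (nat_lit 0)) (P (nat_lit 337357176257408))) (P (nat_lit 0)))) (M (nat_lit 19296232174452735))))))), (T.h (T.h (P (nat_lit 0)) (T.h (T.h (P (nat_lit 52310243088687655789380239360)) (T.h (P (nat_lit 0)) (T.h (P (nat_lit 617189314113394654052352)) (T.h (P (nat_lit 0)) (P (nat_lit 4422557504126976)))))) (T.h (P (nat_lit 0)) (T.h (T.h (P (nat_lit 144754076876271417032704)) (T.h (P (nat_lit 0)) (P (nat_lit 557050926757429248)))) (T.h (P (nat_lit 0)) (M (nat_lit 110256827492040703))))))) (T.h (T.h (T.h (P (nat_lit 0)) (T.h (M (nat_lit 86898959468142454170976255)) (T.h (P (nat_lit 0)) (T.h (M (nat_lit 646848846316462669823)) (T.h (P (nat_lit 0)) (P (nat_lit 337671127368288))))))) (T.h (P (nat_lit 0)) (T.h (T.h (P (nat_lit 0)) (T.h (P (nat_lit 294794269230620475392)) (T.h (P (nat_lit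 0)) (M (nat_lit 850977363897935))))) (T.h (P (nat_lit 0)) (T.h (T.h (P (nat_lit 0)) (M (nat_lit 439370500807583))) (P (nat_lit 0))))))) (T.h (T.h (P (nat_lit 0)) (T.h (T.h (P (nat_lit 617189314113394654052352)) (T.h (P (nat_lit 0)) (M (nat_lit 196672124278702079)))) (T.h (P (nat_lit 0)) (P (nat_lit 557050926757429248))))) (T.h (T.h (T.h (P (nat_lit 0)) (T.h (M (nat_lit 646848846316462669823)) (T.h (P (nat_lit 0)) (M (nat_lit 99566560820447))))) (T.h (P (nat_lit 0)) (T.h (T.h (P (nat_lit 0)) (M (nat_lit 850977363897935))) (P (nat_lit 0))))) (T.h (T.h (P (nat_lit 0)) (P (nat_lit 4422557504126976))) (T.h (T.h (T.h (P (nat_lit 0)) (P (nat_lit 337671127368288))) (P (nat_lit 0))) (P (nat_lit 0)))))))), (T.h (T.h (P (nat_lit 0)) (T.h (T.h (P (nat_lit 0)) (T.h (P (nat_lit 96179261992023780361240576)) (T.h (P (nat_lit 0)) (M (nat_lit 6753330301906190335))))) (T.h (P (nat_lit 0)) (T.h (T.h (P (nat_lit 0)) (P (nat_lit 217121808635813429248))) (P (nat_lit 0))))))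 (T.h (T.h (T.h (M (nat_lit 8678397838319954379703058431)) (T.h (P (nat_lit 0)) (T.h (M (nat_lit 378592996281651543670783)) (T.h (P (nat_lit 0)) (P (nat_lit 208185981911433216)))))) (T.h (P (nat_lit 0)) (T.h (T.h (P (nat_lit 341199079021657320325120)) (T.h (P (nat_lit 0)) (M (nat_lit 589473878395617279)))) (T.h (P (nat_lit 0)) (M (nat_lit 129826036928675839)))))) (T.h (T.h (P (nat_lit 0)) (T.h (T.h (P (nat_lit 0)) (P (nat_lit 53604245851376451584))) (P (nat_lit 0)))) (T.h (T.h (T.h (M (nat_lit 74394072377337271287807)) (T.h (P (nat_lit 0)) (M (nat_lit 66756519374815231)))) (T.h (P (nat_lit 0)) (M (nat_lit 62581864780890111)))) (T.h (P (nat_lit 0)) (P (nat_lit 139219386486030336)))))))]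
def lQp_24 : List (T ℤ) := [(P (nat_lit 0)), (P (nat_lit 0)), (T.h (T.h (T.h (P (nat_lit 0)) (T.h (M (nat_lit 7510137570867912732181528575)) (T.h (P (nat_lit 0)) (T.h (P (nat_lit 5625047517624010801152)) (T.h (P (nat_lit 0)) (M (nat_lit 4707057777278975))))))) (T.h (P (nat_lit 0)) (T.h (T.h (P (nat_lit 0)) (T.h (M (nat_lit 5896902701901632503807)) (T.h (P (nat_lit 0)) (M (nat_lit 773751558242303))))) (T.h (P (nat_lit 0)) (T.h (T.h (P (nat_lit 0)) (M (nat_lit 42764403516555263))) (P (nat_lit 0))))))) (T.h (T.h (P (nat_lit 0)) (T.h (T.h (M (nat_lit 42890317912544783647113215)) (T.h (P (nat_lit 0)) (T.h (P (nat_lit 20428739442244583424)) (T.h (P (nat_lit 0)) (P (nat_lit 191230761875616)))))) (T.h (P (nat_lit 0)) (T.h (T.h (P (nat_lit 79130121664399933440)) (T.h (P (nat_lit 0)) (P (nat_lit 48030240726480)))) (T.h (P (nat_lit 0)) (P (nat_lit 16513881934288))))))) (T.h (T.h (T.h (P (nat_lit 0)) (T.h (M (nat_lit 5896902701901632503807)) (T.h (P (nat_lit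 0)) (M (nat_lit 773751558242303))))) (T.h (P (nat_lit 0)) (T.h (T.h (P (nat_lit 0)) (P (nat_lit 274027275200200704))) (P (nat_lit 0))))) (T.h (T.h (P (nat_lit 0)) (T.h (T.h (P (nat_lit 79130121664399933440)) (T.h (P (nat_lit 0)) (P (nat_lit 48030240726480)))) (T.h (P (nat_lit 0)) (M (nat_lit 399778677697119))))) (T.h (T.h (T.h (P (nat_lit 0)) (M (nat_lit 42764403516555263))) (P (nat_lit 0))) (T.h (T.h (P (nat_lit 0)) (P (nat_lit 16513881934288))) (P (nat_lit 0)))))))), (T.h (T.h (T.h (P (nat_lit 10263605443189403653425365778432)) (T.h (P (nat_lit 0)) (T.h (M (nat_lit 13113665670837237236891647)) (T.h (P (nat_lit 0)) (T.h (P (nat_lit 81022462881515438080)) (T.h (P (nat_lit 0)) (P (nat_lit 16686407529984)))))))) (T.h (P (nat_lit 0)) (T.h (T.h (M (nat_lit 24772719807162972498821119)) (T.h (P (nat_lit 0)) (T.h (P (nat_lit 64117543320346951680)) (T.h (P (nat_lit 0)) (P (nat_lit 141379929700032)))))) (T.h (P (nat_lit 0)) (T.h (T.h (M (nat_lit 61011841408129040383))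 (T.h (P (nat_lit 0)) (P (nat_lit 157229173674048)))) (T.h (P (nat_lit 0)) (M (nat_lit 42017837250687)))))))) (T.h (T.h (P (nat_lit 0)) (T.h (T.h (P (nat_lit 0)) (T.h (M (nat_lit 166602184250910184570879)) (T.h (P (nat_lit 0)) (P (nat_lit 340609925145034752))))) (T.h (P (nat_lit 0)) (T.h (T.h (P (nat_lit 0)) (M (nat_lit 1013632339182157823))) (P (nat_lit 0)))))) (T.h (T.h (T.h (M (nat_lit 24772719807162972498821119)) (T.h (P (nat_lit 0)) (T.h (P (nat_lit 64117543320346951680)) (T.h (P (nat_lit 0)) (P (nat_lit 141379929700032)))))) (T.h (P (nat_lit 0)) (T.h (T.h (M (nat_lit 587946156236283576319)) (T.h (P (nat_lit 0)) (M (nat_lit 28784659885055)))) (T.h (P (nat_lit 0)) (M (nat_lit 191627894557247)))))) (T.h (T.h (P (nat_lit 0)) (T.h (T.h (P (nat_lit 0)) (M (nat_lit 1013632339182157823))) (P (nat_lit 0)))) (T.h (T.h (T.h (M (nat_lit 61011841408129040383)) (T.h (P (nat_lit 0)) (P (nat_lit 157229173674048)))) (T.h (P (nat_lit 0)) (M (nat_lit 191627894557247))))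 (T.h (P (nat_lit 0)) (M (nat_lit 42017837250687)))))))), (T.h (T.h (T.h (P (nat_lit 0)) (T.h (P (nat_lit 52310243088687655789380239360)) (T.h (P (nat_lit 0)) (T.h (P (nat_lit 144754076876271417032704)) (T.h (P (nat_lit 0)) (M (nat_lit 110256827492040703))))))) (T.h (P (nat_lit 0)) (T.h (T.h (P (nat_lit 0)) (T.h (P (nat_lit 617189314113394654052352)) (T.h (P (nat_lit 0)) (P (nat_lit 557050926757429248))))) (T.h (P (nat_lit 0)) (T.h (T.h (P (nat_lit 0)) (P (nat_lit 4422557504126976))) (P (nat_lit 0))))))) (T.h (T.h (P (nat_lit 0)) (T.h (T.h (M (nat_lit 86898959468142454170976255)) (T.h (P (nat_lit 0)) (T.h (P (nat_lit 294794269230620475392)) (T.h (P (nat_lit 0)) (M (nat_lit 439370500807583)))))) (T.h (P (nat_lit 0)) (T.h (T.h (M (nat_lit 646848846316462669823)) (T.h (P (nat_lit 0)) (M (nat_lit 850977363897935)))) (T.h (P (nat_lit 0)) (P (nat_lit 337671127368288))))))) (T.h (T.h (T.h (P (nat_lit 0)) (T.h (P (nat_lit 617189314113394654052352)) (T.h (P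 (nat_lit 0)) (P (nat_lit 557050926757429248))))) (T.h (P (nat_lit 0)) (T.h (T.h (P (nat_lit 0)) (M (nat_lit 196672124278702079))) (P (nat_lit 0))))) (T.h (T.h (P (nat_lit 0)) (T.h (T.h (M (nat_lit 646848846316462669823)) (T.h (P (nat_lit 0)) (M (nat_lit 850977363897935)))) (T.h (P (nat_lit 0)) (M (nat_lit 99566560820447))))) (T.h (T.h (T.h (P (nat_lit 0)) (P (nat_lit 4422557504126976))) (P (nat_lit 0))) (T.h (T.h (P (nat_lit 0)) (P (nat_lit 337671127368288))) (P (nat_lit 0)))))))), (T.h (T.h (T.h (P (nat_lit 15019333669650725351569527668736)) (T.h (P (nat_lit 0)) (T.h (P (nat_lit 140264334202199750169591808)) (T.h (P (nat_lit 0)) (M (nat_lit 72544820701243113471)))))) (T.h (P (nat_lit 0)) (T.h (T.h (P (nat_lit 140264334202199750169591808)) (T.h (P (nat_lit 0)) (P (nat_lit 477163676805246222336)))) (T.h (P (nat_lit 0)) (M (nat_lit 72544820701243113471)))))) (T.h (T.h (P (nat_lit 0)) (T.h (T.h (P (nat_lit 0)) (T.h (P (nat_lit 635265248755952400728064))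 (T.h (P (nat_lit 0)) (M (nat_lit 1174503300851957759))))) (T.h (P (nat_lit 0)) (T.h (T.h (P (nat_lit 0)) (M (nat_lit 1174503300851957759))) (P (nat_lit 0)))))) (T.h (T.h (T.h (P (nat_lit 140264334202199750169591808)) (T.h (P (nat_lit 0)) (P (nat_lit 477163676805246222336)))) (T.h (P (nat_lit 0)) (P (nat_lit 477163676805246222336)))) (T.h (T.h (P (nat_lit 0)) (T.h (T.h (P (nat_lit 0)) (M (nat_lit 1174503300851957759))) (P (nat_lit 0)))) (M (nat_lit 72544820701243113471)))))), (P (nat_lit 0)), (P (nat_lit 0))]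
def lQp_25 : List (T ℤ) := [(T.h (T.h (P (nat_lit 0)) (T.h (T.h (P (nat_lit 0)) (T.h (P (nat_lit 29511644478875987024543744)) (T.h (P (nat_lit 0)) (T.h (P (nat_lit 2035048669127901184)) (T.h (P (nat_lit 0)) (P (nat_lit 605003880000))))))) (T.h (P (nat_lit 0)) (T.h (T.h (P (nat_lit 0)) (T.h (P (nat_lit 21689621509727846400)) (T.h (P (nat_lit 0)) (M (nat_lit 17904918011519))))) (T.h (P (nat_lit 0)) (T.h (T.h (P (nat_lit 0)) (P (nat_lit 30960665769472))) (P (nat_lit 0)))))))) (T.h (T.h (T.h (M (nat_lit 1423075270604688150537175039)) (T.h (P (nat_lit 0)) (T.h (M (nat_lit 13965267832501478359039)) (T.h (P (nat_lit 0)) (P (nat_lit 53881761470775296)))))) (T.h (P (nat_lit 0)) (T.h (T.h (M (nat_lit 102376935112423459782655)) (T.h (P (nat_lit 0)) (P (nat_lit 219915359221579776)))) (T.h (P (nat_lit 0)) (P (nat_lit 90922673937416192)))))) (T.h (T.h (P (nat_lit 0)) (T.h (T.h (P (nat_lit 0)) (T.h (P (nat_lit 153691193197182582784)) (T.h (P (nat_lit 0)) (M (nat_lit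 40199411623103))))) (T.h (P (nat_lit 0)) (T.h (T.h (P (nat_lit 0)) (M (nat_lit 114302531773695))) (P (nat_lit 0)))))) (T.h (T.h (T.h (M (nat_lit 31541551321386582015999)) (T.h (P (nat_lit 0)) (P (nat_lit 56911183249440768)))) (T.h (P (nat_lit 0)) (M (nat_lit 583663088441327615)))) (T.h (T.h (P (nat_lit 0)) (T.h (T.h (P (nat_lit 0)) (P (nat_lit 50090625483520))) (P (nat_lit 0)))) (P (nat_lit 83195228683403264))))))), (T.h (T.h (P (nat_lit 0)) (T.h (T.h (M (nat_lit 42505286476555310707194724351)) (T.h (P (nat_lit 0)) (T.h (P (nat_lit 31378407630487934730240)) (T.h (P (nat_lit 0)) (M (nat_lit 4663950362312703)))))) (T.h (P (nat_lit 0)) (T.h (T.h (P (nat_lit 13736814429644959776768)) (T.h (P (nat_lit 0)) (P (nat_lit 133013457014423552)))) (T.h (P (nat_lit 0)) (M (nat_lit 346456592703291391))))))) (T.h (T.h (T.h (P (nat_lit 0)) (T.h (P (nat_lit 3351747234530990319730688)) (T.h (P (nat_lit 0)) (T.h (P (nat_lit 297505605466797899776)) (T.h (P (nat_lit 0))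 (M (nat_lit 59828803719263))))))) (T.h (P (nat_lit 0)) (T.h (T.h (P (nat_lit 0)) (T.h (M (nat_lit 68235848904299511807)) (T.h (P (nat_lit 0)) (M (nat_lit 105852932695583))))) (T.h (P (nat_lit 0)) (T.h (T.h (P (nat_lit 0)) (M (nat_lit 493402670761247))) (P (nat_lit 0))))))) (T.h (T.h (P (nat_lit 0)) (T.h (T.h (M (nat_lit 176837335865706632183807)) (T.h (P (nat_lit 0)) (M (nat_lit 155170297518686207)))) (T.h (P (nat_lit 0)) (M (nat_lit 157327565251870719))))) (T.h (T.h (T.h (P (nat_lit 0)) (T.h (M (nat_lit 115670365913472827391)) (T.h (P (nat_lit 0)) (P (nat_lit 79993172440224))))) (T.h (P (nat_lit 0)) (T.h (T.h (P (nat_lit 0)) (M (nat_lit 187314034551551))) (P (nat_lit 0))))) (T.h (T.h (P (nat_lit 0)) (M (nat_lit 199091536319299583))) (T.h (T.h (T.h (P (nat_lit 0)) (P (nat_lit 8562378236832))) (P (nat_lit 0))) (P (nat_lit 0)))))))), (T.h (T.h (P (nat_lit 0)) (T.h (T.h (P (nat_lit 0)) (T.h (P (nat_lit 96179261992023780361240576)) (T.h (P (nat_lit 0))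 (P (nat_lit 217121808635813429248))))) (T.h (P (nat_lit 0)) (T.h (T.h (P (nat_lit 0)) (M (nat_lit 6753330301906190335))) (P (nat_lit 0)))))) (T.h (T.h (T.h (M (nat_lit 8678397838319954379703058431)) (T.h (P (nat_lit 0)) (T.h (P (nat_lit 341199079021657320325120)) (T.h (P (nat_lit 0)) (M (nat_lit 129826036928675839)))))) (T.h (P (nat_lit 0)) (T.h (T.h (M (nat_lit 378592996281651543670783)) (T.h (P (nat_lit 0)) (M (nat_lit 589473878395617279)))) (T.h (P (nat_lit 0)) (P (nat_lit 208185981911433216)))))) (T.h (T.h (P (nat_lit 0)) (T.h (T.h (P (nat_lit 0)) (P (nat_lit 53604245851376451584))) (P (nat_lit 0)))) (T.h (T.h (T.h (M (nat_lit 74394072377337271287807)) (T.h (P (nat_lit 0)) (M (nat_lit 62581864780890111)))) (T.h (P (nat_lit 0)) (M (nat_lit 66756519374815231)))) (T.h (P (nat_lit 0)) (P (nat_lit 139219386486030336))))))), (P (nat_lit 0)), (P (nat_lit 0)), (T.h (T.h (T.h (P (nat_lit 0)) (T.h (M (nat_lit 5651764205519451235941351423)) (T.h (P (nat_lit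 0)) (T.h (P (nat_lit 2150413618614238183424)) (T.h (P (nat_lit 0)) (P (nat_lit 2760467853754368))))))) (T.h (P (nat_lit 0)) (T.h (T.h (P (nat_lit 0)) (T.h (M (nat_lit 12670811359082753032191)) (T.h (P (nat_lit 0)) (M (nat_lit 39058420179075071))))) (T.h (P (nat_lit 0)) (T.h (T.h (P (nat_lit 0)) (P (nat_lit 201008201338093568))) (P (nat_lit 0))))))) (T.h (T.h (P (nat_lit 0)) (T.h (T.h (P (nat_lit 3925105225115737463455744)) (T.h (P (nat_lit 0)) (T.h (P (nat_lit 29510078247831863296)) (T.h (P (nat_lit 0)) (M (nat_lit 235517594865407)))))) (T.h (P (nat_lit 0)) (T.h (T.h (P (nat_lit 339200111039458836480)) (T.h (P (nat_lit 0)) (M (nat_lit 111663856591199)))) (T.h (P (nat_lit 0)) (P (nat_lit 418099953986208))))))) (T.h (T.h (T.h (P (nat_lit 0)) (T.h (P (nat_lit 5401474684980102692864)) (T.h (P (nat_lit 0)) (M (nat_lit 16334309095342079))))) (T.h (P (nat_lit 0)) (T.h (T.h (P (nat_lit 0)) (M (nat_lit 208198211023503359))) (P (nat_lit 0))))) (T.h (T.h (P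 (nat_lit 0)) (T.h (T.h (M (nat_lit 70756264808229634047)) (T.h (P (nat_lit 0)) (P (nat_lit 157454749658304)))) (T.h (P (nat_lit 0)) (P (nat_lit 356919587573616))))) (T.h (T.h (T.h (P (nat_lit 0)) (P (nat_lit 31510804217823232))) (P (nat_lit 0))) (T.h (T.h (P (nat_lit 0)) (M (nat_lit 153484319177423))) (P (nat_lit 0)))))))), (T.h (T.h (T.h (M (nat_lit 6956814252741079948443380613119)) (T.h (P (nat_lit 0)) (T.h (M (nat_lit 9834762153925330696404991)) (T.h (P (nat_lit 0)) (P (nat_lit 907467354663813120)))))) (T.h (P (nat_lit 0)) (T.h (T.h (M (nat_lit 7835852522007655234928639)) (T.h (P (nat_lit 0)) (P (nat_lit 83243563760396271616)))) (T.h (P (nat_lit 0)) (M (nat_lit 190603457277588406271)))))) (T.h (T.h (P (nat_lit 0)) (T.h (T.h (P (nat_lit 0)) (T.h (P (nat_lit 245888729080067128295424)) (T.h (P (nat_lit 0)) (M (nat_lit 200925852248375295))))) (T.h (P (nat_lit 0)) (T.h (T.h (P (nat_lit 0)) (M (nat_lit 281155397963546623))) (P (nat_lit 0)))))) (T.h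 (T.h (T.h (M (nat_lit 12512308161857980632924159)) (T.h (P (nat_lit 0)) (M (nat_lit 89162961353009266687)))) (T.h (P (nat_lit 0)) (M (nat_lit 696574428408140791807)))) (T.h (T.h (P (nat_lit 0)) (T.h (T.h (P (nat_lit 0)) (M (nat_lit 207377764562108415))) (P (nat_lit 0)))) (M (nat_lit 31284549361191616511)))))), (P (nat_lit 0))]
def lQp_26 : List (T ℤ) := [(P (nat_lit 0)), (T.h (T.h (P (nat_lit 0)) (T.h (T.h (P (nat_lit 0)) (T.h (P (nat_lit 11796831539250381828653056)) (T.h (P (nat_lit 0)) (M (nat_lit 11447994264663883775))))) (T.h (P (nat_lit 0)) (T.h (T.h (P (nat_lit 0)) (P (nat_lit 201848382004607844352))) (P (nat_lit 0)))))) (T.h (T.h (T.h (P (nat_lit 19010715559394962457480921088)) (T.h (P (nat_lit 0)) (T.h (P (nat_lit 4534848523537343315968)) (T.h (P (nat_lit 0)) (M (nat_lit 72142769679368191)))))) (T.h (P (nat_lit 0)) (T.h (T.h (P (nat_lit 337256168840861870718976)) (T.h (P (nat_lit 0)) (M (nat_lit 146445637852594175)))) (T.h (P (nat_lit 0))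 (P (nat_lit 537460537767034880)))))) (T.h (T.h (P (nat_lit 0)) (T.h (T.h (P (nat_lit 0)) (M (nat_lit 27730665333827043327))) (P (nat_lit 0)))) (T.h (T.h (T.h (M (nat_lit 17167194726438533070847)) (T.h (P (nat_lit 0)) (P (nat_lit 39240781425016832)))) (T.h (P (nat_lit 0)) (P (nat_lit 217035851084890112)))) (T.h (P (nat_lit 0)) (M (nat_lit 51833134429732863))))))), (P (nat_lit 0)), (P (nat_lit 0)), (P (nat_lit 0)), (P (nat_lit 0)), (P (nat_lit 0)), (T.h (T.h (T.h (P (nat_lit 0)) (T.h (P (nat_lit 6109297295370027237344542720)) (T.h (P (nat_lit 0)) (T.h (P (nat_lit 6470624315378690424832)) (T.h (P (nat_lit 0)) (M (nat_lit 7102852997021695))))))) (T.h (P (nat_lit 0)) (T.h (T.h (P (nat_lit 0)) (T.h (P (nat_lit 1686258149179302871040)) (T.h (P (nat_lit 0)) (M (nat_lit 433781979512831))))) (T.h (P (nat_lit 0)) (T.h (T.h (P (nat_lit 0)) (P (nat_lit 417833758720000))) (P (nat_lit 0))))))) (T.h (T.h (P (nat_lit 0)) (T.h (T.h (M (nat_lit 284033478414364619833343))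 (T.h (P (nat_lit 0)) (T.h (P (nat_lit 849028859926937600)) (T.h (P (nat_lit 0)) (P (nat_lit 8644918464696)))))) (T.h (P (nat_lit 0)) (T.h (T.h (P (nat_lit 2140135256919900160)) (T.h (P (nat_lit 0)) (P (nat_lit 365975489448)))) (T.h (P (nat_lit 0)) (M (nat_lit 2562489162783))))))) (T.h (T.h (T.h (P (nat_lit 0)) (T.h (P (nat_lit 3043298767001555566592)) (T.h (P (nat_lit 0)) (P (nat_lit 23901466144571392))))) (T.h (P (nat_lit 0)) (T.h (T.h (P (nat_lit 0)) (M (nat_lit 1978227750830079))) (P (nat_lit 0))))) (T.h (T.h (P (nat_lit 0)) (T.h (T.h (M (nat_lit 5938503625511796735)) (T.h (P (nat_lit 0)) (M (nat_lit 72270515840055)))) (T.h (P (nat_lit 0)) (P (nat_lit 1179281324744))))) (T.h (T.h (T.h (P (nat_lit 0)) (M (nat_lit 42195277170933759))) (P (nat_lit 0))) (T.h (T.h (P (nat_lit 0)) (P (nat_lit 11280567779312))) (P (nat_lit 0))))))))]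
def lQp_27 : List (T ℤ) := [(T.h (T.h (T.h (M (nat_lit 4760559981841400535819587944447)) (T.h (P (nat_lit 0)) (T.h (M (nat_lit 23554564491741895231275007)) (T.h (P (nat_lit 0)) (T.h (M (nat_lit 26277287895165304831)) (T.h (P (nat_lit 0)) (P (nat_lit 5106811990464)))))))) (T.h (P (nat_lit 0)) (T.h (T.h (P (nat_lit 770520881638916390649856)) (T.h (P (nat_lit 0)) (T.h (M (nat_lit 6340317228499468287)) (T.h (P (nat_lit 0)) (M (nat_lit 2332677536639)))))) (T.h (P (nat_lit 0)) (T.h (T.h (P (nat_lit 5476421613685571584)) (T.h (P (nat_lit 0)) (P (nat_lit 3880953721632)))) (T.h (P (nat_lit 0)) (M (nat_lit 1226078413135)))))))) (T.h (T.h (P (nat_lit 0)) (T.h (T.h (P (nat_lit 0)) (T.h (P (nat_lit 5718149774113176027136)) (T.h (P (nat_lit 0)) (M (nat_lit 87735198484725759))))) (T.h (P (nat_lit 0)) (T.h (T.h (P (nat_lit 0)) (M (nat_lit 22477953384775679))) (P (nat_lit 0)))))) (T.h (T.h (T.h (M (nat_lit 12686087327818927969402879)) (T.h (P (nat_lit 0)) (T.h (M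 (nat_lit 98180377231073738751)) (T.h (P (nat_lit 0)) (M (nat_lit 35834186439263)))))) (T.h (P (nat_lit 0)) (T.h (T.h (M (nat_lit 20620189100488523775)) (T.h (P (nat_lit 0)) (M (nat_lit 23507951099487)))) (T.h (P (nat_lit 0)) (M (nat_lit 4136082018047)))))) (T.h (T.h (P (nat_lit 0)) (T.h (T.h (P (nat_lit 0)) (P (nat_lit 88374154776510464))) (P (nat_lit 0)))) (T.h (T.h (T.h (P (nat_lit 79083973133016760320)) (T.h (P (nat_lit 0)) (M (nat_lit 19123657897535)))) (T.h (P (nat_lit 0)) (P (nat_lit 52052519111328)))) (T.h (P (nat_lit 0)) (P (nat_lit 33595231580112)))))))), (T.h (T.h (T.h (P (nat_lit 0)) (T.h (M (nat_lit 1423075270604688150537175039)) (T.h (P (nat_lit 0)) (T.h (M (nat_lit 31541551321386582015999)) (T.h (P (nat_lit 0)) (P (nat_lit 83195228683403264))))))) (T.h (P (nat_lit 0)) (T.h (T.h (P (nat_lit 0)) (T.h (M (nat_lit 13965267832501478359039)) (T.h (P (nat_lit 0)) (P (nat_lit 56911183249440768))))) (T.h (P (nat_lit 0)) (T.h (T.h (P (nat_lit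 0)) (P (nat_lit 53881761470775296))) (P (nat_lit 0))))))) (T.h (T.h (P (nat_lit 0)) (T.h (T.h (P (nat_lit 29511644478875987024543744)) (T.h (P (nat_lit 0)) (T.h (P (nat_lit 153691193197182582784)) (T.h (P (nat_lit 0)) (P (nat_lit 50090625483520)))))) (T.h (P (nat_lit 0)) (T.h (T.h (P (nat_lit 2035048669127901184)) (T.h (P (nat_lit 0)) (M (nat_lit 40199411623103)))) (T.h (P (nat_lit 0)) (P (nat_lit 605003880000))))))) (T.h (T.h (T.h (P (nat_lit 0)) (T.h (M (nat_lit 102376935112423459782655)) (T.h (P (nat_lit 0)) (M (nat_lit 583663088441327615))))) (T.h (P (nat_lit 0)) (T.h (T.h (P (nat_lit 0)) (P (nat_lit 219915359221579776))) (P (nat_lit 0))))) (T.h (T.h (P (nat_lit 0)) (T.h (T.h (P (nat_lit 21689621509727846400)) (T.h (P (nat_lit 0)) (M (nat_lit 114302531773695)))) (T.h (P (nat_lit 0)) (M (nat_lit 17904918011519))))) (T.h (T.h (T.h (P (nat_lit 0)) (P (nat_lit 90922673937416192))) (P (nat_lit 0))) (T.h (T.h (P (nat_lit 0)) (P (nat_lit 30960665769472)))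 (P (nat_lit 0)))))))), (T.h (T.h (T.h (P (nat_lit 2123357838476180763854191460352)) (T.h (P (nat_lit 0)) (T.h (M (nat_lit 22516782888906730065887231)) (T.h (P (nat_lit 0)) (T.h (M (nat_lit 104061882536860581887)) (T.h (P (nat_lit 0)) (M (nat_lit 123801535670687)))))))) (T.h (P (nat_lit 0)) (T.h (T.h (M (nat_lit 3569970915382682005274623)) (T.h (P (nat_lit 0)) (T.h (P (nat_lit 10043804351757025280)) (T.h (P (nat_lit 0)) (P (nat_lit 41722221577392)))))) (T.h (P (nat_lit 0)) (T.h (T.h (P (nat_lit 10733473574665846784)) (T.h (P (nat_lit 0)) (P (nat_lit 51762713890032)))) (T.h (P (nat_lit 0)) (M (nat_lit 2380305145823)))))))) (T.h (T.h (P (nat_lit 0)) (T.h (T.h (P (nat_lit 0)) (T.h (M (nat_lit 117849340262303427198975)) (T.h (P (nat_lit 0)) (M (nat_lit 269575616239108095))))) (T.h (P (nat_lit 0)) (T.h (T.h (P (nat_lit 0)) (P (nat_lit 98096991864422400))) (P (nat_lit 0)))))) (T.h (T.h (T.h (M (nat_lit 22516782888906730065887231)) (T.h (P (nat_lit 0)) (T.h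 (M (nat_lit 524537083175312031743)) (T.h (P (nat_lit 0)) (P (nat_lit 8403018471936)))))) (T.h (P (nat_lit 0)) (T.h (T.h (P (nat_lit 10043804351757025280)) (T.h (P (nat_lit 0)) (P (nat_lit 330438239353728)))) (T.h (P (nat_lit 0)) (P (nat_lit 51762713890032)))))) (T.h (T.h (P (nat_lit 0)) (T.h (T.h (P (nat_lit 0)) (M (nat_lit 269575616239108095))) (P (nat_lit 0)))) (T.h (T.h (T.h (M (nat_lit 104061882536860581887)) (T.h (P (nat_lit 0)) (P (nat_lit 8403018471936)))) (T.h (P (nat_lit 0)) (P (nat_lit 41722221577392)))) (T.h (P (nat_lit 0)) (M (nat_lit 123801535670687)))))))), (T.h (T.h (T.h (P (nat_lit 0)) (T.h (M (nat_lit 4622686116289818125836222463)) (T.h (P (nat_lit 0)) (T.h (M (nat_lit 67326681209505262338047)) (T.h (P (nat_lit 0)) (M (nat_lit 73889396061962239))))))) (T.h (P (nat_lit 0)) (T.h (T.h (P (nat_lit 0)) (T.h (M (nat_lit 5038203398620824207359)) (T.h (P (nat_lit 0)) (P (nat_lit 12566762318135296))))) (T.h (P (nat_lit 0)) (T.h (T.h (P (nat_lit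 0)) (M (nat_lit 30035550910087167))) (P (nat_lit 0))))))) (T.h (T.h (P (nat_lit 0)) (T.h (T.h (M (nat_lit 32368617483080180722302975)) (T.h (P (nat_lit 0)) (M (nat_lit 210714216620942688255)))) (T.h (P (nat_lit 0)) (P (nat_lit 30422275876538286080))))) (T.h (T.h (T.h (P (nat_lit 0)) (T.h (M (nat_lit 210632273554275901112319)) (T.h (P (nat_lit 0)) (P (nat_lit 251305719263821824))))) (T.h (P (nat_lit 0)) (T.h (T.h (P (nat_lit 0)) (P (nat_lit 257875223365943296))) (P (nat_lit 0))))) (T.h (T.h (P (nat_lit 0)) (M (nat_lit 70812932436679196671))) (T.h (T.h (T.h (P (nat_lit 0)) (M (nat_lit 170806740523974655))) (P (nat_lit 0))) (P (nat_lit 0))))))), (P (nat_lit 0)), (P (nat_lit 0)), (T.h (T.h (P (nat_lit 0)) (T.h (T.h (P (nat_lit 6109297295370027237344542720)) (T.h (P (nat_lit 0)) (T.h (P (nat_lit 1686258149179302871040)) (T.h (P (nat_lit 0)) (P (nat_lit 417833758720000)))))) (T.h (P (nat_lit 0)) (T.h (T.h (P (nat_lit 6470624315378690424832)) (T.h (P (nat_lit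 0)) (M (nat_lit 433781979512831)))) (T.h (P (nat_lit 0)) (M (nat_lit 7102852997021695))))))) (T.h (T.h (T.h (P (nat_lit 0)) (T.h (M (nat_lit 284033478414364619833343)) (T.h (P (nat_lit 0)) (T.h (P (nat_lit 2140135256919900160)) (T.h (P (nat_lit 0)) (M (nat_lit 2562489162783))))))) (T.h (P (nat_lit 0)) (T.h (T.h (P (nat_lit 0)) (T.h (P (nat_lit 849028859926937600)) (T.h (P (nat_lit 0)) (P (nat_lit 365975489448))))) (T.h (P (nat_lit 0)) (T.h (T.h (P (nat_lit 0)) (P (nat_lit 8644918464696))) (P (nat_lit 0))))))) (T.h (T.h (P (nat_lit 0)) (T.h (T.h (P (nat_lit 3043298767001555566592)) (T.h (P (nat_lit 0)) (M (nat_lit 1978227750830079)))) (T.h (P (nat_lit 0)) (P (nat_lit 23901466144571392))))) (T.h (T.h (T.h (P (nat_lit 0)) (T.h (M (nat_lit 5938503625511796735)) (T.h (P (nat_lit 0)) (P (nat_lit 1179281324744))))) (T.h (P (nat_lit 0)) (T.h (T.h (P (nat_lit 0)) (M (nat_lit 72270515840055))) (P (nat_lit 0))))) (T.h (T.h (P (nat_lit 0)) (M (nat_lit 42195277170933759)))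 (T.h (T.h (T.h (P (nat_lit 0)) (P (nat_lit 11280567779312))) (P (nat_lit 0))) (P (nat_lit 0)))))))), (T.h (T.h (P (nat_lit 0)) (T.h (T.h (P (nat_lit 0)) (T.h (P (nat_lit 10159147398612175204384768)) (T.h (P (nat_lit 0)) (T.h (M (nat_lit 8466335218431688703)) (T.h (P (nat_lit 0)) (M (nat_lit 12009131250063))))))) (T.h (P (nat_lit 0)) (T.h (T.h (P (nat_lit 0)) (T.h (M (nat_lit 8466335218431688703)) (T.h (P (nat_lit 0)) (P (nat_lit 15419168176256))))) (T.h (P (nat_lit 0)) (T.h (T.h (P (nat_lit 0)) (M (nat_lit 12009131250063))) (P (nat_lit 0)))))))) (T.h (T.h (T.h (P (nat_lit 14045086798794061153352810496)) (T.h (P (nat_lit 0)) (T.h (M (nat_lit 81096796728415458689023)) (T.h (P (nat_lit 0)) (P (nat_lit 48995516550889472)))))) (T.h (P (nat_lit 0)) (T.h (T.h (M (nat_lit 81096796728415458689023)) (T.h (P (nat_lit 0)) (P (nat_lit 65038788471324672)))) (T.h (P (nat_lit 0)) (P (nat_lit 48995516550889472)))))) (T.h (T.h (P (nat_lit 0)) (T.h (T.h (P (nat_lit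 0)) (T.h (M (nat_lit 653684945632941309951)) (T.h (P (nat_lit 0)) (M (nat_lit 5250374281359))))) (T.h (P (nat_lit 0)) (T.h (T.h (P (nat_lit 0)) (M (nat_lit 5250374281359))) (P (nat_lit 0)))))) (T.h (T.h (T.h (M (nat_lit 36699550170478542847999)) (T.h (P (nat_lit 0)) (M (nat_lit 15636010588487679)))) (T.h (P (nat_lit 0)) (M (nat_lit 15636010588487679)))) (T.h (T.h (P (nat_lit 0)) (T.h (T.h (P (nat_lit 0)) (M (nat_lit 33739957894015))) (P (nat_lit 0)))) (P (nat_lit 53154154414211072)))))))]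
def lQp_28 : List (T ℤ) := [(T.h (T.h (P (nat_lit 0)) (T.h (T.h (M (nat_lit 30439372902512087466491510783)) (T.h (P (nat_lit 0)) (T.h (P (nat_lit 5187693863199632785408)) (T.h (P (nat_lit 0)) (P (nat_lit 131697003819499520)))))) (T.h (P (nat_lit 0)) (T.h (T.h (P (nat_lit 4512347180252872572928)) (T.h (P (nat_lit 0)) (M (nat_lit 165668878693040127)))) (T.h (P (nat_lit 0)) (M (nat_lit 25401474191458303))))))) (T.h (T.h (T.h (P (nat_lit 0)) (T.h (M (nat_lit 17136308746545256755888127)) (T.h (P (nat_lit 0)) (T.h (P (nat_lit 390903923725150715904)) (T.h (P (nat_lit 0)) (P (nat_lit 41950637664832))))))) (T.h (P (nat_lit 0)) (T.h (T.h (P (nat_lit 0)) (T.h (P (nat_lit 40001066219060854784)) (T.h (P (nat_lit 0)) (P (nat_lit 201592896292032))))) (T.h (P (nat_lit 0)) (T.h (T.h (P (nat_lit 0)) (M (nat_lit 224110488235839))) (P (nat_lit 0))))))) (T.h (T.h (P (nat_lit 0)) (T.h (T.h (P (nat_lit 163116600156994838462464)) (T.h (P (nat_lit 0)) (P (nat_lit 783145859356131328))))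 (T.h (P (nat_lit 0)) (M (nat_lit 390897227788976127))))) (T.h (T.h (T.h (P (nat_lit 0)) (T.h (P (nat_lit 254244116952053186560)) (T.h (P (nat_lit 0)) (P (nat_lit 297158349740032))))) (T.h (P (nat_lit 0)) (T.h (T.h (P (nat_lit 0)) (M (nat_lit 435589951003263))) (P (nat_lit 0))))) (T.h (T.h (P (nat_lit 0)) (M (nat_lit 409804081434263551))) (T.h (T.h (T.h (P (nat_lit 0)) (M (nat_lit 118685896343039))) (P (nat_lit 0))) (P (nat_lit 0)))))))), (T.h (T.h (P (nat_lit 0)) (T.h (T.h (P (nat_lit 0)) (T.h (P (nat_lit 3351747234530990319730688)) (T.h (P (nat_lit 0)) (T.h (M (nat_lit 115670365913472827391)) (T.h (P (nat_lit 0)) (P (nat_lit 8562378236832))))))) (T.h (P (nat_lit 0)) (T.h (T.h (P (nat_lit 0)) (T.h (P (nat_lit 297505605466797899776)) (T.h (P (nat_lit 0)) (P (nat_lit 79993172440224))))) (T.h (P (nat_lit 0)) (T.h (T.h (P (nat_lit 0)) (M (nat_lit 59828803719263))) (P (nat_lit 0)))))))) (T.h (T.h (T.h (M (nat_lit 42505286476555310707194724351)) (T.h (P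 (nat_lit 0)) (T.h (M (nat_lit 176837335865706632183807)) (T.h (P (nat_lit 0)) (M (nat_lit 199091536319299583)))))) (T.h (P (nat_lit 0)) (T.h (T.h (P (nat_lit 31378407630487934730240)) (T.h (P (nat_lit 0)) (M (nat_lit 155170297518686207)))) (T.h (P (nat_lit 0)) (M (nat_lit 4663950362312703)))))) (T.h (T.h (P (nat_lit 0)) (T.h (T.h (P (nat_lit 0)) (T.h (M (nat_lit 68235848904299511807)) (T.h (P (nat_lit 0)) (M (nat_lit 187314034551551))))) (T.h (P (nat_lit 0)) (T.h (T.h (P (nat_lit 0)) (M (nat_lit 105852932695583))) (P (nat_lit 0)))))) (T.h (T.h (T.h (P (nat_lit 13736814429644959776768)) (T.h (P (nat_lit 0)) (M (nat_lit 157327565251870719)))) (T.h (P (nat_lit 0)) (P (nat_lit 133013457014423552)))) (T.h (T.h (P (nat_lit 0)) (T.h (T.h (P (nat_lit 0)) (M (nat_lit 493402670761247))) (P (nat_lit 0)))) (M (nat_lit 346456592703291391))))))), (T.h (T.h (P (nat_lit 0)) (T.h (T.h (P (nat_lit 23982801289164216537089835008)) (T.h (P (nat_lit 0)) (T.h (P (nat_lit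 103457444550888944304128)) (T.h (P (nat_lit 0)) (M (nat_lit 83546188554764287)))))) (T.h (P (nat_lit 0)) (T.h (T.h (P (nat_lit 40637152726621985177600)) (T.h (P (nat_lit 0)) (P (nat_lit 77636821944369152)))) (T.h (P (nat_lit 0)) (M (nat_lit 30478663296221183))))))) (T.h (T.h (T.h (P (nat_lit 0)) (T.h (M (nat_lit 82022475448791551103205375)) (T.h (P (nat_lit 0)) (M (nat_lit 285002259208458993663))))) (T.h (P (nat_lit 0)) (T.h (T.h (P (nat_lit 0)) (M (nat_lit 145578080354680438783))) (P (nat_lit 0))))) (T.h (T.h (P (nat_lit 0)) (T.h (T.h (P (nat_lit 103457444550888944304128)) (T.h (P (nat_lit 0)) (M (nat_lit 105359980908511231)))) (T.h (P (nat_lit 0)) (P (nat_lit 77636821944369152))))) (T.h (T.h (T.h (P (nat_lit 0)) (M (nat_lit 285002259208458993663))) (P (nat_lit 0))) (T.h (T.h (P (nat_lit 0)) (M (nat_lit 83546188554764287))) (P (nat_lit 0))))))), (P (nat_lit 0)), (P (nat_lit 0)), (T.h (T.h (T.h (M (nat_lit 4760559981841400535819587944447)) (T.h (P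 (nat_lit 0)) (T.h (P (nat_lit 770520881638916390649856)) (T.h (P (nat_lit 0)) (T.h (P (nat_lit 5476421613685571584)) (T.h (P (nat_lit 0)) (M (nat_lit 1226078413135)))))))) (T.h (P (nat_lit 0)) (T.h (T.h (M (nat_lit 23554564491741895231275007)) (T.h (P (nat_lit 0)) (T.h (M (nat_lit 6340317228499468287)) (T.h (P (nat_lit 0)) (P (nat_lit 3880953721632)))))) (T.h (P (nat_lit 0)) (T.h (T.h (M (nat_lit 26277287895165304831)) (T.h (P (nat_lit 0)) (M (nat_lit 2332677536639)))) (T.h (P (nat_lit 0)) (P (nat_lit 5106811990464)))))))) (T.h (T.h (P (nat_lit 0)) (T.h (T.h (P (nat_lit 0)) (T.h (P (nat_lit 5718149774113176027136)) (T.h (P (nat_lit 0)) (M (nat_lit 22477953384775679))))) (T.h (P (nat_lit 0)) (T.h (T.h (P (nat_lit 0)) (M (nat_lit 87735198484725759))) (P (nat_lit 0)))))) (T.h (T.h (T.h (M (nat_lit 12686087327818927969402879)) (T.h (P (nat_lit 0)) (T.h (M (nat_lit 20620189100488523775)) (T.h (P (nat_lit 0)) (M (nat_lit 4136082018047)))))) (T.h (P (nat_lit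 0)) (T.h (T.h (M (nat_lit 98180377231073738751)) (T.h (P (nat_lit 0)) (M (nat_lit 23507951099487)))) (T.h (P (nat_lit 0)) (M (nat_lit 35834186439263)))))) (T.h (T.h (P (nat_lit 0)) (T.h (T.h (P (nat_lit 0)) (P (nat_lit 88374154776510464))) (P (nat_lit 0)))) (T.h (T.h (T.h (P (nat_lit 79083973133016760320)) (T.h (P (nat_lit 0)) (P (nat_lit 52052519111328)))) (T.h (P (nat_lit 0)) (M (nat_lit 19123657897535)))) (T.h (P (nat_lit 0)) (P (nat_lit 33595231580112)))))))), (T.h (T.h (T.h (P (nat_lit 0)) (T.h (M (nat_lit 30439372902512087466491510783)) (T.h (P (nat_lit 0)) (T.h (P (nat_lit 4512347180252872572928)) (T.h (P (nat_lit 0)) (M (nat_lit 25401474191458303))))))) (T.h (P (nat_lit 0)) (T.h (T.h (P (nat_lit 0)) (T.h (P (nat_lit 5187693863199632785408)) (T.h (P (nat_lit 0)) (M (nat_lit 165668878693040127))))) (T.h (P (nat_lit 0)) (T.h (T.h (P (nat_lit 0)) (P (nat_lit 131697003819499520))) (P (nat_lit 0))))))) (T.h (T.h (P (nat_lit 0)) (T.h (T.h (M (nat_lit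 17136308746545256755888127)) (T.h (P (nat_lit 0)) (T.h (P (nat_lit 40001066219060854784)) (T.h (P (nat_lit 0)) (M (nat_lit 224110488235839)))))) (T.h (P (nat_lit 0)) (T.h (T.h (P (nat_lit 390903923725150715904)) (T.h (P (nat_lit 0)) (P (nat_lit 201592896292032)))) (T.h (P (nat_lit 0)) (P (nat_lit 41950637664832))))))) (T.h (T.h (T.h (P (nat_lit 0)) (T.h (P (nat_lit 163116600156994838462464)) (T.h (P (nat_lit 0)) (M (nat_lit 390897227788976127))))) (T.h (P (nat_lit 0)) (T.h (T.h (P (nat_lit 0)) (P (nat_lit 783145859356131328))) (P (nat_lit 0))))) (T.h (T.h (P (nat_lit 0)) (T.h (T.h (P (nat_lit 254244116952053186560)) (T.h (P (nat_lit 0)) (M (nat_lit 435589951003263)))) (T.h (P (nat_lit 0)) (P (nat_lit 297158349740032))))) (T.h (T.h (T.h (P (nat_lit 0)) (M (nat_lit 409804081434263551))) (P (nat_lit 0))) (T.h (T.h (P (nat_lit 0)) (M (nat_lit 118685896343039))) (P (nat_lit 0)))))))), (T.h (T.h (T.h (M (nat_lit 9621836782640715442813122117631)) (T.h (P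 (nat_lit 0)) (T.h (P (nat_lit 39709390679530183027851264)) (T.h (P (nat_lit 0)) (T.h (M (nat_lit 46137101300793343999)) (T.h (P (nat_lit 0)) (P (nat_lit 44261739818928)))))))) (T.h (P (nat_lit 0)) (T.h (T.h (P (nat_lit 39709390679530183027851264)) (T.h (P (nat_lit 0)) (T.h (P (nat_lit 325842093885051895808)) (T.h (P (nat_lit 0)) (P (nat_lit 83994971528592)))))) (T.h (P (nat_lit 0)) (T.h (T.h (M (nat_lit 46137101300793343999)) (T.h (P (nat_lit 0)) (P (nat_lit 83994971528592)))) (T.h (P (nat_lit 0)) (P (nat_lit 44261739818928)))))))) (T.h (T.h (P (nat_lit 0)) (T.h (T.h (P (nat_lit 0)) (T.h (P (nat_lit 693188341454905471401984)) (T.h (P (nat_lit 0)) (P (nat_lit 150070350940602368))))) (T.h (P (nat_lit 0)) (T.h (T.h (P (nat_lit 0)) (P (nat_lit 150070350940602368))) (P (nat_lit 0)))))) (T.h (T.h (T.h (P (nat_lit 95447913308479641767378944)) (T.h (P (nat_lit 0)) (T.h (M (nat_lit 876055013546178641919)) (T.h (P (nat_lit 0)) (P (nat_lit 48162526619760))))))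 (T.h (P (nat_lit 0)) (T.h (T.h (M (nat_lit 876055013546178641919)) (T.h (P (nat_lit 0)) (P (nat_lit 140014755056160)))) (T.h (P (nat_lit 0)) (P (nat_lit 48162526619760)))))) (T.h (T.h (P (nat_lit 0)) (T.h (T.h (P (nat_lit 0)) (M (nat_lit 360564490332274687))) (P (nat_lit 0)))) (T.h (T.h (T.h (P (nat_lit 14001697306391347200)) (T.h (P (nat_lit 0)) (M (nat_lit 140036581379231)))) (T.h (P (nat_lit 0)) (M (nat_lit 140036581379231)))) (T.h (P (nat_lit 0)) (P (nat_lit 335070000742752))))))))]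
def lQp_29 : List (T ℤ) := [(T.h (T.h (T.h (P (nat_lit 0)) (T.h (M (nat_lit 8678397838319954379703058431)) (T.h (P (nat_lit 0)) (T.h (M (nat_lit 74394072377337271287807)) (T.h (P (nat_lit 0)) (P (nat_lit 139219386486030336))))))) (T.h (P (nat_lit 0)) (T.h (T.h (P (nat_lit 0)) (T.h (P (nat_lit 341199079021657320325120)) (T.h (P (nat_lit 0)) (M (nat_lit 62581864780890111))))) (T.h (P (nat_lit 0)) (T.h (T.h (P (nat_lit 0)) (M (nat_lit 129826036928675839))) (P (nat_lit 0))))))) (T.h (T.h (P (nat_lit 0)) (T.h (T.h (P (nat_lit 96179261992023780361240576)) (T.h (P (nat_lit 0)) (P (nat_lit 53604245851376451584)))) (T.h (P (nat_lit 0)) (P (nat_lit 217121808635813429248))))) (T.h (T.h (T.h (P (nat_lit 0)) (T.h (M (nat_lit 378592996281651543670783)) (T.h (P (nat_lit 0)) (M (nat_lit 66756519374815231))))) (T.h (P (nat_lit 0)) (T.h (T.h (P (nat_lit 0)) (M (nat_lit 589473878395617279))) (P (nat_lit 0))))) (T.h (T.h (P (nat_lit 0)) (M (nat_lit 6753330301906190335)))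 (T.h (T.h (T.h (P (nat_lit 0)) (P (nat_lit 208185981911433216))) (P (nat_lit 0))) (P (nat_lit 0))))))), (P (nat_lit 0)), (P (nat_lit 0)), (T.h (T.h (P (nat_lit 0)) (T.h (T.h (M (nat_lit 1423075270604688150537175039)) (T.h (P (nat_lit 0)) (T.h (M (nat_lit 13965267832501478359039)) (T.h (P (nat_lit 0)) (P (nat_lit 53881761470775296)))))) (T.h (P (nat_lit 0)) (T.h (T.h (M (nat_lit 31541551321386582015999)) (T.h (P (nat_lit 0)) (P (nat_lit 56911183249440768)))) (T.h (P (nat_lit 0)) (P (nat_lit 83195228683403264))))))) (T.h (T.h (T.h (P (nat_lit 0)) (T.h (P (nat_lit 29511644478875987024543744)) (T.h (P (nat_lit 0)) (T.h (P (nat_lit 2035048669127901184)) (T.h (P (nat_lit 0)) (P (nat_lit 605003880000))))))) (T.h (P (nat_lit 0)) (T.h (T.h (P (nat_lit 0)) (T.h (P (nat_lit 153691193197182582784)) (T.h (P (nat_lit 0)) (M (nat_lit 40199411623103))))) (T.h (P (nat_lit 0)) (T.h (T.h (P (nat_lit 0)) (P (nat_lit 50090625483520))) (P (nat_lit 0))))))) (T.h (T.h (P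 (nat_lit 0)) (T.h (T.h (M (nat_lit 102376935112423459782655)) (T.h (P (nat_lit 0)) (P (nat_lit 219915359221579776)))) (T.h (P (nat_lit 0)) (M (nat_lit 583663088441327615))))) (T.h (T.h (T.h (P (nat_lit 0)) (T.h (P (nat_lit 21689621509727846400)) (T.h (P (nat_lit 0)) (M (nat_lit 17904918011519))))) (T.h (P (nat_lit 0)) (T.h (T.h (P (nat_lit 0)) (M (nat_lit 114302531773695))) (P (nat_lit 0))))) (T.h (T.h (P (nat_lit 0)) (P (nat_lit 90922673937416192))) (T.h (T.h (T.h (P (nat_lit 0)) (P (nat_lit 30960665769472))) (P (nat_lit 0))) (P (nat_lit 0)))))))), (T.h (T.h (P (nat_lit 0)) (T.h (T.h (P (nat_lit 0)) (T.h (P (nat_lit 3351747234530990319730688)) (T.h (P (nat_lit 0)) (T.h (P (nat_lit 297505605466797899776)) (T.h (P (nat_lit 0)) (M (nat_lit 59828803719263))))))) (T.h (P (nat_lit 0)) (T.h (T.h (P (nat_lit 0)) (T.h (M (nat_lit 115670365913472827391)) (T.h (P (nat_lit 0)) (P (nat_lit 79993172440224))))) (T.h (P (nat_lit 0)) (T.h (T.h (P (nat_lit 0)) (P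 (nat_lit 8562378236832))) (P (nat_lit 0)))))))) (T.h (T.h (T.h (M (nat_lit 42505286476555310707194724351)) (T.h (P (nat_lit 0)) (T.h (P (nat_lit 31378407630487934730240)) (T.h (P (nat_lit 0)) (M (nat_lit 4663950362312703)))))) (T.h (P (nat_lit 0)) (T.h (T.h (M (nat_lit 176837335865706632183807)) (T.h (P (nat_lit 0)) (M (nat_lit 155170297518686207)))) (T.h (P (nat_lit 0)) (M (nat_lit 199091536319299583)))))) (T.h (T.h (P (nat_lit 0)) (T.h (T.h (P (nat_lit 0)) (T.h (M (nat_lit 68235848904299511807)) (T.h (P (nat_lit 0)) (M (nat_lit 105852932695583))))) (T.h (P (nat_lit 0)) (T.h (T.h (P (nat_lit 0)) (M (nat_lit 187314034551551))) (P (nat_lit 0)))))) (T.h (T.h (T.h (P (nat_lit 13736814429644959776768)) (T.h (P (nat_lit 0)) (P (nat_lit 133013457014423552)))) (T.h (P (nat_lit 0)) (M (nat_lit 157327565251870719)))) (T.h (T.h (P (nat_lit 0)) (T.h (T.h (P (nat_lit 0)) (M (nat_lit 493402670761247))) (P (nat_lit 0)))) (M (nat_lit 346456592703291391))))))),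 (T.h (T.h (P (nat_lit 0)) (T.h (T.h (M (nat_lit 8678397838319954379703058431)) (T.h (P (nat_lit 0)) (T.h (P (nat_lit 341199079021657320325120)) (T.h (P (nat_lit 0)) (M (nat_lit 129826036928675839)))))) (T.h (P (nat_lit 0)) (T.h (T.h (M (nat_lit 74394072377337271287807)) (T.h (P (nat_lit 0)) (M (nat_lit 62581864780890111)))) (T.h (P (nat_lit 0)) (P (nat_lit 139219386486030336))))))) (T.h (T.h (T.h (P (nat_lit 0)) (T.h (P (nat_lit 96179261992023780361240576)) (T.h (P (nat_lit 0)) (P (nat_lit 217121808635813429248))))) (T.h (P (nat_lit 0)) (T.h (T.h (P (nat_lit 0)) (P (nat_lit 53604245851376451584))) (P (nat_lit 0))))) (T.h (T.h (P (nat_lit 0)) (T.h (T.h (M (nat_lit 378592996281651543670783)) (T.h (P (nat_lit 0)) (M (nat_lit 589473878395617279)))) (T.h (P (nat_lit 0)) (M (nat_lit 66756519374815231))))) (T.h (T.h (T.h (P (nat_lit 0)) (M (nat_lit 6753330301906190335))) (P (nat_lit 0))) (T.h (T.h (P (nat_lit 0)) (P (nat_lit 208185981911433216))) (P (nat_lit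 0))))))), (P (nat_lit 0)), (P (nat_lit 0))]
def lQp_30 : List (T ℤ) := [(T.h (T.h (T.h (P (nat_lit 2123357838476180763854191460352)) (T.h (P (nat_lit 0)) (T.h (M (nat_lit 3569970915382682005274623)) (T.h (P (nat_lit 0)) (T.h (P (nat_lit 10733473574665846784)) (T.h (P (nat_lit 0)) (M (nat_lit 2380305145823)))))))) (T.h (P (nat_lit 0)) (T.h (T.h (M (nat_lit 22516782888906730065887231)) (T.h (P (nat_lit 0)) (T.h (P (nat_lit 10043804351757025280)) (T.h (P (nat_lit 0)) (P (nat_lit 51762713890032)))))) (T.h (P (nat_lit 0)) (T.h (T.h (M (nat_lit 104061882536860581887)) (T.h (P (nat_lit 0)) (P (nat_lit 41722221577392)))) (T.h (P (nat_lit 0)) (M (nat_lit 123801535670687)))))))) (T.h (T.h (P (nat_lit 0)) (T.h (T.h (P (nat_lit 0)) (T.h (M (nat_lit 117849340262303427198975)) (T.h (P (nat_lit 0)) (P (nat_lit 98096991864422400))))) (T.h (P (nat_lit 0)) (T.h (T.h (P (nat_lit 0)) (M (nat_lit 269575616239108095))) (P (nat_lit 0)))))) (T.h (T.h (T.h (M (nat_lit 22516782888906730065887231))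 (T.h (P (nat_lit 0)) (T.h (P (nat_lit 10043804351757025280)) (T.h (P (nat_lit 0)) (P (nat_lit 51762713890032)))))) (T.h (P (nat_lit 0)) (T.h (T.h (M (nat_lit 524537083175312031743)) (T.h (P (nat_lit 0)) (P (nat_lit 330438239353728)))) (T.h (P (nat_lit 0)) (P (nat_lit 8403018471936)))))) (T.h (T.h (P (nat_lit 0)) (T.h (T.h (P (nat_lit 0)) (M (nat_lit 269575616239108095))) (P (nat_lit 0)))) (T.h (T.h (T.h (M (nat_lit 104061882536860581887)) (T.h (P (nat_lit 0)) (P (nat_lit 41722221577392)))) (T.h (P (nat_lit 0)) (P (nat_lit 8403018471936)))) (T.h (P (nat_lit 0)) (M (nat_lit 123801535670687)))))))), (T.h (T.h (T.h (P (nat_lit 0)) (T.h (P (nat_lit 23982801289164216537089835008)) (T.h (P (nat_lit 0)) (T.h (P (nat_lit 40637152726621985177600)) (T.h (P (nat_lit 0)) (M (nat_lit 30478663296221183))))))) (T.h (P (nat_lit 0)) (T.h (T.h (P (nat_lit 0)) (T.h (P (nat_lit 103457444550888944304128)) (T.h (P (nat_lit 0)) (P (nat_lit 77636821944369152))))) (T.h (P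 (nat_lit 0)) (T.h (T.h (P (nat_lit 0)) (M (nat_lit 83546188554764287))) (P (nat_lit 0))))))) (T.h (T.h (P (nat_lit 0)) (T.h (T.h (M (nat_lit 82022475448791551103205375)) (T.h (P (nat_lit 0)) (M (nat_lit 145578080354680438783)))) (T.h (P (nat_lit 0)) (M (nat_lit 285002259208458993663))))) (T.h (T.h (T.h (P (nat_lit 0)) (T.h (P (nat_lit 103457444550888944304128)) (T.h (P (nat_lit 0)) (P (nat_lit 77636821944369152))))) (T.h (P (nat_lit 0)) (T.h (T.h (P (nat_lit 0)) (M (nat_lit 105359980908511231))) (P (nat_lit 0))))) (T.h (T.h (P (nat_lit 0)) (M (nat_lit 285002259208458993663))) (T.h (T.h (T.h (P (nat_lit 0)) (M (nat_lit 83546188554764287))) (P (nat_lit 0))) (P (nat_lit 0))))))), (P (nat_lit 0)), (P (nat_lit 0)), (T.h (T.h (P (nat_lit 0)) (T.h (T.h (M (nat_lit 4622686116289818125836222463)) (T.h (P (nat_lit 0)) (T.h (M (nat_lit 5038203398620824207359)) (T.h (P (nat_lit 0)) (M (nat_lit 30035550910087167)))))) (T.h (P (nat_lit 0)) (T.h (T.h (M (nat_lit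 67326681209505262338047)) (T.h (P (nat_lit 0)) (P (nat_lit 12566762318135296)))) (T.h (P (nat_lit 0)) (M (nat_lit 73889396061962239))))))) (T.h (T.h (T.h (P (nat_lit 0)) (T.h (M (nat_lit 32368617483080180722302975)) (T.h (P (nat_lit 0)) (P (nat_lit 30422275876538286080))))) (T.h (P (nat_lit 0)) (T.h (T.h (P (nat_lit 0)) (M (nat_lit 210714216620942688255))) (P (nat_lit 0))))) (T.h (T.h (P (nat_lit 0)) (T.h (T.h (M (nat_lit 210632273554275901112319)) (T.h (P (nat_lit 0)) (P (nat_lit 257875223365943296)))) (T.h (P (nat_lit 0)) (P (nat_lit 251305719263821824))))) (T.h (T.h (T.h (P (nat_lit 0)) (M (nat_lit 70812932436679196671))) (P (nat_lit 0))) (T.h (T.h (P (nat_lit 0)) (M (nat_lit 170806740523974655))) (P (nat_lit 0))))))), (P (nat_lit 0)), (P (nat_lit 0)), (P (nat_lit 0))]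
def lQp_31 : List (T ℤ) := [(P (nat_lit 0)), (P (nat_lit 0)), (T.h (T.h (P (nat_lit 0)) (T.h (T.h (P (nat_lit 0)) (T.h (P (nat_lit 2802841087763088546988032)) (T.h (P (nat_lit 0)) (T.h (P (nat_lit 1002591225452167168)) (T.h (P (nat_lit 0)) (P (nat_lit 1007079246328))))))) (T.h (P (nat_lit 0)) (T.h (T.h (P (nat_lit 0)) (T.h (P (nat_lit 1002591225452167168)) (T.h (P (nat_lit 0)) (P (nat_lit 48440508656))))) (T.h (P (nat_lit 0)) (T.h (T.h (P (nat_lit 0)) (P (nat_lit 1007079246328))) (P (nat_lit 0)))))))) (T.h (T.h (T.h (M (nat_lit 3839514313513014043615428607)) (T.h (P (nat_lit 0)) (T.h (P (nat_lit 1686860910799498510336)) (T.h (P (nat_lit 0)) (M (nat_lit 1885774712307711)))))) (T.h (P (nat_lit 0)) (T.h (T.h (P (nat_lit 1686860910799498510336)) (T.h (P (nat_lit 0)) (P (nat_lit 9154749834854400)))) (T.h (P (nat_lit 0)) (M (nat_lit 1885774712307711)))))) (T.h (T.h (P (nat_lit 0)) (T.h (T.h (P (nat_lit 0)) (T.h (M (nat_lit 15043258930488672255)) (T.h (P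 (nat_lit 0)) (M (nat_lit 6893533280159))))) (T.h (P (nat_lit 0)) (T.h (T.h (P (nat_lit 0)) (M (nat_lit 6893533280159))) (P (nat_lit 0)))))) (T.h (T.h (T.h (P (nat_lit 3646535431745731297280)) (T.h (P (nat_lit 0)) (M (nat_lit 4778343383728127)))) (T.h (P (nat_lit 0)) (M (nat_lit 4778343383728127)))) (T.h (T.h (P (nat_lit 0)) (T.h (T.h (P (nat_lit 0)) (M (nat_lit 90631147302591))) (P (nat_lit 0)))) (M (nat_lit 137409198948351))))))), (T.h (T.h (P (nat_lit 0)) (T.h (T.h (M (nat_lit 8791771181520521901880901631)) (T.h (P (nat_lit 0)) (T.h (P (nat_lit 9840168828146097848320)) (T.h (P (nat_lit 0)) (P (nat_lit 28202771527335936)))))) (T.h (P (nat_lit 0)) (T.h (T.h (P (nat_lit 1197127384719865937920)) (T.h (P (nat_lit 0)) (P (nat_lit 8554117372231680)))) (T.h (P (nat_lit 0)) (M (nat_lit 578348013797375))))))) (T.h (T.h (T.h (P (nat_lit 0)) (T.h (P (nat_lit 7108667783362390295314432)) (T.h (P (nat_lit 0)) (T.h (P (nat_lit 6429138738500075520)) (T.h (P (nat_lit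 0)) (M (nat_lit 2171138809055))))))) (T.h (P (nat_lit 0)) (T.h (T.h (P (nat_lit 0)) (T.h (M (nat_lit 6625341527327506431)) (T.h (P (nat_lit 0)) (P (nat_lit 7731991111936))))) (T.h (P (nat_lit 0)) (T.h (T.h (P (nat_lit 0)) (M (nat_lit 6391443606815))) (P (nat_lit 0))))))) (T.h (T.h (P (nat_lit 0)) (T.h (T.h (P (nat_lit 22020359117771091476480)) (T.h (P (nat_lit 0)) (P (nat_lit 38653626529546240)))) (T.h (P (nat_lit 0)) (M (nat_lit 644596779991039))))) (T.h (T.h (T.h (P (nat_lit 0)) (T.h (M (nat_lit 154584634236227026943)) (T.h (P (nat_lit 0)) (P (nat_lit 19834863972112))))) (T.h (P (nat_lit 0)) (T.h (T.h (P (nat_lit 0)) (P (nat_lit 19291176429520))) (P (nat_lit 0))))) (T.h (T.h (P (nat_lit 0)) (M (nat_lit 121640918615326719))) (T.h (T.h (T.h (P (nat_lit 0)) (M (nat_lit 335941989346463))) (P (nat_lit 0))) (P (nat_lit 0)))))))), (T.h (T.h (P (nat_lit 0)) (T.h (T.h (P (nat_lit 0)) (T.h (M (nat_lit 36565551147893332237090815)) (T.h (P (nat_lit 0)) (T.h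 (M (nat_lit 22323664257476984831)) (T.h (P (nat_lit 0)) (P (nat_lit 24139558673280))))))) (T.h (P (nat_lit 0)) (T.h (T.h (P (nat_lit 0)) (T.h (P (nat_lit 40838291985006592000)) (T.h (P (nat_lit 0)) (M (nat_lit 4242820383295))))) (T.h (P (nat_lit 0)) (T.h (T.h (P (nat_lit 0)) (M (nat_lit 2955205671167))) (P (nat_lit 0)))))))) (T.h (T.h (T.h (P (nat_lit 7964465409808473183024578560)) (T.h (P (nat_lit 0)) (T.h (M (nat_lit 135355189748246979280895)) (T.h (P (nat_lit 0)) (M (nat_lit 11688336278388735)))))) (T.h (P (nat_lit 0)) (T.h (T.h (M (nat_lit 23922005058509963526143)) (T.h (P (nat_lit 0)) (P (nat_lit 76855338413654016)))) (T.h (P (nat_lit 0)) (P (nat_lit 19433905954488320)))))) (T.h (T.h (P (nat_lit 0)) (T.h (T.h (P (nat_lit 0)) (T.h (M (nat_lit 136602560658321440767)) (T.h (P (nat_lit 0)) (M (nat_lit 66324274011007))))) (T.h (P (nat_lit 0)) (T.h (T.h (P (nat_lit 0)) (P (nat_lit 9075415495296))) (P (nat_lit 0)))))) (T.h (T.h (T.h (M (nat_lit 7119774854517733982207))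 (T.h (P (nat_lit 0)) (M (nat_lit 285802558304780287)))) (T.h (P (nat_lit 0)) (P (nat_lit 35586079954829312)))) (T.h (T.h (P (nat_lit 0)) (T.h (T.h (P (nat_lit 0)) (M (nat_lit 206420040118655))) (P (nat_lit 0)))) (M (nat_lit 148082487392174079))))))), (T.h (T.h (P (nat_lit 0)) (T.h (T.h (M (nat_lit 5651764205519451235941351423)) (T.h (P (nat_lit 0)) (T.h (P (nat_lit 5401474684980102692864)) (T.h (P (nat_lit 0)) (P (nat_lit 31510804217823232)))))) (T.h (P (nat_lit 0)) (T.h (T.h (P (nat_lit 2150413618614238183424)) (T.h (P (nat_lit 0)) (M (nat_lit 16334309095342079)))) (T.h (P (nat_lit 0)) (P (nat_lit 2760467853754368))))))) (T.h (T.h (T.h (P (nat_lit 0)) (T.h (P (nat_lit 3925105225115737463455744)) (T.h (P (nat_lit 0)) (T.h (M (nat_lit 70756264808229634047)) (T.h (P (nat_lit 0)) (M (nat_lit 153484319177423))))))) (T.h (P (nat_lit 0)) (T.h (T.h (P (nat_lit 0)) (T.h (P (nat_lit 29510078247831863296)) (T.h (P (nat_lit 0)) (P (nat_lit 157454749658304)))))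 (T.h (P (nat_lit 0)) (T.h (T.h (P (nat_lit 0)) (M (nat_lit 235517594865407))) (P (nat_lit 0))))))) (T.h (T.h (P (nat_lit 0)) (T.h (T.h (M (nat_lit 12670811359082753032191)) (T.h (P (nat_lit 0)) (M (nat_lit 208198211023503359)))) (T.h (P (nat_lit 0)) (M (nat_lit 39058420179075071))))) (T.h (T.h (T.h (P (nat_lit 0)) (T.h (P (nat_lit 339200111039458836480)) (T.h (P (nat_lit 0)) (P (nat_lit 356919587573616))))) (T.h (P (nat_lit 0)) (T.h (T.h (P (nat_lit 0)) (M (nat_lit 111663856591199))) (P (nat_lit 0))))) (T.h (T.h (P (nat_lit 0)) (P (nat_lit 201008201338093568))) (T.h (T.h (T.h (P (nat_lit 0)) (P (nat_lit 418099953986208))) (P (nat_lit 0))) (P (nat_lit 0)))))))), (T.h (T.h (P (nat_lit 0)) (T.h (T.h (P (nat_lit 0)) (T.h (M (nat_lit 32368617483080180722302975)) (T.h (P (nat_lit 0)) (M (nat_lit 70812932436679196671))))) (T.h (P (nat_lit 0)) (T.h (T.h (P (nat_lit 0)) (P (nat_lit 30422275876538286080))) (P (nat_lit 0)))))) (T.h (T.h (T.h (M (nat_lit 4622686116289818125836222463))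 (T.h (P (nat_lit 0)) (T.h (M (nat_lit 210632273554275901112319)) (T.h (P (nat_lit 0)) (M (nat_lit 170806740523974655)))))) (T.h (P (nat_lit 0)) (T.h (T.h (M (nat_lit 5038203398620824207359)) (T.h (P (nat_lit 0)) (P (nat_lit 257875223365943296)))) (T.h (P (nat_lit 0)) (M (nat_lit 30035550910087167)))))) (T.h (T.h (P (nat_lit 0)) (T.h (T.h (P (nat_lit 0)) (M (nat_lit 210714216620942688255))) (P (nat_lit 0)))) (T.h (T.h (T.h (M (nat_lit 67326681209505262338047)) (T.h (P (nat_lit 0)) (P (nat_lit 251305719263821824)))) (T.h (P (nat_lit 0)) (P (nat_lit 12566762318135296)))) (T.h (P (nat_lit 0)) (M (nat_lit 73889396061962239))))))), (P (nat_lit 0))]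
def lQp_32 : List (T ℤ) := [(P (nat_lit 0)), (T.h (T.h (T.h (P (nat_lit 0)) (T.h (M (nat_lit 8791771181520521901880901631)) (T.h (P (nat_lit 0)) (T.h (P (nat_lit 1197127384719865937920)) (T.h (P (nat_lit 0)) (M (nat_lit 578348013797375))))))) (T.h (P (nat_lit 0)) (T.h (T.h (P (nat_lit 0)) (T.h (P (nat_lit 9840168828146097848320)) (T.h (P (nat_lit 0)) (P (nat_lit 8554117372231680))))) (T.h (P (nat_lit 0)) (T.h (T.h (P (nat_lit 0)) (P (nat_lit 28202771527335936))) (P (nat_lit 0))))))) (T.h (T.h (P (nat_lit 0)) (T.h (T.h (P (nat_lit 7108667783362390295314432)) (T.h (P (nat_lit 0)) (T.h (M (nat_lit 6625341527327506431)) (T.h (P (nat_lit 0)) (M (nat_lit 6391443606815)))))) (T.h (P (nat_lit 0)) (T.h (T.h (P (nat_lit 6429138738500075520)) (T.h (P (nat_lit 0)) (P (nat_lit 7731991111936)))) (T.h (P (nat_lit 0)) (M (nat_lit 2171138809055))))))) (T.h (T.h (T.h (P (nat_lit 0)) (T.h (P (nat_lit 22020359117771091476480)) (T.h (P (nat_lit 0)) (M (nat_lit 644596779991039)))))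 (T.h (P (nat_lit 0)) (T.h (T.h (P (nat_lit 0)) (P (nat_lit 38653626529546240))) (P (nat_lit 0))))) (T.h (T.h (P (nat_lit 0)) (T.h (T.h (M (nat_lit 154584634236227026943)) (T.h (P (nat_lit 0)) (P (nat_lit 19291176429520)))) (T.h (P (nat_lit 0)) (P (nat_lit 19834863972112))))) (T.h (T.h (T.h (P (nat_lit 0)) (M (nat_lit 121640918615326719))) (P (nat_lit 0))) (T.h (T.h (P (nat_lit 0)) (M (nat_lit 335941989346463))) (P (nat_lit 0)))))))), (T.h (T.h (T.h (M (nat_lit 4053299408398625828304171565055)) (T.h (P (nat_lit 0)) (T.h (P (nat_lit 37067833921382269212164096)) (T.h (P (nat_lit 0)) (T.h (M (nat_lit 26991685552134160383)) (T.h (P (nat_lit 0)) (M (nat_lit 1696780565695)))))))) (T.h (P (nat_lit 0)) (T.h (T.h (P (nat_lit 37067833921382269212164096)) (T.h (P (nat_lit 0)) (T.h (P (nat_lit 1942421519468593152)) (T.h (P (nat_lit 0)) (M (nat_lit 72406491590655)))))) (T.h (P (nat_lit 0)) (T.h (T.h (M (nat_lit 26991685552134160383)) (T.h (P (nat_lit 0)) (M (nat_lit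 72406491590655)))) (T.h (P (nat_lit 0)) (M (nat_lit 1696780565695)))))))) (T.h (T.h (P (nat_lit 0)) (T.h (T.h (P (nat_lit 0)) (T.h (P (nat_lit 209353643504278819569664)) (T.h (P (nat_lit 0)) (P (nat_lit 71074067616169984))))) (T.h (P (nat_lit 0)) (T.h (T.h (P (nat_lit 0)) (P (nat_lit 71074067616169984))) (P (nat_lit 0)))))) (T.h (T.h (T.h (M (nat_lit 53056676337520515854893055)) (T.h (P (nat_lit 0)) (T.h (P (nat_lit 155293772802848456704)) (T.h (P (nat_lit 0)) (M (nat_lit 142366674810751)))))) (T.h (P (nat_lit 0)) (T.h (T.h (P (nat_lit 155293772802848456704)) (T.h (P (nat_lit 0)) (M (nat_lit 69316201926783)))) (T.h (P (nat_lit 0)) (M (nat_lit 142366674810751)))))) (T.h (T.h (P (nat_lit 0)) (T.h (T.h (P (nat_lit 0)) (P (nat_lit 549401801988898816))) (P (nat_lit 0)))) (T.h (T.h (T.h (P (nat_lit 397972496668277342208)) (T.h (P (nat_lit 0)) (P (nat_lit 115538776660864)))) (T.h (P (nat_lit 0)) (P (nat_lit 115538776660864)))) (T.h (P (nat_lit 0)) (P (nat_lit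 7636622023424)))))))), (T.h (T.h (T.h (P (nat_lit 0)) (T.h (M (nat_lit 19749972867985824880883924991)) (T.h (P (nat_lit 0)) (T.h (M (nat_lit 3964513970473056337919)) (T.h (P (nat_lit 0)) (P (nat_lit 22758469681364992))))))) (T.h (P (nat_lit 0)) (T.h (T.h (P (nat_lit 0)) (T.h (M (nat_lit 48149716623839597690879)) (T.h (P (nat_lit 0)) (M (nat_lit 65492402368675839))))) (T.h (P (nat_lit 0)) (T.h (T.h (P (nat_lit 0)) (M (nat_lit 90597181508173823))) (P (nat_lit 0))))))) (T.h (T.h (P (nat_lit 0)) (T.h (T.h (P (nat_lit 125077768936907594421764096)) (T.h (P (nat_lit 0)) (T.h (P (nat_lit 320132666256611344384)) (T.h (P (nat_lit 0)) (M (nat_lit 212902374284207)))))) (T.h (P (nat_lit 0)) (T.h (T.h (M (nat_lit 278499119748561764351)) (T.h (P (nat_lit 0)) (P (nat_lit 135400654107216)))) (T.h (P (nat_lit 0)) (P (nat_lit 6090557697360))))))) (T.h (T.h (T.h (P (nat_lit 0)) (T.h (P (nat_lit 85813189506337280622592)) (T.h (P (nat_lit 0)) (M (nat_lit 771701867331026943)))))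 (T.h (P (nat_lit 0)) (T.h (T.h (P (nat_lit 0)) (M (nat_lit 206162730796777471))) (P (nat_lit 0))))) (T.h (T.h (P (nat_lit 0)) (T.h (T.h (M (nat_lit 345759542040470749183)) (T.h (P (nat_lit 0)) (P (nat_lit 480696106885200)))) (T.h (P (nat_lit 0)) (M (nat_lit 40308873541055))))) (T.h (T.h (T.h (P (nat_lit 0)) (P (nat_lit 99857125569953792))) (P (nat_lit 0))) (T.h (T.h (P (nat_lit 0)) (P (nat_lit 88368910367184))) (P (nat_lit 0)))))))), (T.h (T.h (T.h (M (nat_lit 6956814252741079948443380613119)) (T.h (P (nat_lit 0)) (T.h (M (nat_lit 12512308161857980632924159)) (T.h (P (nat_lit 0)) (M (nat_lit 31284549361191616511)))))) (T.h (P (nat_lit 0)) (T.h (T.h (M (nat_lit 9834762153925330696404991)) (T.h (P (nat_lit 0)) (M (nat_lit 89162961353009266687)))) (T.h (P (nat_lit 0)) (P (nat_lit 907467354663813120)))))) (T.h (T.h (P (nat_lit 0)) (T.h (T.h (P (nat_lit 0)) (T.h (P (nat_lit 245888729080067128295424)) (T.h (P (nat_lit 0)) (M (nat_lit 207377764562108415)))))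 (T.h (P (nat_lit 0)) (T.h (T.h (P (nat_lit 0)) (M (nat_lit 200925852248375295))) (P (nat_lit 0)))))) (T.h (T.h (T.h (M (nat_lit 7835852522007655234928639)) (T.h (P (nat_lit 0)) (M (nat_lit 696574428408140791807)))) (T.h (P (nat_lit 0)) (P (nat_lit 83243563760396271616)))) (T.h (T.h (P (nat_lit 0)) (T.h (T.h (P (nat_lit 0)) (M (nat_lit 281155397963546623))) (P (nat_lit 0)))) (M (nat_lit 190603457277588406271)))))), (P (nat_lit 0)), (P (nat_lit 0)), (T.h (T.h (P (nat_lit 0)) (T.h (T.h (P (nat_lit 0)) (T.h (M (nat_lit 36565551147893332237090815)) (T.h (P (nat_lit 0)) (T.h (P (nat_lit 40838291985006592000)) (T.h (P (nat_lit 0)) (M (nat_lit 2955205671167))))))) (T.h (P (nat_lit 0)) (T.h (T.h (P (nat_lit 0)) (T.h (M (nat_lit 22323664257476984831)) (T.h (P (nat_lit 0)) (M (nat_lit 4242820383295))))) (T.h (P (nat_lit 0)) (T.h (T.h (P (nat_lit 0)) (P (nat_lit 24139558673280))) (P (nat_lit 0)))))))) (T.h (T.h (T.h (P (nat_lit 7964465409808473183024578560))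 (T.h (P (nat_lit 0)) (T.h (M (nat_lit 23922005058509963526143)) (T.h (P (nat_lit 0)) (P (nat_lit 19433905954488320)))))) (T.h (P (nat_lit 0)) (T.h (T.h (M (nat_lit 135355189748246979280895)) (T.h (P (nat_lit 0)) (P (nat_lit 76855338413654016)))) (T.h (P (nat_lit 0)) (M (nat_lit 11688336278388735)))))) (T.h (T.h (P (nat_lit 0)) (T.h (T.h (P (nat_lit 0)) (T.h (M (nat_lit 136602560658321440767)) (T.h (P (nat_lit 0)) (P (nat_lit 9075415495296))))) (T.h (P (nat_lit 0)) (T.h (T.h (P (nat_lit 0)) (M (nat_lit 66324274011007))) (P (nat_lit 0)))))) (T.h (T.h (T.h (M (nat_lit 7119774854517733982207)) (T.h (P (nat_lit 0)) (P (nat_lit 35586079954829312)))) (T.h (P (nat_lit 0)) (M (nat_lit 285802558304780287)))) (T.h (T.h (P (nat_lit 0)) (T.h (T.h (P (nat_lit 0)) (M (nat_lit 206420040118655))) (P (nat_lit 0)))) (M (nat_lit 148082487392174079)))))))]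
def lQp_33 : List (T ℤ) := [(T.h (T.h (P (nat_lit 0)) (T.h (T.h (M (nat_lit 19749972867985824880883924991)) (T.h (P (nat_lit 0)) (T.h (M (nat_lit 48149716623839597690879)) (T.h (P (nat_lit 0)) (M (nat_lit 90597181508173823)))))) (T.h (P (nat_lit 0)) (T.h (T.h (M (nat_lit 3964513970473056337919)) (T.h (P (nat_lit 0)) (M (nat_lit 65492402368675839)))) (T.h (P (nat_lit 0)) (P (nat_lit 22758469681364992))))))) (T.h (T.h (T.h (P (nat_lit 0)) (T.h (P (nat_lit 125077768936907594421764096)) (T.h (P (nat_lit 0)) (T.h (M (nat_lit 278499119748561764351)) (T.h (P (nat_lit 0)) (P (nat_lit 6090557697360))))))) (T.h (P (nat_lit 0)) (T.h (T.h (P (nat_lit 0)) (T.h (P (nat_lit 320132666256611344384)) (T.h (P (nat_lit 0)) (P (nat_lit 135400654107216))))) (T.h (P (nat_lit 0)) (T.h (T.h (P (nat_lit 0)) (M (nat_lit 212902374284207))) (P (nat_lit 0))))))) (T.h (T.h (P (nat_lit 0)) (T.h (T.h (P (nat_lit 85813189506337280622592)) (T.h (P (nat_lit 0)) (M (nat_lit 206162730796777471))))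 (T.h (P (nat_lit 0)) (M (nat_lit 771701867331026943))))) (T.h (T.h (T.h (P (nat_lit 0)) (T.h (M (nat_lit 345759542040470749183)) (T.h (P (nat_lit 0)) (M (nat_lit 40308873541055))))) (T.h (P (nat_lit 0)) (T.h (T.h (P (nat_lit 0)) (P (nat_lit 480696106885200))) (P (nat_lit 0))))) (T.h (T.h (P (nat_lit 0)) (P (nat_lit 99857125569953792))) (T.h (T.h (T.h (P (nat_lit 0)) (P (nat_lit 88368910367184))) (P (nat_lit 0))) (P (nat_lit 0)))))))), (T.h (T.h (P (nat_lit 0)) (T.h (T.h (P (nat_lit 0)) (T.h (M (nat_lit 39688469449529713359847423)) (T.h (P (nat_lit 0)) (P (nat_lit 59325890128280289280))))) (T.h (P (nat_lit 0)) (T.h (T.h (P (nat_lit 0)) (P (nat_lit 59325890128280289280))) (P (nat_lit 0)))))) (T.h (T.h (T.h (P (nat_lit 4579424526163621342888329216)) (T.h (P (nat_lit 0)) (T.h (M (nat_lit 248937398817884102197247)) (T.h (P (nat_lit 0)) (M (nat_lit 19598115853172735)))))) (T.h (P (nat_lit 0)) (T.h (T.h (M (nat_lit 248937398817884102197247)) (T.h (P (nat_lit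 0)) (P (nat_lit 248589297153277952)))) (T.h (P (nat_lit 0)) (M (nat_lit 19598115853172735)))))) (T.h (T.h (P (nat_lit 0)) (T.h (T.h (P (nat_lit 0)) (M (nat_lit 34670609189121818623))) (P (nat_lit 0)))) (T.h (T.h (T.h (P (nat_lit 85697005781413963759616)) (T.h (P (nat_lit 0)) (M (nat_lit 45596862977114111)))) (T.h (P (nat_lit 0)) (M (nat_lit 45596862977114111)))) (T.h (P (nat_lit 0)) (P (nat_lit 497699913998991360))))))), (P (nat_lit 0)), (P (nat_lit 0)), (T.h (T.h (T.h (P (nat_lit 0)) (T.h (M (nat_lit 5651764205519451235941351423)) (T.h (P (nat_lit 0)) (T.h (P (nat_lit 2150413618614238183424)) (T.h (P (nat_lit 0)) (P (nat_lit 2760467853754368))))))) (T.h (P (nat_lit 0)) (T.h (T.h (P (nat_lit 0)) (T.h (P (nat_lit 5401474684980102692864)) (T.h (P (nat_lit 0)) (M (nat_lit 16334309095342079))))) (T.h (P (nat_lit 0)) (T.h (T.h (P (nat_lit 0)) (P (nat_lit 31510804217823232))) (P (nat_lit 0))))))) (T.h (T.h (P (nat_lit 0)) (T.h (T.h (P (nat_lit 3925105225115737463455744))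 (T.h (P (nat_lit 0)) (T.h (P (nat_lit 29510078247831863296)) (T.h (P (nat_lit 0)) (M (nat_lit 235517594865407)))))) (T.h (P (nat_lit 0)) (T.h (T.h (M (nat_lit 70756264808229634047)) (T.h (P (nat_lit 0)) (P (nat_lit 157454749658304)))) (T.h (P (nat_lit 0)) (M (nat_lit 153484319177423))))))) (T.h (T.h (T.h (P (nat_lit 0)) (T.h (M (nat_lit 12670811359082753032191)) (T.h (P (nat_lit 0)) (M (nat_lit 39058420179075071))))) (T.h (P (nat_lit 0)) (T.h (T.h (P (nat_lit 0)) (M (nat_lit 208198211023503359))) (P (nat_lit 0))))) (T.h (T.h (P (nat_lit 0)) (T.h (T.h (P (nat_lit 339200111039458836480)) (T.h (P (nat_lit 0)) (M (nat_lit 111663856591199)))) (T.h (P (nat_lit 0)) (P (nat_lit 356919587573616))))) (T.h (T.h (T.h (P (nat_lit 0)) (P (nat_lit 201008201338093568))) (P (nat_lit 0))) (T.h (T.h (P (nat_lit 0)) (P (nat_lit 418099953986208))) (P (nat_lit 0)))))))), (T.h (T.h (T.h (M (nat_lit 6956814252741079948443380613119)) (T.h (P (nat_lit 0)) (T.h (M (nat_lit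 9834762153925330696404991)) (T.h (P (nat_lit 0)) (P (nat_lit 907467354663813120)))))) (T.h (P (nat_lit 0)) (T.h (T.h (M (nat_lit 12512308161857980632924159)) (T.h (P (nat_lit 0)) (M (nat_lit 89162961353009266687)))) (T.h (P (nat_lit 0)) (M (nat_lit 31284549361191616511)))))) (T.h (T.h (P (nat_lit 0)) (T.h (T.h (P (nat_lit 0)) (T.h (P (nat_lit 245888729080067128295424)) (T.h (P (nat_lit 0)) (M (nat_lit 200925852248375295))))) (T.h (P (nat_lit 0)) (T.h (T.h (P (nat_lit 0)) (M (nat_lit 207377764562108415))) (P (nat_lit 0)))))) (T.h (T.h (T.h (M (nat_lit 7835852522007655234928639)) (T.h (P (nat_lit 0)) (P (nat_lit 83243563760396271616)))) (T.h (P (nat_lit 0)) (M (nat_lit 696574428408140791807)))) (T.h (T.h (P (nat_lit 0)) (T.h (T.h (P (nat_lit 0)) (M (nat_lit 281155397963546623))) (P (nat_lit 0)))) (M (nat_lit 190603457277588406271)))))), (P (nat_lit 0)), (P (nat_lit 0))]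
def lQp_34 : List (T ℤ) := [(T.h (T.h (P (nat_lit 0)) (T.h (T.h (P (nat_lit 0)) (T.h (M (nat_lit 32368617483080180722302975)) (T.h (P (nat_lit 0)) (P (nat_lit 30422275876538286080))))) (T.h (P (nat_lit 0)) (T.h (T.h (P (nat_lit 0)) (M (nat_lit 70812932436679196671))) (P (nat_lit 0)))))) (T.h (T.h (T.h (M (nat_lit 4622686116289818125836222463)) (T.h (P (nat_lit 0)) (T.h (M (nat_lit 5038203398620824207359)) (T.h (P (nat_lit 0)) (M (nat_lit 30035550910087167)))))) (T.h (P (nat_lit 0)) (T.h (T.h (M (nat_lit 210632273554275901112319)) (T.h (P (nat_lit 0)) (P (nat_lit 257875223365943296)))) (T.h (P (nat_lit 0)) (M (nat_lit 170806740523974655)))))) (T.h (T.h (P (nat_lit 0)) (T.h (T.h (P (nat_lit 0)) (M (nat_lit 210714216620942688255))) (P (nat_lit 0)))) (T.h (T.h (T.h (M (nat_lit 67326681209505262338047)) (T.h (P (nat_lit 0)) (P (nat_lit 12566762318135296)))) (T.h (P (nat_lit 0)) (P (nat_lit 251305719263821824)))) (T.h (P (nat_lit 0)) (M (nat_lit 73889396061962239))))))),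 (P (nat_lit 0)), (P (nat_lit 0)), (P (nat_lit 0)), (P (nat_lit 0)), (P (nat_lit 0)), (T.h (T.h (T.h (M (nat_lit 7433080326342683754766599716863)) (T.h (P (nat_lit 0)) (T.h (P (nat_lit 3778435464726847852380160)) (T.h (P (nat_lit 0)) (T.h (P (nat_lit 775294767817818112)) (T.h (P (nat_lit 0)) (M (nat_lit 394146612063)))))))) (T.h (P (nat_lit 0)) (T.h (T.h (P (nat_lit 3778435464726847852380160)) (T.h (P (nat_lit 0)) (T.h (M (nat_lit 2350797395471630335)) (T.h (P (nat_lit 0)) (M (nat_lit 1928525502543)))))) (T.h (P (nat_lit 0)) (T.h (T.h (P (nat_lit 775294767817818112)) (T.h (P (nat_lit 0)) (M (nat_lit 1928525502543)))) (T.h (P (nat_lit 0)) (M (nat_lit 394146612063)))))))) (T.h (T.h (P (nat_lit 0)) (T.h (T.h (P (nat_lit 0)) (T.h (M (nat_lit 10073615372514213494783)) (T.h (P (nat_lit 0)) (P (nat_lit 11749017991118848))))) (T.h (P (nat_lit 0)) (T.h (T.h (P (nat_lit 0)) (P (nat_lit 11749017991118848))) (P (nat_lit 0)))))) (T.h (T.h (T.h (M (nat_lit 10067385610448579600580607))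 (T.h (P (nat_lit 0)) (T.h (M (nat_lit 26327728948397473791)) (T.h (P (nat_lit 0)) (M (nat_lit 12025278876719)))))) (T.h (P (nat_lit 0)) (T.h (T.h (M (nat_lit 26327728948397473791)) (T.h (P (nat_lit 0)) (M (nat_lit 46369747134399)))) (T.h (P (nat_lit 0)) (M (nat_lit 12025278876719)))))) (T.h (T.h (P (nat_lit 0)) (T.h (T.h (P (nat_lit 0)) (M (nat_lit 153757479444742143))) (P (nat_lit 0)))) (T.h (T.h (T.h (P (nat_lit 4366090264486346752)) (T.h (P (nat_lit 0)) (M (nat_lit 6531616341807)))) (T.h (P (nat_lit 0)) (M (nat_lit 6531616341807)))) (T.h (P (nat_lit 0)) (P (nat_lit 10239292669440)))))))), (T.h (T.h (T.h (P (nat_lit 0)) (T.h (M (nat_lit 6839413366052023076718116863)) (T.h (P (nat_lit 0)) (T.h (M (nat_lit 12737252216992320978943)) (T.h (P (nat_lit 0)) (P (nat_lit 17277707598233600))))))) (T.h (P (nat_lit 0)) (T.h (T.h (P (nat_lit 0)) (T.h (P (nat_lit 84204815432911159296)) (T.h (P (nat_lit 0)) (P (nat_lit 10516355926327296))))) (T.h (P (nat_lit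 0)) (T.h (T.h (P (nat_lit 0)) (M (nat_lit 24592959480430591))) (P (nat_lit 0))))))) (T.h (T.h (P (nat_lit 0)) (T.h (T.h (P (nat_lit 5168368424837279068979200)) (T.h (P (nat_lit 0)) (T.h (M (nat_lit 8926032916207632383)) (T.h (P (nat_lit 0)) (M (nat_lit 7728486802623)))))) (T.h (P (nat_lit 0)) (T.h (T.h (M (nat_lit 23742450305689714687)) (T.h (P (nat_lit 0)) (M (nat_lit 24569655262335)))) (T.h (P (nat_lit 0)) (P (nat_lit 2784107884416))))))) (T.h (T.h (T.h (P (nat_lit 0)) (T.h (M (nat_lit 24888676228541148299263)) (T.h (P (nat_lit 0)) (M (nat_lit 10511957737865215))))) (T.h (P (nat_lit 0)) (T.h (T.h (P (nat_lit 0)) (P (nat_lit 103386342155976704))) (P (nat_lit 0))))) (T.h (T.h (P (nat_lit 0)) (T.h (T.h (M (nat_lit 157094665944054104063)) (T.h (P (nat_lit 0)) (M (nat_lit 41957170643903)))) (T.h (P (nat_lit 0)) (P (nat_lit 17796002755584))))) (T.h (T.h (T.h (P (nat_lit 0)) (M (nat_lit 395879561561014271))) (P (nat_lit 0))) (T.h (T.h (P (nat_lit 0))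 (M (nat_lit 131752181722495))) (P (nat_lit 0))))))))]
def lQp_35 : List (T ℤ) := [(T.h (T.h (T.h (M (nat_lit 6550205974850090925245048291327)) (T.h (P (nat_lit 0)) (T.h (P (nat_lit 24644433191013854713217024)) (T.h (P (nat_lit 0)) (T.h (P (nat_lit 12995145507583033344)) (T.h (P (nat_lit 0)) (M (nat_lit 12383001643247)))))))) (T.h (P (nat_lit 0)) (T.h (T.h (P (nat_lit 914669431254911916441600)) (T.h (P (nat_lit 0)) (T.h (P (nat_lit 16663814109501849600)) (T.h (P (nat_lit 0)) (P (nat_lit 3747522647088)))))) (T.h (P (nat_lit 0)) (T.h (T.h (M (nat_lit 10956550989288570879)) (T.h (P (nat_lit 0)) (M (nat_lit 40758030476063)))) (T.h (P (nat_lit 0)) (P (nat_lit 2262664312560)))))))) (T.h (T.h (P (nat_lit 0)) (T.h (T.h (P (nat_lit 0)) (T.h (P (nat_lit 9561867817973534687232)) (T.h (P (nat_lit 0)) (M (nat_lit 36175207789887487))))) (T.h (P (nat_lit 0)) (T.h (T.h (P (nat_lit 0)) (M (nat_lit 2980120280563711))) (P (nat_lit 0)))))) (T.h (T.h (T.h (M (nat_lit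 10820930293763412938719231)) (T.h (P (nat_lit 0)) (T.h (P (nat_lit 247730919216223617024)) (T.h (P (nat_lit 0)) (M (nat_lit 29246983189487)))))) (T.h (P (nat_lit 0)) (T.h (T.h (P (nat_lit 32321156511269126144)) (T.h (P (nat_lit 0)) (M (nat_lit 154284181097903)))) (T.h (P (nat_lit 0)) (M (nat_lit 40633845785423)))))) (T.h (T.h (P (nat_lit 0)) (T.h (T.h (P (nat_lit 0)) (M (nat_lit 202715487664177151))) (P (nat_lit 0)))) (T.h (T.h (T.h (P (nat_lit 10167124700157706240)) (T.h (P (nat_lit 0)) (P (nat_lit 135693679464000)))) (T.h (P (nat_lit 0)) (M (nat_lit 154054818207791)))) (T.h (P (nat_lit 0)) (M (nat_lit 1900902457007)))))))), (T.h (T.h (T.h (P (nat_lit 0)) (T.h (P (nat_lit 19010715559394962457480921088)) (T.h (P (nat_lit 0)) (T.h (M (nat_lit 17167194726438533070847)) (T.h (P (nat_lit 0)) (M (nat_lit 51833134429732863))))))) (T.h (P (nat_lit 0)) (T.h (T.h (P (nat_lit 0)) (T.h (P (nat_lit 4534848523537343315968)) (T.h (P (nat_lit 0)) (P (nat_lit 39240781425016832)))))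 (T.h (P (nat_lit 0)) (T.h (T.h (P (nat_lit 0)) (M (nat_lit 72142769679368191))) (P (nat_lit 0))))))) (T.h (T.h (P (nat_lit 0)) (T.h (T.h (P (nat_lit 11796831539250381828653056)) (T.h (P (nat_lit 0)) (M (nat_lit 27730665333827043327)))) (T.h (P (nat_lit 0)) (M (nat_lit 11447994264663883775))))) (T.h (T.h (T.h (P (nat_lit 0)) (T.h (P (nat_lit 337256168840861870718976)) (T.h (P (nat_lit 0)) (P (nat_lit 217035851084890112))))) (T.h (P (nat_lit 0)) (T.h (T.h (P (nat_lit 0)) (M (nat_lit 146445637852594175))) (P (nat_lit 0))))) (T.h (T.h (P (nat_lit 0)) (P (nat_lit 201848382004607844352))) (T.h (T.h (T.h (P (nat_lit 0)) (P (nat_lit 537460537767034880))) (P (nat_lit 0))) (P (nat_lit 0))))))), (P (nat_lit 0)), (P (nat_lit 0)), (T.h (T.h (P (nat_lit 0)) (T.h (T.h (M (nat_lit 6839413366052023076718116863)) (T.h (P (nat_lit 0)) (T.h (P (nat_lit 84204815432911159296)) (T.h (P (nat_lit 0)) (M (nat_lit 24592959480430591)))))) (T.h (P (nat_lit 0)) (T.h (T.h (M (nat_lit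 12737252216992320978943)) (T.h (P (nat_lit 0)) (P (nat_lit 10516355926327296)))) (T.h (P (nat_lit 0)) (P (nat_lit 17277707598233600))))))) (T.h (T.h (T.h (P (nat_lit 0)) (T.h (P (nat_lit 5168368424837279068979200)) (T.h (P (nat_lit 0)) (T.h (M (nat_lit 23742450305689714687)) (T.h (P (nat_lit 0)) (P (nat_lit 2784107884416))))))) (T.h (P (nat_lit 0)) (T.h (T.h (P (nat_lit 0)) (T.h (M (nat_lit 8926032916207632383)) (T.h (P (nat_lit 0)) (M (nat_lit 24569655262335))))) (T.h (P (nat_lit 0)) (T.h (T.h (P (nat_lit 0)) (M (nat_lit 7728486802623))) (P (nat_lit 0))))))) (T.h (T.h (P (nat_lit 0)) (T.h (T.h (M (nat_lit 24888676228541148299263)) (T.h (P (nat_lit 0)) (P (nat_lit 103386342155976704)))) (T.h (P (nat_lit 0)) (M (nat_lit 10511957737865215))))) (T.h (T.h (T.h (P (nat_lit 0)) (T.h (M (nat_lit 157094665944054104063)) (T.h (P (nat_lit 0)) (P (nat_lit 17796002755584))))) (T.h (P (nat_lit 0)) (T.h (T.h (P (nat_lit 0)) (M (nat_lit 41957170643903))) (P (nat_lit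 0))))) (T.h (T.h (P (nat_lit 0)) (M (nat_lit 395879561561014271))) (T.h (T.h (T.h (P (nat_lit 0)) (M (nat_lit 131752181722495))) (P (nat_lit 0))) (P (nat_lit 0)))))))), (T.h (T.h (P (nat_lit 0)) (T.h (T.h (P (nat_lit 0)) (T.h (P (nat_lit 25336504363163629171769344)) (T.h (P (nat_lit 0)) (T.h (M (nat_lit 26430034141272604671)) (T.h (P (nat_lit 0)) (P (nat_lit 25603466475168))))))) (T.h (P (nat_lit 0)) (T.h (T.h (P (nat_lit 0)) (T.h (M (nat_lit 26430034141272604671)) (T.h (P (nat_lit 0)) (M (nat_lit 85814251092287))))) (T.h (P (nat_lit 0)) (T.h (T.h (P (nat_lit 0)) (P (nat_lit 25603466475168))) (P (nat_lit 0)))))))) (T.h (T.h (T.h (M (nat_lit 36904605446670005767472414719)) (T.h (P (nat_lit 0)) (T.h (P (nat_lit 44894562570463755632640)) (T.h (P (nat_lit 0)) (M (nat_lit 62873358504771583)))))) (T.h (P (nat_lit 0)) (T.h (T.h (P (nat_lit 44894562570463755632640)) (T.h (P (nat_lit 0)) (P (nat_lit 54211224123867136)))) (T.h (P (nat_lit 0)) (M (nat_lit 62873358504771583))))))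 (T.h (T.h (P (nat_lit 0)) (T.h (T.h (P (nat_lit 0)) (T.h (P (nat_lit 485318653575390298112)) (T.h (P (nat_lit 0)) (P (nat_lit 71961381107280))))) (T.h (P (nat_lit 0)) (T.h (T.h (P (nat_lit 0)) (P (nat_lit 71961381107280))) (P (nat_lit 0)))))) (T.h (T.h (T.h (P (nat_lit 146104923396987861073920)) (T.h (P (nat_lit 0)) (P (nat_lit 257858353791778816)))) (T.h (P (nat_lit 0)) (P (nat_lit 257858353791778816)))) (T.h (T.h (P (nat_lit 0)) (T.h (T.h (P (nat_lit 0)) (P (nat_lit 354926245962528))) (P (nat_lit 0)))) (P (nat_lit 54833314301149184))))))), (T.h (T.h (P (nat_lit 0)) (T.h (T.h (P (nat_lit 2802544089202721518058995712)) (T.h (P (nat_lit 0)) (T.h (P (nat_lit 11334887043216479092736)) (T.h (P (nat_lit 0)) (M (nat_lit 17610523673985023)))))) (T.h (P (nat_lit 0)) (T.h (T.h (M (nat_lit 11706436078456893603839)) (T.h (P (nat_lit 0)) (M (nat_lit 64870222751039487)))) (T.h (P (nat_lit 0)) (P (nat_lit 10301442286452736))))))) (T.h (T.h (T.h (P (nat_lit 0))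 (T.h (M (nat_lit 15532778243652765473570815)) (T.h (P (nat_lit 0)) (M (nat_lit 372027013451330093055))))) (T.h (P (nat_lit 0)) (T.h (T.h (P (nat_lit 0)) (P (nat_lit 132783142035194380288))) (P (nat_lit 0))))) (T.h (T.h (P (nat_lit 0)) (T.h (T.h (M (nat_lit 219226733783414827122687)) (T.h (P (nat_lit 0)) (P (nat_lit 307064400049864704)))) (T.h (P (nat_lit 0)) (M (nat_lit 48128141689192447))))) (T.h (T.h (T.h (P (nat_lit 0)) (P (nat_lit 292461774379792990208))) (P (nat_lit 0))) (T.h (T.h (P (nat_lit 0)) (P (nat_lit 111197562056900608))) (P (nat_lit 0))))))), (P (nat_lit 0))]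
def lQp_36 : List (T ℤ) := [(P (nat_lit 0)), (T.h (T.h (T.h (M (nat_lit 6550205974850090925245048291327)) (T.h (P (nat_lit 0)) (T.h (P (nat_lit 914669431254911916441600)) (T.h (P (nat_lit 0)) (T.h (M (nat_lit 10956550989288570879)) (T.h (P (nat_lit 0)) (P (nat_lit 2262664312560)))))))) (T.h (P (nat_lit 0)) (T.h (T.h (P (nat_lit 24644433191013854713217024)) (T.h (P (nat_lit 0)) (T.h (P (nat_lit 16663814109501849600)) (T.h (P (nat_lit 0)) (M (nat_lit 40758030476063)))))) (T.h (P (nat_lit 0)) (T.h (T.h (P (nat_lit 12995145507583033344)) (T.h (P (nat_lit 0)) (P (nat_lit 3747522647088)))) (T.h (P (nat_lit 0)) (M (nat_lit 12383001643247)))))))) (T.h (T.h (P (nat_lit 0)) (T.h (T.h (P (nat_lit 0)) (T.h (P (nat_lit 9561867817973534687232)) (T.h (P (nat_lit 0)) (M (nat_lit 2980120280563711))))) (T.h (P (nat_lit 0)) (T.h (T.h (P (nat_lit 0)) (M (nat_lit 36175207789887487))) (P (nat_lit 0)))))) (T.h (T.h (T.h (M (nat_lit 10820930293763412938719231)) (T.h (P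 (nat_lit 0)) (T.h (P (nat_lit 32321156511269126144)) (T.h (P (nat_lit 0)) (M (nat_lit 40633845785423)))))) (T.h (P (nat_lit 0)) (T.h (T.h (P (nat_lit 247730919216223617024)) (T.h (P (nat_lit 0)) (M (nat_lit 154284181097903)))) (T.h (P (nat_lit 0)) (M (nat_lit 29246983189487)))))) (T.h (T.h (P (nat_lit 0)) (T.h (T.h (P (nat_lit 0)) (M (nat_lit 202715487664177151))) (P (nat_lit 0)))) (T.h (T.h (T.h (P (nat_lit 10167124700157706240)) (T.h (P (nat_lit 0)) (M (nat_lit 154054818207791)))) (T.h (P (nat_lit 0)) (P (nat_lit 135693679464000)))) (T.h (P (nat_lit 0)) (M (nat_lit 1900902457007)))))))), (T.h (T.h (T.h (P (nat_lit 0)) (T.h (P (nat_lit 2802544089202721518058995712)) (T.h (P (nat_lit 0)) (T.h (M (nat_lit 11706436078456893603839)) (T.h (P (nat_lit 0)) (P (nat_lit 10301442286452736))))))) (T.h (P (nat_lit 0)) (T.h (T.h (P (nat_lit 0)) (T.h (P (nat_lit 11334887043216479092736)) (T.h (P (nat_lit 0)) (M (nat_lit 64870222751039487))))) (T.h (P (nat_lit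 0)) (T.h (T.h (P (nat_lit 0)) (M (nat_lit 17610523673985023))) (P (nat_lit 0))))))) (T.h (T.h (P (nat_lit 0)) (T.h (T.h (M (nat_lit 15532778243652765473570815)) (T.h (P (nat_lit 0)) (P (nat_lit 132783142035194380288)))) (T.h (P (nat_lit 0)) (M (nat_lit 372027013451330093055))))) (T.h (T.h (T.h (P (nat_lit 0)) (T.h (M (nat_lit 219226733783414827122687)) (T.h (P (nat_lit 0)) (M (nat_lit 48128141689192447))))) (T.h (P (nat_lit 0)) (T.h (T.h (P (nat_lit 0)) (P (nat_lit 307064400049864704))) (P (nat_lit 0))))) (T.h (T.h (P (nat_lit 0)) (P (nat_lit 292461774379792990208))) (T.h (T.h (T.h (P (nat_lit 0)) (P (nat_lit 111197562056900608))) (P (nat_lit 0))) (P (nat_lit 0))))))), (P (nat_lit 0)), (P (nat_lit 0)), (T.h (T.h (P (nat_lit 0)) (T.h (T.h (P (nat_lit 19010715559394962457480921088)) (T.h (P (nat_lit 0)) (T.h (P (nat_lit 4534848523537343315968)) (T.h (P (nat_lit 0)) (M (nat_lit 72142769679368191)))))) (T.h (P (nat_lit 0)) (T.h (T.h (M (nat_lit 17167194726438533070847))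 (T.h (P (nat_lit 0)) (P (nat_lit 39240781425016832)))) (T.h (P (nat_lit 0)) (M (nat_lit 51833134429732863))))))) (T.h (T.h (T.h (P (nat_lit 0)) (T.h (P (nat_lit 11796831539250381828653056)) (T.h (P (nat_lit 0)) (M (nat_lit 11447994264663883775))))) (T.h (P (nat_lit 0)) (T.h (T.h (P (nat_lit 0)) (M (nat_lit 27730665333827043327))) (P (nat_lit 0))))) (T.h (T.h (P (nat_lit 0)) (T.h (T.h (P (nat_lit 337256168840861870718976)) (T.h (P (nat_lit 0)) (M (nat_lit 146445637852594175)))) (T.h (P (nat_lit 0)) (P (nat_lit 217035851084890112))))) (T.h (T.h (T.h (P (nat_lit 0)) (P (nat_lit 201848382004607844352))) (P (nat_lit 0))) (T.h (T.h (P (nat_lit 0)) (P (nat_lit 537460537767034880))) (P (nat_lit 0))))))), (P (nat_lit 0)), (P (nat_lit 0))]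
def lQp_37 : List (T ℤ) := [(P (nat_lit 0)), (P (nat_lit 0)), (P (nat_lit 0)), (T.h (T.h (P (nat_lit 0)) (T.h (T.h (P (nat_lit 0)) (T.h (M (nat_lit 639228361562408211185663)) (T.h (P (nat_lit 0)) (T.h (P (nat_lit 3612582974958075904)) (T.h (P (nat_lit 0)) (M (nat_lit 1035188088447))))))) (T.h (P (nat_lit 0)) (T.h (T.h (P (nat_lit 0)) (T.h (P (nat_lit 3612582974958075904)) (T.h (P (nat_lit 0)) (M (nat_lit 96880908671))))) (T.h (P (nat_lit 0)) (T.h (T.h (P (nat_lit 0)) (M (nat_lit 1035188088447))) (P (nat_lit 0)))))))) (T.h (T.h (T.h (M (nat_lit 3147512656405071884711886847)) (T.h (P (nat_lit 0)) (T.h (P (nat_lit 275758408499906740224)) (T.h (P (nat_lit 0)) (M (nat_lit 6796418047999999)))))) (T.h (P (nat_lit 0)) (T.h (T.h (P (nat_lit 275758408499906740224)) (T.h (P (nat_lit 0)) (M (nat_lit 24836961151156223)))) (T.h (P (nat_lit 0)) (M (nat_lit 6796418047999999)))))) (T.h (T.h (P (nat_lit 0)) (T.h (T.h (P (nat_lit 0)) (T.h (M (nat_lit 4295856609243955199))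 (T.h (P (nat_lit 0)) (P (nat_lit 24592427548416))))) (T.h (P (nat_lit 0)) (T.h (T.h (P (nat_lit 0)) (P (nat_lit 24592427548416))) (P (nat_lit 0)))))) (T.h (T.h (T.h (M (nat_lit 13783003363915946000383)) (T.h (P (nat_lit 0)) (P (nat_lit 32178130169331712)))) (T.h (P (nat_lit 0)) (P (nat_lit 32178130169331712)))) (T.h (T.h (P (nat_lit 0)) (T.h (T.h (P (nat_lit 0)) (P (nat_lit 181262294860032))) (P (nat_lit 0)))) (P (nat_lit 83436595345620992))))))), (T.h (T.h (P (nat_lit 0)) (T.h (T.h (P (nat_lit 7229277941798989040011182080)) (T.h (P (nat_lit 0)) (T.h (M (nat_lit 5074626016790479634431)) (T.h (P (nat_lit 0)) (M (nat_lit 25150337114456063)))))) (T.h (P (nat_lit 0)) (T.h (T.h (M (nat_lit 1700234646761114697727)) (T.h (P (nat_lit 0)) (P (nat_lit 6140512668286976)))) (T.h (P (nat_lit 0)) (M (nat_lit 1766672385900543))))))) (T.h (T.h (T.h (P (nat_lit 0)) (T.h (P (nat_lit 2647328885556425852452864)) (T.h (P (nat_lit 0)) (T.h (M (nat_lit 14044839506763317247))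 (T.h (P (nat_lit 0)) (M (nat_lit 3743196082991))))))) (T.h (P (nat_lit 0)) (T.h (T.h (P (nat_lit 0)) (T.h (M (nat_lit 9959165120451969023)) (T.h (P (nat_lit 0)) (M (nat_lit 43491366017423))))) (T.h (P (nat_lit 0)) (T.h (T.h (P (nat_lit 0)) (P (nat_lit 17575024374576))) (P (nat_lit 0))))))) (T.h (T.h (P (nat_lit 0)) (T.h (T.h (P (nat_lit 55893712121856740294656)) (T.h (P (nat_lit 0)) (M (nat_lit 37873789833461759)))) (T.h (P (nat_lit 0)) (P (nat_lit 24900390032965632))))) (T.h (T.h (T.h (P (nat_lit 0)) (T.h (P (nat_lit 88326269022941216768)) (T.h (P (nat_lit 0)) (M (nat_lit 15746492039039))))) (T.h (P (nat_lit 0)) (T.h (T.h (P (nat_lit 0)) (M (nat_lit 157763501468927))) (P (nat_lit 0))))) (T.h (T.h (P (nat_lit 0)) (P (nat_lit 43907669705129984))) (T.h (T.h (T.h (P (nat_lit 0)) (P (nat_lit 310329193881600))) (P (nat_lit 0))) (P (nat_lit 0)))))))), (T.h (T.h (P (nat_lit 0)) (T.h (T.h (P (nat_lit 0)) (T.h (P (nat_lit 8121832179209592299847680)) (T.h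 (P (nat_lit 0)) (M (nat_lit 18589109809936596991))))) (T.h (P (nat_lit 0)) (T.h (T.h (P (nat_lit 0)) (P (nat_lit 6818117037345210368))) (P (nat_lit 0)))))) (T.h (T.h (T.h (M (nat_lit 5938840239767262457329876991)) (T.h (P (nat_lit 0)) (T.h (P (nat_lit 83505656668972851920896)) (T.h (P (nat_lit 0)) (M (nat_lit 17569552337108991)))))) (T.h (P (nat_lit 0)) (T.h (T.h (P (nat_lit 32448110580492473991168)) (T.h (P (nat_lit 0)) (M (nat_lit 99906550954229759)))) (T.h (P (nat_lit 0)) (M (nat_lit 14493620268662783)))))) (T.h (T.h (P (nat_lit 0)) (T.h (T.h (P (nat_lit 0)) (P (nat_lit 9408689513531703296))) (P (nat_lit 0)))) (T.h (T.h (T.h (P (nat_lit 15260972577348049174528)) (T.h (P (nat_lit 0)) (P (nat_lit 112761797231247360)))) (T.h (P (nat_lit 0)) (M (nat_lit 176124080196288511)))) (T.h (P (nat_lit 0)) (P (nat_lit 68021766630866944))))))), (P (nat_lit 0)), (P (nat_lit 0))]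
def lQp_38 : List (T ℤ) := [(T.h (T.h (T.h (P (nat_lit 0)) (T.h (P (nat_lit 7229277941798989040011182080)) (T.h (P (nat_lit 0)) (T.h (M (nat_lit 1700234646761114697727)) (T.h (P (nat_lit 0)) (M (nat_lit 1766672385900543))))))) (T.h (P (nat_lit 0)) (T.h (T.h (P (nat_lit 0)) (T.h (M (nat_lit 5074626016790479634431)) (T.h (P (nat_lit 0)) (P (nat_lit 6140512668286976))))) (T.h (P (nat_lit 0)) (T.h (T.h (P (nat_lit 0)) (M (nat_lit 25150337114456063))) (P (nat_lit 0))))))) (T.h (T.h (P (nat_lit 0)) (T.h (T.h (P (nat_lit 2647328885556425852452864)) (T.h (P (nat_lit 0)) (T.h (M (nat_lit 9959165120451969023)) (T.h (P (nat_lit 0)) (P (nat_lit 17575024374576)))))) (T.h (P (nat_lit 0)) (T.h (T.h (M (nat_lit 14044839506763317247)) (T.h (P (nat_lit 0)) (M (nat_lit 43491366017423)))) (T.h (P (nat_lit 0)) (M (nat_lit 3743196082991))))))) (T.h (T.h (T.h (P (nat_lit 0)) (T.h (P (nat_lit 55893712121856740294656)) (T.h (P (nat_lit 0)) (P (nat_lit 24900390032965632)))))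 (T.h (P (nat_lit 0)) (T.h (T.h (P (nat_lit 0)) (M (nat_lit 37873789833461759))) (P (nat_lit 0))))) (T.h (T.h (P (nat_lit 0)) (T.h (T.h (P (nat_lit 88326269022941216768)) (T.h (P (nat_lit 0)) (M (nat_lit 157763501468927)))) (T.h (P (nat_lit 0)) (M (nat_lit 15746492039039))))) (T.h (T.h (T.h (P (nat_lit 0)) (P (nat_lit 43907669705129984))) (P (nat_lit 0))) (T.h (T.h (P (nat_lit 0)) (P (nat_lit 310329193881600))) (P (nat_lit 0)))))))), (T.h (T.h (T.h (P (nat_lit 3388291302366962560366419116032)) (T.h (P (nat_lit 0)) (T.h (M (nat_lit 4983474547258667095293951)) (T.h (P (nat_lit 0)) (M (nat_lit 5571827366197460991)))))) (T.h (P (nat_lit 0)) (T.h (T.h (M (nat_lit 4983474547258667095293951)) (T.h (P (nat_lit 0)) (P (nat_lit 46072855600505552896)))) (T.h (P (nat_lit 0)) (M (nat_lit 5571827366197460991)))))) (T.h (T.h (P (nat_lit 0)) (T.h (T.h (P (nat_lit 0)) (T.h (M (nat_lit 130518322924367101558783)) (T.h (P (nat_lit 0)) (P (nat_lit 28954197942730752)))))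 (T.h (P (nat_lit 0)) (T.h (T.h (P (nat_lit 0)) (P (nat_lit 28954197942730752))) (P (nat_lit 0)))))) (T.h (T.h (T.h (P (nat_lit 52973080057366503088979968)) (T.h (P (nat_lit 0)) (P (nat_lit 91053075213775273984)))) (T.h (P (nat_lit 0)) (P (nat_lit 91053075213775273984)))) (T.h (T.h (P (nat_lit 0)) (T.h (T.h (P (nat_lit 0)) (P (nat_lit 179461911432396800))) (P (nat_lit 0)))) (P (nat_lit 201408859984088793088)))))), (P (nat_lit 0)), (P (nat_lit 0)), (T.h (T.h (P (nat_lit 0)) (T.h (T.h (P (nat_lit 0)) (T.h (P (nat_lit 8121832179209592299847680)) (T.h (P (nat_lit 0)) (P (nat_lit 6818117037345210368))))) (T.h (P (nat_lit 0)) (T.h (T.h (P (nat_lit 0)) (M (nat_lit 18589109809936596991))) (P (nat_lit 0)))))) (T.h (T.h (T.h (M (nat_lit 5938840239767262457329876991)) (T.h (P (nat_lit 0)) (T.h (P (nat_lit 32448110580492473991168)) (T.h (P (nat_lit 0)) (M (nat_lit 14493620268662783)))))) (T.h (P (nat_lit 0)) (T.h (T.h (P (nat_lit 83505656668972851920896)) (T.h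 (P (nat_lit 0)) (M (nat_lit 99906550954229759)))) (T.h (P (nat_lit 0)) (M (nat_lit 17569552337108991)))))) (T.h (T.h (P (nat_lit 0)) (T.h (T.h (P (nat_lit 0)) (P (nat_lit 9408689513531703296))) (P (nat_lit 0)))) (T.h (T.h (T.h (P (nat_lit 15260972577348049174528)) (T.h (P (nat_lit 0)) (M (nat_lit 176124080196288511)))) (T.h (P (nat_lit 0)) (P (nat_lit 112761797231247360)))) (T.h (P (nat_lit 0)) (P (nat_lit 68021766630866944))))))), (P (nat_lit 0)), (P (nat_lit 0)), (P (nat_lit 0))]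
def lQp_39 : List (T ℤ) := [(P (nat_lit 0)), (P (nat_lit 0)), (T.h (T.h (T.h (P (nat_lit 2404850019828621642210004172800)) (T.h (P (nat_lit 0)) (T.h (M (nat_lit 3441592084653494088237055)) (T.h (P (nat_lit 0)) (T.h (P (nat_lit 343924005943640064)) (T.h (P (nat_lit 0)) (P (nat_lit 485082553536)))))))) (T.h (P (nat_lit 0)) (T.h (T.h (M (nat_lit 3441592084653494088237055)) (T.h (P (nat_lit 0)) (T.h (M (nat_lit 4101749946523320319)) (T.h (P (nat_lit 0)) (P (nat_lit 6479329439808)))))) (T.h (P (nat_lit 0)) (T.h (T.h (P (nat_lit 343924005943640064)) (T.h (P (nat_lit 0)) (P (nat_lit 6479329439808)))) (T.h (P (nat_lit 0)) (P (nat_lit 485082553536)))))))) (T.h (T.h (P (nat_lit 0)) (T.h (T.h (P (nat_lit 0)) (T.h (P (nat_lit 4858780883919092842496)) (T.h (P (nat_lit 0)) (P (nat_lit 8976329387016192))))) (T.h (P (nat_lit 0)) (T.h (T.h (P (nat_lit 0)) (P (nat_lit 8976329387016192))) (P (nat_lit 0)))))) (T.h (T.h (T.h (P (nat_lit 9662666993077348152115200)) (T.h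 (P (nat_lit 0)) (T.h (P (nat_lit 850769915450228736)) (T.h (P (nat_lit 0)) (P (nat_lit 21823059736368)))))) (T.h (P (nat_lit 0)) (T.h (T.h (P (nat_lit 850769915450228736)) (T.h (P (nat_lit 0)) (P (nat_lit 83465545105728)))) (T.h (P (nat_lit 0)) (P (nat_lit 21823059736368)))))) (T.h (T.h (P (nat_lit 0)) (T.h (T.h (P (nat_lit 0)) (P (nat_lit 221025023427870720))) (P (nat_lit 0)))) (T.h (T.h (T.h (P (nat_lit 7533545651754237952)) (T.h (P (nat_lit 0)) (P (nat_lit 17223692796864)))) (T.h (P (nat_lit 0)) (P (nat_lit 17223692796864)))) (T.h (P (nat_lit 0)) (M (nat_lit 18430719318143)))))))), (T.h (T.h (T.h (P (nat_lit 0)) (T.h (P (nat_lit 1069719061105742419312246784)) (T.h (P (nat_lit 0)) (T.h (M (nat_lit 4810639926731932172287)) (T.h (P (nat_lit 0)) (M (nat_lit 189485684457471))))))) (T.h (P (nat_lit 0)) (T.h (T.h (P (nat_lit 0)) (T.h (M (nat_lit 167114983961662586879)) (T.h (P (nat_lit 0)) (M (nat_lit 3999072314753023))))) (T.h (P (nat_lit 0)) (T.h (T.h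 (P (nat_lit 0)) (P (nat_lit 6948109256065024))) (P (nat_lit 0))))))) (T.h (T.h (P (nat_lit 0)) (T.h (T.h (P (nat_lit 1761177201905144919228416)) (T.h (P (nat_lit 0)) (M (nat_lit 13635200529196908543)))) (T.h (P (nat_lit 0)) (P (nat_lit 1424453042811437056))))) (T.h (T.h (T.h (P (nat_lit 0)) (T.h (P (nat_lit 9039233065320873721856)) (T.h (P (nat_lit 0)) (P (nat_lit 9114228696940544))))) (T.h (P (nat_lit 0)) (T.h (T.h (P (nat_lit 0)) (M (nat_lit 69713786696892415))) (P (nat_lit 0))))) (T.h (T.h (P (nat_lit 0)) (P (nat_lit 159289274093619118080))) (T.h (T.h (T.h (P (nat_lit 0)) (P (nat_lit 360924354560393216))) (P (nat_lit 0))) (P (nat_lit 0))))))), (P (nat_lit 0)), (P (nat_lit 0)), (T.h (T.h (P (nat_lit 0)) (T.h (T.h (P (nat_lit 1069719061105742419312246784)) (T.h (P (nat_lit 0)) (T.h (M (nat_lit 167114983961662586879)) (T.h (P (nat_lit 0)) (P (nat_lit 6948109256065024)))))) (T.h (P (nat_lit 0)) (T.h (T.h (M (nat_lit 4810639926731932172287)) (T.h (P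 (nat_lit 0)) (M (nat_lit 3999072314753023)))) (T.h (P (nat_lit 0)) (M (nat_lit 189485684457471))))))) (T.h (T.h (T.h (P (nat_lit 0)) (T.h (P (nat_lit 1761177201905144919228416)) (T.h (P (nat_lit 0)) (P (nat_lit 1424453042811437056))))) (T.h (P (nat_lit 0)) (T.h (T.h (P (nat_lit 0)) (M (nat_lit 13635200529196908543))) (P (nat_lit 0))))) (T.h (T.h (P (nat_lit 0)) (T.h (T.h (P (nat_lit 9039233065320873721856)) (T.h (P (nat_lit 0)) (M (nat_lit 69713786696892415)))) (T.h (P (nat_lit 0)) (P (nat_lit 9114228696940544))))) (T.h (T.h (T.h (P (nat_lit 0)) (P (nat_lit 159289274093619118080))) (P (nat_lit 0))) (T.h (T.h (P (nat_lit 0)) (P (nat_lit 360924354560393216))) (P (nat_lit 0))))))), (P (nat_lit 0))]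
def lQp_40 : List (T ℤ) := [(P (nat_lit 0)), (P (nat_lit 0)), (P (nat_lit 0)), (P (nat_lit 0)), (T.h (T.h (P (nat_lit 0)) (T.h (T.h (P (nat_lit 0)) (T.h (M (nat_lit 2399690788163493904252927)) (T.h (P (nat_lit 0)) (M (nat_lit 822611858266521599))))) (T.h (P (nat_lit 0)) (T.h (T.h (P (nat_lit 0)) (M (nat_lit 822611858266521599))) (P (nat_lit 0)))))) (T.h (T.h (T.h (P (nat_lit 6946700081529947634800787456)) (T.h (P (nat_lit 0)) (T.h (M (nat_lit 2528644232359897464831)) (T.h (P (nat_lit 0)) (P (nat_lit 9931916964462592)))))) (T.h (P (nat_lit 0)) (T.h (T.h (M (nat_lit 2528644232359897464831)) (T.h (P (nat_lit 0)) (P (nat_lit 37986096972562432)))) (T.h (P (nat_lit 0)) (P (nat_lit 9931916964462592)))))) (T.h (T.h (P (nat_lit 0)) (T.h (T.h (P (nat_lit 0)) (P (nat_lit 24174887929991135232))) (P (nat_lit 0)))) (T.h (T.h (T.h (P (nat_lit 6537014371178130702336)) (T.h (P (nat_lit 0)) (P (nat_lit 15677387932434432)))) (T.h (P (nat_lit 0)) (P (nat_lit 15677387932434432))))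 (T.h (P (nat_lit 0)) (M (nat_lit 25164075442372607))))))), (P (nat_lit 0)), (P (nat_lit 0)), (P (nat_lit 0))]
def lQp_41 : List (T ℤ) := [(P (nat_lit 0)), (P (nat_lit 0)), (P (nat_lit 0)), (P (nat_lit 0)), (P (nat_lit 0)), (P (nat_lit 0))]

def CQp : List (T ℤ) := lQp_0 ++ (lQp_1 ++ (lQp_2 ++ (lQp_3 ++ (lQp_4 ++ (lQp_5 ++ (lQp_6 ++ (lQp_7 ++ (lQp_8 ++ (lQp_9 ++ (lQp_10 ++ (lQp_11 ++ (lQp_12 ++ (lQp_13 ++ (lQp_14 ++ (lQp_15 ++ (lQp_16 ++ (lQp_17 ++ (lQp_18 ++ (lQp_19 ++ (lQp_20 ++ (lQp_21 ++ (lQp_22 ++ (lQp_23 ++ (lQp_24 ++ (lQp_25 ++ (lQp_26 ++ (lQp_27 ++ (lQp_28 ++ (lQp_29 ++ (lQp_30 ++ (lQp_31 ++ (lQp_32 ++ (lQp_33 ++ (lQp_34 ++ (lQp_35 ++ (lQp_36 ++ (lQp_37 ++ (lQp_38 ++ (lQp_39 ++ (lQp_40 ++ (lQp_41)))))))))))))))))))))))))))))))))))))))))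

/-- norms at radius 1536 -/
def NQp : List ℕ := [(nat_lit 5034231565398356583608483840000), (nat_lit 0), (nat_lit 1724605957288637986440686170275840), (nat_lit 3231952790491065779486215072907264), (nat_lit 4769393257761206482651912637251584), (nat_lit 4726961542089174432066161814274048), (nat_lit 1179900458896524047471018407624704), (nat_lit 0), (nat_lit 0), (nat_lit 0), (nat_lit 2015081298381011297448797210148864), (nat_lit 7917973180663289648377386516873216), (nat_lit 8997689988211020541009471255609344), (nat_lit 9269586922663538193990403416391680), (nat_lit 4882080804122028056973939289620480), (nat_lit 0), (nat_lit 0), (nat_lit 0), (nat_lit 1810292357583197565337059949805568), (nat_lit 5498512004875585986364998787530752), (nat_lit 10863059247056160729281929811066880), (nat_lit 11587232174278613141824544540983296), (nat_lit 4877390115265699470167065485115392), (nat_lit 0), (nat_lit 0), (nat_lit 1810292357583197565337059949805568), (nat_lit 13754771878245231706057604440522752),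 (nat_lit 14238123201414850424934124876726272), (nat_lit 25623368825481635076470154977083392), (nat_lit 11797823836781131919374112205570048), (nat_lit 0), (nat_lit 0), (nat_lit 2015081298381011297448797210148864), (nat_lit 5498512004875585986364998787530752), (nat_lit 14238123201414850424934124876726272), (nat_lit 20540435231327824248029122972876800), (nat_lit 9655153493091300658344029979672576), (nat_lit 0), (nat_lit 0), (nat_lit 1724605957288637986440686170275840), (nat_lit 7917973180663289648377386516873216), (nat_lit 10863059247056160729281929811066880), (nat_lit 25623368825481635076470154977083392), (nat_lit 9655153493091300658344029979672576), (nat_lit 0), (nat_lit 0), (nat_lit 3231952790491065779486215072907264), (nat_lit 8997689988211020541009471255609344), (nat_lit 11587232174278613141824544540983296), (nat_lit 11797823836781131919374112205570048), (nat_lit 0), (nat_lit 0), (nat_lit 4769393257761206482651912637251584), (nat_lit 9269586922663538193990403416391680),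 (nat_lit 4877390115265699470167065485115392), (nat_lit 0), (nat_lit 0), (nat_lit 4726961542089174432066161814274048), (nat_lit 4882080804122028056973939289620480), (nat_lit 0), (nat_lit 0), (nat_lit 1179900458896524047471018407624704), (nat_lit 0), (nat_lit 0), (nat_lit 0), (nat_lit 0), (nat_lit 0), (nat_lit 2015081298381011297448797210148864), (nat_lit 7917973180663289648377386516873216), (nat_lit 8997689988211020541009471255609344), (nat_lit 9269586922663538193990403416391680), (nat_lit 4882080804122028056973939289620480), (nat_lit 0), (nat_lit 0), (nat_lit 5017477648600238857547036789571584), (nat_lit 7713752859077756748932322636595200), (nat_lit 20961555107053813439357144732270592), (nat_lit 18734223246554908023290783902728192), (nat_lit 5107568240768948553730650724630528), (nat_lit 0), (nat_lit 0), (nat_lit 16688225967044941259148638854053888), (nat_lit 21686497724866849553299555032760320), (nat_lit 38151280094220618616502474590126080), (nat_lit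 29482104331074100920444564252131328), (nat_lit 10137550684850219468597346321825792), (nat_lit 0), (nat_lit 0), (nat_lit 5017477648600238857547036789571584), (nat_lit 21686497724866849553299555032760320), (nat_lit 40700194096604394923804498224742400), (nat_lit 24348715231251986269625697787969536), (nat_lit 12941107221511953457874163820658688), (nat_lit 0), (nat_lit 0), (nat_lit 2015081298381011297448797210148864), (nat_lit 7713752859077756748932322636595200), (nat_lit 38151280094220618616502474590126080), (nat_lit 24348715231251986269625697787969536), (nat_lit 9028142197616287317498108951134208), (nat_lit 0), (nat_lit 0), (nat_lit 7917973180663289648377386516873216), (nat_lit 20961555107053813439357144732270592), (nat_lit 29482104331074100920444564252131328), (nat_lit 12941107221511953457874163820658688), (nat_lit 0), (nat_lit 0), (nat_lit 8997689988211020541009471255609344), (nat_lit 18734223246554908023290783902728192), (nat_lit 10137550684850219468597346321825792),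 (nat_lit 0), (nat_lit 0), (nat_lit 9269586922663538193990403416391680), (nat_lit 5107568240768948553730650724630528), (nat_lit 0), (nat_lit 0), (nat_lit 4882080804122028056973939289620480), (nat_lit 0), (nat_lit 0), (nat_lit 0), (nat_lit 0), (nat_lit 0), (nat_lit 0), (nat_lit 1810292357583197565337059949805568), (nat_lit 5498512004875585986364998787530752), (nat_lit 10863059247056160729281929811066880), (nat_lit 11587232174278613141824544540983296), (nat_lit 4877390115265699470167065485115392), (nat_lit 0), (nat_lit 0), (nat_lit 16688225967044941259148638854053888), (nat_lit 21686497724866849553299555032760320), (nat_lit 38151280094220618616502474590126080), (nat_lit 29482104331074100920444564252131328), (nat_lit 10137550684850219468597346321825792), (nat_lit 0), (nat_lit 0), (nat_lit 16688225967044941259148638854053888), (nat_lit 18030348678634071920880398698020864), (nat_lit 32679157042753288135007904957726720), (nat_lit 35291891742524396731694977264910336),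 (nat_lit 10564332907245284536472566449045504), (nat_lit 0), (nat_lit 0), (nat_lit 1810292357583197565337059949805568), (nat_lit 21686497724866849553299555032760320), (nat_lit 32679157042753288135007904957726720), (nat_lit 64647755741991708824608643676635136), (nat_lit 14888743928154956976123110095847424), (nat_lit 0), (nat_lit 0), (nat_lit 5498512004875585986364998787530752), (nat_lit 38151280094220618616502474590126080), (nat_lit 35291891742524396731694977264910336), (nat_lit 14888743928154956976123110095847424), (nat_lit 0), (nat_lit 0), (nat_lit 10863059247056160729281929811066880), (nat_lit 29482104331074100920444564252131328), (nat_lit 10564332907245284536472566449045504), (nat_lit 0), (nat_lit 0), (nat_lit 11587232174278613141824544540983296), (nat_lit 10137550684850219468597346321825792), (nat_lit 0), (nat_lit 0), (nat_lit 4877390115265699470167065485115392), (nat_lit 0), (nat_lit 0), (nat_lit 0), (nat_lit 0), (nat_lit 0), (nat_lit 1810292357583197565337059949805568),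 (nat_lit 13754771878245231706057604440522752), (nat_lit 14238123201414850424934124876726272), (nat_lit 25623368825481635076470154977083392), (nat_lit 11797823836781131919374112205570048), (nat_lit 0), (nat_lit 0), (nat_lit 5017477648600238857547036789571584), (nat_lit 21686497724866849553299555032760320), (nat_lit 40700194096604394923804498224742400), (nat_lit 24348715231251986269625697787969536), (nat_lit 12941107221511953457874163820658688), (nat_lit 0), (nat_lit 0), (nat_lit 1810292357583197565337059949805568), (nat_lit 21686497724866849553299555032760320), (nat_lit 32679157042753288135007904957726720), (nat_lit 64647755741991708824608643676635136), (nat_lit 14888743928154956976123110095847424), (nat_lit 0), (nat_lit 0), (nat_lit 13754771878245231706057604440522752), (nat_lit 40700194096604394923804498224742400), (nat_lit 64647755741991708824608643676635136), (nat_lit 42614722555026479180985477982322688), (nat_lit 0), (nat_lit 0), (nat_lit 14238123201414850424934124876726272),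 (nat_lit 24348715231251986269625697787969536), (nat_lit 14888743928154956976123110095847424), (nat_lit 0), (nat_lit 0), (nat_lit 25623368825481635076470154977083392), (nat_lit 12941107221511953457874163820658688), (nat_lit 0), (nat_lit 0), (nat_lit 11797823836781131919374112205570048), (nat_lit 0), (nat_lit 0), (nat_lit 0), (nat_lit 0), (nat_lit 0), (nat_lit 2015081298381011297448797210148864), (nat_lit 5498512004875585986364998787530752), (nat_lit 14238123201414850424934124876726272), (nat_lit 20540435231327824248029122972876800), (nat_lit 9655153493091300658344029979672576), (nat_lit 0), (nat_lit 0), (nat_lit 2015081298381011297448797210148864), (nat_lit 7713752859077756748932322636595200), (nat_lit 38151280094220618616502474590126080), (nat_lit 24348715231251986269625697787969536), (nat_lit 9028142197616287317498108951134208), (nat_lit 0), (nat_lit 0), (nat_lit 5498512004875585986364998787530752), (nat_lit 38151280094220618616502474590126080),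 (nat_lit 35291891742524396731694977264910336), (nat_lit 14888743928154956976123110095847424), (nat_lit 0), (nat_lit 0), (nat_lit 14238123201414850424934124876726272), (nat_lit 24348715231251986269625697787969536), (nat_lit 14888743928154956976123110095847424), (nat_lit 0), (nat_lit 0), (nat_lit 20540435231327824248029122972876800), (nat_lit 9028142197616287317498108951134208), (nat_lit 0), (nat_lit 0), (nat_lit 9655153493091300658344029979672576), (nat_lit 0), (nat_lit 0), (nat_lit 0), (nat_lit 0), (nat_lit 0), (nat_lit 1724605957288637986440686170275840), (nat_lit 7917973180663289648377386516873216), (nat_lit 10863059247056160729281929811066880), (nat_lit 25623368825481635076470154977083392), (nat_lit 9655153493091300658344029979672576), (nat_lit 0), (nat_lit 0), (nat_lit 7917973180663289648377386516873216), (nat_lit 20961555107053813439357144732270592), (nat_lit 29482104331074100920444564252131328), (nat_lit 12941107221511953457874163820658688),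 (nat_lit 0), (nat_lit 0), (nat_lit 10863059247056160729281929811066880), (nat_lit 29482104331074100920444564252131328), (nat_lit 10564332907245284536472566449045504), (nat_lit 0), (nat_lit 0), (nat_lit 25623368825481635076470154977083392), (nat_lit 12941107221511953457874163820658688), (nat_lit 0), (nat_lit 0), (nat_lit 9655153493091300658344029979672576), (nat_lit 0), (nat_lit 0), (nat_lit 0), (nat_lit 0), (nat_lit 0), (nat_lit 3231952790491065779486215072907264), (nat_lit 8997689988211020541009471255609344), (nat_lit 11587232174278613141824544540983296), (nat_lit 11797823836781131919374112205570048), (nat_lit 0), (nat_lit 0), (nat_lit 8997689988211020541009471255609344), (nat_lit 18734223246554908023290783902728192), (nat_lit 10137550684850219468597346321825792), (nat_lit 0), (nat_lit 0), (nat_lit 11587232174278613141824544540983296), (nat_lit 10137550684850219468597346321825792), (nat_lit 0), (nat_lit 0), (nat_lit 11797823836781131919374112205570048),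 (nat_lit 0), (nat_lit 0), (nat_lit 0), (nat_lit 0), (nat_lit 0), (nat_lit 4769393257761206482651912637251584), (nat_lit 9269586922663538193990403416391680), (nat_lit 4877390115265699470167065485115392), (nat_lit 0), (nat_lit 0), (nat_lit 9269586922663538193990403416391680), (nat_lit 5107568240768948553730650724630528), (nat_lit 0), (nat_lit 0), (nat_lit 4877390115265699470167065485115392), (nat_lit 0), (nat_lit 0), (nat_lit 0), (nat_lit 0), (nat_lit 0), (nat_lit 4726961542089174432066161814274048), (nat_lit 4882080804122028056973939289620480), (nat_lit 0), (nat_lit 0), (nat_lit 4882080804122028056973939289620480), (nat_lit 0), (nat_lit 0), (nat_lit 0), (nat_lit 0), (nat_lit 0), (nat_lit 1179900458896524047471018407624704), (nat_lit 0), (nat_lit 0), (nat_lit 0), (nat_lit 0), (nat_lit 0), (nat_lit 0), (nat_lit 0), (nat_lit 0), (nat_lit 0)]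


def lQm_0 : List (T ℤ) := [(P (nat_lit 5034231565398356583608483840000)), (P (nat_lit 0)), (T.h (T.h (T.h (P (nat_lit 0)) (T.h (P (nat_lit 3839514313513014043615428608)) (T.h (P (nat_lit 0)) (T.h (M (nat_lit 3646535431745731297279)) (T.h (P (nat_lit 0)) (P (nat_lit 137409198948352))))))) (T.h (P (nat_lit 0)) (T.h (T.h (P (nat_lit 0)) (T.h (M (nat_lit 1686860910799498510335)) (T.h (P (nat_lit 0)) (P (nat_lit 4778343383728128))))) (T.h (P (nat_lit 0)) (T.h (T.h (P (nat_lit 0)) (P (nat_lit 1885774712307712))) (P (nat_lit 0))))))) (T.h (T.h (P (nat_lit 0)) (T.h (T.h (M (nat_lit 2802841087763088546988031)) (T.h (P (nat_lit 0)) (T.h (P (nat_lit 15043258930488672256)) (T.h (P (nat_lit 0)) (P (nat_lit 90631147302592)))))) (T.h (P (nat_lit 0)) (T.h (T.h (M (nat_lit 1002591225452167167)) (T.h (P (nat_lit 0)) (P (nat_lit 6893533280160)))) (T.h (P (nat_lit 0)) (M (nat_lit 1007079246327))))))) (T.h (T.h (T.h (P (nat_lit 0)) (T.h (M (nat_lit 1686860910799498510335))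 (T.h (P (nat_lit 0)) (P (nat_lit 4778343383728128))))) (T.h (P (nat_lit 0)) (T.h (T.h (P (nat_lit 0)) (M (nat_lit 9154749834854399))) (P (nat_lit 0))))) (T.h (T.h (P (nat_lit 0)) (T.h (T.h (M (nat_lit 1002591225452167167)) (T.h (P (nat_lit 0)) (P (nat_lit 6893533280160)))) (T.h (P (nat_lit 0)) (M (nat_lit 48440508655))))) (T.h (T.h (T.h (P (nat_lit 0)) (P (nat_lit 1885774712307712))) (P (nat_lit 0))) (T.h (T.h (P (nat_lit 0)) (M (nat_lit 1007079246327))) (P (nat_lit 0)))))))), (T.h (T.h (T.h (M (nat_lit 7433080326342683754766599716863)) (T.h (P (nat_lit 0)) (T.h (M (nat_lit 10067385610448579600580607)) (T.h (P (nat_lit 0)) (T.h (P (nat_lit 4366090264486346752)) (T.h (P (nat_lit 0)) (P (nat_lit 10239292669440)))))))) (T.h (P (nat_lit 0)) (T.h (T.h (P (nat_lit 3778435464726847852380160)) (T.h (P (nat_lit 0)) (T.h (M (nat_lit 26327728948397473791)) (T.h (P (nat_lit 0)) (M (nat_lit 6531616341807)))))) (T.h (P (nat_lit 0)) (T.h (T.h (P (nat_lit 775294767817818112))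 (T.h (P (nat_lit 0)) (M (nat_lit 12025278876719)))) (T.h (P (nat_lit 0)) (M (nat_lit 394146612063)))))))) (T.h (T.h (P (nat_lit 0)) (T.h (T.h (P (nat_lit 0)) (T.h (M (nat_lit 10073615372514213494783)) (T.h (P (nat_lit 0)) (M (nat_lit 153757479444742143))))) (T.h (P (nat_lit 0)) (T.h (T.h (P (nat_lit 0)) (P (nat_lit 11749017991118848))) (P (nat_lit 0)))))) (T.h (T.h (T.h (P (nat_lit 3778435464726847852380160)) (T.h (P (nat_lit 0)) (T.h (M (nat_lit 26327728948397473791)) (T.h (P (nat_lit 0)) (M (nat_lit 6531616341807)))))) (T.h (P (nat_lit 0)) (T.h (T.h (M (nat_lit 2350797395471630335)) (T.h (P (nat_lit 0)) (M (nat_lit 46369747134399)))) (T.h (P (nat_lit 0)) (M (nat_lit 1928525502543)))))) (T.h (T.h (P (nat_lit 0)) (T.h (T.h (P (nat_lit 0)) (P (nat_lit 11749017991118848))) (P (nat_lit 0)))) (T.h (T.h (T.h (P (nat_lit 775294767817818112)) (T.h (P (nat_lit 0)) (M (nat_lit 12025278876719)))) (T.h (P (nat_lit 0)) (M (nat_lit 1928525502543)))) (T.h (P (nat_lit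 0)) (M (nat_lit 394146612063)))))))), (T.h (T.h (T.h (P (nat_lit 0)) (T.h (P (nat_lit 3147512656405071884711886848)) (T.h (P (nat_lit 0)) (T.h (P (nat_lit 13783003363915946000384)) (T.h (P (nat_lit 0)) (M (nat_lit 83436595345620991))))))) (T.h (P (nat_lit 0)) (T.h (T.h (P (nat_lit 0)) (T.h (M (nat_lit 275758408499906740223)) (T.h (P (nat_lit 0)) (M (nat_lit 32178130169331711))))) (T.h (P (nat_lit 0)) (T.h (T.h (P (nat_lit 0)) (P (nat_lit 6796418048000000))) (P (nat_lit 0))))))) (T.h (T.h (P (nat_lit 0)) (T.h (T.h (P (nat_lit 639228361562408211185664)) (T.h (P (nat_lit 0)) (T.h (P (nat_lit 4295856609243955200)) (T.h (P (nat_lit 0)) (M (nat_lit 181262294860031)))))) (T.h (P (nat_lit 0)) (T.h (T.h (M (nat_lit 3612582974958075903)) (T.h (P (nat_lit 0)) (M (nat_lit 24592427548415)))) (T.h (P (nat_lit 0)) (P (nat_lit 1035188088448))))))) (T.h (T.h (T.h (P (nat_lit 0)) (T.h (M (nat_lit 275758408499906740223)) (T.h (P (nat_lit 0)) (M (nat_lit 32178130169331711)))))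 (T.h (P (nat_lit 0)) (T.h (T.h (P (nat_lit 0)) (P (nat_lit 24836961151156224))) (P (nat_lit 0))))) (T.h (T.h (P (nat_lit 0)) (T.h (T.h (M (nat_lit 3612582974958075903)) (T.h (P (nat_lit 0)) (M (nat_lit 24592427548415)))) (T.h (P (nat_lit 0)) (P (nat_lit 96880908672))))) (T.h (T.h (T.h (P (nat_lit 0)) (P (nat_lit 6796418048000000))) (P (nat_lit 0))) (T.h (T.h (P (nat_lit 0)) (P (nat_lit 1035188088448))) (P (nat_lit 0)))))))), (T.h (T.h (T.h (P (nat_lit 2404850019828621642210004172800)) (T.h (P (nat_lit 0)) (T.h (P (nat_lit 9662666993077348152115200)) (T.h (P (nat_lit 0)) (T.h (P (nat_lit 7533545651754237952)) (T.h (P (nat_lit 0)) (M (nat_lit 18430719318143)))))))) (T.h (P (nat_lit 0)) (T.h (T.h (M (nat_lit 3441592084653494088237055)) (T.h (P (nat_lit 0)) (T.h (P (nat_lit 850769915450228736)) (T.h (P (nat_lit 0)) (P (nat_lit 17223692796864)))))) (T.h (P (nat_lit 0)) (T.h (T.h (P (nat_lit 343924005943640064)) (T.h (P (nat_lit 0)) (P (nat_lit 21823059736368))))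 (T.h (P (nat_lit 0)) (P (nat_lit 485082553536)))))))) (T.h (T.h (P (nat_lit 0)) (T.h (T.h (P (nat_lit 0)) (T.h (P (nat_lit 4858780883919092842496)) (T.h (P (nat_lit 0)) (P (nat_lit 221025023427870720))))) (T.h (P (nat_lit 0)) (T.h (T.h (P (nat_lit 0)) (P (nat_lit 8976329387016192))) (P (nat_lit 0)))))) (T.h (T.h (T.h (M (nat_lit 3441592084653494088237055)) (T.h (P (nat_lit 0)) (T.h (P (nat_lit 850769915450228736)) (T.h (P (nat_lit 0)) (P (nat_lit 17223692796864)))))) (T.h (P (nat_lit 0)) (T.h (T.h (M (nat_lit 4101749946523320319)) (T.h (P (nat_lit 0)) (P (nat_lit 83465545105728)))) (T.h (P (nat_lit 0)) (P (nat_lit 6479329439808)))))) (T.h (T.h (P (nat_lit 0)) (T.h (T.h (P (nat_lit 0)) (P (nat_lit 8976329387016192))) (P (nat_lit 0)))) (T.h (T.h (T.h (P (nat_lit 343924005943640064)) (T.h (P (nat_lit 0)) (P (nat_lit 21823059736368)))) (T.h (P (nat_lit 0)) (P (nat_lit 6479329439808)))) (T.h (P (nat_lit 0)) (P (nat_lit 485082553536)))))))), (T.h (T.h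 (T.h (P (nat_lit 0)) (T.h (M (nat_lit 6946700081529947634800787455)) (T.h (P (nat_lit 0)) (T.h (M (nat_lit 6537014371178130702335)) (T.h (P (nat_lit 0)) (P (nat_lit 25164075442372608))))))) (T.h (P (nat_lit 0)) (T.h (T.h (P (nat_lit 0)) (T.h (P (nat_lit 2528644232359897464832)) (T.h (P (nat_lit 0)) (M (nat_lit 15677387932434431))))) (T.h (P (nat_lit 0)) (T.h (T.h (P (nat_lit 0)) (M (nat_lit 9931916964462591))) (P (nat_lit 0))))))) (T.h (T.h (P (nat_lit 0)) (T.h (T.h (P (nat_lit 2399690788163493904252928)) (T.h (P (nat_lit 0)) (M (nat_lit 24174887929991135231)))) (T.h (P (nat_lit 0)) (P (nat_lit 822611858266521600))))) (T.h (T.h (T.h (P (nat_lit 0)) (T.h (P (nat_lit 2528644232359897464832)) (T.h (P (nat_lit 0)) (M (nat_lit 15677387932434431))))) (T.h (P (nat_lit 0)) (T.h (T.h (P (nat_lit 0)) (M (nat_lit 37986096972562431))) (P (nat_lit 0))))) (T.h (T.h (P (nat_lit 0)) (P (nat_lit 822611858266521600))) (T.h (T.h (T.h (P (nat_lit 0)) (M (nat_lit 9931916964462591)))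 (P (nat_lit 0))) (P (nat_lit 0))))))), (P (nat_lit 0))]
def lQm_1 : List (T ℤ) := [(P (nat_lit 0)), (P (nat_lit 0)), (T.h (T.h (P (nat_lit 0)) (T.h (T.h (M (nat_lit 6109297295370027237344542719)) (T.h (P (nat_lit 0)) (T.h (M (nat_lit 3043298767001555566591)) (T.h (P (nat_lit 0)) (P (nat_lit 42195277170933760)))))) (T.h (P (nat_lit 0)) (T.h (T.h (M (nat_lit 6470624315378690424831)) (T.h (P (nat_lit 0)) (M (nat_lit 23901466144571391)))) (T.h (P (nat_lit 0)) (P (nat_lit 7102852997021696))))))) (T.h (T.h (T.h (P (nat_lit 0)) (T.h (P (nat_lit 284033478414364619833344)) (T.h (P (nat_lit 0)) (T.h (P (nat_lit 5938503625511796736)) (T.h (P (nat_lit 0)) (M (nat_lit 11280567779311))))))) (T.h (P (nat_lit 0)) (T.h (T.h (P (nat_lit 0)) (T.h (M (nat_lit 849028859926937599)) (T.h (P (nat_lit 0)) (P (nat_lit 72270515840056))))) (T.h (P (nat_lit 0)) (T.h (T.h (P (nat_lit 0)) (M (nat_lit 8644918464695))) (P (nat_lit 0))))))) (T.h (T.h (P (nat_lit 0)) (T.h (T.h (M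 (nat_lit 1686258149179302871039)) (T.h (P (nat_lit 0)) (P (nat_lit 1978227750830080)))) (T.h (P (nat_lit 0)) (P (nat_lit 433781979512832))))) (T.h (T.h (T.h (P (nat_lit 0)) (T.h (M (nat_lit 2140135256919900159)) (T.h (P (nat_lit 0)) (M (nat_lit 1179281324743))))) (T.h (P (nat_lit 0)) (T.h (T.h (P (nat_lit 0)) (M (nat_lit 365975489447))) (P (nat_lit 0))))) (T.h (T.h (P (nat_lit 0)) (M (nat_lit 417833758719999))) (T.h (T.h (T.h (P (nat_lit 0)) (P (nat_lit 2562489162784))) (P (nat_lit 0))) (P (nat_lit 0)))))))), (T.h (T.h (P (nat_lit 0)) (T.h (T.h (P (nat_lit 0)) (T.h (P (nat_lit 7108667783362390295314432)) (T.h (P (nat_lit 0)) (T.h (M (nat_lit 154584634236227026943)) (T.h (P (nat_lit 0)) (M (nat_lit 335941989346463))))))) (T.h (P (nat_lit 0)) (T.h (T.h (P (nat_lit 0)) (T.h (P (nat_lit 6429138738500075520)) (T.h (P (nat_lit 0)) (P (nat_lit 19834863972112))))) (T.h (P (nat_lit 0)) (T.h (T.h (P (nat_lit 0)) (M (nat_lit 2171138809055))) (P (nat_lit 0))))))))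 (T.h (T.h (T.h (M (nat_lit 8791771181520521901880901631)) (T.h (P (nat_lit 0)) (T.h (P (nat_lit 22020359117771091476480)) (T.h (P (nat_lit 0)) (M (nat_lit 121640918615326719)))))) (T.h (P (nat_lit 0)) (T.h (T.h (P (nat_lit 9840168828146097848320)) (T.h (P (nat_lit 0)) (P (nat_lit 38653626529546240)))) (T.h (P (nat_lit 0)) (P (nat_lit 28202771527335936)))))) (T.h (T.h (P (nat_lit 0)) (T.h (T.h (P (nat_lit 0)) (T.h (M (nat_lit 6625341527327506431)) (T.h (P (nat_lit 0)) (P (nat_lit 19291176429520))))) (T.h (P (nat_lit 0)) (T.h (T.h (P (nat_lit 0)) (P (nat_lit 7731991111936))) (P (nat_lit 0)))))) (T.h (T.h (T.h (P (nat_lit 1197127384719865937920)) (T.h (P (nat_lit 0)) (M (nat_lit 644596779991039)))) (T.h (P (nat_lit 0)) (P (nat_lit 8554117372231680)))) (T.h (T.h (P (nat_lit 0)) (T.h (T.h (P (nat_lit 0)) (M (nat_lit 6391443606815))) (P (nat_lit 0)))) (M (nat_lit 578348013797375))))))), (T.h (T.h (P (nat_lit 0)) (T.h (T.h (P (nat_lit 6839413366052023076718116864))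 (T.h (P (nat_lit 0)) (T.h (P (nat_lit 24888676228541148299264)) (T.h (P (nat_lit 0)) (P (nat_lit 395879561561014272)))))) (T.h (P (nat_lit 0)) (T.h (T.h (P (nat_lit 12737252216992320978944)) (T.h (P (nat_lit 0)) (P (nat_lit 10511957737865216)))) (T.h (P (nat_lit 0)) (M (nat_lit 17277707598233599))))))) (T.h (T.h (T.h (P (nat_lit 0)) (T.h (M (nat_lit 5168368424837279068979199)) (T.h (P (nat_lit 0)) (T.h (P (nat_lit 157094665944054104064)) (T.h (P (nat_lit 0)) (P (nat_lit 131752181722496))))))) (T.h (P (nat_lit 0)) (T.h (T.h (P (nat_lit 0)) (T.h (P (nat_lit 8926032916207632384)) (T.h (P (nat_lit 0)) (P (nat_lit 41957170643904))))) (T.h (P (nat_lit 0)) (T.h (T.h (P (nat_lit 0)) (P (nat_lit 7728486802624))) (P (nat_lit 0))))))) (T.h (T.h (P (nat_lit 0)) (T.h (T.h (M (nat_lit 84204815432911159295)) (T.h (P (nat_lit 0)) (M (nat_lit 103386342155976703)))) (T.h (P (nat_lit 0)) (M (nat_lit 10516355926327295))))) (T.h (T.h (T.h (P (nat_lit 0)) (T.h (P (nat_lit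 23742450305689714688)) (T.h (P (nat_lit 0)) (M (nat_lit 17796002755583))))) (T.h (P (nat_lit 0)) (T.h (T.h (P (nat_lit 0)) (P (nat_lit 24569655262336))) (P (nat_lit 0))))) (T.h (T.h (P (nat_lit 0)) (P (nat_lit 24592959480430592))) (T.h (T.h (T.h (P (nat_lit 0)) (M (nat_lit 2784107884415))) (P (nat_lit 0))) (P (nat_lit 0)))))))), (T.h (T.h (P (nat_lit 0)) (T.h (T.h (P (nat_lit 0)) (T.h (P (nat_lit 2647328885556425852452864)) (T.h (P (nat_lit 0)) (T.h (P (nat_lit 88326269022941216768)) (T.h (P (nat_lit 0)) (P (nat_lit 310329193881600))))))) (T.h (P (nat_lit 0)) (T.h (T.h (P (nat_lit 0)) (T.h (M (nat_lit 14044839506763317247)) (T.h (P (nat_lit 0)) (M (nat_lit 15746492039039))))) (T.h (P (nat_lit 0)) (T.h (T.h (P (nat_lit 0)) (M (nat_lit 3743196082991))) (P (nat_lit 0)))))))) (T.h (T.h (T.h (P (nat_lit 7229277941798989040011182080)) (T.h (P (nat_lit 0)) (T.h (P (nat_lit 55893712121856740294656)) (T.h (P (nat_lit 0)) (P (nat_lit 43907669705129984))))))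 (T.h (P (nat_lit 0)) (T.h (T.h (M (nat_lit 5074626016790479634431)) (T.h (P (nat_lit 0)) (M (nat_lit 37873789833461759)))) (T.h (P (nat_lit 0)) (M (nat_lit 25150337114456063)))))) (T.h (T.h (P (nat_lit 0)) (T.h (T.h (P (nat_lit 0)) (T.h (M (nat_lit 9959165120451969023)) (T.h (P (nat_lit 0)) (M (nat_lit 157763501468927))))) (T.h (P (nat_lit 0)) (T.h (T.h (P (nat_lit 0)) (M (nat_lit 43491366017423))) (P (nat_lit 0)))))) (T.h (T.h (T.h (M (nat_lit 1700234646761114697727)) (T.h (P (nat_lit 0)) (P (nat_lit 24900390032965632)))) (T.h (P (nat_lit 0)) (P (nat_lit 6140512668286976)))) (T.h (T.h (P (nat_lit 0)) (T.h (T.h (P (nat_lit 0)) (P (nat_lit 17575024374576))) (P (nat_lit 0)))) (M (nat_lit 1766672385900543))))))), (T.h (T.h (P (nat_lit 0)) (T.h (T.h (M (nat_lit 1069719061105742419312246783)) (T.h (P (nat_lit 0)) (T.h (M (nat_lit 9039233065320873721855)) (T.h (P (nat_lit 0)) (M (nat_lit 360924354560393215)))))) (T.h (P (nat_lit 0)) (T.h (T.h (P (nat_lit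 4810639926731932172288)) (T.h (P (nat_lit 0)) (M (nat_lit 9114228696940543)))) (T.h (P (nat_lit 0)) (P (nat_lit 189485684457472))))))) (T.h (T.h (T.h (P (nat_lit 0)) (T.h (M (nat_lit 1761177201905144919228415)) (T.h (P (nat_lit 0)) (M (nat_lit 159289274093619118079))))) (T.h (P (nat_lit 0)) (T.h (T.h (P (nat_lit 0)) (P (nat_lit 13635200529196908544))) (P (nat_lit 0))))) (T.h (T.h (P (nat_lit 0)) (T.h (T.h (P (nat_lit 167114983961662586880)) (T.h (P (nat_lit 0)) (P (nat_lit 69713786696892416)))) (T.h (P (nat_lit 0)) (P (nat_lit 3999072314753024))))) (T.h (T.h (T.h (P (nat_lit 0)) (M (nat_lit 1424453042811437055))) (P (nat_lit 0))) (T.h (T.h (P (nat_lit 0)) (M (nat_lit 6948109256065023))) (P (nat_lit 0))))))), (P (nat_lit 0))]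
def lQm_2 : List (T ℤ) := [(P (nat_lit 0)), (P (nat_lit 0)), (T.h (T.h (T.h (P (nat_lit 0)) (T.h (M (nat_lit 1842636641669992651706859519)) (T.h (P (nat_lit 0)) (T.h (M (nat_lit 3692873907294676451327)) (T.h (P (nat_lit 0)) (P (nat_lit 7481609000026112))))))) (T.h (P (nat_lit 0)) (T.h (T.h (P (nat_lit 0)) (T.h (P (nat_lit 524702051116670517248)) (T.h (P (nat_lit 0)) (M (nat_lit 31824348569567231))))) (T.h (P (nat_lit 0)) (T.h (T.h (P (nat_lit 0)) (M (nat_lit 10857135824961535))) (P (nat_lit 0))))))) (T.h (T.h (P (nat_lit 0)) (T.h (T.h (P (nat_lit 3133008150478943286198272)) (T.h (P (nat_lit 0)) (T.h (P (nat_lit 75911826115607396352)) (T.h (P (nat_lit 0)) (P (nat_lit 11983016506304)))))) (T.h (P (nat_lit 0)) (T.h (T.h (M (nat_lit 1574276201889923071)) (T.h (P (nat_lit 0)) (M (nat_lit 1718313203015)))) (T.h (P (nat_lit 0)) (M (nat_lit 1092306519703))))))) (T.h (T.h (T.h (P (nat_lit 0)) (T.h (P (nat_lit 4907546594058516299776)) (T.h (P (nat_lit 0))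 (M (nat_lit 5832632511725567))))) (T.h (P (nat_lit 0)) (T.h (T.h (P (nat_lit 0)) (M (nat_lit 19556106663329791))) (P (nat_lit 0))))) (T.h (T.h (P (nat_lit 0)) (T.h (T.h (P (nat_lit 4506255607094837248)) (T.h (P (nat_lit 0)) (M (nat_lit 9670404085391)))) (T.h (P (nat_lit 0)) (P (nat_lit 4428334664712))))) (T.h (T.h (T.h (P (nat_lit 0)) (M (nat_lit 20897473785757695))) (P (nat_lit 0))) (T.h (T.h (P (nat_lit 0)) (P (nat_lit 8114091958648))) (P (nat_lit 0)))))))), (T.h (T.h (T.h (M (nat_lit 4760559981841400535819587944447)) (T.h (P (nat_lit 0)) (T.h (M (nat_lit 12686087327818927969402879)) (T.h (P (nat_lit 0)) (T.h (P (nat_lit 79083973133016760320)) (T.h (P (nat_lit 0)) (P (nat_lit 33595231580112)))))))) (T.h (P (nat_lit 0)) (T.h (T.h (M (nat_lit 23554564491741895231275007)) (T.h (P (nat_lit 0)) (T.h (M (nat_lit 98180377231073738751)) (T.h (P (nat_lit 0)) (M (nat_lit 19123657897535)))))) (T.h (P (nat_lit 0)) (T.h (T.h (M (nat_lit 26277287895165304831))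 (T.h (P (nat_lit 0)) (M (nat_lit 35834186439263)))) (T.h (P (nat_lit 0)) (P (nat_lit 5106811990464)))))))) (T.h (T.h (P (nat_lit 0)) (T.h (T.h (P (nat_lit 0)) (T.h (P (nat_lit 5718149774113176027136)) (T.h (P (nat_lit 0)) (P (nat_lit 88374154776510464))))) (T.h (P (nat_lit 0)) (T.h (T.h (P (nat_lit 0)) (M (nat_lit 87735198484725759))) (P (nat_lit 0)))))) (T.h (T.h (T.h (P (nat_lit 770520881638916390649856)) (T.h (P (nat_lit 0)) (T.h (M (nat_lit 20620189100488523775)) (T.h (P (nat_lit 0)) (P (nat_lit 52052519111328)))))) (T.h (P (nat_lit 0)) (T.h (T.h (M (nat_lit 6340317228499468287)) (T.h (P (nat_lit 0)) (M (nat_lit 23507951099487)))) (T.h (P (nat_lit 0)) (M (nat_lit 2332677536639)))))) (T.h (T.h (P (nat_lit 0)) (T.h (T.h (P (nat_lit 0)) (M (nat_lit 22477953384775679))) (P (nat_lit 0)))) (T.h (T.h (T.h (P (nat_lit 5476421613685571584)) (T.h (P (nat_lit 0)) (M (nat_lit 4136082018047)))) (T.h (P (nat_lit 0)) (P (nat_lit 3880953721632)))) (T.h (P (nat_lit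 0)) (M (nat_lit 1226078413135)))))))), (T.h (T.h (T.h (P (nat_lit 0)) (T.h (M (nat_lit 7964465409808473183024578559)) (T.h (P (nat_lit 0)) (T.h (P (nat_lit 7119774854517733982208)) (T.h (P (nat_lit 0)) (P (nat_lit 148082487392174080))))))) (T.h (P (nat_lit 0)) (T.h (T.h (P (nat_lit 0)) (T.h (P (nat_lit 135355189748246979280896)) (T.h (P (nat_lit 0)) (P (nat_lit 285802558304780288))))) (T.h (P (nat_lit 0)) (T.h (T.h (P (nat_lit 0)) (P (nat_lit 11688336278388736))) (P (nat_lit 0))))))) (T.h (T.h (P (nat_lit 0)) (T.h (T.h (P (nat_lit 36565551147893332237090816)) (T.h (P (nat_lit 0)) (T.h (P (nat_lit 136602560658321440768)) (T.h (P (nat_lit 0)) (P (nat_lit 206420040118656)))))) (T.h (P (nat_lit 0)) (T.h (T.h (P (nat_lit 22323664257476984832)) (T.h (P (nat_lit 0)) (P (nat_lit 66324274011008)))) (T.h (P (nat_lit 0)) (M (nat_lit 24139558673279))))))) (T.h (T.h (T.h (P (nat_lit 0)) (T.h (P (nat_lit 23922005058509963526144)) (T.h (P (nat_lit 0)) (M (nat_lit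 35586079954829311))))) (T.h (P (nat_lit 0)) (T.h (T.h (P (nat_lit 0)) (M (nat_lit 76855338413654015))) (P (nat_lit 0))))) (T.h (T.h (P (nat_lit 0)) (T.h (T.h (M (nat_lit 40838291985006591999)) (T.h (P (nat_lit 0)) (M (nat_lit 9075415495295)))) (T.h (P (nat_lit 0)) (P (nat_lit 4242820383296))))) (T.h (T.h (T.h (P (nat_lit 0)) (M (nat_lit 19433905954488319))) (P (nat_lit 0))) (T.h (T.h (P (nat_lit 0)) (P (nat_lit 2955205671168))) (P (nat_lit 0)))))))), (T.h (T.h (T.h (M (nat_lit 6550205974850090925245048291327)) (T.h (P (nat_lit 0)) (T.h (M (nat_lit 10820930293763412938719231)) (T.h (P (nat_lit 0)) (T.h (P (nat_lit 10167124700157706240)) (T.h (P (nat_lit 0)) (M (nat_lit 1900902457007)))))))) (T.h (P (nat_lit 0)) (T.h (T.h (P (nat_lit 24644433191013854713217024)) (T.h (P (nat_lit 0)) (T.h (P (nat_lit 247730919216223617024)) (T.h (P (nat_lit 0)) (P (nat_lit 135693679464000)))))) (T.h (P (nat_lit 0)) (T.h (T.h (P (nat_lit 12995145507583033344)) (T.h (P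 (nat_lit 0)) (M (nat_lit 29246983189487)))) (T.h (P (nat_lit 0)) (M (nat_lit 12383001643247)))))))) (T.h (T.h (P (nat_lit 0)) (T.h (T.h (P (nat_lit 0)) (T.h (P (nat_lit 9561867817973534687232)) (T.h (P (nat_lit 0)) (M (nat_lit 202715487664177151))))) (T.h (P (nat_lit 0)) (T.h (T.h (P (nat_lit 0)) (M (nat_lit 36175207789887487))) (P (nat_lit 0)))))) (T.h (T.h (T.h (P (nat_lit 914669431254911916441600)) (T.h (P (nat_lit 0)) (T.h (P (nat_lit 32321156511269126144)) (T.h (P (nat_lit 0)) (M (nat_lit 154054818207791)))))) (T.h (P (nat_lit 0)) (T.h (T.h (P (nat_lit 16663814109501849600)) (T.h (P (nat_lit 0)) (M (nat_lit 154284181097903)))) (T.h (P (nat_lit 0)) (P (nat_lit 3747522647088)))))) (T.h (T.h (P (nat_lit 0)) (T.h (T.h (P (nat_lit 0)) (M (nat_lit 2980120280563711))) (P (nat_lit 0)))) (T.h (T.h (T.h (M (nat_lit 10956550989288570879)) (T.h (P (nat_lit 0)) (M (nat_lit 40633845785423)))) (T.h (P (nat_lit 0)) (M (nat_lit 40758030476063)))) (T.h (P (nat_lit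 0)) (P (nat_lit 2262664312560)))))))), (T.h (T.h (T.h (P (nat_lit 0)) (T.h (P (nat_lit 5938840239767262457329876992)) (T.h (P (nat_lit 0)) (T.h (M (nat_lit 15260972577348049174527)) (T.h (P (nat_lit 0)) (M (nat_lit 68021766630866943))))))) (T.h (P (nat_lit 0)) (T.h (T.h (P (nat_lit 0)) (T.h (M (nat_lit 83505656668972851920895)) (T.h (P (nat_lit 0)) (M (nat_lit 112761797231247359))))) (T.h (P (nat_lit 0)) (T.h (T.h (P (nat_lit 0)) (P (nat_lit 17569552337108992))) (P (nat_lit 0))))))) (T.h (T.h (P (nat_lit 0)) (T.h (T.h (M (nat_lit 8121832179209592299847679)) (T.h (P (nat_lit 0)) (M (nat_lit 9408689513531703295)))) (T.h (P (nat_lit 0)) (P (nat_lit 18589109809936596992))))) (T.h (T.h (T.h (P (nat_lit 0)) (T.h (M (nat_lit 32448110580492473991167)) (T.h (P (nat_lit 0)) (P (nat_lit 176124080196288512))))) (T.h (P (nat_lit 0)) (T.h (T.h (P (nat_lit 0)) (P (nat_lit 99906550954229760))) (P (nat_lit 0))))) (T.h (T.h (P (nat_lit 0)) (M (nat_lit 6818117037345210367)))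 (T.h (T.h (T.h (P (nat_lit 0)) (P (nat_lit 14493620268662784))) (P (nat_lit 0))) (P (nat_lit 0))))))), (P (nat_lit 0))]
def lQm_3 : List (T ℤ) := [(P (nat_lit 0)), (T.h (T.h (P (nat_lit 0)) (T.h (T.h (M (nat_lit 1842636641669992651706859519)) (T.h (P (nat_lit 0)) (T.h (P (nat_lit 524702051116670517248)) (T.h (P (nat_lit 0)) (M (nat_lit 10857135824961535)))))) (T.h (P (nat_lit 0)) (T.h (T.h (M (nat_lit 3692873907294676451327)) (T.h (P (nat_lit 0)) (M (nat_lit 31824348569567231)))) (T.h (P (nat_lit 0)) (P (nat_lit 7481609000026112))))))) (T.h (T.h (T.h (P (nat_lit 0)) (T.h (P (nat_lit 3133008150478943286198272)) (T.h (P (nat_lit 0)) (T.h (M (nat_lit 1574276201889923071)) (T.h (P (nat_lit 0)) (M (nat_lit 1092306519703))))))) (T.h (P (nat_lit 0)) (T.h (T.h (P (nat_lit 0)) (T.h (P (nat_lit 75911826115607396352)) (T.h (P (nat_lit 0)) (M (nat_lit 1718313203015))))) (T.h (P (nat_lit 0)) (T.h (T.h (P (nat_lit 0)) (P (nat_lit 11983016506304))) (P (nat_lit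 0))))))) (T.h (T.h (P (nat_lit 0)) (T.h (T.h (P (nat_lit 4907546594058516299776)) (T.h (P (nat_lit 0)) (M (nat_lit 19556106663329791)))) (T.h (P (nat_lit 0)) (M (nat_lit 5832632511725567))))) (T.h (T.h (T.h (P (nat_lit 0)) (T.h (P (nat_lit 4506255607094837248)) (T.h (P (nat_lit 0)) (P (nat_lit 4428334664712))))) (T.h (P (nat_lit 0)) (T.h (T.h (P (nat_lit 0)) (M (nat_lit 9670404085391))) (P (nat_lit 0))))) (T.h (T.h (P (nat_lit 0)) (M (nat_lit 20897473785757695))) (T.h (T.h (T.h (P (nat_lit 0)) (P (nat_lit 8114091958648))) (P (nat_lit 0))) (P (nat_lit 0)))))))), (T.h (T.h (P (nat_lit 0)) (T.h (T.h (P (nat_lit 0)) (T.h (M (nat_lit 42890317912544783647113215)) (T.h (P (nat_lit 0)) (T.h (P (nat_lit 79130121664399933440)) (T.h (P (nat_lit 0)) (P (nat_lit 16513881934288))))))) (T.h (P (nat_lit 0)) (T.h (T.h (P (nat_lit 0)) (T.h (P (nat_lit 79130121664399933440)) (T.h (P (nat_lit 0)) (M (nat_lit 399778677697119))))) (T.h (P (nat_lit 0)) (T.h (T.h (P (nat_lit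 0)) (P (nat_lit 16513881934288))) (P (nat_lit 0)))))))) (T.h (T.h (T.h (M (nat_lit 7510137570867912732181528575)) (T.h (P (nat_lit 0)) (T.h (M (nat_lit 5896902701901632503807)) (T.h (P (nat_lit 0)) (M (nat_lit 42764403516555263)))))) (T.h (P (nat_lit 0)) (T.h (T.h (M (nat_lit 5896902701901632503807)) (T.h (P (nat_lit 0)) (P (nat_lit 274027275200200704)))) (T.h (P (nat_lit 0)) (M (nat_lit 42764403516555263)))))) (T.h (T.h (P (nat_lit 0)) (T.h (T.h (P (nat_lit 0)) (T.h (P (nat_lit 20428739442244583424)) (T.h (P (nat_lit 0)) (P (nat_lit 48030240726480))))) (T.h (P (nat_lit 0)) (T.h (T.h (P (nat_lit 0)) (P (nat_lit 48030240726480))) (P (nat_lit 0)))))) (T.h (T.h (T.h (P (nat_lit 5625047517624010801152)) (T.h (P (nat_lit 0)) (M (nat_lit 773751558242303)))) (T.h (P (nat_lit 0)) (M (nat_lit 773751558242303)))) (T.h (T.h (P (nat_lit 0)) (T.h (T.h (P (nat_lit 0)) (P (nat_lit 191230761875616))) (P (nat_lit 0)))) (M (nat_lit 4707057777278975))))))), (T.h (T.h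 (P (nat_lit 0)) (T.h (T.h (P (nat_lit 1423075270604688150537175040)) (T.h (P (nat_lit 0)) (T.h (P (nat_lit 102376935112423459782656)) (T.h (P (nat_lit 0)) (M (nat_lit 90922673937416191)))))) (T.h (P (nat_lit 0)) (T.h (T.h (P (nat_lit 31541551321386582016000)) (T.h (P (nat_lit 0)) (P (nat_lit 583663088441327616)))) (T.h (P (nat_lit 0)) (M (nat_lit 83195228683403263))))))) (T.h (T.h (T.h (P (nat_lit 0)) (T.h (M (nat_lit 29511644478875987024543743)) (T.h (P (nat_lit 0)) (T.h (M (nat_lit 21689621509727846399)) (T.h (P (nat_lit 0)) (M (nat_lit 30960665769471))))))) (T.h (P (nat_lit 0)) (T.h (T.h (P (nat_lit 0)) (T.h (M (nat_lit 153691193197182582783)) (T.h (P (nat_lit 0)) (P (nat_lit 114302531773696))))) (T.h (P (nat_lit 0)) (T.h (T.h (P (nat_lit 0)) (M (nat_lit 50090625483519))) (P (nat_lit 0))))))) (T.h (T.h (P (nat_lit 0)) (T.h (T.h (P (nat_lit 13965267832501478359040)) (T.h (P (nat_lit 0)) (M (nat_lit 219915359221579775)))) (T.h (P (nat_lit 0)) (M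 (nat_lit 56911183249440767))))) (T.h (T.h (T.h (P (nat_lit 0)) (T.h (M (nat_lit 2035048669127901183)) (T.h (P (nat_lit 0)) (P (nat_lit 17904918011520))))) (T.h (P (nat_lit 0)) (T.h (T.h (P (nat_lit 0)) (P (nat_lit 40199411623104))) (P (nat_lit 0))))) (T.h (T.h (P (nat_lit 0)) (M (nat_lit 53881761470775295))) (T.h (T.h (T.h (P (nat_lit 0)) (M (nat_lit 605003879999))) (P (nat_lit 0))) (P (nat_lit 0)))))))), (T.h (T.h (P (nat_lit 0)) (T.h (T.h (P (nat_lit 0)) (T.h (P (nat_lit 3925105225115737463455744)) (T.h (P (nat_lit 0)) (T.h (P (nat_lit 339200111039458836480)) (T.h (P (nat_lit 0)) (P (nat_lit 418099953986208))))))) (T.h (P (nat_lit 0)) (T.h (T.h (P (nat_lit 0)) (T.h (M (nat_lit 70756264808229634047)) (T.h (P (nat_lit 0)) (P (nat_lit 356919587573616))))) (T.h (P (nat_lit 0)) (T.h (T.h (P (nat_lit 0)) (M (nat_lit 153484319177423))) (P (nat_lit 0)))))))) (T.h (T.h (T.h (M (nat_lit 5651764205519451235941351423)) (T.h (P (nat_lit 0)) (T.h (M (nat_lit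 12670811359082753032191)) (T.h (P (nat_lit 0)) (P (nat_lit 201008201338093568)))))) (T.h (P (nat_lit 0)) (T.h (T.h (P (nat_lit 5401474684980102692864)) (T.h (P (nat_lit 0)) (M (nat_lit 208198211023503359)))) (T.h (P (nat_lit 0)) (P (nat_lit 31510804217823232)))))) (T.h (T.h (P (nat_lit 0)) (T.h (T.h (P (nat_lit 0)) (T.h (P (nat_lit 29510078247831863296)) (T.h (P (nat_lit 0)) (M (nat_lit 111663856591199))))) (T.h (P (nat_lit 0)) (T.h (T.h (P (nat_lit 0)) (P (nat_lit 157454749658304))) (P (nat_lit 0)))))) (T.h (T.h (T.h (P (nat_lit 2150413618614238183424)) (T.h (P (nat_lit 0)) (M (nat_lit 39058420179075071)))) (T.h (P (nat_lit 0)) (M (nat_lit 16334309095342079)))) (T.h (T.h (P (nat_lit 0)) (T.h (T.h (P (nat_lit 0)) (M (nat_lit 235517594865407))) (P (nat_lit 0)))) (P (nat_lit 2760467853754368))))))), (T.h (T.h (P (nat_lit 0)) (T.h (T.h (M (nat_lit 19010715559394962457480921087)) (T.h (P (nat_lit 0)) (T.h (M (nat_lit 337256168840861870718975)) (T.h (P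 (nat_lit 0)) (M (nat_lit 537460537767034879)))))) (T.h (P (nat_lit 0)) (T.h (T.h (P (nat_lit 17167194726438533070848)) (T.h (P (nat_lit 0)) (M (nat_lit 217035851084890111)))) (T.h (P (nat_lit 0)) (P (nat_lit 51833134429732864))))))) (T.h (T.h (T.h (P (nat_lit 0)) (T.h (M (nat_lit 11796831539250381828653055)) (T.h (P (nat_lit 0)) (M (nat_lit 201848382004607844351))))) (T.h (P (nat_lit 0)) (T.h (T.h (P (nat_lit 0)) (P (nat_lit 27730665333827043328))) (P (nat_lit 0))))) (T.h (T.h (P (nat_lit 0)) (T.h (T.h (M (nat_lit 4534848523537343315967)) (T.h (P (nat_lit 0)) (P (nat_lit 146445637852594176)))) (T.h (P (nat_lit 0)) (M (nat_lit 39240781425016831))))) (T.h (T.h (T.h (P (nat_lit 0)) (P (nat_lit 11447994264663883776))) (P (nat_lit 0))) (T.h (T.h (P (nat_lit 0)) (P (nat_lit 72142769679368192))) (P (nat_lit 0))))))), (P (nat_lit 0)), (P (nat_lit 0))]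
def lQm_4 : List (T ℤ) := [(T.h (T.h (T.h (P (nat_lit 0)) (T.h (M (nat_lit 6109297295370027237344542719)) (T.h (P (nat_lit 0)) (T.h (M (nat_lit 6470624315378690424831)) (T.h (P (nat_lit 0)) (P (nat_lit 7102852997021696))))))) (T.h (P (nat_lit 0)) (T.h (T.h (P (nat_lit 0)) (T.h (M (nat_lit 3043298767001555566591)) (T.h (P (nat_lit 0)) (M (nat_lit 23901466144571391))))) (T.h (P (nat_lit 0)) (T.h (T.h (P (nat_lit 0)) (P (nat_lit 42195277170933760))) (P (nat_lit 0))))))) (T.h (T.h (P (nat_lit 0)) (T.h (T.h (P (nat_lit 284033478414364619833344)) (T.h (P (nat_lit 0)) (T.h (M (nat_lit 849028859926937599)) (T.h (P (nat_lit 0)) (M (nat_lit 8644918464695)))))) (T.h (P (nat_lit 0)) (T.h (T.h (P (nat_lit 5938503625511796736)) (T.h (P (nat_lit 0)) (P (nat_lit 72270515840056)))) (T.h (P (nat_lit 0)) (M (nat_lit 11280567779311))))))) (T.h (T.h (T.h (P (nat_lit 0)) (T.h (M (nat_lit 1686258149179302871039)) (T.h (P (nat_lit 0)) (P (nat_lit 433781979512832))))) (T.h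 (P (nat_lit 0)) (T.h (T.h (P (nat_lit 0)) (P (nat_lit 1978227750830080))) (P (nat_lit 0))))) (T.h (T.h (P (nat_lit 0)) (T.h (T.h (M (nat_lit 2140135256919900159)) (T.h (P (nat_lit 0)) (M (nat_lit 365975489447)))) (T.h (P (nat_lit 0)) (M (nat_lit 1179281324743))))) (T.h (T.h (T.h (P (nat_lit 0)) (M (nat_lit 417833758719999))) (P (nat_lit 0))) (T.h (T.h (P (nat_lit 0)) (P (nat_lit 2562489162784))) (P (nat_lit 0)))))))), (T.h (T.h (T.h (M (nat_lit 4760559981841400535819587944447)) (T.h (P (nat_lit 0)) (T.h (M (nat_lit 23554564491741895231275007)) (T.h (P (nat_lit 0)) (T.h (M (nat_lit 26277287895165304831)) (T.h (P (nat_lit 0)) (P (nat_lit 5106811990464)))))))) (T.h (P (nat_lit 0)) (T.h (T.h (M (nat_lit 12686087327818927969402879)) (T.h (P (nat_lit 0)) (T.h (M (nat_lit 98180377231073738751)) (T.h (P (nat_lit 0)) (M (nat_lit 35834186439263)))))) (T.h (P (nat_lit 0)) (T.h (T.h (P (nat_lit 79083973133016760320)) (T.h (P (nat_lit 0)) (M (nat_lit 19123657897535))))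 (T.h (P (nat_lit 0)) (P (nat_lit 33595231580112)))))))) (T.h (T.h (P (nat_lit 0)) (T.h (T.h (P (nat_lit 0)) (T.h (P (nat_lit 5718149774113176027136)) (T.h (P (nat_lit 0)) (M (nat_lit 87735198484725759))))) (T.h (P (nat_lit 0)) (T.h (T.h (P (nat_lit 0)) (P (nat_lit 88374154776510464))) (P (nat_lit 0)))))) (T.h (T.h (T.h (P (nat_lit 770520881638916390649856)) (T.h (P (nat_lit 0)) (T.h (M (nat_lit 6340317228499468287)) (T.h (P (nat_lit 0)) (M (nat_lit 2332677536639)))))) (T.h (P (nat_lit 0)) (T.h (T.h (M (nat_lit 20620189100488523775)) (T.h (P (nat_lit 0)) (M (nat_lit 23507951099487)))) (T.h (P (nat_lit 0)) (P (nat_lit 52052519111328)))))) (T.h (T.h (P (nat_lit 0)) (T.h (T.h (P (nat_lit 0)) (M (nat_lit 22477953384775679))) (P (nat_lit 0)))) (T.h (T.h (T.h (P (nat_lit 5476421613685571584)) (T.h (P (nat_lit 0)) (P (nat_lit 3880953721632)))) (T.h (P (nat_lit 0)) (M (nat_lit 4136082018047)))) (T.h (P (nat_lit 0)) (M (nat_lit 1226078413135)))))))), (T.h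 (T.h (T.h (P (nat_lit 0)) (T.h (P (nat_lit 1423075270604688150537175040)) (T.h (P (nat_lit 0)) (T.h (P (nat_lit 31541551321386582016000)) (T.h (P (nat_lit 0)) (M (nat_lit 83195228683403263))))))) (T.h (P (nat_lit 0)) (T.h (T.h (P (nat_lit 0)) (T.h (P (nat_lit 102376935112423459782656)) (T.h (P (nat_lit 0)) (P (nat_lit 583663088441327616))))) (T.h (P (nat_lit 0)) (T.h (T.h (P (nat_lit 0)) (M (nat_lit 90922673937416191))) (P (nat_lit 0))))))) (T.h (T.h (P (nat_lit 0)) (T.h (T.h (M (nat_lit 29511644478875987024543743)) (T.h (P (nat_lit 0)) (T.h (M (nat_lit 153691193197182582783)) (T.h (P (nat_lit 0)) (M (nat_lit 50090625483519)))))) (T.h (P (nat_lit 0)) (T.h (T.h (M (nat_lit 21689621509727846399)) (T.h (P (nat_lit 0)) (P (nat_lit 114302531773696)))) (T.h (P (nat_lit 0)) (M (nat_lit 30960665769471))))))) (T.h (T.h (T.h (P (nat_lit 0)) (T.h (P (nat_lit 13965267832501478359040)) (T.h (P (nat_lit 0)) (M (nat_lit 56911183249440767))))) (T.h (P (nat_lit 0))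 (T.h (T.h (P (nat_lit 0)) (M (nat_lit 219915359221579775))) (P (nat_lit 0))))) (T.h (T.h (P (nat_lit 0)) (T.h (T.h (M (nat_lit 2035048669127901183)) (T.h (P (nat_lit 0)) (P (nat_lit 40199411623104)))) (T.h (P (nat_lit 0)) (P (nat_lit 17904918011520))))) (T.h (T.h (T.h (P (nat_lit 0)) (M (nat_lit 53881761470775295))) (P (nat_lit 0))) (T.h (T.h (P (nat_lit 0)) (M (nat_lit 605003879999))) (P (nat_lit 0)))))))), (T.h (T.h (T.h (P (nat_lit 2123357838476180763854191460352)) (T.h (P (nat_lit 0)) (T.h (M (nat_lit 22516782888906730065887231)) (T.h (P (nat_lit 0)) (T.h (M (nat_lit 104061882536860581887)) (T.h (P (nat_lit 0)) (M (nat_lit 123801535670687)))))))) (T.h (P (nat_lit 0)) (T.h (T.h (M (nat_lit 22516782888906730065887231)) (T.h (P (nat_lit 0)) (T.h (M (nat_lit 524537083175312031743)) (T.h (P (nat_lit 0)) (P (nat_lit 8403018471936)))))) (T.h (P (nat_lit 0)) (T.h (T.h (M (nat_lit 104061882536860581887)) (T.h (P (nat_lit 0)) (P (nat_lit 8403018471936))))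 (T.h (P (nat_lit 0)) (M (nat_lit 123801535670687)))))))) (T.h (T.h (P (nat_lit 0)) (T.h (T.h (P (nat_lit 0)) (T.h (M (nat_lit 117849340262303427198975)) (T.h (P (nat_lit 0)) (M (nat_lit 269575616239108095))))) (T.h (P (nat_lit 0)) (T.h (T.h (P (nat_lit 0)) (M (nat_lit 269575616239108095))) (P (nat_lit 0)))))) (T.h (T.h (T.h (M (nat_lit 3569970915382682005274623)) (T.h (P (nat_lit 0)) (T.h (P (nat_lit 10043804351757025280)) (T.h (P (nat_lit 0)) (P (nat_lit 41722221577392)))))) (T.h (P (nat_lit 0)) (T.h (T.h (P (nat_lit 10043804351757025280)) (T.h (P (nat_lit 0)) (P (nat_lit 330438239353728)))) (T.h (P (nat_lit 0)) (P (nat_lit 41722221577392)))))) (T.h (T.h (P (nat_lit 0)) (T.h (T.h (P (nat_lit 0)) (P (nat_lit 98096991864422400))) (P (nat_lit 0)))) (T.h (T.h (T.h (P (nat_lit 10733473574665846784)) (T.h (P (nat_lit 0)) (P (nat_lit 51762713890032)))) (T.h (P (nat_lit 0)) (P (nat_lit 51762713890032)))) (T.h (P (nat_lit 0)) (M (nat_lit 2380305145823)))))))),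 (T.h (T.h (T.h (P (nat_lit 0)) (T.h (P (nat_lit 4622686116289818125836222464)) (T.h (P (nat_lit 0)) (T.h (P (nat_lit 67326681209505262338048)) (T.h (P (nat_lit 0)) (P (nat_lit 73889396061962240))))))) (T.h (P (nat_lit 0)) (T.h (T.h (P (nat_lit 0)) (T.h (P (nat_lit 210632273554275901112320)) (T.h (P (nat_lit 0)) (M (nat_lit 251305719263821823))))) (T.h (P (nat_lit 0)) (T.h (T.h (P (nat_lit 0)) (P (nat_lit 170806740523974656))) (P (nat_lit 0))))))) (T.h (T.h (P (nat_lit 0)) (T.h (T.h (P (nat_lit 32368617483080180722302976)) (T.h (P (nat_lit 0)) (P (nat_lit 210714216620942688256)))) (T.h (P (nat_lit 0)) (P (nat_lit 70812932436679196672))))) (T.h (T.h (T.h (P (nat_lit 0)) (T.h (P (nat_lit 5038203398620824207360)) (T.h (P (nat_lit 0)) (M (nat_lit 12566762318135295))))) (T.h (P (nat_lit 0)) (T.h (T.h (P (nat_lit 0)) (M (nat_lit 257875223365943295))) (P (nat_lit 0))))) (T.h (T.h (P (nat_lit 0)) (M (nat_lit 30422275876538286079))) (T.h (T.h (T.h (P (nat_lit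 0)) (P (nat_lit 30035550910087168))) (P (nat_lit 0))) (P (nat_lit 0))))))), (P (nat_lit 0)), (P (nat_lit 0)), (T.h (T.h (P (nat_lit 0)) (T.h (T.h (P (nat_lit 3839514313513014043615428608)) (T.h (P (nat_lit 0)) (T.h (M (nat_lit 1686860910799498510335)) (T.h (P (nat_lit 0)) (P (nat_lit 1885774712307712)))))) (T.h (P (nat_lit 0)) (T.h (T.h (M (nat_lit 3646535431745731297279)) (T.h (P (nat_lit 0)) (P (nat_lit 4778343383728128)))) (T.h (P (nat_lit 0)) (P (nat_lit 137409198948352))))))) (T.h (T.h (T.h (P (nat_lit 0)) (T.h (M (nat_lit 2802841087763088546988031)) (T.h (P (nat_lit 0)) (T.h (M (nat_lit 1002591225452167167)) (T.h (P (nat_lit 0)) (M (nat_lit 1007079246327))))))) (T.h (P (nat_lit 0)) (T.h (T.h (P (nat_lit 0)) (T.h (P (nat_lit 15043258930488672256)) (T.h (P (nat_lit 0)) (P (nat_lit 6893533280160))))) (T.h (P (nat_lit 0)) (T.h (T.h (P (nat_lit 0)) (P (nat_lit 90631147302592))) (P (nat_lit 0))))))) (T.h (T.h (P (nat_lit 0)) (T.h (T.h (M (nat_lit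 1686860910799498510335)) (T.h (P (nat_lit 0)) (M (nat_lit 9154749834854399)))) (T.h (P (nat_lit 0)) (P (nat_lit 4778343383728128))))) (T.h (T.h (T.h (P (nat_lit 0)) (T.h (M (nat_lit 1002591225452167167)) (T.h (P (nat_lit 0)) (M (nat_lit 48440508655))))) (T.h (P (nat_lit 0)) (T.h (T.h (P (nat_lit 0)) (P (nat_lit 6893533280160))) (P (nat_lit 0))))) (T.h (T.h (P (nat_lit 0)) (P (nat_lit 1885774712307712))) (T.h (T.h (T.h (P (nat_lit 0)) (M (nat_lit 1007079246327))) (P (nat_lit 0))) (P (nat_lit 0))))))))]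
def lQm_5 : List (T ℤ) := [(T.h (T.h (P (nat_lit 0)) (T.h (T.h (P (nat_lit 0)) (T.h (P (nat_lit 7108667783362390295314432)) (T.h (P (nat_lit 0)) (T.h (P (nat_lit 6429138738500075520)) (T.h (P (nat_lit 0)) (M (nat_lit 2171138809055))))))) (T.h (P (nat_lit 0)) (T.h (T.h (P (nat_lit 0)) (T.h (M (nat_lit 154584634236227026943)) (T.h (P (nat_lit 0)) (P (nat_lit 19834863972112))))) (T.h (P (nat_lit 0)) (T.h (T.h (P (nat_lit 0)) (M (nat_lit 335941989346463))) (P (nat_lit 0)))))))) (T.h (T.h (T.h (M (nat_lit 8791771181520521901880901631)) (T.h (P (nat_lit 0)) (T.h (P (nat_lit 9840168828146097848320)) (T.h (P (nat_lit 0)) (P (nat_lit 28202771527335936)))))) (T.h (P (nat_lit 0)) (T.h (T.h (P (nat_lit 22020359117771091476480)) (T.h (P (nat_lit 0)) (P (nat_lit 38653626529546240)))) (T.h (P (nat_lit 0)) (M (nat_lit 121640918615326719)))))) (T.h (T.h (P (nat_lit 0)) (T.h (T.h (P (nat_lit 0)) (T.h (M (nat_lit 6625341527327506431)) (T.h (P (nat_lit 0)) (P (nat_lit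 7731991111936))))) (T.h (P (nat_lit 0)) (T.h (T.h (P (nat_lit 0)) (P (nat_lit 19291176429520))) (P (nat_lit 0)))))) (T.h (T.h (T.h (P (nat_lit 1197127384719865937920)) (T.h (P (nat_lit 0)) (P (nat_lit 8554117372231680)))) (T.h (P (nat_lit 0)) (M (nat_lit 644596779991039)))) (T.h (T.h (P (nat_lit 0)) (T.h (T.h (P (nat_lit 0)) (M (nat_lit 6391443606815))) (P (nat_lit 0)))) (M (nat_lit 578348013797375))))))), (T.h (T.h (P (nat_lit 0)) (T.h (T.h (M (nat_lit 7964465409808473183024578559)) (T.h (P (nat_lit 0)) (T.h (P (nat_lit 135355189748246979280896)) (T.h (P (nat_lit 0)) (P (nat_lit 11688336278388736)))))) (T.h (P (nat_lit 0)) (T.h (T.h (P (nat_lit 7119774854517733982208)) (T.h (P (nat_lit 0)) (P (nat_lit 285802558304780288)))) (T.h (P (nat_lit 0)) (P (nat_lit 148082487392174080))))))) (T.h (T.h (T.h (P (nat_lit 0)) (T.h (P (nat_lit 36565551147893332237090816)) (T.h (P (nat_lit 0)) (T.h (P (nat_lit 22323664257476984832)) (T.h (P (nat_lit 0)) (M (nat_lit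 24139558673279))))))) (T.h (P (nat_lit 0)) (T.h (T.h (P (nat_lit 0)) (T.h (P (nat_lit 136602560658321440768)) (T.h (P (nat_lit 0)) (P (nat_lit 66324274011008))))) (T.h (P (nat_lit 0)) (T.h (T.h (P (nat_lit 0)) (P (nat_lit 206420040118656))) (P (nat_lit 0))))))) (T.h (T.h (P (nat_lit 0)) (T.h (T.h (P (nat_lit 23922005058509963526144)) (T.h (P (nat_lit 0)) (M (nat_lit 76855338413654015)))) (T.h (P (nat_lit 0)) (M (nat_lit 35586079954829311))))) (T.h (T.h (T.h (P (nat_lit 0)) (T.h (M (nat_lit 40838291985006591999)) (T.h (P (nat_lit 0)) (P (nat_lit 4242820383296))))) (T.h (P (nat_lit 0)) (T.h (T.h (P (nat_lit 0)) (M (nat_lit 9075415495295))) (P (nat_lit 0))))) (T.h (T.h (P (nat_lit 0)) (M (nat_lit 19433905954488319))) (T.h (T.h (T.h (P (nat_lit 0)) (P (nat_lit 2955205671168))) (P (nat_lit 0))) (P (nat_lit 0)))))))), (T.h (T.h (P (nat_lit 0)) (T.h (T.h (P (nat_lit 0)) (T.h (P (nat_lit 3925105225115737463455744)) (T.h (P (nat_lit 0)) (T.h (M (nat_lit 70756264808229634047))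 (T.h (P (nat_lit 0)) (M (nat_lit 153484319177423))))))) (T.h (P (nat_lit 0)) (T.h (T.h (P (nat_lit 0)) (T.h (P (nat_lit 339200111039458836480)) (T.h (P (nat_lit 0)) (P (nat_lit 356919587573616))))) (T.h (P (nat_lit 0)) (T.h (T.h (P (nat_lit 0)) (P (nat_lit 418099953986208))) (P (nat_lit 0)))))))) (T.h (T.h (T.h (M (nat_lit 5651764205519451235941351423)) (T.h (P (nat_lit 0)) (T.h (P (nat_lit 5401474684980102692864)) (T.h (P (nat_lit 0)) (P (nat_lit 31510804217823232)))))) (T.h (P (nat_lit 0)) (T.h (T.h (M (nat_lit 12670811359082753032191)) (T.h (P (nat_lit 0)) (M (nat_lit 208198211023503359)))) (T.h (P (nat_lit 0)) (P (nat_lit 201008201338093568)))))) (T.h (T.h (P (nat_lit 0)) (T.h (T.h (P (nat_lit 0)) (T.h (P (nat_lit 29510078247831863296)) (T.h (P (nat_lit 0)) (P (nat_lit 157454749658304))))) (T.h (P (nat_lit 0)) (T.h (T.h (P (nat_lit 0)) (M (nat_lit 111663856591199))) (P (nat_lit 0)))))) (T.h (T.h (T.h (P (nat_lit 2150413618614238183424)) (T.h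 (P (nat_lit 0)) (M (nat_lit 16334309095342079)))) (T.h (P (nat_lit 0)) (M (nat_lit 39058420179075071)))) (T.h (T.h (P (nat_lit 0)) (T.h (T.h (P (nat_lit 0)) (M (nat_lit 235517594865407))) (P (nat_lit 0)))) (P (nat_lit 2760467853754368))))))), (T.h (T.h (P (nat_lit 0)) (T.h (T.h (P (nat_lit 4622686116289818125836222464)) (T.h (P (nat_lit 0)) (T.h (P (nat_lit 210632273554275901112320)) (T.h (P (nat_lit 0)) (P (nat_lit 170806740523974656)))))) (T.h (P (nat_lit 0)) (T.h (T.h (P (nat_lit 67326681209505262338048)) (T.h (P (nat_lit 0)) (M (nat_lit 251305719263821823)))) (T.h (P (nat_lit 0)) (P (nat_lit 73889396061962240))))))) (T.h (T.h (T.h (P (nat_lit 0)) (T.h (P (nat_lit 32368617483080180722302976)) (T.h (P (nat_lit 0)) (P (nat_lit 70812932436679196672))))) (T.h (P (nat_lit 0)) (T.h (T.h (P (nat_lit 0)) (P (nat_lit 210714216620942688256))) (P (nat_lit 0))))) (T.h (T.h (P (nat_lit 0)) (T.h (T.h (P (nat_lit 5038203398620824207360)) (T.h (P (nat_lit 0))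 (M (nat_lit 257875223365943295)))) (T.h (P (nat_lit 0)) (M (nat_lit 12566762318135295))))) (T.h (T.h (T.h (P (nat_lit 0)) (M (nat_lit 30422275876538286079))) (P (nat_lit 0))) (T.h (T.h (P (nat_lit 0)) (P (nat_lit 30035550910087168))) (P (nat_lit 0))))))), (P (nat_lit 0)), (P (nat_lit 0)), (T.h (T.h (T.h (M (nat_lit 7433080326342683754766599716863)) (T.h (P (nat_lit 0)) (T.h (P (nat_lit 3778435464726847852380160)) (T.h (P (nat_lit 0)) (T.h (P (nat_lit 775294767817818112)) (T.h (P (nat_lit 0)) (M (nat_lit 394146612063)))))))) (T.h (P (nat_lit 0)) (T.h (T.h (M (nat_lit 10067385610448579600580607)) (T.h (P (nat_lit 0)) (T.h (M (nat_lit 26327728948397473791)) (T.h (P (nat_lit 0)) (M (nat_lit 12025278876719)))))) (T.h (P (nat_lit 0)) (T.h (T.h (P (nat_lit 4366090264486346752)) (T.h (P (nat_lit 0)) (M (nat_lit 6531616341807)))) (T.h (P (nat_lit 0)) (P (nat_lit 10239292669440)))))))) (T.h (T.h (P (nat_lit 0)) (T.h (T.h (P (nat_lit 0)) (T.h (M (nat_lit 10073615372514213494783))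 (T.h (P (nat_lit 0)) (P (nat_lit 11749017991118848))))) (T.h (P (nat_lit 0)) (T.h (T.h (P (nat_lit 0)) (M (nat_lit 153757479444742143))) (P (nat_lit 0)))))) (T.h (T.h (T.h (P (nat_lit 3778435464726847852380160)) (T.h (P (nat_lit 0)) (T.h (M (nat_lit 2350797395471630335)) (T.h (P (nat_lit 0)) (M (nat_lit 1928525502543)))))) (T.h (P (nat_lit 0)) (T.h (T.h (M (nat_lit 26327728948397473791)) (T.h (P (nat_lit 0)) (M (nat_lit 46369747134399)))) (T.h (P (nat_lit 0)) (M (nat_lit 6531616341807)))))) (T.h (T.h (P (nat_lit 0)) (T.h (T.h (P (nat_lit 0)) (P (nat_lit 11749017991118848))) (P (nat_lit 0)))) (T.h (T.h (T.h (P (nat_lit 775294767817818112)) (T.h (P (nat_lit 0)) (M (nat_lit 1928525502543)))) (T.h (P (nat_lit 0)) (M (nat_lit 12025278876719)))) (T.h (P (nat_lit 0)) (M (nat_lit 394146612063)))))))), (T.h (T.h (T.h (P (nat_lit 0)) (T.h (P (nat_lit 6839413366052023076718116864)) (T.h (P (nat_lit 0)) (T.h (P (nat_lit 12737252216992320978944)) (T.h (P (nat_lit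 0)) (M (nat_lit 17277707598233599))))))) (T.h (P (nat_lit 0)) (T.h (T.h (P (nat_lit 0)) (T.h (P (nat_lit 24888676228541148299264)) (T.h (P (nat_lit 0)) (P (nat_lit 10511957737865216))))) (T.h (P (nat_lit 0)) (T.h (T.h (P (nat_lit 0)) (P (nat_lit 395879561561014272))) (P (nat_lit 0))))))) (T.h (T.h (P (nat_lit 0)) (T.h (T.h (M (nat_lit 5168368424837279068979199)) (T.h (P (nat_lit 0)) (T.h (P (nat_lit 8926032916207632384)) (T.h (P (nat_lit 0)) (P (nat_lit 7728486802624)))))) (T.h (P (nat_lit 0)) (T.h (T.h (P (nat_lit 157094665944054104064)) (T.h (P (nat_lit 0)) (P (nat_lit 41957170643904)))) (T.h (P (nat_lit 0)) (P (nat_lit 131752181722496))))))) (T.h (T.h (T.h (P (nat_lit 0)) (T.h (M (nat_lit 84204815432911159295)) (T.h (P (nat_lit 0)) (M (nat_lit 10516355926327295))))) (T.h (P (nat_lit 0)) (T.h (T.h (P (nat_lit 0)) (M (nat_lit 103386342155976703))) (P (nat_lit 0))))) (T.h (T.h (P (nat_lit 0)) (T.h (T.h (P (nat_lit 23742450305689714688)) (T.h (P (nat_lit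 0)) (P (nat_lit 24569655262336)))) (T.h (P (nat_lit 0)) (M (nat_lit 17796002755583))))) (T.h (T.h (T.h (P (nat_lit 0)) (P (nat_lit 24592959480430592))) (P (nat_lit 0))) (T.h (T.h (P (nat_lit 0)) (M (nat_lit 2784107884415))) (P (nat_lit 0))))))))]
def lQm_6 : List (T ℤ) := [(T.h (T.h (T.h (M (nat_lit 6550205974850090925245048291327)) (T.h (P (nat_lit 0)) (T.h (P (nat_lit 24644433191013854713217024)) (T.h (P (nat_lit 0)) (T.h (P (nat_lit 12995145507583033344)) (T.h (P (nat_lit 0)) (M (nat_lit 12383001643247)))))))) (T.h (P (nat_lit 0)) (T.h (T.h (M (nat_lit 10820930293763412938719231)) (T.h (P (nat_lit 0)) (T.h (P (nat_lit 247730919216223617024)) (T.h (P (nat_lit 0)) (M (nat_lit 29246983189487)))))) (T.h (P (nat_lit 0)) (T.h (T.h (P (nat_lit 10167124700157706240)) (T.h (P (nat_lit 0)) (P (nat_lit 135693679464000)))) (T.h (P (nat_lit 0)) (M (nat_lit 1900902457007)))))))) (T.h (T.h (P (nat_lit 0)) (T.h (T.h (P (nat_lit 0)) (T.h (P (nat_lit 9561867817973534687232))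 (T.h (P (nat_lit 0)) (M (nat_lit 36175207789887487))))) (T.h (P (nat_lit 0)) (T.h (T.h (P (nat_lit 0)) (M (nat_lit 202715487664177151))) (P (nat_lit 0)))))) (T.h (T.h (T.h (P (nat_lit 914669431254911916441600)) (T.h (P (nat_lit 0)) (T.h (P (nat_lit 16663814109501849600)) (T.h (P (nat_lit 0)) (P (nat_lit 3747522647088)))))) (T.h (P (nat_lit 0)) (T.h (T.h (P (nat_lit 32321156511269126144)) (T.h (P (nat_lit 0)) (M (nat_lit 154284181097903)))) (T.h (P (nat_lit 0)) (M (nat_lit 154054818207791)))))) (T.h (T.h (P (nat_lit 0)) (T.h (T.h (P (nat_lit 0)) (M (nat_lit 2980120280563711))) (P (nat_lit 0)))) (T.h (T.h (T.h (M (nat_lit 10956550989288570879)) (T.h (P (nat_lit 0)) (M (nat_lit 40758030476063)))) (T.h (P (nat_lit 0)) (M (nat_lit 40633845785423)))) (T.h (P (nat_lit 0)) (P (nat_lit 2262664312560)))))))), (T.h (T.h (T.h (P (nat_lit 0)) (T.h (M (nat_lit 19010715559394962457480921087)) (T.h (P (nat_lit 0)) (T.h (P (nat_lit 17167194726438533070848)) (T.h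 (P (nat_lit 0)) (P (nat_lit 51833134429732864))))))) (T.h (P (nat_lit 0)) (T.h (T.h (P (nat_lit 0)) (T.h (M (nat_lit 337256168840861870718975)) (T.h (P (nat_lit 0)) (M (nat_lit 217035851084890111))))) (T.h (P (nat_lit 0)) (T.h (T.h (P (nat_lit 0)) (M (nat_lit 537460537767034879))) (P (nat_lit 0))))))) (T.h (T.h (P (nat_lit 0)) (T.h (T.h (M (nat_lit 11796831539250381828653055)) (T.h (P (nat_lit 0)) (P (nat_lit 27730665333827043328)))) (T.h (P (nat_lit 0)) (M (nat_lit 201848382004607844351))))) (T.h (T.h (T.h (P (nat_lit 0)) (T.h (M (nat_lit 4534848523537343315967)) (T.h (P (nat_lit 0)) (M (nat_lit 39240781425016831))))) (T.h (P (nat_lit 0)) (T.h (T.h (P (nat_lit 0)) (P (nat_lit 146445637852594176))) (P (nat_lit 0))))) (T.h (T.h (P (nat_lit 0)) (P (nat_lit 11447994264663883776))) (T.h (T.h (T.h (P (nat_lit 0)) (P (nat_lit 72142769679368192))) (P (nat_lit 0))) (P (nat_lit 0))))))), (P (nat_lit 0)), (P (nat_lit 0)), (T.h (T.h (P (nat_lit 0)) (T.h (T.h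 (P (nat_lit 3147512656405071884711886848)) (T.h (P (nat_lit 0)) (T.h (M (nat_lit 275758408499906740223)) (T.h (P (nat_lit 0)) (P (nat_lit 6796418048000000)))))) (T.h (P (nat_lit 0)) (T.h (T.h (P (nat_lit 13783003363915946000384)) (T.h (P (nat_lit 0)) (M (nat_lit 32178130169331711)))) (T.h (P (nat_lit 0)) (M (nat_lit 83436595345620991))))))) (T.h (T.h (T.h (P (nat_lit 0)) (T.h (P (nat_lit 639228361562408211185664)) (T.h (P (nat_lit 0)) (T.h (M (nat_lit 3612582974958075903)) (T.h (P (nat_lit 0)) (P (nat_lit 1035188088448))))))) (T.h (P (nat_lit 0)) (T.h (T.h (P (nat_lit 0)) (T.h (P (nat_lit 4295856609243955200)) (T.h (P (nat_lit 0)) (M (nat_lit 24592427548415))))) (T.h (P (nat_lit 0)) (T.h (T.h (P (nat_lit 0)) (M (nat_lit 181262294860031))) (P (nat_lit 0))))))) (T.h (T.h (P (nat_lit 0)) (T.h (T.h (M (nat_lit 275758408499906740223)) (T.h (P (nat_lit 0)) (P (nat_lit 24836961151156224)))) (T.h (P (nat_lit 0)) (M (nat_lit 32178130169331711))))) (T.h (T.h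 (T.h (P (nat_lit 0)) (T.h (M (nat_lit 3612582974958075903)) (T.h (P (nat_lit 0)) (P (nat_lit 96880908672))))) (T.h (P (nat_lit 0)) (T.h (T.h (P (nat_lit 0)) (M (nat_lit 24592427548415))) (P (nat_lit 0))))) (T.h (T.h (P (nat_lit 0)) (P (nat_lit 6796418048000000))) (T.h (T.h (T.h (P (nat_lit 0)) (P (nat_lit 1035188088448))) (P (nat_lit 0))) (P (nat_lit 0)))))))), (T.h (T.h (P (nat_lit 0)) (T.h (T.h (P (nat_lit 0)) (T.h (P (nat_lit 2647328885556425852452864)) (T.h (P (nat_lit 0)) (T.h (M (nat_lit 14044839506763317247)) (T.h (P (nat_lit 0)) (M (nat_lit 3743196082991))))))) (T.h (P (nat_lit 0)) (T.h (T.h (P (nat_lit 0)) (T.h (P (nat_lit 88326269022941216768)) (T.h (P (nat_lit 0)) (M (nat_lit 15746492039039))))) (T.h (P (nat_lit 0)) (T.h (T.h (P (nat_lit 0)) (P (nat_lit 310329193881600))) (P (nat_lit 0)))))))) (T.h (T.h (T.h (P (nat_lit 7229277941798989040011182080)) (T.h (P (nat_lit 0)) (T.h (M (nat_lit 5074626016790479634431)) (T.h (P (nat_lit 0)) (M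 (nat_lit 25150337114456063)))))) (T.h (P (nat_lit 0)) (T.h (T.h (P (nat_lit 55893712121856740294656)) (T.h (P (nat_lit 0)) (M (nat_lit 37873789833461759)))) (T.h (P (nat_lit 0)) (P (nat_lit 43907669705129984)))))) (T.h (T.h (P (nat_lit 0)) (T.h (T.h (P (nat_lit 0)) (T.h (M (nat_lit 9959165120451969023)) (T.h (P (nat_lit 0)) (M (nat_lit 43491366017423))))) (T.h (P (nat_lit 0)) (T.h (T.h (P (nat_lit 0)) (M (nat_lit 157763501468927))) (P (nat_lit 0)))))) (T.h (T.h (T.h (M (nat_lit 1700234646761114697727)) (T.h (P (nat_lit 0)) (P (nat_lit 6140512668286976)))) (T.h (P (nat_lit 0)) (P (nat_lit 24900390032965632)))) (T.h (T.h (P (nat_lit 0)) (T.h (T.h (P (nat_lit 0)) (P (nat_lit 17575024374576))) (P (nat_lit 0)))) (M (nat_lit 1766672385900543))))))), (T.h (T.h (P (nat_lit 0)) (T.h (T.h (P (nat_lit 5938840239767262457329876992)) (T.h (P (nat_lit 0)) (T.h (M (nat_lit 83505656668972851920895)) (T.h (P (nat_lit 0)) (P (nat_lit 17569552337108992)))))) (T.h (P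 (nat_lit 0)) (T.h (T.h (M (nat_lit 15260972577348049174527)) (T.h (P (nat_lit 0)) (M (nat_lit 112761797231247359)))) (T.h (P (nat_lit 0)) (M (nat_lit 68021766630866943))))))) (T.h (T.h (T.h (P (nat_lit 0)) (T.h (M (nat_lit 8121832179209592299847679)) (T.h (P (nat_lit 0)) (P (nat_lit 18589109809936596992))))) (T.h (P (nat_lit 0)) (T.h (T.h (P (nat_lit 0)) (M (nat_lit 9408689513531703295))) (P (nat_lit 0))))) (T.h (T.h (P (nat_lit 0)) (T.h (T.h (M (nat_lit 32448110580492473991167)) (T.h (P (nat_lit 0)) (P (nat_lit 99906550954229760)))) (T.h (P (nat_lit 0)) (P (nat_lit 176124080196288512))))) (T.h (T.h (T.h (P (nat_lit 0)) (M (nat_lit 6818117037345210367))) (P (nat_lit 0))) (T.h (T.h (P (nat_lit 0)) (P (nat_lit 14493620268662784))) (P (nat_lit 0))))))), (P (nat_lit 0))]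
def lQm_7 : List (T ℤ) := [(P (nat_lit 0)), (T.h (T.h (T.h (P (nat_lit 2404850019828621642210004172800)) (T.h (P (nat_lit 0)) (T.h (M (nat_lit 3441592084653494088237055)) (T.h (P (nat_lit 0)) (T.h (P (nat_lit 343924005943640064)) (T.h (P (nat_lit 0)) (P (nat_lit 485082553536)))))))) (T.h (P (nat_lit 0)) (T.h (T.h (P (nat_lit 9662666993077348152115200)) (T.h (P (nat_lit 0)) (T.h (P (nat_lit 850769915450228736)) (T.h (P (nat_lit 0)) (P (nat_lit 21823059736368)))))) (T.h (P (nat_lit 0)) (T.h (T.h (P (nat_lit 7533545651754237952)) (T.h (P (nat_lit 0)) (P (nat_lit 17223692796864)))) (T.h (P (nat_lit 0)) (M (nat_lit 18430719318143)))))))) (T.h (T.h (P (nat_lit 0)) (T.h (T.h (P (nat_lit 0)) (T.h (P (nat_lit 4858780883919092842496)) (T.h (P (nat_lit 0)) (P (nat_lit 8976329387016192))))) (T.h (P (nat_lit 0)) (T.h (T.h (P (nat_lit 0)) (P (nat_lit 221025023427870720))) (P (nat_lit 0)))))) (T.h (T.h (T.h (M (nat_lit 3441592084653494088237055)) (T.h (P (nat_lit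 0)) (T.h (M (nat_lit 4101749946523320319)) (T.h (P (nat_lit 0)) (P (nat_lit 6479329439808)))))) (T.h (P (nat_lit 0)) (T.h (T.h (P (nat_lit 850769915450228736)) (T.h (P (nat_lit 0)) (P (nat_lit 83465545105728)))) (T.h (P (nat_lit 0)) (P (nat_lit 17223692796864)))))) (T.h (T.h (P (nat_lit 0)) (T.h (T.h (P (nat_lit 0)) (P (nat_lit 8976329387016192))) (P (nat_lit 0)))) (T.h (T.h (T.h (P (nat_lit 343924005943640064)) (T.h (P (nat_lit 0)) (P (nat_lit 6479329439808)))) (T.h (P (nat_lit 0)) (P (nat_lit 21823059736368)))) (T.h (P (nat_lit 0)) (P (nat_lit 485082553536)))))))), (T.h (T.h (T.h (P (nat_lit 0)) (T.h (M (nat_lit 1069719061105742419312246783)) (T.h (P (nat_lit 0)) (T.h (P (nat_lit 4810639926731932172288)) (T.h (P (nat_lit 0)) (P (nat_lit 189485684457472))))))) (T.h (P (nat_lit 0)) (T.h (T.h (P (nat_lit 0)) (T.h (M (nat_lit 9039233065320873721855)) (T.h (P (nat_lit 0)) (M (nat_lit 9114228696940543))))) (T.h (P (nat_lit 0)) (T.h (T.h (P (nat_lit 0))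 (M (nat_lit 360924354560393215))) (P (nat_lit 0))))))) (T.h (T.h (P (nat_lit 0)) (T.h (T.h (M (nat_lit 1761177201905144919228415)) (T.h (P (nat_lit 0)) (P (nat_lit 13635200529196908544)))) (T.h (P (nat_lit 0)) (M (nat_lit 159289274093619118079))))) (T.h (T.h (T.h (P (nat_lit 0)) (T.h (P (nat_lit 167114983961662586880)) (T.h (P (nat_lit 0)) (P (nat_lit 3999072314753024))))) (T.h (P (nat_lit 0)) (T.h (T.h (P (nat_lit 0)) (P (nat_lit 69713786696892416))) (P (nat_lit 0))))) (T.h (T.h (P (nat_lit 0)) (M (nat_lit 1424453042811437055))) (T.h (T.h (T.h (P (nat_lit 0)) (M (nat_lit 6948109256065023))) (P (nat_lit 0))) (P (nat_lit 0))))))), (P (nat_lit 0)), (P (nat_lit 0)), (T.h (T.h (P (nat_lit 0)) (T.h (T.h (M (nat_lit 6946700081529947634800787455)) (T.h (P (nat_lit 0)) (T.h (P (nat_lit 2528644232359897464832)) (T.h (P (nat_lit 0)) (M (nat_lit 9931916964462591)))))) (T.h (P (nat_lit 0)) (T.h (T.h (M (nat_lit 6537014371178130702335)) (T.h (P (nat_lit 0)) (M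 (nat_lit 15677387932434431)))) (T.h (P (nat_lit 0)) (P (nat_lit 25164075442372608))))))) (T.h (T.h (T.h (P (nat_lit 0)) (T.h (P (nat_lit 2399690788163493904252928)) (T.h (P (nat_lit 0)) (P (nat_lit 822611858266521600))))) (T.h (P (nat_lit 0)) (T.h (T.h (P (nat_lit 0)) (M (nat_lit 24174887929991135231))) (P (nat_lit 0))))) (T.h (T.h (P (nat_lit 0)) (T.h (T.h (P (nat_lit 2528644232359897464832)) (T.h (P (nat_lit 0)) (M (nat_lit 37986096972562431)))) (T.h (P (nat_lit 0)) (M (nat_lit 15677387932434431))))) (T.h (T.h (T.h (P (nat_lit 0)) (P (nat_lit 822611858266521600))) (P (nat_lit 0))) (T.h (T.h (P (nat_lit 0)) (M (nat_lit 9931916964462591))) (P (nat_lit 0))))))), (P (nat_lit 0)), (P (nat_lit 0))]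
def lQm_8 : List (T ℤ) := [(P (nat_lit 0)), (P (nat_lit 0)), (P (nat_lit 0)), (T.h (T.h (P (nat_lit 0)) (T.h (T.h (P (nat_lit 0)) (T.h (P (nat_lit 284033478414364619833344)) (T.h (P (nat_lit 0)) (T.h (P (nat_lit 5938503625511796736)) (T.h (P (nat_lit 0)) (M (nat_lit 11280567779311))))))) (T.h (P (nat_lit 0)) (T.h (T.h (P (nat_lit 0)) (T.h (M (nat_lit 2140135256919900159)) (T.h (P (nat_lit 0)) (M (nat_lit 1179281324743))))) (T.h (P (nat_lit 0)) (T.h (T.h (P (nat_lit 0)) (P (nat_lit 2562489162784))) (P (nat_lit 0)))))))) (T.h (T.h (T.h (M (nat_lit 6109297295370027237344542719)) (T.h (P (nat_lit 0)) (T.h (M (nat_lit 3043298767001555566591)) (T.h (P (nat_lit 0)) (P (nat_lit 42195277170933760)))))) (T.h (P (nat_lit 0)) (T.h (T.h (M (nat_lit 1686258149179302871039)) (T.h (P (nat_lit 0)) (P (nat_lit 1978227750830080)))) (T.h (P (nat_lit 0)) (M (nat_lit 417833758719999)))))) (T.h (T.h (P (nat_lit 0)) (T.h (T.h (P (nat_lit 0)) (T.h (M (nat_lit 849028859926937599))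 (T.h (P (nat_lit 0)) (P (nat_lit 72270515840056))))) (T.h (P (nat_lit 0)) (T.h (T.h (P (nat_lit 0)) (M (nat_lit 365975489447))) (P (nat_lit 0)))))) (T.h (T.h (T.h (M (nat_lit 6470624315378690424831)) (T.h (P (nat_lit 0)) (M (nat_lit 23901466144571391)))) (T.h (P (nat_lit 0)) (P (nat_lit 433781979512832)))) (T.h (T.h (P (nat_lit 0)) (T.h (T.h (P (nat_lit 0)) (M (nat_lit 8644918464695))) (P (nat_lit 0)))) (P (nat_lit 7102852997021696))))))), (T.h (T.h (P (nat_lit 0)) (T.h (T.h (M (nat_lit 8791771181520521901880901631)) (T.h (P (nat_lit 0)) (T.h (P (nat_lit 22020359117771091476480)) (T.h (P (nat_lit 0)) (M (nat_lit 121640918615326719)))))) (T.h (P (nat_lit 0)) (T.h (T.h (P (nat_lit 1197127384719865937920)) (T.h (P (nat_lit 0)) (M (nat_lit 644596779991039)))) (T.h (P (nat_lit 0)) (M (nat_lit 578348013797375))))))) (T.h (T.h (T.h (P (nat_lit 0)) (T.h (P (nat_lit 7108667783362390295314432)) (T.h (P (nat_lit 0)) (T.h (M (nat_lit 154584634236227026943))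 (T.h (P (nat_lit 0)) (M (nat_lit 335941989346463))))))) (T.h (P (nat_lit 0)) (T.h (T.h (P (nat_lit 0)) (T.h (M (nat_lit 6625341527327506431)) (T.h (P (nat_lit 0)) (P (nat_lit 19291176429520))))) (T.h (P (nat_lit 0)) (T.h (T.h (P (nat_lit 0)) (M (nat_lit 6391443606815))) (P (nat_lit 0))))))) (T.h (T.h (P (nat_lit 0)) (T.h (T.h (P (nat_lit 9840168828146097848320)) (T.h (P (nat_lit 0)) (P (nat_lit 38653626529546240)))) (T.h (P (nat_lit 0)) (P (nat_lit 8554117372231680))))) (T.h (T.h (T.h (P (nat_lit 0)) (T.h (P (nat_lit 6429138738500075520)) (T.h (P (nat_lit 0)) (P (nat_lit 19834863972112))))) (T.h (P (nat_lit 0)) (T.h (T.h (P (nat_lit 0)) (P (nat_lit 7731991111936))) (P (nat_lit 0))))) (T.h (T.h (P (nat_lit 0)) (P (nat_lit 28202771527335936))) (T.h (T.h (T.h (P (nat_lit 0)) (M (nat_lit 2171138809055))) (P (nat_lit 0))) (P (nat_lit 0)))))))), (T.h (T.h (P (nat_lit 0)) (T.h (T.h (P (nat_lit 0)) (T.h (M (nat_lit 5168368424837279068979199)) (T.h (P (nat_lit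 0)) (T.h (P (nat_lit 157094665944054104064)) (T.h (P (nat_lit 0)) (P (nat_lit 131752181722496))))))) (T.h (P (nat_lit 0)) (T.h (T.h (P (nat_lit 0)) (T.h (P (nat_lit 23742450305689714688)) (T.h (P (nat_lit 0)) (M (nat_lit 17796002755583))))) (T.h (P (nat_lit 0)) (T.h (T.h (P (nat_lit 0)) (M (nat_lit 2784107884415))) (P (nat_lit 0)))))))) (T.h (T.h (T.h (P (nat_lit 6839413366052023076718116864)) (T.h (P (nat_lit 0)) (T.h (P (nat_lit 24888676228541148299264)) (T.h (P (nat_lit 0)) (P (nat_lit 395879561561014272)))))) (T.h (P (nat_lit 0)) (T.h (T.h (M (nat_lit 84204815432911159295)) (T.h (P (nat_lit 0)) (M (nat_lit 103386342155976703)))) (T.h (P (nat_lit 0)) (P (nat_lit 24592959480430592)))))) (T.h (T.h (P (nat_lit 0)) (T.h (T.h (P (nat_lit 0)) (T.h (P (nat_lit 8926032916207632384)) (T.h (P (nat_lit 0)) (P (nat_lit 41957170643904))))) (T.h (P (nat_lit 0)) (T.h (T.h (P (nat_lit 0)) (P (nat_lit 24569655262336))) (P (nat_lit 0)))))) (T.h (T.h (T.h (P (nat_lit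 12737252216992320978944)) (T.h (P (nat_lit 0)) (P (nat_lit 10511957737865216)))) (T.h (P (nat_lit 0)) (M (nat_lit 10516355926327295)))) (T.h (T.h (P (nat_lit 0)) (T.h (T.h (P (nat_lit 0)) (P (nat_lit 7728486802624))) (P (nat_lit 0)))) (M (nat_lit 17277707598233599))))))), (T.h (T.h (P (nat_lit 0)) (T.h (T.h (P (nat_lit 7229277941798989040011182080)) (T.h (P (nat_lit 0)) (T.h (P (nat_lit 55893712121856740294656)) (T.h (P (nat_lit 0)) (P (nat_lit 43907669705129984)))))) (T.h (P (nat_lit 0)) (T.h (T.h (M (nat_lit 1700234646761114697727)) (T.h (P (nat_lit 0)) (P (nat_lit 24900390032965632)))) (T.h (P (nat_lit 0)) (M (nat_lit 1766672385900543))))))) (T.h (T.h (T.h (P (nat_lit 0)) (T.h (P (nat_lit 2647328885556425852452864)) (T.h (P (nat_lit 0)) (T.h (P (nat_lit 88326269022941216768)) (T.h (P (nat_lit 0)) (P (nat_lit 310329193881600))))))) (T.h (P (nat_lit 0)) (T.h (T.h (P (nat_lit 0)) (T.h (M (nat_lit 9959165120451969023)) (T.h (P (nat_lit 0)) (M (nat_lit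 157763501468927))))) (T.h (P (nat_lit 0)) (T.h (T.h (P (nat_lit 0)) (P (nat_lit 17575024374576))) (P (nat_lit 0))))))) (T.h (T.h (P (nat_lit 0)) (T.h (T.h (M (nat_lit 5074626016790479634431)) (T.h (P (nat_lit 0)) (M (nat_lit 37873789833461759)))) (T.h (P (nat_lit 0)) (P (nat_lit 6140512668286976))))) (T.h (T.h (T.h (P (nat_lit 0)) (T.h (M (nat_lit 14044839506763317247)) (T.h (P (nat_lit 0)) (M (nat_lit 15746492039039))))) (T.h (P (nat_lit 0)) (T.h (T.h (P (nat_lit 0)) (M (nat_lit 43491366017423))) (P (nat_lit 0))))) (T.h (T.h (P (nat_lit 0)) (M (nat_lit 25150337114456063))) (T.h (T.h (T.h (P (nat_lit 0)) (M (nat_lit 3743196082991))) (P (nat_lit 0))) (P (nat_lit 0)))))))), (T.h (T.h (P (nat_lit 0)) (T.h (T.h (P (nat_lit 0)) (T.h (M (nat_lit 1761177201905144919228415)) (T.h (P (nat_lit 0)) (M (nat_lit 159289274093619118079))))) (T.h (P (nat_lit 0)) (T.h (T.h (P (nat_lit 0)) (M (nat_lit 1424453042811437055))) (P (nat_lit 0)))))) (T.h (T.h (T.h (M (nat_lit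 1069719061105742419312246783)) (T.h (P (nat_lit 0)) (T.h (M (nat_lit 9039233065320873721855)) (T.h (P (nat_lit 0)) (M (nat_lit 360924354560393215)))))) (T.h (P (nat_lit 0)) (T.h (T.h (P (nat_lit 167114983961662586880)) (T.h (P (nat_lit 0)) (P (nat_lit 69713786696892416)))) (T.h (P (nat_lit 0)) (M (nat_lit 6948109256065023)))))) (T.h (T.h (P (nat_lit 0)) (T.h (T.h (P (nat_lit 0)) (P (nat_lit 13635200529196908544))) (P (nat_lit 0)))) (T.h (T.h (T.h (P (nat_lit 4810639926731932172288)) (T.h (P (nat_lit 0)) (M (nat_lit 9114228696940543)))) (T.h (P (nat_lit 0)) (P (nat_lit 3999072314753024)))) (T.h (P (nat_lit 0)) (P (nat_lit 189485684457472)))))))]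
def lQm_9 : List (T ℤ) := [(P (nat_lit 0)), (P (nat_lit 0)), (T.h (T.h (T.h (M (nat_lit 151115727451828646838271)) (T.h (P (nat_lit 0)) (T.h (P (nat_lit 189151184349560832)) (T.h (P (nat_lit 0)) (T.h (M (nat_lit 35970351103)) (T.h (P (nat_lit 0)) (M (nat_lit 1172927)))))))) (T.h (P (nat_lit 0)) (T.h (T.h (P (nat_lit 1407986837174246730366976)) (T.h (P (nat_lit 0)) (T.h (P (nat_lit 49332603644305997824)) (T.h (P (nat_lit 0)) (M (nat_lit 69255640301535)))))) (T.h (P (nat_lit 0)) (T.h (T.h (M (nat_lit 2118793442287943679)) (T.h (P (nat_lit 0)) (M (nat_lit 35755284631663)))) (T.h (P (nat_lit 0)) (M (nat_lit 895310700831)))))))) (T.h (T.h (P (nat_lit 0)) (T.h (T.h (P (nat_lit 0)) (T.h (M (nat_lit 376032976699391)) (T.h (P (nat_lit 0)) (P (nat_lit 1223163904))))) (T.h (P (nat_lit 0)) (T.h (T.h (P (nat_lit 0)) (P (nat_lit 71629951102091264))) (P (nat_lit 0)))))) (T.h (T.h (T.h (P (nat_lit 1407986837174246730366976)) (T.h (P (nat_lit 0)) (T.h (P (nat_lit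 49332603644305997824)) (T.h (P (nat_lit 0)) (M (nat_lit 69255640301535)))))) (T.h (P (nat_lit 0)) (T.h (T.h (P (nat_lit 362387865600)) (T.h (P (nat_lit 0)) (P (nat_lit 1023648)))) (T.h (P (nat_lit 0)) (P (nat_lit 16431680405456)))))) (T.h (T.h (P (nat_lit 0)) (T.h (T.h (P (nat_lit 0)) (P (nat_lit 71629951102091264))) (P (nat_lit 0)))) (T.h (T.h (T.h (M (nat_lit 2118793442287943679)) (T.h (P (nat_lit 0)) (M (nat_lit 35755284631663)))) (T.h (P (nat_lit 0)) (P (nat_lit 16431680405456)))) (T.h (P (nat_lit 0)) (M (nat_lit 895310700831)))))))), (T.h (T.h (T.h (P (nat_lit 0)) (T.h (P (nat_lit 14045086798794061153352810496)) (T.h (P (nat_lit 0)) (T.h (M (nat_lit 36699550170478542847999)) (T.h (P (nat_lit 0)) (P (nat_lit 53154154414211072))))))) (T.h (P (nat_lit 0)) (T.h (T.h (P (nat_lit 0)) (T.h (M (nat_lit 81096796728415458689023)) (T.h (P (nat_lit 0)) (M (nat_lit 15636010588487679))))) (T.h (P (nat_lit 0)) (T.h (T.h (P (nat_lit 0)) (P (nat_lit 48995516550889472)))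 (P (nat_lit 0))))))) (T.h (T.h (P (nat_lit 0)) (T.h (T.h (P (nat_lit 10159147398612175204384768)) (T.h (P (nat_lit 0)) (T.h (M (nat_lit 653684945632941309951)) (T.h (P (nat_lit 0)) (M (nat_lit 33739957894015)))))) (T.h (P (nat_lit 0)) (T.h (T.h (M (nat_lit 8466335218431688703)) (T.h (P (nat_lit 0)) (M (nat_lit 5250374281359)))) (T.h (P (nat_lit 0)) (M (nat_lit 12009131250063))))))) (T.h (T.h (T.h (P (nat_lit 0)) (T.h (M (nat_lit 81096796728415458689023)) (T.h (P (nat_lit 0)) (M (nat_lit 15636010588487679))))) (T.h (P (nat_lit 0)) (T.h (T.h (P (nat_lit 0)) (P (nat_lit 65038788471324672))) (P (nat_lit 0))))) (T.h (T.h (P (nat_lit 0)) (T.h (T.h (M (nat_lit 8466335218431688703)) (T.h (P (nat_lit 0)) (M (nat_lit 5250374281359)))) (T.h (P (nat_lit 0)) (P (nat_lit 15419168176256))))) (T.h (T.h (T.h (P (nat_lit 0)) (P (nat_lit 48995516550889472))) (P (nat_lit 0))) (T.h (T.h (P (nat_lit 0)) (M (nat_lit 12009131250063))) (P (nat_lit 0)))))))), (T.h (T.h (T.h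 (P (nat_lit 4053299408398625828304171565056)) (T.h (P (nat_lit 0)) (T.h (P (nat_lit 53056676337520515854893056)) (T.h (P (nat_lit 0)) (T.h (M (nat_lit 397972496668277342207)) (T.h (P (nat_lit 0)) (M (nat_lit 7636622023423)))))))) (T.h (P (nat_lit 0)) (T.h (T.h (M (nat_lit 37067833921382269212164095)) (T.h (P (nat_lit 0)) (T.h (M (nat_lit 155293772802848456703)) (T.h (P (nat_lit 0)) (M (nat_lit 115538776660863)))))) (T.h (P (nat_lit 0)) (T.h (T.h (P (nat_lit 26991685552134160384)) (T.h (P (nat_lit 0)) (P (nat_lit 142366674810752)))) (T.h (P (nat_lit 0)) (P (nat_lit 1696780565696)))))))) (T.h (T.h (P (nat_lit 0)) (T.h (T.h (P (nat_lit 0)) (T.h (M (nat_lit 209353643504278819569663)) (T.h (P (nat_lit 0)) (M (nat_lit 549401801988898815))))) (T.h (P (nat_lit 0)) (T.h (T.h (P (nat_lit 0)) (M (nat_lit 71074067616169983))) (P (nat_lit 0)))))) (T.h (T.h (T.h (M (nat_lit 37067833921382269212164095)) (T.h (P (nat_lit 0)) (T.h (M (nat_lit 155293772802848456703))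 (T.h (P (nat_lit 0)) (M (nat_lit 115538776660863)))))) (T.h (P (nat_lit 0)) (T.h (T.h (M (nat_lit 1942421519468593151)) (T.h (P (nat_lit 0)) (P (nat_lit 69316201926784)))) (T.h (P (nat_lit 0)) (P (nat_lit 72406491590656)))))) (T.h (T.h (P (nat_lit 0)) (T.h (T.h (P (nat_lit 0)) (M (nat_lit 71074067616169983))) (P (nat_lit 0)))) (T.h (T.h (T.h (P (nat_lit 26991685552134160384)) (T.h (P (nat_lit 0)) (P (nat_lit 142366674810752)))) (T.h (P (nat_lit 0)) (P (nat_lit 72406491590656)))) (T.h (P (nat_lit 0)) (P (nat_lit 1696780565696)))))))), (T.h (T.h (T.h (P (nat_lit 0)) (T.h (M (nat_lit 36904605446670005767472414719)) (T.h (P (nat_lit 0)) (T.h (P (nat_lit 146104923396987861073920)) (T.h (P (nat_lit 0)) (P (nat_lit 54833314301149184))))))) (T.h (P (nat_lit 0)) (T.h (T.h (P (nat_lit 0)) (T.h (P (nat_lit 44894562570463755632640)) (T.h (P (nat_lit 0)) (P (nat_lit 257858353791778816))))) (T.h (P (nat_lit 0)) (T.h (T.h (P (nat_lit 0)) (M (nat_lit 62873358504771583)))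 (P (nat_lit 0))))))) (T.h (T.h (P (nat_lit 0)) (T.h (T.h (P (nat_lit 25336504363163629171769344)) (T.h (P (nat_lit 0)) (T.h (P (nat_lit 485318653575390298112)) (T.h (P (nat_lit 0)) (P (nat_lit 354926245962528)))))) (T.h (P (nat_lit 0)) (T.h (T.h (M (nat_lit 26430034141272604671)) (T.h (P (nat_lit 0)) (P (nat_lit 71961381107280)))) (T.h (P (nat_lit 0)) (P (nat_lit 25603466475168))))))) (T.h (T.h (T.h (P (nat_lit 0)) (T.h (P (nat_lit 44894562570463755632640)) (T.h (P (nat_lit 0)) (P (nat_lit 257858353791778816))))) (T.h (P (nat_lit 0)) (T.h (T.h (P (nat_lit 0)) (P (nat_lit 54211224123867136))) (P (nat_lit 0))))) (T.h (T.h (P (nat_lit 0)) (T.h (T.h (M (nat_lit 26430034141272604671)) (T.h (P (nat_lit 0)) (P (nat_lit 71961381107280)))) (T.h (P (nat_lit 0)) (M (nat_lit 85814251092287))))) (T.h (T.h (T.h (P (nat_lit 0)) (M (nat_lit 62873358504771583))) (P (nat_lit 0))) (T.h (T.h (P (nat_lit 0)) (P (nat_lit 25603466475168))) (P (nat_lit 0)))))))), (T.h (T.h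 (T.h (M (nat_lit 3388291302366962560366419116031)) (T.h (P (nat_lit 0)) (T.h (M (nat_lit 52973080057366503088979967)) (T.h (P (nat_lit 0)) (M (nat_lit 201408859984088793087)))))) (T.h (P (nat_lit 0)) (T.h (T.h (P (nat_lit 4983474547258667095293952)) (T.h (P (nat_lit 0)) (M (nat_lit 91053075213775273983)))) (T.h (P (nat_lit 0)) (P (nat_lit 5571827366197460992)))))) (T.h (T.h (P (nat_lit 0)) (T.h (T.h (P (nat_lit 0)) (T.h (P (nat_lit 130518322924367101558784)) (T.h (P (nat_lit 0)) (M (nat_lit 179461911432396799))))) (T.h (P (nat_lit 0)) (T.h (T.h (P (nat_lit 0)) (M (nat_lit 28954197942730751))) (P (nat_lit 0)))))) (T.h (T.h (T.h (P (nat_lit 4983474547258667095293952)) (T.h (P (nat_lit 0)) (M (nat_lit 91053075213775273983)))) (T.h (P (nat_lit 0)) (M (nat_lit 46072855600505552895)))) (T.h (T.h (P (nat_lit 0)) (T.h (T.h (P (nat_lit 0)) (M (nat_lit 28954197942730751))) (P (nat_lit 0)))) (P (nat_lit 5571827366197460992)))))), (P (nat_lit 0))]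
def lQm_10 : List (T ℤ) := [(P (nat_lit 0)), (T.h (T.h (P (nat_lit 0)) (T.h (T.h (P (nat_lit 0)) (T.h (P (nat_lit 6540568087616169885827072)) (T.h (P (nat_lit 0)) (T.h (M (nat_lit 34911053992542863359)) (T.h (P (nat_lit 0)) (P (nat_lit 49104525143808))))))) (T.h (P (nat_lit 0)) (T.h (T.h (P (nat_lit 0)) (T.h (M (nat_lit 34911053992542863359)) (T.h (P (nat_lit 0)) (P (nat_lit 30759875023728))))) (T.h (P (nat_lit 0)) (T.h (T.h (P (nat_lit 0)) (P (nat_lit 49104525143808))) (P (nat_lit 0)))))))) (T.h (T.h (T.h (M (nat_lit 7676601293760344942171914239)) (T.h (P (nat_lit 0)) (T.h (M (nat_lit 2528467221433185992703)) (T.h (P (nat_lit 0)) (M (nat_lit 20274453471068159)))))) (T.h (P (nat_lit 0)) (T.h (T.h (M (nat_lit 2528467221433185992703)) (T.h (P (nat_lit 0)) (P (nat_lit 114226627383721984)))) (T.h (P (nat_lit 0)) (M (nat_lit 20274453471068159)))))) (T.h (T.h (P (nat_lit 0)) (T.h (T.h (P (nat_lit 0)) (T.h (P (nat_lit 2741480094106124288)) (T.h (P (nat_lit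 0)) (M (nat_lit 416351873837287))))) (T.h (P (nat_lit 0)) (T.h (T.h (P (nat_lit 0)) (M (nat_lit 416351873837287))) (P (nat_lit 0)))))) (T.h (T.h (T.h (P (nat_lit 843667312744360574976)) (T.h (P (nat_lit 0)) (M (nat_lit 94577210414956543)))) (T.h (P (nat_lit 0)) (M (nat_lit 94577210414956543)))) (T.h (T.h (P (nat_lit 0)) (T.h (T.h (P (nat_lit 0)) (M (nat_lit 49962957403375))) (P (nat_lit 0)))) (M (nat_lit 1155217284857855))))))), (T.h (T.h (P (nat_lit 0)) (T.h (T.h (M (nat_lit 12442159702627192574694129663)) (T.h (P (nat_lit 0)) (T.h (P (nat_lit 9314640038293583953920)) (T.h (P (nat_lit 0)) (M (nat_lit 50878799646982143)))))) (T.h (P (nat_lit 0)) (T.h (T.h (P (nat_lit 22743871949365672148992)) (T.h (P (nat_lit 0)) (P (nat_lit 211703931507752960)))) (T.h (P (nat_lit 0)) (P (nat_lit 18097103314681856))))))) (T.h (T.h (T.h (P (nat_lit 0)) (T.h (P (nat_lit 19361259890558873645350912)) (T.h (P (nat_lit 0)) (T.h (P (nat_lit 315625357326101250048)) (T.h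 (P (nat_lit 0)) (M (nat_lit 12012813532351))))))) (T.h (P (nat_lit 0)) (T.h (T.h (P (nat_lit 0)) (T.h (M (nat_lit 43470478741176582143)) (T.h (P (nat_lit 0)) (P (nat_lit 254418358177664))))) (T.h (P (nat_lit 0)) (T.h (T.h (P (nat_lit 0)) (P (nat_lit 54023327974512))) (P (nat_lit 0))))))) (T.h (T.h (P (nat_lit 0)) (T.h (T.h (M (nat_lit 55715830800575121850367)) (T.h (P (nat_lit 0)) (P (nat_lit 958406978850095104)))) (T.h (P (nat_lit 0)) (M (nat_lit 108479705473908735))))) (T.h (T.h (T.h (P (nat_lit 0)) (T.h (P (nat_lit 301861519813580423168)) (T.h (P (nat_lit 0)) (M (nat_lit 7866646795423))))) (T.h (P (nat_lit 0)) (T.h (T.h (P (nat_lit 0)) (P (nat_lit 90268290434928))) (P (nat_lit 0))))) (T.h (T.h (P (nat_lit 0)) (M (nat_lit 63682034683822079))) (T.h (T.h (T.h (P (nat_lit 0)) (M (nat_lit 4685423447423))) (P (nat_lit 0))) (P (nat_lit 0)))))))), (T.h (T.h (P (nat_lit 0)) (T.h (T.h (P (nat_lit 0)) (T.h (P (nat_lit 17136308746545256755888128)) (T.h (P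 (nat_lit 0)) (T.h (M (nat_lit 254244116952053186559)) (T.h (P (nat_lit 0)) (P (nat_lit 118685896343040))))))) (T.h (P (nat_lit 0)) (T.h (T.h (P (nat_lit 0)) (T.h (M (nat_lit 390903923725150715903)) (T.h (P (nat_lit 0)) (M (nat_lit 297158349740031))))) (T.h (P (nat_lit 0)) (T.h (T.h (P (nat_lit 0)) (M (nat_lit 41950637664831))) (P (nat_lit 0)))))))) (T.h (T.h (T.h (P (nat_lit 30439372902512087466491510784)) (T.h (P (nat_lit 0)) (T.h (M (nat_lit 163116600156994838462463)) (T.h (P (nat_lit 0)) (P (nat_lit 409804081434263552)))))) (T.h (P (nat_lit 0)) (T.h (T.h (M (nat_lit 5187693863199632785407)) (T.h (P (nat_lit 0)) (M (nat_lit 783145859356131327)))) (T.h (P (nat_lit 0)) (M (nat_lit 131697003819499519)))))) (T.h (T.h (P (nat_lit 0)) (T.h (T.h (P (nat_lit 0)) (T.h (M (nat_lit 40001066219060854783)) (T.h (P (nat_lit 0)) (P (nat_lit 435589951003264))))) (T.h (P (nat_lit 0)) (T.h (T.h (P (nat_lit 0)) (M (nat_lit 201592896292031))) (P (nat_lit 0)))))) (T.h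 (T.h (T.h (M (nat_lit 4512347180252872572927)) (T.h (P (nat_lit 0)) (P (nat_lit 390897227788976128)))) (T.h (P (nat_lit 0)) (P (nat_lit 165668878693040128)))) (T.h (T.h (P (nat_lit 0)) (T.h (T.h (P (nat_lit 0)) (P (nat_lit 224110488235840))) (P (nat_lit 0)))) (P (nat_lit 25401474191458304))))))), (T.h (T.h (P (nat_lit 0)) (T.h (T.h (M (nat_lit 19749972867985824880883924991)) (T.h (P (nat_lit 0)) (T.h (P (nat_lit 85813189506337280622592)) (T.h (P (nat_lit 0)) (P (nat_lit 99857125569953792)))))) (T.h (P (nat_lit 0)) (T.h (T.h (M (nat_lit 3964513970473056337919)) (T.h (P (nat_lit 0)) (M (nat_lit 771701867331026943)))) (T.h (P (nat_lit 0)) (P (nat_lit 22758469681364992))))))) (T.h (T.h (T.h (P (nat_lit 0)) (T.h (P (nat_lit 125077768936907594421764096)) (T.h (P (nat_lit 0)) (T.h (M (nat_lit 345759542040470749183)) (T.h (P (nat_lit 0)) (P (nat_lit 88368910367184))))))) (T.h (P (nat_lit 0)) (T.h (T.h (P (nat_lit 0)) (T.h (P (nat_lit 320132666256611344384))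 (T.h (P (nat_lit 0)) (P (nat_lit 480696106885200))))) (T.h (P (nat_lit 0)) (T.h (T.h (P (nat_lit 0)) (M (nat_lit 212902374284207))) (P (nat_lit 0))))))) (T.h (T.h (P (nat_lit 0)) (T.h (T.h (M (nat_lit 48149716623839597690879)) (T.h (P (nat_lit 0)) (M (nat_lit 206162730796777471)))) (T.h (P (nat_lit 0)) (M (nat_lit 65492402368675839))))) (T.h (T.h (T.h (P (nat_lit 0)) (T.h (M (nat_lit 278499119748561764351)) (T.h (P (nat_lit 0)) (M (nat_lit 40308873541055))))) (T.h (P (nat_lit 0)) (T.h (T.h (P (nat_lit 0)) (P (nat_lit 135400654107216))) (P (nat_lit 0))))) (T.h (T.h (P (nat_lit 0)) (M (nat_lit 90597181508173823))) (T.h (T.h (T.h (P (nat_lit 0)) (P (nat_lit 6090557697360))) (P (nat_lit 0))) (P (nat_lit 0)))))))), (T.h (T.h (P (nat_lit 0)) (T.h (T.h (P (nat_lit 0)) (T.h (P (nat_lit 15532778243652765473570816)) (T.h (P (nat_lit 0)) (M (nat_lit 292461774379792990207))))) (T.h (P (nat_lit 0)) (T.h (T.h (P (nat_lit 0)) (P (nat_lit 372027013451330093056)))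 (P (nat_lit 0)))))) (T.h (T.h (T.h (M (nat_lit 2802544089202721518058995711)) (T.h (P (nat_lit 0)) (T.h (P (nat_lit 219226733783414827122688)) (T.h (P (nat_lit 0)) (M (nat_lit 111197562056900607)))))) (T.h (P (nat_lit 0)) (T.h (T.h (M (nat_lit 11334887043216479092735)) (T.h (P (nat_lit 0)) (M (nat_lit 307064400049864703)))) (T.h (P (nat_lit 0)) (P (nat_lit 17610523673985024)))))) (T.h (T.h (P (nat_lit 0)) (T.h (T.h (P (nat_lit 0)) (M (nat_lit 132783142035194380287))) (P (nat_lit 0)))) (T.h (T.h (T.h (P (nat_lit 11706436078456893603840)) (T.h (P (nat_lit 0)) (P (nat_lit 48128141689192448)))) (T.h (P (nat_lit 0)) (P (nat_lit 64870222751039488)))) (T.h (P (nat_lit 0)) (M (nat_lit 10301442286452735))))))), (P (nat_lit 0)), (P (nat_lit 0))]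
def lQm_11 : List (T ℤ) := [(T.h (T.h (T.h (M (nat_lit 151115727451828646838271)) (T.h (P (nat_lit 0)) (T.h (P (nat_lit 1407986837174246730366976)) (T.h (P (nat_lit 0)) (T.h (M (nat_lit 2118793442287943679)) (T.h (P (nat_lit 0)) (M (nat_lit 895310700831)))))))) (T.h (P (nat_lit 0)) (T.h (T.h (P (nat_lit 189151184349560832)) (T.h (P (nat_lit 0)) (T.h (P (nat_lit 49332603644305997824)) (T.h (P (nat_lit 0)) (M (nat_lit 35755284631663)))))) (T.h (P (nat_lit 0)) (T.h (T.h (M (nat_lit 35970351103)) (T.h (P (nat_lit 0)) (M (nat_lit 69255640301535)))) (T.h (P (nat_lit 0)) (M (nat_lit 1172927)))))))) (T.h (T.h (P (nat_lit 0)) (T.h (T.h (P (nat_lit 0)) (T.h (M (nat_lit 376032976699391)) (T.h (P (nat_lit 0)) (P (nat_lit 71629951102091264))))) (T.h (P (nat_lit 0)) (T.h (T.h (P (nat_lit 0)) (P (nat_lit 1223163904))) (P (nat_lit 0)))))) (T.h (T.h (T.h (P (nat_lit 1407986837174246730366976)) (T.h (P (nat_lit 0)) (T.h (P (nat_lit 362387865600)) (T.h (P (nat_lit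 0)) (P (nat_lit 16431680405456)))))) (T.h (P (nat_lit 0)) (T.h (T.h (P (nat_lit 49332603644305997824)) (T.h (P (nat_lit 0)) (P (nat_lit 1023648)))) (T.h (P (nat_lit 0)) (M (nat_lit 69255640301535)))))) (T.h (T.h (P (nat_lit 0)) (T.h (T.h (P (nat_lit 0)) (P (nat_lit 71629951102091264))) (P (nat_lit 0)))) (T.h (T.h (T.h (M (nat_lit 2118793442287943679)) (T.h (P (nat_lit 0)) (P (nat_lit 16431680405456)))) (T.h (P (nat_lit 0)) (M (nat_lit 35755284631663)))) (T.h (P (nat_lit 0)) (M (nat_lit 895310700831)))))))), (T.h (T.h (T.h (P (nat_lit 0)) (T.h (M (nat_lit 12442159702627192574694129663)) (T.h (P (nat_lit 0)) (T.h (P (nat_lit 22743871949365672148992)) (T.h (P (nat_lit 0)) (P (nat_lit 18097103314681856))))))) (T.h (P (nat_lit 0)) (T.h (T.h (P (nat_lit 0)) (T.h (P (nat_lit 9314640038293583953920)) (T.h (P (nat_lit 0)) (P (nat_lit 211703931507752960))))) (T.h (P (nat_lit 0)) (T.h (T.h (P (nat_lit 0)) (M (nat_lit 50878799646982143))) (P (nat_lit 0)))))))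 (T.h (T.h (P (nat_lit 0)) (T.h (T.h (P (nat_lit 19361259890558873645350912)) (T.h (P (nat_lit 0)) (T.h (M (nat_lit 43470478741176582143)) (T.h (P (nat_lit 0)) (P (nat_lit 54023327974512)))))) (T.h (P (nat_lit 0)) (T.h (T.h (P (nat_lit 315625357326101250048)) (T.h (P (nat_lit 0)) (P (nat_lit 254418358177664)))) (T.h (P (nat_lit 0)) (M (nat_lit 12012813532351))))))) (T.h (T.h (T.h (P (nat_lit 0)) (T.h (M (nat_lit 55715830800575121850367)) (T.h (P (nat_lit 0)) (M (nat_lit 108479705473908735))))) (T.h (P (nat_lit 0)) (T.h (T.h (P (nat_lit 0)) (P (nat_lit 958406978850095104))) (P (nat_lit 0))))) (T.h (T.h (P (nat_lit 0)) (T.h (T.h (P (nat_lit 301861519813580423168)) (T.h (P (nat_lit 0)) (P (nat_lit 90268290434928)))) (T.h (P (nat_lit 0)) (M (nat_lit 7866646795423))))) (T.h (T.h (T.h (P (nat_lit 0)) (M (nat_lit 63682034683822079))) (P (nat_lit 0))) (T.h (T.h (P (nat_lit 0)) (M (nat_lit 4685423447423))) (P (nat_lit 0)))))))), (T.h (T.h (T.h (M (nat_lit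 10263605443189403653425365778431)) (T.h (P (nat_lit 0)) (T.h (P (nat_lit 24772719807162972498821120)) (T.h (P (nat_lit 0)) (T.h (P (nat_lit 61011841408129040384)) (T.h (P (nat_lit 0)) (P (nat_lit 42017837250688)))))))) (T.h (P (nat_lit 0)) (T.h (T.h (P (nat_lit 24772719807162972498821120)) (T.h (P (nat_lit 0)) (T.h (P (nat_lit 587946156236283576320)) (T.h (P (nat_lit 0)) (P (nat_lit 191627894557248)))))) (T.h (P (nat_lit 0)) (T.h (T.h (P (nat_lit 61011841408129040384)) (T.h (P (nat_lit 0)) (P (nat_lit 191627894557248)))) (T.h (P (nat_lit 0)) (P (nat_lit 42017837250688)))))))) (T.h (T.h (P (nat_lit 0)) (T.h (T.h (P (nat_lit 0)) (T.h (P (nat_lit 166602184250910184570880)) (T.h (P (nat_lit 0)) (P (nat_lit 1013632339182157824))))) (T.h (P (nat_lit 0)) (T.h (T.h (P (nat_lit 0)) (P (nat_lit 1013632339182157824))) (P (nat_lit 0)))))) (T.h (T.h (T.h (P (nat_lit 13113665670837237236891648)) (T.h (P (nat_lit 0)) (T.h (M (nat_lit 64117543320346951679)) (T.h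 (P (nat_lit 0)) (M (nat_lit 157229173674047)))))) (T.h (P (nat_lit 0)) (T.h (T.h (M (nat_lit 64117543320346951679)) (T.h (P (nat_lit 0)) (P (nat_lit 28784659885056)))) (T.h (P (nat_lit 0)) (M (nat_lit 157229173674047)))))) (T.h (T.h (P (nat_lit 0)) (T.h (T.h (P (nat_lit 0)) (M (nat_lit 340609925145034751))) (P (nat_lit 0)))) (T.h (T.h (T.h (M (nat_lit 81022462881515438079)) (T.h (P (nat_lit 0)) (M (nat_lit 141379929700031)))) (T.h (P (nat_lit 0)) (M (nat_lit 141379929700031)))) (T.h (P (nat_lit 0)) (M (nat_lit 16686407529983)))))))), (T.h (T.h (T.h (P (nat_lit 0)) (T.h (M (nat_lit 42505286476555310707194724351)) (T.h (P (nat_lit 0)) (T.h (P (nat_lit 13736814429644959776768)) (T.h (P (nat_lit 0)) (M (nat_lit 346456592703291391))))))) (T.h (P (nat_lit 0)) (T.h (T.h (P (nat_lit 0)) (T.h (M (nat_lit 176837335865706632183807)) (T.h (P (nat_lit 0)) (M (nat_lit 157327565251870719))))) (T.h (P (nat_lit 0)) (T.h (T.h (P (nat_lit 0)) (M (nat_lit 199091536319299583)))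 (P (nat_lit 0))))))) (T.h (T.h (P (nat_lit 0)) (T.h (T.h (P (nat_lit 3351747234530990319730688)) (T.h (P (nat_lit 0)) (T.h (M (nat_lit 68235848904299511807)) (T.h (P (nat_lit 0)) (M (nat_lit 493402670761247)))))) (T.h (P (nat_lit 0)) (T.h (T.h (M (nat_lit 115670365913472827391)) (T.h (P (nat_lit 0)) (M (nat_lit 187314034551551)))) (T.h (P (nat_lit 0)) (P (nat_lit 8562378236832))))))) (T.h (T.h (T.h (P (nat_lit 0)) (T.h (P (nat_lit 31378407630487934730240)) (T.h (P (nat_lit 0)) (P (nat_lit 133013457014423552))))) (T.h (P (nat_lit 0)) (T.h (T.h (P (nat_lit 0)) (M (nat_lit 155170297518686207))) (P (nat_lit 0))))) (T.h (T.h (P (nat_lit 0)) (T.h (T.h (P (nat_lit 297505605466797899776)) (T.h (P (nat_lit 0)) (M (nat_lit 105852932695583)))) (T.h (P (nat_lit 0)) (P (nat_lit 79993172440224))))) (T.h (T.h (T.h (P (nat_lit 0)) (M (nat_lit 4663950362312703))) (P (nat_lit 0))) (T.h (T.h (P (nat_lit 0)) (M (nat_lit 59828803719263))) (P (nat_lit 0)))))))), (T.h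 (T.h (T.h (P (nat_lit 6956814252741079948443380613120)) (T.h (P (nat_lit 0)) (T.h (P (nat_lit 7835852522007655234928640)) (T.h (P (nat_lit 0)) (P (nat_lit 190603457277588406272)))))) (T.h (P (nat_lit 0)) (T.h (T.h (P (nat_lit 12512308161857980632924160)) (T.h (P (nat_lit 0)) (P (nat_lit 696574428408140791808)))) (T.h (P (nat_lit 0)) (P (nat_lit 31284549361191616512)))))) (T.h (T.h (P (nat_lit 0)) (T.h (T.h (P (nat_lit 0)) (T.h (M (nat_lit 245888729080067128295423)) (T.h (P (nat_lit 0)) (P (nat_lit 281155397963546624))))) (T.h (P (nat_lit 0)) (T.h (T.h (P (nat_lit 0)) (P (nat_lit 207377764562108416))) (P (nat_lit 0)))))) (T.h (T.h (T.h (P (nat_lit 9834762153925330696404992)) (T.h (P (nat_lit 0)) (M (nat_lit 83243563760396271615)))) (T.h (P (nat_lit 0)) (P (nat_lit 89162961353009266688)))) (T.h (T.h (P (nat_lit 0)) (T.h (T.h (P (nat_lit 0)) (P (nat_lit 200925852248375296))) (P (nat_lit 0)))) (M (nat_lit 907467354663813119)))))), (P (nat_lit 0)), (P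 (nat_lit 0)), (T.h (T.h (P (nat_lit 0)) (T.h (T.h (P (nat_lit 0)) (T.h (P (nat_lit 284033478414364619833344)) (T.h (P (nat_lit 0)) (T.h (M (nat_lit 2140135256919900159)) (T.h (P (nat_lit 0)) (P (nat_lit 2562489162784))))))) (T.h (P (nat_lit 0)) (T.h (T.h (P (nat_lit 0)) (T.h (P (nat_lit 5938503625511796736)) (T.h (P (nat_lit 0)) (M (nat_lit 1179281324743))))) (T.h (P (nat_lit 0)) (T.h (T.h (P (nat_lit 0)) (M (nat_lit 11280567779311))) (P (nat_lit 0)))))))) (T.h (T.h (T.h (M (nat_lit 6109297295370027237344542719)) (T.h (P (nat_lit 0)) (T.h (M (nat_lit 1686258149179302871039)) (T.h (P (nat_lit 0)) (M (nat_lit 417833758719999)))))) (T.h (P (nat_lit 0)) (T.h (T.h (M (nat_lit 3043298767001555566591)) (T.h (P (nat_lit 0)) (P (nat_lit 1978227750830080)))) (T.h (P (nat_lit 0)) (P (nat_lit 42195277170933760)))))) (T.h (T.h (P (nat_lit 0)) (T.h (T.h (P (nat_lit 0)) (T.h (M (nat_lit 849028859926937599)) (T.h (P (nat_lit 0)) (M (nat_lit 365975489447))))) (T.h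 (P (nat_lit 0)) (T.h (T.h (P (nat_lit 0)) (P (nat_lit 72270515840056))) (P (nat_lit 0)))))) (T.h (T.h (T.h (M (nat_lit 6470624315378690424831)) (T.h (P (nat_lit 0)) (P (nat_lit 433781979512832)))) (T.h (P (nat_lit 0)) (M (nat_lit 23901466144571391)))) (T.h (T.h (P (nat_lit 0)) (T.h (T.h (P (nat_lit 0)) (M (nat_lit 8644918464695))) (P (nat_lit 0)))) (P (nat_lit 7102852997021696)))))))]
def lQm_12 : List (T ℤ) := [(T.h (T.h (P (nat_lit 0)) (T.h (T.h (P (nat_lit 14045086798794061153352810496)) (T.h (P (nat_lit 0)) (T.h (M (nat_lit 81096796728415458689023)) (T.h (P (nat_lit 0)) (P (nat_lit 48995516550889472)))))) (T.h (P (nat_lit 0)) (T.h (T.h (M (nat_lit 36699550170478542847999)) (T.h (P (nat_lit 0)) (M (nat_lit 15636010588487679)))) (T.h (P (nat_lit 0)) (P (nat_lit 53154154414211072))))))) (T.h (T.h (T.h (P (nat_lit 0)) (T.h (P (nat_lit 10159147398612175204384768)) (T.h (P (nat_lit 0)) (T.h (M (nat_lit 8466335218431688703)) (T.h (P (nat_lit 0)) (M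 (nat_lit 12009131250063))))))) (T.h (P (nat_lit 0)) (T.h (T.h (P (nat_lit 0)) (T.h (M (nat_lit 653684945632941309951)) (T.h (P (nat_lit 0)) (M (nat_lit 5250374281359))))) (T.h (P (nat_lit 0)) (T.h (T.h (P (nat_lit 0)) (M (nat_lit 33739957894015))) (P (nat_lit 0))))))) (T.h (T.h (P (nat_lit 0)) (T.h (T.h (M (nat_lit 81096796728415458689023)) (T.h (P (nat_lit 0)) (P (nat_lit 65038788471324672)))) (T.h (P (nat_lit 0)) (M (nat_lit 15636010588487679))))) (T.h (T.h (T.h (P (nat_lit 0)) (T.h (M (nat_lit 8466335218431688703)) (T.h (P (nat_lit 0)) (P (nat_lit 15419168176256))))) (T.h (P (nat_lit 0)) (T.h (T.h (P (nat_lit 0)) (M (nat_lit 5250374281359))) (P (nat_lit 0))))) (T.h (T.h (P (nat_lit 0)) (P (nat_lit 48995516550889472))) (T.h (T.h (T.h (P (nat_lit 0)) (M (nat_lit 12009131250063))) (P (nat_lit 0))) (P (nat_lit 0)))))))), (T.h (T.h (P (nat_lit 0)) (T.h (T.h (P (nat_lit 0)) (T.h (P (nat_lit 17136308746545256755888128)) (T.h (P (nat_lit 0)) (T.h (M (nat_lit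 390903923725150715903)) (T.h (P (nat_lit 0)) (M (nat_lit 41950637664831))))))) (T.h (P (nat_lit 0)) (T.h (T.h (P (nat_lit 0)) (T.h (M (nat_lit 254244116952053186559)) (T.h (P (nat_lit 0)) (M (nat_lit 297158349740031))))) (T.h (P (nat_lit 0)) (T.h (T.h (P (nat_lit 0)) (P (nat_lit 118685896343040))) (P (nat_lit 0)))))))) (T.h (T.h (T.h (P (nat_lit 30439372902512087466491510784)) (T.h (P (nat_lit 0)) (T.h (M (nat_lit 5187693863199632785407)) (T.h (P (nat_lit 0)) (M (nat_lit 131697003819499519)))))) (T.h (P (nat_lit 0)) (T.h (T.h (M (nat_lit 163116600156994838462463)) (T.h (P (nat_lit 0)) (M (nat_lit 783145859356131327)))) (T.h (P (nat_lit 0)) (P (nat_lit 409804081434263552)))))) (T.h (T.h (P (nat_lit 0)) (T.h (T.h (P (nat_lit 0)) (T.h (M (nat_lit 40001066219060854783)) (T.h (P (nat_lit 0)) (M (nat_lit 201592896292031))))) (T.h (P (nat_lit 0)) (T.h (T.h (P (nat_lit 0)) (P (nat_lit 435589951003264))) (P (nat_lit 0)))))) (T.h (T.h (T.h (M (nat_lit 4512347180252872572927))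 (T.h (P (nat_lit 0)) (P (nat_lit 165668878693040128)))) (T.h (P (nat_lit 0)) (P (nat_lit 390897227788976128)))) (T.h (T.h (P (nat_lit 0)) (T.h (T.h (P (nat_lit 0)) (P (nat_lit 224110488235840))) (P (nat_lit 0)))) (P (nat_lit 25401474191458304))))))), (T.h (T.h (P (nat_lit 0)) (T.h (T.h (M (nat_lit 42505286476555310707194724351)) (T.h (P (nat_lit 0)) (T.h (M (nat_lit 176837335865706632183807)) (T.h (P (nat_lit 0)) (M (nat_lit 199091536319299583)))))) (T.h (P (nat_lit 0)) (T.h (T.h (P (nat_lit 13736814429644959776768)) (T.h (P (nat_lit 0)) (M (nat_lit 157327565251870719)))) (T.h (P (nat_lit 0)) (M (nat_lit 346456592703291391))))))) (T.h (T.h (T.h (P (nat_lit 0)) (T.h (P (nat_lit 3351747234530990319730688)) (T.h (P (nat_lit 0)) (T.h (M (nat_lit 115670365913472827391)) (T.h (P (nat_lit 0)) (P (nat_lit 8562378236832))))))) (T.h (P (nat_lit 0)) (T.h (T.h (P (nat_lit 0)) (T.h (M (nat_lit 68235848904299511807)) (T.h (P (nat_lit 0)) (M (nat_lit 187314034551551)))))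 (T.h (P (nat_lit 0)) (T.h (T.h (P (nat_lit 0)) (M (nat_lit 493402670761247))) (P (nat_lit 0))))))) (T.h (T.h (P (nat_lit 0)) (T.h (T.h (P (nat_lit 31378407630487934730240)) (T.h (P (nat_lit 0)) (M (nat_lit 155170297518686207)))) (T.h (P (nat_lit 0)) (P (nat_lit 133013457014423552))))) (T.h (T.h (T.h (P (nat_lit 0)) (T.h (P (nat_lit 297505605466797899776)) (T.h (P (nat_lit 0)) (P (nat_lit 79993172440224))))) (T.h (P (nat_lit 0)) (T.h (T.h (P (nat_lit 0)) (M (nat_lit 105852932695583))) (P (nat_lit 0))))) (T.h (T.h (P (nat_lit 0)) (M (nat_lit 4663950362312703))) (T.h (T.h (T.h (P (nat_lit 0)) (M (nat_lit 59828803719263))) (P (nat_lit 0))) (P (nat_lit 0)))))))), (T.h (T.h (P (nat_lit 0)) (T.h (T.h (P (nat_lit 0)) (T.h (P (nat_lit 82022475448791551103205376)) (T.h (P (nat_lit 0)) (P (nat_lit 285002259208458993664))))) (T.h (P (nat_lit 0)) (T.h (T.h (P (nat_lit 0)) (P (nat_lit 285002259208458993664))) (P (nat_lit 0)))))) (T.h (T.h (T.h (M (nat_lit 23982801289164216537089835007))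 (T.h (P (nat_lit 0)) (T.h (M (nat_lit 103457444550888944304127)) (T.h (P (nat_lit 0)) (P (nat_lit 83546188554764288)))))) (T.h (P (nat_lit 0)) (T.h (T.h (M (nat_lit 103457444550888944304127)) (T.h (P (nat_lit 0)) (P (nat_lit 105359980908511232)))) (T.h (P (nat_lit 0)) (P (nat_lit 83546188554764288)))))) (T.h (T.h (P (nat_lit 0)) (T.h (T.h (P (nat_lit 0)) (P (nat_lit 145578080354680438784))) (P (nat_lit 0)))) (T.h (T.h (T.h (M (nat_lit 40637152726621985177599)) (T.h (P (nat_lit 0)) (M (nat_lit 77636821944369151)))) (T.h (P (nat_lit 0)) (M (nat_lit 77636821944369151)))) (T.h (P (nat_lit 0)) (P (nat_lit 30478663296221184))))))), (P (nat_lit 0)), (P (nat_lit 0)), (T.h (T.h (T.h (P (nat_lit 0)) (T.h (M (nat_lit 8791771181520521901880901631)) (T.h (P (nat_lit 0)) (T.h (P (nat_lit 1197127384719865937920)) (T.h (P (nat_lit 0)) (M (nat_lit 578348013797375))))))) (T.h (P (nat_lit 0)) (T.h (T.h (P (nat_lit 0)) (T.h (P (nat_lit 22020359117771091476480)) (T.h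 (P (nat_lit 0)) (M (nat_lit 644596779991039))))) (T.h (P (nat_lit 0)) (T.h (T.h (P (nat_lit 0)) (M (nat_lit 121640918615326719))) (P (nat_lit 0))))))) (T.h (T.h (P (nat_lit 0)) (T.h (T.h (P (nat_lit 7108667783362390295314432)) (T.h (P (nat_lit 0)) (T.h (M (nat_lit 6625341527327506431)) (T.h (P (nat_lit 0)) (M (nat_lit 6391443606815)))))) (T.h (P (nat_lit 0)) (T.h (T.h (M (nat_lit 154584634236227026943)) (T.h (P (nat_lit 0)) (P (nat_lit 19291176429520)))) (T.h (P (nat_lit 0)) (M (nat_lit 335941989346463))))))) (T.h (T.h (T.h (P (nat_lit 0)) (T.h (P (nat_lit 9840168828146097848320)) (T.h (P (nat_lit 0)) (P (nat_lit 8554117372231680))))) (T.h (P (nat_lit 0)) (T.h (T.h (P (nat_lit 0)) (P (nat_lit 38653626529546240))) (P (nat_lit 0))))) (T.h (T.h (P (nat_lit 0)) (T.h (T.h (P (nat_lit 6429138738500075520)) (T.h (P (nat_lit 0)) (P (nat_lit 7731991111936)))) (T.h (P (nat_lit 0)) (P (nat_lit 19834863972112))))) (T.h (T.h (T.h (P (nat_lit 0)) (P (nat_lit 28202771527335936)))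 (P (nat_lit 0))) (T.h (T.h (P (nat_lit 0)) (M (nat_lit 2171138809055))) (P (nat_lit 0)))))))), (T.h (T.h (T.h (P (nat_lit 4053299408398625828304171565056)) (T.h (P (nat_lit 0)) (T.h (M (nat_lit 37067833921382269212164095)) (T.h (P (nat_lit 0)) (T.h (P (nat_lit 26991685552134160384)) (T.h (P (nat_lit 0)) (P (nat_lit 1696780565696)))))))) (T.h (P (nat_lit 0)) (T.h (T.h (P (nat_lit 53056676337520515854893056)) (T.h (P (nat_lit 0)) (T.h (M (nat_lit 155293772802848456703)) (T.h (P (nat_lit 0)) (P (nat_lit 142366674810752)))))) (T.h (P (nat_lit 0)) (T.h (T.h (M (nat_lit 397972496668277342207)) (T.h (P (nat_lit 0)) (M (nat_lit 115538776660863)))) (T.h (P (nat_lit 0)) (M (nat_lit 7636622023423)))))))) (T.h (T.h (P (nat_lit 0)) (T.h (T.h (P (nat_lit 0)) (T.h (M (nat_lit 209353643504278819569663)) (T.h (P (nat_lit 0)) (M (nat_lit 71074067616169983))))) (T.h (P (nat_lit 0)) (T.h (T.h (P (nat_lit 0)) (M (nat_lit 549401801988898815))) (P (nat_lit 0)))))) (T.h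 (T.h (T.h (M (nat_lit 37067833921382269212164095)) (T.h (P (nat_lit 0)) (T.h (M (nat_lit 1942421519468593151)) (T.h (P (nat_lit 0)) (P (nat_lit 72406491590656)))))) (T.h (P (nat_lit 0)) (T.h (T.h (M (nat_lit 155293772802848456703)) (T.h (P (nat_lit 0)) (P (nat_lit 69316201926784)))) (T.h (P (nat_lit 0)) (M (nat_lit 115538776660863)))))) (T.h (T.h (P (nat_lit 0)) (T.h (T.h (P (nat_lit 0)) (M (nat_lit 71074067616169983))) (P (nat_lit 0)))) (T.h (T.h (T.h (P (nat_lit 26991685552134160384)) (T.h (P (nat_lit 0)) (P (nat_lit 72406491590656)))) (T.h (P (nat_lit 0)) (P (nat_lit 142366674810752)))) (T.h (P (nat_lit 0)) (P (nat_lit 1696780565696))))))))]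
def lQm_13 : List (T ℤ) := [(T.h (T.h (T.h (P (nat_lit 0)) (T.h (M (nat_lit 19749972867985824880883924991)) (T.h (P (nat_lit 0)) (T.h (M (nat_lit 3964513970473056337919)) (T.h (P (nat_lit 0)) (P (nat_lit 22758469681364992))))))) (T.h (P (nat_lit 0)) (T.h (T.h (P (nat_lit 0)) (T.h (P (nat_lit 85813189506337280622592)) (T.h (P (nat_lit 0)) (M (nat_lit 771701867331026943))))) (T.h (P (nat_lit 0)) (T.h (T.h (P (nat_lit 0)) (P (nat_lit 99857125569953792))) (P (nat_lit 0))))))) (T.h (T.h (P (nat_lit 0)) (T.h (T.h (P (nat_lit 125077768936907594421764096)) (T.h (P (nat_lit 0)) (T.h (P (nat_lit 320132666256611344384)) (T.h (P (nat_lit 0)) (M (nat_lit 212902374284207)))))) (T.h (P (nat_lit 0)) (T.h (T.h (M (nat_lit 345759542040470749183)) (T.h (P (nat_lit 0)) (P (nat_lit 480696106885200)))) (T.h (P (nat_lit 0)) (P (nat_lit 88368910367184))))))) (T.h (T.h (T.h (P (nat_lit 0)) (T.h (M (nat_lit 48149716623839597690879)) (T.h (P (nat_lit 0)) (M (nat_lit 65492402368675839)))))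 (T.h (P (nat_lit 0)) (T.h (T.h (P (nat_lit 0)) (M (nat_lit 206162730796777471))) (P (nat_lit 0))))) (T.h (T.h (P (nat_lit 0)) (T.h (T.h (M (nat_lit 278499119748561764351)) (T.h (P (nat_lit 0)) (P (nat_lit 135400654107216)))) (T.h (P (nat_lit 0)) (M (nat_lit 40308873541055))))) (T.h (T.h (T.h (P (nat_lit 0)) (M (nat_lit 90597181508173823))) (P (nat_lit 0))) (T.h (T.h (P (nat_lit 0)) (P (nat_lit 6090557697360))) (P (nat_lit 0)))))))), (T.h (T.h (T.h (P (nat_lit 6956814252741079948443380613120)) (T.h (P (nat_lit 0)) (T.h (P (nat_lit 12512308161857980632924160)) (T.h (P (nat_lit 0)) (P (nat_lit 31284549361191616512)))))) (T.h (P (nat_lit 0)) (T.h (T.h (P (nat_lit 7835852522007655234928640)) (T.h (P (nat_lit 0)) (P (nat_lit 696574428408140791808)))) (T.h (P (nat_lit 0)) (P (nat_lit 190603457277588406272)))))) (T.h (T.h (P (nat_lit 0)) (T.h (T.h (P (nat_lit 0)) (T.h (M (nat_lit 245888729080067128295423)) (T.h (P (nat_lit 0)) (P (nat_lit 207377764562108416)))))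 (T.h (P (nat_lit 0)) (T.h (T.h (P (nat_lit 0)) (P (nat_lit 281155397963546624))) (P (nat_lit 0)))))) (T.h (T.h (T.h (P (nat_lit 9834762153925330696404992)) (T.h (P (nat_lit 0)) (P (nat_lit 89162961353009266688)))) (T.h (P (nat_lit 0)) (M (nat_lit 83243563760396271615)))) (T.h (T.h (P (nat_lit 0)) (T.h (T.h (P (nat_lit 0)) (P (nat_lit 200925852248375296))) (P (nat_lit 0)))) (M (nat_lit 907467354663813119)))))), (P (nat_lit 0)), (P (nat_lit 0)), (T.h (T.h (P (nat_lit 0)) (T.h (T.h (P (nat_lit 0)) (T.h (M (nat_lit 5168368424837279068979199)) (T.h (P (nat_lit 0)) (T.h (P (nat_lit 23742450305689714688)) (T.h (P (nat_lit 0)) (M (nat_lit 2784107884415))))))) (T.h (P (nat_lit 0)) (T.h (T.h (P (nat_lit 0)) (T.h (P (nat_lit 157094665944054104064)) (T.h (P (nat_lit 0)) (M (nat_lit 17796002755583))))) (T.h (P (nat_lit 0)) (T.h (T.h (P (nat_lit 0)) (P (nat_lit 131752181722496))) (P (nat_lit 0)))))))) (T.h (T.h (T.h (P (nat_lit 6839413366052023076718116864)) (T.h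 (P (nat_lit 0)) (T.h (M (nat_lit 84204815432911159295)) (T.h (P (nat_lit 0)) (P (nat_lit 24592959480430592)))))) (T.h (P (nat_lit 0)) (T.h (T.h (P (nat_lit 24888676228541148299264)) (T.h (P (nat_lit 0)) (M (nat_lit 103386342155976703)))) (T.h (P (nat_lit 0)) (P (nat_lit 395879561561014272)))))) (T.h (T.h (P (nat_lit 0)) (T.h (T.h (P (nat_lit 0)) (T.h (P (nat_lit 8926032916207632384)) (T.h (P (nat_lit 0)) (P (nat_lit 24569655262336))))) (T.h (P (nat_lit 0)) (T.h (T.h (P (nat_lit 0)) (P (nat_lit 41957170643904))) (P (nat_lit 0)))))) (T.h (T.h (T.h (P (nat_lit 12737252216992320978944)) (T.h (P (nat_lit 0)) (M (nat_lit 10516355926327295)))) (T.h (P (nat_lit 0)) (P (nat_lit 10511957737865216)))) (T.h (T.h (P (nat_lit 0)) (T.h (T.h (P (nat_lit 0)) (P (nat_lit 7728486802624))) (P (nat_lit 0)))) (M (nat_lit 17277707598233599))))))), (T.h (T.h (P (nat_lit 0)) (T.h (T.h (M (nat_lit 36904605446670005767472414719)) (T.h (P (nat_lit 0)) (T.h (P (nat_lit 44894562570463755632640))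 (T.h (P (nat_lit 0)) (M (nat_lit 62873358504771583)))))) (T.h (P (nat_lit 0)) (T.h (T.h (P (nat_lit 146104923396987861073920)) (T.h (P (nat_lit 0)) (P (nat_lit 257858353791778816)))) (T.h (P (nat_lit 0)) (P (nat_lit 54833314301149184))))))) (T.h (T.h (T.h (P (nat_lit 0)) (T.h (P (nat_lit 25336504363163629171769344)) (T.h (P (nat_lit 0)) (T.h (M (nat_lit 26430034141272604671)) (T.h (P (nat_lit 0)) (P (nat_lit 25603466475168))))))) (T.h (P (nat_lit 0)) (T.h (T.h (P (nat_lit 0)) (T.h (P (nat_lit 485318653575390298112)) (T.h (P (nat_lit 0)) (P (nat_lit 71961381107280))))) (T.h (P (nat_lit 0)) (T.h (T.h (P (nat_lit 0)) (P (nat_lit 354926245962528))) (P (nat_lit 0))))))) (T.h (T.h (P (nat_lit 0)) (T.h (T.h (P (nat_lit 44894562570463755632640)) (T.h (P (nat_lit 0)) (P (nat_lit 54211224123867136)))) (T.h (P (nat_lit 0)) (P (nat_lit 257858353791778816))))) (T.h (T.h (T.h (P (nat_lit 0)) (T.h (M (nat_lit 26430034141272604671)) (T.h (P (nat_lit 0)) (M (nat_lit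 85814251092287))))) (T.h (P (nat_lit 0)) (T.h (T.h (P (nat_lit 0)) (P (nat_lit 71961381107280))) (P (nat_lit 0))))) (T.h (T.h (P (nat_lit 0)) (M (nat_lit 62873358504771583))) (T.h (T.h (T.h (P (nat_lit 0)) (P (nat_lit 25603466475168))) (P (nat_lit 0))) (P (nat_lit 0)))))))), (T.h (T.h (P (nat_lit 0)) (T.h (T.h (P (nat_lit 0)) (T.h (P (nat_lit 15532778243652765473570816)) (T.h (P (nat_lit 0)) (P (nat_lit 372027013451330093056))))) (T.h (P (nat_lit 0)) (T.h (T.h (P (nat_lit 0)) (M (nat_lit 292461774379792990207))) (P (nat_lit 0)))))) (T.h (T.h (T.h (M (nat_lit 2802544089202721518058995711)) (T.h (P (nat_lit 0)) (T.h (M (nat_lit 11334887043216479092735)) (T.h (P (nat_lit 0)) (P (nat_lit 17610523673985024)))))) (T.h (P (nat_lit 0)) (T.h (T.h (P (nat_lit 219226733783414827122688)) (T.h (P (nat_lit 0)) (M (nat_lit 307064400049864703)))) (T.h (P (nat_lit 0)) (M (nat_lit 111197562056900607)))))) (T.h (T.h (P (nat_lit 0)) (T.h (T.h (P (nat_lit 0)) (M (nat_lit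 132783142035194380287))) (P (nat_lit 0)))) (T.h (T.h (T.h (P (nat_lit 11706436078456893603840)) (T.h (P (nat_lit 0)) (P (nat_lit 64870222751039488)))) (T.h (P (nat_lit 0)) (P (nat_lit 48128141689192448)))) (T.h (P (nat_lit 0)) (M (nat_lit 10301442286452735))))))), (P (nat_lit 0))]
def lQm_14 : List (T ℤ) := [(P (nat_lit 0)), (T.h (T.h (T.h (P (nat_lit 0)) (T.h (P (nat_lit 7229277941798989040011182080)) (T.h (P (nat_lit 0)) (T.h (M (nat_lit 1700234646761114697727)) (T.h (P (nat_lit 0)) (M (nat_lit 1766672385900543))))))) (T.h (P (nat_lit 0)) (T.h (T.h (P (nat_lit 0)) (T.h (P (nat_lit 55893712121856740294656)) (T.h (P (nat_lit 0)) (P (nat_lit 24900390032965632))))) (T.h (P (nat_lit 0)) (T.h (T.h (P (nat_lit 0)) (P (nat_lit 43907669705129984))) (P (nat_lit 0))))))) (T.h (T.h (P (nat_lit 0)) (T.h (T.h (P (nat_lit 2647328885556425852452864)) (T.h (P (nat_lit 0)) (T.h (M (nat_lit 9959165120451969023)) (T.h (P (nat_lit 0)) (P (nat_lit 17575024374576))))))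 (T.h (P (nat_lit 0)) (T.h (T.h (P (nat_lit 88326269022941216768)) (T.h (P (nat_lit 0)) (M (nat_lit 157763501468927)))) (T.h (P (nat_lit 0)) (P (nat_lit 310329193881600))))))) (T.h (T.h (T.h (P (nat_lit 0)) (T.h (M (nat_lit 5074626016790479634431)) (T.h (P (nat_lit 0)) (P (nat_lit 6140512668286976))))) (T.h (P (nat_lit 0)) (T.h (T.h (P (nat_lit 0)) (M (nat_lit 37873789833461759))) (P (nat_lit 0))))) (T.h (T.h (P (nat_lit 0)) (T.h (T.h (M (nat_lit 14044839506763317247)) (T.h (P (nat_lit 0)) (M (nat_lit 43491366017423)))) (T.h (P (nat_lit 0)) (M (nat_lit 15746492039039))))) (T.h (T.h (T.h (P (nat_lit 0)) (M (nat_lit 25150337114456063))) (P (nat_lit 0))) (T.h (T.h (P (nat_lit 0)) (M (nat_lit 3743196082991))) (P (nat_lit 0)))))))), (T.h (T.h (T.h (M (nat_lit 3388291302366962560366419116031)) (T.h (P (nat_lit 0)) (T.h (P (nat_lit 4983474547258667095293952)) (T.h (P (nat_lit 0)) (P (nat_lit 5571827366197460992)))))) (T.h (P (nat_lit 0)) (T.h (T.h (M (nat_lit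 52973080057366503088979967)) (T.h (P (nat_lit 0)) (M (nat_lit 91053075213775273983)))) (T.h (P (nat_lit 0)) (M (nat_lit 201408859984088793087)))))) (T.h (T.h (P (nat_lit 0)) (T.h (T.h (P (nat_lit 0)) (T.h (P (nat_lit 130518322924367101558784)) (T.h (P (nat_lit 0)) (M (nat_lit 28954197942730751))))) (T.h (P (nat_lit 0)) (T.h (T.h (P (nat_lit 0)) (M (nat_lit 179461911432396799))) (P (nat_lit 0)))))) (T.h (T.h (T.h (P (nat_lit 4983474547258667095293952)) (T.h (P (nat_lit 0)) (M (nat_lit 46072855600505552895)))) (T.h (P (nat_lit 0)) (M (nat_lit 91053075213775273983)))) (T.h (T.h (P (nat_lit 0)) (T.h (T.h (P (nat_lit 0)) (M (nat_lit 28954197942730751))) (P (nat_lit 0)))) (P (nat_lit 5571827366197460992)))))), (P (nat_lit 0)), (P (nat_lit 0)), (T.h (T.h (P (nat_lit 0)) (T.h (T.h (P (nat_lit 0)) (T.h (M (nat_lit 1761177201905144919228415)) (T.h (P (nat_lit 0)) (M (nat_lit 1424453042811437055))))) (T.h (P (nat_lit 0)) (T.h (T.h (P (nat_lit 0)) (M (nat_lit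 159289274093619118079))) (P (nat_lit 0)))))) (T.h (T.h (T.h (M (nat_lit 1069719061105742419312246783)) (T.h (P (nat_lit 0)) (T.h (P (nat_lit 167114983961662586880)) (T.h (P (nat_lit 0)) (M (nat_lit 6948109256065023)))))) (T.h (P (nat_lit 0)) (T.h (T.h (M (nat_lit 9039233065320873721855)) (T.h (P (nat_lit 0)) (P (nat_lit 69713786696892416)))) (T.h (P (nat_lit 0)) (M (nat_lit 360924354560393215)))))) (T.h (T.h (P (nat_lit 0)) (T.h (T.h (P (nat_lit 0)) (P (nat_lit 13635200529196908544))) (P (nat_lit 0)))) (T.h (T.h (T.h (P (nat_lit 4810639926731932172288)) (T.h (P (nat_lit 0)) (P (nat_lit 3999072314753024)))) (T.h (P (nat_lit 0)) (M (nat_lit 9114228696940543)))) (T.h (P (nat_lit 0)) (P (nat_lit 189485684457472))))))), (P (nat_lit 0)), (P (nat_lit 0))]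
def lQm_15 : List (T ℤ) := [(P (nat_lit 0)), (P (nat_lit 0)), (P (nat_lit 0)), (P (nat_lit 0)), (T.h (T.h (T.h (P (nat_lit 0)) (T.h (M (nat_lit 1842636641669992651706859519)) (T.h (P (nat_lit 0)) (T.h (M (nat_lit 3692873907294676451327)) (T.h (P (nat_lit 0)) (P (nat_lit 7481609000026112))))))) (T.h (P (nat_lit 0)) (T.h (T.h (P (nat_lit 0)) (T.h (P (nat_lit 4907546594058516299776)) (T.h (P (nat_lit 0)) (M (nat_lit 5832632511725567))))) (T.h (P (nat_lit 0)) (T.h (T.h (P (nat_lit 0)) (M (nat_lit 20897473785757695))) (P (nat_lit 0))))))) (T.h (T.h (P (nat_lit 0)) (T.h (T.h (P (nat_lit 3133008150478943286198272)) (T.h (P (nat_lit 0)) (T.h (P (nat_lit 75911826115607396352)) (T.h (P (nat_lit 0)) (P (nat_lit 11983016506304)))))) (T.h (P (nat_lit 0)) (T.h (T.h (P (nat_lit 4506255607094837248)) (T.h (P (nat_lit 0)) (M (nat_lit 9670404085391)))) (T.h (P (nat_lit 0)) (P (nat_lit 8114091958648))))))) (T.h (T.h (T.h (P (nat_lit 0)) (T.h (P (nat_lit 524702051116670517248))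 (T.h (P (nat_lit 0)) (M (nat_lit 31824348569567231))))) (T.h (P (nat_lit 0)) (T.h (T.h (P (nat_lit 0)) (M (nat_lit 19556106663329791))) (P (nat_lit 0))))) (T.h (T.h (P (nat_lit 0)) (T.h (T.h (M (nat_lit 1574276201889923071)) (T.h (P (nat_lit 0)) (M (nat_lit 1718313203015)))) (T.h (P (nat_lit 0)) (P (nat_lit 4428334664712))))) (T.h (T.h (T.h (P (nat_lit 0)) (M (nat_lit 10857135824961535))) (P (nat_lit 0))) (T.h (T.h (P (nat_lit 0)) (M (nat_lit 1092306519703))) (P (nat_lit 0)))))))), (T.h (T.h (T.h (M (nat_lit 4760559981841400535819587944447)) (T.h (P (nat_lit 0)) (T.h (M (nat_lit 12686087327818927969402879)) (T.h (P (nat_lit 0)) (T.h (P (nat_lit 79083973133016760320)) (T.h (P (nat_lit 0)) (P (nat_lit 33595231580112)))))))) (T.h (P (nat_lit 0)) (T.h (T.h (P (nat_lit 770520881638916390649856)) (T.h (P (nat_lit 0)) (T.h (M (nat_lit 20620189100488523775)) (T.h (P (nat_lit 0)) (P (nat_lit 52052519111328)))))) (T.h (P (nat_lit 0)) (T.h (T.h (P (nat_lit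 5476421613685571584)) (T.h (P (nat_lit 0)) (M (nat_lit 4136082018047)))) (T.h (P (nat_lit 0)) (M (nat_lit 1226078413135)))))))) (T.h (T.h (P (nat_lit 0)) (T.h (T.h (P (nat_lit 0)) (T.h (P (nat_lit 5718149774113176027136)) (T.h (P (nat_lit 0)) (P (nat_lit 88374154776510464))))) (T.h (P (nat_lit 0)) (T.h (T.h (P (nat_lit 0)) (M (nat_lit 22477953384775679))) (P (nat_lit 0)))))) (T.h (T.h (T.h (M (nat_lit 23554564491741895231275007)) (T.h (P (nat_lit 0)) (T.h (M (nat_lit 98180377231073738751)) (T.h (P (nat_lit 0)) (M (nat_lit 19123657897535)))))) (T.h (P (nat_lit 0)) (T.h (T.h (M (nat_lit 6340317228499468287)) (T.h (P (nat_lit 0)) (M (nat_lit 23507951099487)))) (T.h (P (nat_lit 0)) (P (nat_lit 3880953721632)))))) (T.h (T.h (P (nat_lit 0)) (T.h (T.h (P (nat_lit 0)) (M (nat_lit 87735198484725759))) (P (nat_lit 0)))) (T.h (T.h (T.h (M (nat_lit 26277287895165304831)) (T.h (P (nat_lit 0)) (M (nat_lit 35834186439263)))) (T.h (P (nat_lit 0)) (M (nat_lit 2332677536639))))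 (T.h (P (nat_lit 0)) (P (nat_lit 5106811990464)))))))), (T.h (T.h (T.h (P (nat_lit 0)) (T.h (M (nat_lit 7964465409808473183024578559)) (T.h (P (nat_lit 0)) (T.h (P (nat_lit 7119774854517733982208)) (T.h (P (nat_lit 0)) (P (nat_lit 148082487392174080))))))) (T.h (P (nat_lit 0)) (T.h (T.h (P (nat_lit 0)) (T.h (P (nat_lit 23922005058509963526144)) (T.h (P (nat_lit 0)) (M (nat_lit 35586079954829311))))) (T.h (P (nat_lit 0)) (T.h (T.h (P (nat_lit 0)) (M (nat_lit 19433905954488319))) (P (nat_lit 0))))))) (T.h (T.h (P (nat_lit 0)) (T.h (T.h (P (nat_lit 36565551147893332237090816)) (T.h (P (nat_lit 0)) (T.h (P (nat_lit 136602560658321440768)) (T.h (P (nat_lit 0)) (P (nat_lit 206420040118656)))))) (T.h (P (nat_lit 0)) (T.h (T.h (M (nat_lit 40838291985006591999)) (T.h (P (nat_lit 0)) (M (nat_lit 9075415495295)))) (T.h (P (nat_lit 0)) (P (nat_lit 2955205671168))))))) (T.h (T.h (T.h (P (nat_lit 0)) (T.h (P (nat_lit 135355189748246979280896)) (T.h (P (nat_lit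 0)) (P (nat_lit 285802558304780288))))) (T.h (P (nat_lit 0)) (T.h (T.h (P (nat_lit 0)) (M (nat_lit 76855338413654015))) (P (nat_lit 0))))) (T.h (T.h (P (nat_lit 0)) (T.h (T.h (P (nat_lit 22323664257476984832)) (T.h (P (nat_lit 0)) (P (nat_lit 66324274011008)))) (T.h (P (nat_lit 0)) (P (nat_lit 4242820383296))))) (T.h (T.h (T.h (P (nat_lit 0)) (P (nat_lit 11688336278388736))) (P (nat_lit 0))) (T.h (T.h (P (nat_lit 0)) (M (nat_lit 24139558673279))) (P (nat_lit 0)))))))), (T.h (T.h (T.h (M (nat_lit 6550205974850090925245048291327)) (T.h (P (nat_lit 0)) (T.h (M (nat_lit 10820930293763412938719231)) (T.h (P (nat_lit 0)) (T.h (P (nat_lit 10167124700157706240)) (T.h (P (nat_lit 0)) (M (nat_lit 1900902457007)))))))) (T.h (P (nat_lit 0)) (T.h (T.h (P (nat_lit 914669431254911916441600)) (T.h (P (nat_lit 0)) (T.h (P (nat_lit 32321156511269126144)) (T.h (P (nat_lit 0)) (M (nat_lit 154054818207791)))))) (T.h (P (nat_lit 0)) (T.h (T.h (M (nat_lit 10956550989288570879))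 (T.h (P (nat_lit 0)) (M (nat_lit 40633845785423)))) (T.h (P (nat_lit 0)) (P (nat_lit 2262664312560)))))))) (T.h (T.h (P (nat_lit 0)) (T.h (T.h (P (nat_lit 0)) (T.h (P (nat_lit 9561867817973534687232)) (T.h (P (nat_lit 0)) (M (nat_lit 202715487664177151))))) (T.h (P (nat_lit 0)) (T.h (T.h (P (nat_lit 0)) (M (nat_lit 2980120280563711))) (P (nat_lit 0)))))) (T.h (T.h (T.h (P (nat_lit 24644433191013854713217024)) (T.h (P (nat_lit 0)) (T.h (P (nat_lit 247730919216223617024)) (T.h (P (nat_lit 0)) (P (nat_lit 135693679464000)))))) (T.h (P (nat_lit 0)) (T.h (T.h (P (nat_lit 16663814109501849600)) (T.h (P (nat_lit 0)) (M (nat_lit 154284181097903)))) (T.h (P (nat_lit 0)) (M (nat_lit 40758030476063)))))) (T.h (T.h (P (nat_lit 0)) (T.h (T.h (P (nat_lit 0)) (M (nat_lit 36175207789887487))) (P (nat_lit 0)))) (T.h (T.h (T.h (P (nat_lit 12995145507583033344)) (T.h (P (nat_lit 0)) (M (nat_lit 29246983189487)))) (T.h (P (nat_lit 0)) (P (nat_lit 3747522647088)))) (T.h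 (P (nat_lit 0)) (M (nat_lit 12383001643247))))))))]
def lQm_16 : List (T ℤ) := [(T.h (T.h (T.h (P (nat_lit 0)) (T.h (P (nat_lit 5938840239767262457329876992)) (T.h (P (nat_lit 0)) (T.h (M (nat_lit 15260972577348049174527)) (T.h (P (nat_lit 0)) (M (nat_lit 68021766630866943))))))) (T.h (P (nat_lit 0)) (T.h (T.h (P (nat_lit 0)) (T.h (M (nat_lit 32448110580492473991167)) (T.h (P (nat_lit 0)) (P (nat_lit 176124080196288512))))) (T.h (P (nat_lit 0)) (T.h (T.h (P (nat_lit 0)) (P (nat_lit 14493620268662784))) (P (nat_lit 0))))))) (T.h (T.h (P (nat_lit 0)) (T.h (T.h (M (nat_lit 8121832179209592299847679)) (T.h (P (nat_lit 0)) (M (nat_lit 9408689513531703295)))) (T.h (P (nat_lit 0)) (M (nat_lit 6818117037345210367))))) (T.h (T.h (T.h (P (nat_lit 0)) (T.h (M (nat_lit 83505656668972851920895)) (T.h (P (nat_lit 0)) (M (nat_lit 112761797231247359))))) (T.h (P (nat_lit 0)) (T.h (T.h (P (nat_lit 0)) (P (nat_lit 99906550954229760))) (P (nat_lit 0))))) (T.h (T.h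 (P (nat_lit 0)) (P (nat_lit 18589109809936596992))) (T.h (T.h (T.h (P (nat_lit 0)) (P (nat_lit 17569552337108992))) (P (nat_lit 0))) (P (nat_lit 0))))))), (P (nat_lit 0)), (P (nat_lit 0)), (T.h (T.h (P (nat_lit 0)) (T.h (T.h (M (nat_lit 7676601293760344942171914239)) (T.h (P (nat_lit 0)) (T.h (M (nat_lit 2528467221433185992703)) (T.h (P (nat_lit 0)) (M (nat_lit 20274453471068159)))))) (T.h (P (nat_lit 0)) (T.h (T.h (P (nat_lit 843667312744360574976)) (T.h (P (nat_lit 0)) (M (nat_lit 94577210414956543)))) (T.h (P (nat_lit 0)) (M (nat_lit 1155217284857855))))))) (T.h (T.h (T.h (P (nat_lit 0)) (T.h (P (nat_lit 6540568087616169885827072)) (T.h (P (nat_lit 0)) (T.h (M (nat_lit 34911053992542863359)) (T.h (P (nat_lit 0)) (P (nat_lit 49104525143808))))))) (T.h (P (nat_lit 0)) (T.h (T.h (P (nat_lit 0)) (T.h (P (nat_lit 2741480094106124288)) (T.h (P (nat_lit 0)) (M (nat_lit 416351873837287))))) (T.h (P (nat_lit 0)) (T.h (T.h (P (nat_lit 0)) (M (nat_lit 49962957403375)))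 (P (nat_lit 0))))))) (T.h (T.h (P (nat_lit 0)) (T.h (T.h (M (nat_lit 2528467221433185992703)) (T.h (P (nat_lit 0)) (P (nat_lit 114226627383721984)))) (T.h (P (nat_lit 0)) (M (nat_lit 94577210414956543))))) (T.h (T.h (T.h (P (nat_lit 0)) (T.h (M (nat_lit 34911053992542863359)) (T.h (P (nat_lit 0)) (P (nat_lit 30759875023728))))) (T.h (P (nat_lit 0)) (T.h (T.h (P (nat_lit 0)) (M (nat_lit 416351873837287))) (P (nat_lit 0))))) (T.h (T.h (P (nat_lit 0)) (M (nat_lit 20274453471068159))) (T.h (T.h (T.h (P (nat_lit 0)) (P (nat_lit 49104525143808))) (P (nat_lit 0))) (P (nat_lit 0)))))))), (T.h (T.h (P (nat_lit 0)) (T.h (T.h (P (nat_lit 0)) (T.h (P (nat_lit 19361259890558873645350912)) (T.h (P (nat_lit 0)) (T.h (P (nat_lit 315625357326101250048)) (T.h (P (nat_lit 0)) (M (nat_lit 12012813532351))))))) (T.h (P (nat_lit 0)) (T.h (T.h (P (nat_lit 0)) (T.h (P (nat_lit 301861519813580423168)) (T.h (P (nat_lit 0)) (M (nat_lit 7866646795423))))) (T.h (P (nat_lit 0))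 (T.h (T.h (P (nat_lit 0)) (M (nat_lit 4685423447423))) (P (nat_lit 0)))))))) (T.h (T.h (T.h (M (nat_lit 12442159702627192574694129663)) (T.h (P (nat_lit 0)) (T.h (P (nat_lit 9314640038293583953920)) (T.h (P (nat_lit 0)) (M (nat_lit 50878799646982143)))))) (T.h (P (nat_lit 0)) (T.h (T.h (M (nat_lit 55715830800575121850367)) (T.h (P (nat_lit 0)) (P (nat_lit 958406978850095104)))) (T.h (P (nat_lit 0)) (M (nat_lit 63682034683822079)))))) (T.h (T.h (P (nat_lit 0)) (T.h (T.h (P (nat_lit 0)) (T.h (M (nat_lit 43470478741176582143)) (T.h (P (nat_lit 0)) (P (nat_lit 254418358177664))))) (T.h (P (nat_lit 0)) (T.h (T.h (P (nat_lit 0)) (P (nat_lit 90268290434928))) (P (nat_lit 0)))))) (T.h (T.h (T.h (P (nat_lit 22743871949365672148992)) (T.h (P (nat_lit 0)) (P (nat_lit 211703931507752960)))) (T.h (P (nat_lit 0)) (M (nat_lit 108479705473908735)))) (T.h (T.h (P (nat_lit 0)) (T.h (T.h (P (nat_lit 0)) (P (nat_lit 54023327974512))) (P (nat_lit 0)))) (P (nat_lit 18097103314681856))))))),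 (T.h (T.h (P (nat_lit 0)) (T.h (T.h (P (nat_lit 30439372902512087466491510784)) (T.h (P (nat_lit 0)) (T.h (M (nat_lit 163116600156994838462463)) (T.h (P (nat_lit 0)) (P (nat_lit 409804081434263552)))))) (T.h (P (nat_lit 0)) (T.h (T.h (M (nat_lit 4512347180252872572927)) (T.h (P (nat_lit 0)) (P (nat_lit 390897227788976128)))) (T.h (P (nat_lit 0)) (P (nat_lit 25401474191458304))))))) (T.h (T.h (T.h (P (nat_lit 0)) (T.h (P (nat_lit 17136308746545256755888128)) (T.h (P (nat_lit 0)) (T.h (M (nat_lit 254244116952053186559)) (T.h (P (nat_lit 0)) (P (nat_lit 118685896343040))))))) (T.h (P (nat_lit 0)) (T.h (T.h (P (nat_lit 0)) (T.h (M (nat_lit 40001066219060854783)) (T.h (P (nat_lit 0)) (P (nat_lit 435589951003264))))) (T.h (P (nat_lit 0)) (T.h (T.h (P (nat_lit 0)) (P (nat_lit 224110488235840))) (P (nat_lit 0))))))) (T.h (T.h (P (nat_lit 0)) (T.h (T.h (M (nat_lit 5187693863199632785407)) (T.h (P (nat_lit 0)) (M (nat_lit 783145859356131327)))) (T.h (P (nat_lit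 0)) (P (nat_lit 165668878693040128))))) (T.h (T.h (T.h (P (nat_lit 0)) (T.h (M (nat_lit 390903923725150715903)) (T.h (P (nat_lit 0)) (M (nat_lit 297158349740031))))) (T.h (P (nat_lit 0)) (T.h (T.h (P (nat_lit 0)) (M (nat_lit 201592896292031))) (P (nat_lit 0))))) (T.h (T.h (P (nat_lit 0)) (M (nat_lit 131697003819499519))) (T.h (T.h (T.h (P (nat_lit 0)) (M (nat_lit 41950637664831))) (P (nat_lit 0))) (P (nat_lit 0)))))))), (T.h (T.h (P (nat_lit 0)) (T.h (T.h (P (nat_lit 0)) (T.h (P (nat_lit 125077768936907594421764096)) (T.h (P (nat_lit 0)) (T.h (M (nat_lit 345759542040470749183)) (T.h (P (nat_lit 0)) (P (nat_lit 88368910367184))))))) (T.h (P (nat_lit 0)) (T.h (T.h (P (nat_lit 0)) (T.h (M (nat_lit 278499119748561764351)) (T.h (P (nat_lit 0)) (M (nat_lit 40308873541055))))) (T.h (P (nat_lit 0)) (T.h (T.h (P (nat_lit 0)) (P (nat_lit 6090557697360))) (P (nat_lit 0)))))))) (T.h (T.h (T.h (M (nat_lit 19749972867985824880883924991)) (T.h (P (nat_lit 0)) (T.h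 (P (nat_lit 85813189506337280622592)) (T.h (P (nat_lit 0)) (P (nat_lit 99857125569953792)))))) (T.h (P (nat_lit 0)) (T.h (T.h (M (nat_lit 48149716623839597690879)) (T.h (P (nat_lit 0)) (M (nat_lit 206162730796777471)))) (T.h (P (nat_lit 0)) (M (nat_lit 90597181508173823)))))) (T.h (T.h (P (nat_lit 0)) (T.h (T.h (P (nat_lit 0)) (T.h (P (nat_lit 320132666256611344384)) (T.h (P (nat_lit 0)) (P (nat_lit 480696106885200))))) (T.h (P (nat_lit 0)) (T.h (T.h (P (nat_lit 0)) (P (nat_lit 135400654107216))) (P (nat_lit 0)))))) (T.h (T.h (T.h (M (nat_lit 3964513970473056337919)) (T.h (P (nat_lit 0)) (M (nat_lit 771701867331026943)))) (T.h (P (nat_lit 0)) (M (nat_lit 65492402368675839)))) (T.h (T.h (P (nat_lit 0)) (T.h (T.h (P (nat_lit 0)) (M (nat_lit 212902374284207))) (P (nat_lit 0)))) (P (nat_lit 22758469681364992))))))), (T.h (T.h (P (nat_lit 0)) (T.h (T.h (M (nat_lit 2802544089202721518058995711)) (T.h (P (nat_lit 0)) (T.h (P (nat_lit 219226733783414827122688))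 (T.h (P (nat_lit 0)) (M (nat_lit 111197562056900607)))))) (T.h (P (nat_lit 0)) (T.h (T.h (P (nat_lit 11706436078456893603840)) (T.h (P (nat_lit 0)) (P (nat_lit 48128141689192448)))) (T.h (P (nat_lit 0)) (M (nat_lit 10301442286452735))))))) (T.h (T.h (T.h (P (nat_lit 0)) (T.h (P (nat_lit 15532778243652765473570816)) (T.h (P (nat_lit 0)) (M (nat_lit 292461774379792990207))))) (T.h (P (nat_lit 0)) (T.h (T.h (P (nat_lit 0)) (M (nat_lit 132783142035194380287))) (P (nat_lit 0))))) (T.h (T.h (P (nat_lit 0)) (T.h (T.h (M (nat_lit 11334887043216479092735)) (T.h (P (nat_lit 0)) (M (nat_lit 307064400049864703)))) (T.h (P (nat_lit 0)) (P (nat_lit 64870222751039488))))) (T.h (T.h (T.h (P (nat_lit 0)) (P (nat_lit 372027013451330093056))) (P (nat_lit 0))) (T.h (T.h (P (nat_lit 0)) (P (nat_lit 17610523673985024))) (P (nat_lit 0)))))))]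
def lQm_17 : List (T ℤ) := [(P (nat_lit 0)), (P (nat_lit 0)), (T.h (T.h (T.h (P (nat_lit 0)) (T.h (M (nat_lit 7676601293760344942171914239)) (T.h (P (nat_lit 0)) (T.h (P (nat_lit 843667312744360574976)) (T.h (P (nat_lit 0)) (M (nat_lit 1155217284857855))))))) (T.h (P (nat_lit 0)) (T.h (T.h (P (nat_lit 0)) (T.h (M (nat_lit 2528467221433185992703)) (T.h (P (nat_lit 0)) (M (nat_lit 94577210414956543))))) (T.h (P (nat_lit 0)) (T.h (T.h (P (nat_lit 0)) (M (nat_lit 20274453471068159))) (P (nat_lit 0))))))) (T.h (T.h (P (nat_lit 0)) (T.h (T.h (P (nat_lit 6540568087616169885827072)) (T.h (P (nat_lit 0)) (T.h (P (nat_lit 2741480094106124288)) (T.h (P (nat_lit 0)) (M (nat_lit 49962957403375)))))) (T.h (P (nat_lit 0)) (T.h (T.h (M (nat_lit 34911053992542863359)) (T.h (P (nat_lit 0)) (M (nat_lit 416351873837287)))) (T.h (P (nat_lit 0)) (P (nat_lit 49104525143808))))))) (T.h (T.h (T.h (P (nat_lit 0)) (T.h (M (nat_lit 2528467221433185992703)) (T.h (P (nat_lit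 0)) (M (nat_lit 94577210414956543))))) (T.h (P (nat_lit 0)) (T.h (T.h (P (nat_lit 0)) (P (nat_lit 114226627383721984))) (P (nat_lit 0))))) (T.h (T.h (P (nat_lit 0)) (T.h (T.h (M (nat_lit 34911053992542863359)) (T.h (P (nat_lit 0)) (M (nat_lit 416351873837287)))) (T.h (P (nat_lit 0)) (P (nat_lit 30759875023728))))) (T.h (T.h (T.h (P (nat_lit 0)) (M (nat_lit 20274453471068159))) (P (nat_lit 0))) (T.h (T.h (P (nat_lit 0)) (P (nat_lit 49104525143808))) (P (nat_lit 0)))))))), (T.h (T.h (T.h (M (nat_lit 11791259417210696447868832579583)) (T.h (P (nat_lit 0)) (T.h (M (nat_lit 6038713356502016525860863)) (T.h (P (nat_lit 0)) (T.h (M (nat_lit 30488249492098252799)) (T.h (P (nat_lit 0)) (M (nat_lit 14057967842495)))))))) (T.h (P (nat_lit 0)) (T.h (T.h (M (nat_lit 6038713356502016525860863)) (T.h (P (nat_lit 0)) (T.h (P (nat_lit 252307700561771233280)) (T.h (P (nat_lit 0)) (M (nat_lit 97884385976735)))))) (T.h (P (nat_lit 0)) (T.h (T.h (M (nat_lit 30488249492098252799))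 (T.h (P (nat_lit 0)) (M (nat_lit 97884385976735)))) (T.h (P (nat_lit 0)) (M (nat_lit 14057967842495)))))))) (T.h (T.h (P (nat_lit 0)) (T.h (T.h (P (nat_lit 0)) (T.h (P (nat_lit 8421825983228606939136)) (T.h (P (nat_lit 0)) (M (nat_lit 193232041273327615))))) (T.h (P (nat_lit 0)) (T.h (T.h (P (nat_lit 0)) (M (nat_lit 193232041273327615))) (P (nat_lit 0)))))) (T.h (T.h (T.h (M (nat_lit 6038713356502016525860863)) (T.h (P (nat_lit 0)) (T.h (P (nat_lit 252307700561771233280)) (T.h (P (nat_lit 0)) (M (nat_lit 97884385976735)))))) (T.h (P (nat_lit 0)) (T.h (P (nat_lit 252307700561771233280)) (T.h (P (nat_lit 0)) (M (nat_lit 97884385976735)))))) (T.h (T.h (P (nat_lit 0)) (T.h (T.h (P (nat_lit 0)) (M (nat_lit 193232041273327615))) (P (nat_lit 0)))) (T.h (T.h (T.h (M (nat_lit 30488249492098252799)) (T.h (P (nat_lit 0)) (M (nat_lit 97884385976735)))) (T.h (P (nat_lit 0)) (M (nat_lit 97884385976735)))) (T.h (P (nat_lit 0)) (M (nat_lit 14057967842495)))))))),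 (T.h (T.h (T.h (P (nat_lit 0)) (T.h (M (nat_lit 9545874895522193633590640639)) (T.h (P (nat_lit 0)) (T.h (M (nat_lit 90618985186322737528831)) (T.h (P (nat_lit 0)) (P (nat_lit 19296232174452736))))))) (T.h (P (nat_lit 0)) (T.h (T.h (P (nat_lit 0)) (T.h (M (nat_lit 445491985582406009618431)) (T.h (P (nat_lit 0)) (M (nat_lit 146736208288743423))))) (T.h (P (nat_lit 0)) (T.h (T.h (P (nat_lit 0)) (P (nat_lit 270446748449570816))) (P (nat_lit 0))))))) (T.h (T.h (P (nat_lit 0)) (T.h (T.h (P (nat_lit 44471439507994196244955136)) (T.h (P (nat_lit 0)) (T.h (M (nat_lit 1687305341707791368191)) (T.h (P (nat_lit 0)) (M (nat_lit 337357176257407)))))) (T.h (P (nat_lit 0)) (T.h (T.h (M (nat_lit 110754958492724887551)) (T.h (P (nat_lit 0)) (P (nat_lit 64923611577792)))) (T.h (P (nat_lit 0)) (P (nat_lit 133890566166208))))))) (T.h (T.h (T.h (P (nat_lit 0)) (T.h (M (nat_lit 445491985582406009618431)) (T.h (P (nat_lit 0)) (M (nat_lit 146736208288743423))))) (T.h (P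 (nat_lit 0)) (T.h (T.h (P (nat_lit 0)) (M (nat_lit 35426960130179071))) (P (nat_lit 0))))) (T.h (T.h (P (nat_lit 0)) (T.h (T.h (M (nat_lit 110754958492724887551)) (T.h (P (nat_lit 0)) (P (nat_lit 64923611577792)))) (T.h (P (nat_lit 0)) (M (nat_lit 85561532059775))))) (T.h (T.h (T.h (P (nat_lit 0)) (P (nat_lit 270446748449570816))) (P (nat_lit 0))) (T.h (T.h (P (nat_lit 0)) (P (nat_lit 133890566166208))) (P (nat_lit 0)))))))), (T.h (T.h (T.h (M (nat_lit 9621836782640715442813122117631)) (T.h (P (nat_lit 0)) (T.h (P (nat_lit 95447913308479641767378944)) (T.h (P (nat_lit 0)) (T.h (P (nat_lit 14001697306391347200)) (T.h (P (nat_lit 0)) (P (nat_lit 335070000742752)))))))) (T.h (P (nat_lit 0)) (T.h (T.h (P (nat_lit 39709390679530183027851264)) (T.h (P (nat_lit 0)) (T.h (M (nat_lit 876055013546178641919)) (T.h (P (nat_lit 0)) (M (nat_lit 140036581379231)))))) (T.h (P (nat_lit 0)) (T.h (T.h (M (nat_lit 46137101300793343999)) (T.h (P (nat_lit 0)) (P (nat_lit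 48162526619760)))) (T.h (P (nat_lit 0)) (P (nat_lit 44261739818928)))))))) (T.h (T.h (P (nat_lit 0)) (T.h (T.h (P (nat_lit 0)) (T.h (P (nat_lit 693188341454905471401984)) (T.h (P (nat_lit 0)) (M (nat_lit 360564490332274687))))) (T.h (P (nat_lit 0)) (T.h (T.h (P (nat_lit 0)) (P (nat_lit 150070350940602368))) (P (nat_lit 0)))))) (T.h (T.h (T.h (P (nat_lit 39709390679530183027851264)) (T.h (P (nat_lit 0)) (T.h (M (nat_lit 876055013546178641919)) (T.h (P (nat_lit 0)) (M (nat_lit 140036581379231)))))) (T.h (P (nat_lit 0)) (T.h (T.h (P (nat_lit 325842093885051895808)) (T.h (P (nat_lit 0)) (P (nat_lit 140014755056160)))) (T.h (P (nat_lit 0)) (P (nat_lit 83994971528592)))))) (T.h (T.h (P (nat_lit 0)) (T.h (T.h (P (nat_lit 0)) (P (nat_lit 150070350940602368))) (P (nat_lit 0)))) (T.h (T.h (T.h (M (nat_lit 46137101300793343999)) (T.h (P (nat_lit 0)) (P (nat_lit 48162526619760)))) (T.h (P (nat_lit 0)) (P (nat_lit 83994971528592)))) (T.h (P (nat_lit 0)) (P (nat_lit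 44261739818928)))))))), (T.h (T.h (T.h (P (nat_lit 0)) (T.h (M (nat_lit 4579424526163621342888329215)) (T.h (P (nat_lit 0)) (T.h (M (nat_lit 85697005781413963759615)) (T.h (P (nat_lit 0)) (M (nat_lit 497699913998991359))))))) (T.h (P (nat_lit 0)) (T.h (T.h (P (nat_lit 0)) (T.h (P (nat_lit 248937398817884102197248)) (T.h (P (nat_lit 0)) (P (nat_lit 45596862977114112))))) (T.h (P (nat_lit 0)) (T.h (T.h (P (nat_lit 0)) (P (nat_lit 19598115853172736))) (P (nat_lit 0))))))) (T.h (T.h (P (nat_lit 0)) (T.h (T.h (P (nat_lit 39688469449529713359847424)) (T.h (P (nat_lit 0)) (P (nat_lit 34670609189121818624)))) (T.h (P (nat_lit 0)) (M (nat_lit 59325890128280289279))))) (T.h (T.h (T.h (P (nat_lit 0)) (T.h (P (nat_lit 248937398817884102197248)) (T.h (P (nat_lit 0)) (P (nat_lit 45596862977114112))))) (T.h (P (nat_lit 0)) (T.h (T.h (P (nat_lit 0)) (M (nat_lit 248589297153277951))) (P (nat_lit 0))))) (T.h (T.h (P (nat_lit 0)) (M (nat_lit 59325890128280289279)))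 (T.h (T.h (T.h (P (nat_lit 0)) (P (nat_lit 19598115853172736))) (P (nat_lit 0))) (P (nat_lit 0))))))), (P (nat_lit 0))]
def lQm_18 : List (T ℤ) := [(P (nat_lit 0)), (T.h (T.h (P (nat_lit 0)) (T.h (T.h (M (nat_lit 1842636641669992651706859519)) (T.h (P (nat_lit 0)) (T.h (P (nat_lit 4907546594058516299776)) (T.h (P (nat_lit 0)) (M (nat_lit 20897473785757695)))))) (T.h (P (nat_lit 0)) (T.h (T.h (M (nat_lit 3692873907294676451327)) (T.h (P (nat_lit 0)) (M (nat_lit 5832632511725567)))) (T.h (P (nat_lit 0)) (P (nat_lit 7481609000026112))))))) (T.h (T.h (T.h (P (nat_lit 0)) (T.h (P (nat_lit 3133008150478943286198272)) (T.h (P (nat_lit 0)) (T.h (P (nat_lit 4506255607094837248)) (T.h (P (nat_lit 0)) (P (nat_lit 8114091958648))))))) (T.h (P (nat_lit 0)) (T.h (T.h (P (nat_lit 0)) (T.h (P (nat_lit 75911826115607396352)) (T.h (P (nat_lit 0)) (M (nat_lit 9670404085391))))) (T.h (P (nat_lit 0)) (T.h (T.h (P (nat_lit 0)) (P (nat_lit 11983016506304))) (P (nat_lit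 0))))))) (T.h (T.h (P (nat_lit 0)) (T.h (T.h (P (nat_lit 524702051116670517248)) (T.h (P (nat_lit 0)) (M (nat_lit 19556106663329791)))) (T.h (P (nat_lit 0)) (M (nat_lit 31824348569567231))))) (T.h (T.h (T.h (P (nat_lit 0)) (T.h (M (nat_lit 1574276201889923071)) (T.h (P (nat_lit 0)) (P (nat_lit 4428334664712))))) (T.h (P (nat_lit 0)) (T.h (T.h (P (nat_lit 0)) (M (nat_lit 1718313203015))) (P (nat_lit 0))))) (T.h (T.h (P (nat_lit 0)) (M (nat_lit 10857135824961535))) (T.h (T.h (T.h (P (nat_lit 0)) (M (nat_lit 1092306519703))) (P (nat_lit 0))) (P (nat_lit 0)))))))), (T.h (T.h (P (nat_lit 0)) (T.h (T.h (P (nat_lit 0)) (T.h (P (nat_lit 19361259890558873645350912)) (T.h (P (nat_lit 0)) (T.h (P (nat_lit 301861519813580423168)) (T.h (P (nat_lit 0)) (M (nat_lit 4685423447423))))))) (T.h (P (nat_lit 0)) (T.h (T.h (P (nat_lit 0)) (T.h (P (nat_lit 315625357326101250048)) (T.h (P (nat_lit 0)) (M (nat_lit 7866646795423))))) (T.h (P (nat_lit 0)) (T.h (T.h (P (nat_lit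 0)) (M (nat_lit 12012813532351))) (P (nat_lit 0)))))))) (T.h (T.h (T.h (M (nat_lit 12442159702627192574694129663)) (T.h (P (nat_lit 0)) (T.h (M (nat_lit 55715830800575121850367)) (T.h (P (nat_lit 0)) (M (nat_lit 63682034683822079)))))) (T.h (P (nat_lit 0)) (T.h (T.h (P (nat_lit 9314640038293583953920)) (T.h (P (nat_lit 0)) (P (nat_lit 958406978850095104)))) (T.h (P (nat_lit 0)) (M (nat_lit 50878799646982143)))))) (T.h (T.h (P (nat_lit 0)) (T.h (T.h (P (nat_lit 0)) (T.h (M (nat_lit 43470478741176582143)) (T.h (P (nat_lit 0)) (P (nat_lit 90268290434928))))) (T.h (P (nat_lit 0)) (T.h (T.h (P (nat_lit 0)) (P (nat_lit 254418358177664))) (P (nat_lit 0)))))) (T.h (T.h (T.h (P (nat_lit 22743871949365672148992)) (T.h (P (nat_lit 0)) (M (nat_lit 108479705473908735)))) (T.h (P (nat_lit 0)) (P (nat_lit 211703931507752960)))) (T.h (T.h (P (nat_lit 0)) (T.h (T.h (P (nat_lit 0)) (P (nat_lit 54023327974512))) (P (nat_lit 0)))) (P (nat_lit 18097103314681856))))))),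 (T.h (T.h (P (nat_lit 0)) (T.h (T.h (M (nat_lit 9545874895522193633590640639)) (T.h (P (nat_lit 0)) (T.h (M (nat_lit 445491985582406009618431)) (T.h (P (nat_lit 0)) (P (nat_lit 270446748449570816)))))) (T.h (P (nat_lit 0)) (T.h (T.h (M (nat_lit 90618985186322737528831)) (T.h (P (nat_lit 0)) (M (nat_lit 146736208288743423)))) (T.h (P (nat_lit 0)) (P (nat_lit 19296232174452736))))))) (T.h (T.h (T.h (P (nat_lit 0)) (T.h (P (nat_lit 44471439507994196244955136)) (T.h (P (nat_lit 0)) (T.h (M (nat_lit 110754958492724887551)) (T.h (P (nat_lit 0)) (P (nat_lit 133890566166208))))))) (T.h (P (nat_lit 0)) (T.h (T.h (P (nat_lit 0)) (T.h (M (nat_lit 1687305341707791368191)) (T.h (P (nat_lit 0)) (P (nat_lit 64923611577792))))) (T.h (P (nat_lit 0)) (T.h (T.h (P (nat_lit 0)) (M (nat_lit 337357176257407))) (P (nat_lit 0))))))) (T.h (T.h (P (nat_lit 0)) (T.h (T.h (M (nat_lit 445491985582406009618431)) (T.h (P (nat_lit 0)) (M (nat_lit 35426960130179071)))) (T.h (P (nat_lit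 0)) (M (nat_lit 146736208288743423))))) (T.h (T.h (T.h (P (nat_lit 0)) (T.h (M (nat_lit 110754958492724887551)) (T.h (P (nat_lit 0)) (M (nat_lit 85561532059775))))) (T.h (P (nat_lit 0)) (T.h (T.h (P (nat_lit 0)) (P (nat_lit 64923611577792))) (P (nat_lit 0))))) (T.h (T.h (P (nat_lit 0)) (P (nat_lit 270446748449570816))) (T.h (T.h (T.h (P (nat_lit 0)) (P (nat_lit 133890566166208))) (P (nat_lit 0))) (P (nat_lit 0)))))))), (T.h (T.h (P (nat_lit 0)) (T.h (T.h (P (nat_lit 0)) (T.h (M (nat_lit 86898959468142454170976255)) (T.h (P (nat_lit 0)) (T.h (M (nat_lit 646848846316462669823)) (T.h (P (nat_lit 0)) (P (nat_lit 337671127368288))))))) (T.h (P (nat_lit 0)) (T.h (T.h (P (nat_lit 0)) (T.h (M (nat_lit 646848846316462669823)) (T.h (P (nat_lit 0)) (M (nat_lit 99566560820447))))) (T.h (P (nat_lit 0)) (T.h (T.h (P (nat_lit 0)) (P (nat_lit 337671127368288))) (P (nat_lit 0)))))))) (T.h (T.h (T.h (P (nat_lit 52310243088687655789380239360)) (T.h (P (nat_lit 0))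 (T.h (P (nat_lit 617189314113394654052352)) (T.h (P (nat_lit 0)) (P (nat_lit 4422557504126976)))))) (T.h (P (nat_lit 0)) (T.h (T.h (P (nat_lit 617189314113394654052352)) (T.h (P (nat_lit 0)) (M (nat_lit 196672124278702079)))) (T.h (P (nat_lit 0)) (P (nat_lit 4422557504126976)))))) (T.h (T.h (P (nat_lit 0)) (T.h (T.h (P (nat_lit 0)) (T.h (P (nat_lit 294794269230620475392)) (T.h (P (nat_lit 0)) (M (nat_lit 850977363897935))))) (T.h (P (nat_lit 0)) (T.h (T.h (P (nat_lit 0)) (M (nat_lit 850977363897935))) (P (nat_lit 0)))))) (T.h (T.h (T.h (P (nat_lit 144754076876271417032704)) (T.h (P (nat_lit 0)) (P (nat_lit 557050926757429248)))) (T.h (P (nat_lit 0)) (P (nat_lit 557050926757429248)))) (T.h (T.h (P (nat_lit 0)) (T.h (T.h (P (nat_lit 0)) (M (nat_lit 439370500807583))) (P (nat_lit 0)))) (M (nat_lit 110256827492040703))))))), (T.h (T.h (P (nat_lit 0)) (T.h (T.h (P (nat_lit 8678397838319954379703058432)) (T.h (P (nat_lit 0)) (T.h (P (nat_lit 378592996281651543670784))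 (T.h (P (nat_lit 0)) (M (nat_lit 208185981911433215)))))) (T.h (P (nat_lit 0)) (T.h (T.h (P (nat_lit 74394072377337271287808)) (T.h (P (nat_lit 0)) (P (nat_lit 66756519374815232)))) (T.h (P (nat_lit 0)) (M (nat_lit 139219386486030335))))))) (T.h (T.h (T.h (P (nat_lit 0)) (T.h (M (nat_lit 96179261992023780361240575)) (T.h (P (nat_lit 0)) (P (nat_lit 6753330301906190336))))) (T.h (P (nat_lit 0)) (T.h (T.h (P (nat_lit 0)) (M (nat_lit 53604245851376451583))) (P (nat_lit 0))))) (T.h (T.h (P (nat_lit 0)) (T.h (T.h (M (nat_lit 341199079021657320325119)) (T.h (P (nat_lit 0)) (P (nat_lit 589473878395617280)))) (T.h (P (nat_lit 0)) (P (nat_lit 62581864780890112))))) (T.h (T.h (T.h (P (nat_lit 0)) (M (nat_lit 217121808635813429247))) (P (nat_lit 0))) (T.h (T.h (P (nat_lit 0)) (P (nat_lit 129826036928675840))) (P (nat_lit 0))))))), (P (nat_lit 0)), (P (nat_lit 0))]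
def lQm_19 : List (T ℤ) := [(T.h (T.h (T.h (M (nat_lit 4760559981841400535819587944447)) (T.h (P (nat_lit 0)) (T.h (P (nat_lit 770520881638916390649856)) (T.h (P (nat_lit 0)) (T.h (P (nat_lit 5476421613685571584)) (T.h (P (nat_lit 0)) (M (nat_lit 1226078413135)))))))) (T.h (P (nat_lit 0)) (T.h (T.h (M (nat_lit 12686087327818927969402879)) (T.h (P (nat_lit 0)) (T.h (M (nat_lit 20620189100488523775)) (T.h (P (nat_lit 0)) (M (nat_lit 4136082018047)))))) (T.h (P (nat_lit 0)) (T.h (T.h (P (nat_lit 79083973133016760320)) (T.h (P (nat_lit 0)) (P (nat_lit 52052519111328)))) (T.h (P (nat_lit 0)) (P (nat_lit 33595231580112)))))))) (T.h (T.h (P (nat_lit 0)) (T.h (T.h (P (nat_lit 0)) (T.h (P (nat_lit 5718149774113176027136)) (T.h (P (nat_lit 0)) (M (nat_lit 22477953384775679))))) (T.h (P (nat_lit 0)) (T.h (T.h (P (nat_lit 0)) (P (nat_lit 88374154776510464))) (P (nat_lit 0)))))) (T.h (T.h (T.h (M (nat_lit 23554564491741895231275007)) (T.h (P (nat_lit 0)) (T.h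 (M (nat_lit 6340317228499468287)) (T.h (P (nat_lit 0)) (P (nat_lit 3880953721632)))))) (T.h (P (nat_lit 0)) (T.h (T.h (M (nat_lit 98180377231073738751)) (T.h (P (nat_lit 0)) (M (nat_lit 23507951099487)))) (T.h (P (nat_lit 0)) (M (nat_lit 19123657897535)))))) (T.h (T.h (P (nat_lit 0)) (T.h (T.h (P (nat_lit 0)) (M (nat_lit 87735198484725759))) (P (nat_lit 0)))) (T.h (T.h (T.h (M (nat_lit 26277287895165304831)) (T.h (P (nat_lit 0)) (M (nat_lit 2332677536639)))) (T.h (P (nat_lit 0)) (M (nat_lit 35834186439263)))) (T.h (P (nat_lit 0)) (P (nat_lit 5106811990464)))))))), (T.h (T.h (T.h (P (nat_lit 0)) (T.h (P (nat_lit 30439372902512087466491510784)) (T.h (P (nat_lit 0)) (T.h (M (nat_lit 4512347180252872572927)) (T.h (P (nat_lit 0)) (P (nat_lit 25401474191458304))))))) (T.h (P (nat_lit 0)) (T.h (T.h (P (nat_lit 0)) (T.h (M (nat_lit 163116600156994838462463)) (T.h (P (nat_lit 0)) (P (nat_lit 390897227788976128))))) (T.h (P (nat_lit 0)) (T.h (T.h (P (nat_lit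 0)) (P (nat_lit 409804081434263552))) (P (nat_lit 0))))))) (T.h (T.h (P (nat_lit 0)) (T.h (T.h (P (nat_lit 17136308746545256755888128)) (T.h (P (nat_lit 0)) (T.h (M (nat_lit 40001066219060854783)) (T.h (P (nat_lit 0)) (P (nat_lit 224110488235840)))))) (T.h (P (nat_lit 0)) (T.h (T.h (M (nat_lit 254244116952053186559)) (T.h (P (nat_lit 0)) (P (nat_lit 435589951003264)))) (T.h (P (nat_lit 0)) (P (nat_lit 118685896343040))))))) (T.h (T.h (T.h (P (nat_lit 0)) (T.h (M (nat_lit 5187693863199632785407)) (T.h (P (nat_lit 0)) (P (nat_lit 165668878693040128))))) (T.h (P (nat_lit 0)) (T.h (T.h (P (nat_lit 0)) (M (nat_lit 783145859356131327))) (P (nat_lit 0))))) (T.h (T.h (P (nat_lit 0)) (T.h (T.h (M (nat_lit 390903923725150715903)) (T.h (P (nat_lit 0)) (M (nat_lit 201592896292031)))) (T.h (P (nat_lit 0)) (M (nat_lit 297158349740031))))) (T.h (T.h (T.h (P (nat_lit 0)) (M (nat_lit 131697003819499519))) (P (nat_lit 0))) (T.h (T.h (P (nat_lit 0)) (M (nat_lit 41950637664831)))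 (P (nat_lit 0)))))))), (T.h (T.h (T.h (M (nat_lit 9621836782640715442813122117631)) (T.h (P (nat_lit 0)) (T.h (P (nat_lit 39709390679530183027851264)) (T.h (P (nat_lit 0)) (T.h (M (nat_lit 46137101300793343999)) (T.h (P (nat_lit 0)) (P (nat_lit 44261739818928)))))))) (T.h (P (nat_lit 0)) (T.h (T.h (P (nat_lit 95447913308479641767378944)) (T.h (P (nat_lit 0)) (T.h (M (nat_lit 876055013546178641919)) (T.h (P (nat_lit 0)) (P (nat_lit 48162526619760)))))) (T.h (P (nat_lit 0)) (T.h (T.h (P (nat_lit 14001697306391347200)) (T.h (P (nat_lit 0)) (M (nat_lit 140036581379231)))) (T.h (P (nat_lit 0)) (P (nat_lit 335070000742752)))))))) (T.h (T.h (P (nat_lit 0)) (T.h (T.h (P (nat_lit 0)) (T.h (P (nat_lit 693188341454905471401984)) (T.h (P (nat_lit 0)) (P (nat_lit 150070350940602368))))) (T.h (P (nat_lit 0)) (T.h (T.h (P (nat_lit 0)) (M (nat_lit 360564490332274687))) (P (nat_lit 0)))))) (T.h (T.h (T.h (P (nat_lit 39709390679530183027851264)) (T.h (P (nat_lit 0))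 (T.h (P (nat_lit 325842093885051895808)) (T.h (P (nat_lit 0)) (P (nat_lit 83994971528592)))))) (T.h (P (nat_lit 0)) (T.h (T.h (M (nat_lit 876055013546178641919)) (T.h (P (nat_lit 0)) (P (nat_lit 140014755056160)))) (T.h (P (nat_lit 0)) (M (nat_lit 140036581379231)))))) (T.h (T.h (P (nat_lit 0)) (T.h (T.h (P (nat_lit 0)) (P (nat_lit 150070350940602368))) (P (nat_lit 0)))) (T.h (T.h (T.h (M (nat_lit 46137101300793343999)) (T.h (P (nat_lit 0)) (P (nat_lit 83994971528592)))) (T.h (P (nat_lit 0)) (P (nat_lit 48162526619760)))) (T.h (P (nat_lit 0)) (P (nat_lit 44261739818928)))))))), (T.h (T.h (T.h (P (nat_lit 0)) (T.h (P (nat_lit 8678397838319954379703058432)) (T.h (P (nat_lit 0)) (T.h (P (nat_lit 74394072377337271287808)) (T.h (P (nat_lit 0)) (M (nat_lit 139219386486030335))))))) (T.h (P (nat_lit 0)) (T.h (T.h (P (nat_lit 0)) (T.h (P (nat_lit 378592996281651543670784)) (T.h (P (nat_lit 0)) (P (nat_lit 66756519374815232))))) (T.h (P (nat_lit 0)) (T.h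 (T.h (P (nat_lit 0)) (M (nat_lit 208185981911433215))) (P (nat_lit 0))))))) (T.h (T.h (P (nat_lit 0)) (T.h (T.h (M (nat_lit 96179261992023780361240575)) (T.h (P (nat_lit 0)) (M (nat_lit 53604245851376451583)))) (T.h (P (nat_lit 0)) (P (nat_lit 6753330301906190336))))) (T.h (T.h (T.h (P (nat_lit 0)) (T.h (M (nat_lit 341199079021657320325119)) (T.h (P (nat_lit 0)) (P (nat_lit 62581864780890112))))) (T.h (P (nat_lit 0)) (T.h (T.h (P (nat_lit 0)) (P (nat_lit 589473878395617280))) (P (nat_lit 0))))) (T.h (T.h (P (nat_lit 0)) (M (nat_lit 217121808635813429247))) (T.h (T.h (T.h (P (nat_lit 0)) (P (nat_lit 129826036928675840))) (P (nat_lit 0))) (P (nat_lit 0))))))), (P (nat_lit 0)), (P (nat_lit 0)), (T.h (T.h (P (nat_lit 0)) (T.h (T.h (M (nat_lit 7964465409808473183024578559)) (T.h (P (nat_lit 0)) (T.h (P (nat_lit 23922005058509963526144)) (T.h (P (nat_lit 0)) (M (nat_lit 19433905954488319)))))) (T.h (P (nat_lit 0)) (T.h (T.h (P (nat_lit 7119774854517733982208))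 (T.h (P (nat_lit 0)) (M (nat_lit 35586079954829311)))) (T.h (P (nat_lit 0)) (P (nat_lit 148082487392174080))))))) (T.h (T.h (T.h (P (nat_lit 0)) (T.h (P (nat_lit 36565551147893332237090816)) (T.h (P (nat_lit 0)) (T.h (M (nat_lit 40838291985006591999)) (T.h (P (nat_lit 0)) (P (nat_lit 2955205671168))))))) (T.h (P (nat_lit 0)) (T.h (T.h (P (nat_lit 0)) (T.h (P (nat_lit 136602560658321440768)) (T.h (P (nat_lit 0)) (M (nat_lit 9075415495295))))) (T.h (P (nat_lit 0)) (T.h (T.h (P (nat_lit 0)) (P (nat_lit 206420040118656))) (P (nat_lit 0))))))) (T.h (T.h (P (nat_lit 0)) (T.h (T.h (P (nat_lit 135355189748246979280896)) (T.h (P (nat_lit 0)) (M (nat_lit 76855338413654015)))) (T.h (P (nat_lit 0)) (P (nat_lit 285802558304780288))))) (T.h (T.h (T.h (P (nat_lit 0)) (T.h (P (nat_lit 22323664257476984832)) (T.h (P (nat_lit 0)) (P (nat_lit 4242820383296))))) (T.h (P (nat_lit 0)) (T.h (T.h (P (nat_lit 0)) (P (nat_lit 66324274011008))) (P (nat_lit 0))))) (T.h (T.h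 (P (nat_lit 0)) (P (nat_lit 11688336278388736))) (T.h (T.h (T.h (P (nat_lit 0)) (M (nat_lit 24139558673279))) (P (nat_lit 0))) (P (nat_lit 0)))))))), (T.h (T.h (P (nat_lit 0)) (T.h (T.h (P (nat_lit 0)) (T.h (P (nat_lit 125077768936907594421764096)) (T.h (P (nat_lit 0)) (T.h (M (nat_lit 278499119748561764351)) (T.h (P (nat_lit 0)) (P (nat_lit 6090557697360))))))) (T.h (P (nat_lit 0)) (T.h (T.h (P (nat_lit 0)) (T.h (M (nat_lit 345759542040470749183)) (T.h (P (nat_lit 0)) (M (nat_lit 40308873541055))))) (T.h (P (nat_lit 0)) (T.h (T.h (P (nat_lit 0)) (P (nat_lit 88368910367184))) (P (nat_lit 0)))))))) (T.h (T.h (T.h (M (nat_lit 19749972867985824880883924991)) (T.h (P (nat_lit 0)) (T.h (M (nat_lit 48149716623839597690879)) (T.h (P (nat_lit 0)) (M (nat_lit 90597181508173823)))))) (T.h (P (nat_lit 0)) (T.h (T.h (P (nat_lit 85813189506337280622592)) (T.h (P (nat_lit 0)) (M (nat_lit 206162730796777471)))) (T.h (P (nat_lit 0)) (P (nat_lit 99857125569953792))))))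 (T.h (T.h (P (nat_lit 0)) (T.h (T.h (P (nat_lit 0)) (T.h (P (nat_lit 320132666256611344384)) (T.h (P (nat_lit 0)) (P (nat_lit 135400654107216))))) (T.h (P (nat_lit 0)) (T.h (T.h (P (nat_lit 0)) (P (nat_lit 480696106885200))) (P (nat_lit 0)))))) (T.h (T.h (T.h (M (nat_lit 3964513970473056337919)) (T.h (P (nat_lit 0)) (M (nat_lit 65492402368675839)))) (T.h (P (nat_lit 0)) (M (nat_lit 771701867331026943)))) (T.h (T.h (P (nat_lit 0)) (T.h (T.h (P (nat_lit 0)) (M (nat_lit 212902374284207))) (P (nat_lit 0)))) (P (nat_lit 22758469681364992)))))))]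
def lQm_20 : List (T ℤ) := [(T.h (T.h (P (nat_lit 0)) (T.h (T.h (M (nat_lit 4579424526163621342888329215)) (T.h (P (nat_lit 0)) (T.h (P (nat_lit 248937398817884102197248)) (T.h (P (nat_lit 0)) (P (nat_lit 19598115853172736)))))) (T.h (P (nat_lit 0)) (T.h (T.h (M (nat_lit 85697005781413963759615)) (T.h (P (nat_lit 0)) (P (nat_lit 45596862977114112)))) (T.h (P (nat_lit 0)) (M (nat_lit 497699913998991359))))))) (T.h (T.h (T.h (P (nat_lit 0)) (T.h (P (nat_lit 39688469449529713359847424)) (T.h (P (nat_lit 0)) (M (nat_lit 59325890128280289279))))) (T.h (P (nat_lit 0)) (T.h (T.h (P (nat_lit 0)) (P (nat_lit 34670609189121818624))) (P (nat_lit 0))))) (T.h (T.h (P (nat_lit 0)) (T.h (T.h (P (nat_lit 248937398817884102197248)) (T.h (P (nat_lit 0)) (M (nat_lit 248589297153277951)))) (T.h (P (nat_lit 0)) (P (nat_lit 45596862977114112))))) (T.h (T.h (T.h (P (nat_lit 0)) (M (nat_lit 59325890128280289279))) (P (nat_lit 0))) (T.h (T.h (P (nat_lit 0)) (P (nat_lit 19598115853172736)))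 (P (nat_lit 0))))))), (P (nat_lit 0)), (P (nat_lit 0)), (T.h (T.h (T.h (M (nat_lit 6550205974850090925245048291327)) (T.h (P (nat_lit 0)) (T.h (P (nat_lit 914669431254911916441600)) (T.h (P (nat_lit 0)) (T.h (M (nat_lit 10956550989288570879)) (T.h (P (nat_lit 0)) (P (nat_lit 2262664312560)))))))) (T.h (P (nat_lit 0)) (T.h (T.h (M (nat_lit 10820930293763412938719231)) (T.h (P (nat_lit 0)) (T.h (P (nat_lit 32321156511269126144)) (T.h (P (nat_lit 0)) (M (nat_lit 40633845785423)))))) (T.h (P (nat_lit 0)) (T.h (T.h (P (nat_lit 10167124700157706240)) (T.h (P (nat_lit 0)) (M (nat_lit 154054818207791)))) (T.h (P (nat_lit 0)) (M (nat_lit 1900902457007)))))))) (T.h (T.h (P (nat_lit 0)) (T.h (T.h (P (nat_lit 0)) (T.h (P (nat_lit 9561867817973534687232)) (T.h (P (nat_lit 0)) (M (nat_lit 2980120280563711))))) (T.h (P (nat_lit 0)) (T.h (T.h (P (nat_lit 0)) (M (nat_lit 202715487664177151))) (P (nat_lit 0)))))) (T.h (T.h (T.h (P (nat_lit 24644433191013854713217024))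 (T.h (P (nat_lit 0)) (T.h (P (nat_lit 16663814109501849600)) (T.h (P (nat_lit 0)) (M (nat_lit 40758030476063)))))) (T.h (P (nat_lit 0)) (T.h (T.h (P (nat_lit 247730919216223617024)) (T.h (P (nat_lit 0)) (M (nat_lit 154284181097903)))) (T.h (P (nat_lit 0)) (P (nat_lit 135693679464000)))))) (T.h (T.h (P (nat_lit 0)) (T.h (T.h (P (nat_lit 0)) (M (nat_lit 36175207789887487))) (P (nat_lit 0)))) (T.h (T.h (T.h (P (nat_lit 12995145507583033344)) (T.h (P (nat_lit 0)) (P (nat_lit 3747522647088)))) (T.h (P (nat_lit 0)) (M (nat_lit 29246983189487)))) (T.h (P (nat_lit 0)) (M (nat_lit 12383001643247)))))))), (T.h (T.h (T.h (P (nat_lit 0)) (T.h (M (nat_lit 2802544089202721518058995711)) (T.h (P (nat_lit 0)) (T.h (P (nat_lit 11706436078456893603840)) (T.h (P (nat_lit 0)) (M (nat_lit 10301442286452735))))))) (T.h (P (nat_lit 0)) (T.h (T.h (P (nat_lit 0)) (T.h (P (nat_lit 219226733783414827122688)) (T.h (P (nat_lit 0)) (P (nat_lit 48128141689192448))))) (T.h (P (nat_lit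 0)) (T.h (T.h (P (nat_lit 0)) (M (nat_lit 111197562056900607))) (P (nat_lit 0))))))) (T.h (T.h (P (nat_lit 0)) (T.h (T.h (P (nat_lit 15532778243652765473570816)) (T.h (P (nat_lit 0)) (M (nat_lit 132783142035194380287)))) (T.h (P (nat_lit 0)) (M (nat_lit 292461774379792990207))))) (T.h (T.h (T.h (P (nat_lit 0)) (T.h (M (nat_lit 11334887043216479092735)) (T.h (P (nat_lit 0)) (P (nat_lit 64870222751039488))))) (T.h (P (nat_lit 0)) (T.h (T.h (P (nat_lit 0)) (M (nat_lit 307064400049864703))) (P (nat_lit 0))))) (T.h (T.h (P (nat_lit 0)) (P (nat_lit 372027013451330093056))) (T.h (T.h (T.h (P (nat_lit 0)) (P (nat_lit 17610523673985024))) (P (nat_lit 0))) (P (nat_lit 0))))))), (P (nat_lit 0)), (P (nat_lit 0)), (T.h (T.h (P (nat_lit 0)) (T.h (T.h (P (nat_lit 5938840239767262457329876992)) (T.h (P (nat_lit 0)) (T.h (M (nat_lit 32448110580492473991167)) (T.h (P (nat_lit 0)) (P (nat_lit 14493620268662784)))))) (T.h (P (nat_lit 0)) (T.h (T.h (M (nat_lit 15260972577348049174527))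 (T.h (P (nat_lit 0)) (P (nat_lit 176124080196288512)))) (T.h (P (nat_lit 0)) (M (nat_lit 68021766630866943))))))) (T.h (T.h (T.h (P (nat_lit 0)) (T.h (M (nat_lit 8121832179209592299847679)) (T.h (P (nat_lit 0)) (M (nat_lit 6818117037345210367))))) (T.h (P (nat_lit 0)) (T.h (T.h (P (nat_lit 0)) (M (nat_lit 9408689513531703295))) (P (nat_lit 0))))) (T.h (T.h (P (nat_lit 0)) (T.h (T.h (M (nat_lit 83505656668972851920895)) (T.h (P (nat_lit 0)) (P (nat_lit 99906550954229760)))) (T.h (P (nat_lit 0)) (M (nat_lit 112761797231247359))))) (T.h (T.h (T.h (P (nat_lit 0)) (P (nat_lit 18589109809936596992))) (P (nat_lit 0))) (T.h (T.h (P (nat_lit 0)) (P (nat_lit 17569552337108992))) (P (nat_lit 0)))))))]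
def lQm_21 : List (T ℤ) := [(P (nat_lit 0)), (P (nat_lit 0)), (P (nat_lit 0)), (P (nat_lit 0)), (P (nat_lit 0)), (T.h (T.h (P (nat_lit 0)) (T.h (T.h (P (nat_lit 0)) (T.h (P (nat_lit 3133008150478943286198272)) (T.h (P (nat_lit 0)) (T.h (M (nat_lit 1574276201889923071)) (T.h (P (nat_lit 0)) (M (nat_lit 1092306519703))))))) (T.h (P (nat_lit 0)) (T.h (T.h (P (nat_lit 0)) (T.h (P (nat_lit 4506255607094837248)) (T.h (P (nat_lit 0)) (P (nat_lit 4428334664712))))) (T.h (P (nat_lit 0)) (T.h (T.h (P (nat_lit 0)) (P (nat_lit 8114091958648))) (P (nat_lit 0)))))))) (T.h (T.h (T.h (M (nat_lit 1842636641669992651706859519)) (T.h (P (nat_lit 0)) (T.h (P (nat_lit 524702051116670517248)) (T.h (P (nat_lit 0)) (M (nat_lit 10857135824961535)))))) (T.h (P (nat_lit 0)) (T.h (T.h (P (nat_lit 4907546594058516299776)) (T.h (P (nat_lit 0)) (M (nat_lit 19556106663329791)))) (T.h (P (nat_lit 0)) (M (nat_lit 20897473785757695)))))) (T.h (T.h (P (nat_lit 0)) (T.h (T.h (P (nat_lit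 0)) (T.h (P (nat_lit 75911826115607396352)) (T.h (P (nat_lit 0)) (M (nat_lit 1718313203015))))) (T.h (P (nat_lit 0)) (T.h (T.h (P (nat_lit 0)) (M (nat_lit 9670404085391))) (P (nat_lit 0)))))) (T.h (T.h (T.h (M (nat_lit 3692873907294676451327)) (T.h (P (nat_lit 0)) (M (nat_lit 31824348569567231)))) (T.h (P (nat_lit 0)) (M (nat_lit 5832632511725567)))) (T.h (T.h (P (nat_lit 0)) (T.h (T.h (P (nat_lit 0)) (P (nat_lit 11983016506304))) (P (nat_lit 0)))) (P (nat_lit 7481609000026112))))))), (T.h (T.h (P (nat_lit 0)) (T.h (T.h (M (nat_lit 7510137570867912732181528575)) (T.h (P (nat_lit 0)) (T.h (M (nat_lit 5896902701901632503807)) (T.h (P (nat_lit 0)) (M (nat_lit 42764403516555263)))))) (T.h (P (nat_lit 0)) (T.h (T.h (P (nat_lit 5625047517624010801152)) (T.h (P (nat_lit 0)) (M (nat_lit 773751558242303)))) (T.h (P (nat_lit 0)) (M (nat_lit 4707057777278975))))))) (T.h (T.h (T.h (P (nat_lit 0)) (T.h (M (nat_lit 42890317912544783647113215)) (T.h (P (nat_lit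 0)) (T.h (P (nat_lit 79130121664399933440)) (T.h (P (nat_lit 0)) (P (nat_lit 16513881934288))))))) (T.h (P (nat_lit 0)) (T.h (T.h (P (nat_lit 0)) (T.h (P (nat_lit 20428739442244583424)) (T.h (P (nat_lit 0)) (P (nat_lit 48030240726480))))) (T.h (P (nat_lit 0)) (T.h (T.h (P (nat_lit 0)) (P (nat_lit 191230761875616))) (P (nat_lit 0))))))) (T.h (T.h (P (nat_lit 0)) (T.h (T.h (M (nat_lit 5896902701901632503807)) (T.h (P (nat_lit 0)) (P (nat_lit 274027275200200704)))) (T.h (P (nat_lit 0)) (M (nat_lit 773751558242303))))) (T.h (T.h (T.h (P (nat_lit 0)) (T.h (P (nat_lit 79130121664399933440)) (T.h (P (nat_lit 0)) (M (nat_lit 399778677697119))))) (T.h (P (nat_lit 0)) (T.h (T.h (P (nat_lit 0)) (P (nat_lit 48030240726480))) (P (nat_lit 0))))) (T.h (T.h (P (nat_lit 0)) (M (nat_lit 42764403516555263))) (T.h (T.h (T.h (P (nat_lit 0)) (P (nat_lit 16513881934288))) (P (nat_lit 0))) (P (nat_lit 0)))))))), (T.h (T.h (P (nat_lit 0)) (T.h (T.h (P (nat_lit 0)) (T.h (M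 (nat_lit 29511644478875987024543743)) (T.h (P (nat_lit 0)) (T.h (M (nat_lit 21689621509727846399)) (T.h (P (nat_lit 0)) (M (nat_lit 30960665769471))))))) (T.h (P (nat_lit 0)) (T.h (T.h (P (nat_lit 0)) (T.h (M (nat_lit 2035048669127901183)) (T.h (P (nat_lit 0)) (P (nat_lit 17904918011520))))) (T.h (P (nat_lit 0)) (T.h (T.h (P (nat_lit 0)) (M (nat_lit 605003879999))) (P (nat_lit 0)))))))) (T.h (T.h (T.h (P (nat_lit 1423075270604688150537175040)) (T.h (P (nat_lit 0)) (T.h (P (nat_lit 102376935112423459782656)) (T.h (P (nat_lit 0)) (M (nat_lit 90922673937416191)))))) (T.h (P (nat_lit 0)) (T.h (T.h (P (nat_lit 13965267832501478359040)) (T.h (P (nat_lit 0)) (M (nat_lit 219915359221579775)))) (T.h (P (nat_lit 0)) (M (nat_lit 53881761470775295)))))) (T.h (T.h (P (nat_lit 0)) (T.h (T.h (P (nat_lit 0)) (T.h (M (nat_lit 153691193197182582783)) (T.h (P (nat_lit 0)) (P (nat_lit 114302531773696))))) (T.h (P (nat_lit 0)) (T.h (T.h (P (nat_lit 0)) (P (nat_lit 40199411623104)))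 (P (nat_lit 0)))))) (T.h (T.h (T.h (P (nat_lit 31541551321386582016000)) (T.h (P (nat_lit 0)) (P (nat_lit 583663088441327616)))) (T.h (P (nat_lit 0)) (M (nat_lit 56911183249440767)))) (T.h (T.h (P (nat_lit 0)) (T.h (T.h (P (nat_lit 0)) (M (nat_lit 50090625483519))) (P (nat_lit 0)))) (M (nat_lit 83195228683403263)))))))]
def lQm_22 : List (T ℤ) := [(T.h (T.h (P (nat_lit 0)) (T.h (T.h (M (nat_lit 5651764205519451235941351423)) (T.h (P (nat_lit 0)) (T.h (M (nat_lit 12670811359082753032191)) (T.h (P (nat_lit 0)) (P (nat_lit 201008201338093568)))))) (T.h (P (nat_lit 0)) (T.h (T.h (P (nat_lit 2150413618614238183424)) (T.h (P (nat_lit 0)) (M (nat_lit 39058420179075071)))) (T.h (P (nat_lit 0)) (P (nat_lit 2760467853754368))))))) (T.h (T.h (T.h (P (nat_lit 0)) (T.h (P (nat_lit 3925105225115737463455744)) (T.h (P (nat_lit 0)) (T.h (P (nat_lit 339200111039458836480)) (T.h (P (nat_lit 0)) (P (nat_lit 418099953986208))))))) (T.h (P (nat_lit 0)) (T.h (T.h (P (nat_lit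 0)) (T.h (P (nat_lit 29510078247831863296)) (T.h (P (nat_lit 0)) (M (nat_lit 111663856591199))))) (T.h (P (nat_lit 0)) (T.h (T.h (P (nat_lit 0)) (M (nat_lit 235517594865407))) (P (nat_lit 0))))))) (T.h (T.h (P (nat_lit 0)) (T.h (T.h (P (nat_lit 5401474684980102692864)) (T.h (P (nat_lit 0)) (M (nat_lit 208198211023503359)))) (T.h (P (nat_lit 0)) (M (nat_lit 16334309095342079))))) (T.h (T.h (T.h (P (nat_lit 0)) (T.h (M (nat_lit 70756264808229634047)) (T.h (P (nat_lit 0)) (P (nat_lit 356919587573616))))) (T.h (P (nat_lit 0)) (T.h (T.h (P (nat_lit 0)) (P (nat_lit 157454749658304))) (P (nat_lit 0))))) (T.h (T.h (P (nat_lit 0)) (P (nat_lit 31510804217823232))) (T.h (T.h (T.h (P (nat_lit 0)) (M (nat_lit 153484319177423))) (P (nat_lit 0))) (P (nat_lit 0)))))))), (T.h (T.h (P (nat_lit 0)) (T.h (T.h (P (nat_lit 0)) (T.h (M (nat_lit 11796831539250381828653055)) (T.h (P (nat_lit 0)) (M (nat_lit 201848382004607844351))))) (T.h (P (nat_lit 0)) (T.h (T.h (P (nat_lit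 0)) (P (nat_lit 11447994264663883776))) (P (nat_lit 0)))))) (T.h (T.h (T.h (M (nat_lit 19010715559394962457480921087)) (T.h (P (nat_lit 0)) (T.h (M (nat_lit 337256168840861870718975)) (T.h (P (nat_lit 0)) (M (nat_lit 537460537767034879)))))) (T.h (P (nat_lit 0)) (T.h (T.h (M (nat_lit 4534848523537343315967)) (T.h (P (nat_lit 0)) (P (nat_lit 146445637852594176)))) (T.h (P (nat_lit 0)) (P (nat_lit 72142769679368192)))))) (T.h (T.h (P (nat_lit 0)) (T.h (T.h (P (nat_lit 0)) (P (nat_lit 27730665333827043328))) (P (nat_lit 0)))) (T.h (T.h (T.h (P (nat_lit 17167194726438533070848)) (T.h (P (nat_lit 0)) (M (nat_lit 217035851084890111)))) (T.h (P (nat_lit 0)) (M (nat_lit 39240781425016831)))) (T.h (P (nat_lit 0)) (P (nat_lit 51833134429732864))))))), (P (nat_lit 0)), (P (nat_lit 0)), (T.h (T.h (T.h (M (nat_lit 151115727451828646838271)) (T.h (P (nat_lit 0)) (T.h (P (nat_lit 1407986837174246730366976)) (T.h (P (nat_lit 0)) (T.h (M (nat_lit 2118793442287943679))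 (T.h (P (nat_lit 0)) (M (nat_lit 895310700831)))))))) (T.h (P (nat_lit 0)) (T.h (T.h (P (nat_lit 1407986837174246730366976)) (T.h (P (nat_lit 0)) (T.h (P (nat_lit 362387865600)) (T.h (P (nat_lit 0)) (P (nat_lit 16431680405456)))))) (T.h (P (nat_lit 0)) (T.h (T.h (M (nat_lit 2118793442287943679)) (T.h (P (nat_lit 0)) (P (nat_lit 16431680405456)))) (T.h (P (nat_lit 0)) (M (nat_lit 895310700831)))))))) (T.h (T.h (P (nat_lit 0)) (T.h (T.h (P (nat_lit 0)) (T.h (M (nat_lit 376032976699391)) (T.h (P (nat_lit 0)) (P (nat_lit 71629951102091264))))) (T.h (P (nat_lit 0)) (T.h (T.h (P (nat_lit 0)) (P (nat_lit 71629951102091264))) (P (nat_lit 0)))))) (T.h (T.h (T.h (P (nat_lit 189151184349560832)) (T.h (P (nat_lit 0)) (T.h (P (nat_lit 49332603644305997824)) (T.h (P (nat_lit 0)) (M (nat_lit 35755284631663)))))) (T.h (P (nat_lit 0)) (T.h (T.h (P (nat_lit 49332603644305997824)) (T.h (P (nat_lit 0)) (P (nat_lit 1023648)))) (T.h (P (nat_lit 0)) (M (nat_lit 35755284631663))))))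 (T.h (T.h (P (nat_lit 0)) (T.h (T.h (P (nat_lit 0)) (P (nat_lit 1223163904))) (P (nat_lit 0)))) (T.h (T.h (T.h (M (nat_lit 35970351103)) (T.h (P (nat_lit 0)) (M (nat_lit 69255640301535)))) (T.h (P (nat_lit 0)) (M (nat_lit 69255640301535)))) (T.h (P (nat_lit 0)) (M (nat_lit 1172927)))))))), (T.h (T.h (T.h (P (nat_lit 0)) (T.h (M (nat_lit 12442159702627192574694129663)) (T.h (P (nat_lit 0)) (T.h (P (nat_lit 22743871949365672148992)) (T.h (P (nat_lit 0)) (P (nat_lit 18097103314681856))))))) (T.h (P (nat_lit 0)) (T.h (T.h (P (nat_lit 0)) (T.h (M (nat_lit 55715830800575121850367)) (T.h (P (nat_lit 0)) (M (nat_lit 108479705473908735))))) (T.h (P (nat_lit 0)) (T.h (T.h (P (nat_lit 0)) (M (nat_lit 63682034683822079))) (P (nat_lit 0))))))) (T.h (T.h (P (nat_lit 0)) (T.h (T.h (P (nat_lit 19361259890558873645350912)) (T.h (P (nat_lit 0)) (T.h (M (nat_lit 43470478741176582143)) (T.h (P (nat_lit 0)) (P (nat_lit 54023327974512)))))) (T.h (P (nat_lit 0)) (T.h (T.h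 (P (nat_lit 301861519813580423168)) (T.h (P (nat_lit 0)) (P (nat_lit 90268290434928)))) (T.h (P (nat_lit 0)) (M (nat_lit 4685423447423))))))) (T.h (T.h (T.h (P (nat_lit 0)) (T.h (P (nat_lit 9314640038293583953920)) (T.h (P (nat_lit 0)) (P (nat_lit 211703931507752960))))) (T.h (P (nat_lit 0)) (T.h (T.h (P (nat_lit 0)) (P (nat_lit 958406978850095104))) (P (nat_lit 0))))) (T.h (T.h (P (nat_lit 0)) (T.h (T.h (P (nat_lit 315625357326101250048)) (T.h (P (nat_lit 0)) (P (nat_lit 254418358177664)))) (T.h (P (nat_lit 0)) (M (nat_lit 7866646795423))))) (T.h (T.h (T.h (P (nat_lit 0)) (M (nat_lit 50878799646982143))) (P (nat_lit 0))) (T.h (T.h (P (nat_lit 0)) (M (nat_lit 12012813532351))) (P (nat_lit 0)))))))), (T.h (T.h (T.h (M (nat_lit 10263605443189403653425365778431)) (T.h (P (nat_lit 0)) (T.h (P (nat_lit 24772719807162972498821120)) (T.h (P (nat_lit 0)) (T.h (P (nat_lit 61011841408129040384)) (T.h (P (nat_lit 0)) (P (nat_lit 42017837250688)))))))) (T.h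 (P (nat_lit 0)) (T.h (T.h (P (nat_lit 13113665670837237236891648)) (T.h (P (nat_lit 0)) (T.h (M (nat_lit 64117543320346951679)) (T.h (P (nat_lit 0)) (M (nat_lit 157229173674047)))))) (T.h (P (nat_lit 0)) (T.h (T.h (M (nat_lit 81022462881515438079)) (T.h (P (nat_lit 0)) (M (nat_lit 141379929700031)))) (T.h (P (nat_lit 0)) (M (nat_lit 16686407529983)))))))) (T.h (T.h (P (nat_lit 0)) (T.h (T.h (P (nat_lit 0)) (T.h (P (nat_lit 166602184250910184570880)) (T.h (P (nat_lit 0)) (P (nat_lit 1013632339182157824))))) (T.h (P (nat_lit 0)) (T.h (T.h (P (nat_lit 0)) (M (nat_lit 340609925145034751))) (P (nat_lit 0)))))) (T.h (T.h (T.h (P (nat_lit 24772719807162972498821120)) (T.h (P (nat_lit 0)) (T.h (P (nat_lit 587946156236283576320)) (T.h (P (nat_lit 0)) (P (nat_lit 191627894557248)))))) (T.h (P (nat_lit 0)) (T.h (T.h (M (nat_lit 64117543320346951679)) (T.h (P (nat_lit 0)) (P (nat_lit 28784659885056)))) (T.h (P (nat_lit 0)) (M (nat_lit 141379929700031)))))) (T.h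 (T.h (P (nat_lit 0)) (T.h (T.h (P (nat_lit 0)) (P (nat_lit 1013632339182157824))) (P (nat_lit 0)))) (T.h (T.h (T.h (P (nat_lit 61011841408129040384)) (T.h (P (nat_lit 0)) (P (nat_lit 191627894557248)))) (T.h (P (nat_lit 0)) (M (nat_lit 157229173674047)))) (T.h (P (nat_lit 0)) (P (nat_lit 42017837250688)))))))), (T.h (T.h (T.h (P (nat_lit 0)) (T.h (M (nat_lit 42505286476555310707194724351)) (T.h (P (nat_lit 0)) (T.h (P (nat_lit 13736814429644959776768)) (T.h (P (nat_lit 0)) (M (nat_lit 346456592703291391))))))) (T.h (P (nat_lit 0)) (T.h (T.h (P (nat_lit 0)) (T.h (P (nat_lit 31378407630487934730240)) (T.h (P (nat_lit 0)) (P (nat_lit 133013457014423552))))) (T.h (P (nat_lit 0)) (T.h (T.h (P (nat_lit 0)) (M (nat_lit 4663950362312703))) (P (nat_lit 0))))))) (T.h (T.h (P (nat_lit 0)) (T.h (T.h (P (nat_lit 3351747234530990319730688)) (T.h (P (nat_lit 0)) (T.h (M (nat_lit 68235848904299511807)) (T.h (P (nat_lit 0)) (M (nat_lit 493402670761247)))))) (T.h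 (P (nat_lit 0)) (T.h (T.h (P (nat_lit 297505605466797899776)) (T.h (P (nat_lit 0)) (M (nat_lit 105852932695583)))) (T.h (P (nat_lit 0)) (M (nat_lit 59828803719263))))))) (T.h (T.h (T.h (P (nat_lit 0)) (T.h (M (nat_lit 176837335865706632183807)) (T.h (P (nat_lit 0)) (M (nat_lit 157327565251870719))))) (T.h (P (nat_lit 0)) (T.h (T.h (P (nat_lit 0)) (M (nat_lit 155170297518686207))) (P (nat_lit 0))))) (T.h (T.h (P (nat_lit 0)) (T.h (T.h (M (nat_lit 115670365913472827391)) (T.h (P (nat_lit 0)) (M (nat_lit 187314034551551)))) (T.h (P (nat_lit 0)) (P (nat_lit 79993172440224))))) (T.h (T.h (T.h (P (nat_lit 0)) (M (nat_lit 199091536319299583))) (P (nat_lit 0))) (T.h (T.h (P (nat_lit 0)) (P (nat_lit 8562378236832))) (P (nat_lit 0))))))))]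
def lQm_23 : List (T ℤ) := [(T.h (T.h (T.h (P (nat_lit 6956814252741079948443380613120)) (T.h (P (nat_lit 0)) (T.h (P (nat_lit 7835852522007655234928640)) (T.h (P (nat_lit 0)) (P (nat_lit 190603457277588406272)))))) (T.h (P (nat_lit 0)) (T.h (T.h (P (nat_lit 9834762153925330696404992)) (T.h (P (nat_lit 0)) (M (nat_lit 83243563760396271615)))) (T.h (P (nat_lit 0)) (M (nat_lit 907467354663813119)))))) (T.h (T.h (P (nat_lit 0)) (T.h (T.h (P (nat_lit 0)) (T.h (M (nat_lit 245888729080067128295423)) (T.h (P (nat_lit 0)) (P (nat_lit 281155397963546624))))) (T.h (P (nat_lit 0)) (T.h (T.h (P (nat_lit 0)) (P (nat_lit 200925852248375296))) (P (nat_lit 0)))))) (T.h (T.h (T.h (P (nat_lit 12512308161857980632924160)) (T.h (P (nat_lit 0)) (P (nat_lit 696574428408140791808)))) (T.h (P (nat_lit 0)) (P (nat_lit 89162961353009266688)))) (T.h (T.h (P (nat_lit 0)) (T.h (T.h (P (nat_lit 0)) (P (nat_lit 207377764562108416))) (P (nat_lit 0)))) (P (nat_lit 31284549361191616512)))))),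 (P (nat_lit 0)), (P (nat_lit 0)), (T.h (T.h (P (nat_lit 0)) (T.h (T.h (P (nat_lit 0)) (T.h (P (nat_lit 3133008150478943286198272)) (T.h (P (nat_lit 0)) (T.h (P (nat_lit 4506255607094837248)) (T.h (P (nat_lit 0)) (P (nat_lit 8114091958648))))))) (T.h (P (nat_lit 0)) (T.h (T.h (P (nat_lit 0)) (T.h (M (nat_lit 1574276201889923071)) (T.h (P (nat_lit 0)) (P (nat_lit 4428334664712))))) (T.h (P (nat_lit 0)) (T.h (T.h (P (nat_lit 0)) (M (nat_lit 1092306519703))) (P (nat_lit 0)))))))) (T.h (T.h (T.h (M (nat_lit 1842636641669992651706859519)) (T.h (P (nat_lit 0)) (T.h (P (nat_lit 4907546594058516299776)) (T.h (P (nat_lit 0)) (M (nat_lit 20897473785757695)))))) (T.h (P (nat_lit 0)) (T.h (T.h (P (nat_lit 524702051116670517248)) (T.h (P (nat_lit 0)) (M (nat_lit 19556106663329791)))) (T.h (P (nat_lit 0)) (M (nat_lit 10857135824961535)))))) (T.h (T.h (P (nat_lit 0)) (T.h (T.h (P (nat_lit 0)) (T.h (P (nat_lit 75911826115607396352)) (T.h (P (nat_lit 0)) (M (nat_lit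 9670404085391))))) (T.h (P (nat_lit 0)) (T.h (T.h (P (nat_lit 0)) (M (nat_lit 1718313203015))) (P (nat_lit 0)))))) (T.h (T.h (T.h (M (nat_lit 3692873907294676451327)) (T.h (P (nat_lit 0)) (M (nat_lit 5832632511725567)))) (T.h (P (nat_lit 0)) (M (nat_lit 31824348569567231)))) (T.h (T.h (P (nat_lit 0)) (T.h (T.h (P (nat_lit 0)) (P (nat_lit 11983016506304))) (P (nat_lit 0)))) (P (nat_lit 7481609000026112))))))), (T.h (T.h (P (nat_lit 0)) (T.h (T.h (M (nat_lit 12442159702627192574694129663)) (T.h (P (nat_lit 0)) (T.h (M (nat_lit 55715830800575121850367)) (T.h (P (nat_lit 0)) (M (nat_lit 63682034683822079)))))) (T.h (P (nat_lit 0)) (T.h (T.h (P (nat_lit 22743871949365672148992)) (T.h (P (nat_lit 0)) (M (nat_lit 108479705473908735)))) (T.h (P (nat_lit 0)) (P (nat_lit 18097103314681856))))))) (T.h (T.h (T.h (P (nat_lit 0)) (T.h (P (nat_lit 19361259890558873645350912)) (T.h (P (nat_lit 0)) (T.h (P (nat_lit 301861519813580423168)) (T.h (P (nat_lit 0)) (M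 (nat_lit 4685423447423))))))) (T.h (P (nat_lit 0)) (T.h (T.h (P (nat_lit 0)) (T.h (M (nat_lit 43470478741176582143)) (T.h (P (nat_lit 0)) (P (nat_lit 90268290434928))))) (T.h (P (nat_lit 0)) (T.h (T.h (P (nat_lit 0)) (P (nat_lit 54023327974512))) (P (nat_lit 0))))))) (T.h (T.h (P (nat_lit 0)) (T.h (T.h (P (nat_lit 9314640038293583953920)) (T.h (P (nat_lit 0)) (P (nat_lit 958406978850095104)))) (T.h (P (nat_lit 0)) (P (nat_lit 211703931507752960))))) (T.h (T.h (T.h (P (nat_lit 0)) (T.h (P (nat_lit 315625357326101250048)) (T.h (P (nat_lit 0)) (M (nat_lit 7866646795423))))) (T.h (P (nat_lit 0)) (T.h (T.h (P (nat_lit 0)) (P (nat_lit 254418358177664))) (P (nat_lit 0))))) (T.h (T.h (P (nat_lit 0)) (M (nat_lit 50878799646982143))) (T.h (T.h (T.h (P (nat_lit 0)) (M (nat_lit 12012813532351))) (P (nat_lit 0))) (P (nat_lit 0)))))))), (T.h (T.h (P (nat_lit 0)) (T.h (T.h (P (nat_lit 0)) (T.h (P (nat_lit 44471439507994196244955136)) (T.h (P (nat_lit 0)) (T.h (M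 (nat_lit 110754958492724887551)) (T.h (P (nat_lit 0)) (P (nat_lit 133890566166208))))))) (T.h (P (nat_lit 0)) (T.h (T.h (P (nat_lit 0)) (T.h (M (nat_lit 110754958492724887551)) (T.h (P (nat_lit 0)) (M (nat_lit 85561532059775))))) (T.h (P (nat_lit 0)) (T.h (T.h (P (nat_lit 0)) (P (nat_lit 133890566166208))) (P (nat_lit 0)))))))) (T.h (T.h (T.h (M (nat_lit 9545874895522193633590640639)) (T.h (P (nat_lit 0)) (T.h (M (nat_lit 445491985582406009618431)) (T.h (P (nat_lit 0)) (P (nat_lit 270446748449570816)))))) (T.h (P (nat_lit 0)) (T.h (T.h (M (nat_lit 445491985582406009618431)) (T.h (P (nat_lit 0)) (M (nat_lit 35426960130179071)))) (T.h (P (nat_lit 0)) (P (nat_lit 270446748449570816)))))) (T.h (T.h (P (nat_lit 0)) (T.h (T.h (P (nat_lit 0)) (T.h (M (nat_lit 1687305341707791368191)) (T.h (P (nat_lit 0)) (P (nat_lit 64923611577792))))) (T.h (P (nat_lit 0)) (T.h (T.h (P (nat_lit 0)) (P (nat_lit 64923611577792))) (P (nat_lit 0)))))) (T.h (T.h (T.h (M (nat_lit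 90618985186322737528831)) (T.h (P (nat_lit 0)) (M (nat_lit 146736208288743423)))) (T.h (P (nat_lit 0)) (M (nat_lit 146736208288743423)))) (T.h (T.h (P (nat_lit 0)) (T.h (T.h (P (nat_lit 0)) (M (nat_lit 337357176257407))) (P (nat_lit 0)))) (P (nat_lit 19296232174452736))))))), (T.h (T.h (P (nat_lit 0)) (T.h (T.h (P (nat_lit 52310243088687655789380239360)) (T.h (P (nat_lit 0)) (T.h (P (nat_lit 617189314113394654052352)) (T.h (P (nat_lit 0)) (P (nat_lit 4422557504126976)))))) (T.h (P (nat_lit 0)) (T.h (T.h (P (nat_lit 144754076876271417032704)) (T.h (P (nat_lit 0)) (P (nat_lit 557050926757429248)))) (T.h (P (nat_lit 0)) (M (nat_lit 110256827492040703))))))) (T.h (T.h (T.h (P (nat_lit 0)) (T.h (M (nat_lit 86898959468142454170976255)) (T.h (P (nat_lit 0)) (T.h (M (nat_lit 646848846316462669823)) (T.h (P (nat_lit 0)) (P (nat_lit 337671127368288))))))) (T.h (P (nat_lit 0)) (T.h (T.h (P (nat_lit 0)) (T.h (P (nat_lit 294794269230620475392)) (T.h (P (nat_lit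 0)) (M (nat_lit 850977363897935))))) (T.h (P (nat_lit 0)) (T.h (T.h (P (nat_lit 0)) (M (nat_lit 439370500807583))) (P (nat_lit 0))))))) (T.h (T.h (P (nat_lit 0)) (T.h (T.h (P (nat_lit 617189314113394654052352)) (T.h (P (nat_lit 0)) (M (nat_lit 196672124278702079)))) (T.h (P (nat_lit 0)) (P (nat_lit 557050926757429248))))) (T.h (T.h (T.h (P (nat_lit 0)) (T.h (M (nat_lit 646848846316462669823)) (T.h (P (nat_lit 0)) (M (nat_lit 99566560820447))))) (T.h (P (nat_lit 0)) (T.h (T.h (P (nat_lit 0)) (M (nat_lit 850977363897935))) (P (nat_lit 0))))) (T.h (T.h (P (nat_lit 0)) (P (nat_lit 4422557504126976))) (T.h (T.h (T.h (P (nat_lit 0)) (P (nat_lit 337671127368288))) (P (nat_lit 0))) (P (nat_lit 0)))))))), (T.h (T.h (P (nat_lit 0)) (T.h (T.h (P (nat_lit 0)) (T.h (M (nat_lit 96179261992023780361240575)) (T.h (P (nat_lit 0)) (P (nat_lit 6753330301906190336))))) (T.h (P (nat_lit 0)) (T.h (T.h (P (nat_lit 0)) (M (nat_lit 217121808635813429247))) (P (nat_lit 0))))))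 (T.h (T.h (T.h (P (nat_lit 8678397838319954379703058432)) (T.h (P (nat_lit 0)) (T.h (P (nat_lit 378592996281651543670784)) (T.h (P (nat_lit 0)) (M (nat_lit 208185981911433215)))))) (T.h (P (nat_lit 0)) (T.h (T.h (M (nat_lit 341199079021657320325119)) (T.h (P (nat_lit 0)) (P (nat_lit 589473878395617280)))) (T.h (P (nat_lit 0)) (P (nat_lit 129826036928675840)))))) (T.h (T.h (P (nat_lit 0)) (T.h (T.h (P (nat_lit 0)) (M (nat_lit 53604245851376451583))) (P (nat_lit 0)))) (T.h (T.h (T.h (P (nat_lit 74394072377337271287808)) (T.h (P (nat_lit 0)) (P (nat_lit 66756519374815232)))) (T.h (P (nat_lit 0)) (P (nat_lit 62581864780890112)))) (T.h (P (nat_lit 0)) (M (nat_lit 139219386486030335)))))))]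
def lQm_24 : List (T ℤ) := [(P (nat_lit 0)), (P (nat_lit 0)), (T.h (T.h (T.h (P (nat_lit 0)) (T.h (M (nat_lit 7510137570867912732181528575)) (T.h (P (nat_lit 0)) (T.h (P (nat_lit 5625047517624010801152)) (T.h (P (nat_lit 0)) (M (nat_lit 4707057777278975))))))) (T.h (P (nat_lit 0)) (T.h (T.h (P (nat_lit 0)) (T.h (M (nat_lit 5896902701901632503807)) (T.h (P (nat_lit 0)) (M (nat_lit 773751558242303))))) (T.h (P (nat_lit 0)) (T.h (T.h (P (nat_lit 0)) (M (nat_lit 42764403516555263))) (P (nat_lit 0))))))) (T.h (T.h (P (nat_lit 0)) (T.h (T.h (M (nat_lit 42890317912544783647113215)) (T.h (P (nat_lit 0)) (T.h (P (nat_lit 20428739442244583424)) (T.h (P (nat_lit 0)) (P (nat_lit 191230761875616)))))) (T.h (P (nat_lit 0)) (T.h (T.h (P (nat_lit 79130121664399933440)) (T.h (P (nat_lit 0)) (P (nat_lit 48030240726480)))) (T.h (P (nat_lit 0)) (P (nat_lit 16513881934288))))))) (T.h (T.h (T.h (P (nat_lit 0)) (T.h (M (nat_lit 5896902701901632503807)) (T.h (P (nat_lit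 0)) (M (nat_lit 773751558242303))))) (T.h (P (nat_lit 0)) (T.h (T.h (P (nat_lit 0)) (P (nat_lit 274027275200200704))) (P (nat_lit 0))))) (T.h (T.h (P (nat_lit 0)) (T.h (T.h (P (nat_lit 79130121664399933440)) (T.h (P (nat_lit 0)) (P (nat_lit 48030240726480)))) (T.h (P (nat_lit 0)) (M (nat_lit 399778677697119))))) (T.h (T.h (T.h (P (nat_lit 0)) (M (nat_lit 42764403516555263))) (P (nat_lit 0))) (T.h (T.h (P (nat_lit 0)) (P (nat_lit 16513881934288))) (P (nat_lit 0)))))))), (T.h (T.h (T.h (M (nat_lit 10263605443189403653425365778431)) (T.h (P (nat_lit 0)) (T.h (P (nat_lit 13113665670837237236891648)) (T.h (P (nat_lit 0)) (T.h (M (nat_lit 81022462881515438079)) (T.h (P (nat_lit 0)) (M (nat_lit 16686407529983)))))))) (T.h (P (nat_lit 0)) (T.h (T.h (P (nat_lit 24772719807162972498821120)) (T.h (P (nat_lit 0)) (T.h (M (nat_lit 64117543320346951679)) (T.h (P (nat_lit 0)) (M (nat_lit 141379929700031)))))) (T.h (P (nat_lit 0)) (T.h (T.h (P (nat_lit 61011841408129040384))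 (T.h (P (nat_lit 0)) (M (nat_lit 157229173674047)))) (T.h (P (nat_lit 0)) (P (nat_lit 42017837250688)))))))) (T.h (T.h (P (nat_lit 0)) (T.h (T.h (P (nat_lit 0)) (T.h (P (nat_lit 166602184250910184570880)) (T.h (P (nat_lit 0)) (M (nat_lit 340609925145034751))))) (T.h (P (nat_lit 0)) (T.h (T.h (P (nat_lit 0)) (P (nat_lit 1013632339182157824))) (P (nat_lit 0)))))) (T.h (T.h (T.h (P (nat_lit 24772719807162972498821120)) (T.h (P (nat_lit 0)) (T.h (M (nat_lit 64117543320346951679)) (T.h (P (nat_lit 0)) (M (nat_lit 141379929700031)))))) (T.h (P (nat_lit 0)) (T.h (T.h (P (nat_lit 587946156236283576320)) (T.h (P (nat_lit 0)) (P (nat_lit 28784659885056)))) (T.h (P (nat_lit 0)) (P (nat_lit 191627894557248)))))) (T.h (T.h (P (nat_lit 0)) (T.h (T.h (P (nat_lit 0)) (P (nat_lit 1013632339182157824))) (P (nat_lit 0)))) (T.h (T.h (T.h (P (nat_lit 61011841408129040384)) (T.h (P (nat_lit 0)) (M (nat_lit 157229173674047)))) (T.h (P (nat_lit 0)) (P (nat_lit 191627894557248))))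 (T.h (P (nat_lit 0)) (P (nat_lit 42017837250688)))))))), (T.h (T.h (T.h (P (nat_lit 0)) (T.h (P (nat_lit 52310243088687655789380239360)) (T.h (P (nat_lit 0)) (T.h (P (nat_lit 144754076876271417032704)) (T.h (P (nat_lit 0)) (M (nat_lit 110256827492040703))))))) (T.h (P (nat_lit 0)) (T.h (T.h (P (nat_lit 0)) (T.h (P (nat_lit 617189314113394654052352)) (T.h (P (nat_lit 0)) (P (nat_lit 557050926757429248))))) (T.h (P (nat_lit 0)) (T.h (T.h (P (nat_lit 0)) (P (nat_lit 4422557504126976))) (P (nat_lit 0))))))) (T.h (T.h (P (nat_lit 0)) (T.h (T.h (M (nat_lit 86898959468142454170976255)) (T.h (P (nat_lit 0)) (T.h (P (nat_lit 294794269230620475392)) (T.h (P (nat_lit 0)) (M (nat_lit 439370500807583)))))) (T.h (P (nat_lit 0)) (T.h (T.h (M (nat_lit 646848846316462669823)) (T.h (P (nat_lit 0)) (M (nat_lit 850977363897935)))) (T.h (P (nat_lit 0)) (P (nat_lit 337671127368288))))))) (T.h (T.h (T.h (P (nat_lit 0)) (T.h (P (nat_lit 617189314113394654052352)) (T.h (P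 (nat_lit 0)) (P (nat_lit 557050926757429248))))) (T.h (P (nat_lit 0)) (T.h (T.h (P (nat_lit 0)) (M (nat_lit 196672124278702079))) (P (nat_lit 0))))) (T.h (T.h (P (nat_lit 0)) (T.h (T.h (M (nat_lit 646848846316462669823)) (T.h (P (nat_lit 0)) (M (nat_lit 850977363897935)))) (T.h (P (nat_lit 0)) (M (nat_lit 99566560820447))))) (T.h (T.h (T.h (P (nat_lit 0)) (P (nat_lit 4422557504126976))) (P (nat_lit 0))) (T.h (T.h (P (nat_lit 0)) (P (nat_lit 337671127368288))) (P (nat_lit 0)))))))), (T.h (T.h (T.h (M (nat_lit 15019333669650725351569527668735)) (T.h (P (nat_lit 0)) (T.h (M (nat_lit 140264334202199750169591807)) (T.h (P (nat_lit 0)) (P (nat_lit 72544820701243113472)))))) (T.h (P (nat_lit 0)) (T.h (T.h (M (nat_lit 140264334202199750169591807)) (T.h (P (nat_lit 0)) (M (nat_lit 477163676805246222335)))) (T.h (P (nat_lit 0)) (P (nat_lit 72544820701243113472)))))) (T.h (T.h (P (nat_lit 0)) (T.h (T.h (P (nat_lit 0)) (T.h (M (nat_lit 635265248755952400728063))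 (T.h (P (nat_lit 0)) (P (nat_lit 1174503300851957760))))) (T.h (P (nat_lit 0)) (T.h (T.h (P (nat_lit 0)) (P (nat_lit 1174503300851957760))) (P (nat_lit 0)))))) (T.h (T.h (T.h (M (nat_lit 140264334202199750169591807)) (T.h (P (nat_lit 0)) (M (nat_lit 477163676805246222335)))) (T.h (P (nat_lit 0)) (M (nat_lit 477163676805246222335)))) (T.h (T.h (P (nat_lit 0)) (T.h (T.h (P (nat_lit 0)) (P (nat_lit 1174503300851957760))) (P (nat_lit 0)))) (P (nat_lit 72544820701243113472)))))), (P (nat_lit 0)), (P (nat_lit 0))]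
def lQm_25 : List (T ℤ) := [(T.h (T.h (P (nat_lit 0)) (T.h (T.h (P (nat_lit 0)) (T.h (M (nat_lit 29511644478875987024543743)) (T.h (P (nat_lit 0)) (T.h (M (nat_lit 2035048669127901183)) (T.h (P (nat_lit 0)) (M (nat_lit 605003879999))))))) (T.h (P (nat_lit 0)) (T.h (T.h (P (nat_lit 0)) (T.h (M (nat_lit 21689621509727846399)) (T.h (P (nat_lit 0)) (P (nat_lit 17904918011520))))) (T.h (P (nat_lit 0)) (T.h (T.h (P (nat_lit 0)) (M (nat_lit 30960665769471))) (P (nat_lit 0)))))))) (T.h (T.h (T.h (P (nat_lit 1423075270604688150537175040)) (T.h (P (nat_lit 0)) (T.h (P (nat_lit 13965267832501478359040)) (T.h (P (nat_lit 0)) (M (nat_lit 53881761470775295)))))) (T.h (P (nat_lit 0)) (T.h (T.h (P (nat_lit 102376935112423459782656)) (T.h (P (nat_lit 0)) (M (nat_lit 219915359221579775)))) (T.h (P (nat_lit 0)) (M (nat_lit 90922673937416191)))))) (T.h (T.h (P (nat_lit 0)) (T.h (T.h (P (nat_lit 0)) (T.h (M (nat_lit 153691193197182582783)) (T.h (P (nat_lit 0)) (P (nat_lit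 40199411623104))))) (T.h (P (nat_lit 0)) (T.h (T.h (P (nat_lit 0)) (P (nat_lit 114302531773696))) (P (nat_lit 0)))))) (T.h (T.h (T.h (P (nat_lit 31541551321386582016000)) (T.h (P (nat_lit 0)) (M (nat_lit 56911183249440767)))) (T.h (P (nat_lit 0)) (P (nat_lit 583663088441327616)))) (T.h (T.h (P (nat_lit 0)) (T.h (T.h (P (nat_lit 0)) (M (nat_lit 50090625483519))) (P (nat_lit 0)))) (M (nat_lit 83195228683403263))))))), (T.h (T.h (P (nat_lit 0)) (T.h (T.h (M (nat_lit 42505286476555310707194724351)) (T.h (P (nat_lit 0)) (T.h (P (nat_lit 31378407630487934730240)) (T.h (P (nat_lit 0)) (M (nat_lit 4663950362312703)))))) (T.h (P (nat_lit 0)) (T.h (T.h (P (nat_lit 13736814429644959776768)) (T.h (P (nat_lit 0)) (P (nat_lit 133013457014423552)))) (T.h (P (nat_lit 0)) (M (nat_lit 346456592703291391))))))) (T.h (T.h (T.h (P (nat_lit 0)) (T.h (P (nat_lit 3351747234530990319730688)) (T.h (P (nat_lit 0)) (T.h (P (nat_lit 297505605466797899776)) (T.h (P (nat_lit 0))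 (M (nat_lit 59828803719263))))))) (T.h (P (nat_lit 0)) (T.h (T.h (P (nat_lit 0)) (T.h (M (nat_lit 68235848904299511807)) (T.h (P (nat_lit 0)) (M (nat_lit 105852932695583))))) (T.h (P (nat_lit 0)) (T.h (T.h (P (nat_lit 0)) (M (nat_lit 493402670761247))) (P (nat_lit 0))))))) (T.h (T.h (P (nat_lit 0)) (T.h (T.h (M (nat_lit 176837335865706632183807)) (T.h (P (nat_lit 0)) (M (nat_lit 155170297518686207)))) (T.h (P (nat_lit 0)) (M (nat_lit 157327565251870719))))) (T.h (T.h (T.h (P (nat_lit 0)) (T.h (M (nat_lit 115670365913472827391)) (T.h (P (nat_lit 0)) (P (nat_lit 79993172440224))))) (T.h (P (nat_lit 0)) (T.h (T.h (P (nat_lit 0)) (M (nat_lit 187314034551551))) (P (nat_lit 0))))) (T.h (T.h (P (nat_lit 0)) (M (nat_lit 199091536319299583))) (T.h (T.h (T.h (P (nat_lit 0)) (P (nat_lit 8562378236832))) (P (nat_lit 0))) (P (nat_lit 0)))))))), (T.h (T.h (P (nat_lit 0)) (T.h (T.h (P (nat_lit 0)) (T.h (M (nat_lit 96179261992023780361240575)) (T.h (P (nat_lit 0))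 (M (nat_lit 217121808635813429247))))) (T.h (P (nat_lit 0)) (T.h (T.h (P (nat_lit 0)) (P (nat_lit 6753330301906190336))) (P (nat_lit 0)))))) (T.h (T.h (T.h (P (nat_lit 8678397838319954379703058432)) (T.h (P (nat_lit 0)) (T.h (M (nat_lit 341199079021657320325119)) (T.h (P (nat_lit 0)) (P (nat_lit 129826036928675840)))))) (T.h (P (nat_lit 0)) (T.h (T.h (P (nat_lit 378592996281651543670784)) (T.h (P (nat_lit 0)) (P (nat_lit 589473878395617280)))) (T.h (P (nat_lit 0)) (M (nat_lit 208185981911433215)))))) (T.h (T.h (P (nat_lit 0)) (T.h (T.h (P (nat_lit 0)) (M (nat_lit 53604245851376451583))) (P (nat_lit 0)))) (T.h (T.h (T.h (P (nat_lit 74394072377337271287808)) (T.h (P (nat_lit 0)) (P (nat_lit 62581864780890112)))) (T.h (P (nat_lit 0)) (P (nat_lit 66756519374815232)))) (T.h (P (nat_lit 0)) (M (nat_lit 139219386486030335))))))), (P (nat_lit 0)), (P (nat_lit 0)), (T.h (T.h (T.h (P (nat_lit 0)) (T.h (M (nat_lit 5651764205519451235941351423)) (T.h (P (nat_lit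 0)) (T.h (P (nat_lit 2150413618614238183424)) (T.h (P (nat_lit 0)) (P (nat_lit 2760467853754368))))))) (T.h (P (nat_lit 0)) (T.h (T.h (P (nat_lit 0)) (T.h (M (nat_lit 12670811359082753032191)) (T.h (P (nat_lit 0)) (M (nat_lit 39058420179075071))))) (T.h (P (nat_lit 0)) (T.h (T.h (P (nat_lit 0)) (P (nat_lit 201008201338093568))) (P (nat_lit 0))))))) (T.h (T.h (P (nat_lit 0)) (T.h (T.h (P (nat_lit 3925105225115737463455744)) (T.h (P (nat_lit 0)) (T.h (P (nat_lit 29510078247831863296)) (T.h (P (nat_lit 0)) (M (nat_lit 235517594865407)))))) (T.h (P (nat_lit 0)) (T.h (T.h (P (nat_lit 339200111039458836480)) (T.h (P (nat_lit 0)) (M (nat_lit 111663856591199)))) (T.h (P (nat_lit 0)) (P (nat_lit 418099953986208))))))) (T.h (T.h (T.h (P (nat_lit 0)) (T.h (P (nat_lit 5401474684980102692864)) (T.h (P (nat_lit 0)) (M (nat_lit 16334309095342079))))) (T.h (P (nat_lit 0)) (T.h (T.h (P (nat_lit 0)) (M (nat_lit 208198211023503359))) (P (nat_lit 0))))) (T.h (T.h (P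 (nat_lit 0)) (T.h (T.h (M (nat_lit 70756264808229634047)) (T.h (P (nat_lit 0)) (P (nat_lit 157454749658304)))) (T.h (P (nat_lit 0)) (P (nat_lit 356919587573616))))) (T.h (T.h (T.h (P (nat_lit 0)) (P (nat_lit 31510804217823232))) (P (nat_lit 0))) (T.h (T.h (P (nat_lit 0)) (M (nat_lit 153484319177423))) (P (nat_lit 0)))))))), (T.h (T.h (T.h (P (nat_lit 6956814252741079948443380613120)) (T.h (P (nat_lit 0)) (T.h (P (nat_lit 9834762153925330696404992)) (T.h (P (nat_lit 0)) (M (nat_lit 907467354663813119)))))) (T.h (P (nat_lit 0)) (T.h (T.h (P (nat_lit 7835852522007655234928640)) (T.h (P (nat_lit 0)) (M (nat_lit 83243563760396271615)))) (T.h (P (nat_lit 0)) (P (nat_lit 190603457277588406272)))))) (T.h (T.h (P (nat_lit 0)) (T.h (T.h (P (nat_lit 0)) (T.h (M (nat_lit 245888729080067128295423)) (T.h (P (nat_lit 0)) (P (nat_lit 200925852248375296))))) (T.h (P (nat_lit 0)) (T.h (T.h (P (nat_lit 0)) (P (nat_lit 281155397963546624))) (P (nat_lit 0)))))) (T.h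 (T.h (T.h (P (nat_lit 12512308161857980632924160)) (T.h (P (nat_lit 0)) (P (nat_lit 89162961353009266688)))) (T.h (P (nat_lit 0)) (P (nat_lit 696574428408140791808)))) (T.h (T.h (P (nat_lit 0)) (T.h (T.h (P (nat_lit 0)) (P (nat_lit 207377764562108416))) (P (nat_lit 0)))) (P (nat_lit 31284549361191616512)))))), (P (nat_lit 0))]
def lQm_26 : List (T ℤ) := [(P (nat_lit 0)), (T.h (T.h (P (nat_lit 0)) (T.h (T.h (P (nat_lit 0)) (T.h (M (nat_lit 11796831539250381828653055)) (T.h (P (nat_lit 0)) (P (nat_lit 11447994264663883776))))) (T.h (P (nat_lit 0)) (T.h (T.h (P (nat_lit 0)) (M (nat_lit 201848382004607844351))) (P (nat_lit 0)))))) (T.h (T.h (T.h (M (nat_lit 19010715559394962457480921087)) (T.h (P (nat_lit 0)) (T.h (M (nat_lit 4534848523537343315967)) (T.h (P (nat_lit 0)) (P (nat_lit 72142769679368192)))))) (T.h (P (nat_lit 0)) (T.h (T.h (M (nat_lit 337256168840861870718975)) (T.h (P (nat_lit 0)) (P (nat_lit 146445637852594176)))) (T.h (P (nat_lit 0))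 (M (nat_lit 537460537767034879)))))) (T.h (T.h (P (nat_lit 0)) (T.h (T.h (P (nat_lit 0)) (P (nat_lit 27730665333827043328))) (P (nat_lit 0)))) (T.h (T.h (T.h (P (nat_lit 17167194726438533070848)) (T.h (P (nat_lit 0)) (M (nat_lit 39240781425016831)))) (T.h (P (nat_lit 0)) (M (nat_lit 217035851084890111)))) (T.h (P (nat_lit 0)) (P (nat_lit 51833134429732864))))))), (P (nat_lit 0)), (P (nat_lit 0)), (P (nat_lit 0)), (P (nat_lit 0)), (P (nat_lit 0)), (T.h (T.h (T.h (P (nat_lit 0)) (T.h (M (nat_lit 6109297295370027237344542719)) (T.h (P (nat_lit 0)) (T.h (M (nat_lit 6470624315378690424831)) (T.h (P (nat_lit 0)) (P (nat_lit 7102852997021696))))))) (T.h (P (nat_lit 0)) (T.h (T.h (P (nat_lit 0)) (T.h (M (nat_lit 1686258149179302871039)) (T.h (P (nat_lit 0)) (P (nat_lit 433781979512832))))) (T.h (P (nat_lit 0)) (T.h (T.h (P (nat_lit 0)) (M (nat_lit 417833758719999))) (P (nat_lit 0))))))) (T.h (T.h (P (nat_lit 0)) (T.h (T.h (P (nat_lit 284033478414364619833344))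 (T.h (P (nat_lit 0)) (T.h (M (nat_lit 849028859926937599)) (T.h (P (nat_lit 0)) (M (nat_lit 8644918464695)))))) (T.h (P (nat_lit 0)) (T.h (T.h (M (nat_lit 2140135256919900159)) (T.h (P (nat_lit 0)) (M (nat_lit 365975489447)))) (T.h (P (nat_lit 0)) (P (nat_lit 2562489162784))))))) (T.h (T.h (T.h (P (nat_lit 0)) (T.h (M (nat_lit 3043298767001555566591)) (T.h (P (nat_lit 0)) (M (nat_lit 23901466144571391))))) (T.h (P (nat_lit 0)) (T.h (T.h (P (nat_lit 0)) (P (nat_lit 1978227750830080))) (P (nat_lit 0))))) (T.h (T.h (P (nat_lit 0)) (T.h (T.h (P (nat_lit 5938503625511796736)) (T.h (P (nat_lit 0)) (P (nat_lit 72270515840056)))) (T.h (P (nat_lit 0)) (M (nat_lit 1179281324743))))) (T.h (T.h (T.h (P (nat_lit 0)) (P (nat_lit 42195277170933760))) (P (nat_lit 0))) (T.h (T.h (P (nat_lit 0)) (M (nat_lit 11280567779311))) (P (nat_lit 0))))))))]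
def lQm_27 : List (T ℤ) := [(T.h (T.h (T.h (M (nat_lit 4760559981841400535819587944447)) (T.h (P (nat_lit 0)) (T.h (M (nat_lit 23554564491741895231275007)) (T.h (P (nat_lit 0)) (T.h (M (nat_lit 26277287895165304831)) (T.h (P (nat_lit 0)) (P (nat_lit 5106811990464)))))))) (T.h (P (nat_lit 0)) (T.h (T.h (P (nat_lit 770520881638916390649856)) (T.h (P (nat_lit 0)) (T.h (M (nat_lit 6340317228499468287)) (T.h (P (nat_lit 0)) (M (nat_lit 2332677536639)))))) (T.h (P (nat_lit 0)) (T.h (T.h (P (nat_lit 5476421613685571584)) (T.h (P (nat_lit 0)) (P (nat_lit 3880953721632)))) (T.h (P (nat_lit 0)) (M (nat_lit 1226078413135)))))))) (T.h (T.h (P (nat_lit 0)) (T.h (T.h (P (nat_lit 0)) (T.h (P (nat_lit 5718149774113176027136)) (T.h (P (nat_lit 0)) (M (nat_lit 87735198484725759))))) (T.h (P (nat_lit 0)) (T.h (T.h (P (nat_lit 0)) (M (nat_lit 22477953384775679))) (P (nat_lit 0)))))) (T.h (T.h (T.h (M (nat_lit 12686087327818927969402879)) (T.h (P (nat_lit 0)) (T.h (M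 (nat_lit 98180377231073738751)) (T.h (P (nat_lit 0)) (M (nat_lit 35834186439263)))))) (T.h (P (nat_lit 0)) (T.h (T.h (M (nat_lit 20620189100488523775)) (T.h (P (nat_lit 0)) (M (nat_lit 23507951099487)))) (T.h (P (nat_lit 0)) (M (nat_lit 4136082018047)))))) (T.h (T.h (P (nat_lit 0)) (T.h (T.h (P (nat_lit 0)) (P (nat_lit 88374154776510464))) (P (nat_lit 0)))) (T.h (T.h (T.h (P (nat_lit 79083973133016760320)) (T.h (P (nat_lit 0)) (M (nat_lit 19123657897535)))) (T.h (P (nat_lit 0)) (P (nat_lit 52052519111328)))) (T.h (P (nat_lit 0)) (P (nat_lit 33595231580112)))))))), (T.h (T.h (T.h (P (nat_lit 0)) (T.h (P (nat_lit 1423075270604688150537175040)) (T.h (P (nat_lit 0)) (T.h (P (nat_lit 31541551321386582016000)) (T.h (P (nat_lit 0)) (M (nat_lit 83195228683403263))))))) (T.h (P (nat_lit 0)) (T.h (T.h (P (nat_lit 0)) (T.h (P (nat_lit 13965267832501478359040)) (T.h (P (nat_lit 0)) (M (nat_lit 56911183249440767))))) (T.h (P (nat_lit 0)) (T.h (T.h (P (nat_lit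 0)) (M (nat_lit 53881761470775295))) (P (nat_lit 0))))))) (T.h (T.h (P (nat_lit 0)) (T.h (T.h (M (nat_lit 29511644478875987024543743)) (T.h (P (nat_lit 0)) (T.h (M (nat_lit 153691193197182582783)) (T.h (P (nat_lit 0)) (M (nat_lit 50090625483519)))))) (T.h (P (nat_lit 0)) (T.h (T.h (M (nat_lit 2035048669127901183)) (T.h (P (nat_lit 0)) (P (nat_lit 40199411623104)))) (T.h (P (nat_lit 0)) (M (nat_lit 605003879999))))))) (T.h (T.h (T.h (P (nat_lit 0)) (T.h (P (nat_lit 102376935112423459782656)) (T.h (P (nat_lit 0)) (P (nat_lit 583663088441327616))))) (T.h (P (nat_lit 0)) (T.h (T.h (P (nat_lit 0)) (M (nat_lit 219915359221579775))) (P (nat_lit 0))))) (T.h (T.h (P (nat_lit 0)) (T.h (T.h (M (nat_lit 21689621509727846399)) (T.h (P (nat_lit 0)) (P (nat_lit 114302531773696)))) (T.h (P (nat_lit 0)) (P (nat_lit 17904918011520))))) (T.h (T.h (T.h (P (nat_lit 0)) (M (nat_lit 90922673937416191))) (P (nat_lit 0))) (T.h (T.h (P (nat_lit 0)) (M (nat_lit 30960665769471)))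 (P (nat_lit 0)))))))), (T.h (T.h (T.h (P (nat_lit 2123357838476180763854191460352)) (T.h (P (nat_lit 0)) (T.h (M (nat_lit 22516782888906730065887231)) (T.h (P (nat_lit 0)) (T.h (M (nat_lit 104061882536860581887)) (T.h (P (nat_lit 0)) (M (nat_lit 123801535670687)))))))) (T.h (P (nat_lit 0)) (T.h (T.h (M (nat_lit 3569970915382682005274623)) (T.h (P (nat_lit 0)) (T.h (P (nat_lit 10043804351757025280)) (T.h (P (nat_lit 0)) (P (nat_lit 41722221577392)))))) (T.h (P (nat_lit 0)) (T.h (T.h (P (nat_lit 10733473574665846784)) (T.h (P (nat_lit 0)) (P (nat_lit 51762713890032)))) (T.h (P (nat_lit 0)) (M (nat_lit 2380305145823)))))))) (T.h (T.h (P (nat_lit 0)) (T.h (T.h (P (nat_lit 0)) (T.h (M (nat_lit 117849340262303427198975)) (T.h (P (nat_lit 0)) (M (nat_lit 269575616239108095))))) (T.h (P (nat_lit 0)) (T.h (T.h (P (nat_lit 0)) (P (nat_lit 98096991864422400))) (P (nat_lit 0)))))) (T.h (T.h (T.h (M (nat_lit 22516782888906730065887231)) (T.h (P (nat_lit 0)) (T.h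 (M (nat_lit 524537083175312031743)) (T.h (P (nat_lit 0)) (P (nat_lit 8403018471936)))))) (T.h (P (nat_lit 0)) (T.h (T.h (P (nat_lit 10043804351757025280)) (T.h (P (nat_lit 0)) (P (nat_lit 330438239353728)))) (T.h (P (nat_lit 0)) (P (nat_lit 51762713890032)))))) (T.h (T.h (P (nat_lit 0)) (T.h (T.h (P (nat_lit 0)) (M (nat_lit 269575616239108095))) (P (nat_lit 0)))) (T.h (T.h (T.h (M (nat_lit 104061882536860581887)) (T.h (P (nat_lit 0)) (P (nat_lit 8403018471936)))) (T.h (P (nat_lit 0)) (P (nat_lit 41722221577392)))) (T.h (P (nat_lit 0)) (M (nat_lit 123801535670687)))))))), (T.h (T.h (T.h (P (nat_lit 0)) (T.h (P (nat_lit 4622686116289818125836222464)) (T.h (P (nat_lit 0)) (T.h (P (nat_lit 67326681209505262338048)) (T.h (P (nat_lit 0)) (P (nat_lit 73889396061962240))))))) (T.h (P (nat_lit 0)) (T.h (T.h (P (nat_lit 0)) (T.h (P (nat_lit 5038203398620824207360)) (T.h (P (nat_lit 0)) (M (nat_lit 12566762318135295))))) (T.h (P (nat_lit 0)) (T.h (T.h (P (nat_lit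 0)) (P (nat_lit 30035550910087168))) (P (nat_lit 0))))))) (T.h (T.h (P (nat_lit 0)) (T.h (T.h (P (nat_lit 32368617483080180722302976)) (T.h (P (nat_lit 0)) (P (nat_lit 210714216620942688256)))) (T.h (P (nat_lit 0)) (M (nat_lit 30422275876538286079))))) (T.h (T.h (T.h (P (nat_lit 0)) (T.h (P (nat_lit 210632273554275901112320)) (T.h (P (nat_lit 0)) (M (nat_lit 251305719263821823))))) (T.h (P (nat_lit 0)) (T.h (T.h (P (nat_lit 0)) (M (nat_lit 257875223365943295))) (P (nat_lit 0))))) (T.h (T.h (P (nat_lit 0)) (P (nat_lit 70812932436679196672))) (T.h (T.h (T.h (P (nat_lit 0)) (P (nat_lit 170806740523974656))) (P (nat_lit 0))) (P (nat_lit 0))))))), (P (nat_lit 0)), (P (nat_lit 0)), (T.h (T.h (P (nat_lit 0)) (T.h (T.h (M (nat_lit 6109297295370027237344542719)) (T.h (P (nat_lit 0)) (T.h (M (nat_lit 1686258149179302871039)) (T.h (P (nat_lit 0)) (M (nat_lit 417833758719999)))))) (T.h (P (nat_lit 0)) (T.h (T.h (M (nat_lit 6470624315378690424831)) (T.h (P (nat_lit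 0)) (P (nat_lit 433781979512832)))) (T.h (P (nat_lit 0)) (P (nat_lit 7102852997021696))))))) (T.h (T.h (T.h (P (nat_lit 0)) (T.h (P (nat_lit 284033478414364619833344)) (T.h (P (nat_lit 0)) (T.h (M (nat_lit 2140135256919900159)) (T.h (P (nat_lit 0)) (P (nat_lit 2562489162784))))))) (T.h (P (nat_lit 0)) (T.h (T.h (P (nat_lit 0)) (T.h (M (nat_lit 849028859926937599)) (T.h (P (nat_lit 0)) (M (nat_lit 365975489447))))) (T.h (P (nat_lit 0)) (T.h (T.h (P (nat_lit 0)) (M (nat_lit 8644918464695))) (P (nat_lit 0))))))) (T.h (T.h (P (nat_lit 0)) (T.h (T.h (M (nat_lit 3043298767001555566591)) (T.h (P (nat_lit 0)) (P (nat_lit 1978227750830080)))) (T.h (P (nat_lit 0)) (M (nat_lit 23901466144571391))))) (T.h (T.h (T.h (P (nat_lit 0)) (T.h (P (nat_lit 5938503625511796736)) (T.h (P (nat_lit 0)) (M (nat_lit 1179281324743))))) (T.h (P (nat_lit 0)) (T.h (T.h (P (nat_lit 0)) (P (nat_lit 72270515840056))) (P (nat_lit 0))))) (T.h (T.h (P (nat_lit 0)) (P (nat_lit 42195277170933760)))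 (T.h (T.h (T.h (P (nat_lit 0)) (M (nat_lit 11280567779311))) (P (nat_lit 0))) (P (nat_lit 0)))))))), (T.h (T.h (P (nat_lit 0)) (T.h (T.h (P (nat_lit 0)) (T.h (P (nat_lit 10159147398612175204384768)) (T.h (P (nat_lit 0)) (T.h (M (nat_lit 8466335218431688703)) (T.h (P (nat_lit 0)) (M (nat_lit 12009131250063))))))) (T.h (P (nat_lit 0)) (T.h (T.h (P (nat_lit 0)) (T.h (M (nat_lit 8466335218431688703)) (T.h (P (nat_lit 0)) (P (nat_lit 15419168176256))))) (T.h (P (nat_lit 0)) (T.h (T.h (P (nat_lit 0)) (M (nat_lit 12009131250063))) (P (nat_lit 0)))))))) (T.h (T.h (T.h (P (nat_lit 14045086798794061153352810496)) (T.h (P (nat_lit 0)) (T.h (M (nat_lit 81096796728415458689023)) (T.h (P (nat_lit 0)) (P (nat_lit 48995516550889472)))))) (T.h (P (nat_lit 0)) (T.h (T.h (M (nat_lit 81096796728415458689023)) (T.h (P (nat_lit 0)) (P (nat_lit 65038788471324672)))) (T.h (P (nat_lit 0)) (P (nat_lit 48995516550889472)))))) (T.h (T.h (P (nat_lit 0)) (T.h (T.h (P (nat_lit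 0)) (T.h (M (nat_lit 653684945632941309951)) (T.h (P (nat_lit 0)) (M (nat_lit 5250374281359))))) (T.h (P (nat_lit 0)) (T.h (T.h (P (nat_lit 0)) (M (nat_lit 5250374281359))) (P (nat_lit 0)))))) (T.h (T.h (T.h (M (nat_lit 36699550170478542847999)) (T.h (P (nat_lit 0)) (M (nat_lit 15636010588487679)))) (T.h (P (nat_lit 0)) (M (nat_lit 15636010588487679)))) (T.h (T.h (P (nat_lit 0)) (T.h (T.h (P (nat_lit 0)) (M (nat_lit 33739957894015))) (P (nat_lit 0)))) (P (nat_lit 53154154414211072)))))))]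
def lQm_28 : List (T ℤ) := [(T.h (T.h (P (nat_lit 0)) (T.h (T.h (P (nat_lit 30439372902512087466491510784)) (T.h (P (nat_lit 0)) (T.h (M (nat_lit 5187693863199632785407)) (T.h (P (nat_lit 0)) (M (nat_lit 131697003819499519)))))) (T.h (P (nat_lit 0)) (T.h (T.h (M (nat_lit 4512347180252872572927)) (T.h (P (nat_lit 0)) (P (nat_lit 165668878693040128)))) (T.h (P (nat_lit 0)) (P (nat_lit 25401474191458304))))))) (T.h (T.h (T.h (P (nat_lit 0)) (T.h (P (nat_lit 17136308746545256755888128)) (T.h (P (nat_lit 0)) (T.h (M (nat_lit 390903923725150715903)) (T.h (P (nat_lit 0)) (M (nat_lit 41950637664831))))))) (T.h (P (nat_lit 0)) (T.h (T.h (P (nat_lit 0)) (T.h (M (nat_lit 40001066219060854783)) (T.h (P (nat_lit 0)) (M (nat_lit 201592896292031))))) (T.h (P (nat_lit 0)) (T.h (T.h (P (nat_lit 0)) (P (nat_lit 224110488235840))) (P (nat_lit 0))))))) (T.h (T.h (P (nat_lit 0)) (T.h (T.h (M (nat_lit 163116600156994838462463)) (T.h (P (nat_lit 0)) (M (nat_lit 783145859356131327))))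 (T.h (P (nat_lit 0)) (P (nat_lit 390897227788976128))))) (T.h (T.h (T.h (P (nat_lit 0)) (T.h (M (nat_lit 254244116952053186559)) (T.h (P (nat_lit 0)) (M (nat_lit 297158349740031))))) (T.h (P (nat_lit 0)) (T.h (T.h (P (nat_lit 0)) (P (nat_lit 435589951003264))) (P (nat_lit 0))))) (T.h (T.h (P (nat_lit 0)) (P (nat_lit 409804081434263552))) (T.h (T.h (T.h (P (nat_lit 0)) (P (nat_lit 118685896343040))) (P (nat_lit 0))) (P (nat_lit 0)))))))), (T.h (T.h (P (nat_lit 0)) (T.h (T.h (P (nat_lit 0)) (T.h (P (nat_lit 3351747234530990319730688)) (T.h (P (nat_lit 0)) (T.h (M (nat_lit 115670365913472827391)) (T.h (P (nat_lit 0)) (P (nat_lit 8562378236832))))))) (T.h (P (nat_lit 0)) (T.h (T.h (P (nat_lit 0)) (T.h (P (nat_lit 297505605466797899776)) (T.h (P (nat_lit 0)) (P (nat_lit 79993172440224))))) (T.h (P (nat_lit 0)) (T.h (T.h (P (nat_lit 0)) (M (nat_lit 59828803719263))) (P (nat_lit 0)))))))) (T.h (T.h (T.h (M (nat_lit 42505286476555310707194724351)) (T.h (P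 (nat_lit 0)) (T.h (M (nat_lit 176837335865706632183807)) (T.h (P (nat_lit 0)) (M (nat_lit 199091536319299583)))))) (T.h (P (nat_lit 0)) (T.h (T.h (P (nat_lit 31378407630487934730240)) (T.h (P (nat_lit 0)) (M (nat_lit 155170297518686207)))) (T.h (P (nat_lit 0)) (M (nat_lit 4663950362312703)))))) (T.h (T.h (P (nat_lit 0)) (T.h (T.h (P (nat_lit 0)) (T.h (M (nat_lit 68235848904299511807)) (T.h (P (nat_lit 0)) (M (nat_lit 187314034551551))))) (T.h (P (nat_lit 0)) (T.h (T.h (P (nat_lit 0)) (M (nat_lit 105852932695583))) (P (nat_lit 0)))))) (T.h (T.h (T.h (P (nat_lit 13736814429644959776768)) (T.h (P (nat_lit 0)) (M (nat_lit 157327565251870719)))) (T.h (P (nat_lit 0)) (P (nat_lit 133013457014423552)))) (T.h (T.h (P (nat_lit 0)) (T.h (T.h (P (nat_lit 0)) (M (nat_lit 493402670761247))) (P (nat_lit 0)))) (M (nat_lit 346456592703291391))))))), (T.h (T.h (P (nat_lit 0)) (T.h (T.h (M (nat_lit 23982801289164216537089835007)) (T.h (P (nat_lit 0)) (T.h (M (nat_lit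 103457444550888944304127)) (T.h (P (nat_lit 0)) (P (nat_lit 83546188554764288)))))) (T.h (P (nat_lit 0)) (T.h (T.h (M (nat_lit 40637152726621985177599)) (T.h (P (nat_lit 0)) (M (nat_lit 77636821944369151)))) (T.h (P (nat_lit 0)) (P (nat_lit 30478663296221184))))))) (T.h (T.h (T.h (P (nat_lit 0)) (T.h (P (nat_lit 82022475448791551103205376)) (T.h (P (nat_lit 0)) (P (nat_lit 285002259208458993664))))) (T.h (P (nat_lit 0)) (T.h (T.h (P (nat_lit 0)) (P (nat_lit 145578080354680438784))) (P (nat_lit 0))))) (T.h (T.h (P (nat_lit 0)) (T.h (T.h (M (nat_lit 103457444550888944304127)) (T.h (P (nat_lit 0)) (P (nat_lit 105359980908511232)))) (T.h (P (nat_lit 0)) (M (nat_lit 77636821944369151))))) (T.h (T.h (T.h (P (nat_lit 0)) (P (nat_lit 285002259208458993664))) (P (nat_lit 0))) (T.h (T.h (P (nat_lit 0)) (P (nat_lit 83546188554764288))) (P (nat_lit 0))))))), (P (nat_lit 0)), (P (nat_lit 0)), (T.h (T.h (T.h (M (nat_lit 4760559981841400535819587944447)) (T.h (P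 (nat_lit 0)) (T.h (P (nat_lit 770520881638916390649856)) (T.h (P (nat_lit 0)) (T.h (P (nat_lit 5476421613685571584)) (T.h (P (nat_lit 0)) (M (nat_lit 1226078413135)))))))) (T.h (P (nat_lit 0)) (T.h (T.h (M (nat_lit 23554564491741895231275007)) (T.h (P (nat_lit 0)) (T.h (M (nat_lit 6340317228499468287)) (T.h (P (nat_lit 0)) (P (nat_lit 3880953721632)))))) (T.h (P (nat_lit 0)) (T.h (T.h (M (nat_lit 26277287895165304831)) (T.h (P (nat_lit 0)) (M (nat_lit 2332677536639)))) (T.h (P (nat_lit 0)) (P (nat_lit 5106811990464)))))))) (T.h (T.h (P (nat_lit 0)) (T.h (T.h (P (nat_lit 0)) (T.h (P (nat_lit 5718149774113176027136)) (T.h (P (nat_lit 0)) (M (nat_lit 22477953384775679))))) (T.h (P (nat_lit 0)) (T.h (T.h (P (nat_lit 0)) (M (nat_lit 87735198484725759))) (P (nat_lit 0)))))) (T.h (T.h (T.h (M (nat_lit 12686087327818927969402879)) (T.h (P (nat_lit 0)) (T.h (M (nat_lit 20620189100488523775)) (T.h (P (nat_lit 0)) (M (nat_lit 4136082018047)))))) (T.h (P (nat_lit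 0)) (T.h (T.h (M (nat_lit 98180377231073738751)) (T.h (P (nat_lit 0)) (M (nat_lit 23507951099487)))) (T.h (P (nat_lit 0)) (M (nat_lit 35834186439263)))))) (T.h (T.h (P (nat_lit 0)) (T.h (T.h (P (nat_lit 0)) (P (nat_lit 88374154776510464))) (P (nat_lit 0)))) (T.h (T.h (T.h (P (nat_lit 79083973133016760320)) (T.h (P (nat_lit 0)) (P (nat_lit 52052519111328)))) (T.h (P (nat_lit 0)) (M (nat_lit 19123657897535)))) (T.h (P (nat_lit 0)) (P (nat_lit 33595231580112)))))))), (T.h (T.h (T.h (P (nat_lit 0)) (T.h (P (nat_lit 30439372902512087466491510784)) (T.h (P (nat_lit 0)) (T.h (M (nat_lit 4512347180252872572927)) (T.h (P (nat_lit 0)) (P (nat_lit 25401474191458304))))))) (T.h (P (nat_lit 0)) (T.h (T.h (P (nat_lit 0)) (T.h (M (nat_lit 5187693863199632785407)) (T.h (P (nat_lit 0)) (P (nat_lit 165668878693040128))))) (T.h (P (nat_lit 0)) (T.h (T.h (P (nat_lit 0)) (M (nat_lit 131697003819499519))) (P (nat_lit 0))))))) (T.h (T.h (P (nat_lit 0)) (T.h (T.h (P (nat_lit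 17136308746545256755888128)) (T.h (P (nat_lit 0)) (T.h (M (nat_lit 40001066219060854783)) (T.h (P (nat_lit 0)) (P (nat_lit 224110488235840)))))) (T.h (P (nat_lit 0)) (T.h (T.h (M (nat_lit 390903923725150715903)) (T.h (P (nat_lit 0)) (M (nat_lit 201592896292031)))) (T.h (P (nat_lit 0)) (M (nat_lit 41950637664831))))))) (T.h (T.h (T.h (P (nat_lit 0)) (T.h (M (nat_lit 163116600156994838462463)) (T.h (P (nat_lit 0)) (P (nat_lit 390897227788976128))))) (T.h (P (nat_lit 0)) (T.h (T.h (P (nat_lit 0)) (M (nat_lit 783145859356131327))) (P (nat_lit 0))))) (T.h (T.h (P (nat_lit 0)) (T.h (T.h (M (nat_lit 254244116952053186559)) (T.h (P (nat_lit 0)) (P (nat_lit 435589951003264)))) (T.h (P (nat_lit 0)) (M (nat_lit 297158349740031))))) (T.h (T.h (T.h (P (nat_lit 0)) (P (nat_lit 409804081434263552))) (P (nat_lit 0))) (T.h (T.h (P (nat_lit 0)) (P (nat_lit 118685896343040))) (P (nat_lit 0)))))))), (T.h (T.h (T.h (M (nat_lit 9621836782640715442813122117631)) (T.h (P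 (nat_lit 0)) (T.h (P (nat_lit 39709390679530183027851264)) (T.h (P (nat_lit 0)) (T.h (M (nat_lit 46137101300793343999)) (T.h (P (nat_lit 0)) (P (nat_lit 44261739818928)))))))) (T.h (P (nat_lit 0)) (T.h (T.h (P (nat_lit 39709390679530183027851264)) (T.h (P (nat_lit 0)) (T.h (P (nat_lit 325842093885051895808)) (T.h (P (nat_lit 0)) (P (nat_lit 83994971528592)))))) (T.h (P (nat_lit 0)) (T.h (T.h (M (nat_lit 46137101300793343999)) (T.h (P (nat_lit 0)) (P (nat_lit 83994971528592)))) (T.h (P (nat_lit 0)) (P (nat_lit 44261739818928)))))))) (T.h (T.h (P (nat_lit 0)) (T.h (T.h (P (nat_lit 0)) (T.h (P (nat_lit 693188341454905471401984)) (T.h (P (nat_lit 0)) (P (nat_lit 150070350940602368))))) (T.h (P (nat_lit 0)) (T.h (T.h (P (nat_lit 0)) (P (nat_lit 150070350940602368))) (P (nat_lit 0)))))) (T.h (T.h (T.h (P (nat_lit 95447913308479641767378944)) (T.h (P (nat_lit 0)) (T.h (M (nat_lit 876055013546178641919)) (T.h (P (nat_lit 0)) (P (nat_lit 48162526619760))))))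 (T.h (P (nat_lit 0)) (T.h (T.h (M (nat_lit 876055013546178641919)) (T.h (P (nat_lit 0)) (P (nat_lit 140014755056160)))) (T.h (P (nat_lit 0)) (P (nat_lit 48162526619760)))))) (T.h (T.h (P (nat_lit 0)) (T.h (T.h (P (nat_lit 0)) (M (nat_lit 360564490332274687))) (P (nat_lit 0)))) (T.h (T.h (T.h (P (nat_lit 14001697306391347200)) (T.h (P (nat_lit 0)) (M (nat_lit 140036581379231)))) (T.h (P (nat_lit 0)) (M (nat_lit 140036581379231)))) (T.h (P (nat_lit 0)) (P (nat_lit 335070000742752))))))))]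
def lQm_29 : List (T ℤ) := [(T.h (T.h (T.h (P (nat_lit 0)) (T.h (P (nat_lit 8678397838319954379703058432)) (T.h (P (nat_lit 0)) (T.h (P (nat_lit 74394072377337271287808)) (T.h (P (nat_lit 0)) (M (nat_lit 139219386486030335))))))) (T.h (P (nat_lit 0)) (T.h (T.h (P (nat_lit 0)) (T.h (M (nat_lit 341199079021657320325119)) (T.h (P (nat_lit 0)) (P (nat_lit 62581864780890112))))) (T.h (P (nat_lit 0)) (T.h (T.h (P (nat_lit 0)) (P (nat_lit 129826036928675840))) (P (nat_lit 0))))))) (T.h (T.h (P (nat_lit 0)) (T.h (T.h (M (nat_lit 96179261992023780361240575)) (T.h (P (nat_lit 0)) (M (nat_lit 53604245851376451583)))) (T.h (P (nat_lit 0)) (M (nat_lit 217121808635813429247))))) (T.h (T.h (T.h (P (nat_lit 0)) (T.h (P (nat_lit 378592996281651543670784)) (T.h (P (nat_lit 0)) (P (nat_lit 66756519374815232))))) (T.h (P (nat_lit 0)) (T.h (T.h (P (nat_lit 0)) (P (nat_lit 589473878395617280))) (P (nat_lit 0))))) (T.h (T.h (P (nat_lit 0)) (P (nat_lit 6753330301906190336)))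 (T.h (T.h (T.h (P (nat_lit 0)) (M (nat_lit 208185981911433215))) (P (nat_lit 0))) (P (nat_lit 0))))))), (P (nat_lit 0)), (P (nat_lit 0)), (T.h (T.h (P (nat_lit 0)) (T.h (T.h (P (nat_lit 1423075270604688150537175040)) (T.h (P (nat_lit 0)) (T.h (P (nat_lit 13965267832501478359040)) (T.h (P (nat_lit 0)) (M (nat_lit 53881761470775295)))))) (T.h (P (nat_lit 0)) (T.h (T.h (P (nat_lit 31541551321386582016000)) (T.h (P (nat_lit 0)) (M (nat_lit 56911183249440767)))) (T.h (P (nat_lit 0)) (M (nat_lit 83195228683403263))))))) (T.h (T.h (T.h (P (nat_lit 0)) (T.h (M (nat_lit 29511644478875987024543743)) (T.h (P (nat_lit 0)) (T.h (M (nat_lit 2035048669127901183)) (T.h (P (nat_lit 0)) (M (nat_lit 605003879999))))))) (T.h (P (nat_lit 0)) (T.h (T.h (P (nat_lit 0)) (T.h (M (nat_lit 153691193197182582783)) (T.h (P (nat_lit 0)) (P (nat_lit 40199411623104))))) (T.h (P (nat_lit 0)) (T.h (T.h (P (nat_lit 0)) (M (nat_lit 50090625483519))) (P (nat_lit 0))))))) (T.h (T.h (P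 (nat_lit 0)) (T.h (T.h (P (nat_lit 102376935112423459782656)) (T.h (P (nat_lit 0)) (M (nat_lit 219915359221579775)))) (T.h (P (nat_lit 0)) (P (nat_lit 583663088441327616))))) (T.h (T.h (T.h (P (nat_lit 0)) (T.h (M (nat_lit 21689621509727846399)) (T.h (P (nat_lit 0)) (P (nat_lit 17904918011520))))) (T.h (P (nat_lit 0)) (T.h (T.h (P (nat_lit 0)) (P (nat_lit 114302531773696))) (P (nat_lit 0))))) (T.h (T.h (P (nat_lit 0)) (M (nat_lit 90922673937416191))) (T.h (T.h (T.h (P (nat_lit 0)) (M (nat_lit 30960665769471))) (P (nat_lit 0))) (P (nat_lit 0)))))))), (T.h (T.h (P (nat_lit 0)) (T.h (T.h (P (nat_lit 0)) (T.h (P (nat_lit 3351747234530990319730688)) (T.h (P (nat_lit 0)) (T.h (P (nat_lit 297505605466797899776)) (T.h (P (nat_lit 0)) (M (nat_lit 59828803719263))))))) (T.h (P (nat_lit 0)) (T.h (T.h (P (nat_lit 0)) (T.h (M (nat_lit 115670365913472827391)) (T.h (P (nat_lit 0)) (P (nat_lit 79993172440224))))) (T.h (P (nat_lit 0)) (T.h (T.h (P (nat_lit 0)) (P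 (nat_lit 8562378236832))) (P (nat_lit 0)))))))) (T.h (T.h (T.h (M (nat_lit 42505286476555310707194724351)) (T.h (P (nat_lit 0)) (T.h (P (nat_lit 31378407630487934730240)) (T.h (P (nat_lit 0)) (M (nat_lit 4663950362312703)))))) (T.h (P (nat_lit 0)) (T.h (T.h (M (nat_lit 176837335865706632183807)) (T.h (P (nat_lit 0)) (M (nat_lit 155170297518686207)))) (T.h (P (nat_lit 0)) (M (nat_lit 199091536319299583)))))) (T.h (T.h (P (nat_lit 0)) (T.h (T.h (P (nat_lit 0)) (T.h (M (nat_lit 68235848904299511807)) (T.h (P (nat_lit 0)) (M (nat_lit 105852932695583))))) (T.h (P (nat_lit 0)) (T.h (T.h (P (nat_lit 0)) (M (nat_lit 187314034551551))) (P (nat_lit 0)))))) (T.h (T.h (T.h (P (nat_lit 13736814429644959776768)) (T.h (P (nat_lit 0)) (P (nat_lit 133013457014423552)))) (T.h (P (nat_lit 0)) (M (nat_lit 157327565251870719)))) (T.h (T.h (P (nat_lit 0)) (T.h (T.h (P (nat_lit 0)) (M (nat_lit 493402670761247))) (P (nat_lit 0)))) (M (nat_lit 346456592703291391))))))),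 (T.h (T.h (P (nat_lit 0)) (T.h (T.h (P (nat_lit 8678397838319954379703058432)) (T.h (P (nat_lit 0)) (T.h (M (nat_lit 341199079021657320325119)) (T.h (P (nat_lit 0)) (P (nat_lit 129826036928675840)))))) (T.h (P (nat_lit 0)) (T.h (T.h (P (nat_lit 74394072377337271287808)) (T.h (P (nat_lit 0)) (P (nat_lit 62581864780890112)))) (T.h (P (nat_lit 0)) (M (nat_lit 139219386486030335))))))) (T.h (T.h (T.h (P (nat_lit 0)) (T.h (M (nat_lit 96179261992023780361240575)) (T.h (P (nat_lit 0)) (M (nat_lit 217121808635813429247))))) (T.h (P (nat_lit 0)) (T.h (T.h (P (nat_lit 0)) (M (nat_lit 53604245851376451583))) (P (nat_lit 0))))) (T.h (T.h (P (nat_lit 0)) (T.h (T.h (P (nat_lit 378592996281651543670784)) (T.h (P (nat_lit 0)) (P (nat_lit 589473878395617280)))) (T.h (P (nat_lit 0)) (P (nat_lit 66756519374815232))))) (T.h (T.h (T.h (P (nat_lit 0)) (P (nat_lit 6753330301906190336))) (P (nat_lit 0))) (T.h (T.h (P (nat_lit 0)) (M (nat_lit 208185981911433215))) (P (nat_lit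 0))))))), (P (nat_lit 0)), (P (nat_lit 0))]
def lQm_30 : List (T ℤ) := [(T.h (T.h (T.h (P (nat_lit 2123357838476180763854191460352)) (T.h (P (nat_lit 0)) (T.h (M (nat_lit 3569970915382682005274623)) (T.h (P (nat_lit 0)) (T.h (P (nat_lit 10733473574665846784)) (T.h (P (nat_lit 0)) (M (nat_lit 2380305145823)))))))) (T.h (P (nat_lit 0)) (T.h (T.h (M (nat_lit 22516782888906730065887231)) (T.h (P (nat_lit 0)) (T.h (P (nat_lit 10043804351757025280)) (T.h (P (nat_lit 0)) (P (nat_lit 51762713890032)))))) (T.h (P (nat_lit 0)) (T.h (T.h (M (nat_lit 104061882536860581887)) (T.h (P (nat_lit 0)) (P (nat_lit 41722221577392)))) (T.h (P (nat_lit 0)) (M (nat_lit 123801535670687)))))))) (T.h (T.h (P (nat_lit 0)) (T.h (T.h (P (nat_lit 0)) (T.h (M (nat_lit 117849340262303427198975)) (T.h (P (nat_lit 0)) (P (nat_lit 98096991864422400))))) (T.h (P (nat_lit 0)) (T.h (T.h (P (nat_lit 0)) (M (nat_lit 269575616239108095))) (P (nat_lit 0)))))) (T.h (T.h (T.h (M (nat_lit 22516782888906730065887231))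 (T.h (P (nat_lit 0)) (T.h (P (nat_lit 10043804351757025280)) (T.h (P (nat_lit 0)) (P (nat_lit 51762713890032)))))) (T.h (P (nat_lit 0)) (T.h (T.h (M (nat_lit 524537083175312031743)) (T.h (P (nat_lit 0)) (P (nat_lit 330438239353728)))) (T.h (P (nat_lit 0)) (P (nat_lit 8403018471936)))))) (T.h (T.h (P (nat_lit 0)) (T.h (T.h (P (nat_lit 0)) (M (nat_lit 269575616239108095))) (P (nat_lit 0)))) (T.h (T.h (T.h (M (nat_lit 104061882536860581887)) (T.h (P (nat_lit 0)) (P (nat_lit 41722221577392)))) (T.h (P (nat_lit 0)) (P (nat_lit 8403018471936)))) (T.h (P (nat_lit 0)) (M (nat_lit 123801535670687)))))))), (T.h (T.h (T.h (P (nat_lit 0)) (T.h (M (nat_lit 23982801289164216537089835007)) (T.h (P (nat_lit 0)) (T.h (M (nat_lit 40637152726621985177599)) (T.h (P (nat_lit 0)) (P (nat_lit 30478663296221184))))))) (T.h (P (nat_lit 0)) (T.h (T.h (P (nat_lit 0)) (T.h (M (nat_lit 103457444550888944304127)) (T.h (P (nat_lit 0)) (M (nat_lit 77636821944369151))))) (T.h (P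 (nat_lit 0)) (T.h (T.h (P (nat_lit 0)) (P (nat_lit 83546188554764288))) (P (nat_lit 0))))))) (T.h (T.h (P (nat_lit 0)) (T.h (T.h (P (nat_lit 82022475448791551103205376)) (T.h (P (nat_lit 0)) (P (nat_lit 145578080354680438784)))) (T.h (P (nat_lit 0)) (P (nat_lit 285002259208458993664))))) (T.h (T.h (T.h (P (nat_lit 0)) (T.h (M (nat_lit 103457444550888944304127)) (T.h (P (nat_lit 0)) (M (nat_lit 77636821944369151))))) (T.h (P (nat_lit 0)) (T.h (T.h (P (nat_lit 0)) (P (nat_lit 105359980908511232))) (P (nat_lit 0))))) (T.h (T.h (P (nat_lit 0)) (P (nat_lit 285002259208458993664))) (T.h (T.h (T.h (P (nat_lit 0)) (P (nat_lit 83546188554764288))) (P (nat_lit 0))) (P (nat_lit 0))))))), (P (nat_lit 0)), (P (nat_lit 0)), (T.h (T.h (P (nat_lit 0)) (T.h (T.h (P (nat_lit 4622686116289818125836222464)) (T.h (P (nat_lit 0)) (T.h (P (nat_lit 5038203398620824207360)) (T.h (P (nat_lit 0)) (P (nat_lit 30035550910087168)))))) (T.h (P (nat_lit 0)) (T.h (T.h (P (nat_lit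 67326681209505262338048)) (T.h (P (nat_lit 0)) (M (nat_lit 12566762318135295)))) (T.h (P (nat_lit 0)) (P (nat_lit 73889396061962240))))))) (T.h (T.h (T.h (P (nat_lit 0)) (T.h (P (nat_lit 32368617483080180722302976)) (T.h (P (nat_lit 0)) (M (nat_lit 30422275876538286079))))) (T.h (P (nat_lit 0)) (T.h (T.h (P (nat_lit 0)) (P (nat_lit 210714216620942688256))) (P (nat_lit 0))))) (T.h (T.h (P (nat_lit 0)) (T.h (T.h (P (nat_lit 210632273554275901112320)) (T.h (P (nat_lit 0)) (M (nat_lit 257875223365943295)))) (T.h (P (nat_lit 0)) (M (nat_lit 251305719263821823))))) (T.h (T.h (T.h (P (nat_lit 0)) (P (nat_lit 70812932436679196672))) (P (nat_lit 0))) (T.h (T.h (P (nat_lit 0)) (P (nat_lit 170806740523974656))) (P (nat_lit 0))))))), (P (nat_lit 0)), (P (nat_lit 0)), (P (nat_lit 0))]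
def lQm_31 : List (T ℤ) := [(P (nat_lit 0)), (P (nat_lit 0)), (T.h (T.h (P (nat_lit 0)) (T.h (T.h (P (nat_lit 0)) (T.h (M (nat_lit 2802841087763088546988031)) (T.h (P (nat_lit 0)) (T.h (M (nat_lit 1002591225452167167)) (T.h (P (nat_lit 0)) (M (nat_lit 1007079246327))))))) (T.h (P (nat_lit 0)) (T.h (T.h (P (nat_lit 0)) (T.h (M (nat_lit 1002591225452167167)) (T.h (P (nat_lit 0)) (M (nat_lit 48440508655))))) (T.h (P (nat_lit 0)) (T.h (T.h (P (nat_lit 0)) (M (nat_lit 1007079246327))) (P (nat_lit 0)))))))) (T.h (T.h (T.h (P (nat_lit 3839514313513014043615428608)) (T.h (P (nat_lit 0)) (T.h (M (nat_lit 1686860910799498510335)) (T.h (P (nat_lit 0)) (P (nat_lit 1885774712307712)))))) (T.h (P (nat_lit 0)) (T.h (T.h (M (nat_lit 1686860910799498510335)) (T.h (P (nat_lit 0)) (M (nat_lit 9154749834854399)))) (T.h (P (nat_lit 0)) (P (nat_lit 1885774712307712)))))) (T.h (T.h (P (nat_lit 0)) (T.h (T.h (P (nat_lit 0)) (T.h (P (nat_lit 15043258930488672256)) (T.h (P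 (nat_lit 0)) (P (nat_lit 6893533280160))))) (T.h (P (nat_lit 0)) (T.h (T.h (P (nat_lit 0)) (P (nat_lit 6893533280160))) (P (nat_lit 0)))))) (T.h (T.h (T.h (M (nat_lit 3646535431745731297279)) (T.h (P (nat_lit 0)) (P (nat_lit 4778343383728128)))) (T.h (P (nat_lit 0)) (P (nat_lit 4778343383728128)))) (T.h (T.h (P (nat_lit 0)) (T.h (T.h (P (nat_lit 0)) (P (nat_lit 90631147302592))) (P (nat_lit 0)))) (P (nat_lit 137409198948352))))))), (T.h (T.h (P (nat_lit 0)) (T.h (T.h (M (nat_lit 8791771181520521901880901631)) (T.h (P (nat_lit 0)) (T.h (P (nat_lit 9840168828146097848320)) (T.h (P (nat_lit 0)) (P (nat_lit 28202771527335936)))))) (T.h (P (nat_lit 0)) (T.h (T.h (P (nat_lit 1197127384719865937920)) (T.h (P (nat_lit 0)) (P (nat_lit 8554117372231680)))) (T.h (P (nat_lit 0)) (M (nat_lit 578348013797375))))))) (T.h (T.h (T.h (P (nat_lit 0)) (T.h (P (nat_lit 7108667783362390295314432)) (T.h (P (nat_lit 0)) (T.h (P (nat_lit 6429138738500075520)) (T.h (P (nat_lit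 0)) (M (nat_lit 2171138809055))))))) (T.h (P (nat_lit 0)) (T.h (T.h (P (nat_lit 0)) (T.h (M (nat_lit 6625341527327506431)) (T.h (P (nat_lit 0)) (P (nat_lit 7731991111936))))) (T.h (P (nat_lit 0)) (T.h (T.h (P (nat_lit 0)) (M (nat_lit 6391443606815))) (P (nat_lit 0))))))) (T.h (T.h (P (nat_lit 0)) (T.h (T.h (P (nat_lit 22020359117771091476480)) (T.h (P (nat_lit 0)) (P (nat_lit 38653626529546240)))) (T.h (P (nat_lit 0)) (M (nat_lit 644596779991039))))) (T.h (T.h (T.h (P (nat_lit 0)) (T.h (M (nat_lit 154584634236227026943)) (T.h (P (nat_lit 0)) (P (nat_lit 19834863972112))))) (T.h (P (nat_lit 0)) (T.h (T.h (P (nat_lit 0)) (P (nat_lit 19291176429520))) (P (nat_lit 0))))) (T.h (T.h (P (nat_lit 0)) (M (nat_lit 121640918615326719))) (T.h (T.h (T.h (P (nat_lit 0)) (M (nat_lit 335941989346463))) (P (nat_lit 0))) (P (nat_lit 0)))))))), (T.h (T.h (P (nat_lit 0)) (T.h (T.h (P (nat_lit 0)) (T.h (P (nat_lit 36565551147893332237090816)) (T.h (P (nat_lit 0)) (T.h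 (P (nat_lit 22323664257476984832)) (T.h (P (nat_lit 0)) (M (nat_lit 24139558673279))))))) (T.h (P (nat_lit 0)) (T.h (T.h (P (nat_lit 0)) (T.h (M (nat_lit 40838291985006591999)) (T.h (P (nat_lit 0)) (P (nat_lit 4242820383296))))) (T.h (P (nat_lit 0)) (T.h (T.h (P (nat_lit 0)) (P (nat_lit 2955205671168))) (P (nat_lit 0)))))))) (T.h (T.h (T.h (M (nat_lit 7964465409808473183024578559)) (T.h (P (nat_lit 0)) (T.h (P (nat_lit 135355189748246979280896)) (T.h (P (nat_lit 0)) (P (nat_lit 11688336278388736)))))) (T.h (P (nat_lit 0)) (T.h (T.h (P (nat_lit 23922005058509963526144)) (T.h (P (nat_lit 0)) (M (nat_lit 76855338413654015)))) (T.h (P (nat_lit 0)) (M (nat_lit 19433905954488319)))))) (T.h (T.h (P (nat_lit 0)) (T.h (T.h (P (nat_lit 0)) (T.h (P (nat_lit 136602560658321440768)) (T.h (P (nat_lit 0)) (P (nat_lit 66324274011008))))) (T.h (P (nat_lit 0)) (T.h (T.h (P (nat_lit 0)) (M (nat_lit 9075415495295))) (P (nat_lit 0)))))) (T.h (T.h (T.h (P (nat_lit 7119774854517733982208))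 (T.h (P (nat_lit 0)) (P (nat_lit 285802558304780288)))) (T.h (P (nat_lit 0)) (M (nat_lit 35586079954829311)))) (T.h (T.h (P (nat_lit 0)) (T.h (T.h (P (nat_lit 0)) (P (nat_lit 206420040118656))) (P (nat_lit 0)))) (P (nat_lit 148082487392174080))))))), (T.h (T.h (P (nat_lit 0)) (T.h (T.h (M (nat_lit 5651764205519451235941351423)) (T.h (P (nat_lit 0)) (T.h (P (nat_lit 5401474684980102692864)) (T.h (P (nat_lit 0)) (P (nat_lit 31510804217823232)))))) (T.h (P (nat_lit 0)) (T.h (T.h (P (nat_lit 2150413618614238183424)) (T.h (P (nat_lit 0)) (M (nat_lit 16334309095342079)))) (T.h (P (nat_lit 0)) (P (nat_lit 2760467853754368))))))) (T.h (T.h (T.h (P (nat_lit 0)) (T.h (P (nat_lit 3925105225115737463455744)) (T.h (P (nat_lit 0)) (T.h (M (nat_lit 70756264808229634047)) (T.h (P (nat_lit 0)) (M (nat_lit 153484319177423))))))) (T.h (P (nat_lit 0)) (T.h (T.h (P (nat_lit 0)) (T.h (P (nat_lit 29510078247831863296)) (T.h (P (nat_lit 0)) (P (nat_lit 157454749658304)))))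 (T.h (P (nat_lit 0)) (T.h (T.h (P (nat_lit 0)) (M (nat_lit 235517594865407))) (P (nat_lit 0))))))) (T.h (T.h (P (nat_lit 0)) (T.h (T.h (M (nat_lit 12670811359082753032191)) (T.h (P (nat_lit 0)) (M (nat_lit 208198211023503359)))) (T.h (P (nat_lit 0)) (M (nat_lit 39058420179075071))))) (T.h (T.h (T.h (P (nat_lit 0)) (T.h (P (nat_lit 339200111039458836480)) (T.h (P (nat_lit 0)) (P (nat_lit 356919587573616))))) (T.h (P (nat_lit 0)) (T.h (T.h (P (nat_lit 0)) (M (nat_lit 111663856591199))) (P (nat_lit 0))))) (T.h (T.h (P (nat_lit 0)) (P (nat_lit 201008201338093568))) (T.h (T.h (T.h (P (nat_lit 0)) (P (nat_lit 418099953986208))) (P (nat_lit 0))) (P (nat_lit 0)))))))), (T.h (T.h (P (nat_lit 0)) (T.h (T.h (P (nat_lit 0)) (T.h (P (nat_lit 32368617483080180722302976)) (T.h (P (nat_lit 0)) (P (nat_lit 70812932436679196672))))) (T.h (P (nat_lit 0)) (T.h (T.h (P (nat_lit 0)) (M (nat_lit 30422275876538286079))) (P (nat_lit 0)))))) (T.h (T.h (T.h (P (nat_lit 4622686116289818125836222464))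 (T.h (P (nat_lit 0)) (T.h (P (nat_lit 210632273554275901112320)) (T.h (P (nat_lit 0)) (P (nat_lit 170806740523974656)))))) (T.h (P (nat_lit 0)) (T.h (T.h (P (nat_lit 5038203398620824207360)) (T.h (P (nat_lit 0)) (M (nat_lit 257875223365943295)))) (T.h (P (nat_lit 0)) (P (nat_lit 30035550910087168)))))) (T.h (T.h (P (nat_lit 0)) (T.h (T.h (P (nat_lit 0)) (P (nat_lit 210714216620942688256))) (P (nat_lit 0)))) (T.h (T.h (T.h (P (nat_lit 67326681209505262338048)) (T.h (P (nat_lit 0)) (M (nat_lit 251305719263821823)))) (T.h (P (nat_lit 0)) (M (nat_lit 12566762318135295)))) (T.h (P (nat_lit 0)) (P (nat_lit 73889396061962240))))))), (P (nat_lit 0))]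
def lQm_32 : List (T ℤ) := [(P (nat_lit 0)), (T.h (T.h (T.h (P (nat_lit 0)) (T.h (M (nat_lit 8791771181520521901880901631)) (T.h (P (nat_lit 0)) (T.h (P (nat_lit 1197127384719865937920)) (T.h (P (nat_lit 0)) (M (nat_lit 578348013797375))))))) (T.h (P (nat_lit 0)) (T.h (T.h (P (nat_lit 0)) (T.h (P (nat_lit 9840168828146097848320)) (T.h (P (nat_lit 0)) (P (nat_lit 8554117372231680))))) (T.h (P (nat_lit 0)) (T.h (T.h (P (nat_lit 0)) (P (nat_lit 28202771527335936))) (P (nat_lit 0))))))) (T.h (T.h (P (nat_lit 0)) (T.h (T.h (P (nat_lit 7108667783362390295314432)) (T.h (P (nat_lit 0)) (T.h (M (nat_lit 6625341527327506431)) (T.h (P (nat_lit 0)) (M (nat_lit 6391443606815)))))) (T.h (P (nat_lit 0)) (T.h (T.h (P (nat_lit 6429138738500075520)) (T.h (P (nat_lit 0)) (P (nat_lit 7731991111936)))) (T.h (P (nat_lit 0)) (M (nat_lit 2171138809055))))))) (T.h (T.h (T.h (P (nat_lit 0)) (T.h (P (nat_lit 22020359117771091476480)) (T.h (P (nat_lit 0)) (M (nat_lit 644596779991039)))))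 (T.h (P (nat_lit 0)) (T.h (T.h (P (nat_lit 0)) (P (nat_lit 38653626529546240))) (P (nat_lit 0))))) (T.h (T.h (P (nat_lit 0)) (T.h (T.h (M (nat_lit 154584634236227026943)) (T.h (P (nat_lit 0)) (P (nat_lit 19291176429520)))) (T.h (P (nat_lit 0)) (P (nat_lit 19834863972112))))) (T.h (T.h (T.h (P (nat_lit 0)) (M (nat_lit 121640918615326719))) (P (nat_lit 0))) (T.h (T.h (P (nat_lit 0)) (M (nat_lit 335941989346463))) (P (nat_lit 0)))))))), (T.h (T.h (T.h (P (nat_lit 4053299408398625828304171565056)) (T.h (P (nat_lit 0)) (T.h (M (nat_lit 37067833921382269212164095)) (T.h (P (nat_lit 0)) (T.h (P (nat_lit 26991685552134160384)) (T.h (P (nat_lit 0)) (P (nat_lit 1696780565696)))))))) (T.h (P (nat_lit 0)) (T.h (T.h (M (nat_lit 37067833921382269212164095)) (T.h (P (nat_lit 0)) (T.h (M (nat_lit 1942421519468593151)) (T.h (P (nat_lit 0)) (P (nat_lit 72406491590656)))))) (T.h (P (nat_lit 0)) (T.h (T.h (P (nat_lit 26991685552134160384)) (T.h (P (nat_lit 0)) (P (nat_lit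 72406491590656)))) (T.h (P (nat_lit 0)) (P (nat_lit 1696780565696)))))))) (T.h (T.h (P (nat_lit 0)) (T.h (T.h (P (nat_lit 0)) (T.h (M (nat_lit 209353643504278819569663)) (T.h (P (nat_lit 0)) (M (nat_lit 71074067616169983))))) (T.h (P (nat_lit 0)) (T.h (T.h (P (nat_lit 0)) (M (nat_lit 71074067616169983))) (P (nat_lit 0)))))) (T.h (T.h (T.h (P (nat_lit 53056676337520515854893056)) (T.h (P (nat_lit 0)) (T.h (M (nat_lit 155293772802848456703)) (T.h (P (nat_lit 0)) (P (nat_lit 142366674810752)))))) (T.h (P (nat_lit 0)) (T.h (T.h (M (nat_lit 155293772802848456703)) (T.h (P (nat_lit 0)) (P (nat_lit 69316201926784)))) (T.h (P (nat_lit 0)) (P (nat_lit 142366674810752)))))) (T.h (T.h (P (nat_lit 0)) (T.h (T.h (P (nat_lit 0)) (M (nat_lit 549401801988898815))) (P (nat_lit 0)))) (T.h (T.h (T.h (M (nat_lit 397972496668277342207)) (T.h (P (nat_lit 0)) (M (nat_lit 115538776660863)))) (T.h (P (nat_lit 0)) (M (nat_lit 115538776660863)))) (T.h (P (nat_lit 0)) (M (nat_lit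 7636622023423)))))))), (T.h (T.h (T.h (P (nat_lit 0)) (T.h (M (nat_lit 19749972867985824880883924991)) (T.h (P (nat_lit 0)) (T.h (M (nat_lit 3964513970473056337919)) (T.h (P (nat_lit 0)) (P (nat_lit 22758469681364992))))))) (T.h (P (nat_lit 0)) (T.h (T.h (P (nat_lit 0)) (T.h (M (nat_lit 48149716623839597690879)) (T.h (P (nat_lit 0)) (M (nat_lit 65492402368675839))))) (T.h (P (nat_lit 0)) (T.h (T.h (P (nat_lit 0)) (M (nat_lit 90597181508173823))) (P (nat_lit 0))))))) (T.h (T.h (P (nat_lit 0)) (T.h (T.h (P (nat_lit 125077768936907594421764096)) (T.h (P (nat_lit 0)) (T.h (P (nat_lit 320132666256611344384)) (T.h (P (nat_lit 0)) (M (nat_lit 212902374284207)))))) (T.h (P (nat_lit 0)) (T.h (T.h (M (nat_lit 278499119748561764351)) (T.h (P (nat_lit 0)) (P (nat_lit 135400654107216)))) (T.h (P (nat_lit 0)) (P (nat_lit 6090557697360))))))) (T.h (T.h (T.h (P (nat_lit 0)) (T.h (P (nat_lit 85813189506337280622592)) (T.h (P (nat_lit 0)) (M (nat_lit 771701867331026943)))))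 (T.h (P (nat_lit 0)) (T.h (T.h (P (nat_lit 0)) (M (nat_lit 206162730796777471))) (P (nat_lit 0))))) (T.h (T.h (P (nat_lit 0)) (T.h (T.h (M (nat_lit 345759542040470749183)) (T.h (P (nat_lit 0)) (P (nat_lit 480696106885200)))) (T.h (P (nat_lit 0)) (M (nat_lit 40308873541055))))) (T.h (T.h (T.h (P (nat_lit 0)) (P (nat_lit 99857125569953792))) (P (nat_lit 0))) (T.h (T.h (P (nat_lit 0)) (P (nat_lit 88368910367184))) (P (nat_lit 0)))))))), (T.h (T.h (T.h (P (nat_lit 6956814252741079948443380613120)) (T.h (P (nat_lit 0)) (T.h (P (nat_lit 12512308161857980632924160)) (T.h (P (nat_lit 0)) (P (nat_lit 31284549361191616512)))))) (T.h (P (nat_lit 0)) (T.h (T.h (P (nat_lit 9834762153925330696404992)) (T.h (P (nat_lit 0)) (P (nat_lit 89162961353009266688)))) (T.h (P (nat_lit 0)) (M (nat_lit 907467354663813119)))))) (T.h (T.h (P (nat_lit 0)) (T.h (T.h (P (nat_lit 0)) (T.h (M (nat_lit 245888729080067128295423)) (T.h (P (nat_lit 0)) (P (nat_lit 207377764562108416)))))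 (T.h (P (nat_lit 0)) (T.h (T.h (P (nat_lit 0)) (P (nat_lit 200925852248375296))) (P (nat_lit 0)))))) (T.h (T.h (T.h (P (nat_lit 7835852522007655234928640)) (T.h (P (nat_lit 0)) (P (nat_lit 696574428408140791808)))) (T.h (P (nat_lit 0)) (M (nat_lit 83243563760396271615)))) (T.h (T.h (P (nat_lit 0)) (T.h (T.h (P (nat_lit 0)) (P (nat_lit 281155397963546624))) (P (nat_lit 0)))) (P (nat_lit 190603457277588406272)))))), (P (nat_lit 0)), (P (nat_lit 0)), (T.h (T.h (P (nat_lit 0)) (T.h (T.h (P (nat_lit 0)) (T.h (P (nat_lit 36565551147893332237090816)) (T.h (P (nat_lit 0)) (T.h (M (nat_lit 40838291985006591999)) (T.h (P (nat_lit 0)) (P (nat_lit 2955205671168))))))) (T.h (P (nat_lit 0)) (T.h (T.h (P (nat_lit 0)) (T.h (P (nat_lit 22323664257476984832)) (T.h (P (nat_lit 0)) (P (nat_lit 4242820383296))))) (T.h (P (nat_lit 0)) (T.h (T.h (P (nat_lit 0)) (M (nat_lit 24139558673279))) (P (nat_lit 0)))))))) (T.h (T.h (T.h (M (nat_lit 7964465409808473183024578559))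 (T.h (P (nat_lit 0)) (T.h (P (nat_lit 23922005058509963526144)) (T.h (P (nat_lit 0)) (M (nat_lit 19433905954488319)))))) (T.h (P (nat_lit 0)) (T.h (T.h (P (nat_lit 135355189748246979280896)) (T.h (P (nat_lit 0)) (M (nat_lit 76855338413654015)))) (T.h (P (nat_lit 0)) (P (nat_lit 11688336278388736)))))) (T.h (T.h (P (nat_lit 0)) (T.h (T.h (P (nat_lit 0)) (T.h (P (nat_lit 136602560658321440768)) (T.h (P (nat_lit 0)) (M (nat_lit 9075415495295))))) (T.h (P (nat_lit 0)) (T.h (T.h (P (nat_lit 0)) (P (nat_lit 66324274011008))) (P (nat_lit 0)))))) (T.h (T.h (T.h (P (nat_lit 7119774854517733982208)) (T.h (P (nat_lit 0)) (M (nat_lit 35586079954829311)))) (T.h (P (nat_lit 0)) (P (nat_lit 285802558304780288)))) (T.h (T.h (P (nat_lit 0)) (T.h (T.h (P (nat_lit 0)) (P (nat_lit 206420040118656))) (P (nat_lit 0)))) (P (nat_lit 148082487392174080)))))))]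
def lQm_33 : List (T ℤ) := [(T.h (T.h (P (nat_lit 0)) (T.h (T.h (M (nat_lit 19749972867985824880883924991)) (T.h (P (nat_lit 0)) (T.h (M (nat_lit 48149716623839597690879)) (T.h (P (nat_lit 0)) (M (nat_lit 90597181508173823)))))) (T.h (P (nat_lit 0)) (T.h (T.h (M (nat_lit 3964513970473056337919)) (T.h (P (nat_lit 0)) (M (nat_lit 65492402368675839)))) (T.h (P (nat_lit 0)) (P (nat_lit 22758469681364992))))))) (T.h (T.h (T.h (P (nat_lit 0)) (T.h (P (nat_lit 125077768936907594421764096)) (T.h (P (nat_lit 0)) (T.h (M (nat_lit 278499119748561764351)) (T.h (P (nat_lit 0)) (P (nat_lit 6090557697360))))))) (T.h (P (nat_lit 0)) (T.h (T.h (P (nat_lit 0)) (T.h (P (nat_lit 320132666256611344384)) (T.h (P (nat_lit 0)) (P (nat_lit 135400654107216))))) (T.h (P (nat_lit 0)) (T.h (T.h (P (nat_lit 0)) (M (nat_lit 212902374284207))) (P (nat_lit 0))))))) (T.h (T.h (P (nat_lit 0)) (T.h (T.h (P (nat_lit 85813189506337280622592)) (T.h (P (nat_lit 0)) (M (nat_lit 206162730796777471))))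 (T.h (P (nat_lit 0)) (M (nat_lit 771701867331026943))))) (T.h (T.h (T.h (P (nat_lit 0)) (T.h (M (nat_lit 345759542040470749183)) (T.h (P (nat_lit 0)) (M (nat_lit 40308873541055))))) (T.h (P (nat_lit 0)) (T.h (T.h (P (nat_lit 0)) (P (nat_lit 480696106885200))) (P (nat_lit 0))))) (T.h (T.h (P (nat_lit 0)) (P (nat_lit 99857125569953792))) (T.h (T.h (T.h (P (nat_lit 0)) (P (nat_lit 88368910367184))) (P (nat_lit 0))) (P (nat_lit 0)))))))), (T.h (T.h (P (nat_lit 0)) (T.h (T.h (P (nat_lit 0)) (T.h (P (nat_lit 39688469449529713359847424)) (T.h (P (nat_lit 0)) (M (nat_lit 59325890128280289279))))) (T.h (P (nat_lit 0)) (T.h (T.h (P (nat_lit 0)) (M (nat_lit 59325890128280289279))) (P (nat_lit 0)))))) (T.h (T.h (T.h (M (nat_lit 4579424526163621342888329215)) (T.h (P (nat_lit 0)) (T.h (P (nat_lit 248937398817884102197248)) (T.h (P (nat_lit 0)) (P (nat_lit 19598115853172736)))))) (T.h (P (nat_lit 0)) (T.h (T.h (P (nat_lit 248937398817884102197248)) (T.h (P (nat_lit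 0)) (M (nat_lit 248589297153277951)))) (T.h (P (nat_lit 0)) (P (nat_lit 19598115853172736)))))) (T.h (T.h (P (nat_lit 0)) (T.h (T.h (P (nat_lit 0)) (P (nat_lit 34670609189121818624))) (P (nat_lit 0)))) (T.h (T.h (T.h (M (nat_lit 85697005781413963759615)) (T.h (P (nat_lit 0)) (P (nat_lit 45596862977114112)))) (T.h (P (nat_lit 0)) (P (nat_lit 45596862977114112)))) (T.h (P (nat_lit 0)) (M (nat_lit 497699913998991359))))))), (P (nat_lit 0)), (P (nat_lit 0)), (T.h (T.h (T.h (P (nat_lit 0)) (T.h (M (nat_lit 5651764205519451235941351423)) (T.h (P (nat_lit 0)) (T.h (P (nat_lit 2150413618614238183424)) (T.h (P (nat_lit 0)) (P (nat_lit 2760467853754368))))))) (T.h (P (nat_lit 0)) (T.h (T.h (P (nat_lit 0)) (T.h (P (nat_lit 5401474684980102692864)) (T.h (P (nat_lit 0)) (M (nat_lit 16334309095342079))))) (T.h (P (nat_lit 0)) (T.h (T.h (P (nat_lit 0)) (P (nat_lit 31510804217823232))) (P (nat_lit 0))))))) (T.h (T.h (P (nat_lit 0)) (T.h (T.h (P (nat_lit 3925105225115737463455744))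 (T.h (P (nat_lit 0)) (T.h (P (nat_lit 29510078247831863296)) (T.h (P (nat_lit 0)) (M (nat_lit 235517594865407)))))) (T.h (P (nat_lit 0)) (T.h (T.h (M (nat_lit 70756264808229634047)) (T.h (P (nat_lit 0)) (P (nat_lit 157454749658304)))) (T.h (P (nat_lit 0)) (M (nat_lit 153484319177423))))))) (T.h (T.h (T.h (P (nat_lit 0)) (T.h (M (nat_lit 12670811359082753032191)) (T.h (P (nat_lit 0)) (M (nat_lit 39058420179075071))))) (T.h (P (nat_lit 0)) (T.h (T.h (P (nat_lit 0)) (M (nat_lit 208198211023503359))) (P (nat_lit 0))))) (T.h (T.h (P (nat_lit 0)) (T.h (T.h (P (nat_lit 339200111039458836480)) (T.h (P (nat_lit 0)) (M (nat_lit 111663856591199)))) (T.h (P (nat_lit 0)) (P (nat_lit 356919587573616))))) (T.h (T.h (T.h (P (nat_lit 0)) (P (nat_lit 201008201338093568))) (P (nat_lit 0))) (T.h (T.h (P (nat_lit 0)) (P (nat_lit 418099953986208))) (P (nat_lit 0)))))))), (T.h (T.h (T.h (P (nat_lit 6956814252741079948443380613120)) (T.h (P (nat_lit 0)) (T.h (P (nat_lit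 9834762153925330696404992)) (T.h (P (nat_lit 0)) (M (nat_lit 907467354663813119)))))) (T.h (P (nat_lit 0)) (T.h (T.h (P (nat_lit 12512308161857980632924160)) (T.h (P (nat_lit 0)) (P (nat_lit 89162961353009266688)))) (T.h (P (nat_lit 0)) (P (nat_lit 31284549361191616512)))))) (T.h (T.h (P (nat_lit 0)) (T.h (T.h (P (nat_lit 0)) (T.h (M (nat_lit 245888729080067128295423)) (T.h (P (nat_lit 0)) (P (nat_lit 200925852248375296))))) (T.h (P (nat_lit 0)) (T.h (T.h (P (nat_lit 0)) (P (nat_lit 207377764562108416))) (P (nat_lit 0)))))) (T.h (T.h (T.h (P (nat_lit 7835852522007655234928640)) (T.h (P (nat_lit 0)) (M (nat_lit 83243563760396271615)))) (T.h (P (nat_lit 0)) (P (nat_lit 696574428408140791808)))) (T.h (T.h (P (nat_lit 0)) (T.h (T.h (P (nat_lit 0)) (P (nat_lit 281155397963546624))) (P (nat_lit 0)))) (P (nat_lit 190603457277588406272)))))), (P (nat_lit 0)), (P (nat_lit 0))]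
def lQm_34 : List (T ℤ) := [(T.h (T.h (P (nat_lit 0)) (T.h (T.h (P (nat_lit 0)) (T.h (P (nat_lit 32368617483080180722302976)) (T.h (P (nat_lit 0)) (M (nat_lit 30422275876538286079))))) (T.h (P (nat_lit 0)) (T.h (T.h (P (nat_lit 0)) (P (nat_lit 70812932436679196672))) (P (nat_lit 0)))))) (T.h (T.h (T.h (P (nat_lit 4622686116289818125836222464)) (T.h (P (nat_lit 0)) (T.h (P (nat_lit 5038203398620824207360)) (T.h (P (nat_lit 0)) (P (nat_lit 30035550910087168)))))) (T.h (P (nat_lit 0)) (T.h (T.h (P (nat_lit 210632273554275901112320)) (T.h (P (nat_lit 0)) (M (nat_lit 257875223365943295)))) (T.h (P (nat_lit 0)) (P (nat_lit 170806740523974656)))))) (T.h (T.h (P (nat_lit 0)) (T.h (T.h (P (nat_lit 0)) (P (nat_lit 210714216620942688256))) (P (nat_lit 0)))) (T.h (T.h (T.h (P (nat_lit 67326681209505262338048)) (T.h (P (nat_lit 0)) (M (nat_lit 12566762318135295)))) (T.h (P (nat_lit 0)) (M (nat_lit 251305719263821823)))) (T.h (P (nat_lit 0)) (P (nat_lit 73889396061962240))))))),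 (P (nat_lit 0)), (P (nat_lit 0)), (P (nat_lit 0)), (P (nat_lit 0)), (P (nat_lit 0)), (T.h (T.h (T.h (M (nat_lit 7433080326342683754766599716863)) (T.h (P (nat_lit 0)) (T.h (P (nat_lit 3778435464726847852380160)) (T.h (P (nat_lit 0)) (T.h (P (nat_lit 775294767817818112)) (T.h (P (nat_lit 0)) (M (nat_lit 394146612063)))))))) (T.h (P (nat_lit 0)) (T.h (T.h (P (nat_lit 3778435464726847852380160)) (T.h (P (nat_lit 0)) (T.h (M (nat_lit 2350797395471630335)) (T.h (P (nat_lit 0)) (M (nat_lit 1928525502543)))))) (T.h (P (nat_lit 0)) (T.h (T.h (P (nat_lit 775294767817818112)) (T.h (P (nat_lit 0)) (M (nat_lit 1928525502543)))) (T.h (P (nat_lit 0)) (M (nat_lit 394146612063)))))))) (T.h (T.h (P (nat_lit 0)) (T.h (T.h (P (nat_lit 0)) (T.h (M (nat_lit 10073615372514213494783)) (T.h (P (nat_lit 0)) (P (nat_lit 11749017991118848))))) (T.h (P (nat_lit 0)) (T.h (T.h (P (nat_lit 0)) (P (nat_lit 11749017991118848))) (P (nat_lit 0)))))) (T.h (T.h (T.h (M (nat_lit 10067385610448579600580607))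 (T.h (P (nat_lit 0)) (T.h (M (nat_lit 26327728948397473791)) (T.h (P (nat_lit 0)) (M (nat_lit 12025278876719)))))) (T.h (P (nat_lit 0)) (T.h (T.h (M (nat_lit 26327728948397473791)) (T.h (P (nat_lit 0)) (M (nat_lit 46369747134399)))) (T.h (P (nat_lit 0)) (M (nat_lit 12025278876719)))))) (T.h (T.h (P (nat_lit 0)) (T.h (T.h (P (nat_lit 0)) (M (nat_lit 153757479444742143))) (P (nat_lit 0)))) (T.h (T.h (T.h (P (nat_lit 4366090264486346752)) (T.h (P (nat_lit 0)) (M (nat_lit 6531616341807)))) (T.h (P (nat_lit 0)) (M (nat_lit 6531616341807)))) (T.h (P (nat_lit 0)) (P (nat_lit 10239292669440)))))))), (T.h (T.h (T.h (P (nat_lit 0)) (T.h (P (nat_lit 6839413366052023076718116864)) (T.h (P (nat_lit 0)) (T.h (P (nat_lit 12737252216992320978944)) (T.h (P (nat_lit 0)) (M (nat_lit 17277707598233599))))))) (T.h (P (nat_lit 0)) (T.h (T.h (P (nat_lit 0)) (T.h (M (nat_lit 84204815432911159295)) (T.h (P (nat_lit 0)) (M (nat_lit 10516355926327295))))) (T.h (P (nat_lit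 0)) (T.h (T.h (P (nat_lit 0)) (P (nat_lit 24592959480430592))) (P (nat_lit 0))))))) (T.h (T.h (P (nat_lit 0)) (T.h (T.h (M (nat_lit 5168368424837279068979199)) (T.h (P (nat_lit 0)) (T.h (P (nat_lit 8926032916207632384)) (T.h (P (nat_lit 0)) (P (nat_lit 7728486802624)))))) (T.h (P (nat_lit 0)) (T.h (T.h (P (nat_lit 23742450305689714688)) (T.h (P (nat_lit 0)) (P (nat_lit 24569655262336)))) (T.h (P (nat_lit 0)) (M (nat_lit 2784107884415))))))) (T.h (T.h (T.h (P (nat_lit 0)) (T.h (P (nat_lit 24888676228541148299264)) (T.h (P (nat_lit 0)) (P (nat_lit 10511957737865216))))) (T.h (P (nat_lit 0)) (T.h (T.h (P (nat_lit 0)) (M (nat_lit 103386342155976703))) (P (nat_lit 0))))) (T.h (T.h (P (nat_lit 0)) (T.h (T.h (P (nat_lit 157094665944054104064)) (T.h (P (nat_lit 0)) (P (nat_lit 41957170643904)))) (T.h (P (nat_lit 0)) (M (nat_lit 17796002755583))))) (T.h (T.h (T.h (P (nat_lit 0)) (P (nat_lit 395879561561014272))) (P (nat_lit 0))) (T.h (T.h (P (nat_lit 0))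 (P (nat_lit 131752181722496))) (P (nat_lit 0))))))))]
def lQm_35 : List (T ℤ) := [(T.h (T.h (T.h (M (nat_lit 6550205974850090925245048291327)) (T.h (P (nat_lit 0)) (T.h (P (nat_lit 24644433191013854713217024)) (T.h (P (nat_lit 0)) (T.h (P (nat_lit 12995145507583033344)) (T.h (P (nat_lit 0)) (M (nat_lit 12383001643247)))))))) (T.h (P (nat_lit 0)) (T.h (T.h (P (nat_lit 914669431254911916441600)) (T.h (P (nat_lit 0)) (T.h (P (nat_lit 16663814109501849600)) (T.h (P (nat_lit 0)) (P (nat_lit 3747522647088)))))) (T.h (P (nat_lit 0)) (T.h (T.h (M (nat_lit 10956550989288570879)) (T.h (P (nat_lit 0)) (M (nat_lit 40758030476063)))) (T.h (P (nat_lit 0)) (P (nat_lit 2262664312560)))))))) (T.h (T.h (P (nat_lit 0)) (T.h (T.h (P (nat_lit 0)) (T.h (P (nat_lit 9561867817973534687232)) (T.h (P (nat_lit 0)) (M (nat_lit 36175207789887487))))) (T.h (P (nat_lit 0)) (T.h (T.h (P (nat_lit 0)) (M (nat_lit 2980120280563711))) (P (nat_lit 0)))))) (T.h (T.h (T.h (M (nat_lit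 10820930293763412938719231)) (T.h (P (nat_lit 0)) (T.h (P (nat_lit 247730919216223617024)) (T.h (P (nat_lit 0)) (M (nat_lit 29246983189487)))))) (T.h (P (nat_lit 0)) (T.h (T.h (P (nat_lit 32321156511269126144)) (T.h (P (nat_lit 0)) (M (nat_lit 154284181097903)))) (T.h (P (nat_lit 0)) (M (nat_lit 40633845785423)))))) (T.h (T.h (P (nat_lit 0)) (T.h (T.h (P (nat_lit 0)) (M (nat_lit 202715487664177151))) (P (nat_lit 0)))) (T.h (T.h (T.h (P (nat_lit 10167124700157706240)) (T.h (P (nat_lit 0)) (P (nat_lit 135693679464000)))) (T.h (P (nat_lit 0)) (M (nat_lit 154054818207791)))) (T.h (P (nat_lit 0)) (M (nat_lit 1900902457007)))))))), (T.h (T.h (T.h (P (nat_lit 0)) (T.h (M (nat_lit 19010715559394962457480921087)) (T.h (P (nat_lit 0)) (T.h (P (nat_lit 17167194726438533070848)) (T.h (P (nat_lit 0)) (P (nat_lit 51833134429732864))))))) (T.h (P (nat_lit 0)) (T.h (T.h (P (nat_lit 0)) (T.h (M (nat_lit 4534848523537343315967)) (T.h (P (nat_lit 0)) (M (nat_lit 39240781425016831)))))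 (T.h (P (nat_lit 0)) (T.h (T.h (P (nat_lit 0)) (P (nat_lit 72142769679368192))) (P (nat_lit 0))))))) (T.h (T.h (P (nat_lit 0)) (T.h (T.h (M (nat_lit 11796831539250381828653055)) (T.h (P (nat_lit 0)) (P (nat_lit 27730665333827043328)))) (T.h (P (nat_lit 0)) (P (nat_lit 11447994264663883776))))) (T.h (T.h (T.h (P (nat_lit 0)) (T.h (M (nat_lit 337256168840861870718975)) (T.h (P (nat_lit 0)) (M (nat_lit 217035851084890111))))) (T.h (P (nat_lit 0)) (T.h (T.h (P (nat_lit 0)) (P (nat_lit 146445637852594176))) (P (nat_lit 0))))) (T.h (T.h (P (nat_lit 0)) (M (nat_lit 201848382004607844351))) (T.h (T.h (T.h (P (nat_lit 0)) (M (nat_lit 537460537767034879))) (P (nat_lit 0))) (P (nat_lit 0))))))), (P (nat_lit 0)), (P (nat_lit 0)), (T.h (T.h (P (nat_lit 0)) (T.h (T.h (P (nat_lit 6839413366052023076718116864)) (T.h (P (nat_lit 0)) (T.h (M (nat_lit 84204815432911159295)) (T.h (P (nat_lit 0)) (P (nat_lit 24592959480430592)))))) (T.h (P (nat_lit 0)) (T.h (T.h (P (nat_lit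 12737252216992320978944)) (T.h (P (nat_lit 0)) (M (nat_lit 10516355926327295)))) (T.h (P (nat_lit 0)) (M (nat_lit 17277707598233599))))))) (T.h (T.h (T.h (P (nat_lit 0)) (T.h (M (nat_lit 5168368424837279068979199)) (T.h (P (nat_lit 0)) (T.h (P (nat_lit 23742450305689714688)) (T.h (P (nat_lit 0)) (M (nat_lit 2784107884415))))))) (T.h (P (nat_lit 0)) (T.h (T.h (P (nat_lit 0)) (T.h (P (nat_lit 8926032916207632384)) (T.h (P (nat_lit 0)) (P (nat_lit 24569655262336))))) (T.h (P (nat_lit 0)) (T.h (T.h (P (nat_lit 0)) (P (nat_lit 7728486802624))) (P (nat_lit 0))))))) (T.h (T.h (P (nat_lit 0)) (T.h (T.h (P (nat_lit 24888676228541148299264)) (T.h (P (nat_lit 0)) (M (nat_lit 103386342155976703)))) (T.h (P (nat_lit 0)) (P (nat_lit 10511957737865216))))) (T.h (T.h (T.h (P (nat_lit 0)) (T.h (P (nat_lit 157094665944054104064)) (T.h (P (nat_lit 0)) (M (nat_lit 17796002755583))))) (T.h (P (nat_lit 0)) (T.h (T.h (P (nat_lit 0)) (P (nat_lit 41957170643904))) (P (nat_lit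 0))))) (T.h (T.h (P (nat_lit 0)) (P (nat_lit 395879561561014272))) (T.h (T.h (T.h (P (nat_lit 0)) (P (nat_lit 131752181722496))) (P (nat_lit 0))) (P (nat_lit 0)))))))), (T.h (T.h (P (nat_lit 0)) (T.h (T.h (P (nat_lit 0)) (T.h (P (nat_lit 25336504363163629171769344)) (T.h (P (nat_lit 0)) (T.h (M (nat_lit 26430034141272604671)) (T.h (P (nat_lit 0)) (P (nat_lit 25603466475168))))))) (T.h (P (nat_lit 0)) (T.h (T.h (P (nat_lit 0)) (T.h (M (nat_lit 26430034141272604671)) (T.h (P (nat_lit 0)) (M (nat_lit 85814251092287))))) (T.h (P (nat_lit 0)) (T.h (T.h (P (nat_lit 0)) (P (nat_lit 25603466475168))) (P (nat_lit 0)))))))) (T.h (T.h (T.h (M (nat_lit 36904605446670005767472414719)) (T.h (P (nat_lit 0)) (T.h (P (nat_lit 44894562570463755632640)) (T.h (P (nat_lit 0)) (M (nat_lit 62873358504771583)))))) (T.h (P (nat_lit 0)) (T.h (T.h (P (nat_lit 44894562570463755632640)) (T.h (P (nat_lit 0)) (P (nat_lit 54211224123867136)))) (T.h (P (nat_lit 0)) (M (nat_lit 62873358504771583))))))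 (T.h (T.h (P (nat_lit 0)) (T.h (T.h (P (nat_lit 0)) (T.h (P (nat_lit 485318653575390298112)) (T.h (P (nat_lit 0)) (P (nat_lit 71961381107280))))) (T.h (P (nat_lit 0)) (T.h (T.h (P (nat_lit 0)) (P (nat_lit 71961381107280))) (P (nat_lit 0)))))) (T.h (T.h (T.h (P (nat_lit 146104923396987861073920)) (T.h (P (nat_lit 0)) (P (nat_lit 257858353791778816)))) (T.h (P (nat_lit 0)) (P (nat_lit 257858353791778816)))) (T.h (T.h (P (nat_lit 0)) (T.h (T.h (P (nat_lit 0)) (P (nat_lit 354926245962528))) (P (nat_lit 0)))) (P (nat_lit 54833314301149184))))))), (T.h (T.h (P (nat_lit 0)) (T.h (T.h (M (nat_lit 2802544089202721518058995711)) (T.h (P (nat_lit 0)) (T.h (M (nat_lit 11334887043216479092735)) (T.h (P (nat_lit 0)) (P (nat_lit 17610523673985024)))))) (T.h (P (nat_lit 0)) (T.h (T.h (P (nat_lit 11706436078456893603840)) (T.h (P (nat_lit 0)) (P (nat_lit 64870222751039488)))) (T.h (P (nat_lit 0)) (M (nat_lit 10301442286452735))))))) (T.h (T.h (T.h (P (nat_lit 0))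 (T.h (P (nat_lit 15532778243652765473570816)) (T.h (P (nat_lit 0)) (P (nat_lit 372027013451330093056))))) (T.h (P (nat_lit 0)) (T.h (T.h (P (nat_lit 0)) (M (nat_lit 132783142035194380287))) (P (nat_lit 0))))) (T.h (T.h (P (nat_lit 0)) (T.h (T.h (P (nat_lit 219226733783414827122688)) (T.h (P (nat_lit 0)) (M (nat_lit 307064400049864703)))) (T.h (P (nat_lit 0)) (P (nat_lit 48128141689192448))))) (T.h (T.h (T.h (P (nat_lit 0)) (M (nat_lit 292461774379792990207))) (P (nat_lit 0))) (T.h (T.h (P (nat_lit 0)) (M (nat_lit 111197562056900607))) (P (nat_lit 0))))))), (P (nat_lit 0))]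
def lQm_36 : List (T ℤ) := [(P (nat_lit 0)), (T.h (T.h (T.h (M (nat_lit 6550205974850090925245048291327)) (T.h (P (nat_lit 0)) (T.h (P (nat_lit 914669431254911916441600)) (T.h (P (nat_lit 0)) (T.h (M (nat_lit 10956550989288570879)) (T.h (P (nat_lit 0)) (P (nat_lit 2262664312560)))))))) (T.h (P (nat_lit 0)) (T.h (T.h (P (nat_lit 24644433191013854713217024)) (T.h (P (nat_lit 0)) (T.h (P (nat_lit 16663814109501849600)) (T.h (P (nat_lit 0)) (M (nat_lit 40758030476063)))))) (T.h (P (nat_lit 0)) (T.h (T.h (P (nat_lit 12995145507583033344)) (T.h (P (nat_lit 0)) (P (nat_lit 3747522647088)))) (T.h (P (nat_lit 0)) (M (nat_lit 12383001643247)))))))) (T.h (T.h (P (nat_lit 0)) (T.h (T.h (P (nat_lit 0)) (T.h (P (nat_lit 9561867817973534687232)) (T.h (P (nat_lit 0)) (M (nat_lit 2980120280563711))))) (T.h (P (nat_lit 0)) (T.h (T.h (P (nat_lit 0)) (M (nat_lit 36175207789887487))) (P (nat_lit 0)))))) (T.h (T.h (T.h (M (nat_lit 10820930293763412938719231)) (T.h (P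 (nat_lit 0)) (T.h (P (nat_lit 32321156511269126144)) (T.h (P (nat_lit 0)) (M (nat_lit 40633845785423)))))) (T.h (P (nat_lit 0)) (T.h (T.h (P (nat_lit 247730919216223617024)) (T.h (P (nat_lit 0)) (M (nat_lit 154284181097903)))) (T.h (P (nat_lit 0)) (M (nat_lit 29246983189487)))))) (T.h (T.h (P (nat_lit 0)) (T.h (T.h (P (nat_lit 0)) (M (nat_lit 202715487664177151))) (P (nat_lit 0)))) (T.h (T.h (T.h (P (nat_lit 10167124700157706240)) (T.h (P (nat_lit 0)) (M (nat_lit 154054818207791)))) (T.h (P (nat_lit 0)) (P (nat_lit 135693679464000)))) (T.h (P (nat_lit 0)) (M (nat_lit 1900902457007)))))))), (T.h (T.h (T.h (P (nat_lit 0)) (T.h (M (nat_lit 2802544089202721518058995711)) (T.h (P (nat_lit 0)) (T.h (P (nat_lit 11706436078456893603840)) (T.h (P (nat_lit 0)) (M (nat_lit 10301442286452735))))))) (T.h (P (nat_lit 0)) (T.h (T.h (P (nat_lit 0)) (T.h (M (nat_lit 11334887043216479092735)) (T.h (P (nat_lit 0)) (P (nat_lit 64870222751039488))))) (T.h (P (nat_lit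 0)) (T.h (T.h (P (nat_lit 0)) (P (nat_lit 17610523673985024))) (P (nat_lit 0))))))) (T.h (T.h (P (nat_lit 0)) (T.h (T.h (P (nat_lit 15532778243652765473570816)) (T.h (P (nat_lit 0)) (M (nat_lit 132783142035194380287)))) (T.h (P (nat_lit 0)) (P (nat_lit 372027013451330093056))))) (T.h (T.h (T.h (P (nat_lit 0)) (T.h (P (nat_lit 219226733783414827122688)) (T.h (P (nat_lit 0)) (P (nat_lit 48128141689192448))))) (T.h (P (nat_lit 0)) (T.h (T.h (P (nat_lit 0)) (M (nat_lit 307064400049864703))) (P (nat_lit 0))))) (T.h (T.h (P (nat_lit 0)) (M (nat_lit 292461774379792990207))) (T.h (T.h (T.h (P (nat_lit 0)) (M (nat_lit 111197562056900607))) (P (nat_lit 0))) (P (nat_lit 0))))))), (P (nat_lit 0)), (P (nat_lit 0)), (T.h (T.h (P (nat_lit 0)) (T.h (T.h (M (nat_lit 19010715559394962457480921087)) (T.h (P (nat_lit 0)) (T.h (M (nat_lit 4534848523537343315967)) (T.h (P (nat_lit 0)) (P (nat_lit 72142769679368192)))))) (T.h (P (nat_lit 0)) (T.h (T.h (P (nat_lit 17167194726438533070848))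 (T.h (P (nat_lit 0)) (M (nat_lit 39240781425016831)))) (T.h (P (nat_lit 0)) (P (nat_lit 51833134429732864))))))) (T.h (T.h (T.h (P (nat_lit 0)) (T.h (M (nat_lit 11796831539250381828653055)) (T.h (P (nat_lit 0)) (P (nat_lit 11447994264663883776))))) (T.h (P (nat_lit 0)) (T.h (T.h (P (nat_lit 0)) (P (nat_lit 27730665333827043328))) (P (nat_lit 0))))) (T.h (T.h (P (nat_lit 0)) (T.h (T.h (M (nat_lit 337256168840861870718975)) (T.h (P (nat_lit 0)) (P (nat_lit 146445637852594176)))) (T.h (P (nat_lit 0)) (M (nat_lit 217035851084890111))))) (T.h (T.h (T.h (P (nat_lit 0)) (M (nat_lit 201848382004607844351))) (P (nat_lit 0))) (T.h (T.h (P (nat_lit 0)) (M (nat_lit 537460537767034879))) (P (nat_lit 0))))))), (P (nat_lit 0)), (P (nat_lit 0))]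
def lQm_37 : List (T ℤ) := [(P (nat_lit 0)), (P (nat_lit 0)), (P (nat_lit 0)), (T.h (T.h (P (nat_lit 0)) (T.h (T.h (P (nat_lit 0)) (T.h (P (nat_lit 639228361562408211185664)) (T.h (P (nat_lit 0)) (T.h (M (nat_lit 3612582974958075903)) (T.h (P (nat_lit 0)) (P (nat_lit 1035188088448))))))) (T.h (P (nat_lit 0)) (T.h (T.h (P (nat_lit 0)) (T.h (M (nat_lit 3612582974958075903)) (T.h (P (nat_lit 0)) (P (nat_lit 96880908672))))) (T.h (P (nat_lit 0)) (T.h (T.h (P (nat_lit 0)) (P (nat_lit 1035188088448))) (P (nat_lit 0)))))))) (T.h (T.h (T.h (P (nat_lit 3147512656405071884711886848)) (T.h (P (nat_lit 0)) (T.h (M (nat_lit 275758408499906740223)) (T.h (P (nat_lit 0)) (P (nat_lit 6796418048000000)))))) (T.h (P (nat_lit 0)) (T.h (T.h (M (nat_lit 275758408499906740223)) (T.h (P (nat_lit 0)) (P (nat_lit 24836961151156224)))) (T.h (P (nat_lit 0)) (P (nat_lit 6796418048000000)))))) (T.h (T.h (P (nat_lit 0)) (T.h (T.h (P (nat_lit 0)) (T.h (P (nat_lit 4295856609243955200))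 (T.h (P (nat_lit 0)) (M (nat_lit 24592427548415))))) (T.h (P (nat_lit 0)) (T.h (T.h (P (nat_lit 0)) (M (nat_lit 24592427548415))) (P (nat_lit 0)))))) (T.h (T.h (T.h (P (nat_lit 13783003363915946000384)) (T.h (P (nat_lit 0)) (M (nat_lit 32178130169331711)))) (T.h (P (nat_lit 0)) (M (nat_lit 32178130169331711)))) (T.h (T.h (P (nat_lit 0)) (T.h (T.h (P (nat_lit 0)) (M (nat_lit 181262294860031))) (P (nat_lit 0)))) (M (nat_lit 83436595345620991))))))), (T.h (T.h (P (nat_lit 0)) (T.h (T.h (P (nat_lit 7229277941798989040011182080)) (T.h (P (nat_lit 0)) (T.h (M (nat_lit 5074626016790479634431)) (T.h (P (nat_lit 0)) (M (nat_lit 25150337114456063)))))) (T.h (P (nat_lit 0)) (T.h (T.h (M (nat_lit 1700234646761114697727)) (T.h (P (nat_lit 0)) (P (nat_lit 6140512668286976)))) (T.h (P (nat_lit 0)) (M (nat_lit 1766672385900543))))))) (T.h (T.h (T.h (P (nat_lit 0)) (T.h (P (nat_lit 2647328885556425852452864)) (T.h (P (nat_lit 0)) (T.h (M (nat_lit 14044839506763317247))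 (T.h (P (nat_lit 0)) (M (nat_lit 3743196082991))))))) (T.h (P (nat_lit 0)) (T.h (T.h (P (nat_lit 0)) (T.h (M (nat_lit 9959165120451969023)) (T.h (P (nat_lit 0)) (M (nat_lit 43491366017423))))) (T.h (P (nat_lit 0)) (T.h (T.h (P (nat_lit 0)) (P (nat_lit 17575024374576))) (P (nat_lit 0))))))) (T.h (T.h (P (nat_lit 0)) (T.h (T.h (P (nat_lit 55893712121856740294656)) (T.h (P (nat_lit 0)) (M (nat_lit 37873789833461759)))) (T.h (P (nat_lit 0)) (P (nat_lit 24900390032965632))))) (T.h (T.h (T.h (P (nat_lit 0)) (T.h (P (nat_lit 88326269022941216768)) (T.h (P (nat_lit 0)) (M (nat_lit 15746492039039))))) (T.h (P (nat_lit 0)) (T.h (T.h (P (nat_lit 0)) (M (nat_lit 157763501468927))) (P (nat_lit 0))))) (T.h (T.h (P (nat_lit 0)) (P (nat_lit 43907669705129984))) (T.h (T.h (T.h (P (nat_lit 0)) (P (nat_lit 310329193881600))) (P (nat_lit 0))) (P (nat_lit 0)))))))), (T.h (T.h (P (nat_lit 0)) (T.h (T.h (P (nat_lit 0)) (T.h (M (nat_lit 8121832179209592299847679)) (T.h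 (P (nat_lit 0)) (P (nat_lit 18589109809936596992))))) (T.h (P (nat_lit 0)) (T.h (T.h (P (nat_lit 0)) (M (nat_lit 6818117037345210367))) (P (nat_lit 0)))))) (T.h (T.h (T.h (P (nat_lit 5938840239767262457329876992)) (T.h (P (nat_lit 0)) (T.h (M (nat_lit 83505656668972851920895)) (T.h (P (nat_lit 0)) (P (nat_lit 17569552337108992)))))) (T.h (P (nat_lit 0)) (T.h (T.h (M (nat_lit 32448110580492473991167)) (T.h (P (nat_lit 0)) (P (nat_lit 99906550954229760)))) (T.h (P (nat_lit 0)) (P (nat_lit 14493620268662784)))))) (T.h (T.h (P (nat_lit 0)) (T.h (T.h (P (nat_lit 0)) (M (nat_lit 9408689513531703295))) (P (nat_lit 0)))) (T.h (T.h (T.h (M (nat_lit 15260972577348049174527)) (T.h (P (nat_lit 0)) (M (nat_lit 112761797231247359)))) (T.h (P (nat_lit 0)) (P (nat_lit 176124080196288512)))) (T.h (P (nat_lit 0)) (M (nat_lit 68021766630866943))))))), (P (nat_lit 0)), (P (nat_lit 0))]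
def lQm_38 : List (T ℤ) := [(T.h (T.h (T.h (P (nat_lit 0)) (T.h (P (nat_lit 7229277941798989040011182080)) (T.h (P (nat_lit 0)) (T.h (M (nat_lit 1700234646761114697727)) (T.h (P (nat_lit 0)) (M (nat_lit 1766672385900543))))))) (T.h (P (nat_lit 0)) (T.h (T.h (P (nat_lit 0)) (T.h (M (nat_lit 5074626016790479634431)) (T.h (P (nat_lit 0)) (P (nat_lit 6140512668286976))))) (T.h (P (nat_lit 0)) (T.h (T.h (P (nat_lit 0)) (M (nat_lit 25150337114456063))) (P (nat_lit 0))))))) (T.h (T.h (P (nat_lit 0)) (T.h (T.h (P (nat_lit 2647328885556425852452864)) (T.h (P (nat_lit 0)) (T.h (M (nat_lit 9959165120451969023)) (T.h (P (nat_lit 0)) (P (nat_lit 17575024374576)))))) (T.h (P (nat_lit 0)) (T.h (T.h (M (nat_lit 14044839506763317247)) (T.h (P (nat_lit 0)) (M (nat_lit 43491366017423)))) (T.h (P (nat_lit 0)) (M (nat_lit 3743196082991))))))) (T.h (T.h (T.h (P (nat_lit 0)) (T.h (P (nat_lit 55893712121856740294656)) (T.h (P (nat_lit 0)) (P (nat_lit 24900390032965632)))))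 (T.h (P (nat_lit 0)) (T.h (T.h (P (nat_lit 0)) (M (nat_lit 37873789833461759))) (P (nat_lit 0))))) (T.h (T.h (P (nat_lit 0)) (T.h (T.h (P (nat_lit 88326269022941216768)) (T.h (P (nat_lit 0)) (M (nat_lit 157763501468927)))) (T.h (P (nat_lit 0)) (M (nat_lit 15746492039039))))) (T.h (T.h (T.h (P (nat_lit 0)) (P (nat_lit 43907669705129984))) (P (nat_lit 0))) (T.h (T.h (P (nat_lit 0)) (P (nat_lit 310329193881600))) (P (nat_lit 0)))))))), (T.h (T.h (T.h (M (nat_lit 3388291302366962560366419116031)) (T.h (P (nat_lit 0)) (T.h (P (nat_lit 4983474547258667095293952)) (T.h (P (nat_lit 0)) (P (nat_lit 5571827366197460992)))))) (T.h (P (nat_lit 0)) (T.h (T.h (P (nat_lit 4983474547258667095293952)) (T.h (P (nat_lit 0)) (M (nat_lit 46072855600505552895)))) (T.h (P (nat_lit 0)) (P (nat_lit 5571827366197460992)))))) (T.h (T.h (P (nat_lit 0)) (T.h (T.h (P (nat_lit 0)) (T.h (P (nat_lit 130518322924367101558784)) (T.h (P (nat_lit 0)) (M (nat_lit 28954197942730751)))))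 (T.h (P (nat_lit 0)) (T.h (T.h (P (nat_lit 0)) (M (nat_lit 28954197942730751))) (P (nat_lit 0)))))) (T.h (T.h (T.h (M (nat_lit 52973080057366503088979967)) (T.h (P (nat_lit 0)) (M (nat_lit 91053075213775273983)))) (T.h (P (nat_lit 0)) (M (nat_lit 91053075213775273983)))) (T.h (T.h (P (nat_lit 0)) (T.h (T.h (P (nat_lit 0)) (M (nat_lit 179461911432396799))) (P (nat_lit 0)))) (M (nat_lit 201408859984088793087)))))), (P (nat_lit 0)), (P (nat_lit 0)), (T.h (T.h (P (nat_lit 0)) (T.h (T.h (P (nat_lit 0)) (T.h (M (nat_lit 8121832179209592299847679)) (T.h (P (nat_lit 0)) (M (nat_lit 6818117037345210367))))) (T.h (P (nat_lit 0)) (T.h (T.h (P (nat_lit 0)) (P (nat_lit 18589109809936596992))) (P (nat_lit 0)))))) (T.h (T.h (T.h (P (nat_lit 5938840239767262457329876992)) (T.h (P (nat_lit 0)) (T.h (M (nat_lit 32448110580492473991167)) (T.h (P (nat_lit 0)) (P (nat_lit 14493620268662784)))))) (T.h (P (nat_lit 0)) (T.h (T.h (M (nat_lit 83505656668972851920895)) (T.h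 (P (nat_lit 0)) (P (nat_lit 99906550954229760)))) (T.h (P (nat_lit 0)) (P (nat_lit 17569552337108992)))))) (T.h (T.h (P (nat_lit 0)) (T.h (T.h (P (nat_lit 0)) (M (nat_lit 9408689513531703295))) (P (nat_lit 0)))) (T.h (T.h (T.h (M (nat_lit 15260972577348049174527)) (T.h (P (nat_lit 0)) (P (nat_lit 176124080196288512)))) (T.h (P (nat_lit 0)) (M (nat_lit 112761797231247359)))) (T.h (P (nat_lit 0)) (M (nat_lit 68021766630866943))))))), (P (nat_lit 0)), (P (nat_lit 0)), (P (nat_lit 0))]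
def lQm_39 : List (T ℤ) := [(P (nat_lit 0)), (P (nat_lit 0)), (T.h (T.h (T.h (P (nat_lit 2404850019828621642210004172800)) (T.h (P (nat_lit 0)) (T.h (M (nat_lit 3441592084653494088237055)) (T.h (P (nat_lit 0)) (T.h (P (nat_lit 343924005943640064)) (T.h (P (nat_lit 0)) (P (nat_lit 485082553536)))))))) (T.h (P (nat_lit 0)) (T.h (T.h (M (nat_lit 3441592084653494088237055)) (T.h (P (nat_lit 0)) (T.h (M (nat_lit 4101749946523320319)) (T.h (P (nat_lit 0)) (P (nat_lit 6479329439808)))))) (T.h (P (nat_lit 0)) (T.h (T.h (P (nat_lit 343924005943640064)) (T.h (P (nat_lit 0)) (P (nat_lit 6479329439808)))) (T.h (P (nat_lit 0)) (P (nat_lit 485082553536)))))))) (T.h (T.h (P (nat_lit 0)) (T.h (T.h (P (nat_lit 0)) (T.h (P (nat_lit 4858780883919092842496)) (T.h (P (nat_lit 0)) (P (nat_lit 8976329387016192))))) (T.h (P (nat_lit 0)) (T.h (T.h (P (nat_lit 0)) (P (nat_lit 8976329387016192))) (P (nat_lit 0)))))) (T.h (T.h (T.h (P (nat_lit 9662666993077348152115200)) (T.h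 (P (nat_lit 0)) (T.h (P (nat_lit 850769915450228736)) (T.h (P (nat_lit 0)) (P (nat_lit 21823059736368)))))) (T.h (P (nat_lit 0)) (T.h (T.h (P (nat_lit 850769915450228736)) (T.h (P (nat_lit 0)) (P (nat_lit 83465545105728)))) (T.h (P (nat_lit 0)) (P (nat_lit 21823059736368)))))) (T.h (T.h (P (nat_lit 0)) (T.h (T.h (P (nat_lit 0)) (P (nat_lit 221025023427870720))) (P (nat_lit 0)))) (T.h (T.h (T.h (P (nat_lit 7533545651754237952)) (T.h (P (nat_lit 0)) (P (nat_lit 17223692796864)))) (T.h (P (nat_lit 0)) (P (nat_lit 17223692796864)))) (T.h (P (nat_lit 0)) (M (nat_lit 18430719318143)))))))), (T.h (T.h (T.h (P (nat_lit 0)) (T.h (M (nat_lit 1069719061105742419312246783)) (T.h (P (nat_lit 0)) (T.h (P (nat_lit 4810639926731932172288)) (T.h (P (nat_lit 0)) (P (nat_lit 189485684457472))))))) (T.h (P (nat_lit 0)) (T.h (T.h (P (nat_lit 0)) (T.h (P (nat_lit 167114983961662586880)) (T.h (P (nat_lit 0)) (P (nat_lit 3999072314753024))))) (T.h (P (nat_lit 0)) (T.h (T.h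 (P (nat_lit 0)) (M (nat_lit 6948109256065023))) (P (nat_lit 0))))))) (T.h (T.h (P (nat_lit 0)) (T.h (T.h (M (nat_lit 1761177201905144919228415)) (T.h (P (nat_lit 0)) (P (nat_lit 13635200529196908544)))) (T.h (P (nat_lit 0)) (M (nat_lit 1424453042811437055))))) (T.h (T.h (T.h (P (nat_lit 0)) (T.h (M (nat_lit 9039233065320873721855)) (T.h (P (nat_lit 0)) (M (nat_lit 9114228696940543))))) (T.h (P (nat_lit 0)) (T.h (T.h (P (nat_lit 0)) (P (nat_lit 69713786696892416))) (P (nat_lit 0))))) (T.h (T.h (P (nat_lit 0)) (M (nat_lit 159289274093619118079))) (T.h (T.h (T.h (P (nat_lit 0)) (M (nat_lit 360924354560393215))) (P (nat_lit 0))) (P (nat_lit 0))))))), (P (nat_lit 0)), (P (nat_lit 0)), (T.h (T.h (P (nat_lit 0)) (T.h (T.h (M (nat_lit 1069719061105742419312246783)) (T.h (P (nat_lit 0)) (T.h (P (nat_lit 167114983961662586880)) (T.h (P (nat_lit 0)) (M (nat_lit 6948109256065023)))))) (T.h (P (nat_lit 0)) (T.h (T.h (P (nat_lit 4810639926731932172288)) (T.h (P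 (nat_lit 0)) (P (nat_lit 3999072314753024)))) (T.h (P (nat_lit 0)) (P (nat_lit 189485684457472))))))) (T.h (T.h (T.h (P (nat_lit 0)) (T.h (M (nat_lit 1761177201905144919228415)) (T.h (P (nat_lit 0)) (M (nat_lit 1424453042811437055))))) (T.h (P (nat_lit 0)) (T.h (T.h (P (nat_lit 0)) (P (nat_lit 13635200529196908544))) (P (nat_lit 0))))) (T.h (T.h (P (nat_lit 0)) (T.h (T.h (M (nat_lit 9039233065320873721855)) (T.h (P (nat_lit 0)) (P (nat_lit 69713786696892416)))) (T.h (P (nat_lit 0)) (M (nat_lit 9114228696940543))))) (T.h (T.h (T.h (P (nat_lit 0)) (M (nat_lit 159289274093619118079))) (P (nat_lit 0))) (T.h (T.h (P (nat_lit 0)) (M (nat_lit 360924354560393215))) (P (nat_lit 0))))))), (P (nat_lit 0))]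
def lQm_40 : List (T ℤ) := [(P (nat_lit 0)), (P (nat_lit 0)), (P (nat_lit 0)), (P (nat_lit 0)), (T.h (T.h (P (nat_lit 0)) (T.h (T.h (P (nat_lit 0)) (T.h (P (nat_lit 2399690788163493904252928)) (T.h (P (nat_lit 0)) (P (nat_lit 822611858266521600))))) (T.h (P (nat_lit 0)) (T.h (T.h (P (nat_lit 0)) (P (nat_lit 822611858266521600))) (P (nat_lit 0)))))) (T.h (T.h (T.h (M (nat_lit 6946700081529947634800787455)) (T.h (P (nat_lit 0)) (T.h (P (nat_lit 2528644232359897464832)) (T.h (P (nat_lit 0)) (M (nat_lit 9931916964462591)))))) (T.h (P (nat_lit 0)) (T.h (T.h (P (nat_lit 2528644232359897464832)) (T.h (P (nat_lit 0)) (M (nat_lit 37986096972562431)))) (T.h (P (nat_lit 0)) (M (nat_lit 9931916964462591)))))) (T.h (T.h (P (nat_lit 0)) (T.h (T.h (P (nat_lit 0)) (M (nat_lit 24174887929991135231))) (P (nat_lit 0)))) (T.h (T.h (T.h (M (nat_lit 6537014371178130702335)) (T.h (P (nat_lit 0)) (M (nat_lit 15677387932434431)))) (T.h (P (nat_lit 0)) (M (nat_lit 15677387932434431))))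 (T.h (P (nat_lit 0)) (P (nat_lit 25164075442372608))))))), (P (nat_lit 0)), (P (nat_lit 0)), (P (nat_lit 0))]
def lQm_41 : List (T ℤ) := [(P (nat_lit 0)), (P (nat_lit 0)), (P (nat_lit 0)), (P (nat_lit 0)), (P (nat_lit 0)), (P (nat_lit 0))]

def CQm : List (T ℤ) := lQm_0 ++ (lQm_1 ++ (lQm_2 ++ (lQm_3 ++ (lQm_4 ++ (lQm_5 ++ (lQm_6 ++ (lQm_7 ++ (lQm_8 ++ (lQm_9 ++ (lQm_10 ++ (lQm_11 ++ (lQm_12 ++ (lQm_13 ++ (lQm_14 ++ (lQm_15 ++ (lQm_16 ++ (lQm_17 ++ (lQm_18 ++ (lQm_19 ++ (lQm_20 ++ (lQm_21 ++ (lQm_22 ++ (lQm_23 ++ (lQm_24 ++ (lQm_25 ++ (lQm_26 ++ (lQm_27 ++ (lQm_28 ++ (lQm_29 ++ (lQm_30 ++ (lQm_31 ++ (lQm_32 ++ (lQm_33 ++ (lQm_34 ++ (lQm_35 ++ (lQm_36 ++ (lQm_37 ++ (lQm_38 ++ (lQm_39 ++ (lQm_40 ++ (lQm_41)))))))))))))))))))))))))))))))))))))))))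

/-- norms at radius 1536 -/
def NQm : List ℕ := [(nat_lit 5034231565398356583608483840000), (nat_lit 0), (nat_lit 1724605957288637986440686170275840), (nat_lit 3231952790491065779486215072907264), (nat_lit 4769393257761206482651912637251584), (nat_lit 4726961542089174432066161814274048), (nat_lit 1179900458896524047471018407624704), (nat_lit 0), (nat_lit 0), (nat_lit 0), (nat_lit 2015081298381011297448797210148864), (nat_lit 7917973180663289648377386516873216), (nat_lit 8997689988211020541009471255609344), (nat_lit 9269586922663538193990403416391680), (nat_lit 4882080804122028056973939289620480), (nat_lit 0), (nat_lit 0), (nat_lit 0), (nat_lit 1810292357583197565337059949805568), (nat_lit 5498512004875585986364998787530752), (nat_lit 10863059247056160729281929811066880), (nat_lit 11587232174278613141824544540983296), (nat_lit 4877390115265699470167065485115392), (nat_lit 0), (nat_lit 0), (nat_lit 1810292357583197565337059949805568), (nat_lit 13754771878245231706057604440522752),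 (nat_lit 14238123201414850424934124876726272), (nat_lit 25623368825481635076470154977083392), (nat_lit 11797823836781131919374112205570048), (nat_lit 0), (nat_lit 0), (nat_lit 2015081298381011297448797210148864), (nat_lit 5498512004875585986364998787530752), (nat_lit 14238123201414850424934124876726272), (nat_lit 20540435231327824248029122972876800), (nat_lit 9655153493091300658344029979672576), (nat_lit 0), (nat_lit 0), (nat_lit 1724605957288637986440686170275840), (nat_lit 7917973180663289648377386516873216), (nat_lit 10863059247056160729281929811066880), (nat_lit 25623368825481635076470154977083392), (nat_lit 9655153493091300658344029979672576), (nat_lit 0), (nat_lit 0), (nat_lit 3231952790491065779486215072907264), (nat_lit 8997689988211020541009471255609344), (nat_lit 11587232174278613141824544540983296), (nat_lit 11797823836781131919374112205570048), (nat_lit 0), (nat_lit 0), (nat_lit 4769393257761206482651912637251584), (nat_lit 9269586922663538193990403416391680),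 (nat_lit 4877390115265699470167065485115392), (nat_lit 0), (nat_lit 0), (nat_lit 4726961542089174432066161814274048), (nat_lit 4882080804122028056973939289620480), (nat_lit 0), (nat_lit 0), (nat_lit 1179900458896524047471018407624704), (nat_lit 0), (nat_lit 0), (nat_lit 0), (nat_lit 0), (nat_lit 0), (nat_lit 2015081298381011297448797210148864), (nat_lit 7917973180663289648377386516873216), (nat_lit 8997689988211020541009471255609344), (nat_lit 9269586922663538193990403416391680), (nat_lit 4882080804122028056973939289620480), (nat_lit 0), (nat_lit 0), (nat_lit 5017477648600238857547036789571584), (nat_lit 7713752859077756748932322636595200), (nat_lit 20961555107053813439357144732270592), (nat_lit 18734223246554908023290783902728192), (nat_lit 5107568240768948553730650724630528), (nat_lit 0), (nat_lit 0), (nat_lit 16688225967044941259148638854053888), (nat_lit 21686497724866849553299555032760320), (nat_lit 38151280094220618616502474590126080), (nat_lit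 29482104331074100920444564252131328), (nat_lit 10137550684850219468597346321825792), (nat_lit 0), (nat_lit 0), (nat_lit 5017477648600238857547036789571584), (nat_lit 21686497724866849553299555032760320), (nat_lit 40700194096604394923804498224742400), (nat_lit 24348715231251986269625697787969536), (nat_lit 12941107221511953457874163820658688), (nat_lit 0), (nat_lit 0), (nat_lit 2015081298381011297448797210148864), (nat_lit 7713752859077756748932322636595200), (nat_lit 38151280094220618616502474590126080), (nat_lit 24348715231251986269625697787969536), (nat_lit 9028142197616287317498108951134208), (nat_lit 0), (nat_lit 0), (nat_lit 7917973180663289648377386516873216), (nat_lit 20961555107053813439357144732270592), (nat_lit 29482104331074100920444564252131328), (nat_lit 12941107221511953457874163820658688), (nat_lit 0), (nat_lit 0), (nat_lit 8997689988211020541009471255609344), (nat_lit 18734223246554908023290783902728192), (nat_lit 10137550684850219468597346321825792),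 (nat_lit 0), (nat_lit 0), (nat_lit 9269586922663538193990403416391680), (nat_lit 5107568240768948553730650724630528), (nat_lit 0), (nat_lit 0), (nat_lit 4882080804122028056973939289620480), (nat_lit 0), (nat_lit 0), (nat_lit 0), (nat_lit 0), (nat_lit 0), (nat_lit 0), (nat_lit 1810292357583197565337059949805568), (nat_lit 5498512004875585986364998787530752), (nat_lit 10863059247056160729281929811066880), (nat_lit 11587232174278613141824544540983296), (nat_lit 4877390115265699470167065485115392), (nat_lit 0), (nat_lit 0), (nat_lit 16688225967044941259148638854053888), (nat_lit 21686497724866849553299555032760320), (nat_lit 38151280094220618616502474590126080), (nat_lit 29482104331074100920444564252131328), (nat_lit 10137550684850219468597346321825792), (nat_lit 0), (nat_lit 0), (nat_lit 16688225967044941259148638854053888), (nat_lit 18030348678634071920880398698020864), (nat_lit 32679157042753288135007904957726720), (nat_lit 35291891742524396731694977264910336),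 (nat_lit 10564332907245284536472566449045504), (nat_lit 0), (nat_lit 0), (nat_lit 1810292357583197565337059949805568), (nat_lit 21686497724866849553299555032760320), (nat_lit 32679157042753288135007904957726720), (nat_lit 64647755741991708824608643676635136), (nat_lit 14888743928154956976123110095847424), (nat_lit 0), (nat_lit 0), (nat_lit 5498512004875585986364998787530752), (nat_lit 38151280094220618616502474590126080), (nat_lit 35291891742524396731694977264910336), (nat_lit 14888743928154956976123110095847424), (nat_lit 0), (nat_lit 0), (nat_lit 10863059247056160729281929811066880), (nat_lit 29482104331074100920444564252131328), (nat_lit 10564332907245284536472566449045504), (nat_lit 0), (nat_lit 0), (nat_lit 11587232174278613141824544540983296), (nat_lit 10137550684850219468597346321825792), (nat_lit 0), (nat_lit 0), (nat_lit 4877390115265699470167065485115392), (nat_lit 0), (nat_lit 0), (nat_lit 0), (nat_lit 0), (nat_lit 0), (nat_lit 1810292357583197565337059949805568),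 (nat_lit 13754771878245231706057604440522752), (nat_lit 14238123201414850424934124876726272), (nat_lit 25623368825481635076470154977083392), (nat_lit 11797823836781131919374112205570048), (nat_lit 0), (nat_lit 0), (nat_lit 5017477648600238857547036789571584), (nat_lit 21686497724866849553299555032760320), (nat_lit 40700194096604394923804498224742400), (nat_lit 24348715231251986269625697787969536), (nat_lit 12941107221511953457874163820658688), (nat_lit 0), (nat_lit 0), (nat_lit 1810292357583197565337059949805568), (nat_lit 21686497724866849553299555032760320), (nat_lit 32679157042753288135007904957726720), (nat_lit 64647755741991708824608643676635136), (nat_lit 14888743928154956976123110095847424), (nat_lit 0), (nat_lit 0), (nat_lit 13754771878245231706057604440522752), (nat_lit 40700194096604394923804498224742400), (nat_lit 64647755741991708824608643676635136), (nat_lit 42614722555026479180985477982322688), (nat_lit 0), (nat_lit 0), (nat_lit 14238123201414850424934124876726272),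 (nat_lit 24348715231251986269625697787969536), (nat_lit 14888743928154956976123110095847424), (nat_lit 0), (nat_lit 0), (nat_lit 25623368825481635076470154977083392), (nat_lit 12941107221511953457874163820658688), (nat_lit 0), (nat_lit 0), (nat_lit 11797823836781131919374112205570048), (nat_lit 0), (nat_lit 0), (nat_lit 0), (nat_lit 0), (nat_lit 0), (nat_lit 2015081298381011297448797210148864), (nat_lit 5498512004875585986364998787530752), (nat_lit 14238123201414850424934124876726272), (nat_lit 20540435231327824248029122972876800), (nat_lit 9655153493091300658344029979672576), (nat_lit 0), (nat_lit 0), (nat_lit 2015081298381011297448797210148864), (nat_lit 7713752859077756748932322636595200), (nat_lit 38151280094220618616502474590126080), (nat_lit 24348715231251986269625697787969536), (nat_lit 9028142197616287317498108951134208), (nat_lit 0), (nat_lit 0), (nat_lit 5498512004875585986364998787530752), (nat_lit 38151280094220618616502474590126080),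 (nat_lit 35291891742524396731694977264910336), (nat_lit 14888743928154956976123110095847424), (nat_lit 0), (nat_lit 0), (nat_lit 14238123201414850424934124876726272), (nat_lit 24348715231251986269625697787969536), (nat_lit 14888743928154956976123110095847424), (nat_lit 0), (nat_lit 0), (nat_lit 20540435231327824248029122972876800), (nat_lit 9028142197616287317498108951134208), (nat_lit 0), (nat_lit 0), (nat_lit 9655153493091300658344029979672576), (nat_lit 0), (nat_lit 0), (nat_lit 0), (nat_lit 0), (nat_lit 0), (nat_lit 1724605957288637986440686170275840), (nat_lit 7917973180663289648377386516873216), (nat_lit 10863059247056160729281929811066880), (nat_lit 25623368825481635076470154977083392), (nat_lit 9655153493091300658344029979672576), (nat_lit 0), (nat_lit 0), (nat_lit 7917973180663289648377386516873216), (nat_lit 20961555107053813439357144732270592), (nat_lit 29482104331074100920444564252131328), (nat_lit 12941107221511953457874163820658688),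 (nat_lit 0), (nat_lit 0), (nat_lit 10863059247056160729281929811066880), (nat_lit 29482104331074100920444564252131328), (nat_lit 10564332907245284536472566449045504), (nat_lit 0), (nat_lit 0), (nat_lit 25623368825481635076470154977083392), (nat_lit 12941107221511953457874163820658688), (nat_lit 0), (nat_lit 0), (nat_lit 9655153493091300658344029979672576), (nat_lit 0), (nat_lit 0), (nat_lit 0), (nat_lit 0), (nat_lit 0), (nat_lit 3231952790491065779486215072907264), (nat_lit 8997689988211020541009471255609344), (nat_lit 11587232174278613141824544540983296), (nat_lit 11797823836781131919374112205570048), (nat_lit 0), (nat_lit 0), (nat_lit 8997689988211020541009471255609344), (nat_lit 18734223246554908023290783902728192), (nat_lit 10137550684850219468597346321825792), (nat_lit 0), (nat_lit 0), (nat_lit 11587232174278613141824544540983296), (nat_lit 10137550684850219468597346321825792), (nat_lit 0), (nat_lit 0), (nat_lit 11797823836781131919374112205570048),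 (nat_lit 0), (nat_lit 0), (nat_lit 0), (nat_lit 0), (nat_lit 0), (nat_lit 4769393257761206482651912637251584), (nat_lit 9269586922663538193990403416391680), (nat_lit 4877390115265699470167065485115392), (nat_lit 0), (nat_lit 0), (nat_lit 9269586922663538193990403416391680), (nat_lit 5107568240768948553730650724630528), (nat_lit 0), (nat_lit 0), (nat_lit 4877390115265699470167065485115392), (nat_lit 0), (nat_lit 0), (nat_lit 0), (nat_lit 0), (nat_lit 0), (nat_lit 4726961542089174432066161814274048), (nat_lit 4882080804122028056973939289620480), (nat_lit 0), (nat_lit 0), (nat_lit 4882080804122028056973939289620480), (nat_lit 0), (nat_lit 0), (nat_lit 0), (nat_lit 0), (nat_lit 0), (nat_lit 1179900458896524047471018407624704), (nat_lit 0), (nat_lit 0), (nat_lit 0), (nat_lit 0), (nat_lit 0), (nat_lit 0), (nat_lit 0), (nat_lit 0), (nat_lit 0)]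


def lP11_0 : List (T ℤ) := [(P (nat_lit 0)), (P (nat_lit 0)), (P (nat_lit 0)), (P (nat_lit 0)), (P (nat_lit 0)), (P (nat_lit 0)), (P (nat_lit 0)), (P (nat_lit 0))]
def lP11_1 : List (T ℤ) := [(P (nat_lit 0)), (P (nat_lit 0)), (P (nat_lit 0)), (P (nat_lit 0)), (P (nat_lit 0)), (P (nat_lit 0)), (P (nat_lit 0)), (P (nat_lit 0))]
def lP11_2 : List (T ℤ) := [(P (nat_lit 0)), (M (nat_lit 4410501400340933843783516159999)), (P (nat_lit 0)), (P (nat_lit 0)), (T.h (T.h (T.h (P (nat_lit 0)) (T.h (M (nat_lit 5759271470269521065423142911)) (T.h (P (nat_lit 0)) (T.h (P (nat_lit 5469803030520608587776)) (T.h (P (nat_lit 0)) (M (nat_lit 206113574879231))))))) (T.h (P (nat_lit 0)) (T.h (T.h (P (nat_lit 0)) (T.h (P (nat_lit 2712750349386849976320)) (T.h (P (nat_lit 0)) (M (nat_lit 12044449115373567))))) (T.h (P (nat_lit 0)) (T.h (T.h (P (nat_lit 0)) (M (nat_lit 2704680764932095))) (P (nat_lit 0))))))) (T.h (T.h (P (nat_lit 0)) (T.h (T.h (P (nat_lit 4204261618133833938370560))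 (T.h (P (nat_lit 0)) (T.h (M (nat_lit 22564888246348677119)) (T.h (P (nat_lit 0)) (M (nat_lit 135946721145023)))))) (T.h (P (nat_lit 0)) (T.h (T.h (P (nat_lit 1436442446299922432)) (T.h (P (nat_lit 0)) (M (nat_lit 13039914007615)))) (T.h (P (nat_lit 0)) (P (nat_lit 1300883372136))))))) (T.h (T.h (T.h (P (nat_lit 0)) (T.h (P (nat_lit 2781654216421851267072)) (T.h (P (nat_lit 0)) (M (nat_lit 468974644527103))))) (T.h (P (nat_lit 0)) (T.h (T.h (P (nat_lit 0)) (P (nat_lit 13732124649455616))) (P (nat_lit 0))))) (T.h (T.h (P (nat_lit 0)) (T.h (T.h (M (nat_lit 279505857551532031)) (T.h (P (nat_lit 0)) (M (nat_lit 23848727315007)))) (T.h (P (nat_lit 0)) (P (nat_lit 72660681504))))) (T.h (T.h (T.h (P (nat_lit 0)) (M (nat_lit 1986962158813183))) (P (nat_lit 0))) (T.h (T.h (P (nat_lit 0)) (P (nat_lit 251898760536))) (P (nat_lit 0)))))))), (T.h (T.h (T.h (P (nat_lit 6945281478211275015688300789760)) (T.h (P (nat_lit 0)) (T.h (M (nat_lit 6892331385474144117194751))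 (T.h (P (nat_lit 0)) (T.h (M (nat_lit 12345843102613766143)) (T.h (P (nat_lit 0)) (P (nat_lit 10239292669440)))))))) (T.h (P (nat_lit 0)) (T.h (T.h (M (nat_lit 844005617985062042599423)) (T.h (P (nat_lit 0)) (T.h (P (nat_lit 28162852510398152704)) (T.h (P (nat_lit 0)) (M (nat_lit 6531616341807)))))) (T.h (P (nat_lit 0)) (T.h (T.h (M (nat_lit 250077559696392191)) (T.h (P (nat_lit 0)) (M (nat_lit 12025278876719)))) (T.h (P (nat_lit 0)) (M (nat_lit 394146612063)))))))) (T.h (T.h (P (nat_lit 0)) (T.h (T.h (P (nat_lit 0)) (T.h (P (nat_lit 21790855645850796818432)) (T.h (P (nat_lit 0)) (P (nat_lit 114410331772616704))))) (T.h (P (nat_lit 0)) (T.h (T.h (P (nat_lit 0)) (M (nat_lit 8712303045115903))) (P (nat_lit 0)))))) (T.h (T.h (T.h (M (nat_lit 844005617985062042599423)) (T.h (P (nat_lit 0)) (T.h (P (nat_lit 28162852510398152704)) (T.h (P (nat_lit 0)) (M (nat_lit 6531616341807)))))) (T.h (P (nat_lit 0)) (T.h (T.h (P (nat_lit 1700261905928552448)) (T.h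 (P (nat_lit 0)) (M (nat_lit 46369747134399)))) (T.h (P (nat_lit 0)) (M (nat_lit 1928525502543)))))) (T.h (T.h (P (nat_lit 0)) (T.h (T.h (P (nat_lit 0)) (M (nat_lit 8712303045115903))) (P (nat_lit 0)))) (T.h (T.h (T.h (M (nat_lit 250077559696392191)) (T.h (P (nat_lit 0)) (M (nat_lit 12025278876719)))) (T.h (P (nat_lit 0)) (M (nat_lit 1928525502543)))) (T.h (P (nat_lit 0)) (M (nat_lit 394146612063)))))))), (T.h (T.h (T.h (P (nat_lit 0)) (T.h (P (nat_lit 12705971551799468700223930368)) (T.h (P (nat_lit 0)) (T.h (P (nat_lit 1067211340657522114560)) (T.h (P (nat_lit 0)) (M (nat_lit 24957961867493375))))))) (T.h (P (nat_lit 0)) (T.h (T.h (P (nat_lit 0)) (T.h (M (nat_lit 8848581376903131168767)) (T.h (P (nat_lit 0)) (P (nat_lit 10236873174646784))))) (T.h (P (nat_lit 0)) (T.h (T.h (P (nat_lit 0)) (P (nat_lit 15828416420511744))) (P (nat_lit 0))))))) (T.h (T.h (P (nat_lit 0)) (T.h (T.h (M (nat_lit 6603952406297327842623487)) (T.h (P (nat_lit 0)) (T.h (P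 (nat_lit 46739776176339812352)) (T.h (P (nat_lit 0)) (P (nat_lit 135946721145024)))))) (T.h (P (nat_lit 0)) (T.h (T.h (M (nat_lit 7293634597340839935)) (T.h (P (nat_lit 0)) (P (nat_lit 18444320661312)))) (T.h (P (nat_lit 0)) (M (nat_lit 776391066335))))))) (T.h (T.h (T.h (P (nat_lit 0)) (T.h (M (nat_lit 1703111653625365004287)) (T.h (P (nat_lit 0)) (P (nat_lit 33631326450122752))))) (T.h (P (nat_lit 0)) (T.h (T.h (P (nat_lit 0)) (P (nat_lit 24253972323106816))) (P (nat_lit 0))))) (T.h (T.h (P (nat_lit 0)) (T.h (T.h (P (nat_lit 4491474292059406336)) (T.h (P (nat_lit 0)) (P (nat_lit 18444320661312)))) (T.h (P (nat_lit 0)) (M (nat_lit 72660681503))))) (T.h (T.h (T.h (P (nat_lit 0)) (P (nat_lit 8727060432158720))) (P (nat_lit 0))) (T.h (T.h (P (nat_lit 0)) (M (nat_lit 776391066335))) (P (nat_lit 0)))))))), (T.h (T.h (T.h (M (nat_lit 1526812637208704738452194721791)) (T.h (P (nat_lit 0)) (T.h (P (nat_lit 20864823599583554539880448)) (T.h (P (nat_lit 0))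 (T.h (P (nat_lit 6830011316166459392)) (T.h (P (nat_lit 0)) (M (nat_lit 18430719318143)))))))) (T.h (P (nat_lit 0)) (T.h (T.h (M (nat_lit 1566168659524124063825919)) (T.h (P (nat_lit 0)) (T.h (M (nat_lit 11962976014688059391)) (T.h (P (nat_lit 0)) (P (nat_lit 17223692796864)))))) (T.h (P (nat_lit 0)) (T.h (T.h (M (nat_lit 1257490112028082175)) (T.h (P (nat_lit 0)) (P (nat_lit 21823059736368)))) (T.h (P (nat_lit 0)) (P (nat_lit 485082553536)))))))) (T.h (T.h (P (nat_lit 0)) (T.h (T.h (P (nat_lit 0)) (T.h (M (nat_lit 25949813201762300985343)) (T.h (P (nat_lit 0)) (M (nat_lit 150200156445474815))))) (T.h (P (nat_lit 0)) (T.h (T.h (P (nat_lit 0)) (M (nat_lit 16206316422561791))) (P (nat_lit 0)))))) (T.h (T.h (T.h (M (nat_lit 1566168659524124063825919)) (T.h (P (nat_lit 0)) (T.h (M (nat_lit 11962976014688059391)) (T.h (P (nat_lit 0)) (P (nat_lit 17223692796864)))))) (T.h (P (nat_lit 0)) (T.h (T.h (P (nat_lit 5272713814171713536)) (T.h (P (nat_lit 0))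 (P (nat_lit 83465545105728)))) (T.h (P (nat_lit 0)) (P (nat_lit 6479329439808)))))) (T.h (T.h (P (nat_lit 0)) (T.h (T.h (P (nat_lit 0)) (M (nat_lit 16206316422561791))) (P (nat_lit 0)))) (T.h (T.h (T.h (M (nat_lit 1257490112028082175)) (T.h (P (nat_lit 0)) (P (nat_lit 21823059736368)))) (T.h (P (nat_lit 0)) (P (nat_lit 6479329439808)))) (T.h (P (nat_lit 0)) (P (nat_lit 485082553536))))))))]
def lP11_3 : List (T ℤ) := [(T.h (T.h (T.h (P (nat_lit 0)) (T.h (M (nat_lit 6946700081529947634800787455)) (T.h (P (nat_lit 0)) (T.h (M (nat_lit 6537014371178130702335)) (T.h (P (nat_lit 0)) (P (nat_lit 25164075442372608))))))) (T.h (P (nat_lit 0)) (T.h (T.h (P (nat_lit 0)) (T.h (P (nat_lit 2528644232359897464832)) (T.h (P (nat_lit 0)) (M (nat_lit 15677387932434431))))) (T.h (P (nat_lit 0)) (T.h (T.h (P (nat_lit 0)) (M (nat_lit 9931916964462591))) (P (nat_lit 0))))))) (T.h (T.h (P (nat_lit 0)) (T.h (T.h (P (nat_lit 2399690788163493904252928)) (T.h (P (nat_lit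 0)) (M (nat_lit 24174887929991135231)))) (T.h (P (nat_lit 0)) (P (nat_lit 822611858266521600))))) (T.h (T.h (T.h (P (nat_lit 0)) (T.h (P (nat_lit 2528644232359897464832)) (T.h (P (nat_lit 0)) (M (nat_lit 15677387932434431))))) (T.h (P (nat_lit 0)) (T.h (T.h (P (nat_lit 0)) (M (nat_lit 37986096972562431))) (P (nat_lit 0))))) (T.h (T.h (P (nat_lit 0)) (P (nat_lit 822611858266521600))) (T.h (T.h (T.h (P (nat_lit 0)) (M (nat_lit 9931916964462591))) (P (nat_lit 0))) (P (nat_lit 0))))))), (P (nat_lit 0)), (P (nat_lit 0)), (T.h (T.h (P (nat_lit 0)) (T.h (T.h (P (nat_lit 2249173928889727482182238208)) (T.h (P (nat_lit 0)) (T.h (P (nat_lit 23895936941836185108480)) (T.h (P (nat_lit 0)) (M (nat_lit 69107667941326847)))))) (T.h (P (nat_lit 0)) (T.h (T.h (P (nat_lit 8955629997758437392384)) (T.h (P (nat_lit 0)) (M (nat_lit 30764528360194047)))) (T.h (P (nat_lit 0)) (M (nat_lit 12698370511568895))))))) (T.h (T.h (T.h (P (nat_lit 0)) (T.h (M (nat_lit 7185236083707900717957119))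 (T.h (P (nat_lit 0)) (T.h (P (nat_lit 12105574288833118208)) (T.h (P (nat_lit 0)) (M (nat_lit 37010954213999))))))) (T.h (P (nat_lit 0)) (T.h (T.h (P (nat_lit 0)) (T.h (P (nat_lit 2037456595029327872)) (T.h (P (nat_lit 0)) (P (nat_lit 106076979911416))))) (T.h (P (nat_lit 0)) (T.h (T.h (P (nat_lit 0)) (M (nat_lit 20349208859607))) (P (nat_lit 0))))))) (T.h (T.h (P (nat_lit 0)) (T.h (T.h (M (nat_lit 4991051602226185240575)) (T.h (P (nat_lit 0)) (P (nat_lit 12565639803011072)))) (T.h (P (nat_lit 0)) (P (nat_lit 2757992272723968))))) (T.h (T.h (T.h (P (nat_lit 0)) (T.h (P (nat_lit 3354224471622811648)) (T.h (P (nat_lit 0)) (M (nat_lit 8558637664695))))) (T.h (P (nat_lit 0)) (T.h (T.h (P (nat_lit 0)) (M (nat_lit 4652274396391))) (P (nat_lit 0))))) (T.h (T.h (P (nat_lit 0)) (P (nat_lit 2120504879120384))) (T.h (T.h (T.h (P (nat_lit 0)) (P (nat_lit 26085537184))) (P (nat_lit 0))) (P (nat_lit 0)))))))), (T.h (T.h (P (nat_lit 0)) (T.h (T.h (P (nat_lit 0))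 (T.h (P (nat_lit 3505100089068918241492992)) (T.h (P (nat_lit 0)) (T.h (P (nat_lit 83778115168194527232)) (T.h (P (nat_lit 0)) (M (nat_lit 335941989346463))))))) (T.h (P (nat_lit 0)) (T.h (T.h (P (nat_lit 0)) (T.h (M (nat_lit 3206093737427992575)) (T.h (P (nat_lit 0)) (P (nat_lit 19834863972112))))) (T.h (P (nat_lit 0)) (T.h (T.h (P (nat_lit 0)) (M (nat_lit 2171138809055))) (P (nat_lit 0)))))))) (T.h (T.h (T.h (P (nat_lit 2084092978544746558608375808)) (T.h (P (nat_lit 0)) (T.h (M (nat_lit 14112679512842935730175)) (T.h (P (nat_lit 0)) (M (nat_lit 145933282261073919)))))) (T.h (P (nat_lit 0)) (T.h (T.h (M (nat_lit 13105697841355797037055)) (T.h (P (nat_lit 0)) (M (nat_lit 45175380232437759)))) (T.h (P (nat_lit 0)) (M (nat_lit 21643633645551615)))))) (T.h (T.h (P (nat_lit 0)) (T.h (T.h (P (nat_lit 0)) (T.h (P (nat_lit 8688976552274165760)) (T.h (P (nat_lit 0)) (P (nat_lit 19291176429520))))) (T.h (P (nat_lit 0)) (T.h (T.h (P (nat_lit 0)) (P (nat_lit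 7731991111936))) (P (nat_lit 0)))))) (T.h (T.h (T.h (M (nat_lit 2445534956294129057791)) (T.h (P (nat_lit 0)) (P (nat_lit 3081846973022208)))) (T.h (P (nat_lit 0)) (M (nat_lit 10769564384280575)))) (T.h (T.h (P (nat_lit 0)) (T.h (T.h (P (nat_lit 0)) (M (nat_lit 6391443606815))) (P (nat_lit 0)))) (P (nat_lit 2747498126852096))))))), (T.h (T.h (P (nat_lit 0)) (T.h (T.h (M (nat_lit 2787373763577663888453271551)) (T.h (P (nat_lit 0)) (T.h (P (nat_lit 37652368741945447546880)) (T.h (P (nat_lit 0)) (P (nat_lit 498903295979454464)))))) (T.h (P (nat_lit 0)) (T.h (T.h (M (nat_lit 14596476764099333586943)) (T.h (P (nat_lit 0)) (M (nat_lit 18450982411370495)))) (T.h (P (nat_lit 0)) (P (nat_lit 12471877204180992))))))) (T.h (T.h (T.h (P (nat_lit 0)) (T.h (P (nat_lit 8420469345027642405945344)) (T.h (P (nat_lit 0)) (T.h (P (nat_lit 184211853846620667904)) (T.h (P (nat_lit 0)) (M (nat_lit 98814136291871))))))) (T.h (P (nat_lit 0)) (T.h (T.h (P (nat_lit 0)) (T.h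 (M (nat_lit 29332209703661338623)) (T.h (P (nat_lit 0)) (M (nat_lit 31467877982927))))) (T.h (P (nat_lit 0)) (T.h (T.h (P (nat_lit 0)) (M (nat_lit 5796365101967))) (P (nat_lit 0))))))) (T.h (T.h (P (nat_lit 0)) (T.h (T.h (M (nat_lit 3668610430600438874111)) (T.h (P (nat_lit 0)) (M (nat_lit 105182443699470335)))) (T.h (P (nat_lit 0)) (M (nat_lit 47013678771863551))))) (T.h (T.h (T.h (P (nat_lit 0)) (T.h (M (nat_lit 26595740297180741631)) (T.h (P (nat_lit 0)) (P (nat_lit 13347002066688))))) (T.h (P (nat_lit 0)) (T.h (T.h (P (nat_lit 0)) (M (nat_lit 18427241446751))) (P (nat_lit 0))))) (T.h (T.h (P (nat_lit 0)) (M (nat_lit 12344674416689151))) (T.h (T.h (T.h (P (nat_lit 0)) (P (nat_lit 2088080913312))) (P (nat_lit 0))) (P (nat_lit 0)))))))), (T.h (T.h (P (nat_lit 0)) (T.h (T.h (P (nat_lit 0)) (T.h (P (nat_lit 16770020288298499683909632)) (T.h (P (nat_lit 0)) (T.h (M (nat_lit 54436003502392082431)) (T.h (P (nat_lit 0)) (P (nat_lit 310329193881600)))))))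 (T.h (P (nat_lit 0)) (T.h (T.h (P (nat_lit 0)) (T.h (M (nat_lit 24581911049941286911)) (T.h (P (nat_lit 0)) (M (nat_lit 15746492039039))))) (T.h (P (nat_lit 0)) (T.h (T.h (P (nat_lit 0)) (M (nat_lit 3743196082991))) (P (nat_lit 0)))))))) (T.h (T.h (T.h (P (nat_lit 7613911020926650974465949696)) (T.h (P (nat_lit 0)) (T.h (M (nat_lit 37608647712375417339903)) (T.h (P (nat_lit 0)) (P (nat_lit 288386959946383360)))))) (T.h (P (nat_lit 0)) (T.h (T.h (P (nat_lit 856239061351264157696)) (T.h (P (nat_lit 0)) (M (nat_lit 11201544438792191)))) (T.h (P (nat_lit 0)) (M (nat_lit 18543270365085695)))))) (T.h (T.h (P (nat_lit 0)) (T.h (T.h (P (nat_lit 0)) (T.h (P (nat_lit 6148453346429632512)) (T.h (P (nat_lit 0)) (M (nat_lit 157763501468927))))) (T.h (P (nat_lit 0)) (T.h (T.h (P (nat_lit 0)) (M (nat_lit 43491366017423))) (P (nat_lit 0)))))) (T.h (T.h (T.h (P (nat_lit 3737831950392995348480)) (T.h (P (nat_lit 0)) (M (nat_lit 15025593104400383)))) (T.h (P (nat_lit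 0)) (P (nat_lit 18868985238323200)))) (T.h (T.h (P (nat_lit 0)) (T.h (T.h (P (nat_lit 0)) (P (nat_lit 17575024374576))) (P (nat_lit 0)))) (M (nat_lit 2662119321436159))))))), (T.h (T.h (P (nat_lit 0)) (T.h (T.h (M (nat_lit 1069719061105742419312246783)) (T.h (P (nat_lit 0)) (T.h (M (nat_lit 9039233065320873721855)) (T.h (P (nat_lit 0)) (M (nat_lit 360924354560393215)))))) (T.h (P (nat_lit 0)) (T.h (T.h (P (nat_lit 4810639926731932172288)) (T.h (P (nat_lit 0)) (M (nat_lit 9114228696940543)))) (T.h (P (nat_lit 0)) (P (nat_lit 189485684457472))))))) (T.h (T.h (T.h (P (nat_lit 0)) (T.h (M (nat_lit 1761177201905144919228415)) (T.h (P (nat_lit 0)) (M (nat_lit 159289274093619118079))))) (T.h (P (nat_lit 0)) (T.h (T.h (P (nat_lit 0)) (P (nat_lit 13635200529196908544))) (P (nat_lit 0))))) (T.h (T.h (P (nat_lit 0)) (T.h (T.h (P (nat_lit 167114983961662586880)) (T.h (P (nat_lit 0)) (P (nat_lit 69713786696892416)))) (T.h (P (nat_lit 0)) (P (nat_lit 3999072314753024)))))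 (T.h (T.h (T.h (P (nat_lit 0)) (M (nat_lit 1424453042811437055))) (P (nat_lit 0))) (T.h (T.h (P (nat_lit 0)) (M (nat_lit 6948109256065023))) (P (nat_lit 0)))))))]
def lP11_4 : List (T ℤ) := [(P (nat_lit 0)), (P (nat_lit 0)), (T.h (T.h (T.h (P (nat_lit 0)) (T.h (M (nat_lit 2446445817314079046260228095)) (T.h (P (nat_lit 0)) (T.h (P (nat_lit 14113606204607447433216)) (T.h (P (nat_lit 0)) (M (nat_lit 14427111626145791))))))) (T.h (P (nat_lit 0)) (T.h (T.h (P (nat_lit 0)) (T.h (P (nat_lit 9524129684993658060800)) (T.h (P (nat_lit 0)) (P (nat_lit 46263438480408576))))) (T.h (P (nat_lit 0)) (T.h (T.h (P (nat_lit 0)) (P (nat_lit 14579344540237824))) (P (nat_lit 0))))))) (T.h (T.h (P (nat_lit 0)) (T.h (T.h (P (nat_lit 6034124902302266928660480)) (T.h (P (nat_lit 0)) (T.h (P (nat_lit 93185734165020016640)) (T.h (P (nat_lit 0)) (P (nat_lit 17695890957600)))))) (T.h (P (nat_lit 0)) (T.h (T.h (M (nat_lit 2708072234307551231)) (T.h (P (nat_lit 0)) (P (nat_lit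 16120243369672)))) (T.h (P (nat_lit 0)) (M (nat_lit 33957735906503))))))) (T.h (T.h (T.h (P (nat_lit 0)) (T.h (P (nat_lit 3729586567560768258048)) (T.h (P (nat_lit 0)) (P (nat_lit 1902440084045824))))) (T.h (P (nat_lit 0)) (T.h (T.h (P (nat_lit 0)) (M (nat_lit 32332720980328447))) (P (nat_lit 0))))) (T.h (T.h (P (nat_lit 0)) (T.h (T.h (P (nat_lit 2800396035392798720)) (T.h (P (nat_lit 0)) (M (nat_lit 16412332180447)))) (T.h (P (nat_lit 0)) (P (nat_lit 13956825122808))))) (T.h (T.h (T.h (P (nat_lit 0)) (M (nat_lit 17775016194080767))) (P (nat_lit 0))) (T.h (T.h (P (nat_lit 0)) (P (nat_lit 9180840934728))) (P (nat_lit 0)))))))), (T.h (T.h (T.h (P (nat_lit 10240767002178687954892823199744)) (T.h (P (nat_lit 0)) (T.h (P (nat_lit 12058186289434892836012032)) (T.h (P (nat_lit 0)) (T.h (M (nat_lit 2233296166391382015)) (T.h (P (nat_lit 0)) (P (nat_lit 33595231580112)))))))) (T.h (P (nat_lit 0)) (T.h (T.h (M (nat_lit 4923473558923471130460159)) (T.h (P (nat_lit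 0)) (T.h (P (nat_lit 65010833342637015040)) (T.h (P (nat_lit 0)) (M (nat_lit 19123657897535)))))) (T.h (P (nat_lit 0)) (T.h (T.h (P (nat_lit 24525644828128575488)) (T.h (P (nat_lit 0)) (M (nat_lit 35834186439263)))) (T.h (P (nat_lit 0)) (P (nat_lit 5106811990464)))))))) (T.h (T.h (P (nat_lit 0)) (T.h (T.h (P (nat_lit 0)) (T.h (P (nat_lit 9916637199665389895680)) (T.h (P (nat_lit 0)) (M (nat_lit 8549900743704575))))) (T.h (P (nat_lit 0)) (T.h (T.h (P (nat_lit 0)) (P (nat_lit 92963174163087360))) (P (nat_lit 0)))))) (T.h (T.h (T.h (P (nat_lit 1874529792743809499529216)) (T.h (P (nat_lit 0)) (T.h (M (nat_lit 51208003868654829567)) (T.h (P (nat_lit 0)) (P (nat_lit 52052519111328)))))) (T.h (P (nat_lit 0)) (T.h (T.h (P (nat_lit 7358800448335118336)) (T.h (P (nat_lit 0)) (M (nat_lit 23507951099487)))) (T.h (P (nat_lit 0)) (M (nat_lit 2332677536639)))))) (T.h (T.h (P (nat_lit 0)) (T.h (T.h (P (nat_lit 0)) (M (nat_lit 9230042037944319))) (P (nat_lit 0))))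 (T.h (T.h (T.h (M (nat_lit 541262488075763711)) (T.h (P (nat_lit 0)) (M (nat_lit 4136082018047)))) (T.h (P (nat_lit 0)) (P (nat_lit 3880953721632)))) (T.h (P (nat_lit 0)) (M (nat_lit 1226078413135)))))))), (T.h (T.h (T.h (P (nat_lit 0)) (T.h (M (nat_lit 13738543897078520168434368511)) (T.h (P (nat_lit 0)) (T.h (P (nat_lit 89746200216324985061376)) (T.h (P (nat_lit 0)) (M (nat_lit 42162729439887359))))))) (T.h (P (nat_lit 0)) (T.h (T.h (P (nat_lit 0)) (T.h (P (nat_lit 71863826799750006439936)) (T.h (P (nat_lit 0)) (M (nat_lit 93737683484508159))))) (T.h (P (nat_lit 0)) (T.h (T.h (P (nat_lit 0)) (P (nat_lit 35006146232877056))) (P (nat_lit 0))))))) (T.h (T.h (P (nat_lit 0)) (T.h (T.h (P (nat_lit 1682189232321638827032576)) (T.h (P (nat_lit 0)) (T.h (P (nat_lit 58648929392887070720)) (T.h (P (nat_lit 0)) (M (nat_lit 154815030088991)))))) (T.h (P (nat_lit 0)) (T.h (T.h (P (nat_lit 29827779157339144192)) (T.h (P (nat_lit 0)) (M (nat_lit 49743205508255))))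 (T.h (P (nat_lit 0)) (P (nat_lit 18104669004960))))))) (T.h (T.h (T.h (P (nat_lit 0)) (T.h (P (nat_lit 53116712304456398536704)) (T.h (P (nat_lit 0)) (M (nat_lit 239507379198361599))))) (T.h (P (nat_lit 0)) (T.h (T.h (P (nat_lit 0)) (M (nat_lit 45237387053236223))) (P (nat_lit 0))))) (T.h (T.h (P (nat_lit 0)) (T.h (T.h (P (nat_lit 34971865101436452864)) (T.h (P (nat_lit 0)) (P (nat_lit 6806561621472)))) (T.h (P (nat_lit 0)) (M (nat_lit 3182115287471))))) (T.h (T.h (T.h (P (nat_lit 0)) (P (nat_lit 13389182920425472))) (P (nat_lit 0))) (T.h (T.h (P (nat_lit 0)) (M (nat_lit 2216404253375))) (P (nat_lit 0)))))))), (T.h (T.h (T.h (M (nat_lit 7347284730981760738617207029759)) (T.h (P (nat_lit 0)) (T.h (M (nat_lit 24986163315578777425149951)) (T.h (P (nat_lit 0)) (T.h (P (nat_lit 14892719367979532288)) (T.h (P (nat_lit 0)) (M (nat_lit 1900902457007)))))))) (T.h (P (nat_lit 0)) (T.h (T.h (P (nat_lit 57923522351927671027400704)) (T.h (P (nat_lit 0)) (T.h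 (P (nat_lit 177177424402405392384)) (T.h (P (nat_lit 0)) (P (nat_lit 135693679464000)))))) (T.h (P (nat_lit 0)) (T.h (T.h (M (nat_lit 29989453987150036991)) (T.h (P (nat_lit 0)) (M (nat_lit 29246983189487)))) (T.h (P (nat_lit 0)) (M (nat_lit 12383001643247)))))))) (T.h (T.h (P (nat_lit 0)) (T.h (T.h (P (nat_lit 0)) (T.h (P (nat_lit 70258196730489203589120)) (T.h (P (nat_lit 0)) (P (nat_lit 262996897238188032))))) (T.h (P (nat_lit 0)) (T.h (T.h (P (nat_lit 0)) (P (nat_lit 47568789769158656))) (P (nat_lit 0)))))) (T.h (T.h (T.h (M (nat_lit 4210623603377640919007231)) (T.h (P (nat_lit 0)) (T.h (P (nat_lit 112178435325171859456)) (T.h (P (nat_lit 0)) (M (nat_lit 154054818207791)))))) (T.h (P (nat_lit 0)) (T.h (T.h (M (nat_lit 2352003625896640511)) (T.h (P (nat_lit 0)) (M (nat_lit 154284181097903)))) (T.h (P (nat_lit 0)) (P (nat_lit 3747522647088)))))) (T.h (T.h (P (nat_lit 0)) (T.h (T.h (P (nat_lit 0)) (P (nat_lit 12885981240885248))) (P (nat_lit 0))))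 (T.h (T.h (T.h (P (nat_lit 1445542280348827648)) (T.h (P (nat_lit 0)) (M (nat_lit 40633845785423)))) (T.h (P (nat_lit 0)) (M (nat_lit 40758030476063)))) (T.h (P (nat_lit 0)) (P (nat_lit 2262664312560)))))))), (T.h (T.h (T.h (P (nat_lit 0)) (T.h (P (nat_lit 5938840239767262457329876992)) (T.h (P (nat_lit 0)) (T.h (M (nat_lit 15260972577348049174527)) (T.h (P (nat_lit 0)) (M (nat_lit 68021766630866943))))))) (T.h (P (nat_lit 0)) (T.h (T.h (P (nat_lit 0)) (T.h (M (nat_lit 83505656668972851920895)) (T.h (P (nat_lit 0)) (M (nat_lit 112761797231247359))))) (T.h (P (nat_lit 0)) (T.h (T.h (P (nat_lit 0)) (P (nat_lit 17569552337108992))) (P (nat_lit 0))))))) (T.h (T.h (P (nat_lit 0)) (T.h (T.h (M (nat_lit 8121832179209592299847679)) (T.h (P (nat_lit 0)) (M (nat_lit 9408689513531703295)))) (T.h (P (nat_lit 0)) (P (nat_lit 18589109809936596992))))) (T.h (T.h (T.h (P (nat_lit 0)) (T.h (M (nat_lit 32448110580492473991167)) (T.h (P (nat_lit 0)) (P (nat_lit 176124080196288512)))))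 (T.h (P (nat_lit 0)) (T.h (T.h (P (nat_lit 0)) (P (nat_lit 99906550954229760))) (P (nat_lit 0))))) (T.h (T.h (P (nat_lit 0)) (M (nat_lit 6818117037345210367))) (T.h (T.h (T.h (P (nat_lit 0)) (P (nat_lit 14493620268662784))) (P (nat_lit 0))) (P (nat_lit 0))))))), (P (nat_lit 0))]
def lP11_5 : List (T ℤ) := [(P (nat_lit 0)), (T.h (T.h (P (nat_lit 0)) (T.h (T.h (M (nat_lit 2446445817314079046260228095)) (T.h (P (nat_lit 0)) (T.h (P (nat_lit 9524129684993658060800)) (T.h (P (nat_lit 0)) (P (nat_lit 14579344540237824)))))) (T.h (P (nat_lit 0)) (T.h (T.h (P (nat_lit 14113606204607447433216)) (T.h (P (nat_lit 0)) (P (nat_lit 46263438480408576)))) (T.h (P (nat_lit 0)) (M (nat_lit 14427111626145791))))))) (T.h (T.h (T.h (P (nat_lit 0)) (T.h (P (nat_lit 6034124902302266928660480)) (T.h (P (nat_lit 0)) (T.h (M (nat_lit 2708072234307551231)) (T.h (P (nat_lit 0)) (M (nat_lit 33957735906503))))))) (T.h (P (nat_lit 0)) (T.h (T.h (P (nat_lit 0)) (T.h (P (nat_lit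 93185734165020016640)) (T.h (P (nat_lit 0)) (P (nat_lit 16120243369672))))) (T.h (P (nat_lit 0)) (T.h (T.h (P (nat_lit 0)) (P (nat_lit 17695890957600))) (P (nat_lit 0))))))) (T.h (T.h (P (nat_lit 0)) (T.h (T.h (P (nat_lit 3729586567560768258048)) (T.h (P (nat_lit 0)) (M (nat_lit 32332720980328447)))) (T.h (P (nat_lit 0)) (P (nat_lit 1902440084045824))))) (T.h (T.h (T.h (P (nat_lit 0)) (T.h (P (nat_lit 2800396035392798720)) (T.h (P (nat_lit 0)) (P (nat_lit 13956825122808))))) (T.h (P (nat_lit 0)) (T.h (T.h (P (nat_lit 0)) (M (nat_lit 16412332180447))) (P (nat_lit 0))))) (T.h (T.h (P (nat_lit 0)) (M (nat_lit 17775016194080767))) (T.h (T.h (T.h (P (nat_lit 0)) (P (nat_lit 9180840934728))) (P (nat_lit 0))) (P (nat_lit 0)))))))), (T.h (T.h (P (nat_lit 0)) (T.h (T.h (P (nat_lit 0)) (T.h (M (nat_lit 21684869927939417095274495)) (T.h (P (nat_lit 0)) (T.h (M (nat_lit 206766406671320219647)) (T.h (P (nat_lit 0)) (P (nat_lit 16513881934288))))))) (T.h (P (nat_lit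 0)) (T.h (T.h (P (nat_lit 0)) (T.h (M (nat_lit 206766406671320219647)) (T.h (P (nat_lit 0)) (M (nat_lit 399778677697119))))) (T.h (P (nat_lit 0)) (T.h (T.h (P (nat_lit 0)) (P (nat_lit 16513881934288))) (P (nat_lit 0)))))))) (T.h (T.h (T.h (P (nat_lit 11020416314614742364347957248)) (T.h (P (nat_lit 0)) (T.h (M (nat_lit 12844806377626037911551)) (T.h (P (nat_lit 0)) (P (nat_lit 73671756276744192)))))) (T.h (P (nat_lit 0)) (T.h (T.h (M (nat_lit 12844806377626037911551)) (T.h (P (nat_lit 0)) (M (nat_lit 6591774721277951)))) (T.h (P (nat_lit 0)) (P (nat_lit 73671756276744192)))))) (T.h (T.h (P (nat_lit 0)) (T.h (T.h (P (nat_lit 0)) (T.h (M (nat_lit 12963444723204227071)) (T.h (P (nat_lit 0)) (P (nat_lit 48030240726480))))) (T.h (P (nat_lit 0)) (T.h (T.h (P (nat_lit 0)) (P (nat_lit 48030240726480))) (P (nat_lit 0)))))) (T.h (T.h (T.h (M (nat_lit 5737787604839604158463)) (T.h (P (nat_lit 0)) (P (nat_lit 38487973547999232)))) (T.h (P (nat_lit 0)) (P (nat_lit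 38487973547999232)))) (T.h (T.h (P (nat_lit 0)) (T.h (T.h (P (nat_lit 0)) (P (nat_lit 191230761875616))) (P (nat_lit 0)))) (P (nat_lit 437921507999744))))))), (T.h (T.h (P (nat_lit 0)) (T.h (T.h (P (nat_lit 4368116058228354375101710336)) (T.h (P (nat_lit 0)) (T.h (M (nat_lit 1446955682022832472063)) (T.h (P (nat_lit 0)) (P (nat_lit 21747700251721728)))))) (T.h (P (nat_lit 0)) (T.h (T.h (M (nat_lit 7380388423830398304255)) (T.h (P (nat_lit 0)) (P (nat_lit 634665869733625856)))) (T.h (P (nat_lit 0)) (P (nat_lit 5045585517576192))))))) (T.h (T.h (T.h (P (nat_lit 0)) (T.h (P (nat_lit 43822609512558630782631936)) (T.h (P (nat_lit 0)) (T.h (M (nat_lit 178327785982151098367)) (T.h (P (nat_lit 0)) (P (nat_lit 23220499327104))))))) (T.h (P (nat_lit 0)) (T.h (T.h (P (nat_lit 0)) (T.h (M (nat_lit 38265554109261152255)) (T.h (P (nat_lit 0)) (M (nat_lit 85726898830271))))) (T.h (P (nat_lit 0)) (T.h (T.h (P (nat_lit 0)) (P (nat_lit 37567969112640))) (P (nat_lit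 0))))))) (T.h (T.h (P (nat_lit 0)) (T.h (T.h (M (nat_lit 28928474127679788941311)) (T.h (P (nat_lit 0)) (P (nat_lit 66634387635765248)))) (T.h (P (nat_lit 0)) (P (nat_lit 147458440066596864))))) (T.h (T.h (T.h (P (nat_lit 0)) (T.h (M (nat_lit 25450150049553055743)) (T.h (P (nat_lit 0)) (M (nat_lit 13428688508639))))) (T.h (P (nat_lit 0)) (T.h (T.h (P (nat_lit 0)) (M (nat_lit 30149558717327))) (P (nat_lit 0))))) (T.h (T.h (P (nat_lit 0)) (M (nat_lit 59547746259075071))) (T.h (T.h (T.h (P (nat_lit 0)) (P (nat_lit 453752910000))) (P (nat_lit 0))) (P (nat_lit 0)))))))), (T.h (T.h (P (nat_lit 0)) (T.h (T.h (P (nat_lit 0)) (T.h (M (nat_lit 1974649089754001720737791)) (T.h (P (nat_lit 0)) (T.h (P (nat_lit 365582842032417669120)) (T.h (P (nat_lit 0)) (P (nat_lit 418099953986208))))))) (T.h (P (nat_lit 0)) (T.h (T.h (P (nat_lit 0)) (T.h (M (nat_lit 12150048673841020927)) (T.h (P (nat_lit 0)) (P (nat_lit 356919587573616))))) (T.h (P (nat_lit 0)) (T.h (T.h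 (P (nat_lit 0)) (M (nat_lit 153484319177423))) (P (nat_lit 0)))))))) (T.h (T.h (T.h (M (nat_lit 3335675229011176419139518463)) (T.h (P (nat_lit 0)) (T.h (P (nat_lit 24602323935072788414464)) (T.h (P (nat_lit 0)) (P (nat_lit 227435957508997120)))))) (T.h (P (nat_lit 0)) (T.h (T.h (M (nat_lit 7048662301444117889023)) (T.h (P (nat_lit 0)) (P (nat_lit 69244562661801984)))) (T.h (P (nat_lit 0)) (M (nat_lit 55932866233335807)))))) (T.h (T.h (P (nat_lit 0)) (T.h (T.h (P (nat_lit 0)) (T.h (M (nat_lit 18276632113639849983)) (T.h (P (nat_lit 0)) (M (nat_lit 111663856591199))))) (T.h (P (nat_lit 0)) (T.h (T.h (P (nat_lit 0)) (P (nat_lit 157454749658304))) (P (nat_lit 0)))))) (T.h (T.h (T.h (M (nat_lit 2556215325078874750975)) (T.h (P (nat_lit 0)) (M (nat_lit 16203078846971903)))) (T.h (P (nat_lit 0)) (P (nat_lit 10764761764429824)))) (T.h (T.h (P (nat_lit 0)) (T.h (T.h (P (nat_lit 0)) (M (nat_lit 235517594865407))) (P (nat_lit 0)))) (P (nat_lit 3963771170832384))))))),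 (T.h (T.h (P (nat_lit 0)) (T.h (T.h (M (nat_lit 19010715559394962457480921087)) (T.h (P (nat_lit 0)) (T.h (M (nat_lit 337256168840861870718975)) (T.h (P (nat_lit 0)) (M (nat_lit 537460537767034879)))))) (T.h (P (nat_lit 0)) (T.h (T.h (P (nat_lit 17167194726438533070848)) (T.h (P (nat_lit 0)) (M (nat_lit 217035851084890111)))) (T.h (P (nat_lit 0)) (P (nat_lit 51833134429732864))))))) (T.h (T.h (T.h (P (nat_lit 0)) (T.h (M (nat_lit 11796831539250381828653055)) (T.h (P (nat_lit 0)) (M (nat_lit 201848382004607844351))))) (T.h (P (nat_lit 0)) (T.h (T.h (P (nat_lit 0)) (P (nat_lit 27730665333827043328))) (P (nat_lit 0))))) (T.h (T.h (P (nat_lit 0)) (T.h (T.h (M (nat_lit 4534848523537343315967)) (T.h (P (nat_lit 0)) (P (nat_lit 146445637852594176)))) (T.h (P (nat_lit 0)) (M (nat_lit 39240781425016831))))) (T.h (T.h (T.h (P (nat_lit 0)) (P (nat_lit 11447994264663883776))) (P (nat_lit 0))) (T.h (T.h (P (nat_lit 0)) (P (nat_lit 72142769679368192))) (P (nat_lit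 0))))))), (P (nat_lit 0)), (T.h (T.h (T.h (P (nat_lit 0)) (T.h (P (nat_lit 2249173928889727482182238208)) (T.h (P (nat_lit 0)) (T.h (P (nat_lit 8955629997758437392384)) (T.h (P (nat_lit 0)) (M (nat_lit 12698370511568895))))))) (T.h (P (nat_lit 0)) (T.h (T.h (P (nat_lit 0)) (T.h (P (nat_lit 23895936941836185108480)) (T.h (P (nat_lit 0)) (M (nat_lit 30764528360194047))))) (T.h (P (nat_lit 0)) (T.h (T.h (P (nat_lit 0)) (M (nat_lit 69107667941326847))) (P (nat_lit 0))))))) (T.h (T.h (P (nat_lit 0)) (T.h (T.h (M (nat_lit 7185236083707900717957119)) (T.h (P (nat_lit 0)) (T.h (P (nat_lit 2037456595029327872)) (T.h (P (nat_lit 0)) (M (nat_lit 20349208859607)))))) (T.h (P (nat_lit 0)) (T.h (T.h (P (nat_lit 12105574288833118208)) (T.h (P (nat_lit 0)) (P (nat_lit 106076979911416)))) (T.h (P (nat_lit 0)) (M (nat_lit 37010954213999))))))) (T.h (T.h (T.h (P (nat_lit 0)) (T.h (M (nat_lit 4991051602226185240575)) (T.h (P (nat_lit 0)) (P (nat_lit 2757992272723968)))))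 (T.h (P (nat_lit 0)) (T.h (T.h (P (nat_lit 0)) (P (nat_lit 12565639803011072))) (P (nat_lit 0))))) (T.h (T.h (P (nat_lit 0)) (T.h (T.h (P (nat_lit 3354224471622811648)) (T.h (P (nat_lit 0)) (M (nat_lit 4652274396391)))) (T.h (P (nat_lit 0)) (M (nat_lit 8558637664695))))) (T.h (T.h (T.h (P (nat_lit 0)) (P (nat_lit 2120504879120384))) (P (nat_lit 0))) (T.h (T.h (P (nat_lit 0)) (P (nat_lit 26085537184))) (P (nat_lit 0))))))))]
def lP11_6 : List (T ℤ) := [(T.h (T.h (T.h (P (nat_lit 10240767002178687954892823199744)) (T.h (P (nat_lit 0)) (T.h (M (nat_lit 4923473558923471130460159)) (T.h (P (nat_lit 0)) (T.h (P (nat_lit 24525644828128575488)) (T.h (P (nat_lit 0)) (P (nat_lit 5106811990464)))))))) (T.h (P (nat_lit 0)) (T.h (T.h (P (nat_lit 12058186289434892836012032)) (T.h (P (nat_lit 0)) (T.h (P (nat_lit 65010833342637015040)) (T.h (P (nat_lit 0)) (M (nat_lit 35834186439263)))))) (T.h (P (nat_lit 0)) (T.h (T.h (M (nat_lit 2233296166391382015)) (T.h (P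 (nat_lit 0)) (M (nat_lit 19123657897535)))) (T.h (P (nat_lit 0)) (P (nat_lit 33595231580112)))))))) (T.h (T.h (P (nat_lit 0)) (T.h (T.h (P (nat_lit 0)) (T.h (P (nat_lit 9916637199665389895680)) (T.h (P (nat_lit 0)) (P (nat_lit 92963174163087360))))) (T.h (P (nat_lit 0)) (T.h (T.h (P (nat_lit 0)) (M (nat_lit 8549900743704575))) (P (nat_lit 0)))))) (T.h (T.h (T.h (P (nat_lit 1874529792743809499529216)) (T.h (P (nat_lit 0)) (T.h (P (nat_lit 7358800448335118336)) (T.h (P (nat_lit 0)) (M (nat_lit 2332677536639)))))) (T.h (P (nat_lit 0)) (T.h (T.h (M (nat_lit 51208003868654829567)) (T.h (P (nat_lit 0)) (M (nat_lit 23507951099487)))) (T.h (P (nat_lit 0)) (P (nat_lit 52052519111328)))))) (T.h (T.h (P (nat_lit 0)) (T.h (T.h (P (nat_lit 0)) (M (nat_lit 9230042037944319))) (P (nat_lit 0)))) (T.h (T.h (T.h (M (nat_lit 541262488075763711)) (T.h (P (nat_lit 0)) (P (nat_lit 3880953721632)))) (T.h (P (nat_lit 0)) (M (nat_lit 4136082018047)))) (T.h (P (nat_lit 0))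 (M (nat_lit 1226078413135)))))))), (T.h (T.h (T.h (P (nat_lit 0)) (T.h (P (nat_lit 4368116058228354375101710336)) (T.h (P (nat_lit 0)) (T.h (M (nat_lit 7380388423830398304255)) (T.h (P (nat_lit 0)) (P (nat_lit 5045585517576192))))))) (T.h (P (nat_lit 0)) (T.h (T.h (P (nat_lit 0)) (T.h (M (nat_lit 1446955682022832472063)) (T.h (P (nat_lit 0)) (P (nat_lit 634665869733625856))))) (T.h (P (nat_lit 0)) (T.h (T.h (P (nat_lit 0)) (P (nat_lit 21747700251721728))) (P (nat_lit 0))))))) (T.h (T.h (P (nat_lit 0)) (T.h (T.h (P (nat_lit 43822609512558630782631936)) (T.h (P (nat_lit 0)) (T.h (M (nat_lit 38265554109261152255)) (T.h (P (nat_lit 0)) (P (nat_lit 37567969112640)))))) (T.h (P (nat_lit 0)) (T.h (T.h (M (nat_lit 178327785982151098367)) (T.h (P (nat_lit 0)) (M (nat_lit 85726898830271)))) (T.h (P (nat_lit 0)) (P (nat_lit 23220499327104))))))) (T.h (T.h (T.h (P (nat_lit 0)) (T.h (M (nat_lit 28928474127679788941311)) (T.h (P (nat_lit 0)) (P (nat_lit 147458440066596864)))))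 (T.h (P (nat_lit 0)) (T.h (T.h (P (nat_lit 0)) (P (nat_lit 66634387635765248))) (P (nat_lit 0))))) (T.h (T.h (P (nat_lit 0)) (T.h (T.h (M (nat_lit 25450150049553055743)) (T.h (P (nat_lit 0)) (M (nat_lit 30149558717327)))) (T.h (P (nat_lit 0)) (M (nat_lit 13428688508639))))) (T.h (T.h (T.h (P (nat_lit 0)) (M (nat_lit 59547746259075071))) (P (nat_lit 0))) (T.h (T.h (P (nat_lit 0)) (P (nat_lit 453752910000))) (P (nat_lit 0)))))))), (T.h (T.h (T.h (P (nat_lit 2702654388380850163848774156288)) (T.h (P (nat_lit 0)) (T.h (P (nat_lit 1227016224249122383724544)) (T.h (P (nat_lit 0)) (T.h (M (nat_lit 220068457998087880703)) (T.h (P (nat_lit 0)) (M (nat_lit 123801535670687)))))))) (T.h (P (nat_lit 0)) (T.h (T.h (P (nat_lit 1227016224249122383724544)) (T.h (P (nat_lit 0)) (T.h (M (nat_lit 276733554994396004351)) (T.h (P (nat_lit 0)) (P (nat_lit 8403018471936)))))) (T.h (P (nat_lit 0)) (T.h (T.h (M (nat_lit 220068457998087880703)) (T.h (P (nat_lit 0)) (P (nat_lit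 8403018471936)))) (T.h (P (nat_lit 0)) (M (nat_lit 123801535670687)))))))) (T.h (T.h (P (nat_lit 0)) (T.h (T.h (P (nat_lit 0)) (T.h (M (nat_lit 163346086602152943288319)) (T.h (P (nat_lit 0)) (M (nat_lit 255115424693092351))))) (T.h (P (nat_lit 0)) (T.h (T.h (P (nat_lit 0)) (M (nat_lit 255115424693092351))) (P (nat_lit 0)))))) (T.h (T.h (T.h (P (nat_lit 5204542924563187540951040)) (T.h (P (nat_lit 0)) (T.h (M (nat_lit 37801069697948450815)) (T.h (P (nat_lit 0)) (P (nat_lit 41722221577392)))))) (T.h (P (nat_lit 0)) (T.h (T.h (M (nat_lit 37801069697948450815)) (T.h (P (nat_lit 0)) (P (nat_lit 330438239353728)))) (T.h (P (nat_lit 0)) (P (nat_lit 41722221577392)))))) (T.h (T.h (P (nat_lit 0)) (T.h (T.h (P (nat_lit 0)) (P (nat_lit 180425386868539392))) (P (nat_lit 0)))) (T.h (T.h (T.h (M (nat_lit 5967627830152921087)) (T.h (P (nat_lit 0)) (P (nat_lit 51762713890032)))) (T.h (P (nat_lit 0)) (P (nat_lit 51762713890032)))) (T.h (P (nat_lit 0)) (M (nat_lit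 2380305145823)))))))), (T.h (T.h (T.h (P (nat_lit 0)) (T.h (P (nat_lit 4622686116289818125836222464)) (T.h (P (nat_lit 0)) (T.h (P (nat_lit 67326681209505262338048)) (T.h (P (nat_lit 0)) (P (nat_lit 73889396061962240))))))) (T.h (P (nat_lit 0)) (T.h (T.h (P (nat_lit 0)) (T.h (P (nat_lit 210632273554275901112320)) (T.h (P (nat_lit 0)) (M (nat_lit 251305719263821823))))) (T.h (P (nat_lit 0)) (T.h (T.h (P (nat_lit 0)) (P (nat_lit 170806740523974656))) (P (nat_lit 0))))))) (T.h (T.h (P (nat_lit 0)) (T.h (T.h (P (nat_lit 32368617483080180722302976)) (T.h (P (nat_lit 0)) (P (nat_lit 210714216620942688256)))) (T.h (P (nat_lit 0)) (P (nat_lit 70812932436679196672))))) (T.h (T.h (T.h (P (nat_lit 0)) (T.h (P (nat_lit 5038203398620824207360)) (T.h (P (nat_lit 0)) (M (nat_lit 12566762318135295))))) (T.h (P (nat_lit 0)) (T.h (T.h (P (nat_lit 0)) (M (nat_lit 257875223365943295))) (P (nat_lit 0))))) (T.h (T.h (P (nat_lit 0)) (M (nat_lit 30422275876538286079)))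 (T.h (T.h (T.h (P (nat_lit 0)) (P (nat_lit 30035550910087168))) (P (nat_lit 0))) (P (nat_lit 0))))))), (T.h (T.h (P (nat_lit 0)) (T.h (T.h (M (nat_lit 5759271470269521065423142911)) (T.h (P (nat_lit 0)) (T.h (P (nat_lit 2712750349386849976320)) (T.h (P (nat_lit 0)) (M (nat_lit 2704680764932095)))))) (T.h (P (nat_lit 0)) (T.h (T.h (P (nat_lit 5469803030520608587776)) (T.h (P (nat_lit 0)) (M (nat_lit 12044449115373567)))) (T.h (P (nat_lit 0)) (M (nat_lit 206113574879231))))))) (T.h (T.h (T.h (P (nat_lit 0)) (T.h (P (nat_lit 4204261618133833938370560)) (T.h (P (nat_lit 0)) (T.h (P (nat_lit 1436442446299922432)) (T.h (P (nat_lit 0)) (P (nat_lit 1300883372136))))))) (T.h (P (nat_lit 0)) (T.h (T.h (P (nat_lit 0)) (T.h (M (nat_lit 22564888246348677119)) (T.h (P (nat_lit 0)) (M (nat_lit 13039914007615))))) (T.h (P (nat_lit 0)) (T.h (T.h (P (nat_lit 0)) (M (nat_lit 135946721145023))) (P (nat_lit 0))))))) (T.h (T.h (P (nat_lit 0)) (T.h (T.h (P (nat_lit 2781654216421851267072))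 (T.h (P (nat_lit 0)) (P (nat_lit 13732124649455616)))) (T.h (P (nat_lit 0)) (M (nat_lit 468974644527103))))) (T.h (T.h (T.h (P (nat_lit 0)) (T.h (M (nat_lit 279505857551532031)) (T.h (P (nat_lit 0)) (P (nat_lit 72660681504))))) (T.h (P (nat_lit 0)) (T.h (T.h (P (nat_lit 0)) (M (nat_lit 23848727315007))) (P (nat_lit 0))))) (T.h (T.h (P (nat_lit 0)) (M (nat_lit 1986962158813183))) (T.h (T.h (T.h (P (nat_lit 0)) (P (nat_lit 251898760536))) (P (nat_lit 0))) (P (nat_lit 0)))))))), (T.h (T.h (P (nat_lit 0)) (T.h (T.h (P (nat_lit 0)) (T.h (P (nat_lit 3505100089068918241492992)) (T.h (P (nat_lit 0)) (T.h (M (nat_lit 3206093737427992575)) (T.h (P (nat_lit 0)) (M (nat_lit 2171138809055))))))) (T.h (P (nat_lit 0)) (T.h (T.h (P (nat_lit 0)) (T.h (P (nat_lit 83778115168194527232)) (T.h (P (nat_lit 0)) (P (nat_lit 19834863972112))))) (T.h (P (nat_lit 0)) (T.h (T.h (P (nat_lit 0)) (M (nat_lit 335941989346463))) (P (nat_lit 0)))))))) (T.h (T.h (T.h (P (nat_lit 2084092978544746558608375808))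 (T.h (P (nat_lit 0)) (T.h (M (nat_lit 13105697841355797037055)) (T.h (P (nat_lit 0)) (M (nat_lit 21643633645551615)))))) (T.h (P (nat_lit 0)) (T.h (T.h (M (nat_lit 14112679512842935730175)) (T.h (P (nat_lit 0)) (M (nat_lit 45175380232437759)))) (T.h (P (nat_lit 0)) (M (nat_lit 145933282261073919)))))) (T.h (T.h (P (nat_lit 0)) (T.h (T.h (P (nat_lit 0)) (T.h (P (nat_lit 8688976552274165760)) (T.h (P (nat_lit 0)) (P (nat_lit 7731991111936))))) (T.h (P (nat_lit 0)) (T.h (T.h (P (nat_lit 0)) (P (nat_lit 19291176429520))) (P (nat_lit 0)))))) (T.h (T.h (T.h (M (nat_lit 2445534956294129057791)) (T.h (P (nat_lit 0)) (M (nat_lit 10769564384280575)))) (T.h (P (nat_lit 0)) (P (nat_lit 3081846973022208)))) (T.h (T.h (P (nat_lit 0)) (T.h (T.h (P (nat_lit 0)) (M (nat_lit 6391443606815))) (P (nat_lit 0)))) (P (nat_lit 2747498126852096))))))), (T.h (T.h (P (nat_lit 0)) (T.h (T.h (M (nat_lit 13738543897078520168434368511)) (T.h (P (nat_lit 0)) (T.h (P (nat_lit 71863826799750006439936))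 (T.h (P (nat_lit 0)) (P (nat_lit 35006146232877056)))))) (T.h (P (nat_lit 0)) (T.h (T.h (P (nat_lit 89746200216324985061376)) (T.h (P (nat_lit 0)) (M (nat_lit 93737683484508159)))) (T.h (P (nat_lit 0)) (M (nat_lit 42162729439887359))))))) (T.h (T.h (T.h (P (nat_lit 0)) (T.h (P (nat_lit 1682189232321638827032576)) (T.h (P (nat_lit 0)) (T.h (P (nat_lit 29827779157339144192)) (T.h (P (nat_lit 0)) (P (nat_lit 18104669004960))))))) (T.h (P (nat_lit 0)) (T.h (T.h (P (nat_lit 0)) (T.h (P (nat_lit 58648929392887070720)) (T.h (P (nat_lit 0)) (M (nat_lit 49743205508255))))) (T.h (P (nat_lit 0)) (T.h (T.h (P (nat_lit 0)) (M (nat_lit 154815030088991))) (P (nat_lit 0))))))) (T.h (T.h (P (nat_lit 0)) (T.h (T.h (P (nat_lit 53116712304456398536704)) (T.h (P (nat_lit 0)) (M (nat_lit 45237387053236223)))) (T.h (P (nat_lit 0)) (M (nat_lit 239507379198361599))))) (T.h (T.h (T.h (P (nat_lit 0)) (T.h (P (nat_lit 34971865101436452864)) (T.h (P (nat_lit 0)) (M (nat_lit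 3182115287471))))) (T.h (P (nat_lit 0)) (T.h (T.h (P (nat_lit 0)) (P (nat_lit 6806561621472))) (P (nat_lit 0))))) (T.h (T.h (P (nat_lit 0)) (P (nat_lit 13389182920425472))) (T.h (T.h (T.h (P (nat_lit 0)) (M (nat_lit 2216404253375))) (P (nat_lit 0))) (P (nat_lit 0)))))))), (T.h (T.h (P (nat_lit 0)) (T.h (T.h (P (nat_lit 0)) (T.h (M (nat_lit 1974649089754001720737791)) (T.h (P (nat_lit 0)) (T.h (M (nat_lit 12150048673841020927)) (T.h (P (nat_lit 0)) (M (nat_lit 153484319177423))))))) (T.h (P (nat_lit 0)) (T.h (T.h (P (nat_lit 0)) (T.h (P (nat_lit 365582842032417669120)) (T.h (P (nat_lit 0)) (P (nat_lit 356919587573616))))) (T.h (P (nat_lit 0)) (T.h (T.h (P (nat_lit 0)) (P (nat_lit 418099953986208))) (P (nat_lit 0)))))))) (T.h (T.h (T.h (M (nat_lit 3335675229011176419139518463)) (T.h (P (nat_lit 0)) (T.h (M (nat_lit 7048662301444117889023)) (T.h (P (nat_lit 0)) (M (nat_lit 55932866233335807)))))) (T.h (P (nat_lit 0)) (T.h (T.h (P (nat_lit 24602323935072788414464))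 (T.h (P (nat_lit 0)) (P (nat_lit 69244562661801984)))) (T.h (P (nat_lit 0)) (P (nat_lit 227435957508997120)))))) (T.h (T.h (P (nat_lit 0)) (T.h (T.h (P (nat_lit 0)) (T.h (M (nat_lit 18276632113639849983)) (T.h (P (nat_lit 0)) (P (nat_lit 157454749658304))))) (T.h (P (nat_lit 0)) (T.h (T.h (P (nat_lit 0)) (M (nat_lit 111663856591199))) (P (nat_lit 0)))))) (T.h (T.h (T.h (M (nat_lit 2556215325078874750975)) (T.h (P (nat_lit 0)) (P (nat_lit 10764761764429824)))) (T.h (P (nat_lit 0)) (M (nat_lit 16203078846971903)))) (T.h (T.h (P (nat_lit 0)) (T.h (T.h (P (nat_lit 0)) (M (nat_lit 235517594865407))) (P (nat_lit 0)))) (P (nat_lit 3963771170832384)))))))]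
def lP11_7 : List (T ℤ) := [(T.h (T.h (P (nat_lit 0)) (T.h (T.h (P (nat_lit 4622686116289818125836222464)) (T.h (P (nat_lit 0)) (T.h (P (nat_lit 210632273554275901112320)) (T.h (P (nat_lit 0)) (P (nat_lit 170806740523974656)))))) (T.h (P (nat_lit 0)) (T.h (T.h (P (nat_lit 67326681209505262338048)) (T.h (P (nat_lit 0)) (M (nat_lit 251305719263821823)))) (T.h (P (nat_lit 0)) (P (nat_lit 73889396061962240))))))) (T.h (T.h (T.h (P (nat_lit 0)) (T.h (P (nat_lit 32368617483080180722302976)) (T.h (P (nat_lit 0)) (P (nat_lit 70812932436679196672))))) (T.h (P (nat_lit 0)) (T.h (T.h (P (nat_lit 0)) (P (nat_lit 210714216620942688256))) (P (nat_lit 0))))) (T.h (T.h (P (nat_lit 0)) (T.h (T.h (P (nat_lit 5038203398620824207360)) (T.h (P (nat_lit 0)) (M (nat_lit 257875223365943295)))) (T.h (P (nat_lit 0)) (M (nat_lit 12566762318135295))))) (T.h (T.h (T.h (P (nat_lit 0)) (M (nat_lit 30422275876538286079))) (P (nat_lit 0))) (T.h (T.h (P (nat_lit 0)) (P (nat_lit 30035550910087168)))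 (P (nat_lit 0))))))), (T.h (T.h (T.h (P (nat_lit 6945281478211275015688300789760)) (T.h (P (nat_lit 0)) (T.h (M (nat_lit 844005617985062042599423)) (T.h (P (nat_lit 0)) (T.h (M (nat_lit 250077559696392191)) (T.h (P (nat_lit 0)) (M (nat_lit 394146612063)))))))) (T.h (P (nat_lit 0)) (T.h (T.h (M (nat_lit 6892331385474144117194751)) (T.h (P (nat_lit 0)) (T.h (P (nat_lit 28162852510398152704)) (T.h (P (nat_lit 0)) (M (nat_lit 12025278876719)))))) (T.h (P (nat_lit 0)) (T.h (T.h (M (nat_lit 12345843102613766143)) (T.h (P (nat_lit 0)) (M (nat_lit 6531616341807)))) (T.h (P (nat_lit 0)) (P (nat_lit 10239292669440)))))))) (T.h (T.h (P (nat_lit 0)) (T.h (T.h (P (nat_lit 0)) (T.h (P (nat_lit 21790855645850796818432)) (T.h (P (nat_lit 0)) (M (nat_lit 8712303045115903))))) (T.h (P (nat_lit 0)) (T.h (T.h (P (nat_lit 0)) (P (nat_lit 114410331772616704))) (P (nat_lit 0)))))) (T.h (T.h (T.h (M (nat_lit 844005617985062042599423)) (T.h (P (nat_lit 0)) (T.h (P (nat_lit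 1700261905928552448)) (T.h (P (nat_lit 0)) (M (nat_lit 1928525502543)))))) (T.h (P (nat_lit 0)) (T.h (T.h (P (nat_lit 28162852510398152704)) (T.h (P (nat_lit 0)) (M (nat_lit 46369747134399)))) (T.h (P (nat_lit 0)) (M (nat_lit 6531616341807)))))) (T.h (T.h (P (nat_lit 0)) (T.h (T.h (P (nat_lit 0)) (M (nat_lit 8712303045115903))) (P (nat_lit 0)))) (T.h (T.h (T.h (M (nat_lit 250077559696392191)) (T.h (P (nat_lit 0)) (M (nat_lit 1928525502543)))) (T.h (P (nat_lit 0)) (M (nat_lit 12025278876719)))) (T.h (P (nat_lit 0)) (M (nat_lit 394146612063)))))))), (T.h (T.h (T.h (P (nat_lit 0)) (T.h (M (nat_lit 2787373763577663888453271551)) (T.h (P (nat_lit 0)) (T.h (M (nat_lit 14596476764099333586943)) (T.h (P (nat_lit 0)) (P (nat_lit 12471877204180992))))))) (T.h (P (nat_lit 0)) (T.h (T.h (P (nat_lit 0)) (T.h (P (nat_lit 37652368741945447546880)) (T.h (P (nat_lit 0)) (M (nat_lit 18450982411370495))))) (T.h (P (nat_lit 0)) (T.h (T.h (P (nat_lit 0)) (P (nat_lit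 498903295979454464))) (P (nat_lit 0))))))) (T.h (T.h (P (nat_lit 0)) (T.h (T.h (P (nat_lit 8420469345027642405945344)) (T.h (P (nat_lit 0)) (T.h (M (nat_lit 29332209703661338623)) (T.h (P (nat_lit 0)) (M (nat_lit 5796365101967)))))) (T.h (P (nat_lit 0)) (T.h (T.h (P (nat_lit 184211853846620667904)) (T.h (P (nat_lit 0)) (M (nat_lit 31467877982927)))) (T.h (P (nat_lit 0)) (M (nat_lit 98814136291871))))))) (T.h (T.h (T.h (P (nat_lit 0)) (T.h (M (nat_lit 3668610430600438874111)) (T.h (P (nat_lit 0)) (M (nat_lit 47013678771863551))))) (T.h (P (nat_lit 0)) (T.h (T.h (P (nat_lit 0)) (M (nat_lit 105182443699470335))) (P (nat_lit 0))))) (T.h (T.h (P (nat_lit 0)) (T.h (T.h (M (nat_lit 26595740297180741631)) (T.h (P (nat_lit 0)) (M (nat_lit 18427241446751)))) (T.h (P (nat_lit 0)) (P (nat_lit 13347002066688))))) (T.h (T.h (T.h (P (nat_lit 0)) (M (nat_lit 12344674416689151))) (P (nat_lit 0))) (T.h (T.h (P (nat_lit 0)) (P (nat_lit 2088080913312))) (P (nat_lit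 0)))))))), (T.h (T.h (T.h (M (nat_lit 7347284730981760738617207029759)) (T.h (P (nat_lit 0)) (T.h (P (nat_lit 57923522351927671027400704)) (T.h (P (nat_lit 0)) (T.h (M (nat_lit 29989453987150036991)) (T.h (P (nat_lit 0)) (M (nat_lit 12383001643247)))))))) (T.h (P (nat_lit 0)) (T.h (T.h (M (nat_lit 24986163315578777425149951)) (T.h (P (nat_lit 0)) (T.h (P (nat_lit 177177424402405392384)) (T.h (P (nat_lit 0)) (M (nat_lit 29246983189487)))))) (T.h (P (nat_lit 0)) (T.h (T.h (P (nat_lit 14892719367979532288)) (T.h (P (nat_lit 0)) (P (nat_lit 135693679464000)))) (T.h (P (nat_lit 0)) (M (nat_lit 1900902457007)))))))) (T.h (T.h (P (nat_lit 0)) (T.h (T.h (P (nat_lit 0)) (T.h (P (nat_lit 70258196730489203589120)) (T.h (P (nat_lit 0)) (P (nat_lit 47568789769158656))))) (T.h (P (nat_lit 0)) (T.h (T.h (P (nat_lit 0)) (P (nat_lit 262996897238188032))) (P (nat_lit 0)))))) (T.h (T.h (T.h (M (nat_lit 4210623603377640919007231)) (T.h (P (nat_lit 0)) (T.h (M (nat_lit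 2352003625896640511)) (T.h (P (nat_lit 0)) (P (nat_lit 3747522647088)))))) (T.h (P (nat_lit 0)) (T.h (T.h (P (nat_lit 112178435325171859456)) (T.h (P (nat_lit 0)) (M (nat_lit 154284181097903)))) (T.h (P (nat_lit 0)) (M (nat_lit 154054818207791)))))) (T.h (T.h (P (nat_lit 0)) (T.h (T.h (P (nat_lit 0)) (P (nat_lit 12885981240885248))) (P (nat_lit 0)))) (T.h (T.h (T.h (P (nat_lit 1445542280348827648)) (T.h (P (nat_lit 0)) (M (nat_lit 40758030476063)))) (T.h (P (nat_lit 0)) (M (nat_lit 40633845785423)))) (T.h (P (nat_lit 0)) (P (nat_lit 2262664312560)))))))), (T.h (T.h (T.h (P (nat_lit 0)) (T.h (M (nat_lit 19010715559394962457480921087)) (T.h (P (nat_lit 0)) (T.h (P (nat_lit 17167194726438533070848)) (T.h (P (nat_lit 0)) (P (nat_lit 51833134429732864))))))) (T.h (P (nat_lit 0)) (T.h (T.h (P (nat_lit 0)) (T.h (M (nat_lit 337256168840861870718975)) (T.h (P (nat_lit 0)) (M (nat_lit 217035851084890111))))) (T.h (P (nat_lit 0)) (T.h (T.h (P (nat_lit 0)) (M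 (nat_lit 537460537767034879))) (P (nat_lit 0))))))) (T.h (T.h (P (nat_lit 0)) (T.h (T.h (M (nat_lit 11796831539250381828653055)) (T.h (P (nat_lit 0)) (P (nat_lit 27730665333827043328)))) (T.h (P (nat_lit 0)) (M (nat_lit 201848382004607844351))))) (T.h (T.h (T.h (P (nat_lit 0)) (T.h (M (nat_lit 4534848523537343315967)) (T.h (P (nat_lit 0)) (M (nat_lit 39240781425016831))))) (T.h (P (nat_lit 0)) (T.h (T.h (P (nat_lit 0)) (P (nat_lit 146445637852594176))) (P (nat_lit 0))))) (T.h (T.h (P (nat_lit 0)) (P (nat_lit 11447994264663883776))) (T.h (T.h (T.h (P (nat_lit 0)) (P (nat_lit 72142769679368192))) (P (nat_lit 0))) (P (nat_lit 0))))))), (T.h (T.h (P (nat_lit 0)) (T.h (T.h (P (nat_lit 12705971551799468700223930368)) (T.h (P (nat_lit 0)) (T.h (M (nat_lit 8848581376903131168767)) (T.h (P (nat_lit 0)) (P (nat_lit 15828416420511744)))))) (T.h (P (nat_lit 0)) (T.h (T.h (P (nat_lit 1067211340657522114560)) (T.h (P (nat_lit 0)) (P (nat_lit 10236873174646784))))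 (T.h (P (nat_lit 0)) (M (nat_lit 24957961867493375))))))) (T.h (T.h (T.h (P (nat_lit 0)) (T.h (M (nat_lit 6603952406297327842623487)) (T.h (P (nat_lit 0)) (T.h (M (nat_lit 7293634597340839935)) (T.h (P (nat_lit 0)) (M (nat_lit 776391066335))))))) (T.h (P (nat_lit 0)) (T.h (T.h (P (nat_lit 0)) (T.h (P (nat_lit 46739776176339812352)) (T.h (P (nat_lit 0)) (P (nat_lit 18444320661312))))) (T.h (P (nat_lit 0)) (T.h (T.h (P (nat_lit 0)) (P (nat_lit 135946721145024))) (P (nat_lit 0))))))) (T.h (T.h (P (nat_lit 0)) (T.h (T.h (M (nat_lit 1703111653625365004287)) (T.h (P (nat_lit 0)) (P (nat_lit 24253972323106816)))) (T.h (P (nat_lit 0)) (P (nat_lit 33631326450122752))))) (T.h (T.h (T.h (P (nat_lit 0)) (T.h (P (nat_lit 4491474292059406336)) (T.h (P (nat_lit 0)) (M (nat_lit 72660681503))))) (T.h (P (nat_lit 0)) (T.h (T.h (P (nat_lit 0)) (P (nat_lit 18444320661312))) (P (nat_lit 0))))) (T.h (T.h (P (nat_lit 0)) (P (nat_lit 8727060432158720))) (T.h (T.h (T.h (P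 (nat_lit 0)) (M (nat_lit 776391066335))) (P (nat_lit 0))) (P (nat_lit 0)))))))), (T.h (T.h (P (nat_lit 0)) (T.h (T.h (P (nat_lit 0)) (T.h (P (nat_lit 16770020288298499683909632)) (T.h (P (nat_lit 0)) (T.h (M (nat_lit 24581911049941286911)) (T.h (P (nat_lit 0)) (M (nat_lit 3743196082991))))))) (T.h (P (nat_lit 0)) (T.h (T.h (P (nat_lit 0)) (T.h (M (nat_lit 54436003502392082431)) (T.h (P (nat_lit 0)) (M (nat_lit 15746492039039))))) (T.h (P (nat_lit 0)) (T.h (T.h (P (nat_lit 0)) (P (nat_lit 310329193881600))) (P (nat_lit 0)))))))) (T.h (T.h (T.h (P (nat_lit 7613911020926650974465949696)) (T.h (P (nat_lit 0)) (T.h (P (nat_lit 856239061351264157696)) (T.h (P (nat_lit 0)) (M (nat_lit 18543270365085695)))))) (T.h (P (nat_lit 0)) (T.h (T.h (M (nat_lit 37608647712375417339903)) (T.h (P (nat_lit 0)) (M (nat_lit 11201544438792191)))) (T.h (P (nat_lit 0)) (P (nat_lit 288386959946383360)))))) (T.h (T.h (P (nat_lit 0)) (T.h (T.h (P (nat_lit 0)) (T.h (P (nat_lit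 6148453346429632512)) (T.h (P (nat_lit 0)) (M (nat_lit 43491366017423))))) (T.h (P (nat_lit 0)) (T.h (T.h (P (nat_lit 0)) (M (nat_lit 157763501468927))) (P (nat_lit 0)))))) (T.h (T.h (T.h (P (nat_lit 3737831950392995348480)) (T.h (P (nat_lit 0)) (P (nat_lit 18868985238323200)))) (T.h (P (nat_lit 0)) (M (nat_lit 15025593104400383)))) (T.h (T.h (P (nat_lit 0)) (T.h (T.h (P (nat_lit 0)) (P (nat_lit 17575024374576))) (P (nat_lit 0)))) (M (nat_lit 2662119321436159))))))), (T.h (T.h (P (nat_lit 0)) (T.h (T.h (P (nat_lit 5938840239767262457329876992)) (T.h (P (nat_lit 0)) (T.h (M (nat_lit 83505656668972851920895)) (T.h (P (nat_lit 0)) (P (nat_lit 17569552337108992)))))) (T.h (P (nat_lit 0)) (T.h (T.h (M (nat_lit 15260972577348049174527)) (T.h (P (nat_lit 0)) (M (nat_lit 112761797231247359)))) (T.h (P (nat_lit 0)) (M (nat_lit 68021766630866943))))))) (T.h (T.h (T.h (P (nat_lit 0)) (T.h (M (nat_lit 8121832179209592299847679)) (T.h (P (nat_lit 0)) (P (nat_lit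 18589109809936596992))))) (T.h (P (nat_lit 0)) (T.h (T.h (P (nat_lit 0)) (M (nat_lit 9408689513531703295))) (P (nat_lit 0))))) (T.h (T.h (P (nat_lit 0)) (T.h (T.h (M (nat_lit 32448110580492473991167)) (T.h (P (nat_lit 0)) (P (nat_lit 99906550954229760)))) (T.h (P (nat_lit 0)) (P (nat_lit 176124080196288512))))) (T.h (T.h (T.h (P (nat_lit 0)) (M (nat_lit 6818117037345210367))) (P (nat_lit 0))) (T.h (T.h (P (nat_lit 0)) (P (nat_lit 14493620268662784))) (P (nat_lit 0)))))))]
def lP11_8 : List (T ℤ) := [(T.h (T.h (T.h (M (nat_lit 1526812637208704738452194721791)) (T.h (P (nat_lit 0)) (T.h (M (nat_lit 1566168659524124063825919)) (T.h (P (nat_lit 0)) (T.h (M (nat_lit 1257490112028082175)) (T.h (P (nat_lit 0)) (P (nat_lit 485082553536)))))))) (T.h (P (nat_lit 0)) (T.h (T.h (P (nat_lit 20864823599583554539880448)) (T.h (P (nat_lit 0)) (T.h (M (nat_lit 11962976014688059391)) (T.h (P (nat_lit 0)) (P (nat_lit 21823059736368)))))) (T.h (P (nat_lit 0)) (T.h (T.h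 (P (nat_lit 6830011316166459392)) (T.h (P (nat_lit 0)) (P (nat_lit 17223692796864)))) (T.h (P (nat_lit 0)) (M (nat_lit 18430719318143)))))))) (T.h (T.h (P (nat_lit 0)) (T.h (T.h (P (nat_lit 0)) (T.h (M (nat_lit 25949813201762300985343)) (T.h (P (nat_lit 0)) (M (nat_lit 16206316422561791))))) (T.h (P (nat_lit 0)) (T.h (T.h (P (nat_lit 0)) (M (nat_lit 150200156445474815))) (P (nat_lit 0)))))) (T.h (T.h (T.h (M (nat_lit 1566168659524124063825919)) (T.h (P (nat_lit 0)) (T.h (P (nat_lit 5272713814171713536)) (T.h (P (nat_lit 0)) (P (nat_lit 6479329439808)))))) (T.h (P (nat_lit 0)) (T.h (T.h (M (nat_lit 11962976014688059391)) (T.h (P (nat_lit 0)) (P (nat_lit 83465545105728)))) (T.h (P (nat_lit 0)) (P (nat_lit 17223692796864)))))) (T.h (T.h (P (nat_lit 0)) (T.h (T.h (P (nat_lit 0)) (M (nat_lit 16206316422561791))) (P (nat_lit 0)))) (T.h (T.h (T.h (M (nat_lit 1257490112028082175)) (T.h (P (nat_lit 0)) (P (nat_lit 6479329439808)))) (T.h (P (nat_lit 0)) (P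 (nat_lit 21823059736368)))) (T.h (P (nat_lit 0)) (P (nat_lit 485082553536)))))))), (T.h (T.h (T.h (P (nat_lit 0)) (T.h (M (nat_lit 1069719061105742419312246783)) (T.h (P (nat_lit 0)) (T.h (P (nat_lit 4810639926731932172288)) (T.h (P (nat_lit 0)) (P (nat_lit 189485684457472))))))) (T.h (P (nat_lit 0)) (T.h (T.h (P (nat_lit 0)) (T.h (M (nat_lit 9039233065320873721855)) (T.h (P (nat_lit 0)) (M (nat_lit 9114228696940543))))) (T.h (P (nat_lit 0)) (T.h (T.h (P (nat_lit 0)) (M (nat_lit 360924354560393215))) (P (nat_lit 0))))))) (T.h (T.h (P (nat_lit 0)) (T.h (T.h (M (nat_lit 1761177201905144919228415)) (T.h (P (nat_lit 0)) (P (nat_lit 13635200529196908544)))) (T.h (P (nat_lit 0)) (M (nat_lit 159289274093619118079))))) (T.h (T.h (T.h (P (nat_lit 0)) (T.h (P (nat_lit 167114983961662586880)) (T.h (P (nat_lit 0)) (P (nat_lit 3999072314753024))))) (T.h (P (nat_lit 0)) (T.h (T.h (P (nat_lit 0)) (P (nat_lit 69713786696892416))) (P (nat_lit 0))))) (T.h (T.h (P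 (nat_lit 0)) (M (nat_lit 1424453042811437055))) (T.h (T.h (T.h (P (nat_lit 0)) (M (nat_lit 6948109256065023))) (P (nat_lit 0))) (P (nat_lit 0))))))), (T.h (T.h (P (nat_lit 0)) (T.h (T.h (M (nat_lit 6946700081529947634800787455)) (T.h (P (nat_lit 0)) (T.h (P (nat_lit 2528644232359897464832)) (T.h (P (nat_lit 0)) (M (nat_lit 9931916964462591)))))) (T.h (P (nat_lit 0)) (T.h (T.h (M (nat_lit 6537014371178130702335)) (T.h (P (nat_lit 0)) (M (nat_lit 15677387932434431)))) (T.h (P (nat_lit 0)) (P (nat_lit 25164075442372608))))))) (T.h (T.h (T.h (P (nat_lit 0)) (T.h (P (nat_lit 2399690788163493904252928)) (T.h (P (nat_lit 0)) (P (nat_lit 822611858266521600))))) (T.h (P (nat_lit 0)) (T.h (T.h (P (nat_lit 0)) (M (nat_lit 24174887929991135231))) (P (nat_lit 0))))) (T.h (T.h (P (nat_lit 0)) (T.h (T.h (P (nat_lit 2528644232359897464832)) (T.h (P (nat_lit 0)) (M (nat_lit 37986096972562431)))) (T.h (P (nat_lit 0)) (M (nat_lit 15677387932434431))))) (T.h (T.h (T.h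 (P (nat_lit 0)) (P (nat_lit 822611858266521600))) (P (nat_lit 0))) (T.h (T.h (P (nat_lit 0)) (M (nat_lit 9931916964462591))) (P (nat_lit 0))))))), (P (nat_lit 0)), (P (nat_lit 0)), (P (nat_lit 0)), (P (nat_lit 0)), (P (nat_lit 0))]
def lP11_9 : List (T ℤ) := [(P (nat_lit 0)), (P (nat_lit 0)), (P (nat_lit 0)), (P (nat_lit 0)), (T.h (T.h (T.h (P (nat_lit 1044092864234815686108453535744)) (T.h (P (nat_lit 0)) (T.h (P (nat_lit 19503290221629731359424512)) (T.h (P (nat_lit 0)) (T.h (M (nat_lit 9924289341763354623)) (T.h (P (nat_lit 0)) (P (nat_lit 7159389186272)))))))) (T.h (P (nat_lit 0)) (T.h (T.h (M (nat_lit 3304818183930917377015807)) (T.h (P (nat_lit 0)) (T.h (M (nat_lit 3146289170763218943)) (T.h (P (nat_lit 0)) (M (nat_lit 46901718638095)))))) (T.h (P (nat_lit 0)) (T.h (T.h (P (nat_lit 540673259700486144)) (T.h (P (nat_lit 0)) (P (nat_lit 12639261374784)))) (T.h (P (nat_lit 0)) (M (nat_lit 897912467359)))))))) (T.h (T.h (P (nat_lit 0)) (T.h (T.h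 (P (nat_lit 0)) (T.h (M (nat_lit 16270717099454440144895)) (T.h (P (nat_lit 0)) (M (nat_lit 50450062895218687))))) (T.h (P (nat_lit 0)) (T.h (T.h (P (nat_lit 0)) (M (nat_lit 6260513164951551))) (P (nat_lit 0)))))) (T.h (T.h (T.h (M (nat_lit 3304818183930917377015807)) (T.h (P (nat_lit 0)) (T.h (M (nat_lit 3146289170763218943)) (T.h (P (nat_lit 0)) (M (nat_lit 46901718638095)))))) (T.h (P (nat_lit 0)) (T.h (T.h (P (nat_lit 4911392064010190848)) (T.h (P (nat_lit 0)) (M (nat_lit 3660592287679)))) (T.h (P (nat_lit 0)) (P (nat_lit 12942816642816)))))) (T.h (T.h (P (nat_lit 0)) (T.h (T.h (P (nat_lit 0)) (M (nat_lit 6260513164951551))) (P (nat_lit 0)))) (T.h (T.h (T.h (P (nat_lit 540673259700486144)) (T.h (P (nat_lit 0)) (P (nat_lit 12639261374784)))) (T.h (P (nat_lit 0)) (P (nat_lit 12942816642816)))) (T.h (P (nat_lit 0)) (M (nat_lit 897912467359)))))))), (P (nat_lit 0)), (T.h (T.h (T.h (P (nat_lit 970190473303136145515430805504)) (T.h (P (nat_lit 0))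 (T.h (P (nat_lit 8655405118484569349160960)) (T.h (P (nat_lit 0)) (M (nat_lit 33836214708969930751)))))) (T.h (P (nat_lit 0)) (T.h (T.h (M (nat_lit 1516252336388319158992895)) (T.h (P (nat_lit 0)) (P (nat_lit 22855369585332322304)))) (T.h (P (nat_lit 0)) (M (nat_lit 2993704968336179199)))))) (T.h (T.h (P (nat_lit 0)) (T.h (T.h (P (nat_lit 0)) (T.h (P (nat_lit 8650737233172291911680)) (T.h (P (nat_lit 0)) (M (nat_lit 111264035829710847))))) (T.h (P (nat_lit 0)) (T.h (T.h (P (nat_lit 0)) (M (nat_lit 35206083415244799))) (P (nat_lit 0)))))) (T.h (T.h (T.h (M (nat_lit 1516252336388319158992895)) (T.h (P (nat_lit 0)) (P (nat_lit 22855369585332322304)))) (T.h (P (nat_lit 0)) (P (nat_lit 6993876806528925696)))) (T.h (T.h (P (nat_lit 0)) (T.h (T.h (P (nat_lit 0)) (M (nat_lit 35206083415244799))) (P (nat_lit 0)))) (M (nat_lit 2993704968336179199)))))), (P (nat_lit 0))]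
def lP11_10 : List (T ℤ) := [(P (nat_lit 0)), (P (nat_lit 0)), (P (nat_lit 0)), (T.h (T.h (P (nat_lit 0)) (T.h (T.h (P (nat_lit 0)) (T.h (P (nat_lit 18465344014479985616093184)) (T.h (P (nat_lit 0)) (T.h (M (nat_lit 68835595945469018111)) (T.h (P (nat_lit 0)) (P (nat_lit 89022642699632))))))) (T.h (P (nat_lit 0)) (T.h (T.h (P (nat_lit 0)) (T.h (M (nat_lit 34605755205232361471)) (T.h (P (nat_lit 0)) (M (nat_lit 131871204228983))))) (T.h (P (nat_lit 0)) (T.h (T.h (P (nat_lit 0)) (P (nat_lit 8726481011648))) (P (nat_lit 0)))))))) (T.h (T.h (T.h (P (nat_lit 14269134643526864158614093824)) (T.h (P (nat_lit 0)) (T.h (M (nat_lit 27471635030742633807871)) (T.h (P (nat_lit 0)) (P (nat_lit 43677374260051968)))))) (T.h (P (nat_lit 0)) (T.h (T.h (M (nat_lit 9636943539543870537727)) (T.h (P (nat_lit 0)) (M (nat_lit 45498791329431551)))) (T.h (P (nat_lit 0)) (M (nat_lit 34878434534850559)))))) (T.h (T.h (P (nat_lit 0)) (T.h (T.h (P (nat_lit 0)) (T.h (P (nat_lit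 6342422112648560640)) (T.h (P (nat_lit 0)) (M (nat_lit 316972010861575))))) (T.h (P (nat_lit 0)) (T.h (T.h (P (nat_lit 0)) (M (nat_lit 60088718014791))) (P (nat_lit 0)))))) (T.h (T.h (T.h (P (nat_lit 7967390448646252134400)) (T.h (P (nat_lit 0)) (P (nat_lit 107764172307333120)))) (T.h (P (nat_lit 0)) (P (nat_lit 1921388020072448)))) (T.h (T.h (P (nat_lit 0)) (T.h (T.h (P (nat_lit 0)) (P (nat_lit 53825143441704))) (P (nat_lit 0)))) (P (nat_lit 380968898691072))))))), (T.h (T.h (P (nat_lit 0)) (T.h (T.h (P (nat_lit 2084092978544746558608375808)) (T.h (P (nat_lit 0)) (T.h (M (nat_lit 14112679512842935730175)) (T.h (P (nat_lit 0)) (M (nat_lit 145933282261073919)))))) (T.h (P (nat_lit 0)) (T.h (T.h (M (nat_lit 2445534956294129057791)) (T.h (P (nat_lit 0)) (P (nat_lit 3081846973022208)))) (T.h (P (nat_lit 0)) (P (nat_lit 2747498126852096))))))) (T.h (T.h (T.h (P (nat_lit 0)) (T.h (P (nat_lit 3505100089068918241492992)) (T.h (P (nat_lit 0)) (T.h (P (nat_lit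 83778115168194527232)) (T.h (P (nat_lit 0)) (M (nat_lit 335941989346463))))))) (T.h (P (nat_lit 0)) (T.h (T.h (P (nat_lit 0)) (T.h (P (nat_lit 8688976552274165760)) (T.h (P (nat_lit 0)) (P (nat_lit 19291176429520))))) (T.h (P (nat_lit 0)) (T.h (T.h (P (nat_lit 0)) (M (nat_lit 6391443606815))) (P (nat_lit 0))))))) (T.h (T.h (P (nat_lit 0)) (T.h (T.h (M (nat_lit 13105697841355797037055)) (T.h (P (nat_lit 0)) (M (nat_lit 45175380232437759)))) (T.h (P (nat_lit 0)) (M (nat_lit 10769564384280575))))) (T.h (T.h (T.h (P (nat_lit 0)) (T.h (M (nat_lit 3206093737427992575)) (T.h (P (nat_lit 0)) (P (nat_lit 19834863972112))))) (T.h (P (nat_lit 0)) (T.h (T.h (P (nat_lit 0)) (P (nat_lit 7731991111936))) (P (nat_lit 0))))) (T.h (T.h (P (nat_lit 0)) (M (nat_lit 21643633645551615))) (T.h (T.h (T.h (P (nat_lit 0)) (M (nat_lit 2171138809055))) (P (nat_lit 0))) (P (nat_lit 0)))))))), (T.h (T.h (P (nat_lit 0)) (T.h (T.h (P (nat_lit 0)) (T.h (P (nat_lit 22636031326665170084691968))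 (T.h (P (nat_lit 0)) (T.h (P (nat_lit 291205708661791916032)) (T.h (P (nat_lit 0)) (M (nat_lit 98814136291871))))))) (T.h (P (nat_lit 0)) (T.h (T.h (P (nat_lit 0)) (T.h (M (nat_lit 21302232484879007743)) (T.h (P (nat_lit 0)) (P (nat_lit 13347002066688))))) (T.h (P (nat_lit 0)) (T.h (T.h (P (nat_lit 0)) (P (nat_lit 2088080913312))) (P (nat_lit 0)))))))) (T.h (T.h (T.h (P (nat_lit 7829836801137287811569811456)) (T.h (P (nat_lit 0)) (T.h (M (nat_lit 68905016941645014237183)) (T.h (P (nat_lit 0)) (P (nat_lit 635986056902115328)))))) (T.h (P (nat_lit 0)) (T.h (T.h (M (nat_lit 2266056552591724118015)) (T.h (P (nat_lit 0)) (P (nat_lit 9198005605859328)))) (T.h (P (nat_lit 0)) (M (nat_lit 34806846483628031)))))) (T.h (T.h (P (nat_lit 0)) (T.h (T.h (P (nat_lit 0)) (T.h (P (nat_lit 10994774995497910272)) (T.h (P (nat_lit 0)) (M (nat_lit 31467877982927))))) (T.h (P (nat_lit 0)) (T.h (T.h (P (nat_lit 0)) (M (nat_lit 18427241446751))) (P (nat_lit 0)))))) (T.h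 (T.h (T.h (M (nat_lit 15005716945789723344895)) (T.h (P (nat_lit 0)) (P (nat_lit 11887588504567808)))) (T.h (P (nat_lit 0)) (P (nat_lit 70866266141229056)))) (T.h (T.h (P (nat_lit 0)) (T.h (T.h (P (nat_lit 0)) (M (nat_lit 5796365101967))) (P (nat_lit 0)))) (P (nat_lit 10514767459319808))))))), (T.h (T.h (P (nat_lit 0)) (T.h (T.h (P (nat_lit 7613911020926650974465949696)) (T.h (P (nat_lit 0)) (T.h (M (nat_lit 37608647712375417339903)) (T.h (P (nat_lit 0)) (P (nat_lit 288386959946383360)))))) (T.h (P (nat_lit 0)) (T.h (T.h (P (nat_lit 3737831950392995348480)) (T.h (P (nat_lit 0)) (M (nat_lit 15025593104400383)))) (T.h (P (nat_lit 0)) (M (nat_lit 2662119321436159))))))) (T.h (T.h (T.h (P (nat_lit 0)) (T.h (P (nat_lit 16770020288298499683909632)) (T.h (P (nat_lit 0)) (T.h (M (nat_lit 54436003502392082431)) (T.h (P (nat_lit 0)) (P (nat_lit 310329193881600))))))) (T.h (P (nat_lit 0)) (T.h (T.h (P (nat_lit 0)) (T.h (P (nat_lit 6148453346429632512)) (T.h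 (P (nat_lit 0)) (M (nat_lit 157763501468927))))) (T.h (P (nat_lit 0)) (T.h (T.h (P (nat_lit 0)) (P (nat_lit 17575024374576))) (P (nat_lit 0))))))) (T.h (T.h (P (nat_lit 0)) (T.h (T.h (P (nat_lit 856239061351264157696)) (T.h (P (nat_lit 0)) (M (nat_lit 11201544438792191)))) (T.h (P (nat_lit 0)) (P (nat_lit 18868985238323200))))) (T.h (T.h (T.h (P (nat_lit 0)) (T.h (M (nat_lit 24581911049941286911)) (T.h (P (nat_lit 0)) (M (nat_lit 15746492039039))))) (T.h (P (nat_lit 0)) (T.h (T.h (P (nat_lit 0)) (M (nat_lit 43491366017423))) (P (nat_lit 0))))) (T.h (T.h (P (nat_lit 0)) (M (nat_lit 18543270365085695))) (T.h (T.h (T.h (P (nat_lit 0)) (M (nat_lit 3743196082991))) (P (nat_lit 0))) (P (nat_lit 0)))))))), (T.h (T.h (P (nat_lit 0)) (T.h (T.h (P (nat_lit 0)) (T.h (M (nat_lit 1761177201905144919228415)) (T.h (P (nat_lit 0)) (M (nat_lit 159289274093619118079))))) (T.h (P (nat_lit 0)) (T.h (T.h (P (nat_lit 0)) (M (nat_lit 1424453042811437055))) (P (nat_lit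 0)))))) (T.h (T.h (T.h (M (nat_lit 1069719061105742419312246783)) (T.h (P (nat_lit 0)) (T.h (M (nat_lit 9039233065320873721855)) (T.h (P (nat_lit 0)) (M (nat_lit 360924354560393215)))))) (T.h (P (nat_lit 0)) (T.h (T.h (P (nat_lit 167114983961662586880)) (T.h (P (nat_lit 0)) (P (nat_lit 69713786696892416)))) (T.h (P (nat_lit 0)) (M (nat_lit 6948109256065023)))))) (T.h (T.h (P (nat_lit 0)) (T.h (T.h (P (nat_lit 0)) (P (nat_lit 13635200529196908544))) (P (nat_lit 0)))) (T.h (T.h (T.h (P (nat_lit 4810639926731932172288)) (T.h (P (nat_lit 0)) (M (nat_lit 9114228696940543)))) (T.h (P (nat_lit 0)) (P (nat_lit 3999072314753024)))) (T.h (P (nat_lit 0)) (P (nat_lit 189485684457472)))))))]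
def lP11_11 : List (T ℤ) := [(P (nat_lit 0)), (P (nat_lit 0)), (T.h (T.h (T.h (M (nat_lit 3394801292347723612557888454655)) (T.h (P (nat_lit 0)) (T.h (P (nat_lit 26477007149013805545029632)) (T.h (P (nat_lit 0)) (T.h (M (nat_lit 11637485353798991871)) (T.h (P (nat_lit 0)) (M (nat_lit 5654054247519)))))))) (T.h (P (nat_lit 0)) (T.h (T.h (P (nat_lit 24103448565242123354374144)) (T.h (P (nat_lit 0)) (T.h (P (nat_lit 86457667896909758464)) (T.h (P (nat_lit 0)) (P (nat_lit 165372176523456)))))) (T.h (P (nat_lit 0)) (T.h (T.h (P (nat_lit 11026167477728968704)) (T.h (P (nat_lit 0)) (P (nat_lit 54305835975360)))) (T.h (P (nat_lit 0)) (P (nat_lit 8700861836544)))))))) (T.h (T.h (P (nat_lit 0)) (T.h (T.h (P (nat_lit 0)) (T.h (M (nat_lit 6362359278971052359679)) (T.h (P (nat_lit 0)) (M (nat_lit 135719300220321791))))) (T.h (P (nat_lit 0)) (T.h (T.h (P (nat_lit 0)) (P (nat_lit 157961034702782464))) (P (nat_lit 0)))))) (T.h (T.h (T.h (M (nat_lit 5434118682628604146221055))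 (T.h (P (nat_lit 0)) (T.h (M (nat_lit 120370363877719801855)) (T.h (P (nat_lit 0)) (M (nat_lit 104287281364127)))))) (T.h (P (nat_lit 0)) (T.h (T.h (P (nat_lit 3573854567118405632)) (T.h (P (nat_lit 0)) (P (nat_lit 168515996858544)))) (T.h (P (nat_lit 0)) (M (nat_lit 35050319275487)))))) (T.h (T.h (P (nat_lit 0)) (T.h (T.h (P (nat_lit 0)) (M (nat_lit 154976873774710783))) (P (nat_lit 0)))) (T.h (T.h (T.h (M (nat_lit 7321025331169591295)) (T.h (P (nat_lit 0)) (P (nat_lit 19445134848960)))) (T.h (P (nat_lit 0)) (M (nat_lit 57358249793279)))) (T.h (P (nat_lit 0)) (M (nat_lit 1981720118879)))))))), (T.h (T.h (T.h (P (nat_lit 0)) (T.h (M (nat_lit 13210451688327983842182823935)) (T.h (P (nat_lit 0)) (T.h (P (nat_lit 53049158737755864301568)) (T.h (P (nat_lit 0)) (M (nat_lit 33213642493526015))))))) (T.h (P (nat_lit 0)) (T.h (T.h (P (nat_lit 0)) (T.h (P (nat_lit 71268525060009716875264)) (T.h (P (nat_lit 0)) (P (nat_lit 142194421957574656))))) (T.h (P (nat_lit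 0)) (T.h (T.h (P (nat_lit 0)) (M (nat_lit 77890511696707583))) (P (nat_lit 0))))))) (T.h (T.h (P (nat_lit 0)) (T.h (T.h (M (nat_lit 812139356238288361881599)) (T.h (P (nat_lit 0)) (T.h (P (nat_lit 686793345222343393280)) (T.h (P (nat_lit 0)) (M (nat_lit 33739957894015)))))) (T.h (P (nat_lit 0)) (T.h (T.h (P (nat_lit 14353739500201443328)) (T.h (P (nat_lit 0)) (M (nat_lit 5250374281359)))) (T.h (P (nat_lit 0)) (M (nat_lit 12009131250063))))))) (T.h (T.h (T.h (P (nat_lit 0)) (T.h (P (nat_lit 71268525060009716875264)) (T.h (P (nat_lit 0)) (P (nat_lit 142194421957574656))))) (T.h (P (nat_lit 0)) (T.h (T.h (P (nat_lit 0)) (M (nat_lit 82599042909241343))) (P (nat_lit 0))))) (T.h (T.h (P (nat_lit 0)) (T.h (T.h (P (nat_lit 14353739500201443328)) (T.h (P (nat_lit 0)) (M (nat_lit 5250374281359)))) (T.h (P (nat_lit 0)) (P (nat_lit 15419168176256))))) (T.h (T.h (T.h (P (nat_lit 0)) (M (nat_lit 77890511696707583))) (P (nat_lit 0))) (T.h (T.h (P (nat_lit 0)) (M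 (nat_lit 12009131250063))) (P (nat_lit 0)))))))), (T.h (T.h (T.h (M (nat_lit 10908091202296607606064923279359)) (T.h (P (nat_lit 0)) (T.h (M (nat_lit 106870122577452009223356415)) (T.h (P (nat_lit 0)) (T.h (P (nat_lit 435617874878641733632)) (T.h (P (nat_lit 0)) (P (nat_lit 5727466517568)))))))) (T.h (P (nat_lit 0)) (T.h (T.h (P (nat_lit 82864319336703675494039552)) (T.h (P (nat_lit 0)) (T.h (P (nat_lit 211858420758472556544)) (T.h (P (nat_lit 0)) (P (nat_lit 86654082495648)))))) (T.h (P (nat_lit 0)) (T.h (T.h (M (nat_lit 22000063034372915199)) (T.h (P (nat_lit 0)) (M (nat_lit 106775006108063)))) (T.h (P (nat_lit 0)) (M (nat_lit 1272585424271)))))))) (T.h (T.h (P (nat_lit 0)) (T.h (T.h (P (nat_lit 0)) (T.h (P (nat_lit 125059298089674232299520)) (T.h (P (nat_lit 0)) (P (nat_lit 2029145175772889088))))) (T.h (P (nat_lit 0)) (T.h (T.h (P (nat_lit 0)) (M (nat_lit 197613513858678783))) (P (nat_lit 0)))))) (T.h (T.h (T.h (P (nat_lit 7611565181106873031458816))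 (T.h (P (nat_lit 0)) (T.h (P (nat_lit 207371639715153313792)) (T.h (P (nat_lit 0)) (P (nat_lit 86654082495648)))))) (T.h (P (nat_lit 0)) (T.h (T.h (M (nat_lit 24513740372315209727)) (T.h (P (nat_lit 0)) (M (nat_lit 51987151445087)))) (T.h (P (nat_lit 0)) (M (nat_lit 54304868692991)))))) (T.h (T.h (P (nat_lit 0)) (T.h (T.h (P (nat_lit 0)) (P (nat_lit 210507189172764672))) (P (nat_lit 0)))) (T.h (T.h (T.h (M (nat_lit 26661579478922166271)) (T.h (P (nat_lit 0)) (M (nat_lit 106775006108063)))) (T.h (P (nat_lit 0)) (M (nat_lit 54304868692991)))) (T.h (P (nat_lit 0)) (M (nat_lit 1272585424271)))))))), (T.h (T.h (T.h (P (nat_lit 0)) (T.h (P (nat_lit 36998131545928357616738631680)) (T.h (P (nat_lit 0)) (T.h (M (nat_lit 3100395856076149358591)) (T.h (P (nat_lit 0)) (P (nat_lit 166287845529026560))))))) (T.h (P (nat_lit 0)) (T.h (T.h (P (nat_lit 0)) (T.h (M (nat_lit 90589036788935810875391)) (T.h (P (nat_lit 0)) (P (nat_lit 15382350327431168))))) (T.h (P (nat_lit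 0)) (T.h (T.h (P (nat_lit 0)) (P (nat_lit 79739785560276992))) (P (nat_lit 0))))))) (T.h (T.h (P (nat_lit 0)) (T.h (T.h (M (nat_lit 53272160417920283098218495)) (T.h (P (nat_lit 0)) (T.h (M (nat_lit 1051264078816068239359)) (T.h (P (nat_lit 0)) (P (nat_lit 354926245962528)))))) (T.h (P (nat_lit 0)) (T.h (T.h (M (nat_lit 18135119514684096511)) (T.h (P (nat_lit 0)) (P (nat_lit 71961381107280)))) (T.h (P (nat_lit 0)) (P (nat_lit 25603466475168))))))) (T.h (T.h (T.h (P (nat_lit 0)) (T.h (M (nat_lit 90589036788935810875391)) (T.h (P (nat_lit 0)) (P (nat_lit 15382350327431168))))) (T.h (P (nat_lit 0)) (T.h (T.h (P (nat_lit 0)) (P (nat_lit 200668995862790144))) (P (nat_lit 0))))) (T.h (T.h (P (nat_lit 0)) (T.h (T.h (M (nat_lit 18135119514684096511)) (T.h (P (nat_lit 0)) (P (nat_lit 71961381107280)))) (T.h (P (nat_lit 0)) (M (nat_lit 85814251092287))))) (T.h (T.h (T.h (P (nat_lit 0)) (P (nat_lit 79739785560276992))) (P (nat_lit 0))) (T.h (T.h (P (nat_lit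 0)) (P (nat_lit 25603466475168))) (P (nat_lit 0)))))))), (T.h (T.h (T.h (M (nat_lit 3388291302366962560366419116031)) (T.h (P (nat_lit 0)) (T.h (M (nat_lit 52973080057366503088979967)) (T.h (P (nat_lit 0)) (M (nat_lit 201408859984088793087)))))) (T.h (P (nat_lit 0)) (T.h (T.h (P (nat_lit 4983474547258667095293952)) (T.h (P (nat_lit 0)) (M (nat_lit 91053075213775273983)))) (T.h (P (nat_lit 0)) (P (nat_lit 5571827366197460992)))))) (T.h (T.h (P (nat_lit 0)) (T.h (T.h (P (nat_lit 0)) (T.h (P (nat_lit 130518322924367101558784)) (T.h (P (nat_lit 0)) (M (nat_lit 179461911432396799))))) (T.h (P (nat_lit 0)) (T.h (T.h (P (nat_lit 0)) (M (nat_lit 28954197942730751))) (P (nat_lit 0)))))) (T.h (T.h (T.h (P (nat_lit 4983474547258667095293952)) (T.h (P (nat_lit 0)) (M (nat_lit 91053075213775273983)))) (T.h (P (nat_lit 0)) (M (nat_lit 46072855600505552895)))) (T.h (T.h (P (nat_lit 0)) (T.h (T.h (P (nat_lit 0)) (M (nat_lit 28954197942730751))) (P (nat_lit 0))))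 (P (nat_lit 5571827366197460992)))))), (P (nat_lit 0))]
def lP11_12 : List (T ℤ) := [(P (nat_lit 0)), (T.h (T.h (P (nat_lit 0)) (T.h (T.h (P (nat_lit 0)) (T.h (P (nat_lit 17751721323428791827038208)) (T.h (P (nat_lit 0)) (T.h (M (nat_lit 31742617130891214847)) (T.h (P (nat_lit 0)) (M (nat_lit 65012436277567))))))) (T.h (P (nat_lit 0)) (T.h (T.h (P (nat_lit 0)) (T.h (M (nat_lit 21355229172702642175)) (T.h (P (nat_lit 0)) (M (nat_lit 351489962257887))))) (T.h (P (nat_lit 0)) (T.h (T.h (P (nat_lit 0)) (M (nat_lit 72499158235039))) (P (nat_lit 0)))))))) (T.h (T.h (T.h (P (nat_lit 14383368854768177539719364608)) (T.h (P (nat_lit 0)) (T.h (M (nat_lit 32986617876956395339775)) (T.h (P (nat_lit 0)) (M (nat_lit 32984115393232895)))))) (T.h (P (nat_lit 0)) (T.h (T.h (M (nat_lit 23523837453691510587391)) (T.h (P (nat_lit 0)) (M (nat_lit 361315451952037887)))) (T.h (P (nat_lit 0)) (P (nat_lit 160969301410611200)))))) (T.h (T.h (P (nat_lit 0)) (T.h (T.h (P (nat_lit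 0)) (T.h (M (nat_lit 12180618487835656191)) (T.h (P (nat_lit 0)) (P (nat_lit 256856339610056))))) (T.h (P (nat_lit 0)) (T.h (T.h (P (nat_lit 0)) (P (nat_lit 661357504973176))) (P (nat_lit 0)))))) (T.h (T.h (T.h (M (nat_lit 2204895729563765571583)) (T.h (P (nat_lit 0)) (P (nat_lit 62660711568801792)))) (T.h (P (nat_lit 0)) (P (nat_lit 144540574879023104)))) (T.h (T.h (P (nat_lit 0)) (T.h (T.h (P (nat_lit 0)) (P (nat_lit 133115458075168))) (P (nat_lit 0)))) (P (nat_lit 3366261452439552))))))), (T.h (T.h (P (nat_lit 0)) (T.h (T.h (P (nat_lit 11401952711144634565808619520)) (T.h (P (nat_lit 0)) (T.h (P (nat_lit 89621593371965055303680)) (T.h (P (nat_lit 0)) (P (nat_lit 92959733253701632)))))) (T.h (P (nat_lit 0)) (T.h (T.h (M (nat_lit 349580771751851196415)) (T.h (P (nat_lit 0)) (P (nat_lit 387135896393826304)))) (T.h (P (nat_lit 0)) (M (nat_lit 25174507732271103))))))) (T.h (T.h (T.h (P (nat_lit 0)) (T.h (P (nat_lit 3580340693341382729793536)) (T.h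 (P (nat_lit 0)) (T.h (M (nat_lit 276770331442141986815)) (T.h (P (nat_lit 0)) (M (nat_lit 12012813532351))))))) (T.h (P (nat_lit 0)) (T.h (T.h (P (nat_lit 0)) (T.h (M (nat_lit 52911668563758022655)) (T.h (P (nat_lit 0)) (P (nat_lit 254418358177664))))) (T.h (P (nat_lit 0)) (T.h (T.h (P (nat_lit 0)) (P (nat_lit 54023327974512))) (P (nat_lit 0))))))) (T.h (T.h (P (nat_lit 0)) (T.h (T.h (P (nat_lit 9211029130427594964992)) (T.h (P (nat_lit 0)) (M (nat_lit 948573949698473983)))) (T.h (P (nat_lit 0)) (P (nat_lit 82684409123340288))))) (T.h (T.h (T.h (P (nat_lit 0)) (T.h (M (nat_lit 135983825542308691967)) (T.h (P (nat_lit 0)) (M (nat_lit 7866646795423))))) (T.h (P (nat_lit 0)) (T.h (T.h (P (nat_lit 0)) (P (nat_lit 90268290434928))) (P (nat_lit 0))))) (T.h (T.h (P (nat_lit 0)) (P (nat_lit 157045282990014464))) (T.h (T.h (T.h (P (nat_lit 0)) (M (nat_lit 4685423447423))) (P (nat_lit 0))) (P (nat_lit 0)))))))), (T.h (T.h (P (nat_lit 0)) (T.h (T.h (P (nat_lit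 0)) (T.h (M (nat_lit 169192765945311575322656767)) (T.h (P (nat_lit 0)) (T.h (M (nat_lit 231944975521304018943)) (T.h (P (nat_lit 0)) (M (nat_lit 89014422257279))))))) (T.h (P (nat_lit 0)) (T.h (T.h (P (nat_lit 0)) (T.h (M (nat_lit 697697792170483777535)) (T.h (P (nat_lit 0)) (P (nat_lit 222868762305024))))) (T.h (P (nat_lit 0)) (T.h (T.h (P (nat_lit 0)) (P (nat_lit 31462978248624))) (P (nat_lit 0)))))))) (T.h (T.h (T.h (M (nat_lit 18562684784021751830870491135)) (T.h (P (nat_lit 0)) (T.h (P (nat_lit 245565820896624710254592)) (T.h (P (nat_lit 0)) (M (nat_lit 559276618694197247)))))) (T.h (P (nat_lit 0)) (T.h (T.h (M (nat_lit 12091848963564075220991)) (T.h (P (nat_lit 0)) (M (nat_lit 638821902318600191)))) (T.h (P (nat_lit 0)) (P (nat_lit 163751868827697152)))))) (T.h (T.h (P (nat_lit 0)) (T.h (T.h (P (nat_lit 0)) (T.h (P (nat_lit 99592440577632763904)) (T.h (P (nat_lit 0)) (M (nat_lit 326692463252447))))) (T.h (P (nat_lit 0)) (T.h (T.h (P (nat_lit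 0)) (P (nat_lit 151194672219024))) (P (nat_lit 0)))))) (T.h (T.h (T.h (P (nat_lit 29517837160202245242880)) (T.h (P (nat_lit 0)) (M (nat_lit 434076260452663295)))) (T.h (P (nat_lit 0)) (M (nat_lit 148660680979709951)))) (T.h (T.h (P (nat_lit 0)) (T.h (T.h (P (nat_lit 0)) (M (nat_lit 168082866176879))) (P (nat_lit 0)))) (M (nat_lit 20025180165963775))))))), (T.h (T.h (P (nat_lit 0)) (T.h (T.h (M (nat_lit 10238001575438095358980259839)) (T.h (P (nat_lit 0)) (T.h (M (nat_lit 148288026953148786540543)) (T.h (P (nat_lit 0)) (P (nat_lit 391068373448163328)))))) (T.h (P (nat_lit 0)) (T.h (T.h (P (nat_lit 4498526712991768903680)) (T.h (P (nat_lit 0)) (M (nat_lit 902612114225659903)))) (T.h (P (nat_lit 0)) (M (nat_lit 5867200945930239))))))) (T.h (T.h (T.h (P (nat_lit 0)) (T.h (M (nat_lit 65918469378897187897868287)) (T.h (P (nat_lit 0)) (T.h (M (nat_lit 204190865734695387135)) (T.h (P (nat_lit 0)) (P (nat_lit 88368910367184))))))) (T.h (P (nat_lit 0)) (T.h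 (T.h (P (nat_lit 0)) (T.h (M (nat_lit 115437795602681823231)) (T.h (P (nat_lit 0)) (P (nat_lit 480696106885200))))) (T.h (P (nat_lit 0)) (T.h (T.h (P (nat_lit 0)) (M (nat_lit 212902374284207))) (P (nat_lit 0))))))) (T.h (T.h (P (nat_lit 0)) (T.h (T.h (M (nat_lit 32773840107748108271615)) (T.h (P (nat_lit 0)) (P (nat_lit 519943386516488192)))) (T.h (P (nat_lit 0)) (M (nat_lit 13902498383790079))))) (T.h (T.h (T.h (P (nat_lit 0)) (T.h (P (nat_lit 258219709894464897024)) (T.h (P (nat_lit 0)) (M (nat_lit 40308873541055))))) (T.h (P (nat_lit 0)) (T.h (T.h (P (nat_lit 0)) (P (nat_lit 135400654107216))) (P (nat_lit 0))))) (T.h (T.h (P (nat_lit 0)) (P (nat_lit 105856962375598080))) (T.h (T.h (T.h (P (nat_lit 0)) (P (nat_lit 6090557697360))) (P (nat_lit 0))) (P (nat_lit 0)))))))), (T.h (T.h (P (nat_lit 0)) (T.h (T.h (P (nat_lit 0)) (T.h (P (nat_lit 15532778243652765473570816)) (T.h (P (nat_lit 0)) (M (nat_lit 292461774379792990207))))) (T.h (P (nat_lit 0))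 (T.h (T.h (P (nat_lit 0)) (P (nat_lit 372027013451330093056))) (P (nat_lit 0)))))) (T.h (T.h (T.h (M (nat_lit 2802544089202721518058995711)) (T.h (P (nat_lit 0)) (T.h (P (nat_lit 219226733783414827122688)) (T.h (P (nat_lit 0)) (M (nat_lit 111197562056900607)))))) (T.h (P (nat_lit 0)) (T.h (T.h (M (nat_lit 11334887043216479092735)) (T.h (P (nat_lit 0)) (M (nat_lit 307064400049864703)))) (T.h (P (nat_lit 0)) (P (nat_lit 17610523673985024)))))) (T.h (T.h (P (nat_lit 0)) (T.h (T.h (P (nat_lit 0)) (M (nat_lit 132783142035194380287))) (P (nat_lit 0)))) (T.h (T.h (T.h (P (nat_lit 11706436078456893603840)) (T.h (P (nat_lit 0)) (P (nat_lit 48128141689192448)))) (T.h (P (nat_lit 0)) (P (nat_lit 64870222751039488)))) (T.h (P (nat_lit 0)) (M (nat_lit 10301442286452735))))))), (P (nat_lit 0)), (T.h (T.h (T.h (P (nat_lit 4345229455277619414954397401088)) (T.h (P (nat_lit 0)) (T.h (M (nat_lit 17410927576039392920207359)) (T.h (P (nat_lit 0)) (T.h (P (nat_lit 27007099472634183680))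 (T.h (P (nat_lit 0)) (P (nat_lit 2216894909152)))))))) (T.h (P (nat_lit 0)) (T.h (T.h (P (nat_lit 48017170341066311653654528)) (T.h (P (nat_lit 0)) (T.h (M (nat_lit 96945337112146739199)) (T.h (P (nat_lit 0)) (P (nat_lit 129946810063712)))))) (T.h (P (nat_lit 0)) (T.h (T.h (M (nat_lit 30611565311590137855)) (T.h (P (nat_lit 0)) (M (nat_lit 68198036147983)))) (T.h (P (nat_lit 0)) (M (nat_lit 9307161110703)))))))) (T.h (T.h (P (nat_lit 0)) (T.h (T.h (P (nat_lit 0)) (T.h (M (nat_lit 104733288933201473961983)) (T.h (P (nat_lit 0)) (P (nat_lit 70819775688146944))))) (T.h (P (nat_lit 0)) (T.h (T.h (P (nat_lit 0)) (M (nat_lit 722480102479364095))) (P (nat_lit 0)))))) (T.h (T.h (T.h (M (nat_lit 6944273271222253220003839)) (T.h (P (nat_lit 0)) (T.h (P (nat_lit 24896289713661411328)) (T.h (P (nat_lit 0)) (P (nat_lit 86229969563360)))))) (T.h (P (nat_lit 0)) (T.h (T.h (M (nat_lit 127485411942549422079)) (T.h (P (nat_lit 0)) (P (nat_lit 53817447588928)))) (T.h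 (P (nat_lit 0)) (M (nat_lit 58208410205215)))))) (T.h (T.h (P (nat_lit 0)) (T.h (T.h (P (nat_lit 0)) (M (nat_lit 89812631248699391))) (P (nat_lit 0)))) (T.h (T.h (T.h (P (nat_lit 5593462061897089024)) (T.h (P (nat_lit 0)) (P (nat_lit 9436951179808)))) (T.h (P (nat_lit 0)) (P (nat_lit 70963940777632)))) (T.h (P (nat_lit 0)) (P (nat_lit 1226188406752))))))))]
def lP11_13 : List (T ℤ) := [(T.h (T.h (T.h (P (nat_lit 0)) (T.h (P (nat_lit 11401952711144634565808619520)) (T.h (P (nat_lit 0)) (T.h (M (nat_lit 349580771751851196415)) (T.h (P (nat_lit 0)) (M (nat_lit 25174507732271103))))))) (T.h (P (nat_lit 0)) (T.h (T.h (P (nat_lit 0)) (T.h (P (nat_lit 89621593371965055303680)) (T.h (P (nat_lit 0)) (P (nat_lit 387135896393826304))))) (T.h (P (nat_lit 0)) (T.h (T.h (P (nat_lit 0)) (P (nat_lit 92959733253701632))) (P (nat_lit 0))))))) (T.h (T.h (P (nat_lit 0)) (T.h (T.h (P (nat_lit 3580340693341382729793536)) (T.h (P (nat_lit 0)) (T.h (M (nat_lit 52911668563758022655))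 (T.h (P (nat_lit 0)) (P (nat_lit 54023327974512)))))) (T.h (P (nat_lit 0)) (T.h (T.h (M (nat_lit 276770331442141986815)) (T.h (P (nat_lit 0)) (P (nat_lit 254418358177664)))) (T.h (P (nat_lit 0)) (M (nat_lit 12012813532351))))))) (T.h (T.h (T.h (P (nat_lit 0)) (T.h (P (nat_lit 9211029130427594964992)) (T.h (P (nat_lit 0)) (P (nat_lit 82684409123340288))))) (T.h (P (nat_lit 0)) (T.h (T.h (P (nat_lit 0)) (M (nat_lit 948573949698473983))) (P (nat_lit 0))))) (T.h (T.h (P (nat_lit 0)) (T.h (T.h (M (nat_lit 135983825542308691967)) (T.h (P (nat_lit 0)) (P (nat_lit 90268290434928)))) (T.h (P (nat_lit 0)) (M (nat_lit 7866646795423))))) (T.h (T.h (T.h (P (nat_lit 0)) (P (nat_lit 157045282990014464))) (P (nat_lit 0))) (T.h (T.h (P (nat_lit 0)) (M (nat_lit 4685423447423))) (P (nat_lit 0)))))))), (T.h (T.h (T.h (M (nat_lit 851272596110149998887372324863)) (T.h (P (nat_lit 0)) (T.h (M (nat_lit 82576336320761497074532351)) (T.h (P (nat_lit 0)) (T.h (M (nat_lit 159607655211324145663))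 (T.h (P (nat_lit 0)) (M (nat_lit 31513377938015)))))))) (T.h (P (nat_lit 0)) (T.h (T.h (M (nat_lit 117630942955441938893897727)) (T.h (P (nat_lit 0)) (T.h (M (nat_lit 148602608935352926207)) (T.h (P (nat_lit 0)) (M (nat_lit 143720920917935)))))) (T.h (P (nat_lit 0)) (T.h (T.h (M (nat_lit 884226064002586771455)) (T.h (P (nat_lit 0)) (M (nat_lit 143720920917935)))) (T.h (P (nat_lit 0)) (M (nat_lit 31513377938015)))))))) (T.h (T.h (P (nat_lit 0)) (T.h (T.h (P (nat_lit 0)) (T.h (P (nat_lit 108238888629147831107584)) (T.h (P (nat_lit 0)) (M (nat_lit 477586486620127231))))) (T.h (P (nat_lit 0)) (T.h (T.h (P (nat_lit 0)) (M (nat_lit 1157162016127385599))) (P (nat_lit 0)))))) (T.h (T.h (T.h (M (nat_lit 23188096804866667602509823)) (T.h (P (nat_lit 0)) (T.h (M (nat_lit 115216683789640007679)) (T.h (P (nat_lit 0)) (P (nat_lit 117921880255536)))))) (T.h (P (nat_lit 0)) (T.h (T.h (P (nat_lit 47412320963395584000)) (T.h (P (nat_lit 0)) (M (nat_lit 21588494913791))))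 (T.h (P (nat_lit 0)) (P (nat_lit 117921880255536)))))) (T.h (T.h (P (nat_lit 0)) (T.h (T.h (P (nat_lit 0)) (M (nat_lit 303228862671224831))) (P (nat_lit 0)))) (T.h (T.h (T.h (P (nat_lit 57736743200067944448)) (T.h (P (nat_lit 0)) (P (nat_lit 106034947275024)))) (T.h (P (nat_lit 0)) (P (nat_lit 106034947275024)))) (T.h (P (nat_lit 0)) (P (nat_lit 12514805647488)))))))), (T.h (T.h (T.h (P (nat_lit 0)) (T.h (P (nat_lit 20336825086277710617774129152)) (T.h (P (nat_lit 0)) (T.h (M (nat_lit 19845638658273772044287)) (T.h (P (nat_lit 0)) (M (nat_lit 172462478615511039))))))) (T.h (P (nat_lit 0)) (T.h (T.h (P (nat_lit 0)) (T.h (P (nat_lit 66911026800784601776128)) (T.h (P (nat_lit 0)) (M (nat_lit 162785966131183615))))) (T.h (P (nat_lit 0)) (T.h (T.h (P (nat_lit 0)) (M (nat_lit 135904604962209791))) (P (nat_lit 0))))))) (T.h (T.h (P (nat_lit 0)) (T.h (T.h (P (nat_lit 100406850484060940098600960)) (T.h (P (nat_lit 0)) (T.h (P (nat_lit 932873236081316724736))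 (T.h (P (nat_lit 0)) (M (nat_lit 493402670761247)))))) (T.h (P (nat_lit 0)) (T.h (T.h (P (nat_lit 149060729167943827456)) (T.h (P (nat_lit 0)) (M (nat_lit 187314034551551)))) (T.h (P (nat_lit 0)) (P (nat_lit 8562378236832))))))) (T.h (T.h (T.h (P (nat_lit 0)) (T.h (M (nat_lit 35675785022990670888959)) (T.h (P (nat_lit 0)) (P (nat_lit 61532118309339136))))) (T.h (P (nat_lit 0)) (T.h (T.h (P (nat_lit 0)) (M (nat_lit 373595198247862271))) (P (nat_lit 0))))) (T.h (T.h (P (nat_lit 0)) (T.h (T.h (M (nat_lit 128456059387660730367)) (T.h (P (nat_lit 0)) (M (nat_lit 105852932695583)))) (T.h (P (nat_lit 0)) (P (nat_lit 79993172440224))))) (T.h (T.h (T.h (P (nat_lit 0)) (M (nat_lit 36241238331195391))) (P (nat_lit 0))) (T.h (T.h (P (nat_lit 0)) (M (nat_lit 59828803719263))) (P (nat_lit 0)))))))), (T.h (T.h (T.h (P (nat_lit 6956814252741079948443380613120)) (T.h (P (nat_lit 0)) (T.h (P (nat_lit 7835852522007655234928640)) (T.h (P (nat_lit 0)) (P (nat_lit 190603457277588406272))))))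 (T.h (P (nat_lit 0)) (T.h (T.h (P (nat_lit 12512308161857980632924160)) (T.h (P (nat_lit 0)) (P (nat_lit 696574428408140791808)))) (T.h (P (nat_lit 0)) (P (nat_lit 31284549361191616512)))))) (T.h (T.h (P (nat_lit 0)) (T.h (T.h (P (nat_lit 0)) (T.h (M (nat_lit 245888729080067128295423)) (T.h (P (nat_lit 0)) (P (nat_lit 281155397963546624))))) (T.h (P (nat_lit 0)) (T.h (T.h (P (nat_lit 0)) (P (nat_lit 207377764562108416))) (P (nat_lit 0)))))) (T.h (T.h (T.h (P (nat_lit 9834762153925330696404992)) (T.h (P (nat_lit 0)) (M (nat_lit 83243563760396271615)))) (T.h (P (nat_lit 0)) (P (nat_lit 89162961353009266688)))) (T.h (T.h (P (nat_lit 0)) (T.h (T.h (P (nat_lit 0)) (P (nat_lit 200925852248375296))) (P (nat_lit 0)))) (M (nat_lit 907467354663813119)))))), (T.h (T.h (P (nat_lit 0)) (T.h (T.h (P (nat_lit 0)) (T.h (M (nat_lit 96432428552945085186047)) (T.h (P (nat_lit 0)) (T.h (P (nat_lit 11420674673478729728)) (T.h (P (nat_lit 0)) (M (nat_lit 4202247363807)))))))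 (T.h (P (nat_lit 0)) (T.h (T.h (P (nat_lit 0)) (T.h (M (nat_lit 88373213733551341567)) (T.h (P (nat_lit 0)) (M (nat_lit 18135366468679))))) (T.h (P (nat_lit 0)) (T.h (T.h (P (nat_lit 0)) (P (nat_lit 234639226797744))) (P (nat_lit 0)))))))) (T.h (T.h (T.h (P (nat_lit 522746914167041583189327872)) (T.h (P (nat_lit 0)) (T.h (P (nat_lit 3850669693482588700672)) (T.h (P (nat_lit 0)) (P (nat_lit 10120581031886848)))))) (T.h (P (nat_lit 0)) (T.h (T.h (M (nat_lit 8702805273159426637823)) (T.h (P (nat_lit 0)) (M (nat_lit 16434744863326207)))) (T.h (P (nat_lit 0)) (M (nat_lit 29197831500988415)))))) (T.h (T.h (P (nat_lit 0)) (T.h (T.h (P (nat_lit 0)) (T.h (P (nat_lit 11867314922343890944)) (T.h (P (nat_lit 0)) (P (nat_lit 41506757289896))))) (T.h (P (nat_lit 0)) (T.h (T.h (P (nat_lit 0)) (M (nat_lit 43141223945559))) (P (nat_lit 0)))))) (T.h (T.h (T.h (P (nat_lit 15476794070994316689408)) (T.h (P (nat_lit 0)) (M (nat_lit 2462725884444671)))) (T.h (P (nat_lit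 0)) (P (nat_lit 24712650814357504)))) (T.h (T.h (P (nat_lit 0)) (T.h (T.h (P (nat_lit 0)) (P (nat_lit 31941939063544))) (P (nat_lit 0)))) (M (nat_lit 8973031546978303))))))), (T.h (T.h (P (nat_lit 0)) (T.h (T.h (M (nat_lit 13210451688327983842182823935)) (T.h (P (nat_lit 0)) (T.h (P (nat_lit 71268525060009716875264)) (T.h (P (nat_lit 0)) (M (nat_lit 77890511696707583)))))) (T.h (P (nat_lit 0)) (T.h (T.h (P (nat_lit 53049158737755864301568)) (T.h (P (nat_lit 0)) (P (nat_lit 142194421957574656)))) (T.h (P (nat_lit 0)) (M (nat_lit 33213642493526015))))))) (T.h (T.h (T.h (P (nat_lit 0)) (T.h (M (nat_lit 812139356238288361881599)) (T.h (P (nat_lit 0)) (T.h (P (nat_lit 14353739500201443328)) (T.h (P (nat_lit 0)) (M (nat_lit 12009131250063))))))) (T.h (P (nat_lit 0)) (T.h (T.h (P (nat_lit 0)) (T.h (P (nat_lit 686793345222343393280)) (T.h (P (nat_lit 0)) (M (nat_lit 5250374281359))))) (T.h (P (nat_lit 0)) (T.h (T.h (P (nat_lit 0)) (M (nat_lit 33739957894015)))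 (P (nat_lit 0))))))) (T.h (T.h (P (nat_lit 0)) (T.h (T.h (P (nat_lit 71268525060009716875264)) (T.h (P (nat_lit 0)) (M (nat_lit 82599042909241343)))) (T.h (P (nat_lit 0)) (P (nat_lit 142194421957574656))))) (T.h (T.h (T.h (P (nat_lit 0)) (T.h (P (nat_lit 14353739500201443328)) (T.h (P (nat_lit 0)) (P (nat_lit 15419168176256))))) (T.h (P (nat_lit 0)) (T.h (T.h (P (nat_lit 0)) (M (nat_lit 5250374281359))) (P (nat_lit 0))))) (T.h (T.h (P (nat_lit 0)) (M (nat_lit 77890511696707583))) (T.h (T.h (T.h (P (nat_lit 0)) (M (nat_lit 12009131250063))) (P (nat_lit 0))) (P (nat_lit 0)))))))), (T.h (T.h (P (nat_lit 0)) (T.h (T.h (P (nat_lit 0)) (T.h (M (nat_lit 8036348300840160110575615)) (T.h (P (nat_lit 0)) (T.h (M (nat_lit 241182344953884311551)) (T.h (P (nat_lit 0)) (P (nat_lit 31462978248624))))))) (T.h (P (nat_lit 0)) (T.h (T.h (P (nat_lit 0)) (T.h (P (nat_lit 1404933726449294114816)) (T.h (P (nat_lit 0)) (P (nat_lit 222868762305024))))) (T.h (P (nat_lit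 0)) (T.h (T.h (P (nat_lit 0)) (M (nat_lit 89014422257279))) (P (nat_lit 0)))))))) (T.h (T.h (T.h (M (nat_lit 5650060058408433800143962111)) (T.h (P (nat_lit 0)) (T.h (P (nat_lit 47839518422904462114816)) (T.h (P (nat_lit 0)) (P (nat_lit 169044708653203456)))))) (T.h (P (nat_lit 0)) (T.h (T.h (M (nat_lit 5989468968187611578367)) (T.h (P (nat_lit 0)) (P (nat_lit 1081420783830597632)))) (T.h (P (nat_lit 0)) (P (nat_lit 230956717399277568)))))) (T.h (T.h (P (nat_lit 0)) (T.h (T.h (P (nat_lit 0)) (T.h (P (nat_lit 72208137597776560128)) (T.h (P (nat_lit 0)) (P (nat_lit 151194672219024))))) (T.h (P (nat_lit 0)) (T.h (T.h (P (nat_lit 0)) (M (nat_lit 326692463252447))) (P (nat_lit 0)))))) (T.h (T.h (T.h (P (nat_lit 4735867718199618306048)) (T.h (P (nat_lit 0)) (M (nat_lit 58709267346751487)))) (T.h (P (nat_lit 0)) (M (nat_lit 351021351897399295)))) (T.h (T.h (P (nat_lit 0)) (T.h (T.h (P (nat_lit 0)) (M (nat_lit 168082866176879))) (P (nat_lit 0)))) (M (nat_lit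 28820754797953023))))))), (T.h (T.h (P (nat_lit 0)) (T.h (T.h (P (nat_lit 20336825086277710617774129152)) (T.h (P (nat_lit 0)) (T.h (P (nat_lit 66911026800784601776128)) (T.h (P (nat_lit 0)) (M (nat_lit 135904604962209791)))))) (T.h (P (nat_lit 0)) (T.h (T.h (M (nat_lit 19845638658273772044287)) (T.h (P (nat_lit 0)) (M (nat_lit 162785966131183615)))) (T.h (P (nat_lit 0)) (M (nat_lit 172462478615511039))))))) (T.h (T.h (T.h (P (nat_lit 0)) (T.h (P (nat_lit 100406850484060940098600960)) (T.h (P (nat_lit 0)) (T.h (P (nat_lit 149060729167943827456)) (T.h (P (nat_lit 0)) (P (nat_lit 8562378236832))))))) (T.h (P (nat_lit 0)) (T.h (T.h (P (nat_lit 0)) (T.h (P (nat_lit 932873236081316724736)) (T.h (P (nat_lit 0)) (M (nat_lit 187314034551551))))) (T.h (P (nat_lit 0)) (T.h (T.h (P (nat_lit 0)) (M (nat_lit 493402670761247))) (P (nat_lit 0))))))) (T.h (T.h (P (nat_lit 0)) (T.h (T.h (M (nat_lit 35675785022990670888959)) (T.h (P (nat_lit 0)) (M (nat_lit 373595198247862271))))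 (T.h (P (nat_lit 0)) (P (nat_lit 61532118309339136))))) (T.h (T.h (T.h (P (nat_lit 0)) (T.h (M (nat_lit 128456059387660730367)) (T.h (P (nat_lit 0)) (P (nat_lit 79993172440224))))) (T.h (P (nat_lit 0)) (T.h (T.h (P (nat_lit 0)) (M (nat_lit 105852932695583))) (P (nat_lit 0))))) (T.h (T.h (P (nat_lit 0)) (M (nat_lit 36241238331195391))) (T.h (T.h (T.h (P (nat_lit 0)) (M (nat_lit 59828803719263))) (P (nat_lit 0))) (P (nat_lit 0))))))))]
def lP11_14 : List (T ℤ) := [(T.h (T.h (P (nat_lit 0)) (T.h (T.h (P (nat_lit 0)) (T.h (P (nat_lit 82022475448791551103205376)) (T.h (P (nat_lit 0)) (P (nat_lit 285002259208458993664))))) (T.h (P (nat_lit 0)) (T.h (T.h (P (nat_lit 0)) (P (nat_lit 285002259208458993664))) (P (nat_lit 0)))))) (T.h (T.h (T.h (M (nat_lit 23982801289164216537089835007)) (T.h (P (nat_lit 0)) (T.h (M (nat_lit 103457444550888944304127)) (T.h (P (nat_lit 0)) (P (nat_lit 83546188554764288)))))) (T.h (P (nat_lit 0)) (T.h (T.h (M (nat_lit 103457444550888944304127))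 (T.h (P (nat_lit 0)) (P (nat_lit 105359980908511232)))) (T.h (P (nat_lit 0)) (P (nat_lit 83546188554764288)))))) (T.h (T.h (P (nat_lit 0)) (T.h (T.h (P (nat_lit 0)) (P (nat_lit 145578080354680438784))) (P (nat_lit 0)))) (T.h (T.h (T.h (M (nat_lit 40637152726621985177599)) (T.h (P (nat_lit 0)) (M (nat_lit 77636821944369151)))) (T.h (P (nat_lit 0)) (M (nat_lit 77636821944369151)))) (T.h (P (nat_lit 0)) (P (nat_lit 30478663296221184))))))), (T.h (T.h (T.h (P (nat_lit 0)) (T.h (P (nat_lit 2084092978544746558608375808)) (T.h (P (nat_lit 0)) (T.h (M (nat_lit 2445534956294129057791)) (T.h (P (nat_lit 0)) (P (nat_lit 2747498126852096))))))) (T.h (P (nat_lit 0)) (T.h (T.h (P (nat_lit 0)) (T.h (M (nat_lit 14112679512842935730175)) (T.h (P (nat_lit 0)) (P (nat_lit 3081846973022208))))) (T.h (P (nat_lit 0)) (T.h (T.h (P (nat_lit 0)) (M (nat_lit 145933282261073919))) (P (nat_lit 0))))))) (T.h (T.h (P (nat_lit 0)) (T.h (T.h (P (nat_lit 3505100089068918241492992))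 (T.h (P (nat_lit 0)) (T.h (P (nat_lit 8688976552274165760)) (T.h (P (nat_lit 0)) (M (nat_lit 6391443606815)))))) (T.h (P (nat_lit 0)) (T.h (T.h (P (nat_lit 83778115168194527232)) (T.h (P (nat_lit 0)) (P (nat_lit 19291176429520)))) (T.h (P (nat_lit 0)) (M (nat_lit 335941989346463))))))) (T.h (T.h (T.h (P (nat_lit 0)) (T.h (M (nat_lit 13105697841355797037055)) (T.h (P (nat_lit 0)) (M (nat_lit 10769564384280575))))) (T.h (P (nat_lit 0)) (T.h (T.h (P (nat_lit 0)) (M (nat_lit 45175380232437759))) (P (nat_lit 0))))) (T.h (T.h (P (nat_lit 0)) (T.h (T.h (M (nat_lit 3206093737427992575)) (T.h (P (nat_lit 0)) (P (nat_lit 7731991111936)))) (T.h (P (nat_lit 0)) (P (nat_lit 19834863972112))))) (T.h (T.h (T.h (P (nat_lit 0)) (M (nat_lit 21643633645551615))) (P (nat_lit 0))) (T.h (T.h (P (nat_lit 0)) (M (nat_lit 2171138809055))) (P (nat_lit 0)))))))), (T.h (T.h (T.h (M (nat_lit 1964079821679632770399920455679)) (T.h (P (nat_lit 0)) (T.h (P (nat_lit 23608996639526259129319424))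 (T.h (P (nat_lit 0)) (T.h (M (nat_lit 32055392101604524031)) (T.h (P (nat_lit 0)) (M (nat_lit 1272585424271)))))))) (T.h (P (nat_lit 0)) (T.h (T.h (M (nat_lit 9123437953756958918967295)) (T.h (P (nat_lit 0)) (T.h (P (nat_lit 143905283881725591552)) (T.h (P (nat_lit 0)) (M (nat_lit 106775006108063)))))) (T.h (P (nat_lit 0)) (T.h (T.h (P (nat_lit 253900677321045573632)) (T.h (P (nat_lit 0)) (P (nat_lit 86654082495648)))) (T.h (P (nat_lit 0)) (P (nat_lit 5727466517568)))))))) (T.h (T.h (P (nat_lit 0)) (T.h (T.h (P (nat_lit 0)) (T.h (M (nat_lit 21975044058024553480191)) (T.h (P (nat_lit 0)) (M (nat_lit 100790867312836607))))) (T.h (P (nat_lit 0)) (T.h (T.h (P (nat_lit 0)) (P (nat_lit 982799063274225664))) (P (nat_lit 0)))))) (T.h (T.h (T.h (M (nat_lit 4399674366462710643687423)) (T.h (P (nat_lit 0)) (T.h (P (nat_lit 15223931451574583296)) (T.h (P (nat_lit 0)) (M (nat_lit 54304868692991)))))) (T.h (P (nat_lit 0)) (T.h (T.h (P (nat_lit 242922535185952014336))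 (T.h (P (nat_lit 0)) (M (nat_lit 51987151445087)))) (T.h (P (nat_lit 0)) (P (nat_lit 86654082495648)))))) (T.h (T.h (P (nat_lit 0)) (T.h (T.h (P (nat_lit 0)) (P (nat_lit 219158715339046912))) (P (nat_lit 0)))) (T.h (T.h (T.h (M (nat_lit 9235792456685977599)) (T.h (P (nat_lit 0)) (M (nat_lit 54304868692991)))) (T.h (P (nat_lit 0)) (M (nat_lit 106775006108063)))) (T.h (P (nat_lit 0)) (M (nat_lit 1272585424271)))))))), (T.h (T.h (T.h (P (nat_lit 0)) (T.h (M (nat_lit 10238001575438095358980259839)) (T.h (P (nat_lit 0)) (T.h (P (nat_lit 4498526712991768903680)) (T.h (P (nat_lit 0)) (M (nat_lit 5867200945930239))))))) (T.h (P (nat_lit 0)) (T.h (T.h (P (nat_lit 0)) (T.h (M (nat_lit 148288026953148786540543)) (T.h (P (nat_lit 0)) (M (nat_lit 902612114225659903))))) (T.h (P (nat_lit 0)) (T.h (T.h (P (nat_lit 0)) (P (nat_lit 391068373448163328))) (P (nat_lit 0))))))) (T.h (T.h (P (nat_lit 0)) (T.h (T.h (M (nat_lit 65918469378897187897868287)) (T.h (P (nat_lit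 0)) (T.h (M (nat_lit 115437795602681823231)) (T.h (P (nat_lit 0)) (M (nat_lit 212902374284207)))))) (T.h (P (nat_lit 0)) (T.h (T.h (M (nat_lit 204190865734695387135)) (T.h (P (nat_lit 0)) (P (nat_lit 480696106885200)))) (T.h (P (nat_lit 0)) (P (nat_lit 88368910367184))))))) (T.h (T.h (T.h (P (nat_lit 0)) (T.h (M (nat_lit 32773840107748108271615)) (T.h (P (nat_lit 0)) (M (nat_lit 13902498383790079))))) (T.h (P (nat_lit 0)) (T.h (T.h (P (nat_lit 0)) (P (nat_lit 519943386516488192))) (P (nat_lit 0))))) (T.h (T.h (P (nat_lit 0)) (T.h (T.h (P (nat_lit 258219709894464897024)) (T.h (P (nat_lit 0)) (P (nat_lit 135400654107216)))) (T.h (P (nat_lit 0)) (M (nat_lit 40308873541055))))) (T.h (T.h (T.h (P (nat_lit 0)) (P (nat_lit 105856962375598080))) (P (nat_lit 0))) (T.h (T.h (P (nat_lit 0)) (P (nat_lit 6090557697360))) (P (nat_lit 0)))))))), (T.h (T.h (T.h (P (nat_lit 6956814252741079948443380613120)) (T.h (P (nat_lit 0)) (T.h (P (nat_lit 12512308161857980632924160))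 (T.h (P (nat_lit 0)) (P (nat_lit 31284549361191616512)))))) (T.h (P (nat_lit 0)) (T.h (T.h (P (nat_lit 7835852522007655234928640)) (T.h (P (nat_lit 0)) (P (nat_lit 696574428408140791808)))) (T.h (P (nat_lit 0)) (P (nat_lit 190603457277588406272)))))) (T.h (T.h (P (nat_lit 0)) (T.h (T.h (P (nat_lit 0)) (T.h (M (nat_lit 245888729080067128295423)) (T.h (P (nat_lit 0)) (P (nat_lit 207377764562108416))))) (T.h (P (nat_lit 0)) (T.h (T.h (P (nat_lit 0)) (P (nat_lit 281155397963546624))) (P (nat_lit 0)))))) (T.h (T.h (T.h (P (nat_lit 9834762153925330696404992)) (T.h (P (nat_lit 0)) (P (nat_lit 89162961353009266688)))) (T.h (P (nat_lit 0)) (M (nat_lit 83243563760396271615)))) (T.h (T.h (P (nat_lit 0)) (T.h (T.h (P (nat_lit 0)) (P (nat_lit 200925852248375296))) (P (nat_lit 0)))) (M (nat_lit 907467354663813119)))))), (T.h (T.h (P (nat_lit 0)) (T.h (T.h (P (nat_lit 0)) (T.h (P (nat_lit 2383553571043493235654656)) (T.h (P (nat_lit 0)) (T.h (P (nat_lit 14669747237702074368))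 (T.h (P (nat_lit 0)) (P (nat_lit 2088080913312))))))) (T.h (P (nat_lit 0)) (T.h (T.h (P (nat_lit 0)) (T.h (P (nat_lit 210634333785335791616)) (T.h (P (nat_lit 0)) (P (nat_lit 13347002066688))))) (T.h (P (nat_lit 0)) (T.h (T.h (P (nat_lit 0)) (M (nat_lit 98814136291871))) (P (nat_lit 0)))))))) (T.h (T.h (T.h (P (nat_lit 2154891042732379661706199040)) (T.h (P (nat_lit 0)) (T.h (P (nat_lit 4474762371420710240256)) (T.h (P (nat_lit 0)) (P (nat_lit 13999807017811968)))))) (T.h (P (nat_lit 0)) (T.h (T.h (M (nat_lit 34767034279980458573823)) (T.h (P (nat_lit 0)) (M (nat_lit 30376024633999359)))) (T.h (P (nat_lit 0)) (P (nat_lit 321250912583647232)))))) (T.h (T.h (P (nat_lit 0)) (T.h (T.h (P (nat_lit 0)) (T.h (M (nat_lit 11842962872105697279)) (T.h (P (nat_lit 0)) (M (nat_lit 18427241446751))))) (T.h (P (nat_lit 0)) (T.h (T.h (P (nat_lit 0)) (M (nat_lit 31467877982927))) (P (nat_lit 0)))))) (T.h (T.h (T.h (M (nat_lit 19457227158117284839423)) (T.h (P (nat_lit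 0)) (P (nat_lit 38720267754078208)))) (T.h (P (nat_lit 0)) (P (nat_lit 42731317351088128)))) (T.h (T.h (P (nat_lit 0)) (T.h (T.h (P (nat_lit 0)) (M (nat_lit 5796365101967))) (P (nat_lit 0)))) (P (nat_lit 8820553485451264))))))), (T.h (T.h (P (nat_lit 0)) (T.h (T.h (P (nat_lit 36998131545928357616738631680)) (T.h (P (nat_lit 0)) (T.h (M (nat_lit 90589036788935810875391)) (T.h (P (nat_lit 0)) (P (nat_lit 79739785560276992)))))) (T.h (P (nat_lit 0)) (T.h (T.h (M (nat_lit 3100395856076149358591)) (T.h (P (nat_lit 0)) (P (nat_lit 15382350327431168)))) (T.h (P (nat_lit 0)) (P (nat_lit 166287845529026560))))))) (T.h (T.h (T.h (P (nat_lit 0)) (T.h (M (nat_lit 53272160417920283098218495)) (T.h (P (nat_lit 0)) (T.h (M (nat_lit 18135119514684096511)) (T.h (P (nat_lit 0)) (P (nat_lit 25603466475168))))))) (T.h (P (nat_lit 0)) (T.h (T.h (P (nat_lit 0)) (T.h (M (nat_lit 1051264078816068239359)) (T.h (P (nat_lit 0)) (P (nat_lit 71961381107280))))) (T.h (P (nat_lit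 0)) (T.h (T.h (P (nat_lit 0)) (P (nat_lit 354926245962528))) (P (nat_lit 0))))))) (T.h (T.h (P (nat_lit 0)) (T.h (T.h (M (nat_lit 90589036788935810875391)) (T.h (P (nat_lit 0)) (P (nat_lit 200668995862790144)))) (T.h (P (nat_lit 0)) (P (nat_lit 15382350327431168))))) (T.h (T.h (T.h (P (nat_lit 0)) (T.h (M (nat_lit 18135119514684096511)) (T.h (P (nat_lit 0)) (M (nat_lit 85814251092287))))) (T.h (P (nat_lit 0)) (T.h (T.h (P (nat_lit 0)) (P (nat_lit 71961381107280))) (P (nat_lit 0))))) (T.h (T.h (P (nat_lit 0)) (P (nat_lit 79739785560276992))) (T.h (T.h (T.h (P (nat_lit 0)) (P (nat_lit 25603466475168))) (P (nat_lit 0))) (P (nat_lit 0)))))))), (T.h (T.h (P (nat_lit 0)) (T.h (T.h (P (nat_lit 0)) (T.h (P (nat_lit 15532778243652765473570816)) (T.h (P (nat_lit 0)) (P (nat_lit 372027013451330093056))))) (T.h (P (nat_lit 0)) (T.h (T.h (P (nat_lit 0)) (M (nat_lit 292461774379792990207))) (P (nat_lit 0)))))) (T.h (T.h (T.h (M (nat_lit 2802544089202721518058995711))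 (T.h (P (nat_lit 0)) (T.h (M (nat_lit 11334887043216479092735)) (T.h (P (nat_lit 0)) (P (nat_lit 17610523673985024)))))) (T.h (P (nat_lit 0)) (T.h (T.h (P (nat_lit 219226733783414827122688)) (T.h (P (nat_lit 0)) (M (nat_lit 307064400049864703)))) (T.h (P (nat_lit 0)) (M (nat_lit 111197562056900607)))))) (T.h (T.h (P (nat_lit 0)) (T.h (T.h (P (nat_lit 0)) (M (nat_lit 132783142035194380287))) (P (nat_lit 0)))) (T.h (T.h (T.h (P (nat_lit 11706436078456893603840)) (T.h (P (nat_lit 0)) (P (nat_lit 64870222751039488)))) (T.h (P (nat_lit 0)) (P (nat_lit 48128141689192448)))) (T.h (P (nat_lit 0)) (M (nat_lit 10301442286452735)))))))]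
def lP11_15 : List (T ℤ) := [(T.h (T.h (T.h (P (nat_lit 0)) (T.h (P (nat_lit 7613911020926650974465949696)) (T.h (P (nat_lit 0)) (T.h (P (nat_lit 3737831950392995348480)) (T.h (P (nat_lit 0)) (M (nat_lit 2662119321436159))))))) (T.h (P (nat_lit 0)) (T.h (T.h (P (nat_lit 0)) (T.h (M (nat_lit 37608647712375417339903)) (T.h (P (nat_lit 0)) (M (nat_lit 15025593104400383))))) (T.h (P (nat_lit 0)) (T.h (T.h (P (nat_lit 0)) (P (nat_lit 288386959946383360))) (P (nat_lit 0))))))) (T.h (T.h (P (nat_lit 0)) (T.h (T.h (P (nat_lit 16770020288298499683909632)) (T.h (P (nat_lit 0)) (T.h (P (nat_lit 6148453346429632512)) (T.h (P (nat_lit 0)) (P (nat_lit 17575024374576)))))) (T.h (P (nat_lit 0)) (T.h (T.h (M (nat_lit 54436003502392082431)) (T.h (P (nat_lit 0)) (M (nat_lit 157763501468927)))) (T.h (P (nat_lit 0)) (P (nat_lit 310329193881600))))))) (T.h (T.h (T.h (P (nat_lit 0)) (T.h (P (nat_lit 856239061351264157696)) (T.h (P (nat_lit 0)) (P (nat_lit 18868985238323200)))))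 (T.h (P (nat_lit 0)) (T.h (T.h (P (nat_lit 0)) (M (nat_lit 11201544438792191))) (P (nat_lit 0))))) (T.h (T.h (P (nat_lit 0)) (T.h (T.h (M (nat_lit 24581911049941286911)) (T.h (P (nat_lit 0)) (M (nat_lit 43491366017423)))) (T.h (P (nat_lit 0)) (M (nat_lit 15746492039039))))) (T.h (T.h (T.h (P (nat_lit 0)) (M (nat_lit 18543270365085695))) (P (nat_lit 0))) (T.h (T.h (P (nat_lit 0)) (M (nat_lit 3743196082991))) (P (nat_lit 0)))))))), (T.h (T.h (T.h (M (nat_lit 3388291302366962560366419116031)) (T.h (P (nat_lit 0)) (T.h (P (nat_lit 4983474547258667095293952)) (T.h (P (nat_lit 0)) (P (nat_lit 5571827366197460992)))))) (T.h (P (nat_lit 0)) (T.h (T.h (M (nat_lit 52973080057366503088979967)) (T.h (P (nat_lit 0)) (M (nat_lit 91053075213775273983)))) (T.h (P (nat_lit 0)) (M (nat_lit 201408859984088793087)))))) (T.h (T.h (P (nat_lit 0)) (T.h (T.h (P (nat_lit 0)) (T.h (P (nat_lit 130518322924367101558784)) (T.h (P (nat_lit 0)) (M (nat_lit 28954197942730751)))))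 (T.h (P (nat_lit 0)) (T.h (T.h (P (nat_lit 0)) (M (nat_lit 179461911432396799))) (P (nat_lit 0)))))) (T.h (T.h (T.h (P (nat_lit 4983474547258667095293952)) (T.h (P (nat_lit 0)) (M (nat_lit 46072855600505552895)))) (T.h (P (nat_lit 0)) (M (nat_lit 91053075213775273983)))) (T.h (T.h (P (nat_lit 0)) (T.h (T.h (P (nat_lit 0)) (M (nat_lit 28954197942730751))) (P (nat_lit 0)))) (P (nat_lit 5571827366197460992)))))), (T.h (T.h (P (nat_lit 0)) (T.h (T.h (P (nat_lit 0)) (T.h (M (nat_lit 1761177201905144919228415)) (T.h (P (nat_lit 0)) (M (nat_lit 1424453042811437055))))) (T.h (P (nat_lit 0)) (T.h (T.h (P (nat_lit 0)) (M (nat_lit 159289274093619118079))) (P (nat_lit 0)))))) (T.h (T.h (T.h (M (nat_lit 1069719061105742419312246783)) (T.h (P (nat_lit 0)) (T.h (P (nat_lit 167114983961662586880)) (T.h (P (nat_lit 0)) (M (nat_lit 6948109256065023)))))) (T.h (P (nat_lit 0)) (T.h (T.h (M (nat_lit 9039233065320873721855)) (T.h (P (nat_lit 0)) (P (nat_lit 69713786696892416))))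 (T.h (P (nat_lit 0)) (M (nat_lit 360924354560393215)))))) (T.h (T.h (P (nat_lit 0)) (T.h (T.h (P (nat_lit 0)) (P (nat_lit 13635200529196908544))) (P (nat_lit 0)))) (T.h (T.h (T.h (P (nat_lit 4810639926731932172288)) (T.h (P (nat_lit 0)) (P (nat_lit 3999072314753024)))) (T.h (P (nat_lit 0)) (M (nat_lit 9114228696940543)))) (T.h (P (nat_lit 0)) (P (nat_lit 189485684457472))))))), (M (nat_lit 4410501400340933843783516159999)), (P (nat_lit 0)), (P (nat_lit 0)), (T.h (T.h (T.h (P (nat_lit 0)) (T.h (M (nat_lit 5759271470269521065423142911)) (T.h (P (nat_lit 0)) (T.h (P (nat_lit 5469803030520608587776)) (T.h (P (nat_lit 0)) (M (nat_lit 206113574879231))))))) (T.h (P (nat_lit 0)) (T.h (T.h (P (nat_lit 0)) (T.h (P (nat_lit 2781654216421851267072)) (T.h (P (nat_lit 0)) (M (nat_lit 468974644527103))))) (T.h (P (nat_lit 0)) (T.h (T.h (P (nat_lit 0)) (M (nat_lit 1986962158813183))) (P (nat_lit 0))))))) (T.h (T.h (P (nat_lit 0)) (T.h (T.h (P (nat_lit 4204261618133833938370560))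 (T.h (P (nat_lit 0)) (T.h (M (nat_lit 22564888246348677119)) (T.h (P (nat_lit 0)) (M (nat_lit 135946721145023)))))) (T.h (P (nat_lit 0)) (T.h (T.h (M (nat_lit 279505857551532031)) (T.h (P (nat_lit 0)) (M (nat_lit 23848727315007)))) (T.h (P (nat_lit 0)) (P (nat_lit 251898760536))))))) (T.h (T.h (T.h (P (nat_lit 0)) (T.h (P (nat_lit 2712750349386849976320)) (T.h (P (nat_lit 0)) (M (nat_lit 12044449115373567))))) (T.h (P (nat_lit 0)) (T.h (T.h (P (nat_lit 0)) (P (nat_lit 13732124649455616))) (P (nat_lit 0))))) (T.h (T.h (P (nat_lit 0)) (T.h (T.h (P (nat_lit 1436442446299922432)) (T.h (P (nat_lit 0)) (M (nat_lit 13039914007615)))) (T.h (P (nat_lit 0)) (P (nat_lit 72660681504))))) (T.h (T.h (T.h (P (nat_lit 0)) (M (nat_lit 2704680764932095))) (P (nat_lit 0))) (T.h (T.h (P (nat_lit 0)) (P (nat_lit 1300883372136))) (P (nat_lit 0)))))))), (T.h (T.h (T.h (P (nat_lit 6945281478211275015688300789760)) (T.h (P (nat_lit 0)) (T.h (M (nat_lit 6892331385474144117194751))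 (T.h (P (nat_lit 0)) (T.h (M (nat_lit 12345843102613766143)) (T.h (P (nat_lit 0)) (P (nat_lit 10239292669440)))))))) (T.h (P (nat_lit 0)) (T.h (T.h (M (nat_lit 844005617985062042599423)) (T.h (P (nat_lit 0)) (T.h (P (nat_lit 28162852510398152704)) (T.h (P (nat_lit 0)) (M (nat_lit 6531616341807)))))) (T.h (P (nat_lit 0)) (T.h (T.h (M (nat_lit 250077559696392191)) (T.h (P (nat_lit 0)) (M (nat_lit 12025278876719)))) (T.h (P (nat_lit 0)) (M (nat_lit 394146612063)))))))) (T.h (T.h (P (nat_lit 0)) (T.h (T.h (P (nat_lit 0)) (T.h (P (nat_lit 21790855645850796818432)) (T.h (P (nat_lit 0)) (P (nat_lit 114410331772616704))))) (T.h (P (nat_lit 0)) (T.h (T.h (P (nat_lit 0)) (M (nat_lit 8712303045115903))) (P (nat_lit 0)))))) (T.h (T.h (T.h (M (nat_lit 844005617985062042599423)) (T.h (P (nat_lit 0)) (T.h (P (nat_lit 28162852510398152704)) (T.h (P (nat_lit 0)) (M (nat_lit 6531616341807)))))) (T.h (P (nat_lit 0)) (T.h (T.h (P (nat_lit 1700261905928552448)) (T.h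 (P (nat_lit 0)) (M (nat_lit 46369747134399)))) (T.h (P (nat_lit 0)) (M (nat_lit 1928525502543)))))) (T.h (T.h (P (nat_lit 0)) (T.h (T.h (P (nat_lit 0)) (M (nat_lit 8712303045115903))) (P (nat_lit 0)))) (T.h (T.h (T.h (M (nat_lit 250077559696392191)) (T.h (P (nat_lit 0)) (M (nat_lit 12025278876719)))) (T.h (P (nat_lit 0)) (M (nat_lit 1928525502543)))) (T.h (P (nat_lit 0)) (M (nat_lit 394146612063))))))))]
def lP11_16 : List (T ℤ) := [(T.h (T.h (T.h (P (nat_lit 0)) (T.h (P (nat_lit 12705971551799468700223930368)) (T.h (P (nat_lit 0)) (T.h (P (nat_lit 1067211340657522114560)) (T.h (P (nat_lit 0)) (M (nat_lit 24957961867493375))))))) (T.h (P (nat_lit 0)) (T.h (T.h (P (nat_lit 0)) (T.h (M (nat_lit 1703111653625365004287)) (T.h (P (nat_lit 0)) (P (nat_lit 33631326450122752))))) (T.h (P (nat_lit 0)) (T.h (T.h (P (nat_lit 0)) (P (nat_lit 8727060432158720))) (P (nat_lit 0))))))) (T.h (T.h (P (nat_lit 0)) (T.h (T.h (M (nat_lit 6603952406297327842623487)) (T.h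 (P (nat_lit 0)) (T.h (P (nat_lit 46739776176339812352)) (T.h (P (nat_lit 0)) (P (nat_lit 135946721145024)))))) (T.h (P (nat_lit 0)) (T.h (T.h (P (nat_lit 4491474292059406336)) (T.h (P (nat_lit 0)) (P (nat_lit 18444320661312)))) (T.h (P (nat_lit 0)) (M (nat_lit 776391066335))))))) (T.h (T.h (T.h (P (nat_lit 0)) (T.h (M (nat_lit 8848581376903131168767)) (T.h (P (nat_lit 0)) (P (nat_lit 10236873174646784))))) (T.h (P (nat_lit 0)) (T.h (T.h (P (nat_lit 0)) (P (nat_lit 24253972323106816))) (P (nat_lit 0))))) (T.h (T.h (P (nat_lit 0)) (T.h (T.h (M (nat_lit 7293634597340839935)) (T.h (P (nat_lit 0)) (P (nat_lit 18444320661312)))) (T.h (P (nat_lit 0)) (M (nat_lit 72660681503))))) (T.h (T.h (T.h (P (nat_lit 0)) (P (nat_lit 15828416420511744))) (P (nat_lit 0))) (T.h (T.h (P (nat_lit 0)) (M (nat_lit 776391066335))) (P (nat_lit 0)))))))), (T.h (T.h (T.h (M (nat_lit 1526812637208704738452194721791)) (T.h (P (nat_lit 0)) (T.h (P (nat_lit 20864823599583554539880448))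 (T.h (P (nat_lit 0)) (T.h (P (nat_lit 6830011316166459392)) (T.h (P (nat_lit 0)) (M (nat_lit 18430719318143)))))))) (T.h (P (nat_lit 0)) (T.h (T.h (M (nat_lit 1566168659524124063825919)) (T.h (P (nat_lit 0)) (T.h (M (nat_lit 11962976014688059391)) (T.h (P (nat_lit 0)) (P (nat_lit 17223692796864)))))) (T.h (P (nat_lit 0)) (T.h (T.h (M (nat_lit 1257490112028082175)) (T.h (P (nat_lit 0)) (P (nat_lit 21823059736368)))) (T.h (P (nat_lit 0)) (P (nat_lit 485082553536)))))))) (T.h (T.h (P (nat_lit 0)) (T.h (T.h (P (nat_lit 0)) (T.h (M (nat_lit 25949813201762300985343)) (T.h (P (nat_lit 0)) (M (nat_lit 150200156445474815))))) (T.h (P (nat_lit 0)) (T.h (T.h (P (nat_lit 0)) (M (nat_lit 16206316422561791))) (P (nat_lit 0)))))) (T.h (T.h (T.h (M (nat_lit 1566168659524124063825919)) (T.h (P (nat_lit 0)) (T.h (M (nat_lit 11962976014688059391)) (T.h (P (nat_lit 0)) (P (nat_lit 17223692796864)))))) (T.h (P (nat_lit 0)) (T.h (T.h (P (nat_lit 5272713814171713536))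 (T.h (P (nat_lit 0)) (P (nat_lit 83465545105728)))) (T.h (P (nat_lit 0)) (P (nat_lit 6479329439808)))))) (T.h (T.h (P (nat_lit 0)) (T.h (T.h (P (nat_lit 0)) (M (nat_lit 16206316422561791))) (P (nat_lit 0)))) (T.h (T.h (T.h (M (nat_lit 1257490112028082175)) (T.h (P (nat_lit 0)) (P (nat_lit 21823059736368)))) (T.h (P (nat_lit 0)) (P (nat_lit 6479329439808)))) (T.h (P (nat_lit 0)) (P (nat_lit 485082553536)))))))), (T.h (T.h (T.h (P (nat_lit 0)) (T.h (M (nat_lit 6946700081529947634800787455)) (T.h (P (nat_lit 0)) (T.h (M (nat_lit 6537014371178130702335)) (T.h (P (nat_lit 0)) (P (nat_lit 25164075442372608))))))) (T.h (P (nat_lit 0)) (T.h (T.h (P (nat_lit 0)) (T.h (P (nat_lit 2528644232359897464832)) (T.h (P (nat_lit 0)) (M (nat_lit 15677387932434431))))) (T.h (P (nat_lit 0)) (T.h (T.h (P (nat_lit 0)) (M (nat_lit 9931916964462591))) (P (nat_lit 0))))))) (T.h (T.h (P (nat_lit 0)) (T.h (T.h (P (nat_lit 2399690788163493904252928)) (T.h (P (nat_lit 0)) (M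 (nat_lit 24174887929991135231)))) (T.h (P (nat_lit 0)) (P (nat_lit 822611858266521600))))) (T.h (T.h (T.h (P (nat_lit 0)) (T.h (P (nat_lit 2528644232359897464832)) (T.h (P (nat_lit 0)) (M (nat_lit 15677387932434431))))) (T.h (P (nat_lit 0)) (T.h (T.h (P (nat_lit 0)) (M (nat_lit 37986096972562431))) (P (nat_lit 0))))) (T.h (T.h (P (nat_lit 0)) (P (nat_lit 822611858266521600))) (T.h (T.h (T.h (P (nat_lit 0)) (M (nat_lit 9931916964462591))) (P (nat_lit 0))) (P (nat_lit 0))))))), (P (nat_lit 0)), (P (nat_lit 0)), (T.h (T.h (P (nat_lit 0)) (T.h (T.h (P (nat_lit 14269134643526864158614093824)) (T.h (P (nat_lit 0)) (T.h (M (nat_lit 27471635030742633807871)) (T.h (P (nat_lit 0)) (P (nat_lit 43677374260051968)))))) (T.h (P (nat_lit 0)) (T.h (T.h (P (nat_lit 7967390448646252134400)) (T.h (P (nat_lit 0)) (P (nat_lit 107764172307333120)))) (T.h (P (nat_lit 0)) (P (nat_lit 380968898691072))))))) (T.h (T.h (T.h (P (nat_lit 0)) (T.h (P (nat_lit 18465344014479985616093184))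 (T.h (P (nat_lit 0)) (T.h (M (nat_lit 68835595945469018111)) (T.h (P (nat_lit 0)) (P (nat_lit 89022642699632))))))) (T.h (P (nat_lit 0)) (T.h (T.h (P (nat_lit 0)) (T.h (P (nat_lit 6342422112648560640)) (T.h (P (nat_lit 0)) (M (nat_lit 316972010861575))))) (T.h (P (nat_lit 0)) (T.h (T.h (P (nat_lit 0)) (P (nat_lit 53825143441704))) (P (nat_lit 0))))))) (T.h (T.h (P (nat_lit 0)) (T.h (T.h (M (nat_lit 9636943539543870537727)) (T.h (P (nat_lit 0)) (M (nat_lit 45498791329431551)))) (T.h (P (nat_lit 0)) (P (nat_lit 1921388020072448))))) (T.h (T.h (T.h (P (nat_lit 0)) (T.h (M (nat_lit 34605755205232361471)) (T.h (P (nat_lit 0)) (M (nat_lit 131871204228983))))) (T.h (P (nat_lit 0)) (T.h (T.h (P (nat_lit 0)) (M (nat_lit 60088718014791))) (P (nat_lit 0))))) (T.h (T.h (P (nat_lit 0)) (M (nat_lit 34878434534850559))) (T.h (T.h (T.h (P (nat_lit 0)) (P (nat_lit 8726481011648))) (P (nat_lit 0))) (P (nat_lit 0)))))))), (T.h (T.h (P (nat_lit 0)) (T.h (T.h (P (nat_lit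 0)) (T.h (P (nat_lit 3505100089068918241492992)) (T.h (P (nat_lit 0)) (T.h (P (nat_lit 83778115168194527232)) (T.h (P (nat_lit 0)) (M (nat_lit 335941989346463))))))) (T.h (P (nat_lit 0)) (T.h (T.h (P (nat_lit 0)) (T.h (M (nat_lit 3206093737427992575)) (T.h (P (nat_lit 0)) (P (nat_lit 19834863972112))))) (T.h (P (nat_lit 0)) (T.h (T.h (P (nat_lit 0)) (M (nat_lit 2171138809055))) (P (nat_lit 0)))))))) (T.h (T.h (T.h (P (nat_lit 2084092978544746558608375808)) (T.h (P (nat_lit 0)) (T.h (M (nat_lit 14112679512842935730175)) (T.h (P (nat_lit 0)) (M (nat_lit 145933282261073919)))))) (T.h (P (nat_lit 0)) (T.h (T.h (M (nat_lit 13105697841355797037055)) (T.h (P (nat_lit 0)) (M (nat_lit 45175380232437759)))) (T.h (P (nat_lit 0)) (M (nat_lit 21643633645551615)))))) (T.h (T.h (P (nat_lit 0)) (T.h (T.h (P (nat_lit 0)) (T.h (P (nat_lit 8688976552274165760)) (T.h (P (nat_lit 0)) (P (nat_lit 19291176429520))))) (T.h (P (nat_lit 0)) (T.h (T.h (P (nat_lit 0)) (P (nat_lit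 7731991111936))) (P (nat_lit 0)))))) (T.h (T.h (T.h (M (nat_lit 2445534956294129057791)) (T.h (P (nat_lit 0)) (P (nat_lit 3081846973022208)))) (T.h (P (nat_lit 0)) (M (nat_lit 10769564384280575)))) (T.h (T.h (P (nat_lit 0)) (T.h (T.h (P (nat_lit 0)) (M (nat_lit 6391443606815))) (P (nat_lit 0)))) (P (nat_lit 2747498126852096))))))), (T.h (T.h (P (nat_lit 0)) (T.h (T.h (P (nat_lit 7829836801137287811569811456)) (T.h (P (nat_lit 0)) (T.h (M (nat_lit 68905016941645014237183)) (T.h (P (nat_lit 0)) (P (nat_lit 635986056902115328)))))) (T.h (P (nat_lit 0)) (T.h (T.h (M (nat_lit 15005716945789723344895)) (T.h (P (nat_lit 0)) (P (nat_lit 11887588504567808)))) (T.h (P (nat_lit 0)) (P (nat_lit 10514767459319808))))))) (T.h (T.h (T.h (P (nat_lit 0)) (T.h (P (nat_lit 22636031326665170084691968)) (T.h (P (nat_lit 0)) (T.h (P (nat_lit 291205708661791916032)) (T.h (P (nat_lit 0)) (M (nat_lit 98814136291871))))))) (T.h (P (nat_lit 0)) (T.h (T.h (P (nat_lit 0)) (T.h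 (P (nat_lit 10994774995497910272)) (T.h (P (nat_lit 0)) (M (nat_lit 31467877982927))))) (T.h (P (nat_lit 0)) (T.h (T.h (P (nat_lit 0)) (M (nat_lit 5796365101967))) (P (nat_lit 0))))))) (T.h (T.h (P (nat_lit 0)) (T.h (T.h (M (nat_lit 2266056552591724118015)) (T.h (P (nat_lit 0)) (P (nat_lit 9198005605859328)))) (T.h (P (nat_lit 0)) (P (nat_lit 70866266141229056))))) (T.h (T.h (T.h (P (nat_lit 0)) (T.h (M (nat_lit 21302232484879007743)) (T.h (P (nat_lit 0)) (P (nat_lit 13347002066688))))) (T.h (P (nat_lit 0)) (T.h (T.h (P (nat_lit 0)) (M (nat_lit 18427241446751))) (P (nat_lit 0))))) (T.h (T.h (P (nat_lit 0)) (M (nat_lit 34806846483628031))) (T.h (T.h (T.h (P (nat_lit 0)) (P (nat_lit 2088080913312))) (P (nat_lit 0))) (P (nat_lit 0))))))))]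
def lP11_17 : List (T ℤ) := [(T.h (T.h (P (nat_lit 0)) (T.h (T.h (P (nat_lit 0)) (T.h (P (nat_lit 16770020288298499683909632)) (T.h (P (nat_lit 0)) (T.h (M (nat_lit 54436003502392082431)) (T.h (P (nat_lit 0)) (P (nat_lit 310329193881600))))))) (T.h (P (nat_lit 0)) (T.h (T.h (P (nat_lit 0)) (T.h (M (nat_lit 24581911049941286911)) (T.h (P (nat_lit 0)) (M (nat_lit 15746492039039))))) (T.h (P (nat_lit 0)) (T.h (T.h (P (nat_lit 0)) (M (nat_lit 3743196082991))) (P (nat_lit 0)))))))) (T.h (T.h (T.h (P (nat_lit 7613911020926650974465949696)) (T.h (P (nat_lit 0)) (T.h (M (nat_lit 37608647712375417339903)) (T.h (P (nat_lit 0)) (P (nat_lit 288386959946383360)))))) (T.h (P (nat_lit 0)) (T.h (T.h (P (nat_lit 856239061351264157696)) (T.h (P (nat_lit 0)) (M (nat_lit 11201544438792191)))) (T.h (P (nat_lit 0)) (M (nat_lit 18543270365085695)))))) (T.h (T.h (P (nat_lit 0)) (T.h (T.h (P (nat_lit 0)) (T.h (P (nat_lit 6148453346429632512)) (T.h (P (nat_lit 0)) (M (nat_lit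 157763501468927))))) (T.h (P (nat_lit 0)) (T.h (T.h (P (nat_lit 0)) (M (nat_lit 43491366017423))) (P (nat_lit 0)))))) (T.h (T.h (T.h (P (nat_lit 3737831950392995348480)) (T.h (P (nat_lit 0)) (M (nat_lit 15025593104400383)))) (T.h (P (nat_lit 0)) (P (nat_lit 18868985238323200)))) (T.h (T.h (P (nat_lit 0)) (T.h (T.h (P (nat_lit 0)) (P (nat_lit 17575024374576))) (P (nat_lit 0)))) (M (nat_lit 2662119321436159))))))), (T.h (T.h (P (nat_lit 0)) (T.h (T.h (M (nat_lit 1069719061105742419312246783)) (T.h (P (nat_lit 0)) (T.h (M (nat_lit 9039233065320873721855)) (T.h (P (nat_lit 0)) (M (nat_lit 360924354560393215)))))) (T.h (P (nat_lit 0)) (T.h (T.h (P (nat_lit 4810639926731932172288)) (T.h (P (nat_lit 0)) (M (nat_lit 9114228696940543)))) (T.h (P (nat_lit 0)) (P (nat_lit 189485684457472))))))) (T.h (T.h (T.h (P (nat_lit 0)) (T.h (M (nat_lit 1761177201905144919228415)) (T.h (P (nat_lit 0)) (M (nat_lit 159289274093619118079))))) (T.h (P (nat_lit 0)) (T.h (T.h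 (P (nat_lit 0)) (P (nat_lit 13635200529196908544))) (P (nat_lit 0))))) (T.h (T.h (P (nat_lit 0)) (T.h (T.h (P (nat_lit 167114983961662586880)) (T.h (P (nat_lit 0)) (P (nat_lit 69713786696892416)))) (T.h (P (nat_lit 0)) (P (nat_lit 3999072314753024))))) (T.h (T.h (T.h (P (nat_lit 0)) (M (nat_lit 1424453042811437055))) (P (nat_lit 0))) (T.h (T.h (P (nat_lit 0)) (M (nat_lit 6948109256065023))) (P (nat_lit 0))))))), (P (nat_lit 0)), (P (nat_lit 0)), (T.h (T.h (T.h (P (nat_lit 0)) (T.h (M (nat_lit 118319132035971919053324287)) (T.h (P (nat_lit 0)) (T.h (M (nat_lit 80520817602612053409791)) (T.h (P (nat_lit 0)) (P (nat_lit 85993269434843136))))))) (T.h (P (nat_lit 0)) (T.h (T.h (P (nat_lit 0)) (T.h (M (nat_lit 35259625543708186771455)) (T.h (P (nat_lit 0)) (M (nat_lit 70059084303761407))))) (T.h (P (nat_lit 0)) (T.h (T.h (P (nat_lit 0)) (P (nat_lit 73761685636710400))) (P (nat_lit 0))))))) (T.h (T.h (P (nat_lit 0)) (T.h (T.h (M (nat_lit 23862860373432479602704383))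 (T.h (P (nat_lit 0)) (T.h (M (nat_lit 822926921928670183423)) (T.h (P (nat_lit 0)) (M (nat_lit 103791922272959)))))) (T.h (P (nat_lit 0)) (T.h (T.h (M (nat_lit 19349078975740641279)) (T.h (P (nat_lit 0)) (M (nat_lit 11503739524359)))) (T.h (P (nat_lit 0)) (P (nat_lit 37257255595392))))))) (T.h (T.h (T.h (P (nat_lit 0)) (T.h (M (nat_lit 35259625543708186771455)) (T.h (P (nat_lit 0)) (M (nat_lit 70059084303761407))))) (T.h (P (nat_lit 0)) (T.h (T.h (P (nat_lit 0)) (P (nat_lit 233378147470082048))) (P (nat_lit 0))))) (T.h (T.h (P (nat_lit 0)) (T.h (T.h (M (nat_lit 19349078975740641279)) (T.h (P (nat_lit 0)) (M (nat_lit 11503739524359)))) (T.h (P (nat_lit 0)) (M (nat_lit 92774887246319))))) (T.h (T.h (T.h (P (nat_lit 0)) (P (nat_lit 73761685636710400))) (P (nat_lit 0))) (T.h (T.h (P (nat_lit 0)) (P (nat_lit 37257255595392))) (P (nat_lit 0)))))))), (T.h (T.h (T.h (P (nat_lit 20481534004357375909785646399488)) (T.h (P (nat_lit 0)) (T.h (P (nat_lit 24116372578869785672024064))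 (T.h (P (nat_lit 0)) (T.h (M (nat_lit 4466592332782764031)) (T.h (P (nat_lit 0)) (P (nat_lit 67190463160224)))))))) (T.h (P (nat_lit 0)) (T.h (T.h (M (nat_lit 3048943766179661630930943)) (T.h (P (nat_lit 0)) (T.h (P (nat_lit 13802829473982185472)) (T.h (P (nat_lit 0)) (P (nat_lit 32928861213792)))))) (T.h (P (nat_lit 0)) (T.h (T.h (P (nat_lit 23984382340052811776)) (T.h (P (nat_lit 0)) (M (nat_lit 39970268457311)))) (T.h (P (nat_lit 0)) (P (nat_lit 3880733577328)))))))) (T.h (T.h (P (nat_lit 0)) (T.h (T.h (P (nat_lit 0)) (T.h (P (nat_lit 19833274399330779791360)) (T.h (P (nat_lit 0)) (M (nat_lit 17099801487409151))))) (T.h (P (nat_lit 0)) (T.h (T.h (P (nat_lit 0)) (P (nat_lit 83733132125143040))) (P (nat_lit 0)))))) (T.h (T.h (T.h (M (nat_lit 3048943766179661630930943)) (T.h (P (nat_lit 0)) (T.h (P (nat_lit 13802829473982185472)) (T.h (P (nat_lit 0)) (P (nat_lit 32928861213792)))))) (T.h (P (nat_lit 0)) (T.h (T.h (P (nat_lit 14717600896670236672))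 (T.h (P (nat_lit 0)) (M (nat_lit 47015902198975)))) (T.h (P (nat_lit 0)) (P (nat_lit 1548276184992)))))) (T.h (T.h (P (nat_lit 0)) (T.h (T.h (P (nat_lit 0)) (P (nat_lit 83733132125143040))) (P (nat_lit 0)))) (T.h (T.h (T.h (P (nat_lit 23984382340052811776)) (T.h (P (nat_lit 0)) (M (nat_lit 39970268457311)))) (T.h (P (nat_lit 0)) (P (nat_lit 1548276184992)))) (T.h (P (nat_lit 0)) (P (nat_lit 3880733577328)))))))), (T.h (T.h (T.h (P (nat_lit 0)) (T.h (P (nat_lit 56743565472631009783335354368)) (T.h (P (nat_lit 0)) (T.h (M (nat_lit 129539621198821221990399)) (T.h (P (nat_lit 0)) (M (nat_lit 341120043884412927))))))) (T.h (P (nat_lit 0)) (T.h (T.h (P (nat_lit 0)) (T.h (P (nat_lit 115868021089704330919936)) (T.h (P (nat_lit 0)) (P (nat_lit 488371184997203968))))) (T.h (P (nat_lit 0)) (T.h (T.h (P (nat_lit 0)) (M (nat_lit 129587662202634239))) (P (nat_lit 0))))))) (T.h (T.h (P (nat_lit 0)) (T.h (T.h (M (nat_lit 70845116576064371022626815)) (T.h (P (nat_lit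 0)) (T.h (M (nat_lit 17367518926971338751)) (T.h (P (nat_lit 0)) (M (nat_lit 309630060177983)))))) (T.h (P (nat_lit 0)) (T.h (T.h (M (nat_lit 65966593691896250367)) (T.h (P (nat_lit 0)) (M (nat_lit 42936643886783)))) (T.h (P (nat_lit 0)) (P (nat_lit 15888264751584))))))) (T.h (T.h (T.h (P (nat_lit 0)) (T.h (P (nat_lit 115868021089704330919936)) (T.h (P (nat_lit 0)) (P (nat_lit 488371184997203968))))) (T.h (P (nat_lit 0)) (T.h (T.h (P (nat_lit 0)) (P (nat_lit 412580608807010304))) (P (nat_lit 0))))) (T.h (T.h (P (nat_lit 0)) (T.h (T.h (M (nat_lit 65966593691896250367)) (T.h (P (nat_lit 0)) (M (nat_lit 42936643886783)))) (T.h (P (nat_lit 0)) (M (nat_lit 6364230574943))))) (T.h (T.h (T.h (P (nat_lit 0)) (M (nat_lit 129587662202634239))) (P (nat_lit 0))) (T.h (T.h (P (nat_lit 0)) (P (nat_lit 15888264751584))) (P (nat_lit 0)))))))), (T.h (T.h (T.h (M (nat_lit 14694569461963521477234414059519)) (T.h (P (nat_lit 0)) (T.h (M (nat_lit 49972326631157554850299903))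 (T.h (P (nat_lit 0)) (T.h (P (nat_lit 29785438735959064576)) (T.h (P (nat_lit 0)) (M (nat_lit 3801804914015)))))))) (T.h (P (nat_lit 0)) (T.h (T.h (P (nat_lit 53712898748550030108393472)) (T.h (P (nat_lit 0)) (T.h (P (nat_lit 289355859727577251840)) (T.h (P (nat_lit 0)) (M (nat_lit 18361138743791)))))) (T.h (P (nat_lit 0)) (T.h (T.h (M (nat_lit 28543911706801209343)) (T.h (P (nat_lit 0)) (M (nat_lit 69880828974911)))) (T.h (P (nat_lit 0)) (M (nat_lit 10120337330687)))))))) (T.h (T.h (P (nat_lit 0)) (T.h (T.h (P (nat_lit 0)) (T.h (P (nat_lit 140516393460978407178240)) (T.h (P (nat_lit 0)) (P (nat_lit 525993794476376064))))) (T.h (P (nat_lit 0)) (T.h (T.h (P (nat_lit 0)) (P (nat_lit 60454771010043904))) (P (nat_lit 0)))))) (T.h (T.h (T.h (P (nat_lit 53712898748550030108393472)) (T.h (P (nat_lit 0)) (T.h (P (nat_lit 289355859727577251840)) (T.h (P (nat_lit 0)) (M (nat_lit 18361138743791)))))) (T.h (P (nat_lit 0)) (T.h (T.h (M (nat_lit 4704007251793281023))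 (T.h (P (nat_lit 0)) (M (nat_lit 308568362195807)))) (T.h (P (nat_lit 0)) (M (nat_lit 37010507828975)))))) (T.h (T.h (P (nat_lit 0)) (T.h (T.h (P (nat_lit 0)) (P (nat_lit 60454771010043904))) (P (nat_lit 0)))) (T.h (T.h (T.h (M (nat_lit 28543911706801209343)) (T.h (P (nat_lit 0)) (M (nat_lit 69880828974911)))) (T.h (P (nat_lit 0)) (M (nat_lit 37010507828975)))) (T.h (P (nat_lit 0)) (M (nat_lit 10120337330687))))))))]
def lP11_18 : List (T ℤ) := [(T.h (T.h (T.h (P (nat_lit 0)) (T.h (P (nat_lit 11877680479534524914659753984)) (T.h (P (nat_lit 0)) (T.h (M (nat_lit 30521945154696098349055)) (T.h (P (nat_lit 0)) (M (nat_lit 136043533261733887))))))) (T.h (P (nat_lit 0)) (T.h (T.h (P (nat_lit 0)) (T.h (M (nat_lit 115953767249465325912063)) (T.h (P (nat_lit 0)) (P (nat_lit 63362282965041152))))) (T.h (P (nat_lit 0)) (T.h (T.h (P (nat_lit 0)) (P (nat_lit 32063172605771776))) (P (nat_lit 0))))))) (T.h (T.h (P (nat_lit 0)) (T.h (T.h (M (nat_lit 16243664358419184599695359))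 (T.h (P (nat_lit 0)) (M (nat_lit 18817379027063406591)))) (T.h (P (nat_lit 0)) (P (nat_lit 11770992772591386624))))) (T.h (T.h (T.h (P (nat_lit 0)) (T.h (M (nat_lit 115953767249465325912063)) (T.h (P (nat_lit 0)) (P (nat_lit 63362282965041152))))) (T.h (P (nat_lit 0)) (T.h (T.h (P (nat_lit 0)) (P (nat_lit 199813101908459520))) (P (nat_lit 0))))) (T.h (T.h (P (nat_lit 0)) (P (nat_lit 11770992772591386624))) (T.h (T.h (T.h (P (nat_lit 0)) (P (nat_lit 32063172605771776))) (P (nat_lit 0))) (P (nat_lit 0))))))), (P (nat_lit 0)), (P (nat_lit 0)), (T.h (T.h (P (nat_lit 0)) (T.h (T.h (P (nat_lit 14278752545302595397457281024)) (T.h (P (nat_lit 0)) (T.h (M (nat_lit 44275768650990752890879)) (T.h (P (nat_lit 0)) (P (nat_lit 16761049637093376)))))) (T.h (P (nat_lit 0)) (T.h (T.h (M (nat_lit 20998483959028232749055)) (T.h (P (nat_lit 0)) (P (nat_lit 172420659023511552)))) (T.h (P (nat_lit 0)) (M (nat_lit 3056444827533311))))))) (T.h (T.h (T.h (P (nat_lit 0))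 (T.h (M (nat_lit 33260516545734121384574975)) (T.h (P (nat_lit 0)) (T.h (P (nat_lit 36900960490852712448)) (T.h (P (nat_lit 0)) (P (nat_lit 162856745037048))))))) (T.h (P (nat_lit 0)) (T.h (T.h (P (nat_lit 0)) (T.h (M (nat_lit 599009681001056043007)) (T.h (P (nat_lit 0)) (P (nat_lit 456731647457936))))) (T.h (P (nat_lit 0)) (T.h (T.h (P (nat_lit 0)) (M (nat_lit 201121921056575))) (P (nat_lit 0))))))) (T.h (T.h (P (nat_lit 0)) (T.h (T.h (M (nat_lit 26587894600553000337407)) (T.h (P (nat_lit 0)) (P (nat_lit 365983832700256256)))) (T.h (P (nat_lit 0)) (M (nat_lit 99343303046987775))))) (T.h (T.h (T.h (P (nat_lit 0)) (T.h (M (nat_lit 62543238470354075647)) (T.h (P (nat_lit 0)) (M (nat_lit 17783705421671))))) (T.h (P (nat_lit 0)) (T.h (T.h (P (nat_lit 0)) (M (nat_lit 347842490566887))) (P (nat_lit 0))))) (T.h (T.h (P (nat_lit 0)) (P (nat_lit 64078250146168832))) (T.h (T.h (T.h (P (nat_lit 0)) (P (nat_lit 721848616872))) (P (nat_lit 0))) (P (nat_lit 0)))))))),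 (T.h (T.h (P (nat_lit 0)) (T.h (T.h (P (nat_lit 0)) (T.h (M (nat_lit 18104529234598034365480959)) (T.h (P (nat_lit 0)) (T.h (M (nat_lit 483536738113462206463)) (T.h (P (nat_lit 0)) (P (nat_lit 4501068401936))))))) (T.h (P (nat_lit 0)) (T.h (T.h (P (nat_lit 0)) (T.h (M (nat_lit 342750232213628911615)) (T.h (P (nat_lit 0)) (M (nat_lit 407645324492543))))) (T.h (P (nat_lit 0)) (T.h (T.h (P (nat_lit 0)) (P (nat_lit 11828458486864))) (P (nat_lit 0)))))))) (T.h (T.h (T.h (P (nat_lit 22422369025759376930156576768)) (T.h (P (nat_lit 0)) (T.h (P (nat_lit 76776786994339017392128)) (T.h (P (nat_lit 0)) (P (nat_lit 166631489530445824)))))) (T.h (P (nat_lit 0)) (T.h (T.h (M (nat_lit 3633777247198442946559)) (T.h (P (nat_lit 0)) (M (nat_lit 955165724419751935)))) (T.h (P (nat_lit 0)) (P (nat_lit 230717039266758656)))))) (T.h (T.h (P (nat_lit 0)) (T.h (T.h (P (nat_lit 0)) (T.h (M (nat_lit 65875113286962249727)) (T.h (P (nat_lit 0)) (P (nat_lit 302448598904144)))))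 (T.h (P (nat_lit 0)) (T.h (T.h (P (nat_lit 0)) (P (nat_lit 138298531161408))) (P (nat_lit 0)))))) (T.h (T.h (T.h (M (nat_lit 6087368376591455354879)) (T.h (P (nat_lit 0)) (P (nat_lit 425623869941825536)))) (T.h (P (nat_lit 0)) (P (nat_lit 121172382671339520)))) (T.h (T.h (P (nat_lit 0)) (T.h (T.h (P (nat_lit 0)) (P (nat_lit 245254089850128))) (P (nat_lit 0)))) (M (nat_lit 24736586224271359))))))), (T.h (T.h (P (nat_lit 0)) (T.h (T.h (M (nat_lit 17615004041375262466134507519)) (T.h (P (nat_lit 0)) (T.h (P (nat_lit 238071711623405765656576)) (T.h (P (nat_lit 0)) (M (nat_lit 174905089141735423)))))) (T.h (P (nat_lit 0)) (T.h (T.h (M (nat_lit 129295660143229062348799)) (T.h (P (nat_lit 0)) (M (nat_lit 1346142216951136255)))) (T.h (P (nat_lit 0)) (P (nat_lit 7889633875230720))))))) (T.h (T.h (T.h (P (nat_lit 0)) (T.h (M (nat_lit 85696567655514798834057215)) (T.h (P (nat_lit 0)) (T.h (P (nat_lit 257694155673815744512)) (T.h (P (nat_lit 0)) (M (nat_lit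 65793922930175))))))) (T.h (P (nat_lit 0)) (T.h (T.h (P (nat_lit 0)) (T.h (M (nat_lit 29837369592751587327)) (T.h (P (nat_lit 0)) (M (nat_lit 412419362082719))))) (T.h (P (nat_lit 0)) (T.h (T.h (P (nat_lit 0)) (M (nat_lit 130514897064239))) (P (nat_lit 0))))))) (T.h (T.h (P (nat_lit 0)) (T.h (T.h (P (nat_lit 100033827551878204882944)) (T.h (P (nat_lit 0)) (M (nat_lit 474806415359246335)))) (T.h (P (nat_lit 0)) (M (nat_lit 4358388351205375))))) (T.h (T.h (T.h (P (nat_lit 0)) (T.h (M (nat_lit 470033679047496564735)) (T.h (P (nat_lit 0)) (P (nat_lit 209440073796384))))) (T.h (P (nat_lit 0)) (T.h (T.h (P (nat_lit 0)) (P (nat_lit 121045113501696))) (P (nat_lit 0))))) (T.h (T.h (P (nat_lit 0)) (M (nat_lit 48504213693825023))) (T.h (T.h (T.h (P (nat_lit 0)) (P (nat_lit 31916731158624))) (P (nat_lit 0))) (P (nat_lit 0)))))))), (T.h (T.h (P (nat_lit 0)) (T.h (T.h (P (nat_lit 0)) (T.h (M (nat_lit 67893118468651189618606079)) (T.h (P (nat_lit 0)) (T.h (P (nat_lit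 161391976297722281984)) (T.h (P (nat_lit 0)) (P (nat_lit 506468864353392))))))) (T.h (P (nat_lit 0)) (T.h (T.h (P (nat_lit 0)) (T.h (P (nat_lit 246069661220623876096)) (T.h (P (nat_lit 0)) (P (nat_lit 316610714032560))))) (T.h (P (nat_lit 0)) (T.h (T.h (P (nat_lit 0)) (M (nat_lit 147393761480063))) (P (nat_lit 0)))))))) (T.h (T.h (T.h (M (nat_lit 13573676804449271778119778303)) (T.h (P (nat_lit 0)) (T.h (M (nat_lit 123685703018075998126079)) (T.h (P (nat_lit 0)) (P (nat_lit 618504330957160448)))))) (T.h (P (nat_lit 0)) (T.h (T.h (M (nat_lit 39822502409192226160639)) (T.h (P (nat_lit 0)) (P (nat_lit 589187949178290176)))) (T.h (P (nat_lit 0)) (P (nat_lit 49924096142262272)))))) (T.h (T.h (P (nat_lit 0)) (T.h (T.h (P (nat_lit 0)) (T.h (M (nat_lit 133714427716321673215)) (T.h (P (nat_lit 0)) (P (nat_lit 369032250294000))))) (T.h (P (nat_lit 0)) (T.h (T.h (P (nat_lit 0)) (P (nat_lit 292855403765520))) (P (nat_lit 0)))))) (T.h (T.h (T.h (P (nat_lit 1942311387912894152704))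 (T.h (P (nat_lit 0)) (M (nat_lit 918815193072631807)))) (T.h (P (nat_lit 0)) (M (nat_lit 3137736619360255)))) (T.h (T.h (P (nat_lit 0)) (T.h (T.h (P (nat_lit 0)) (M (nat_lit 448419969149615))) (P (nat_lit 0)))) (M (nat_lit 1903429775097855))))))), (T.h (T.h (P (nat_lit 0)) (T.h (T.h (M (nat_lit 21813259648597683975539916799)) (T.h (P (nat_lit 0)) (T.h (M (nat_lit 118029435057447043596287)) (T.h (P (nat_lit 0)) (M (nat_lit 648658099823935487)))))) (T.h (P (nat_lit 0)) (T.h (T.h (P (nat_lit 28873630804895426674688)) (T.h (P (nat_lit 0)) (M (nat_lit 168907709395697663)))) (T.h (P (nat_lit 0)) (P (nat_lit 41531692143280128))))))) (T.h (T.h (T.h (P (nat_lit 0)) (T.h (P (nat_lit 3735946704402383644917760)) (T.h (P (nat_lit 0)) (M (nat_lit 494310156384400834559))))) (T.h (P (nat_lit 0)) (T.h (T.h (P (nat_lit 0)) (M (nat_lit 105052476701367336959))) (P (nat_lit 0))))) (T.h (T.h (P (nat_lit 0)) (T.h (T.h (M (nat_lit 15869735566753822408703)) (T.h (P (nat_lit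 0)) (M (nat_lit 160618762197270527)))) (T.h (P (nat_lit 0)) (P (nat_lit 25629441326022656))))) (T.h (T.h (T.h (P (nat_lit 0)) (P (nat_lit 383475007715993976832))) (P (nat_lit 0))) (T.h (T.h (P (nat_lit 0)) (P (nat_lit 89753293353353216))) (P (nat_lit 0)))))))]
def lP11_19 : List (T ℤ) := [(P (nat_lit 0)), (T.h (T.h (T.h (P (nat_lit 0)) (T.h (P (nat_lit 10325839095429112767283462144)) (T.h (P (nat_lit 0)) (T.h (M (nat_lit 23347121895935433506815)) (T.h (P (nat_lit 0)) (P (nat_lit 34008853981396992))))))) (T.h (P (nat_lit 0)) (T.h (T.h (P (nat_lit 0)) (T.h (M (nat_lit 102040400974397862576127)) (T.h (P (nat_lit 0)) (P (nat_lit 498344816856530944))))) (T.h (P (nat_lit 0)) (T.h (T.h (P (nat_lit 0)) (P (nat_lit 233256223869730816))) (P (nat_lit 0))))))) (T.h (T.h (P (nat_lit 0)) (T.h (T.h (P (nat_lit 36723158071114076937781248)) (T.h (P (nat_lit 0)) (T.h (M (nat_lit 17507187907994058751)) (T.h (P (nat_lit 0)) (P (nat_lit 149225130836888)))))) (T.h (P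 (nat_lit 0)) (T.h (T.h (M (nat_lit 11707574109595500543)) (T.h (P (nat_lit 0)) (P (nat_lit 308999432393296)))) (T.h (P (nat_lit 0)) (P (nat_lit 161505360049968))))))) (T.h (T.h (T.h (P (nat_lit 0)) (T.h (P (nat_lit 28838031634348434784256)) (T.h (P (nat_lit 0)) (M (nat_lit 162548584158986239))))) (T.h (P (nat_lit 0)) (T.h (T.h (P (nat_lit 0)) (M (nat_lit 136752169682960383))) (P (nat_lit 0))))) (T.h (T.h (P (nat_lit 0)) (T.h (T.h (M (nat_lit 40371769524537524223)) (T.h (P (nat_lit 0)) (M (nat_lit 499156966033311)))) (T.h (P (nat_lit 0)) (P (nat_lit 37623641876824))))) (T.h (T.h (T.h (P (nat_lit 0)) (M (nat_lit 54354603769987071))) (P (nat_lit 0))) (T.h (T.h (P (nat_lit 0)) (M (nat_lit 6640001231327))) (P (nat_lit 0)))))))), (T.h (T.h (T.h (P (nat_lit 22032026419389384402761655779328)) (T.h (P (nat_lit 0)) (T.h (M (nat_lit 17644813415182091818106879)) (T.h (P (nat_lit 0)) (T.h (P (nat_lit 37567520307754827776)) (T.h (P (nat_lit 0)) (M (nat_lit 8951155852031))))))))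 (T.h (P (nat_lit 0)) (T.h (T.h (M (nat_lit 663153566823727851634687)) (T.h (P (nat_lit 0)) (T.h (P (nat_lit 65035715147429052416)) (T.h (P (nat_lit 0)) (M (nat_lit 133718572415999)))))) (T.h (P (nat_lit 0)) (T.h (T.h (P (nat_lit 10808579313234870272)) (T.h (P (nat_lit 0)) (M (nat_lit 117008043874271)))) (T.h (P (nat_lit 0)) (P (nat_lit 19537263737616)))))))) (T.h (T.h (P (nat_lit 0)) (T.h (T.h (P (nat_lit 0)) (T.h (P (nat_lit 1494811216436782956544)) (T.h (P (nat_lit 0)) (P (nat_lit 67105017029525504))))) (T.h (P (nat_lit 0)) (T.h (T.h (P (nat_lit 0)) (M (nat_lit 34408057877266431))) (P (nat_lit 0)))))) (T.h (T.h (T.h (M (nat_lit 10846810063514811188117503)) (T.h (P (nat_lit 0)) (T.h (P (nat_lit 7383682253127155712)) (T.h (P (nat_lit 0)) (M (nat_lit 100217063513375)))))) (T.h (P (nat_lit 0)) (T.h (T.h (M (nat_lit 51183122063862792191)) (T.h (P (nat_lit 0)) (M (nat_lit 23507951099487)))) (T.h (P (nat_lit 0)) (M (nat_lit 45831866865407)))))) (T.h (T.h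 (P (nat_lit 0)) (T.h (T.h (P (nat_lit 0)) (M (nat_lit 35088199171506175))) (P (nat_lit 0)))) (T.h (T.h (T.h (P (nat_lit 12500612991550488576)) (T.h (P (nat_lit 0)) (M (nat_lit 94003432255103)))) (T.h (P (nat_lit 0)) (M (nat_lit 102020467994783)))) (T.h (P (nat_lit 0)) (M (nat_lit 15284046255631)))))))), (T.h (T.h (T.h (P (nat_lit 0)) (T.h (M (nat_lit 55975877746925841019628945407)) (T.h (P (nat_lit 0)) (T.h (P (nat_lit 87364782547505235623936)) (T.h (P (nat_lit 0)) (P (nat_lit 105743219492356096))))))) (T.h (P (nat_lit 0)) (T.h (T.h (P (nat_lit 0)) (T.h (M (nat_lit 545918331871671131045887)) (T.h (P (nat_lit 0)) (M (nat_lit 1007081889253851135))))) (T.h (P (nat_lit 0)) (T.h (T.h (P (nat_lit 0)) (P (nat_lit 657400352911032320))) (P (nat_lit 0))))))) (T.h (T.h (P (nat_lit 0)) (T.h (T.h (M (nat_lit 18011779666298668056575999)) (T.h (P (nat_lit 0)) (T.h (P (nat_lit 892114938688845119488)) (T.h (P (nat_lit 0)) (P (nat_lit 290585851305696)))))) (T.h (P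 (nat_lit 0)) (T.h (T.h (P (nat_lit 242110219074574221312)) (T.h (P (nat_lit 0)) (M (nat_lit 134419607513615)))) (T.h (P (nat_lit 0)) (M (nat_lit 77197425297551))))))) (T.h (T.h (T.h (P (nat_lit 0)) (T.h (P (nat_lit 213233816650005486764032)) (T.h (P (nat_lit 0)) (M (nat_lit 599423486802100223))))) (T.h (P (nat_lit 0)) (T.h (T.h (P (nat_lit 0)) (M (nat_lit 715153917534207999))) (P (nat_lit 0))))) (T.h (T.h (P (nat_lit 0)) (T.h (T.h (P (nat_lit 470499440144615997440)) (T.h (P (nat_lit 0)) (M (nat_lit 78842267400671)))) (T.h (P (nat_lit 0)) (P (nat_lit 50742460536192))))) (T.h (T.h (T.h (P (nat_lit 0)) (P (nat_lit 203169303379476480))) (P (nat_lit 0))) (T.h (T.h (P (nat_lit 0)) (M (nat_lit 99964171714655))) (P (nat_lit 0)))))))), (T.h (T.h (T.h (P (nat_lit 29397274956914117545857438973952)) (T.h (P (nat_lit 0)) (T.h (M (nat_lit 133255772454998449303060479)) (T.h (P (nat_lit 0)) (T.h (P (nat_lit 229204133552031006720)) (T.h (P (nat_lit 0)) (P (nat_lit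 211268465072064)))))))) (T.h (P (nat_lit 0)) (T.h (T.h (M (nat_lit 17999128066405266125488127)) (T.h (P (nat_lit 0)) (T.h (M (nat_lit 566570040392941567999)) (T.h (P (nat_lit 0)) (M (nat_lit 131633562907295)))))) (T.h (P (nat_lit 0)) (T.h (T.h (M (nat_lit 190714827476958183423)) (T.h (P (nat_lit 0)) (P (nat_lit 56565545091696)))) (T.h (P (nat_lit 0)) (M (nat_lit 79539795851759)))))))) (T.h (T.h (P (nat_lit 0)) (T.h (T.h (P (nat_lit 0)) (T.h (M (nat_lit 881664639651964837167103)) (T.h (P (nat_lit 0)) (M (nat_lit 414499192345853951))))) (T.h (P (nat_lit 0)) (T.h (T.h (P (nat_lit 0)) (P (nat_lit 213983858607128576))) (P (nat_lit 0)))))) (T.h (T.h (T.h (M (nat_lit 14021601366091200968261631)) (T.h (P (nat_lit 0)) (T.h (M (nat_lit 327637555096494014463)) (T.h (P (nat_lit 0)) (M (nat_lit 98314359801839)))))) (T.h (P (nat_lit 0)) (T.h (T.h (P (nat_lit 416910367914010345472)) (T.h (P (nat_lit 0)) (P (nat_lit 470452994409888)))) (T.h (P (nat_lit 0)) (P (nat_lit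 125717193105984)))))) (T.h (T.h (P (nat_lit 0)) (T.h (T.h (P (nat_lit 0)) (P (nat_lit 649524670168760320))) (P (nat_lit 0)))) (T.h (T.h (T.h (P (nat_lit 23386002690976776192)) (T.h (P (nat_lit 0)) (P (nat_lit 99925240509792)))) (T.h (P (nat_lit 0)) (P (nat_lit 135757685418624)))) (T.h (P (nat_lit 0)) (P (nat_lit 41881434673104)))))))), (T.h (T.h (T.h (P (nat_lit 0)) (T.h (P (nat_lit 43261590126196782947893248)) (T.h (P (nat_lit 0)) (T.h (M (nat_lit 18370324571908701421567)) (T.h (P (nat_lit 0)) (M (nat_lit 423810517937029119))))))) (T.h (P (nat_lit 0)) (T.h (T.h (P (nat_lit 0)) (T.h (P (nat_lit 459569672372160003309568)) (T.h (P (nat_lit 0)) (M (nat_lit 205708856286707711))))) (T.h (P (nat_lit 0)) (T.h (T.h (P (nat_lit 0)) (P (nat_lit 190404856377147392))) (P (nat_lit 0))))))) (T.h (T.h (P (nat_lit 0)) (T.h (T.h (P (nat_lit 72057086932609894082150400)) (T.h (P (nat_lit 0)) (P (nat_lit 245384825810064506880)))) (T.h (P (nat_lit 0)) (P (nat_lit 11487042308398907392)))))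 (T.h (T.h (T.h (P (nat_lit 0)) (T.h (P (nat_lit 253975602216504926404608)) (T.h (P (nat_lit 0)) (P (nat_lit 33030100658978816))))) (T.h (P (nat_lit 0)) (T.h (T.h (P (nat_lit 0)) (M (nat_lit 506464520519221247))) (P (nat_lit 0))))) (T.h (T.h (P (nat_lit 0)) (M (nat_lit 89748166004818575359))) (T.h (T.h (T.h (P (nat_lit 0)) (P (nat_lit 49633666763259904))) (P (nat_lit 0))) (P (nat_lit 0))))))), (T.h (T.h (P (nat_lit 0)) (T.h (T.h (P (nat_lit 3098604776172329639948058624)) (T.h (P (nat_lit 0)) (T.h (M (nat_lit 20386365812639080120319)) (T.h (P (nat_lit 0)) (P (nat_lit 43855150067777536)))))) (T.h (P (nat_lit 0)) (T.h (T.h (M (nat_lit 38481021830886875725823)) (T.h (P (nat_lit 0)) (P (nat_lit 77841860088954880)))) (T.h (P (nat_lit 0)) (P (nat_lit 37063228215164928))))))) (T.h (T.h (T.h (P (nat_lit 0)) (T.h (P (nat_lit 8531529062098120212480)) (T.h (P (nat_lit 0)) (T.h (M (nat_lit 16192905334090629119)) (T.h (P (nat_lit 0)) (M (nat_lit 4999931188511)))))))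 (T.h (P (nat_lit 0)) (T.h (T.h (P (nat_lit 0)) (T.h (P (nat_lit 4385020619398316032)) (T.h (P (nat_lit 0)) (P (nat_lit 26647936252512))))) (T.h (P (nat_lit 0)) (T.h (T.h (P (nat_lit 0)) (P (nat_lit 427880890365408))) (P (nat_lit 0))))))) (T.h (T.h (P (nat_lit 0)) (T.h (T.h (P (nat_lit 11963179285475925950464)) (T.h (P (nat_lit 0)) (M (nat_lit 37995606355640319)))) (T.h (P (nat_lit 0)) (M (nat_lit 97067009098317823))))) (T.h (T.h (T.h (P (nat_lit 0)) (T.h (P (nat_lit 220896974080049152)) (T.h (P (nat_lit 0)) (M (nat_lit 7665255229367))))) (T.h (P (nat_lit 0)) (T.h (T.h (P (nat_lit 0)) (P (nat_lit 96406081654456))) (P (nat_lit 0))))) (T.h (T.h (P (nat_lit 0)) (M (nat_lit 29449097314795519))) (T.h (T.h (T.h (P (nat_lit 0)) (M (nat_lit 3552485475551))) (P (nat_lit 0))) (P (nat_lit 0)))))))), (T.h (T.h (P (nat_lit 0)) (T.h (T.h (P (nat_lit 0)) (T.h (P (nat_lit 7085440782410300971286528)) (T.h (P (nat_lit 0)) (T.h (M (nat_lit 139189919279736684543)) (T.h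 (P (nat_lit 0)) (M (nat_lit 6856562256479))))))) (T.h (P (nat_lit 0)) (T.h (T.h (P (nat_lit 0)) (T.h (M (nat_lit 192992216273947459583)) (T.h (P (nat_lit 0)) (P (nat_lit 11968217176688))))) (T.h (P (nat_lit 0)) (T.h (T.h (P (nat_lit 0)) (M (nat_lit 347954802878815))) (P (nat_lit 0)))))))) (T.h (T.h (T.h (P (nat_lit 13486045689689381124416995328)) (T.h (P (nat_lit 0)) (T.h (M (nat_lit 3894668710928202072063)) (T.h (P (nat_lit 0)) (P (nat_lit 135401649344462848)))))) (T.h (P (nat_lit 0)) (T.h (T.h (P (nat_lit 75508913859122119573504)) (T.h (P (nat_lit 0)) (M (nat_lit 993749329930911743)))) (T.h (P (nat_lit 0)) (M (nat_lit 52973549007372287)))))) (T.h (T.h (P (nat_lit 0)) (T.h (T.h (P (nat_lit 0)) (T.h (M (nat_lit 44222692011483856895)) (T.h (P (nat_lit 0)) (P (nat_lit 98000281546864))))) (T.h (P (nat_lit 0)) (T.h (T.h (P (nat_lit 0)) (P (nat_lit 273709534607184))) (P (nat_lit 0)))))) (T.h (T.h (T.h (M (nat_lit 2795115728045980254207)) (T.h (P (nat_lit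 0)) (P (nat_lit 71914844739059712)))) (T.h (P (nat_lit 0)) (P (nat_lit 390217743366848512)))) (T.h (T.h (P (nat_lit 0)) (T.h (T.h (P (nat_lit 0)) (P (nat_lit 47631884367696))) (P (nat_lit 0)))) (M (nat_lit 22427009605419007)))))))]
def lP11_20 : List (T ℤ) := [(T.h (T.h (P (nat_lit 0)) (T.h (T.h (M (nat_lit 32904838678025222514974654463)) (T.h (P (nat_lit 0)) (T.h (M (nat_lit 569524322453197634404351)) (T.h (P (nat_lit 0)) (M (nat_lit 164508673474199551)))))) (T.h (P (nat_lit 0)) (T.h (T.h (P (nat_lit 230623321736917653913600)) (T.h (P (nat_lit 0)) (M (nat_lit 841040843064377343)))) (T.h (P (nat_lit 0)) (P (nat_lit 605889743037169664))))))) (T.h (T.h (T.h (P (nat_lit 0)) (T.h (P (nat_lit 30679117521454634350149632)) (T.h (P (nat_lit 0)) (T.h (M (nat_lit 123536000743622311935)) (T.h (P (nat_lit 0)) (M (nat_lit 82313255619695))))))) (T.h (P (nat_lit 0)) (T.h (T.h (P (nat_lit 0)) (T.h (P (nat_lit 909480425701685329920)) (T.h (P (nat_lit 0)) (M (nat_lit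 98435914191599))))) (T.h (P (nat_lit 0)) (T.h (T.h (P (nat_lit 0)) (P (nat_lit 98202852104064))) (P (nat_lit 0))))))) (T.h (T.h (P (nat_lit 0)) (T.h (T.h (P (nat_lit 51579858231777065697280)) (T.h (P (nat_lit 0)) (M (nat_lit 383777710999011327)))) (T.h (P (nat_lit 0)) (P (nat_lit 242030354644992000))))) (T.h (T.h (T.h (P (nat_lit 0)) (T.h (P (nat_lit 367868479617498087424)) (T.h (P (nat_lit 0)) (P (nat_lit 60989033757360))))) (T.h (P (nat_lit 0)) (T.h (T.h (P (nat_lit 0)) (M (nat_lit 41886147061871))) (P (nat_lit 0))))) (T.h (T.h (P (nat_lit 0)) (P (nat_lit 93780380375121920))) (T.h (T.h (T.h (P (nat_lit 0)) (M (nat_lit 102634328878031))) (P (nat_lit 0))) (P (nat_lit 0)))))))), (T.h (T.h (P (nat_lit 0)) (T.h (T.h (P (nat_lit 0)) (T.h (M (nat_lit 136075761118814041045729279)) (T.h (P (nat_lit 0)) (T.h (P (nat_lit 14588165752864374784)) (T.h (P (nat_lit 0)) (P (nat_lit 184186808190864))))))) (T.h (P (nat_lit 0)) (T.h (T.h (P (nat_lit 0)) (T.h (P (nat_lit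 392321056459123064832)) (T.h (P (nat_lit 0)) (P (nat_lit 257353026753168))))) (T.h (P (nat_lit 0)) (T.h (T.h (P (nat_lit 0)) (P (nat_lit 755771081354496))) (P (nat_lit 0)))))))) (T.h (T.h (T.h (M (nat_lit 11643964207393972780093407231)) (T.h (P (nat_lit 0)) (T.h (M (nat_lit 184712720798997071003647)) (T.h (P (nat_lit 0)) (M (nat_lit 42480007429734399)))))) (T.h (P (nat_lit 0)) (T.h (T.h (M (nat_lit 153061734562480164700159)) (T.h (P (nat_lit 0)) (P (nat_lit 101493264872374272)))) (T.h (P (nat_lit 0)) (P (nat_lit 240888816312598528)))))) (T.h (T.h (P (nat_lit 0)) (T.h (T.h (P (nat_lit 0)) (T.h (P (nat_lit 617493427888091824128)) (T.h (P (nat_lit 0)) (M (nat_lit 693522614239631))))) (T.h (P (nat_lit 0)) (T.h (T.h (P (nat_lit 0)) (M (nat_lit 962641220489135))) (P (nat_lit 0)))))) (T.h (T.h (T.h (M (nat_lit 29396462670571011833855)) (T.h (P (nat_lit 0)) (P (nat_lit 180087968380207104)))) (T.h (P (nat_lit 0)) (P (nat_lit 153120127768805376)))) (T.h (T.h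 (P (nat_lit 0)) (T.h (T.h (P (nat_lit 0)) (M (nat_lit 674888095672991))) (P (nat_lit 0)))) (M (nat_lit 20449760499122175))))))), (T.h (T.h (P (nat_lit 0)) (T.h (T.h (P (nat_lit 13301083954609772505539280896)) (T.h (P (nat_lit 0)) (T.h (P (nat_lit 589225269835927444783104)) (T.h (P (nat_lit 0)) (M (nat_lit 37379241387458559)))))) (T.h (P (nat_lit 0)) (T.h (T.h (P (nat_lit 141720753586842533625856)) (T.h (P (nat_lit 0)) (M (nat_lit 184549199889006591)))) (T.h (P (nat_lit 0)) (M (nat_lit 65329990424068095))))))) (T.h (T.h (T.h (P (nat_lit 0)) (T.h (M (nat_lit 63810644508943599638937599)) (T.h (P (nat_lit 0)) (P (nat_lit 77566262738585387008))))) (T.h (P (nat_lit 0)) (T.h (T.h (P (nat_lit 0)) (P (nat_lit 157109970769566236672))) (P (nat_lit 0))))) (T.h (T.h (P (nat_lit 0)) (T.h (T.h (M (nat_lit 336160875623036496117759)) (T.h (P (nat_lit 0)) (P (nat_lit 331598655029673984)))) (T.h (P (nat_lit 0)) (P (nat_lit 50015102462754816))))) (T.h (T.h (T.h (P (nat_lit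 0)) (M (nat_lit 247544084512351715327))) (P (nat_lit 0))) (T.h (T.h (P (nat_lit 0)) (P (nat_lit 159861587838763008))) (P (nat_lit 0))))))), (T.h (T.h (T.h (P (nat_lit 17186048480389962970581123989504)) (T.h (P (nat_lit 0)) (T.h (P (nat_lit 1030524174758747456929792)) (T.h (P (nat_lit 0)) (T.h (M (nat_lit 791340047772155903)) (T.h (P (nat_lit 0)) (M (nat_lit 1620225025199)))))))) (T.h (P (nat_lit 0)) (T.h (T.h (P (nat_lit 5165854903960748718817280)) (T.h (P (nat_lit 0)) (T.h (M (nat_lit 23045151358256676863)) (T.h (P (nat_lit 0)) (M (nat_lit 16161360894767)))))) (T.h (P (nat_lit 0)) (T.h (T.h (M (nat_lit 14579139269005148159)) (T.h (P (nat_lit 0)) (P (nat_lit 45520902769520)))) (T.h (P (nat_lit 0)) (P (nat_lit 43834524249552)))))))) (T.h (T.h (P (nat_lit 0)) (T.h (T.h (P (nat_lit 0)) (T.h (P (nat_lit 31707492845516186714112)) (T.h (P (nat_lit 0)) (M (nat_lit 17942345083060223))))) (T.h (P (nat_lit 0)) (T.h (T.h (P (nat_lit 0)) (P (nat_lit 105860431028912128)))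 (P (nat_lit 0)))))) (T.h (T.h (T.h (M (nat_lit 5767479176908533173059583)) (T.h (P (nat_lit 0)) (T.h (P (nat_lit 9059062354263670784)) (T.h (P (nat_lit 0)) (P (nat_lit 1952428219088)))))) (T.h (P (nat_lit 0)) (T.h (T.h (P (nat_lit 93173685853035167744)) (T.h (P (nat_lit 0)) (M (nat_lit 69877698233887)))) (T.h (P (nat_lit 0)) (M (nat_lit 25655274239343)))))) (T.h (T.h (P (nat_lit 0)) (T.h (T.h (P (nat_lit 0)) (P (nat_lit 84250871117971456))) (P (nat_lit 0)))) (T.h (T.h (T.h (P (nat_lit 24275567268432183296)) (T.h (P (nat_lit 0)) (M (nat_lit 4261203039183)))) (T.h (P (nat_lit 0)) (M (nat_lit 47859465315983)))) (T.h (P (nat_lit 0)) (P (nat_lit 4712665378400)))))))), (T.h (T.h (T.h (P (nat_lit 0)) (T.h (M (nat_lit 38324952001104334506296344575)) (T.h (P (nat_lit 0)) (T.h (M (nat_lit 19990819821223489306623)) (T.h (P (nat_lit 0)) (P (nat_lit 22824189637558272))))))) (T.h (P (nat_lit 0)) (T.h (T.h (P (nat_lit 0)) (T.h (M (nat_lit 225716239866841779929087))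 (T.h (P (nat_lit 0)) (M (nat_lit 501720206482604031))))) (T.h (P (nat_lit 0)) (T.h (T.h (P (nat_lit 0)) (M (nat_lit 984145050285670399))) (P (nat_lit 0))))))) (T.h (T.h (P (nat_lit 0)) (T.h (T.h (M (nat_lit 111323794409892549499027455)) (T.h (P (nat_lit 0)) (T.h (P (nat_lit 191803984242922225664)) (T.h (P (nat_lit 0)) (M (nat_lit 173879231278847)))))) (T.h (P (nat_lit 0)) (T.h (T.h (M (nat_lit 933049847679014666239)) (T.h (P (nat_lit 0)) (M (nat_lit 358160341235375)))) (T.h (P (nat_lit 0)) (M (nat_lit 187828558549151))))))) (T.h (T.h (T.h (P (nat_lit 0)) (T.h (M (nat_lit 7977776092984352178175)) (T.h (P (nat_lit 0)) (M (nat_lit 44226226114723839))))) (T.h (P (nat_lit 0)) (T.h (T.h (P (nat_lit 0)) (P (nat_lit 70945528688017408))) (P (nat_lit 0))))) (T.h (T.h (P (nat_lit 0)) (T.h (T.h (M (nat_lit 389624206748337307647)) (T.h (P (nat_lit 0)) (P (nat_lit 132767430772272)))) (T.h (P (nat_lit 0)) (P (nat_lit 236215764371712))))) (T.h (T.h (T.h (P (nat_lit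 0)) (M (nat_lit 59482841730482175))) (P (nat_lit 0))) (T.h (T.h (P (nat_lit 0)) (P (nat_lit 33551059161936))) (P (nat_lit 0)))))))), (T.h (T.h (T.h (P (nat_lit 19347335837551506643391457787904)) (T.h (P (nat_lit 0)) (T.h (P (nat_lit 38697378061273282518188032)) (T.h (P (nat_lit 0)) (T.h (M (nat_lit 635823466020339711)) (T.h (P (nat_lit 0)) (P (nat_lit 31878738175680)))))))) (T.h (P (nat_lit 0)) (T.h (T.h (M (nat_lit 159468951994826349111934975)) (T.h (P (nat_lit 0)) (T.h (M (nat_lit 112659060996140171263)) (T.h (P (nat_lit 0)) (P (nat_lit 18915543430272)))))) (T.h (P (nat_lit 0)) (T.h (T.h (P (nat_lit 464165310918098419712)) (T.h (P (nat_lit 0)) (M (nat_lit 4342901915231)))) (T.h (P (nat_lit 0)) (P (nat_lit 333169098285744)))))))) (T.h (T.h (P (nat_lit 0)) (T.h (T.h (P (nat_lit 0)) (T.h (M (nat_lit 648060356319322690289663)) (T.h (P (nat_lit 0)) (P (nat_lit 516668073069379584))))) (T.h (P (nat_lit 0)) (T.h (T.h (P (nat_lit 0)) (P (nat_lit 103613129585426432)))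 (P (nat_lit 0)))))) (T.h (T.h (T.h (M (nat_lit 23436767894032029428219903)) (T.h (P (nat_lit 0)) (T.h (P (nat_lit 452359433986062155776)) (T.h (P (nat_lit 0)) (P (nat_lit 87742494175680)))))) (T.h (P (nat_lit 0)) (T.h (T.h (M (nat_lit 177658050073373704191)) (T.h (P (nat_lit 0)) (M (nat_lit 14269426041743)))) (T.h (P (nat_lit 0)) (M (nat_lit 294091399587023)))))) (T.h (T.h (P (nat_lit 0)) (T.h (T.h (P (nat_lit 0)) (P (nat_lit 481985264541106176))) (P (nat_lit 0)))) (T.h (T.h (T.h (P (nat_lit 30799172801478524928)) (T.h (P (nat_lit 0)) (P (nat_lit 43236941052528)))) (T.h (P (nat_lit 0)) (P (nat_lit 7528680834336)))) (T.h (P (nat_lit 0)) (P (nat_lit 46524404131488)))))))), (T.h (T.h (T.h (P (nat_lit 0)) (T.h (M (nat_lit 10332317721075008077777862655)) (T.h (P (nat_lit 0)) (T.h (P (nat_lit 91561267103775804358656)) (T.h (P (nat_lit 0)) (M (nat_lit 87386252056297471))))))) (T.h (P (nat_lit 0)) (T.h (T.h (P (nat_lit 0)) (T.h (P (nat_lit 41336827440789672951808))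 (T.h (P (nat_lit 0)) (M (nat_lit 150279331710074879))))) (T.h (P (nat_lit 0)) (T.h (T.h (P (nat_lit 0)) (M (nat_lit 745646519678468095))) (P (nat_lit 0))))))) (T.h (T.h (P (nat_lit 0)) (T.h (T.h (M (nat_lit 107976093531274162189893631)) (T.h (P (nat_lit 0)) (M (nat_lit 25873580517549408255)))) (T.h (P (nat_lit 0)) (M (nat_lit 195095051702701654015))))) (T.h (T.h (T.h (P (nat_lit 0)) (T.h (M (nat_lit 345733927545194663641087)) (T.h (P (nat_lit 0)) (P (nat_lit 23341083355873280))))) (T.h (P (nat_lit 0)) (T.h (T.h (P (nat_lit 0)) (P (nat_lit 735919516248211456))) (P (nat_lit 0))))) (T.h (T.h (P (nat_lit 0)) (M (nat_lit 205673814371149545471))) (T.h (T.h (T.h (P (nat_lit 0)) (P (nat_lit 201968806608044032))) (P (nat_lit 0))) (P (nat_lit 0))))))), (T.h (T.h (P (nat_lit 0)) (T.h (T.h (P (nat_lit 5780547317694839156132282368)) (T.h (P (nat_lit 0)) (T.h (P (nat_lit 21863340973001673801728)) (T.h (P (nat_lit 0)) (M (nat_lit 70505012681048063)))))) (T.h (P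 (nat_lit 0)) (T.h (T.h (M (nat_lit 52333459867568806297599)) (T.h (P (nat_lit 0)) (M (nat_lit 213134009412911103)))) (T.h (P (nat_lit 0)) (P (nat_lit 181146448704733184))))))) (T.h (T.h (T.h (P (nat_lit 0)) (T.h (P (nat_lit 2509986246629006751301632)) (T.h (P (nat_lit 0)) (T.h (M (nat_lit 13312026751304466431)) (T.h (P (nat_lit 0)) (M (nat_lit 2992795319711))))))) (T.h (P (nat_lit 0)) (T.h (T.h (P (nat_lit 0)) (T.h (M (nat_lit 116447416587535777791)) (T.h (P (nat_lit 0)) (P (nat_lit 25250882282784))))) (T.h (P (nat_lit 0)) (T.h (T.h (P (nat_lit 0)) (M (nat_lit 18868308943967))) (P (nat_lit 0))))))) (T.h (T.h (P (nat_lit 0)) (T.h (T.h (P (nat_lit 74301604029433693339648)) (T.h (P (nat_lit 0)) (M (nat_lit 149697733790728191)))) (T.h (P (nat_lit 0)) (P (nat_lit 384385848265539584))))) (T.h (T.h (T.h (P (nat_lit 0)) (T.h (M (nat_lit 59818567954692308991)) (T.h (P (nat_lit 0)) (M (nat_lit 3254775968975))))) (T.h (P (nat_lit 0)) (T.h (T.h (P (nat_lit 0))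 (M (nat_lit 31298884846943))) (P (nat_lit 0))))) (T.h (T.h (P (nat_lit 0)) (M (nat_lit 63707590864371711))) (T.h (T.h (T.h (P (nat_lit 0)) (P (nat_lit 17328277938624))) (P (nat_lit 0))) (P (nat_lit 0))))))))]
def lP11_21 : List (T ℤ) := [(T.h (T.h (P (nat_lit 0)) (T.h (T.h (P (nat_lit 0)) (T.h (M (nat_lit 49148449090598688213958655)) (T.h (P (nat_lit 0)) (T.h (P (nat_lit 233637798844523610112)) (T.h (P (nat_lit 0)) (P (nat_lit 2347361614368))))))) (T.h (P (nat_lit 0)) (T.h (T.h (P (nat_lit 0)) (T.h (M (nat_lit 258626869237087469567)) (T.h (P (nat_lit 0)) (M (nat_lit 56055365580095))))) (T.h (P (nat_lit 0)) (T.h (T.h (P (nat_lit 0)) (P (nat_lit 398698104248784))) (P (nat_lit 0)))))))) (T.h (T.h (T.h (M (nat_lit 2624090554511444384514310143)) (T.h (P (nat_lit 0)) (T.h (M (nat_lit 31917601046396844113919)) (T.h (P (nat_lit 0)) (P (nat_lit 87313692010512384)))))) (T.h (P (nat_lit 0)) (T.h (T.h (M (nat_lit 185896674665524203880447)) (T.h (P (nat_lit 0))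 (P (nat_lit 508741842077696000)))) (T.h (P (nat_lit 0)) (P (nat_lit 679455333394546688)))))) (T.h (T.h (P (nat_lit 0)) (T.h (T.h (P (nat_lit 0)) (T.h (M (nat_lit 109289342256252190719)) (T.h (P (nat_lit 0)) (P (nat_lit 91909288089792))))) (T.h (P (nat_lit 0)) (T.h (T.h (P (nat_lit 0)) (P (nat_lit 322932605416272))) (P (nat_lit 0)))))) (T.h (T.h (T.h (P (nat_lit 8236358663384764252160)) (T.h (P (nat_lit 0)) (P (nat_lit 4966486854533120)))) (T.h (P (nat_lit 0)) (M (nat_lit 917637707330060287)))) (T.h (T.h (P (nat_lit 0)) (T.h (T.h (P (nat_lit 0)) (M (nat_lit 195327349909631))) (P (nat_lit 0)))) (M (nat_lit 8529320267366399))))))), (T.h (T.h (P (nat_lit 0)) (T.h (T.h (P (nat_lit 1359415713603641114441547776)) (T.h (P (nat_lit 0)) (T.h (P (nat_lit 165431742148911250276352)) (T.h (P (nat_lit 0)) (P (nat_lit 37167668190281728)))))) (T.h (P (nat_lit 0)) (T.h (T.h (M (nat_lit 100957978358762012934143)) (T.h (P (nat_lit 0)) (M (nat_lit 67164934254133247))))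 (T.h (P (nat_lit 0)) (M (nat_lit 565721680629858303))))))) (T.h (T.h (T.h (P (nat_lit 0)) (T.h (P (nat_lit 31566637270320121059999744)) (T.h (P (nat_lit 0)) (M (nat_lit 40736780318343692287))))) (T.h (P (nat_lit 0)) (T.h (T.h (P (nat_lit 0)) (P (nat_lit 25261919675590115328))) (P (nat_lit 0))))) (T.h (T.h (P (nat_lit 0)) (T.h (T.h (P (nat_lit 216489288237391628206080)) (T.h (P (nat_lit 0)) (M (nat_lit 148682746199048191)))) (T.h (P (nat_lit 0)) (P (nat_lit 221720943173402624))))) (T.h (T.h (T.h (P (nat_lit 0)) (M (nat_lit 66144007165625499647))) (P (nat_lit 0))) (T.h (T.h (P (nat_lit 0)) (P (nat_lit 34091736121835520))) (P (nat_lit 0))))))), (T.h (T.h (T.h (M (nat_lit 8874097368190465477069401751551)) (T.h (P (nat_lit 0)) (T.h (M (nat_lit 5776792262901764982833151)) (T.h (P (nat_lit 0)) (T.h (P (nat_lit 188052168320745472)) (T.h (P (nat_lit 0)) (P (nat_lit 2747746866096)))))))) (T.h (P (nat_lit 0)) (T.h (T.h (M (nat_lit 4121339715995222885269503))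 (T.h (P (nat_lit 0)) (T.h (P (nat_lit 100215459310483800064)) (T.h (P (nat_lit 0)) (M (nat_lit 18810786049055)))))) (T.h (P (nat_lit 0)) (T.h (T.h (P (nat_lit 21722730684145991680)) (T.h (P (nat_lit 0)) (M (nat_lit 136831125410927)))) (T.h (P (nat_lit 0)) (M (nat_lit 20331621775151)))))))) (T.h (T.h (P (nat_lit 0)) (T.h (T.h (P (nat_lit 0)) (T.h (P (nat_lit 44308383528726902603776)) (T.h (P (nat_lit 0)) (M (nat_lit 3320335181676543))))) (T.h (P (nat_lit 0)) (T.h (T.h (P (nat_lit 0)) (P (nat_lit 112796740792713216))) (P (nat_lit 0)))))) (T.h (T.h (T.h (P (nat_lit 56357353692403546963574784)) (T.h (P (nat_lit 0)) (T.h (P (nat_lit 2920710188275073024)) (T.h (P (nat_lit 0)) (M (nat_lit 34278701036255)))))) (T.h (P (nat_lit 0)) (T.h (T.h (P (nat_lit 165214448387717332992)) (T.h (P (nat_lit 0)) (M (nat_lit 70818635992175)))) (T.h (P (nat_lit 0)) (P (nat_lit 152917372260864)))))) (T.h (T.h (P (nat_lit 0)) (T.h (T.h (P (nat_lit 0)) (P (nat_lit 31362473346596864)))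 (P (nat_lit 0)))) (T.h (T.h (T.h (M (nat_lit 31246944099178119167)) (T.h (P (nat_lit 0)) (P (nat_lit 10226852086896)))) (T.h (P (nat_lit 0)) (M (nat_lit 7423923453119)))) (T.h (P (nat_lit 0)) (M (nat_lit 11897919089711)))))))), (T.h (T.h (T.h (P (nat_lit 0)) (T.h (M (nat_lit 3872263150308463937371242495)) (T.h (P (nat_lit 0)) (T.h (P (nat_lit 16517076005188825776128)) (T.h (P (nat_lit 0)) (M (nat_lit 10111956601995263))))))) (T.h (P (nat_lit 0)) (T.h (T.h (P (nat_lit 0)) (T.h (P (nat_lit 210187500718093953400832)) (T.h (P (nat_lit 0)) (P (nat_lit 39013912992251904))))) (T.h (P (nat_lit 0)) (T.h (T.h (P (nat_lit 0)) (M (nat_lit 472121916617293823))) (P (nat_lit 0))))))) (T.h (T.h (P (nat_lit 0)) (T.h (T.h (P (nat_lit 13771601041747620554342400)) (T.h (P (nat_lit 0)) (M (nat_lit 119147941505997471743)))) (T.h (P (nat_lit 0)) (M (nat_lit 451751048473412108287))))) (T.h (T.h (T.h (P (nat_lit 0)) (T.h (M (nat_lit 11167772059254816505855)) (T.h (P (nat_lit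 0)) (P (nat_lit 68869295065792512))))) (T.h (P (nat_lit 0)) (T.h (T.h (P (nat_lit 0)) (M (nat_lit 237350613352972287))) (P (nat_lit 0))))) (T.h (T.h (P (nat_lit 0)) (P (nat_lit 370602560408518656000))) (T.h (T.h (T.h (P (nat_lit 0)) (P (nat_lit 10662414417920000))) (P (nat_lit 0))) (P (nat_lit 0))))))), (T.h (T.h (P (nat_lit 0)) (T.h (T.h (M (nat_lit 1007859841762685177470910463)) (T.h (P (nat_lit 0)) (T.h (M (nat_lit 29919466348132576526335)) (T.h (P (nat_lit 0)) (P (nat_lit 4561703304200192)))))) (T.h (P (nat_lit 0)) (T.h (T.h (M (nat_lit 21797986948526179876863)) (T.h (P (nat_lit 0)) (P (nat_lit 160446692263854080)))) (T.h (P (nat_lit 0)) (M (nat_lit 42857691188494335))))))) (T.h (T.h (T.h (P (nat_lit 0)) (T.h (M (nat_lit 5722141391046098395594751)) (T.h (P (nat_lit 0)) (M (nat_lit 5995505179078688767))))) (T.h (P (nat_lit 0)) (T.h (T.h (P (nat_lit 0)) (M (nat_lit 33583577443522838527))) (P (nat_lit 0))))) (T.h (T.h (P (nat_lit 0)) (T.h (T.h (M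 (nat_lit 80977012436612954456063)) (T.h (P (nat_lit 0)) (P (nat_lit 61920453981667328)))) (T.h (P (nat_lit 0)) (M (nat_lit 128439185163681791))))) (T.h (T.h (T.h (P (nat_lit 0)) (P (nat_lit 19411721668203118592))) (P (nat_lit 0))) (T.h (T.h (P (nat_lit 0)) (P (nat_lit 7637635372646400))) (P (nat_lit 0))))))), (P (nat_lit 0)), (P (nat_lit 0)), (T.h (T.h (P (nat_lit 0)) (T.h (T.h (P (nat_lit 0)) (T.h (M (nat_lit 7185236083707900717957119)) (T.h (P (nat_lit 0)) (T.h (P (nat_lit 12105574288833118208)) (T.h (P (nat_lit 0)) (M (nat_lit 37010954213999))))))) (T.h (P (nat_lit 0)) (T.h (T.h (P (nat_lit 0)) (T.h (P (nat_lit 3354224471622811648)) (T.h (P (nat_lit 0)) (M (nat_lit 8558637664695))))) (T.h (P (nat_lit 0)) (T.h (T.h (P (nat_lit 0)) (P (nat_lit 26085537184))) (P (nat_lit 0)))))))) (T.h (T.h (T.h (P (nat_lit 2249173928889727482182238208)) (T.h (P (nat_lit 0)) (T.h (P (nat_lit 23895936941836185108480)) (T.h (P (nat_lit 0)) (M (nat_lit 69107667941326847))))))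 (T.h (P (nat_lit 0)) (T.h (T.h (M (nat_lit 4991051602226185240575)) (T.h (P (nat_lit 0)) (P (nat_lit 12565639803011072)))) (T.h (P (nat_lit 0)) (P (nat_lit 2120504879120384)))))) (T.h (T.h (P (nat_lit 0)) (T.h (T.h (P (nat_lit 0)) (T.h (P (nat_lit 2037456595029327872)) (T.h (P (nat_lit 0)) (P (nat_lit 106076979911416))))) (T.h (P (nat_lit 0)) (T.h (T.h (P (nat_lit 0)) (M (nat_lit 4652274396391))) (P (nat_lit 0)))))) (T.h (T.h (T.h (P (nat_lit 8955629997758437392384)) (T.h (P (nat_lit 0)) (M (nat_lit 30764528360194047)))) (T.h (P (nat_lit 0)) (P (nat_lit 2757992272723968)))) (T.h (T.h (P (nat_lit 0)) (T.h (T.h (P (nat_lit 0)) (M (nat_lit 20349208859607))) (P (nat_lit 0)))) (M (nat_lit 12698370511568895)))))))]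
def lP11_22 : List (T ℤ) := [(T.h (T.h (P (nat_lit 0)) (T.h (T.h (P (nat_lit 2084092978544746558608375808)) (T.h (P (nat_lit 0)) (T.h (M (nat_lit 14112679512842935730175)) (T.h (P (nat_lit 0)) (M (nat_lit 145933282261073919)))))) (T.h (P (nat_lit 0)) (T.h (T.h (M (nat_lit 2445534956294129057791)) (T.h (P (nat_lit 0)) (P (nat_lit 3081846973022208)))) (T.h (P (nat_lit 0)) (P (nat_lit 2747498126852096))))))) (T.h (T.h (T.h (P (nat_lit 0)) (T.h (P (nat_lit 3505100089068918241492992)) (T.h (P (nat_lit 0)) (T.h (P (nat_lit 83778115168194527232)) (T.h (P (nat_lit 0)) (M (nat_lit 335941989346463))))))) (T.h (P (nat_lit 0)) (T.h (T.h (P (nat_lit 0)) (T.h (P (nat_lit 8688976552274165760)) (T.h (P (nat_lit 0)) (P (nat_lit 19291176429520))))) (T.h (P (nat_lit 0)) (T.h (T.h (P (nat_lit 0)) (M (nat_lit 6391443606815))) (P (nat_lit 0))))))) (T.h (T.h (P (nat_lit 0)) (T.h (T.h (M (nat_lit 13105697841355797037055)) (T.h (P (nat_lit 0)) (M (nat_lit 45175380232437759))))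 (T.h (P (nat_lit 0)) (M (nat_lit 10769564384280575))))) (T.h (T.h (T.h (P (nat_lit 0)) (T.h (M (nat_lit 3206093737427992575)) (T.h (P (nat_lit 0)) (P (nat_lit 19834863972112))))) (T.h (P (nat_lit 0)) (T.h (T.h (P (nat_lit 0)) (P (nat_lit 7731991111936))) (P (nat_lit 0))))) (T.h (T.h (P (nat_lit 0)) (M (nat_lit 21643633645551615))) (T.h (T.h (T.h (P (nat_lit 0)) (M (nat_lit 2171138809055))) (P (nat_lit 0))) (P (nat_lit 0)))))))), (T.h (T.h (P (nat_lit 0)) (T.h (T.h (P (nat_lit 0)) (T.h (P (nat_lit 8420469345027642405945344)) (T.h (P (nat_lit 0)) (T.h (P (nat_lit 184211853846620667904)) (T.h (P (nat_lit 0)) (M (nat_lit 98814136291871))))))) (T.h (P (nat_lit 0)) (T.h (T.h (P (nat_lit 0)) (T.h (M (nat_lit 26595740297180741631)) (T.h (P (nat_lit 0)) (P (nat_lit 13347002066688))))) (T.h (P (nat_lit 0)) (T.h (T.h (P (nat_lit 0)) (P (nat_lit 2088080913312))) (P (nat_lit 0)))))))) (T.h (T.h (T.h (M (nat_lit 2787373763577663888453271551)) (T.h (P (nat_lit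 0)) (T.h (P (nat_lit 37652368741945447546880)) (T.h (P (nat_lit 0)) (P (nat_lit 498903295979454464)))))) (T.h (P (nat_lit 0)) (T.h (T.h (M (nat_lit 3668610430600438874111)) (T.h (P (nat_lit 0)) (M (nat_lit 105182443699470335)))) (T.h (P (nat_lit 0)) (M (nat_lit 12344674416689151)))))) (T.h (T.h (P (nat_lit 0)) (T.h (T.h (P (nat_lit 0)) (T.h (M (nat_lit 29332209703661338623)) (T.h (P (nat_lit 0)) (M (nat_lit 31467877982927))))) (T.h (P (nat_lit 0)) (T.h (T.h (P (nat_lit 0)) (M (nat_lit 18427241446751))) (P (nat_lit 0)))))) (T.h (T.h (T.h (M (nat_lit 14596476764099333586943)) (T.h (P (nat_lit 0)) (M (nat_lit 18450982411370495)))) (T.h (P (nat_lit 0)) (M (nat_lit 47013678771863551)))) (T.h (T.h (P (nat_lit 0)) (T.h (T.h (P (nat_lit 0)) (M (nat_lit 5796365101967))) (P (nat_lit 0)))) (P (nat_lit 12471877204180992))))))), (T.h (T.h (P (nat_lit 0)) (T.h (T.h (P (nat_lit 7613911020926650974465949696)) (T.h (P (nat_lit 0)) (T.h (M (nat_lit 37608647712375417339903))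 (T.h (P (nat_lit 0)) (P (nat_lit 288386959946383360)))))) (T.h (P (nat_lit 0)) (T.h (T.h (P (nat_lit 3737831950392995348480)) (T.h (P (nat_lit 0)) (M (nat_lit 15025593104400383)))) (T.h (P (nat_lit 0)) (M (nat_lit 2662119321436159))))))) (T.h (T.h (T.h (P (nat_lit 0)) (T.h (P (nat_lit 16770020288298499683909632)) (T.h (P (nat_lit 0)) (T.h (M (nat_lit 54436003502392082431)) (T.h (P (nat_lit 0)) (P (nat_lit 310329193881600))))))) (T.h (P (nat_lit 0)) (T.h (T.h (P (nat_lit 0)) (T.h (P (nat_lit 6148453346429632512)) (T.h (P (nat_lit 0)) (M (nat_lit 157763501468927))))) (T.h (P (nat_lit 0)) (T.h (T.h (P (nat_lit 0)) (P (nat_lit 17575024374576))) (P (nat_lit 0))))))) (T.h (T.h (P (nat_lit 0)) (T.h (T.h (P (nat_lit 856239061351264157696)) (T.h (P (nat_lit 0)) (M (nat_lit 11201544438792191)))) (T.h (P (nat_lit 0)) (P (nat_lit 18868985238323200))))) (T.h (T.h (T.h (P (nat_lit 0)) (T.h (M (nat_lit 24581911049941286911)) (T.h (P (nat_lit 0)) (M (nat_lit 15746492039039)))))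 (T.h (P (nat_lit 0)) (T.h (T.h (P (nat_lit 0)) (M (nat_lit 43491366017423))) (P (nat_lit 0))))) (T.h (T.h (P (nat_lit 0)) (M (nat_lit 18543270365085695))) (T.h (T.h (T.h (P (nat_lit 0)) (M (nat_lit 3743196082991))) (P (nat_lit 0))) (P (nat_lit 0)))))))), (T.h (T.h (P (nat_lit 0)) (T.h (T.h (P (nat_lit 0)) (T.h (M (nat_lit 1761177201905144919228415)) (T.h (P (nat_lit 0)) (M (nat_lit 159289274093619118079))))) (T.h (P (nat_lit 0)) (T.h (T.h (P (nat_lit 0)) (M (nat_lit 1424453042811437055))) (P (nat_lit 0)))))) (T.h (T.h (T.h (M (nat_lit 1069719061105742419312246783)) (T.h (P (nat_lit 0)) (T.h (M (nat_lit 9039233065320873721855)) (T.h (P (nat_lit 0)) (M (nat_lit 360924354560393215)))))) (T.h (P (nat_lit 0)) (T.h (T.h (P (nat_lit 167114983961662586880)) (T.h (P (nat_lit 0)) (P (nat_lit 69713786696892416)))) (T.h (P (nat_lit 0)) (M (nat_lit 6948109256065023)))))) (T.h (T.h (P (nat_lit 0)) (T.h (T.h (P (nat_lit 0)) (P (nat_lit 13635200529196908544))) (P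 (nat_lit 0)))) (T.h (T.h (T.h (P (nat_lit 4810639926731932172288)) (T.h (P (nat_lit 0)) (M (nat_lit 9114228696940543)))) (T.h (P (nat_lit 0)) (P (nat_lit 3999072314753024)))) (T.h (P (nat_lit 0)) (P (nat_lit 189485684457472))))))), (P (nat_lit 0)), (P (nat_lit 0)), (T.h (T.h (T.h (M (nat_lit 3394801292347723612557888454655)) (T.h (P (nat_lit 0)) (T.h (P (nat_lit 26477007149013805545029632)) (T.h (P (nat_lit 0)) (T.h (M (nat_lit 11637485353798991871)) (T.h (P (nat_lit 0)) (M (nat_lit 5654054247519)))))))) (T.h (P (nat_lit 0)) (T.h (T.h (M (nat_lit 5434118682628604146221055)) (T.h (P (nat_lit 0)) (T.h (M (nat_lit 120370363877719801855)) (T.h (P (nat_lit 0)) (M (nat_lit 104287281364127)))))) (T.h (P (nat_lit 0)) (T.h (T.h (M (nat_lit 7321025331169591295)) (T.h (P (nat_lit 0)) (P (nat_lit 19445134848960)))) (T.h (P (nat_lit 0)) (M (nat_lit 1981720118879)))))))) (T.h (T.h (P (nat_lit 0)) (T.h (T.h (P (nat_lit 0)) (T.h (M (nat_lit 6362359278971052359679))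 (T.h (P (nat_lit 0)) (M (nat_lit 135719300220321791))))) (T.h (P (nat_lit 0)) (T.h (T.h (P (nat_lit 0)) (M (nat_lit 154976873774710783))) (P (nat_lit 0)))))) (T.h (T.h (T.h (P (nat_lit 24103448565242123354374144)) (T.h (P (nat_lit 0)) (T.h (P (nat_lit 86457667896909758464)) (T.h (P (nat_lit 0)) (P (nat_lit 165372176523456)))))) (T.h (P (nat_lit 0)) (T.h (T.h (P (nat_lit 3573854567118405632)) (T.h (P (nat_lit 0)) (P (nat_lit 168515996858544)))) (T.h (P (nat_lit 0)) (M (nat_lit 57358249793279)))))) (T.h (T.h (P (nat_lit 0)) (T.h (T.h (P (nat_lit 0)) (P (nat_lit 157961034702782464))) (P (nat_lit 0)))) (T.h (T.h (T.h (P (nat_lit 11026167477728968704)) (T.h (P (nat_lit 0)) (P (nat_lit 54305835975360)))) (T.h (P (nat_lit 0)) (M (nat_lit 35050319275487)))) (T.h (P (nat_lit 0)) (P (nat_lit 8700861836544)))))))), (T.h (T.h (T.h (P (nat_lit 0)) (T.h (M (nat_lit 13210451688327983842182823935)) (T.h (P (nat_lit 0)) (T.h (P (nat_lit 53049158737755864301568))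 (T.h (P (nat_lit 0)) (M (nat_lit 33213642493526015))))))) (T.h (P (nat_lit 0)) (T.h (T.h (P (nat_lit 0)) (T.h (P (nat_lit 71268525060009716875264)) (T.h (P (nat_lit 0)) (P (nat_lit 142194421957574656))))) (T.h (P (nat_lit 0)) (T.h (T.h (P (nat_lit 0)) (M (nat_lit 77890511696707583))) (P (nat_lit 0))))))) (T.h (T.h (P (nat_lit 0)) (T.h (T.h (M (nat_lit 812139356238288361881599)) (T.h (P (nat_lit 0)) (T.h (P (nat_lit 686793345222343393280)) (T.h (P (nat_lit 0)) (M (nat_lit 33739957894015)))))) (T.h (P (nat_lit 0)) (T.h (T.h (P (nat_lit 14353739500201443328)) (T.h (P (nat_lit 0)) (M (nat_lit 5250374281359)))) (T.h (P (nat_lit 0)) (M (nat_lit 12009131250063))))))) (T.h (T.h (T.h (P (nat_lit 0)) (T.h (P (nat_lit 71268525060009716875264)) (T.h (P (nat_lit 0)) (P (nat_lit 142194421957574656))))) (T.h (P (nat_lit 0)) (T.h (T.h (P (nat_lit 0)) (M (nat_lit 82599042909241343))) (P (nat_lit 0))))) (T.h (T.h (P (nat_lit 0)) (T.h (T.h (P (nat_lit 14353739500201443328))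 (T.h (P (nat_lit 0)) (M (nat_lit 5250374281359)))) (T.h (P (nat_lit 0)) (P (nat_lit 15419168176256))))) (T.h (T.h (T.h (P (nat_lit 0)) (M (nat_lit 77890511696707583))) (P (nat_lit 0))) (T.h (T.h (P (nat_lit 0)) (M (nat_lit 12009131250063))) (P (nat_lit 0))))))))]
def lP11_23 : List (T ℤ) := [(T.h (T.h (T.h (M (nat_lit 10908091202296607606064923279359)) (T.h (P (nat_lit 0)) (T.h (M (nat_lit 106870122577452009223356415)) (T.h (P (nat_lit 0)) (T.h (P (nat_lit 435617874878641733632)) (T.h (P (nat_lit 0)) (P (nat_lit 5727466517568)))))))) (T.h (P (nat_lit 0)) (T.h (T.h (P (nat_lit 7611565181106873031458816)) (T.h (P (nat_lit 0)) (T.h (P (nat_lit 207371639715153313792)) (T.h (P (nat_lit 0)) (P (nat_lit 86654082495648)))))) (T.h (P (nat_lit 0)) (T.h (T.h (M (nat_lit 26661579478922166271)) (T.h (P (nat_lit 0)) (M (nat_lit 106775006108063)))) (T.h (P (nat_lit 0)) (M (nat_lit 1272585424271)))))))) (T.h (T.h (P (nat_lit 0)) (T.h (T.h (P (nat_lit 0)) (T.h (P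 (nat_lit 125059298089674232299520)) (T.h (P (nat_lit 0)) (P (nat_lit 2029145175772889088))))) (T.h (P (nat_lit 0)) (T.h (T.h (P (nat_lit 0)) (P (nat_lit 210507189172764672))) (P (nat_lit 0)))))) (T.h (T.h (T.h (P (nat_lit 82864319336703675494039552)) (T.h (P (nat_lit 0)) (T.h (P (nat_lit 211858420758472556544)) (T.h (P (nat_lit 0)) (P (nat_lit 86654082495648)))))) (T.h (P (nat_lit 0)) (T.h (T.h (M (nat_lit 24513740372315209727)) (T.h (P (nat_lit 0)) (M (nat_lit 51987151445087)))) (T.h (P (nat_lit 0)) (M (nat_lit 54304868692991)))))) (T.h (T.h (P (nat_lit 0)) (T.h (T.h (P (nat_lit 0)) (M (nat_lit 197613513858678783))) (P (nat_lit 0)))) (T.h (T.h (T.h (M (nat_lit 22000063034372915199)) (T.h (P (nat_lit 0)) (M (nat_lit 106775006108063)))) (T.h (P (nat_lit 0)) (M (nat_lit 54304868692991)))) (T.h (P (nat_lit 0)) (M (nat_lit 1272585424271)))))))), (T.h (T.h (T.h (P (nat_lit 0)) (T.h (P (nat_lit 36998131545928357616738631680)) (T.h (P (nat_lit 0)) (T.h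 (M (nat_lit 3100395856076149358591)) (T.h (P (nat_lit 0)) (P (nat_lit 166287845529026560))))))) (T.h (P (nat_lit 0)) (T.h (T.h (P (nat_lit 0)) (T.h (M (nat_lit 90589036788935810875391)) (T.h (P (nat_lit 0)) (P (nat_lit 15382350327431168))))) (T.h (P (nat_lit 0)) (T.h (T.h (P (nat_lit 0)) (P (nat_lit 79739785560276992))) (P (nat_lit 0))))))) (T.h (T.h (P (nat_lit 0)) (T.h (T.h (M (nat_lit 53272160417920283098218495)) (T.h (P (nat_lit 0)) (T.h (M (nat_lit 1051264078816068239359)) (T.h (P (nat_lit 0)) (P (nat_lit 354926245962528)))))) (T.h (P (nat_lit 0)) (T.h (T.h (M (nat_lit 18135119514684096511)) (T.h (P (nat_lit 0)) (P (nat_lit 71961381107280)))) (T.h (P (nat_lit 0)) (P (nat_lit 25603466475168))))))) (T.h (T.h (T.h (P (nat_lit 0)) (T.h (M (nat_lit 90589036788935810875391)) (T.h (P (nat_lit 0)) (P (nat_lit 15382350327431168))))) (T.h (P (nat_lit 0)) (T.h (T.h (P (nat_lit 0)) (P (nat_lit 200668995862790144))) (P (nat_lit 0))))) (T.h (T.h (P (nat_lit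 0)) (T.h (T.h (M (nat_lit 18135119514684096511)) (T.h (P (nat_lit 0)) (P (nat_lit 71961381107280)))) (T.h (P (nat_lit 0)) (M (nat_lit 85814251092287))))) (T.h (T.h (T.h (P (nat_lit 0)) (P (nat_lit 79739785560276992))) (P (nat_lit 0))) (T.h (T.h (P (nat_lit 0)) (P (nat_lit 25603466475168))) (P (nat_lit 0)))))))), (T.h (T.h (T.h (M (nat_lit 3388291302366962560366419116031)) (T.h (P (nat_lit 0)) (T.h (M (nat_lit 52973080057366503088979967)) (T.h (P (nat_lit 0)) (M (nat_lit 201408859984088793087)))))) (T.h (P (nat_lit 0)) (T.h (T.h (P (nat_lit 4983474547258667095293952)) (T.h (P (nat_lit 0)) (M (nat_lit 91053075213775273983)))) (T.h (P (nat_lit 0)) (P (nat_lit 5571827366197460992)))))) (T.h (T.h (P (nat_lit 0)) (T.h (T.h (P (nat_lit 0)) (T.h (P (nat_lit 130518322924367101558784)) (T.h (P (nat_lit 0)) (M (nat_lit 179461911432396799))))) (T.h (P (nat_lit 0)) (T.h (T.h (P (nat_lit 0)) (M (nat_lit 28954197942730751))) (P (nat_lit 0)))))) (T.h (T.h (T.h (P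 (nat_lit 4983474547258667095293952)) (T.h (P (nat_lit 0)) (M (nat_lit 91053075213775273983)))) (T.h (P (nat_lit 0)) (M (nat_lit 46072855600505552895)))) (T.h (T.h (P (nat_lit 0)) (T.h (T.h (P (nat_lit 0)) (M (nat_lit 28954197942730751))) (P (nat_lit 0)))) (P (nat_lit 5571827366197460992)))))), (P (nat_lit 0)), (P (nat_lit 0)), (T.h (T.h (P (nat_lit 0)) (T.h (T.h (P (nat_lit 0)) (T.h (M (nat_lit 33260516545734121384574975)) (T.h (P (nat_lit 0)) (T.h (P (nat_lit 36900960490852712448)) (T.h (P (nat_lit 0)) (P (nat_lit 162856745037048))))))) (T.h (P (nat_lit 0)) (T.h (T.h (P (nat_lit 0)) (T.h (M (nat_lit 62543238470354075647)) (T.h (P (nat_lit 0)) (M (nat_lit 17783705421671))))) (T.h (P (nat_lit 0)) (T.h (T.h (P (nat_lit 0)) (P (nat_lit 721848616872))) (P (nat_lit 0)))))))) (T.h (T.h (T.h (P (nat_lit 14278752545302595397457281024)) (T.h (P (nat_lit 0)) (T.h (M (nat_lit 44275768650990752890879)) (T.h (P (nat_lit 0)) (P (nat_lit 16761049637093376))))))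 (T.h (P (nat_lit 0)) (T.h (T.h (M (nat_lit 26587894600553000337407)) (T.h (P (nat_lit 0)) (P (nat_lit 365983832700256256)))) (T.h (P (nat_lit 0)) (P (nat_lit 64078250146168832)))))) (T.h (T.h (P (nat_lit 0)) (T.h (T.h (P (nat_lit 0)) (T.h (M (nat_lit 599009681001056043007)) (T.h (P (nat_lit 0)) (P (nat_lit 456731647457936))))) (T.h (P (nat_lit 0)) (T.h (T.h (P (nat_lit 0)) (M (nat_lit 347842490566887))) (P (nat_lit 0)))))) (T.h (T.h (T.h (M (nat_lit 20998483959028232749055)) (T.h (P (nat_lit 0)) (P (nat_lit 172420659023511552)))) (T.h (P (nat_lit 0)) (M (nat_lit 99343303046987775)))) (T.h (T.h (P (nat_lit 0)) (T.h (T.h (P (nat_lit 0)) (M (nat_lit 201121921056575))) (P (nat_lit 0)))) (M (nat_lit 3056444827533311))))))), (T.h (T.h (P (nat_lit 0)) (T.h (T.h (P (nat_lit 22422369025759376930156576768)) (T.h (P (nat_lit 0)) (T.h (P (nat_lit 76776786994339017392128)) (T.h (P (nat_lit 0)) (P (nat_lit 166631489530445824)))))) (T.h (P (nat_lit 0)) (T.h (T.h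 (M (nat_lit 6087368376591455354879)) (T.h (P (nat_lit 0)) (P (nat_lit 425623869941825536)))) (T.h (P (nat_lit 0)) (M (nat_lit 24736586224271359))))))) (T.h (T.h (T.h (P (nat_lit 0)) (T.h (M (nat_lit 18104529234598034365480959)) (T.h (P (nat_lit 0)) (T.h (M (nat_lit 483536738113462206463)) (T.h (P (nat_lit 0)) (P (nat_lit 4501068401936))))))) (T.h (P (nat_lit 0)) (T.h (T.h (P (nat_lit 0)) (T.h (M (nat_lit 65875113286962249727)) (T.h (P (nat_lit 0)) (P (nat_lit 302448598904144))))) (T.h (P (nat_lit 0)) (T.h (T.h (P (nat_lit 0)) (P (nat_lit 245254089850128))) (P (nat_lit 0))))))) (T.h (T.h (P (nat_lit 0)) (T.h (T.h (M (nat_lit 3633777247198442946559)) (T.h (P (nat_lit 0)) (M (nat_lit 955165724419751935)))) (T.h (P (nat_lit 0)) (P (nat_lit 121172382671339520))))) (T.h (T.h (T.h (P (nat_lit 0)) (T.h (M (nat_lit 342750232213628911615)) (T.h (P (nat_lit 0)) (M (nat_lit 407645324492543))))) (T.h (P (nat_lit 0)) (T.h (T.h (P (nat_lit 0)) (P (nat_lit 138298531161408)))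 (P (nat_lit 0))))) (T.h (T.h (P (nat_lit 0)) (P (nat_lit 230717039266758656))) (T.h (T.h (T.h (P (nat_lit 0)) (P (nat_lit 11828458486864))) (P (nat_lit 0))) (P (nat_lit 0)))))))), (T.h (T.h (P (nat_lit 0)) (T.h (T.h (P (nat_lit 0)) (T.h (M (nat_lit 85696567655514798834057215)) (T.h (P (nat_lit 0)) (T.h (P (nat_lit 257694155673815744512)) (T.h (P (nat_lit 0)) (M (nat_lit 65793922930175))))))) (T.h (P (nat_lit 0)) (T.h (T.h (P (nat_lit 0)) (T.h (M (nat_lit 470033679047496564735)) (T.h (P (nat_lit 0)) (P (nat_lit 209440073796384))))) (T.h (P (nat_lit 0)) (T.h (T.h (P (nat_lit 0)) (P (nat_lit 31916731158624))) (P (nat_lit 0)))))))) (T.h (T.h (T.h (M (nat_lit 17615004041375262466134507519)) (T.h (P (nat_lit 0)) (T.h (P (nat_lit 238071711623405765656576)) (T.h (P (nat_lit 0)) (M (nat_lit 174905089141735423)))))) (T.h (P (nat_lit 0)) (T.h (T.h (P (nat_lit 100033827551878204882944)) (T.h (P (nat_lit 0)) (M (nat_lit 474806415359246335)))) (T.h (P (nat_lit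 0)) (M (nat_lit 48504213693825023)))))) (T.h (T.h (P (nat_lit 0)) (T.h (T.h (P (nat_lit 0)) (T.h (M (nat_lit 29837369592751587327)) (T.h (P (nat_lit 0)) (M (nat_lit 412419362082719))))) (T.h (P (nat_lit 0)) (T.h (T.h (P (nat_lit 0)) (P (nat_lit 121045113501696))) (P (nat_lit 0)))))) (T.h (T.h (T.h (M (nat_lit 129295660143229062348799)) (T.h (P (nat_lit 0)) (M (nat_lit 1346142216951136255)))) (T.h (P (nat_lit 0)) (M (nat_lit 4358388351205375)))) (T.h (T.h (P (nat_lit 0)) (T.h (T.h (P (nat_lit 0)) (M (nat_lit 130514897064239))) (P (nat_lit 0)))) (P (nat_lit 7889633875230720)))))))]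
def lP11_24 : List (T ℤ) := [(T.h (T.h (P (nat_lit 0)) (T.h (T.h (M (nat_lit 13573676804449271778119778303)) (T.h (P (nat_lit 0)) (T.h (M (nat_lit 123685703018075998126079)) (T.h (P (nat_lit 0)) (P (nat_lit 618504330957160448)))))) (T.h (P (nat_lit 0)) (T.h (T.h (P (nat_lit 1942311387912894152704)) (T.h (P (nat_lit 0)) (M (nat_lit 918815193072631807)))) (T.h (P (nat_lit 0)) (M (nat_lit 1903429775097855))))))) (T.h (T.h (T.h (P (nat_lit 0)) (T.h (M (nat_lit 67893118468651189618606079)) (T.h (P (nat_lit 0)) (T.h (P (nat_lit 161391976297722281984)) (T.h (P (nat_lit 0)) (P (nat_lit 506468864353392))))))) (T.h (P (nat_lit 0)) (T.h (T.h (P (nat_lit 0)) (T.h (M (nat_lit 133714427716321673215)) (T.h (P (nat_lit 0)) (P (nat_lit 369032250294000))))) (T.h (P (nat_lit 0)) (T.h (T.h (P (nat_lit 0)) (M (nat_lit 448419969149615))) (P (nat_lit 0))))))) (T.h (T.h (P (nat_lit 0)) (T.h (T.h (M (nat_lit 39822502409192226160639)) (T.h (P (nat_lit 0)) (P (nat_lit 589187949178290176))))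 (T.h (P (nat_lit 0)) (M (nat_lit 3137736619360255))))) (T.h (T.h (T.h (P (nat_lit 0)) (T.h (P (nat_lit 246069661220623876096)) (T.h (P (nat_lit 0)) (P (nat_lit 316610714032560))))) (T.h (P (nat_lit 0)) (T.h (T.h (P (nat_lit 0)) (P (nat_lit 292855403765520))) (P (nat_lit 0))))) (T.h (T.h (P (nat_lit 0)) (P (nat_lit 49924096142262272))) (T.h (T.h (T.h (P (nat_lit 0)) (M (nat_lit 147393761480063))) (P (nat_lit 0))) (P (nat_lit 0)))))))), (T.h (T.h (P (nat_lit 0)) (T.h (T.h (P (nat_lit 0)) (T.h (P (nat_lit 3735946704402383644917760)) (T.h (P (nat_lit 0)) (M (nat_lit 494310156384400834559))))) (T.h (P (nat_lit 0)) (T.h (T.h (P (nat_lit 0)) (P (nat_lit 383475007715993976832))) (P (nat_lit 0)))))) (T.h (T.h (T.h (M (nat_lit 21813259648597683975539916799)) (T.h (P (nat_lit 0)) (T.h (M (nat_lit 118029435057447043596287)) (T.h (P (nat_lit 0)) (M (nat_lit 648658099823935487)))))) (T.h (P (nat_lit 0)) (T.h (T.h (M (nat_lit 15869735566753822408703)) (T.h (P (nat_lit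 0)) (M (nat_lit 160618762197270527)))) (T.h (P (nat_lit 0)) (P (nat_lit 89753293353353216)))))) (T.h (T.h (P (nat_lit 0)) (T.h (T.h (P (nat_lit 0)) (M (nat_lit 105052476701367336959))) (P (nat_lit 0)))) (T.h (T.h (T.h (P (nat_lit 28873630804895426674688)) (T.h (P (nat_lit 0)) (M (nat_lit 168907709395697663)))) (T.h (P (nat_lit 0)) (P (nat_lit 25629441326022656)))) (T.h (P (nat_lit 0)) (P (nat_lit 41531692143280128))))))), (P (nat_lit 0)), (T.h (T.h (T.h (M (nat_lit 8096653286310737006045329096703)) (T.h (P (nat_lit 0)) (T.h (P (nat_lit 12455452997535198022205440)) (T.h (P (nat_lit 0)) (T.h (M (nat_lit 88541707545901793279)) (T.h (P (nat_lit 0)) (M (nat_lit 21066171057215)))))))) (T.h (P (nat_lit 0)) (T.h (T.h (P (nat_lit 6734057503918383796584448)) (T.h (P (nat_lit 0)) (T.h (P (nat_lit 30420691673287753728)) (T.h (P (nat_lit 0)) (M (nat_lit 174156779605727)))))) (T.h (P (nat_lit 0)) (T.h (T.h (M (nat_lit 1360003242993385471)) (T.h (P (nat_lit 0))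 (M (nat_lit 96506159871455)))) (T.h (P (nat_lit 0)) (P (nat_lit 59979948287008)))))))) (T.h (T.h (P (nat_lit 0)) (T.h (T.h (P (nat_lit 0)) (T.h (P (nat_lit 298930317408136626962432)) (T.h (P (nat_lit 0)) (M (nat_lit 644189832269791231))))) (T.h (P (nat_lit 0)) (T.h (T.h (P (nat_lit 0)) (P (nat_lit 1326717372513124352))) (P (nat_lit 0)))))) (T.h (T.h (T.h (P (nat_lit 6734057503918383796584448)) (T.h (P (nat_lit 0)) (T.h (P (nat_lit 30420691673287753728)) (T.h (P (nat_lit 0)) (M (nat_lit 174156779605727)))))) (T.h (P (nat_lit 0)) (T.h (T.h (P (nat_lit 360879548752231137280)) (T.h (P (nat_lit 0)) (M (nat_lit 293855003889503)))) (T.h (P (nat_lit 0)) (P (nat_lit 67763829337056)))))) (T.h (T.h (P (nat_lit 0)) (T.h (T.h (P (nat_lit 0)) (P (nat_lit 1326717372513124352))) (P (nat_lit 0)))) (T.h (T.h (T.h (M (nat_lit 1360003242993385471)) (T.h (P (nat_lit 0)) (M (nat_lit 96506159871455)))) (T.h (P (nat_lit 0)) (P (nat_lit 67763829337056)))) (T.h (P (nat_lit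 0)) (P (nat_lit 59979948287008)))))))), (T.h (T.h (T.h (P (nat_lit 0)) (T.h (P (nat_lit 22803905422289269131617239040)) (T.h (P (nat_lit 0)) (T.h (M (nat_lit 699161543503702392831)) (T.h (P (nat_lit 0)) (M (nat_lit 50349015464542207))))))) (T.h (P (nat_lit 0)) (T.h (T.h (P (nat_lit 0)) (T.h (P (nat_lit 98832622502392650268672)) (T.h (P (nat_lit 0)) (P (nat_lit 469820305517166592))))) (T.h (P (nat_lit 0)) (T.h (T.h (P (nat_lit 0)) (P (nat_lit 250005016243716096))) (P (nat_lit 0))))))) (T.h (T.h (P (nat_lit 0)) (T.h (T.h (P (nat_lit 7160681386682765459587072)) (T.h (P (nat_lit 0)) (T.h (M (nat_lit 105823337127516045311)) (T.h (P (nat_lit 0)) (P (nat_lit 108046655949024)))))) (T.h (P (nat_lit 0)) (T.h (T.h (M (nat_lit 412754156984450678783)) (T.h (P (nat_lit 0)) (P (nat_lit 344686648612592)))) (T.h (P (nat_lit 0)) (M (nat_lit 16698236979775))))))) (T.h (T.h (T.h (P (nat_lit 0)) (T.h (P (nat_lit 98832622502392650268672)) (T.h (P (nat_lit 0)) (P (nat_lit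 469820305517166592))))) (T.h (P (nat_lit 0)) (T.h (T.h (P (nat_lit 0)) (M (nat_lit 1897147899396947967))) (P (nat_lit 0))))) (T.h (T.h (P (nat_lit 0)) (T.h (T.h (M (nat_lit 412754156984450678783)) (T.h (P (nat_lit 0)) (P (nat_lit 344686648612592)))) (T.h (P (nat_lit 0)) (M (nat_lit 15733293590847))))) (T.h (T.h (T.h (P (nat_lit 0)) (P (nat_lit 250005016243716096))) (P (nat_lit 0))) (T.h (T.h (P (nat_lit 0)) (M (nat_lit 16698236979775))) (P (nat_lit 0)))))))), (T.h (T.h (T.h (P (nat_lit 24899144984106667798874124451840)) (T.h (P (nat_lit 0)) (T.h (P (nat_lit 68634235621916681403629568)) (T.h (P (nat_lit 0)) (T.h (P (nat_lit 151681002172447719424)) (T.h (P (nat_lit 0)) (M (nat_lit 63026755876031)))))))) (T.h (P (nat_lit 0)) (T.h (T.h (P (nat_lit 47839095356928101906907136)) (T.h (P (nat_lit 0)) (T.h (M (nat_lit 2289326733549109247)) (T.h (P (nat_lit 0)) (M (nat_lit 25799040662399)))))) (T.h (P (nat_lit 0)) (T.h (T.h (M (nat_lit 94822121564283076607))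 (T.h (P (nat_lit 0)) (M (nat_lit 37685973642911)))) (T.h (P (nat_lit 0)) (M (nat_lit 18998572290527)))))))) (T.h (T.h (P (nat_lit 0)) (T.h (T.h (P (nat_lit 0)) (T.h (P (nat_lit 137304566987107078242304)) (T.h (P (nat_lit 0)) (M (nat_lit 1537276644687216639))))) (T.h (P (nat_lit 0)) (T.h (T.h (P (nat_lit 0)) (M (nat_lit 1277752295594328063))) (P (nat_lit 0)))))) (T.h (T.h (T.h (P (nat_lit 47839095356928101906907136)) (T.h (P (nat_lit 0)) (T.h (M (nat_lit 2289326733549109247)) (T.h (P (nat_lit 0)) (M (nat_lit 25799040662399)))))) (T.h (P (nat_lit 0)) (T.h (T.h (P (nat_lit 597862757806167293952)) (T.h (P (nat_lit 0)) (M (nat_lit 43176989827583)))) (T.h (P (nat_lit 0)) (P (nat_lit 223956827530560)))))) (T.h (T.h (P (nat_lit 0)) (T.h (T.h (P (nat_lit 0)) (M (nat_lit 1277752295594328063))) (P (nat_lit 0)))) (T.h (T.h (T.h (M (nat_lit 94822121564283076607)) (T.h (P (nat_lit 0)) (M (nat_lit 37685973642911)))) (T.h (P (nat_lit 0)) (P (nat_lit 223956827530560))))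 (T.h (P (nat_lit 0)) (M (nat_lit 18998572290527)))))))), (T.h (T.h (T.h (P (nat_lit 0)) (T.h (P (nat_lit 40673650172555421235548258304)) (T.h (P (nat_lit 0)) (T.h (M (nat_lit 39691277316547544088575)) (T.h (P (nat_lit 0)) (M (nat_lit 344924957231022079))))))) (T.h (P (nat_lit 0)) (T.h (T.h (P (nat_lit 0)) (T.h (P (nat_lit 31235241777793930887168)) (T.h (P (nat_lit 0)) (M (nat_lit 101253847821844479))))) (T.h (P (nat_lit 0)) (T.h (T.h (P (nat_lit 0)) (M (nat_lit 172145843293405183))) (P (nat_lit 0))))))) (T.h (T.h (P (nat_lit 0)) (T.h (T.h (P (nat_lit 200813700968121880197201920)) (T.h (P (nat_lit 0)) (T.h (P (nat_lit 1865746472162633449472)) (T.h (P (nat_lit 0)) (M (nat_lit 986805341522495)))))) (T.h (P (nat_lit 0)) (T.h (T.h (P (nat_lit 20604669780283097088)) (T.h (P (nat_lit 0)) (M (nat_lit 293166967247135)))) (T.h (P (nat_lit 0)) (M (nat_lit 51266425482431))))))) (T.h (T.h (T.h (P (nat_lit 0)) (T.h (P (nat_lit 31235241777793930887168)) (T.h (P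 (nat_lit 0)) (M (nat_lit 101253847821844479))))) (T.h (P (nat_lit 0)) (T.h (T.h (P (nat_lit 0)) (M (nat_lit 747190396495724543))) (P (nat_lit 0))))) (T.h (T.h (P (nat_lit 0)) (T.h (T.h (P (nat_lit 20604669780283097088)) (T.h (P (nat_lit 0)) (M (nat_lit 293166967247135)))) (T.h (P (nat_lit 0)) (P (nat_lit 159986344880448))))) (T.h (T.h (T.h (P (nat_lit 0)) (M (nat_lit 172145843293405183))) (P (nat_lit 0))) (T.h (T.h (P (nat_lit 0)) (M (nat_lit 51266425482431))) (P (nat_lit 0)))))))), (T.h (T.h (T.h (P (nat_lit 13913628505482159896886761226240)) (T.h (P (nat_lit 0)) (T.h (P (nat_lit 15671705044015310469857280)) (T.h (P (nat_lit 0)) (P (nat_lit 381206914555176812544)))))) (T.h (P (nat_lit 0)) (T.h (T.h (P (nat_lit 22347070315783311329329152)) (T.h (P (nat_lit 0)) (P (nat_lit 613330864647744520192)))) (T.h (P (nat_lit 0)) (P (nat_lit 30377082006527803392)))))) (T.h (T.h (P (nat_lit 0)) (T.h (T.h (P (nat_lit 0)) (T.h (M (nat_lit 491777458160134256590847))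 (T.h (P (nat_lit 0)) (P (nat_lit 562310795927093248))))) (T.h (P (nat_lit 0)) (T.h (T.h (P (nat_lit 0)) (P (nat_lit 408303616810483712))) (P (nat_lit 0)))))) (T.h (T.h (T.h (P (nat_lit 22347070315783311329329152)) (T.h (P (nat_lit 0)) (P (nat_lit 613330864647744520192)))) (T.h (P (nat_lit 0)) (P (nat_lit 178325922706018533376)))) (T.h (T.h (P (nat_lit 0)) (T.h (T.h (P (nat_lit 0)) (P (nat_lit 408303616810483712))) (P (nat_lit 0)))) (P (nat_lit 30377082006527803392))))))]
def lP11_25 : List (T ℤ) := [(T.h (T.h (P (nat_lit 0)) (T.h (T.h (P (nat_lit 0)) (T.h (M (nat_lit 2310389944728478820597759)) (T.h (P (nat_lit 0)) (T.h (M (nat_lit 6271557334242164735)) (T.h (P (nat_lit 0)) (M (nat_lit 10114432291911))))))) (T.h (P (nat_lit 0)) (T.h (T.h (P (nat_lit 0)) (T.h (P (nat_lit 2000088618483318784)) (T.h (P (nat_lit 0)) (P (nat_lit 21459189559168))))) (T.h (P (nat_lit 0)) (T.h (T.h (P (nat_lit 0)) (P (nat_lit 24527691466296))) (P (nat_lit 0)))))))) (T.h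 (T.h (T.h (P (nat_lit 1045850818948769630476304384)) (T.h (P (nat_lit 0)) (T.h (P (nat_lit 14114756792398624325632)) (T.h (P (nat_lit 0)) (M (nat_lit 8809992696004607)))))) (T.h (P (nat_lit 0)) (T.h (T.h (M (nat_lit 66262344181358746664959)) (T.h (P (nat_lit 0)) (P (nat_lit 6363219857768448)))) (T.h (P (nat_lit 0)) (P (nat_lit 105275622569213952)))))) (T.h (T.h (P (nat_lit 0)) (T.h (T.h (P (nat_lit 0)) (T.h (M (nat_lit 128546003020681314303)) (T.h (P (nat_lit 0)) (P (nat_lit 81363724011496))))) (T.h (P (nat_lit 0)) (T.h (T.h (P (nat_lit 0)) (P (nat_lit 49256574379456))) (P (nat_lit 0)))))) (T.h (T.h (T.h (P (nat_lit 11065493470585011830784)) (T.h (P (nat_lit 0)) (M (nat_lit 46915988397752319)))) (T.h (P (nat_lit 0)) (P (nat_lit 105498906374373376)))) (T.h (T.h (P (nat_lit 0)) (T.h (T.h (P (nat_lit 0)) (M (nat_lit 72482620323271))) (P (nat_lit 0)))) (M (nat_lit 50996580505223167))))))), (T.h (T.h (P (nat_lit 0)) (T.h (T.h (M (nat_lit 1808498977183349276374204415))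 (T.h (P (nat_lit 0)) (T.h (P (nat_lit 80479554190437311840256)) (T.h (P (nat_lit 0)) (P (nat_lit 79154771293306880)))))) (T.h (P (nat_lit 0)) (T.h (T.h (P (nat_lit 52699577966004013105152)) (T.h (P (nat_lit 0)) (P (nat_lit 224878831080914944)))) (T.h (P (nat_lit 0)) (M (nat_lit 58388150225797119))))))) (T.h (T.h (T.h (P (nat_lit 0)) (T.h (P (nat_lit 2768201337103094367911936)) (T.h (P (nat_lit 0)) (T.h (M (nat_lit 121630086042107248639)) (T.h (P (nat_lit 0)) (M (nat_lit 16694554697487))))))) (T.h (P (nat_lit 0)) (T.h (T.h (P (nat_lit 0)) (T.h (P (nat_lit 633881676658585370624)) (T.h (P (nat_lit 0)) (P (nat_lit 85017916153568))))) (T.h (P (nat_lit 0)) (T.h (T.h (P (nat_lit 0)) (P (nat_lit 20283370080496))) (P (nat_lit 0))))))) (T.h (T.h (P (nat_lit 0)) (T.h (T.h (P (nat_lit 160890118431974772178944)) (T.h (P (nat_lit 0)) (M (nat_lit 1031172992607715327)))) (T.h (P (nat_lit 0)) (P (nat_lit 529330318351400960))))) (T.h (T.h (T.h (P (nat_lit 0)) (T.h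 (M (nat_lit 262416591941940543487)) (T.h (P (nat_lit 0)) (P (nat_lit 7552521380832))))) (T.h (P (nat_lit 0)) (T.h (T.h (P (nat_lit 0)) (P (nat_lit 249167983896304))) (P (nat_lit 0))))) (T.h (T.h (P (nat_lit 0)) (P (nat_lit 15069221556994048))) (T.h (T.h (T.h (P (nat_lit 0)) (M (nat_lit 24021944782415))) (P (nat_lit 0))) (P (nat_lit 0)))))))), (T.h (T.h (P (nat_lit 0)) (T.h (T.h (P (nat_lit 0)) (T.h (P (nat_lit 316972042487873008213950464)) (T.h (P (nat_lit 0)) (T.h (P (nat_lit 585606291817637085184)) (T.h (P (nat_lit 0)) (M (nat_lit 68954946376031))))))) (T.h (P (nat_lit 0)) (T.h (T.h (P (nat_lit 0)) (T.h (M (nat_lit 377818869842202066943)) (T.h (P (nat_lit 0)) (P (nat_lit 287039911349856))))) (T.h (P (nat_lit 0)) (T.h (T.h (P (nat_lit 0)) (M (nat_lit 189432346881935))) (P (nat_lit 0)))))))) (T.h (T.h (T.h (M (nat_lit 12032021371156596681519136767)) (T.h (P (nat_lit 0)) (T.h (P (nat_lit 476186040661101512753152)) (T.h (P (nat_lit 0)) (M (nat_lit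 422236491253940223)))))) (T.h (P (nat_lit 0)) (T.h (T.h (M (nat_lit 157337932506424871485439)) (T.h (P (nat_lit 0)) (M (nat_lit 397362962484396031)))) (T.h (P (nat_lit 0)) (M (nat_lit 709374484074921983)))))) (T.h (T.h (P (nat_lit 0)) (T.h (T.h (P (nat_lit 0)) (T.h (P (nat_lit 1322545403081254764544)) (T.h (P (nat_lit 0)) (P (nat_lit 102501963535680))))) (T.h (P (nat_lit 0)) (T.h (T.h (P (nat_lit 0)) (M (nat_lit 375385171935791))) (P (nat_lit 0)))))) (T.h (T.h (T.h (M (nat_lit 889584134380146655231)) (T.h (P (nat_lit 0)) (P (nat_lit 615821914529857536)))) (T.h (P (nat_lit 0)) (P (nat_lit 1345045415245119488)))) (T.h (T.h (P (nat_lit 0)) (T.h (T.h (P (nat_lit 0)) (P (nat_lit 84935016016176))) (P (nat_lit 0)))) (P (nat_lit 125291518135107584))))))), (T.h (T.h (P (nat_lit 0)) (T.h (T.h (P (nat_lit 12028536107894914256820240384)) (T.h (P (nat_lit 0)) (T.h (M (nat_lit 110753031696768351338495)) (T.h (P (nat_lit 0)) (M (nat_lit 122451746158608383))))))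 (T.h (P (nat_lit 0)) (T.h (T.h (M (nat_lit 46685886003765909127167)) (T.h (P (nat_lit 0)) (P (nat_lit 6537240484593664)))) (T.h (P (nat_lit 0)) (M (nat_lit 196876010285465599))))))) (T.h (T.h (T.h (P (nat_lit 0)) (T.h (M (nat_lit 33694261544999099226390527)) (T.h (P (nat_lit 0)) (T.h (P (nat_lit 175798943594649223168)) (T.h (P (nat_lit 0)) (P (nat_lit 346233505605120))))))) (T.h (P (nat_lit 0)) (T.h (T.h (P (nat_lit 0)) (T.h (P (nat_lit 1568643296083048398848)) (T.h (P (nat_lit 0)) (M (nat_lit 1038291398449487))))) (T.h (P (nat_lit 0)) (T.h (T.h (P (nat_lit 0)) (M (nat_lit 932773171568831))) (P (nat_lit 0))))))) (T.h (T.h (P (nat_lit 0)) (T.h (T.h (M (nat_lit 213339843520543624003583)) (T.h (P (nat_lit 0)) (M (nat_lit 341346496037289983)))) (T.h (P (nat_lit 0)) (P (nat_lit 230855324925116416))))) (T.h (T.h (T.h (P (nat_lit 0)) (T.h (M (nat_lit 101717844960955334655)) (T.h (P (nat_lit 0)) (M (nat_lit 19573388380223))))) (T.h (P (nat_lit 0)) (T.h (T.h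 (P (nat_lit 0)) (M (nat_lit 956830296593519))) (P (nat_lit 0))))) (T.h (T.h (P (nat_lit 0)) (M (nat_lit 22788379527593983))) (T.h (T.h (T.h (P (nat_lit 0)) (P (nat_lit 277842323649024))) (P (nat_lit 0))) (P (nat_lit 0)))))))), (T.h (T.h (P (nat_lit 0)) (T.h (T.h (P (nat_lit 0)) (T.h (M (nat_lit 14156786543232229258035199)) (T.h (P (nat_lit 0)) (P (nat_lit 291755589510365184000))))) (T.h (P (nat_lit 0)) (T.h (T.h (P (nat_lit 0)) (P (nat_lit 67880450572645564416))) (P (nat_lit 0)))))) (T.h (T.h (T.h (M (nat_lit 15304403450844262157386776575)) (T.h (P (nat_lit 0)) (T.h (P (nat_lit 275135551730762599366656)) (T.h (P (nat_lit 0)) (M (nat_lit 124639793356668927)))))) (T.h (P (nat_lit 0)) (T.h (T.h (M (nat_lit 444656523572546264629247)) (T.h (P (nat_lit 0)) (P (nat_lit 694833859304128512)))) (T.h (P (nat_lit 0)) (P (nat_lit 213372225483440128)))))) (T.h (T.h (P (nat_lit 0)) (T.h (T.h (P (nat_lit 0)) (P (nat_lit 91973834503303987200))) (P (nat_lit 0))))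 (T.h (T.h (T.h (P (nat_lit 33756919650715286110208)) (T.h (P (nat_lit 0)) (M (nat_lit 10880302569553919)))) (T.h (P (nat_lit 0)) (M (nat_lit 15054957163479039)))) (T.h (P (nat_lit 0)) (M (nat_lit 108740723189809151))))))), (T.h (T.h (T.h (P (nat_lit 0)) (T.h (P (nat_lit 13104509293159488922956333056)) (T.h (P (nat_lit 0)) (T.h (M (nat_lit 8183322561133733216255)) (T.h (P (nat_lit 0)) (P (nat_lit 3185419634851840))))))) (T.h (P (nat_lit 0)) (T.h (T.h (P (nat_lit 0)) (T.h (M (nat_lit 26957485890468973641727)) (T.h (P (nat_lit 0)) (P (nat_lit 41569820521021440))))) (T.h (P (nat_lit 0)) (T.h (T.h (P (nat_lit 0)) (M (nat_lit 72261525984329727))) (P (nat_lit 0))))))) (T.h (T.h (P (nat_lit 0)) (T.h (T.h (M (nat_lit 18179769838870498853781503)) (T.h (P (nat_lit 0)) (T.h (M (nat_lit 4274468170930061311)) (T.h (P (nat_lit 0)) (P (nat_lit 184839318268800)))))) (T.h (P (nat_lit 0)) (T.h (T.h (M (nat_lit 122988291503125692415)) (T.h (P (nat_lit 0)) (P (nat_lit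 67321417156000)))) (T.h (P (nat_lit 0)) (M (nat_lit 319428107412175))))))) (T.h (T.h (T.h (P (nat_lit 0)) (T.h (M (nat_lit 25950504218981834948607)) (T.h (P (nat_lit 0)) (P (nat_lit 27718409163718656))))) (T.h (P (nat_lit 0)) (T.h (T.h (P (nat_lit 0)) (M (nat_lit 51767154953715711))) (P (nat_lit 0))))) (T.h (T.h (P (nat_lit 0)) (T.h (T.h (M (nat_lit 209972500408748212223)) (T.h (P (nat_lit 0)) (P (nat_lit 55762231838416)))) (T.h (P (nat_lit 0)) (M (nat_lit 379943813725007))))) (T.h (T.h (T.h (P (nat_lit 0)) (P (nat_lit 52028122631192576))) (P (nat_lit 0))) (T.h (T.h (P (nat_lit 0)) (P (nat_lit 14342743125232))) (P (nat_lit 0)))))))), (T.h (T.h (T.h (P (nat_lit 2997439389140727423209392046080)) (T.h (P (nat_lit 0)) (T.h (P (nat_lit 21979810714823706965704704)) (T.h (P (nat_lit 0)) (T.h (P (nat_lit 40782294402191065088)) (T.h (P (nat_lit 0)) (P (nat_lit 11242220223216)))))))) (T.h (P (nat_lit 0)) (T.h (T.h (P (nat_lit 35977216366941970284675072)) (T.h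 (P (nat_lit 0)) (T.h (P (nat_lit 225656022705016668160)) (T.h (P (nat_lit 0)) (M (nat_lit 740058833039)))))) (T.h (P (nat_lit 0)) (T.h (T.h (P (nat_lit 140520015652775264256)) (T.h (P (nat_lit 0)) (P (nat_lit 204575962751184)))) (T.h (P (nat_lit 0)) (M (nat_lit 25785911420447)))))))) (T.h (T.h (P (nat_lit 0)) (T.h (T.h (P (nat_lit 0)) (T.h (P (nat_lit 198010967556975059009536)) (T.h (P (nat_lit 0)) (P (nat_lit 670266917546426368))))) (T.h (P (nat_lit 0)) (T.h (T.h (P (nat_lit 0)) (M (nat_lit 1287842794714234879))) (P (nat_lit 0)))))) (T.h (T.h (T.h (M (nat_lit 54967093526639888864116735)) (T.h (P (nat_lit 0)) (T.h (M (nat_lit 6923652398082686975)) (T.h (P (nat_lit 0)) (P (nat_lit 51730078582032)))))) (T.h (P (nat_lit 0)) (T.h (T.h (M (nat_lit 1762622514959992487935)) (T.h (P (nat_lit 0)) (M (nat_lit 73575646358879)))) (T.h (P (nat_lit 0)) (M (nat_lit 57066838422287)))))) (T.h (T.h (P (nat_lit 0)) (T.h (T.h (P (nat_lit 0)) (M (nat_lit 1063261266915491839)))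 (P (nat_lit 0)))) (T.h (T.h (T.h (P (nat_lit 87868705848145477632)) (T.h (P (nat_lit 0)) (P (nat_lit 63617011562544)))) (T.h (P (nat_lit 0)) (M (nat_lit 250495927025999)))) (T.h (P (nat_lit 0)) (M (nat_lit 32785963362287)))))))), (T.h (T.h (T.h (P (nat_lit 0)) (T.h (M (nat_lit 18546290553820891719934148607)) (T.h (P (nat_lit 0)) (T.h (M (nat_lit 22341720632500368179199)) (T.h (P (nat_lit 0)) (M (nat_lit 30280732615884799))))))) (T.h (P (nat_lit 0)) (T.h (T.h (P (nat_lit 0)) (T.h (M (nat_lit 325952085450701739655167)) (T.h (P (nat_lit 0)) (M (nat_lit 733288907609882623))))) (T.h (P (nat_lit 0)) (T.h (T.h (P (nat_lit 0)) (P (nat_lit 404521232251764736))) (P (nat_lit 0))))))) (T.h (T.h (P (nat_lit 0)) (T.h (T.h (M (nat_lit 200019581407957227222859775)) (T.h (P (nat_lit 0)) (T.h (P (nat_lit 520332264399049850880)) (T.h (P (nat_lit 0)) (M (nat_lit 652272875091791)))))) (T.h (P (nat_lit 0)) (T.h (T.h (M (nat_lit 177452651307989991423)) (T.h (P (nat_lit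 0)) (M (nat_lit 370281257012735)))) (T.h (P (nat_lit 0)) (P (nat_lit 426040037735472))))))) (T.h (T.h (T.h (P (nat_lit 0)) (T.h (M (nat_lit 210437898605301061386239)) (T.h (P (nat_lit 0)) (P (nat_lit 155420708231987200))))) (T.h (P (nat_lit 0)) (T.h (T.h (P (nat_lit 0)) (P (nat_lit 552192088727060480))) (P (nat_lit 0))))) (T.h (T.h (P (nat_lit 0)) (T.h (T.h (P (nat_lit 284957924321170292736)) (T.h (P (nat_lit 0)) (M (nat_lit 715576709790719)))) (T.h (P (nat_lit 0)) (M (nat_lit 139875434361503))))) (T.h (T.h (T.h (P (nat_lit 0)) (P (nat_lit 119309821179199488))) (P (nat_lit 0))) (T.h (T.h (P (nat_lit 0)) (P (nat_lit 343761685065648))) (P (nat_lit 0))))))))]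
def lP11_26 : List (T ℤ) := [(T.h (T.h (T.h (M (nat_lit 8062519416909645403126147055615)) (T.h (P (nat_lit 0)) (T.h (M (nat_lit 127752026040341769536667647)) (T.h (P (nat_lit 0)) (P (nat_lit 103829370062434729984)))))) (T.h (P (nat_lit 0)) (T.h (T.h (M (nat_lit 132428481680192094934663167)) (T.h (P (nat_lit 0)) (P (nat_lit 219410751602894569472)))) (T.h (P (nat_lit 0)) (P (nat_lit 263148277978831519744)))))) (T.h (T.h (P (nat_lit 0)) (T.h (T.h (P (nat_lit 0)) (T.h (M (nat_lit 881153977836019529023487)) (T.h (P (nat_lit 0)) (P (nat_lit 1381881065414066176))))) (T.h (P (nat_lit 0)) (T.h (T.h (P (nat_lit 0)) (P (nat_lit 1455658698815504384))) (P (nat_lit 0)))))) (T.h (T.h (T.h (M (nat_lit 130429572048274419473186815)) (T.h (P (nat_lit 0)) (M (nat_lit 388000715452236955647)))) (T.h (P (nat_lit 0)) (M (nat_lit 560407240565642493951)))) (T.h (T.h (P (nat_lit 0)) (T.h (T.h (P (nat_lit 0)) (P (nat_lit 1375429153100333056))) (P (nat_lit 0)))) (P (nat_lit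 71637353346579300352)))))), (T.h (T.h (P (nat_lit 0)) (T.h (T.h (P (nat_lit 0)) (T.h (M (nat_lit 17906246140690551118233599)) (T.h (P (nat_lit 0)) (T.h (P (nat_lit 14491939499531042816)) (T.h (P (nat_lit 0)) (P (nat_lit 2541833823312))))))) (T.h (P (nat_lit 0)) (T.h (T.h (P (nat_lit 0)) (T.h (P (nat_lit 462682744916455456768)) (T.h (P (nat_lit 0)) (M (nat_lit 81686441951))))) (T.h (P (nat_lit 0)) (T.h (T.h (P (nat_lit 0)) (M (nat_lit 75593636964767))) (P (nat_lit 0)))))))) (T.h (T.h (T.h (P (nat_lit 32820189050558047296543522816)) (T.h (P (nat_lit 0)) (T.h (P (nat_lit 29953871756365303644160)) (T.h (P (nat_lit 0)) (M (nat_lit 60169700583014399)))))) (T.h (P (nat_lit 0)) (T.h (T.h (P (nat_lit 655956070507653271388160)) (T.h (P (nat_lit 0)) (M (nat_lit 237070253261619199)))) (T.h (P (nat_lit 0)) (P (nat_lit 601828279577083904)))))) (T.h (T.h (P (nat_lit 0)) (T.h (T.h (P (nat_lit 0)) (T.h (P (nat_lit 31554473888527155200)) (T.h (P (nat_lit 0)) (M (nat_lit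 48576800164079))))) (T.h (P (nat_lit 0)) (T.h (T.h (P (nat_lit 0)) (M (nat_lit 117194776813199))) (P (nat_lit 0)))))) (T.h (T.h (T.h (M (nat_lit 70924678006650984988671)) (T.h (P (nat_lit 0)) (P (nat_lit 19997091208003584)))) (T.h (P (nat_lit 0)) (M (nat_lit 297089124101226495)))) (T.h (T.h (P (nat_lit 0)) (T.h (T.h (P (nat_lit 0)) (P (nat_lit 31771604010672))) (P (nat_lit 0)))) (M (nat_lit 21390266879737855))))))), (T.h (T.h (P (nat_lit 0)) (T.h (T.h (P (nat_lit 57334956632206068234512760832)) (T.h (P (nat_lit 0)) (T.h (M (nat_lit 126264821811926481764351)) (T.h (P (nat_lit 0)) (P (nat_lit 43498547229081600)))))) (T.h (P (nat_lit 0)) (T.h (T.h (M (nat_lit 22946034514349921402879)) (T.h (P (nat_lit 0)) (P (nat_lit 76914468636770304)))) (T.h (P (nat_lit 0)) (M (nat_lit 6174633086484479))))))) (T.h (T.h (T.h (P (nat_lit 0)) (T.h (P (nat_lit 47134690066140657000382464)) (T.h (P (nat_lit 0)) (T.h (M (nat_lit 146591178902344826879)) (T.h (P (nat_lit 0))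 (M (nat_lit 34225337244095))))))) (T.h (P (nat_lit 0)) (T.h (T.h (P (nat_lit 0)) (T.h (M (nat_lit 118390842734751514623)) (T.h (P (nat_lit 0)) (M (nat_lit 33891551588303))))) (T.h (P (nat_lit 0)) (T.h (T.h (P (nat_lit 0)) (M (nat_lit 138476424798719))) (P (nat_lit 0))))))) (T.h (T.h (P (nat_lit 0)) (T.h (T.h (M (nat_lit 23678009988151209099263)) (T.h (P (nat_lit 0)) (M (nat_lit 172926202385072127)))) (T.h (P (nat_lit 0)) (M (nat_lit 147403615803752447))))) (T.h (T.h (T.h (P (nat_lit 0)) (T.h (P (nat_lit 130925609653259730944)) (T.h (P (nat_lit 0)) (M (nat_lit 5821078652063))))) (T.h (P (nat_lit 0)) (T.h (T.h (P (nat_lit 0)) (M (nat_lit 115352653444271))) (P (nat_lit 0))))) (T.h (T.h (P (nat_lit 0)) (M (nat_lit 56164819401932799))) (T.h (T.h (T.h (P (nat_lit 0)) (P (nat_lit 34165844712000))) (P (nat_lit 0))) (P (nat_lit 0)))))))), (T.h (T.h (P (nat_lit 0)) (T.h (T.h (P (nat_lit 0)) (T.h (M (nat_lit 80646483748371014887669759)) (T.h (P (nat_lit 0))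 (P (nat_lit 154905204815516663808))))) (T.h (P (nat_lit 0)) (T.h (T.h (P (nat_lit 0)) (M (nat_lit 285708444077886799871))) (P (nat_lit 0)))))) (T.h (T.h (T.h (P (nat_lit 5875853749117232861644062720)) (T.h (P (nat_lit 0)) (T.h (M (nat_lit 352533966064873799417855)) (T.h (P (nat_lit 0)) (P (nat_lit 147436560602660864)))))) (T.h (P (nat_lit 0)) (T.h (T.h (P (nat_lit 597819730065066370793472)) (T.h (P (nat_lit 0)) (P (nat_lit 282409478345752576)))) (T.h (P (nat_lit 0)) (M (nat_lit 319383543968333823)))))) (T.h (T.h (P (nat_lit 0)) (T.h (T.h (P (nat_lit 0)) (M (nat_lit 186387387886570831871))) (P (nat_lit 0)))) (T.h (T.h (T.h (P (nat_lit 86100508455794164891648)) (T.h (P (nat_lit 0)) (P (nat_lit 127452087531929600)))) (T.h (P (nat_lit 0)) (P (nat_lit 114884661064007680)))) (T.h (P (nat_lit 0)) (M (nat_lit 149520828772483071))))))), (T.h (T.h (T.h (P (nat_lit 0)) (T.h (P (nat_lit 4278235791915474555326431232)) (T.h (P (nat_lit 0)) (T.h (P (nat_lit 1181616625314120597504))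 (T.h (P (nat_lit 0)) (P (nat_lit 1301651849396224))))))) (T.h (P (nat_lit 0)) (T.h (T.h (P (nat_lit 0)) (T.h (M (nat_lit 13006323777302628925439)) (T.h (P (nat_lit 0)) (M (nat_lit 31228671951372287))))) (T.h (P (nat_lit 0)) (T.h (T.h (P (nat_lit 0)) (P (nat_lit 515822917455380480))) (P (nat_lit 0))))))) (T.h (T.h (P (nat_lit 0)) (T.h (T.h (P (nat_lit 14795371198544497963171840)) (T.h (P (nat_lit 0)) (T.h (M (nat_lit 12128178767210217471)) (T.h (P (nat_lit 0)) (M (nat_lit 217942570490831)))))) (T.h (P (nat_lit 0)) (T.h (T.h (P (nat_lit 311146838530025586688)) (T.h (P (nat_lit 0)) (M (nat_lit 269427358060127)))) (T.h (P (nat_lit 0)) (P (nat_lit 728429147867808))))))) (T.h (T.h (T.h (P (nat_lit 0)) (T.h (M (nat_lit 6192423240092853731327)) (T.h (P (nat_lit 0)) (P (nat_lit 29633747002753024))))) (T.h (P (nat_lit 0)) (T.h (T.h (P (nat_lit 0)) (P (nat_lit 58043018223009792))) (P (nat_lit 0))))) (T.h (T.h (P (nat_lit 0)) (T.h (T.h (M (nat_lit 36731959723782307839))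 (T.h (P (nat_lit 0)) (P (nat_lit 113963383640880)))) (T.h (P (nat_lit 0)) (P (nat_lit 341173095534576))))) (T.h (T.h (T.h (P (nat_lit 0)) (M (nat_lit 74476136598421503))) (P (nat_lit 0))) (T.h (T.h (P (nat_lit 0)) (M (nat_lit 157227515260415))) (P (nat_lit 0)))))))), (T.h (T.h (T.h (P (nat_lit 3568522950374117388076961497088)) (T.h (P (nat_lit 0)) (T.h (P (nat_lit 14818236701183997791698944)) (T.h (P (nat_lit 0)) (P (nat_lit 4664360011533647872)))))) (T.h (P (nat_lit 0)) (T.h (T.h (M (nat_lit 45137227535358847854051327)) (T.h (P (nat_lit 0)) (M (nat_lit 174296638974171545599)))) (T.h (P (nat_lit 0)) (M (nat_lit 10805402706500386815)))))) (T.h (T.h (P (nat_lit 0)) (T.h (T.h (P (nat_lit 0)) (T.h (M (nat_lit 115370406155700026736639)) (T.h (P (nat_lit 0)) (P (nat_lit 171971654305644544))))) (T.h (P (nat_lit 0)) (T.h (T.h (P (nat_lit 0)) (P (nat_lit 101693486531149824))) (P (nat_lit 0)))))) (T.h (T.h (T.h (P (nat_lit 17495782709116647728218112)) (T.h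 (P (nat_lit 0)) (P (nat_lit 43090105752503713792)))) (T.h (P (nat_lit 0)) (P (nat_lit 605521353194365517824)))) (T.h (T.h (P (nat_lit 0)) (T.h (T.h (P (nat_lit 0)) (P (nat_lit 178423566619377664))) (P (nat_lit 0)))) (P (nat_lit 36856376727389077504)))))), (T.h (T.h (P (nat_lit 0)) (T.h (T.h (P (nat_lit 0)) (T.h (M (nat_lit 13558008741155526747881471)) (T.h (P (nat_lit 0)) (P (nat_lit 10023541221852446720))))) (T.h (P (nat_lit 0)) (T.h (T.h (P (nat_lit 0)) (M (nat_lit 361137656098226962431))) (P (nat_lit 0)))))) (T.h (T.h (T.h (M (nat_lit 20080434620500704876793167871)) (T.h (P (nat_lit 0)) (T.h (M (nat_lit 4367733539575680729087)) (T.h (P (nat_lit 0)) (P (nat_lit 65194660423303168)))))) (T.h (P (nat_lit 0)) (T.h (T.h (M (nat_lit 346295401906182744440831)) (T.h (P (nat_lit 0)) (P (nat_lit 216159424549486592)))) (T.h (P (nat_lit 0)) (M (nat_lit 898384892327428095)))))) (T.h (T.h (P (nat_lit 0)) (T.h (T.h (P (nat_lit 0)) (P (nat_lit 41365865863023951872)))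 (P (nat_lit 0)))) (T.h (T.h (T.h (P (nat_lit 21977834653170465243136)) (T.h (P (nat_lit 0)) (M (nat_lit 35241709110263807)))) (T.h (P (nat_lit 0)) (M (nat_lit 226150079781830655)))) (T.h (P (nat_lit 0)) (P (nat_lit 52022620114190336))))))), (P (nat_lit 0))]
def lP11_27 : List (T ℤ) := [(P (nat_lit 0)), (T.h (T.h (T.h (P (nat_lit 0)) (T.h (M (nat_lit 2446445817314079046260228095)) (T.h (P (nat_lit 0)) (T.h (P (nat_lit 14113606204607447433216)) (T.h (P (nat_lit 0)) (M (nat_lit 14427111626145791))))))) (T.h (P (nat_lit 0)) (T.h (T.h (P (nat_lit 0)) (T.h (P (nat_lit 3729586567560768258048)) (T.h (P (nat_lit 0)) (P (nat_lit 1902440084045824))))) (T.h (P (nat_lit 0)) (T.h (T.h (P (nat_lit 0)) (M (nat_lit 17775016194080767))) (P (nat_lit 0))))))) (T.h (T.h (P (nat_lit 0)) (T.h (T.h (P (nat_lit 6034124902302266928660480)) (T.h (P (nat_lit 0)) (T.h (P (nat_lit 93185734165020016640)) (T.h (P (nat_lit 0)) (P (nat_lit 17695890957600)))))) (T.h (P (nat_lit 0))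 (T.h (T.h (P (nat_lit 2800396035392798720)) (T.h (P (nat_lit 0)) (M (nat_lit 16412332180447)))) (T.h (P (nat_lit 0)) (P (nat_lit 9180840934728))))))) (T.h (T.h (T.h (P (nat_lit 0)) (T.h (P (nat_lit 9524129684993658060800)) (T.h (P (nat_lit 0)) (P (nat_lit 46263438480408576))))) (T.h (P (nat_lit 0)) (T.h (T.h (P (nat_lit 0)) (M (nat_lit 32332720980328447))) (P (nat_lit 0))))) (T.h (T.h (P (nat_lit 0)) (T.h (T.h (M (nat_lit 2708072234307551231)) (T.h (P (nat_lit 0)) (P (nat_lit 16120243369672)))) (T.h (P (nat_lit 0)) (P (nat_lit 13956825122808))))) (T.h (T.h (T.h (P (nat_lit 0)) (P (nat_lit 14579344540237824))) (P (nat_lit 0))) (T.h (T.h (P (nat_lit 0)) (M (nat_lit 33957735906503))) (P (nat_lit 0)))))))), (T.h (T.h (T.h (P (nat_lit 10240767002178687954892823199744)) (T.h (P (nat_lit 0)) (T.h (P (nat_lit 12058186289434892836012032)) (T.h (P (nat_lit 0)) (T.h (M (nat_lit 2233296166391382015)) (T.h (P (nat_lit 0)) (P (nat_lit 33595231580112)))))))) (T.h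 (P (nat_lit 0)) (T.h (T.h (P (nat_lit 1874529792743809499529216)) (T.h (P (nat_lit 0)) (T.h (M (nat_lit 51208003868654829567)) (T.h (P (nat_lit 0)) (P (nat_lit 52052519111328)))))) (T.h (P (nat_lit 0)) (T.h (T.h (M (nat_lit 541262488075763711)) (T.h (P (nat_lit 0)) (M (nat_lit 4136082018047)))) (T.h (P (nat_lit 0)) (M (nat_lit 1226078413135)))))))) (T.h (T.h (P (nat_lit 0)) (T.h (T.h (P (nat_lit 0)) (T.h (P (nat_lit 9916637199665389895680)) (T.h (P (nat_lit 0)) (M (nat_lit 8549900743704575))))) (T.h (P (nat_lit 0)) (T.h (T.h (P (nat_lit 0)) (M (nat_lit 9230042037944319))) (P (nat_lit 0)))))) (T.h (T.h (T.h (M (nat_lit 4923473558923471130460159)) (T.h (P (nat_lit 0)) (T.h (P (nat_lit 65010833342637015040)) (T.h (P (nat_lit 0)) (M (nat_lit 19123657897535)))))) (T.h (P (nat_lit 0)) (T.h (T.h (P (nat_lit 7358800448335118336)) (T.h (P (nat_lit 0)) (M (nat_lit 23507951099487)))) (T.h (P (nat_lit 0)) (P (nat_lit 3880953721632)))))) (T.h (T.h (P (nat_lit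 0)) (T.h (T.h (P (nat_lit 0)) (P (nat_lit 92963174163087360))) (P (nat_lit 0)))) (T.h (T.h (T.h (P (nat_lit 24525644828128575488)) (T.h (P (nat_lit 0)) (M (nat_lit 35834186439263)))) (T.h (P (nat_lit 0)) (M (nat_lit 2332677536639)))) (T.h (P (nat_lit 0)) (P (nat_lit 5106811990464)))))))), (T.h (T.h (T.h (P (nat_lit 0)) (T.h (M (nat_lit 13738543897078520168434368511)) (T.h (P (nat_lit 0)) (T.h (P (nat_lit 89746200216324985061376)) (T.h (P (nat_lit 0)) (M (nat_lit 42162729439887359))))))) (T.h (P (nat_lit 0)) (T.h (T.h (P (nat_lit 0)) (T.h (P (nat_lit 53116712304456398536704)) (T.h (P (nat_lit 0)) (M (nat_lit 239507379198361599))))) (T.h (P (nat_lit 0)) (T.h (T.h (P (nat_lit 0)) (P (nat_lit 13389182920425472))) (P (nat_lit 0))))))) (T.h (T.h (P (nat_lit 0)) (T.h (T.h (P (nat_lit 1682189232321638827032576)) (T.h (P (nat_lit 0)) (T.h (P (nat_lit 58648929392887070720)) (T.h (P (nat_lit 0)) (M (nat_lit 154815030088991)))))) (T.h (P (nat_lit 0)) (T.h (T.h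 (P (nat_lit 34971865101436452864)) (T.h (P (nat_lit 0)) (P (nat_lit 6806561621472)))) (T.h (P (nat_lit 0)) (M (nat_lit 2216404253375))))))) (T.h (T.h (T.h (P (nat_lit 0)) (T.h (P (nat_lit 71863826799750006439936)) (T.h (P (nat_lit 0)) (M (nat_lit 93737683484508159))))) (T.h (P (nat_lit 0)) (T.h (T.h (P (nat_lit 0)) (M (nat_lit 45237387053236223))) (P (nat_lit 0))))) (T.h (T.h (P (nat_lit 0)) (T.h (T.h (P (nat_lit 29827779157339144192)) (T.h (P (nat_lit 0)) (M (nat_lit 49743205508255)))) (T.h (P (nat_lit 0)) (M (nat_lit 3182115287471))))) (T.h (T.h (T.h (P (nat_lit 0)) (P (nat_lit 35006146232877056))) (P (nat_lit 0))) (T.h (T.h (P (nat_lit 0)) (P (nat_lit 18104669004960))) (P (nat_lit 0)))))))), (T.h (T.h (T.h (M (nat_lit 7347284730981760738617207029759)) (T.h (P (nat_lit 0)) (T.h (M (nat_lit 24986163315578777425149951)) (T.h (P (nat_lit 0)) (T.h (P (nat_lit 14892719367979532288)) (T.h (P (nat_lit 0)) (M (nat_lit 1900902457007)))))))) (T.h (P (nat_lit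 0)) (T.h (T.h (M (nat_lit 4210623603377640919007231)) (T.h (P (nat_lit 0)) (T.h (P (nat_lit 112178435325171859456)) (T.h (P (nat_lit 0)) (M (nat_lit 154054818207791)))))) (T.h (P (nat_lit 0)) (T.h (T.h (P (nat_lit 1445542280348827648)) (T.h (P (nat_lit 0)) (M (nat_lit 40633845785423)))) (T.h (P (nat_lit 0)) (P (nat_lit 2262664312560)))))))) (T.h (T.h (P (nat_lit 0)) (T.h (T.h (P (nat_lit 0)) (T.h (P (nat_lit 70258196730489203589120)) (T.h (P (nat_lit 0)) (P (nat_lit 262996897238188032))))) (T.h (P (nat_lit 0)) (T.h (T.h (P (nat_lit 0)) (P (nat_lit 12885981240885248))) (P (nat_lit 0)))))) (T.h (T.h (T.h (P (nat_lit 57923522351927671027400704)) (T.h (P (nat_lit 0)) (T.h (P (nat_lit 177177424402405392384)) (T.h (P (nat_lit 0)) (P (nat_lit 135693679464000)))))) (T.h (P (nat_lit 0)) (T.h (T.h (M (nat_lit 2352003625896640511)) (T.h (P (nat_lit 0)) (M (nat_lit 154284181097903)))) (T.h (P (nat_lit 0)) (M (nat_lit 40758030476063)))))) (T.h (T.h (P (nat_lit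 0)) (T.h (T.h (P (nat_lit 0)) (P (nat_lit 47568789769158656))) (P (nat_lit 0)))) (T.h (T.h (T.h (M (nat_lit 29989453987150036991)) (T.h (P (nat_lit 0)) (M (nat_lit 29246983189487)))) (T.h (P (nat_lit 0)) (P (nat_lit 3747522647088)))) (T.h (P (nat_lit 0)) (M (nat_lit 12383001643247)))))))), (T.h (T.h (T.h (P (nat_lit 0)) (T.h (P (nat_lit 5938840239767262457329876992)) (T.h (P (nat_lit 0)) (T.h (M (nat_lit 15260972577348049174527)) (T.h (P (nat_lit 0)) (M (nat_lit 68021766630866943))))))) (T.h (P (nat_lit 0)) (T.h (T.h (P (nat_lit 0)) (T.h (M (nat_lit 32448110580492473991167)) (T.h (P (nat_lit 0)) (P (nat_lit 176124080196288512))))) (T.h (P (nat_lit 0)) (T.h (T.h (P (nat_lit 0)) (P (nat_lit 14493620268662784))) (P (nat_lit 0))))))) (T.h (T.h (P (nat_lit 0)) (T.h (T.h (M (nat_lit 8121832179209592299847679)) (T.h (P (nat_lit 0)) (M (nat_lit 9408689513531703295)))) (T.h (P (nat_lit 0)) (M (nat_lit 6818117037345210367))))) (T.h (T.h (T.h (P (nat_lit 0))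 (T.h (M (nat_lit 83505656668972851920895)) (T.h (P (nat_lit 0)) (M (nat_lit 112761797231247359))))) (T.h (P (nat_lit 0)) (T.h (T.h (P (nat_lit 0)) (P (nat_lit 99906550954229760))) (P (nat_lit 0))))) (T.h (T.h (P (nat_lit 0)) (P (nat_lit 18589109809936596992))) (T.h (T.h (T.h (P (nat_lit 0)) (P (nat_lit 17569552337108992))) (P (nat_lit 0))) (P (nat_lit 0))))))), (P (nat_lit 0)), (P (nat_lit 0))]
def lP11_28 : List (T ℤ) := [(T.h (T.h (P (nat_lit 0)) (T.h (T.h (P (nat_lit 14383368854768177539719364608)) (T.h (P (nat_lit 0)) (T.h (M (nat_lit 32986617876956395339775)) (T.h (P (nat_lit 0)) (M (nat_lit 32984115393232895)))))) (T.h (P (nat_lit 0)) (T.h (T.h (M (nat_lit 2204895729563765571583)) (T.h (P (nat_lit 0)) (P (nat_lit 62660711568801792)))) (T.h (P (nat_lit 0)) (P (nat_lit 3366261452439552))))))) (T.h (T.h (T.h (P (nat_lit 0)) (T.h (P (nat_lit 17751721323428791827038208)) (T.h (P (nat_lit 0)) (T.h (M (nat_lit 31742617130891214847)) (T.h (P (nat_lit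 0)) (M (nat_lit 65012436277567))))))) (T.h (P (nat_lit 0)) (T.h (T.h (P (nat_lit 0)) (T.h (M (nat_lit 12180618487835656191)) (T.h (P (nat_lit 0)) (P (nat_lit 256856339610056))))) (T.h (P (nat_lit 0)) (T.h (T.h (P (nat_lit 0)) (P (nat_lit 133115458075168))) (P (nat_lit 0))))))) (T.h (T.h (P (nat_lit 0)) (T.h (T.h (M (nat_lit 23523837453691510587391)) (T.h (P (nat_lit 0)) (M (nat_lit 361315451952037887)))) (T.h (P (nat_lit 0)) (P (nat_lit 144540574879023104))))) (T.h (T.h (T.h (P (nat_lit 0)) (T.h (M (nat_lit 21355229172702642175)) (T.h (P (nat_lit 0)) (M (nat_lit 351489962257887))))) (T.h (P (nat_lit 0)) (T.h (T.h (P (nat_lit 0)) (P (nat_lit 661357504973176))) (P (nat_lit 0))))) (T.h (T.h (P (nat_lit 0)) (P (nat_lit 160969301410611200))) (T.h (T.h (T.h (P (nat_lit 0)) (M (nat_lit 72499158235039))) (P (nat_lit 0))) (P (nat_lit 0)))))))), (T.h (T.h (P (nat_lit 0)) (T.h (T.h (P (nat_lit 0)) (T.h (P (nat_lit 3580340693341382729793536)) (T.h (P (nat_lit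 0)) (T.h (M (nat_lit 276770331442141986815)) (T.h (P (nat_lit 0)) (M (nat_lit 12012813532351))))))) (T.h (P (nat_lit 0)) (T.h (T.h (P (nat_lit 0)) (T.h (M (nat_lit 135983825542308691967)) (T.h (P (nat_lit 0)) (M (nat_lit 7866646795423))))) (T.h (P (nat_lit 0)) (T.h (T.h (P (nat_lit 0)) (M (nat_lit 4685423447423))) (P (nat_lit 0)))))))) (T.h (T.h (T.h (P (nat_lit 11401952711144634565808619520)) (T.h (P (nat_lit 0)) (T.h (P (nat_lit 89621593371965055303680)) (T.h (P (nat_lit 0)) (P (nat_lit 92959733253701632)))))) (T.h (P (nat_lit 0)) (T.h (T.h (P (nat_lit 9211029130427594964992)) (T.h (P (nat_lit 0)) (M (nat_lit 948573949698473983)))) (T.h (P (nat_lit 0)) (P (nat_lit 157045282990014464)))))) (T.h (T.h (P (nat_lit 0)) (T.h (T.h (P (nat_lit 0)) (T.h (M (nat_lit 52911668563758022655)) (T.h (P (nat_lit 0)) (P (nat_lit 254418358177664))))) (T.h (P (nat_lit 0)) (T.h (T.h (P (nat_lit 0)) (P (nat_lit 90268290434928))) (P (nat_lit 0)))))) (T.h (T.h (T.h (M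 (nat_lit 349580771751851196415)) (T.h (P (nat_lit 0)) (P (nat_lit 387135896393826304)))) (T.h (P (nat_lit 0)) (P (nat_lit 82684409123340288)))) (T.h (T.h (P (nat_lit 0)) (T.h (T.h (P (nat_lit 0)) (P (nat_lit 54023327974512))) (P (nat_lit 0)))) (M (nat_lit 25174507732271103))))))), (T.h (T.h (P (nat_lit 0)) (T.h (T.h (M (nat_lit 18562684784021751830870491135)) (T.h (P (nat_lit 0)) (T.h (P (nat_lit 245565820896624710254592)) (T.h (P (nat_lit 0)) (M (nat_lit 559276618694197247)))))) (T.h (P (nat_lit 0)) (T.h (T.h (P (nat_lit 29517837160202245242880)) (T.h (P (nat_lit 0)) (M (nat_lit 434076260452663295)))) (T.h (P (nat_lit 0)) (M (nat_lit 20025180165963775))))))) (T.h (T.h (T.h (P (nat_lit 0)) (T.h (M (nat_lit 169192765945311575322656767)) (T.h (P (nat_lit 0)) (T.h (M (nat_lit 231944975521304018943)) (T.h (P (nat_lit 0)) (M (nat_lit 89014422257279))))))) (T.h (P (nat_lit 0)) (T.h (T.h (P (nat_lit 0)) (T.h (P (nat_lit 99592440577632763904)) (T.h (P (nat_lit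 0)) (M (nat_lit 326692463252447))))) (T.h (P (nat_lit 0)) (T.h (T.h (P (nat_lit 0)) (M (nat_lit 168082866176879))) (P (nat_lit 0))))))) (T.h (T.h (P (nat_lit 0)) (T.h (T.h (M (nat_lit 12091848963564075220991)) (T.h (P (nat_lit 0)) (M (nat_lit 638821902318600191)))) (T.h (P (nat_lit 0)) (M (nat_lit 148660680979709951))))) (T.h (T.h (T.h (P (nat_lit 0)) (T.h (M (nat_lit 697697792170483777535)) (T.h (P (nat_lit 0)) (P (nat_lit 222868762305024))))) (T.h (P (nat_lit 0)) (T.h (T.h (P (nat_lit 0)) (P (nat_lit 151194672219024))) (P (nat_lit 0))))) (T.h (T.h (P (nat_lit 0)) (P (nat_lit 163751868827697152))) (T.h (T.h (T.h (P (nat_lit 0)) (P (nat_lit 31462978248624))) (P (nat_lit 0))) (P (nat_lit 0)))))))), (T.h (T.h (P (nat_lit 0)) (T.h (T.h (P (nat_lit 0)) (T.h (M (nat_lit 65918469378897187897868287)) (T.h (P (nat_lit 0)) (T.h (M (nat_lit 204190865734695387135)) (T.h (P (nat_lit 0)) (P (nat_lit 88368910367184))))))) (T.h (P (nat_lit 0)) (T.h (T.h (P (nat_lit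 0)) (T.h (P (nat_lit 258219709894464897024)) (T.h (P (nat_lit 0)) (M (nat_lit 40308873541055))))) (T.h (P (nat_lit 0)) (T.h (T.h (P (nat_lit 0)) (P (nat_lit 6090557697360))) (P (nat_lit 0)))))))) (T.h (T.h (T.h (M (nat_lit 10238001575438095358980259839)) (T.h (P (nat_lit 0)) (T.h (M (nat_lit 148288026953148786540543)) (T.h (P (nat_lit 0)) (P (nat_lit 391068373448163328)))))) (T.h (P (nat_lit 0)) (T.h (T.h (M (nat_lit 32773840107748108271615)) (T.h (P (nat_lit 0)) (P (nat_lit 519943386516488192)))) (T.h (P (nat_lit 0)) (P (nat_lit 105856962375598080)))))) (T.h (T.h (P (nat_lit 0)) (T.h (T.h (P (nat_lit 0)) (T.h (M (nat_lit 115437795602681823231)) (T.h (P (nat_lit 0)) (P (nat_lit 480696106885200))))) (T.h (P (nat_lit 0)) (T.h (T.h (P (nat_lit 0)) (P (nat_lit 135400654107216))) (P (nat_lit 0)))))) (T.h (T.h (T.h (P (nat_lit 4498526712991768903680)) (T.h (P (nat_lit 0)) (M (nat_lit 902612114225659903)))) (T.h (P (nat_lit 0)) (M (nat_lit 13902498383790079))))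 (T.h (T.h (P (nat_lit 0)) (T.h (T.h (P (nat_lit 0)) (M (nat_lit 212902374284207))) (P (nat_lit 0)))) (M (nat_lit 5867200945930239))))))), (T.h (T.h (P (nat_lit 0)) (T.h (T.h (M (nat_lit 2802544089202721518058995711)) (T.h (P (nat_lit 0)) (T.h (P (nat_lit 219226733783414827122688)) (T.h (P (nat_lit 0)) (M (nat_lit 111197562056900607)))))) (T.h (P (nat_lit 0)) (T.h (T.h (P (nat_lit 11706436078456893603840)) (T.h (P (nat_lit 0)) (P (nat_lit 48128141689192448)))) (T.h (P (nat_lit 0)) (M (nat_lit 10301442286452735))))))) (T.h (T.h (T.h (P (nat_lit 0)) (T.h (P (nat_lit 15532778243652765473570816)) (T.h (P (nat_lit 0)) (M (nat_lit 292461774379792990207))))) (T.h (P (nat_lit 0)) (T.h (T.h (P (nat_lit 0)) (M (nat_lit 132783142035194380287))) (P (nat_lit 0))))) (T.h (T.h (P (nat_lit 0)) (T.h (T.h (M (nat_lit 11334887043216479092735)) (T.h (P (nat_lit 0)) (M (nat_lit 307064400049864703)))) (T.h (P (nat_lit 0)) (P (nat_lit 64870222751039488))))) (T.h (T.h (T.h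 (P (nat_lit 0)) (P (nat_lit 372027013451330093056))) (P (nat_lit 0))) (T.h (T.h (P (nat_lit 0)) (P (nat_lit 17610523673985024))) (P (nat_lit 0))))))), (P (nat_lit 0)), (T.h (T.h (T.h (P (nat_lit 0)) (T.h (P (nat_lit 10325839095429112767283462144)) (T.h (P (nat_lit 0)) (T.h (M (nat_lit 23347121895935433506815)) (T.h (P (nat_lit 0)) (P (nat_lit 34008853981396992))))))) (T.h (P (nat_lit 0)) (T.h (T.h (P (nat_lit 0)) (T.h (P (nat_lit 28838031634348434784256)) (T.h (P (nat_lit 0)) (M (nat_lit 162548584158986239))))) (T.h (P (nat_lit 0)) (T.h (T.h (P (nat_lit 0)) (M (nat_lit 54354603769987071))) (P (nat_lit 0))))))) (T.h (T.h (P (nat_lit 0)) (T.h (T.h (P (nat_lit 36723158071114076937781248)) (T.h (P (nat_lit 0)) (T.h (M (nat_lit 17507187907994058751)) (T.h (P (nat_lit 0)) (P (nat_lit 149225130836888)))))) (T.h (P (nat_lit 0)) (T.h (T.h (M (nat_lit 40371769524537524223)) (T.h (P (nat_lit 0)) (M (nat_lit 499156966033311)))) (T.h (P (nat_lit 0)) (M (nat_lit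 6640001231327))))))) (T.h (T.h (T.h (P (nat_lit 0)) (T.h (M (nat_lit 102040400974397862576127)) (T.h (P (nat_lit 0)) (P (nat_lit 498344816856530944))))) (T.h (P (nat_lit 0)) (T.h (T.h (P (nat_lit 0)) (M (nat_lit 136752169682960383))) (P (nat_lit 0))))) (T.h (T.h (P (nat_lit 0)) (T.h (T.h (M (nat_lit 11707574109595500543)) (T.h (P (nat_lit 0)) (P (nat_lit 308999432393296)))) (T.h (P (nat_lit 0)) (P (nat_lit 37623641876824))))) (T.h (T.h (T.h (P (nat_lit 0)) (P (nat_lit 233256223869730816))) (P (nat_lit 0))) (T.h (T.h (P (nat_lit 0)) (P (nat_lit 161505360049968))) (P (nat_lit 0)))))))), (T.h (T.h (T.h (P (nat_lit 22032026419389384402761655779328)) (T.h (P (nat_lit 0)) (T.h (M (nat_lit 17644813415182091818106879)) (T.h (P (nat_lit 0)) (T.h (P (nat_lit 37567520307754827776)) (T.h (P (nat_lit 0)) (M (nat_lit 8951155852031)))))))) (T.h (P (nat_lit 0)) (T.h (T.h (M (nat_lit 10846810063514811188117503)) (T.h (P (nat_lit 0)) (T.h (P (nat_lit 7383682253127155712))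 (T.h (P (nat_lit 0)) (M (nat_lit 100217063513375)))))) (T.h (P (nat_lit 0)) (T.h (T.h (P (nat_lit 12500612991550488576)) (T.h (P (nat_lit 0)) (M (nat_lit 94003432255103)))) (T.h (P (nat_lit 0)) (M (nat_lit 15284046255631)))))))) (T.h (T.h (P (nat_lit 0)) (T.h (T.h (P (nat_lit 0)) (T.h (P (nat_lit 1494811216436782956544)) (T.h (P (nat_lit 0)) (P (nat_lit 67105017029525504))))) (T.h (P (nat_lit 0)) (T.h (T.h (P (nat_lit 0)) (M (nat_lit 35088199171506175))) (P (nat_lit 0)))))) (T.h (T.h (T.h (M (nat_lit 663153566823727851634687)) (T.h (P (nat_lit 0)) (T.h (P (nat_lit 65035715147429052416)) (T.h (P (nat_lit 0)) (M (nat_lit 133718572415999)))))) (T.h (P (nat_lit 0)) (T.h (T.h (M (nat_lit 51183122063862792191)) (T.h (P (nat_lit 0)) (M (nat_lit 23507951099487)))) (T.h (P (nat_lit 0)) (M (nat_lit 102020467994783)))))) (T.h (T.h (P (nat_lit 0)) (T.h (T.h (P (nat_lit 0)) (M (nat_lit 34408057877266431))) (P (nat_lit 0)))) (T.h (T.h (T.h (P (nat_lit 10808579313234870272))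 (T.h (P (nat_lit 0)) (M (nat_lit 117008043874271)))) (T.h (P (nat_lit 0)) (M (nat_lit 45831866865407)))) (T.h (P (nat_lit 0)) (P (nat_lit 19537263737616))))))))]
def lP11_29 : List (T ℤ) := [(T.h (T.h (T.h (P (nat_lit 0)) (T.h (M (nat_lit 55975877746925841019628945407)) (T.h (P (nat_lit 0)) (T.h (P (nat_lit 87364782547505235623936)) (T.h (P (nat_lit 0)) (P (nat_lit 105743219492356096))))))) (T.h (P (nat_lit 0)) (T.h (T.h (P (nat_lit 0)) (T.h (P (nat_lit 213233816650005486764032)) (T.h (P (nat_lit 0)) (M (nat_lit 599423486802100223))))) (T.h (P (nat_lit 0)) (T.h (T.h (P (nat_lit 0)) (P (nat_lit 203169303379476480))) (P (nat_lit 0))))))) (T.h (T.h (P (nat_lit 0)) (T.h (T.h (M (nat_lit 18011779666298668056575999)) (T.h (P (nat_lit 0)) (T.h (P (nat_lit 892114938688845119488)) (T.h (P (nat_lit 0)) (P (nat_lit 290585851305696)))))) (T.h (P (nat_lit 0)) (T.h (T.h (P (nat_lit 470499440144615997440)) (T.h (P (nat_lit 0)) (M (nat_lit 78842267400671)))) (T.h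 (P (nat_lit 0)) (M (nat_lit 99964171714655))))))) (T.h (T.h (T.h (P (nat_lit 0)) (T.h (M (nat_lit 545918331871671131045887)) (T.h (P (nat_lit 0)) (M (nat_lit 1007081889253851135))))) (T.h (P (nat_lit 0)) (T.h (T.h (P (nat_lit 0)) (M (nat_lit 715153917534207999))) (P (nat_lit 0))))) (T.h (T.h (P (nat_lit 0)) (T.h (T.h (P (nat_lit 242110219074574221312)) (T.h (P (nat_lit 0)) (M (nat_lit 134419607513615)))) (T.h (P (nat_lit 0)) (P (nat_lit 50742460536192))))) (T.h (T.h (T.h (P (nat_lit 0)) (P (nat_lit 657400352911032320))) (P (nat_lit 0))) (T.h (T.h (P (nat_lit 0)) (M (nat_lit 77197425297551))) (P (nat_lit 0)))))))), (T.h (T.h (T.h (P (nat_lit 29397274956914117545857438973952)) (T.h (P (nat_lit 0)) (T.h (M (nat_lit 133255772454998449303060479)) (T.h (P (nat_lit 0)) (T.h (P (nat_lit 229204133552031006720)) (T.h (P (nat_lit 0)) (P (nat_lit 211268465072064)))))))) (T.h (P (nat_lit 0)) (T.h (T.h (M (nat_lit 14021601366091200968261631)) (T.h (P (nat_lit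 0)) (T.h (M (nat_lit 327637555096494014463)) (T.h (P (nat_lit 0)) (M (nat_lit 98314359801839)))))) (T.h (P (nat_lit 0)) (T.h (T.h (P (nat_lit 23386002690976776192)) (T.h (P (nat_lit 0)) (P (nat_lit 99925240509792)))) (T.h (P (nat_lit 0)) (P (nat_lit 41881434673104)))))))) (T.h (T.h (P (nat_lit 0)) (T.h (T.h (P (nat_lit 0)) (T.h (M (nat_lit 881664639651964837167103)) (T.h (P (nat_lit 0)) (M (nat_lit 414499192345853951))))) (T.h (P (nat_lit 0)) (T.h (T.h (P (nat_lit 0)) (P (nat_lit 649524670168760320))) (P (nat_lit 0)))))) (T.h (T.h (T.h (M (nat_lit 17999128066405266125488127)) (T.h (P (nat_lit 0)) (T.h (M (nat_lit 566570040392941567999)) (T.h (P (nat_lit 0)) (M (nat_lit 131633562907295)))))) (T.h (P (nat_lit 0)) (T.h (T.h (P (nat_lit 416910367914010345472)) (T.h (P (nat_lit 0)) (P (nat_lit 470452994409888)))) (T.h (P (nat_lit 0)) (P (nat_lit 135757685418624)))))) (T.h (T.h (P (nat_lit 0)) (T.h (T.h (P (nat_lit 0)) (P (nat_lit 213983858607128576)))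 (P (nat_lit 0)))) (T.h (T.h (T.h (M (nat_lit 190714827476958183423)) (T.h (P (nat_lit 0)) (P (nat_lit 56565545091696)))) (T.h (P (nat_lit 0)) (P (nat_lit 125717193105984)))) (T.h (P (nat_lit 0)) (M (nat_lit 79539795851759)))))))), (T.h (T.h (T.h (P (nat_lit 0)) (T.h (P (nat_lit 43261590126196782947893248)) (T.h (P (nat_lit 0)) (T.h (M (nat_lit 18370324571908701421567)) (T.h (P (nat_lit 0)) (M (nat_lit 423810517937029119))))))) (T.h (P (nat_lit 0)) (T.h (T.h (P (nat_lit 0)) (T.h (P (nat_lit 253975602216504926404608)) (T.h (P (nat_lit 0)) (P (nat_lit 33030100658978816))))) (T.h (P (nat_lit 0)) (T.h (T.h (P (nat_lit 0)) (P (nat_lit 49633666763259904))) (P (nat_lit 0))))))) (T.h (T.h (P (nat_lit 0)) (T.h (T.h (P (nat_lit 72057086932609894082150400)) (T.h (P (nat_lit 0)) (P (nat_lit 245384825810064506880)))) (T.h (P (nat_lit 0)) (M (nat_lit 89748166004818575359))))) (T.h (T.h (T.h (P (nat_lit 0)) (T.h (P (nat_lit 459569672372160003309568)) (T.h (P (nat_lit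 0)) (M (nat_lit 205708856286707711))))) (T.h (P (nat_lit 0)) (T.h (T.h (P (nat_lit 0)) (M (nat_lit 506464520519221247))) (P (nat_lit 0))))) (T.h (T.h (P (nat_lit 0)) (P (nat_lit 11487042308398907392))) (T.h (T.h (T.h (P (nat_lit 0)) (P (nat_lit 190404856377147392))) (P (nat_lit 0))) (P (nat_lit 0))))))), (T.h (T.h (P (nat_lit 0)) (T.h (T.h (P (nat_lit 1045850818948769630476304384)) (T.h (P (nat_lit 0)) (T.h (P (nat_lit 14114756792398624325632)) (T.h (P (nat_lit 0)) (M (nat_lit 8809992696004607)))))) (T.h (P (nat_lit 0)) (T.h (T.h (P (nat_lit 11065493470585011830784)) (T.h (P (nat_lit 0)) (M (nat_lit 46915988397752319)))) (T.h (P (nat_lit 0)) (M (nat_lit 50996580505223167))))))) (T.h (T.h (T.h (P (nat_lit 0)) (T.h (M (nat_lit 2310389944728478820597759)) (T.h (P (nat_lit 0)) (T.h (M (nat_lit 6271557334242164735)) (T.h (P (nat_lit 0)) (M (nat_lit 10114432291911))))))) (T.h (P (nat_lit 0)) (T.h (T.h (P (nat_lit 0)) (T.h (M (nat_lit 128546003020681314303))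 (T.h (P (nat_lit 0)) (P (nat_lit 81363724011496))))) (T.h (P (nat_lit 0)) (T.h (T.h (P (nat_lit 0)) (M (nat_lit 72482620323271))) (P (nat_lit 0))))))) (T.h (T.h (P (nat_lit 0)) (T.h (T.h (M (nat_lit 66262344181358746664959)) (T.h (P (nat_lit 0)) (P (nat_lit 6363219857768448)))) (T.h (P (nat_lit 0)) (P (nat_lit 105498906374373376))))) (T.h (T.h (T.h (P (nat_lit 0)) (T.h (P (nat_lit 2000088618483318784)) (T.h (P (nat_lit 0)) (P (nat_lit 21459189559168))))) (T.h (P (nat_lit 0)) (T.h (T.h (P (nat_lit 0)) (P (nat_lit 49256574379456))) (P (nat_lit 0))))) (T.h (T.h (P (nat_lit 0)) (P (nat_lit 105275622569213952))) (T.h (T.h (T.h (P (nat_lit 0)) (P (nat_lit 24527691466296))) (P (nat_lit 0))) (P (nat_lit 0)))))))), (T.h (T.h (P (nat_lit 0)) (T.h (T.h (P (nat_lit 0)) (T.h (P (nat_lit 2768201337103094367911936)) (T.h (P (nat_lit 0)) (T.h (M (nat_lit 121630086042107248639)) (T.h (P (nat_lit 0)) (M (nat_lit 16694554697487))))))) (T.h (P (nat_lit 0)) (T.h (T.h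 (P (nat_lit 0)) (T.h (M (nat_lit 262416591941940543487)) (T.h (P (nat_lit 0)) (P (nat_lit 7552521380832))))) (T.h (P (nat_lit 0)) (T.h (T.h (P (nat_lit 0)) (M (nat_lit 24021944782415))) (P (nat_lit 0)))))))) (T.h (T.h (T.h (M (nat_lit 1808498977183349276374204415)) (T.h (P (nat_lit 0)) (T.h (P (nat_lit 80479554190437311840256)) (T.h (P (nat_lit 0)) (P (nat_lit 79154771293306880)))))) (T.h (P (nat_lit 0)) (T.h (T.h (P (nat_lit 160890118431974772178944)) (T.h (P (nat_lit 0)) (M (nat_lit 1031172992607715327)))) (T.h (P (nat_lit 0)) (P (nat_lit 15069221556994048)))))) (T.h (T.h (P (nat_lit 0)) (T.h (T.h (P (nat_lit 0)) (T.h (P (nat_lit 633881676658585370624)) (T.h (P (nat_lit 0)) (P (nat_lit 85017916153568))))) (T.h (P (nat_lit 0)) (T.h (T.h (P (nat_lit 0)) (P (nat_lit 249167983896304))) (P (nat_lit 0)))))) (T.h (T.h (T.h (P (nat_lit 52699577966004013105152)) (T.h (P (nat_lit 0)) (P (nat_lit 224878831080914944)))) (T.h (P (nat_lit 0)) (P (nat_lit 529330318351400960))))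 (T.h (T.h (P (nat_lit 0)) (T.h (T.h (P (nat_lit 0)) (P (nat_lit 20283370080496))) (P (nat_lit 0)))) (M (nat_lit 58388150225797119))))))), (T.h (T.h (P (nat_lit 0)) (T.h (T.h (M (nat_lit 12032021371156596681519136767)) (T.h (P (nat_lit 0)) (T.h (P (nat_lit 476186040661101512753152)) (T.h (P (nat_lit 0)) (M (nat_lit 422236491253940223)))))) (T.h (P (nat_lit 0)) (T.h (T.h (M (nat_lit 889584134380146655231)) (T.h (P (nat_lit 0)) (P (nat_lit 615821914529857536)))) (T.h (P (nat_lit 0)) (P (nat_lit 125291518135107584))))))) (T.h (T.h (T.h (P (nat_lit 0)) (T.h (P (nat_lit 316972042487873008213950464)) (T.h (P (nat_lit 0)) (T.h (P (nat_lit 585606291817637085184)) (T.h (P (nat_lit 0)) (M (nat_lit 68954946376031))))))) (T.h (P (nat_lit 0)) (T.h (T.h (P (nat_lit 0)) (T.h (P (nat_lit 1322545403081254764544)) (T.h (P (nat_lit 0)) (P (nat_lit 102501963535680))))) (T.h (P (nat_lit 0)) (T.h (T.h (P (nat_lit 0)) (P (nat_lit 84935016016176))) (P (nat_lit 0))))))) (T.h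 (T.h (P (nat_lit 0)) (T.h (T.h (M (nat_lit 157337932506424871485439)) (T.h (P (nat_lit 0)) (M (nat_lit 397362962484396031)))) (T.h (P (nat_lit 0)) (P (nat_lit 1345045415245119488))))) (T.h (T.h (T.h (P (nat_lit 0)) (T.h (M (nat_lit 377818869842202066943)) (T.h (P (nat_lit 0)) (P (nat_lit 287039911349856))))) (T.h (P (nat_lit 0)) (T.h (T.h (P (nat_lit 0)) (M (nat_lit 375385171935791))) (P (nat_lit 0))))) (T.h (T.h (P (nat_lit 0)) (M (nat_lit 709374484074921983))) (T.h (T.h (T.h (P (nat_lit 0)) (M (nat_lit 189432346881935))) (P (nat_lit 0))) (P (nat_lit 0)))))))), (T.h (T.h (P (nat_lit 0)) (T.h (T.h (P (nat_lit 0)) (T.h (M (nat_lit 33694261544999099226390527)) (T.h (P (nat_lit 0)) (T.h (P (nat_lit 175798943594649223168)) (T.h (P (nat_lit 0)) (P (nat_lit 346233505605120))))))) (T.h (P (nat_lit 0)) (T.h (T.h (P (nat_lit 0)) (T.h (M (nat_lit 101717844960955334655)) (T.h (P (nat_lit 0)) (M (nat_lit 19573388380223))))) (T.h (P (nat_lit 0)) (T.h (T.h (P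 (nat_lit 0)) (P (nat_lit 277842323649024))) (P (nat_lit 0)))))))) (T.h (T.h (T.h (P (nat_lit 12028536107894914256820240384)) (T.h (P (nat_lit 0)) (T.h (M (nat_lit 110753031696768351338495)) (T.h (P (nat_lit 0)) (M (nat_lit 122451746158608383)))))) (T.h (P (nat_lit 0)) (T.h (T.h (M (nat_lit 213339843520543624003583)) (T.h (P (nat_lit 0)) (M (nat_lit 341346496037289983)))) (T.h (P (nat_lit 0)) (M (nat_lit 22788379527593983)))))) (T.h (T.h (P (nat_lit 0)) (T.h (T.h (P (nat_lit 0)) (T.h (P (nat_lit 1568643296083048398848)) (T.h (P (nat_lit 0)) (M (nat_lit 1038291398449487))))) (T.h (P (nat_lit 0)) (T.h (T.h (P (nat_lit 0)) (M (nat_lit 956830296593519))) (P (nat_lit 0)))))) (T.h (T.h (T.h (M (nat_lit 46685886003765909127167)) (T.h (P (nat_lit 0)) (P (nat_lit 6537240484593664)))) (T.h (P (nat_lit 0)) (P (nat_lit 230855324925116416)))) (T.h (T.h (P (nat_lit 0)) (T.h (T.h (P (nat_lit 0)) (M (nat_lit 932773171568831))) (P (nat_lit 0)))) (M (nat_lit 196876010285465599))))))),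 (T.h (T.h (P (nat_lit 0)) (T.h (T.h (M (nat_lit 15304403450844262157386776575)) (T.h (P (nat_lit 0)) (T.h (P (nat_lit 275135551730762599366656)) (T.h (P (nat_lit 0)) (M (nat_lit 124639793356668927)))))) (T.h (P (nat_lit 0)) (T.h (T.h (P (nat_lit 33756919650715286110208)) (T.h (P (nat_lit 0)) (M (nat_lit 10880302569553919)))) (T.h (P (nat_lit 0)) (M (nat_lit 108740723189809151))))))) (T.h (T.h (T.h (P (nat_lit 0)) (T.h (M (nat_lit 14156786543232229258035199)) (T.h (P (nat_lit 0)) (P (nat_lit 291755589510365184000))))) (T.h (P (nat_lit 0)) (T.h (T.h (P (nat_lit 0)) (P (nat_lit 91973834503303987200))) (P (nat_lit 0))))) (T.h (T.h (P (nat_lit 0)) (T.h (T.h (M (nat_lit 444656523572546264629247)) (T.h (P (nat_lit 0)) (P (nat_lit 694833859304128512)))) (T.h (P (nat_lit 0)) (M (nat_lit 15054957163479039))))) (T.h (T.h (T.h (P (nat_lit 0)) (P (nat_lit 67880450572645564416))) (P (nat_lit 0))) (T.h (T.h (P (nat_lit 0)) (P (nat_lit 213372225483440128))) (P (nat_lit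 0)))))))]
def lP11_30 : List (T ℤ) := [(T.h (T.h (T.h (P (nat_lit 20481534004357375909785646399488)) (T.h (P (nat_lit 0)) (T.h (P (nat_lit 3749059585487618999058432)) (T.h (P (nat_lit 0)) (T.h (M (nat_lit 1082524976151527423)) (T.h (P (nat_lit 0)) (M (nat_lit 2452156826271)))))))) (T.h (P (nat_lit 0)) (T.h (T.h (P (nat_lit 7134712730511421705551872)) (T.h (P (nat_lit 0)) (T.h (M (nat_lit 43849203420319711231)) (T.h (P (nat_lit 0)) (M (nat_lit 255128296415)))))) (T.h (P (nat_lit 0)) (T.h (T.h (P (nat_lit 22292348661737193472)) (T.h (P (nat_lit 0)) (P (nat_lit 49719841574688)))) (T.h (P (nat_lit 0)) (P (nat_lit 38702043570576)))))))) (T.h (T.h (P (nat_lit 0)) (T.h (T.h (P (nat_lit 0)) (T.h (P (nat_lit 19833274399330779791360)) (T.h (P (nat_lit 0)) (M (nat_lit 18460084075888639))))) (T.h (P (nat_lit 0)) (T.h (T.h (P (nat_lit 0)) (P (nat_lit 84413273419382784))) (P (nat_lit 0)))))) (T.h (T.h (T.h (P (nat_lit 7134712730511421705551872)) (T.h (P (nat_lit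 0)) (T.h (M (nat_lit 43849203420319711231)) (T.h (P (nat_lit 0)) (M (nat_lit 255128296415)))))) (T.h (P (nat_lit 0)) (T.h (T.h (P (nat_lit 130021666685274030080)) (T.h (P (nat_lit 0)) (M (nat_lit 47015902198975)))) (T.h (P (nat_lit 0)) (M (nat_lit 54957844336799)))))) (T.h (T.h (P (nat_lit 0)) (T.h (T.h (P (nat_lit 0)) (P (nat_lit 84413273419382784))) (P (nat_lit 0)))) (T.h (T.h (T.h (P (nat_lit 22292348661737193472)) (T.h (P (nat_lit 0)) (P (nat_lit 49719841574688)))) (T.h (P (nat_lit 0)) (M (nat_lit 54957844336799)))) (T.h (P (nat_lit 0)) (P (nat_lit 38702043570576)))))))), (T.h (T.h (T.h (P (nat_lit 0)) (T.h (P (nat_lit 7134286958923627804686811136)) (T.h (P (nat_lit 0)) (T.h (P (nat_lit 57407885486545373757440)) (T.h (P (nat_lit 0)) (M (nat_lit 96419134925570047))))))) (T.h (P (nat_lit 0)) (T.h (T.h (P (nat_lit 0)) (T.h (P (nat_lit 140262320409701091639296)) (T.h (P (nat_lit 0)) (P (nat_lit 85327505848336384))))) (T.h (P (nat_lit 0)) (T.h (T.h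 (P (nat_lit 0)) (M (nat_lit 87253373085351935))) (P (nat_lit 0))))))) (T.h (T.h (P (nat_lit 0)) (T.h (T.h (P (nat_lit 28460134174994339677077504)) (T.h (P (nat_lit 0)) (T.h (M (nat_lit 443650273298264096767)) (T.h (P (nat_lit 0)) (M (nat_lit 336165732353759)))))) (T.h (P (nat_lit 0)) (T.h (T.h (P (nat_lit 568256790363298070528)) (T.h (P (nat_lit 0)) (M (nat_lit 175497791033423)))) (T.h (P (nat_lit 0)) (M (nat_lit 57551444008655))))))) (T.h (T.h (T.h (P (nat_lit 0)) (T.h (P (nat_lit 140262320409701091639296)) (T.h (P (nat_lit 0)) (P (nat_lit 85327505848336384))))) (T.h (P (nat_lit 0)) (T.h (T.h (P (nat_lit 0)) (P (nat_lit 2154056668749037568))) (P (nat_lit 0))))) (T.h (T.h (P (nat_lit 0)) (T.h (T.h (P (nat_lit 568256790363298070528)) (T.h (P (nat_lit 0)) (M (nat_lit 175497791033423)))) (T.h (P (nat_lit 0)) (P (nat_lit 445737524610048))))) (T.h (T.h (T.h (P (nat_lit 0)) (M (nat_lit 87253373085351935))) (P (nat_lit 0))) (T.h (T.h (P (nat_lit 0)) (M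 (nat_lit 57551444008655))) (P (nat_lit 0)))))))), (T.h (T.h (T.h (P (nat_lit 53389241137066534764017329635328)) (T.h (P (nat_lit 0)) (T.h (M (nat_lit 38452288581308777018425343)) (T.h (P (nat_lit 0)) (T.h (P (nat_lit 58707261042259394560)) (T.h (P (nat_lit 0)) (P (nat_lit 88523479637856)))))))) (T.h (P (nat_lit 0)) (T.h (T.h (M (nat_lit 153708932969901960195997695)) (T.h (P (nat_lit 0)) (T.h (P (nat_lit 164874952213413232640)) (T.h (P (nat_lit 0)) (P (nat_lit 132157498148352)))))) (T.h (P (nat_lit 0)) (T.h (T.h (P (nat_lit 478626222071248584704)) (T.h (P (nat_lit 0)) (M (nat_lit 56041609850639)))) (T.h (P (nat_lit 0)) (P (nat_lit 379331740561680)))))))) (T.h (T.h (P (nat_lit 0)) (T.h (T.h (P (nat_lit 0)) (T.h (M (nat_lit 1436637106099623787757567)) (T.h (P (nat_lit 0)) (P (nat_lit 938198566600441856))))) (T.h (P (nat_lit 0)) (T.h (T.h (P (nat_lit 0)) (P (nat_lit 309715515647459328))) (P (nat_lit 0)))))) (T.h (T.h (T.h (M (nat_lit 153708932969901960195997695))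 (T.h (P (nat_lit 0)) (T.h (P (nat_lit 164874952213413232640)) (T.h (P (nat_lit 0)) (P (nat_lit 132157498148352)))))) (T.h (P (nat_lit 0)) (T.h (T.h (M (nat_lit 579672970797091127295)) (T.h (P (nat_lit 0)) (P (nat_lit 280029510112320)))) (T.h (P (nat_lit 0)) (M (nat_lit 91874054759471)))))) (T.h (T.h (P (nat_lit 0)) (T.h (T.h (P (nat_lit 0)) (P (nat_lit 309715515647459328))) (P (nat_lit 0)))) (T.h (T.h (T.h (P (nat_lit 478626222071248584704)) (T.h (P (nat_lit 0)) (M (nat_lit 56041609850639)))) (T.h (P (nat_lit 0)) (M (nat_lit 91874054759471)))) (T.h (P (nat_lit 0)) (P (nat_lit 379331740561680)))))))), (T.h (T.h (T.h (P (nat_lit 0)) (T.h (P (nat_lit 17356795676639908759406116864)) (T.h (P (nat_lit 0)) (T.h (P (nat_lit 148788144754674542575616)) (T.h (P (nat_lit 0)) (M (nat_lit 278438772972060671))))))) (T.h (P (nat_lit 0)) (T.h (T.h (P (nat_lit 0)) (T.h (P (nat_lit 37393917259994223345664)) (T.h (P (nat_lit 0)) (P (nat_lit 129338384155705344))))) (T.h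 (P (nat_lit 0)) (T.h (T.h (P (nat_lit 0)) (M (nat_lit 78359944982757375))) (P (nat_lit 0))))))) (T.h (T.h (P (nat_lit 0)) (T.h (T.h (M (nat_lit 192358523984047560722481151)) (T.h (P (nat_lit 0)) (M (nat_lit 107208491702752903167)))) (T.h (P (nat_lit 0)) (M (nat_lit 210368478333907238911))))) (T.h (T.h (T.h (P (nat_lit 0)) (T.h (P (nat_lit 37393917259994223345664)) (T.h (P (nat_lit 0)) (P (nat_lit 129338384155705344))))) (T.h (P (nat_lit 0)) (T.h (T.h (P (nat_lit 0)) (P (nat_lit 1178947756791234560))) (P (nat_lit 0))))) (T.h (T.h (P (nat_lit 0)) (M (nat_lit 210368478333907238911))) (T.h (T.h (T.h (P (nat_lit 0)) (M (nat_lit 78359944982757375))) (P (nat_lit 0))) (P (nat_lit 0))))))), (T.h (T.h (P (nat_lit 0)) (T.h (T.h (P (nat_lit 4383589187157381946997211136)) (T.h (P (nat_lit 0)) (T.h (M (nat_lit 33242811703095004758015)) (T.h (P (nat_lit 0)) (M (nat_lit 13541206185443327)))))) (T.h (P (nat_lit 0)) (T.h (T.h (M (nat_lit 232256291288697188384767))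 (T.h (P (nat_lit 0)) (P (nat_lit 80162694280544256)))) (T.h (P (nat_lit 0)) (M (nat_lit 54969588572815359))))))) (T.h (T.h (T.h (P (nat_lit 0)) (T.h (M (nat_lit 117027450634404717431619583)) (T.h (P (nat_lit 0)) (T.h (P (nat_lit 65111788684669091840)) (T.h (P (nat_lit 0)) (M (nat_lit 1762651343375))))))) (T.h (P (nat_lit 0)) (T.h (T.h (P (nat_lit 0)) (T.h (M (nat_lit 483494862802948980735)) (T.h (P (nat_lit 0)) (M (nat_lit 23342997095855))))) (T.h (P (nat_lit 0)) (T.h (T.h (P (nat_lit 0)) (M (nat_lit 117247060976351))) (P (nat_lit 0))))))) (T.h (T.h (P (nat_lit 0)) (T.h (T.h (M (nat_lit 483039199991606506684415)) (T.h (P (nat_lit 0)) (P (nat_lit 564353510155419648)))) (T.h (P (nat_lit 0)) (M (nat_lit 96466544482779135))))) (T.h (T.h (T.h (P (nat_lit 0)) (T.h (M (nat_lit 3472715907627745279)) (T.h (P (nat_lit 0)) (M (nat_lit 16610803796111))))) (T.h (P (nat_lit 0)) (T.h (T.h (P (nat_lit 0)) (M (nat_lit 135470104338527))) (P (nat_lit 0))))) (T.h (T.h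 (P (nat_lit 0)) (M (nat_lit 431540193161183231))) (T.h (T.h (T.h (P (nat_lit 0)) (P (nat_lit 41325168332064))) (P (nat_lit 0))) (P (nat_lit 0)))))))), (T.h (T.h (P (nat_lit 0)) (T.h (T.h (P (nat_lit 0)) (T.h (P (nat_lit 34488381105163752200732672)) (T.h (P (nat_lit 0)) (T.h (P (nat_lit 129763650506804166656)) (T.h (P (nat_lit 0)) (M (nat_lit 53738246021903))))))) (T.h (P (nat_lit 0)) (T.h (T.h (P (nat_lit 0)) (T.h (M (nat_lit 55130136566751559679)) (T.h (P (nat_lit 0)) (P (nat_lit 39684298899168))))) (T.h (P (nat_lit 0)) (T.h (T.h (P (nat_lit 0)) (P (nat_lit 96931288604016))) (P (nat_lit 0)))))))) (T.h (T.h (T.h (P (nat_lit 10098823510839615258793869312)) (T.h (P (nat_lit 0)) (T.h (M (nat_lit 68449625130738779160575)) (T.h (P (nat_lit 0)) (P (nat_lit 69615724044402688)))))) (T.h (P (nat_lit 0)) (T.h (T.h (M (nat_lit 81377000152364184764415)) (T.h (P (nat_lit 0)) (P (nat_lit 146348188268625920)))) (T.h (P (nat_lit 0)) (P (nat_lit 255163768485953536))))))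 (T.h (T.h (P (nat_lit 0)) (T.h (T.h (P (nat_lit 0)) (T.h (P (nat_lit 817435440478634901504)) (T.h (P (nat_lit 0)) (P (nat_lit 29547721411632))))) (T.h (P (nat_lit 0)) (T.h (T.h (P (nat_lit 0)) (P (nat_lit 293382072333648))) (P (nat_lit 0)))))) (T.h (T.h (T.h (M (nat_lit 15347111945282003140607)) (T.h (P (nat_lit 0)) (P (nat_lit 47629619925549056)))) (T.h (P (nat_lit 0)) (M (nat_lit 1065398080356843519)))) (T.h (T.h (P (nat_lit 0)) (T.h (T.h (P (nat_lit 0)) (M (nat_lit 706305045045455))) (P (nat_lit 0)))) (M (nat_lit 178329679561441279))))))), (T.h (T.h (P (nat_lit 0)) (T.h (T.h (P (nat_lit 4098973312156333036814729216)) (T.h (P (nat_lit 0)) (T.h (M (nat_lit 92261680203773218127871)) (T.h (P (nat_lit 0)) (P (nat_lit 149424152781848576)))))) (T.h (P (nat_lit 0)) (T.h (T.h (M (nat_lit 11302933404076692471807)) (T.h (P (nat_lit 0)) (P (nat_lit 108178727758004224)))) (T.h (P (nat_lit 0)) (M (nat_lit 636919300485021695))))))) (T.h (T.h (T.h (P (nat_lit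 0)) (T.h (M (nat_lit 56490792542494067001393151)) (T.h (P (nat_lit 0)) (M (nat_lit 276447698764093718527))))) (T.h (P (nat_lit 0)) (T.h (T.h (P (nat_lit 0)) (M (nat_lit 18933636662254632959))) (P (nat_lit 0))))) (T.h (T.h (P (nat_lit 0)) (T.h (T.h (P (nat_lit 627530395099535645868032)) (T.h (P (nat_lit 0)) (P (nat_lit 340884581242339328)))) (T.h (P (nat_lit 0)) (P (nat_lit 112353382351929344))))) (T.h (T.h (T.h (P (nat_lit 0)) (M (nat_lit 52572559826374098943))) (P (nat_lit 0))) (T.h (T.h (P (nat_lit 0)) (M (nat_lit 188587866058260479))) (P (nat_lit 0))))))), (T.h (T.h (T.h (M (nat_lit 4644630342600910574768432873471)) (T.h (P (nat_lit 0)) (T.h (P (nat_lit 993919321185546621943808)) (T.h (P (nat_lit 0)) (T.h (M (nat_lit 4522085549804093439)) (T.h (P (nat_lit 0)) (M (nat_lit 117640833263)))))))) (T.h (P (nat_lit 0)) (T.h (T.h (M (nat_lit 23759147091329655041425407)) (T.h (P (nat_lit 0)) (T.h (P (nat_lit 74377365627223408640)) (T.h (P (nat_lit 0))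 (P (nat_lit 11128868104608)))))) (T.h (P (nat_lit 0)) (T.h (T.h (M (nat_lit 205175738630108348415)) (T.h (P (nat_lit 0)) (M (nat_lit 112332596630399)))) (T.h (P (nat_lit 0)) (M (nat_lit 125702438127695)))))))) (T.h (T.h (P (nat_lit 0)) (T.h (T.h (P (nat_lit 0)) (T.h (M (nat_lit 93087889871663739699199)) (T.h (P (nat_lit 0)) (P (nat_lit 193311368109424640))))) (T.h (P (nat_lit 0)) (T.h (T.h (P (nat_lit 0)) (P (nat_lit 7881472545095680))) (P (nat_lit 0)))))) (T.h (T.h (T.h (P (nat_lit 59150538576176793411125248)) (T.h (P (nat_lit 0)) (T.h (M (nat_lit 40153073323845091327)) (T.h (P (nat_lit 0)) (P (nat_lit 11004683413968)))))) (T.h (P (nat_lit 0)) (T.h (T.h (M (nat_lit 99556130591990611967)) (T.h (P (nat_lit 0)) (P (nat_lit 176154058255824)))) (T.h (P (nat_lit 0)) (P (nat_lit 144096697935936)))))) (T.h (T.h (P (nat_lit 0)) (T.h (T.h (P (nat_lit 0)) (M (nat_lit 207546634923933695))) (P (nat_lit 0)))) (T.h (T.h (T.h (M (nat_lit 250057911985237917695))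 (T.h (P (nat_lit 0)) (P (nat_lit 45469744224480)))) (T.h (P (nat_lit 0)) (M (nat_lit 20843964717551)))) (T.h (P (nat_lit 0)) (M (nat_lit 136184537313935))))))))]
def lP11_31 : List (T ℤ) := [(T.h (T.h (T.h (P (nat_lit 0)) (T.h (M (nat_lit 26785345378366938055148830719)) (T.h (P (nat_lit 0)) (T.h (M (nat_lit 28930716648165091573759)) (T.h (P (nat_lit 0)) (P (nat_lit 20177221009768448))))))) (T.h (P (nat_lit 0)) (T.h (T.h (P (nat_lit 0)) (T.h (P (nat_lit 115769289232525882818560)) (T.h (P (nat_lit 0)) (M (nat_lit 29508680255176703))))) (T.h (P (nat_lit 0)) (T.h (T.h (P (nat_lit 0)) (M (nat_lit 27651373502136319))) (P (nat_lit 0))))))) (T.h (T.h (P (nat_lit 0)) (T.h (T.h (P (nat_lit 97555253692444316576776192)) (T.h (P (nat_lit 0)) (P (nat_lit 12794938319486058496)))) (T.h (P (nat_lit 0)) (M (nat_lit 7459515171333996543))))) (T.h (T.h (T.h (P (nat_lit 0)) (T.h (M (nat_lit 114792331594105423396863)) (T.h (P (nat_lit 0)) (M (nat_lit 12766599193329663)))))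 (T.h (P (nat_lit 0)) (T.h (T.h (P (nat_lit 0)) (M (nat_lit 201704419141353471))) (P (nat_lit 0))))) (T.h (T.h (P (nat_lit 0)) (P (nat_lit 657029272659789086720))) (T.h (T.h (T.h (P (nat_lit 0)) (P (nat_lit 101156712228749312))) (P (nat_lit 0))) (P (nat_lit 0))))))), (T.h (T.h (P (nat_lit 0)) (T.h (T.h (P (nat_lit 10561526356057080583166099456)) (T.h (P (nat_lit 0)) (T.h (M (nat_lit 27409907181871649783807)) (T.h (P (nat_lit 0)) (P (nat_lit 44529171178749952)))))) (T.h (P (nat_lit 0)) (T.h (T.h (P (nat_lit 52065708632157213163520)) (T.h (P (nat_lit 0)) (P (nat_lit 163557317878153216)))) (T.h (P (nat_lit 0)) (P (nat_lit 5867629431095296))))))) (T.h (T.h (T.h (P (nat_lit 0)) (T.h (P (nat_lit 24246785303870588422455296)) (T.h (P (nat_lit 0)) (M (nat_lit 37240392913883496447))))) (T.h (P (nat_lit 0)) (T.h (T.h (P (nat_lit 0)) (P (nat_lit 201305527107410984960))) (P (nat_lit 0))))) (T.h (T.h (P (nat_lit 0)) (T.h (T.h (P (nat_lit 127126616885303049191424))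 (T.h (P (nat_lit 0)) (M (nat_lit 157968672411713535)))) (T.h (P (nat_lit 0)) (M (nat_lit 364067516495069183))))) (T.h (T.h (T.h (P (nat_lit 0)) (P (nat_lit 89402042246615793664))) (P (nat_lit 0))) (T.h (T.h (P (nat_lit 0)) (P (nat_lit 188376292861083648))) (P (nat_lit 0))))))), (P (nat_lit 0)), (P (nat_lit 0)), (T.h (T.h (P (nat_lit 0)) (T.h (T.h (P (nat_lit 0)) (T.h (P (nat_lit 6034124902302266928660480)) (T.h (P (nat_lit 0)) (T.h (M (nat_lit 2708072234307551231)) (T.h (P (nat_lit 0)) (M (nat_lit 33957735906503))))))) (T.h (P (nat_lit 0)) (T.h (T.h (P (nat_lit 0)) (T.h (P (nat_lit 2800396035392798720)) (T.h (P (nat_lit 0)) (P (nat_lit 13956825122808))))) (T.h (P (nat_lit 0)) (T.h (T.h (P (nat_lit 0)) (P (nat_lit 9180840934728))) (P (nat_lit 0)))))))) (T.h (T.h (T.h (M (nat_lit 2446445817314079046260228095)) (T.h (P (nat_lit 0)) (T.h (P (nat_lit 9524129684993658060800)) (T.h (P (nat_lit 0)) (P (nat_lit 14579344540237824)))))) (T.h (P (nat_lit 0))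 (T.h (T.h (P (nat_lit 3729586567560768258048)) (T.h (P (nat_lit 0)) (M (nat_lit 32332720980328447)))) (T.h (P (nat_lit 0)) (M (nat_lit 17775016194080767)))))) (T.h (T.h (P (nat_lit 0)) (T.h (T.h (P (nat_lit 0)) (T.h (P (nat_lit 93185734165020016640)) (T.h (P (nat_lit 0)) (P (nat_lit 16120243369672))))) (T.h (P (nat_lit 0)) (T.h (T.h (P (nat_lit 0)) (M (nat_lit 16412332180447))) (P (nat_lit 0)))))) (T.h (T.h (T.h (P (nat_lit 14113606204607447433216)) (T.h (P (nat_lit 0)) (P (nat_lit 46263438480408576)))) (T.h (P (nat_lit 0)) (P (nat_lit 1902440084045824)))) (T.h (T.h (P (nat_lit 0)) (T.h (T.h (P (nat_lit 0)) (P (nat_lit 17695890957600))) (P (nat_lit 0)))) (M (nat_lit 14427111626145791))))))), (T.h (T.h (P (nat_lit 0)) (T.h (T.h (P (nat_lit 11020416314614742364347957248)) (T.h (P (nat_lit 0)) (T.h (M (nat_lit 12844806377626037911551)) (T.h (P (nat_lit 0)) (P (nat_lit 73671756276744192)))))) (T.h (P (nat_lit 0)) (T.h (T.h (M (nat_lit 5737787604839604158463))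 (T.h (P (nat_lit 0)) (P (nat_lit 38487973547999232)))) (T.h (P (nat_lit 0)) (P (nat_lit 437921507999744))))))) (T.h (T.h (T.h (P (nat_lit 0)) (T.h (M (nat_lit 21684869927939417095274495)) (T.h (P (nat_lit 0)) (T.h (M (nat_lit 206766406671320219647)) (T.h (P (nat_lit 0)) (P (nat_lit 16513881934288))))))) (T.h (P (nat_lit 0)) (T.h (T.h (P (nat_lit 0)) (T.h (M (nat_lit 12963444723204227071)) (T.h (P (nat_lit 0)) (P (nat_lit 48030240726480))))) (T.h (P (nat_lit 0)) (T.h (T.h (P (nat_lit 0)) (P (nat_lit 191230761875616))) (P (nat_lit 0))))))) (T.h (T.h (P (nat_lit 0)) (T.h (T.h (M (nat_lit 12844806377626037911551)) (T.h (P (nat_lit 0)) (M (nat_lit 6591774721277951)))) (T.h (P (nat_lit 0)) (P (nat_lit 38487973547999232))))) (T.h (T.h (T.h (P (nat_lit 0)) (T.h (M (nat_lit 206766406671320219647)) (T.h (P (nat_lit 0)) (M (nat_lit 399778677697119))))) (T.h (P (nat_lit 0)) (T.h (T.h (P (nat_lit 0)) (P (nat_lit 48030240726480))) (P (nat_lit 0))))) (T.h (T.h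 (P (nat_lit 0)) (P (nat_lit 73671756276744192))) (T.h (T.h (T.h (P (nat_lit 0)) (P (nat_lit 16513881934288))) (P (nat_lit 0))) (P (nat_lit 0)))))))), (T.h (T.h (P (nat_lit 0)) (T.h (T.h (P (nat_lit 0)) (T.h (P (nat_lit 43822609512558630782631936)) (T.h (P (nat_lit 0)) (T.h (M (nat_lit 178327785982151098367)) (T.h (P (nat_lit 0)) (P (nat_lit 23220499327104))))))) (T.h (P (nat_lit 0)) (T.h (T.h (P (nat_lit 0)) (T.h (M (nat_lit 25450150049553055743)) (T.h (P (nat_lit 0)) (M (nat_lit 13428688508639))))) (T.h (P (nat_lit 0)) (T.h (T.h (P (nat_lit 0)) (P (nat_lit 453752910000))) (P (nat_lit 0)))))))) (T.h (T.h (T.h (P (nat_lit 4368116058228354375101710336)) (T.h (P (nat_lit 0)) (T.h (M (nat_lit 1446955682022832472063)) (T.h (P (nat_lit 0)) (P (nat_lit 21747700251721728)))))) (T.h (P (nat_lit 0)) (T.h (T.h (M (nat_lit 28928474127679788941311)) (T.h (P (nat_lit 0)) (P (nat_lit 66634387635765248)))) (T.h (P (nat_lit 0)) (M (nat_lit 59547746259075071))))))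 (T.h (T.h (P (nat_lit 0)) (T.h (T.h (P (nat_lit 0)) (T.h (M (nat_lit 38265554109261152255)) (T.h (P (nat_lit 0)) (M (nat_lit 85726898830271))))) (T.h (P (nat_lit 0)) (T.h (T.h (P (nat_lit 0)) (M (nat_lit 30149558717327))) (P (nat_lit 0)))))) (T.h (T.h (T.h (M (nat_lit 7380388423830398304255)) (T.h (P (nat_lit 0)) (P (nat_lit 634665869733625856)))) (T.h (P (nat_lit 0)) (P (nat_lit 147458440066596864)))) (T.h (T.h (P (nat_lit 0)) (T.h (T.h (P (nat_lit 0)) (P (nat_lit 37567969112640))) (P (nat_lit 0)))) (P (nat_lit 5045585517576192))))))), (T.h (T.h (P (nat_lit 0)) (T.h (T.h (M (nat_lit 3335675229011176419139518463)) (T.h (P (nat_lit 0)) (T.h (P (nat_lit 24602323935072788414464)) (T.h (P (nat_lit 0)) (P (nat_lit 227435957508997120)))))) (T.h (P (nat_lit 0)) (T.h (T.h (M (nat_lit 2556215325078874750975)) (T.h (P (nat_lit 0)) (M (nat_lit 16203078846971903)))) (T.h (P (nat_lit 0)) (P (nat_lit 3963771170832384))))))) (T.h (T.h (T.h (P (nat_lit 0)) (T.h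 (M (nat_lit 1974649089754001720737791)) (T.h (P (nat_lit 0)) (T.h (P (nat_lit 365582842032417669120)) (T.h (P (nat_lit 0)) (P (nat_lit 418099953986208))))))) (T.h (P (nat_lit 0)) (T.h (T.h (P (nat_lit 0)) (T.h (M (nat_lit 18276632113639849983)) (T.h (P (nat_lit 0)) (M (nat_lit 111663856591199))))) (T.h (P (nat_lit 0)) (T.h (T.h (P (nat_lit 0)) (M (nat_lit 235517594865407))) (P (nat_lit 0))))))) (T.h (T.h (P (nat_lit 0)) (T.h (T.h (M (nat_lit 7048662301444117889023)) (T.h (P (nat_lit 0)) (P (nat_lit 69244562661801984)))) (T.h (P (nat_lit 0)) (P (nat_lit 10764761764429824))))) (T.h (T.h (T.h (P (nat_lit 0)) (T.h (M (nat_lit 12150048673841020927)) (T.h (P (nat_lit 0)) (P (nat_lit 356919587573616))))) (T.h (P (nat_lit 0)) (T.h (T.h (P (nat_lit 0)) (P (nat_lit 157454749658304))) (P (nat_lit 0))))) (T.h (T.h (P (nat_lit 0)) (M (nat_lit 55932866233335807))) (T.h (T.h (T.h (P (nat_lit 0)) (M (nat_lit 153484319177423))) (P (nat_lit 0))) (P (nat_lit 0))))))))]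
def lP11_32 : List (T ℤ) := [(T.h (T.h (P (nat_lit 0)) (T.h (T.h (P (nat_lit 0)) (T.h (M (nat_lit 11796831539250381828653055)) (T.h (P (nat_lit 0)) (M (nat_lit 201848382004607844351))))) (T.h (P (nat_lit 0)) (T.h (T.h (P (nat_lit 0)) (P (nat_lit 11447994264663883776))) (P (nat_lit 0)))))) (T.h (T.h (T.h (M (nat_lit 19010715559394962457480921087)) (T.h (P (nat_lit 0)) (T.h (M (nat_lit 337256168840861870718975)) (T.h (P (nat_lit 0)) (M (nat_lit 537460537767034879)))))) (T.h (P (nat_lit 0)) (T.h (T.h (M (nat_lit 4534848523537343315967)) (T.h (P (nat_lit 0)) (P (nat_lit 146445637852594176)))) (T.h (P (nat_lit 0)) (P (nat_lit 72142769679368192)))))) (T.h (T.h (P (nat_lit 0)) (T.h (T.h (P (nat_lit 0)) (P (nat_lit 27730665333827043328))) (P (nat_lit 0)))) (T.h (T.h (T.h (P (nat_lit 17167194726438533070848)) (T.h (P (nat_lit 0)) (M (nat_lit 217035851084890111)))) (T.h (P (nat_lit 0)) (M (nat_lit 39240781425016831)))) (T.h (P (nat_lit 0)) (P (nat_lit 51833134429732864))))))),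 (P (nat_lit 0)), (T.h (T.h (T.h (P (nat_lit 4345229455277619414954397401088)) (T.h (P (nat_lit 0)) (T.h (M (nat_lit 17410927576039392920207359)) (T.h (P (nat_lit 0)) (T.h (P (nat_lit 27007099472634183680)) (T.h (P (nat_lit 0)) (P (nat_lit 2216894909152)))))))) (T.h (P (nat_lit 0)) (T.h (T.h (M (nat_lit 6944273271222253220003839)) (T.h (P (nat_lit 0)) (T.h (P (nat_lit 24896289713661411328)) (T.h (P (nat_lit 0)) (P (nat_lit 86229969563360)))))) (T.h (P (nat_lit 0)) (T.h (T.h (P (nat_lit 5593462061897089024)) (T.h (P (nat_lit 0)) (P (nat_lit 9436951179808)))) (T.h (P (nat_lit 0)) (P (nat_lit 1226188406752)))))))) (T.h (T.h (P (nat_lit 0)) (T.h (T.h (P (nat_lit 0)) (T.h (M (nat_lit 104733288933201473961983)) (T.h (P (nat_lit 0)) (P (nat_lit 70819775688146944))))) (T.h (P (nat_lit 0)) (T.h (T.h (P (nat_lit 0)) (M (nat_lit 89812631248699391))) (P (nat_lit 0)))))) (T.h (T.h (T.h (P (nat_lit 48017170341066311653654528)) (T.h (P (nat_lit 0)) (T.h (M (nat_lit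 96945337112146739199)) (T.h (P (nat_lit 0)) (P (nat_lit 129946810063712)))))) (T.h (P (nat_lit 0)) (T.h (T.h (M (nat_lit 127485411942549422079)) (T.h (P (nat_lit 0)) (P (nat_lit 53817447588928)))) (T.h (P (nat_lit 0)) (P (nat_lit 70963940777632)))))) (T.h (T.h (P (nat_lit 0)) (T.h (T.h (P (nat_lit 0)) (M (nat_lit 722480102479364095))) (P (nat_lit 0)))) (T.h (T.h (T.h (M (nat_lit 30611565311590137855)) (T.h (P (nat_lit 0)) (M (nat_lit 68198036147983)))) (T.h (P (nat_lit 0)) (M (nat_lit 58208410205215)))) (T.h (P (nat_lit 0)) (M (nat_lit 9307161110703)))))))), (T.h (T.h (T.h (P (nat_lit 0)) (T.h (P (nat_lit 11401952711144634565808619520)) (T.h (P (nat_lit 0)) (T.h (M (nat_lit 349580771751851196415)) (T.h (P (nat_lit 0)) (M (nat_lit 25174507732271103))))))) (T.h (P (nat_lit 0)) (T.h (T.h (P (nat_lit 0)) (T.h (P (nat_lit 9211029130427594964992)) (T.h (P (nat_lit 0)) (P (nat_lit 82684409123340288))))) (T.h (P (nat_lit 0)) (T.h (T.h (P (nat_lit 0)) (P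 (nat_lit 157045282990014464))) (P (nat_lit 0))))))) (T.h (T.h (P (nat_lit 0)) (T.h (T.h (P (nat_lit 3580340693341382729793536)) (T.h (P (nat_lit 0)) (T.h (M (nat_lit 52911668563758022655)) (T.h (P (nat_lit 0)) (P (nat_lit 54023327974512)))))) (T.h (P (nat_lit 0)) (T.h (T.h (M (nat_lit 135983825542308691967)) (T.h (P (nat_lit 0)) (P (nat_lit 90268290434928)))) (T.h (P (nat_lit 0)) (M (nat_lit 4685423447423))))))) (T.h (T.h (T.h (P (nat_lit 0)) (T.h (P (nat_lit 89621593371965055303680)) (T.h (P (nat_lit 0)) (P (nat_lit 387135896393826304))))) (T.h (P (nat_lit 0)) (T.h (T.h (P (nat_lit 0)) (M (nat_lit 948573949698473983))) (P (nat_lit 0))))) (T.h (T.h (P (nat_lit 0)) (T.h (T.h (M (nat_lit 276770331442141986815)) (T.h (P (nat_lit 0)) (P (nat_lit 254418358177664)))) (T.h (P (nat_lit 0)) (M (nat_lit 7866646795423))))) (T.h (T.h (T.h (P (nat_lit 0)) (P (nat_lit 92959733253701632))) (P (nat_lit 0))) (T.h (T.h (P (nat_lit 0)) (M (nat_lit 12012813532351)))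 (P (nat_lit 0)))))))), (T.h (T.h (T.h (M (nat_lit 851272596110149998887372324863)) (T.h (P (nat_lit 0)) (T.h (M (nat_lit 82576336320761497074532351)) (T.h (P (nat_lit 0)) (T.h (M (nat_lit 159607655211324145663)) (T.h (P (nat_lit 0)) (M (nat_lit 31513377938015)))))))) (T.h (P (nat_lit 0)) (T.h (T.h (M (nat_lit 23188096804866667602509823)) (T.h (P (nat_lit 0)) (T.h (M (nat_lit 115216683789640007679)) (T.h (P (nat_lit 0)) (P (nat_lit 117921880255536)))))) (T.h (P (nat_lit 0)) (T.h (T.h (P (nat_lit 57736743200067944448)) (T.h (P (nat_lit 0)) (P (nat_lit 106034947275024)))) (T.h (P (nat_lit 0)) (P (nat_lit 12514805647488)))))))) (T.h (T.h (P (nat_lit 0)) (T.h (T.h (P (nat_lit 0)) (T.h (P (nat_lit 108238888629147831107584)) (T.h (P (nat_lit 0)) (M (nat_lit 477586486620127231))))) (T.h (P (nat_lit 0)) (T.h (T.h (P (nat_lit 0)) (M (nat_lit 303228862671224831))) (P (nat_lit 0)))))) (T.h (T.h (T.h (M (nat_lit 117630942955441938893897727)) (T.h (P (nat_lit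 0)) (T.h (M (nat_lit 148602608935352926207)) (T.h (P (nat_lit 0)) (M (nat_lit 143720920917935)))))) (T.h (P (nat_lit 0)) (T.h (T.h (P (nat_lit 47412320963395584000)) (T.h (P (nat_lit 0)) (M (nat_lit 21588494913791)))) (T.h (P (nat_lit 0)) (P (nat_lit 106034947275024)))))) (T.h (T.h (P (nat_lit 0)) (T.h (T.h (P (nat_lit 0)) (M (nat_lit 1157162016127385599))) (P (nat_lit 0)))) (T.h (T.h (T.h (M (nat_lit 884226064002586771455)) (T.h (P (nat_lit 0)) (M (nat_lit 143720920917935)))) (T.h (P (nat_lit 0)) (P (nat_lit 117921880255536)))) (T.h (P (nat_lit 0)) (M (nat_lit 31513377938015)))))))), (T.h (T.h (T.h (P (nat_lit 0)) (T.h (P (nat_lit 20336825086277710617774129152)) (T.h (P (nat_lit 0)) (T.h (M (nat_lit 19845638658273772044287)) (T.h (P (nat_lit 0)) (M (nat_lit 172462478615511039))))))) (T.h (P (nat_lit 0)) (T.h (T.h (P (nat_lit 0)) (T.h (M (nat_lit 35675785022990670888959)) (T.h (P (nat_lit 0)) (P (nat_lit 61532118309339136))))) (T.h (P (nat_lit 0))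 (T.h (T.h (P (nat_lit 0)) (M (nat_lit 36241238331195391))) (P (nat_lit 0))))))) (T.h (T.h (P (nat_lit 0)) (T.h (T.h (P (nat_lit 100406850484060940098600960)) (T.h (P (nat_lit 0)) (T.h (P (nat_lit 932873236081316724736)) (T.h (P (nat_lit 0)) (M (nat_lit 493402670761247)))))) (T.h (P (nat_lit 0)) (T.h (T.h (M (nat_lit 128456059387660730367)) (T.h (P (nat_lit 0)) (M (nat_lit 105852932695583)))) (T.h (P (nat_lit 0)) (M (nat_lit 59828803719263))))))) (T.h (T.h (T.h (P (nat_lit 0)) (T.h (P (nat_lit 66911026800784601776128)) (T.h (P (nat_lit 0)) (M (nat_lit 162785966131183615))))) (T.h (P (nat_lit 0)) (T.h (T.h (P (nat_lit 0)) (M (nat_lit 373595198247862271))) (P (nat_lit 0))))) (T.h (T.h (P (nat_lit 0)) (T.h (T.h (P (nat_lit 149060729167943827456)) (T.h (P (nat_lit 0)) (M (nat_lit 187314034551551)))) (T.h (P (nat_lit 0)) (P (nat_lit 79993172440224))))) (T.h (T.h (T.h (P (nat_lit 0)) (M (nat_lit 135904604962209791))) (P (nat_lit 0))) (T.h (T.h (P (nat_lit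 0)) (P (nat_lit 8562378236832))) (P (nat_lit 0)))))))), (T.h (T.h (T.h (P (nat_lit 6956814252741079948443380613120)) (T.h (P (nat_lit 0)) (T.h (P (nat_lit 7835852522007655234928640)) (T.h (P (nat_lit 0)) (P (nat_lit 190603457277588406272)))))) (T.h (P (nat_lit 0)) (T.h (T.h (P (nat_lit 9834762153925330696404992)) (T.h (P (nat_lit 0)) (M (nat_lit 83243563760396271615)))) (T.h (P (nat_lit 0)) (M (nat_lit 907467354663813119)))))) (T.h (T.h (P (nat_lit 0)) (T.h (T.h (P (nat_lit 0)) (T.h (M (nat_lit 245888729080067128295423)) (T.h (P (nat_lit 0)) (P (nat_lit 281155397963546624))))) (T.h (P (nat_lit 0)) (T.h (T.h (P (nat_lit 0)) (P (nat_lit 200925852248375296))) (P (nat_lit 0)))))) (T.h (T.h (T.h (P (nat_lit 12512308161857980632924160)) (T.h (P (nat_lit 0)) (P (nat_lit 696574428408140791808)))) (T.h (P (nat_lit 0)) (P (nat_lit 89162961353009266688)))) (T.h (T.h (P (nat_lit 0)) (T.h (T.h (P (nat_lit 0)) (P (nat_lit 207377764562108416))) (P (nat_lit 0))))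 (P (nat_lit 31284549361191616512)))))), (T.h (T.h (P (nat_lit 0)) (T.h (T.h (P (nat_lit 0)) (T.h (P (nat_lit 8531529062098120212480)) (T.h (P (nat_lit 0)) (T.h (M (nat_lit 16192905334090629119)) (T.h (P (nat_lit 0)) (M (nat_lit 4999931188511))))))) (T.h (P (nat_lit 0)) (T.h (T.h (P (nat_lit 0)) (T.h (P (nat_lit 220896974080049152)) (T.h (P (nat_lit 0)) (M (nat_lit 7665255229367))))) (T.h (P (nat_lit 0)) (T.h (T.h (P (nat_lit 0)) (M (nat_lit 3552485475551))) (P (nat_lit 0)))))))) (T.h (T.h (T.h (P (nat_lit 3098604776172329639948058624)) (T.h (P (nat_lit 0)) (T.h (M (nat_lit 20386365812639080120319)) (T.h (P (nat_lit 0)) (P (nat_lit 43855150067777536)))))) (T.h (P (nat_lit 0)) (T.h (T.h (P (nat_lit 11963179285475925950464)) (T.h (P (nat_lit 0)) (M (nat_lit 37995606355640319)))) (T.h (P (nat_lit 0)) (M (nat_lit 29449097314795519)))))) (T.h (T.h (P (nat_lit 0)) (T.h (T.h (P (nat_lit 0)) (T.h (P (nat_lit 4385020619398316032)) (T.h (P (nat_lit 0)) (P (nat_lit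 26647936252512))))) (T.h (P (nat_lit 0)) (T.h (T.h (P (nat_lit 0)) (P (nat_lit 96406081654456))) (P (nat_lit 0)))))) (T.h (T.h (T.h (M (nat_lit 38481021830886875725823)) (T.h (P (nat_lit 0)) (P (nat_lit 77841860088954880)))) (T.h (P (nat_lit 0)) (M (nat_lit 97067009098317823)))) (T.h (T.h (P (nat_lit 0)) (T.h (T.h (P (nat_lit 0)) (P (nat_lit 427880890365408))) (P (nat_lit 0)))) (P (nat_lit 37063228215164928)))))))]
def lP11_33 : List (T ℤ) := [(T.h (T.h (P (nat_lit 0)) (T.h (T.h (P (nat_lit 13486045689689381124416995328)) (T.h (P (nat_lit 0)) (T.h (M (nat_lit 3894668710928202072063)) (T.h (P (nat_lit 0)) (P (nat_lit 135401649344462848)))))) (T.h (P (nat_lit 0)) (T.h (T.h (M (nat_lit 2795115728045980254207)) (T.h (P (nat_lit 0)) (P (nat_lit 71914844739059712)))) (T.h (P (nat_lit 0)) (M (nat_lit 22427009605419007))))))) (T.h (T.h (T.h (P (nat_lit 0)) (T.h (P (nat_lit 7085440782410300971286528)) (T.h (P (nat_lit 0)) (T.h (M (nat_lit 139189919279736684543))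 (T.h (P (nat_lit 0)) (M (nat_lit 6856562256479))))))) (T.h (P (nat_lit 0)) (T.h (T.h (P (nat_lit 0)) (T.h (M (nat_lit 44222692011483856895)) (T.h (P (nat_lit 0)) (P (nat_lit 98000281546864))))) (T.h (P (nat_lit 0)) (T.h (T.h (P (nat_lit 0)) (P (nat_lit 47631884367696))) (P (nat_lit 0))))))) (T.h (T.h (P (nat_lit 0)) (T.h (T.h (P (nat_lit 75508913859122119573504)) (T.h (P (nat_lit 0)) (M (nat_lit 993749329930911743)))) (T.h (P (nat_lit 0)) (P (nat_lit 390217743366848512))))) (T.h (T.h (T.h (P (nat_lit 0)) (T.h (M (nat_lit 192992216273947459583)) (T.h (P (nat_lit 0)) (P (nat_lit 11968217176688))))) (T.h (P (nat_lit 0)) (T.h (T.h (P (nat_lit 0)) (P (nat_lit 273709534607184))) (P (nat_lit 0))))) (T.h (T.h (P (nat_lit 0)) (M (nat_lit 52973549007372287))) (T.h (T.h (T.h (P (nat_lit 0)) (M (nat_lit 347954802878815))) (P (nat_lit 0))) (P (nat_lit 0)))))))), (T.h (T.h (P (nat_lit 0)) (T.h (T.h (P (nat_lit 0)) (T.h (P (nat_lit 30679117521454634350149632))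 (T.h (P (nat_lit 0)) (T.h (M (nat_lit 123536000743622311935)) (T.h (P (nat_lit 0)) (M (nat_lit 82313255619695))))))) (T.h (P (nat_lit 0)) (T.h (T.h (P (nat_lit 0)) (T.h (P (nat_lit 367868479617498087424)) (T.h (P (nat_lit 0)) (P (nat_lit 60989033757360))))) (T.h (P (nat_lit 0)) (T.h (T.h (P (nat_lit 0)) (M (nat_lit 102634328878031))) (P (nat_lit 0)))))))) (T.h (T.h (T.h (M (nat_lit 32904838678025222514974654463)) (T.h (P (nat_lit 0)) (T.h (M (nat_lit 569524322453197634404351)) (T.h (P (nat_lit 0)) (M (nat_lit 164508673474199551)))))) (T.h (P (nat_lit 0)) (T.h (T.h (P (nat_lit 51579858231777065697280)) (T.h (P (nat_lit 0)) (M (nat_lit 383777710999011327)))) (T.h (P (nat_lit 0)) (P (nat_lit 93780380375121920)))))) (T.h (T.h (P (nat_lit 0)) (T.h (T.h (P (nat_lit 0)) (T.h (P (nat_lit 909480425701685329920)) (T.h (P (nat_lit 0)) (M (nat_lit 98435914191599))))) (T.h (P (nat_lit 0)) (T.h (T.h (P (nat_lit 0)) (M (nat_lit 41886147061871))) (P (nat_lit 0))))))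 (T.h (T.h (T.h (P (nat_lit 230623321736917653913600)) (T.h (P (nat_lit 0)) (M (nat_lit 841040843064377343)))) (T.h (P (nat_lit 0)) (P (nat_lit 242030354644992000)))) (T.h (T.h (P (nat_lit 0)) (T.h (T.h (P (nat_lit 0)) (P (nat_lit 98202852104064))) (P (nat_lit 0)))) (P (nat_lit 605889743037169664))))))), (T.h (T.h (P (nat_lit 0)) (T.h (T.h (M (nat_lit 11643964207393972780093407231)) (T.h (P (nat_lit 0)) (T.h (M (nat_lit 184712720798997071003647)) (T.h (P (nat_lit 0)) (M (nat_lit 42480007429734399)))))) (T.h (P (nat_lit 0)) (T.h (T.h (M (nat_lit 29396462670571011833855)) (T.h (P (nat_lit 0)) (P (nat_lit 180087968380207104)))) (T.h (P (nat_lit 0)) (M (nat_lit 20449760499122175))))))) (T.h (T.h (T.h (P (nat_lit 0)) (T.h (M (nat_lit 136075761118814041045729279)) (T.h (P (nat_lit 0)) (T.h (P (nat_lit 14588165752864374784)) (T.h (P (nat_lit 0)) (P (nat_lit 184186808190864))))))) (T.h (P (nat_lit 0)) (T.h (T.h (P (nat_lit 0)) (T.h (P (nat_lit 617493427888091824128))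 (T.h (P (nat_lit 0)) (M (nat_lit 693522614239631))))) (T.h (P (nat_lit 0)) (T.h (T.h (P (nat_lit 0)) (M (nat_lit 674888095672991))) (P (nat_lit 0))))))) (T.h (T.h (P (nat_lit 0)) (T.h (T.h (M (nat_lit 153061734562480164700159)) (T.h (P (nat_lit 0)) (P (nat_lit 101493264872374272)))) (T.h (P (nat_lit 0)) (P (nat_lit 153120127768805376))))) (T.h (T.h (T.h (P (nat_lit 0)) (T.h (P (nat_lit 392321056459123064832)) (T.h (P (nat_lit 0)) (P (nat_lit 257353026753168))))) (T.h (P (nat_lit 0)) (T.h (T.h (P (nat_lit 0)) (M (nat_lit 962641220489135))) (P (nat_lit 0))))) (T.h (T.h (P (nat_lit 0)) (P (nat_lit 240888816312598528))) (T.h (T.h (T.h (P (nat_lit 0)) (P (nat_lit 755771081354496))) (P (nat_lit 0))) (P (nat_lit 0)))))))), (T.h (T.h (P (nat_lit 0)) (T.h (T.h (P (nat_lit 0)) (T.h (M (nat_lit 63810644508943599638937599)) (T.h (P (nat_lit 0)) (P (nat_lit 77566262738585387008))))) (T.h (P (nat_lit 0)) (T.h (T.h (P (nat_lit 0)) (M (nat_lit 247544084512351715327)))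 (P (nat_lit 0)))))) (T.h (T.h (T.h (P (nat_lit 13301083954609772505539280896)) (T.h (P (nat_lit 0)) (T.h (P (nat_lit 589225269835927444783104)) (T.h (P (nat_lit 0)) (M (nat_lit 37379241387458559)))))) (T.h (P (nat_lit 0)) (T.h (T.h (M (nat_lit 336160875623036496117759)) (T.h (P (nat_lit 0)) (P (nat_lit 331598655029673984)))) (T.h (P (nat_lit 0)) (P (nat_lit 159861587838763008)))))) (T.h (T.h (P (nat_lit 0)) (T.h (T.h (P (nat_lit 0)) (P (nat_lit 157109970769566236672))) (P (nat_lit 0)))) (T.h (T.h (T.h (P (nat_lit 141720753586842533625856)) (T.h (P (nat_lit 0)) (M (nat_lit 184549199889006591)))) (T.h (P (nat_lit 0)) (P (nat_lit 50015102462754816)))) (T.h (P (nat_lit 0)) (M (nat_lit 65329990424068095))))))), (T.h (T.h (T.h (P (nat_lit 0)) (T.h (P (nat_lit 13104509293159488922956333056)) (T.h (P (nat_lit 0)) (T.h (M (nat_lit 8183322561133733216255)) (T.h (P (nat_lit 0)) (P (nat_lit 3185419634851840))))))) (T.h (P (nat_lit 0)) (T.h (T.h (P (nat_lit 0))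 (T.h (M (nat_lit 25950504218981834948607)) (T.h (P (nat_lit 0)) (P (nat_lit 27718409163718656))))) (T.h (P (nat_lit 0)) (T.h (T.h (P (nat_lit 0)) (P (nat_lit 52028122631192576))) (P (nat_lit 0))))))) (T.h (T.h (P (nat_lit 0)) (T.h (T.h (M (nat_lit 18179769838870498853781503)) (T.h (P (nat_lit 0)) (T.h (M (nat_lit 4274468170930061311)) (T.h (P (nat_lit 0)) (P (nat_lit 184839318268800)))))) (T.h (P (nat_lit 0)) (T.h (T.h (M (nat_lit 209972500408748212223)) (T.h (P (nat_lit 0)) (P (nat_lit 55762231838416)))) (T.h (P (nat_lit 0)) (P (nat_lit 14342743125232))))))) (T.h (T.h (T.h (P (nat_lit 0)) (T.h (M (nat_lit 26957485890468973641727)) (T.h (P (nat_lit 0)) (P (nat_lit 41569820521021440))))) (T.h (P (nat_lit 0)) (T.h (T.h (P (nat_lit 0)) (M (nat_lit 51767154953715711))) (P (nat_lit 0))))) (T.h (T.h (P (nat_lit 0)) (T.h (T.h (M (nat_lit 122988291503125692415)) (T.h (P (nat_lit 0)) (P (nat_lit 67321417156000)))) (T.h (P (nat_lit 0)) (M (nat_lit 379943813725007)))))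 (T.h (T.h (T.h (P (nat_lit 0)) (M (nat_lit 72261525984329727))) (P (nat_lit 0))) (T.h (T.h (P (nat_lit 0)) (M (nat_lit 319428107412175))) (P (nat_lit 0)))))))), (T.h (T.h (T.h (P (nat_lit 2997439389140727423209392046080)) (T.h (P (nat_lit 0)) (T.h (P (nat_lit 21979810714823706965704704)) (T.h (P (nat_lit 0)) (T.h (P (nat_lit 40782294402191065088)) (T.h (P (nat_lit 0)) (P (nat_lit 11242220223216)))))))) (T.h (P (nat_lit 0)) (T.h (T.h (M (nat_lit 54967093526639888864116735)) (T.h (P (nat_lit 0)) (T.h (M (nat_lit 6923652398082686975)) (T.h (P (nat_lit 0)) (P (nat_lit 51730078582032)))))) (T.h (P (nat_lit 0)) (T.h (T.h (P (nat_lit 87868705848145477632)) (T.h (P (nat_lit 0)) (P (nat_lit 63617011562544)))) (T.h (P (nat_lit 0)) (M (nat_lit 32785963362287)))))))) (T.h (T.h (P (nat_lit 0)) (T.h (T.h (P (nat_lit 0)) (T.h (P (nat_lit 198010967556975059009536)) (T.h (P (nat_lit 0)) (P (nat_lit 670266917546426368))))) (T.h (P (nat_lit 0)) (T.h (T.h (P (nat_lit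 0)) (M (nat_lit 1063261266915491839))) (P (nat_lit 0)))))) (T.h (T.h (T.h (P (nat_lit 35977216366941970284675072)) (T.h (P (nat_lit 0)) (T.h (P (nat_lit 225656022705016668160)) (T.h (P (nat_lit 0)) (M (nat_lit 740058833039)))))) (T.h (P (nat_lit 0)) (T.h (T.h (M (nat_lit 1762622514959992487935)) (T.h (P (nat_lit 0)) (M (nat_lit 73575646358879)))) (T.h (P (nat_lit 0)) (M (nat_lit 250495927025999)))))) (T.h (T.h (P (nat_lit 0)) (T.h (T.h (P (nat_lit 0)) (M (nat_lit 1287842794714234879))) (P (nat_lit 0)))) (T.h (T.h (T.h (P (nat_lit 140520015652775264256)) (T.h (P (nat_lit 0)) (P (nat_lit 204575962751184)))) (T.h (P (nat_lit 0)) (M (nat_lit 57066838422287)))) (T.h (P (nat_lit 0)) (M (nat_lit 25785911420447)))))))), (T.h (T.h (T.h (P (nat_lit 0)) (T.h (M (nat_lit 18546290553820891719934148607)) (T.h (P (nat_lit 0)) (T.h (M (nat_lit 22341720632500368179199)) (T.h (P (nat_lit 0)) (M (nat_lit 30280732615884799))))))) (T.h (P (nat_lit 0)) (T.h (T.h (P (nat_lit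 0)) (T.h (M (nat_lit 210437898605301061386239)) (T.h (P (nat_lit 0)) (P (nat_lit 155420708231987200))))) (T.h (P (nat_lit 0)) (T.h (T.h (P (nat_lit 0)) (P (nat_lit 119309821179199488))) (P (nat_lit 0))))))) (T.h (T.h (P (nat_lit 0)) (T.h (T.h (M (nat_lit 200019581407957227222859775)) (T.h (P (nat_lit 0)) (T.h (P (nat_lit 520332264399049850880)) (T.h (P (nat_lit 0)) (M (nat_lit 652272875091791)))))) (T.h (P (nat_lit 0)) (T.h (T.h (P (nat_lit 284957924321170292736)) (T.h (P (nat_lit 0)) (M (nat_lit 715576709790719)))) (T.h (P (nat_lit 0)) (P (nat_lit 343761685065648))))))) (T.h (T.h (T.h (P (nat_lit 0)) (T.h (M (nat_lit 325952085450701739655167)) (T.h (P (nat_lit 0)) (M (nat_lit 733288907609882623))))) (T.h (P (nat_lit 0)) (T.h (T.h (P (nat_lit 0)) (P (nat_lit 552192088727060480))) (P (nat_lit 0))))) (T.h (T.h (P (nat_lit 0)) (T.h (T.h (M (nat_lit 177452651307989991423)) (T.h (P (nat_lit 0)) (M (nat_lit 370281257012735)))) (T.h (P (nat_lit 0)) (M (nat_lit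 139875434361503))))) (T.h (T.h (T.h (P (nat_lit 0)) (P (nat_lit 404521232251764736))) (P (nat_lit 0))) (T.h (T.h (P (nat_lit 0)) (P (nat_lit 426040037735472))) (P (nat_lit 0)))))))), (T.h (T.h (T.h (M (nat_lit 8062519416909645403126147055615)) (T.h (P (nat_lit 0)) (T.h (M (nat_lit 127752026040341769536667647)) (T.h (P (nat_lit 0)) (P (nat_lit 103829370062434729984)))))) (T.h (P (nat_lit 0)) (T.h (T.h (M (nat_lit 130429572048274419473186815)) (T.h (P (nat_lit 0)) (M (nat_lit 388000715452236955647)))) (T.h (P (nat_lit 0)) (P (nat_lit 71637353346579300352)))))) (T.h (T.h (P (nat_lit 0)) (T.h (T.h (P (nat_lit 0)) (T.h (M (nat_lit 881153977836019529023487)) (T.h (P (nat_lit 0)) (P (nat_lit 1381881065414066176))))) (T.h (P (nat_lit 0)) (T.h (T.h (P (nat_lit 0)) (P (nat_lit 1375429153100333056))) (P (nat_lit 0)))))) (T.h (T.h (T.h (M (nat_lit 132428481680192094934663167)) (T.h (P (nat_lit 0)) (P (nat_lit 219410751602894569472)))) (T.h (P (nat_lit 0)) (M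 (nat_lit 560407240565642493951)))) (T.h (T.h (P (nat_lit 0)) (T.h (T.h (P (nat_lit 0)) (P (nat_lit 1455658698815504384))) (P (nat_lit 0)))) (P (nat_lit 263148277978831519744))))))]
def lP11_34 : List (T ℤ) := [(T.h (T.h (P (nat_lit 0)) (T.h (T.h (P (nat_lit 0)) (T.h (M (nat_lit 117027450634404717431619583)) (T.h (P (nat_lit 0)) (T.h (P (nat_lit 65111788684669091840)) (T.h (P (nat_lit 0)) (M (nat_lit 1762651343375))))))) (T.h (P (nat_lit 0)) (T.h (T.h (P (nat_lit 0)) (T.h (M (nat_lit 3472715907627745279)) (T.h (P (nat_lit 0)) (M (nat_lit 16610803796111))))) (T.h (P (nat_lit 0)) (T.h (T.h (P (nat_lit 0)) (P (nat_lit 41325168332064))) (P (nat_lit 0)))))))) (T.h (T.h (T.h (P (nat_lit 4383589187157381946997211136)) (T.h (P (nat_lit 0)) (T.h (M (nat_lit 33242811703095004758015)) (T.h (P (nat_lit 0)) (M (nat_lit 13541206185443327)))))) (T.h (P (nat_lit 0)) (T.h (T.h (M (nat_lit 483039199991606506684415)) (T.h (P (nat_lit 0)) (P (nat_lit 564353510155419648))))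 (T.h (P (nat_lit 0)) (M (nat_lit 431540193161183231)))))) (T.h (T.h (P (nat_lit 0)) (T.h (T.h (P (nat_lit 0)) (T.h (M (nat_lit 483494862802948980735)) (T.h (P (nat_lit 0)) (M (nat_lit 23342997095855))))) (T.h (P (nat_lit 0)) (T.h (T.h (P (nat_lit 0)) (M (nat_lit 135470104338527))) (P (nat_lit 0)))))) (T.h (T.h (T.h (M (nat_lit 232256291288697188384767)) (T.h (P (nat_lit 0)) (P (nat_lit 80162694280544256)))) (T.h (P (nat_lit 0)) (M (nat_lit 96466544482779135)))) (T.h (T.h (P (nat_lit 0)) (T.h (T.h (P (nat_lit 0)) (M (nat_lit 117247060976351))) (P (nat_lit 0)))) (M (nat_lit 54969588572815359))))))), (T.h (T.h (P (nat_lit 0)) (T.h (T.h (P (nat_lit 10098823510839615258793869312)) (T.h (P (nat_lit 0)) (T.h (M (nat_lit 68449625130738779160575)) (T.h (P (nat_lit 0)) (P (nat_lit 69615724044402688)))))) (T.h (P (nat_lit 0)) (T.h (T.h (M (nat_lit 15347111945282003140607)) (T.h (P (nat_lit 0)) (P (nat_lit 47629619925549056)))) (T.h (P (nat_lit 0)) (M (nat_lit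 178329679561441279))))))) (T.h (T.h (T.h (P (nat_lit 0)) (T.h (P (nat_lit 34488381105163752200732672)) (T.h (P (nat_lit 0)) (T.h (P (nat_lit 129763650506804166656)) (T.h (P (nat_lit 0)) (M (nat_lit 53738246021903))))))) (T.h (P (nat_lit 0)) (T.h (T.h (P (nat_lit 0)) (T.h (P (nat_lit 817435440478634901504)) (T.h (P (nat_lit 0)) (P (nat_lit 29547721411632))))) (T.h (P (nat_lit 0)) (T.h (T.h (P (nat_lit 0)) (M (nat_lit 706305045045455))) (P (nat_lit 0))))))) (T.h (T.h (P (nat_lit 0)) (T.h (T.h (M (nat_lit 81377000152364184764415)) (T.h (P (nat_lit 0)) (P (nat_lit 146348188268625920)))) (T.h (P (nat_lit 0)) (M (nat_lit 1065398080356843519))))) (T.h (T.h (T.h (P (nat_lit 0)) (T.h (M (nat_lit 55130136566751559679)) (T.h (P (nat_lit 0)) (P (nat_lit 39684298899168))))) (T.h (P (nat_lit 0)) (T.h (T.h (P (nat_lit 0)) (P (nat_lit 293382072333648))) (P (nat_lit 0))))) (T.h (T.h (P (nat_lit 0)) (P (nat_lit 255163768485953536))) (T.h (T.h (T.h (P (nat_lit 0))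 (P (nat_lit 96931288604016))) (P (nat_lit 0))) (P (nat_lit 0)))))))), (T.h (T.h (P (nat_lit 0)) (T.h (T.h (P (nat_lit 0)) (T.h (M (nat_lit 56490792542494067001393151)) (T.h (P (nat_lit 0)) (M (nat_lit 276447698764093718527))))) (T.h (P (nat_lit 0)) (T.h (T.h (P (nat_lit 0)) (M (nat_lit 52572559826374098943))) (P (nat_lit 0)))))) (T.h (T.h (T.h (P (nat_lit 4098973312156333036814729216)) (T.h (P (nat_lit 0)) (T.h (M (nat_lit 92261680203773218127871)) (T.h (P (nat_lit 0)) (P (nat_lit 149424152781848576)))))) (T.h (P (nat_lit 0)) (T.h (T.h (P (nat_lit 627530395099535645868032)) (T.h (P (nat_lit 0)) (P (nat_lit 340884581242339328)))) (T.h (P (nat_lit 0)) (M (nat_lit 188587866058260479)))))) (T.h (T.h (P (nat_lit 0)) (T.h (T.h (P (nat_lit 0)) (M (nat_lit 18933636662254632959))) (P (nat_lit 0)))) (T.h (T.h (T.h (M (nat_lit 11302933404076692471807)) (T.h (P (nat_lit 0)) (P (nat_lit 108178727758004224)))) (T.h (P (nat_lit 0)) (P (nat_lit 112353382351929344))))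 (T.h (P (nat_lit 0)) (M (nat_lit 636919300485021695))))))), (T.h (T.h (T.h (P (nat_lit 0)) (T.h (M (nat_lit 6671350458022352838279036927)) (T.h (P (nat_lit 0)) (T.h (M (nat_lit 5112430650157749501951)) (T.h (P (nat_lit 0)) (P (nat_lit 7927542341664768))))))) (T.h (P (nat_lit 0)) (T.h (T.h (P (nat_lit 0)) (T.h (P (nat_lit 17553661633628670525440)) (T.h (P (nat_lit 0)) (M (nat_lit 5438317082542079))))) (T.h (P (nat_lit 0)) (T.h (T.h (P (nat_lit 0)) (P (nat_lit 171503091275661312))) (P (nat_lit 0))))))) (T.h (T.h (P (nat_lit 0)) (T.h (T.h (M (nat_lit 3949298179508003441475583)) (T.h (P (nat_lit 0)) (T.h (M (nat_lit 36553264227279699967)) (T.h (P (nat_lit 0)) (M (nat_lit 471035189730815)))))) (T.h (P (nat_lit 0)) (T.h (T.h (P (nat_lit 353432793358576648192)) (T.h (P (nat_lit 0)) (P (nat_lit 45790893067104)))) (T.h (P (nat_lit 0)) (P (nat_lit 264615634808784))))))) (T.h (T.h (T.h (P (nat_lit 0)) (T.h (P (nat_lit 17553661633628670525440)) (T.h (P (nat_lit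 0)) (M (nat_lit 5438317082542079))))) (T.h (P (nat_lit 0)) (T.h (T.h (P (nat_lit 0)) (P (nat_lit 138489125323603968))) (P (nat_lit 0))))) (T.h (T.h (P (nat_lit 0)) (T.h (T.h (P (nat_lit 353432793358576648192)) (T.h (P (nat_lit 0)) (P (nat_lit 45790893067104)))) (T.h (P (nat_lit 0)) (P (nat_lit 713839175147232))))) (T.h (T.h (T.h (P (nat_lit 0)) (P (nat_lit 171503091275661312))) (P (nat_lit 0))) (T.h (T.h (P (nat_lit 0)) (P (nat_lit 264615634808784))) (P (nat_lit 0)))))))), (T.h (T.h (T.h (P (nat_lit 13913628505482159896886761226240)) (T.h (P (nat_lit 0)) (T.h (P (nat_lit 19669524307850661392809984)) (T.h (P (nat_lit 0)) (M (nat_lit 1814934709327626239)))))) (T.h (P (nat_lit 0)) (T.h (T.h (P (nat_lit 20348160683865635867852800)) (T.h (P (nat_lit 0)) (P (nat_lit 5919397592612995072)))) (T.h (P (nat_lit 0)) (P (nat_lit 221888006638780022784)))))) (T.h (T.h (P (nat_lit 0)) (T.h (T.h (P (nat_lit 0)) (T.h (M (nat_lit 491777458160134256590847)) (T.h (P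 (nat_lit 0)) (P (nat_lit 401851704496750592))))) (T.h (P (nat_lit 0)) (T.h (T.h (P (nat_lit 0)) (P (nat_lit 488533162525655040))) (P (nat_lit 0)))))) (T.h (T.h (T.h (P (nat_lit 20348160683865635867852800)) (T.h (P (nat_lit 0)) (P (nat_lit 5919397592612995072)))) (T.h (P (nat_lit 0)) (P (nat_lit 1393148856816281583616)))) (T.h (T.h (P (nat_lit 0)) (T.h (T.h (P (nat_lit 0)) (P (nat_lit 488533162525655040))) (P (nat_lit 0)))) (P (nat_lit 221888006638780022784)))))), (T.h (T.h (P (nat_lit 0)) (T.h (T.h (P (nat_lit 0)) (T.h (P (nat_lit 20571785943829798893649920)) (T.h (P (nat_lit 0)) (M (nat_lit 18974281611874402303))))) (T.h (P (nat_lit 0)) (T.h (T.h (P (nat_lit 0)) (M (nat_lit 131035449567928647679))) (P (nat_lit 0)))))) (T.h (T.h (T.h (M (nat_lit 14388029443105144331644698623)) (T.h (P (nat_lit 0)) (T.h (P (nat_lit 503354875083480891392)) (T.h (P (nat_lit 0)) (P (nat_lit 102178320589455360)))))) (T.h (P (nat_lit 0)) (T.h (T.h (M (nat_lit 126623895286585969606655))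 (T.h (P (nat_lit 0)) (M (nat_lit 111429585513349119)))) (T.h (P (nat_lit 0)) (M (nat_lit 366653797243060223)))))) (T.h (T.h (P (nat_lit 0)) (T.h (T.h (P (nat_lit 0)) (P (nat_lit 238444881954769731584))) (P (nat_lit 0)))) (T.h (T.h (T.h (P (nat_lit 84493875935943795408896)) (T.h (P (nat_lit 0)) (M (nat_lit 51807543743152127)))) (T.h (P (nat_lit 0)) (M (nat_lit 468341570348711935)))) (T.h (P (nat_lit 0)) (P (nat_lit 125722530491695104))))))), (P (nat_lit 0)), (T.h (T.h (T.h (P (nat_lit 0)) (T.h (P (nat_lit 2249173928889727482182238208)) (T.h (P (nat_lit 0)) (T.h (P (nat_lit 8955629997758437392384)) (T.h (P (nat_lit 0)) (M (nat_lit 12698370511568895))))))) (T.h (P (nat_lit 0)) (T.h (T.h (P (nat_lit 0)) (T.h (M (nat_lit 4991051602226185240575)) (T.h (P (nat_lit 0)) (P (nat_lit 2757992272723968))))) (T.h (P (nat_lit 0)) (T.h (T.h (P (nat_lit 0)) (P (nat_lit 2120504879120384))) (P (nat_lit 0))))))) (T.h (T.h (P (nat_lit 0)) (T.h (T.h (M (nat_lit 7185236083707900717957119))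 (T.h (P (nat_lit 0)) (T.h (P (nat_lit 2037456595029327872)) (T.h (P (nat_lit 0)) (M (nat_lit 20349208859607)))))) (T.h (P (nat_lit 0)) (T.h (T.h (P (nat_lit 3354224471622811648)) (T.h (P (nat_lit 0)) (M (nat_lit 4652274396391)))) (T.h (P (nat_lit 0)) (P (nat_lit 26085537184))))))) (T.h (T.h (T.h (P (nat_lit 0)) (T.h (P (nat_lit 23895936941836185108480)) (T.h (P (nat_lit 0)) (M (nat_lit 30764528360194047))))) (T.h (P (nat_lit 0)) (T.h (T.h (P (nat_lit 0)) (P (nat_lit 12565639803011072))) (P (nat_lit 0))))) (T.h (T.h (P (nat_lit 0)) (T.h (T.h (P (nat_lit 12105574288833118208)) (T.h (P (nat_lit 0)) (P (nat_lit 106076979911416)))) (T.h (P (nat_lit 0)) (M (nat_lit 8558637664695))))) (T.h (T.h (T.h (P (nat_lit 0)) (M (nat_lit 69107667941326847))) (P (nat_lit 0))) (T.h (T.h (P (nat_lit 0)) (M (nat_lit 37010954213999))) (P (nat_lit 0))))))))]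
def lP11_35 : List (T ℤ) := [(T.h (T.h (T.h (P (nat_lit 10240767002178687954892823199744)) (T.h (P (nat_lit 0)) (T.h (M (nat_lit 4923473558923471130460159)) (T.h (P (nat_lit 0)) (T.h (P (nat_lit 24525644828128575488)) (T.h (P (nat_lit 0)) (P (nat_lit 5106811990464)))))))) (T.h (P (nat_lit 0)) (T.h (T.h (P (nat_lit 1874529792743809499529216)) (T.h (P (nat_lit 0)) (T.h (P (nat_lit 7358800448335118336)) (T.h (P (nat_lit 0)) (M (nat_lit 2332677536639)))))) (T.h (P (nat_lit 0)) (T.h (T.h (M (nat_lit 541262488075763711)) (T.h (P (nat_lit 0)) (P (nat_lit 3880953721632)))) (T.h (P (nat_lit 0)) (M (nat_lit 1226078413135)))))))) (T.h (T.h (P (nat_lit 0)) (T.h (T.h (P (nat_lit 0)) (T.h (P (nat_lit 9916637199665389895680)) (T.h (P (nat_lit 0)) (P (nat_lit 92963174163087360))))) (T.h (P (nat_lit 0)) (T.h (T.h (P (nat_lit 0)) (M (nat_lit 9230042037944319))) (P (nat_lit 0)))))) (T.h (T.h (T.h (P (nat_lit 12058186289434892836012032)) (T.h (P (nat_lit 0)) (T.h (P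 (nat_lit 65010833342637015040)) (T.h (P (nat_lit 0)) (M (nat_lit 35834186439263)))))) (T.h (P (nat_lit 0)) (T.h (T.h (M (nat_lit 51208003868654829567)) (T.h (P (nat_lit 0)) (M (nat_lit 23507951099487)))) (T.h (P (nat_lit 0)) (M (nat_lit 4136082018047)))))) (T.h (T.h (P (nat_lit 0)) (T.h (T.h (P (nat_lit 0)) (M (nat_lit 8549900743704575))) (P (nat_lit 0)))) (T.h (T.h (T.h (M (nat_lit 2233296166391382015)) (T.h (P (nat_lit 0)) (M (nat_lit 19123657897535)))) (T.h (P (nat_lit 0)) (P (nat_lit 52052519111328)))) (T.h (P (nat_lit 0)) (P (nat_lit 33595231580112)))))))), (T.h (T.h (T.h (P (nat_lit 0)) (T.h (P (nat_lit 4368116058228354375101710336)) (T.h (P (nat_lit 0)) (T.h (M (nat_lit 7380388423830398304255)) (T.h (P (nat_lit 0)) (P (nat_lit 5045585517576192))))))) (T.h (P (nat_lit 0)) (T.h (T.h (P (nat_lit 0)) (T.h (M (nat_lit 28928474127679788941311)) (T.h (P (nat_lit 0)) (P (nat_lit 147458440066596864))))) (T.h (P (nat_lit 0)) (T.h (T.h (P (nat_lit 0))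 (M (nat_lit 59547746259075071))) (P (nat_lit 0))))))) (T.h (T.h (P (nat_lit 0)) (T.h (T.h (P (nat_lit 43822609512558630782631936)) (T.h (P (nat_lit 0)) (T.h (M (nat_lit 38265554109261152255)) (T.h (P (nat_lit 0)) (P (nat_lit 37567969112640)))))) (T.h (P (nat_lit 0)) (T.h (T.h (M (nat_lit 25450150049553055743)) (T.h (P (nat_lit 0)) (M (nat_lit 30149558717327)))) (T.h (P (nat_lit 0)) (P (nat_lit 453752910000))))))) (T.h (T.h (T.h (P (nat_lit 0)) (T.h (M (nat_lit 1446955682022832472063)) (T.h (P (nat_lit 0)) (P (nat_lit 634665869733625856))))) (T.h (P (nat_lit 0)) (T.h (T.h (P (nat_lit 0)) (P (nat_lit 66634387635765248))) (P (nat_lit 0))))) (T.h (T.h (P (nat_lit 0)) (T.h (T.h (M (nat_lit 178327785982151098367)) (T.h (P (nat_lit 0)) (M (nat_lit 85726898830271)))) (T.h (P (nat_lit 0)) (M (nat_lit 13428688508639))))) (T.h (T.h (T.h (P (nat_lit 0)) (P (nat_lit 21747700251721728))) (P (nat_lit 0))) (T.h (T.h (P (nat_lit 0)) (P (nat_lit 23220499327104)))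 (P (nat_lit 0)))))))), (T.h (T.h (T.h (P (nat_lit 2702654388380850163848774156288)) (T.h (P (nat_lit 0)) (T.h (P (nat_lit 1227016224249122383724544)) (T.h (P (nat_lit 0)) (T.h (M (nat_lit 220068457998087880703)) (T.h (P (nat_lit 0)) (M (nat_lit 123801535670687)))))))) (T.h (P (nat_lit 0)) (T.h (T.h (P (nat_lit 5204542924563187540951040)) (T.h (P (nat_lit 0)) (T.h (M (nat_lit 37801069697948450815)) (T.h (P (nat_lit 0)) (P (nat_lit 41722221577392)))))) (T.h (P (nat_lit 0)) (T.h (T.h (M (nat_lit 5967627830152921087)) (T.h (P (nat_lit 0)) (P (nat_lit 51762713890032)))) (T.h (P (nat_lit 0)) (M (nat_lit 2380305145823)))))))) (T.h (T.h (P (nat_lit 0)) (T.h (T.h (P (nat_lit 0)) (T.h (M (nat_lit 163346086602152943288319)) (T.h (P (nat_lit 0)) (M (nat_lit 255115424693092351))))) (T.h (P (nat_lit 0)) (T.h (T.h (P (nat_lit 0)) (P (nat_lit 180425386868539392))) (P (nat_lit 0)))))) (T.h (T.h (T.h (P (nat_lit 1227016224249122383724544)) (T.h (P (nat_lit 0)) (T.h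 (M (nat_lit 276733554994396004351)) (T.h (P (nat_lit 0)) (P (nat_lit 8403018471936)))))) (T.h (P (nat_lit 0)) (T.h (T.h (M (nat_lit 37801069697948450815)) (T.h (P (nat_lit 0)) (P (nat_lit 330438239353728)))) (T.h (P (nat_lit 0)) (P (nat_lit 51762713890032)))))) (T.h (T.h (P (nat_lit 0)) (T.h (T.h (P (nat_lit 0)) (M (nat_lit 255115424693092351))) (P (nat_lit 0)))) (T.h (T.h (T.h (M (nat_lit 220068457998087880703)) (T.h (P (nat_lit 0)) (P (nat_lit 8403018471936)))) (T.h (P (nat_lit 0)) (P (nat_lit 41722221577392)))) (T.h (P (nat_lit 0)) (M (nat_lit 123801535670687)))))))), (T.h (T.h (T.h (P (nat_lit 0)) (T.h (P (nat_lit 4622686116289818125836222464)) (T.h (P (nat_lit 0)) (T.h (P (nat_lit 67326681209505262338048)) (T.h (P (nat_lit 0)) (P (nat_lit 73889396061962240))))))) (T.h (P (nat_lit 0)) (T.h (T.h (P (nat_lit 0)) (T.h (P (nat_lit 5038203398620824207360)) (T.h (P (nat_lit 0)) (M (nat_lit 12566762318135295))))) (T.h (P (nat_lit 0)) (T.h (T.h (P (nat_lit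 0)) (P (nat_lit 30035550910087168))) (P (nat_lit 0))))))) (T.h (T.h (P (nat_lit 0)) (T.h (T.h (P (nat_lit 32368617483080180722302976)) (T.h (P (nat_lit 0)) (P (nat_lit 210714216620942688256)))) (T.h (P (nat_lit 0)) (M (nat_lit 30422275876538286079))))) (T.h (T.h (T.h (P (nat_lit 0)) (T.h (P (nat_lit 210632273554275901112320)) (T.h (P (nat_lit 0)) (M (nat_lit 251305719263821823))))) (T.h (P (nat_lit 0)) (T.h (T.h (P (nat_lit 0)) (M (nat_lit 257875223365943295))) (P (nat_lit 0))))) (T.h (T.h (P (nat_lit 0)) (P (nat_lit 70812932436679196672))) (T.h (T.h (T.h (P (nat_lit 0)) (P (nat_lit 170806740523974656))) (P (nat_lit 0))) (P (nat_lit 0))))))), (T.h (T.h (P (nat_lit 0)) (T.h (T.h (P (nat_lit 522746914167041583189327872)) (T.h (P (nat_lit 0)) (T.h (P (nat_lit 3850669693482588700672)) (T.h (P (nat_lit 0)) (P (nat_lit 10120581031886848)))))) (T.h (P (nat_lit 0)) (T.h (T.h (P (nat_lit 15476794070994316689408)) (T.h (P (nat_lit 0)) (M (nat_lit 2462725884444671))))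 (T.h (P (nat_lit 0)) (M (nat_lit 8973031546978303))))))) (T.h (T.h (T.h (P (nat_lit 0)) (T.h (M (nat_lit 96432428552945085186047)) (T.h (P (nat_lit 0)) (T.h (P (nat_lit 11420674673478729728)) (T.h (P (nat_lit 0)) (M (nat_lit 4202247363807))))))) (T.h (P (nat_lit 0)) (T.h (T.h (P (nat_lit 0)) (T.h (P (nat_lit 11867314922343890944)) (T.h (P (nat_lit 0)) (P (nat_lit 41506757289896))))) (T.h (P (nat_lit 0)) (T.h (T.h (P (nat_lit 0)) (P (nat_lit 31941939063544))) (P (nat_lit 0))))))) (T.h (T.h (P (nat_lit 0)) (T.h (T.h (M (nat_lit 8702805273159426637823)) (T.h (P (nat_lit 0)) (M (nat_lit 16434744863326207)))) (T.h (P (nat_lit 0)) (P (nat_lit 24712650814357504))))) (T.h (T.h (T.h (P (nat_lit 0)) (T.h (M (nat_lit 88373213733551341567)) (T.h (P (nat_lit 0)) (M (nat_lit 18135366468679))))) (T.h (P (nat_lit 0)) (T.h (T.h (P (nat_lit 0)) (M (nat_lit 43141223945559))) (P (nat_lit 0))))) (T.h (T.h (P (nat_lit 0)) (M (nat_lit 29197831500988415))) (T.h (T.h (T.h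 (P (nat_lit 0)) (P (nat_lit 234639226797744))) (P (nat_lit 0))) (P (nat_lit 0)))))))), (T.h (T.h (P (nat_lit 0)) (T.h (T.h (P (nat_lit 0)) (T.h (M (nat_lit 812139356238288361881599)) (T.h (P (nat_lit 0)) (T.h (P (nat_lit 14353739500201443328)) (T.h (P (nat_lit 0)) (M (nat_lit 12009131250063))))))) (T.h (P (nat_lit 0)) (T.h (T.h (P (nat_lit 0)) (T.h (P (nat_lit 14353739500201443328)) (T.h (P (nat_lit 0)) (P (nat_lit 15419168176256))))) (T.h (P (nat_lit 0)) (T.h (T.h (P (nat_lit 0)) (M (nat_lit 12009131250063))) (P (nat_lit 0)))))))) (T.h (T.h (T.h (M (nat_lit 13210451688327983842182823935)) (T.h (P (nat_lit 0)) (T.h (P (nat_lit 71268525060009716875264)) (T.h (P (nat_lit 0)) (M (nat_lit 77890511696707583)))))) (T.h (P (nat_lit 0)) (T.h (T.h (P (nat_lit 71268525060009716875264)) (T.h (P (nat_lit 0)) (M (nat_lit 82599042909241343)))) (T.h (P (nat_lit 0)) (M (nat_lit 77890511696707583)))))) (T.h (T.h (P (nat_lit 0)) (T.h (T.h (P (nat_lit 0)) (T.h (P (nat_lit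 686793345222343393280)) (T.h (P (nat_lit 0)) (M (nat_lit 5250374281359))))) (T.h (P (nat_lit 0)) (T.h (T.h (P (nat_lit 0)) (M (nat_lit 5250374281359))) (P (nat_lit 0)))))) (T.h (T.h (T.h (P (nat_lit 53049158737755864301568)) (T.h (P (nat_lit 0)) (P (nat_lit 142194421957574656)))) (T.h (P (nat_lit 0)) (P (nat_lit 142194421957574656)))) (T.h (T.h (P (nat_lit 0)) (T.h (T.h (P (nat_lit 0)) (M (nat_lit 33739957894015))) (P (nat_lit 0)))) (M (nat_lit 33213642493526015))))))), (T.h (T.h (P (nat_lit 0)) (T.h (T.h (M (nat_lit 5650060058408433800143962111)) (T.h (P (nat_lit 0)) (T.h (P (nat_lit 47839518422904462114816)) (T.h (P (nat_lit 0)) (P (nat_lit 169044708653203456)))))) (T.h (P (nat_lit 0)) (T.h (T.h (P (nat_lit 4735867718199618306048)) (T.h (P (nat_lit 0)) (M (nat_lit 58709267346751487)))) (T.h (P (nat_lit 0)) (M (nat_lit 28820754797953023))))))) (T.h (T.h (T.h (P (nat_lit 0)) (T.h (M (nat_lit 8036348300840160110575615)) (T.h (P (nat_lit 0)) (T.h (M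 (nat_lit 241182344953884311551)) (T.h (P (nat_lit 0)) (P (nat_lit 31462978248624))))))) (T.h (P (nat_lit 0)) (T.h (T.h (P (nat_lit 0)) (T.h (P (nat_lit 72208137597776560128)) (T.h (P (nat_lit 0)) (P (nat_lit 151194672219024))))) (T.h (P (nat_lit 0)) (T.h (T.h (P (nat_lit 0)) (M (nat_lit 168082866176879))) (P (nat_lit 0))))))) (T.h (T.h (P (nat_lit 0)) (T.h (T.h (M (nat_lit 5989468968187611578367)) (T.h (P (nat_lit 0)) (P (nat_lit 1081420783830597632)))) (T.h (P (nat_lit 0)) (M (nat_lit 351021351897399295))))) (T.h (T.h (T.h (P (nat_lit 0)) (T.h (P (nat_lit 1404933726449294114816)) (T.h (P (nat_lit 0)) (P (nat_lit 222868762305024))))) (T.h (P (nat_lit 0)) (T.h (T.h (P (nat_lit 0)) (M (nat_lit 326692463252447))) (P (nat_lit 0))))) (T.h (T.h (P (nat_lit 0)) (P (nat_lit 230956717399277568))) (T.h (T.h (T.h (P (nat_lit 0)) (M (nat_lit 89014422257279))) (P (nat_lit 0))) (P (nat_lit 0)))))))), (T.h (T.h (P (nat_lit 0)) (T.h (T.h (P (nat_lit 0)) (T.h (P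 (nat_lit 100406850484060940098600960)) (T.h (P (nat_lit 0)) (T.h (P (nat_lit 149060729167943827456)) (T.h (P (nat_lit 0)) (P (nat_lit 8562378236832))))))) (T.h (P (nat_lit 0)) (T.h (T.h (P (nat_lit 0)) (T.h (M (nat_lit 128456059387660730367)) (T.h (P (nat_lit 0)) (P (nat_lit 79993172440224))))) (T.h (P (nat_lit 0)) (T.h (T.h (P (nat_lit 0)) (M (nat_lit 59828803719263))) (P (nat_lit 0)))))))) (T.h (T.h (T.h (P (nat_lit 20336825086277710617774129152)) (T.h (P (nat_lit 0)) (T.h (P (nat_lit 66911026800784601776128)) (T.h (P (nat_lit 0)) (M (nat_lit 135904604962209791)))))) (T.h (P (nat_lit 0)) (T.h (T.h (M (nat_lit 35675785022990670888959)) (T.h (P (nat_lit 0)) (M (nat_lit 373595198247862271)))) (T.h (P (nat_lit 0)) (M (nat_lit 36241238331195391)))))) (T.h (T.h (P (nat_lit 0)) (T.h (T.h (P (nat_lit 0)) (T.h (P (nat_lit 932873236081316724736)) (T.h (P (nat_lit 0)) (M (nat_lit 187314034551551))))) (T.h (P (nat_lit 0)) (T.h (T.h (P (nat_lit 0)) (M (nat_lit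 105852932695583))) (P (nat_lit 0)))))) (T.h (T.h (T.h (M (nat_lit 19845638658273772044287)) (T.h (P (nat_lit 0)) (M (nat_lit 162785966131183615)))) (T.h (P (nat_lit 0)) (P (nat_lit 61532118309339136)))) (T.h (T.h (P (nat_lit 0)) (T.h (T.h (P (nat_lit 0)) (M (nat_lit 493402670761247))) (P (nat_lit 0)))) (M (nat_lit 172462478615511039)))))))]
def lP11_36 : List (T ℤ) := [(T.h (T.h (P (nat_lit 0)) (T.h (T.h (M (nat_lit 23982801289164216537089835007)) (T.h (P (nat_lit 0)) (T.h (M (nat_lit 103457444550888944304127)) (T.h (P (nat_lit 0)) (P (nat_lit 83546188554764288)))))) (T.h (P (nat_lit 0)) (T.h (T.h (M (nat_lit 40637152726621985177599)) (T.h (P (nat_lit 0)) (M (nat_lit 77636821944369151)))) (T.h (P (nat_lit 0)) (P (nat_lit 30478663296221184))))))) (T.h (T.h (T.h (P (nat_lit 0)) (T.h (P (nat_lit 82022475448791551103205376)) (T.h (P (nat_lit 0)) (P (nat_lit 285002259208458993664))))) (T.h (P (nat_lit 0)) (T.h (T.h (P (nat_lit 0)) (P (nat_lit 145578080354680438784)))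 (P (nat_lit 0))))) (T.h (T.h (P (nat_lit 0)) (T.h (T.h (M (nat_lit 103457444550888944304127)) (T.h (P (nat_lit 0)) (P (nat_lit 105359980908511232)))) (T.h (P (nat_lit 0)) (M (nat_lit 77636821944369151))))) (T.h (T.h (T.h (P (nat_lit 0)) (P (nat_lit 285002259208458993664))) (P (nat_lit 0))) (T.h (T.h (P (nat_lit 0)) (P (nat_lit 83546188554764288))) (P (nat_lit 0))))))), (T.h (T.h (T.h (P (nat_lit 17186048480389962970581123989504)) (T.h (P (nat_lit 0)) (T.h (P (nat_lit 1030524174758747456929792)) (T.h (P (nat_lit 0)) (T.h (M (nat_lit 791340047772155903)) (T.h (P (nat_lit 0)) (M (nat_lit 1620225025199)))))))) (T.h (P (nat_lit 0)) (T.h (T.h (M (nat_lit 5767479176908533173059583)) (T.h (P (nat_lit 0)) (T.h (P (nat_lit 9059062354263670784)) (T.h (P (nat_lit 0)) (P (nat_lit 1952428219088)))))) (T.h (P (nat_lit 0)) (T.h (T.h (P (nat_lit 24275567268432183296)) (T.h (P (nat_lit 0)) (M (nat_lit 4261203039183)))) (T.h (P (nat_lit 0)) (P (nat_lit 4712665378400))))))))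 (T.h (T.h (P (nat_lit 0)) (T.h (T.h (P (nat_lit 0)) (T.h (P (nat_lit 31707492845516186714112)) (T.h (P (nat_lit 0)) (M (nat_lit 17942345083060223))))) (T.h (P (nat_lit 0)) (T.h (T.h (P (nat_lit 0)) (P (nat_lit 84250871117971456))) (P (nat_lit 0)))))) (T.h (T.h (T.h (P (nat_lit 5165854903960748718817280)) (T.h (P (nat_lit 0)) (T.h (M (nat_lit 23045151358256676863)) (T.h (P (nat_lit 0)) (M (nat_lit 16161360894767)))))) (T.h (P (nat_lit 0)) (T.h (T.h (P (nat_lit 93173685853035167744)) (T.h (P (nat_lit 0)) (M (nat_lit 69877698233887)))) (T.h (P (nat_lit 0)) (M (nat_lit 47859465315983)))))) (T.h (T.h (P (nat_lit 0)) (T.h (T.h (P (nat_lit 0)) (P (nat_lit 105860431028912128))) (P (nat_lit 0)))) (T.h (T.h (T.h (M (nat_lit 14579139269005148159)) (T.h (P (nat_lit 0)) (P (nat_lit 45520902769520)))) (T.h (P (nat_lit 0)) (M (nat_lit 25655274239343)))) (T.h (P (nat_lit 0)) (P (nat_lit 43834524249552)))))))), (T.h (T.h (T.h (P (nat_lit 0)) (T.h (M (nat_lit 38324952001104334506296344575))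 (T.h (P (nat_lit 0)) (T.h (M (nat_lit 19990819821223489306623)) (T.h (P (nat_lit 0)) (P (nat_lit 22824189637558272))))))) (T.h (P (nat_lit 0)) (T.h (T.h (P (nat_lit 0)) (T.h (M (nat_lit 7977776092984352178175)) (T.h (P (nat_lit 0)) (M (nat_lit 44226226114723839))))) (T.h (P (nat_lit 0)) (T.h (T.h (P (nat_lit 0)) (M (nat_lit 59482841730482175))) (P (nat_lit 0))))))) (T.h (T.h (P (nat_lit 0)) (T.h (T.h (M (nat_lit 111323794409892549499027455)) (T.h (P (nat_lit 0)) (T.h (P (nat_lit 191803984242922225664)) (T.h (P (nat_lit 0)) (M (nat_lit 173879231278847)))))) (T.h (P (nat_lit 0)) (T.h (T.h (M (nat_lit 389624206748337307647)) (T.h (P (nat_lit 0)) (P (nat_lit 132767430772272)))) (T.h (P (nat_lit 0)) (P (nat_lit 33551059161936))))))) (T.h (T.h (T.h (P (nat_lit 0)) (T.h (M (nat_lit 225716239866841779929087)) (T.h (P (nat_lit 0)) (M (nat_lit 501720206482604031))))) (T.h (P (nat_lit 0)) (T.h (T.h (P (nat_lit 0)) (P (nat_lit 70945528688017408))) (P (nat_lit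 0))))) (T.h (T.h (P (nat_lit 0)) (T.h (T.h (M (nat_lit 933049847679014666239)) (T.h (P (nat_lit 0)) (M (nat_lit 358160341235375)))) (T.h (P (nat_lit 0)) (P (nat_lit 236215764371712))))) (T.h (T.h (T.h (P (nat_lit 0)) (M (nat_lit 984145050285670399))) (P (nat_lit 0))) (T.h (T.h (P (nat_lit 0)) (M (nat_lit 187828558549151))) (P (nat_lit 0)))))))), (T.h (T.h (T.h (P (nat_lit 19347335837551506643391457787904)) (T.h (P (nat_lit 0)) (T.h (P (nat_lit 38697378061273282518188032)) (T.h (P (nat_lit 0)) (T.h (M (nat_lit 635823466020339711)) (T.h (P (nat_lit 0)) (P (nat_lit 31878738175680)))))))) (T.h (P (nat_lit 0)) (T.h (T.h (M (nat_lit 23436767894032029428219903)) (T.h (P (nat_lit 0)) (T.h (P (nat_lit 452359433986062155776)) (T.h (P (nat_lit 0)) (P (nat_lit 87742494175680)))))) (T.h (P (nat_lit 0)) (T.h (T.h (P (nat_lit 30799172801478524928)) (T.h (P (nat_lit 0)) (P (nat_lit 43236941052528)))) (T.h (P (nat_lit 0)) (P (nat_lit 46524404131488)))))))) (T.h (T.h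 (P (nat_lit 0)) (T.h (T.h (P (nat_lit 0)) (T.h (M (nat_lit 648060356319322690289663)) (T.h (P (nat_lit 0)) (P (nat_lit 516668073069379584))))) (T.h (P (nat_lit 0)) (T.h (T.h (P (nat_lit 0)) (P (nat_lit 481985264541106176))) (P (nat_lit 0)))))) (T.h (T.h (T.h (M (nat_lit 159468951994826349111934975)) (T.h (P (nat_lit 0)) (T.h (M (nat_lit 112659060996140171263)) (T.h (P (nat_lit 0)) (P (nat_lit 18915543430272)))))) (T.h (P (nat_lit 0)) (T.h (T.h (M (nat_lit 177658050073373704191)) (T.h (P (nat_lit 0)) (M (nat_lit 14269426041743)))) (T.h (P (nat_lit 0)) (P (nat_lit 7528680834336)))))) (T.h (T.h (P (nat_lit 0)) (T.h (T.h (P (nat_lit 0)) (P (nat_lit 103613129585426432))) (P (nat_lit 0)))) (T.h (T.h (T.h (P (nat_lit 464165310918098419712)) (T.h (P (nat_lit 0)) (M (nat_lit 4342901915231)))) (T.h (P (nat_lit 0)) (M (nat_lit 294091399587023)))) (T.h (P (nat_lit 0)) (P (nat_lit 333169098285744)))))))), (T.h (T.h (T.h (P (nat_lit 0)) (T.h (M (nat_lit 10332317721075008077777862655))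 (T.h (P (nat_lit 0)) (T.h (P (nat_lit 91561267103775804358656)) (T.h (P (nat_lit 0)) (M (nat_lit 87386252056297471))))))) (T.h (P (nat_lit 0)) (T.h (T.h (P (nat_lit 0)) (T.h (M (nat_lit 345733927545194663641087)) (T.h (P (nat_lit 0)) (P (nat_lit 23341083355873280))))) (T.h (P (nat_lit 0)) (T.h (T.h (P (nat_lit 0)) (P (nat_lit 201968806608044032))) (P (nat_lit 0))))))) (T.h (T.h (P (nat_lit 0)) (T.h (T.h (M (nat_lit 107976093531274162189893631)) (T.h (P (nat_lit 0)) (M (nat_lit 25873580517549408255)))) (T.h (P (nat_lit 0)) (M (nat_lit 205673814371149545471))))) (T.h (T.h (T.h (P (nat_lit 0)) (T.h (P (nat_lit 41336827440789672951808)) (T.h (P (nat_lit 0)) (M (nat_lit 150279331710074879))))) (T.h (P (nat_lit 0)) (T.h (T.h (P (nat_lit 0)) (P (nat_lit 735919516248211456))) (P (nat_lit 0))))) (T.h (T.h (P (nat_lit 0)) (M (nat_lit 195095051702701654015))) (T.h (T.h (T.h (P (nat_lit 0)) (M (nat_lit 745646519678468095))) (P (nat_lit 0))) (P (nat_lit 0))))))),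 (T.h (T.h (P (nat_lit 0)) (T.h (T.h (P (nat_lit 32820189050558047296543522816)) (T.h (P (nat_lit 0)) (T.h (P (nat_lit 29953871756365303644160)) (T.h (P (nat_lit 0)) (M (nat_lit 60169700583014399)))))) (T.h (P (nat_lit 0)) (T.h (T.h (M (nat_lit 70924678006650984988671)) (T.h (P (nat_lit 0)) (P (nat_lit 19997091208003584)))) (T.h (P (nat_lit 0)) (M (nat_lit 21390266879737855))))))) (T.h (T.h (T.h (P (nat_lit 0)) (T.h (M (nat_lit 17906246140690551118233599)) (T.h (P (nat_lit 0)) (T.h (P (nat_lit 14491939499531042816)) (T.h (P (nat_lit 0)) (P (nat_lit 2541833823312))))))) (T.h (P (nat_lit 0)) (T.h (T.h (P (nat_lit 0)) (T.h (P (nat_lit 31554473888527155200)) (T.h (P (nat_lit 0)) (M (nat_lit 48576800164079))))) (T.h (P (nat_lit 0)) (T.h (T.h (P (nat_lit 0)) (P (nat_lit 31771604010672))) (P (nat_lit 0))))))) (T.h (T.h (P (nat_lit 0)) (T.h (T.h (P (nat_lit 655956070507653271388160)) (T.h (P (nat_lit 0)) (M (nat_lit 237070253261619199)))) (T.h (P (nat_lit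 0)) (M (nat_lit 297089124101226495))))) (T.h (T.h (T.h (P (nat_lit 0)) (T.h (P (nat_lit 462682744916455456768)) (T.h (P (nat_lit 0)) (M (nat_lit 81686441951))))) (T.h (P (nat_lit 0)) (T.h (T.h (P (nat_lit 0)) (M (nat_lit 117194776813199))) (P (nat_lit 0))))) (T.h (T.h (P (nat_lit 0)) (P (nat_lit 601828279577083904))) (T.h (T.h (T.h (P (nat_lit 0)) (M (nat_lit 75593636964767))) (P (nat_lit 0))) (P (nat_lit 0)))))))), (T.h (T.h (P (nat_lit 0)) (T.h (T.h (P (nat_lit 0)) (T.h (P (nat_lit 47134690066140657000382464)) (T.h (P (nat_lit 0)) (T.h (M (nat_lit 146591178902344826879)) (T.h (P (nat_lit 0)) (M (nat_lit 34225337244095))))))) (T.h (P (nat_lit 0)) (T.h (T.h (P (nat_lit 0)) (T.h (P (nat_lit 130925609653259730944)) (T.h (P (nat_lit 0)) (M (nat_lit 5821078652063))))) (T.h (P (nat_lit 0)) (T.h (T.h (P (nat_lit 0)) (P (nat_lit 34165844712000))) (P (nat_lit 0)))))))) (T.h (T.h (T.h (P (nat_lit 57334956632206068234512760832)) (T.h (P (nat_lit 0)) (T.h (M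 (nat_lit 126264821811926481764351)) (T.h (P (nat_lit 0)) (P (nat_lit 43498547229081600)))))) (T.h (P (nat_lit 0)) (T.h (T.h (M (nat_lit 23678009988151209099263)) (T.h (P (nat_lit 0)) (M (nat_lit 172926202385072127)))) (T.h (P (nat_lit 0)) (M (nat_lit 56164819401932799)))))) (T.h (T.h (P (nat_lit 0)) (T.h (T.h (P (nat_lit 0)) (T.h (M (nat_lit 118390842734751514623)) (T.h (P (nat_lit 0)) (M (nat_lit 33891551588303))))) (T.h (P (nat_lit 0)) (T.h (T.h (P (nat_lit 0)) (M (nat_lit 115352653444271))) (P (nat_lit 0)))))) (T.h (T.h (T.h (M (nat_lit 22946034514349921402879)) (T.h (P (nat_lit 0)) (P (nat_lit 76914468636770304)))) (T.h (P (nat_lit 0)) (M (nat_lit 147403615803752447)))) (T.h (T.h (P (nat_lit 0)) (T.h (T.h (P (nat_lit 0)) (M (nat_lit 138476424798719))) (P (nat_lit 0)))) (M (nat_lit 6174633086484479))))))), (T.h (T.h (P (nat_lit 0)) (T.h (T.h (P (nat_lit 5875853749117232861644062720)) (T.h (P (nat_lit 0)) (T.h (M (nat_lit 352533966064873799417855))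 (T.h (P (nat_lit 0)) (P (nat_lit 147436560602660864)))))) (T.h (P (nat_lit 0)) (T.h (T.h (P (nat_lit 86100508455794164891648)) (T.h (P (nat_lit 0)) (P (nat_lit 127452087531929600)))) (T.h (P (nat_lit 0)) (M (nat_lit 149520828772483071))))))) (T.h (T.h (T.h (P (nat_lit 0)) (T.h (M (nat_lit 80646483748371014887669759)) (T.h (P (nat_lit 0)) (P (nat_lit 154905204815516663808))))) (T.h (P (nat_lit 0)) (T.h (T.h (P (nat_lit 0)) (M (nat_lit 186387387886570831871))) (P (nat_lit 0))))) (T.h (T.h (P (nat_lit 0)) (T.h (T.h (P (nat_lit 597819730065066370793472)) (T.h (P (nat_lit 0)) (P (nat_lit 282409478345752576)))) (T.h (P (nat_lit 0)) (P (nat_lit 114884661064007680))))) (T.h (T.h (T.h (P (nat_lit 0)) (M (nat_lit 285708444077886799871))) (P (nat_lit 0))) (T.h (T.h (P (nat_lit 0)) (M (nat_lit 319383543968333823))) (P (nat_lit 0)))))))]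
def lP11_37 : List (T ℤ) := [(T.h (T.h (T.h (M (nat_lit 4644630342600910574768432873471)) (T.h (P (nat_lit 0)) (T.h (P (nat_lit 993919321185546621943808)) (T.h (P (nat_lit 0)) (T.h (M (nat_lit 4522085549804093439)) (T.h (P (nat_lit 0)) (M (nat_lit 117640833263)))))))) (T.h (P (nat_lit 0)) (T.h (T.h (P (nat_lit 59150538576176793411125248)) (T.h (P (nat_lit 0)) (T.h (M (nat_lit 40153073323845091327)) (T.h (P (nat_lit 0)) (P (nat_lit 11004683413968)))))) (T.h (P (nat_lit 0)) (T.h (T.h (M (nat_lit 250057911985237917695)) (T.h (P (nat_lit 0)) (P (nat_lit 45469744224480)))) (T.h (P (nat_lit 0)) (M (nat_lit 136184537313935)))))))) (T.h (T.h (P (nat_lit 0)) (T.h (T.h (P (nat_lit 0)) (T.h (M (nat_lit 93087889871663739699199)) (T.h (P (nat_lit 0)) (P (nat_lit 193311368109424640))))) (T.h (P (nat_lit 0)) (T.h (T.h (P (nat_lit 0)) (M (nat_lit 207546634923933695))) (P (nat_lit 0)))))) (T.h (T.h (T.h (M (nat_lit 23759147091329655041425407)) (T.h (P (nat_lit 0))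 (T.h (P (nat_lit 74377365627223408640)) (T.h (P (nat_lit 0)) (P (nat_lit 11128868104608)))))) (T.h (P (nat_lit 0)) (T.h (T.h (M (nat_lit 99556130591990611967)) (T.h (P (nat_lit 0)) (P (nat_lit 176154058255824)))) (T.h (P (nat_lit 0)) (M (nat_lit 20843964717551)))))) (T.h (T.h (P (nat_lit 0)) (T.h (T.h (P (nat_lit 0)) (P (nat_lit 7881472545095680))) (P (nat_lit 0)))) (T.h (T.h (T.h (M (nat_lit 205175738630108348415)) (T.h (P (nat_lit 0)) (M (nat_lit 112332596630399)))) (T.h (P (nat_lit 0)) (P (nat_lit 144096697935936)))) (T.h (P (nat_lit 0)) (M (nat_lit 125702438127695)))))))), (T.h (T.h (T.h (P (nat_lit 0)) (T.h (M (nat_lit 26785345378366938055148830719)) (T.h (P (nat_lit 0)) (T.h (M (nat_lit 28930716648165091573759)) (T.h (P (nat_lit 0)) (P (nat_lit 20177221009768448))))))) (T.h (P (nat_lit 0)) (T.h (T.h (P (nat_lit 0)) (T.h (M (nat_lit 114792331594105423396863)) (T.h (P (nat_lit 0)) (M (nat_lit 12766599193329663))))) (T.h (P (nat_lit 0)) (T.h (T.h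 (P (nat_lit 0)) (P (nat_lit 101156712228749312))) (P (nat_lit 0))))))) (T.h (T.h (P (nat_lit 0)) (T.h (T.h (P (nat_lit 97555253692444316576776192)) (T.h (P (nat_lit 0)) (P (nat_lit 12794938319486058496)))) (T.h (P (nat_lit 0)) (P (nat_lit 657029272659789086720))))) (T.h (T.h (T.h (P (nat_lit 0)) (T.h (P (nat_lit 115769289232525882818560)) (T.h (P (nat_lit 0)) (M (nat_lit 29508680255176703))))) (T.h (P (nat_lit 0)) (T.h (T.h (P (nat_lit 0)) (M (nat_lit 201704419141353471))) (P (nat_lit 0))))) (T.h (T.h (P (nat_lit 0)) (M (nat_lit 7459515171333996543))) (T.h (T.h (T.h (P (nat_lit 0)) (M (nat_lit 27651373502136319))) (P (nat_lit 0))) (P (nat_lit 0))))))), (T.h (T.h (P (nat_lit 0)) (T.h (T.h (M (nat_lit 14388029443105144331644698623)) (T.h (P (nat_lit 0)) (T.h (P (nat_lit 503354875083480891392)) (T.h (P (nat_lit 0)) (P (nat_lit 102178320589455360)))))) (T.h (P (nat_lit 0)) (T.h (T.h (P (nat_lit 84493875935943795408896)) (T.h (P (nat_lit 0)) (M (nat_lit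 51807543743152127)))) (T.h (P (nat_lit 0)) (P (nat_lit 125722530491695104))))))) (T.h (T.h (T.h (P (nat_lit 0)) (T.h (P (nat_lit 20571785943829798893649920)) (T.h (P (nat_lit 0)) (M (nat_lit 18974281611874402303))))) (T.h (P (nat_lit 0)) (T.h (T.h (P (nat_lit 0)) (P (nat_lit 238444881954769731584))) (P (nat_lit 0))))) (T.h (T.h (P (nat_lit 0)) (T.h (T.h (M (nat_lit 126623895286585969606655)) (T.h (P (nat_lit 0)) (M (nat_lit 111429585513349119)))) (T.h (P (nat_lit 0)) (M (nat_lit 468341570348711935))))) (T.h (T.h (T.h (P (nat_lit 0)) (M (nat_lit 131035449567928647679))) (P (nat_lit 0))) (T.h (T.h (P (nat_lit 0)) (M (nat_lit 366653797243060223))) (P (nat_lit 0))))))), (T.h (T.h (P (nat_lit 0)) (T.h (T.h (P (nat_lit 0)) (T.h (P (nat_lit 4204261618133833938370560)) (T.h (P (nat_lit 0)) (T.h (P (nat_lit 1436442446299922432)) (T.h (P (nat_lit 0)) (P (nat_lit 1300883372136))))))) (T.h (P (nat_lit 0)) (T.h (T.h (P (nat_lit 0)) (T.h (M (nat_lit 279505857551532031))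 (T.h (P (nat_lit 0)) (P (nat_lit 72660681504))))) (T.h (P (nat_lit 0)) (T.h (T.h (P (nat_lit 0)) (P (nat_lit 251898760536))) (P (nat_lit 0)))))))) (T.h (T.h (T.h (M (nat_lit 5759271470269521065423142911)) (T.h (P (nat_lit 0)) (T.h (P (nat_lit 2712750349386849976320)) (T.h (P (nat_lit 0)) (M (nat_lit 2704680764932095)))))) (T.h (P (nat_lit 0)) (T.h (T.h (P (nat_lit 2781654216421851267072)) (T.h (P (nat_lit 0)) (P (nat_lit 13732124649455616)))) (T.h (P (nat_lit 0)) (M (nat_lit 1986962158813183)))))) (T.h (T.h (P (nat_lit 0)) (T.h (T.h (P (nat_lit 0)) (T.h (M (nat_lit 22564888246348677119)) (T.h (P (nat_lit 0)) (M (nat_lit 13039914007615))))) (T.h (P (nat_lit 0)) (T.h (T.h (P (nat_lit 0)) (M (nat_lit 23848727315007))) (P (nat_lit 0)))))) (T.h (T.h (T.h (P (nat_lit 5469803030520608587776)) (T.h (P (nat_lit 0)) (M (nat_lit 12044449115373567)))) (T.h (P (nat_lit 0)) (M (nat_lit 468974644527103)))) (T.h (T.h (P (nat_lit 0)) (T.h (T.h (P (nat_lit 0)) (M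 (nat_lit 135946721145023))) (P (nat_lit 0)))) (M (nat_lit 206113574879231))))))), (T.h (T.h (P (nat_lit 0)) (T.h (T.h (P (nat_lit 2084092978544746558608375808)) (T.h (P (nat_lit 0)) (T.h (M (nat_lit 13105697841355797037055)) (T.h (P (nat_lit 0)) (M (nat_lit 21643633645551615)))))) (T.h (P (nat_lit 0)) (T.h (T.h (M (nat_lit 2445534956294129057791)) (T.h (P (nat_lit 0)) (M (nat_lit 10769564384280575)))) (T.h (P (nat_lit 0)) (P (nat_lit 2747498126852096))))))) (T.h (T.h (T.h (P (nat_lit 0)) (T.h (P (nat_lit 3505100089068918241492992)) (T.h (P (nat_lit 0)) (T.h (M (nat_lit 3206093737427992575)) (T.h (P (nat_lit 0)) (M (nat_lit 2171138809055))))))) (T.h (P (nat_lit 0)) (T.h (T.h (P (nat_lit 0)) (T.h (P (nat_lit 8688976552274165760)) (T.h (P (nat_lit 0)) (P (nat_lit 7731991111936))))) (T.h (P (nat_lit 0)) (T.h (T.h (P (nat_lit 0)) (M (nat_lit 6391443606815))) (P (nat_lit 0))))))) (T.h (T.h (P (nat_lit 0)) (T.h (T.h (M (nat_lit 14112679512842935730175))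 (T.h (P (nat_lit 0)) (M (nat_lit 45175380232437759)))) (T.h (P (nat_lit 0)) (P (nat_lit 3081846973022208))))) (T.h (T.h (T.h (P (nat_lit 0)) (T.h (P (nat_lit 83778115168194527232)) (T.h (P (nat_lit 0)) (P (nat_lit 19834863972112))))) (T.h (P (nat_lit 0)) (T.h (T.h (P (nat_lit 0)) (P (nat_lit 19291176429520))) (P (nat_lit 0))))) (T.h (T.h (P (nat_lit 0)) (M (nat_lit 145933282261073919))) (T.h (T.h (T.h (P (nat_lit 0)) (M (nat_lit 335941989346463))) (P (nat_lit 0))) (P (nat_lit 0)))))))), (T.h (T.h (P (nat_lit 0)) (T.h (T.h (P (nat_lit 0)) (T.h (P (nat_lit 1682189232321638827032576)) (T.h (P (nat_lit 0)) (T.h (P (nat_lit 29827779157339144192)) (T.h (P (nat_lit 0)) (P (nat_lit 18104669004960))))))) (T.h (P (nat_lit 0)) (T.h (T.h (P (nat_lit 0)) (T.h (P (nat_lit 34971865101436452864)) (T.h (P (nat_lit 0)) (M (nat_lit 3182115287471))))) (T.h (P (nat_lit 0)) (T.h (T.h (P (nat_lit 0)) (M (nat_lit 2216404253375))) (P (nat_lit 0)))))))) (T.h (T.h (T.h (M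 (nat_lit 13738543897078520168434368511)) (T.h (P (nat_lit 0)) (T.h (P (nat_lit 71863826799750006439936)) (T.h (P (nat_lit 0)) (P (nat_lit 35006146232877056)))))) (T.h (P (nat_lit 0)) (T.h (T.h (P (nat_lit 53116712304456398536704)) (T.h (P (nat_lit 0)) (M (nat_lit 45237387053236223)))) (T.h (P (nat_lit 0)) (P (nat_lit 13389182920425472)))))) (T.h (T.h (P (nat_lit 0)) (T.h (T.h (P (nat_lit 0)) (T.h (P (nat_lit 58648929392887070720)) (T.h (P (nat_lit 0)) (M (nat_lit 49743205508255))))) (T.h (P (nat_lit 0)) (T.h (T.h (P (nat_lit 0)) (P (nat_lit 6806561621472))) (P (nat_lit 0)))))) (T.h (T.h (T.h (P (nat_lit 89746200216324985061376)) (T.h (P (nat_lit 0)) (M (nat_lit 93737683484508159)))) (T.h (P (nat_lit 0)) (M (nat_lit 239507379198361599)))) (T.h (T.h (P (nat_lit 0)) (T.h (T.h (P (nat_lit 0)) (M (nat_lit 154815030088991))) (P (nat_lit 0)))) (M (nat_lit 42162729439887359))))))), (T.h (T.h (P (nat_lit 0)) (T.h (T.h (M (nat_lit 3335675229011176419139518463))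 (T.h (P (nat_lit 0)) (T.h (M (nat_lit 7048662301444117889023)) (T.h (P (nat_lit 0)) (M (nat_lit 55932866233335807)))))) (T.h (P (nat_lit 0)) (T.h (T.h (M (nat_lit 2556215325078874750975)) (T.h (P (nat_lit 0)) (P (nat_lit 10764761764429824)))) (T.h (P (nat_lit 0)) (P (nat_lit 3963771170832384))))))) (T.h (T.h (T.h (P (nat_lit 0)) (T.h (M (nat_lit 1974649089754001720737791)) (T.h (P (nat_lit 0)) (T.h (M (nat_lit 12150048673841020927)) (T.h (P (nat_lit 0)) (M (nat_lit 153484319177423))))))) (T.h (P (nat_lit 0)) (T.h (T.h (P (nat_lit 0)) (T.h (M (nat_lit 18276632113639849983)) (T.h (P (nat_lit 0)) (P (nat_lit 157454749658304))))) (T.h (P (nat_lit 0)) (T.h (T.h (P (nat_lit 0)) (M (nat_lit 235517594865407))) (P (nat_lit 0))))))) (T.h (T.h (P (nat_lit 0)) (T.h (T.h (P (nat_lit 24602323935072788414464)) (T.h (P (nat_lit 0)) (P (nat_lit 69244562661801984)))) (T.h (P (nat_lit 0)) (M (nat_lit 16203078846971903))))) (T.h (T.h (T.h (P (nat_lit 0)) (T.h (P (nat_lit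 365582842032417669120)) (T.h (P (nat_lit 0)) (P (nat_lit 356919587573616))))) (T.h (P (nat_lit 0)) (T.h (T.h (P (nat_lit 0)) (M (nat_lit 111663856591199))) (P (nat_lit 0))))) (T.h (T.h (P (nat_lit 0)) (P (nat_lit 227435957508997120))) (T.h (T.h (T.h (P (nat_lit 0)) (P (nat_lit 418099953986208))) (P (nat_lit 0))) (P (nat_lit 0)))))))), (T.h (T.h (P (nat_lit 0)) (T.h (T.h (P (nat_lit 0)) (T.h (P (nat_lit 32368617483080180722302976)) (T.h (P (nat_lit 0)) (P (nat_lit 70812932436679196672))))) (T.h (P (nat_lit 0)) (T.h (T.h (P (nat_lit 0)) (M (nat_lit 30422275876538286079))) (P (nat_lit 0)))))) (T.h (T.h (T.h (P (nat_lit 4622686116289818125836222464)) (T.h (P (nat_lit 0)) (T.h (P (nat_lit 210632273554275901112320)) (T.h (P (nat_lit 0)) (P (nat_lit 170806740523974656)))))) (T.h (P (nat_lit 0)) (T.h (T.h (P (nat_lit 5038203398620824207360)) (T.h (P (nat_lit 0)) (M (nat_lit 257875223365943295)))) (T.h (P (nat_lit 0)) (P (nat_lit 30035550910087168)))))) (T.h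 (T.h (P (nat_lit 0)) (T.h (T.h (P (nat_lit 0)) (P (nat_lit 210714216620942688256))) (P (nat_lit 0)))) (T.h (T.h (T.h (P (nat_lit 67326681209505262338048)) (T.h (P (nat_lit 0)) (M (nat_lit 251305719263821823)))) (T.h (P (nat_lit 0)) (M (nat_lit 12566762318135295)))) (T.h (P (nat_lit 0)) (P (nat_lit 73889396061962240)))))))]
def lP11_38 : List (T ℤ) := [(T.h (T.h (T.h (P (nat_lit 0)) (T.h (P (nat_lit 2084092978544746558608375808)) (T.h (P (nat_lit 0)) (T.h (M (nat_lit 2445534956294129057791)) (T.h (P (nat_lit 0)) (P (nat_lit 2747498126852096))))))) (T.h (P (nat_lit 0)) (T.h (T.h (P (nat_lit 0)) (T.h (M (nat_lit 13105697841355797037055)) (T.h (P (nat_lit 0)) (M (nat_lit 10769564384280575))))) (T.h (P (nat_lit 0)) (T.h (T.h (P (nat_lit 0)) (M (nat_lit 21643633645551615))) (P (nat_lit 0))))))) (T.h (T.h (P (nat_lit 0)) (T.h (T.h (P (nat_lit 3505100089068918241492992)) (T.h (P (nat_lit 0)) (T.h (P (nat_lit 8688976552274165760)) (T.h (P (nat_lit 0)) (M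 (nat_lit 6391443606815)))))) (T.h (P (nat_lit 0)) (T.h (T.h (M (nat_lit 3206093737427992575)) (T.h (P (nat_lit 0)) (P (nat_lit 7731991111936)))) (T.h (P (nat_lit 0)) (M (nat_lit 2171138809055))))))) (T.h (T.h (T.h (P (nat_lit 0)) (T.h (M (nat_lit 14112679512842935730175)) (T.h (P (nat_lit 0)) (P (nat_lit 3081846973022208))))) (T.h (P (nat_lit 0)) (T.h (T.h (P (nat_lit 0)) (M (nat_lit 45175380232437759))) (P (nat_lit 0))))) (T.h (T.h (P (nat_lit 0)) (T.h (T.h (P (nat_lit 83778115168194527232)) (T.h (P (nat_lit 0)) (P (nat_lit 19291176429520)))) (T.h (P (nat_lit 0)) (P (nat_lit 19834863972112))))) (T.h (T.h (T.h (P (nat_lit 0)) (M (nat_lit 145933282261073919))) (P (nat_lit 0))) (T.h (T.h (P (nat_lit 0)) (M (nat_lit 335941989346463))) (P (nat_lit 0)))))))), (T.h (T.h (T.h (M (nat_lit 1964079821679632770399920455679)) (T.h (P (nat_lit 0)) (T.h (P (nat_lit 23608996639526259129319424)) (T.h (P (nat_lit 0)) (T.h (M (nat_lit 32055392101604524031)) (T.h (P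 (nat_lit 0)) (M (nat_lit 1272585424271)))))))) (T.h (P (nat_lit 0)) (T.h (T.h (M (nat_lit 4399674366462710643687423)) (T.h (P (nat_lit 0)) (T.h (P (nat_lit 15223931451574583296)) (T.h (P (nat_lit 0)) (M (nat_lit 54304868692991)))))) (T.h (P (nat_lit 0)) (T.h (T.h (M (nat_lit 9235792456685977599)) (T.h (P (nat_lit 0)) (M (nat_lit 54304868692991)))) (T.h (P (nat_lit 0)) (M (nat_lit 1272585424271)))))))) (T.h (T.h (P (nat_lit 0)) (T.h (T.h (P (nat_lit 0)) (T.h (M (nat_lit 21975044058024553480191)) (T.h (P (nat_lit 0)) (M (nat_lit 100790867312836607))))) (T.h (P (nat_lit 0)) (T.h (T.h (P (nat_lit 0)) (P (nat_lit 219158715339046912))) (P (nat_lit 0)))))) (T.h (T.h (T.h (M (nat_lit 9123437953756958918967295)) (T.h (P (nat_lit 0)) (T.h (P (nat_lit 143905283881725591552)) (T.h (P (nat_lit 0)) (M (nat_lit 106775006108063)))))) (T.h (P (nat_lit 0)) (T.h (T.h (P (nat_lit 242922535185952014336)) (T.h (P (nat_lit 0)) (M (nat_lit 51987151445087)))) (T.h (P (nat_lit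 0)) (M (nat_lit 106775006108063)))))) (T.h (T.h (P (nat_lit 0)) (T.h (T.h (P (nat_lit 0)) (P (nat_lit 982799063274225664))) (P (nat_lit 0)))) (T.h (T.h (T.h (P (nat_lit 253900677321045573632)) (T.h (P (nat_lit 0)) (P (nat_lit 86654082495648)))) (T.h (P (nat_lit 0)) (P (nat_lit 86654082495648)))) (T.h (P (nat_lit 0)) (P (nat_lit 5727466517568)))))))), (T.h (T.h (T.h (P (nat_lit 0)) (T.h (M (nat_lit 10238001575438095358980259839)) (T.h (P (nat_lit 0)) (T.h (P (nat_lit 4498526712991768903680)) (T.h (P (nat_lit 0)) (M (nat_lit 5867200945930239))))))) (T.h (P (nat_lit 0)) (T.h (T.h (P (nat_lit 0)) (T.h (M (nat_lit 32773840107748108271615)) (T.h (P (nat_lit 0)) (M (nat_lit 13902498383790079))))) (T.h (P (nat_lit 0)) (T.h (T.h (P (nat_lit 0)) (P (nat_lit 105856962375598080))) (P (nat_lit 0))))))) (T.h (T.h (P (nat_lit 0)) (T.h (T.h (M (nat_lit 65918469378897187897868287)) (T.h (P (nat_lit 0)) (T.h (M (nat_lit 115437795602681823231)) (T.h (P (nat_lit 0))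 (M (nat_lit 212902374284207)))))) (T.h (P (nat_lit 0)) (T.h (T.h (P (nat_lit 258219709894464897024)) (T.h (P (nat_lit 0)) (P (nat_lit 135400654107216)))) (T.h (P (nat_lit 0)) (P (nat_lit 6090557697360))))))) (T.h (T.h (T.h (P (nat_lit 0)) (T.h (M (nat_lit 148288026953148786540543)) (T.h (P (nat_lit 0)) (M (nat_lit 902612114225659903))))) (T.h (P (nat_lit 0)) (T.h (T.h (P (nat_lit 0)) (P (nat_lit 519943386516488192))) (P (nat_lit 0))))) (T.h (T.h (P (nat_lit 0)) (T.h (T.h (M (nat_lit 204190865734695387135)) (T.h (P (nat_lit 0)) (P (nat_lit 480696106885200)))) (T.h (P (nat_lit 0)) (M (nat_lit 40308873541055))))) (T.h (T.h (T.h (P (nat_lit 0)) (P (nat_lit 391068373448163328))) (P (nat_lit 0))) (T.h (T.h (P (nat_lit 0)) (P (nat_lit 88368910367184))) (P (nat_lit 0)))))))), (T.h (T.h (T.h (P (nat_lit 6956814252741079948443380613120)) (T.h (P (nat_lit 0)) (T.h (P (nat_lit 12512308161857980632924160)) (T.h (P (nat_lit 0)) (P (nat_lit 31284549361191616512))))))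 (T.h (P (nat_lit 0)) (T.h (T.h (P (nat_lit 9834762153925330696404992)) (T.h (P (nat_lit 0)) (P (nat_lit 89162961353009266688)))) (T.h (P (nat_lit 0)) (M (nat_lit 907467354663813119)))))) (T.h (T.h (P (nat_lit 0)) (T.h (T.h (P (nat_lit 0)) (T.h (M (nat_lit 245888729080067128295423)) (T.h (P (nat_lit 0)) (P (nat_lit 207377764562108416))))) (T.h (P (nat_lit 0)) (T.h (T.h (P (nat_lit 0)) (P (nat_lit 200925852248375296))) (P (nat_lit 0)))))) (T.h (T.h (T.h (P (nat_lit 7835852522007655234928640)) (T.h (P (nat_lit 0)) (P (nat_lit 696574428408140791808)))) (T.h (P (nat_lit 0)) (M (nat_lit 83243563760396271615)))) (T.h (T.h (P (nat_lit 0)) (T.h (T.h (P (nat_lit 0)) (P (nat_lit 281155397963546624))) (P (nat_lit 0)))) (P (nat_lit 190603457277588406272)))))), (T.h (T.h (P (nat_lit 0)) (T.h (T.h (P (nat_lit 0)) (T.h (P (nat_lit 2509986246629006751301632)) (T.h (P (nat_lit 0)) (T.h (M (nat_lit 13312026751304466431)) (T.h (P (nat_lit 0)) (M (nat_lit 2992795319711)))))))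 (T.h (P (nat_lit 0)) (T.h (T.h (P (nat_lit 0)) (T.h (M (nat_lit 59818567954692308991)) (T.h (P (nat_lit 0)) (M (nat_lit 3254775968975))))) (T.h (P (nat_lit 0)) (T.h (T.h (P (nat_lit 0)) (P (nat_lit 17328277938624))) (P (nat_lit 0)))))))) (T.h (T.h (T.h (P (nat_lit 5780547317694839156132282368)) (T.h (P (nat_lit 0)) (T.h (P (nat_lit 21863340973001673801728)) (T.h (P (nat_lit 0)) (M (nat_lit 70505012681048063)))))) (T.h (P (nat_lit 0)) (T.h (T.h (P (nat_lit 74301604029433693339648)) (T.h (P (nat_lit 0)) (M (nat_lit 149697733790728191)))) (T.h (P (nat_lit 0)) (M (nat_lit 63707590864371711)))))) (T.h (T.h (P (nat_lit 0)) (T.h (T.h (P (nat_lit 0)) (T.h (M (nat_lit 116447416587535777791)) (T.h (P (nat_lit 0)) (P (nat_lit 25250882282784))))) (T.h (P (nat_lit 0)) (T.h (T.h (P (nat_lit 0)) (M (nat_lit 31298884846943))) (P (nat_lit 0)))))) (T.h (T.h (T.h (M (nat_lit 52333459867568806297599)) (T.h (P (nat_lit 0)) (M (nat_lit 213134009412911103)))) (T.h (P (nat_lit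 0)) (P (nat_lit 384385848265539584)))) (T.h (T.h (P (nat_lit 0)) (T.h (T.h (P (nat_lit 0)) (M (nat_lit 18868308943967))) (P (nat_lit 0)))) (P (nat_lit 181146448704733184))))))), (T.h (T.h (P (nat_lit 0)) (T.h (T.h (M (nat_lit 2624090554511444384514310143)) (T.h (P (nat_lit 0)) (T.h (M (nat_lit 31917601046396844113919)) (T.h (P (nat_lit 0)) (P (nat_lit 87313692010512384)))))) (T.h (P (nat_lit 0)) (T.h (T.h (P (nat_lit 8236358663384764252160)) (T.h (P (nat_lit 0)) (P (nat_lit 4966486854533120)))) (T.h (P (nat_lit 0)) (M (nat_lit 8529320267366399))))))) (T.h (T.h (T.h (P (nat_lit 0)) (T.h (M (nat_lit 49148449090598688213958655)) (T.h (P (nat_lit 0)) (T.h (P (nat_lit 233637798844523610112)) (T.h (P (nat_lit 0)) (P (nat_lit 2347361614368))))))) (T.h (P (nat_lit 0)) (T.h (T.h (P (nat_lit 0)) (T.h (M (nat_lit 109289342256252190719)) (T.h (P (nat_lit 0)) (P (nat_lit 91909288089792))))) (T.h (P (nat_lit 0)) (T.h (T.h (P (nat_lit 0)) (M (nat_lit 195327349909631)))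 (P (nat_lit 0))))))) (T.h (T.h (P (nat_lit 0)) (T.h (T.h (M (nat_lit 185896674665524203880447)) (T.h (P (nat_lit 0)) (P (nat_lit 508741842077696000)))) (T.h (P (nat_lit 0)) (M (nat_lit 917637707330060287))))) (T.h (T.h (T.h (P (nat_lit 0)) (T.h (M (nat_lit 258626869237087469567)) (T.h (P (nat_lit 0)) (M (nat_lit 56055365580095))))) (T.h (P (nat_lit 0)) (T.h (T.h (P (nat_lit 0)) (P (nat_lit 322932605416272))) (P (nat_lit 0))))) (T.h (T.h (P (nat_lit 0)) (P (nat_lit 679455333394546688))) (T.h (T.h (T.h (P (nat_lit 0)) (P (nat_lit 398698104248784))) (P (nat_lit 0))) (P (nat_lit 0)))))))), (T.h (T.h (P (nat_lit 0)) (T.h (T.h (P (nat_lit 0)) (T.h (P (nat_lit 31566637270320121059999744)) (T.h (P (nat_lit 0)) (M (nat_lit 40736780318343692287))))) (T.h (P (nat_lit 0)) (T.h (T.h (P (nat_lit 0)) (M (nat_lit 66144007165625499647))) (P (nat_lit 0)))))) (T.h (T.h (T.h (P (nat_lit 1359415713603641114441547776)) (T.h (P (nat_lit 0)) (T.h (P (nat_lit 165431742148911250276352))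 (T.h (P (nat_lit 0)) (P (nat_lit 37167668190281728)))))) (T.h (P (nat_lit 0)) (T.h (T.h (P (nat_lit 216489288237391628206080)) (T.h (P (nat_lit 0)) (M (nat_lit 148682746199048191)))) (T.h (P (nat_lit 0)) (P (nat_lit 34091736121835520)))))) (T.h (T.h (P (nat_lit 0)) (T.h (T.h (P (nat_lit 0)) (P (nat_lit 25261919675590115328))) (P (nat_lit 0)))) (T.h (T.h (T.h (M (nat_lit 100957978358762012934143)) (T.h (P (nat_lit 0)) (M (nat_lit 67164934254133247)))) (T.h (P (nat_lit 0)) (P (nat_lit 221720943173402624)))) (T.h (P (nat_lit 0)) (M (nat_lit 565721680629858303))))))), (T.h (T.h (T.h (P (nat_lit 0)) (T.h (P (nat_lit 4278235791915474555326431232)) (T.h (P (nat_lit 0)) (T.h (P (nat_lit 1181616625314120597504)) (T.h (P (nat_lit 0)) (P (nat_lit 1301651849396224))))))) (T.h (P (nat_lit 0)) (T.h (T.h (P (nat_lit 0)) (T.h (M (nat_lit 6192423240092853731327)) (T.h (P (nat_lit 0)) (P (nat_lit 29633747002753024))))) (T.h (P (nat_lit 0)) (T.h (T.h (P (nat_lit 0))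 (M (nat_lit 74476136598421503))) (P (nat_lit 0))))))) (T.h (T.h (P (nat_lit 0)) (T.h (T.h (P (nat_lit 14795371198544497963171840)) (T.h (P (nat_lit 0)) (T.h (M (nat_lit 12128178767210217471)) (T.h (P (nat_lit 0)) (M (nat_lit 217942570490831)))))) (T.h (P (nat_lit 0)) (T.h (T.h (M (nat_lit 36731959723782307839)) (T.h (P (nat_lit 0)) (P (nat_lit 113963383640880)))) (T.h (P (nat_lit 0)) (M (nat_lit 157227515260415))))))) (T.h (T.h (T.h (P (nat_lit 0)) (T.h (M (nat_lit 13006323777302628925439)) (T.h (P (nat_lit 0)) (M (nat_lit 31228671951372287))))) (T.h (P (nat_lit 0)) (T.h (T.h (P (nat_lit 0)) (P (nat_lit 58043018223009792))) (P (nat_lit 0))))) (T.h (T.h (P (nat_lit 0)) (T.h (T.h (P (nat_lit 311146838530025586688)) (T.h (P (nat_lit 0)) (M (nat_lit 269427358060127)))) (T.h (P (nat_lit 0)) (P (nat_lit 341173095534576))))) (T.h (T.h (T.h (P (nat_lit 0)) (P (nat_lit 515822917455380480))) (P (nat_lit 0))) (T.h (T.h (P (nat_lit 0)) (P (nat_lit 728429147867808)))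 (P (nat_lit 0))))))))]
def lP11_39 : List (T ℤ) := [(T.h (T.h (T.h (P (nat_lit 3568522950374117388076961497088)) (T.h (P (nat_lit 0)) (T.h (P (nat_lit 14818236701183997791698944)) (T.h (P (nat_lit 0)) (P (nat_lit 4664360011533647872)))))) (T.h (P (nat_lit 0)) (T.h (T.h (P (nat_lit 17495782709116647728218112)) (T.h (P (nat_lit 0)) (P (nat_lit 43090105752503713792)))) (T.h (P (nat_lit 0)) (P (nat_lit 36856376727389077504)))))) (T.h (T.h (P (nat_lit 0)) (T.h (T.h (P (nat_lit 0)) (T.h (M (nat_lit 115370406155700026736639)) (T.h (P (nat_lit 0)) (P (nat_lit 171971654305644544))))) (T.h (P (nat_lit 0)) (T.h (T.h (P (nat_lit 0)) (P (nat_lit 178423566619377664))) (P (nat_lit 0)))))) (T.h (T.h (T.h (M (nat_lit 45137227535358847854051327)) (T.h (P (nat_lit 0)) (M (nat_lit 174296638974171545599)))) (T.h (P (nat_lit 0)) (P (nat_lit 605521353194365517824)))) (T.h (T.h (P (nat_lit 0)) (T.h (T.h (P (nat_lit 0)) (P (nat_lit 101693486531149824))) (P (nat_lit 0))))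 (M (nat_lit 10805402706500386815)))))), (T.h (T.h (P (nat_lit 0)) (T.h (T.h (P (nat_lit 0)) (T.h (P (nat_lit 24246785303870588422455296)) (T.h (P (nat_lit 0)) (M (nat_lit 37240392913883496447))))) (T.h (P (nat_lit 0)) (T.h (T.h (P (nat_lit 0)) (P (nat_lit 89402042246615793664))) (P (nat_lit 0)))))) (T.h (T.h (T.h (P (nat_lit 10561526356057080583166099456)) (T.h (P (nat_lit 0)) (T.h (M (nat_lit 27409907181871649783807)) (T.h (P (nat_lit 0)) (P (nat_lit 44529171178749952)))))) (T.h (P (nat_lit 0)) (T.h (T.h (P (nat_lit 127126616885303049191424)) (T.h (P (nat_lit 0)) (M (nat_lit 157968672411713535)))) (T.h (P (nat_lit 0)) (P (nat_lit 188376292861083648)))))) (T.h (T.h (P (nat_lit 0)) (T.h (T.h (P (nat_lit 0)) (P (nat_lit 201305527107410984960))) (P (nat_lit 0)))) (T.h (T.h (T.h (P (nat_lit 52065708632157213163520)) (T.h (P (nat_lit 0)) (P (nat_lit 163557317878153216)))) (T.h (P (nat_lit 0)) (M (nat_lit 364067516495069183)))) (T.h (P (nat_lit 0)) (P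 (nat_lit 5867629431095296))))))), (T.h (T.h (T.h (P (nat_lit 6945281478211275015688300789760)) (T.h (P (nat_lit 0)) (T.h (M (nat_lit 844005617985062042599423)) (T.h (P (nat_lit 0)) (T.h (M (nat_lit 250077559696392191)) (T.h (P (nat_lit 0)) (M (nat_lit 394146612063)))))))) (T.h (P (nat_lit 0)) (T.h (T.h (M (nat_lit 844005617985062042599423)) (T.h (P (nat_lit 0)) (T.h (P (nat_lit 1700261905928552448)) (T.h (P (nat_lit 0)) (M (nat_lit 1928525502543)))))) (T.h (P (nat_lit 0)) (T.h (T.h (M (nat_lit 250077559696392191)) (T.h (P (nat_lit 0)) (M (nat_lit 1928525502543)))) (T.h (P (nat_lit 0)) (M (nat_lit 394146612063)))))))) (T.h (T.h (P (nat_lit 0)) (T.h (T.h (P (nat_lit 0)) (T.h (P (nat_lit 21790855645850796818432)) (T.h (P (nat_lit 0)) (M (nat_lit 8712303045115903))))) (T.h (P (nat_lit 0)) (T.h (T.h (P (nat_lit 0)) (M (nat_lit 8712303045115903))) (P (nat_lit 0)))))) (T.h (T.h (T.h (M (nat_lit 6892331385474144117194751)) (T.h (P (nat_lit 0)) (T.h (P (nat_lit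 28162852510398152704)) (T.h (P (nat_lit 0)) (M (nat_lit 12025278876719)))))) (T.h (P (nat_lit 0)) (T.h (T.h (P (nat_lit 28162852510398152704)) (T.h (P (nat_lit 0)) (M (nat_lit 46369747134399)))) (T.h (P (nat_lit 0)) (M (nat_lit 12025278876719)))))) (T.h (T.h (P (nat_lit 0)) (T.h (T.h (P (nat_lit 0)) (P (nat_lit 114410331772616704))) (P (nat_lit 0)))) (T.h (T.h (T.h (M (nat_lit 12345843102613766143)) (T.h (P (nat_lit 0)) (M (nat_lit 6531616341807)))) (T.h (P (nat_lit 0)) (M (nat_lit 6531616341807)))) (T.h (P (nat_lit 0)) (P (nat_lit 10239292669440)))))))), (T.h (T.h (T.h (P (nat_lit 0)) (T.h (M (nat_lit 2787373763577663888453271551)) (T.h (P (nat_lit 0)) (T.h (M (nat_lit 14596476764099333586943)) (T.h (P (nat_lit 0)) (P (nat_lit 12471877204180992))))))) (T.h (P (nat_lit 0)) (T.h (T.h (P (nat_lit 0)) (T.h (M (nat_lit 3668610430600438874111)) (T.h (P (nat_lit 0)) (M (nat_lit 47013678771863551))))) (T.h (P (nat_lit 0)) (T.h (T.h (P (nat_lit 0)) (M (nat_lit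 12344674416689151))) (P (nat_lit 0))))))) (T.h (T.h (P (nat_lit 0)) (T.h (T.h (P (nat_lit 8420469345027642405945344)) (T.h (P (nat_lit 0)) (T.h (M (nat_lit 29332209703661338623)) (T.h (P (nat_lit 0)) (M (nat_lit 5796365101967)))))) (T.h (P (nat_lit 0)) (T.h (T.h (M (nat_lit 26595740297180741631)) (T.h (P (nat_lit 0)) (M (nat_lit 18427241446751)))) (T.h (P (nat_lit 0)) (P (nat_lit 2088080913312))))))) (T.h (T.h (T.h (P (nat_lit 0)) (T.h (P (nat_lit 37652368741945447546880)) (T.h (P (nat_lit 0)) (M (nat_lit 18450982411370495))))) (T.h (P (nat_lit 0)) (T.h (T.h (P (nat_lit 0)) (M (nat_lit 105182443699470335))) (P (nat_lit 0))))) (T.h (T.h (P (nat_lit 0)) (T.h (T.h (P (nat_lit 184211853846620667904)) (T.h (P (nat_lit 0)) (M (nat_lit 31467877982927)))) (T.h (P (nat_lit 0)) (P (nat_lit 13347002066688))))) (T.h (T.h (T.h (P (nat_lit 0)) (P (nat_lit 498903295979454464))) (P (nat_lit 0))) (T.h (T.h (P (nat_lit 0)) (M (nat_lit 98814136291871))) (P (nat_lit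 0)))))))), (T.h (T.h (T.h (M (nat_lit 7347284730981760738617207029759)) (T.h (P (nat_lit 0)) (T.h (P (nat_lit 57923522351927671027400704)) (T.h (P (nat_lit 0)) (T.h (M (nat_lit 29989453987150036991)) (T.h (P (nat_lit 0)) (M (nat_lit 12383001643247)))))))) (T.h (P (nat_lit 0)) (T.h (T.h (M (nat_lit 4210623603377640919007231)) (T.h (P (nat_lit 0)) (T.h (M (nat_lit 2352003625896640511)) (T.h (P (nat_lit 0)) (P (nat_lit 3747522647088)))))) (T.h (P (nat_lit 0)) (T.h (T.h (P (nat_lit 1445542280348827648)) (T.h (P (nat_lit 0)) (M (nat_lit 40758030476063)))) (T.h (P (nat_lit 0)) (P (nat_lit 2262664312560)))))))) (T.h (T.h (P (nat_lit 0)) (T.h (T.h (P (nat_lit 0)) (T.h (P (nat_lit 70258196730489203589120)) (T.h (P (nat_lit 0)) (P (nat_lit 47568789769158656))))) (T.h (P (nat_lit 0)) (T.h (T.h (P (nat_lit 0)) (P (nat_lit 12885981240885248))) (P (nat_lit 0)))))) (T.h (T.h (T.h (M (nat_lit 24986163315578777425149951)) (T.h (P (nat_lit 0)) (T.h (P (nat_lit 177177424402405392384))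 (T.h (P (nat_lit 0)) (M (nat_lit 29246983189487)))))) (T.h (P (nat_lit 0)) (T.h (T.h (P (nat_lit 112178435325171859456)) (T.h (P (nat_lit 0)) (M (nat_lit 154284181097903)))) (T.h (P (nat_lit 0)) (M (nat_lit 40633845785423)))))) (T.h (T.h (P (nat_lit 0)) (T.h (T.h (P (nat_lit 0)) (P (nat_lit 262996897238188032))) (P (nat_lit 0)))) (T.h (T.h (T.h (P (nat_lit 14892719367979532288)) (T.h (P (nat_lit 0)) (P (nat_lit 135693679464000)))) (T.h (P (nat_lit 0)) (M (nat_lit 154054818207791)))) (T.h (P (nat_lit 0)) (M (nat_lit 1900902457007)))))))), (T.h (T.h (T.h (P (nat_lit 0)) (T.h (M (nat_lit 19010715559394962457480921087)) (T.h (P (nat_lit 0)) (T.h (P (nat_lit 17167194726438533070848)) (T.h (P (nat_lit 0)) (P (nat_lit 51833134429732864))))))) (T.h (P (nat_lit 0)) (T.h (T.h (P (nat_lit 0)) (T.h (M (nat_lit 4534848523537343315967)) (T.h (P (nat_lit 0)) (M (nat_lit 39240781425016831))))) (T.h (P (nat_lit 0)) (T.h (T.h (P (nat_lit 0)) (P (nat_lit 72142769679368192)))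 (P (nat_lit 0))))))) (T.h (T.h (P (nat_lit 0)) (T.h (T.h (M (nat_lit 11796831539250381828653055)) (T.h (P (nat_lit 0)) (P (nat_lit 27730665333827043328)))) (T.h (P (nat_lit 0)) (P (nat_lit 11447994264663883776))))) (T.h (T.h (T.h (P (nat_lit 0)) (T.h (M (nat_lit 337256168840861870718975)) (T.h (P (nat_lit 0)) (M (nat_lit 217035851084890111))))) (T.h (P (nat_lit 0)) (T.h (T.h (P (nat_lit 0)) (P (nat_lit 146445637852594176))) (P (nat_lit 0))))) (T.h (T.h (P (nat_lit 0)) (M (nat_lit 201848382004607844351))) (T.h (T.h (T.h (P (nat_lit 0)) (M (nat_lit 537460537767034879))) (P (nat_lit 0))) (P (nat_lit 0))))))), (T.h (T.h (P (nat_lit 0)) (T.h (T.h (P (nat_lit 2154891042732379661706199040)) (T.h (P (nat_lit 0)) (T.h (P (nat_lit 4474762371420710240256)) (T.h (P (nat_lit 0)) (P (nat_lit 13999807017811968)))))) (T.h (P (nat_lit 0)) (T.h (T.h (M (nat_lit 19457227158117284839423)) (T.h (P (nat_lit 0)) (P (nat_lit 38720267754078208)))) (T.h (P (nat_lit 0)) (P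 (nat_lit 8820553485451264))))))) (T.h (T.h (T.h (P (nat_lit 0)) (T.h (P (nat_lit 2383553571043493235654656)) (T.h (P (nat_lit 0)) (T.h (P (nat_lit 14669747237702074368)) (T.h (P (nat_lit 0)) (P (nat_lit 2088080913312))))))) (T.h (P (nat_lit 0)) (T.h (T.h (P (nat_lit 0)) (T.h (M (nat_lit 11842962872105697279)) (T.h (P (nat_lit 0)) (M (nat_lit 18427241446751))))) (T.h (P (nat_lit 0)) (T.h (T.h (P (nat_lit 0)) (M (nat_lit 5796365101967))) (P (nat_lit 0))))))) (T.h (T.h (P (nat_lit 0)) (T.h (T.h (M (nat_lit 34767034279980458573823)) (T.h (P (nat_lit 0)) (M (nat_lit 30376024633999359)))) (T.h (P (nat_lit 0)) (P (nat_lit 42731317351088128))))) (T.h (T.h (T.h (P (nat_lit 0)) (T.h (P (nat_lit 210634333785335791616)) (T.h (P (nat_lit 0)) (P (nat_lit 13347002066688))))) (T.h (P (nat_lit 0)) (T.h (T.h (P (nat_lit 0)) (M (nat_lit 31467877982927))) (P (nat_lit 0))))) (T.h (T.h (P (nat_lit 0)) (P (nat_lit 321250912583647232))) (T.h (T.h (T.h (P (nat_lit 0)) (M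 (nat_lit 98814136291871))) (P (nat_lit 0))) (P (nat_lit 0)))))))), (T.h (T.h (P (nat_lit 0)) (T.h (T.h (P (nat_lit 0)) (T.h (M (nat_lit 53272160417920283098218495)) (T.h (P (nat_lit 0)) (T.h (M (nat_lit 18135119514684096511)) (T.h (P (nat_lit 0)) (P (nat_lit 25603466475168))))))) (T.h (P (nat_lit 0)) (T.h (T.h (P (nat_lit 0)) (T.h (M (nat_lit 18135119514684096511)) (T.h (P (nat_lit 0)) (M (nat_lit 85814251092287))))) (T.h (P (nat_lit 0)) (T.h (T.h (P (nat_lit 0)) (P (nat_lit 25603466475168))) (P (nat_lit 0)))))))) (T.h (T.h (T.h (P (nat_lit 36998131545928357616738631680)) (T.h (P (nat_lit 0)) (T.h (M (nat_lit 90589036788935810875391)) (T.h (P (nat_lit 0)) (P (nat_lit 79739785560276992)))))) (T.h (P (nat_lit 0)) (T.h (T.h (M (nat_lit 90589036788935810875391)) (T.h (P (nat_lit 0)) (P (nat_lit 200668995862790144)))) (T.h (P (nat_lit 0)) (P (nat_lit 79739785560276992)))))) (T.h (T.h (P (nat_lit 0)) (T.h (T.h (P (nat_lit 0)) (T.h (M (nat_lit 1051264078816068239359))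 (T.h (P (nat_lit 0)) (P (nat_lit 71961381107280))))) (T.h (P (nat_lit 0)) (T.h (T.h (P (nat_lit 0)) (P (nat_lit 71961381107280))) (P (nat_lit 0)))))) (T.h (T.h (T.h (M (nat_lit 3100395856076149358591)) (T.h (P (nat_lit 0)) (P (nat_lit 15382350327431168)))) (T.h (P (nat_lit 0)) (P (nat_lit 15382350327431168)))) (T.h (T.h (P (nat_lit 0)) (T.h (T.h (P (nat_lit 0)) (P (nat_lit 354926245962528))) (P (nat_lit 0)))) (P (nat_lit 166287845529026560)))))))]
def lP11_40 : List (T ℤ) := [(T.h (T.h (P (nat_lit 0)) (T.h (T.h (M (nat_lit 2802544089202721518058995711)) (T.h (P (nat_lit 0)) (T.h (M (nat_lit 11334887043216479092735)) (T.h (P (nat_lit 0)) (P (nat_lit 17610523673985024)))))) (T.h (P (nat_lit 0)) (T.h (T.h (P (nat_lit 11706436078456893603840)) (T.h (P (nat_lit 0)) (P (nat_lit 64870222751039488)))) (T.h (P (nat_lit 0)) (M (nat_lit 10301442286452735))))))) (T.h (T.h (T.h (P (nat_lit 0)) (T.h (P (nat_lit 15532778243652765473570816)) (T.h (P (nat_lit 0))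 (P (nat_lit 372027013451330093056))))) (T.h (P (nat_lit 0)) (T.h (T.h (P (nat_lit 0)) (M (nat_lit 132783142035194380287))) (P (nat_lit 0))))) (T.h (T.h (P (nat_lit 0)) (T.h (T.h (P (nat_lit 219226733783414827122688)) (T.h (P (nat_lit 0)) (M (nat_lit 307064400049864703)))) (T.h (P (nat_lit 0)) (P (nat_lit 48128141689192448))))) (T.h (T.h (T.h (P (nat_lit 0)) (M (nat_lit 292461774379792990207))) (P (nat_lit 0))) (T.h (T.h (P (nat_lit 0)) (M (nat_lit 111197562056900607))) (P (nat_lit 0))))))), (T.h (T.h (T.h (M (nat_lit 8874097368190465477069401751551)) (T.h (P (nat_lit 0)) (T.h (M (nat_lit 5776792262901764982833151)) (T.h (P (nat_lit 0)) (T.h (P (nat_lit 188052168320745472)) (T.h (P (nat_lit 0)) (P (nat_lit 2747746866096)))))))) (T.h (P (nat_lit 0)) (T.h (T.h (P (nat_lit 56357353692403546963574784)) (T.h (P (nat_lit 0)) (T.h (P (nat_lit 2920710188275073024)) (T.h (P (nat_lit 0)) (M (nat_lit 34278701036255)))))) (T.h (P (nat_lit 0)) (T.h (T.h (M (nat_lit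 31246944099178119167)) (T.h (P (nat_lit 0)) (P (nat_lit 10226852086896)))) (T.h (P (nat_lit 0)) (M (nat_lit 11897919089711)))))))) (T.h (T.h (P (nat_lit 0)) (T.h (T.h (P (nat_lit 0)) (T.h (P (nat_lit 44308383528726902603776)) (T.h (P (nat_lit 0)) (M (nat_lit 3320335181676543))))) (T.h (P (nat_lit 0)) (T.h (T.h (P (nat_lit 0)) (P (nat_lit 31362473346596864))) (P (nat_lit 0)))))) (T.h (T.h (T.h (M (nat_lit 4121339715995222885269503)) (T.h (P (nat_lit 0)) (T.h (P (nat_lit 100215459310483800064)) (T.h (P (nat_lit 0)) (M (nat_lit 18810786049055)))))) (T.h (P (nat_lit 0)) (T.h (T.h (P (nat_lit 165214448387717332992)) (T.h (P (nat_lit 0)) (M (nat_lit 70818635992175)))) (T.h (P (nat_lit 0)) (M (nat_lit 7423923453119)))))) (T.h (T.h (P (nat_lit 0)) (T.h (T.h (P (nat_lit 0)) (P (nat_lit 112796740792713216))) (P (nat_lit 0)))) (T.h (T.h (T.h (P (nat_lit 21722730684145991680)) (T.h (P (nat_lit 0)) (M (nat_lit 136831125410927)))) (T.h (P (nat_lit 0)) (P (nat_lit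 152917372260864)))) (T.h (P (nat_lit 0)) (M (nat_lit 20331621775151)))))))), (T.h (T.h (T.h (P (nat_lit 0)) (T.h (M (nat_lit 3872263150308463937371242495)) (T.h (P (nat_lit 0)) (T.h (P (nat_lit 16517076005188825776128)) (T.h (P (nat_lit 0)) (M (nat_lit 10111956601995263))))))) (T.h (P (nat_lit 0)) (T.h (T.h (P (nat_lit 0)) (T.h (M (nat_lit 11167772059254816505855)) (T.h (P (nat_lit 0)) (P (nat_lit 68869295065792512))))) (T.h (P (nat_lit 0)) (T.h (T.h (P (nat_lit 0)) (P (nat_lit 10662414417920000))) (P (nat_lit 0))))))) (T.h (T.h (P (nat_lit 0)) (T.h (T.h (P (nat_lit 13771601041747620554342400)) (T.h (P (nat_lit 0)) (M (nat_lit 119147941505997471743)))) (T.h (P (nat_lit 0)) (P (nat_lit 370602560408518656000))))) (T.h (T.h (T.h (P (nat_lit 0)) (T.h (P (nat_lit 210187500718093953400832)) (T.h (P (nat_lit 0)) (P (nat_lit 39013912992251904))))) (T.h (P (nat_lit 0)) (T.h (T.h (P (nat_lit 0)) (M (nat_lit 237350613352972287))) (P (nat_lit 0))))) (T.h (T.h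 (P (nat_lit 0)) (M (nat_lit 451751048473412108287))) (T.h (T.h (T.h (P (nat_lit 0)) (M (nat_lit 472121916617293823))) (P (nat_lit 0))) (P (nat_lit 0))))))), (T.h (T.h (P (nat_lit 0)) (T.h (T.h (M (nat_lit 20080434620500704876793167871)) (T.h (P (nat_lit 0)) (T.h (M (nat_lit 4367733539575680729087)) (T.h (P (nat_lit 0)) (P (nat_lit 65194660423303168)))))) (T.h (P (nat_lit 0)) (T.h (T.h (P (nat_lit 21977834653170465243136)) (T.h (P (nat_lit 0)) (M (nat_lit 35241709110263807)))) (T.h (P (nat_lit 0)) (P (nat_lit 52022620114190336))))))) (T.h (T.h (T.h (P (nat_lit 0)) (T.h (M (nat_lit 13558008741155526747881471)) (T.h (P (nat_lit 0)) (P (nat_lit 10023541221852446720))))) (T.h (P (nat_lit 0)) (T.h (T.h (P (nat_lit 0)) (P (nat_lit 41365865863023951872))) (P (nat_lit 0))))) (T.h (T.h (P (nat_lit 0)) (T.h (T.h (M (nat_lit 346295401906182744440831)) (T.h (P (nat_lit 0)) (P (nat_lit 216159424549486592)))) (T.h (P (nat_lit 0)) (M (nat_lit 226150079781830655)))))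 (T.h (T.h (T.h (P (nat_lit 0)) (M (nat_lit 361137656098226962431))) (P (nat_lit 0))) (T.h (T.h (P (nat_lit 0)) (M (nat_lit 898384892327428095))) (P (nat_lit 0))))))), (T.h (T.h (P (nat_lit 0)) (T.h (T.h (P (nat_lit 0)) (T.h (M (nat_lit 6603952406297327842623487)) (T.h (P (nat_lit 0)) (T.h (M (nat_lit 7293634597340839935)) (T.h (P (nat_lit 0)) (M (nat_lit 776391066335))))))) (T.h (P (nat_lit 0)) (T.h (T.h (P (nat_lit 0)) (T.h (P (nat_lit 4491474292059406336)) (T.h (P (nat_lit 0)) (M (nat_lit 72660681503))))) (T.h (P (nat_lit 0)) (T.h (T.h (P (nat_lit 0)) (M (nat_lit 776391066335))) (P (nat_lit 0)))))))) (T.h (T.h (T.h (P (nat_lit 12705971551799468700223930368)) (T.h (P (nat_lit 0)) (T.h (M (nat_lit 8848581376903131168767)) (T.h (P (nat_lit 0)) (P (nat_lit 15828416420511744)))))) (T.h (P (nat_lit 0)) (T.h (T.h (M (nat_lit 1703111653625365004287)) (T.h (P (nat_lit 0)) (P (nat_lit 24253972323106816)))) (T.h (P (nat_lit 0)) (P (nat_lit 8727060432158720))))))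 (T.h (T.h (P (nat_lit 0)) (T.h (T.h (P (nat_lit 0)) (T.h (P (nat_lit 46739776176339812352)) (T.h (P (nat_lit 0)) (P (nat_lit 18444320661312))))) (T.h (P (nat_lit 0)) (T.h (T.h (P (nat_lit 0)) (P (nat_lit 18444320661312))) (P (nat_lit 0)))))) (T.h (T.h (T.h (P (nat_lit 1067211340657522114560)) (T.h (P (nat_lit 0)) (P (nat_lit 10236873174646784)))) (T.h (P (nat_lit 0)) (P (nat_lit 33631326450122752)))) (T.h (T.h (P (nat_lit 0)) (T.h (T.h (P (nat_lit 0)) (P (nat_lit 135946721145024))) (P (nat_lit 0)))) (M (nat_lit 24957961867493375))))))), (T.h (T.h (P (nat_lit 0)) (T.h (T.h (P (nat_lit 7613911020926650974465949696)) (T.h (P (nat_lit 0)) (T.h (P (nat_lit 856239061351264157696)) (T.h (P (nat_lit 0)) (M (nat_lit 18543270365085695)))))) (T.h (P (nat_lit 0)) (T.h (T.h (P (nat_lit 3737831950392995348480)) (T.h (P (nat_lit 0)) (P (nat_lit 18868985238323200)))) (T.h (P (nat_lit 0)) (M (nat_lit 2662119321436159))))))) (T.h (T.h (T.h (P (nat_lit 0)) (T.h (P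 (nat_lit 16770020288298499683909632)) (T.h (P (nat_lit 0)) (T.h (M (nat_lit 24581911049941286911)) (T.h (P (nat_lit 0)) (M (nat_lit 3743196082991))))))) (T.h (P (nat_lit 0)) (T.h (T.h (P (nat_lit 0)) (T.h (P (nat_lit 6148453346429632512)) (T.h (P (nat_lit 0)) (M (nat_lit 43491366017423))))) (T.h (P (nat_lit 0)) (T.h (T.h (P (nat_lit 0)) (P (nat_lit 17575024374576))) (P (nat_lit 0))))))) (T.h (T.h (P (nat_lit 0)) (T.h (T.h (M (nat_lit 37608647712375417339903)) (T.h (P (nat_lit 0)) (M (nat_lit 11201544438792191)))) (T.h (P (nat_lit 0)) (M (nat_lit 15025593104400383))))) (T.h (T.h (T.h (P (nat_lit 0)) (T.h (M (nat_lit 54436003502392082431)) (T.h (P (nat_lit 0)) (M (nat_lit 15746492039039))))) (T.h (P (nat_lit 0)) (T.h (T.h (P (nat_lit 0)) (M (nat_lit 157763501468927))) (P (nat_lit 0))))) (T.h (T.h (P (nat_lit 0)) (P (nat_lit 288386959946383360))) (T.h (T.h (T.h (P (nat_lit 0)) (P (nat_lit 310329193881600))) (P (nat_lit 0))) (P (nat_lit 0)))))))), (T.h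 (T.h (P (nat_lit 0)) (T.h (T.h (P (nat_lit 0)) (T.h (M (nat_lit 8121832179209592299847679)) (T.h (P (nat_lit 0)) (P (nat_lit 18589109809936596992))))) (T.h (P (nat_lit 0)) (T.h (T.h (P (nat_lit 0)) (M (nat_lit 6818117037345210367))) (P (nat_lit 0)))))) (T.h (T.h (T.h (P (nat_lit 5938840239767262457329876992)) (T.h (P (nat_lit 0)) (T.h (M (nat_lit 83505656668972851920895)) (T.h (P (nat_lit 0)) (P (nat_lit 17569552337108992)))))) (T.h (P (nat_lit 0)) (T.h (T.h (M (nat_lit 32448110580492473991167)) (T.h (P (nat_lit 0)) (P (nat_lit 99906550954229760)))) (T.h (P (nat_lit 0)) (P (nat_lit 14493620268662784)))))) (T.h (T.h (P (nat_lit 0)) (T.h (T.h (P (nat_lit 0)) (M (nat_lit 9408689513531703295))) (P (nat_lit 0)))) (T.h (T.h (T.h (M (nat_lit 15260972577348049174527)) (T.h (P (nat_lit 0)) (M (nat_lit 112761797231247359)))) (T.h (P (nat_lit 0)) (P (nat_lit 176124080196288512)))) (T.h (P (nat_lit 0)) (M (nat_lit 68021766630866943))))))), (T.h (T.h (T.h (P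 (nat_lit 0)) (T.h (P (nat_lit 7613911020926650974465949696)) (T.h (P (nat_lit 0)) (T.h (P (nat_lit 3737831950392995348480)) (T.h (P (nat_lit 0)) (M (nat_lit 2662119321436159))))))) (T.h (P (nat_lit 0)) (T.h (T.h (P (nat_lit 0)) (T.h (P (nat_lit 856239061351264157696)) (T.h (P (nat_lit 0)) (P (nat_lit 18868985238323200))))) (T.h (P (nat_lit 0)) (T.h (T.h (P (nat_lit 0)) (M (nat_lit 18543270365085695))) (P (nat_lit 0))))))) (T.h (T.h (P (nat_lit 0)) (T.h (T.h (P (nat_lit 16770020288298499683909632)) (T.h (P (nat_lit 0)) (T.h (P (nat_lit 6148453346429632512)) (T.h (P (nat_lit 0)) (P (nat_lit 17575024374576)))))) (T.h (P (nat_lit 0)) (T.h (T.h (M (nat_lit 24581911049941286911)) (T.h (P (nat_lit 0)) (M (nat_lit 43491366017423)))) (T.h (P (nat_lit 0)) (M (nat_lit 3743196082991))))))) (T.h (T.h (T.h (P (nat_lit 0)) (T.h (M (nat_lit 37608647712375417339903)) (T.h (P (nat_lit 0)) (M (nat_lit 15025593104400383))))) (T.h (P (nat_lit 0)) (T.h (T.h (P (nat_lit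 0)) (M (nat_lit 11201544438792191))) (P (nat_lit 0))))) (T.h (T.h (P (nat_lit 0)) (T.h (T.h (M (nat_lit 54436003502392082431)) (T.h (P (nat_lit 0)) (M (nat_lit 157763501468927)))) (T.h (P (nat_lit 0)) (M (nat_lit 15746492039039))))) (T.h (T.h (T.h (P (nat_lit 0)) (P (nat_lit 288386959946383360))) (P (nat_lit 0))) (T.h (T.h (P (nat_lit 0)) (P (nat_lit 310329193881600))) (P (nat_lit 0))))))))]
def lP11_41 : List (T ℤ) := [(T.h (T.h (T.h (M (nat_lit 3388291302366962560366419116031)) (T.h (P (nat_lit 0)) (T.h (P (nat_lit 4983474547258667095293952)) (T.h (P (nat_lit 0)) (P (nat_lit 5571827366197460992)))))) (T.h (P (nat_lit 0)) (T.h (T.h (P (nat_lit 4983474547258667095293952)) (T.h (P (nat_lit 0)) (M (nat_lit 46072855600505552895)))) (T.h (P (nat_lit 0)) (P (nat_lit 5571827366197460992)))))) (T.h (T.h (P (nat_lit 0)) (T.h (T.h (P (nat_lit 0)) (T.h (P (nat_lit 130518322924367101558784)) (T.h (P (nat_lit 0)) (M (nat_lit 28954197942730751))))) (T.h (P (nat_lit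 0)) (T.h (T.h (P (nat_lit 0)) (M (nat_lit 28954197942730751))) (P (nat_lit 0)))))) (T.h (T.h (T.h (M (nat_lit 52973080057366503088979967)) (T.h (P (nat_lit 0)) (M (nat_lit 91053075213775273983)))) (T.h (P (nat_lit 0)) (M (nat_lit 91053075213775273983)))) (T.h (T.h (P (nat_lit 0)) (T.h (T.h (P (nat_lit 0)) (M (nat_lit 179461911432396799))) (P (nat_lit 0)))) (M (nat_lit 201408859984088793087)))))), (T.h (T.h (P (nat_lit 0)) (T.h (T.h (P (nat_lit 0)) (T.h (M (nat_lit 5722141391046098395594751)) (T.h (P (nat_lit 0)) (M (nat_lit 5995505179078688767))))) (T.h (P (nat_lit 0)) (T.h (T.h (P (nat_lit 0)) (P (nat_lit 19411721668203118592))) (P (nat_lit 0)))))) (T.h (T.h (T.h (M (nat_lit 1007859841762685177470910463)) (T.h (P (nat_lit 0)) (T.h (M (nat_lit 29919466348132576526335)) (T.h (P (nat_lit 0)) (P (nat_lit 4561703304200192)))))) (T.h (P (nat_lit 0)) (T.h (T.h (M (nat_lit 80977012436612954456063)) (T.h (P (nat_lit 0)) (P (nat_lit 61920453981667328))))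 (T.h (P (nat_lit 0)) (P (nat_lit 7637635372646400)))))) (T.h (T.h (P (nat_lit 0)) (T.h (T.h (P (nat_lit 0)) (M (nat_lit 33583577443522838527))) (P (nat_lit 0)))) (T.h (T.h (T.h (M (nat_lit 21797986948526179876863)) (T.h (P (nat_lit 0)) (P (nat_lit 160446692263854080)))) (T.h (P (nat_lit 0)) (M (nat_lit 128439185163681791)))) (T.h (P (nat_lit 0)) (M (nat_lit 42857691188494335))))))), (T.h (T.h (T.h (M (nat_lit 1526812637208704738452194721791)) (T.h (P (nat_lit 0)) (T.h (M (nat_lit 1566168659524124063825919)) (T.h (P (nat_lit 0)) (T.h (M (nat_lit 1257490112028082175)) (T.h (P (nat_lit 0)) (P (nat_lit 485082553536)))))))) (T.h (P (nat_lit 0)) (T.h (T.h (M (nat_lit 1566168659524124063825919)) (T.h (P (nat_lit 0)) (T.h (P (nat_lit 5272713814171713536)) (T.h (P (nat_lit 0)) (P (nat_lit 6479329439808)))))) (T.h (P (nat_lit 0)) (T.h (T.h (M (nat_lit 1257490112028082175)) (T.h (P (nat_lit 0)) (P (nat_lit 6479329439808)))) (T.h (P (nat_lit 0)) (P (nat_lit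 485082553536)))))))) (T.h (T.h (P (nat_lit 0)) (T.h (T.h (P (nat_lit 0)) (T.h (M (nat_lit 25949813201762300985343)) (T.h (P (nat_lit 0)) (M (nat_lit 16206316422561791))))) (T.h (P (nat_lit 0)) (T.h (T.h (P (nat_lit 0)) (M (nat_lit 16206316422561791))) (P (nat_lit 0)))))) (T.h (T.h (T.h (P (nat_lit 20864823599583554539880448)) (T.h (P (nat_lit 0)) (T.h (M (nat_lit 11962976014688059391)) (T.h (P (nat_lit 0)) (P (nat_lit 21823059736368)))))) (T.h (P (nat_lit 0)) (T.h (T.h (M (nat_lit 11962976014688059391)) (T.h (P (nat_lit 0)) (P (nat_lit 83465545105728)))) (T.h (P (nat_lit 0)) (P (nat_lit 21823059736368)))))) (T.h (T.h (P (nat_lit 0)) (T.h (T.h (P (nat_lit 0)) (M (nat_lit 150200156445474815))) (P (nat_lit 0)))) (T.h (T.h (T.h (P (nat_lit 6830011316166459392)) (T.h (P (nat_lit 0)) (P (nat_lit 17223692796864)))) (T.h (P (nat_lit 0)) (P (nat_lit 17223692796864)))) (T.h (P (nat_lit 0)) (M (nat_lit 18430719318143)))))))), (T.h (T.h (T.h (P (nat_lit 0))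 (T.h (M (nat_lit 1069719061105742419312246783)) (T.h (P (nat_lit 0)) (T.h (P (nat_lit 4810639926731932172288)) (T.h (P (nat_lit 0)) (P (nat_lit 189485684457472))))))) (T.h (P (nat_lit 0)) (T.h (T.h (P (nat_lit 0)) (T.h (P (nat_lit 167114983961662586880)) (T.h (P (nat_lit 0)) (P (nat_lit 3999072314753024))))) (T.h (P (nat_lit 0)) (T.h (T.h (P (nat_lit 0)) (M (nat_lit 6948109256065023))) (P (nat_lit 0))))))) (T.h (T.h (P (nat_lit 0)) (T.h (T.h (M (nat_lit 1761177201905144919228415)) (T.h (P (nat_lit 0)) (P (nat_lit 13635200529196908544)))) (T.h (P (nat_lit 0)) (M (nat_lit 1424453042811437055))))) (T.h (T.h (T.h (P (nat_lit 0)) (T.h (M (nat_lit 9039233065320873721855)) (T.h (P (nat_lit 0)) (M (nat_lit 9114228696940543))))) (T.h (P (nat_lit 0)) (T.h (T.h (P (nat_lit 0)) (P (nat_lit 69713786696892416))) (P (nat_lit 0))))) (T.h (T.h (P (nat_lit 0)) (M (nat_lit 159289274093619118079))) (T.h (T.h (T.h (P (nat_lit 0)) (M (nat_lit 360924354560393215))) (P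 (nat_lit 0))) (P (nat_lit 0))))))), (T.h (T.h (P (nat_lit 0)) (T.h (T.h (M (nat_lit 1069719061105742419312246783)) (T.h (P (nat_lit 0)) (T.h (P (nat_lit 167114983961662586880)) (T.h (P (nat_lit 0)) (M (nat_lit 6948109256065023)))))) (T.h (P (nat_lit 0)) (T.h (T.h (P (nat_lit 4810639926731932172288)) (T.h (P (nat_lit 0)) (P (nat_lit 3999072314753024)))) (T.h (P (nat_lit 0)) (P (nat_lit 189485684457472))))))) (T.h (T.h (T.h (P (nat_lit 0)) (T.h (M (nat_lit 1761177201905144919228415)) (T.h (P (nat_lit 0)) (M (nat_lit 1424453042811437055))))) (T.h (P (nat_lit 0)) (T.h (T.h (P (nat_lit 0)) (P (nat_lit 13635200529196908544))) (P (nat_lit 0))))) (T.h (T.h (P (nat_lit 0)) (T.h (T.h (M (nat_lit 9039233065320873721855)) (T.h (P (nat_lit 0)) (P (nat_lit 69713786696892416)))) (T.h (P (nat_lit 0)) (M (nat_lit 9114228696940543))))) (T.h (T.h (T.h (P (nat_lit 0)) (M (nat_lit 159289274093619118079))) (P (nat_lit 0))) (T.h (T.h (P (nat_lit 0)) (M (nat_lit 360924354560393215)))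 (P (nat_lit 0))))))), (T.h (T.h (P (nat_lit 0)) (T.h (T.h (P (nat_lit 0)) (T.h (P (nat_lit 2399690788163493904252928)) (T.h (P (nat_lit 0)) (P (nat_lit 822611858266521600))))) (T.h (P (nat_lit 0)) (T.h (T.h (P (nat_lit 0)) (P (nat_lit 822611858266521600))) (P (nat_lit 0)))))) (T.h (T.h (T.h (M (nat_lit 6946700081529947634800787455)) (T.h (P (nat_lit 0)) (T.h (P (nat_lit 2528644232359897464832)) (T.h (P (nat_lit 0)) (M (nat_lit 9931916964462591)))))) (T.h (P (nat_lit 0)) (T.h (T.h (P (nat_lit 2528644232359897464832)) (T.h (P (nat_lit 0)) (M (nat_lit 37986096972562431)))) (T.h (P (nat_lit 0)) (M (nat_lit 9931916964462591)))))) (T.h (T.h (P (nat_lit 0)) (T.h (T.h (P (nat_lit 0)) (M (nat_lit 24174887929991135231))) (P (nat_lit 0)))) (T.h (T.h (T.h (M (nat_lit 6537014371178130702335)) (T.h (P (nat_lit 0)) (M (nat_lit 15677387932434431)))) (T.h (P (nat_lit 0)) (M (nat_lit 15677387932434431)))) (T.h (P (nat_lit 0)) (P (nat_lit 25164075442372608)))))))]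

def CP11 : List (T ℤ) := lP11_0 ++ (lP11_1 ++ (lP11_2 ++ (lP11_3 ++ (lP11_4 ++ (lP11_5 ++ (lP11_6 ++ (lP11_7 ++ (lP11_8 ++ (lP11_9 ++ (lP11_10 ++ (lP11_11 ++ (lP11_12 ++ (lP11_13 ++ (lP11_14 ++ (lP11_15 ++ (lP11_16 ++ (lP11_17 ++ (lP11_18 ++ (lP11_19 ++ (lP11_20 ++ (lP11_21 ++ (lP11_22 ++ (lP11_23 ++ (lP11_24 ++ (lP11_25 ++ (lP11_26 ++ (lP11_27 ++ (lP11_28 ++ (lP11_29 ++ (lP11_30 ++ (lP11_31 ++ (lP11_32 ++ (lP11_33 ++ (lP11_34 ++ (lP11_35 ++ (lP11_36 ++ (lP11_37 ++ (lP11_38 ++ (lP11_39 ++ (lP11_40 ++ (lP11_41)))))))))))))))))))))))))))))))))))))))))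

/-- norms at radius 1536 -/
def NP11 : List ℕ := [(nat_lit 0), (nat_lit 0), (nat_lit 0), (nat_lit 0), (nat_lit 0), (nat_lit 0), (nat_lit 0), (nat_lit 0), (nat_lit 0), (nat_lit 0), (nat_lit 0), (nat_lit 0), (nat_lit 0), (nat_lit 0), (nat_lit 0), (nat_lit 0), (nat_lit 0), (nat_lit 4410501400340933843783516160000), (nat_lit 0), (nat_lit 0), (nat_lit 2751027194147596417254050871902208), (nat_lit 2919631678078281648770183635927040), (nat_lit 3699835453629209393582586653048832), (nat_lit 4474665409993961188770017645166592), (nat_lit 1179900458896524047471018407624704), (nat_lit 0), (nat_lit 0), (nat_lit 3686711032164120860090037140717568), (nat_lit 7751988180053695272629066973315072), (nat_lit 9731916624803796350692896836419584), (nat_lit 10915902056765023560337884400582656), (nat_lit 4882080804122028056973939289620480), (nat_lit 0), (nat_lit 0), (nat_lit 3164179008046073739188494751760384), (nat_lit 4251629315499708287403080533671936), (nat_lit 8584970541670606820824148418232320),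 (nat_lit 12665278915081336351341408241582080), (nat_lit 4877390115265699470167065485115392), (nat_lit 0), (nat_lit 0), (nat_lit 3164179008046073739188494751760384), (nat_lit 13990643954564281047612103040434176), (nat_lit 12091484264369085907824085372502016), (nat_lit 24437984887166330638999702487433216), (nat_lit 11797823836781131919374112205570048), (nat_lit 0), (nat_lit 3686711032164120860090037140717568), (nat_lit 4251629315499708287403080533671936), (nat_lit 12091484264369085907824085372502016), (nat_lit 21260503527329198288352611559014400), (nat_lit 9655153493091300658344029979672576), (nat_lit 2751027194147596417254050871902208), (nat_lit 7751988180053695272629066973315072), (nat_lit 8584970541670606820824148418232320), (nat_lit 24437984887166330638999702487433216), (nat_lit 9655153493091300658344029979672576), (nat_lit 2919631678078281648770183635927040), (nat_lit 9731916624803796350692896836419584), (nat_lit 12665278915081336351341408241582080),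 (nat_lit 11797823836781131919374112205570048), (nat_lit 3699835453629209393582586653048832), (nat_lit 10915902056765023560337884400582656), (nat_lit 4877390115265699470167065485115392), (nat_lit 4474665409993961188770017645166592), (nat_lit 4882080804122028056973939289620480), (nat_lit 1179900458896524047471018407624704), (nat_lit 0), (nat_lit 0), (nat_lit 0), (nat_lit 0), (nat_lit 0), (nat_lit 0), (nat_lit 0), (nat_lit 0), (nat_lit 0), (nat_lit 2853093973034014292172111685353472), (nat_lit 0), (nat_lit 2128228162623424250497436923985920), (nat_lit 0), (nat_lit 0), (nat_lit 0), (nat_lit 0), (nat_lit 11515704174492484725962866560073728), (nat_lit 7751988180053695272629066973315072), (nat_lit 11021393795041604743773814750445568), (nat_lit 10915902056765023560337884400582656), (nat_lit 4882080804122028056973939289620480), (nat_lit 0), (nat_lit 0), (nat_lit 13483563049298091417996832530235392), (nat_lit 10566108057898027055131773011755008), (nat_lit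 34231574710786070944023135402328064), (nat_lit 20018357173566340707062004634877952), (nat_lit 5107568240768948553730650724630528), (nat_lit 0), (nat_lit 0), (nat_lit 27416249472063068734065304154406912), (nat_lit 23015786833063519900767466096164864), (nat_lit 36986626071506849098811591148699648), (nat_lit 33297041505957528553104048062988288), (nat_lit 10137550684850219468597346321825792), (nat_lit 0), (nat_lit 16273788472564354366069867364220928), (nat_lit 23015786833063519900767466096164864), (nat_lit 36286137450272747654935239465107456), (nat_lit 27785827627526189123212024416829440), (nat_lit 12941107221511953457874163820658688), (nat_lit 6415750415751247026802313782099968), (nat_lit 10566108057898027055131773011755008), (nat_lit 39212125995974983644097734865059840), (nat_lit 27785827627526189123212024416829440), (nat_lit 9028142197616287317498108951134208), (nat_lit 7751988180053695272629066973315072), (nat_lit 22486591771227849227508628792016896),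 (nat_lit 33297041505957528553104048062988288), (nat_lit 12941107221511953457874163820658688), (nat_lit 7671268913349770690281509690015744), (nat_lit 20018357173566340707062004634877952), (nat_lit 10137550684850219468597346321825792), (nat_lit 10915902056765023560337884400582656), (nat_lit 5107568240768948553730650724630528), (nat_lit 4882080804122028056973939289620480), (nat_lit 4410501400340933843783516160000), (nat_lit 0), (nat_lit 0), (nat_lit 2751027194147596417254050871902208), (nat_lit 2919631678078281648770183635927040), (nat_lit 3699835453629209393582586653048832), (nat_lit 4474665409993961188770017645166592), (nat_lit 1179900458896524047471018407624704), (nat_lit 0), (nat_lit 0), (nat_lit 11515704174492484725962866560073728), (nat_lit 7751988180053695272629066973315072), (nat_lit 11021393795041604743773814750445568), (nat_lit 10915902056765023560337884400582656), (nat_lit 4882080804122028056973939289620480), (nat_lit 0), (nat_lit 0), (nat_lit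 14451837548431020428431076018356224), (nat_lit 5826198190663574362426785241497600), (nat_lit 25100244552499948183178757040766976), (nat_lit 17814934114930289953016906029989888), (nat_lit 5746609755232576663131884032622592), (nat_lit 0), (nat_lit 0), (nat_lit 26080038467052214995157948620079104), (nat_lit 36383613915029458979019586944368640), (nat_lit 36476800930327988194086169312493568), (nat_lit 49769947557664332430368503645601792), (nat_lit 15807807570940305294252721519460352), (nat_lit 0), (nat_lit 25893301008648568254954086319783936), (nat_lit 10959506823925672063170474726653952), (nat_lit 49849731466630101750866297323782144), (nat_lit 43362689201843109637321475326214144), (nat_lit 16798947731169350018474083400810496), (nat_lit 10589273578518307618933081009815552), (nat_lit 27004038068384617344866578392416256), (nat_lit 37299210050428538477454366678712320), (nat_lit 60022032917306295993572779616108544), (nat_lit 13807726790818020441573469150248960),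 (nat_lit 6290713174459397191403951253094400), (nat_lit 38803045557317591678306577605984256), (nat_lit 30786337247829905781013118487363584), (nat_lit 21005378375207920318418519190405120), (nat_lit 11993042497932988140623017185116160), (nat_lit 37169877042225813198691454725128192), (nat_lit 11749188725868237356381717246509056), (nat_lit 9499766302631035693071869660889088), (nat_lit 13306965444640261035598808566726656), (nat_lit 4294327681038242856217955077718016), (nat_lit 0), (nat_lit 0), (nat_lit 3686711032164120860090037140717568), (nat_lit 7751988180053695272629066973315072), (nat_lit 9731916624803796350692896836419584), (nat_lit 10915902056765023560337884400582656), (nat_lit 4882080804122028056973939289620480), (nat_lit 0), (nat_lit 0), (nat_lit 13483563049298091417996832530235392), (nat_lit 10566108057898027055131773011755008), (nat_lit 34231574710786070944023135402328064), (nat_lit 20018357173566340707062004634877952), (nat_lit 5107568240768948553730650724630528),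 (nat_lit 0), (nat_lit 0), (nat_lit 26080038467052214995157948620079104), (nat_lit 36383613915029458979019586944368640), (nat_lit 36476800930327988194086169312493568), (nat_lit 49769947557664332430368503645601792), (nat_lit 15807807570940305294252721519460352), (nat_lit 0), (nat_lit 46801838502579729670839301753012224), (nat_lit 46031573666127039801534932192329728), (nat_lit 50599249665192578289816303415853056), (nat_lit 49640296614801432890017079818715136), (nat_lit 24008582439716849018896819653967872), (nat_lit 7272939542008659655762673292804096), (nat_lit 28599479382524569596121038874214400), (nat_lit 61252448426826164513958444901859328), (nat_lit 66494287587801668013035079201718272), (nat_lit 15283544898865920353688987887468544), (nat_lit 17703091468919301769486003379109888), (nat_lit 49556480796579293990249971710951424), (nat_lit 59824688353031924293164930057633792), (nat_lit 49084730241132878698817326745124864), (nat_lit 19869246979663055859460496462708736),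 (nat_lit 12083867809037647453405302925295616), (nat_lit 17201410105479006430739133401923584), (nat_lit 32202265066493501811241624195301376), (nat_lit 9341453160311851017575404301975552), (nat_lit 16475643150962942312831827134382080), (nat_lit 0), (nat_lit 0), (nat_lit 3164179008046073739188494751760384), (nat_lit 4251629315499708287403080533671936), (nat_lit 8584970541670606820824148418232320), (nat_lit 12665278915081336351341408241582080), (nat_lit 4877390115265699470167065485115392), (nat_lit 0), (nat_lit 0), (nat_lit 27416249472063068734065304154406912), (nat_lit 23015786833063519900767466096164864), (nat_lit 36986626071506849098811591148699648), (nat_lit 33297041505957528553104048062988288), (nat_lit 10137550684850219468597346321825792), (nat_lit 0), (nat_lit 25893301008648568254954086319783936), (nat_lit 10959506823925672063170474726653952), (nat_lit 49849731466630101750866297323782144), (nat_lit 43362689201843109637321475326214144), (nat_lit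 16798947731169350018474083400810496), (nat_lit 7272939542008659655762673292804096), (nat_lit 28599479382524569596121038874214400), (nat_lit 61252448426826164513958444901859328), (nat_lit 66494287587801668013035079201718272), (nat_lit 15283544898865920353688987887468544), (nat_lit 7624424002877070965552658914476032), (nat_lit 48679927932438999270550817168424960), (nat_lit 52269523159504965456391924363558912), (nat_lit 20241320113901002528647234352840704), (nat_lit 21088418921790856774601510416809984), (nat_lit 37359835435603911568926043482882048), (nat_lit 17861254035807638069075811237888000), (nat_lit 18068579808443329019436083177324544), (nat_lit 8341395150381929338803528753217536), (nat_lit 10550730464486495538467058512560128), (nat_lit 0), (nat_lit 0), (nat_lit 3164179008046073739188494751760384), (nat_lit 13990643954564281047612103040434176), (nat_lit 12091484264369085907824085372502016), (nat_lit 24437984887166330638999702487433216), (nat_lit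 11797823836781131919374112205570048), (nat_lit 0), (nat_lit 16273788472564354366069867364220928), (nat_lit 23015786833063519900767466096164864), (nat_lit 36286137450272747654935239465107456), (nat_lit 27785827627526189123212024416829440), (nat_lit 12941107221511953457874163820658688), (nat_lit 10589273578518307618933081009815552), (nat_lit 27004038068384617344866578392416256), (nat_lit 37299210050428538477454366678712320), (nat_lit 60022032917306295993572779616108544), (nat_lit 13807726790818020441573469150248960), (nat_lit 17703091468919301769486003379109888), (nat_lit 49556480796579293990249971710951424), (nat_lit 59824688353031924293164930057633792), (nat_lit 49084730241132878698817326745124864), (nat_lit 21088418921790856774601510416809984), (nat_lit 37359835435603911568926043482882048), (nat_lit 17861254035807638069075811237888000), (nat_lit 32294037471328400101809824496353280), (nat_lit 24028787300609518813740308524695552), (nat_lit 13482968307722334191209169087889408),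 (nat_lit 0), (nat_lit 3686711032164120860090037140717568), (nat_lit 4251629315499708287403080533671936), (nat_lit 12091484264369085907824085372502016), (nat_lit 21260503527329198288352611559014400), (nat_lit 9655153493091300658344029979672576), (nat_lit 6415750415751247026802313782099968), (nat_lit 10566108057898027055131773011755008), (nat_lit 39212125995974983644097734865059840), (nat_lit 27785827627526189123212024416829440), (nat_lit 9028142197616287317498108951134208), (nat_lit 6290713174459397191403951253094400), (nat_lit 38803045557317591678306577605984256), (nat_lit 30786337247829905781013118487363584), (nat_lit 21005378375207920318418519190405120), (nat_lit 19869246979663055859460496462708736), (nat_lit 12083867809037647453405302925295616), (nat_lit 17201410105479006430739133401923584), (nat_lit 18068579808443329019436083177324544), (nat_lit 8341395150381929338803528753217536), (nat_lit 13482968307722334191209169087889408), (nat_lit 2751027194147596417254050871902208),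 (nat_lit 7751988180053695272629066973315072), (nat_lit 8584970541670606820824148418232320), (nat_lit 24437984887166330638999702487433216), (nat_lit 9655153493091300658344029979672576), (nat_lit 7751988180053695272629066973315072), (nat_lit 22486591771227849227508628792016896), (nat_lit 33297041505957528553104048062988288), (nat_lit 12941107221511953457874163820658688), (nat_lit 11993042497932988140623017185116160), (nat_lit 37169877042225813198691454725128192), (nat_lit 11749188725868237356381717246509056), (nat_lit 32202265066493501811241624195301376), (nat_lit 9341453160311851017575404301975552), (nat_lit 10550730464486495538467058512560128), (nat_lit 2919631678078281648770183635927040), (nat_lit 9731916624803796350692896836419584), (nat_lit 12665278915081336351341408241582080), (nat_lit 11797823836781131919374112205570048), (nat_lit 7671268913349770690281509690015744), (nat_lit 20018357173566340707062004634877952), (nat_lit 10137550684850219468597346321825792),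 (nat_lit 9499766302631035693071869660889088), (nat_lit 13306965444640261035598808566726656), (nat_lit 16475643150962942312831827134382080), (nat_lit 3699835453629209393582586653048832), (nat_lit 10915902056765023560337884400582656), (nat_lit 4877390115265699470167065485115392), (nat_lit 10915902056765023560337884400582656), (nat_lit 5107568240768948553730650724630528), (nat_lit 4294327681038242856217955077718016), (nat_lit 4474665409993961188770017645166592), (nat_lit 4882080804122028056973939289620480), (nat_lit 4882080804122028056973939289620480), (nat_lit 1179900458896524047471018407624704)]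


def lP12_0 : List (T ℤ) := [(P (nat_lit 0)), (P (nat_lit 0)), (P (nat_lit 0)), (P (nat_lit 0)), (P (nat_lit 0)), (P (nat_lit 0)), (P (nat_lit 0)), (P (nat_lit 0))]
def lP12_1 : List (T ℤ) := [(P (nat_lit 0)), (M (nat_lit 4410501400340933843783516159999)), (P (nat_lit 0)), (P (nat_lit 0)), (T.h (T.h (T.h (P (nat_lit 0)) (T.h (M (nat_lit 5759271470269521065423142911)) (T.h (P (nat_lit 0)) (T.h (P (nat_lit 5469803030520608587776)) (T.h (P (nat_lit 0)) (M (nat_lit 206113574879231))))))) (T.h (P (nat_lit 0)) (T.h (T.h (P (nat_lit 0)) (T.h (P (nat_lit 2712750349386849976320)) (T.h (P (nat_lit 0)) (M (nat_lit 12044449115373567))))) (T.h (P (nat_lit 0)) (T.h (T.h (P (nat_lit 0)) (M (nat_lit 2704680764932095))) (P (nat_lit 0))))))) (T.h (T.h (P (nat_lit 0)) (T.h (T.h (P (nat_lit 4204261618133833938370560)) (T.h (P (nat_lit 0)) (T.h (M (nat_lit 22564888246348677119)) (T.h (P (nat_lit 0)) (M (nat_lit 135946721145023)))))) (T.h (P (nat_lit 0)) (T.h (T.h (P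 (nat_lit 1436442446299922432)) (T.h (P (nat_lit 0)) (M (nat_lit 13039914007615)))) (T.h (P (nat_lit 0)) (P (nat_lit 1300883372136))))))) (T.h (T.h (T.h (P (nat_lit 0)) (T.h (P (nat_lit 2781654216421851267072)) (T.h (P (nat_lit 0)) (M (nat_lit 468974644527103))))) (T.h (P (nat_lit 0)) (T.h (T.h (P (nat_lit 0)) (P (nat_lit 13732124649455616))) (P (nat_lit 0))))) (T.h (T.h (P (nat_lit 0)) (T.h (T.h (M (nat_lit 279505857551532031)) (T.h (P (nat_lit 0)) (M (nat_lit 23848727315007)))) (T.h (P (nat_lit 0)) (P (nat_lit 72660681504))))) (T.h (T.h (T.h (P (nat_lit 0)) (M (nat_lit 1986962158813183))) (P (nat_lit 0))) (T.h (T.h (P (nat_lit 0)) (P (nat_lit 251898760536))) (P (nat_lit 0)))))))), (T.h (T.h (T.h (P (nat_lit 6945281478211275015688300789760)) (T.h (P (nat_lit 0)) (T.h (M (nat_lit 6892331385474144117194751)) (T.h (P (nat_lit 0)) (T.h (M (nat_lit 12345843102613766143)) (T.h (P (nat_lit 0)) (P (nat_lit 10239292669440)))))))) (T.h (P (nat_lit 0)) (T.h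 (T.h (M (nat_lit 844005617985062042599423)) (T.h (P (nat_lit 0)) (T.h (P (nat_lit 28162852510398152704)) (T.h (P (nat_lit 0)) (M (nat_lit 6531616341807)))))) (T.h (P (nat_lit 0)) (T.h (T.h (M (nat_lit 250077559696392191)) (T.h (P (nat_lit 0)) (M (nat_lit 12025278876719)))) (T.h (P (nat_lit 0)) (M (nat_lit 394146612063)))))))) (T.h (T.h (P (nat_lit 0)) (T.h (T.h (P (nat_lit 0)) (T.h (P (nat_lit 21790855645850796818432)) (T.h (P (nat_lit 0)) (P (nat_lit 114410331772616704))))) (T.h (P (nat_lit 0)) (T.h (T.h (P (nat_lit 0)) (M (nat_lit 8712303045115903))) (P (nat_lit 0)))))) (T.h (T.h (T.h (M (nat_lit 844005617985062042599423)) (T.h (P (nat_lit 0)) (T.h (P (nat_lit 28162852510398152704)) (T.h (P (nat_lit 0)) (M (nat_lit 6531616341807)))))) (T.h (P (nat_lit 0)) (T.h (T.h (P (nat_lit 1700261905928552448)) (T.h (P (nat_lit 0)) (M (nat_lit 46369747134399)))) (T.h (P (nat_lit 0)) (M (nat_lit 1928525502543)))))) (T.h (T.h (P (nat_lit 0)) (T.h (T.h (P (nat_lit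 0)) (M (nat_lit 8712303045115903))) (P (nat_lit 0)))) (T.h (T.h (T.h (M (nat_lit 250077559696392191)) (T.h (P (nat_lit 0)) (M (nat_lit 12025278876719)))) (T.h (P (nat_lit 0)) (M (nat_lit 1928525502543)))) (T.h (P (nat_lit 0)) (M (nat_lit 394146612063)))))))), (T.h (T.h (T.h (P (nat_lit 0)) (T.h (P (nat_lit 12705971551799468700223930368)) (T.h (P (nat_lit 0)) (T.h (P (nat_lit 1067211340657522114560)) (T.h (P (nat_lit 0)) (M (nat_lit 24957961867493375))))))) (T.h (P (nat_lit 0)) (T.h (T.h (P (nat_lit 0)) (T.h (M (nat_lit 8848581376903131168767)) (T.h (P (nat_lit 0)) (P (nat_lit 10236873174646784))))) (T.h (P (nat_lit 0)) (T.h (T.h (P (nat_lit 0)) (P (nat_lit 15828416420511744))) (P (nat_lit 0))))))) (T.h (T.h (P (nat_lit 0)) (T.h (T.h (M (nat_lit 6603952406297327842623487)) (T.h (P (nat_lit 0)) (T.h (P (nat_lit 46739776176339812352)) (T.h (P (nat_lit 0)) (P (nat_lit 135946721145024)))))) (T.h (P (nat_lit 0)) (T.h (T.h (M (nat_lit 7293634597340839935))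 (T.h (P (nat_lit 0)) (P (nat_lit 18444320661312)))) (T.h (P (nat_lit 0)) (M (nat_lit 776391066335))))))) (T.h (T.h (T.h (P (nat_lit 0)) (T.h (M (nat_lit 1703111653625365004287)) (T.h (P (nat_lit 0)) (P (nat_lit 33631326450122752))))) (T.h (P (nat_lit 0)) (T.h (T.h (P (nat_lit 0)) (P (nat_lit 24253972323106816))) (P (nat_lit 0))))) (T.h (T.h (P (nat_lit 0)) (T.h (T.h (P (nat_lit 4491474292059406336)) (T.h (P (nat_lit 0)) (P (nat_lit 18444320661312)))) (T.h (P (nat_lit 0)) (M (nat_lit 72660681503))))) (T.h (T.h (T.h (P (nat_lit 0)) (P (nat_lit 8727060432158720))) (P (nat_lit 0))) (T.h (T.h (P (nat_lit 0)) (M (nat_lit 776391066335))) (P (nat_lit 0)))))))), (T.h (T.h (T.h (M (nat_lit 1526812637208704738452194721791)) (T.h (P (nat_lit 0)) (T.h (P (nat_lit 20864823599583554539880448)) (T.h (P (nat_lit 0)) (T.h (P (nat_lit 6830011316166459392)) (T.h (P (nat_lit 0)) (M (nat_lit 18430719318143)))))))) (T.h (P (nat_lit 0)) (T.h (T.h (M (nat_lit 1566168659524124063825919))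 (T.h (P (nat_lit 0)) (T.h (M (nat_lit 11962976014688059391)) (T.h (P (nat_lit 0)) (P (nat_lit 17223692796864)))))) (T.h (P (nat_lit 0)) (T.h (T.h (M (nat_lit 1257490112028082175)) (T.h (P (nat_lit 0)) (P (nat_lit 21823059736368)))) (T.h (P (nat_lit 0)) (P (nat_lit 485082553536)))))))) (T.h (T.h (P (nat_lit 0)) (T.h (T.h (P (nat_lit 0)) (T.h (M (nat_lit 25949813201762300985343)) (T.h (P (nat_lit 0)) (M (nat_lit 150200156445474815))))) (T.h (P (nat_lit 0)) (T.h (T.h (P (nat_lit 0)) (M (nat_lit 16206316422561791))) (P (nat_lit 0)))))) (T.h (T.h (T.h (M (nat_lit 1566168659524124063825919)) (T.h (P (nat_lit 0)) (T.h (M (nat_lit 11962976014688059391)) (T.h (P (nat_lit 0)) (P (nat_lit 17223692796864)))))) (T.h (P (nat_lit 0)) (T.h (T.h (P (nat_lit 5272713814171713536)) (T.h (P (nat_lit 0)) (P (nat_lit 83465545105728)))) (T.h (P (nat_lit 0)) (P (nat_lit 6479329439808)))))) (T.h (T.h (P (nat_lit 0)) (T.h (T.h (P (nat_lit 0)) (M (nat_lit 16206316422561791)))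 (P (nat_lit 0)))) (T.h (T.h (T.h (M (nat_lit 1257490112028082175)) (T.h (P (nat_lit 0)) (P (nat_lit 21823059736368)))) (T.h (P (nat_lit 0)) (P (nat_lit 6479329439808)))) (T.h (P (nat_lit 0)) (P (nat_lit 485082553536))))))))]
def lP12_2 : List (T ℤ) := [(T.h (T.h (T.h (P (nat_lit 0)) (T.h (M (nat_lit 6946700081529947634800787455)) (T.h (P (nat_lit 0)) (T.h (M (nat_lit 6537014371178130702335)) (T.h (P (nat_lit 0)) (P (nat_lit 25164075442372608))))))) (T.h (P (nat_lit 0)) (T.h (T.h (P (nat_lit 0)) (T.h (P (nat_lit 2528644232359897464832)) (T.h (P (nat_lit 0)) (M (nat_lit 15677387932434431))))) (T.h (P (nat_lit 0)) (T.h (T.h (P (nat_lit 0)) (M (nat_lit 9931916964462591))) (P (nat_lit 0))))))) (T.h (T.h (P (nat_lit 0)) (T.h (T.h (P (nat_lit 2399690788163493904252928)) (T.h (P (nat_lit 0)) (M (nat_lit 24174887929991135231)))) (T.h (P (nat_lit 0)) (P (nat_lit 822611858266521600))))) (T.h (T.h (T.h (P (nat_lit 0)) (T.h (P (nat_lit 2528644232359897464832))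 (T.h (P (nat_lit 0)) (M (nat_lit 15677387932434431))))) (T.h (P (nat_lit 0)) (T.h (T.h (P (nat_lit 0)) (M (nat_lit 37986096972562431))) (P (nat_lit 0))))) (T.h (T.h (P (nat_lit 0)) (P (nat_lit 822611858266521600))) (T.h (T.h (T.h (P (nat_lit 0)) (M (nat_lit 9931916964462591))) (P (nat_lit 0))) (P (nat_lit 0))))))), (P (nat_lit 0)), (P (nat_lit 0)), (P (nat_lit 0)), (T.h (T.h (P (nat_lit 0)) (T.h (T.h (P (nat_lit 2249173928889727482182238208)) (T.h (P (nat_lit 0)) (T.h (P (nat_lit 23895936941836185108480)) (T.h (P (nat_lit 0)) (M (nat_lit 69107667941326847)))))) (T.h (P (nat_lit 0)) (T.h (T.h (P (nat_lit 8955629997758437392384)) (T.h (P (nat_lit 0)) (M (nat_lit 30764528360194047)))) (T.h (P (nat_lit 0)) (M (nat_lit 12698370511568895))))))) (T.h (T.h (T.h (P (nat_lit 0)) (T.h (M (nat_lit 7185236083707900717957119)) (T.h (P (nat_lit 0)) (T.h (P (nat_lit 12105574288833118208)) (T.h (P (nat_lit 0)) (M (nat_lit 37010954213999))))))) (T.h (P (nat_lit 0))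 (T.h (T.h (P (nat_lit 0)) (T.h (P (nat_lit 2037456595029327872)) (T.h (P (nat_lit 0)) (P (nat_lit 106076979911416))))) (T.h (P (nat_lit 0)) (T.h (T.h (P (nat_lit 0)) (M (nat_lit 20349208859607))) (P (nat_lit 0))))))) (T.h (T.h (P (nat_lit 0)) (T.h (T.h (M (nat_lit 4991051602226185240575)) (T.h (P (nat_lit 0)) (P (nat_lit 12565639803011072)))) (T.h (P (nat_lit 0)) (P (nat_lit 2757992272723968))))) (T.h (T.h (T.h (P (nat_lit 0)) (T.h (P (nat_lit 3354224471622811648)) (T.h (P (nat_lit 0)) (M (nat_lit 8558637664695))))) (T.h (P (nat_lit 0)) (T.h (T.h (P (nat_lit 0)) (M (nat_lit 4652274396391))) (P (nat_lit 0))))) (T.h (T.h (P (nat_lit 0)) (P (nat_lit 2120504879120384))) (T.h (T.h (T.h (P (nat_lit 0)) (P (nat_lit 26085537184))) (P (nat_lit 0))) (P (nat_lit 0)))))))), (T.h (T.h (P (nat_lit 0)) (T.h (T.h (P (nat_lit 0)) (T.h (P (nat_lit 3505100089068918241492992)) (T.h (P (nat_lit 0)) (T.h (P (nat_lit 83778115168194527232)) (T.h (P (nat_lit 0)) (M (nat_lit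 335941989346463))))))) (T.h (P (nat_lit 0)) (T.h (T.h (P (nat_lit 0)) (T.h (M (nat_lit 3206093737427992575)) (T.h (P (nat_lit 0)) (P (nat_lit 19834863972112))))) (T.h (P (nat_lit 0)) (T.h (T.h (P (nat_lit 0)) (M (nat_lit 2171138809055))) (P (nat_lit 0)))))))) (T.h (T.h (T.h (P (nat_lit 2084092978544746558608375808)) (T.h (P (nat_lit 0)) (T.h (M (nat_lit 14112679512842935730175)) (T.h (P (nat_lit 0)) (M (nat_lit 145933282261073919)))))) (T.h (P (nat_lit 0)) (T.h (T.h (M (nat_lit 13105697841355797037055)) (T.h (P (nat_lit 0)) (M (nat_lit 45175380232437759)))) (T.h (P (nat_lit 0)) (M (nat_lit 21643633645551615)))))) (T.h (T.h (P (nat_lit 0)) (T.h (T.h (P (nat_lit 0)) (T.h (P (nat_lit 8688976552274165760)) (T.h (P (nat_lit 0)) (P (nat_lit 19291176429520))))) (T.h (P (nat_lit 0)) (T.h (T.h (P (nat_lit 0)) (P (nat_lit 7731991111936))) (P (nat_lit 0)))))) (T.h (T.h (T.h (M (nat_lit 2445534956294129057791)) (T.h (P (nat_lit 0)) (P (nat_lit 3081846973022208))))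 (T.h (P (nat_lit 0)) (M (nat_lit 10769564384280575)))) (T.h (T.h (P (nat_lit 0)) (T.h (T.h (P (nat_lit 0)) (M (nat_lit 6391443606815))) (P (nat_lit 0)))) (P (nat_lit 2747498126852096))))))), (T.h (T.h (P (nat_lit 0)) (T.h (T.h (M (nat_lit 2787373763577663888453271551)) (T.h (P (nat_lit 0)) (T.h (P (nat_lit 37652368741945447546880)) (T.h (P (nat_lit 0)) (P (nat_lit 498903295979454464)))))) (T.h (P (nat_lit 0)) (T.h (T.h (M (nat_lit 14596476764099333586943)) (T.h (P (nat_lit 0)) (M (nat_lit 18450982411370495)))) (T.h (P (nat_lit 0)) (P (nat_lit 12471877204180992))))))) (T.h (T.h (T.h (P (nat_lit 0)) (T.h (P (nat_lit 8420469345027642405945344)) (T.h (P (nat_lit 0)) (T.h (P (nat_lit 184211853846620667904)) (T.h (P (nat_lit 0)) (M (nat_lit 98814136291871))))))) (T.h (P (nat_lit 0)) (T.h (T.h (P (nat_lit 0)) (T.h (M (nat_lit 29332209703661338623)) (T.h (P (nat_lit 0)) (M (nat_lit 31467877982927))))) (T.h (P (nat_lit 0)) (T.h (T.h (P (nat_lit 0)) (M (nat_lit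 5796365101967))) (P (nat_lit 0))))))) (T.h (T.h (P (nat_lit 0)) (T.h (T.h (M (nat_lit 3668610430600438874111)) (T.h (P (nat_lit 0)) (M (nat_lit 105182443699470335)))) (T.h (P (nat_lit 0)) (M (nat_lit 47013678771863551))))) (T.h (T.h (T.h (P (nat_lit 0)) (T.h (M (nat_lit 26595740297180741631)) (T.h (P (nat_lit 0)) (P (nat_lit 13347002066688))))) (T.h (P (nat_lit 0)) (T.h (T.h (P (nat_lit 0)) (M (nat_lit 18427241446751))) (P (nat_lit 0))))) (T.h (T.h (P (nat_lit 0)) (M (nat_lit 12344674416689151))) (T.h (T.h (T.h (P (nat_lit 0)) (P (nat_lit 2088080913312))) (P (nat_lit 0))) (P (nat_lit 0)))))))), (T.h (T.h (P (nat_lit 0)) (T.h (T.h (P (nat_lit 0)) (T.h (P (nat_lit 16770020288298499683909632)) (T.h (P (nat_lit 0)) (T.h (M (nat_lit 54436003502392082431)) (T.h (P (nat_lit 0)) (P (nat_lit 310329193881600))))))) (T.h (P (nat_lit 0)) (T.h (T.h (P (nat_lit 0)) (T.h (M (nat_lit 24581911049941286911)) (T.h (P (nat_lit 0)) (M (nat_lit 15746492039039))))) (T.h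 (P (nat_lit 0)) (T.h (T.h (P (nat_lit 0)) (M (nat_lit 3743196082991))) (P (nat_lit 0)))))))) (T.h (T.h (T.h (P (nat_lit 7613911020926650974465949696)) (T.h (P (nat_lit 0)) (T.h (M (nat_lit 37608647712375417339903)) (T.h (P (nat_lit 0)) (P (nat_lit 288386959946383360)))))) (T.h (P (nat_lit 0)) (T.h (T.h (P (nat_lit 856239061351264157696)) (T.h (P (nat_lit 0)) (M (nat_lit 11201544438792191)))) (T.h (P (nat_lit 0)) (M (nat_lit 18543270365085695)))))) (T.h (T.h (P (nat_lit 0)) (T.h (T.h (P (nat_lit 0)) (T.h (P (nat_lit 6148453346429632512)) (T.h (P (nat_lit 0)) (M (nat_lit 157763501468927))))) (T.h (P (nat_lit 0)) (T.h (T.h (P (nat_lit 0)) (M (nat_lit 43491366017423))) (P (nat_lit 0)))))) (T.h (T.h (T.h (P (nat_lit 3737831950392995348480)) (T.h (P (nat_lit 0)) (M (nat_lit 15025593104400383)))) (T.h (P (nat_lit 0)) (P (nat_lit 18868985238323200)))) (T.h (T.h (P (nat_lit 0)) (T.h (T.h (P (nat_lit 0)) (P (nat_lit 17575024374576))) (P (nat_lit 0)))) (M (nat_lit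 2662119321436159)))))))]
def lP12_3 : List (T ℤ) := [(T.h (T.h (P (nat_lit 0)) (T.h (T.h (M (nat_lit 1069719061105742419312246783)) (T.h (P (nat_lit 0)) (T.h (M (nat_lit 9039233065320873721855)) (T.h (P (nat_lit 0)) (M (nat_lit 360924354560393215)))))) (T.h (P (nat_lit 0)) (T.h (T.h (P (nat_lit 4810639926731932172288)) (T.h (P (nat_lit 0)) (M (nat_lit 9114228696940543)))) (T.h (P (nat_lit 0)) (P (nat_lit 189485684457472))))))) (T.h (T.h (T.h (P (nat_lit 0)) (T.h (M (nat_lit 1761177201905144919228415)) (T.h (P (nat_lit 0)) (M (nat_lit 159289274093619118079))))) (T.h (P (nat_lit 0)) (T.h (T.h (P (nat_lit 0)) (P (nat_lit 13635200529196908544))) (P (nat_lit 0))))) (T.h (T.h (P (nat_lit 0)) (T.h (T.h (P (nat_lit 167114983961662586880)) (T.h (P (nat_lit 0)) (P (nat_lit 69713786696892416)))) (T.h (P (nat_lit 0)) (P (nat_lit 3999072314753024))))) (T.h (T.h (T.h (P (nat_lit 0)) (M (nat_lit 1424453042811437055))) (P (nat_lit 0))) (T.h (T.h (P (nat_lit 0))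 (M (nat_lit 6948109256065023))) (P (nat_lit 0))))))), (P (nat_lit 0)), (P (nat_lit 0)), (T.h (T.h (T.h (P (nat_lit 0)) (T.h (M (nat_lit 2446445817314079046260228095)) (T.h (P (nat_lit 0)) (T.h (P (nat_lit 14113606204607447433216)) (T.h (P (nat_lit 0)) (M (nat_lit 14427111626145791))))))) (T.h (P (nat_lit 0)) (T.h (T.h (P (nat_lit 0)) (T.h (P (nat_lit 9524129684993658060800)) (T.h (P (nat_lit 0)) (P (nat_lit 46263438480408576))))) (T.h (P (nat_lit 0)) (T.h (T.h (P (nat_lit 0)) (P (nat_lit 14579344540237824))) (P (nat_lit 0))))))) (T.h (T.h (P (nat_lit 0)) (T.h (T.h (P (nat_lit 6034124902302266928660480)) (T.h (P (nat_lit 0)) (T.h (P (nat_lit 93185734165020016640)) (T.h (P (nat_lit 0)) (P (nat_lit 17695890957600)))))) (T.h (P (nat_lit 0)) (T.h (T.h (M (nat_lit 2708072234307551231)) (T.h (P (nat_lit 0)) (P (nat_lit 16120243369672)))) (T.h (P (nat_lit 0)) (M (nat_lit 33957735906503))))))) (T.h (T.h (T.h (P (nat_lit 0)) (T.h (P (nat_lit 3729586567560768258048))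 (T.h (P (nat_lit 0)) (P (nat_lit 1902440084045824))))) (T.h (P (nat_lit 0)) (T.h (T.h (P (nat_lit 0)) (M (nat_lit 32332720980328447))) (P (nat_lit 0))))) (T.h (T.h (P (nat_lit 0)) (T.h (T.h (P (nat_lit 2800396035392798720)) (T.h (P (nat_lit 0)) (M (nat_lit 16412332180447)))) (T.h (P (nat_lit 0)) (P (nat_lit 13956825122808))))) (T.h (T.h (T.h (P (nat_lit 0)) (M (nat_lit 17775016194080767))) (P (nat_lit 0))) (T.h (T.h (P (nat_lit 0)) (P (nat_lit 9180840934728))) (P (nat_lit 0)))))))), (T.h (T.h (T.h (P (nat_lit 10240767002178687954892823199744)) (T.h (P (nat_lit 0)) (T.h (P (nat_lit 12058186289434892836012032)) (T.h (P (nat_lit 0)) (T.h (M (nat_lit 2233296166391382015)) (T.h (P (nat_lit 0)) (P (nat_lit 33595231580112)))))))) (T.h (P (nat_lit 0)) (T.h (T.h (M (nat_lit 4923473558923471130460159)) (T.h (P (nat_lit 0)) (T.h (P (nat_lit 65010833342637015040)) (T.h (P (nat_lit 0)) (M (nat_lit 19123657897535)))))) (T.h (P (nat_lit 0)) (T.h (T.h (P (nat_lit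 24525644828128575488)) (T.h (P (nat_lit 0)) (M (nat_lit 35834186439263)))) (T.h (P (nat_lit 0)) (P (nat_lit 5106811990464)))))))) (T.h (T.h (P (nat_lit 0)) (T.h (T.h (P (nat_lit 0)) (T.h (P (nat_lit 9916637199665389895680)) (T.h (P (nat_lit 0)) (M (nat_lit 8549900743704575))))) (T.h (P (nat_lit 0)) (T.h (T.h (P (nat_lit 0)) (P (nat_lit 92963174163087360))) (P (nat_lit 0)))))) (T.h (T.h (T.h (P (nat_lit 1874529792743809499529216)) (T.h (P (nat_lit 0)) (T.h (M (nat_lit 51208003868654829567)) (T.h (P (nat_lit 0)) (P (nat_lit 52052519111328)))))) (T.h (P (nat_lit 0)) (T.h (T.h (P (nat_lit 7358800448335118336)) (T.h (P (nat_lit 0)) (M (nat_lit 23507951099487)))) (T.h (P (nat_lit 0)) (M (nat_lit 2332677536639)))))) (T.h (T.h (P (nat_lit 0)) (T.h (T.h (P (nat_lit 0)) (M (nat_lit 9230042037944319))) (P (nat_lit 0)))) (T.h (T.h (T.h (M (nat_lit 541262488075763711)) (T.h (P (nat_lit 0)) (M (nat_lit 4136082018047)))) (T.h (P (nat_lit 0)) (P (nat_lit 3880953721632))))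 (T.h (P (nat_lit 0)) (M (nat_lit 1226078413135)))))))), (T.h (T.h (T.h (P (nat_lit 0)) (T.h (M (nat_lit 13738543897078520168434368511)) (T.h (P (nat_lit 0)) (T.h (P (nat_lit 89746200216324985061376)) (T.h (P (nat_lit 0)) (M (nat_lit 42162729439887359))))))) (T.h (P (nat_lit 0)) (T.h (T.h (P (nat_lit 0)) (T.h (P (nat_lit 71863826799750006439936)) (T.h (P (nat_lit 0)) (M (nat_lit 93737683484508159))))) (T.h (P (nat_lit 0)) (T.h (T.h (P (nat_lit 0)) (P (nat_lit 35006146232877056))) (P (nat_lit 0))))))) (T.h (T.h (P (nat_lit 0)) (T.h (T.h (P (nat_lit 1682189232321638827032576)) (T.h (P (nat_lit 0)) (T.h (P (nat_lit 58648929392887070720)) (T.h (P (nat_lit 0)) (M (nat_lit 154815030088991)))))) (T.h (P (nat_lit 0)) (T.h (T.h (P (nat_lit 29827779157339144192)) (T.h (P (nat_lit 0)) (M (nat_lit 49743205508255)))) (T.h (P (nat_lit 0)) (P (nat_lit 18104669004960))))))) (T.h (T.h (T.h (P (nat_lit 0)) (T.h (P (nat_lit 53116712304456398536704)) (T.h (P (nat_lit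 0)) (M (nat_lit 239507379198361599))))) (T.h (P (nat_lit 0)) (T.h (T.h (P (nat_lit 0)) (M (nat_lit 45237387053236223))) (P (nat_lit 0))))) (T.h (T.h (P (nat_lit 0)) (T.h (T.h (P (nat_lit 34971865101436452864)) (T.h (P (nat_lit 0)) (P (nat_lit 6806561621472)))) (T.h (P (nat_lit 0)) (M (nat_lit 3182115287471))))) (T.h (T.h (T.h (P (nat_lit 0)) (P (nat_lit 13389182920425472))) (P (nat_lit 0))) (T.h (T.h (P (nat_lit 0)) (M (nat_lit 2216404253375))) (P (nat_lit 0)))))))), (T.h (T.h (T.h (M (nat_lit 7347284730981760738617207029759)) (T.h (P (nat_lit 0)) (T.h (M (nat_lit 24986163315578777425149951)) (T.h (P (nat_lit 0)) (T.h (P (nat_lit 14892719367979532288)) (T.h (P (nat_lit 0)) (M (nat_lit 1900902457007)))))))) (T.h (P (nat_lit 0)) (T.h (T.h (P (nat_lit 57923522351927671027400704)) (T.h (P (nat_lit 0)) (T.h (P (nat_lit 177177424402405392384)) (T.h (P (nat_lit 0)) (P (nat_lit 135693679464000)))))) (T.h (P (nat_lit 0)) (T.h (T.h (M (nat_lit 29989453987150036991))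 (T.h (P (nat_lit 0)) (M (nat_lit 29246983189487)))) (T.h (P (nat_lit 0)) (M (nat_lit 12383001643247)))))))) (T.h (T.h (P (nat_lit 0)) (T.h (T.h (P (nat_lit 0)) (T.h (P (nat_lit 70258196730489203589120)) (T.h (P (nat_lit 0)) (P (nat_lit 262996897238188032))))) (T.h (P (nat_lit 0)) (T.h (T.h (P (nat_lit 0)) (P (nat_lit 47568789769158656))) (P (nat_lit 0)))))) (T.h (T.h (T.h (M (nat_lit 4210623603377640919007231)) (T.h (P (nat_lit 0)) (T.h (P (nat_lit 112178435325171859456)) (T.h (P (nat_lit 0)) (M (nat_lit 154054818207791)))))) (T.h (P (nat_lit 0)) (T.h (T.h (M (nat_lit 2352003625896640511)) (T.h (P (nat_lit 0)) (M (nat_lit 154284181097903)))) (T.h (P (nat_lit 0)) (P (nat_lit 3747522647088)))))) (T.h (T.h (P (nat_lit 0)) (T.h (T.h (P (nat_lit 0)) (P (nat_lit 12885981240885248))) (P (nat_lit 0)))) (T.h (T.h (T.h (P (nat_lit 1445542280348827648)) (T.h (P (nat_lit 0)) (M (nat_lit 40633845785423)))) (T.h (P (nat_lit 0)) (M (nat_lit 40758030476063)))) (T.h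 (P (nat_lit 0)) (P (nat_lit 2262664312560)))))))), (T.h (T.h (T.h (P (nat_lit 0)) (T.h (P (nat_lit 5938840239767262457329876992)) (T.h (P (nat_lit 0)) (T.h (M (nat_lit 15260972577348049174527)) (T.h (P (nat_lit 0)) (M (nat_lit 68021766630866943))))))) (T.h (P (nat_lit 0)) (T.h (T.h (P (nat_lit 0)) (T.h (M (nat_lit 83505656668972851920895)) (T.h (P (nat_lit 0)) (M (nat_lit 112761797231247359))))) (T.h (P (nat_lit 0)) (T.h (T.h (P (nat_lit 0)) (P (nat_lit 17569552337108992))) (P (nat_lit 0))))))) (T.h (T.h (P (nat_lit 0)) (T.h (T.h (M (nat_lit 8121832179209592299847679)) (T.h (P (nat_lit 0)) (M (nat_lit 9408689513531703295)))) (T.h (P (nat_lit 0)) (P (nat_lit 18589109809936596992))))) (T.h (T.h (T.h (P (nat_lit 0)) (T.h (M (nat_lit 32448110580492473991167)) (T.h (P (nat_lit 0)) (P (nat_lit 176124080196288512))))) (T.h (P (nat_lit 0)) (T.h (T.h (P (nat_lit 0)) (P (nat_lit 99906550954229760))) (P (nat_lit 0))))) (T.h (T.h (P (nat_lit 0)) (M (nat_lit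 6818117037345210367))) (T.h (T.h (T.h (P (nat_lit 0)) (P (nat_lit 14493620268662784))) (P (nat_lit 0))) (P (nat_lit 0)))))))]
def lP12_4 : List (T ℤ) := [(P (nat_lit 0)), (P (nat_lit 0)), (T.h (T.h (P (nat_lit 0)) (T.h (T.h (M (nat_lit 2446445817314079046260228095)) (T.h (P (nat_lit 0)) (T.h (P (nat_lit 9524129684993658060800)) (T.h (P (nat_lit 0)) (P (nat_lit 14579344540237824)))))) (T.h (P (nat_lit 0)) (T.h (T.h (P (nat_lit 14113606204607447433216)) (T.h (P (nat_lit 0)) (P (nat_lit 46263438480408576)))) (T.h (P (nat_lit 0)) (M (nat_lit 14427111626145791))))))) (T.h (T.h (T.h (P (nat_lit 0)) (T.h (P (nat_lit 6034124902302266928660480)) (T.h (P (nat_lit 0)) (T.h (M (nat_lit 2708072234307551231)) (T.h (P (nat_lit 0)) (M (nat_lit 33957735906503))))))) (T.h (P (nat_lit 0)) (T.h (T.h (P (nat_lit 0)) (T.h (P (nat_lit 93185734165020016640)) (T.h (P (nat_lit 0)) (P (nat_lit 16120243369672))))) (T.h (P (nat_lit 0)) (T.h (T.h (P (nat_lit 0)) (P (nat_lit 17695890957600)))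 (P (nat_lit 0))))))) (T.h (T.h (P (nat_lit 0)) (T.h (T.h (P (nat_lit 3729586567560768258048)) (T.h (P (nat_lit 0)) (M (nat_lit 32332720980328447)))) (T.h (P (nat_lit 0)) (P (nat_lit 1902440084045824))))) (T.h (T.h (T.h (P (nat_lit 0)) (T.h (P (nat_lit 2800396035392798720)) (T.h (P (nat_lit 0)) (P (nat_lit 13956825122808))))) (T.h (P (nat_lit 0)) (T.h (T.h (P (nat_lit 0)) (M (nat_lit 16412332180447))) (P (nat_lit 0))))) (T.h (T.h (P (nat_lit 0)) (M (nat_lit 17775016194080767))) (T.h (T.h (T.h (P (nat_lit 0)) (P (nat_lit 9180840934728))) (P (nat_lit 0))) (P (nat_lit 0)))))))), (T.h (T.h (P (nat_lit 0)) (T.h (T.h (P (nat_lit 0)) (T.h (M (nat_lit 21684869927939417095274495)) (T.h (P (nat_lit 0)) (T.h (M (nat_lit 206766406671320219647)) (T.h (P (nat_lit 0)) (P (nat_lit 16513881934288))))))) (T.h (P (nat_lit 0)) (T.h (T.h (P (nat_lit 0)) (T.h (M (nat_lit 206766406671320219647)) (T.h (P (nat_lit 0)) (M (nat_lit 399778677697119))))) (T.h (P (nat_lit 0))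 (T.h (T.h (P (nat_lit 0)) (P (nat_lit 16513881934288))) (P (nat_lit 0)))))))) (T.h (T.h (T.h (P (nat_lit 11020416314614742364347957248)) (T.h (P (nat_lit 0)) (T.h (M (nat_lit 12844806377626037911551)) (T.h (P (nat_lit 0)) (P (nat_lit 73671756276744192)))))) (T.h (P (nat_lit 0)) (T.h (T.h (M (nat_lit 12844806377626037911551)) (T.h (P (nat_lit 0)) (M (nat_lit 6591774721277951)))) (T.h (P (nat_lit 0)) (P (nat_lit 73671756276744192)))))) (T.h (T.h (P (nat_lit 0)) (T.h (T.h (P (nat_lit 0)) (T.h (M (nat_lit 12963444723204227071)) (T.h (P (nat_lit 0)) (P (nat_lit 48030240726480))))) (T.h (P (nat_lit 0)) (T.h (T.h (P (nat_lit 0)) (P (nat_lit 48030240726480))) (P (nat_lit 0)))))) (T.h (T.h (T.h (M (nat_lit 5737787604839604158463)) (T.h (P (nat_lit 0)) (P (nat_lit 38487973547999232)))) (T.h (P (nat_lit 0)) (P (nat_lit 38487973547999232)))) (T.h (T.h (P (nat_lit 0)) (T.h (T.h (P (nat_lit 0)) (P (nat_lit 191230761875616))) (P (nat_lit 0)))) (P (nat_lit 437921507999744))))))),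 (T.h (T.h (P (nat_lit 0)) (T.h (T.h (P (nat_lit 4368116058228354375101710336)) (T.h (P (nat_lit 0)) (T.h (M (nat_lit 1446955682022832472063)) (T.h (P (nat_lit 0)) (P (nat_lit 21747700251721728)))))) (T.h (P (nat_lit 0)) (T.h (T.h (M (nat_lit 7380388423830398304255)) (T.h (P (nat_lit 0)) (P (nat_lit 634665869733625856)))) (T.h (P (nat_lit 0)) (P (nat_lit 5045585517576192))))))) (T.h (T.h (T.h (P (nat_lit 0)) (T.h (P (nat_lit 43822609512558630782631936)) (T.h (P (nat_lit 0)) (T.h (M (nat_lit 178327785982151098367)) (T.h (P (nat_lit 0)) (P (nat_lit 23220499327104))))))) (T.h (P (nat_lit 0)) (T.h (T.h (P (nat_lit 0)) (T.h (M (nat_lit 38265554109261152255)) (T.h (P (nat_lit 0)) (M (nat_lit 85726898830271))))) (T.h (P (nat_lit 0)) (T.h (T.h (P (nat_lit 0)) (P (nat_lit 37567969112640))) (P (nat_lit 0))))))) (T.h (T.h (P (nat_lit 0)) (T.h (T.h (M (nat_lit 28928474127679788941311)) (T.h (P (nat_lit 0)) (P (nat_lit 66634387635765248)))) (T.h (P (nat_lit 0))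 (P (nat_lit 147458440066596864))))) (T.h (T.h (T.h (P (nat_lit 0)) (T.h (M (nat_lit 25450150049553055743)) (T.h (P (nat_lit 0)) (M (nat_lit 13428688508639))))) (T.h (P (nat_lit 0)) (T.h (T.h (P (nat_lit 0)) (M (nat_lit 30149558717327))) (P (nat_lit 0))))) (T.h (T.h (P (nat_lit 0)) (M (nat_lit 59547746259075071))) (T.h (T.h (T.h (P (nat_lit 0)) (P (nat_lit 453752910000))) (P (nat_lit 0))) (P (nat_lit 0)))))))), (T.h (T.h (P (nat_lit 0)) (T.h (T.h (P (nat_lit 0)) (T.h (M (nat_lit 1974649089754001720737791)) (T.h (P (nat_lit 0)) (T.h (P (nat_lit 365582842032417669120)) (T.h (P (nat_lit 0)) (P (nat_lit 418099953986208))))))) (T.h (P (nat_lit 0)) (T.h (T.h (P (nat_lit 0)) (T.h (M (nat_lit 12150048673841020927)) (T.h (P (nat_lit 0)) (P (nat_lit 356919587573616))))) (T.h (P (nat_lit 0)) (T.h (T.h (P (nat_lit 0)) (M (nat_lit 153484319177423))) (P (nat_lit 0)))))))) (T.h (T.h (T.h (M (nat_lit 3335675229011176419139518463)) (T.h (P (nat_lit 0)) (T.h (P (nat_lit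 24602323935072788414464)) (T.h (P (nat_lit 0)) (P (nat_lit 227435957508997120)))))) (T.h (P (nat_lit 0)) (T.h (T.h (M (nat_lit 7048662301444117889023)) (T.h (P (nat_lit 0)) (P (nat_lit 69244562661801984)))) (T.h (P (nat_lit 0)) (M (nat_lit 55932866233335807)))))) (T.h (T.h (P (nat_lit 0)) (T.h (T.h (P (nat_lit 0)) (T.h (M (nat_lit 18276632113639849983)) (T.h (P (nat_lit 0)) (M (nat_lit 111663856591199))))) (T.h (P (nat_lit 0)) (T.h (T.h (P (nat_lit 0)) (P (nat_lit 157454749658304))) (P (nat_lit 0)))))) (T.h (T.h (T.h (M (nat_lit 2556215325078874750975)) (T.h (P (nat_lit 0)) (M (nat_lit 16203078846971903)))) (T.h (P (nat_lit 0)) (P (nat_lit 10764761764429824)))) (T.h (T.h (P (nat_lit 0)) (T.h (T.h (P (nat_lit 0)) (M (nat_lit 235517594865407))) (P (nat_lit 0)))) (P (nat_lit 3963771170832384))))))), (T.h (T.h (P (nat_lit 0)) (T.h (T.h (M (nat_lit 19010715559394962457480921087)) (T.h (P (nat_lit 0)) (T.h (M (nat_lit 337256168840861870718975)) (T.h (P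 (nat_lit 0)) (M (nat_lit 537460537767034879)))))) (T.h (P (nat_lit 0)) (T.h (T.h (P (nat_lit 17167194726438533070848)) (T.h (P (nat_lit 0)) (M (nat_lit 217035851084890111)))) (T.h (P (nat_lit 0)) (P (nat_lit 51833134429732864))))))) (T.h (T.h (T.h (P (nat_lit 0)) (T.h (M (nat_lit 11796831539250381828653055)) (T.h (P (nat_lit 0)) (M (nat_lit 201848382004607844351))))) (T.h (P (nat_lit 0)) (T.h (T.h (P (nat_lit 0)) (P (nat_lit 27730665333827043328))) (P (nat_lit 0))))) (T.h (T.h (P (nat_lit 0)) (T.h (T.h (M (nat_lit 4534848523537343315967)) (T.h (P (nat_lit 0)) (P (nat_lit 146445637852594176)))) (T.h (P (nat_lit 0)) (M (nat_lit 39240781425016831))))) (T.h (T.h (T.h (P (nat_lit 0)) (P (nat_lit 11447994264663883776))) (P (nat_lit 0))) (T.h (T.h (P (nat_lit 0)) (P (nat_lit 72142769679368192))) (P (nat_lit 0))))))), (P (nat_lit 0))]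
def lP12_5 : List (T ℤ) := [(P (nat_lit 0)), (T.h (T.h (T.h (P (nat_lit 0)) (T.h (P (nat_lit 2249173928889727482182238208)) (T.h (P (nat_lit 0)) (T.h (P (nat_lit 8955629997758437392384)) (T.h (P (nat_lit 0)) (M (nat_lit 12698370511568895))))))) (T.h (P (nat_lit 0)) (T.h (T.h (P (nat_lit 0)) (T.h (P (nat_lit 23895936941836185108480)) (T.h (P (nat_lit 0)) (M (nat_lit 30764528360194047))))) (T.h (P (nat_lit 0)) (T.h (T.h (P (nat_lit 0)) (M (nat_lit 69107667941326847))) (P (nat_lit 0))))))) (T.h (T.h (P (nat_lit 0)) (T.h (T.h (M (nat_lit 7185236083707900717957119)) (T.h (P (nat_lit 0)) (T.h (P (nat_lit 2037456595029327872)) (T.h (P (nat_lit 0)) (M (nat_lit 20349208859607)))))) (T.h (P (nat_lit 0)) (T.h (T.h (P (nat_lit 12105574288833118208)) (T.h (P (nat_lit 0)) (P (nat_lit 106076979911416)))) (T.h (P (nat_lit 0)) (M (nat_lit 37010954213999))))))) (T.h (T.h (T.h (P (nat_lit 0)) (T.h (M (nat_lit 4991051602226185240575)) (T.h (P (nat_lit 0)) (P (nat_lit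 2757992272723968))))) (T.h (P (nat_lit 0)) (T.h (T.h (P (nat_lit 0)) (P (nat_lit 12565639803011072))) (P (nat_lit 0))))) (T.h (T.h (P (nat_lit 0)) (T.h (T.h (P (nat_lit 3354224471622811648)) (T.h (P (nat_lit 0)) (M (nat_lit 4652274396391)))) (T.h (P (nat_lit 0)) (M (nat_lit 8558637664695))))) (T.h (T.h (T.h (P (nat_lit 0)) (P (nat_lit 2120504879120384))) (P (nat_lit 0))) (T.h (T.h (P (nat_lit 0)) (P (nat_lit 26085537184))) (P (nat_lit 0)))))))), (T.h (T.h (T.h (P (nat_lit 10240767002178687954892823199744)) (T.h (P (nat_lit 0)) (T.h (M (nat_lit 4923473558923471130460159)) (T.h (P (nat_lit 0)) (T.h (P (nat_lit 24525644828128575488)) (T.h (P (nat_lit 0)) (P (nat_lit 5106811990464)))))))) (T.h (P (nat_lit 0)) (T.h (T.h (P (nat_lit 12058186289434892836012032)) (T.h (P (nat_lit 0)) (T.h (P (nat_lit 65010833342637015040)) (T.h (P (nat_lit 0)) (M (nat_lit 35834186439263)))))) (T.h (P (nat_lit 0)) (T.h (T.h (M (nat_lit 2233296166391382015)) (T.h (P (nat_lit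 0)) (M (nat_lit 19123657897535)))) (T.h (P (nat_lit 0)) (P (nat_lit 33595231580112)))))))) (T.h (T.h (P (nat_lit 0)) (T.h (T.h (P (nat_lit 0)) (T.h (P (nat_lit 9916637199665389895680)) (T.h (P (nat_lit 0)) (P (nat_lit 92963174163087360))))) (T.h (P (nat_lit 0)) (T.h (T.h (P (nat_lit 0)) (M (nat_lit 8549900743704575))) (P (nat_lit 0)))))) (T.h (T.h (T.h (P (nat_lit 1874529792743809499529216)) (T.h (P (nat_lit 0)) (T.h (P (nat_lit 7358800448335118336)) (T.h (P (nat_lit 0)) (M (nat_lit 2332677536639)))))) (T.h (P (nat_lit 0)) (T.h (T.h (M (nat_lit 51208003868654829567)) (T.h (P (nat_lit 0)) (M (nat_lit 23507951099487)))) (T.h (P (nat_lit 0)) (P (nat_lit 52052519111328)))))) (T.h (T.h (P (nat_lit 0)) (T.h (T.h (P (nat_lit 0)) (M (nat_lit 9230042037944319))) (P (nat_lit 0)))) (T.h (T.h (T.h (M (nat_lit 541262488075763711)) (T.h (P (nat_lit 0)) (P (nat_lit 3880953721632)))) (T.h (P (nat_lit 0)) (M (nat_lit 4136082018047)))) (T.h (P (nat_lit 0)) (M (nat_lit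 1226078413135)))))))), (T.h (T.h (T.h (P (nat_lit 0)) (T.h (P (nat_lit 4368116058228354375101710336)) (T.h (P (nat_lit 0)) (T.h (M (nat_lit 7380388423830398304255)) (T.h (P (nat_lit 0)) (P (nat_lit 5045585517576192))))))) (T.h (P (nat_lit 0)) (T.h (T.h (P (nat_lit 0)) (T.h (M (nat_lit 1446955682022832472063)) (T.h (P (nat_lit 0)) (P (nat_lit 634665869733625856))))) (T.h (P (nat_lit 0)) (T.h (T.h (P (nat_lit 0)) (P (nat_lit 21747700251721728))) (P (nat_lit 0))))))) (T.h (T.h (P (nat_lit 0)) (T.h (T.h (P (nat_lit 43822609512558630782631936)) (T.h (P (nat_lit 0)) (T.h (M (nat_lit 38265554109261152255)) (T.h (P (nat_lit 0)) (P (nat_lit 37567969112640)))))) (T.h (P (nat_lit 0)) (T.h (T.h (M (nat_lit 178327785982151098367)) (T.h (P (nat_lit 0)) (M (nat_lit 85726898830271)))) (T.h (P (nat_lit 0)) (P (nat_lit 23220499327104))))))) (T.h (T.h (T.h (P (nat_lit 0)) (T.h (M (nat_lit 28928474127679788941311)) (T.h (P (nat_lit 0)) (P (nat_lit 147458440066596864)))))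 (T.h (P (nat_lit 0)) (T.h (T.h (P (nat_lit 0)) (P (nat_lit 66634387635765248))) (P (nat_lit 0))))) (T.h (T.h (P (nat_lit 0)) (T.h (T.h (M (nat_lit 25450150049553055743)) (T.h (P (nat_lit 0)) (M (nat_lit 30149558717327)))) (T.h (P (nat_lit 0)) (M (nat_lit 13428688508639))))) (T.h (T.h (T.h (P (nat_lit 0)) (M (nat_lit 59547746259075071))) (P (nat_lit 0))) (T.h (T.h (P (nat_lit 0)) (P (nat_lit 453752910000))) (P (nat_lit 0)))))))), (T.h (T.h (T.h (P (nat_lit 2702654388380850163848774156288)) (T.h (P (nat_lit 0)) (T.h (P (nat_lit 1227016224249122383724544)) (T.h (P (nat_lit 0)) (T.h (M (nat_lit 220068457998087880703)) (T.h (P (nat_lit 0)) (M (nat_lit 123801535670687)))))))) (T.h (P (nat_lit 0)) (T.h (T.h (P (nat_lit 1227016224249122383724544)) (T.h (P (nat_lit 0)) (T.h (M (nat_lit 276733554994396004351)) (T.h (P (nat_lit 0)) (P (nat_lit 8403018471936)))))) (T.h (P (nat_lit 0)) (T.h (T.h (M (nat_lit 220068457998087880703)) (T.h (P (nat_lit 0)) (P (nat_lit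 8403018471936)))) (T.h (P (nat_lit 0)) (M (nat_lit 123801535670687)))))))) (T.h (T.h (P (nat_lit 0)) (T.h (T.h (P (nat_lit 0)) (T.h (M (nat_lit 163346086602152943288319)) (T.h (P (nat_lit 0)) (M (nat_lit 255115424693092351))))) (T.h (P (nat_lit 0)) (T.h (T.h (P (nat_lit 0)) (M (nat_lit 255115424693092351))) (P (nat_lit 0)))))) (T.h (T.h (T.h (P (nat_lit 5204542924563187540951040)) (T.h (P (nat_lit 0)) (T.h (M (nat_lit 37801069697948450815)) (T.h (P (nat_lit 0)) (P (nat_lit 41722221577392)))))) (T.h (P (nat_lit 0)) (T.h (T.h (M (nat_lit 37801069697948450815)) (T.h (P (nat_lit 0)) (P (nat_lit 330438239353728)))) (T.h (P (nat_lit 0)) (P (nat_lit 41722221577392)))))) (T.h (T.h (P (nat_lit 0)) (T.h (T.h (P (nat_lit 0)) (P (nat_lit 180425386868539392))) (P (nat_lit 0)))) (T.h (T.h (T.h (M (nat_lit 5967627830152921087)) (T.h (P (nat_lit 0)) (P (nat_lit 51762713890032)))) (T.h (P (nat_lit 0)) (P (nat_lit 51762713890032)))) (T.h (P (nat_lit 0)) (M (nat_lit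 2380305145823)))))))), (T.h (T.h (T.h (P (nat_lit 0)) (T.h (P (nat_lit 4622686116289818125836222464)) (T.h (P (nat_lit 0)) (T.h (P (nat_lit 67326681209505262338048)) (T.h (P (nat_lit 0)) (P (nat_lit 73889396061962240))))))) (T.h (P (nat_lit 0)) (T.h (T.h (P (nat_lit 0)) (T.h (P (nat_lit 210632273554275901112320)) (T.h (P (nat_lit 0)) (M (nat_lit 251305719263821823))))) (T.h (P (nat_lit 0)) (T.h (T.h (P (nat_lit 0)) (P (nat_lit 170806740523974656))) (P (nat_lit 0))))))) (T.h (T.h (P (nat_lit 0)) (T.h (T.h (P (nat_lit 32368617483080180722302976)) (T.h (P (nat_lit 0)) (P (nat_lit 210714216620942688256)))) (T.h (P (nat_lit 0)) (P (nat_lit 70812932436679196672))))) (T.h (T.h (T.h (P (nat_lit 0)) (T.h (P (nat_lit 5038203398620824207360)) (T.h (P (nat_lit 0)) (M (nat_lit 12566762318135295))))) (T.h (P (nat_lit 0)) (T.h (T.h (P (nat_lit 0)) (M (nat_lit 257875223365943295))) (P (nat_lit 0))))) (T.h (T.h (P (nat_lit 0)) (M (nat_lit 30422275876538286079)))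 (T.h (T.h (T.h (P (nat_lit 0)) (P (nat_lit 30035550910087168))) (P (nat_lit 0))) (P (nat_lit 0))))))), (P (nat_lit 0)), (T.h (T.h (P (nat_lit 0)) (T.h (T.h (M (nat_lit 5759271470269521065423142911)) (T.h (P (nat_lit 0)) (T.h (P (nat_lit 2712750349386849976320)) (T.h (P (nat_lit 0)) (M (nat_lit 2704680764932095)))))) (T.h (P (nat_lit 0)) (T.h (T.h (P (nat_lit 5469803030520608587776)) (T.h (P (nat_lit 0)) (M (nat_lit 12044449115373567)))) (T.h (P (nat_lit 0)) (M (nat_lit 206113574879231))))))) (T.h (T.h (T.h (P (nat_lit 0)) (T.h (P (nat_lit 4204261618133833938370560)) (T.h (P (nat_lit 0)) (T.h (P (nat_lit 1436442446299922432)) (T.h (P (nat_lit 0)) (P (nat_lit 1300883372136))))))) (T.h (P (nat_lit 0)) (T.h (T.h (P (nat_lit 0)) (T.h (M (nat_lit 22564888246348677119)) (T.h (P (nat_lit 0)) (M (nat_lit 13039914007615))))) (T.h (P (nat_lit 0)) (T.h (T.h (P (nat_lit 0)) (M (nat_lit 135946721145023))) (P (nat_lit 0))))))) (T.h (T.h (P (nat_lit 0)) (T.h (T.h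 (P (nat_lit 2781654216421851267072)) (T.h (P (nat_lit 0)) (P (nat_lit 13732124649455616)))) (T.h (P (nat_lit 0)) (M (nat_lit 468974644527103))))) (T.h (T.h (T.h (P (nat_lit 0)) (T.h (M (nat_lit 279505857551532031)) (T.h (P (nat_lit 0)) (P (nat_lit 72660681504))))) (T.h (P (nat_lit 0)) (T.h (T.h (P (nat_lit 0)) (M (nat_lit 23848727315007))) (P (nat_lit 0))))) (T.h (T.h (P (nat_lit 0)) (M (nat_lit 1986962158813183))) (T.h (T.h (T.h (P (nat_lit 0)) (P (nat_lit 251898760536))) (P (nat_lit 0))) (P (nat_lit 0))))))))]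
def lP12_6 : List (T ℤ) := [(T.h (T.h (P (nat_lit 0)) (T.h (T.h (P (nat_lit 0)) (T.h (P (nat_lit 3505100089068918241492992)) (T.h (P (nat_lit 0)) (T.h (M (nat_lit 3206093737427992575)) (T.h (P (nat_lit 0)) (M (nat_lit 2171138809055))))))) (T.h (P (nat_lit 0)) (T.h (T.h (P (nat_lit 0)) (T.h (P (nat_lit 83778115168194527232)) (T.h (P (nat_lit 0)) (P (nat_lit 19834863972112))))) (T.h (P (nat_lit 0)) (T.h (T.h (P (nat_lit 0)) (M (nat_lit 335941989346463))) (P (nat_lit 0)))))))) (T.h (T.h (T.h (P (nat_lit 2084092978544746558608375808)) (T.h (P (nat_lit 0)) (T.h (M (nat_lit 13105697841355797037055)) (T.h (P (nat_lit 0)) (M (nat_lit 21643633645551615)))))) (T.h (P (nat_lit 0)) (T.h (T.h (M (nat_lit 14112679512842935730175)) (T.h (P (nat_lit 0)) (M (nat_lit 45175380232437759)))) (T.h (P (nat_lit 0)) (M (nat_lit 145933282261073919)))))) (T.h (T.h (P (nat_lit 0)) (T.h (T.h (P (nat_lit 0)) (T.h (P (nat_lit 8688976552274165760)) (T.h (P (nat_lit 0)) (P (nat_lit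 7731991111936))))) (T.h (P (nat_lit 0)) (T.h (T.h (P (nat_lit 0)) (P (nat_lit 19291176429520))) (P (nat_lit 0)))))) (T.h (T.h (T.h (M (nat_lit 2445534956294129057791)) (T.h (P (nat_lit 0)) (M (nat_lit 10769564384280575)))) (T.h (P (nat_lit 0)) (P (nat_lit 3081846973022208)))) (T.h (T.h (P (nat_lit 0)) (T.h (T.h (P (nat_lit 0)) (M (nat_lit 6391443606815))) (P (nat_lit 0)))) (P (nat_lit 2747498126852096))))))), (T.h (T.h (P (nat_lit 0)) (T.h (T.h (M (nat_lit 13738543897078520168434368511)) (T.h (P (nat_lit 0)) (T.h (P (nat_lit 71863826799750006439936)) (T.h (P (nat_lit 0)) (P (nat_lit 35006146232877056)))))) (T.h (P (nat_lit 0)) (T.h (T.h (P (nat_lit 89746200216324985061376)) (T.h (P (nat_lit 0)) (M (nat_lit 93737683484508159)))) (T.h (P (nat_lit 0)) (M (nat_lit 42162729439887359))))))) (T.h (T.h (T.h (P (nat_lit 0)) (T.h (P (nat_lit 1682189232321638827032576)) (T.h (P (nat_lit 0)) (T.h (P (nat_lit 29827779157339144192)) (T.h (P (nat_lit 0)) (P (nat_lit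 18104669004960))))))) (T.h (P (nat_lit 0)) (T.h (T.h (P (nat_lit 0)) (T.h (P (nat_lit 58648929392887070720)) (T.h (P (nat_lit 0)) (M (nat_lit 49743205508255))))) (T.h (P (nat_lit 0)) (T.h (T.h (P (nat_lit 0)) (M (nat_lit 154815030088991))) (P (nat_lit 0))))))) (T.h (T.h (P (nat_lit 0)) (T.h (T.h (P (nat_lit 53116712304456398536704)) (T.h (P (nat_lit 0)) (M (nat_lit 45237387053236223)))) (T.h (P (nat_lit 0)) (M (nat_lit 239507379198361599))))) (T.h (T.h (T.h (P (nat_lit 0)) (T.h (P (nat_lit 34971865101436452864)) (T.h (P (nat_lit 0)) (M (nat_lit 3182115287471))))) (T.h (P (nat_lit 0)) (T.h (T.h (P (nat_lit 0)) (P (nat_lit 6806561621472))) (P (nat_lit 0))))) (T.h (T.h (P (nat_lit 0)) (P (nat_lit 13389182920425472))) (T.h (T.h (T.h (P (nat_lit 0)) (M (nat_lit 2216404253375))) (P (nat_lit 0))) (P (nat_lit 0)))))))), (T.h (T.h (P (nat_lit 0)) (T.h (T.h (P (nat_lit 0)) (T.h (M (nat_lit 1974649089754001720737791)) (T.h (P (nat_lit 0)) (T.h (M (nat_lit 12150048673841020927))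 (T.h (P (nat_lit 0)) (M (nat_lit 153484319177423))))))) (T.h (P (nat_lit 0)) (T.h (T.h (P (nat_lit 0)) (T.h (P (nat_lit 365582842032417669120)) (T.h (P (nat_lit 0)) (P (nat_lit 356919587573616))))) (T.h (P (nat_lit 0)) (T.h (T.h (P (nat_lit 0)) (P (nat_lit 418099953986208))) (P (nat_lit 0)))))))) (T.h (T.h (T.h (M (nat_lit 3335675229011176419139518463)) (T.h (P (nat_lit 0)) (T.h (M (nat_lit 7048662301444117889023)) (T.h (P (nat_lit 0)) (M (nat_lit 55932866233335807)))))) (T.h (P (nat_lit 0)) (T.h (T.h (P (nat_lit 24602323935072788414464)) (T.h (P (nat_lit 0)) (P (nat_lit 69244562661801984)))) (T.h (P (nat_lit 0)) (P (nat_lit 227435957508997120)))))) (T.h (T.h (P (nat_lit 0)) (T.h (T.h (P (nat_lit 0)) (T.h (M (nat_lit 18276632113639849983)) (T.h (P (nat_lit 0)) (P (nat_lit 157454749658304))))) (T.h (P (nat_lit 0)) (T.h (T.h (P (nat_lit 0)) (M (nat_lit 111663856591199))) (P (nat_lit 0)))))) (T.h (T.h (T.h (M (nat_lit 2556215325078874750975)) (T.h (P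 (nat_lit 0)) (P (nat_lit 10764761764429824)))) (T.h (P (nat_lit 0)) (M (nat_lit 16203078846971903)))) (T.h (T.h (P (nat_lit 0)) (T.h (T.h (P (nat_lit 0)) (M (nat_lit 235517594865407))) (P (nat_lit 0)))) (P (nat_lit 3963771170832384))))))), (T.h (T.h (P (nat_lit 0)) (T.h (T.h (P (nat_lit 4622686116289818125836222464)) (T.h (P (nat_lit 0)) (T.h (P (nat_lit 210632273554275901112320)) (T.h (P (nat_lit 0)) (P (nat_lit 170806740523974656)))))) (T.h (P (nat_lit 0)) (T.h (T.h (P (nat_lit 67326681209505262338048)) (T.h (P (nat_lit 0)) (M (nat_lit 251305719263821823)))) (T.h (P (nat_lit 0)) (P (nat_lit 73889396061962240))))))) (T.h (T.h (T.h (P (nat_lit 0)) (T.h (P (nat_lit 32368617483080180722302976)) (T.h (P (nat_lit 0)) (P (nat_lit 70812932436679196672))))) (T.h (P (nat_lit 0)) (T.h (T.h (P (nat_lit 0)) (P (nat_lit 210714216620942688256))) (P (nat_lit 0))))) (T.h (T.h (P (nat_lit 0)) (T.h (T.h (P (nat_lit 5038203398620824207360)) (T.h (P (nat_lit 0)) (M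 (nat_lit 257875223365943295)))) (T.h (P (nat_lit 0)) (M (nat_lit 12566762318135295))))) (T.h (T.h (T.h (P (nat_lit 0)) (M (nat_lit 30422275876538286079))) (P (nat_lit 0))) (T.h (T.h (P (nat_lit 0)) (P (nat_lit 30035550910087168))) (P (nat_lit 0))))))), (P (nat_lit 0)), (T.h (T.h (T.h (P (nat_lit 6945281478211275015688300789760)) (T.h (P (nat_lit 0)) (T.h (M (nat_lit 844005617985062042599423)) (T.h (P (nat_lit 0)) (T.h (M (nat_lit 250077559696392191)) (T.h (P (nat_lit 0)) (M (nat_lit 394146612063)))))))) (T.h (P (nat_lit 0)) (T.h (T.h (M (nat_lit 6892331385474144117194751)) (T.h (P (nat_lit 0)) (T.h (P (nat_lit 28162852510398152704)) (T.h (P (nat_lit 0)) (M (nat_lit 12025278876719)))))) (T.h (P (nat_lit 0)) (T.h (T.h (M (nat_lit 12345843102613766143)) (T.h (P (nat_lit 0)) (M (nat_lit 6531616341807)))) (T.h (P (nat_lit 0)) (P (nat_lit 10239292669440)))))))) (T.h (T.h (P (nat_lit 0)) (T.h (T.h (P (nat_lit 0)) (T.h (P (nat_lit 21790855645850796818432))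 (T.h (P (nat_lit 0)) (M (nat_lit 8712303045115903))))) (T.h (P (nat_lit 0)) (T.h (T.h (P (nat_lit 0)) (P (nat_lit 114410331772616704))) (P (nat_lit 0)))))) (T.h (T.h (T.h (M (nat_lit 844005617985062042599423)) (T.h (P (nat_lit 0)) (T.h (P (nat_lit 1700261905928552448)) (T.h (P (nat_lit 0)) (M (nat_lit 1928525502543)))))) (T.h (P (nat_lit 0)) (T.h (T.h (P (nat_lit 28162852510398152704)) (T.h (P (nat_lit 0)) (M (nat_lit 46369747134399)))) (T.h (P (nat_lit 0)) (M (nat_lit 6531616341807)))))) (T.h (T.h (P (nat_lit 0)) (T.h (T.h (P (nat_lit 0)) (M (nat_lit 8712303045115903))) (P (nat_lit 0)))) (T.h (T.h (T.h (M (nat_lit 250077559696392191)) (T.h (P (nat_lit 0)) (M (nat_lit 1928525502543)))) (T.h (P (nat_lit 0)) (M (nat_lit 12025278876719)))) (T.h (P (nat_lit 0)) (M (nat_lit 394146612063)))))))), (T.h (T.h (T.h (P (nat_lit 0)) (T.h (M (nat_lit 2787373763577663888453271551)) (T.h (P (nat_lit 0)) (T.h (M (nat_lit 14596476764099333586943)) (T.h (P (nat_lit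 0)) (P (nat_lit 12471877204180992))))))) (T.h (P (nat_lit 0)) (T.h (T.h (P (nat_lit 0)) (T.h (P (nat_lit 37652368741945447546880)) (T.h (P (nat_lit 0)) (M (nat_lit 18450982411370495))))) (T.h (P (nat_lit 0)) (T.h (T.h (P (nat_lit 0)) (P (nat_lit 498903295979454464))) (P (nat_lit 0))))))) (T.h (T.h (P (nat_lit 0)) (T.h (T.h (P (nat_lit 8420469345027642405945344)) (T.h (P (nat_lit 0)) (T.h (M (nat_lit 29332209703661338623)) (T.h (P (nat_lit 0)) (M (nat_lit 5796365101967)))))) (T.h (P (nat_lit 0)) (T.h (T.h (P (nat_lit 184211853846620667904)) (T.h (P (nat_lit 0)) (M (nat_lit 31467877982927)))) (T.h (P (nat_lit 0)) (M (nat_lit 98814136291871))))))) (T.h (T.h (T.h (P (nat_lit 0)) (T.h (M (nat_lit 3668610430600438874111)) (T.h (P (nat_lit 0)) (M (nat_lit 47013678771863551))))) (T.h (P (nat_lit 0)) (T.h (T.h (P (nat_lit 0)) (M (nat_lit 105182443699470335))) (P (nat_lit 0))))) (T.h (T.h (P (nat_lit 0)) (T.h (T.h (M (nat_lit 26595740297180741631)) (T.h (P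 (nat_lit 0)) (M (nat_lit 18427241446751)))) (T.h (P (nat_lit 0)) (P (nat_lit 13347002066688))))) (T.h (T.h (T.h (P (nat_lit 0)) (M (nat_lit 12344674416689151))) (P (nat_lit 0))) (T.h (T.h (P (nat_lit 0)) (P (nat_lit 2088080913312))) (P (nat_lit 0)))))))), (T.h (T.h (T.h (M (nat_lit 7347284730981760738617207029759)) (T.h (P (nat_lit 0)) (T.h (P (nat_lit 57923522351927671027400704)) (T.h (P (nat_lit 0)) (T.h (M (nat_lit 29989453987150036991)) (T.h (P (nat_lit 0)) (M (nat_lit 12383001643247)))))))) (T.h (P (nat_lit 0)) (T.h (T.h (M (nat_lit 24986163315578777425149951)) (T.h (P (nat_lit 0)) (T.h (P (nat_lit 177177424402405392384)) (T.h (P (nat_lit 0)) (M (nat_lit 29246983189487)))))) (T.h (P (nat_lit 0)) (T.h (T.h (P (nat_lit 14892719367979532288)) (T.h (P (nat_lit 0)) (P (nat_lit 135693679464000)))) (T.h (P (nat_lit 0)) (M (nat_lit 1900902457007)))))))) (T.h (T.h (P (nat_lit 0)) (T.h (T.h (P (nat_lit 0)) (T.h (P (nat_lit 70258196730489203589120)) (T.h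 (P (nat_lit 0)) (P (nat_lit 47568789769158656))))) (T.h (P (nat_lit 0)) (T.h (T.h (P (nat_lit 0)) (P (nat_lit 262996897238188032))) (P (nat_lit 0)))))) (T.h (T.h (T.h (M (nat_lit 4210623603377640919007231)) (T.h (P (nat_lit 0)) (T.h (M (nat_lit 2352003625896640511)) (T.h (P (nat_lit 0)) (P (nat_lit 3747522647088)))))) (T.h (P (nat_lit 0)) (T.h (T.h (P (nat_lit 112178435325171859456)) (T.h (P (nat_lit 0)) (M (nat_lit 154284181097903)))) (T.h (P (nat_lit 0)) (M (nat_lit 154054818207791)))))) (T.h (T.h (P (nat_lit 0)) (T.h (T.h (P (nat_lit 0)) (P (nat_lit 12885981240885248))) (P (nat_lit 0)))) (T.h (T.h (T.h (P (nat_lit 1445542280348827648)) (T.h (P (nat_lit 0)) (M (nat_lit 40758030476063)))) (T.h (P (nat_lit 0)) (M (nat_lit 40633845785423)))) (T.h (P (nat_lit 0)) (P (nat_lit 2262664312560))))))))]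
def lP12_7 : List (T ℤ) := [(T.h (T.h (T.h (P (nat_lit 0)) (T.h (M (nat_lit 19010715559394962457480921087)) (T.h (P (nat_lit 0)) (T.h (P (nat_lit 17167194726438533070848)) (T.h (P (nat_lit 0)) (P (nat_lit 51833134429732864))))))) (T.h (P (nat_lit 0)) (T.h (T.h (P (nat_lit 0)) (T.h (M (nat_lit 337256168840861870718975)) (T.h (P (nat_lit 0)) (M (nat_lit 217035851084890111))))) (T.h (P (nat_lit 0)) (T.h (T.h (P (nat_lit 0)) (M (nat_lit 537460537767034879))) (P (nat_lit 0))))))) (T.h (T.h (P (nat_lit 0)) (T.h (T.h (M (nat_lit 11796831539250381828653055)) (T.h (P (nat_lit 0)) (P (nat_lit 27730665333827043328)))) (T.h (P (nat_lit 0)) (M (nat_lit 201848382004607844351))))) (T.h (T.h (T.h (P (nat_lit 0)) (T.h (M (nat_lit 4534848523537343315967)) (T.h (P (nat_lit 0)) (M (nat_lit 39240781425016831))))) (T.h (P (nat_lit 0)) (T.h (T.h (P (nat_lit 0)) (P (nat_lit 146445637852594176))) (P (nat_lit 0))))) (T.h (T.h (P (nat_lit 0)) (P (nat_lit 11447994264663883776)))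 (T.h (T.h (T.h (P (nat_lit 0)) (P (nat_lit 72142769679368192))) (P (nat_lit 0))) (P (nat_lit 0))))))), (P (nat_lit 0)), (T.h (T.h (P (nat_lit 0)) (T.h (T.h (P (nat_lit 12705971551799468700223930368)) (T.h (P (nat_lit 0)) (T.h (M (nat_lit 8848581376903131168767)) (T.h (P (nat_lit 0)) (P (nat_lit 15828416420511744)))))) (T.h (P (nat_lit 0)) (T.h (T.h (P (nat_lit 1067211340657522114560)) (T.h (P (nat_lit 0)) (P (nat_lit 10236873174646784)))) (T.h (P (nat_lit 0)) (M (nat_lit 24957961867493375))))))) (T.h (T.h (T.h (P (nat_lit 0)) (T.h (M (nat_lit 6603952406297327842623487)) (T.h (P (nat_lit 0)) (T.h (M (nat_lit 7293634597340839935)) (T.h (P (nat_lit 0)) (M (nat_lit 776391066335))))))) (T.h (P (nat_lit 0)) (T.h (T.h (P (nat_lit 0)) (T.h (P (nat_lit 46739776176339812352)) (T.h (P (nat_lit 0)) (P (nat_lit 18444320661312))))) (T.h (P (nat_lit 0)) (T.h (T.h (P (nat_lit 0)) (P (nat_lit 135946721145024))) (P (nat_lit 0))))))) (T.h (T.h (P (nat_lit 0)) (T.h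 (T.h (M (nat_lit 1703111653625365004287)) (T.h (P (nat_lit 0)) (P (nat_lit 24253972323106816)))) (T.h (P (nat_lit 0)) (P (nat_lit 33631326450122752))))) (T.h (T.h (T.h (P (nat_lit 0)) (T.h (P (nat_lit 4491474292059406336)) (T.h (P (nat_lit 0)) (M (nat_lit 72660681503))))) (T.h (P (nat_lit 0)) (T.h (T.h (P (nat_lit 0)) (P (nat_lit 18444320661312))) (P (nat_lit 0))))) (T.h (T.h (P (nat_lit 0)) (P (nat_lit 8727060432158720))) (T.h (T.h (T.h (P (nat_lit 0)) (M (nat_lit 776391066335))) (P (nat_lit 0))) (P (nat_lit 0)))))))), (T.h (T.h (P (nat_lit 0)) (T.h (T.h (P (nat_lit 0)) (T.h (P (nat_lit 16770020288298499683909632)) (T.h (P (nat_lit 0)) (T.h (M (nat_lit 24581911049941286911)) (T.h (P (nat_lit 0)) (M (nat_lit 3743196082991))))))) (T.h (P (nat_lit 0)) (T.h (T.h (P (nat_lit 0)) (T.h (M (nat_lit 54436003502392082431)) (T.h (P (nat_lit 0)) (M (nat_lit 15746492039039))))) (T.h (P (nat_lit 0)) (T.h (T.h (P (nat_lit 0)) (P (nat_lit 310329193881600))) (P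 (nat_lit 0)))))))) (T.h (T.h (T.h (P (nat_lit 7613911020926650974465949696)) (T.h (P (nat_lit 0)) (T.h (P (nat_lit 856239061351264157696)) (T.h (P (nat_lit 0)) (M (nat_lit 18543270365085695)))))) (T.h (P (nat_lit 0)) (T.h (T.h (M (nat_lit 37608647712375417339903)) (T.h (P (nat_lit 0)) (M (nat_lit 11201544438792191)))) (T.h (P (nat_lit 0)) (P (nat_lit 288386959946383360)))))) (T.h (T.h (P (nat_lit 0)) (T.h (T.h (P (nat_lit 0)) (T.h (P (nat_lit 6148453346429632512)) (T.h (P (nat_lit 0)) (M (nat_lit 43491366017423))))) (T.h (P (nat_lit 0)) (T.h (T.h (P (nat_lit 0)) (M (nat_lit 157763501468927))) (P (nat_lit 0)))))) (T.h (T.h (T.h (P (nat_lit 3737831950392995348480)) (T.h (P (nat_lit 0)) (P (nat_lit 18868985238323200)))) (T.h (P (nat_lit 0)) (M (nat_lit 15025593104400383)))) (T.h (T.h (P (nat_lit 0)) (T.h (T.h (P (nat_lit 0)) (P (nat_lit 17575024374576))) (P (nat_lit 0)))) (M (nat_lit 2662119321436159))))))), (T.h (T.h (P (nat_lit 0)) (T.h (T.h (P (nat_lit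 5938840239767262457329876992)) (T.h (P (nat_lit 0)) (T.h (M (nat_lit 83505656668972851920895)) (T.h (P (nat_lit 0)) (P (nat_lit 17569552337108992)))))) (T.h (P (nat_lit 0)) (T.h (T.h (M (nat_lit 15260972577348049174527)) (T.h (P (nat_lit 0)) (M (nat_lit 112761797231247359)))) (T.h (P (nat_lit 0)) (M (nat_lit 68021766630866943))))))) (T.h (T.h (T.h (P (nat_lit 0)) (T.h (M (nat_lit 8121832179209592299847679)) (T.h (P (nat_lit 0)) (P (nat_lit 18589109809936596992))))) (T.h (P (nat_lit 0)) (T.h (T.h (P (nat_lit 0)) (M (nat_lit 9408689513531703295))) (P (nat_lit 0))))) (T.h (T.h (P (nat_lit 0)) (T.h (T.h (M (nat_lit 32448110580492473991167)) (T.h (P (nat_lit 0)) (P (nat_lit 99906550954229760)))) (T.h (P (nat_lit 0)) (P (nat_lit 176124080196288512))))) (T.h (T.h (T.h (P (nat_lit 0)) (M (nat_lit 6818117037345210367))) (P (nat_lit 0))) (T.h (T.h (P (nat_lit 0)) (P (nat_lit 14493620268662784))) (P (nat_lit 0))))))), (P (nat_lit 0)), (T.h (T.h (T.h (M (nat_lit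 1526812637208704738452194721791)) (T.h (P (nat_lit 0)) (T.h (M (nat_lit 1566168659524124063825919)) (T.h (P (nat_lit 0)) (T.h (M (nat_lit 1257490112028082175)) (T.h (P (nat_lit 0)) (P (nat_lit 485082553536)))))))) (T.h (P (nat_lit 0)) (T.h (T.h (P (nat_lit 20864823599583554539880448)) (T.h (P (nat_lit 0)) (T.h (M (nat_lit 11962976014688059391)) (T.h (P (nat_lit 0)) (P (nat_lit 21823059736368)))))) (T.h (P (nat_lit 0)) (T.h (T.h (P (nat_lit 6830011316166459392)) (T.h (P (nat_lit 0)) (P (nat_lit 17223692796864)))) (T.h (P (nat_lit 0)) (M (nat_lit 18430719318143)))))))) (T.h (T.h (P (nat_lit 0)) (T.h (T.h (P (nat_lit 0)) (T.h (M (nat_lit 25949813201762300985343)) (T.h (P (nat_lit 0)) (M (nat_lit 16206316422561791))))) (T.h (P (nat_lit 0)) (T.h (T.h (P (nat_lit 0)) (M (nat_lit 150200156445474815))) (P (nat_lit 0)))))) (T.h (T.h (T.h (M (nat_lit 1566168659524124063825919)) (T.h (P (nat_lit 0)) (T.h (P (nat_lit 5272713814171713536)) (T.h (P (nat_lit 0))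 (P (nat_lit 6479329439808)))))) (T.h (P (nat_lit 0)) (T.h (T.h (M (nat_lit 11962976014688059391)) (T.h (P (nat_lit 0)) (P (nat_lit 83465545105728)))) (T.h (P (nat_lit 0)) (P (nat_lit 17223692796864)))))) (T.h (T.h (P (nat_lit 0)) (T.h (T.h (P (nat_lit 0)) (M (nat_lit 16206316422561791))) (P (nat_lit 0)))) (T.h (T.h (T.h (M (nat_lit 1257490112028082175)) (T.h (P (nat_lit 0)) (P (nat_lit 6479329439808)))) (T.h (P (nat_lit 0)) (P (nat_lit 21823059736368)))) (T.h (P (nat_lit 0)) (P (nat_lit 485082553536)))))))), (T.h (T.h (T.h (P (nat_lit 0)) (T.h (M (nat_lit 1069719061105742419312246783)) (T.h (P (nat_lit 0)) (T.h (P (nat_lit 4810639926731932172288)) (T.h (P (nat_lit 0)) (P (nat_lit 189485684457472))))))) (T.h (P (nat_lit 0)) (T.h (T.h (P (nat_lit 0)) (T.h (M (nat_lit 9039233065320873721855)) (T.h (P (nat_lit 0)) (M (nat_lit 9114228696940543))))) (T.h (P (nat_lit 0)) (T.h (T.h (P (nat_lit 0)) (M (nat_lit 360924354560393215))) (P (nat_lit 0))))))) (T.h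 (T.h (P (nat_lit 0)) (T.h (T.h (M (nat_lit 1761177201905144919228415)) (T.h (P (nat_lit 0)) (P (nat_lit 13635200529196908544)))) (T.h (P (nat_lit 0)) (M (nat_lit 159289274093619118079))))) (T.h (T.h (T.h (P (nat_lit 0)) (T.h (P (nat_lit 167114983961662586880)) (T.h (P (nat_lit 0)) (P (nat_lit 3999072314753024))))) (T.h (P (nat_lit 0)) (T.h (T.h (P (nat_lit 0)) (P (nat_lit 69713786696892416))) (P (nat_lit 0))))) (T.h (T.h (P (nat_lit 0)) (M (nat_lit 1424453042811437055))) (T.h (T.h (T.h (P (nat_lit 0)) (M (nat_lit 6948109256065023))) (P (nat_lit 0))) (P (nat_lit 0)))))))]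
def lP12_8 : List (T ℤ) := [(P (nat_lit 0)), (T.h (T.h (P (nat_lit 0)) (T.h (T.h (M (nat_lit 6946700081529947634800787455)) (T.h (P (nat_lit 0)) (T.h (P (nat_lit 2528644232359897464832)) (T.h (P (nat_lit 0)) (M (nat_lit 9931916964462591)))))) (T.h (P (nat_lit 0)) (T.h (T.h (M (nat_lit 6537014371178130702335)) (T.h (P (nat_lit 0)) (M (nat_lit 15677387932434431)))) (T.h (P (nat_lit 0)) (P (nat_lit 25164075442372608))))))) (T.h (T.h (T.h (P (nat_lit 0)) (T.h (P (nat_lit 2399690788163493904252928)) (T.h (P (nat_lit 0)) (P (nat_lit 822611858266521600))))) (T.h (P (nat_lit 0)) (T.h (T.h (P (nat_lit 0)) (M (nat_lit 24174887929991135231))) (P (nat_lit 0))))) (T.h (T.h (P (nat_lit 0)) (T.h (T.h (P (nat_lit 2528644232359897464832)) (T.h (P (nat_lit 0)) (M (nat_lit 37986096972562431)))) (T.h (P (nat_lit 0)) (M (nat_lit 15677387932434431))))) (T.h (T.h (T.h (P (nat_lit 0)) (P (nat_lit 822611858266521600))) (P (nat_lit 0))) (T.h (T.h (P (nat_lit 0)) (M (nat_lit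 9931916964462591))) (P (nat_lit 0))))))), (P (nat_lit 0)), (P (nat_lit 0)), (P (nat_lit 0)), (T.h (T.h (T.h (P (nat_lit 522046432117407843054226767872)) (T.h (P (nat_lit 0)) (T.h (P (nat_lit 9751645110814865679712256)) (T.h (P (nat_lit 0)) (T.h (M (nat_lit 4962144670881677311)) (T.h (P (nat_lit 0)) (P (nat_lit 3579694593136)))))))) (T.h (P (nat_lit 0)) (T.h (T.h (M (nat_lit 1652409091965458688507903)) (T.h (P (nat_lit 0)) (T.h (M (nat_lit 1573144585381609471)) (T.h (P (nat_lit 0)) (M (nat_lit 23450859319047)))))) (T.h (P (nat_lit 0)) (T.h (T.h (P (nat_lit 270336629850243072)) (T.h (P (nat_lit 0)) (P (nat_lit 6319630687392)))) (T.h (P (nat_lit 0)) (M (nat_lit 448956233679)))))))) (T.h (T.h (P (nat_lit 0)) (T.h (T.h (P (nat_lit 0)) (T.h (M (nat_lit 8135358549727220072447)) (T.h (P (nat_lit 0)) (M (nat_lit 25225031447609343))))) (T.h (P (nat_lit 0)) (T.h (T.h (P (nat_lit 0)) (M (nat_lit 3130256582475775))) (P (nat_lit 0)))))) (T.h (T.h (T.h (M (nat_lit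 1652409091965458688507903)) (T.h (P (nat_lit 0)) (T.h (M (nat_lit 1573144585381609471)) (T.h (P (nat_lit 0)) (M (nat_lit 23450859319047)))))) (T.h (P (nat_lit 0)) (T.h (T.h (P (nat_lit 2455696032005095424)) (T.h (P (nat_lit 0)) (M (nat_lit 1830296143839)))) (T.h (P (nat_lit 0)) (P (nat_lit 6471408321408)))))) (T.h (T.h (P (nat_lit 0)) (T.h (T.h (P (nat_lit 0)) (M (nat_lit 3130256582475775))) (P (nat_lit 0)))) (T.h (T.h (T.h (P (nat_lit 270336629850243072)) (T.h (P (nat_lit 0)) (P (nat_lit 6319630687392)))) (T.h (P (nat_lit 0)) (P (nat_lit 6471408321408)))) (T.h (P (nat_lit 0)) (M (nat_lit 448956233679)))))))), (P (nat_lit 0)), (T.h (T.h (T.h (P (nat_lit 485095236651568072757715402752)) (T.h (P (nat_lit 0)) (T.h (P (nat_lit 4327702559242284674580480)) (T.h (P (nat_lit 0)) (M (nat_lit 16918107354484965375)))))) (T.h (P (nat_lit 0)) (T.h (T.h (M (nat_lit 758126168194159579496447)) (T.h (P (nat_lit 0)) (P (nat_lit 11427684792666161152)))) (T.h (P (nat_lit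 0)) (M (nat_lit 1496852484168089599)))))) (T.h (T.h (P (nat_lit 0)) (T.h (T.h (P (nat_lit 0)) (T.h (P (nat_lit 4325368616586145955840)) (T.h (P (nat_lit 0)) (M (nat_lit 55632017914855423))))) (T.h (P (nat_lit 0)) (T.h (T.h (P (nat_lit 0)) (M (nat_lit 17603041707622399))) (P (nat_lit 0)))))) (T.h (T.h (T.h (M (nat_lit 758126168194159579496447)) (T.h (P (nat_lit 0)) (P (nat_lit 11427684792666161152)))) (T.h (P (nat_lit 0)) (P (nat_lit 3496938403264462848)))) (T.h (T.h (P (nat_lit 0)) (T.h (T.h (P (nat_lit 0)) (M (nat_lit 17603041707622399))) (P (nat_lit 0)))) (M (nat_lit 1496852484168089599))))))]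
def lP12_9 : List (T ℤ) := [(P (nat_lit 0)), (P (nat_lit 0)), (P (nat_lit 0)), (P (nat_lit 0)), (T.h (T.h (P (nat_lit 0)) (T.h (T.h (P (nat_lit 0)) (T.h (P (nat_lit 9184455792963520265453568)) (T.h (P (nat_lit 0)) (T.h (M (nat_lit 78604404839510179839)) (T.h (P (nat_lit 0)) (P (nat_lit 161830934748688))))))) (T.h (P (nat_lit 0)) (T.h (T.h (P (nat_lit 0)) (T.h (M (nat_lit 11592540265876815871)) (T.h (P (nat_lit 0)) (M (nat_lit 75003285348831))))) (T.h (P (nat_lit 0)) (T.h (T.h (P (nat_lit 0)) (P (nat_lit 2262116823920))) (P (nat_lit 0)))))))) (T.h (T.h (T.h (P (nat_lit 7395940778846952870901710848)) (T.h (P (nat_lit 0)) (T.h (M (nat_lit 18087220151951030222847)) (T.h (P (nat_lit 0)) (P (nat_lit 7239771379531776)))))) (T.h (P (nat_lit 0)) (T.h (T.h (M (nat_lit 2893136923030640918527)) (T.h (P (nat_lit 0)) (M (nat_lit 30966768096378879)))) (T.h (P (nat_lit 0)) (M (nat_lit 12378926751481855)))))) (T.h (T.h (P (nat_lit 0)) (T.h (T.h (P (nat_lit 0)) (T.h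 (P (nat_lit 9104868517496225792)) (T.h (P (nat_lit 0)) (M (nat_lit 180056617403567))))) (T.h (P (nat_lit 0)) (T.h (T.h (P (nat_lit 0)) (M (nat_lit 9290980362447))) (P (nat_lit 0)))))) (T.h (T.h (T.h (P (nat_lit 11722092259820284411904)) (T.h (P (nat_lit 0)) (P (nat_lit 66238411560845312)))) (T.h (P (nat_lit 0)) (M (nat_lit 270668932186111)))) (T.h (T.h (P (nat_lit 0)) (T.h (T.h (P (nat_lit 0)) (P (nat_lit 42883541252624))) (P (nat_lit 0)))) (M (nat_lit 4296031324143615))))))), (T.h (T.h (P (nat_lit 0)) (T.h (T.h (P (nat_lit 2084092978544746558608375808)) (T.h (P (nat_lit 0)) (T.h (M (nat_lit 14112679512842935730175)) (T.h (P (nat_lit 0)) (M (nat_lit 145933282261073919)))))) (T.h (P (nat_lit 0)) (T.h (T.h (M (nat_lit 2445534956294129057791)) (T.h (P (nat_lit 0)) (P (nat_lit 3081846973022208)))) (T.h (P (nat_lit 0)) (P (nat_lit 2747498126852096))))))) (T.h (T.h (T.h (P (nat_lit 0)) (T.h (P (nat_lit 3505100089068918241492992)) (T.h (P (nat_lit 0)) (T.h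 (P (nat_lit 83778115168194527232)) (T.h (P (nat_lit 0)) (M (nat_lit 335941989346463))))))) (T.h (P (nat_lit 0)) (T.h (T.h (P (nat_lit 0)) (T.h (P (nat_lit 8688976552274165760)) (T.h (P (nat_lit 0)) (P (nat_lit 19291176429520))))) (T.h (P (nat_lit 0)) (T.h (T.h (P (nat_lit 0)) (M (nat_lit 6391443606815))) (P (nat_lit 0))))))) (T.h (T.h (P (nat_lit 0)) (T.h (T.h (M (nat_lit 13105697841355797037055)) (T.h (P (nat_lit 0)) (M (nat_lit 45175380232437759)))) (T.h (P (nat_lit 0)) (M (nat_lit 10769564384280575))))) (T.h (T.h (T.h (P (nat_lit 0)) (T.h (M (nat_lit 3206093737427992575)) (T.h (P (nat_lit 0)) (P (nat_lit 19834863972112))))) (T.h (P (nat_lit 0)) (T.h (T.h (P (nat_lit 0)) (P (nat_lit 7731991111936))) (P (nat_lit 0))))) (T.h (T.h (P (nat_lit 0)) (M (nat_lit 21643633645551615))) (T.h (T.h (T.h (P (nat_lit 0)) (M (nat_lit 2171138809055))) (P (nat_lit 0))) (P (nat_lit 0)))))))), (T.h (T.h (P (nat_lit 0)) (T.h (T.h (P (nat_lit 0)) (T.h (P (nat_lit 12509792448854331660173312))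 (T.h (P (nat_lit 0)) (T.h (P (nat_lit 250920021223563853824)) (T.h (P (nat_lit 0)) (M (nat_lit 98814136291871))))))) (T.h (P (nat_lit 0)) (T.h (T.h (P (nat_lit 0)) (T.h (M (nat_lit 3316242623588466687)) (T.h (P (nat_lit 0)) (P (nat_lit 13347002066688))))) (T.h (P (nat_lit 0)) (T.h (T.h (P (nat_lit 0)) (P (nat_lit 2088080913312))) (P (nat_lit 0)))))))) (T.h (T.h (T.h (P (nat_lit 4992363921934833736638005248)) (T.h (P (nat_lit 0)) (T.h (M (nat_lit 51836025610812736405503)) (T.h (P (nat_lit 0)) (P (nat_lit 478618484742881280)))))) (T.h (P (nat_lit 0)) (T.h (T.h (P (nat_lit 1104352909414493061120)) (T.h (P (nat_lit 0)) (M (nat_lit 10589009514070015)))) (T.h (P (nat_lit 0)) (M (nat_lit 10403519732908031)))))) (T.h (T.h (P (nat_lit 0)) (T.h (T.h (P (nat_lit 0)) (T.h (M (nat_lit 424093938303893503)) (T.h (P (nat_lit 0)) (M (nat_lit 31467877982927))))) (T.h (P (nat_lit 0)) (T.h (T.h (P (nat_lit 0)) (M (nat_lit 18427241446751))) (P (nat_lit 0)))))) (T.h (T.h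 (T.h (M (nat_lit 17231472051953504092159)) (T.h (P (nat_lit 0)) (P (nat_lit 27309452927827968)))) (T.h (P (nat_lit 0)) (P (nat_lit 54793266947653632)))) (T.h (T.h (P (nat_lit 0)) (T.h (T.h (P (nat_lit 0)) (M (nat_lit 5796365101967))) (P (nat_lit 0)))) (P (nat_lit 9667660472385536))))))), (T.h (T.h (P (nat_lit 0)) (T.h (T.h (P (nat_lit 7613911020926650974465949696)) (T.h (P (nat_lit 0)) (T.h (M (nat_lit 37608647712375417339903)) (T.h (P (nat_lit 0)) (P (nat_lit 288386959946383360)))))) (T.h (P (nat_lit 0)) (T.h (T.h (P (nat_lit 3737831950392995348480)) (T.h (P (nat_lit 0)) (M (nat_lit 15025593104400383)))) (T.h (P (nat_lit 0)) (M (nat_lit 2662119321436159))))))) (T.h (T.h (T.h (P (nat_lit 0)) (T.h (P (nat_lit 16770020288298499683909632)) (T.h (P (nat_lit 0)) (T.h (M (nat_lit 54436003502392082431)) (T.h (P (nat_lit 0)) (P (nat_lit 310329193881600))))))) (T.h (P (nat_lit 0)) (T.h (T.h (P (nat_lit 0)) (T.h (P (nat_lit 6148453346429632512)) (T.h (P (nat_lit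 0)) (M (nat_lit 157763501468927))))) (T.h (P (nat_lit 0)) (T.h (T.h (P (nat_lit 0)) (P (nat_lit 17575024374576))) (P (nat_lit 0))))))) (T.h (T.h (P (nat_lit 0)) (T.h (T.h (P (nat_lit 856239061351264157696)) (T.h (P (nat_lit 0)) (M (nat_lit 11201544438792191)))) (T.h (P (nat_lit 0)) (P (nat_lit 18868985238323200))))) (T.h (T.h (T.h (P (nat_lit 0)) (T.h (M (nat_lit 24581911049941286911)) (T.h (P (nat_lit 0)) (M (nat_lit 15746492039039))))) (T.h (P (nat_lit 0)) (T.h (T.h (P (nat_lit 0)) (M (nat_lit 43491366017423))) (P (nat_lit 0))))) (T.h (T.h (P (nat_lit 0)) (M (nat_lit 18543270365085695))) (T.h (T.h (T.h (P (nat_lit 0)) (M (nat_lit 3743196082991))) (P (nat_lit 0))) (P (nat_lit 0))))))))]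
def lP12_10 : List (T ℤ) := [(T.h (T.h (P (nat_lit 0)) (T.h (T.h (P (nat_lit 0)) (T.h (M (nat_lit 1761177201905144919228415)) (T.h (P (nat_lit 0)) (M (nat_lit 159289274093619118079))))) (T.h (P (nat_lit 0)) (T.h (T.h (P (nat_lit 0)) (M (nat_lit 1424453042811437055))) (P (nat_lit 0)))))) (T.h (T.h (T.h (M (nat_lit 1069719061105742419312246783)) (T.h (P (nat_lit 0)) (T.h (M (nat_lit 9039233065320873721855)) (T.h (P (nat_lit 0)) (M (nat_lit 360924354560393215)))))) (T.h (P (nat_lit 0)) (T.h (T.h (P (nat_lit 167114983961662586880)) (T.h (P (nat_lit 0)) (P (nat_lit 69713786696892416)))) (T.h (P (nat_lit 0)) (M (nat_lit 6948109256065023)))))) (T.h (T.h (P (nat_lit 0)) (T.h (T.h (P (nat_lit 0)) (P (nat_lit 13635200529196908544))) (P (nat_lit 0)))) (T.h (T.h (T.h (P (nat_lit 4810639926731932172288)) (T.h (P (nat_lit 0)) (M (nat_lit 9114228696940543)))) (T.h (P (nat_lit 0)) (P (nat_lit 3999072314753024)))) (T.h (P (nat_lit 0)) (P (nat_lit 189485684457472))))))),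 (P (nat_lit 0)), (P (nat_lit 0)), (T.h (T.h (T.h (P (nat_lit 475214081464947901198254473216)) (T.h (P (nat_lit 0)) (T.h (P (nat_lit 37247088745040058599342080)) (T.h (P (nat_lit 0)) (T.h (M (nat_lit 21124525332694564863)) (T.h (P (nat_lit 0)) (M (nat_lit 7480607679111)))))))) (T.h (P (nat_lit 0)) (T.h (T.h (P (nat_lit 3346260494601365217083392)) (T.h (P (nat_lit 0)) (T.h (M (nat_lit 5243834607618490367)) (T.h (P (nat_lit 0)) (P (nat_lit 48587070187736)))))) (T.h (P (nat_lit 0)) (T.h (T.h (P (nat_lit 19016633475181576192)) (T.h (P (nat_lit 0)) (P (nat_lit 92126323019536)))) (T.h (P (nat_lit 0)) (P (nat_lit 5458878372848)))))))) (T.h (T.h (P (nat_lit 0)) (T.h (T.h (P (nat_lit 0)) (T.h (M (nat_lit 55547824106086263160831)) (T.h (P (nat_lit 0)) (M (nat_lit 429099701349842943))))) (T.h (P (nat_lit 0)) (T.h (T.h (P (nat_lit 0)) (P (nat_lit 114390405195464704))) (P (nat_lit 0)))))) (T.h (T.h (T.h (M (nat_lit 6189195976925428683112447)) (T.h (P (nat_lit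 0)) (T.h (M (nat_lit 123927887910134611967)) (T.h (P (nat_lit 0)) (M (nat_lit 81247845784671)))))) (T.h (P (nat_lit 0)) (T.h (T.h (P (nat_lit 14235072140389908480)) (T.h (P (nat_lit 0)) (P (nat_lit 111166722223736)))) (T.h (P (nat_lit 0)) (P (nat_lit 25589825143936)))))) (T.h (T.h (P (nat_lit 0)) (T.h (T.h (P (nat_lit 0)) (M (nat_lit 122394752511705087))) (P (nat_lit 0)))) (T.h (T.h (T.h (M (nat_lit 863781634636251135)) (T.h (P (nat_lit 0)) (P (nat_lit 45204537813296)))) (T.h (P (nat_lit 0)) (M (nat_lit 23960649306735)))) (T.h (P (nat_lit 0)) (M (nat_lit 377765856063)))))))), (T.h (T.h (T.h (P (nat_lit 0)) (T.h (M (nat_lit 13210451688327983842182823935)) (T.h (P (nat_lit 0)) (T.h (P (nat_lit 53049158737755864301568)) (T.h (P (nat_lit 0)) (M (nat_lit 33213642493526015))))))) (T.h (P (nat_lit 0)) (T.h (T.h (P (nat_lit 0)) (T.h (P (nat_lit 71268525060009716875264)) (T.h (P (nat_lit 0)) (P (nat_lit 142194421957574656))))) (T.h (P (nat_lit 0)) (T.h (T.h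 (P (nat_lit 0)) (M (nat_lit 77890511696707583))) (P (nat_lit 0))))))) (T.h (T.h (P (nat_lit 0)) (T.h (T.h (M (nat_lit 812139356238288361881599)) (T.h (P (nat_lit 0)) (T.h (P (nat_lit 686793345222343393280)) (T.h (P (nat_lit 0)) (M (nat_lit 33739957894015)))))) (T.h (P (nat_lit 0)) (T.h (T.h (P (nat_lit 14353739500201443328)) (T.h (P (nat_lit 0)) (M (nat_lit 5250374281359)))) (T.h (P (nat_lit 0)) (M (nat_lit 12009131250063))))))) (T.h (T.h (T.h (P (nat_lit 0)) (T.h (P (nat_lit 71268525060009716875264)) (T.h (P (nat_lit 0)) (P (nat_lit 142194421957574656))))) (T.h (P (nat_lit 0)) (T.h (T.h (P (nat_lit 0)) (M (nat_lit 82599042909241343))) (P (nat_lit 0))))) (T.h (T.h (P (nat_lit 0)) (T.h (T.h (P (nat_lit 14353739500201443328)) (T.h (P (nat_lit 0)) (M (nat_lit 5250374281359)))) (T.h (P (nat_lit 0)) (P (nat_lit 15419168176256))))) (T.h (T.h (T.h (P (nat_lit 0)) (M (nat_lit 77890511696707583))) (P (nat_lit 0))) (T.h (T.h (P (nat_lit 0)) (M (nat_lit 12009131250063)))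 (P (nat_lit 0)))))))), (T.h (T.h (T.h (M (nat_lit 6436085511988120188232421867519)) (T.h (P (nat_lit 0)) (T.h (M (nat_lit 57996780265604484071161855)) (T.h (P (nat_lit 0)) (T.h (P (nat_lit 344759276099843653632)) (T.h (P (nat_lit 0)) (P (nat_lit 5727466517568)))))))) (T.h (P (nat_lit 0)) (T.h (T.h (P (nat_lit 53236657988114967311679488)) (T.h (P (nat_lit 0)) (T.h (P (nat_lit 177881852320099074048)) (T.h (P (nat_lit 0)) (P (nat_lit 86654082495648)))))) (T.h (P (nat_lit 0)) (T.h (T.h (M (nat_lit 27027727567988719615)) (T.h (P (nat_lit 0)) (M (nat_lit 106775006108063)))) (T.h (P (nat_lit 0)) (M (nat_lit 1272585424271)))))))) (T.h (T.h (P (nat_lit 0)) (T.h (T.h (P (nat_lit 0)) (T.h (P (nat_lit 51542127015824839409664)) (T.h (P (nat_lit 0)) (P (nat_lit 1505972119523557376))))) (T.h (P (nat_lit 0)) (T.h (T.h (P (nat_lit 0)) (M (nat_lit 149202190585757695))) (P (nat_lit 0)))))) (T.h (T.h (T.h (P (nat_lit 1605945407322081193885696)) (T.h (P (nat_lit 0))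 (T.h (P (nat_lit 225147087450552664064)) (T.h (P (nat_lit 0)) (P (nat_lit 86654082495648)))))) (T.h (P (nat_lit 0)) (T.h (T.h (M (nat_lit 4644904460370313215)) (T.h (P (nat_lit 0)) (M (nat_lit 51987151445087)))) (T.h (P (nat_lit 0)) (M (nat_lit 54304868692991)))))) (T.h (T.h (P (nat_lit 0)) (T.h (T.h (P (nat_lit 0)) (P (nat_lit 214832952255905792))) (P (nat_lit 0)))) (T.h (T.h (T.h (M (nat_lit 17948685967804071935)) (T.h (P (nat_lit 0)) (M (nat_lit 106775006108063)))) (T.h (P (nat_lit 0)) (M (nat_lit 54304868692991)))) (T.h (P (nat_lit 0)) (M (nat_lit 1272585424271)))))))), (T.h (T.h (T.h (P (nat_lit 0)) (T.h (P (nat_lit 36998131545928357616738631680)) (T.h (P (nat_lit 0)) (T.h (M (nat_lit 3100395856076149358591)) (T.h (P (nat_lit 0)) (P (nat_lit 166287845529026560))))))) (T.h (P (nat_lit 0)) (T.h (T.h (P (nat_lit 0)) (T.h (M (nat_lit 90589036788935810875391)) (T.h (P (nat_lit 0)) (P (nat_lit 15382350327431168))))) (T.h (P (nat_lit 0)) (T.h (T.h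 (P (nat_lit 0)) (P (nat_lit 79739785560276992))) (P (nat_lit 0))))))) (T.h (T.h (P (nat_lit 0)) (T.h (T.h (M (nat_lit 53272160417920283098218495)) (T.h (P (nat_lit 0)) (T.h (M (nat_lit 1051264078816068239359)) (T.h (P (nat_lit 0)) (P (nat_lit 354926245962528)))))) (T.h (P (nat_lit 0)) (T.h (T.h (M (nat_lit 18135119514684096511)) (T.h (P (nat_lit 0)) (P (nat_lit 71961381107280)))) (T.h (P (nat_lit 0)) (P (nat_lit 25603466475168))))))) (T.h (T.h (T.h (P (nat_lit 0)) (T.h (M (nat_lit 90589036788935810875391)) (T.h (P (nat_lit 0)) (P (nat_lit 15382350327431168))))) (T.h (P (nat_lit 0)) (T.h (T.h (P (nat_lit 0)) (P (nat_lit 200668995862790144))) (P (nat_lit 0))))) (T.h (T.h (P (nat_lit 0)) (T.h (T.h (M (nat_lit 18135119514684096511)) (T.h (P (nat_lit 0)) (P (nat_lit 71961381107280)))) (T.h (P (nat_lit 0)) (M (nat_lit 85814251092287))))) (T.h (T.h (T.h (P (nat_lit 0)) (P (nat_lit 79739785560276992))) (P (nat_lit 0))) (T.h (T.h (P (nat_lit 0)) (P (nat_lit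 25603466475168))) (P (nat_lit 0)))))))), (T.h (T.h (T.h (M (nat_lit 3388291302366962560366419116031)) (T.h (P (nat_lit 0)) (T.h (M (nat_lit 52973080057366503088979967)) (T.h (P (nat_lit 0)) (M (nat_lit 201408859984088793087)))))) (T.h (P (nat_lit 0)) (T.h (T.h (P (nat_lit 4983474547258667095293952)) (T.h (P (nat_lit 0)) (M (nat_lit 91053075213775273983)))) (T.h (P (nat_lit 0)) (P (nat_lit 5571827366197460992)))))) (T.h (T.h (P (nat_lit 0)) (T.h (T.h (P (nat_lit 0)) (T.h (P (nat_lit 130518322924367101558784)) (T.h (P (nat_lit 0)) (M (nat_lit 179461911432396799))))) (T.h (P (nat_lit 0)) (T.h (T.h (P (nat_lit 0)) (M (nat_lit 28954197942730751))) (P (nat_lit 0)))))) (T.h (T.h (T.h (P (nat_lit 4983474547258667095293952)) (T.h (P (nat_lit 0)) (M (nat_lit 91053075213775273983)))) (T.h (P (nat_lit 0)) (M (nat_lit 46072855600505552895)))) (T.h (T.h (P (nat_lit 0)) (T.h (T.h (P (nat_lit 0)) (M (nat_lit 28954197942730751))) (P (nat_lit 0)))) (P (nat_lit 5571827366197460992))))))]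
def lP12_11 : List (T ℤ) := [(P (nat_lit 0)), (P (nat_lit 0)), (T.h (T.h (P (nat_lit 0)) (T.h (T.h (P (nat_lit 0)) (T.h (P (nat_lit 17751721323428791827038208)) (T.h (P (nat_lit 0)) (T.h (M (nat_lit 26548923151796928511)) (T.h (P (nat_lit 0)) (M (nat_lit 68755797256303))))))) (T.h (P (nat_lit 0)) (T.h (T.h (P (nat_lit 0)) (T.h (M (nat_lit 26548923151796928511)) (T.h (P (nat_lit 0)) (M (nat_lit 351489962257887))))) (T.h (P (nat_lit 0)) (T.h (T.h (P (nat_lit 0)) (M (nat_lit 68755797256303))) (P (nat_lit 0)))))))) (T.h (T.h (T.h (P (nat_lit 14383368854768177539719364608)) (T.h (P (nat_lit 0)) (T.h (M (nat_lit 28255227665323952963583)) (T.h (P (nat_lit 0)) (P (nat_lit 63992593008689152)))))) (T.h (P (nat_lit 0)) (T.h (T.h (M (nat_lit 28255227665323952963583)) (T.h (P (nat_lit 0)) (M (nat_lit 361315451952037887)))) (T.h (P (nat_lit 0)) (P (nat_lit 63992593008689152)))))) (T.h (T.h (P (nat_lit 0)) (T.h (T.h (P (nat_lit 0)) (T.h (M (nat_lit 12180618487835656191))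 (T.h (P (nat_lit 0)) (P (nat_lit 459106922291616))))) (T.h (P (nat_lit 0)) (T.h (T.h (P (nat_lit 0)) (P (nat_lit 459106922291616))) (P (nat_lit 0)))))) (T.h (T.h (T.h (M (nat_lit 2204895729563765571583)) (T.h (P (nat_lit 0)) (P (nat_lit 103600643223912448)))) (T.h (P (nat_lit 0)) (P (nat_lit 103600643223912448)))) (T.h (T.h (P (nat_lit 0)) (T.h (T.h (P (nat_lit 0)) (P (nat_lit 133115458075168))) (P (nat_lit 0)))) (P (nat_lit 3366261452439552))))))), (T.h (T.h (P (nat_lit 0)) (T.h (T.h (P (nat_lit 11401952711144634565808619520)) (T.h (P (nat_lit 0)) (T.h (P (nat_lit 89621593371965055303680)) (T.h (P (nat_lit 0)) (P (nat_lit 92959733253701632)))))) (T.h (P (nat_lit 0)) (T.h (T.h (M (nat_lit 349580771751851196415)) (T.h (P (nat_lit 0)) (P (nat_lit 387135896393826304)))) (T.h (P (nat_lit 0)) (M (nat_lit 25174507732271103))))))) (T.h (T.h (T.h (P (nat_lit 0)) (T.h (P (nat_lit 3580340693341382729793536)) (T.h (P (nat_lit 0)) (T.h (M (nat_lit 276770331442141986815))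 (T.h (P (nat_lit 0)) (M (nat_lit 12012813532351))))))) (T.h (P (nat_lit 0)) (T.h (T.h (P (nat_lit 0)) (T.h (M (nat_lit 52911668563758022655)) (T.h (P (nat_lit 0)) (P (nat_lit 254418358177664))))) (T.h (P (nat_lit 0)) (T.h (T.h (P (nat_lit 0)) (P (nat_lit 54023327974512))) (P (nat_lit 0))))))) (T.h (T.h (P (nat_lit 0)) (T.h (T.h (P (nat_lit 9211029130427594964992)) (T.h (P (nat_lit 0)) (M (nat_lit 948573949698473983)))) (T.h (P (nat_lit 0)) (P (nat_lit 82684409123340288))))) (T.h (T.h (T.h (P (nat_lit 0)) (T.h (M (nat_lit 135983825542308691967)) (T.h (P (nat_lit 0)) (M (nat_lit 7866646795423))))) (T.h (P (nat_lit 0)) (T.h (T.h (P (nat_lit 0)) (P (nat_lit 90268290434928))) (P (nat_lit 0))))) (T.h (T.h (P (nat_lit 0)) (P (nat_lit 157045282990014464))) (T.h (T.h (T.h (P (nat_lit 0)) (M (nat_lit 4685423447423))) (P (nat_lit 0))) (P (nat_lit 0)))))))), (T.h (T.h (P (nat_lit 0)) (T.h (T.h (P (nat_lit 0)) (T.h (M (nat_lit 88614557123075867716616191)) (T.h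 (P (nat_lit 0)) (T.h (P (nat_lit 586494375463995047936)) (T.h (P (nat_lit 0)) (M (nat_lit 89014422257279))))))) (T.h (P (nat_lit 0)) (T.h (T.h (P (nat_lit 0)) (T.h (M (nat_lit 469440068562184044543)) (T.h (P (nat_lit 0)) (P (nat_lit 222868762305024))))) (T.h (P (nat_lit 0)) (T.h (T.h (P (nat_lit 0)) (P (nat_lit 31462978248624))) (P (nat_lit 0)))))))) (T.h (T.h (T.h (M (nat_lit 12106372421215092815507226623)) (T.h (P (nat_lit 0)) (T.h (P (nat_lit 119788175964218549338112)) (T.h (P (nat_lit 0)) (M (nat_lit 164159950647459839)))))) (T.h (P (nat_lit 0)) (T.h (T.h (P (nat_lit 17873834729670193446912)) (T.h (P (nat_lit 0)) (P (nat_lit 221299440755998720)))) (T.h (P (nat_lit 0)) (P (nat_lit 166398288740450304)))))) (T.h (T.h (P (nat_lit 0)) (T.h (T.h (P (nat_lit 0)) (T.h (P (nat_lit 85900289087704662016)) (T.h (P (nat_lit 0)) (M (nat_lit 326692463252447))))) (T.h (P (nat_lit 0)) (T.h (T.h (P (nat_lit 0)) (P (nat_lit 151194672219024))) (P (nat_lit 0))))))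 (T.h (T.h (T.h (P (nat_lit 17126852439200931774464)) (T.h (P (nat_lit 0)) (M (nat_lit 392548806175031295)))) (T.h (P (nat_lit 0)) (M (nat_lit 103684974163230719)))) (T.h (T.h (P (nat_lit 0)) (T.h (T.h (P (nat_lit 0)) (M (nat_lit 168082866176879))) (P (nat_lit 0)))) (M (nat_lit 24422967481958399))))))), (T.h (T.h (P (nat_lit 0)) (T.h (T.h (M (nat_lit 10238001575438095358980259839)) (T.h (P (nat_lit 0)) (T.h (M (nat_lit 148288026953148786540543)) (T.h (P (nat_lit 0)) (P (nat_lit 391068373448163328)))))) (T.h (P (nat_lit 0)) (T.h (T.h (P (nat_lit 4498526712991768903680)) (T.h (P (nat_lit 0)) (M (nat_lit 902612114225659903)))) (T.h (P (nat_lit 0)) (M (nat_lit 5867200945930239))))))) (T.h (T.h (T.h (P (nat_lit 0)) (T.h (M (nat_lit 65918469378897187897868287)) (T.h (P (nat_lit 0)) (T.h (M (nat_lit 204190865734695387135)) (T.h (P (nat_lit 0)) (P (nat_lit 88368910367184))))))) (T.h (P (nat_lit 0)) (T.h (T.h (P (nat_lit 0)) (T.h (M (nat_lit 115437795602681823231))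 (T.h (P (nat_lit 0)) (P (nat_lit 480696106885200))))) (T.h (P (nat_lit 0)) (T.h (T.h (P (nat_lit 0)) (M (nat_lit 212902374284207))) (P (nat_lit 0))))))) (T.h (T.h (P (nat_lit 0)) (T.h (T.h (M (nat_lit 32773840107748108271615)) (T.h (P (nat_lit 0)) (P (nat_lit 519943386516488192)))) (T.h (P (nat_lit 0)) (M (nat_lit 13902498383790079))))) (T.h (T.h (T.h (P (nat_lit 0)) (T.h (P (nat_lit 258219709894464897024)) (T.h (P (nat_lit 0)) (M (nat_lit 40308873541055))))) (T.h (P (nat_lit 0)) (T.h (T.h (P (nat_lit 0)) (P (nat_lit 135400654107216))) (P (nat_lit 0))))) (T.h (T.h (P (nat_lit 0)) (P (nat_lit 105856962375598080))) (T.h (T.h (T.h (P (nat_lit 0)) (P (nat_lit 6090557697360))) (P (nat_lit 0))) (P (nat_lit 0)))))))), (T.h (T.h (P (nat_lit 0)) (T.h (T.h (P (nat_lit 0)) (T.h (P (nat_lit 15532778243652765473570816)) (T.h (P (nat_lit 0)) (M (nat_lit 292461774379792990207))))) (T.h (P (nat_lit 0)) (T.h (T.h (P (nat_lit 0)) (P (nat_lit 372027013451330093056)))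 (P (nat_lit 0)))))) (T.h (T.h (T.h (M (nat_lit 2802544089202721518058995711)) (T.h (P (nat_lit 0)) (T.h (P (nat_lit 219226733783414827122688)) (T.h (P (nat_lit 0)) (M (nat_lit 111197562056900607)))))) (T.h (P (nat_lit 0)) (T.h (T.h (M (nat_lit 11334887043216479092735)) (T.h (P (nat_lit 0)) (M (nat_lit 307064400049864703)))) (T.h (P (nat_lit 0)) (P (nat_lit 17610523673985024)))))) (T.h (T.h (P (nat_lit 0)) (T.h (T.h (P (nat_lit 0)) (M (nat_lit 132783142035194380287))) (P (nat_lit 0)))) (T.h (T.h (T.h (P (nat_lit 11706436078456893603840)) (T.h (P (nat_lit 0)) (P (nat_lit 48128141689192448)))) (T.h (P (nat_lit 0)) (P (nat_lit 64870222751039488)))) (T.h (P (nat_lit 0)) (M (nat_lit 10301442286452735))))))), (P (nat_lit 0))]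
def lP12_12 : List (T ℤ) := [(P (nat_lit 0)), (T.h (T.h (T.h (P (nat_lit 475214081464947901198254473216)) (T.h (P (nat_lit 0)) (T.h (P (nat_lit 3346260494601365217083392)) (T.h (P (nat_lit 0)) (T.h (P (nat_lit 19016633475181576192)) (T.h (P (nat_lit 0)) (P (nat_lit 5458878372848)))))))) (T.h (P (nat_lit 0)) (T.h (T.h (P (nat_lit 37247088745040058599342080)) (T.h (P (nat_lit 0)) (T.h (M (nat_lit 5243834607618490367)) (T.h (P (nat_lit 0)) (P (nat_lit 92126323019536)))))) (T.h (P (nat_lit 0)) (T.h (T.h (M (nat_lit 21124525332694564863)) (T.h (P (nat_lit 0)) (P (nat_lit 48587070187736)))) (T.h (P (nat_lit 0)) (M (nat_lit 7480607679111)))))))) (T.h (T.h (P (nat_lit 0)) (T.h (T.h (P (nat_lit 0)) (T.h (M (nat_lit 55547824106086263160831)) (T.h (P (nat_lit 0)) (P (nat_lit 114390405195464704))))) (T.h (P (nat_lit 0)) (T.h (T.h (P (nat_lit 0)) (M (nat_lit 429099701349842943))) (P (nat_lit 0)))))) (T.h (T.h (T.h (M (nat_lit 6189195976925428683112447)) (T.h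 (P (nat_lit 0)) (T.h (P (nat_lit 14235072140389908480)) (T.h (P (nat_lit 0)) (P (nat_lit 25589825143936)))))) (T.h (P (nat_lit 0)) (T.h (T.h (M (nat_lit 123927887910134611967)) (T.h (P (nat_lit 0)) (P (nat_lit 111166722223736)))) (T.h (P (nat_lit 0)) (M (nat_lit 81247845784671)))))) (T.h (T.h (P (nat_lit 0)) (T.h (T.h (P (nat_lit 0)) (M (nat_lit 122394752511705087))) (P (nat_lit 0)))) (T.h (T.h (T.h (M (nat_lit 863781634636251135)) (T.h (P (nat_lit 0)) (M (nat_lit 23960649306735)))) (T.h (P (nat_lit 0)) (P (nat_lit 45204537813296)))) (T.h (P (nat_lit 0)) (M (nat_lit 377765856063)))))))), (T.h (T.h (T.h (P (nat_lit 0)) (T.h (P (nat_lit 11401952711144634565808619520)) (T.h (P (nat_lit 0)) (T.h (M (nat_lit 349580771751851196415)) (T.h (P (nat_lit 0)) (M (nat_lit 25174507732271103))))))) (T.h (P (nat_lit 0)) (T.h (T.h (P (nat_lit 0)) (T.h (P (nat_lit 89621593371965055303680)) (T.h (P (nat_lit 0)) (P (nat_lit 387135896393826304))))) (T.h (P (nat_lit 0))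 (T.h (T.h (P (nat_lit 0)) (P (nat_lit 92959733253701632))) (P (nat_lit 0))))))) (T.h (T.h (P (nat_lit 0)) (T.h (T.h (P (nat_lit 3580340693341382729793536)) (T.h (P (nat_lit 0)) (T.h (M (nat_lit 52911668563758022655)) (T.h (P (nat_lit 0)) (P (nat_lit 54023327974512)))))) (T.h (P (nat_lit 0)) (T.h (T.h (M (nat_lit 276770331442141986815)) (T.h (P (nat_lit 0)) (P (nat_lit 254418358177664)))) (T.h (P (nat_lit 0)) (M (nat_lit 12012813532351))))))) (T.h (T.h (T.h (P (nat_lit 0)) (T.h (P (nat_lit 9211029130427594964992)) (T.h (P (nat_lit 0)) (P (nat_lit 82684409123340288))))) (T.h (P (nat_lit 0)) (T.h (T.h (P (nat_lit 0)) (M (nat_lit 948573949698473983))) (P (nat_lit 0))))) (T.h (T.h (P (nat_lit 0)) (T.h (T.h (M (nat_lit 135983825542308691967)) (T.h (P (nat_lit 0)) (P (nat_lit 90268290434928)))) (T.h (P (nat_lit 0)) (M (nat_lit 7866646795423))))) (T.h (T.h (T.h (P (nat_lit 0)) (P (nat_lit 157045282990014464))) (P (nat_lit 0))) (T.h (T.h (P (nat_lit 0)) (M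 (nat_lit 4685423447423))) (P (nat_lit 0)))))))), (T.h (T.h (T.h (M (nat_lit 851272596110149998887372324863)) (T.h (P (nat_lit 0)) (T.h (M (nat_lit 100103639638101717984215039)) (T.h (P (nat_lit 0)) (T.h (M (nat_lit 521916859606955458559)) (T.h (P (nat_lit 0)) (M (nat_lit 31513377938015)))))))) (T.h (P (nat_lit 0)) (T.h (T.h (M (nat_lit 100103639638101717984215039)) (T.h (P (nat_lit 0)) (T.h (M (nat_lit 148602608935352926207)) (T.h (P (nat_lit 0)) (M (nat_lit 143720920917935)))))) (T.h (P (nat_lit 0)) (T.h (T.h (M (nat_lit 521916859606955458559)) (T.h (P (nat_lit 0)) (M (nat_lit 143720920917935)))) (T.h (P (nat_lit 0)) (M (nat_lit 31513377938015)))))))) (T.h (T.h (P (nat_lit 0)) (T.h (T.h (P (nat_lit 0)) (T.h (P (nat_lit 108238888629147831107584)) (T.h (P (nat_lit 0)) (M (nat_lit 817374251373756415))))) (T.h (P (nat_lit 0)) (T.h (T.h (P (nat_lit 0)) (M (nat_lit 817374251373756415))) (P (nat_lit 0)))))) (T.h (T.h (T.h (M (nat_lit 23188096804866667602509823))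 (T.h (P (nat_lit 0)) (T.h (M (nat_lit 33902181413122211839)) (T.h (P (nat_lit 0)) (P (nat_lit 117921880255536)))))) (T.h (P (nat_lit 0)) (T.h (T.h (M (nat_lit 33902181413122211839)) (T.h (P (nat_lit 0)) (M (nat_lit 21588494913791)))) (T.h (P (nat_lit 0)) (P (nat_lit 117921880255536)))))) (T.h (T.h (P (nat_lit 0)) (T.h (T.h (P (nat_lit 0)) (M (nat_lit 303228862671224831))) (P (nat_lit 0)))) (T.h (T.h (T.h (P (nat_lit 57736743200067944448)) (T.h (P (nat_lit 0)) (P (nat_lit 106034947275024)))) (T.h (P (nat_lit 0)) (P (nat_lit 106034947275024)))) (T.h (P (nat_lit 0)) (P (nat_lit 12514805647488)))))))), (T.h (T.h (T.h (P (nat_lit 0)) (T.h (P (nat_lit 20336825086277710617774129152)) (T.h (P (nat_lit 0)) (T.h (M (nat_lit 19845638658273772044287)) (T.h (P (nat_lit 0)) (M (nat_lit 172462478615511039))))))) (T.h (P (nat_lit 0)) (T.h (T.h (P (nat_lit 0)) (T.h (P (nat_lit 66911026800784601776128)) (T.h (P (nat_lit 0)) (M (nat_lit 162785966131183615))))) (T.h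 (P (nat_lit 0)) (T.h (T.h (P (nat_lit 0)) (M (nat_lit 135904604962209791))) (P (nat_lit 0))))))) (T.h (T.h (P (nat_lit 0)) (T.h (T.h (P (nat_lit 100406850484060940098600960)) (T.h (P (nat_lit 0)) (T.h (P (nat_lit 932873236081316724736)) (T.h (P (nat_lit 0)) (M (nat_lit 493402670761247)))))) (T.h (P (nat_lit 0)) (T.h (T.h (P (nat_lit 149060729167943827456)) (T.h (P (nat_lit 0)) (M (nat_lit 187314034551551)))) (T.h (P (nat_lit 0)) (P (nat_lit 8562378236832))))))) (T.h (T.h (T.h (P (nat_lit 0)) (T.h (M (nat_lit 35675785022990670888959)) (T.h (P (nat_lit 0)) (P (nat_lit 61532118309339136))))) (T.h (P (nat_lit 0)) (T.h (T.h (P (nat_lit 0)) (M (nat_lit 373595198247862271))) (P (nat_lit 0))))) (T.h (T.h (P (nat_lit 0)) (T.h (T.h (M (nat_lit 128456059387660730367)) (T.h (P (nat_lit 0)) (M (nat_lit 105852932695583)))) (T.h (P (nat_lit 0)) (P (nat_lit 79993172440224))))) (T.h (T.h (T.h (P (nat_lit 0)) (M (nat_lit 36241238331195391))) (P (nat_lit 0))) (T.h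 (T.h (P (nat_lit 0)) (M (nat_lit 59828803719263))) (P (nat_lit 0)))))))), (T.h (T.h (T.h (P (nat_lit 6956814252741079948443380613120)) (T.h (P (nat_lit 0)) (T.h (P (nat_lit 7835852522007655234928640)) (T.h (P (nat_lit 0)) (P (nat_lit 190603457277588406272)))))) (T.h (P (nat_lit 0)) (T.h (T.h (P (nat_lit 12512308161857980632924160)) (T.h (P (nat_lit 0)) (P (nat_lit 696574428408140791808)))) (T.h (P (nat_lit 0)) (P (nat_lit 31284549361191616512)))))) (T.h (T.h (P (nat_lit 0)) (T.h (T.h (P (nat_lit 0)) (T.h (M (nat_lit 245888729080067128295423)) (T.h (P (nat_lit 0)) (P (nat_lit 281155397963546624))))) (T.h (P (nat_lit 0)) (T.h (T.h (P (nat_lit 0)) (P (nat_lit 207377764562108416))) (P (nat_lit 0)))))) (T.h (T.h (T.h (P (nat_lit 9834762153925330696404992)) (T.h (P (nat_lit 0)) (M (nat_lit 83243563760396271615)))) (T.h (P (nat_lit 0)) (P (nat_lit 89162961353009266688)))) (T.h (T.h (P (nat_lit 0)) (T.h (T.h (P (nat_lit 0)) (P (nat_lit 200925852248375296)))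 (P (nat_lit 0)))) (M (nat_lit 907467354663813119)))))), (P (nat_lit 0)), (T.h (T.h (P (nat_lit 0)) (T.h (T.h (P (nat_lit 0)) (T.h (P (nat_lit 9184455792963520265453568)) (T.h (P (nat_lit 0)) (T.h (M (nat_lit 11592540265876815871)) (T.h (P (nat_lit 0)) (P (nat_lit 2262116823920))))))) (T.h (P (nat_lit 0)) (T.h (T.h (P (nat_lit 0)) (T.h (M (nat_lit 78604404839510179839)) (T.h (P (nat_lit 0)) (M (nat_lit 75003285348831))))) (T.h (P (nat_lit 0)) (T.h (T.h (P (nat_lit 0)) (P (nat_lit 161830934748688))) (P (nat_lit 0)))))))) (T.h (T.h (T.h (P (nat_lit 7395940778846952870901710848)) (T.h (P (nat_lit 0)) (T.h (M (nat_lit 2893136923030640918527)) (T.h (P (nat_lit 0)) (M (nat_lit 12378926751481855)))))) (T.h (P (nat_lit 0)) (T.h (T.h (M (nat_lit 18087220151951030222847)) (T.h (P (nat_lit 0)) (M (nat_lit 30966768096378879)))) (T.h (P (nat_lit 0)) (P (nat_lit 7239771379531776)))))) (T.h (T.h (P (nat_lit 0)) (T.h (T.h (P (nat_lit 0)) (T.h (P (nat_lit 9104868517496225792))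 (T.h (P (nat_lit 0)) (M (nat_lit 9290980362447))))) (T.h (P (nat_lit 0)) (T.h (T.h (P (nat_lit 0)) (M (nat_lit 180056617403567))) (P (nat_lit 0)))))) (T.h (T.h (T.h (P (nat_lit 11722092259820284411904)) (T.h (P (nat_lit 0)) (M (nat_lit 270668932186111)))) (T.h (P (nat_lit 0)) (P (nat_lit 66238411560845312)))) (T.h (T.h (P (nat_lit 0)) (T.h (T.h (P (nat_lit 0)) (P (nat_lit 42883541252624))) (P (nat_lit 0)))) (M (nat_lit 4296031324143615)))))))]
def lP12_13 : List (T ℤ) := [(T.h (T.h (P (nat_lit 0)) (T.h (T.h (M (nat_lit 13210451688327983842182823935)) (T.h (P (nat_lit 0)) (T.h (P (nat_lit 71268525060009716875264)) (T.h (P (nat_lit 0)) (M (nat_lit 77890511696707583)))))) (T.h (P (nat_lit 0)) (T.h (T.h (P (nat_lit 53049158737755864301568)) (T.h (P (nat_lit 0)) (P (nat_lit 142194421957574656)))) (T.h (P (nat_lit 0)) (M (nat_lit 33213642493526015))))))) (T.h (T.h (T.h (P (nat_lit 0)) (T.h (M (nat_lit 812139356238288361881599)) (T.h (P (nat_lit 0)) (T.h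 (P (nat_lit 14353739500201443328)) (T.h (P (nat_lit 0)) (M (nat_lit 12009131250063))))))) (T.h (P (nat_lit 0)) (T.h (T.h (P (nat_lit 0)) (T.h (P (nat_lit 686793345222343393280)) (T.h (P (nat_lit 0)) (M (nat_lit 5250374281359))))) (T.h (P (nat_lit 0)) (T.h (T.h (P (nat_lit 0)) (M (nat_lit 33739957894015))) (P (nat_lit 0))))))) (T.h (T.h (P (nat_lit 0)) (T.h (T.h (P (nat_lit 71268525060009716875264)) (T.h (P (nat_lit 0)) (M (nat_lit 82599042909241343)))) (T.h (P (nat_lit 0)) (P (nat_lit 142194421957574656))))) (T.h (T.h (T.h (P (nat_lit 0)) (T.h (P (nat_lit 14353739500201443328)) (T.h (P (nat_lit 0)) (P (nat_lit 15419168176256))))) (T.h (P (nat_lit 0)) (T.h (T.h (P (nat_lit 0)) (M (nat_lit 5250374281359))) (P (nat_lit 0))))) (T.h (T.h (P (nat_lit 0)) (M (nat_lit 77890511696707583))) (T.h (T.h (T.h (P (nat_lit 0)) (M (nat_lit 12009131250063))) (P (nat_lit 0))) (P (nat_lit 0)))))))), (T.h (T.h (P (nat_lit 0)) (T.h (T.h (P (nat_lit 0)) (T.h (M (nat_lit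 88614557123075867716616191)) (T.h (P (nat_lit 0)) (T.h (M (nat_lit 469440068562184044543)) (T.h (P (nat_lit 0)) (P (nat_lit 31462978248624))))))) (T.h (P (nat_lit 0)) (T.h (T.h (P (nat_lit 0)) (T.h (P (nat_lit 586494375463995047936)) (T.h (P (nat_lit 0)) (P (nat_lit 222868762305024))))) (T.h (P (nat_lit 0)) (T.h (T.h (P (nat_lit 0)) (M (nat_lit 89014422257279))) (P (nat_lit 0)))))))) (T.h (T.h (T.h (M (nat_lit 12106372421215092815507226623)) (T.h (P (nat_lit 0)) (T.h (P (nat_lit 17873834729670193446912)) (T.h (P (nat_lit 0)) (P (nat_lit 166398288740450304)))))) (T.h (P (nat_lit 0)) (T.h (T.h (P (nat_lit 119788175964218549338112)) (T.h (P (nat_lit 0)) (P (nat_lit 221299440755998720)))) (T.h (P (nat_lit 0)) (M (nat_lit 164159950647459839)))))) (T.h (T.h (P (nat_lit 0)) (T.h (T.h (P (nat_lit 0)) (T.h (P (nat_lit 85900289087704662016)) (T.h (P (nat_lit 0)) (P (nat_lit 151194672219024))))) (T.h (P (nat_lit 0)) (T.h (T.h (P (nat_lit 0)) (M (nat_lit 326692463252447)))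 (P (nat_lit 0)))))) (T.h (T.h (T.h (P (nat_lit 17126852439200931774464)) (T.h (P (nat_lit 0)) (M (nat_lit 103684974163230719)))) (T.h (P (nat_lit 0)) (M (nat_lit 392548806175031295)))) (T.h (T.h (P (nat_lit 0)) (T.h (T.h (P (nat_lit 0)) (M (nat_lit 168082866176879))) (P (nat_lit 0)))) (M (nat_lit 24422967481958399))))))), (T.h (T.h (P (nat_lit 0)) (T.h (T.h (P (nat_lit 20336825086277710617774129152)) (T.h (P (nat_lit 0)) (T.h (P (nat_lit 66911026800784601776128)) (T.h (P (nat_lit 0)) (M (nat_lit 135904604962209791)))))) (T.h (P (nat_lit 0)) (T.h (T.h (M (nat_lit 19845638658273772044287)) (T.h (P (nat_lit 0)) (M (nat_lit 162785966131183615)))) (T.h (P (nat_lit 0)) (M (nat_lit 172462478615511039))))))) (T.h (T.h (T.h (P (nat_lit 0)) (T.h (P (nat_lit 100406850484060940098600960)) (T.h (P (nat_lit 0)) (T.h (P (nat_lit 149060729167943827456)) (T.h (P (nat_lit 0)) (P (nat_lit 8562378236832))))))) (T.h (P (nat_lit 0)) (T.h (T.h (P (nat_lit 0)) (T.h (P (nat_lit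 932873236081316724736)) (T.h (P (nat_lit 0)) (M (nat_lit 187314034551551))))) (T.h (P (nat_lit 0)) (T.h (T.h (P (nat_lit 0)) (M (nat_lit 493402670761247))) (P (nat_lit 0))))))) (T.h (T.h (P (nat_lit 0)) (T.h (T.h (M (nat_lit 35675785022990670888959)) (T.h (P (nat_lit 0)) (M (nat_lit 373595198247862271)))) (T.h (P (nat_lit 0)) (P (nat_lit 61532118309339136))))) (T.h (T.h (T.h (P (nat_lit 0)) (T.h (M (nat_lit 128456059387660730367)) (T.h (P (nat_lit 0)) (P (nat_lit 79993172440224))))) (T.h (P (nat_lit 0)) (T.h (T.h (P (nat_lit 0)) (M (nat_lit 105852932695583))) (P (nat_lit 0))))) (T.h (T.h (P (nat_lit 0)) (M (nat_lit 36241238331195391))) (T.h (T.h (T.h (P (nat_lit 0)) (M (nat_lit 59828803719263))) (P (nat_lit 0))) (P (nat_lit 0)))))))), (T.h (T.h (P (nat_lit 0)) (T.h (T.h (P (nat_lit 0)) (T.h (P (nat_lit 82022475448791551103205376)) (T.h (P (nat_lit 0)) (P (nat_lit 285002259208458993664))))) (T.h (P (nat_lit 0)) (T.h (T.h (P (nat_lit 0)) (P (nat_lit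 285002259208458993664))) (P (nat_lit 0)))))) (T.h (T.h (T.h (M (nat_lit 23982801289164216537089835007)) (T.h (P (nat_lit 0)) (T.h (M (nat_lit 103457444550888944304127)) (T.h (P (nat_lit 0)) (P (nat_lit 83546188554764288)))))) (T.h (P (nat_lit 0)) (T.h (T.h (M (nat_lit 103457444550888944304127)) (T.h (P (nat_lit 0)) (P (nat_lit 105359980908511232)))) (T.h (P (nat_lit 0)) (P (nat_lit 83546188554764288)))))) (T.h (T.h (P (nat_lit 0)) (T.h (T.h (P (nat_lit 0)) (P (nat_lit 145578080354680438784))) (P (nat_lit 0)))) (T.h (T.h (T.h (M (nat_lit 40637152726621985177599)) (T.h (P (nat_lit 0)) (M (nat_lit 77636821944369151)))) (T.h (P (nat_lit 0)) (M (nat_lit 77636821944369151)))) (T.h (P (nat_lit 0)) (P (nat_lit 30478663296221184))))))), (T.h (T.h (T.h (P (nat_lit 522046432117407843054226767872)) (T.h (P (nat_lit 0)) (T.h (M (nat_lit 1652409091965458688507903)) (T.h (P (nat_lit 0)) (T.h (P (nat_lit 270336629850243072)) (T.h (P (nat_lit 0)) (M (nat_lit 448956233679))))))))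 (T.h (P (nat_lit 0)) (T.h (T.h (P (nat_lit 9751645110814865679712256)) (T.h (P (nat_lit 0)) (T.h (M (nat_lit 1573144585381609471)) (T.h (P (nat_lit 0)) (P (nat_lit 6319630687392)))))) (T.h (P (nat_lit 0)) (T.h (T.h (M (nat_lit 4962144670881677311)) (T.h (P (nat_lit 0)) (M (nat_lit 23450859319047)))) (T.h (P (nat_lit 0)) (P (nat_lit 3579694593136)))))))) (T.h (T.h (P (nat_lit 0)) (T.h (T.h (P (nat_lit 0)) (T.h (M (nat_lit 8135358549727220072447)) (T.h (P (nat_lit 0)) (M (nat_lit 3130256582475775))))) (T.h (P (nat_lit 0)) (T.h (T.h (P (nat_lit 0)) (M (nat_lit 25225031447609343))) (P (nat_lit 0)))))) (T.h (T.h (T.h (M (nat_lit 1652409091965458688507903)) (T.h (P (nat_lit 0)) (T.h (P (nat_lit 2455696032005095424)) (T.h (P (nat_lit 0)) (P (nat_lit 6471408321408)))))) (T.h (P (nat_lit 0)) (T.h (T.h (M (nat_lit 1573144585381609471)) (T.h (P (nat_lit 0)) (M (nat_lit 1830296143839)))) (T.h (P (nat_lit 0)) (M (nat_lit 23450859319047)))))) (T.h (T.h (P (nat_lit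 0)) (T.h (T.h (P (nat_lit 0)) (M (nat_lit 3130256582475775))) (P (nat_lit 0)))) (T.h (T.h (T.h (P (nat_lit 270336629850243072)) (T.h (P (nat_lit 0)) (P (nat_lit 6471408321408)))) (T.h (P (nat_lit 0)) (P (nat_lit 6319630687392)))) (T.h (P (nat_lit 0)) (M (nat_lit 448956233679)))))))), (T.h (T.h (T.h (P (nat_lit 0)) (T.h (P (nat_lit 2084092978544746558608375808)) (T.h (P (nat_lit 0)) (T.h (M (nat_lit 2445534956294129057791)) (T.h (P (nat_lit 0)) (P (nat_lit 2747498126852096))))))) (T.h (P (nat_lit 0)) (T.h (T.h (P (nat_lit 0)) (T.h (M (nat_lit 14112679512842935730175)) (T.h (P (nat_lit 0)) (P (nat_lit 3081846973022208))))) (T.h (P (nat_lit 0)) (T.h (T.h (P (nat_lit 0)) (M (nat_lit 145933282261073919))) (P (nat_lit 0))))))) (T.h (T.h (P (nat_lit 0)) (T.h (T.h (P (nat_lit 3505100089068918241492992)) (T.h (P (nat_lit 0)) (T.h (P (nat_lit 8688976552274165760)) (T.h (P (nat_lit 0)) (M (nat_lit 6391443606815)))))) (T.h (P (nat_lit 0)) (T.h (T.h (P (nat_lit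 83778115168194527232)) (T.h (P (nat_lit 0)) (P (nat_lit 19291176429520)))) (T.h (P (nat_lit 0)) (M (nat_lit 335941989346463))))))) (T.h (T.h (T.h (P (nat_lit 0)) (T.h (M (nat_lit 13105697841355797037055)) (T.h (P (nat_lit 0)) (M (nat_lit 10769564384280575))))) (T.h (P (nat_lit 0)) (T.h (T.h (P (nat_lit 0)) (M (nat_lit 45175380232437759))) (P (nat_lit 0))))) (T.h (T.h (P (nat_lit 0)) (T.h (T.h (M (nat_lit 3206093737427992575)) (T.h (P (nat_lit 0)) (P (nat_lit 7731991111936)))) (T.h (P (nat_lit 0)) (P (nat_lit 19834863972112))))) (T.h (T.h (T.h (P (nat_lit 0)) (M (nat_lit 21643633645551615))) (P (nat_lit 0))) (T.h (T.h (P (nat_lit 0)) (M (nat_lit 2171138809055))) (P (nat_lit 0)))))))), (T.h (T.h (T.h (M (nat_lit 6436085511988120188232421867519)) (T.h (P (nat_lit 0)) (T.h (P (nat_lit 53236657988114967311679488)) (T.h (P (nat_lit 0)) (T.h (M (nat_lit 27027727567988719615)) (T.h (P (nat_lit 0)) (M (nat_lit 1272585424271)))))))) (T.h (P (nat_lit 0)) (T.h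 (T.h (M (nat_lit 57996780265604484071161855)) (T.h (P (nat_lit 0)) (T.h (P (nat_lit 177881852320099074048)) (T.h (P (nat_lit 0)) (M (nat_lit 106775006108063)))))) (T.h (P (nat_lit 0)) (T.h (T.h (P (nat_lit 344759276099843653632)) (T.h (P (nat_lit 0)) (P (nat_lit 86654082495648)))) (T.h (P (nat_lit 0)) (P (nat_lit 5727466517568)))))))) (T.h (T.h (P (nat_lit 0)) (T.h (T.h (P (nat_lit 0)) (T.h (P (nat_lit 51542127015824839409664)) (T.h (P (nat_lit 0)) (M (nat_lit 149202190585757695))))) (T.h (P (nat_lit 0)) (T.h (T.h (P (nat_lit 0)) (P (nat_lit 1505972119523557376))) (P (nat_lit 0)))))) (T.h (T.h (T.h (P (nat_lit 1605945407322081193885696)) (T.h (P (nat_lit 0)) (T.h (M (nat_lit 4644904460370313215)) (T.h (P (nat_lit 0)) (M (nat_lit 54304868692991)))))) (T.h (P (nat_lit 0)) (T.h (T.h (P (nat_lit 225147087450552664064)) (T.h (P (nat_lit 0)) (M (nat_lit 51987151445087)))) (T.h (P (nat_lit 0)) (P (nat_lit 86654082495648)))))) (T.h (T.h (P (nat_lit 0)) (T.h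 (T.h (P (nat_lit 0)) (P (nat_lit 214832952255905792))) (P (nat_lit 0)))) (T.h (T.h (T.h (M (nat_lit 17948685967804071935)) (T.h (P (nat_lit 0)) (M (nat_lit 54304868692991)))) (T.h (P (nat_lit 0)) (M (nat_lit 106775006108063)))) (T.h (P (nat_lit 0)) (M (nat_lit 1272585424271)))))))), (T.h (T.h (T.h (P (nat_lit 0)) (T.h (M (nat_lit 10238001575438095358980259839)) (T.h (P (nat_lit 0)) (T.h (P (nat_lit 4498526712991768903680)) (T.h (P (nat_lit 0)) (M (nat_lit 5867200945930239))))))) (T.h (P (nat_lit 0)) (T.h (T.h (P (nat_lit 0)) (T.h (M (nat_lit 148288026953148786540543)) (T.h (P (nat_lit 0)) (M (nat_lit 902612114225659903))))) (T.h (P (nat_lit 0)) (T.h (T.h (P (nat_lit 0)) (P (nat_lit 391068373448163328))) (P (nat_lit 0))))))) (T.h (T.h (P (nat_lit 0)) (T.h (T.h (M (nat_lit 65918469378897187897868287)) (T.h (P (nat_lit 0)) (T.h (M (nat_lit 115437795602681823231)) (T.h (P (nat_lit 0)) (M (nat_lit 212902374284207)))))) (T.h (P (nat_lit 0)) (T.h (T.h (M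 (nat_lit 204190865734695387135)) (T.h (P (nat_lit 0)) (P (nat_lit 480696106885200)))) (T.h (P (nat_lit 0)) (P (nat_lit 88368910367184))))))) (T.h (T.h (T.h (P (nat_lit 0)) (T.h (M (nat_lit 32773840107748108271615)) (T.h (P (nat_lit 0)) (M (nat_lit 13902498383790079))))) (T.h (P (nat_lit 0)) (T.h (T.h (P (nat_lit 0)) (P (nat_lit 519943386516488192))) (P (nat_lit 0))))) (T.h (T.h (P (nat_lit 0)) (T.h (T.h (P (nat_lit 258219709894464897024)) (T.h (P (nat_lit 0)) (P (nat_lit 135400654107216)))) (T.h (P (nat_lit 0)) (M (nat_lit 40308873541055))))) (T.h (T.h (T.h (P (nat_lit 0)) (P (nat_lit 105856962375598080))) (P (nat_lit 0))) (T.h (T.h (P (nat_lit 0)) (P (nat_lit 6090557697360))) (P (nat_lit 0))))))))]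
def lP12_14 : List (T ℤ) := [(T.h (T.h (T.h (P (nat_lit 6956814252741079948443380613120)) (T.h (P (nat_lit 0)) (T.h (P (nat_lit 12512308161857980632924160)) (T.h (P (nat_lit 0)) (P (nat_lit 31284549361191616512)))))) (T.h (P (nat_lit 0)) (T.h (T.h (P (nat_lit 7835852522007655234928640)) (T.h (P (nat_lit 0)) (P (nat_lit 696574428408140791808)))) (T.h (P (nat_lit 0)) (P (nat_lit 190603457277588406272)))))) (T.h (T.h (P (nat_lit 0)) (T.h (T.h (P (nat_lit 0)) (T.h (M (nat_lit 245888729080067128295423)) (T.h (P (nat_lit 0)) (P (nat_lit 207377764562108416))))) (T.h (P (nat_lit 0)) (T.h (T.h (P (nat_lit 0)) (P (nat_lit 281155397963546624))) (P (nat_lit 0)))))) (T.h (T.h (T.h (P (nat_lit 9834762153925330696404992)) (T.h (P (nat_lit 0)) (P (nat_lit 89162961353009266688)))) (T.h (P (nat_lit 0)) (M (nat_lit 83243563760396271615)))) (T.h (T.h (P (nat_lit 0)) (T.h (T.h (P (nat_lit 0)) (P (nat_lit 200925852248375296))) (P (nat_lit 0)))) (M (nat_lit 907467354663813119)))))),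 (P (nat_lit 0)), (T.h (T.h (P (nat_lit 0)) (T.h (T.h (P (nat_lit 0)) (T.h (P (nat_lit 12509792448854331660173312)) (T.h (P (nat_lit 0)) (T.h (M (nat_lit 3316242623588466687)) (T.h (P (nat_lit 0)) (P (nat_lit 2088080913312))))))) (T.h (P (nat_lit 0)) (T.h (T.h (P (nat_lit 0)) (T.h (P (nat_lit 250920021223563853824)) (T.h (P (nat_lit 0)) (P (nat_lit 13347002066688))))) (T.h (P (nat_lit 0)) (T.h (T.h (P (nat_lit 0)) (M (nat_lit 98814136291871))) (P (nat_lit 0)))))))) (T.h (T.h (T.h (P (nat_lit 4992363921934833736638005248)) (T.h (P (nat_lit 0)) (T.h (P (nat_lit 1104352909414493061120)) (T.h (P (nat_lit 0)) (M (nat_lit 10403519732908031)))))) (T.h (P (nat_lit 0)) (T.h (T.h (M (nat_lit 51836025610812736405503)) (T.h (P (nat_lit 0)) (M (nat_lit 10589009514070015)))) (T.h (P (nat_lit 0)) (P (nat_lit 478618484742881280)))))) (T.h (T.h (P (nat_lit 0)) (T.h (T.h (P (nat_lit 0)) (T.h (M (nat_lit 424093938303893503)) (T.h (P (nat_lit 0)) (M (nat_lit 18427241446751)))))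 (T.h (P (nat_lit 0)) (T.h (T.h (P (nat_lit 0)) (M (nat_lit 31467877982927))) (P (nat_lit 0)))))) (T.h (T.h (T.h (M (nat_lit 17231472051953504092159)) (T.h (P (nat_lit 0)) (P (nat_lit 54793266947653632)))) (T.h (P (nat_lit 0)) (P (nat_lit 27309452927827968)))) (T.h (T.h (P (nat_lit 0)) (T.h (T.h (P (nat_lit 0)) (M (nat_lit 5796365101967))) (P (nat_lit 0)))) (P (nat_lit 9667660472385536))))))), (T.h (T.h (P (nat_lit 0)) (T.h (T.h (P (nat_lit 36998131545928357616738631680)) (T.h (P (nat_lit 0)) (T.h (M (nat_lit 90589036788935810875391)) (T.h (P (nat_lit 0)) (P (nat_lit 79739785560276992)))))) (T.h (P (nat_lit 0)) (T.h (T.h (M (nat_lit 3100395856076149358591)) (T.h (P (nat_lit 0)) (P (nat_lit 15382350327431168)))) (T.h (P (nat_lit 0)) (P (nat_lit 166287845529026560))))))) (T.h (T.h (T.h (P (nat_lit 0)) (T.h (M (nat_lit 53272160417920283098218495)) (T.h (P (nat_lit 0)) (T.h (M (nat_lit 18135119514684096511)) (T.h (P (nat_lit 0)) (P (nat_lit 25603466475168)))))))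 (T.h (P (nat_lit 0)) (T.h (T.h (P (nat_lit 0)) (T.h (M (nat_lit 1051264078816068239359)) (T.h (P (nat_lit 0)) (P (nat_lit 71961381107280))))) (T.h (P (nat_lit 0)) (T.h (T.h (P (nat_lit 0)) (P (nat_lit 354926245962528))) (P (nat_lit 0))))))) (T.h (T.h (P (nat_lit 0)) (T.h (T.h (M (nat_lit 90589036788935810875391)) (T.h (P (nat_lit 0)) (P (nat_lit 200668995862790144)))) (T.h (P (nat_lit 0)) (P (nat_lit 15382350327431168))))) (T.h (T.h (T.h (P (nat_lit 0)) (T.h (M (nat_lit 18135119514684096511)) (T.h (P (nat_lit 0)) (M (nat_lit 85814251092287))))) (T.h (P (nat_lit 0)) (T.h (T.h (P (nat_lit 0)) (P (nat_lit 71961381107280))) (P (nat_lit 0))))) (T.h (T.h (P (nat_lit 0)) (P (nat_lit 79739785560276992))) (T.h (T.h (T.h (P (nat_lit 0)) (P (nat_lit 25603466475168))) (P (nat_lit 0))) (P (nat_lit 0)))))))), (T.h (T.h (P (nat_lit 0)) (T.h (T.h (P (nat_lit 0)) (T.h (P (nat_lit 15532778243652765473570816)) (T.h (P (nat_lit 0)) (P (nat_lit 372027013451330093056)))))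 (T.h (P (nat_lit 0)) (T.h (T.h (P (nat_lit 0)) (M (nat_lit 292461774379792990207))) (P (nat_lit 0)))))) (T.h (T.h (T.h (M (nat_lit 2802544089202721518058995711)) (T.h (P (nat_lit 0)) (T.h (M (nat_lit 11334887043216479092735)) (T.h (P (nat_lit 0)) (P (nat_lit 17610523673985024)))))) (T.h (P (nat_lit 0)) (T.h (T.h (P (nat_lit 219226733783414827122688)) (T.h (P (nat_lit 0)) (M (nat_lit 307064400049864703)))) (T.h (P (nat_lit 0)) (M (nat_lit 111197562056900607)))))) (T.h (T.h (P (nat_lit 0)) (T.h (T.h (P (nat_lit 0)) (M (nat_lit 132783142035194380287))) (P (nat_lit 0)))) (T.h (T.h (T.h (P (nat_lit 11706436078456893603840)) (T.h (P (nat_lit 0)) (P (nat_lit 64870222751039488)))) (T.h (P (nat_lit 0)) (P (nat_lit 48128141689192448)))) (T.h (P (nat_lit 0)) (M (nat_lit 10301442286452735))))))), (T.h (T.h (T.h (P (nat_lit 485095236651568072757715402752)) (T.h (P (nat_lit 0)) (T.h (M (nat_lit 758126168194159579496447)) (T.h (P (nat_lit 0)) (M (nat_lit 1496852484168089599))))))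 (T.h (P (nat_lit 0)) (T.h (T.h (P (nat_lit 4327702559242284674580480)) (T.h (P (nat_lit 0)) (P (nat_lit 11427684792666161152)))) (T.h (P (nat_lit 0)) (M (nat_lit 16918107354484965375)))))) (T.h (T.h (P (nat_lit 0)) (T.h (T.h (P (nat_lit 0)) (T.h (P (nat_lit 4325368616586145955840)) (T.h (P (nat_lit 0)) (M (nat_lit 17603041707622399))))) (T.h (P (nat_lit 0)) (T.h (T.h (P (nat_lit 0)) (M (nat_lit 55632017914855423))) (P (nat_lit 0)))))) (T.h (T.h (T.h (M (nat_lit 758126168194159579496447)) (T.h (P (nat_lit 0)) (P (nat_lit 3496938403264462848)))) (T.h (P (nat_lit 0)) (P (nat_lit 11427684792666161152)))) (T.h (T.h (P (nat_lit 0)) (T.h (T.h (P (nat_lit 0)) (M (nat_lit 17603041707622399))) (P (nat_lit 0)))) (M (nat_lit 1496852484168089599)))))), (T.h (T.h (T.h (P (nat_lit 0)) (T.h (P (nat_lit 7613911020926650974465949696)) (T.h (P (nat_lit 0)) (T.h (P (nat_lit 3737831950392995348480)) (T.h (P (nat_lit 0)) (M (nat_lit 2662119321436159))))))) (T.h (P (nat_lit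 0)) (T.h (T.h (P (nat_lit 0)) (T.h (M (nat_lit 37608647712375417339903)) (T.h (P (nat_lit 0)) (M (nat_lit 15025593104400383))))) (T.h (P (nat_lit 0)) (T.h (T.h (P (nat_lit 0)) (P (nat_lit 288386959946383360))) (P (nat_lit 0))))))) (T.h (T.h (P (nat_lit 0)) (T.h (T.h (P (nat_lit 16770020288298499683909632)) (T.h (P (nat_lit 0)) (T.h (P (nat_lit 6148453346429632512)) (T.h (P (nat_lit 0)) (P (nat_lit 17575024374576)))))) (T.h (P (nat_lit 0)) (T.h (T.h (M (nat_lit 54436003502392082431)) (T.h (P (nat_lit 0)) (M (nat_lit 157763501468927)))) (T.h (P (nat_lit 0)) (P (nat_lit 310329193881600))))))) (T.h (T.h (T.h (P (nat_lit 0)) (T.h (P (nat_lit 856239061351264157696)) (T.h (P (nat_lit 0)) (P (nat_lit 18868985238323200))))) (T.h (P (nat_lit 0)) (T.h (T.h (P (nat_lit 0)) (M (nat_lit 11201544438792191))) (P (nat_lit 0))))) (T.h (T.h (P (nat_lit 0)) (T.h (T.h (M (nat_lit 24581911049941286911)) (T.h (P (nat_lit 0)) (M (nat_lit 43491366017423)))) (T.h (P (nat_lit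 0)) (M (nat_lit 15746492039039))))) (T.h (T.h (T.h (P (nat_lit 0)) (M (nat_lit 18543270365085695))) (P (nat_lit 0))) (T.h (T.h (P (nat_lit 0)) (M (nat_lit 3743196082991))) (P (nat_lit 0)))))))), (T.h (T.h (T.h (M (nat_lit 3388291302366962560366419116031)) (T.h (P (nat_lit 0)) (T.h (P (nat_lit 4983474547258667095293952)) (T.h (P (nat_lit 0)) (P (nat_lit 5571827366197460992)))))) (T.h (P (nat_lit 0)) (T.h (T.h (M (nat_lit 52973080057366503088979967)) (T.h (P (nat_lit 0)) (M (nat_lit 91053075213775273983)))) (T.h (P (nat_lit 0)) (M (nat_lit 201408859984088793087)))))) (T.h (T.h (P (nat_lit 0)) (T.h (T.h (P (nat_lit 0)) (T.h (P (nat_lit 130518322924367101558784)) (T.h (P (nat_lit 0)) (M (nat_lit 28954197942730751))))) (T.h (P (nat_lit 0)) (T.h (T.h (P (nat_lit 0)) (M (nat_lit 179461911432396799))) (P (nat_lit 0)))))) (T.h (T.h (T.h (P (nat_lit 4983474547258667095293952)) (T.h (P (nat_lit 0)) (M (nat_lit 46072855600505552895)))) (T.h (P (nat_lit 0)) (M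 (nat_lit 91053075213775273983)))) (T.h (T.h (P (nat_lit 0)) (T.h (T.h (P (nat_lit 0)) (M (nat_lit 28954197942730751))) (P (nat_lit 0)))) (P (nat_lit 5571827366197460992))))))]
def lP12_15 : List (T ℤ) := [(P (nat_lit 0)), (T.h (T.h (P (nat_lit 0)) (T.h (T.h (P (nat_lit 0)) (T.h (M (nat_lit 1761177201905144919228415)) (T.h (P (nat_lit 0)) (M (nat_lit 1424453042811437055))))) (T.h (P (nat_lit 0)) (T.h (T.h (P (nat_lit 0)) (M (nat_lit 159289274093619118079))) (P (nat_lit 0)))))) (T.h (T.h (T.h (M (nat_lit 1069719061105742419312246783)) (T.h (P (nat_lit 0)) (T.h (P (nat_lit 167114983961662586880)) (T.h (P (nat_lit 0)) (M (nat_lit 6948109256065023)))))) (T.h (P (nat_lit 0)) (T.h (T.h (M (nat_lit 9039233065320873721855)) (T.h (P (nat_lit 0)) (P (nat_lit 69713786696892416)))) (T.h (P (nat_lit 0)) (M (nat_lit 360924354560393215)))))) (T.h (T.h (P (nat_lit 0)) (T.h (T.h (P (nat_lit 0)) (P (nat_lit 13635200529196908544))) (P (nat_lit 0)))) (T.h (T.h (T.h (P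 (nat_lit 4810639926731932172288)) (T.h (P (nat_lit 0)) (P (nat_lit 3999072314753024)))) (T.h (P (nat_lit 0)) (M (nat_lit 9114228696940543)))) (T.h (P (nat_lit 0)) (P (nat_lit 189485684457472))))))), (P (nat_lit 0)), (P (nat_lit 0)), (P (nat_lit 0)), (P (nat_lit 0)), (T.h (T.h (P (nat_lit 0)) (T.h (T.h (P (nat_lit 6873193864679911287712382976)) (T.h (P (nat_lit 0)) (T.h (M (nat_lit 9384414878791603585023)) (T.h (P (nat_lit 0)) (P (nat_lit 36437602880520192)))))) (T.h (P (nat_lit 0)) (T.h (T.h (M (nat_lit 3754701811174032277503)) (T.h (P (nat_lit 0)) (P (nat_lit 41525760746487808)))) (T.h (P (nat_lit 0)) (P (nat_lit 4677000222834688))))))) (T.h (T.h (T.h (P (nat_lit 0)) (T.h (P (nat_lit 9280888221516465350639616)) (T.h (P (nat_lit 0)) (T.h (P (nat_lit 9768808894041161728)) (T.h (P (nat_lit 0)) (M (nat_lit 72808292049055))))))) (T.h (P (nat_lit 0)) (T.h (T.h (P (nat_lit 0)) (T.h (M (nat_lit 2762446404847665151)) (T.h (P (nat_lit 0)) (M (nat_lit 136915393458007)))))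 (T.h (P (nat_lit 0)) (T.h (T.h (P (nat_lit 0)) (P (nat_lit 10941602189080))) (P (nat_lit 0))))))) (T.h (T.h (P (nat_lit 0)) (T.h (T.h (M (nat_lit 6743806616513229619199)) (T.h (P (nat_lit 0)) (M (nat_lit 14532023233052671)))) (T.h (P (nat_lit 0)) (P (nat_lit 2192056952258560))))) (T.h (T.h (T.h (P (nat_lit 0)) (T.h (M (nat_lit 23013214939355545599)) (T.h (P (nat_lit 0)) (M (nat_lit 56867918880151))))) (T.h (P (nat_lit 0)) (T.h (T.h (P (nat_lit 0)) (M (nat_lit 50797737652343))) (P (nat_lit 0))))) (T.h (T.h (P (nat_lit 0)) (M (nat_lit 22499507783368703))) (T.h (T.h (T.h (P (nat_lit 0)) (P (nat_lit 6464364187728))) (P (nat_lit 0))) (P (nat_lit 0)))))))), (P (nat_lit 0))]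
def lP12_16 : List (T ℤ) := [(T.h (T.h (P (nat_lit 0)) (T.h (T.h (P (nat_lit 2837472879202454074931806208)) (T.h (P (nat_lit 0)) (T.h (M (nat_lit 17068991330832277831679)) (T.h (P (nat_lit 0)) (P (nat_lit 157367572159234048)))))) (T.h (P (nat_lit 0)) (T.h (T.h (P (nat_lit 2225755106163780747264)) (T.h (P (nat_lit 0)) (M (nat_lit 15421864423260159)))) (T.h (P (nat_lit 0)) (P (nat_lit 847106986934272))))))) (T.h (T.h (T.h (P (nat_lit 0)) (T.h (P (nat_lit 10126238877810838424518656)) (T.h (P (nat_lit 0)) (P (nat_lit 40285687438228062208))))) (T.h (P (nat_lit 0)) (T.h (T.h (P (nat_lit 0)) (P (nat_lit 11418868933801803776))) (P (nat_lit 0))))) (T.h (T.h (P (nat_lit 0)) (T.h (T.h (M (nat_lit 3370409462006217179135)) (T.h (P (nat_lit 0)) (P (nat_lit 19787015119929344)))) (T.h (P (nat_lit 0)) (P (nat_lit 16072999193575424))))) (T.h (T.h (T.h (P (nat_lit 0)) (M (nat_lit 17985989861290541055))) (P (nat_lit 0))) (T.h (T.h (P (nat_lit 0)) (M (nat_lit 24403326750719999)))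 (P (nat_lit 0))))))), (P (nat_lit 0)), (P (nat_lit 0)), (P (nat_lit 0)), (P (nat_lit 0)), (T.h (T.h (T.h (P (nat_lit 0)) (T.h (M (nat_lit 59159566017985959526662143)) (T.h (P (nat_lit 0)) (T.h (M (nat_lit 40260408801306026704895)) (T.h (P (nat_lit 0)) (P (nat_lit 42996634717421568))))))) (T.h (P (nat_lit 0)) (T.h (T.h (P (nat_lit 0)) (T.h (M (nat_lit 33804585320911596421119)) (T.h (P (nat_lit 0)) (P (nat_lit 52424892441755648))))) (T.h (P (nat_lit 0)) (T.h (T.h (P (nat_lit 0)) (P (nat_lit 73532966509641728))) (P (nat_lit 0))))))) (T.h (T.h (P (nat_lit 0)) (T.h (T.h (M (nat_lit 11931430186716239801352191)) (T.h (P (nat_lit 0)) (T.h (M (nat_lit 411463460964335091711)) (T.h (P (nat_lit 0)) (M (nat_lit 51895961136479)))))) (T.h (P (nat_lit 0)) (T.h (T.h (M (nat_lit 17881440641955659775)) (T.h (P (nat_lit 0)) (M (nat_lit 40630942463151)))) (T.h (P (nat_lit 0)) (P (nat_lit 17904904941216))))))) (T.h (T.h (T.h (P (nat_lit 0)) (T.h (M (nat_lit 1455040222796590350335))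 (T.h (P (nat_lit 0)) (M (nat_lit 122483976745517055))))) (T.h (P (nat_lit 0)) (T.h (T.h (P (nat_lit 0)) (P (nat_lit 116689073735041024))) (P (nat_lit 0))))) (T.h (T.h (P (nat_lit 0)) (T.h (T.h (M (nat_lit 1467638333784981503)) (T.h (P (nat_lit 0)) (P (nat_lit 29127202938792)))) (T.h (P (nat_lit 0)) (M (nat_lit 46387443623159))))) (T.h (T.h (T.h (P (nat_lit 0)) (P (nat_lit 228719127068672))) (P (nat_lit 0))) (T.h (T.h (P (nat_lit 0)) (P (nat_lit 19352350654176))) (P (nat_lit 0)))))))), (T.h (T.h (T.h (P (nat_lit 10240767002178687954892823199744)) (T.h (P (nat_lit 0)) (T.h (P (nat_lit 12058186289434892836012032)) (T.h (P (nat_lit 0)) (T.h (M (nat_lit 2233296166391382015)) (T.h (P (nat_lit 0)) (P (nat_lit 33595231580112)))))))) (T.h (P (nat_lit 0)) (T.h (T.h (P (nat_lit 1874529792743809499529216)) (T.h (P (nat_lit 0)) (T.h (M (nat_lit 51208003868654829567)) (T.h (P (nat_lit 0)) (P (nat_lit 52052519111328)))))) (T.h (P (nat_lit 0)) (T.h (T.h (M (nat_lit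 541262488075763711)) (T.h (P (nat_lit 0)) (M (nat_lit 4136082018047)))) (T.h (P (nat_lit 0)) (M (nat_lit 1226078413135)))))))) (T.h (T.h (P (nat_lit 0)) (T.h (T.h (P (nat_lit 0)) (T.h (P (nat_lit 9916637199665389895680)) (T.h (P (nat_lit 0)) (M (nat_lit 8549900743704575))))) (T.h (P (nat_lit 0)) (T.h (T.h (P (nat_lit 0)) (M (nat_lit 9230042037944319))) (P (nat_lit 0)))))) (T.h (T.h (T.h (M (nat_lit 4923473558923471130460159)) (T.h (P (nat_lit 0)) (T.h (P (nat_lit 65010833342637015040)) (T.h (P (nat_lit 0)) (M (nat_lit 19123657897535)))))) (T.h (P (nat_lit 0)) (T.h (T.h (P (nat_lit 7358800448335118336)) (T.h (P (nat_lit 0)) (M (nat_lit 23507951099487)))) (T.h (P (nat_lit 0)) (P (nat_lit 3880953721632)))))) (T.h (T.h (P (nat_lit 0)) (T.h (T.h (P (nat_lit 0)) (P (nat_lit 92963174163087360))) (P (nat_lit 0)))) (T.h (T.h (T.h (P (nat_lit 24525644828128575488)) (T.h (P (nat_lit 0)) (M (nat_lit 35834186439263)))) (T.h (P (nat_lit 0)) (M (nat_lit 2332677536639))))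 (T.h (P (nat_lit 0)) (P (nat_lit 5106811990464)))))))), (T.h (T.h (T.h (P (nat_lit 0)) (T.h (P (nat_lit 28371782736315504891667677184)) (T.h (P (nat_lit 0)) (T.h (M (nat_lit 64769810599410610995199)) (T.h (P (nat_lit 0)) (M (nat_lit 170560021942206463))))))) (T.h (P (nat_lit 0)) (T.h (T.h (P (nat_lit 0)) (T.h (P (nat_lit 31714879016636155691008)) (T.h (P (nat_lit 0)) (M (nat_lit 54574336340623359))))) (T.h (P (nat_lit 0)) (T.h (T.h (P (nat_lit 0)) (M (nat_lit 68192542009655295))) (P (nat_lit 0))))))) (T.h (T.h (P (nat_lit 0)) (T.h (T.h (M (nat_lit 35422558288032185511313407)) (T.h (P (nat_lit 0)) (T.h (M (nat_lit 8683759463485669375)) (T.h (P (nat_lit 0)) (M (nat_lit 154815030088991)))))) (T.h (P (nat_lit 0)) (T.h (T.h (M (nat_lit 9730026244254203903)) (T.h (P (nat_lit 0)) (P (nat_lit 6806561621472)))) (T.h (P (nat_lit 0)) (M (nat_lit 2216404253375))))))) (T.h (T.h (T.h (P (nat_lit 0)) (T.h (P (nat_lit 84153142073068175228928)) (T.h (P (nat_lit 0))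 (P (nat_lit 542945521337827328))))) (T.h (P (nat_lit 0)) (T.h (T.h (P (nat_lit 0)) (P (nat_lit 206290304403505152))) (P (nat_lit 0))))) (T.h (T.h (P (nat_lit 0)) (T.h (T.h (M (nat_lit 56236567447642046463)) (T.h (P (nat_lit 0)) (M (nat_lit 49743205508255)))) (T.h (P (nat_lit 0)) (M (nat_lit 3182115287471))))) (T.h (T.h (T.h (P (nat_lit 0)) (M (nat_lit 61395120192978943))) (P (nat_lit 0))) (T.h (T.h (P (nat_lit 0)) (P (nat_lit 18104669004960))) (P (nat_lit 0))))))))]
def lP12_17 : List (T ℤ) := [(T.h (T.h (T.h (M (nat_lit 7347284730981760738617207029759)) (T.h (P (nat_lit 0)) (T.h (M (nat_lit 24986163315578777425149951)) (T.h (P (nat_lit 0)) (T.h (P (nat_lit 14892719367979532288)) (T.h (P (nat_lit 0)) (M (nat_lit 1900902457007)))))))) (T.h (P (nat_lit 0)) (T.h (T.h (M (nat_lit 4210623603377640919007231)) (T.h (P (nat_lit 0)) (T.h (P (nat_lit 112178435325171859456)) (T.h (P (nat_lit 0)) (M (nat_lit 154054818207791)))))) (T.h (P (nat_lit 0)) (T.h (T.h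 (P (nat_lit 1445542280348827648)) (T.h (P (nat_lit 0)) (M (nat_lit 40633845785423)))) (T.h (P (nat_lit 0)) (P (nat_lit 2262664312560)))))))) (T.h (T.h (P (nat_lit 0)) (T.h (T.h (P (nat_lit 0)) (T.h (P (nat_lit 70258196730489203589120)) (T.h (P (nat_lit 0)) (P (nat_lit 262996897238188032))))) (T.h (P (nat_lit 0)) (T.h (T.h (P (nat_lit 0)) (P (nat_lit 12885981240885248))) (P (nat_lit 0)))))) (T.h (T.h (T.h (P (nat_lit 57923522351927671027400704)) (T.h (P (nat_lit 0)) (T.h (P (nat_lit 177177424402405392384)) (T.h (P (nat_lit 0)) (P (nat_lit 135693679464000)))))) (T.h (P (nat_lit 0)) (T.h (T.h (M (nat_lit 2352003625896640511)) (T.h (P (nat_lit 0)) (M (nat_lit 154284181097903)))) (T.h (P (nat_lit 0)) (M (nat_lit 40758030476063)))))) (T.h (T.h (P (nat_lit 0)) (T.h (T.h (P (nat_lit 0)) (P (nat_lit 47568789769158656))) (P (nat_lit 0)))) (T.h (T.h (T.h (M (nat_lit 29989453987150036991)) (T.h (P (nat_lit 0)) (M (nat_lit 29246983189487)))) (T.h (P (nat_lit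 0)) (P (nat_lit 3747522647088)))) (T.h (P (nat_lit 0)) (M (nat_lit 12383001643247)))))))), (T.h (T.h (T.h (P (nat_lit 0)) (T.h (P (nat_lit 5938840239767262457329876992)) (T.h (P (nat_lit 0)) (T.h (M (nat_lit 15260972577348049174527)) (T.h (P (nat_lit 0)) (M (nat_lit 68021766630866943))))))) (T.h (P (nat_lit 0)) (T.h (T.h (P (nat_lit 0)) (T.h (M (nat_lit 32448110580492473991167)) (T.h (P (nat_lit 0)) (P (nat_lit 176124080196288512))))) (T.h (P (nat_lit 0)) (T.h (T.h (P (nat_lit 0)) (P (nat_lit 14493620268662784))) (P (nat_lit 0))))))) (T.h (T.h (P (nat_lit 0)) (T.h (T.h (M (nat_lit 8121832179209592299847679)) (T.h (P (nat_lit 0)) (M (nat_lit 9408689513531703295)))) (T.h (P (nat_lit 0)) (M (nat_lit 6818117037345210367))))) (T.h (T.h (T.h (P (nat_lit 0)) (T.h (M (nat_lit 83505656668972851920895)) (T.h (P (nat_lit 0)) (M (nat_lit 112761797231247359))))) (T.h (P (nat_lit 0)) (T.h (T.h (P (nat_lit 0)) (P (nat_lit 99906550954229760))) (P (nat_lit 0)))))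 (T.h (T.h (P (nat_lit 0)) (P (nat_lit 18589109809936596992))) (T.h (T.h (T.h (P (nat_lit 0)) (P (nat_lit 17569552337108992))) (P (nat_lit 0))) (P (nat_lit 0))))))), (P (nat_lit 0)), (P (nat_lit 0)), (T.h (T.h (P (nat_lit 0)) (T.h (T.h (P (nat_lit 11779370410891469267132219392)) (T.h (P (nat_lit 0)) (T.h (M (nat_lit 40026912722014934401023)) (T.h (P (nat_lit 0)) (P (nat_lit 72370825468805120)))))) (T.h (P (nat_lit 0)) (T.h (T.h (M (nat_lit 27705549662774339043327)) (T.h (P (nat_lit 0)) (P (nat_lit 282633284752834560)))) (T.h (P (nat_lit 0)) (P (nat_lit 40974494829543424))))))) (T.h (T.h (T.h (P (nat_lit 0)) (T.h (P (nat_lit 2886515735054217186902016)) (T.h (P (nat_lit 0)) (T.h (P (nat_lit 11596648881386946560)) (T.h (P (nat_lit 0)) (P (nat_lit 149917206810360))))))) (T.h (P (nat_lit 0)) (T.h (T.h (P (nat_lit 0)) (T.h (M (nat_lit 243985432944184393727)) (T.h (P (nat_lit 0)) (P (nat_lit 358237252735888))))) (T.h (P (nat_lit 0)) (T.h (T.h (P (nat_lit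 0)) (P (nat_lit 10292915051792))) (P (nat_lit 0))))))) (T.h (T.h (P (nat_lit 0)) (T.h (T.h (M (nat_lit 5932309879301594939391)) (T.h (P (nat_lit 0)) (P (nat_lit 111434221579763712)))) (T.h (P (nat_lit 0)) (M (nat_lit 107487949404110847))))) (T.h (T.h (T.h (P (nat_lit 0)) (T.h (M (nat_lit 48321725330324717567)) (T.h (P (nat_lit 0)) (M (nat_lit 809626552007))))) (T.h (P (nat_lit 0)) (T.h (T.h (P (nat_lit 0)) (M (nat_lit 464181590305847))) (P (nat_lit 0))))) (T.h (T.h (P (nat_lit 0)) (P (nat_lit 9266819536093184))) (T.h (T.h (T.h (P (nat_lit 0)) (P (nat_lit 2098139838728))) (P (nat_lit 0))) (P (nat_lit 0)))))))), (T.h (T.h (P (nat_lit 0)) (T.h (T.h (P (nat_lit 0)) (T.h (P (nat_lit 3580340693341382729793536)) (T.h (P (nat_lit 0)) (T.h (M (nat_lit 276770331442141986815)) (T.h (P (nat_lit 0)) (M (nat_lit 12012813532351))))))) (T.h (P (nat_lit 0)) (T.h (T.h (P (nat_lit 0)) (T.h (M (nat_lit 135983825542308691967)) (T.h (P (nat_lit 0)) (M (nat_lit 7866646795423)))))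 (T.h (P (nat_lit 0)) (T.h (T.h (P (nat_lit 0)) (M (nat_lit 4685423447423))) (P (nat_lit 0)))))))) (T.h (T.h (T.h (P (nat_lit 11401952711144634565808619520)) (T.h (P (nat_lit 0)) (T.h (P (nat_lit 89621593371965055303680)) (T.h (P (nat_lit 0)) (P (nat_lit 92959733253701632)))))) (T.h (P (nat_lit 0)) (T.h (T.h (P (nat_lit 9211029130427594964992)) (T.h (P (nat_lit 0)) (M (nat_lit 948573949698473983)))) (T.h (P (nat_lit 0)) (P (nat_lit 157045282990014464)))))) (T.h (T.h (P (nat_lit 0)) (T.h (T.h (P (nat_lit 0)) (T.h (M (nat_lit 52911668563758022655)) (T.h (P (nat_lit 0)) (P (nat_lit 254418358177664))))) (T.h (P (nat_lit 0)) (T.h (T.h (P (nat_lit 0)) (P (nat_lit 90268290434928))) (P (nat_lit 0)))))) (T.h (T.h (T.h (M (nat_lit 349580771751851196415)) (T.h (P (nat_lit 0)) (P (nat_lit 387135896393826304)))) (T.h (P (nat_lit 0)) (P (nat_lit 82684409123340288)))) (T.h (T.h (P (nat_lit 0)) (T.h (T.h (P (nat_lit 0)) (P (nat_lit 54023327974512))) (P (nat_lit 0))))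 (M (nat_lit 25174507732271103))))))), (T.h (T.h (P (nat_lit 0)) (T.h (T.h (M (nat_lit 44380072546518822134487187455)) (T.h (P (nat_lit 0)) (T.h (M (nat_lit 321800299375544642830335)) (T.h (P (nat_lit 0)) (M (nat_lit 880439209502244863)))))) (T.h (P (nat_lit 0)) (T.h (T.h (M (nat_lit 39180900978900783333375)) (T.h (P (nat_lit 0)) (M (nat_lit 775386649666256895)))) (T.h (P (nat_lit 0)) (P (nat_lit 26052045196263424))))))) (T.h (T.h (T.h (P (nat_lit 0)) (T.h (M (nat_lit 89557057962358398607425535)) (T.h (P (nat_lit 0)) (T.h (M (nat_lit 569019218460827189247)) (T.h (P (nat_lit 0)) (M (nat_lit 89014422257279))))))) (T.h (P (nat_lit 0)) (T.h (T.h (P (nat_lit 0)) (T.h (P (nat_lit 65206070380821741568)) (T.h (P (nat_lit 0)) (M (nat_lit 326692463252447))))) (T.h (P (nat_lit 0)) (T.h (T.h (P (nat_lit 0)) (M (nat_lit 168082866176879))) (P (nat_lit 0))))))) (T.h (T.h (P (nat_lit 0)) (T.h (T.h (P (nat_lit 31051089851264274530304)) (T.h (P (nat_lit 0)) (M (nat_lit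 83395316704804863)))) (T.h (P (nat_lit 0)) (M (nat_lit 34290852836966399))))) (T.h (T.h (T.h (P (nat_lit 0)) (T.h (M (nat_lit 437074912647682457599)) (T.h (P (nat_lit 0)) (P (nat_lit 222868762305024))))) (T.h (P (nat_lit 0)) (T.h (T.h (P (nat_lit 0)) (P (nat_lit 151194672219024))) (P (nat_lit 0))))) (T.h (T.h (P (nat_lit 0)) (M (nat_lit 23908677420646399))) (T.h (T.h (T.h (P (nat_lit 0)) (P (nat_lit 31462978248624))) (P (nat_lit 0))) (P (nat_lit 0)))))))), (T.h (T.h (P (nat_lit 0)) (T.h (T.h (P (nat_lit 0)) (T.h (M (nat_lit 65918469378897187897868287)) (T.h (P (nat_lit 0)) (T.h (M (nat_lit 204190865734695387135)) (T.h (P (nat_lit 0)) (P (nat_lit 88368910367184))))))) (T.h (P (nat_lit 0)) (T.h (T.h (P (nat_lit 0)) (T.h (P (nat_lit 258219709894464897024)) (T.h (P (nat_lit 0)) (M (nat_lit 40308873541055))))) (T.h (P (nat_lit 0)) (T.h (T.h (P (nat_lit 0)) (P (nat_lit 6090557697360))) (P (nat_lit 0)))))))) (T.h (T.h (T.h (M (nat_lit 10238001575438095358980259839))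 (T.h (P (nat_lit 0)) (T.h (M (nat_lit 148288026953148786540543)) (T.h (P (nat_lit 0)) (P (nat_lit 391068373448163328)))))) (T.h (P (nat_lit 0)) (T.h (T.h (M (nat_lit 32773840107748108271615)) (T.h (P (nat_lit 0)) (P (nat_lit 519943386516488192)))) (T.h (P (nat_lit 0)) (P (nat_lit 105856962375598080)))))) (T.h (T.h (P (nat_lit 0)) (T.h (T.h (P (nat_lit 0)) (T.h (M (nat_lit 115437795602681823231)) (T.h (P (nat_lit 0)) (P (nat_lit 480696106885200))))) (T.h (P (nat_lit 0)) (T.h (T.h (P (nat_lit 0)) (P (nat_lit 135400654107216))) (P (nat_lit 0)))))) (T.h (T.h (T.h (P (nat_lit 4498526712991768903680)) (T.h (P (nat_lit 0)) (M (nat_lit 902612114225659903)))) (T.h (P (nat_lit 0)) (M (nat_lit 13902498383790079)))) (T.h (T.h (P (nat_lit 0)) (T.h (T.h (P (nat_lit 0)) (M (nat_lit 212902374284207))) (P (nat_lit 0)))) (M (nat_lit 5867200945930239)))))))]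
def lP12_18 : List (T ℤ) := [(T.h (T.h (P (nat_lit 0)) (T.h (T.h (M (nat_lit 2802544089202721518058995711)) (T.h (P (nat_lit 0)) (T.h (P (nat_lit 219226733783414827122688)) (T.h (P (nat_lit 0)) (M (nat_lit 111197562056900607)))))) (T.h (P (nat_lit 0)) (T.h (T.h (P (nat_lit 11706436078456893603840)) (T.h (P (nat_lit 0)) (P (nat_lit 48128141689192448)))) (T.h (P (nat_lit 0)) (M (nat_lit 10301442286452735))))))) (T.h (T.h (T.h (P (nat_lit 0)) (T.h (P (nat_lit 15532778243652765473570816)) (T.h (P (nat_lit 0)) (M (nat_lit 292461774379792990207))))) (T.h (P (nat_lit 0)) (T.h (T.h (P (nat_lit 0)) (M (nat_lit 132783142035194380287))) (P (nat_lit 0))))) (T.h (T.h (P (nat_lit 0)) (T.h (T.h (M (nat_lit 11334887043216479092735)) (T.h (P (nat_lit 0)) (M (nat_lit 307064400049864703)))) (T.h (P (nat_lit 0)) (P (nat_lit 64870222751039488))))) (T.h (T.h (T.h (P (nat_lit 0)) (P (nat_lit 372027013451330093056))) (P (nat_lit 0))) (T.h (T.h (P (nat_lit 0)) (P (nat_lit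 17610523673985024))) (P (nat_lit 0))))))), (P (nat_lit 0)), (P (nat_lit 0)), (T.h (T.h (T.h (P (nat_lit 0)) (T.h (P (nat_lit 11779370410891469267132219392)) (T.h (P (nat_lit 0)) (T.h (M (nat_lit 27705549662774339043327)) (T.h (P (nat_lit 0)) (P (nat_lit 40974494829543424))))))) (T.h (P (nat_lit 0)) (T.h (T.h (P (nat_lit 0)) (T.h (M (nat_lit 40026912722014934401023)) (T.h (P (nat_lit 0)) (P (nat_lit 282633284752834560))))) (T.h (P (nat_lit 0)) (T.h (T.h (P (nat_lit 0)) (P (nat_lit 72370825468805120))) (P (nat_lit 0))))))) (T.h (T.h (P (nat_lit 0)) (T.h (T.h (P (nat_lit 2886515735054217186902016)) (T.h (P (nat_lit 0)) (T.h (M (nat_lit 243985432944184393727)) (T.h (P (nat_lit 0)) (P (nat_lit 10292915051792)))))) (T.h (P (nat_lit 0)) (T.h (T.h (P (nat_lit 11596648881386946560)) (T.h (P (nat_lit 0)) (P (nat_lit 358237252735888)))) (T.h (P (nat_lit 0)) (P (nat_lit 149917206810360))))))) (T.h (T.h (T.h (P (nat_lit 0)) (T.h (M (nat_lit 5932309879301594939391))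 (T.h (P (nat_lit 0)) (M (nat_lit 107487949404110847))))) (T.h (P (nat_lit 0)) (T.h (T.h (P (nat_lit 0)) (P (nat_lit 111434221579763712))) (P (nat_lit 0))))) (T.h (T.h (P (nat_lit 0)) (T.h (T.h (M (nat_lit 48321725330324717567)) (T.h (P (nat_lit 0)) (M (nat_lit 464181590305847)))) (T.h (P (nat_lit 0)) (M (nat_lit 809626552007))))) (T.h (T.h (T.h (P (nat_lit 0)) (P (nat_lit 9266819536093184))) (P (nat_lit 0))) (T.h (T.h (P (nat_lit 0)) (P (nat_lit 2098139838728))) (P (nat_lit 0)))))))), (T.h (T.h (T.h (P (nat_lit 11791259417210696447868832579584)) (T.h (P (nat_lit 0)) (T.h (M (nat_lit 12721339856258620687646719)) (T.h (P (nat_lit 0)) (T.h (P (nat_lit 13041875479626252288)) (T.h (P (nat_lit 0)) (M (nat_lit 14057967842495)))))))) (T.h (P (nat_lit 0)) (T.h (T.h (M (nat_lit 12721339856258620687646719)) (T.h (P (nat_lit 0)) (T.h (P (nat_lit 24881804792037376)) (T.h (P (nat_lit 0)) (M (nat_lit 97884385976735)))))) (T.h (P (nat_lit 0)) (T.h (T.h (P (nat_lit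 13041875479626252288)) (T.h (P (nat_lit 0)) (M (nat_lit 97884385976735)))) (T.h (P (nat_lit 0)) (M (nat_lit 14057967842495)))))))) (T.h (T.h (P (nat_lit 0)) (T.h (T.h (P (nat_lit 0)) (T.h (M (nat_lit 8421825983228606939135)) (T.h (P (nat_lit 0)) (M (nat_lit 25858157133561855))))) (T.h (P (nat_lit 0)) (T.h (T.h (P (nat_lit 0)) (M (nat_lit 25858157133561855))) (P (nat_lit 0)))))) (T.h (T.h (T.h (M (nat_lit 12721339856258620687646719)) (T.h (P (nat_lit 0)) (T.h (P (nat_lit 24881804792037376)) (T.h (P (nat_lit 0)) (M (nat_lit 97884385976735)))))) (T.h (P (nat_lit 0)) (T.h (P (nat_lit 24881804792037376)) (T.h (P (nat_lit 0)) (M (nat_lit 97884385976735)))))) (T.h (T.h (P (nat_lit 0)) (T.h (T.h (P (nat_lit 0)) (M (nat_lit 25858157133561855))) (P (nat_lit 0)))) (T.h (T.h (T.h (P (nat_lit 13041875479626252288)) (T.h (P (nat_lit 0)) (M (nat_lit 97884385976735)))) (T.h (P (nat_lit 0)) (M (nat_lit 97884385976735)))) (T.h (P (nat_lit 0)) (M (nat_lit 14057967842495)))))))),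 (T.h (T.h (T.h (P (nat_lit 0)) (T.h (M (nat_lit 46632152806054222740800405503)) (T.h (P (nat_lit 0)) (T.h (P (nat_lit 275122197786560038961152)) (T.h (P (nat_lit 0)) (P (nat_lit 383301275551170560))))))) (T.h (P (nat_lit 0)) (T.h (T.h (P (nat_lit 0)) (T.h (M (nat_lit 316201727166631129382911)) (T.h (P (nat_lit 0)) (M (nat_lit 875828093917724671))))) (T.h (P (nat_lit 0)) (T.h (T.h (P (nat_lit 0)) (P (nat_lit 462215936299008000))) (P (nat_lit 0))))))) (T.h (T.h (P (nat_lit 0)) (T.h (T.h (P (nat_lit 64847394244780341862596608)) (T.h (P (nat_lit 0)) (T.h (P (nat_lit 1142545113596739715072)) (T.h (P (nat_lit 0)) (P (nat_lit 253017882193056)))))) (T.h (P (nat_lit 0)) (T.h (T.h (P (nat_lit 61023467119289827328)) (T.h (P (nat_lit 0)) (M (nat_lit 48692708683343)))) (T.h (P (nat_lit 0)) (M (nat_lit 100417924624655))))))) (T.h (T.h (T.h (P (nat_lit 0)) (T.h (P (nat_lit 149028243292438778609664)) (T.h (P (nat_lit 0)) (M (nat_lit 218777913218826239))))) (T.h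 (P (nat_lit 0)) (T.h (T.h (P (nat_lit 0)) (M (nat_lit 831642569344319487))) (P (nat_lit 0))))) (T.h (T.h (P (nat_lit 0)) (T.h (T.h (P (nat_lit 386628065538722496512)) (T.h (P (nat_lit 0)) (M (nat_lit 48692708683343)))) (T.h (P (nat_lit 0)) (P (nat_lit 64171149044832))))) (T.h (T.h (T.h (P (nat_lit 0)) (P (nat_lit 155245444970020864))) (P (nat_lit 0))) (T.h (T.h (P (nat_lit 0)) (M (nat_lit 100417924624655))) (P (nat_lit 0)))))))), (T.h (T.h (T.h (P (nat_lit 26694620568533267382008664817664)) (T.h (P (nat_lit 0)) (T.h (M (nat_lit 134482788679247571686785023)) (T.h (P (nat_lit 0)) (T.h (P (nat_lit 449272591550118887424)) (T.h (P (nat_lit 0)) (P (nat_lit 335070000742752)))))))) (T.h (P (nat_lit 0)) (T.h (T.h (M (nat_lit 19226144290654388509212671)) (T.h (P (nat_lit 0)) (T.h (M (nat_lit 289836485398545563647)) (T.h (P (nat_lit 0)) (M (nat_lit 140036581379231)))))) (T.h (P (nat_lit 0)) (T.h (T.h (P (nat_lit 29353630521129697280)) (T.h (P (nat_lit 0)) (P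 (nat_lit 48162526619760)))) (T.h (P (nat_lit 0)) (P (nat_lit 44261739818928)))))))) (T.h (T.h (P (nat_lit 0)) (T.h (T.h (P (nat_lit 0)) (T.h (M (nat_lit 718318553049811893878783)) (T.h (P (nat_lit 0)) (M (nat_lit 159383767652761599))))) (T.h (P (nat_lit 0)) (T.h (T.h (P (nat_lit 0)) (P (nat_lit 469099283300220928))) (P (nat_lit 0)))))) (T.h (T.h (T.h (M (nat_lit 19226144290654388509212671)) (T.h (P (nat_lit 0)) (T.h (M (nat_lit 289836485398545563647)) (T.h (P (nat_lit 0)) (M (nat_lit 140036581379231)))))) (T.h (P (nat_lit 0)) (T.h (T.h (P (nat_lit 454711437611958796288)) (T.h (P (nat_lit 0)) (P (nat_lit 140014755056160)))) (T.h (P (nat_lit 0)) (P (nat_lit 83994971528592)))))) (T.h (T.h (P (nat_lit 0)) (T.h (T.h (P (nat_lit 0)) (P (nat_lit 469099283300220928))) (P (nat_lit 0)))) (T.h (T.h (T.h (P (nat_lit 29353630521129697280)) (T.h (P (nat_lit 0)) (P (nat_lit 48162526619760)))) (T.h (P (nat_lit 0)) (P (nat_lit 83994971528592)))) (T.h (P (nat_lit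 0)) (P (nat_lit 44261739818928)))))))), (T.h (T.h (T.h (P (nat_lit 0)) (T.h (M (nat_lit 4579424526163621342888329215)) (T.h (P (nat_lit 0)) (T.h (M (nat_lit 85697005781413963759615)) (T.h (P (nat_lit 0)) (M (nat_lit 497699913998991359))))))) (T.h (P (nat_lit 0)) (T.h (T.h (P (nat_lit 0)) (T.h (P (nat_lit 248937398817884102197248)) (T.h (P (nat_lit 0)) (P (nat_lit 45596862977114112))))) (T.h (P (nat_lit 0)) (T.h (T.h (P (nat_lit 0)) (P (nat_lit 19598115853172736))) (P (nat_lit 0))))))) (T.h (T.h (P (nat_lit 0)) (T.h (T.h (P (nat_lit 39688469449529713359847424)) (T.h (P (nat_lit 0)) (P (nat_lit 34670609189121818624)))) (T.h (P (nat_lit 0)) (M (nat_lit 59325890128280289279))))) (T.h (T.h (T.h (P (nat_lit 0)) (T.h (P (nat_lit 248937398817884102197248)) (T.h (P (nat_lit 0)) (P (nat_lit 45596862977114112))))) (T.h (P (nat_lit 0)) (T.h (T.h (P (nat_lit 0)) (M (nat_lit 248589297153277951))) (P (nat_lit 0))))) (T.h (T.h (P (nat_lit 0)) (M (nat_lit 59325890128280289279)))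 (T.h (T.h (T.h (P (nat_lit 0)) (P (nat_lit 19598115853172736))) (P (nat_lit 0))) (P (nat_lit 0)))))))]
def lP12_19 : List (T ℤ) := [(P (nat_lit 0)), (T.h (T.h (P (nat_lit 0)) (T.h (T.h (M (nat_lit 59159566017985959526662143)) (T.h (P (nat_lit 0)) (T.h (M (nat_lit 33804585320911596421119)) (T.h (P (nat_lit 0)) (P (nat_lit 73532966509641728)))))) (T.h (P (nat_lit 0)) (T.h (T.h (M (nat_lit 40260408801306026704895)) (T.h (P (nat_lit 0)) (P (nat_lit 52424892441755648)))) (T.h (P (nat_lit 0)) (P (nat_lit 42996634717421568))))))) (T.h (T.h (T.h (P (nat_lit 0)) (T.h (M (nat_lit 11931430186716239801352191)) (T.h (P (nat_lit 0)) (T.h (M (nat_lit 17881440641955659775)) (T.h (P (nat_lit 0)) (P (nat_lit 17904904941216))))))) (T.h (P (nat_lit 0)) (T.h (T.h (P (nat_lit 0)) (T.h (M (nat_lit 411463460964335091711)) (T.h (P (nat_lit 0)) (M (nat_lit 40630942463151))))) (T.h (P (nat_lit 0)) (T.h (T.h (P (nat_lit 0)) (M (nat_lit 51895961136479))) (P (nat_lit 0)))))))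 (T.h (T.h (P (nat_lit 0)) (T.h (T.h (M (nat_lit 1455040222796590350335)) (T.h (P (nat_lit 0)) (P (nat_lit 116689073735041024)))) (T.h (P (nat_lit 0)) (M (nat_lit 122483976745517055))))) (T.h (T.h (T.h (P (nat_lit 0)) (T.h (M (nat_lit 1467638333784981503)) (T.h (P (nat_lit 0)) (M (nat_lit 46387443623159))))) (T.h (P (nat_lit 0)) (T.h (T.h (P (nat_lit 0)) (P (nat_lit 29127202938792))) (P (nat_lit 0))))) (T.h (T.h (P (nat_lit 0)) (P (nat_lit 228719127068672))) (T.h (T.h (T.h (P (nat_lit 0)) (P (nat_lit 19352350654176))) (P (nat_lit 0))) (P (nat_lit 0)))))))), (T.h (T.h (P (nat_lit 0)) (T.h (T.h (P (nat_lit 0)) (T.h (P (nat_lit 3580340693341382729793536)) (T.h (P (nat_lit 0)) (T.h (M (nat_lit 135983825542308691967)) (T.h (P (nat_lit 0)) (M (nat_lit 4685423447423))))))) (T.h (P (nat_lit 0)) (T.h (T.h (P (nat_lit 0)) (T.h (M (nat_lit 276770331442141986815)) (T.h (P (nat_lit 0)) (M (nat_lit 7866646795423))))) (T.h (P (nat_lit 0)) (T.h (T.h (P (nat_lit 0))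 (M (nat_lit 12012813532351))) (P (nat_lit 0)))))))) (T.h (T.h (T.h (P (nat_lit 11401952711144634565808619520)) (T.h (P (nat_lit 0)) (T.h (P (nat_lit 9211029130427594964992)) (T.h (P (nat_lit 0)) (P (nat_lit 157045282990014464)))))) (T.h (P (nat_lit 0)) (T.h (T.h (P (nat_lit 89621593371965055303680)) (T.h (P (nat_lit 0)) (M (nat_lit 948573949698473983)))) (T.h (P (nat_lit 0)) (P (nat_lit 92959733253701632)))))) (T.h (T.h (P (nat_lit 0)) (T.h (T.h (P (nat_lit 0)) (T.h (M (nat_lit 52911668563758022655)) (T.h (P (nat_lit 0)) (P (nat_lit 90268290434928))))) (T.h (P (nat_lit 0)) (T.h (T.h (P (nat_lit 0)) (P (nat_lit 254418358177664))) (P (nat_lit 0)))))) (T.h (T.h (T.h (M (nat_lit 349580771751851196415)) (T.h (P (nat_lit 0)) (P (nat_lit 82684409123340288)))) (T.h (P (nat_lit 0)) (P (nat_lit 387135896393826304)))) (T.h (T.h (P (nat_lit 0)) (T.h (T.h (P (nat_lit 0)) (P (nat_lit 54023327974512))) (P (nat_lit 0)))) (M (nat_lit 25174507732271103))))))), (T.h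 (T.h (P (nat_lit 0)) (T.h (T.h (M (nat_lit 46632152806054222740800405503)) (T.h (P (nat_lit 0)) (T.h (M (nat_lit 316201727166631129382911)) (T.h (P (nat_lit 0)) (P (nat_lit 462215936299008000)))))) (T.h (P (nat_lit 0)) (T.h (T.h (P (nat_lit 275122197786560038961152)) (T.h (P (nat_lit 0)) (M (nat_lit 875828093917724671)))) (T.h (P (nat_lit 0)) (P (nat_lit 383301275551170560))))))) (T.h (T.h (T.h (P (nat_lit 0)) (T.h (P (nat_lit 64847394244780341862596608)) (T.h (P (nat_lit 0)) (T.h (P (nat_lit 61023467119289827328)) (T.h (P (nat_lit 0)) (M (nat_lit 100417924624655))))))) (T.h (P (nat_lit 0)) (T.h (T.h (P (nat_lit 0)) (T.h (P (nat_lit 1142545113596739715072)) (T.h (P (nat_lit 0)) (M (nat_lit 48692708683343))))) (T.h (P (nat_lit 0)) (T.h (T.h (P (nat_lit 0)) (P (nat_lit 253017882193056))) (P (nat_lit 0))))))) (T.h (T.h (P (nat_lit 0)) (T.h (T.h (P (nat_lit 149028243292438778609664)) (T.h (P (nat_lit 0)) (M (nat_lit 831642569344319487)))) (T.h (P (nat_lit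 0)) (M (nat_lit 218777913218826239))))) (T.h (T.h (T.h (P (nat_lit 0)) (T.h (P (nat_lit 386628065538722496512)) (T.h (P (nat_lit 0)) (P (nat_lit 64171149044832))))) (T.h (P (nat_lit 0)) (T.h (T.h (P (nat_lit 0)) (M (nat_lit 48692708683343))) (P (nat_lit 0))))) (T.h (T.h (P (nat_lit 0)) (P (nat_lit 155245444970020864))) (T.h (T.h (T.h (P (nat_lit 0)) (M (nat_lit 100417924624655))) (P (nat_lit 0))) (P (nat_lit 0)))))))), (T.h (T.h (P (nat_lit 0)) (T.h (T.h (P (nat_lit 0)) (T.h (M (nat_lit 134101112029060039324991487)) (T.h (P (nat_lit 0)) (T.h (P (nat_lit 26738214426705395712)) (T.h (P (nat_lit 0)) (P (nat_lit 337671127368288))))))) (T.h (P (nat_lit 0)) (T.h (T.h (P (nat_lit 0)) (T.h (P (nat_lit 26738214426705395712)) (T.h (P (nat_lit 0)) (M (nat_lit 99566560820447))))) (T.h (P (nat_lit 0)) (T.h (T.h (P (nat_lit 0)) (P (nat_lit 337671127368288))) (P (nat_lit 0)))))))) (T.h (T.h (T.h (M (nat_lit 8308288978382796360953888767)) (T.h (P (nat_lit 0)) (T.h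 (M (nat_lit 177664058497552953114623)) (T.h (P (nat_lit 0)) (P (nat_lit 13452858803601408)))))) (T.h (P (nat_lit 0)) (T.h (T.h (M (nat_lit 177664058497552953114623)) (T.h (P (nat_lit 0)) (P (nat_lit 32248702210572288)))) (T.h (P (nat_lit 0)) (P (nat_lit 13452858803601408)))))) (T.h (T.h (P (nat_lit 0)) (T.h (T.h (P (nat_lit 0)) (T.h (P (nat_lit 635770060001731674112)) (T.h (P (nat_lit 0)) (M (nat_lit 850977363897935))))) (T.h (P (nat_lit 0)) (T.h (T.h (P (nat_lit 0)) (M (nat_lit 850977363897935))) (P (nat_lit 0)))))) (T.h (T.h (T.h (M (nat_lit 26840247345492137082879)) (T.h (P (nat_lit 0)) (P (nat_lit 169323206615777280)))) (T.h (P (nat_lit 0)) (P (nat_lit 169323206615777280)))) (T.h (T.h (P (nat_lit 0)) (T.h (T.h (P (nat_lit 0)) (M (nat_lit 439370500807583))) (P (nat_lit 0)))) (M (nat_lit 24413531669954559))))))), (T.h (T.h (P (nat_lit 0)) (T.h (T.h (P (nat_lit 8678397838319954379703058432)) (T.h (P (nat_lit 0)) (T.h (P (nat_lit 378592996281651543670784))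 (T.h (P (nat_lit 0)) (M (nat_lit 208185981911433215)))))) (T.h (P (nat_lit 0)) (T.h (T.h (P (nat_lit 74394072377337271287808)) (T.h (P (nat_lit 0)) (P (nat_lit 66756519374815232)))) (T.h (P (nat_lit 0)) (M (nat_lit 139219386486030335))))))) (T.h (T.h (T.h (P (nat_lit 0)) (T.h (M (nat_lit 96179261992023780361240575)) (T.h (P (nat_lit 0)) (P (nat_lit 6753330301906190336))))) (T.h (P (nat_lit 0)) (T.h (T.h (P (nat_lit 0)) (M (nat_lit 53604245851376451583))) (P (nat_lit 0))))) (T.h (T.h (P (nat_lit 0)) (T.h (T.h (M (nat_lit 341199079021657320325119)) (T.h (P (nat_lit 0)) (P (nat_lit 589473878395617280)))) (T.h (P (nat_lit 0)) (P (nat_lit 62581864780890112))))) (T.h (T.h (T.h (P (nat_lit 0)) (M (nat_lit 217121808635813429247))) (P (nat_lit 0))) (T.h (T.h (P (nat_lit 0)) (P (nat_lit 129826036928675840))) (P (nat_lit 0))))))), (T.h (T.h (T.h (P (nat_lit 0)) (T.h (P (nat_lit 6873193864679911287712382976)) (T.h (P (nat_lit 0)) (T.h (M (nat_lit 3754701811174032277503))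 (T.h (P (nat_lit 0)) (P (nat_lit 4677000222834688))))))) (T.h (P (nat_lit 0)) (T.h (T.h (P (nat_lit 0)) (T.h (M (nat_lit 9384414878791603585023)) (T.h (P (nat_lit 0)) (P (nat_lit 41525760746487808))))) (T.h (P (nat_lit 0)) (T.h (T.h (P (nat_lit 0)) (P (nat_lit 36437602880520192))) (P (nat_lit 0))))))) (T.h (T.h (P (nat_lit 0)) (T.h (T.h (P (nat_lit 9280888221516465350639616)) (T.h (P (nat_lit 0)) (T.h (M (nat_lit 2762446404847665151)) (T.h (P (nat_lit 0)) (P (nat_lit 10941602189080)))))) (T.h (P (nat_lit 0)) (T.h (T.h (P (nat_lit 9768808894041161728)) (T.h (P (nat_lit 0)) (M (nat_lit 136915393458007)))) (T.h (P (nat_lit 0)) (M (nat_lit 72808292049055))))))) (T.h (T.h (T.h (P (nat_lit 0)) (T.h (M (nat_lit 6743806616513229619199)) (T.h (P (nat_lit 0)) (P (nat_lit 2192056952258560))))) (T.h (P (nat_lit 0)) (T.h (T.h (P (nat_lit 0)) (M (nat_lit 14532023233052671))) (P (nat_lit 0))))) (T.h (T.h (P (nat_lit 0)) (T.h (T.h (M (nat_lit 23013214939355545599))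 (T.h (P (nat_lit 0)) (M (nat_lit 50797737652343)))) (T.h (P (nat_lit 0)) (M (nat_lit 56867918880151))))) (T.h (T.h (T.h (P (nat_lit 0)) (M (nat_lit 22499507783368703))) (P (nat_lit 0))) (T.h (T.h (P (nat_lit 0)) (P (nat_lit 6464364187728))) (P (nat_lit 0)))))))), (T.h (T.h (T.h (P (nat_lit 10240767002178687954892823199744)) (T.h (P (nat_lit 0)) (T.h (P (nat_lit 1874529792743809499529216)) (T.h (P (nat_lit 0)) (T.h (M (nat_lit 541262488075763711)) (T.h (P (nat_lit 0)) (M (nat_lit 1226078413135)))))))) (T.h (P (nat_lit 0)) (T.h (T.h (P (nat_lit 12058186289434892836012032)) (T.h (P (nat_lit 0)) (T.h (M (nat_lit 51208003868654829567)) (T.h (P (nat_lit 0)) (M (nat_lit 4136082018047)))))) (T.h (P (nat_lit 0)) (T.h (T.h (M (nat_lit 2233296166391382015)) (T.h (P (nat_lit 0)) (P (nat_lit 52052519111328)))) (T.h (P (nat_lit 0)) (P (nat_lit 33595231580112)))))))) (T.h (T.h (P (nat_lit 0)) (T.h (T.h (P (nat_lit 0)) (T.h (P (nat_lit 9916637199665389895680)) (T.h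 (P (nat_lit 0)) (M (nat_lit 9230042037944319))))) (T.h (P (nat_lit 0)) (T.h (T.h (P (nat_lit 0)) (M (nat_lit 8549900743704575))) (P (nat_lit 0)))))) (T.h (T.h (T.h (M (nat_lit 4923473558923471130460159)) (T.h (P (nat_lit 0)) (T.h (P (nat_lit 7358800448335118336)) (T.h (P (nat_lit 0)) (P (nat_lit 3880953721632)))))) (T.h (P (nat_lit 0)) (T.h (T.h (P (nat_lit 65010833342637015040)) (T.h (P (nat_lit 0)) (M (nat_lit 23507951099487)))) (T.h (P (nat_lit 0)) (M (nat_lit 19123657897535)))))) (T.h (T.h (P (nat_lit 0)) (T.h (T.h (P (nat_lit 0)) (P (nat_lit 92963174163087360))) (P (nat_lit 0)))) (T.h (T.h (T.h (P (nat_lit 24525644828128575488)) (T.h (P (nat_lit 0)) (M (nat_lit 2332677536639)))) (T.h (P (nat_lit 0)) (M (nat_lit 35834186439263)))) (T.h (P (nat_lit 0)) (P (nat_lit 5106811990464))))))))]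
def lP12_20 : List (T ℤ) := [(T.h (T.h (T.h (P (nat_lit 0)) (T.h (M (nat_lit 44380072546518822134487187455)) (T.h (P (nat_lit 0)) (T.h (M (nat_lit 39180900978900783333375)) (T.h (P (nat_lit 0)) (P (nat_lit 26052045196263424))))))) (T.h (P (nat_lit 0)) (T.h (T.h (P (nat_lit 0)) (T.h (M (nat_lit 321800299375544642830335)) (T.h (P (nat_lit 0)) (M (nat_lit 775386649666256895))))) (T.h (P (nat_lit 0)) (T.h (T.h (P (nat_lit 0)) (M (nat_lit 880439209502244863))) (P (nat_lit 0))))))) (T.h (T.h (P (nat_lit 0)) (T.h (T.h (M (nat_lit 89557057962358398607425535)) (T.h (P (nat_lit 0)) (T.h (P (nat_lit 65206070380821741568)) (T.h (P (nat_lit 0)) (M (nat_lit 168082866176879)))))) (T.h (P (nat_lit 0)) (T.h (T.h (M (nat_lit 569019218460827189247)) (T.h (P (nat_lit 0)) (M (nat_lit 326692463252447)))) (T.h (P (nat_lit 0)) (M (nat_lit 89014422257279))))))) (T.h (T.h (T.h (P (nat_lit 0)) (T.h (P (nat_lit 31051089851264274530304)) (T.h (P (nat_lit 0)) (M (nat_lit 34290852836966399)))))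 (T.h (P (nat_lit 0)) (T.h (T.h (P (nat_lit 0)) (M (nat_lit 83395316704804863))) (P (nat_lit 0))))) (T.h (T.h (P (nat_lit 0)) (T.h (T.h (M (nat_lit 437074912647682457599)) (T.h (P (nat_lit 0)) (P (nat_lit 151194672219024)))) (T.h (P (nat_lit 0)) (P (nat_lit 222868762305024))))) (T.h (T.h (T.h (P (nat_lit 0)) (M (nat_lit 23908677420646399))) (P (nat_lit 0))) (T.h (T.h (P (nat_lit 0)) (P (nat_lit 31462978248624))) (P (nat_lit 0)))))))), (T.h (T.h (T.h (P (nat_lit 26694620568533267382008664817664)) (T.h (P (nat_lit 0)) (T.h (M (nat_lit 19226144290654388509212671)) (T.h (P (nat_lit 0)) (T.h (P (nat_lit 29353630521129697280)) (T.h (P (nat_lit 0)) (P (nat_lit 44261739818928)))))))) (T.h (P (nat_lit 0)) (T.h (T.h (M (nat_lit 134482788679247571686785023)) (T.h (P (nat_lit 0)) (T.h (M (nat_lit 289836485398545563647)) (T.h (P (nat_lit 0)) (P (nat_lit 48162526619760)))))) (T.h (P (nat_lit 0)) (T.h (T.h (P (nat_lit 449272591550118887424)) (T.h (P (nat_lit 0))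 (M (nat_lit 140036581379231)))) (T.h (P (nat_lit 0)) (P (nat_lit 335070000742752)))))))) (T.h (T.h (P (nat_lit 0)) (T.h (T.h (P (nat_lit 0)) (T.h (M (nat_lit 718318553049811893878783)) (T.h (P (nat_lit 0)) (P (nat_lit 469099283300220928))))) (T.h (P (nat_lit 0)) (T.h (T.h (P (nat_lit 0)) (M (nat_lit 159383767652761599))) (P (nat_lit 0)))))) (T.h (T.h (T.h (M (nat_lit 19226144290654388509212671)) (T.h (P (nat_lit 0)) (T.h (P (nat_lit 454711437611958796288)) (T.h (P (nat_lit 0)) (P (nat_lit 83994971528592)))))) (T.h (P (nat_lit 0)) (T.h (T.h (M (nat_lit 289836485398545563647)) (T.h (P (nat_lit 0)) (P (nat_lit 140014755056160)))) (T.h (P (nat_lit 0)) (M (nat_lit 140036581379231)))))) (T.h (T.h (P (nat_lit 0)) (T.h (T.h (P (nat_lit 0)) (P (nat_lit 469099283300220928))) (P (nat_lit 0)))) (T.h (T.h (T.h (P (nat_lit 29353630521129697280)) (T.h (P (nat_lit 0)) (P (nat_lit 83994971528592)))) (T.h (P (nat_lit 0)) (P (nat_lit 48162526619760)))) (T.h (P (nat_lit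 0)) (P (nat_lit 44261739818928)))))))), (T.h (T.h (T.h (P (nat_lit 0)) (T.h (P (nat_lit 8678397838319954379703058432)) (T.h (P (nat_lit 0)) (T.h (P (nat_lit 74394072377337271287808)) (T.h (P (nat_lit 0)) (M (nat_lit 139219386486030335))))))) (T.h (P (nat_lit 0)) (T.h (T.h (P (nat_lit 0)) (T.h (P (nat_lit 378592996281651543670784)) (T.h (P (nat_lit 0)) (P (nat_lit 66756519374815232))))) (T.h (P (nat_lit 0)) (T.h (T.h (P (nat_lit 0)) (M (nat_lit 208185981911433215))) (P (nat_lit 0))))))) (T.h (T.h (P (nat_lit 0)) (T.h (T.h (M (nat_lit 96179261992023780361240575)) (T.h (P (nat_lit 0)) (M (nat_lit 53604245851376451583)))) (T.h (P (nat_lit 0)) (P (nat_lit 6753330301906190336))))) (T.h (T.h (T.h (P (nat_lit 0)) (T.h (M (nat_lit 341199079021657320325119)) (T.h (P (nat_lit 0)) (P (nat_lit 62581864780890112))))) (T.h (P (nat_lit 0)) (T.h (T.h (P (nat_lit 0)) (P (nat_lit 589473878395617280))) (P (nat_lit 0))))) (T.h (T.h (P (nat_lit 0)) (M (nat_lit 217121808635813429247)))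 (T.h (T.h (T.h (P (nat_lit 0)) (P (nat_lit 129826036928675840))) (P (nat_lit 0))) (P (nat_lit 0))))))), (P (nat_lit 0)), (T.h (T.h (P (nat_lit 0)) (T.h (T.h (P (nat_lit 28371782736315504891667677184)) (T.h (P (nat_lit 0)) (T.h (P (nat_lit 31714879016636155691008)) (T.h (P (nat_lit 0)) (M (nat_lit 68192542009655295)))))) (T.h (P (nat_lit 0)) (T.h (T.h (M (nat_lit 64769810599410610995199)) (T.h (P (nat_lit 0)) (M (nat_lit 54574336340623359)))) (T.h (P (nat_lit 0)) (M (nat_lit 170560021942206463))))))) (T.h (T.h (T.h (P (nat_lit 0)) (T.h (M (nat_lit 35422558288032185511313407)) (T.h (P (nat_lit 0)) (T.h (M (nat_lit 9730026244254203903)) (T.h (P (nat_lit 0)) (M (nat_lit 2216404253375))))))) (T.h (P (nat_lit 0)) (T.h (T.h (P (nat_lit 0)) (T.h (M (nat_lit 8683759463485669375)) (T.h (P (nat_lit 0)) (P (nat_lit 6806561621472))))) (T.h (P (nat_lit 0)) (T.h (T.h (P (nat_lit 0)) (M (nat_lit 154815030088991))) (P (nat_lit 0))))))) (T.h (T.h (P (nat_lit 0)) (T.h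 (T.h (P (nat_lit 84153142073068175228928)) (T.h (P (nat_lit 0)) (P (nat_lit 206290304403505152)))) (T.h (P (nat_lit 0)) (P (nat_lit 542945521337827328))))) (T.h (T.h (T.h (P (nat_lit 0)) (T.h (M (nat_lit 56236567447642046463)) (T.h (P (nat_lit 0)) (M (nat_lit 3182115287471))))) (T.h (P (nat_lit 0)) (T.h (T.h (P (nat_lit 0)) (M (nat_lit 49743205508255))) (P (nat_lit 0))))) (T.h (T.h (P (nat_lit 0)) (M (nat_lit 61395120192978943))) (T.h (T.h (T.h (P (nat_lit 0)) (P (nat_lit 18104669004960))) (P (nat_lit 0))) (P (nat_lit 0)))))))), (T.h (T.h (P (nat_lit 0)) (T.h (T.h (P (nat_lit 0)) (T.h (M (nat_lit 65918469378897187897868287)) (T.h (P (nat_lit 0)) (T.h (P (nat_lit 258219709894464897024)) (T.h (P (nat_lit 0)) (P (nat_lit 6090557697360))))))) (T.h (P (nat_lit 0)) (T.h (T.h (P (nat_lit 0)) (T.h (M (nat_lit 204190865734695387135)) (T.h (P (nat_lit 0)) (M (nat_lit 40308873541055))))) (T.h (P (nat_lit 0)) (T.h (T.h (P (nat_lit 0)) (P (nat_lit 88368910367184)))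 (P (nat_lit 0)))))))) (T.h (T.h (T.h (M (nat_lit 10238001575438095358980259839)) (T.h (P (nat_lit 0)) (T.h (M (nat_lit 32773840107748108271615)) (T.h (P (nat_lit 0)) (P (nat_lit 105856962375598080)))))) (T.h (P (nat_lit 0)) (T.h (T.h (M (nat_lit 148288026953148786540543)) (T.h (P (nat_lit 0)) (P (nat_lit 519943386516488192)))) (T.h (P (nat_lit 0)) (P (nat_lit 391068373448163328)))))) (T.h (T.h (P (nat_lit 0)) (T.h (T.h (P (nat_lit 0)) (T.h (M (nat_lit 115437795602681823231)) (T.h (P (nat_lit 0)) (P (nat_lit 135400654107216))))) (T.h (P (nat_lit 0)) (T.h (T.h (P (nat_lit 0)) (P (nat_lit 480696106885200))) (P (nat_lit 0)))))) (T.h (T.h (T.h (P (nat_lit 4498526712991768903680)) (T.h (P (nat_lit 0)) (M (nat_lit 13902498383790079)))) (T.h (P (nat_lit 0)) (M (nat_lit 902612114225659903)))) (T.h (T.h (P (nat_lit 0)) (T.h (T.h (P (nat_lit 0)) (M (nat_lit 212902374284207))) (P (nat_lit 0)))) (M (nat_lit 5867200945930239))))))), (T.h (T.h (P (nat_lit 0)) (T.h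 (T.h (M (nat_lit 4579424526163621342888329215)) (T.h (P (nat_lit 0)) (T.h (P (nat_lit 248937398817884102197248)) (T.h (P (nat_lit 0)) (P (nat_lit 19598115853172736)))))) (T.h (P (nat_lit 0)) (T.h (T.h (M (nat_lit 85697005781413963759615)) (T.h (P (nat_lit 0)) (P (nat_lit 45596862977114112)))) (T.h (P (nat_lit 0)) (M (nat_lit 497699913998991359))))))) (T.h (T.h (T.h (P (nat_lit 0)) (T.h (P (nat_lit 39688469449529713359847424)) (T.h (P (nat_lit 0)) (M (nat_lit 59325890128280289279))))) (T.h (P (nat_lit 0)) (T.h (T.h (P (nat_lit 0)) (P (nat_lit 34670609189121818624))) (P (nat_lit 0))))) (T.h (T.h (P (nat_lit 0)) (T.h (T.h (P (nat_lit 248937398817884102197248)) (T.h (P (nat_lit 0)) (M (nat_lit 248589297153277951)))) (T.h (P (nat_lit 0)) (P (nat_lit 45596862977114112))))) (T.h (T.h (T.h (P (nat_lit 0)) (M (nat_lit 59325890128280289279))) (P (nat_lit 0))) (T.h (T.h (P (nat_lit 0)) (P (nat_lit 19598115853172736))) (P (nat_lit 0))))))), (T.h (T.h (T.h (P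 (nat_lit 0)) (T.h (P (nat_lit 2837472879202454074931806208)) (T.h (P (nat_lit 0)) (T.h (P (nat_lit 2225755106163780747264)) (T.h (P (nat_lit 0)) (P (nat_lit 847106986934272))))))) (T.h (P (nat_lit 0)) (T.h (T.h (P (nat_lit 0)) (T.h (M (nat_lit 17068991330832277831679)) (T.h (P (nat_lit 0)) (M (nat_lit 15421864423260159))))) (T.h (P (nat_lit 0)) (T.h (T.h (P (nat_lit 0)) (P (nat_lit 157367572159234048))) (P (nat_lit 0))))))) (T.h (T.h (P (nat_lit 0)) (T.h (T.h (P (nat_lit 10126238877810838424518656)) (T.h (P (nat_lit 0)) (P (nat_lit 11418868933801803776)))) (T.h (P (nat_lit 0)) (P (nat_lit 40285687438228062208))))) (T.h (T.h (T.h (P (nat_lit 0)) (T.h (M (nat_lit 3370409462006217179135)) (T.h (P (nat_lit 0)) (P (nat_lit 16072999193575424))))) (T.h (P (nat_lit 0)) (T.h (T.h (P (nat_lit 0)) (P (nat_lit 19787015119929344))) (P (nat_lit 0))))) (T.h (T.h (P (nat_lit 0)) (M (nat_lit 17985989861290541055))) (T.h (T.h (T.h (P (nat_lit 0)) (M (nat_lit 24403326750719999)))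 (P (nat_lit 0))) (P (nat_lit 0)))))))]
def lP12_21 : List (T ℤ) := [(T.h (T.h (T.h (M (nat_lit 7347284730981760738617207029759)) (T.h (P (nat_lit 0)) (T.h (M (nat_lit 4210623603377640919007231)) (T.h (P (nat_lit 0)) (T.h (P (nat_lit 1445542280348827648)) (T.h (P (nat_lit 0)) (P (nat_lit 2262664312560)))))))) (T.h (P (nat_lit 0)) (T.h (T.h (M (nat_lit 24986163315578777425149951)) (T.h (P (nat_lit 0)) (T.h (P (nat_lit 112178435325171859456)) (T.h (P (nat_lit 0)) (M (nat_lit 40633845785423)))))) (T.h (P (nat_lit 0)) (T.h (T.h (P (nat_lit 14892719367979532288)) (T.h (P (nat_lit 0)) (M (nat_lit 154054818207791)))) (T.h (P (nat_lit 0)) (M (nat_lit 1900902457007)))))))) (T.h (T.h (P (nat_lit 0)) (T.h (T.h (P (nat_lit 0)) (T.h (P (nat_lit 70258196730489203589120)) (T.h (P (nat_lit 0)) (P (nat_lit 12885981240885248))))) (T.h (P (nat_lit 0)) (T.h (T.h (P (nat_lit 0)) (P (nat_lit 262996897238188032))) (P (nat_lit 0)))))) (T.h (T.h (T.h (P (nat_lit 57923522351927671027400704))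 (T.h (P (nat_lit 0)) (T.h (M (nat_lit 2352003625896640511)) (T.h (P (nat_lit 0)) (M (nat_lit 40758030476063)))))) (T.h (P (nat_lit 0)) (T.h (T.h (P (nat_lit 177177424402405392384)) (T.h (P (nat_lit 0)) (M (nat_lit 154284181097903)))) (T.h (P (nat_lit 0)) (P (nat_lit 135693679464000)))))) (T.h (T.h (P (nat_lit 0)) (T.h (T.h (P (nat_lit 0)) (P (nat_lit 47568789769158656))) (P (nat_lit 0)))) (T.h (T.h (T.h (M (nat_lit 29989453987150036991)) (T.h (P (nat_lit 0)) (P (nat_lit 3747522647088)))) (T.h (P (nat_lit 0)) (M (nat_lit 29246983189487)))) (T.h (P (nat_lit 0)) (M (nat_lit 12383001643247)))))))), (T.h (T.h (T.h (P (nat_lit 0)) (T.h (M (nat_lit 2802544089202721518058995711)) (T.h (P (nat_lit 0)) (T.h (P (nat_lit 11706436078456893603840)) (T.h (P (nat_lit 0)) (M (nat_lit 10301442286452735))))))) (T.h (P (nat_lit 0)) (T.h (T.h (P (nat_lit 0)) (T.h (P (nat_lit 219226733783414827122688)) (T.h (P (nat_lit 0)) (P (nat_lit 48128141689192448))))) (T.h (P (nat_lit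 0)) (T.h (T.h (P (nat_lit 0)) (M (nat_lit 111197562056900607))) (P (nat_lit 0))))))) (T.h (T.h (P (nat_lit 0)) (T.h (T.h (P (nat_lit 15532778243652765473570816)) (T.h (P (nat_lit 0)) (M (nat_lit 132783142035194380287)))) (T.h (P (nat_lit 0)) (M (nat_lit 292461774379792990207))))) (T.h (T.h (T.h (P (nat_lit 0)) (T.h (M (nat_lit 11334887043216479092735)) (T.h (P (nat_lit 0)) (P (nat_lit 64870222751039488))))) (T.h (P (nat_lit 0)) (T.h (T.h (P (nat_lit 0)) (M (nat_lit 307064400049864703))) (P (nat_lit 0))))) (T.h (T.h (P (nat_lit 0)) (P (nat_lit 372027013451330093056))) (T.h (T.h (T.h (P (nat_lit 0)) (P (nat_lit 17610523673985024))) (P (nat_lit 0))) (P (nat_lit 0))))))), (P (nat_lit 0)), (T.h (T.h (P (nat_lit 0)) (T.h (T.h (P (nat_lit 5938840239767262457329876992)) (T.h (P (nat_lit 0)) (T.h (M (nat_lit 32448110580492473991167)) (T.h (P (nat_lit 0)) (P (nat_lit 14493620268662784)))))) (T.h (P (nat_lit 0)) (T.h (T.h (M (nat_lit 15260972577348049174527))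 (T.h (P (nat_lit 0)) (P (nat_lit 176124080196288512)))) (T.h (P (nat_lit 0)) (M (nat_lit 68021766630866943))))))) (T.h (T.h (T.h (P (nat_lit 0)) (T.h (M (nat_lit 8121832179209592299847679)) (T.h (P (nat_lit 0)) (M (nat_lit 6818117037345210367))))) (T.h (P (nat_lit 0)) (T.h (T.h (P (nat_lit 0)) (M (nat_lit 9408689513531703295))) (P (nat_lit 0))))) (T.h (T.h (P (nat_lit 0)) (T.h (T.h (M (nat_lit 83505656668972851920895)) (T.h (P (nat_lit 0)) (P (nat_lit 99906550954229760)))) (T.h (P (nat_lit 0)) (M (nat_lit 112761797231247359))))) (T.h (T.h (T.h (P (nat_lit 0)) (P (nat_lit 18589109809936596992))) (P (nat_lit 0))) (T.h (T.h (P (nat_lit 0)) (P (nat_lit 17569552337108992))) (P (nat_lit 0))))))), (P (nat_lit 0)), (P (nat_lit 0)), (P (nat_lit 0)), (T.h (T.h (T.h (M (nat_lit 3870015373812671513756142927871)) (T.h (P (nat_lit 0)) (T.h (M (nat_lit 10770081596026253054312447)) (T.h (P (nat_lit 0)) (T.h (P (nat_lit 9487039978895572992)) (T.h (P (nat_lit 0))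 (P (nat_lit 1826553431592)))))))) (T.h (P (nat_lit 0)) (T.h (T.h (P (nat_lit 755077294296824536891392)) (T.h (P (nat_lit 0)) (T.h (P (nat_lit 3557524032414810112)) (T.h (P (nat_lit 0)) (M (nat_lit 23039435579455)))))) (T.h (P (nat_lit 0)) (T.h (T.h (M (nat_lit 6457243696533340159)) (T.h (P (nat_lit 0)) (M (nat_lit 25759402964335)))) (T.h (P (nat_lit 0)) (M (nat_lit 1603954262815)))))))) (T.h (T.h (P (nat_lit 0)) (T.h (T.h (P (nat_lit 0)) (T.h (P (nat_lit 49185464827115210801152)) (T.h (P (nat_lit 0)) (P (nat_lit 293380401129521152))))) (T.h (P (nat_lit 0)) (T.h (T.h (P (nat_lit 0)) (M (nat_lit 32582121263005695))) (P (nat_lit 0)))))) (T.h (T.h (T.h (P (nat_lit 20757188070640758137290752)) (T.h (P (nat_lit 0)) (T.h (P (nat_lit 91701502504528248832)) (T.h (P (nat_lit 0)) (P (nat_lit 116785106335720)))))) (T.h (P (nat_lit 0)) (T.h (T.h (M (nat_lit 10661217573271502847)) (T.h (P (nat_lit 0)) (P (nat_lit 57349274634808)))) (T.h (P (nat_lit 0)) (M (nat_lit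 33397600486543)))))) (T.h (T.h (P (nat_lit 0)) (T.h (T.h (P (nat_lit 0)) (P (nat_lit 43570629507317760))) (P (nat_lit 0)))) (T.h (T.h (T.h (M (nat_lit 7990465997452607487)) (T.h (P (nat_lit 0)) (M (nat_lit 37820487044175)))) (T.h (P (nat_lit 0)) (M (nat_lit 60640144419423)))) (T.h (P (nat_lit 0)) (P (nat_lit 3241983463696))))))))]
def lP12_22 : List (T ℤ) := [(P (nat_lit 0)), (T.h (T.h (T.h (M (nat_lit 4472005690308487417832501411839)) (T.h (P (nat_lit 0)) (T.h (M (nat_lit 48873342311847525152194559)) (T.h (P (nat_lit 0)) (P (nat_lit 90858598778798080000)))))) (T.h (P (nat_lit 0)) (T.h (T.h (P (nat_lit 6005619773784791837573120)) (T.h (P (nat_lit 0)) (M (nat_lit 17775447735399350271)))) (T.h (P (nat_lit 0)) (M (nat_lit 8712893511118094335)))))) (T.h (T.h (P (nat_lit 0)) (T.h (T.h (P (nat_lit 0)) (T.h (P (nat_lit 73517171073849392889856)) (T.h (P (nat_lit 0)) (P (nat_lit 523173056249331712))))) (T.h (P (nat_lit 0)) (T.h (T.h (P (nat_lit 0)) (M (nat_lit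 4325763083141119))) (P (nat_lit 0)))))) (T.h (T.h (T.h (P (nat_lit 29627661348588708182360064)) (T.h (P (nat_lit 0)) (P (nat_lit 33976568438373482496)))) (T.h (P (nat_lit 0)) (M (nat_lit 19868835911944896511)))) (T.h (T.h (P (nat_lit 0)) (T.h (T.h (P (nat_lit 0)) (M (nat_lit 48411323272921087))) (P (nat_lit 0)))) (P (nat_lit 5027664533615804416)))))), (P (nat_lit 0)), (P (nat_lit 0)), (P (nat_lit 0)), (P (nat_lit 0)), (T.h (T.h (P (nat_lit 0)) (T.h (T.h (P (nat_lit 0)) (T.h (M (nat_lit 36147032280788338571476991)) (T.h (P (nat_lit 0)) (T.h (P (nat_lit 25304311609465765888)) (T.h (P (nat_lit 0)) (P (nat_lit 12939538226688))))))) (T.h (P (nat_lit 0)) (T.h (T.h (P (nat_lit 0)) (T.h (M (nat_lit 14221513140029358079)) (T.h (P (nat_lit 0)) (M (nat_lit 16974078869663))))) (T.h (P (nat_lit 0)) (T.h (T.h (P (nat_lit 0)) (M (nat_lit 1376291221855))) (P (nat_lit 0)))))))) (T.h (T.h (T.h (P (nat_lit 2499382134411126130325061632)) (T.h (P (nat_lit 0)) (T.h (M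 (nat_lit 4248855928975818489855)) (T.h (P (nat_lit 0)) (M (nat_lit 55609775831711743)))))) (T.h (P (nat_lit 0)) (T.h (T.h (M (nat_lit 20655584721251405398015)) (T.h (P (nat_lit 0)) (P (nat_lit 254549611120492544)))) (T.h (P (nat_lit 0)) (P (nat_lit 54811430610075648)))))) (T.h (T.h (P (nat_lit 0)) (T.h (T.h (P (nat_lit 0)) (T.h (M (nat_lit 355024248056871649279)) (T.h (P (nat_lit 0)) (P (nat_lit 98494394722048))))) (T.h (P (nat_lit 0)) (T.h (T.h (P (nat_lit 0)) (P (nat_lit 116339099738960))) (P (nat_lit 0)))))) (T.h (T.h (T.h (P (nat_lit 6707065703746106294272)) (T.h (P (nat_lit 0)) (M (nat_lit 110212625729323007)))) (T.h (P (nat_lit 0)) (P (nat_lit 8144646357123072)))) (T.h (T.h (P (nat_lit 0)) (T.h (T.h (P (nat_lit 0)) (M (nat_lit 211414836108367))) (P (nat_lit 0)))) (M (nat_lit 44030939657076735))))))), (T.h (T.h (P (nat_lit 0)) (T.h (T.h (P (nat_lit 11020416314614742364347957248)) (T.h (P (nat_lit 0)) (T.h (M (nat_lit 12844806377626037911551))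 (T.h (P (nat_lit 0)) (P (nat_lit 73671756276744192)))))) (T.h (P (nat_lit 0)) (T.h (T.h (M (nat_lit 5737787604839604158463)) (T.h (P (nat_lit 0)) (P (nat_lit 38487973547999232)))) (T.h (P (nat_lit 0)) (P (nat_lit 437921507999744))))))) (T.h (T.h (T.h (P (nat_lit 0)) (T.h (M (nat_lit 21684869927939417095274495)) (T.h (P (nat_lit 0)) (T.h (M (nat_lit 206766406671320219647)) (T.h (P (nat_lit 0)) (P (nat_lit 16513881934288))))))) (T.h (P (nat_lit 0)) (T.h (T.h (P (nat_lit 0)) (T.h (M (nat_lit 12963444723204227071)) (T.h (P (nat_lit 0)) (P (nat_lit 48030240726480))))) (T.h (P (nat_lit 0)) (T.h (T.h (P (nat_lit 0)) (P (nat_lit 191230761875616))) (P (nat_lit 0))))))) (T.h (T.h (P (nat_lit 0)) (T.h (T.h (M (nat_lit 12844806377626037911551)) (T.h (P (nat_lit 0)) (M (nat_lit 6591774721277951)))) (T.h (P (nat_lit 0)) (P (nat_lit 38487973547999232))))) (T.h (T.h (T.h (P (nat_lit 0)) (T.h (M (nat_lit 206766406671320219647)) (T.h (P (nat_lit 0)) (M (nat_lit 399778677697119)))))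 (T.h (P (nat_lit 0)) (T.h (T.h (P (nat_lit 0)) (P (nat_lit 48030240726480))) (P (nat_lit 0))))) (T.h (T.h (P (nat_lit 0)) (P (nat_lit 73671756276744192))) (T.h (T.h (T.h (P (nat_lit 0)) (P (nat_lit 16513881934288))) (P (nat_lit 0))) (P (nat_lit 0))))))))]
def lP12_23 : List (T ℤ) := [(T.h (T.h (P (nat_lit 0)) (T.h (T.h (P (nat_lit 0)) (T.h (P (nat_lit 3860490306843599773368320)) (T.h (P (nat_lit 0)) (T.h (P (nat_lit 826713374134642933760)) (T.h (P (nat_lit 0)) (P (nat_lit 23220499327104))))))) (T.h (P (nat_lit 0)) (T.h (T.h (P (nat_lit 0)) (T.h (M (nat_lit 32958766399814107135)) (T.h (P (nat_lit 0)) (M (nat_lit 13428688508639))))) (T.h (P (nat_lit 0)) (T.h (T.h (P (nat_lit 0)) (P (nat_lit 453752910000))) (P (nat_lit 0)))))))) (T.h (T.h (T.h (P (nat_lit 26765068505143559668352679936)) (T.h (P (nat_lit 0)) (T.h (P (nat_lit 559872010998950408486912)) (T.h (P (nat_lit 0)) (P (nat_lit 705534120360509440)))))) (T.h (P (nat_lit 0)) (T.h (T.h (P (nat_lit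 68982737700613930352640)) (T.h (P (nat_lit 0)) (M (nat_lit 391411098654441471)))) (T.h (P (nat_lit 0)) (M (nat_lit 24595536273178623)))))) (T.h (T.h (P (nat_lit 0)) (T.h (T.h (P (nat_lit 0)) (T.h (M (nat_lit 95043439973573328895)) (T.h (P (nat_lit 0)) (M (nat_lit 85726898830271))))) (T.h (P (nat_lit 0)) (T.h (T.h (P (nat_lit 0)) (M (nat_lit 30149558717327))) (P (nat_lit 0)))))) (T.h (T.h (T.h (M (nat_lit 90114759164328279015423)) (T.h (P (nat_lit 0)) (M (nat_lit 570755567284879359)))) (T.h (P (nat_lit 0)) (P (nat_lit 29932464485761024)))) (T.h (T.h (P (nat_lit 0)) (T.h (T.h (P (nat_lit 0)) (P (nat_lit 37567969112640))) (P (nat_lit 0)))) (M (nat_lit 18162411321032703))))))), (T.h (T.h (P (nat_lit 0)) (T.h (T.h (M (nat_lit 3335675229011176419139518463)) (T.h (P (nat_lit 0)) (T.h (P (nat_lit 24602323935072788414464)) (T.h (P (nat_lit 0)) (P (nat_lit 227435957508997120)))))) (T.h (P (nat_lit 0)) (T.h (T.h (M (nat_lit 2556215325078874750975)) (T.h (P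 (nat_lit 0)) (M (nat_lit 16203078846971903)))) (T.h (P (nat_lit 0)) (P (nat_lit 3963771170832384))))))) (T.h (T.h (T.h (P (nat_lit 0)) (T.h (M (nat_lit 1974649089754001720737791)) (T.h (P (nat_lit 0)) (T.h (P (nat_lit 365582842032417669120)) (T.h (P (nat_lit 0)) (P (nat_lit 418099953986208))))))) (T.h (P (nat_lit 0)) (T.h (T.h (P (nat_lit 0)) (T.h (M (nat_lit 18276632113639849983)) (T.h (P (nat_lit 0)) (M (nat_lit 111663856591199))))) (T.h (P (nat_lit 0)) (T.h (T.h (P (nat_lit 0)) (M (nat_lit 235517594865407))) (P (nat_lit 0))))))) (T.h (T.h (P (nat_lit 0)) (T.h (T.h (M (nat_lit 7048662301444117889023)) (T.h (P (nat_lit 0)) (P (nat_lit 69244562661801984)))) (T.h (P (nat_lit 0)) (P (nat_lit 10764761764429824))))) (T.h (T.h (T.h (P (nat_lit 0)) (T.h (M (nat_lit 12150048673841020927)) (T.h (P (nat_lit 0)) (P (nat_lit 356919587573616))))) (T.h (P (nat_lit 0)) (T.h (T.h (P (nat_lit 0)) (P (nat_lit 157454749658304))) (P (nat_lit 0))))) (T.h (T.h (P (nat_lit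 0)) (M (nat_lit 55932866233335807))) (T.h (T.h (T.h (P (nat_lit 0)) (M (nat_lit 153484319177423))) (P (nat_lit 0))) (P (nat_lit 0)))))))), (T.h (T.h (P (nat_lit 0)) (T.h (T.h (P (nat_lit 0)) (T.h (M (nat_lit 11796831539250381828653055)) (T.h (P (nat_lit 0)) (M (nat_lit 201848382004607844351))))) (T.h (P (nat_lit 0)) (T.h (T.h (P (nat_lit 0)) (P (nat_lit 11447994264663883776))) (P (nat_lit 0)))))) (T.h (T.h (T.h (M (nat_lit 19010715559394962457480921087)) (T.h (P (nat_lit 0)) (T.h (M (nat_lit 337256168840861870718975)) (T.h (P (nat_lit 0)) (M (nat_lit 537460537767034879)))))) (T.h (P (nat_lit 0)) (T.h (T.h (M (nat_lit 4534848523537343315967)) (T.h (P (nat_lit 0)) (P (nat_lit 146445637852594176)))) (T.h (P (nat_lit 0)) (P (nat_lit 72142769679368192)))))) (T.h (T.h (P (nat_lit 0)) (T.h (T.h (P (nat_lit 0)) (P (nat_lit 27730665333827043328))) (P (nat_lit 0)))) (T.h (T.h (T.h (P (nat_lit 17167194726438533070848)) (T.h (P (nat_lit 0)) (M (nat_lit 217035851084890111))))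 (T.h (P (nat_lit 0)) (M (nat_lit 39240781425016831)))) (T.h (P (nat_lit 0)) (P (nat_lit 51833134429732864))))))), (P (nat_lit 0)), (P (nat_lit 0)), (T.h (T.h (T.h (M (nat_lit 4048326643155368503022664548351)) (T.h (P (nat_lit 0)) (T.h (P (nat_lit 6227726498767599011102720)) (T.h (P (nat_lit 0)) (T.h (M (nat_lit 44270853772950896639)) (T.h (P (nat_lit 0)) (M (nat_lit 10533085528607)))))))) (T.h (P (nat_lit 0)) (T.h (T.h (P (nat_lit 6227726498767599011102720)) (T.h (P (nat_lit 0)) (T.h (M (nat_lit 150019082702827814911)) (T.h (P (nat_lit 0)) (M (nat_lit 169213384407119)))))) (T.h (P (nat_lit 0)) (T.h (T.h (M (nat_lit 44270853772950896639)) (T.h (P (nat_lit 0)) (M (nat_lit 169213384407119)))) (T.h (P (nat_lit 0)) (M (nat_lit 10533085528607)))))))) (T.h (T.h (P (nat_lit 0)) (T.h (T.h (P (nat_lit 0)) (T.h (P (nat_lit 149465158704068313481216)) (T.h (P (nat_lit 0)) (M (nat_lit 322094916134895615))))) (T.h (P (nat_lit 0)) (T.h (T.h (P (nat_lit 0)) (M (nat_lit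 322094916134895615))) (P (nat_lit 0)))))) (T.h (T.h (T.h (P (nat_lit 506331005150784785481728)) (T.h (P (nat_lit 0)) (T.h (P (nat_lit 180439774376115568640)) (T.h (P (nat_lit 0)) (M (nat_lit 4943395198607)))))) (T.h (P (nat_lit 0)) (T.h (T.h (P (nat_lit 180439774376115568640)) (T.h (P (nat_lit 0)) (M (nat_lit 146927501944751)))) (T.h (P (nat_lit 0)) (M (nat_lit 4943395198607)))))) (T.h (T.h (P (nat_lit 0)) (T.h (T.h (P (nat_lit 0)) (P (nat_lit 1648812288648019968))) (P (nat_lit 0)))) (T.h (T.h (T.h (P (nat_lit 42910850529957511168)) (T.h (P (nat_lit 0)) (P (nat_lit 72707224535664)))) (T.h (P (nat_lit 0)) (P (nat_lit 72707224535664)))) (T.h (P (nat_lit 0)) (P (nat_lit 70513033815616)))))))), (T.h (T.h (T.h (P (nat_lit 0)) (T.h (P (nat_lit 11401952711144634565808619520)) (T.h (P (nat_lit 0)) (T.h (M (nat_lit 349580771751851196415)) (T.h (P (nat_lit 0)) (M (nat_lit 25174507732271103))))))) (T.h (P (nat_lit 0)) (T.h (T.h (P (nat_lit 0)) (T.h (P (nat_lit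 9211029130427594964992)) (T.h (P (nat_lit 0)) (P (nat_lit 82684409123340288))))) (T.h (P (nat_lit 0)) (T.h (T.h (P (nat_lit 0)) (P (nat_lit 157045282990014464))) (P (nat_lit 0))))))) (T.h (T.h (P (nat_lit 0)) (T.h (T.h (P (nat_lit 3580340693341382729793536)) (T.h (P (nat_lit 0)) (T.h (M (nat_lit 52911668563758022655)) (T.h (P (nat_lit 0)) (P (nat_lit 54023327974512)))))) (T.h (P (nat_lit 0)) (T.h (T.h (M (nat_lit 135983825542308691967)) (T.h (P (nat_lit 0)) (P (nat_lit 90268290434928)))) (T.h (P (nat_lit 0)) (M (nat_lit 4685423447423))))))) (T.h (T.h (T.h (P (nat_lit 0)) (T.h (P (nat_lit 89621593371965055303680)) (T.h (P (nat_lit 0)) (P (nat_lit 387135896393826304))))) (T.h (P (nat_lit 0)) (T.h (T.h (P (nat_lit 0)) (M (nat_lit 948573949698473983))) (P (nat_lit 0))))) (T.h (T.h (P (nat_lit 0)) (T.h (T.h (M (nat_lit 276770331442141986815)) (T.h (P (nat_lit 0)) (P (nat_lit 254418358177664)))) (T.h (P (nat_lit 0)) (M (nat_lit 7866646795423))))) (T.h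 (T.h (T.h (P (nat_lit 0)) (P (nat_lit 92959733253701632))) (P (nat_lit 0))) (T.h (T.h (P (nat_lit 0)) (M (nat_lit 12012813532351))) (P (nat_lit 0)))))))), (T.h (T.h (T.h (P (nat_lit 12449572492053333899437062225920)) (T.h (P (nat_lit 0)) (T.h (P (nat_lit 34317117810958340701814784)) (T.h (P (nat_lit 0)) (T.h (P (nat_lit 75840501086223859712)) (T.h (P (nat_lit 0)) (M (nat_lit 31513377938015)))))))) (T.h (P (nat_lit 0)) (T.h (T.h (P (nat_lit 62392999799195848868364288)) (T.h (P (nat_lit 0)) (T.h (P (nat_lit 992994605465730023424)) (T.h (P (nat_lit 0)) (P (nat_lit 117921880255536)))))) (T.h (P (nat_lit 0)) (T.h (T.h (M (nat_lit 70954266505118744575)) (T.h (P (nat_lit 0)) (P (nat_lit 106034947275024)))) (T.h (P (nat_lit 0)) (P (nat_lit 12514805647488)))))))) (T.h (T.h (P (nat_lit 0)) (T.h (T.h (P (nat_lit 0)) (T.h (P (nat_lit 68652283493553539121152)) (T.h (P (nat_lit 0)) (M (nat_lit 768638322343608319))))) (T.h (P (nat_lit 0)) (T.h (T.h (P (nat_lit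 0)) (P (nat_lit 227887944433795072))) (P (nat_lit 0)))))) (T.h (T.h (T.h (M (nat_lit 14553904442267746961457151)) (T.h (P (nat_lit 0)) (T.h (M (nat_lit 995283932199279132671)) (T.h (P (nat_lit 0)) (M (nat_lit 143720920917935)))))) (T.h (P (nat_lit 0)) (T.h (T.h (P (nat_lit 298931378903083646976)) (T.h (P (nat_lit 0)) (M (nat_lit 21588494913791)))) (T.h (P (nat_lit 0)) (P (nat_lit 106034947275024)))))) (T.h (T.h (P (nat_lit 0)) (T.h (T.h (P (nat_lit 0)) (M (nat_lit 1505640240028123135))) (P (nat_lit 0)))) (T.h (T.h (T.h (M (nat_lit 23867855059164332031)) (T.h (P (nat_lit 0)) (M (nat_lit 143720920917935)))) (T.h (P (nat_lit 0)) (P (nat_lit 117921880255536)))) (T.h (P (nat_lit 0)) (M (nat_lit 31513377938015))))))))]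
def lP12_24 : List (T ℤ) := [(T.h (T.h (T.h (P (nat_lit 0)) (T.h (P (nat_lit 20336825086277710617774129152)) (T.h (P (nat_lit 0)) (T.h (M (nat_lit 19845638658273772044287)) (T.h (P (nat_lit 0)) (M (nat_lit 172462478615511039))))))) (T.h (P (nat_lit 0)) (T.h (T.h (P (nat_lit 0)) (T.h (M (nat_lit 35675785022990670888959)) (T.h (P (nat_lit 0)) (P (nat_lit 61532118309339136))))) (T.h (P (nat_lit 0)) (T.h (T.h (P (nat_lit 0)) (M (nat_lit 36241238331195391))) (P (nat_lit 0))))))) (T.h (T.h (P (nat_lit 0)) (T.h (T.h (P (nat_lit 100406850484060940098600960)) (T.h (P (nat_lit 0)) (T.h (P (nat_lit 932873236081316724736)) (T.h (P (nat_lit 0)) (M (nat_lit 493402670761247)))))) (T.h (P (nat_lit 0)) (T.h (T.h (M (nat_lit 128456059387660730367)) (T.h (P (nat_lit 0)) (M (nat_lit 105852932695583)))) (T.h (P (nat_lit 0)) (M (nat_lit 59828803719263))))))) (T.h (T.h (T.h (P (nat_lit 0)) (T.h (P (nat_lit 66911026800784601776128)) (T.h (P (nat_lit 0)) (M (nat_lit 162785966131183615)))))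 (T.h (P (nat_lit 0)) (T.h (T.h (P (nat_lit 0)) (M (nat_lit 373595198247862271))) (P (nat_lit 0))))) (T.h (T.h (P (nat_lit 0)) (T.h (T.h (P (nat_lit 149060729167943827456)) (T.h (P (nat_lit 0)) (M (nat_lit 187314034551551)))) (T.h (P (nat_lit 0)) (P (nat_lit 79993172440224))))) (T.h (T.h (T.h (P (nat_lit 0)) (M (nat_lit 135904604962209791))) (P (nat_lit 0))) (T.h (T.h (P (nat_lit 0)) (P (nat_lit 8562378236832))) (P (nat_lit 0)))))))), (T.h (T.h (T.h (P (nat_lit 6956814252741079948443380613120)) (T.h (P (nat_lit 0)) (T.h (P (nat_lit 7835852522007655234928640)) (T.h (P (nat_lit 0)) (P (nat_lit 190603457277588406272)))))) (T.h (P (nat_lit 0)) (T.h (T.h (P (nat_lit 9834762153925330696404992)) (T.h (P (nat_lit 0)) (M (nat_lit 83243563760396271615)))) (T.h (P (nat_lit 0)) (M (nat_lit 907467354663813119)))))) (T.h (T.h (P (nat_lit 0)) (T.h (T.h (P (nat_lit 0)) (T.h (M (nat_lit 245888729080067128295423)) (T.h (P (nat_lit 0)) (P (nat_lit 281155397963546624)))))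 (T.h (P (nat_lit 0)) (T.h (T.h (P (nat_lit 0)) (P (nat_lit 200925852248375296))) (P (nat_lit 0)))))) (T.h (T.h (T.h (P (nat_lit 12512308161857980632924160)) (T.h (P (nat_lit 0)) (P (nat_lit 696574428408140791808)))) (T.h (P (nat_lit 0)) (P (nat_lit 89162961353009266688)))) (T.h (T.h (P (nat_lit 0)) (T.h (T.h (P (nat_lit 0)) (P (nat_lit 207377764562108416))) (P (nat_lit 0)))) (P (nat_lit 31284549361191616512)))))), (P (nat_lit 0)), (T.h (T.h (P (nat_lit 0)) (T.h (T.h (P (nat_lit 0)) (T.h (M (nat_lit 36147032280788338571476991)) (T.h (P (nat_lit 0)) (T.h (M (nat_lit 14221513140029358079)) (T.h (P (nat_lit 0)) (M (nat_lit 1376291221855))))))) (T.h (P (nat_lit 0)) (T.h (T.h (P (nat_lit 0)) (T.h (P (nat_lit 25304311609465765888)) (T.h (P (nat_lit 0)) (M (nat_lit 16974078869663))))) (T.h (P (nat_lit 0)) (T.h (T.h (P (nat_lit 0)) (P (nat_lit 12939538226688))) (P (nat_lit 0)))))))) (T.h (T.h (T.h (P (nat_lit 2499382134411126130325061632)) (T.h (P (nat_lit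 0)) (T.h (M (nat_lit 20655584721251405398015)) (T.h (P (nat_lit 0)) (P (nat_lit 54811430610075648)))))) (T.h (P (nat_lit 0)) (T.h (T.h (M (nat_lit 4248855928975818489855)) (T.h (P (nat_lit 0)) (P (nat_lit 254549611120492544)))) (T.h (P (nat_lit 0)) (M (nat_lit 55609775831711743)))))) (T.h (T.h (P (nat_lit 0)) (T.h (T.h (P (nat_lit 0)) (T.h (M (nat_lit 355024248056871649279)) (T.h (P (nat_lit 0)) (P (nat_lit 116339099738960))))) (T.h (P (nat_lit 0)) (T.h (T.h (P (nat_lit 0)) (P (nat_lit 98494394722048))) (P (nat_lit 0)))))) (T.h (T.h (T.h (P (nat_lit 6707065703746106294272)) (T.h (P (nat_lit 0)) (P (nat_lit 8144646357123072)))) (T.h (P (nat_lit 0)) (M (nat_lit 110212625729323007)))) (T.h (T.h (P (nat_lit 0)) (T.h (T.h (P (nat_lit 0)) (M (nat_lit 211414836108367))) (P (nat_lit 0)))) (M (nat_lit 44030939657076735))))))), (T.h (T.h (P (nat_lit 0)) (T.h (T.h (P (nat_lit 11401952711144634565808619520)) (T.h (P (nat_lit 0)) (T.h (P (nat_lit 9211029130427594964992))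 (T.h (P (nat_lit 0)) (P (nat_lit 157045282990014464)))))) (T.h (P (nat_lit 0)) (T.h (T.h (M (nat_lit 349580771751851196415)) (T.h (P (nat_lit 0)) (P (nat_lit 82684409123340288)))) (T.h (P (nat_lit 0)) (M (nat_lit 25174507732271103))))))) (T.h (T.h (T.h (P (nat_lit 0)) (T.h (P (nat_lit 3580340693341382729793536)) (T.h (P (nat_lit 0)) (T.h (M (nat_lit 135983825542308691967)) (T.h (P (nat_lit 0)) (M (nat_lit 4685423447423))))))) (T.h (P (nat_lit 0)) (T.h (T.h (P (nat_lit 0)) (T.h (M (nat_lit 52911668563758022655)) (T.h (P (nat_lit 0)) (P (nat_lit 90268290434928))))) (T.h (P (nat_lit 0)) (T.h (T.h (P (nat_lit 0)) (P (nat_lit 54023327974512))) (P (nat_lit 0))))))) (T.h (T.h (P (nat_lit 0)) (T.h (T.h (P (nat_lit 89621593371965055303680)) (T.h (P (nat_lit 0)) (M (nat_lit 948573949698473983)))) (T.h (P (nat_lit 0)) (P (nat_lit 387135896393826304))))) (T.h (T.h (T.h (P (nat_lit 0)) (T.h (M (nat_lit 276770331442141986815)) (T.h (P (nat_lit 0)) (M (nat_lit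 7866646795423))))) (T.h (P (nat_lit 0)) (T.h (T.h (P (nat_lit 0)) (P (nat_lit 254418358177664))) (P (nat_lit 0))))) (T.h (T.h (P (nat_lit 0)) (P (nat_lit 92959733253701632))) (T.h (T.h (T.h (P (nat_lit 0)) (M (nat_lit 12012813532351))) (P (nat_lit 0))) (P (nat_lit 0)))))))), (T.h (T.h (P (nat_lit 0)) (T.h (T.h (P (nat_lit 0)) (T.h (P (nat_lit 302741975400375838375411712)) (T.h (P (nat_lit 0)) (T.h (M (nat_lit 180234684193931526143)) (T.h (P (nat_lit 0)) (M (nat_lit 100417924624655))))))) (T.h (P (nat_lit 0)) (T.h (T.h (P (nat_lit 0)) (T.h (M (nat_lit 180234684193931526143)) (T.h (P (nat_lit 0)) (P (nat_lit 64171149044832))))) (T.h (P (nat_lit 0)) (T.h (T.h (P (nat_lit 0)) (M (nat_lit 100417924624655))) (P (nat_lit 0)))))))) (T.h (T.h (T.h (M (nat_lit 15599164850618410583862542335)) (T.h (P (nat_lit 0)) (T.h (P (nat_lit 89292893872487774814208)) (T.h (P (nat_lit 0)) (M (nat_lit 522178801121755135)))))) (T.h (P (nat_lit 0)) (T.h (T.h (P (nat_lit 89292893872487774814208))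 (T.h (P (nat_lit 0)) (M (nat_lit 1474391296858914815)))) (T.h (P (nat_lit 0)) (M (nat_lit 522178801121755135)))))) (T.h (T.h (P (nat_lit 0)) (T.h (T.h (P (nat_lit 0)) (T.h (P (nat_lit 1544370539730386812928)) (T.h (P (nat_lit 0)) (M (nat_lit 48692708683343))))) (T.h (P (nat_lit 0)) (T.h (T.h (P (nat_lit 0)) (M (nat_lit 48692708683343))) (P (nat_lit 0)))))) (T.h (T.h (T.h (M (nat_lit 29593526877652833533951)) (T.h (P (nat_lit 0)) (P (nat_lit 937769911963320320)))) (T.h (P (nat_lit 0)) (P (nat_lit 937769911963320320)))) (T.h (T.h (P (nat_lit 0)) (T.h (T.h (P (nat_lit 0)) (P (nat_lit 253017882193056))) (P (nat_lit 0)))) (P (nat_lit 173501085597892608))))))), (T.h (T.h (P (nat_lit 0)) (T.h (T.h (M (nat_lit 8308288978382796360953888767)) (T.h (P (nat_lit 0)) (T.h (M (nat_lit 177664058497552953114623)) (T.h (P (nat_lit 0)) (P (nat_lit 13452858803601408)))))) (T.h (P (nat_lit 0)) (T.h (T.h (M (nat_lit 26840247345492137082879)) (T.h (P (nat_lit 0)) (P (nat_lit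 169323206615777280)))) (T.h (P (nat_lit 0)) (M (nat_lit 24413531669954559))))))) (T.h (T.h (T.h (P (nat_lit 0)) (T.h (M (nat_lit 134101112029060039324991487)) (T.h (P (nat_lit 0)) (T.h (P (nat_lit 26738214426705395712)) (T.h (P (nat_lit 0)) (P (nat_lit 337671127368288))))))) (T.h (P (nat_lit 0)) (T.h (T.h (P (nat_lit 0)) (T.h (P (nat_lit 635770060001731674112)) (T.h (P (nat_lit 0)) (M (nat_lit 850977363897935))))) (T.h (P (nat_lit 0)) (T.h (T.h (P (nat_lit 0)) (M (nat_lit 439370500807583))) (P (nat_lit 0))))))) (T.h (T.h (P (nat_lit 0)) (T.h (T.h (M (nat_lit 177664058497552953114623)) (T.h (P (nat_lit 0)) (P (nat_lit 32248702210572288)))) (T.h (P (nat_lit 0)) (P (nat_lit 169323206615777280))))) (T.h (T.h (T.h (P (nat_lit 0)) (T.h (P (nat_lit 26738214426705395712)) (T.h (P (nat_lit 0)) (M (nat_lit 99566560820447))))) (T.h (P (nat_lit 0)) (T.h (T.h (P (nat_lit 0)) (M (nat_lit 850977363897935))) (P (nat_lit 0))))) (T.h (T.h (P (nat_lit 0)) (P (nat_lit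 13452858803601408))) (T.h (T.h (T.h (P (nat_lit 0)) (P (nat_lit 337671127368288))) (P (nat_lit 0))) (P (nat_lit 0)))))))), (T.h (T.h (P (nat_lit 0)) (T.h (T.h (P (nat_lit 0)) (T.h (M (nat_lit 96179261992023780361240575)) (T.h (P (nat_lit 0)) (P (nat_lit 6753330301906190336))))) (T.h (P (nat_lit 0)) (T.h (T.h (P (nat_lit 0)) (M (nat_lit 217121808635813429247))) (P (nat_lit 0)))))) (T.h (T.h (T.h (P (nat_lit 8678397838319954379703058432)) (T.h (P (nat_lit 0)) (T.h (P (nat_lit 378592996281651543670784)) (T.h (P (nat_lit 0)) (M (nat_lit 208185981911433215)))))) (T.h (P (nat_lit 0)) (T.h (T.h (M (nat_lit 341199079021657320325119)) (T.h (P (nat_lit 0)) (P (nat_lit 589473878395617280)))) (T.h (P (nat_lit 0)) (P (nat_lit 129826036928675840)))))) (T.h (T.h (P (nat_lit 0)) (T.h (T.h (P (nat_lit 0)) (M (nat_lit 53604245851376451583))) (P (nat_lit 0)))) (T.h (T.h (T.h (P (nat_lit 74394072377337271287808)) (T.h (P (nat_lit 0)) (P (nat_lit 66756519374815232))))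 (T.h (P (nat_lit 0)) (P (nat_lit 62581864780890112)))) (T.h (P (nat_lit 0)) (M (nat_lit 139219386486030335)))))))]
def lP12_25 : List (T ℤ) := [(T.h (T.h (T.h (M (nat_lit 3870015373812671513756142927871)) (T.h (P (nat_lit 0)) (T.h (P (nat_lit 755077294296824536891392)) (T.h (P (nat_lit 0)) (T.h (M (nat_lit 6457243696533340159)) (T.h (P (nat_lit 0)) (M (nat_lit 1603954262815)))))))) (T.h (P (nat_lit 0)) (T.h (T.h (M (nat_lit 10770081596026253054312447)) (T.h (P (nat_lit 0)) (T.h (P (nat_lit 3557524032414810112)) (T.h (P (nat_lit 0)) (M (nat_lit 25759402964335)))))) (T.h (P (nat_lit 0)) (T.h (T.h (P (nat_lit 9487039978895572992)) (T.h (P (nat_lit 0)) (M (nat_lit 23039435579455)))) (T.h (P (nat_lit 0)) (P (nat_lit 1826553431592)))))))) (T.h (T.h (P (nat_lit 0)) (T.h (T.h (P (nat_lit 0)) (T.h (P (nat_lit 49185464827115210801152)) (T.h (P (nat_lit 0)) (M (nat_lit 32582121263005695))))) (T.h (P (nat_lit 0)) (T.h (T.h (P (nat_lit 0)) (P (nat_lit 293380401129521152)))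 (P (nat_lit 0)))))) (T.h (T.h (T.h (P (nat_lit 20757188070640758137290752)) (T.h (P (nat_lit 0)) (T.h (M (nat_lit 10661217573271502847)) (T.h (P (nat_lit 0)) (M (nat_lit 33397600486543)))))) (T.h (P (nat_lit 0)) (T.h (T.h (P (nat_lit 91701502504528248832)) (T.h (P (nat_lit 0)) (P (nat_lit 57349274634808)))) (T.h (P (nat_lit 0)) (P (nat_lit 116785106335720)))))) (T.h (T.h (P (nat_lit 0)) (T.h (T.h (P (nat_lit 0)) (P (nat_lit 43570629507317760))) (P (nat_lit 0)))) (T.h (T.h (T.h (M (nat_lit 7990465997452607487)) (T.h (P (nat_lit 0)) (M (nat_lit 60640144419423)))) (T.h (P (nat_lit 0)) (M (nat_lit 37820487044175)))) (T.h (P (nat_lit 0)) (P (nat_lit 3241983463696)))))))), (T.h (T.h (T.h (P (nat_lit 0)) (T.h (P (nat_lit 11020416314614742364347957248)) (T.h (P (nat_lit 0)) (T.h (M (nat_lit 5737787604839604158463)) (T.h (P (nat_lit 0)) (P (nat_lit 437921507999744))))))) (T.h (P (nat_lit 0)) (T.h (T.h (P (nat_lit 0)) (T.h (M (nat_lit 12844806377626037911551))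 (T.h (P (nat_lit 0)) (P (nat_lit 38487973547999232))))) (T.h (P (nat_lit 0)) (T.h (T.h (P (nat_lit 0)) (P (nat_lit 73671756276744192))) (P (nat_lit 0))))))) (T.h (T.h (P (nat_lit 0)) (T.h (T.h (M (nat_lit 21684869927939417095274495)) (T.h (P (nat_lit 0)) (T.h (M (nat_lit 12963444723204227071)) (T.h (P (nat_lit 0)) (P (nat_lit 191230761875616)))))) (T.h (P (nat_lit 0)) (T.h (T.h (M (nat_lit 206766406671320219647)) (T.h (P (nat_lit 0)) (P (nat_lit 48030240726480)))) (T.h (P (nat_lit 0)) (P (nat_lit 16513881934288))))))) (T.h (T.h (T.h (P (nat_lit 0)) (T.h (M (nat_lit 12844806377626037911551)) (T.h (P (nat_lit 0)) (P (nat_lit 38487973547999232))))) (T.h (P (nat_lit 0)) (T.h (T.h (P (nat_lit 0)) (M (nat_lit 6591774721277951))) (P (nat_lit 0))))) (T.h (T.h (P (nat_lit 0)) (T.h (T.h (M (nat_lit 206766406671320219647)) (T.h (P (nat_lit 0)) (P (nat_lit 48030240726480)))) (T.h (P (nat_lit 0)) (M (nat_lit 399778677697119))))) (T.h (T.h (T.h (P (nat_lit 0))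 (P (nat_lit 73671756276744192))) (P (nat_lit 0))) (T.h (T.h (P (nat_lit 0)) (P (nat_lit 16513881934288))) (P (nat_lit 0)))))))), (T.h (T.h (T.h (P (nat_lit 12449572492053333899437062225920)) (T.h (P (nat_lit 0)) (T.h (P (nat_lit 62392999799195848868364288)) (T.h (P (nat_lit 0)) (T.h (M (nat_lit 70954266505118744575)) (T.h (P (nat_lit 0)) (P (nat_lit 12514805647488)))))))) (T.h (P (nat_lit 0)) (T.h (T.h (P (nat_lit 34317117810958340701814784)) (T.h (P (nat_lit 0)) (T.h (P (nat_lit 992994605465730023424)) (T.h (P (nat_lit 0)) (P (nat_lit 106034947275024)))))) (T.h (P (nat_lit 0)) (T.h (T.h (P (nat_lit 75840501086223859712)) (T.h (P (nat_lit 0)) (P (nat_lit 117921880255536)))) (T.h (P (nat_lit 0)) (M (nat_lit 31513377938015)))))))) (T.h (T.h (P (nat_lit 0)) (T.h (T.h (P (nat_lit 0)) (T.h (P (nat_lit 68652283493553539121152)) (T.h (P (nat_lit 0)) (P (nat_lit 227887944433795072))))) (T.h (P (nat_lit 0)) (T.h (T.h (P (nat_lit 0)) (M (nat_lit 768638322343608319)))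 (P (nat_lit 0)))))) (T.h (T.h (T.h (M (nat_lit 14553904442267746961457151)) (T.h (P (nat_lit 0)) (T.h (P (nat_lit 298931378903083646976)) (T.h (P (nat_lit 0)) (P (nat_lit 106034947275024)))))) (T.h (P (nat_lit 0)) (T.h (T.h (M (nat_lit 995283932199279132671)) (T.h (P (nat_lit 0)) (M (nat_lit 21588494913791)))) (T.h (P (nat_lit 0)) (M (nat_lit 143720920917935)))))) (T.h (T.h (P (nat_lit 0)) (T.h (T.h (P (nat_lit 0)) (M (nat_lit 1505640240028123135))) (P (nat_lit 0)))) (T.h (T.h (T.h (M (nat_lit 23867855059164332031)) (T.h (P (nat_lit 0)) (P (nat_lit 117921880255536)))) (T.h (P (nat_lit 0)) (M (nat_lit 143720920917935)))) (T.h (P (nat_lit 0)) (M (nat_lit 31513377938015)))))))), (T.h (T.h (T.h (P (nat_lit 0)) (T.h (M (nat_lit 8308288978382796360953888767)) (T.h (P (nat_lit 0)) (T.h (M (nat_lit 26840247345492137082879)) (T.h (P (nat_lit 0)) (M (nat_lit 24413531669954559))))))) (T.h (P (nat_lit 0)) (T.h (T.h (P (nat_lit 0)) (T.h (M (nat_lit 177664058497552953114623))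 (T.h (P (nat_lit 0)) (P (nat_lit 169323206615777280))))) (T.h (P (nat_lit 0)) (T.h (T.h (P (nat_lit 0)) (P (nat_lit 13452858803601408))) (P (nat_lit 0))))))) (T.h (T.h (P (nat_lit 0)) (T.h (T.h (M (nat_lit 134101112029060039324991487)) (T.h (P (nat_lit 0)) (T.h (P (nat_lit 635770060001731674112)) (T.h (P (nat_lit 0)) (M (nat_lit 439370500807583)))))) (T.h (P (nat_lit 0)) (T.h (T.h (P (nat_lit 26738214426705395712)) (T.h (P (nat_lit 0)) (M (nat_lit 850977363897935)))) (T.h (P (nat_lit 0)) (P (nat_lit 337671127368288))))))) (T.h (T.h (T.h (P (nat_lit 0)) (T.h (M (nat_lit 177664058497552953114623)) (T.h (P (nat_lit 0)) (P (nat_lit 169323206615777280))))) (T.h (P (nat_lit 0)) (T.h (T.h (P (nat_lit 0)) (P (nat_lit 32248702210572288))) (P (nat_lit 0))))) (T.h (T.h (P (nat_lit 0)) (T.h (T.h (P (nat_lit 26738214426705395712)) (T.h (P (nat_lit 0)) (M (nat_lit 850977363897935)))) (T.h (P (nat_lit 0)) (M (nat_lit 99566560820447))))) (T.h (T.h (T.h (P (nat_lit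 0)) (P (nat_lit 13452858803601408))) (P (nat_lit 0))) (T.h (T.h (P (nat_lit 0)) (P (nat_lit 337671127368288))) (P (nat_lit 0)))))))), (T.h (T.h (T.h (M (nat_lit 15019333669650725351569527668735)) (T.h (P (nat_lit 0)) (T.h (M (nat_lit 140264334202199750169591807)) (T.h (P (nat_lit 0)) (P (nat_lit 72544820701243113472)))))) (T.h (P (nat_lit 0)) (T.h (T.h (M (nat_lit 140264334202199750169591807)) (T.h (P (nat_lit 0)) (M (nat_lit 477163676805246222335)))) (T.h (P (nat_lit 0)) (P (nat_lit 72544820701243113472)))))) (T.h (T.h (P (nat_lit 0)) (T.h (T.h (P (nat_lit 0)) (T.h (M (nat_lit 635265248755952400728063)) (T.h (P (nat_lit 0)) (P (nat_lit 1174503300851957760))))) (T.h (P (nat_lit 0)) (T.h (T.h (P (nat_lit 0)) (P (nat_lit 1174503300851957760))) (P (nat_lit 0)))))) (T.h (T.h (T.h (M (nat_lit 140264334202199750169591807)) (T.h (P (nat_lit 0)) (M (nat_lit 477163676805246222335)))) (T.h (P (nat_lit 0)) (M (nat_lit 477163676805246222335)))) (T.h (T.h (P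 (nat_lit 0)) (T.h (T.h (P (nat_lit 0)) (P (nat_lit 1174503300851957760))) (P (nat_lit 0)))) (P (nat_lit 72544820701243113472)))))), (P (nat_lit 0)), (T.h (T.h (P (nat_lit 0)) (T.h (T.h (P (nat_lit 0)) (T.h (P (nat_lit 3860490306843599773368320)) (T.h (P (nat_lit 0)) (T.h (M (nat_lit 32958766399814107135)) (T.h (P (nat_lit 0)) (P (nat_lit 453752910000))))))) (T.h (P (nat_lit 0)) (T.h (T.h (P (nat_lit 0)) (T.h (P (nat_lit 826713374134642933760)) (T.h (P (nat_lit 0)) (M (nat_lit 13428688508639))))) (T.h (P (nat_lit 0)) (T.h (T.h (P (nat_lit 0)) (P (nat_lit 23220499327104))) (P (nat_lit 0)))))))) (T.h (T.h (T.h (P (nat_lit 26765068505143559668352679936)) (T.h (P (nat_lit 0)) (T.h (P (nat_lit 68982737700613930352640)) (T.h (P (nat_lit 0)) (M (nat_lit 24595536273178623)))))) (T.h (P (nat_lit 0)) (T.h (T.h (P (nat_lit 559872010998950408486912)) (T.h (P (nat_lit 0)) (M (nat_lit 391411098654441471)))) (T.h (P (nat_lit 0)) (P (nat_lit 705534120360509440))))))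 (T.h (T.h (P (nat_lit 0)) (T.h (T.h (P (nat_lit 0)) (T.h (M (nat_lit 95043439973573328895)) (T.h (P (nat_lit 0)) (M (nat_lit 30149558717327))))) (T.h (P (nat_lit 0)) (T.h (T.h (P (nat_lit 0)) (M (nat_lit 85726898830271))) (P (nat_lit 0)))))) (T.h (T.h (T.h (M (nat_lit 90114759164328279015423)) (T.h (P (nat_lit 0)) (P (nat_lit 29932464485761024)))) (T.h (P (nat_lit 0)) (M (nat_lit 570755567284879359)))) (T.h (T.h (P (nat_lit 0)) (T.h (T.h (P (nat_lit 0)) (P (nat_lit 37567969112640))) (P (nat_lit 0)))) (M (nat_lit 18162411321032703))))))), (T.h (T.h (P (nat_lit 0)) (T.h (T.h (P (nat_lit 20336825086277710617774129152)) (T.h (P (nat_lit 0)) (T.h (M (nat_lit 35675785022990670888959)) (T.h (P (nat_lit 0)) (M (nat_lit 36241238331195391)))))) (T.h (P (nat_lit 0)) (T.h (T.h (M (nat_lit 19845638658273772044287)) (T.h (P (nat_lit 0)) (P (nat_lit 61532118309339136)))) (T.h (P (nat_lit 0)) (M (nat_lit 172462478615511039))))))) (T.h (T.h (T.h (P (nat_lit 0)) (T.h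 (P (nat_lit 100406850484060940098600960)) (T.h (P (nat_lit 0)) (T.h (M (nat_lit 128456059387660730367)) (T.h (P (nat_lit 0)) (M (nat_lit 59828803719263))))))) (T.h (P (nat_lit 0)) (T.h (T.h (P (nat_lit 0)) (T.h (P (nat_lit 932873236081316724736)) (T.h (P (nat_lit 0)) (M (nat_lit 105852932695583))))) (T.h (P (nat_lit 0)) (T.h (T.h (P (nat_lit 0)) (M (nat_lit 493402670761247))) (P (nat_lit 0))))))) (T.h (T.h (P (nat_lit 0)) (T.h (T.h (P (nat_lit 66911026800784601776128)) (T.h (P (nat_lit 0)) (M (nat_lit 373595198247862271)))) (T.h (P (nat_lit 0)) (M (nat_lit 162785966131183615))))) (T.h (T.h (T.h (P (nat_lit 0)) (T.h (P (nat_lit 149060729167943827456)) (T.h (P (nat_lit 0)) (P (nat_lit 79993172440224))))) (T.h (P (nat_lit 0)) (T.h (T.h (P (nat_lit 0)) (M (nat_lit 187314034551551))) (P (nat_lit 0))))) (T.h (T.h (P (nat_lit 0)) (M (nat_lit 135904604962209791))) (T.h (T.h (T.h (P (nat_lit 0)) (P (nat_lit 8562378236832))) (P (nat_lit 0))) (P (nat_lit 0))))))))]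
def lP12_26 : List (T ℤ) := [(T.h (T.h (P (nat_lit 0)) (T.h (T.h (P (nat_lit 0)) (T.h (M (nat_lit 96179261992023780361240575)) (T.h (P (nat_lit 0)) (M (nat_lit 217121808635813429247))))) (T.h (P (nat_lit 0)) (T.h (T.h (P (nat_lit 0)) (P (nat_lit 6753330301906190336))) (P (nat_lit 0)))))) (T.h (T.h (T.h (P (nat_lit 8678397838319954379703058432)) (T.h (P (nat_lit 0)) (T.h (M (nat_lit 341199079021657320325119)) (T.h (P (nat_lit 0)) (P (nat_lit 129826036928675840)))))) (T.h (P (nat_lit 0)) (T.h (T.h (P (nat_lit 378592996281651543670784)) (T.h (P (nat_lit 0)) (P (nat_lit 589473878395617280)))) (T.h (P (nat_lit 0)) (M (nat_lit 208185981911433215)))))) (T.h (T.h (P (nat_lit 0)) (T.h (T.h (P (nat_lit 0)) (M (nat_lit 53604245851376451583))) (P (nat_lit 0)))) (T.h (T.h (T.h (P (nat_lit 74394072377337271287808)) (T.h (P (nat_lit 0)) (P (nat_lit 62581864780890112)))) (T.h (P (nat_lit 0)) (P (nat_lit 66756519374815232)))) (T.h (P (nat_lit 0)) (M (nat_lit 139219386486030335))))))),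 (T.h (T.h (T.h (M (nat_lit 4472005690308487417832501411839)) (T.h (P (nat_lit 0)) (T.h (P (nat_lit 6005619773784791837573120)) (T.h (P (nat_lit 0)) (M (nat_lit 8712893511118094335)))))) (T.h (P (nat_lit 0)) (T.h (T.h (M (nat_lit 48873342311847525152194559)) (T.h (P (nat_lit 0)) (M (nat_lit 17775447735399350271)))) (T.h (P (nat_lit 0)) (P (nat_lit 90858598778798080000)))))) (T.h (T.h (P (nat_lit 0)) (T.h (T.h (P (nat_lit 0)) (T.h (P (nat_lit 73517171073849392889856)) (T.h (P (nat_lit 0)) (M (nat_lit 4325763083141119))))) (T.h (P (nat_lit 0)) (T.h (T.h (P (nat_lit 0)) (P (nat_lit 523173056249331712))) (P (nat_lit 0)))))) (T.h (T.h (T.h (P (nat_lit 29627661348588708182360064)) (T.h (P (nat_lit 0)) (M (nat_lit 19868835911944896511)))) (T.h (P (nat_lit 0)) (P (nat_lit 33976568438373482496)))) (T.h (T.h (P (nat_lit 0)) (T.h (T.h (P (nat_lit 0)) (M (nat_lit 48411323272921087))) (P (nat_lit 0)))) (P (nat_lit 5027664533615804416)))))), (T.h (T.h (T.h (P (nat_lit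 0)) (T.h (M (nat_lit 3335675229011176419139518463)) (T.h (P (nat_lit 0)) (T.h (M (nat_lit 2556215325078874750975)) (T.h (P (nat_lit 0)) (P (nat_lit 3963771170832384))))))) (T.h (P (nat_lit 0)) (T.h (T.h (P (nat_lit 0)) (T.h (P (nat_lit 24602323935072788414464)) (T.h (P (nat_lit 0)) (M (nat_lit 16203078846971903))))) (T.h (P (nat_lit 0)) (T.h (T.h (P (nat_lit 0)) (P (nat_lit 227435957508997120))) (P (nat_lit 0))))))) (T.h (T.h (P (nat_lit 0)) (T.h (T.h (M (nat_lit 1974649089754001720737791)) (T.h (P (nat_lit 0)) (T.h (M (nat_lit 18276632113639849983)) (T.h (P (nat_lit 0)) (M (nat_lit 235517594865407)))))) (T.h (P (nat_lit 0)) (T.h (T.h (P (nat_lit 365582842032417669120)) (T.h (P (nat_lit 0)) (M (nat_lit 111663856591199)))) (T.h (P (nat_lit 0)) (P (nat_lit 418099953986208))))))) (T.h (T.h (T.h (P (nat_lit 0)) (T.h (M (nat_lit 7048662301444117889023)) (T.h (P (nat_lit 0)) (P (nat_lit 10764761764429824))))) (T.h (P (nat_lit 0)) (T.h (T.h (P (nat_lit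 0)) (P (nat_lit 69244562661801984))) (P (nat_lit 0))))) (T.h (T.h (P (nat_lit 0)) (T.h (T.h (M (nat_lit 12150048673841020927)) (T.h (P (nat_lit 0)) (P (nat_lit 157454749658304)))) (T.h (P (nat_lit 0)) (P (nat_lit 356919587573616))))) (T.h (T.h (T.h (P (nat_lit 0)) (M (nat_lit 55932866233335807))) (P (nat_lit 0))) (T.h (T.h (P (nat_lit 0)) (M (nat_lit 153484319177423))) (P (nat_lit 0)))))))), (T.h (T.h (T.h (P (nat_lit 6956814252741079948443380613120)) (T.h (P (nat_lit 0)) (T.h (P (nat_lit 9834762153925330696404992)) (T.h (P (nat_lit 0)) (M (nat_lit 907467354663813119)))))) (T.h (P (nat_lit 0)) (T.h (T.h (P (nat_lit 7835852522007655234928640)) (T.h (P (nat_lit 0)) (M (nat_lit 83243563760396271615)))) (T.h (P (nat_lit 0)) (P (nat_lit 190603457277588406272)))))) (T.h (T.h (P (nat_lit 0)) (T.h (T.h (P (nat_lit 0)) (T.h (M (nat_lit 245888729080067128295423)) (T.h (P (nat_lit 0)) (P (nat_lit 200925852248375296))))) (T.h (P (nat_lit 0)) (T.h (T.h (P (nat_lit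 0)) (P (nat_lit 281155397963546624))) (P (nat_lit 0)))))) (T.h (T.h (T.h (P (nat_lit 12512308161857980632924160)) (T.h (P (nat_lit 0)) (P (nat_lit 89162961353009266688)))) (T.h (P (nat_lit 0)) (P (nat_lit 696574428408140791808)))) (T.h (T.h (P (nat_lit 0)) (T.h (T.h (P (nat_lit 0)) (P (nat_lit 207377764562108416))) (P (nat_lit 0)))) (P (nat_lit 31284549361191616512)))))), (P (nat_lit 0)), (T.h (T.h (P (nat_lit 0)) (T.h (T.h (P (nat_lit 0)) (T.h (M (nat_lit 11796831539250381828653055)) (T.h (P (nat_lit 0)) (P (nat_lit 11447994264663883776))))) (T.h (P (nat_lit 0)) (T.h (T.h (P (nat_lit 0)) (M (nat_lit 201848382004607844351))) (P (nat_lit 0)))))) (T.h (T.h (T.h (M (nat_lit 19010715559394962457480921087)) (T.h (P (nat_lit 0)) (T.h (M (nat_lit 4534848523537343315967)) (T.h (P (nat_lit 0)) (P (nat_lit 72142769679368192)))))) (T.h (P (nat_lit 0)) (T.h (T.h (M (nat_lit 337256168840861870718975)) (T.h (P (nat_lit 0)) (P (nat_lit 146445637852594176)))) (T.h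 (P (nat_lit 0)) (M (nat_lit 537460537767034879)))))) (T.h (T.h (P (nat_lit 0)) (T.h (T.h (P (nat_lit 0)) (P (nat_lit 27730665333827043328))) (P (nat_lit 0)))) (T.h (T.h (T.h (P (nat_lit 17167194726438533070848)) (T.h (P (nat_lit 0)) (M (nat_lit 39240781425016831)))) (T.h (P (nat_lit 0)) (M (nat_lit 217035851084890111)))) (T.h (P (nat_lit 0)) (P (nat_lit 51833134429732864))))))), (P (nat_lit 0)), (P (nat_lit 0))]
def lP12_27 : List (T ℤ) := [(P (nat_lit 0)), (T.h (T.h (P (nat_lit 0)) (T.h (T.h (P (nat_lit 0)) (T.h (P (nat_lit 0)) (T.h (M (nat_lit 4731390211632442376191)) (T.h (P (nat_lit 0)) (M (nat_lit 96976708401922047)))))) (T.h (P (nat_lit 0)) (T.h (T.h (P (nat_lit 0)) (T.h (P (nat_lit 0)) (M (nat_lit 40939931655110655)))) (P (nat_lit 0)))))) (T.h (T.h (T.h (P (nat_lit 0)) (T.h (P (nat_lit 0)) (T.h (P (nat_lit 0)) (T.h (M (nat_lit 5193693979094286335)) (T.h (P (nat_lit 0)) (P (nat_lit 3743360978736))))))) (T.h (P (nat_lit 0)) (T.h (T.h (P (nat_lit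 0)) (T.h (P (nat_lit 0)) (T.h (P (nat_lit 0)) (M (nat_lit 202250582681559))))) (P (nat_lit 0))))) (T.h (T.h (P (nat_lit 0)) (T.h (P (nat_lit 4731390211632442376192)) (T.h (P (nat_lit 0)) (P (nat_lit 40939931655110656))))) (T.h (T.h (T.h (P (nat_lit 0)) (P (nat_lit 5193693979094286336))) (T.h (P (nat_lit 0)) (T.h (T.h (P (nat_lit 0)) (P (nat_lit 202250582681560))) (P (nat_lit 0))))) (T.h (T.h (P (nat_lit 0)) (P (nat_lit 96976708401922048))) (T.h (T.h (T.h (P (nat_lit 0)) (M (nat_lit 3743360978735))) (P (nat_lit 0))) (P (nat_lit 0)))))))), (P (nat_lit 0)), (T.h (T.h (P (nat_lit 0)) (T.h (T.h (M (nat_lit 6456312362806659015363264511)) (T.h (P (nat_lit 0)) (T.h (P (nat_lit 125777644932406160916480)) (T.h (P (nat_lit 0)) (M (nat_lit 395116668046737407)))))) (T.h (P (nat_lit 0)) (T.h (T.h (P (nat_lit 12390984721001313468416)) (T.h (P (nat_lit 0)) (M (nat_lit 41527454277631999)))) (T.h (P (nat_lit 0)) (P (nat_lit 4397787315994624))))))) (T.h (T.h (T.h (P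 (nat_lit 0)) (T.h (M (nat_lit 80578208822235707606040575)) (T.h (P (nat_lit 0)) (M (nat_lit 818439350985299066879))))) (T.h (P (nat_lit 0)) (T.h (T.h (P (nat_lit 0)) (P (nat_lit 13692151489928101888))) (P (nat_lit 0))))) (T.h (T.h (P (nat_lit 0)) (T.h (T.h (M (nat_lit 29965683693234268667903)) (T.h (P (nat_lit 0)) (M (nat_lit 860121343074598911)))) (T.h (P (nat_lit 0)) (M (nat_lit 44975706816479231))))) (T.h (T.h (T.h (P (nat_lit 0)) (M (nat_lit 228257723608299732991))) (P (nat_lit 0))) (T.h (T.h (P (nat_lit 0)) (M (nat_lit 2646419912753151))) (P (nat_lit 0))))))), (P (nat_lit 0)), (P (nat_lit 0)), (P (nat_lit 0)), (P (nat_lit 0))]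
def lP12_28 : List (T ℤ) := [(T.h (T.h (T.h (P (nat_lit 0)) (T.h (M (nat_lit 1453531315462356499848757247)) (T.h (P (nat_lit 0)) (T.h (P (nat_lit 4358427766838905536512)) (T.h (P (nat_lit 0)) (M (nat_lit 6965640848146431))))))) (T.h (P (nat_lit 0)) (T.h (T.h (P (nat_lit 0)) (T.h (P (nat_lit 34770341513650029723648)) (T.h (P (nat_lit 0)) (M (nat_lit 55060634754875391))))) (T.h (P (nat_lit 0)) (T.h (T.h (P (nat_lit 0)) (M (nat_lit 63621423306080255))) (P (nat_lit 0))))))) (T.h (T.h (P (nat_lit 0)) (T.h (T.h (P (nat_lit 33836642336059859750879232)) (T.h (P (nat_lit 0)) (T.h (P (nat_lit 226478245036190334976)) (T.h (P (nat_lit 0)) (P (nat_lit 138932215785096)))))) (T.h (P (nat_lit 0)) (T.h (T.h (P (nat_lit 7949955805787193344)) (T.h (P (nat_lit 0)) (M (nat_lit 34975375727463)))) (T.h (P (nat_lit 0)) (M (nat_lit 8738141070055))))))) (T.h (T.h (T.h (P (nat_lit 0)) (T.h (M (nat_lit 62013488252382928175103)) (T.h (P (nat_lit 0)) (P (nat_lit 215711532103696384)))))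 (T.h (P (nat_lit 0)) (T.h (T.h (P (nat_lit 0)) (M (nat_lit 248186391262724095))) (P (nat_lit 0))))) (T.h (T.h (P (nat_lit 0)) (T.h (T.h (M (nat_lit 23304222990982447103)) (T.h (P (nat_lit 0)) (M (nat_lit 49237820342591)))) (T.h (P (nat_lit 0)) (P (nat_lit 38433268428832))))) (T.h (T.h (T.h (P (nat_lit 0)) (P (nat_lit 160885398400925696))) (P (nat_lit 0))) (T.h (T.h (P (nat_lit 0)) (P (nat_lit 11588153239608))) (P (nat_lit 0)))))))), (T.h (T.h (T.h (P (nat_lit 10240767002178687954892823199744)) (T.h (P (nat_lit 0)) (T.h (M (nat_lit 4923473558923471130460159)) (T.h (P (nat_lit 0)) (T.h (P (nat_lit 24525644828128575488)) (T.h (P (nat_lit 0)) (P (nat_lit 5106811990464)))))))) (T.h (P (nat_lit 0)) (T.h (T.h (P (nat_lit 1874529792743809499529216)) (T.h (P (nat_lit 0)) (T.h (P (nat_lit 7358800448335118336)) (T.h (P (nat_lit 0)) (M (nat_lit 2332677536639)))))) (T.h (P (nat_lit 0)) (T.h (T.h (M (nat_lit 541262488075763711)) (T.h (P (nat_lit 0)) (P (nat_lit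 3880953721632)))) (T.h (P (nat_lit 0)) (M (nat_lit 1226078413135)))))))) (T.h (T.h (P (nat_lit 0)) (T.h (T.h (P (nat_lit 0)) (T.h (P (nat_lit 9916637199665389895680)) (T.h (P (nat_lit 0)) (P (nat_lit 92963174163087360))))) (T.h (P (nat_lit 0)) (T.h (T.h (P (nat_lit 0)) (M (nat_lit 9230042037944319))) (P (nat_lit 0)))))) (T.h (T.h (T.h (P (nat_lit 12058186289434892836012032)) (T.h (P (nat_lit 0)) (T.h (P (nat_lit 65010833342637015040)) (T.h (P (nat_lit 0)) (M (nat_lit 35834186439263)))))) (T.h (P (nat_lit 0)) (T.h (T.h (M (nat_lit 51208003868654829567)) (T.h (P (nat_lit 0)) (M (nat_lit 23507951099487)))) (T.h (P (nat_lit 0)) (M (nat_lit 4136082018047)))))) (T.h (T.h (P (nat_lit 0)) (T.h (T.h (P (nat_lit 0)) (M (nat_lit 8549900743704575))) (P (nat_lit 0)))) (T.h (T.h (T.h (M (nat_lit 2233296166391382015)) (T.h (P (nat_lit 0)) (M (nat_lit 19123657897535)))) (T.h (P (nat_lit 0)) (P (nat_lit 52052519111328)))) (T.h (P (nat_lit 0)) (P (nat_lit 33595231580112)))))))),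 (T.h (T.h (T.h (P (nat_lit 0)) (T.h (M (nat_lit 9343724940871618278828539903)) (T.h (P (nat_lit 0)) (T.h (M (nat_lit 187757415239054803337215)) (T.h (P (nat_lit 0)) (M (nat_lit 277558056058814463))))))) (T.h (P (nat_lit 0)) (T.h (T.h (P (nat_lit 0)) (T.h (P (nat_lit 64205573357566708154368)) (T.h (P (nat_lit 0)) (M (nat_lit 380645573583273983))))) (T.h (P (nat_lit 0)) (T.h (T.h (P (nat_lit 0)) (P (nat_lit 47923858409455616))) (P (nat_lit 0))))))) (T.h (T.h (P (nat_lit 0)) (T.h (T.h (M (nat_lit 82859173911079009919172607)) (T.h (P (nat_lit 0)) (T.h (M (nat_lit 250430174907894595583)) (T.h (P (nat_lit 0)) (P (nat_lit 37567969112640)))))) (T.h (P (nat_lit 0)) (T.h (T.h (P (nat_lit 83871374605893500928)) (T.h (P (nat_lit 0)) (M (nat_lit 30149558717327)))) (T.h (P (nat_lit 0)) (P (nat_lit 453752910000))))))) (T.h (T.h (T.h (P (nat_lit 0)) (T.h (M (nat_lit 229716604705040001662975)) (T.h (P (nat_lit 0)) (M (nat_lit 131253795336126463))))) (T.h (P (nat_lit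 0)) (T.h (T.h (P (nat_lit 0)) (P (nat_lit 116488651810111488))) (P (nat_lit 0))))) (T.h (T.h (P (nat_lit 0)) (T.h (T.h (P (nat_lit 181086751955284393984)) (T.h (P (nat_lit 0)) (M (nat_lit 85726898830271)))) (T.h (P (nat_lit 0)) (M (nat_lit 13428688508639))))) (T.h (T.h (T.h (P (nat_lit 0)) (P (nat_lit 195184416612024320))) (P (nat_lit 0))) (T.h (T.h (P (nat_lit 0)) (P (nat_lit 23220499327104))) (P (nat_lit 0)))))))), (T.h (T.h (T.h (P (nat_lit 2702654388380850163848774156288)) (T.h (P (nat_lit 0)) (T.h (P (nat_lit 1227016224249122383724544)) (T.h (P (nat_lit 0)) (T.h (M (nat_lit 220068457998087880703)) (T.h (P (nat_lit 0)) (M (nat_lit 123801535670687)))))))) (T.h (P (nat_lit 0)) (T.h (T.h (P (nat_lit 5204542924563187540951040)) (T.h (P (nat_lit 0)) (T.h (M (nat_lit 37801069697948450815)) (T.h (P (nat_lit 0)) (P (nat_lit 41722221577392)))))) (T.h (P (nat_lit 0)) (T.h (T.h (M (nat_lit 5967627830152921087)) (T.h (P (nat_lit 0)) (P (nat_lit 51762713890032))))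 (T.h (P (nat_lit 0)) (M (nat_lit 2380305145823)))))))) (T.h (T.h (P (nat_lit 0)) (T.h (T.h (P (nat_lit 0)) (T.h (M (nat_lit 163346086602152943288319)) (T.h (P (nat_lit 0)) (M (nat_lit 255115424693092351))))) (T.h (P (nat_lit 0)) (T.h (T.h (P (nat_lit 0)) (P (nat_lit 180425386868539392))) (P (nat_lit 0)))))) (T.h (T.h (T.h (P (nat_lit 1227016224249122383724544)) (T.h (P (nat_lit 0)) (T.h (M (nat_lit 276733554994396004351)) (T.h (P (nat_lit 0)) (P (nat_lit 8403018471936)))))) (T.h (P (nat_lit 0)) (T.h (T.h (M (nat_lit 37801069697948450815)) (T.h (P (nat_lit 0)) (P (nat_lit 330438239353728)))) (T.h (P (nat_lit 0)) (P (nat_lit 51762713890032)))))) (T.h (T.h (P (nat_lit 0)) (T.h (T.h (P (nat_lit 0)) (M (nat_lit 255115424693092351))) (P (nat_lit 0)))) (T.h (T.h (T.h (M (nat_lit 220068457998087880703)) (T.h (P (nat_lit 0)) (P (nat_lit 8403018471936)))) (T.h (P (nat_lit 0)) (P (nat_lit 41722221577392)))) (T.h (P (nat_lit 0)) (M (nat_lit 123801535670687)))))))),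 (T.h (T.h (T.h (P (nat_lit 0)) (T.h (P (nat_lit 4622686116289818125836222464)) (T.h (P (nat_lit 0)) (T.h (P (nat_lit 67326681209505262338048)) (T.h (P (nat_lit 0)) (P (nat_lit 73889396061962240))))))) (T.h (P (nat_lit 0)) (T.h (T.h (P (nat_lit 0)) (T.h (P (nat_lit 5038203398620824207360)) (T.h (P (nat_lit 0)) (M (nat_lit 12566762318135295))))) (T.h (P (nat_lit 0)) (T.h (T.h (P (nat_lit 0)) (P (nat_lit 30035550910087168))) (P (nat_lit 0))))))) (T.h (T.h (P (nat_lit 0)) (T.h (T.h (P (nat_lit 32368617483080180722302976)) (T.h (P (nat_lit 0)) (P (nat_lit 210714216620942688256)))) (T.h (P (nat_lit 0)) (M (nat_lit 30422275876538286079))))) (T.h (T.h (T.h (P (nat_lit 0)) (T.h (P (nat_lit 210632273554275901112320)) (T.h (P (nat_lit 0)) (M (nat_lit 251305719263821823))))) (T.h (P (nat_lit 0)) (T.h (T.h (P (nat_lit 0)) (M (nat_lit 257875223365943295))) (P (nat_lit 0))))) (T.h (T.h (P (nat_lit 0)) (P (nat_lit 70812932436679196672))) (T.h (T.h (T.h (P (nat_lit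 0)) (P (nat_lit 170806740523974656))) (P (nat_lit 0))) (P (nat_lit 0))))))), (P (nat_lit 0)), (T.h (T.h (P (nat_lit 0)) (T.h (T.h (M (nat_lit 1453531315462356499848757247)) (T.h (P (nat_lit 0)) (T.h (P (nat_lit 34770341513650029723648)) (T.h (P (nat_lit 0)) (M (nat_lit 63621423306080255)))))) (T.h (P (nat_lit 0)) (T.h (T.h (P (nat_lit 4358427766838905536512)) (T.h (P (nat_lit 0)) (M (nat_lit 55060634754875391)))) (T.h (P (nat_lit 0)) (M (nat_lit 6965640848146431))))))) (T.h (T.h (T.h (P (nat_lit 0)) (T.h (P (nat_lit 33836642336059859750879232)) (T.h (P (nat_lit 0)) (T.h (P (nat_lit 7949955805787193344)) (T.h (P (nat_lit 0)) (M (nat_lit 8738141070055))))))) (T.h (P (nat_lit 0)) (T.h (T.h (P (nat_lit 0)) (T.h (P (nat_lit 226478245036190334976)) (T.h (P (nat_lit 0)) (M (nat_lit 34975375727463))))) (T.h (P (nat_lit 0)) (T.h (T.h (P (nat_lit 0)) (P (nat_lit 138932215785096))) (P (nat_lit 0))))))) (T.h (T.h (P (nat_lit 0)) (T.h (T.h (M (nat_lit 62013488252382928175103))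 (T.h (P (nat_lit 0)) (M (nat_lit 248186391262724095)))) (T.h (P (nat_lit 0)) (P (nat_lit 215711532103696384))))) (T.h (T.h (T.h (P (nat_lit 0)) (T.h (M (nat_lit 23304222990982447103)) (T.h (P (nat_lit 0)) (P (nat_lit 38433268428832))))) (T.h (P (nat_lit 0)) (T.h (T.h (P (nat_lit 0)) (M (nat_lit 49237820342591))) (P (nat_lit 0))))) (T.h (T.h (P (nat_lit 0)) (P (nat_lit 160885398400925696))) (T.h (T.h (T.h (P (nat_lit 0)) (P (nat_lit 11588153239608))) (P (nat_lit 0))) (P (nat_lit 0)))))))), (T.h (T.h (P (nat_lit 0)) (T.h (T.h (P (nat_lit 0)) (T.h (M (nat_lit 812139356238288361881599)) (T.h (P (nat_lit 0)) (T.h (P (nat_lit 14353739500201443328)) (T.h (P (nat_lit 0)) (M (nat_lit 12009131250063))))))) (T.h (P (nat_lit 0)) (T.h (T.h (P (nat_lit 0)) (T.h (P (nat_lit 14353739500201443328)) (T.h (P (nat_lit 0)) (P (nat_lit 15419168176256))))) (T.h (P (nat_lit 0)) (T.h (T.h (P (nat_lit 0)) (M (nat_lit 12009131250063))) (P (nat_lit 0)))))))) (T.h (T.h (T.h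 (M (nat_lit 13210451688327983842182823935)) (T.h (P (nat_lit 0)) (T.h (P (nat_lit 71268525060009716875264)) (T.h (P (nat_lit 0)) (M (nat_lit 77890511696707583)))))) (T.h (P (nat_lit 0)) (T.h (T.h (P (nat_lit 71268525060009716875264)) (T.h (P (nat_lit 0)) (M (nat_lit 82599042909241343)))) (T.h (P (nat_lit 0)) (M (nat_lit 77890511696707583)))))) (T.h (T.h (P (nat_lit 0)) (T.h (T.h (P (nat_lit 0)) (T.h (P (nat_lit 686793345222343393280)) (T.h (P (nat_lit 0)) (M (nat_lit 5250374281359))))) (T.h (P (nat_lit 0)) (T.h (T.h (P (nat_lit 0)) (M (nat_lit 5250374281359))) (P (nat_lit 0)))))) (T.h (T.h (T.h (P (nat_lit 53049158737755864301568)) (T.h (P (nat_lit 0)) (P (nat_lit 142194421957574656)))) (T.h (P (nat_lit 0)) (P (nat_lit 142194421957574656)))) (T.h (T.h (P (nat_lit 0)) (T.h (T.h (P (nat_lit 0)) (M (nat_lit 33739957894015))) (P (nat_lit 0)))) (M (nat_lit 33213642493526015)))))))]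
def lP12_29 : List (T ℤ) := [(T.h (T.h (P (nat_lit 0)) (T.h (T.h (P (nat_lit 3567143479461813902343405568)) (T.h (P (nat_lit 0)) (T.h (P (nat_lit 386893146788613737938944)) (T.h (P (nat_lit 0)) (P (nat_lit 99942309867814912)))))) (T.h (P (nat_lit 0)) (T.h (T.h (P (nat_lit 28703942743272686878720)) (T.h (P (nat_lit 0)) (M (nat_lit 321947997433462783)))) (T.h (P (nat_lit 0)) (M (nat_lit 48209567462785023))))))) (T.h (T.h (T.h (P (nat_lit 0)) (T.h (P (nat_lit 14230067087497169838538752)) (T.h (P (nat_lit 0)) (T.h (P (nat_lit 765840976011568611328)) (T.h (P (nat_lit 0)) (P (nat_lit 31462978248624))))))) (T.h (P (nat_lit 0)) (T.h (T.h (P (nat_lit 0)) (T.h (M (nat_lit 221825136649132048383)) (T.h (P (nat_lit 0)) (P (nat_lit 151194672219024))))) (T.h (P (nat_lit 0)) (T.h (T.h (P (nat_lit 0)) (M (nat_lit 168082866176879))) (P (nat_lit 0))))))) (T.h (T.h (P (nat_lit 0)) (T.h (T.h (M (nat_lit 246630826378912646299647)) (T.h (P (nat_lit 0)) (P (nat_lit 1077028334374518784))))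 (T.h (P (nat_lit 0)) (P (nat_lit 407275503281799168))))) (T.h (T.h (T.h (P (nat_lit 0)) (T.h (M (nat_lit 197584185648270540799)) (T.h (P (nat_lit 0)) (P (nat_lit 222868762305024))))) (T.h (P (nat_lit 0)) (T.h (T.h (P (nat_lit 0)) (M (nat_lit 326692463252447))) (P (nat_lit 0))))) (T.h (T.h (P (nat_lit 0)) (M (nat_lit 187195682953166847))) (T.h (T.h (T.h (P (nat_lit 0)) (M (nat_lit 89014422257279))) (P (nat_lit 0))) (P (nat_lit 0)))))))), (T.h (T.h (P (nat_lit 0)) (T.h (T.h (P (nat_lit 0)) (T.h (P (nat_lit 100406850484060940098600960)) (T.h (P (nat_lit 0)) (T.h (P (nat_lit 149060729167943827456)) (T.h (P (nat_lit 0)) (P (nat_lit 8562378236832))))))) (T.h (P (nat_lit 0)) (T.h (T.h (P (nat_lit 0)) (T.h (M (nat_lit 128456059387660730367)) (T.h (P (nat_lit 0)) (P (nat_lit 79993172440224))))) (T.h (P (nat_lit 0)) (T.h (T.h (P (nat_lit 0)) (M (nat_lit 59828803719263))) (P (nat_lit 0)))))))) (T.h (T.h (T.h (P (nat_lit 20336825086277710617774129152)) (T.h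 (P (nat_lit 0)) (T.h (P (nat_lit 66911026800784601776128)) (T.h (P (nat_lit 0)) (M (nat_lit 135904604962209791)))))) (T.h (P (nat_lit 0)) (T.h (T.h (M (nat_lit 35675785022990670888959)) (T.h (P (nat_lit 0)) (M (nat_lit 373595198247862271)))) (T.h (P (nat_lit 0)) (M (nat_lit 36241238331195391)))))) (T.h (T.h (P (nat_lit 0)) (T.h (T.h (P (nat_lit 0)) (T.h (P (nat_lit 932873236081316724736)) (T.h (P (nat_lit 0)) (M (nat_lit 187314034551551))))) (T.h (P (nat_lit 0)) (T.h (T.h (P (nat_lit 0)) (M (nat_lit 105852932695583))) (P (nat_lit 0)))))) (T.h (T.h (T.h (M (nat_lit 19845638658273772044287)) (T.h (P (nat_lit 0)) (M (nat_lit 162785966131183615)))) (T.h (P (nat_lit 0)) (P (nat_lit 61532118309339136)))) (T.h (T.h (P (nat_lit 0)) (T.h (T.h (P (nat_lit 0)) (M (nat_lit 493402670761247))) (P (nat_lit 0)))) (M (nat_lit 172462478615511039))))))), (T.h (T.h (P (nat_lit 0)) (T.h (T.h (M (nat_lit 23982801289164216537089835007)) (T.h (P (nat_lit 0)) (T.h (M (nat_lit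 103457444550888944304127)) (T.h (P (nat_lit 0)) (P (nat_lit 83546188554764288)))))) (T.h (P (nat_lit 0)) (T.h (T.h (M (nat_lit 40637152726621985177599)) (T.h (P (nat_lit 0)) (M (nat_lit 77636821944369151)))) (T.h (P (nat_lit 0)) (P (nat_lit 30478663296221184))))))) (T.h (T.h (T.h (P (nat_lit 0)) (T.h (P (nat_lit 82022475448791551103205376)) (T.h (P (nat_lit 0)) (P (nat_lit 285002259208458993664))))) (T.h (P (nat_lit 0)) (T.h (T.h (P (nat_lit 0)) (P (nat_lit 145578080354680438784))) (P (nat_lit 0))))) (T.h (T.h (P (nat_lit 0)) (T.h (T.h (M (nat_lit 103457444550888944304127)) (T.h (P (nat_lit 0)) (P (nat_lit 105359980908511232)))) (T.h (P (nat_lit 0)) (M (nat_lit 77636821944369151))))) (T.h (T.h (T.h (P (nat_lit 0)) (P (nat_lit 285002259208458993664))) (P (nat_lit 0))) (T.h (T.h (P (nat_lit 0)) (P (nat_lit 83546188554764288))) (P (nat_lit 0))))))), (T.h (T.h (P (nat_lit 0)) (T.h (P (nat_lit 0)) (T.h (T.h (P (nat_lit 0)) (T.h (M (nat_lit 4731390211632442376191))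 (T.h (P (nat_lit 0)) (M (nat_lit 40939931655110655))))) (T.h (P (nat_lit 0)) (T.h (T.h (P (nat_lit 0)) (M (nat_lit 96976708401922047))) (P (nat_lit 0))))))) (T.h (T.h (P (nat_lit 0)) (T.h (P (nat_lit 0)) (T.h (P (nat_lit 0)) (T.h (T.h (M (nat_lit 5193693979094286335)) (T.h (P (nat_lit 0)) (M (nat_lit 202250582681559)))) (T.h (P (nat_lit 0)) (P (nat_lit 3743360978736))))))) (T.h (T.h (T.h (P (nat_lit 0)) (T.h (P (nat_lit 4731390211632442376192)) (T.h (P (nat_lit 0)) (P (nat_lit 40939931655110656))))) (P (nat_lit 0))) (T.h (T.h (P (nat_lit 0)) (T.h (T.h (P (nat_lit 5193693979094286336)) (T.h (P (nat_lit 0)) (P (nat_lit 202250582681560)))) (P (nat_lit 0)))) (T.h (T.h (T.h (P (nat_lit 0)) (P (nat_lit 96976708401922048))) (P (nat_lit 0))) (T.h (T.h (P (nat_lit 0)) (M (nat_lit 3743360978735))) (P (nat_lit 0)))))))), (T.h (T.h (T.h (P (nat_lit 10240767002178687954892823199744)) (T.h (P (nat_lit 0)) (T.h (P (nat_lit 1874529792743809499529216)) (T.h (P (nat_lit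 0)) (T.h (M (nat_lit 541262488075763711)) (T.h (P (nat_lit 0)) (M (nat_lit 1226078413135)))))))) (T.h (P (nat_lit 0)) (T.h (T.h (M (nat_lit 4923473558923471130460159)) (T.h (P (nat_lit 0)) (T.h (P (nat_lit 7358800448335118336)) (T.h (P (nat_lit 0)) (P (nat_lit 3880953721632)))))) (T.h (P (nat_lit 0)) (T.h (T.h (P (nat_lit 24525644828128575488)) (T.h (P (nat_lit 0)) (M (nat_lit 2332677536639)))) (T.h (P (nat_lit 0)) (P (nat_lit 5106811990464)))))))) (T.h (T.h (P (nat_lit 0)) (T.h (T.h (P (nat_lit 0)) (T.h (P (nat_lit 9916637199665389895680)) (T.h (P (nat_lit 0)) (M (nat_lit 9230042037944319))))) (T.h (P (nat_lit 0)) (T.h (T.h (P (nat_lit 0)) (P (nat_lit 92963174163087360))) (P (nat_lit 0)))))) (T.h (T.h (T.h (P (nat_lit 12058186289434892836012032)) (T.h (P (nat_lit 0)) (T.h (M (nat_lit 51208003868654829567)) (T.h (P (nat_lit 0)) (M (nat_lit 4136082018047)))))) (T.h (P (nat_lit 0)) (T.h (T.h (P (nat_lit 65010833342637015040)) (T.h (P (nat_lit 0)) (M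 (nat_lit 23507951099487)))) (T.h (P (nat_lit 0)) (M (nat_lit 35834186439263)))))) (T.h (T.h (P (nat_lit 0)) (T.h (T.h (P (nat_lit 0)) (M (nat_lit 8549900743704575))) (P (nat_lit 0)))) (T.h (T.h (T.h (M (nat_lit 2233296166391382015)) (T.h (P (nat_lit 0)) (P (nat_lit 52052519111328)))) (T.h (P (nat_lit 0)) (M (nat_lit 19123657897535)))) (T.h (P (nat_lit 0)) (P (nat_lit 33595231580112)))))))), (T.h (T.h (T.h (P (nat_lit 0)) (T.h (P (nat_lit 3567143479461813902343405568)) (T.h (P (nat_lit 0)) (T.h (P (nat_lit 28703942743272686878720)) (T.h (P (nat_lit 0)) (M (nat_lit 48209567462785023))))))) (T.h (P (nat_lit 0)) (T.h (T.h (P (nat_lit 0)) (T.h (P (nat_lit 386893146788613737938944)) (T.h (P (nat_lit 0)) (M (nat_lit 321947997433462783))))) (T.h (P (nat_lit 0)) (T.h (T.h (P (nat_lit 0)) (P (nat_lit 99942309867814912))) (P (nat_lit 0))))))) (T.h (T.h (P (nat_lit 0)) (T.h (T.h (P (nat_lit 14230067087497169838538752)) (T.h (P (nat_lit 0)) (T.h (M (nat_lit 221825136649132048383))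 (T.h (P (nat_lit 0)) (M (nat_lit 168082866176879)))))) (T.h (P (nat_lit 0)) (T.h (T.h (P (nat_lit 765840976011568611328)) (T.h (P (nat_lit 0)) (P (nat_lit 151194672219024)))) (T.h (P (nat_lit 0)) (P (nat_lit 31462978248624))))))) (T.h (T.h (T.h (P (nat_lit 0)) (T.h (M (nat_lit 246630826378912646299647)) (T.h (P (nat_lit 0)) (P (nat_lit 407275503281799168))))) (T.h (P (nat_lit 0)) (T.h (T.h (P (nat_lit 0)) (P (nat_lit 1077028334374518784))) (P (nat_lit 0))))) (T.h (T.h (P (nat_lit 0)) (T.h (T.h (M (nat_lit 197584185648270540799)) (T.h (P (nat_lit 0)) (M (nat_lit 326692463252447)))) (T.h (P (nat_lit 0)) (P (nat_lit 222868762305024))))) (T.h (T.h (T.h (P (nat_lit 0)) (M (nat_lit 187195682953166847))) (P (nat_lit 0))) (T.h (T.h (P (nat_lit 0)) (M (nat_lit 89014422257279))) (P (nat_lit 0)))))))), (T.h (T.h (T.h (P (nat_lit 26694620568533267382008664817664)) (T.h (P (nat_lit 0)) (T.h (M (nat_lit 19226144290654388509212671)) (T.h (P (nat_lit 0)) (T.h (P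 (nat_lit 29353630521129697280)) (T.h (P (nat_lit 0)) (P (nat_lit 44261739818928)))))))) (T.h (P (nat_lit 0)) (T.h (T.h (M (nat_lit 19226144290654388509212671)) (T.h (P (nat_lit 0)) (T.h (P (nat_lit 454711437611958796288)) (T.h (P (nat_lit 0)) (P (nat_lit 83994971528592)))))) (T.h (P (nat_lit 0)) (T.h (T.h (P (nat_lit 29353630521129697280)) (T.h (P (nat_lit 0)) (P (nat_lit 83994971528592)))) (T.h (P (nat_lit 0)) (P (nat_lit 44261739818928)))))))) (T.h (T.h (P (nat_lit 0)) (T.h (T.h (P (nat_lit 0)) (T.h (M (nat_lit 718318553049811893878783)) (T.h (P (nat_lit 0)) (P (nat_lit 469099283300220928))))) (T.h (P (nat_lit 0)) (T.h (T.h (P (nat_lit 0)) (P (nat_lit 469099283300220928))) (P (nat_lit 0)))))) (T.h (T.h (T.h (M (nat_lit 134482788679247571686785023)) (T.h (P (nat_lit 0)) (T.h (M (nat_lit 289836485398545563647)) (T.h (P (nat_lit 0)) (P (nat_lit 48162526619760)))))) (T.h (P (nat_lit 0)) (T.h (T.h (M (nat_lit 289836485398545563647)) (T.h (P (nat_lit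 0)) (P (nat_lit 140014755056160)))) (T.h (P (nat_lit 0)) (P (nat_lit 48162526619760)))))) (T.h (T.h (P (nat_lit 0)) (T.h (T.h (P (nat_lit 0)) (M (nat_lit 159383767652761599))) (P (nat_lit 0)))) (T.h (T.h (T.h (P (nat_lit 449272591550118887424)) (T.h (P (nat_lit 0)) (M (nat_lit 140036581379231)))) (T.h (P (nat_lit 0)) (M (nat_lit 140036581379231)))) (T.h (P (nat_lit 0)) (P (nat_lit 335070000742752)))))))), (T.h (T.h (T.h (P (nat_lit 0)) (T.h (P (nat_lit 8678397838319954379703058432)) (T.h (P (nat_lit 0)) (T.h (P (nat_lit 74394072377337271287808)) (T.h (P (nat_lit 0)) (M (nat_lit 139219386486030335))))))) (T.h (P (nat_lit 0)) (T.h (T.h (P (nat_lit 0)) (T.h (M (nat_lit 341199079021657320325119)) (T.h (P (nat_lit 0)) (P (nat_lit 62581864780890112))))) (T.h (P (nat_lit 0)) (T.h (T.h (P (nat_lit 0)) (P (nat_lit 129826036928675840))) (P (nat_lit 0))))))) (T.h (T.h (P (nat_lit 0)) (T.h (T.h (M (nat_lit 96179261992023780361240575)) (T.h (P (nat_lit 0)) (M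 (nat_lit 53604245851376451583)))) (T.h (P (nat_lit 0)) (M (nat_lit 217121808635813429247))))) (T.h (T.h (T.h (P (nat_lit 0)) (T.h (P (nat_lit 378592996281651543670784)) (T.h (P (nat_lit 0)) (P (nat_lit 66756519374815232))))) (T.h (P (nat_lit 0)) (T.h (T.h (P (nat_lit 0)) (P (nat_lit 589473878395617280))) (P (nat_lit 0))))) (T.h (T.h (P (nat_lit 0)) (P (nat_lit 6753330301906190336))) (T.h (T.h (T.h (P (nat_lit 0)) (M (nat_lit 208185981911433215))) (P (nat_lit 0))) (P (nat_lit 0)))))))]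
def lP12_30 : List (T ℤ) := [(P (nat_lit 0)), (T.h (T.h (P (nat_lit 0)) (T.h (T.h (M (nat_lit 9343724940871618278828539903)) (T.h (P (nat_lit 0)) (T.h (P (nat_lit 64205573357566708154368)) (T.h (P (nat_lit 0)) (P (nat_lit 47923858409455616)))))) (T.h (P (nat_lit 0)) (T.h (T.h (M (nat_lit 187757415239054803337215)) (T.h (P (nat_lit 0)) (M (nat_lit 380645573583273983)))) (T.h (P (nat_lit 0)) (M (nat_lit 277558056058814463))))))) (T.h (T.h (T.h (P (nat_lit 0)) (T.h (M (nat_lit 82859173911079009919172607)) (T.h (P (nat_lit 0)) (T.h (P (nat_lit 83871374605893500928)) (T.h (P (nat_lit 0)) (P (nat_lit 453752910000))))))) (T.h (P (nat_lit 0)) (T.h (T.h (P (nat_lit 0)) (T.h (M (nat_lit 250430174907894595583)) (T.h (P (nat_lit 0)) (M (nat_lit 30149558717327))))) (T.h (P (nat_lit 0)) (T.h (T.h (P (nat_lit 0)) (P (nat_lit 37567969112640))) (P (nat_lit 0))))))) (T.h (T.h (P (nat_lit 0)) (T.h (T.h (M (nat_lit 229716604705040001662975)) (T.h (P (nat_lit 0)) (P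 (nat_lit 116488651810111488)))) (T.h (P (nat_lit 0)) (M (nat_lit 131253795336126463))))) (T.h (T.h (T.h (P (nat_lit 0)) (T.h (P (nat_lit 181086751955284393984)) (T.h (P (nat_lit 0)) (M (nat_lit 13428688508639))))) (T.h (P (nat_lit 0)) (T.h (T.h (P (nat_lit 0)) (M (nat_lit 85726898830271))) (P (nat_lit 0))))) (T.h (T.h (P (nat_lit 0)) (P (nat_lit 195184416612024320))) (T.h (T.h (T.h (P (nat_lit 0)) (P (nat_lit 23220499327104))) (P (nat_lit 0))) (P (nat_lit 0)))))))), (T.h (T.h (P (nat_lit 0)) (T.h (T.h (P (nat_lit 0)) (T.h (P (nat_lit 100406850484060940098600960)) (T.h (P (nat_lit 0)) (T.h (M (nat_lit 128456059387660730367)) (T.h (P (nat_lit 0)) (M (nat_lit 59828803719263))))))) (T.h (P (nat_lit 0)) (T.h (T.h (P (nat_lit 0)) (T.h (P (nat_lit 149060729167943827456)) (T.h (P (nat_lit 0)) (P (nat_lit 79993172440224))))) (T.h (P (nat_lit 0)) (T.h (T.h (P (nat_lit 0)) (P (nat_lit 8562378236832))) (P (nat_lit 0)))))))) (T.h (T.h (T.h (P (nat_lit 20336825086277710617774129152))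 (T.h (P (nat_lit 0)) (T.h (M (nat_lit 35675785022990670888959)) (T.h (P (nat_lit 0)) (M (nat_lit 36241238331195391)))))) (T.h (P (nat_lit 0)) (T.h (T.h (P (nat_lit 66911026800784601776128)) (T.h (P (nat_lit 0)) (M (nat_lit 373595198247862271)))) (T.h (P (nat_lit 0)) (M (nat_lit 135904604962209791)))))) (T.h (T.h (P (nat_lit 0)) (T.h (T.h (P (nat_lit 0)) (T.h (P (nat_lit 932873236081316724736)) (T.h (P (nat_lit 0)) (M (nat_lit 105852932695583))))) (T.h (P (nat_lit 0)) (T.h (T.h (P (nat_lit 0)) (M (nat_lit 187314034551551))) (P (nat_lit 0)))))) (T.h (T.h (T.h (M (nat_lit 19845638658273772044287)) (T.h (P (nat_lit 0)) (P (nat_lit 61532118309339136)))) (T.h (P (nat_lit 0)) (M (nat_lit 162785966131183615)))) (T.h (T.h (P (nat_lit 0)) (T.h (T.h (P (nat_lit 0)) (M (nat_lit 493402670761247))) (P (nat_lit 0)))) (M (nat_lit 172462478615511039))))))), (T.h (T.h (P (nat_lit 0)) (T.h (T.h (P (nat_lit 8678397838319954379703058432)) (T.h (P (nat_lit 0)) (T.h (M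 (nat_lit 341199079021657320325119)) (T.h (P (nat_lit 0)) (P (nat_lit 129826036928675840)))))) (T.h (P (nat_lit 0)) (T.h (T.h (P (nat_lit 74394072377337271287808)) (T.h (P (nat_lit 0)) (P (nat_lit 62581864780890112)))) (T.h (P (nat_lit 0)) (M (nat_lit 139219386486030335))))))) (T.h (T.h (T.h (P (nat_lit 0)) (T.h (M (nat_lit 96179261992023780361240575)) (T.h (P (nat_lit 0)) (M (nat_lit 217121808635813429247))))) (T.h (P (nat_lit 0)) (T.h (T.h (P (nat_lit 0)) (M (nat_lit 53604245851376451583))) (P (nat_lit 0))))) (T.h (T.h (P (nat_lit 0)) (T.h (T.h (P (nat_lit 378592996281651543670784)) (T.h (P (nat_lit 0)) (P (nat_lit 589473878395617280)))) (T.h (P (nat_lit 0)) (P (nat_lit 66756519374815232))))) (T.h (T.h (T.h (P (nat_lit 0)) (P (nat_lit 6753330301906190336))) (P (nat_lit 0))) (T.h (T.h (P (nat_lit 0)) (M (nat_lit 208185981911433215))) (P (nat_lit 0))))))), (T.h (T.h (T.h (P (nat_lit 0)) (T.h (M (nat_lit 6456312362806659015363264511)) (T.h (P (nat_lit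 0)) (T.h (P (nat_lit 12390984721001313468416)) (T.h (P (nat_lit 0)) (P (nat_lit 4397787315994624))))))) (T.h (P (nat_lit 0)) (T.h (T.h (P (nat_lit 0)) (T.h (P (nat_lit 125777644932406160916480)) (T.h (P (nat_lit 0)) (M (nat_lit 41527454277631999))))) (T.h (P (nat_lit 0)) (T.h (T.h (P (nat_lit 0)) (M (nat_lit 395116668046737407))) (P (nat_lit 0))))))) (T.h (T.h (P (nat_lit 0)) (T.h (T.h (M (nat_lit 80578208822235707606040575)) (T.h (P (nat_lit 0)) (P (nat_lit 13692151489928101888)))) (T.h (P (nat_lit 0)) (M (nat_lit 818439350985299066879))))) (T.h (T.h (T.h (P (nat_lit 0)) (T.h (M (nat_lit 29965683693234268667903)) (T.h (P (nat_lit 0)) (M (nat_lit 44975706816479231))))) (T.h (P (nat_lit 0)) (T.h (T.h (P (nat_lit 0)) (M (nat_lit 860121343074598911))) (P (nat_lit 0))))) (T.h (T.h (P (nat_lit 0)) (M (nat_lit 228257723608299732991))) (T.h (T.h (T.h (P (nat_lit 0)) (M (nat_lit 2646419912753151))) (P (nat_lit 0))) (P (nat_lit 0))))))), (T.h (T.h (T.h (P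 (nat_lit 2702654388380850163848774156288)) (T.h (P (nat_lit 0)) (T.h (P (nat_lit 5204542924563187540951040)) (T.h (P (nat_lit 0)) (T.h (M (nat_lit 5967627830152921087)) (T.h (P (nat_lit 0)) (M (nat_lit 2380305145823)))))))) (T.h (P (nat_lit 0)) (T.h (T.h (P (nat_lit 1227016224249122383724544)) (T.h (P (nat_lit 0)) (T.h (M (nat_lit 37801069697948450815)) (T.h (P (nat_lit 0)) (P (nat_lit 51762713890032)))))) (T.h (P (nat_lit 0)) (T.h (T.h (M (nat_lit 220068457998087880703)) (T.h (P (nat_lit 0)) (P (nat_lit 41722221577392)))) (T.h (P (nat_lit 0)) (M (nat_lit 123801535670687)))))))) (T.h (T.h (P (nat_lit 0)) (T.h (T.h (P (nat_lit 0)) (T.h (M (nat_lit 163346086602152943288319)) (T.h (P (nat_lit 0)) (P (nat_lit 180425386868539392))))) (T.h (P (nat_lit 0)) (T.h (T.h (P (nat_lit 0)) (M (nat_lit 255115424693092351))) (P (nat_lit 0)))))) (T.h (T.h (T.h (P (nat_lit 1227016224249122383724544)) (T.h (P (nat_lit 0)) (T.h (M (nat_lit 37801069697948450815)) (T.h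 (P (nat_lit 0)) (P (nat_lit 51762713890032)))))) (T.h (P (nat_lit 0)) (T.h (T.h (M (nat_lit 276733554994396004351)) (T.h (P (nat_lit 0)) (P (nat_lit 330438239353728)))) (T.h (P (nat_lit 0)) (P (nat_lit 8403018471936)))))) (T.h (T.h (P (nat_lit 0)) (T.h (T.h (P (nat_lit 0)) (M (nat_lit 255115424693092351))) (P (nat_lit 0)))) (T.h (T.h (T.h (M (nat_lit 220068457998087880703)) (T.h (P (nat_lit 0)) (P (nat_lit 41722221577392)))) (T.h (P (nat_lit 0)) (P (nat_lit 8403018471936)))) (T.h (P (nat_lit 0)) (M (nat_lit 123801535670687)))))))), (T.h (T.h (T.h (P (nat_lit 0)) (T.h (M (nat_lit 23982801289164216537089835007)) (T.h (P (nat_lit 0)) (T.h (M (nat_lit 40637152726621985177599)) (T.h (P (nat_lit 0)) (P (nat_lit 30478663296221184))))))) (T.h (P (nat_lit 0)) (T.h (T.h (P (nat_lit 0)) (T.h (M (nat_lit 103457444550888944304127)) (T.h (P (nat_lit 0)) (M (nat_lit 77636821944369151))))) (T.h (P (nat_lit 0)) (T.h (T.h (P (nat_lit 0)) (P (nat_lit 83546188554764288)))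 (P (nat_lit 0))))))) (T.h (T.h (P (nat_lit 0)) (T.h (T.h (P (nat_lit 82022475448791551103205376)) (T.h (P (nat_lit 0)) (P (nat_lit 145578080354680438784)))) (T.h (P (nat_lit 0)) (P (nat_lit 285002259208458993664))))) (T.h (T.h (T.h (P (nat_lit 0)) (T.h (M (nat_lit 103457444550888944304127)) (T.h (P (nat_lit 0)) (M (nat_lit 77636821944369151))))) (T.h (P (nat_lit 0)) (T.h (T.h (P (nat_lit 0)) (P (nat_lit 105359980908511232))) (P (nat_lit 0))))) (T.h (T.h (P (nat_lit 0)) (P (nat_lit 285002259208458993664))) (T.h (T.h (T.h (P (nat_lit 0)) (P (nat_lit 83546188554764288))) (P (nat_lit 0))) (P (nat_lit 0))))))), (P (nat_lit 0))]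
def lP12_31 : List (T ℤ) := [(T.h (T.h (P (nat_lit 0)) (T.h (T.h (P (nat_lit 4622686116289818125836222464)) (T.h (P (nat_lit 0)) (T.h (P (nat_lit 5038203398620824207360)) (T.h (P (nat_lit 0)) (P (nat_lit 30035550910087168)))))) (T.h (P (nat_lit 0)) (T.h (T.h (P (nat_lit 67326681209505262338048)) (T.h (P (nat_lit 0)) (M (nat_lit 12566762318135295)))) (T.h (P (nat_lit 0)) (P (nat_lit 73889396061962240))))))) (T.h (T.h (T.h (P (nat_lit 0)) (T.h (P (nat_lit 32368617483080180722302976)) (T.h (P (nat_lit 0)) (M (nat_lit 30422275876538286079))))) (T.h (P (nat_lit 0)) (T.h (T.h (P (nat_lit 0)) (P (nat_lit 210714216620942688256))) (P (nat_lit 0))))) (T.h (T.h (P (nat_lit 0)) (T.h (T.h (P (nat_lit 210632273554275901112320)) (T.h (P (nat_lit 0)) (M (nat_lit 257875223365943295)))) (T.h (P (nat_lit 0)) (M (nat_lit 251305719263821823))))) (T.h (T.h (T.h (P (nat_lit 0)) (P (nat_lit 70812932436679196672))) (P (nat_lit 0))) (T.h (T.h (P (nat_lit 0)) (P (nat_lit 170806740523974656)))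 (P (nat_lit 0))))))), (P (nat_lit 0)), (P (nat_lit 0)), (P (nat_lit 0)), (T.h (T.h (T.h (P (nat_lit 3870015373812671513756142927872)) (T.h (P (nat_lit 0)) (T.h (M (nat_lit 20757188070640758137290751)) (T.h (P (nat_lit 0)) (T.h (P (nat_lit 7990465997452607488)) (T.h (P (nat_lit 0)) (M (nat_lit 3241983463695)))))))) (T.h (P (nat_lit 0)) (T.h (T.h (M (nat_lit 755077294296824536891391)) (T.h (P (nat_lit 0)) (T.h (P (nat_lit 10661217573271502848)) (T.h (P (nat_lit 0)) (P (nat_lit 60640144419424)))))) (T.h (P (nat_lit 0)) (T.h (T.h (P (nat_lit 6457243696533340160)) (T.h (P (nat_lit 0)) (P (nat_lit 33397600486544)))) (T.h (P (nat_lit 0)) (P (nat_lit 1603954262816)))))))) (T.h (T.h (P (nat_lit 0)) (T.h (T.h (P (nat_lit 0)) (T.h (M (nat_lit 49185464827115210801151)) (T.h (P (nat_lit 0)) (M (nat_lit 43570629507317759))))) (T.h (P (nat_lit 0)) (T.h (T.h (P (nat_lit 0)) (P (nat_lit 32582121263005696))) (P (nat_lit 0)))))) (T.h (T.h (T.h (P (nat_lit 10770081596026253054312448))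 (T.h (P (nat_lit 0)) (T.h (M (nat_lit 91701502504528248831)) (T.h (P (nat_lit 0)) (P (nat_lit 37820487044176)))))) (T.h (P (nat_lit 0)) (T.h (T.h (M (nat_lit 3557524032414810111)) (T.h (P (nat_lit 0)) (M (nat_lit 57349274634807)))) (T.h (P (nat_lit 0)) (P (nat_lit 25759402964336)))))) (T.h (T.h (P (nat_lit 0)) (T.h (T.h (P (nat_lit 0)) (M (nat_lit 293380401129521151))) (P (nat_lit 0)))) (T.h (T.h (T.h (M (nat_lit 9487039978895572991)) (T.h (P (nat_lit 0)) (M (nat_lit 116785106335719)))) (T.h (P (nat_lit 0)) (P (nat_lit 23039435579456)))) (T.h (P (nat_lit 0)) (M (nat_lit 1826553431591)))))))), (P (nat_lit 0)), (T.h (T.h (T.h (P (nat_lit 0)) (T.h (P (nat_lit 0)) (T.h (P (nat_lit 17527303317340220909682688)) (T.h (P (nat_lit 0)) (P (nat_lit 362309204395631312896)))))) (T.h (P (nat_lit 0)) (T.h (T.h (P (nat_lit 0)) (T.h (P (nat_lit 0)) (M (nat_lit 81314502376517795839)))) (P (nat_lit 0))))) (T.h (T.h (P (nat_lit 0)) (T.h (T.h (P (nat_lit 0)) (T.h (P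 (nat_lit 0)) (T.h (P (nat_lit 0)) (P (nat_lit 339787764753629184))))) (P (nat_lit 0)))) (T.h (T.h (M (nat_lit 17527303317340220909682687)) (T.h (P (nat_lit 0)) (P (nat_lit 81314502376517795840)))) (T.h (T.h (P (nat_lit 0)) (T.h (T.h (P (nat_lit 0)) (M (nat_lit 339787764753629183))) (P (nat_lit 0)))) (M (nat_lit 362309204395631312895)))))), (P (nat_lit 0))]
def lP12_32 : List (T ℤ) := [(P (nat_lit 0)), (P (nat_lit 0)), (T.h (T.h (P (nat_lit 0)) (T.h (T.h (P (nat_lit 0)) (T.h (P (nat_lit 11939961715778337921564672)) (T.h (P (nat_lit 0)) (T.h (P (nat_lit 1688535307865030656)) (T.h (P (nat_lit 0)) (M (nat_lit 22904836129727))))))) (T.h (P (nat_lit 0)) (T.h (T.h (P (nat_lit 0)) (T.h (P (nat_lit 1688535307865030656)) (T.h (P (nat_lit 0)) (P (nat_lit 38722188393792))))) (T.h (P (nat_lit 0)) (T.h (T.h (P (nat_lit 0)) (M (nat_lit 22904836129727))) (P (nat_lit 0)))))))) (T.h (T.h (T.h (P (nat_lit 3157764342190315599474720768)) (T.h (P (nat_lit 0)) (T.h (P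 (nat_lit 13418219508272516300800)) (T.h (P (nat_lit 0)) (M (nat_lit 29677816441864191)))))) (T.h (P (nat_lit 0)) (T.h (T.h (P (nat_lit 13418219508272516300800)) (T.h (P (nat_lit 0)) (M (nat_lit 154684680090681343)))) (T.h (P (nat_lit 0)) (M (nat_lit 29677816441864191)))))) (T.h (T.h (P (nat_lit 0)) (T.h (T.h (P (nat_lit 0)) (T.h (P (nat_lit 415848481583733407744)) (T.h (P (nat_lit 0)) (P (nat_lit 67278878715664))))) (T.h (P (nat_lit 0)) (T.h (T.h (P (nat_lit 0)) (P (nat_lit 67278878715664))) (P (nat_lit 0)))))) (T.h (T.h (T.h (P (nat_lit 1779386970419150979072)) (T.h (P (nat_lit 0)) (P (nat_lit 25416967647199232)))) (T.h (P (nat_lit 0)) (P (nat_lit 25416967647199232)))) (T.h (T.h (P (nat_lit 0)) (T.h (T.h (P (nat_lit 0)) (P (nat_lit 479776851501888))) (P (nat_lit 0)))) (M (nat_lit 5933406502256639))))))), (T.h (T.h (P (nat_lit 0)) (T.h (T.h (P (nat_lit 2084092978544746558608375808)) (T.h (P (nat_lit 0)) (T.h (M (nat_lit 13105697841355797037055))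 (T.h (P (nat_lit 0)) (M (nat_lit 21643633645551615)))))) (T.h (P (nat_lit 0)) (T.h (T.h (M (nat_lit 2445534956294129057791)) (T.h (P (nat_lit 0)) (M (nat_lit 10769564384280575)))) (T.h (P (nat_lit 0)) (P (nat_lit 2747498126852096))))))) (T.h (T.h (T.h (P (nat_lit 0)) (T.h (P (nat_lit 3505100089068918241492992)) (T.h (P (nat_lit 0)) (T.h (M (nat_lit 3206093737427992575)) (T.h (P (nat_lit 0)) (M (nat_lit 2171138809055))))))) (T.h (P (nat_lit 0)) (T.h (T.h (P (nat_lit 0)) (T.h (P (nat_lit 8688976552274165760)) (T.h (P (nat_lit 0)) (P (nat_lit 7731991111936))))) (T.h (P (nat_lit 0)) (T.h (T.h (P (nat_lit 0)) (M (nat_lit 6391443606815))) (P (nat_lit 0))))))) (T.h (T.h (P (nat_lit 0)) (T.h (T.h (M (nat_lit 14112679512842935730175)) (T.h (P (nat_lit 0)) (M (nat_lit 45175380232437759)))) (T.h (P (nat_lit 0)) (P (nat_lit 3081846973022208))))) (T.h (T.h (T.h (P (nat_lit 0)) (T.h (P (nat_lit 83778115168194527232)) (T.h (P (nat_lit 0)) (P (nat_lit 19834863972112)))))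 (T.h (P (nat_lit 0)) (T.h (T.h (P (nat_lit 0)) (P (nat_lit 19291176429520))) (P (nat_lit 0))))) (T.h (T.h (P (nat_lit 0)) (M (nat_lit 145933282261073919))) (T.h (T.h (T.h (P (nat_lit 0)) (M (nat_lit 335941989346463))) (P (nat_lit 0))) (P (nat_lit 0)))))))), (T.h (T.h (P (nat_lit 0)) (T.h (T.h (P (nat_lit 0)) (T.h (M (nat_lit 34168276723325707512446975)) (T.h (P (nat_lit 0)) (T.h (M (nat_lit 184559467862912139263)) (T.h (P (nat_lit 0)) (P (nat_lit 18104669004960))))))) (T.h (P (nat_lit 0)) (T.h (T.h (P (nat_lit 0)) (T.h (M (nat_lit 18759585921224409087)) (T.h (P (nat_lit 0)) (M (nat_lit 3182115287471))))) (T.h (P (nat_lit 0)) (T.h (T.h (P (nat_lit 0)) (M (nat_lit 2216404253375))) (P (nat_lit 0)))))))) (T.h (T.h (T.h (P (nat_lit 13727314128029000225825751040)) (T.h (P (nat_lit 0)) (T.h (M (nat_lit 253322595286566505021439)) (T.h (P (nat_lit 0)) (M (nat_lit 626724609773207551)))))) (T.h (P (nat_lit 0)) (T.h (T.h (M (nat_lit 97448385060661712912383))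 (T.h (P (nat_lit 0)) (P (nat_lit 447864858345308160)))) (T.h (P (nat_lit 0)) (M (nat_lit 61465064594898943)))))) (T.h (T.h (P (nat_lit 0)) (T.h (T.h (P (nat_lit 0)) (T.h (M (nat_lit 233064687895054385151)) (T.h (P (nat_lit 0)) (M (nat_lit 49743205508255))))) (T.h (P (nat_lit 0)) (T.h (T.h (P (nat_lit 0)) (P (nat_lit 6806561621472))) (P (nat_lit 0)))))) (T.h (T.h (T.h (M (nat_lit 44498876049642385047551)) (T.h (P (nat_lit 0)) (P (nat_lit 34787250853347328)))) (T.h (P (nat_lit 0)) (P (nat_lit 460808267863818240)))) (T.h (T.h (P (nat_lit 0)) (T.h (T.h (P (nat_lit 0)) (M (nat_lit 154815030088991))) (P (nat_lit 0)))) (P (nat_lit 222588467485999104))))))), (T.h (T.h (P (nat_lit 0)) (T.h (T.h (M (nat_lit 3335675229011176419139518463)) (T.h (P (nat_lit 0)) (T.h (M (nat_lit 7048662301444117889023)) (T.h (P (nat_lit 0)) (M (nat_lit 55932866233335807)))))) (T.h (P (nat_lit 0)) (T.h (T.h (M (nat_lit 2556215325078874750975)) (T.h (P (nat_lit 0)) (P (nat_lit 10764761764429824))))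 (T.h (P (nat_lit 0)) (P (nat_lit 3963771170832384))))))) (T.h (T.h (T.h (P (nat_lit 0)) (T.h (M (nat_lit 1974649089754001720737791)) (T.h (P (nat_lit 0)) (T.h (M (nat_lit 12150048673841020927)) (T.h (P (nat_lit 0)) (M (nat_lit 153484319177423))))))) (T.h (P (nat_lit 0)) (T.h (T.h (P (nat_lit 0)) (T.h (M (nat_lit 18276632113639849983)) (T.h (P (nat_lit 0)) (P (nat_lit 157454749658304))))) (T.h (P (nat_lit 0)) (T.h (T.h (P (nat_lit 0)) (M (nat_lit 235517594865407))) (P (nat_lit 0))))))) (T.h (T.h (P (nat_lit 0)) (T.h (T.h (P (nat_lit 24602323935072788414464)) (T.h (P (nat_lit 0)) (P (nat_lit 69244562661801984)))) (T.h (P (nat_lit 0)) (M (nat_lit 16203078846971903))))) (T.h (T.h (T.h (P (nat_lit 0)) (T.h (P (nat_lit 365582842032417669120)) (T.h (P (nat_lit 0)) (P (nat_lit 356919587573616))))) (T.h (P (nat_lit 0)) (T.h (T.h (P (nat_lit 0)) (M (nat_lit 111663856591199))) (P (nat_lit 0))))) (T.h (T.h (P (nat_lit 0)) (P (nat_lit 227435957508997120))) (T.h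 (T.h (T.h (P (nat_lit 0)) (P (nat_lit 418099953986208))) (P (nat_lit 0))) (P (nat_lit 0)))))))), (T.h (T.h (P (nat_lit 0)) (T.h (T.h (P (nat_lit 0)) (T.h (P (nat_lit 32368617483080180722302976)) (T.h (P (nat_lit 0)) (P (nat_lit 70812932436679196672))))) (T.h (P (nat_lit 0)) (T.h (T.h (P (nat_lit 0)) (M (nat_lit 30422275876538286079))) (P (nat_lit 0)))))) (T.h (T.h (T.h (P (nat_lit 4622686116289818125836222464)) (T.h (P (nat_lit 0)) (T.h (P (nat_lit 210632273554275901112320)) (T.h (P (nat_lit 0)) (P (nat_lit 170806740523974656)))))) (T.h (P (nat_lit 0)) (T.h (T.h (P (nat_lit 5038203398620824207360)) (T.h (P (nat_lit 0)) (M (nat_lit 257875223365943295)))) (T.h (P (nat_lit 0)) (P (nat_lit 30035550910087168)))))) (T.h (T.h (P (nat_lit 0)) (T.h (T.h (P (nat_lit 0)) (P (nat_lit 210714216620942688256))) (P (nat_lit 0)))) (T.h (T.h (T.h (P (nat_lit 67326681209505262338048)) (T.h (P (nat_lit 0)) (M (nat_lit 251305719263821823)))) (T.h (P (nat_lit 0)) (M (nat_lit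 12566762318135295)))) (T.h (P (nat_lit 0)) (P (nat_lit 73889396061962240))))))), (T.h (T.h (T.h (P (nat_lit 3870015373812671513756142927872)) (T.h (P (nat_lit 0)) (T.h (M (nat_lit 755077294296824536891391)) (T.h (P (nat_lit 0)) (T.h (P (nat_lit 6457243696533340160)) (T.h (P (nat_lit 0)) (P (nat_lit 1603954262816)))))))) (T.h (P (nat_lit 0)) (T.h (T.h (M (nat_lit 20757188070640758137290751)) (T.h (P (nat_lit 0)) (T.h (P (nat_lit 10661217573271502848)) (T.h (P (nat_lit 0)) (P (nat_lit 33397600486544)))))) (T.h (P (nat_lit 0)) (T.h (T.h (P (nat_lit 7990465997452607488)) (T.h (P (nat_lit 0)) (P (nat_lit 60640144419424)))) (T.h (P (nat_lit 0)) (M (nat_lit 3241983463695)))))))) (T.h (T.h (P (nat_lit 0)) (T.h (T.h (P (nat_lit 0)) (T.h (M (nat_lit 49185464827115210801151)) (T.h (P (nat_lit 0)) (P (nat_lit 32582121263005696))))) (T.h (P (nat_lit 0)) (T.h (T.h (P (nat_lit 0)) (M (nat_lit 43570629507317759))) (P (nat_lit 0)))))) (T.h (T.h (T.h (P (nat_lit 10770081596026253054312448))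 (T.h (P (nat_lit 0)) (T.h (M (nat_lit 3557524032414810111)) (T.h (P (nat_lit 0)) (P (nat_lit 25759402964336)))))) (T.h (P (nat_lit 0)) (T.h (T.h (M (nat_lit 91701502504528248831)) (T.h (P (nat_lit 0)) (M (nat_lit 57349274634807)))) (T.h (P (nat_lit 0)) (P (nat_lit 37820487044176)))))) (T.h (T.h (P (nat_lit 0)) (T.h (T.h (P (nat_lit 0)) (M (nat_lit 293380401129521151))) (P (nat_lit 0)))) (T.h (T.h (T.h (M (nat_lit 9487039978895572991)) (T.h (P (nat_lit 0)) (P (nat_lit 23039435579456)))) (T.h (P (nat_lit 0)) (M (nat_lit 116785106335719)))) (T.h (P (nat_lit 0)) (M (nat_lit 1826553431591))))))))]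
def lP12_33 : List (T ℤ) := [(T.h (T.h (T.h (P (nat_lit 0)) (T.h (P (nat_lit 2084092978544746558608375808)) (T.h (P (nat_lit 0)) (T.h (M (nat_lit 2445534956294129057791)) (T.h (P (nat_lit 0)) (P (nat_lit 2747498126852096))))))) (T.h (P (nat_lit 0)) (T.h (T.h (P (nat_lit 0)) (T.h (M (nat_lit 13105697841355797037055)) (T.h (P (nat_lit 0)) (M (nat_lit 10769564384280575))))) (T.h (P (nat_lit 0)) (T.h (T.h (P (nat_lit 0)) (M (nat_lit 21643633645551615))) (P (nat_lit 0))))))) (T.h (T.h (P (nat_lit 0)) (T.h (T.h (P (nat_lit 3505100089068918241492992)) (T.h (P (nat_lit 0)) (T.h (P (nat_lit 8688976552274165760)) (T.h (P (nat_lit 0)) (M (nat_lit 6391443606815)))))) (T.h (P (nat_lit 0)) (T.h (T.h (M (nat_lit 3206093737427992575)) (T.h (P (nat_lit 0)) (P (nat_lit 7731991111936)))) (T.h (P (nat_lit 0)) (M (nat_lit 2171138809055))))))) (T.h (T.h (T.h (P (nat_lit 0)) (T.h (M (nat_lit 14112679512842935730175)) (T.h (P (nat_lit 0)) (P (nat_lit 3081846973022208)))))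 (T.h (P (nat_lit 0)) (T.h (T.h (P (nat_lit 0)) (M (nat_lit 45175380232437759))) (P (nat_lit 0))))) (T.h (T.h (P (nat_lit 0)) (T.h (T.h (P (nat_lit 83778115168194527232)) (T.h (P (nat_lit 0)) (P (nat_lit 19291176429520)))) (T.h (P (nat_lit 0)) (P (nat_lit 19834863972112))))) (T.h (T.h (T.h (P (nat_lit 0)) (M (nat_lit 145933282261073919))) (P (nat_lit 0))) (T.h (T.h (P (nat_lit 0)) (M (nat_lit 335941989346463))) (P (nat_lit 0)))))))), (T.h (T.h (T.h (M (nat_lit 9452133102912606476227670179839)) (T.h (P (nat_lit 0)) (T.h (M (nat_lit 40413189084372141902659583)) (T.h (P (nat_lit 0)) (T.h (P (nat_lit 111736560907309809664)) (T.h (P (nat_lit 0)) (M (nat_lit 1272585424271)))))))) (T.h (P (nat_lit 0)) (T.h (T.h (M (nat_lit 40413189084372141902659583)) (T.h (P (nat_lit 0)) (T.h (M (nat_lit 305855031301166333951)) (T.h (P (nat_lit 0)) (M (nat_lit 54304868692991)))))) (T.h (P (nat_lit 0)) (T.h (T.h (P (nat_lit 111736560907309809664)) (T.h (P (nat_lit 0)) (M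 (nat_lit 54304868692991)))) (T.h (P (nat_lit 0)) (M (nat_lit 1272585424271)))))))) (T.h (T.h (P (nat_lit 0)) (T.h (T.h (P (nat_lit 0)) (T.h (P (nat_lit 129358684063421519888384)) (T.h (P (nat_lit 0)) (P (nat_lit 442378973112631296))))) (T.h (P (nat_lit 0)) (T.h (T.h (P (nat_lit 0)) (P (nat_lit 442378973112631296))) (P (nat_lit 0)))))) (T.h (T.h (T.h (P (nat_lit 1660098555983629582860288)) (T.h (P (nat_lit 0)) (T.h (M (nat_lit 767338582760713355263)) (T.h (P (nat_lit 0)) (M (nat_lit 106775006108063)))))) (T.h (P (nat_lit 0)) (T.h (T.h (M (nat_lit 767338582760713355263)) (T.h (P (nat_lit 0)) (M (nat_lit 51987151445087)))) (T.h (P (nat_lit 0)) (M (nat_lit 106775006108063)))))) (T.h (T.h (P (nat_lit 0)) (T.h (T.h (P (nat_lit 0)) (M (nat_lit 519204472370626559))) (P (nat_lit 0)))) (T.h (T.h (T.h (P (nat_lit 64679514566551404544)) (T.h (P (nat_lit 0)) (P (nat_lit 86654082495648)))) (T.h (P (nat_lit 0)) (P (nat_lit 86654082495648)))) (T.h (P (nat_lit 0))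 (P (nat_lit 5727466517568)))))))), (T.h (T.h (T.h (P (nat_lit 0)) (T.h (M (nat_lit 10238001575438095358980259839)) (T.h (P (nat_lit 0)) (T.h (P (nat_lit 4498526712991768903680)) (T.h (P (nat_lit 0)) (M (nat_lit 5867200945930239))))))) (T.h (P (nat_lit 0)) (T.h (T.h (P (nat_lit 0)) (T.h (M (nat_lit 32773840107748108271615)) (T.h (P (nat_lit 0)) (M (nat_lit 13902498383790079))))) (T.h (P (nat_lit 0)) (T.h (T.h (P (nat_lit 0)) (P (nat_lit 105856962375598080))) (P (nat_lit 0))))))) (T.h (T.h (P (nat_lit 0)) (T.h (T.h (M (nat_lit 65918469378897187897868287)) (T.h (P (nat_lit 0)) (T.h (M (nat_lit 115437795602681823231)) (T.h (P (nat_lit 0)) (M (nat_lit 212902374284207)))))) (T.h (P (nat_lit 0)) (T.h (T.h (P (nat_lit 258219709894464897024)) (T.h (P (nat_lit 0)) (P (nat_lit 135400654107216)))) (T.h (P (nat_lit 0)) (P (nat_lit 6090557697360))))))) (T.h (T.h (T.h (P (nat_lit 0)) (T.h (M (nat_lit 148288026953148786540543)) (T.h (P (nat_lit 0)) (M (nat_lit 902612114225659903)))))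 (T.h (P (nat_lit 0)) (T.h (T.h (P (nat_lit 0)) (P (nat_lit 519943386516488192))) (P (nat_lit 0))))) (T.h (T.h (P (nat_lit 0)) (T.h (T.h (M (nat_lit 204190865734695387135)) (T.h (P (nat_lit 0)) (P (nat_lit 480696106885200)))) (T.h (P (nat_lit 0)) (M (nat_lit 40308873541055))))) (T.h (T.h (T.h (P (nat_lit 0)) (P (nat_lit 391068373448163328))) (P (nat_lit 0))) (T.h (T.h (P (nat_lit 0)) (P (nat_lit 88368910367184))) (P (nat_lit 0)))))))), (T.h (T.h (T.h (P (nat_lit 6956814252741079948443380613120)) (T.h (P (nat_lit 0)) (T.h (P (nat_lit 12512308161857980632924160)) (T.h (P (nat_lit 0)) (P (nat_lit 31284549361191616512)))))) (T.h (P (nat_lit 0)) (T.h (T.h (P (nat_lit 9834762153925330696404992)) (T.h (P (nat_lit 0)) (P (nat_lit 89162961353009266688)))) (T.h (P (nat_lit 0)) (M (nat_lit 907467354663813119)))))) (T.h (T.h (P (nat_lit 0)) (T.h (T.h (P (nat_lit 0)) (T.h (M (nat_lit 245888729080067128295423)) (T.h (P (nat_lit 0)) (P (nat_lit 207377764562108416)))))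 (T.h (P (nat_lit 0)) (T.h (T.h (P (nat_lit 0)) (P (nat_lit 200925852248375296))) (P (nat_lit 0)))))) (T.h (T.h (T.h (P (nat_lit 7835852522007655234928640)) (T.h (P (nat_lit 0)) (P (nat_lit 696574428408140791808)))) (T.h (P (nat_lit 0)) (M (nat_lit 83243563760396271615)))) (T.h (T.h (P (nat_lit 0)) (T.h (T.h (P (nat_lit 0)) (P (nat_lit 281155397963546624))) (P (nat_lit 0)))) (P (nat_lit 190603457277588406272)))))), (P (nat_lit 0)), (T.h (T.h (P (nat_lit 0)) (T.h (T.h (P (nat_lit 0)) (T.h (M (nat_lit 34168276723325707512446975)) (T.h (P (nat_lit 0)) (T.h (M (nat_lit 18759585921224409087)) (T.h (P (nat_lit 0)) (M (nat_lit 2216404253375))))))) (T.h (P (nat_lit 0)) (T.h (T.h (P (nat_lit 0)) (T.h (M (nat_lit 184559467862912139263)) (T.h (P (nat_lit 0)) (M (nat_lit 3182115287471))))) (T.h (P (nat_lit 0)) (T.h (T.h (P (nat_lit 0)) (P (nat_lit 18104669004960))) (P (nat_lit 0)))))))) (T.h (T.h (T.h (P (nat_lit 13727314128029000225825751040)) (T.h (P (nat_lit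 0)) (T.h (M (nat_lit 97448385060661712912383)) (T.h (P (nat_lit 0)) (M (nat_lit 61465064594898943)))))) (T.h (P (nat_lit 0)) (T.h (T.h (M (nat_lit 253322595286566505021439)) (T.h (P (nat_lit 0)) (P (nat_lit 447864858345308160)))) (T.h (P (nat_lit 0)) (M (nat_lit 626724609773207551)))))) (T.h (T.h (P (nat_lit 0)) (T.h (T.h (P (nat_lit 0)) (T.h (M (nat_lit 233064687895054385151)) (T.h (P (nat_lit 0)) (P (nat_lit 6806561621472))))) (T.h (P (nat_lit 0)) (T.h (T.h (P (nat_lit 0)) (M (nat_lit 49743205508255))) (P (nat_lit 0)))))) (T.h (T.h (T.h (M (nat_lit 44498876049642385047551)) (T.h (P (nat_lit 0)) (P (nat_lit 460808267863818240)))) (T.h (P (nat_lit 0)) (P (nat_lit 34787250853347328)))) (T.h (T.h (P (nat_lit 0)) (T.h (T.h (P (nat_lit 0)) (M (nat_lit 154815030088991))) (P (nat_lit 0)))) (P (nat_lit 222588467485999104))))))), (T.h (T.h (P (nat_lit 0)) (T.h (T.h (M (nat_lit 10238001575438095358980259839)) (T.h (P (nat_lit 0)) (T.h (M (nat_lit 32773840107748108271615))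 (T.h (P (nat_lit 0)) (P (nat_lit 105856962375598080)))))) (T.h (P (nat_lit 0)) (T.h (T.h (P (nat_lit 4498526712991768903680)) (T.h (P (nat_lit 0)) (M (nat_lit 13902498383790079)))) (T.h (P (nat_lit 0)) (M (nat_lit 5867200945930239))))))) (T.h (T.h (T.h (P (nat_lit 0)) (T.h (M (nat_lit 65918469378897187897868287)) (T.h (P (nat_lit 0)) (T.h (P (nat_lit 258219709894464897024)) (T.h (P (nat_lit 0)) (P (nat_lit 6090557697360))))))) (T.h (P (nat_lit 0)) (T.h (T.h (P (nat_lit 0)) (T.h (M (nat_lit 115437795602681823231)) (T.h (P (nat_lit 0)) (P (nat_lit 135400654107216))))) (T.h (P (nat_lit 0)) (T.h (T.h (P (nat_lit 0)) (M (nat_lit 212902374284207))) (P (nat_lit 0))))))) (T.h (T.h (P (nat_lit 0)) (T.h (T.h (M (nat_lit 148288026953148786540543)) (T.h (P (nat_lit 0)) (P (nat_lit 519943386516488192)))) (T.h (P (nat_lit 0)) (M (nat_lit 902612114225659903))))) (T.h (T.h (T.h (P (nat_lit 0)) (T.h (M (nat_lit 204190865734695387135)) (T.h (P (nat_lit 0)) (M (nat_lit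 40308873541055))))) (T.h (P (nat_lit 0)) (T.h (T.h (P (nat_lit 0)) (P (nat_lit 480696106885200))) (P (nat_lit 0))))) (T.h (T.h (P (nat_lit 0)) (P (nat_lit 391068373448163328))) (T.h (T.h (T.h (P (nat_lit 0)) (P (nat_lit 88368910367184))) (P (nat_lit 0))) (P (nat_lit 0)))))))), (T.h (T.h (P (nat_lit 0)) (T.h (T.h (P (nat_lit 0)) (T.h (P (nat_lit 39688469449529713359847424)) (T.h (P (nat_lit 0)) (M (nat_lit 59325890128280289279))))) (T.h (P (nat_lit 0)) (T.h (T.h (P (nat_lit 0)) (M (nat_lit 59325890128280289279))) (P (nat_lit 0)))))) (T.h (T.h (T.h (M (nat_lit 4579424526163621342888329215)) (T.h (P (nat_lit 0)) (T.h (P (nat_lit 248937398817884102197248)) (T.h (P (nat_lit 0)) (P (nat_lit 19598115853172736)))))) (T.h (P (nat_lit 0)) (T.h (T.h (P (nat_lit 248937398817884102197248)) (T.h (P (nat_lit 0)) (M (nat_lit 248589297153277951)))) (T.h (P (nat_lit 0)) (P (nat_lit 19598115853172736)))))) (T.h (T.h (P (nat_lit 0)) (T.h (T.h (P (nat_lit 0)) (P (nat_lit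 34670609189121818624))) (P (nat_lit 0)))) (T.h (T.h (T.h (M (nat_lit 85697005781413963759615)) (T.h (P (nat_lit 0)) (P (nat_lit 45596862977114112)))) (T.h (P (nat_lit 0)) (P (nat_lit 45596862977114112)))) (T.h (P (nat_lit 0)) (M (nat_lit 497699913998991359)))))))]
def lP12_34 : List (T ℤ) := [(T.h (T.h (P (nat_lit 0)) (T.h (P (nat_lit 0)) (T.h (T.h (P (nat_lit 17527303317340220909682688)) (T.h (P (nat_lit 0)) (M (nat_lit 81314502376517795839)))) (T.h (P (nat_lit 0)) (P (nat_lit 362309204395631312896)))))) (T.h (T.h (P (nat_lit 0)) (T.h (P (nat_lit 0)) (T.h (P (nat_lit 0)) (T.h (T.h (P (nat_lit 0)) (P (nat_lit 339787764753629184))) (P (nat_lit 0)))))) (T.h (T.h (T.h (M (nat_lit 17527303317340220909682687)) (T.h (P (nat_lit 0)) (P (nat_lit 81314502376517795840)))) (P (nat_lit 0))) (T.h (T.h (P (nat_lit 0)) (T.h (T.h (P (nat_lit 0)) (M (nat_lit 339787764753629183))) (P (nat_lit 0)))) (M (nat_lit 362309204395631312895)))))), (T.h (T.h (T.h (P (nat_lit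 0)) (T.h (M (nat_lit 3335675229011176419139518463)) (T.h (P (nat_lit 0)) (T.h (M (nat_lit 2556215325078874750975)) (T.h (P (nat_lit 0)) (P (nat_lit 3963771170832384))))))) (T.h (P (nat_lit 0)) (T.h (T.h (P (nat_lit 0)) (T.h (M (nat_lit 7048662301444117889023)) (T.h (P (nat_lit 0)) (P (nat_lit 10764761764429824))))) (T.h (P (nat_lit 0)) (T.h (T.h (P (nat_lit 0)) (M (nat_lit 55932866233335807))) (P (nat_lit 0))))))) (T.h (T.h (P (nat_lit 0)) (T.h (T.h (M (nat_lit 1974649089754001720737791)) (T.h (P (nat_lit 0)) (T.h (M (nat_lit 18276632113639849983)) (T.h (P (nat_lit 0)) (M (nat_lit 235517594865407)))))) (T.h (P (nat_lit 0)) (T.h (T.h (M (nat_lit 12150048673841020927)) (T.h (P (nat_lit 0)) (P (nat_lit 157454749658304)))) (T.h (P (nat_lit 0)) (M (nat_lit 153484319177423))))))) (T.h (T.h (T.h (P (nat_lit 0)) (T.h (P (nat_lit 24602323935072788414464)) (T.h (P (nat_lit 0)) (M (nat_lit 16203078846971903))))) (T.h (P (nat_lit 0)) (T.h (T.h (P (nat_lit 0))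 (P (nat_lit 69244562661801984))) (P (nat_lit 0))))) (T.h (T.h (P (nat_lit 0)) (T.h (T.h (P (nat_lit 365582842032417669120)) (T.h (P (nat_lit 0)) (M (nat_lit 111663856591199)))) (T.h (P (nat_lit 0)) (P (nat_lit 356919587573616))))) (T.h (T.h (T.h (P (nat_lit 0)) (P (nat_lit 227435957508997120))) (P (nat_lit 0))) (T.h (T.h (P (nat_lit 0)) (P (nat_lit 418099953986208))) (P (nat_lit 0)))))))), (T.h (T.h (T.h (P (nat_lit 6956814252741079948443380613120)) (T.h (P (nat_lit 0)) (T.h (P (nat_lit 9834762153925330696404992)) (T.h (P (nat_lit 0)) (M (nat_lit 907467354663813119)))))) (T.h (P (nat_lit 0)) (T.h (T.h (P (nat_lit 12512308161857980632924160)) (T.h (P (nat_lit 0)) (P (nat_lit 89162961353009266688)))) (T.h (P (nat_lit 0)) (P (nat_lit 31284549361191616512)))))) (T.h (T.h (P (nat_lit 0)) (T.h (T.h (P (nat_lit 0)) (T.h (M (nat_lit 245888729080067128295423)) (T.h (P (nat_lit 0)) (P (nat_lit 200925852248375296))))) (T.h (P (nat_lit 0)) (T.h (T.h (P (nat_lit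 0)) (P (nat_lit 207377764562108416))) (P (nat_lit 0)))))) (T.h (T.h (T.h (P (nat_lit 7835852522007655234928640)) (T.h (P (nat_lit 0)) (M (nat_lit 83243563760396271615)))) (T.h (P (nat_lit 0)) (P (nat_lit 696574428408140791808)))) (T.h (T.h (P (nat_lit 0)) (T.h (T.h (P (nat_lit 0)) (P (nat_lit 281155397963546624))) (P (nat_lit 0)))) (P (nat_lit 190603457277588406272)))))), (P (nat_lit 0)), (T.h (T.h (P (nat_lit 0)) (T.h (T.h (P (nat_lit 0)) (T.h (P (nat_lit 32368617483080180722302976)) (T.h (P (nat_lit 0)) (M (nat_lit 30422275876538286079))))) (T.h (P (nat_lit 0)) (T.h (T.h (P (nat_lit 0)) (P (nat_lit 70812932436679196672))) (P (nat_lit 0)))))) (T.h (T.h (T.h (P (nat_lit 4622686116289818125836222464)) (T.h (P (nat_lit 0)) (T.h (P (nat_lit 5038203398620824207360)) (T.h (P (nat_lit 0)) (P (nat_lit 30035550910087168)))))) (T.h (P (nat_lit 0)) (T.h (T.h (P (nat_lit 210632273554275901112320)) (T.h (P (nat_lit 0)) (M (nat_lit 257875223365943295)))) (T.h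 (P (nat_lit 0)) (P (nat_lit 170806740523974656)))))) (T.h (T.h (P (nat_lit 0)) (T.h (T.h (P (nat_lit 0)) (P (nat_lit 210714216620942688256))) (P (nat_lit 0)))) (T.h (T.h (T.h (P (nat_lit 67326681209505262338048)) (T.h (P (nat_lit 0)) (M (nat_lit 12566762318135295)))) (T.h (P (nat_lit 0)) (M (nat_lit 251305719263821823)))) (T.h (P (nat_lit 0)) (P (nat_lit 73889396061962240))))))), (P (nat_lit 0)), (P (nat_lit 0)), (T.h (T.h (P (nat_lit 0)) (T.h (T.h (M (nat_lit 6873193864679911287712382975)) (T.h (P (nat_lit 0)) (T.h (P (nat_lit 6743806616513229619200)) (T.h (P (nat_lit 0)) (P (nat_lit 22499507783368704)))))) (T.h (P (nat_lit 0)) (T.h (T.h (P (nat_lit 3754701811174032277504)) (T.h (P (nat_lit 0)) (M (nat_lit 2192056952258559)))) (T.h (P (nat_lit 0)) (M (nat_lit 4677000222834687))))))) (T.h (T.h (T.h (P (nat_lit 0)) (T.h (M (nat_lit 9280888221516465350639615)) (T.h (P (nat_lit 0)) (T.h (P (nat_lit 23013214939355545600)) (T.h (P (nat_lit 0)) (M (nat_lit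 6464364187727))))))) (T.h (P (nat_lit 0)) (T.h (T.h (P (nat_lit 0)) (T.h (P (nat_lit 2762446404847665152)) (T.h (P (nat_lit 0)) (P (nat_lit 50797737652344))))) (T.h (P (nat_lit 0)) (T.h (T.h (P (nat_lit 0)) (M (nat_lit 10941602189079))) (P (nat_lit 0))))))) (T.h (T.h (P (nat_lit 0)) (T.h (T.h (P (nat_lit 9384414878791603585024)) (T.h (P (nat_lit 0)) (P (nat_lit 14532023233052672)))) (T.h (P (nat_lit 0)) (M (nat_lit 41525760746487807))))) (T.h (T.h (T.h (P (nat_lit 0)) (T.h (M (nat_lit 9768808894041161727)) (T.h (P (nat_lit 0)) (P (nat_lit 56867918880152))))) (T.h (P (nat_lit 0)) (T.h (T.h (P (nat_lit 0)) (P (nat_lit 136915393458008))) (P (nat_lit 0))))) (T.h (T.h (P (nat_lit 0)) (M (nat_lit 36437602880520191))) (T.h (T.h (T.h (P (nat_lit 0)) (P (nat_lit 72808292049056))) (P (nat_lit 0))) (P (nat_lit 0))))))))]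
def lP12_35 : List (T ℤ) := [(P (nat_lit 0)), (T.h (T.h (P (nat_lit 0)) (T.h (T.h (P (nat_lit 6456312362806659015363264512)) (T.h (P (nat_lit 0)) (T.h (P (nat_lit 29965683693234268667904)) (T.h (P (nat_lit 0)) (P (nat_lit 2646419912753152)))))) (T.h (P (nat_lit 0)) (T.h (T.h (M (nat_lit 12390984721001313468415)) (T.h (P (nat_lit 0)) (P (nat_lit 44975706816479232)))) (T.h (P (nat_lit 0)) (M (nat_lit 4397787315994623))))))) (T.h (T.h (T.h (P (nat_lit 0)) (T.h (P (nat_lit 80578208822235707606040576)) (T.h (P (nat_lit 0)) (P (nat_lit 228257723608299732992))))) (T.h (P (nat_lit 0)) (T.h (T.h (P (nat_lit 0)) (M (nat_lit 13692151489928101887))) (P (nat_lit 0))))) (T.h (T.h (P (nat_lit 0)) (T.h (T.h (M (nat_lit 125777644932406160916479)) (T.h (P (nat_lit 0)) (P (nat_lit 860121343074598912)))) (T.h (P (nat_lit 0)) (P (nat_lit 41527454277632000))))) (T.h (T.h (T.h (P (nat_lit 0)) (P (nat_lit 818439350985299066880))) (P (nat_lit 0))) (T.h (T.h (P (nat_lit 0))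 (P (nat_lit 395116668046737408))) (P (nat_lit 0))))))), (P (nat_lit 0)), (P (nat_lit 0)), (T.h (T.h (T.h (P (nat_lit 0)) (T.h (M (nat_lit 6873193864679911287712382975)) (T.h (P (nat_lit 0)) (T.h (P (nat_lit 3754701811174032277504)) (T.h (P (nat_lit 0)) (M (nat_lit 4677000222834687))))))) (T.h (P (nat_lit 0)) (T.h (T.h (P (nat_lit 0)) (T.h (P (nat_lit 6743806616513229619200)) (T.h (P (nat_lit 0)) (M (nat_lit 2192056952258559))))) (T.h (P (nat_lit 0)) (T.h (T.h (P (nat_lit 0)) (P (nat_lit 22499507783368704))) (P (nat_lit 0))))))) (T.h (T.h (P (nat_lit 0)) (T.h (T.h (M (nat_lit 9280888221516465350639615)) (T.h (P (nat_lit 0)) (T.h (P (nat_lit 2762446404847665152)) (T.h (P (nat_lit 0)) (M (nat_lit 10941602189079)))))) (T.h (P (nat_lit 0)) (T.h (T.h (P (nat_lit 23013214939355545600)) (T.h (P (nat_lit 0)) (P (nat_lit 50797737652344)))) (T.h (P (nat_lit 0)) (M (nat_lit 6464364187727))))))) (T.h (T.h (T.h (P (nat_lit 0)) (T.h (P (nat_lit 9384414878791603585024))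 (T.h (P (nat_lit 0)) (M (nat_lit 41525760746487807))))) (T.h (P (nat_lit 0)) (T.h (T.h (P (nat_lit 0)) (P (nat_lit 14532023233052672))) (P (nat_lit 0))))) (T.h (T.h (P (nat_lit 0)) (T.h (T.h (M (nat_lit 9768808894041161727)) (T.h (P (nat_lit 0)) (P (nat_lit 136915393458008)))) (T.h (P (nat_lit 0)) (P (nat_lit 56867918880152))))) (T.h (T.h (T.h (P (nat_lit 0)) (M (nat_lit 36437602880520191))) (P (nat_lit 0))) (T.h (T.h (P (nat_lit 0)) (P (nat_lit 72808292049056))) (P (nat_lit 0)))))))), (T.h (T.h (T.h (P (nat_lit 6945281478211275015688300789760)) (T.h (P (nat_lit 0)) (T.h (M (nat_lit 844005617985062042599423)) (T.h (P (nat_lit 0)) (T.h (M (nat_lit 250077559696392191)) (T.h (P (nat_lit 0)) (M (nat_lit 394146612063)))))))) (T.h (P (nat_lit 0)) (T.h (T.h (M (nat_lit 844005617985062042599423)) (T.h (P (nat_lit 0)) (T.h (P (nat_lit 1700261905928552448)) (T.h (P (nat_lit 0)) (M (nat_lit 1928525502543)))))) (T.h (P (nat_lit 0)) (T.h (T.h (M (nat_lit 250077559696392191))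 (T.h (P (nat_lit 0)) (M (nat_lit 1928525502543)))) (T.h (P (nat_lit 0)) (M (nat_lit 394146612063)))))))) (T.h (T.h (P (nat_lit 0)) (T.h (T.h (P (nat_lit 0)) (T.h (P (nat_lit 21790855645850796818432)) (T.h (P (nat_lit 0)) (M (nat_lit 8712303045115903))))) (T.h (P (nat_lit 0)) (T.h (T.h (P (nat_lit 0)) (M (nat_lit 8712303045115903))) (P (nat_lit 0)))))) (T.h (T.h (T.h (M (nat_lit 6892331385474144117194751)) (T.h (P (nat_lit 0)) (T.h (P (nat_lit 28162852510398152704)) (T.h (P (nat_lit 0)) (M (nat_lit 12025278876719)))))) (T.h (P (nat_lit 0)) (T.h (T.h (P (nat_lit 28162852510398152704)) (T.h (P (nat_lit 0)) (M (nat_lit 46369747134399)))) (T.h (P (nat_lit 0)) (M (nat_lit 12025278876719)))))) (T.h (T.h (P (nat_lit 0)) (T.h (T.h (P (nat_lit 0)) (P (nat_lit 114410331772616704))) (P (nat_lit 0)))) (T.h (T.h (T.h (M (nat_lit 12345843102613766143)) (T.h (P (nat_lit 0)) (M (nat_lit 6531616341807)))) (T.h (P (nat_lit 0)) (M (nat_lit 6531616341807)))) (T.h (P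 (nat_lit 0)) (P (nat_lit 10239292669440)))))))), (T.h (T.h (T.h (P (nat_lit 0)) (T.h (P (nat_lit 6055120545414487628190842880)) (T.h (P (nat_lit 0)) (T.h (P (nat_lit 19190081157677294026752)) (T.h (P (nat_lit 0)) (M (nat_lit 3227855558705151))))))) (T.h (P (nat_lit 0)) (T.h (T.h (P (nat_lit 0)) (T.h (M (nat_lit 39028865944248626708479)) (T.h (P (nat_lit 0)) (M (nat_lit 9935373277757439))))) (T.h (P (nat_lit 0)) (T.h (T.h (P (nat_lit 0)) (M (nat_lit 35574164309835775))) (P (nat_lit 0))))))) (T.h (T.h (P (nat_lit 0)) (T.h (T.h (M (nat_lit 21766736447534150891601919)) (T.h (P (nat_lit 0)) (T.h (P (nat_lit 126597913862100484096)) (T.h (P (nat_lit 0)) (M (nat_lit 5796365101967)))))) (T.h (P (nat_lit 0)) (T.h (T.h (P (nat_lit 47450705899345149952)) (T.h (P (nat_lit 0)) (M (nat_lit 18427241446751)))) (T.h (P (nat_lit 0)) (P (nat_lit 2088080913312))))))) (T.h (T.h (T.h (P (nat_lit 0)) (T.h (P (nat_lit 96084059508702862901248)) (T.h (P (nat_lit 0)) (P (nat_lit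 273666443183652864))))) (T.h (P (nat_lit 0)) (T.h (T.h (P (nat_lit 0)) (P (nat_lit 154340845392822272))) (P (nat_lit 0))))) (T.h (T.h (P (nat_lit 0)) (T.h (T.h (M (nat_lit 364030629218187476991)) (T.h (P (nat_lit 0)) (M (nat_lit 31467877982927)))) (T.h (P (nat_lit 0)) (P (nat_lit 13347002066688))))) (T.h (T.h (T.h (P (nat_lit 0)) (M (nat_lit 103705840783425535))) (P (nat_lit 0))) (T.h (T.h (P (nat_lit 0)) (M (nat_lit 98814136291871))) (P (nat_lit 0)))))))), (T.h (T.h (T.h (M (nat_lit 7347284730981760738617207029759)) (T.h (P (nat_lit 0)) (T.h (P (nat_lit 57923522351927671027400704)) (T.h (P (nat_lit 0)) (T.h (M (nat_lit 29989453987150036991)) (T.h (P (nat_lit 0)) (M (nat_lit 12383001643247)))))))) (T.h (P (nat_lit 0)) (T.h (T.h (M (nat_lit 4210623603377640919007231)) (T.h (P (nat_lit 0)) (T.h (M (nat_lit 2352003625896640511)) (T.h (P (nat_lit 0)) (P (nat_lit 3747522647088)))))) (T.h (P (nat_lit 0)) (T.h (T.h (P (nat_lit 1445542280348827648)) (T.h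 (P (nat_lit 0)) (M (nat_lit 40758030476063)))) (T.h (P (nat_lit 0)) (P (nat_lit 2262664312560)))))))) (T.h (T.h (P (nat_lit 0)) (T.h (T.h (P (nat_lit 0)) (T.h (P (nat_lit 70258196730489203589120)) (T.h (P (nat_lit 0)) (P (nat_lit 47568789769158656))))) (T.h (P (nat_lit 0)) (T.h (T.h (P (nat_lit 0)) (P (nat_lit 12885981240885248))) (P (nat_lit 0)))))) (T.h (T.h (T.h (M (nat_lit 24986163315578777425149951)) (T.h (P (nat_lit 0)) (T.h (P (nat_lit 177177424402405392384)) (T.h (P (nat_lit 0)) (M (nat_lit 29246983189487)))))) (T.h (P (nat_lit 0)) (T.h (T.h (P (nat_lit 112178435325171859456)) (T.h (P (nat_lit 0)) (M (nat_lit 154284181097903)))) (T.h (P (nat_lit 0)) (M (nat_lit 40633845785423)))))) (T.h (T.h (P (nat_lit 0)) (T.h (T.h (P (nat_lit 0)) (P (nat_lit 262996897238188032))) (P (nat_lit 0)))) (T.h (T.h (T.h (P (nat_lit 14892719367979532288)) (T.h (P (nat_lit 0)) (P (nat_lit 135693679464000)))) (T.h (P (nat_lit 0)) (M (nat_lit 154054818207791)))) (T.h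 (P (nat_lit 0)) (M (nat_lit 1900902457007))))))))]
def lP12_36 : List (T ℤ) := [(T.h (T.h (T.h (P (nat_lit 0)) (T.h (M (nat_lit 19010715559394962457480921087)) (T.h (P (nat_lit 0)) (T.h (P (nat_lit 17167194726438533070848)) (T.h (P (nat_lit 0)) (P (nat_lit 51833134429732864))))))) (T.h (P (nat_lit 0)) (T.h (T.h (P (nat_lit 0)) (T.h (M (nat_lit 4534848523537343315967)) (T.h (P (nat_lit 0)) (M (nat_lit 39240781425016831))))) (T.h (P (nat_lit 0)) (T.h (T.h (P (nat_lit 0)) (P (nat_lit 72142769679368192))) (P (nat_lit 0))))))) (T.h (T.h (P (nat_lit 0)) (T.h (T.h (M (nat_lit 11796831539250381828653055)) (T.h (P (nat_lit 0)) (P (nat_lit 27730665333827043328)))) (T.h (P (nat_lit 0)) (P (nat_lit 11447994264663883776))))) (T.h (T.h (T.h (P (nat_lit 0)) (T.h (M (nat_lit 337256168840861870718975)) (T.h (P (nat_lit 0)) (M (nat_lit 217035851084890111))))) (T.h (P (nat_lit 0)) (T.h (T.h (P (nat_lit 0)) (P (nat_lit 146445637852594176))) (P (nat_lit 0))))) (T.h (T.h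 (P (nat_lit 0)) (M (nat_lit 201848382004607844351))) (T.h (T.h (T.h (P (nat_lit 0)) (M (nat_lit 537460537767034879))) (P (nat_lit 0))) (P (nat_lit 0))))))), (P (nat_lit 0)), (T.h (T.h (P (nat_lit 0)) (T.h (T.h (P (nat_lit 6055120545414487628190842880)) (T.h (P (nat_lit 0)) (T.h (M (nat_lit 39028865944248626708479)) (T.h (P (nat_lit 0)) (M (nat_lit 35574164309835775)))))) (T.h (P (nat_lit 0)) (T.h (T.h (P (nat_lit 19190081157677294026752)) (T.h (P (nat_lit 0)) (M (nat_lit 9935373277757439)))) (T.h (P (nat_lit 0)) (M (nat_lit 3227855558705151))))))) (T.h (T.h (T.h (P (nat_lit 0)) (T.h (M (nat_lit 21766736447534150891601919)) (T.h (P (nat_lit 0)) (T.h (P (nat_lit 47450705899345149952)) (T.h (P (nat_lit 0)) (P (nat_lit 2088080913312))))))) (T.h (P (nat_lit 0)) (T.h (T.h (P (nat_lit 0)) (T.h (P (nat_lit 126597913862100484096)) (T.h (P (nat_lit 0)) (M (nat_lit 18427241446751))))) (T.h (P (nat_lit 0)) (T.h (T.h (P (nat_lit 0)) (M (nat_lit 5796365101967)))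 (P (nat_lit 0))))))) (T.h (T.h (P (nat_lit 0)) (T.h (T.h (P (nat_lit 96084059508702862901248)) (T.h (P (nat_lit 0)) (P (nat_lit 154340845392822272)))) (T.h (P (nat_lit 0)) (P (nat_lit 273666443183652864))))) (T.h (T.h (T.h (P (nat_lit 0)) (T.h (M (nat_lit 364030629218187476991)) (T.h (P (nat_lit 0)) (P (nat_lit 13347002066688))))) (T.h (P (nat_lit 0)) (T.h (T.h (P (nat_lit 0)) (M (nat_lit 31467877982927))) (P (nat_lit 0))))) (T.h (T.h (P (nat_lit 0)) (M (nat_lit 103705840783425535))) (T.h (T.h (T.h (P (nat_lit 0)) (M (nat_lit 98814136291871))) (P (nat_lit 0))) (P (nat_lit 0)))))))), (T.h (T.h (P (nat_lit 0)) (T.h (T.h (P (nat_lit 0)) (T.h (M (nat_lit 53272160417920283098218495)) (T.h (P (nat_lit 0)) (T.h (M (nat_lit 18135119514684096511)) (T.h (P (nat_lit 0)) (P (nat_lit 25603466475168))))))) (T.h (P (nat_lit 0)) (T.h (T.h (P (nat_lit 0)) (T.h (M (nat_lit 18135119514684096511)) (T.h (P (nat_lit 0)) (M (nat_lit 85814251092287))))) (T.h (P (nat_lit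 0)) (T.h (T.h (P (nat_lit 0)) (P (nat_lit 25603466475168))) (P (nat_lit 0)))))))) (T.h (T.h (T.h (P (nat_lit 36998131545928357616738631680)) (T.h (P (nat_lit 0)) (T.h (M (nat_lit 90589036788935810875391)) (T.h (P (nat_lit 0)) (P (nat_lit 79739785560276992)))))) (T.h (P (nat_lit 0)) (T.h (T.h (M (nat_lit 90589036788935810875391)) (T.h (P (nat_lit 0)) (P (nat_lit 200668995862790144)))) (T.h (P (nat_lit 0)) (P (nat_lit 79739785560276992)))))) (T.h (T.h (P (nat_lit 0)) (T.h (T.h (P (nat_lit 0)) (T.h (M (nat_lit 1051264078816068239359)) (T.h (P (nat_lit 0)) (P (nat_lit 71961381107280))))) (T.h (P (nat_lit 0)) (T.h (T.h (P (nat_lit 0)) (P (nat_lit 71961381107280))) (P (nat_lit 0)))))) (T.h (T.h (T.h (M (nat_lit 3100395856076149358591)) (T.h (P (nat_lit 0)) (P (nat_lit 15382350327431168)))) (T.h (P (nat_lit 0)) (P (nat_lit 15382350327431168)))) (T.h (T.h (P (nat_lit 0)) (T.h (T.h (P (nat_lit 0)) (P (nat_lit 354926245962528))) (P (nat_lit 0)))) (P (nat_lit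 166287845529026560))))))), (T.h (T.h (P (nat_lit 0)) (T.h (T.h (M (nat_lit 2802544089202721518058995711)) (T.h (P (nat_lit 0)) (T.h (M (nat_lit 11334887043216479092735)) (T.h (P (nat_lit 0)) (P (nat_lit 17610523673985024)))))) (T.h (P (nat_lit 0)) (T.h (T.h (P (nat_lit 11706436078456893603840)) (T.h (P (nat_lit 0)) (P (nat_lit 64870222751039488)))) (T.h (P (nat_lit 0)) (M (nat_lit 10301442286452735))))))) (T.h (T.h (T.h (P (nat_lit 0)) (T.h (P (nat_lit 15532778243652765473570816)) (T.h (P (nat_lit 0)) (P (nat_lit 372027013451330093056))))) (T.h (P (nat_lit 0)) (T.h (T.h (P (nat_lit 0)) (M (nat_lit 132783142035194380287))) (P (nat_lit 0))))) (T.h (T.h (P (nat_lit 0)) (T.h (T.h (P (nat_lit 219226733783414827122688)) (T.h (P (nat_lit 0)) (M (nat_lit 307064400049864703)))) (T.h (P (nat_lit 0)) (P (nat_lit 48128141689192448))))) (T.h (T.h (T.h (P (nat_lit 0)) (M (nat_lit 292461774379792990207))) (P (nat_lit 0))) (T.h (T.h (P (nat_lit 0)) (M (nat_lit 111197562056900607)))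 (P (nat_lit 0))))))), (T.h (T.h (T.h (P (nat_lit 0)) (T.h (P (nat_lit 6456312362806659015363264512)) (T.h (P (nat_lit 0)) (T.h (M (nat_lit 12390984721001313468415)) (T.h (P (nat_lit 0)) (M (nat_lit 4397787315994623))))))) (T.h (P (nat_lit 0)) (T.h (T.h (P (nat_lit 0)) (T.h (P (nat_lit 29965683693234268667904)) (T.h (P (nat_lit 0)) (P (nat_lit 44975706816479232))))) (T.h (P (nat_lit 0)) (T.h (T.h (P (nat_lit 0)) (P (nat_lit 2646419912753152))) (P (nat_lit 0))))))) (T.h (T.h (P (nat_lit 0)) (T.h (T.h (P (nat_lit 80578208822235707606040576)) (T.h (P (nat_lit 0)) (M (nat_lit 13692151489928101887)))) (T.h (P (nat_lit 0)) (P (nat_lit 228257723608299732992))))) (T.h (T.h (T.h (P (nat_lit 0)) (T.h (M (nat_lit 125777644932406160916479)) (T.h (P (nat_lit 0)) (P (nat_lit 41527454277632000))))) (T.h (P (nat_lit 0)) (T.h (T.h (P (nat_lit 0)) (P (nat_lit 860121343074598912))) (P (nat_lit 0))))) (T.h (T.h (P (nat_lit 0)) (P (nat_lit 818439350985299066880))) (T.h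 (T.h (T.h (P (nat_lit 0)) (P (nat_lit 395116668046737408))) (P (nat_lit 0))) (P (nat_lit 0))))))), (T.h (T.h (T.h (M (nat_lit 7347284730981760738617207029759)) (T.h (P (nat_lit 0)) (T.h (M (nat_lit 4210623603377640919007231)) (T.h (P (nat_lit 0)) (T.h (P (nat_lit 1445542280348827648)) (T.h (P (nat_lit 0)) (P (nat_lit 2262664312560)))))))) (T.h (P (nat_lit 0)) (T.h (T.h (P (nat_lit 57923522351927671027400704)) (T.h (P (nat_lit 0)) (T.h (M (nat_lit 2352003625896640511)) (T.h (P (nat_lit 0)) (M (nat_lit 40758030476063)))))) (T.h (P (nat_lit 0)) (T.h (T.h (M (nat_lit 29989453987150036991)) (T.h (P (nat_lit 0)) (P (nat_lit 3747522647088)))) (T.h (P (nat_lit 0)) (M (nat_lit 12383001643247)))))))) (T.h (T.h (P (nat_lit 0)) (T.h (T.h (P (nat_lit 0)) (T.h (P (nat_lit 70258196730489203589120)) (T.h (P (nat_lit 0)) (P (nat_lit 12885981240885248))))) (T.h (P (nat_lit 0)) (T.h (T.h (P (nat_lit 0)) (P (nat_lit 47568789769158656))) (P (nat_lit 0)))))) (T.h (T.h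 (T.h (M (nat_lit 24986163315578777425149951)) (T.h (P (nat_lit 0)) (T.h (P (nat_lit 112178435325171859456)) (T.h (P (nat_lit 0)) (M (nat_lit 40633845785423)))))) (T.h (P (nat_lit 0)) (T.h (T.h (P (nat_lit 177177424402405392384)) (T.h (P (nat_lit 0)) (M (nat_lit 154284181097903)))) (T.h (P (nat_lit 0)) (M (nat_lit 29246983189487)))))) (T.h (T.h (P (nat_lit 0)) (T.h (T.h (P (nat_lit 0)) (P (nat_lit 262996897238188032))) (P (nat_lit 0)))) (T.h (T.h (T.h (P (nat_lit 14892719367979532288)) (T.h (P (nat_lit 0)) (M (nat_lit 154054818207791)))) (T.h (P (nat_lit 0)) (P (nat_lit 135693679464000)))) (T.h (P (nat_lit 0)) (M (nat_lit 1900902457007)))))))), (T.h (T.h (T.h (P (nat_lit 0)) (T.h (M (nat_lit 2802544089202721518058995711)) (T.h (P (nat_lit 0)) (T.h (P (nat_lit 11706436078456893603840)) (T.h (P (nat_lit 0)) (M (nat_lit 10301442286452735))))))) (T.h (P (nat_lit 0)) (T.h (T.h (P (nat_lit 0)) (T.h (M (nat_lit 11334887043216479092735)) (T.h (P (nat_lit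 0)) (P (nat_lit 64870222751039488))))) (T.h (P (nat_lit 0)) (T.h (T.h (P (nat_lit 0)) (P (nat_lit 17610523673985024))) (P (nat_lit 0))))))) (T.h (T.h (P (nat_lit 0)) (T.h (T.h (P (nat_lit 15532778243652765473570816)) (T.h (P (nat_lit 0)) (M (nat_lit 132783142035194380287)))) (T.h (P (nat_lit 0)) (P (nat_lit 372027013451330093056))))) (T.h (T.h (T.h (P (nat_lit 0)) (T.h (P (nat_lit 219226733783414827122688)) (T.h (P (nat_lit 0)) (P (nat_lit 48128141689192448))))) (T.h (P (nat_lit 0)) (T.h (T.h (P (nat_lit 0)) (M (nat_lit 307064400049864703))) (P (nat_lit 0))))) (T.h (T.h (P (nat_lit 0)) (M (nat_lit 292461774379792990207))) (T.h (T.h (T.h (P (nat_lit 0)) (M (nat_lit 111197562056900607))) (P (nat_lit 0))) (P (nat_lit 0)))))))]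
def lP12_37 : List (T ℤ) := [(P (nat_lit 0)), (T.h (T.h (P (nat_lit 0)) (T.h (T.h (M (nat_lit 19010715559394962457480921087)) (T.h (P (nat_lit 0)) (T.h (M (nat_lit 4534848523537343315967)) (T.h (P (nat_lit 0)) (P (nat_lit 72142769679368192)))))) (T.h (P (nat_lit 0)) (T.h (T.h (P (nat_lit 17167194726438533070848)) (T.h (P (nat_lit 0)) (M (nat_lit 39240781425016831)))) (T.h (P (nat_lit 0)) (P (nat_lit 51833134429732864))))))) (T.h (T.h (T.h (P (nat_lit 0)) (T.h (M (nat_lit 11796831539250381828653055)) (T.h (P (nat_lit 0)) (P (nat_lit 11447994264663883776))))) (T.h (P (nat_lit 0)) (T.h (T.h (P (nat_lit 0)) (P (nat_lit 27730665333827043328))) (P (nat_lit 0))))) (T.h (T.h (P (nat_lit 0)) (T.h (T.h (M (nat_lit 337256168840861870718975)) (T.h (P (nat_lit 0)) (P (nat_lit 146445637852594176)))) (T.h (P (nat_lit 0)) (M (nat_lit 217035851084890111))))) (T.h (T.h (T.h (P (nat_lit 0)) (M (nat_lit 201848382004607844351))) (P (nat_lit 0))) (T.h (T.h (P (nat_lit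 0)) (M (nat_lit 537460537767034879))) (P (nat_lit 0))))))), (P (nat_lit 0)), (T.h (T.h (T.h (M (nat_lit 522046432117407843054226767871)) (T.h (P (nat_lit 0)) (T.h (P (nat_lit 1652409091965458688507904)) (T.h (P (nat_lit 0)) (T.h (M (nat_lit 270336629850243071)) (T.h (P (nat_lit 0)) (P (nat_lit 448956233680)))))))) (T.h (P (nat_lit 0)) (T.h (T.h (P (nat_lit 1652409091965458688507904)) (T.h (P (nat_lit 0)) (T.h (M (nat_lit 2455696032005095423)) (T.h (P (nat_lit 0)) (M (nat_lit 6471408321407)))))) (T.h (P (nat_lit 0)) (T.h (T.h (M (nat_lit 270336629850243071)) (T.h (P (nat_lit 0)) (M (nat_lit 6471408321407)))) (T.h (P (nat_lit 0)) (P (nat_lit 448956233680)))))))) (T.h (T.h (P (nat_lit 0)) (T.h (T.h (P (nat_lit 0)) (T.h (P (nat_lit 8135358549727220072448)) (T.h (P (nat_lit 0)) (P (nat_lit 3130256582475776))))) (T.h (P (nat_lit 0)) (T.h (T.h (P (nat_lit 0)) (P (nat_lit 3130256582475776))) (P (nat_lit 0)))))) (T.h (T.h (T.h (M (nat_lit 9751645110814865679712255))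 (T.h (P (nat_lit 0)) (T.h (P (nat_lit 1573144585381609472)) (T.h (P (nat_lit 0)) (M (nat_lit 6319630687391)))))) (T.h (P (nat_lit 0)) (T.h (T.h (P (nat_lit 1573144585381609472)) (T.h (P (nat_lit 0)) (P (nat_lit 1830296143840)))) (T.h (P (nat_lit 0)) (M (nat_lit 6319630687391)))))) (T.h (T.h (P (nat_lit 0)) (T.h (T.h (P (nat_lit 0)) (P (nat_lit 25225031447609344))) (P (nat_lit 0)))) (T.h (T.h (T.h (P (nat_lit 4962144670881677312)) (T.h (P (nat_lit 0)) (P (nat_lit 23450859319048)))) (T.h (P (nat_lit 0)) (P (nat_lit 23450859319048)))) (T.h (P (nat_lit 0)) (M (nat_lit 3579694593135)))))))), (P (nat_lit 0)), (T.h (T.h (T.h (P (nat_lit 4472005690308487417832501411840)) (T.h (P (nat_lit 0)) (T.h (M (nat_lit 29627661348588708182360063)) (T.h (P (nat_lit 0)) (M (nat_lit 5027664533615804415)))))) (T.h (P (nat_lit 0)) (T.h (T.h (M (nat_lit 6005619773784791837573119)) (T.h (P (nat_lit 0)) (P (nat_lit 19868835911944896512)))) (T.h (P (nat_lit 0)) (P (nat_lit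 8712893511118094336)))))) (T.h (T.h (P (nat_lit 0)) (T.h (T.h (P (nat_lit 0)) (T.h (M (nat_lit 73517171073849392889855)) (T.h (P (nat_lit 0)) (P (nat_lit 48411323272921088))))) (T.h (P (nat_lit 0)) (T.h (T.h (P (nat_lit 0)) (P (nat_lit 4325763083141120))) (P (nat_lit 0)))))) (T.h (T.h (T.h (P (nat_lit 48873342311847525152194560)) (T.h (P (nat_lit 0)) (M (nat_lit 33976568438373482495)))) (T.h (P (nat_lit 0)) (P (nat_lit 17775447735399350272)))) (T.h (T.h (P (nat_lit 0)) (T.h (T.h (P (nat_lit 0)) (M (nat_lit 523173056249331711))) (P (nat_lit 0)))) (M (nat_lit 90858598778798079999)))))), (P (nat_lit 0)), (P (nat_lit 0))]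
def lP12_38 : List (T ℤ) := [(P (nat_lit 0)), (T.h (T.h (P (nat_lit 0)) (T.h (T.h (P (nat_lit 0)) (T.h (P (nat_lit 37932544534661192262615040)) (T.h (P (nat_lit 0)) (T.h (M (nat_lit 3582000507050262527)) (T.h (P (nat_lit 0)) (M (nat_lit 776391066335))))))) (T.h (P (nat_lit 0)) (T.h (T.h (P (nat_lit 0)) (T.h (M (nat_lit 3582000507050262527)) (T.h (P (nat_lit 0)) (M (nat_lit 72660681503))))) (T.h (P (nat_lit 0)) (T.h (T.h (P (nat_lit 0)) (M (nat_lit 776391066335))) (P (nat_lit 0)))))))) (T.h (T.h (T.h (M (nat_lit 22591235418620665735535394815)) (T.h (P (nat_lit 0)) (T.h (M (nat_lit 9851538043634481889279)) (T.h (P (nat_lit 0)) (M (nat_lit 2312470671392767)))))) (T.h (P (nat_lit 0)) (T.h (T.h (M (nat_lit 9851538043634481889279)) (T.h (P (nat_lit 0)) (M (nat_lit 355988038194233343)))) (T.h (P (nat_lit 0)) (M (nat_lit 2312470671392767)))))) (T.h (T.h (P (nat_lit 0)) (T.h (T.h (P (nat_lit 0)) (T.h (M (nat_lit 107763657124050108415)) (T.h (P (nat_lit 0))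 (P (nat_lit 18444320661312))))) (T.h (P (nat_lit 0)) (T.h (T.h (P (nat_lit 0)) (P (nat_lit 18444320661312))) (P (nat_lit 0)))))) (T.h (T.h (T.h (P (nat_lit 12436350731841804697600)) (T.h (P (nat_lit 0)) (M (nat_lit 158559673072287743)))) (T.h (P (nat_lit 0)) (M (nat_lit 158559673072287743)))) (T.h (T.h (P (nat_lit 0)) (T.h (T.h (P (nat_lit 0)) (P (nat_lit 135946721145024))) (P (nat_lit 0)))) (P (nat_lit 351706470646939648))))))), (T.h (T.h (P (nat_lit 0)) (T.h (T.h (P (nat_lit 7613911020926650974465949696)) (T.h (P (nat_lit 0)) (T.h (P (nat_lit 856239061351264157696)) (T.h (P (nat_lit 0)) (M (nat_lit 18543270365085695)))))) (T.h (P (nat_lit 0)) (T.h (T.h (P (nat_lit 3737831950392995348480)) (T.h (P (nat_lit 0)) (P (nat_lit 18868985238323200)))) (T.h (P (nat_lit 0)) (M (nat_lit 2662119321436159))))))) (T.h (T.h (T.h (P (nat_lit 0)) (T.h (P (nat_lit 16770020288298499683909632)) (T.h (P (nat_lit 0)) (T.h (M (nat_lit 24581911049941286911)) (T.h (P (nat_lit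 0)) (M (nat_lit 3743196082991))))))) (T.h (P (nat_lit 0)) (T.h (T.h (P (nat_lit 0)) (T.h (P (nat_lit 6148453346429632512)) (T.h (P (nat_lit 0)) (M (nat_lit 43491366017423))))) (T.h (P (nat_lit 0)) (T.h (T.h (P (nat_lit 0)) (P (nat_lit 17575024374576))) (P (nat_lit 0))))))) (T.h (T.h (P (nat_lit 0)) (T.h (T.h (M (nat_lit 37608647712375417339903)) (T.h (P (nat_lit 0)) (M (nat_lit 11201544438792191)))) (T.h (P (nat_lit 0)) (M (nat_lit 15025593104400383))))) (T.h (T.h (T.h (P (nat_lit 0)) (T.h (M (nat_lit 54436003502392082431)) (T.h (P (nat_lit 0)) (M (nat_lit 15746492039039))))) (T.h (P (nat_lit 0)) (T.h (T.h (P (nat_lit 0)) (M (nat_lit 157763501468927))) (P (nat_lit 0))))) (T.h (T.h (P (nat_lit 0)) (P (nat_lit 288386959946383360))) (T.h (T.h (T.h (P (nat_lit 0)) (P (nat_lit 310329193881600))) (P (nat_lit 0))) (P (nat_lit 0)))))))), (T.h (T.h (P (nat_lit 0)) (T.h (T.h (P (nat_lit 0)) (T.h (M (nat_lit 8121832179209592299847679)) (T.h (P (nat_lit 0))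 (P (nat_lit 18589109809936596992))))) (T.h (P (nat_lit 0)) (T.h (T.h (P (nat_lit 0)) (M (nat_lit 6818117037345210367))) (P (nat_lit 0)))))) (T.h (T.h (T.h (P (nat_lit 5938840239767262457329876992)) (T.h (P (nat_lit 0)) (T.h (M (nat_lit 83505656668972851920895)) (T.h (P (nat_lit 0)) (P (nat_lit 17569552337108992)))))) (T.h (P (nat_lit 0)) (T.h (T.h (M (nat_lit 32448110580492473991167)) (T.h (P (nat_lit 0)) (P (nat_lit 99906550954229760)))) (T.h (P (nat_lit 0)) (P (nat_lit 14493620268662784)))))) (T.h (T.h (P (nat_lit 0)) (T.h (T.h (P (nat_lit 0)) (M (nat_lit 9408689513531703295))) (P (nat_lit 0)))) (T.h (T.h (T.h (M (nat_lit 15260972577348049174527)) (T.h (P (nat_lit 0)) (M (nat_lit 112761797231247359)))) (T.h (P (nat_lit 0)) (P (nat_lit 176124080196288512)))) (T.h (P (nat_lit 0)) (M (nat_lit 68021766630866943))))))), (T.h (T.h (T.h (P (nat_lit 4472005690308487417832501411840)) (T.h (P (nat_lit 0)) (T.h (M (nat_lit 6005619773784791837573119)) (T.h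 (P (nat_lit 0)) (P (nat_lit 8712893511118094336)))))) (T.h (P (nat_lit 0)) (T.h (T.h (M (nat_lit 29627661348588708182360063)) (T.h (P (nat_lit 0)) (P (nat_lit 19868835911944896512)))) (T.h (P (nat_lit 0)) (M (nat_lit 5027664533615804415)))))) (T.h (T.h (P (nat_lit 0)) (T.h (T.h (P (nat_lit 0)) (T.h (M (nat_lit 73517171073849392889855)) (T.h (P (nat_lit 0)) (P (nat_lit 4325763083141120))))) (T.h (P (nat_lit 0)) (T.h (T.h (P (nat_lit 0)) (P (nat_lit 48411323272921088))) (P (nat_lit 0)))))) (T.h (T.h (T.h (P (nat_lit 48873342311847525152194560)) (T.h (P (nat_lit 0)) (P (nat_lit 17775447735399350272)))) (T.h (P (nat_lit 0)) (M (nat_lit 33976568438373482495)))) (T.h (T.h (P (nat_lit 0)) (T.h (T.h (P (nat_lit 0)) (M (nat_lit 523173056249331711))) (P (nat_lit 0)))) (M (nat_lit 90858598778798079999)))))), (T.h (T.h (T.h (P (nat_lit 0)) (T.h (P (nat_lit 7613911020926650974465949696)) (T.h (P (nat_lit 0)) (T.h (P (nat_lit 3737831950392995348480)) (T.h (P (nat_lit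 0)) (M (nat_lit 2662119321436159))))))) (T.h (P (nat_lit 0)) (T.h (T.h (P (nat_lit 0)) (T.h (P (nat_lit 856239061351264157696)) (T.h (P (nat_lit 0)) (P (nat_lit 18868985238323200))))) (T.h (P (nat_lit 0)) (T.h (T.h (P (nat_lit 0)) (M (nat_lit 18543270365085695))) (P (nat_lit 0))))))) (T.h (T.h (P (nat_lit 0)) (T.h (T.h (P (nat_lit 16770020288298499683909632)) (T.h (P (nat_lit 0)) (T.h (P (nat_lit 6148453346429632512)) (T.h (P (nat_lit 0)) (P (nat_lit 17575024374576)))))) (T.h (P (nat_lit 0)) (T.h (T.h (M (nat_lit 24581911049941286911)) (T.h (P (nat_lit 0)) (M (nat_lit 43491366017423)))) (T.h (P (nat_lit 0)) (M (nat_lit 3743196082991))))))) (T.h (T.h (T.h (P (nat_lit 0)) (T.h (M (nat_lit 37608647712375417339903)) (T.h (P (nat_lit 0)) (M (nat_lit 15025593104400383))))) (T.h (P (nat_lit 0)) (T.h (T.h (P (nat_lit 0)) (M (nat_lit 11201544438792191))) (P (nat_lit 0))))) (T.h (T.h (P (nat_lit 0)) (T.h (T.h (M (nat_lit 54436003502392082431)) (T.h (P (nat_lit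 0)) (M (nat_lit 157763501468927)))) (T.h (P (nat_lit 0)) (M (nat_lit 15746492039039))))) (T.h (T.h (T.h (P (nat_lit 0)) (P (nat_lit 288386959946383360))) (P (nat_lit 0))) (T.h (T.h (P (nat_lit 0)) (P (nat_lit 310329193881600))) (P (nat_lit 0)))))))), (T.h (T.h (T.h (M (nat_lit 3388291302366962560366419116031)) (T.h (P (nat_lit 0)) (T.h (P (nat_lit 4983474547258667095293952)) (T.h (P (nat_lit 0)) (P (nat_lit 5571827366197460992)))))) (T.h (P (nat_lit 0)) (T.h (T.h (P (nat_lit 4983474547258667095293952)) (T.h (P (nat_lit 0)) (M (nat_lit 46072855600505552895)))) (T.h (P (nat_lit 0)) (P (nat_lit 5571827366197460992)))))) (T.h (T.h (P (nat_lit 0)) (T.h (T.h (P (nat_lit 0)) (T.h (P (nat_lit 130518322924367101558784)) (T.h (P (nat_lit 0)) (M (nat_lit 28954197942730751))))) (T.h (P (nat_lit 0)) (T.h (T.h (P (nat_lit 0)) (M (nat_lit 28954197942730751))) (P (nat_lit 0)))))) (T.h (T.h (T.h (M (nat_lit 52973080057366503088979967)) (T.h (P (nat_lit 0)) (M (nat_lit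 91053075213775273983)))) (T.h (P (nat_lit 0)) (M (nat_lit 91053075213775273983)))) (T.h (T.h (P (nat_lit 0)) (T.h (T.h (P (nat_lit 0)) (M (nat_lit 179461911432396799))) (P (nat_lit 0)))) (M (nat_lit 201408859984088793087)))))), (P (nat_lit 0))]
def lP12_39 : List (T ℤ) := [(T.h (T.h (P (nat_lit 0)) (T.h (T.h (P (nat_lit 0)) (T.h (M (nat_lit 8121832179209592299847679)) (T.h (P (nat_lit 0)) (M (nat_lit 6818117037345210367))))) (T.h (P (nat_lit 0)) (T.h (T.h (P (nat_lit 0)) (P (nat_lit 18589109809936596992))) (P (nat_lit 0)))))) (T.h (T.h (T.h (P (nat_lit 5938840239767262457329876992)) (T.h (P (nat_lit 0)) (T.h (M (nat_lit 32448110580492473991167)) (T.h (P (nat_lit 0)) (P (nat_lit 14493620268662784)))))) (T.h (P (nat_lit 0)) (T.h (T.h (M (nat_lit 83505656668972851920895)) (T.h (P (nat_lit 0)) (P (nat_lit 99906550954229760)))) (T.h (P (nat_lit 0)) (P (nat_lit 17569552337108992)))))) (T.h (T.h (P (nat_lit 0)) (T.h (T.h (P (nat_lit 0)) (M (nat_lit 9408689513531703295)))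 (P (nat_lit 0)))) (T.h (T.h (T.h (M (nat_lit 15260972577348049174527)) (T.h (P (nat_lit 0)) (P (nat_lit 176124080196288512)))) (T.h (P (nat_lit 0)) (M (nat_lit 112761797231247359)))) (T.h (P (nat_lit 0)) (M (nat_lit 68021766630866943))))))), (P (nat_lit 0)), (P (nat_lit 0)), (T.h (T.h (P (nat_lit 0)) (T.h (T.h (M (nat_lit 2837472879202454074931806207)) (T.h (P (nat_lit 0)) (T.h (P (nat_lit 3370409462006217179136)) (T.h (P (nat_lit 0)) (P (nat_lit 24403326750720000)))))) (T.h (P (nat_lit 0)) (T.h (T.h (M (nat_lit 2225755106163780747263)) (T.h (P (nat_lit 0)) (M (nat_lit 16072999193575423)))) (T.h (P (nat_lit 0)) (M (nat_lit 847106986934271))))))) (T.h (T.h (T.h (P (nat_lit 0)) (T.h (M (nat_lit 10126238877810838424518655)) (T.h (P (nat_lit 0)) (P (nat_lit 17985989861290541056))))) (T.h (P (nat_lit 0)) (T.h (T.h (P (nat_lit 0)) (M (nat_lit 11418868933801803775))) (P (nat_lit 0))))) (T.h (T.h (P (nat_lit 0)) (T.h (T.h (P (nat_lit 17068991330832277831680))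 (T.h (P (nat_lit 0)) (M (nat_lit 19787015119929343)))) (T.h (P (nat_lit 0)) (P (nat_lit 15421864423260160))))) (T.h (T.h (T.h (P (nat_lit 0)) (M (nat_lit 40285687438228062207))) (P (nat_lit 0))) (T.h (T.h (P (nat_lit 0)) (M (nat_lit 157367572159234047))) (P (nat_lit 0))))))), (P (nat_lit 0)), (P (nat_lit 0)), (T.h (T.h (T.h (P (nat_lit 0)) (T.h (M (nat_lit 2837472879202454074931806207)) (T.h (P (nat_lit 0)) (T.h (M (nat_lit 2225755106163780747263)) (T.h (P (nat_lit 0)) (M (nat_lit 847106986934271))))))) (T.h (P (nat_lit 0)) (T.h (T.h (P (nat_lit 0)) (T.h (P (nat_lit 3370409462006217179136)) (T.h (P (nat_lit 0)) (M (nat_lit 16072999193575423))))) (T.h (P (nat_lit 0)) (T.h (T.h (P (nat_lit 0)) (P (nat_lit 24403326750720000))) (P (nat_lit 0))))))) (T.h (T.h (P (nat_lit 0)) (T.h (T.h (M (nat_lit 10126238877810838424518655)) (T.h (P (nat_lit 0)) (M (nat_lit 11418868933801803775)))) (T.h (P (nat_lit 0)) (P (nat_lit 17985989861290541056))))) (T.h (T.h (T.h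 (P (nat_lit 0)) (T.h (P (nat_lit 17068991330832277831680)) (T.h (P (nat_lit 0)) (P (nat_lit 15421864423260160))))) (T.h (P (nat_lit 0)) (T.h (T.h (P (nat_lit 0)) (M (nat_lit 19787015119929343))) (P (nat_lit 0))))) (T.h (T.h (P (nat_lit 0)) (M (nat_lit 40285687438228062207))) (T.h (T.h (T.h (P (nat_lit 0)) (M (nat_lit 157367572159234047))) (P (nat_lit 0))) (P (nat_lit 0))))))), (T.h (T.h (T.h (M (nat_lit 1526812637208704738452194721791)) (T.h (P (nat_lit 0)) (T.h (M (nat_lit 1566168659524124063825919)) (T.h (P (nat_lit 0)) (T.h (M (nat_lit 1257490112028082175)) (T.h (P (nat_lit 0)) (P (nat_lit 485082553536)))))))) (T.h (P (nat_lit 0)) (T.h (T.h (M (nat_lit 1566168659524124063825919)) (T.h (P (nat_lit 0)) (T.h (P (nat_lit 5272713814171713536)) (T.h (P (nat_lit 0)) (P (nat_lit 6479329439808)))))) (T.h (P (nat_lit 0)) (T.h (T.h (M (nat_lit 1257490112028082175)) (T.h (P (nat_lit 0)) (P (nat_lit 6479329439808)))) (T.h (P (nat_lit 0)) (P (nat_lit 485082553536))))))))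 (T.h (T.h (P (nat_lit 0)) (T.h (T.h (P (nat_lit 0)) (T.h (M (nat_lit 25949813201762300985343)) (T.h (P (nat_lit 0)) (M (nat_lit 16206316422561791))))) (T.h (P (nat_lit 0)) (T.h (T.h (P (nat_lit 0)) (M (nat_lit 16206316422561791))) (P (nat_lit 0)))))) (T.h (T.h (T.h (P (nat_lit 20864823599583554539880448)) (T.h (P (nat_lit 0)) (T.h (M (nat_lit 11962976014688059391)) (T.h (P (nat_lit 0)) (P (nat_lit 21823059736368)))))) (T.h (P (nat_lit 0)) (T.h (T.h (M (nat_lit 11962976014688059391)) (T.h (P (nat_lit 0)) (P (nat_lit 83465545105728)))) (T.h (P (nat_lit 0)) (P (nat_lit 21823059736368)))))) (T.h (T.h (P (nat_lit 0)) (T.h (T.h (P (nat_lit 0)) (M (nat_lit 150200156445474815))) (P (nat_lit 0)))) (T.h (T.h (T.h (P (nat_lit 6830011316166459392)) (T.h (P (nat_lit 0)) (P (nat_lit 17223692796864)))) (T.h (P (nat_lit 0)) (P (nat_lit 17223692796864)))) (T.h (P (nat_lit 0)) (M (nat_lit 18430719318143))))))))]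
def lP12_40 : List (T ℤ) := [(T.h (T.h (T.h (P (nat_lit 0)) (T.h (M (nat_lit 1069719061105742419312246783)) (T.h (P (nat_lit 0)) (T.h (P (nat_lit 4810639926731932172288)) (T.h (P (nat_lit 0)) (P (nat_lit 189485684457472))))))) (T.h (P (nat_lit 0)) (T.h (T.h (P (nat_lit 0)) (T.h (P (nat_lit 167114983961662586880)) (T.h (P (nat_lit 0)) (P (nat_lit 3999072314753024))))) (T.h (P (nat_lit 0)) (T.h (T.h (P (nat_lit 0)) (M (nat_lit 6948109256065023))) (P (nat_lit 0))))))) (T.h (T.h (P (nat_lit 0)) (T.h (T.h (M (nat_lit 1761177201905144919228415)) (T.h (P (nat_lit 0)) (P (nat_lit 13635200529196908544)))) (T.h (P (nat_lit 0)) (M (nat_lit 1424453042811437055))))) (T.h (T.h (T.h (P (nat_lit 0)) (T.h (M (nat_lit 9039233065320873721855)) (T.h (P (nat_lit 0)) (M (nat_lit 9114228696940543))))) (T.h (P (nat_lit 0)) (T.h (T.h (P (nat_lit 0)) (P (nat_lit 69713786696892416))) (P (nat_lit 0))))) (T.h (T.h (P (nat_lit 0)) (M (nat_lit 159289274093619118079))) (T.h (T.h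 (T.h (P (nat_lit 0)) (M (nat_lit 360924354560393215))) (P (nat_lit 0))) (P (nat_lit 0))))))), (P (nat_lit 0)), (T.h (T.h (P (nat_lit 0)) (T.h (T.h (M (nat_lit 1069719061105742419312246783)) (T.h (P (nat_lit 0)) (T.h (P (nat_lit 167114983961662586880)) (T.h (P (nat_lit 0)) (M (nat_lit 6948109256065023)))))) (T.h (P (nat_lit 0)) (T.h (T.h (P (nat_lit 4810639926731932172288)) (T.h (P (nat_lit 0)) (P (nat_lit 3999072314753024)))) (T.h (P (nat_lit 0)) (P (nat_lit 189485684457472))))))) (T.h (T.h (T.h (P (nat_lit 0)) (T.h (M (nat_lit 1761177201905144919228415)) (T.h (P (nat_lit 0)) (M (nat_lit 1424453042811437055))))) (T.h (P (nat_lit 0)) (T.h (T.h (P (nat_lit 0)) (P (nat_lit 13635200529196908544))) (P (nat_lit 0))))) (T.h (T.h (P (nat_lit 0)) (T.h (T.h (M (nat_lit 9039233065320873721855)) (T.h (P (nat_lit 0)) (P (nat_lit 69713786696892416)))) (T.h (P (nat_lit 0)) (M (nat_lit 9114228696940543))))) (T.h (T.h (T.h (P (nat_lit 0)) (M (nat_lit 159289274093619118079)))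 (P (nat_lit 0))) (T.h (T.h (P (nat_lit 0)) (M (nat_lit 360924354560393215))) (P (nat_lit 0))))))), (P (nat_lit 0)), (T.h (T.h (T.h (M (nat_lit 485095236651568072757715402751)) (T.h (P (nat_lit 0)) (T.h (P (nat_lit 758126168194159579496448)) (T.h (P (nat_lit 0)) (P (nat_lit 1496852484168089600)))))) (T.h (P (nat_lit 0)) (T.h (T.h (P (nat_lit 758126168194159579496448)) (T.h (P (nat_lit 0)) (M (nat_lit 3496938403264462847)))) (T.h (P (nat_lit 0)) (P (nat_lit 1496852484168089600)))))) (T.h (T.h (P (nat_lit 0)) (T.h (T.h (P (nat_lit 0)) (T.h (M (nat_lit 4325368616586145955839)) (T.h (P (nat_lit 0)) (P (nat_lit 17603041707622400))))) (T.h (P (nat_lit 0)) (T.h (T.h (P (nat_lit 0)) (P (nat_lit 17603041707622400))) (P (nat_lit 0)))))) (T.h (T.h (T.h (M (nat_lit 4327702559242284674580479)) (T.h (P (nat_lit 0)) (M (nat_lit 11427684792666161151)))) (T.h (P (nat_lit 0)) (M (nat_lit 11427684792666161151)))) (T.h (T.h (P (nat_lit 0)) (T.h (T.h (P (nat_lit 0)) (P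 (nat_lit 55632017914855424))) (P (nat_lit 0)))) (P (nat_lit 16918107354484965376)))))), (P (nat_lit 0)), (P (nat_lit 0)), (P (nat_lit 0))]
def lP12_41 : List (T ℤ) := [(T.h (T.h (P (nat_lit 0)) (T.h (T.h (P (nat_lit 0)) (T.h (P (nat_lit 2399690788163493904252928)) (T.h (P (nat_lit 0)) (P (nat_lit 822611858266521600))))) (T.h (P (nat_lit 0)) (T.h (T.h (P (nat_lit 0)) (P (nat_lit 822611858266521600))) (P (nat_lit 0)))))) (T.h (T.h (T.h (M (nat_lit 6946700081529947634800787455)) (T.h (P (nat_lit 0)) (T.h (P (nat_lit 2528644232359897464832)) (T.h (P (nat_lit 0)) (M (nat_lit 9931916964462591)))))) (T.h (P (nat_lit 0)) (T.h (T.h (P (nat_lit 2528644232359897464832)) (T.h (P (nat_lit 0)) (M (nat_lit 37986096972562431)))) (T.h (P (nat_lit 0)) (M (nat_lit 9931916964462591)))))) (T.h (T.h (P (nat_lit 0)) (T.h (T.h (P (nat_lit 0)) (M (nat_lit 24174887929991135231))) (P (nat_lit 0)))) (T.h (T.h (T.h (M (nat_lit 6537014371178130702335)) (T.h (P (nat_lit 0)) (M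 (nat_lit 15677387932434431)))) (T.h (P (nat_lit 0)) (M (nat_lit 15677387932434431)))) (T.h (P (nat_lit 0)) (P (nat_lit 25164075442372608))))))), (P (nat_lit 0)), (P (nat_lit 0)), (P (nat_lit 0)), (P (nat_lit 0)), (P (nat_lit 0))]

def CP12 : List (T ℤ) := lP12_0 ++ (lP12_1 ++ (lP12_2 ++ (lP12_3 ++ (lP12_4 ++ (lP12_5 ++ (lP12_6 ++ (lP12_7 ++ (lP12_8 ++ (lP12_9 ++ (lP12_10 ++ (lP12_11 ++ (lP12_12 ++ (lP12_13 ++ (lP12_14 ++ (lP12_15 ++ (lP12_16 ++ (lP12_17 ++ (lP12_18 ++ (lP12_19 ++ (lP12_20 ++ (lP12_21 ++ (lP12_22 ++ (lP12_23 ++ (lP12_24 ++ (lP12_25 ++ (lP12_26 ++ (lP12_27 ++ (lP12_28 ++ (lP12_29 ++ (lP12_30 ++ (lP12_31 ++ (lP12_32 ++ (lP12_33 ++ (lP12_34 ++ (lP12_35 ++ (lP12_36 ++ (lP12_37 ++ (lP12_38 ++ (lP12_39 ++ (lP12_40 ++ (lP12_41)))))))))))))))))))))))))))))))))))))))))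

/-- norms at radius 1536 -/
def NP12 : List ℕ := [(nat_lit 0), (nat_lit 0), (nat_lit 0), (nat_lit 0), (nat_lit 0), (nat_lit 0), (nat_lit 0), (nat_lit 0), (nat_lit 0), (nat_lit 4410501400340933843783516160000), (nat_lit 0), (nat_lit 0), (nat_lit 2751027194147596417254050871902208), (nat_lit 2919631678078281648770183635927040), (nat_lit 3699835453629209393582586653048832), (nat_lit 4474665409993961188770017645166592), (nat_lit 1179900458896524047471018407624704), (nat_lit 0), (nat_lit 0), (nat_lit 0), (nat_lit 3686711032164120860090037140717568), (nat_lit 7751988180053695272629066973315072), (nat_lit 9731916624803796350692896836419584), (nat_lit 10915902056765023560337884400582656), (nat_lit 4882080804122028056973939289620480), (nat_lit 0), (nat_lit 0), (nat_lit 3164179008046073739188494751760384), (nat_lit 4251629315499708287403080533671936), (nat_lit 8584970541670606820824148418232320), (nat_lit 12665278915081336351341408241582080), (nat_lit 4877390115265699470167065485115392),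 (nat_lit 0), (nat_lit 0), (nat_lit 3164179008046073739188494751760384), (nat_lit 13990643954564281047612103040434176), (nat_lit 12091484264369085907824085372502016), (nat_lit 24437984887166330638999702487433216), (nat_lit 11797823836781131919374112205570048), (nat_lit 0), (nat_lit 0), (nat_lit 3686711032164120860090037140717568), (nat_lit 4251629315499708287403080533671936), (nat_lit 12091484264369085907824085372502016), (nat_lit 21260503527329198288352611559014400), (nat_lit 9655153493091300658344029979672576), (nat_lit 0), (nat_lit 2751027194147596417254050871902208), (nat_lit 7751988180053695272629066973315072), (nat_lit 8584970541670606820824148418232320), (nat_lit 24437984887166330638999702487433216), (nat_lit 9655153493091300658344029979672576), (nat_lit 0), (nat_lit 2919631678078281648770183635927040), (nat_lit 9731916624803796350692896836419584), (nat_lit 12665278915081336351341408241582080), (nat_lit 11797823836781131919374112205570048),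 (nat_lit 0), (nat_lit 3699835453629209393582586653048832), (nat_lit 10915902056765023560337884400582656), (nat_lit 4877390115265699470167065485115392), (nat_lit 0), (nat_lit 4474665409993961188770017645166592), (nat_lit 4882080804122028056973939289620480), (nat_lit 0), (nat_lit 1179900458896524047471018407624704), (nat_lit 0), (nat_lit 0), (nat_lit 0), (nat_lit 1426546986517007146086055842676736), (nat_lit 0), (nat_lit 1064114081311712125248718461992960), (nat_lit 0), (nat_lit 0), (nat_lit 0), (nat_lit 0), (nat_lit 7931852077449440245178803087736832), (nat_lit 7751988180053695272629066973315072), (nat_lit 8996926870146745437531701011021824), (nat_lit 10915902056765023560337884400582656), (nat_lit 4882080804122028056973939289620480), (nat_lit 0), (nat_lit 0), (nat_lit 12825878972613734403681934936899584), (nat_lit 10566108057898027055131773011755008), (nat_lit 28184327584885755272236626962546688), (nat_lit 20018357173566340707062004634877952), (nat_lit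 5107568240768948553730650724630528), (nat_lit 0), (nat_lit 0), (nat_lit 26852234133001060701086397518315520), (nat_lit 23015786833063519900767466096164864), (nat_lit 29306346060688177265041526300344320), (nat_lit 33297041505957528553104048062988288), (nat_lit 10137550684850219468597346321825792), (nat_lit 0), (nat_lit 0), (nat_lit 12825878972613734403681934936899584), (nat_lit 23015786833063519900767466096164864), (nat_lit 35758317168506847528290231785619456), (nat_lit 27785827627526189123212024416829440), (nat_lit 12941107221511953457874163820658688), (nat_lit 0), (nat_lit 7931852077449440245178803087736832), (nat_lit 10566108057898027055131773011755008), (nat_lit 29306346060688177265041526300344320), (nat_lit 27785827627526189123212024416829440), (nat_lit 9028142197616287317498108951134208), (nat_lit 1426546986517007146086055842676736), (nat_lit 7751988180053695272629066973315072), (nat_lit 28184327584885755272236626962546688), (nat_lit 33297041505957528553104048062988288),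 (nat_lit 12941107221511953457874163820658688), (nat_lit 0), (nat_lit 8996926870146745437531701011021824), (nat_lit 20018357173566340707062004634877952), (nat_lit 10137550684850219468597346321825792), (nat_lit 1064114081311712125248718461992960), (nat_lit 10915902056765023560337884400582656), (nat_lit 5107568240768948553730650724630528), (nat_lit 0), (nat_lit 4882080804122028056973939289620480), (nat_lit 0), (nat_lit 0), (nat_lit 0), (nat_lit 0), (nat_lit 5740968209028302349242050849800192), (nat_lit 0), (nat_lit 2498099654551744931500323275538432), (nat_lit 0), (nat_lit 0), (nat_lit 0), (nat_lit 0), (nat_lit 8887389500574226324479205737234432), (nat_lit 4251629315499708287403080533671936), (nat_lit 13720309997600579744741679446360064), (nat_lit 12665278915081336351341408241582080), (nat_lit 4877390115265699470167065485115392), (nat_lit 0), (nat_lit 0), (nat_lit 20262535718117711158412496202629120), (nat_lit 23015786833063519900767466096164864), (nat_lit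 36245813998271712005138542233649152), (nat_lit 33297041505957528553104048062988288), (nat_lit 10137550684850219468597346321825792), (nat_lit 0), (nat_lit 0), (nat_lit 20262535718117711158412496202629120), (nat_lit 9280443938796000049109800209874944), (nat_lit 44866284911129984333037028050468864), (nat_lit 35557897472790175094740512759873536), (nat_lit 10564332907245284536472566449045504), (nat_lit 0), (nat_lit 8887389500574226324479205737234432), (nat_lit 23015786833063519900767466096164864), (nat_lit 44866284911129984333037028050468864), (nat_lit 47457897643613632366301637922258944), (nat_lit 14888743928154956976123110095847424), (nat_lit 5740968209028302349242050849800192), (nat_lit 4251629315499708287403080533671936), (nat_lit 36245813998271712005138542233649152), (nat_lit 35557897472790175094740512759873536), (nat_lit 14888743928154956976123110095847424), (nat_lit 0), (nat_lit 13720309997600579744741679446360064), (nat_lit 33297041505957528553104048062988288),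 (nat_lit 10564332907245284536472566449045504), (nat_lit 2498099654551744931500323275538432), (nat_lit 12665278915081336351341408241582080), (nat_lit 10137550684850219468597346321825792), (nat_lit 0), (nat_lit 4877390115265699470167065485115392), (nat_lit 0), (nat_lit 0), (nat_lit 0), (nat_lit 8887444130479343845945336905334784), (nat_lit 0), (nat_lit 6375072872011400889831309266911232), (nat_lit 0), (nat_lit 0), (nat_lit 0), (nat_lit 0), (nat_lit 12917286931930987723755435633672192), (nat_lit 13990643954564281047612103040434176), (nat_lit 25352252917039673133673503881428992), (nat_lit 24437984887166330638999702487433216), (nat_lit 11797823836781131919374112205570048), (nat_lit 0), (nat_lit 0), (nat_lit 33372562577895554572584382170660864), (nat_lit 23015786833063519900767466096164864), (nat_lit 46530585652309904221294970777108480), (nat_lit 27785827627526189123212024416829440), (nat_lit 12941107221511953457874163820658688), (nat_lit 0), (nat_lit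 12917286931930987723755435633672192), (nat_lit 23015786833063519900767466096164864), (nat_lit 59231076505285573690631927749410816), (nat_lit 47457897643613632366301637922258944), (nat_lit 14888743928154956976123110095847424), (nat_lit 8887444130479343845945336905334784), (nat_lit 13990643954564281047612103040434176), (nat_lit 46530585652309904221294970777108480), (nat_lit 47457897643613632366301637922258944), (nat_lit 42614722555026479180985477982322688), (nat_lit 0), (nat_lit 25352252917039673133673503881428992), (nat_lit 27785827627526189123212024416829440), (nat_lit 14888743928154956976123110095847424), (nat_lit 6375072872011400889831309266911232), (nat_lit 24437984887166330638999702487433216), (nat_lit 12941107221511953457874163820658688), (nat_lit 0), (nat_lit 11797823836781131919374112205570048), (nat_lit 0), (nat_lit 0), (nat_lit 0), (nat_lit 7860860592054431099168765641752576), (nat_lit 0), (nat_lit 18243592401994826013507410372591616), (nat_lit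 0), (nat_lit 0), (nat_lit 0), (nat_lit 0), (nat_lit 12001353819686180211738294985162752), (nat_lit 4251629315499708287403080533671936), (nat_lit 17150734355235581283311774406279168), (nat_lit 21260503527329198288352611559014400), (nat_lit 9655153493091300658344029979672576), (nat_lit 0), (nat_lit 12001353819686180211738294985162752), (nat_lit 10566108057898027055131773011755008), (nat_lit 40338760655489476737457113167560704), (nat_lit 27785827627526189123212024416829440), (nat_lit 9028142197616287317498108951134208), (nat_lit 7860860592054431099168765641752576), (nat_lit 4251629315499708287403080533671936), (nat_lit 40338760655489476737457113167560704), (nat_lit 35557897472790175094740512759873536), (nat_lit 14888743928154956976123110095847424), (nat_lit 0), (nat_lit 17150734355235581283311774406279168), (nat_lit 27785827627526189123212024416829440), (nat_lit 14888743928154956976123110095847424), (nat_lit 18243592401994826013507410372591616), (nat_lit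 21260503527329198288352611559014400), (nat_lit 9028142197616287317498108951134208), (nat_lit 0), (nat_lit 9655153493091300658344029979672576), (nat_lit 0), (nat_lit 0), (nat_lit 0), (nat_lit 8887444130479343845945336905334784), (nat_lit 0), (nat_lit 10831606115853157692559066782498816), (nat_lit 0), (nat_lit 0), (nat_lit 0), (nat_lit 13963459734713434063948819646644224), (nat_lit 7751988180053695272629066973315072), (nat_lit 22900917258164557353260226384494592), (nat_lit 24437984887166330638999702487433216), (nat_lit 9655153493091300658344029979672576), (nat_lit 8887444130479343845945336905334784), (nat_lit 7751988180053695272629066973315072), (nat_lit 31823386467681671472253587624558592), (nat_lit 33297041505957528553104048062988288), (nat_lit 12941107221511953457874163820658688), (nat_lit 0), (nat_lit 22900917258164557353260226384494592), (nat_lit 33297041505957528553104048062988288), (nat_lit 10564332907245284536472566449045504), (nat_lit 10831606115853157692559066782498816),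 (nat_lit 24437984887166330638999702487433216), (nat_lit 12941107221511953457874163820658688), (nat_lit 0), (nat_lit 9655153493091300658344029979672576), (nat_lit 0), (nat_lit 0), (nat_lit 5740968209028302349242050849800192), (nat_lit 0), (nat_lit 18243592401994826013507410372591616), (nat_lit 0), (nat_lit 0), (nat_lit 5740968209028302349242050849800192), (nat_lit 2919631678078281648770183635927040), (nat_lit 10809411671426392608730703493857280), (nat_lit 12665278915081336351341408241582080), (nat_lit 11797823836781131919374112205570048), (nat_lit 0), (nat_lit 10809411671426392608730703493857280), (nat_lit 20018357173566340707062004634877952), (nat_lit 10137550684850219468597346321825792), (nat_lit 18243592401994826013507410372591616), (nat_lit 12665278915081336351341408241582080), (nat_lit 10137550684850219468597346321825792), (nat_lit 0), (nat_lit 11797823836781131919374112205570048), (nat_lit 0), (nat_lit 1426546986517007146086055842676736), (nat_lit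 0), (nat_lit 6375072872011400889831309266911232), (nat_lit 0), (nat_lit 0), (nat_lit 0), (nat_lit 11972987098666225324886657605828608), (nat_lit 10915902056765023560337884400582656), (nat_lit 4877390115265699470167065485115392), (nat_lit 6375072872011400889831309266911232), (nat_lit 10915902056765023560337884400582656), (nat_lit 5107568240768948553730650724630528), (nat_lit 0), (nat_lit 4877390115265699470167065485115392), (nat_lit 0), (nat_lit 0), (nat_lit 2498099654551744931500323275538432), (nat_lit 0), (nat_lit 0), (nat_lit 2498099654551744931500323275538432), (nat_lit 4474665409993961188770017645166592), (nat_lit 4882080804122028056973939289620480), (nat_lit 0), (nat_lit 4882080804122028056973939289620480), (nat_lit 0), (nat_lit 1064114081311712125248718461992960), (nat_lit 0), (nat_lit 0), (nat_lit 0), (nat_lit 1179900458896524047471018407624704), (nat_lit 0), (nat_lit 0), (nat_lit 0), (nat_lit 0), (nat_lit 0)]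


def lP22_0 : List (T ℤ) := [(P (nat_lit 0)), (M (nat_lit 4410501400340933843783516159999)), (P (nat_lit 0)), (P (nat_lit 0)), (T.h (T.h (T.h (P (nat_lit 0)) (T.h (M (nat_lit 5759271470269521065423142911)) (T.h (P (nat_lit 0)) (T.h (P (nat_lit 5469803030520608587776)) (T.h (P (nat_lit 0)) (M (nat_lit 206113574879231))))))) (T.h (P (nat_lit 0)) (T.h (T.h (P (nat_lit 0)) (T.h (P (nat_lit 2712750349386849976320)) (T.h (P (nat_lit 0)) (M (nat_lit 12044449115373567))))) (T.h (P (nat_lit 0)) (T.h (T.h (P (nat_lit 0)) (M (nat_lit 2704680764932095))) (P (nat_lit 0))))))) (T.h (T.h (P (nat_lit 0)) (T.h (T.h (P (nat_lit 4204261618133833938370560)) (T.h (P (nat_lit 0)) (T.h (M (nat_lit 22564888246348677119)) (T.h (P (nat_lit 0)) (M (nat_lit 135946721145023)))))) (T.h (P (nat_lit 0)) (T.h (T.h (P (nat_lit 1436442446299922432)) (T.h (P (nat_lit 0)) (M (nat_lit 13039914007615)))) (T.h (P (nat_lit 0)) (P (nat_lit 1300883372136))))))) (T.h (T.h (T.h (P (nat_lit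 0)) (T.h (P (nat_lit 2781654216421851267072)) (T.h (P (nat_lit 0)) (M (nat_lit 468974644527103))))) (T.h (P (nat_lit 0)) (T.h (T.h (P (nat_lit 0)) (P (nat_lit 13732124649455616))) (P (nat_lit 0))))) (T.h (T.h (P (nat_lit 0)) (T.h (T.h (M (nat_lit 279505857551532031)) (T.h (P (nat_lit 0)) (M (nat_lit 23848727315007)))) (T.h (P (nat_lit 0)) (P (nat_lit 72660681504))))) (T.h (T.h (T.h (P (nat_lit 0)) (M (nat_lit 1986962158813183))) (P (nat_lit 0))) (T.h (T.h (P (nat_lit 0)) (P (nat_lit 251898760536))) (P (nat_lit 0)))))))), (T.h (T.h (T.h (P (nat_lit 6945281478211275015688300789760)) (T.h (P (nat_lit 0)) (T.h (M (nat_lit 6892331385474144117194751)) (T.h (P (nat_lit 0)) (T.h (M (nat_lit 12345843102613766143)) (T.h (P (nat_lit 0)) (P (nat_lit 10239292669440)))))))) (T.h (P (nat_lit 0)) (T.h (T.h (M (nat_lit 844005617985062042599423)) (T.h (P (nat_lit 0)) (T.h (P (nat_lit 28162852510398152704)) (T.h (P (nat_lit 0)) (M (nat_lit 6531616341807)))))) (T.h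 (P (nat_lit 0)) (T.h (T.h (M (nat_lit 250077559696392191)) (T.h (P (nat_lit 0)) (M (nat_lit 12025278876719)))) (T.h (P (nat_lit 0)) (M (nat_lit 394146612063)))))))) (T.h (T.h (P (nat_lit 0)) (T.h (T.h (P (nat_lit 0)) (T.h (P (nat_lit 21790855645850796818432)) (T.h (P (nat_lit 0)) (P (nat_lit 114410331772616704))))) (T.h (P (nat_lit 0)) (T.h (T.h (P (nat_lit 0)) (M (nat_lit 8712303045115903))) (P (nat_lit 0)))))) (T.h (T.h (T.h (M (nat_lit 844005617985062042599423)) (T.h (P (nat_lit 0)) (T.h (P (nat_lit 28162852510398152704)) (T.h (P (nat_lit 0)) (M (nat_lit 6531616341807)))))) (T.h (P (nat_lit 0)) (T.h (T.h (P (nat_lit 1700261905928552448)) (T.h (P (nat_lit 0)) (M (nat_lit 46369747134399)))) (T.h (P (nat_lit 0)) (M (nat_lit 1928525502543)))))) (T.h (T.h (P (nat_lit 0)) (T.h (T.h (P (nat_lit 0)) (M (nat_lit 8712303045115903))) (P (nat_lit 0)))) (T.h (T.h (T.h (M (nat_lit 250077559696392191)) (T.h (P (nat_lit 0)) (M (nat_lit 12025278876719)))) (T.h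 (P (nat_lit 0)) (M (nat_lit 1928525502543)))) (T.h (P (nat_lit 0)) (M (nat_lit 394146612063)))))))), (T.h (T.h (T.h (P (nat_lit 0)) (T.h (P (nat_lit 12705971551799468700223930368)) (T.h (P (nat_lit 0)) (T.h (P (nat_lit 1067211340657522114560)) (T.h (P (nat_lit 0)) (M (nat_lit 24957961867493375))))))) (T.h (P (nat_lit 0)) (T.h (T.h (P (nat_lit 0)) (T.h (M (nat_lit 8848581376903131168767)) (T.h (P (nat_lit 0)) (P (nat_lit 10236873174646784))))) (T.h (P (nat_lit 0)) (T.h (T.h (P (nat_lit 0)) (P (nat_lit 15828416420511744))) (P (nat_lit 0))))))) (T.h (T.h (P (nat_lit 0)) (T.h (T.h (M (nat_lit 6603952406297327842623487)) (T.h (P (nat_lit 0)) (T.h (P (nat_lit 46739776176339812352)) (T.h (P (nat_lit 0)) (P (nat_lit 135946721145024)))))) (T.h (P (nat_lit 0)) (T.h (T.h (M (nat_lit 7293634597340839935)) (T.h (P (nat_lit 0)) (P (nat_lit 18444320661312)))) (T.h (P (nat_lit 0)) (M (nat_lit 776391066335))))))) (T.h (T.h (T.h (P (nat_lit 0)) (T.h (M (nat_lit 1703111653625365004287))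 (T.h (P (nat_lit 0)) (P (nat_lit 33631326450122752))))) (T.h (P (nat_lit 0)) (T.h (T.h (P (nat_lit 0)) (P (nat_lit 24253972323106816))) (P (nat_lit 0))))) (T.h (T.h (P (nat_lit 0)) (T.h (T.h (P (nat_lit 4491474292059406336)) (T.h (P (nat_lit 0)) (P (nat_lit 18444320661312)))) (T.h (P (nat_lit 0)) (M (nat_lit 72660681503))))) (T.h (T.h (T.h (P (nat_lit 0)) (P (nat_lit 8727060432158720))) (P (nat_lit 0))) (T.h (T.h (P (nat_lit 0)) (M (nat_lit 776391066335))) (P (nat_lit 0)))))))), (T.h (T.h (T.h (M (nat_lit 1526812637208704738452194721791)) (T.h (P (nat_lit 0)) (T.h (P (nat_lit 20864823599583554539880448)) (T.h (P (nat_lit 0)) (T.h (P (nat_lit 6830011316166459392)) (T.h (P (nat_lit 0)) (M (nat_lit 18430719318143)))))))) (T.h (P (nat_lit 0)) (T.h (T.h (M (nat_lit 1566168659524124063825919)) (T.h (P (nat_lit 0)) (T.h (M (nat_lit 11962976014688059391)) (T.h (P (nat_lit 0)) (P (nat_lit 17223692796864)))))) (T.h (P (nat_lit 0)) (T.h (T.h (M (nat_lit 1257490112028082175))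 (T.h (P (nat_lit 0)) (P (nat_lit 21823059736368)))) (T.h (P (nat_lit 0)) (P (nat_lit 485082553536)))))))) (T.h (T.h (P (nat_lit 0)) (T.h (T.h (P (nat_lit 0)) (T.h (M (nat_lit 25949813201762300985343)) (T.h (P (nat_lit 0)) (M (nat_lit 150200156445474815))))) (T.h (P (nat_lit 0)) (T.h (T.h (P (nat_lit 0)) (M (nat_lit 16206316422561791))) (P (nat_lit 0)))))) (T.h (T.h (T.h (M (nat_lit 1566168659524124063825919)) (T.h (P (nat_lit 0)) (T.h (M (nat_lit 11962976014688059391)) (T.h (P (nat_lit 0)) (P (nat_lit 17223692796864)))))) (T.h (P (nat_lit 0)) (T.h (T.h (P (nat_lit 5272713814171713536)) (T.h (P (nat_lit 0)) (P (nat_lit 83465545105728)))) (T.h (P (nat_lit 0)) (P (nat_lit 6479329439808)))))) (T.h (T.h (P (nat_lit 0)) (T.h (T.h (P (nat_lit 0)) (M (nat_lit 16206316422561791))) (P (nat_lit 0)))) (T.h (T.h (T.h (M (nat_lit 1257490112028082175)) (T.h (P (nat_lit 0)) (P (nat_lit 21823059736368)))) (T.h (P (nat_lit 0)) (P (nat_lit 6479329439808)))) (T.h (P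 (nat_lit 0)) (P (nat_lit 485082553536))))))))]
def lP22_1 : List (T ℤ) := [(T.h (T.h (T.h (P (nat_lit 0)) (T.h (M (nat_lit 6946700081529947634800787455)) (T.h (P (nat_lit 0)) (T.h (M (nat_lit 6537014371178130702335)) (T.h (P (nat_lit 0)) (P (nat_lit 25164075442372608))))))) (T.h (P (nat_lit 0)) (T.h (T.h (P (nat_lit 0)) (T.h (P (nat_lit 2528644232359897464832)) (T.h (P (nat_lit 0)) (M (nat_lit 15677387932434431))))) (T.h (P (nat_lit 0)) (T.h (T.h (P (nat_lit 0)) (M (nat_lit 9931916964462591))) (P (nat_lit 0))))))) (T.h (T.h (P (nat_lit 0)) (T.h (T.h (P (nat_lit 2399690788163493904252928)) (T.h (P (nat_lit 0)) (M (nat_lit 24174887929991135231)))) (T.h (P (nat_lit 0)) (P (nat_lit 822611858266521600))))) (T.h (T.h (T.h (P (nat_lit 0)) (T.h (P (nat_lit 2528644232359897464832)) (T.h (P (nat_lit 0)) (M (nat_lit 15677387932434431))))) (T.h (P (nat_lit 0)) (T.h (T.h (P (nat_lit 0)) (M (nat_lit 37986096972562431))) (P (nat_lit 0))))) (T.h (T.h (P (nat_lit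 0)) (P (nat_lit 822611858266521600))) (T.h (T.h (T.h (P (nat_lit 0)) (M (nat_lit 9931916964462591))) (P (nat_lit 0))) (P (nat_lit 0))))))), (P (nat_lit 0)), (P (nat_lit 0)), (P (nat_lit 0)), (T.h (T.h (P (nat_lit 0)) (T.h (T.h (P (nat_lit 2249173928889727482182238208)) (T.h (P (nat_lit 0)) (T.h (P (nat_lit 23895936941836185108480)) (T.h (P (nat_lit 0)) (M (nat_lit 69107667941326847)))))) (T.h (P (nat_lit 0)) (T.h (T.h (P (nat_lit 8955629997758437392384)) (T.h (P (nat_lit 0)) (M (nat_lit 30764528360194047)))) (T.h (P (nat_lit 0)) (M (nat_lit 12698370511568895))))))) (T.h (T.h (T.h (P (nat_lit 0)) (T.h (M (nat_lit 7185236083707900717957119)) (T.h (P (nat_lit 0)) (T.h (P (nat_lit 12105574288833118208)) (T.h (P (nat_lit 0)) (M (nat_lit 37010954213999))))))) (T.h (P (nat_lit 0)) (T.h (T.h (P (nat_lit 0)) (T.h (P (nat_lit 2037456595029327872)) (T.h (P (nat_lit 0)) (P (nat_lit 106076979911416))))) (T.h (P (nat_lit 0)) (T.h (T.h (P (nat_lit 0)) (M (nat_lit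 20349208859607))) (P (nat_lit 0))))))) (T.h (T.h (P (nat_lit 0)) (T.h (T.h (M (nat_lit 4991051602226185240575)) (T.h (P (nat_lit 0)) (P (nat_lit 12565639803011072)))) (T.h (P (nat_lit 0)) (P (nat_lit 2757992272723968))))) (T.h (T.h (T.h (P (nat_lit 0)) (T.h (P (nat_lit 3354224471622811648)) (T.h (P (nat_lit 0)) (M (nat_lit 8558637664695))))) (T.h (P (nat_lit 0)) (T.h (T.h (P (nat_lit 0)) (M (nat_lit 4652274396391))) (P (nat_lit 0))))) (T.h (T.h (P (nat_lit 0)) (P (nat_lit 2120504879120384))) (T.h (T.h (T.h (P (nat_lit 0)) (P (nat_lit 26085537184))) (P (nat_lit 0))) (P (nat_lit 0)))))))), (T.h (T.h (P (nat_lit 0)) (T.h (T.h (P (nat_lit 0)) (T.h (P (nat_lit 3505100089068918241492992)) (T.h (P (nat_lit 0)) (T.h (P (nat_lit 83778115168194527232)) (T.h (P (nat_lit 0)) (M (nat_lit 335941989346463))))))) (T.h (P (nat_lit 0)) (T.h (T.h (P (nat_lit 0)) (T.h (M (nat_lit 3206093737427992575)) (T.h (P (nat_lit 0)) (P (nat_lit 19834863972112))))) (T.h (P (nat_lit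 0)) (T.h (T.h (P (nat_lit 0)) (M (nat_lit 2171138809055))) (P (nat_lit 0)))))))) (T.h (T.h (T.h (P (nat_lit 2084092978544746558608375808)) (T.h (P (nat_lit 0)) (T.h (M (nat_lit 14112679512842935730175)) (T.h (P (nat_lit 0)) (M (nat_lit 145933282261073919)))))) (T.h (P (nat_lit 0)) (T.h (T.h (M (nat_lit 13105697841355797037055)) (T.h (P (nat_lit 0)) (M (nat_lit 45175380232437759)))) (T.h (P (nat_lit 0)) (M (nat_lit 21643633645551615)))))) (T.h (T.h (P (nat_lit 0)) (T.h (T.h (P (nat_lit 0)) (T.h (P (nat_lit 8688976552274165760)) (T.h (P (nat_lit 0)) (P (nat_lit 19291176429520))))) (T.h (P (nat_lit 0)) (T.h (T.h (P (nat_lit 0)) (P (nat_lit 7731991111936))) (P (nat_lit 0)))))) (T.h (T.h (T.h (M (nat_lit 2445534956294129057791)) (T.h (P (nat_lit 0)) (P (nat_lit 3081846973022208)))) (T.h (P (nat_lit 0)) (M (nat_lit 10769564384280575)))) (T.h (T.h (P (nat_lit 0)) (T.h (T.h (P (nat_lit 0)) (M (nat_lit 6391443606815))) (P (nat_lit 0)))) (P (nat_lit 2747498126852096))))))),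 (T.h (T.h (P (nat_lit 0)) (T.h (T.h (M (nat_lit 2787373763577663888453271551)) (T.h (P (nat_lit 0)) (T.h (P (nat_lit 37652368741945447546880)) (T.h (P (nat_lit 0)) (P (nat_lit 498903295979454464)))))) (T.h (P (nat_lit 0)) (T.h (T.h (M (nat_lit 14596476764099333586943)) (T.h (P (nat_lit 0)) (M (nat_lit 18450982411370495)))) (T.h (P (nat_lit 0)) (P (nat_lit 12471877204180992))))))) (T.h (T.h (T.h (P (nat_lit 0)) (T.h (P (nat_lit 8420469345027642405945344)) (T.h (P (nat_lit 0)) (T.h (P (nat_lit 184211853846620667904)) (T.h (P (nat_lit 0)) (M (nat_lit 98814136291871))))))) (T.h (P (nat_lit 0)) (T.h (T.h (P (nat_lit 0)) (T.h (M (nat_lit 29332209703661338623)) (T.h (P (nat_lit 0)) (M (nat_lit 31467877982927))))) (T.h (P (nat_lit 0)) (T.h (T.h (P (nat_lit 0)) (M (nat_lit 5796365101967))) (P (nat_lit 0))))))) (T.h (T.h (P (nat_lit 0)) (T.h (T.h (M (nat_lit 3668610430600438874111)) (T.h (P (nat_lit 0)) (M (nat_lit 105182443699470335)))) (T.h (P (nat_lit 0))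 (M (nat_lit 47013678771863551))))) (T.h (T.h (T.h (P (nat_lit 0)) (T.h (M (nat_lit 26595740297180741631)) (T.h (P (nat_lit 0)) (P (nat_lit 13347002066688))))) (T.h (P (nat_lit 0)) (T.h (T.h (P (nat_lit 0)) (M (nat_lit 18427241446751))) (P (nat_lit 0))))) (T.h (T.h (P (nat_lit 0)) (M (nat_lit 12344674416689151))) (T.h (T.h (T.h (P (nat_lit 0)) (P (nat_lit 2088080913312))) (P (nat_lit 0))) (P (nat_lit 0)))))))), (T.h (T.h (P (nat_lit 0)) (T.h (T.h (P (nat_lit 0)) (T.h (P (nat_lit 16770020288298499683909632)) (T.h (P (nat_lit 0)) (T.h (M (nat_lit 54436003502392082431)) (T.h (P (nat_lit 0)) (P (nat_lit 310329193881600))))))) (T.h (P (nat_lit 0)) (T.h (T.h (P (nat_lit 0)) (T.h (M (nat_lit 24581911049941286911)) (T.h (P (nat_lit 0)) (M (nat_lit 15746492039039))))) (T.h (P (nat_lit 0)) (T.h (T.h (P (nat_lit 0)) (M (nat_lit 3743196082991))) (P (nat_lit 0)))))))) (T.h (T.h (T.h (P (nat_lit 7613911020926650974465949696)) (T.h (P (nat_lit 0)) (T.h (M (nat_lit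 37608647712375417339903)) (T.h (P (nat_lit 0)) (P (nat_lit 288386959946383360)))))) (T.h (P (nat_lit 0)) (T.h (T.h (P (nat_lit 856239061351264157696)) (T.h (P (nat_lit 0)) (M (nat_lit 11201544438792191)))) (T.h (P (nat_lit 0)) (M (nat_lit 18543270365085695)))))) (T.h (T.h (P (nat_lit 0)) (T.h (T.h (P (nat_lit 0)) (T.h (P (nat_lit 6148453346429632512)) (T.h (P (nat_lit 0)) (M (nat_lit 157763501468927))))) (T.h (P (nat_lit 0)) (T.h (T.h (P (nat_lit 0)) (M (nat_lit 43491366017423))) (P (nat_lit 0)))))) (T.h (T.h (T.h (P (nat_lit 3737831950392995348480)) (T.h (P (nat_lit 0)) (M (nat_lit 15025593104400383)))) (T.h (P (nat_lit 0)) (P (nat_lit 18868985238323200)))) (T.h (T.h (P (nat_lit 0)) (T.h (T.h (P (nat_lit 0)) (P (nat_lit 17575024374576))) (P (nat_lit 0)))) (M (nat_lit 2662119321436159)))))))]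
def lP22_2 : List (T ℤ) := [(T.h (T.h (P (nat_lit 0)) (T.h (T.h (M (nat_lit 1069719061105742419312246783)) (T.h (P (nat_lit 0)) (T.h (M (nat_lit 9039233065320873721855)) (T.h (P (nat_lit 0)) (M (nat_lit 360924354560393215)))))) (T.h (P (nat_lit 0)) (T.h (T.h (P (nat_lit 4810639926731932172288)) (T.h (P (nat_lit 0)) (M (nat_lit 9114228696940543)))) (T.h (P (nat_lit 0)) (P (nat_lit 189485684457472))))))) (T.h (T.h (T.h (P (nat_lit 0)) (T.h (M (nat_lit 1761177201905144919228415)) (T.h (P (nat_lit 0)) (M (nat_lit 159289274093619118079))))) (T.h (P (nat_lit 0)) (T.h (T.h (P (nat_lit 0)) (P (nat_lit 13635200529196908544))) (P (nat_lit 0))))) (T.h (T.h (P (nat_lit 0)) (T.h (T.h (P (nat_lit 167114983961662586880)) (T.h (P (nat_lit 0)) (P (nat_lit 69713786696892416)))) (T.h (P (nat_lit 0)) (P (nat_lit 3999072314753024))))) (T.h (T.h (T.h (P (nat_lit 0)) (M (nat_lit 1424453042811437055))) (P (nat_lit 0))) (T.h (T.h (P (nat_lit 0)) (M (nat_lit 6948109256065023)))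 (P (nat_lit 0))))))), (P (nat_lit 0)), (P (nat_lit 0)), (P (nat_lit 0)), (T.h (T.h (T.h (P (nat_lit 0)) (T.h (M (nat_lit 2446445817314079046260228095)) (T.h (P (nat_lit 0)) (T.h (P (nat_lit 14113606204607447433216)) (T.h (P (nat_lit 0)) (M (nat_lit 14427111626145791))))))) (T.h (P (nat_lit 0)) (T.h (T.h (P (nat_lit 0)) (T.h (P (nat_lit 9524129684993658060800)) (T.h (P (nat_lit 0)) (P (nat_lit 46263438480408576))))) (T.h (P (nat_lit 0)) (T.h (T.h (P (nat_lit 0)) (P (nat_lit 14579344540237824))) (P (nat_lit 0))))))) (T.h (T.h (P (nat_lit 0)) (T.h (T.h (P (nat_lit 6034124902302266928660480)) (T.h (P (nat_lit 0)) (T.h (P (nat_lit 93185734165020016640)) (T.h (P (nat_lit 0)) (P (nat_lit 17695890957600)))))) (T.h (P (nat_lit 0)) (T.h (T.h (M (nat_lit 2708072234307551231)) (T.h (P (nat_lit 0)) (P (nat_lit 16120243369672)))) (T.h (P (nat_lit 0)) (M (nat_lit 33957735906503))))))) (T.h (T.h (T.h (P (nat_lit 0)) (T.h (P (nat_lit 3729586567560768258048)) (T.h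 (P (nat_lit 0)) (P (nat_lit 1902440084045824))))) (T.h (P (nat_lit 0)) (T.h (T.h (P (nat_lit 0)) (M (nat_lit 32332720980328447))) (P (nat_lit 0))))) (T.h (T.h (P (nat_lit 0)) (T.h (T.h (P (nat_lit 2800396035392798720)) (T.h (P (nat_lit 0)) (M (nat_lit 16412332180447)))) (T.h (P (nat_lit 0)) (P (nat_lit 13956825122808))))) (T.h (T.h (T.h (P (nat_lit 0)) (M (nat_lit 17775016194080767))) (P (nat_lit 0))) (T.h (T.h (P (nat_lit 0)) (P (nat_lit 9180840934728))) (P (nat_lit 0)))))))), (T.h (T.h (T.h (P (nat_lit 10240767002178687954892823199744)) (T.h (P (nat_lit 0)) (T.h (P (nat_lit 12058186289434892836012032)) (T.h (P (nat_lit 0)) (T.h (M (nat_lit 2233296166391382015)) (T.h (P (nat_lit 0)) (P (nat_lit 33595231580112)))))))) (T.h (P (nat_lit 0)) (T.h (T.h (M (nat_lit 4923473558923471130460159)) (T.h (P (nat_lit 0)) (T.h (P (nat_lit 65010833342637015040)) (T.h (P (nat_lit 0)) (M (nat_lit 19123657897535)))))) (T.h (P (nat_lit 0)) (T.h (T.h (P (nat_lit 24525644828128575488))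 (T.h (P (nat_lit 0)) (M (nat_lit 35834186439263)))) (T.h (P (nat_lit 0)) (P (nat_lit 5106811990464)))))))) (T.h (T.h (P (nat_lit 0)) (T.h (T.h (P (nat_lit 0)) (T.h (P (nat_lit 9916637199665389895680)) (T.h (P (nat_lit 0)) (M (nat_lit 8549900743704575))))) (T.h (P (nat_lit 0)) (T.h (T.h (P (nat_lit 0)) (P (nat_lit 92963174163087360))) (P (nat_lit 0)))))) (T.h (T.h (T.h (P (nat_lit 1874529792743809499529216)) (T.h (P (nat_lit 0)) (T.h (M (nat_lit 51208003868654829567)) (T.h (P (nat_lit 0)) (P (nat_lit 52052519111328)))))) (T.h (P (nat_lit 0)) (T.h (T.h (P (nat_lit 7358800448335118336)) (T.h (P (nat_lit 0)) (M (nat_lit 23507951099487)))) (T.h (P (nat_lit 0)) (M (nat_lit 2332677536639)))))) (T.h (T.h (P (nat_lit 0)) (T.h (T.h (P (nat_lit 0)) (M (nat_lit 9230042037944319))) (P (nat_lit 0)))) (T.h (T.h (T.h (M (nat_lit 541262488075763711)) (T.h (P (nat_lit 0)) (M (nat_lit 4136082018047)))) (T.h (P (nat_lit 0)) (P (nat_lit 3880953721632)))) (T.h (P (nat_lit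 0)) (M (nat_lit 1226078413135)))))))), (T.h (T.h (T.h (P (nat_lit 0)) (T.h (M (nat_lit 13738543897078520168434368511)) (T.h (P (nat_lit 0)) (T.h (P (nat_lit 89746200216324985061376)) (T.h (P (nat_lit 0)) (M (nat_lit 42162729439887359))))))) (T.h (P (nat_lit 0)) (T.h (T.h (P (nat_lit 0)) (T.h (P (nat_lit 71863826799750006439936)) (T.h (P (nat_lit 0)) (M (nat_lit 93737683484508159))))) (T.h (P (nat_lit 0)) (T.h (T.h (P (nat_lit 0)) (P (nat_lit 35006146232877056))) (P (nat_lit 0))))))) (T.h (T.h (P (nat_lit 0)) (T.h (T.h (P (nat_lit 1682189232321638827032576)) (T.h (P (nat_lit 0)) (T.h (P (nat_lit 58648929392887070720)) (T.h (P (nat_lit 0)) (M (nat_lit 154815030088991)))))) (T.h (P (nat_lit 0)) (T.h (T.h (P (nat_lit 29827779157339144192)) (T.h (P (nat_lit 0)) (M (nat_lit 49743205508255)))) (T.h (P (nat_lit 0)) (P (nat_lit 18104669004960))))))) (T.h (T.h (T.h (P (nat_lit 0)) (T.h (P (nat_lit 53116712304456398536704)) (T.h (P (nat_lit 0)) (M (nat_lit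 239507379198361599))))) (T.h (P (nat_lit 0)) (T.h (T.h (P (nat_lit 0)) (M (nat_lit 45237387053236223))) (P (nat_lit 0))))) (T.h (T.h (P (nat_lit 0)) (T.h (T.h (P (nat_lit 34971865101436452864)) (T.h (P (nat_lit 0)) (P (nat_lit 6806561621472)))) (T.h (P (nat_lit 0)) (M (nat_lit 3182115287471))))) (T.h (T.h (T.h (P (nat_lit 0)) (P (nat_lit 13389182920425472))) (P (nat_lit 0))) (T.h (T.h (P (nat_lit 0)) (M (nat_lit 2216404253375))) (P (nat_lit 0)))))))), (T.h (T.h (T.h (M (nat_lit 7347284730981760738617207029759)) (T.h (P (nat_lit 0)) (T.h (M (nat_lit 24986163315578777425149951)) (T.h (P (nat_lit 0)) (T.h (P (nat_lit 14892719367979532288)) (T.h (P (nat_lit 0)) (M (nat_lit 1900902457007)))))))) (T.h (P (nat_lit 0)) (T.h (T.h (P (nat_lit 57923522351927671027400704)) (T.h (P (nat_lit 0)) (T.h (P (nat_lit 177177424402405392384)) (T.h (P (nat_lit 0)) (P (nat_lit 135693679464000)))))) (T.h (P (nat_lit 0)) (T.h (T.h (M (nat_lit 29989453987150036991)) (T.h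 (P (nat_lit 0)) (M (nat_lit 29246983189487)))) (T.h (P (nat_lit 0)) (M (nat_lit 12383001643247)))))))) (T.h (T.h (P (nat_lit 0)) (T.h (T.h (P (nat_lit 0)) (T.h (P (nat_lit 70258196730489203589120)) (T.h (P (nat_lit 0)) (P (nat_lit 262996897238188032))))) (T.h (P (nat_lit 0)) (T.h (T.h (P (nat_lit 0)) (P (nat_lit 47568789769158656))) (P (nat_lit 0)))))) (T.h (T.h (T.h (M (nat_lit 4210623603377640919007231)) (T.h (P (nat_lit 0)) (T.h (P (nat_lit 112178435325171859456)) (T.h (P (nat_lit 0)) (M (nat_lit 154054818207791)))))) (T.h (P (nat_lit 0)) (T.h (T.h (M (nat_lit 2352003625896640511)) (T.h (P (nat_lit 0)) (M (nat_lit 154284181097903)))) (T.h (P (nat_lit 0)) (P (nat_lit 3747522647088)))))) (T.h (T.h (P (nat_lit 0)) (T.h (T.h (P (nat_lit 0)) (P (nat_lit 12885981240885248))) (P (nat_lit 0)))) (T.h (T.h (T.h (P (nat_lit 1445542280348827648)) (T.h (P (nat_lit 0)) (M (nat_lit 40633845785423)))) (T.h (P (nat_lit 0)) (M (nat_lit 40758030476063)))) (T.h (P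 (nat_lit 0)) (P (nat_lit 2262664312560))))))))]
def lP22_3 : List (T ℤ) := [(T.h (T.h (T.h (P (nat_lit 0)) (T.h (P (nat_lit 5938840239767262457329876992)) (T.h (P (nat_lit 0)) (T.h (M (nat_lit 15260972577348049174527)) (T.h (P (nat_lit 0)) (M (nat_lit 68021766630866943))))))) (T.h (P (nat_lit 0)) (T.h (T.h (P (nat_lit 0)) (T.h (M (nat_lit 83505656668972851920895)) (T.h (P (nat_lit 0)) (M (nat_lit 112761797231247359))))) (T.h (P (nat_lit 0)) (T.h (T.h (P (nat_lit 0)) (P (nat_lit 17569552337108992))) (P (nat_lit 0))))))) (T.h (T.h (P (nat_lit 0)) (T.h (T.h (M (nat_lit 8121832179209592299847679)) (T.h (P (nat_lit 0)) (M (nat_lit 9408689513531703295)))) (T.h (P (nat_lit 0)) (P (nat_lit 18589109809936596992))))) (T.h (T.h (T.h (P (nat_lit 0)) (T.h (M (nat_lit 32448110580492473991167)) (T.h (P (nat_lit 0)) (P (nat_lit 176124080196288512))))) (T.h (P (nat_lit 0)) (T.h (T.h (P (nat_lit 0)) (P (nat_lit 99906550954229760))) (P (nat_lit 0))))) (T.h (T.h (P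 (nat_lit 0)) (M (nat_lit 6818117037345210367))) (T.h (T.h (T.h (P (nat_lit 0)) (P (nat_lit 14493620268662784))) (P (nat_lit 0))) (P (nat_lit 0))))))), (P (nat_lit 0)), (P (nat_lit 0)), (T.h (T.h (P (nat_lit 0)) (T.h (T.h (M (nat_lit 2446445817314079046260228095)) (T.h (P (nat_lit 0)) (T.h (P (nat_lit 9524129684993658060800)) (T.h (P (nat_lit 0)) (P (nat_lit 14579344540237824)))))) (T.h (P (nat_lit 0)) (T.h (T.h (P (nat_lit 14113606204607447433216)) (T.h (P (nat_lit 0)) (P (nat_lit 46263438480408576)))) (T.h (P (nat_lit 0)) (M (nat_lit 14427111626145791))))))) (T.h (T.h (T.h (P (nat_lit 0)) (T.h (P (nat_lit 6034124902302266928660480)) (T.h (P (nat_lit 0)) (T.h (M (nat_lit 2708072234307551231)) (T.h (P (nat_lit 0)) (M (nat_lit 33957735906503))))))) (T.h (P (nat_lit 0)) (T.h (T.h (P (nat_lit 0)) (T.h (P (nat_lit 93185734165020016640)) (T.h (P (nat_lit 0)) (P (nat_lit 16120243369672))))) (T.h (P (nat_lit 0)) (T.h (T.h (P (nat_lit 0)) (P (nat_lit 17695890957600)))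 (P (nat_lit 0))))))) (T.h (T.h (P (nat_lit 0)) (T.h (T.h (P (nat_lit 3729586567560768258048)) (T.h (P (nat_lit 0)) (M (nat_lit 32332720980328447)))) (T.h (P (nat_lit 0)) (P (nat_lit 1902440084045824))))) (T.h (T.h (T.h (P (nat_lit 0)) (T.h (P (nat_lit 2800396035392798720)) (T.h (P (nat_lit 0)) (P (nat_lit 13956825122808))))) (T.h (P (nat_lit 0)) (T.h (T.h (P (nat_lit 0)) (M (nat_lit 16412332180447))) (P (nat_lit 0))))) (T.h (T.h (P (nat_lit 0)) (M (nat_lit 17775016194080767))) (T.h (T.h (T.h (P (nat_lit 0)) (P (nat_lit 9180840934728))) (P (nat_lit 0))) (P (nat_lit 0)))))))), (T.h (T.h (P (nat_lit 0)) (T.h (T.h (P (nat_lit 0)) (T.h (M (nat_lit 21684869927939417095274495)) (T.h (P (nat_lit 0)) (T.h (M (nat_lit 206766406671320219647)) (T.h (P (nat_lit 0)) (P (nat_lit 16513881934288))))))) (T.h (P (nat_lit 0)) (T.h (T.h (P (nat_lit 0)) (T.h (M (nat_lit 206766406671320219647)) (T.h (P (nat_lit 0)) (M (nat_lit 399778677697119))))) (T.h (P (nat_lit 0))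 (T.h (T.h (P (nat_lit 0)) (P (nat_lit 16513881934288))) (P (nat_lit 0)))))))) (T.h (T.h (T.h (P (nat_lit 11020416314614742364347957248)) (T.h (P (nat_lit 0)) (T.h (M (nat_lit 12844806377626037911551)) (T.h (P (nat_lit 0)) (P (nat_lit 73671756276744192)))))) (T.h (P (nat_lit 0)) (T.h (T.h (M (nat_lit 12844806377626037911551)) (T.h (P (nat_lit 0)) (M (nat_lit 6591774721277951)))) (T.h (P (nat_lit 0)) (P (nat_lit 73671756276744192)))))) (T.h (T.h (P (nat_lit 0)) (T.h (T.h (P (nat_lit 0)) (T.h (M (nat_lit 12963444723204227071)) (T.h (P (nat_lit 0)) (P (nat_lit 48030240726480))))) (T.h (P (nat_lit 0)) (T.h (T.h (P (nat_lit 0)) (P (nat_lit 48030240726480))) (P (nat_lit 0)))))) (T.h (T.h (T.h (M (nat_lit 5737787604839604158463)) (T.h (P (nat_lit 0)) (P (nat_lit 38487973547999232)))) (T.h (P (nat_lit 0)) (P (nat_lit 38487973547999232)))) (T.h (T.h (P (nat_lit 0)) (T.h (T.h (P (nat_lit 0)) (P (nat_lit 191230761875616))) (P (nat_lit 0)))) (P (nat_lit 437921507999744))))))),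 (T.h (T.h (P (nat_lit 0)) (T.h (T.h (P (nat_lit 4368116058228354375101710336)) (T.h (P (nat_lit 0)) (T.h (M (nat_lit 1446955682022832472063)) (T.h (P (nat_lit 0)) (P (nat_lit 21747700251721728)))))) (T.h (P (nat_lit 0)) (T.h (T.h (M (nat_lit 7380388423830398304255)) (T.h (P (nat_lit 0)) (P (nat_lit 634665869733625856)))) (T.h (P (nat_lit 0)) (P (nat_lit 5045585517576192))))))) (T.h (T.h (T.h (P (nat_lit 0)) (T.h (P (nat_lit 43822609512558630782631936)) (T.h (P (nat_lit 0)) (T.h (M (nat_lit 178327785982151098367)) (T.h (P (nat_lit 0)) (P (nat_lit 23220499327104))))))) (T.h (P (nat_lit 0)) (T.h (T.h (P (nat_lit 0)) (T.h (M (nat_lit 38265554109261152255)) (T.h (P (nat_lit 0)) (M (nat_lit 85726898830271))))) (T.h (P (nat_lit 0)) (T.h (T.h (P (nat_lit 0)) (P (nat_lit 37567969112640))) (P (nat_lit 0))))))) (T.h (T.h (P (nat_lit 0)) (T.h (T.h (M (nat_lit 28928474127679788941311)) (T.h (P (nat_lit 0)) (P (nat_lit 66634387635765248)))) (T.h (P (nat_lit 0))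 (P (nat_lit 147458440066596864))))) (T.h (T.h (T.h (P (nat_lit 0)) (T.h (M (nat_lit 25450150049553055743)) (T.h (P (nat_lit 0)) (M (nat_lit 13428688508639))))) (T.h (P (nat_lit 0)) (T.h (T.h (P (nat_lit 0)) (M (nat_lit 30149558717327))) (P (nat_lit 0))))) (T.h (T.h (P (nat_lit 0)) (M (nat_lit 59547746259075071))) (T.h (T.h (T.h (P (nat_lit 0)) (P (nat_lit 453752910000))) (P (nat_lit 0))) (P (nat_lit 0)))))))), (T.h (T.h (P (nat_lit 0)) (T.h (T.h (P (nat_lit 0)) (T.h (M (nat_lit 1974649089754001720737791)) (T.h (P (nat_lit 0)) (T.h (P (nat_lit 365582842032417669120)) (T.h (P (nat_lit 0)) (P (nat_lit 418099953986208))))))) (T.h (P (nat_lit 0)) (T.h (T.h (P (nat_lit 0)) (T.h (M (nat_lit 12150048673841020927)) (T.h (P (nat_lit 0)) (P (nat_lit 356919587573616))))) (T.h (P (nat_lit 0)) (T.h (T.h (P (nat_lit 0)) (M (nat_lit 153484319177423))) (P (nat_lit 0)))))))) (T.h (T.h (T.h (M (nat_lit 3335675229011176419139518463)) (T.h (P (nat_lit 0)) (T.h (P (nat_lit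 24602323935072788414464)) (T.h (P (nat_lit 0)) (P (nat_lit 227435957508997120)))))) (T.h (P (nat_lit 0)) (T.h (T.h (M (nat_lit 7048662301444117889023)) (T.h (P (nat_lit 0)) (P (nat_lit 69244562661801984)))) (T.h (P (nat_lit 0)) (M (nat_lit 55932866233335807)))))) (T.h (T.h (P (nat_lit 0)) (T.h (T.h (P (nat_lit 0)) (T.h (M (nat_lit 18276632113639849983)) (T.h (P (nat_lit 0)) (M (nat_lit 111663856591199))))) (T.h (P (nat_lit 0)) (T.h (T.h (P (nat_lit 0)) (P (nat_lit 157454749658304))) (P (nat_lit 0)))))) (T.h (T.h (T.h (M (nat_lit 2556215325078874750975)) (T.h (P (nat_lit 0)) (M (nat_lit 16203078846971903)))) (T.h (P (nat_lit 0)) (P (nat_lit 10764761764429824)))) (T.h (T.h (P (nat_lit 0)) (T.h (T.h (P (nat_lit 0)) (M (nat_lit 235517594865407))) (P (nat_lit 0)))) (P (nat_lit 3963771170832384))))))), (T.h (T.h (P (nat_lit 0)) (T.h (T.h (M (nat_lit 19010715559394962457480921087)) (T.h (P (nat_lit 0)) (T.h (M (nat_lit 337256168840861870718975)) (T.h (P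 (nat_lit 0)) (M (nat_lit 537460537767034879)))))) (T.h (P (nat_lit 0)) (T.h (T.h (P (nat_lit 17167194726438533070848)) (T.h (P (nat_lit 0)) (M (nat_lit 217035851084890111)))) (T.h (P (nat_lit 0)) (P (nat_lit 51833134429732864))))))) (T.h (T.h (T.h (P (nat_lit 0)) (T.h (M (nat_lit 11796831539250381828653055)) (T.h (P (nat_lit 0)) (M (nat_lit 201848382004607844351))))) (T.h (P (nat_lit 0)) (T.h (T.h (P (nat_lit 0)) (P (nat_lit 27730665333827043328))) (P (nat_lit 0))))) (T.h (T.h (P (nat_lit 0)) (T.h (T.h (M (nat_lit 4534848523537343315967)) (T.h (P (nat_lit 0)) (P (nat_lit 146445637852594176)))) (T.h (P (nat_lit 0)) (M (nat_lit 39240781425016831))))) (T.h (T.h (T.h (P (nat_lit 0)) (P (nat_lit 11447994264663883776))) (P (nat_lit 0))) (T.h (T.h (P (nat_lit 0)) (P (nat_lit 72142769679368192))) (P (nat_lit 0)))))))]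
def lP22_4 : List (T ℤ) := [(P (nat_lit 0)), (P (nat_lit 0)), (T.h (T.h (T.h (P (nat_lit 0)) (T.h (P (nat_lit 2249173928889727482182238208)) (T.h (P (nat_lit 0)) (T.h (P (nat_lit 8955629997758437392384)) (T.h (P (nat_lit 0)) (M (nat_lit 12698370511568895))))))) (T.h (P (nat_lit 0)) (T.h (T.h (P (nat_lit 0)) (T.h (P (nat_lit 23895936941836185108480)) (T.h (P (nat_lit 0)) (M (nat_lit 30764528360194047))))) (T.h (P (nat_lit 0)) (T.h (T.h (P (nat_lit 0)) (M (nat_lit 69107667941326847))) (P (nat_lit 0))))))) (T.h (T.h (P (nat_lit 0)) (T.h (T.h (M (nat_lit 7185236083707900717957119)) (T.h (P (nat_lit 0)) (T.h (P (nat_lit 2037456595029327872)) (T.h (P (nat_lit 0)) (M (nat_lit 20349208859607)))))) (T.h (P (nat_lit 0)) (T.h (T.h (P (nat_lit 12105574288833118208)) (T.h (P (nat_lit 0)) (P (nat_lit 106076979911416)))) (T.h (P (nat_lit 0)) (M (nat_lit 37010954213999))))))) (T.h (T.h (T.h (P (nat_lit 0)) (T.h (M (nat_lit 4991051602226185240575)) (T.h (P (nat_lit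 0)) (P (nat_lit 2757992272723968))))) (T.h (P (nat_lit 0)) (T.h (T.h (P (nat_lit 0)) (P (nat_lit 12565639803011072))) (P (nat_lit 0))))) (T.h (T.h (P (nat_lit 0)) (T.h (T.h (P (nat_lit 3354224471622811648)) (T.h (P (nat_lit 0)) (M (nat_lit 4652274396391)))) (T.h (P (nat_lit 0)) (M (nat_lit 8558637664695))))) (T.h (T.h (T.h (P (nat_lit 0)) (P (nat_lit 2120504879120384))) (P (nat_lit 0))) (T.h (T.h (P (nat_lit 0)) (P (nat_lit 26085537184))) (P (nat_lit 0)))))))), (T.h (T.h (T.h (P (nat_lit 10240767002178687954892823199744)) (T.h (P (nat_lit 0)) (T.h (M (nat_lit 4923473558923471130460159)) (T.h (P (nat_lit 0)) (T.h (P (nat_lit 24525644828128575488)) (T.h (P (nat_lit 0)) (P (nat_lit 5106811990464)))))))) (T.h (P (nat_lit 0)) (T.h (T.h (P (nat_lit 12058186289434892836012032)) (T.h (P (nat_lit 0)) (T.h (P (nat_lit 65010833342637015040)) (T.h (P (nat_lit 0)) (M (nat_lit 35834186439263)))))) (T.h (P (nat_lit 0)) (T.h (T.h (M (nat_lit 2233296166391382015))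 (T.h (P (nat_lit 0)) (M (nat_lit 19123657897535)))) (T.h (P (nat_lit 0)) (P (nat_lit 33595231580112)))))))) (T.h (T.h (P (nat_lit 0)) (T.h (T.h (P (nat_lit 0)) (T.h (P (nat_lit 9916637199665389895680)) (T.h (P (nat_lit 0)) (P (nat_lit 92963174163087360))))) (T.h (P (nat_lit 0)) (T.h (T.h (P (nat_lit 0)) (M (nat_lit 8549900743704575))) (P (nat_lit 0)))))) (T.h (T.h (T.h (P (nat_lit 1874529792743809499529216)) (T.h (P (nat_lit 0)) (T.h (P (nat_lit 7358800448335118336)) (T.h (P (nat_lit 0)) (M (nat_lit 2332677536639)))))) (T.h (P (nat_lit 0)) (T.h (T.h (M (nat_lit 51208003868654829567)) (T.h (P (nat_lit 0)) (M (nat_lit 23507951099487)))) (T.h (P (nat_lit 0)) (P (nat_lit 52052519111328)))))) (T.h (T.h (P (nat_lit 0)) (T.h (T.h (P (nat_lit 0)) (M (nat_lit 9230042037944319))) (P (nat_lit 0)))) (T.h (T.h (T.h (M (nat_lit 541262488075763711)) (T.h (P (nat_lit 0)) (P (nat_lit 3880953721632)))) (T.h (P (nat_lit 0)) (M (nat_lit 4136082018047)))) (T.h (P (nat_lit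 0)) (M (nat_lit 1226078413135)))))))), (T.h (T.h (T.h (P (nat_lit 0)) (T.h (P (nat_lit 4368116058228354375101710336)) (T.h (P (nat_lit 0)) (T.h (M (nat_lit 7380388423830398304255)) (T.h (P (nat_lit 0)) (P (nat_lit 5045585517576192))))))) (T.h (P (nat_lit 0)) (T.h (T.h (P (nat_lit 0)) (T.h (M (nat_lit 1446955682022832472063)) (T.h (P (nat_lit 0)) (P (nat_lit 634665869733625856))))) (T.h (P (nat_lit 0)) (T.h (T.h (P (nat_lit 0)) (P (nat_lit 21747700251721728))) (P (nat_lit 0))))))) (T.h (T.h (P (nat_lit 0)) (T.h (T.h (P (nat_lit 43822609512558630782631936)) (T.h (P (nat_lit 0)) (T.h (M (nat_lit 38265554109261152255)) (T.h (P (nat_lit 0)) (P (nat_lit 37567969112640)))))) (T.h (P (nat_lit 0)) (T.h (T.h (M (nat_lit 178327785982151098367)) (T.h (P (nat_lit 0)) (M (nat_lit 85726898830271)))) (T.h (P (nat_lit 0)) (P (nat_lit 23220499327104))))))) (T.h (T.h (T.h (P (nat_lit 0)) (T.h (M (nat_lit 28928474127679788941311)) (T.h (P (nat_lit 0)) (P (nat_lit 147458440066596864)))))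 (T.h (P (nat_lit 0)) (T.h (T.h (P (nat_lit 0)) (P (nat_lit 66634387635765248))) (P (nat_lit 0))))) (T.h (T.h (P (nat_lit 0)) (T.h (T.h (M (nat_lit 25450150049553055743)) (T.h (P (nat_lit 0)) (M (nat_lit 30149558717327)))) (T.h (P (nat_lit 0)) (M (nat_lit 13428688508639))))) (T.h (T.h (T.h (P (nat_lit 0)) (M (nat_lit 59547746259075071))) (P (nat_lit 0))) (T.h (T.h (P (nat_lit 0)) (P (nat_lit 453752910000))) (P (nat_lit 0)))))))), (T.h (T.h (T.h (P (nat_lit 2702654388380850163848774156288)) (T.h (P (nat_lit 0)) (T.h (P (nat_lit 1227016224249122383724544)) (T.h (P (nat_lit 0)) (T.h (M (nat_lit 220068457998087880703)) (T.h (P (nat_lit 0)) (M (nat_lit 123801535670687)))))))) (T.h (P (nat_lit 0)) (T.h (T.h (P (nat_lit 1227016224249122383724544)) (T.h (P (nat_lit 0)) (T.h (M (nat_lit 276733554994396004351)) (T.h (P (nat_lit 0)) (P (nat_lit 8403018471936)))))) (T.h (P (nat_lit 0)) (T.h (T.h (M (nat_lit 220068457998087880703)) (T.h (P (nat_lit 0)) (P (nat_lit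 8403018471936)))) (T.h (P (nat_lit 0)) (M (nat_lit 123801535670687)))))))) (T.h (T.h (P (nat_lit 0)) (T.h (T.h (P (nat_lit 0)) (T.h (M (nat_lit 163346086602152943288319)) (T.h (P (nat_lit 0)) (M (nat_lit 255115424693092351))))) (T.h (P (nat_lit 0)) (T.h (T.h (P (nat_lit 0)) (M (nat_lit 255115424693092351))) (P (nat_lit 0)))))) (T.h (T.h (T.h (P (nat_lit 5204542924563187540951040)) (T.h (P (nat_lit 0)) (T.h (M (nat_lit 37801069697948450815)) (T.h (P (nat_lit 0)) (P (nat_lit 41722221577392)))))) (T.h (P (nat_lit 0)) (T.h (T.h (M (nat_lit 37801069697948450815)) (T.h (P (nat_lit 0)) (P (nat_lit 330438239353728)))) (T.h (P (nat_lit 0)) (P (nat_lit 41722221577392)))))) (T.h (T.h (P (nat_lit 0)) (T.h (T.h (P (nat_lit 0)) (P (nat_lit 180425386868539392))) (P (nat_lit 0)))) (T.h (T.h (T.h (M (nat_lit 5967627830152921087)) (T.h (P (nat_lit 0)) (P (nat_lit 51762713890032)))) (T.h (P (nat_lit 0)) (P (nat_lit 51762713890032)))) (T.h (P (nat_lit 0)) (M (nat_lit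 2380305145823)))))))), (T.h (T.h (T.h (P (nat_lit 0)) (T.h (P (nat_lit 4622686116289818125836222464)) (T.h (P (nat_lit 0)) (T.h (P (nat_lit 67326681209505262338048)) (T.h (P (nat_lit 0)) (P (nat_lit 73889396061962240))))))) (T.h (P (nat_lit 0)) (T.h (T.h (P (nat_lit 0)) (T.h (P (nat_lit 210632273554275901112320)) (T.h (P (nat_lit 0)) (M (nat_lit 251305719263821823))))) (T.h (P (nat_lit 0)) (T.h (T.h (P (nat_lit 0)) (P (nat_lit 170806740523974656))) (P (nat_lit 0))))))) (T.h (T.h (P (nat_lit 0)) (T.h (T.h (P (nat_lit 32368617483080180722302976)) (T.h (P (nat_lit 0)) (P (nat_lit 210714216620942688256)))) (T.h (P (nat_lit 0)) (P (nat_lit 70812932436679196672))))) (T.h (T.h (T.h (P (nat_lit 0)) (T.h (P (nat_lit 5038203398620824207360)) (T.h (P (nat_lit 0)) (M (nat_lit 12566762318135295))))) (T.h (P (nat_lit 0)) (T.h (T.h (P (nat_lit 0)) (M (nat_lit 257875223365943295))) (P (nat_lit 0))))) (T.h (T.h (P (nat_lit 0)) (M (nat_lit 30422275876538286079)))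 (T.h (T.h (T.h (P (nat_lit 0)) (P (nat_lit 30035550910087168))) (P (nat_lit 0))) (P (nat_lit 0))))))), (P (nat_lit 0))]
def lP22_5 : List (T ℤ) := [(P (nat_lit 0)), (T.h (T.h (P (nat_lit 0)) (T.h (T.h (M (nat_lit 5759271470269521065423142911)) (T.h (P (nat_lit 0)) (T.h (P (nat_lit 2712750349386849976320)) (T.h (P (nat_lit 0)) (M (nat_lit 2704680764932095)))))) (T.h (P (nat_lit 0)) (T.h (T.h (P (nat_lit 5469803030520608587776)) (T.h (P (nat_lit 0)) (M (nat_lit 12044449115373567)))) (T.h (P (nat_lit 0)) (M (nat_lit 206113574879231))))))) (T.h (T.h (T.h (P (nat_lit 0)) (T.h (P (nat_lit 4204261618133833938370560)) (T.h (P (nat_lit 0)) (T.h (P (nat_lit 1436442446299922432)) (T.h (P (nat_lit 0)) (P (nat_lit 1300883372136))))))) (T.h (P (nat_lit 0)) (T.h (T.h (P (nat_lit 0)) (T.h (M (nat_lit 22564888246348677119)) (T.h (P (nat_lit 0)) (M (nat_lit 13039914007615))))) (T.h (P (nat_lit 0)) (T.h (T.h (P (nat_lit 0)) (M (nat_lit 135946721145023))) (P (nat_lit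 0))))))) (T.h (T.h (P (nat_lit 0)) (T.h (T.h (P (nat_lit 2781654216421851267072)) (T.h (P (nat_lit 0)) (P (nat_lit 13732124649455616)))) (T.h (P (nat_lit 0)) (M (nat_lit 468974644527103))))) (T.h (T.h (T.h (P (nat_lit 0)) (T.h (M (nat_lit 279505857551532031)) (T.h (P (nat_lit 0)) (P (nat_lit 72660681504))))) (T.h (P (nat_lit 0)) (T.h (T.h (P (nat_lit 0)) (M (nat_lit 23848727315007))) (P (nat_lit 0))))) (T.h (T.h (P (nat_lit 0)) (M (nat_lit 1986962158813183))) (T.h (T.h (T.h (P (nat_lit 0)) (P (nat_lit 251898760536))) (P (nat_lit 0))) (P (nat_lit 0)))))))), (T.h (T.h (P (nat_lit 0)) (T.h (T.h (P (nat_lit 0)) (T.h (P (nat_lit 3505100089068918241492992)) (T.h (P (nat_lit 0)) (T.h (M (nat_lit 3206093737427992575)) (T.h (P (nat_lit 0)) (M (nat_lit 2171138809055))))))) (T.h (P (nat_lit 0)) (T.h (T.h (P (nat_lit 0)) (T.h (P (nat_lit 83778115168194527232)) (T.h (P (nat_lit 0)) (P (nat_lit 19834863972112))))) (T.h (P (nat_lit 0)) (T.h (T.h (P (nat_lit 0))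 (M (nat_lit 335941989346463))) (P (nat_lit 0)))))))) (T.h (T.h (T.h (P (nat_lit 2084092978544746558608375808)) (T.h (P (nat_lit 0)) (T.h (M (nat_lit 13105697841355797037055)) (T.h (P (nat_lit 0)) (M (nat_lit 21643633645551615)))))) (T.h (P (nat_lit 0)) (T.h (T.h (M (nat_lit 14112679512842935730175)) (T.h (P (nat_lit 0)) (M (nat_lit 45175380232437759)))) (T.h (P (nat_lit 0)) (M (nat_lit 145933282261073919)))))) (T.h (T.h (P (nat_lit 0)) (T.h (T.h (P (nat_lit 0)) (T.h (P (nat_lit 8688976552274165760)) (T.h (P (nat_lit 0)) (P (nat_lit 7731991111936))))) (T.h (P (nat_lit 0)) (T.h (T.h (P (nat_lit 0)) (P (nat_lit 19291176429520))) (P (nat_lit 0)))))) (T.h (T.h (T.h (M (nat_lit 2445534956294129057791)) (T.h (P (nat_lit 0)) (M (nat_lit 10769564384280575)))) (T.h (P (nat_lit 0)) (P (nat_lit 3081846973022208)))) (T.h (T.h (P (nat_lit 0)) (T.h (T.h (P (nat_lit 0)) (M (nat_lit 6391443606815))) (P (nat_lit 0)))) (P (nat_lit 2747498126852096))))))), (T.h (T.h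 (P (nat_lit 0)) (T.h (T.h (M (nat_lit 13738543897078520168434368511)) (T.h (P (nat_lit 0)) (T.h (P (nat_lit 71863826799750006439936)) (T.h (P (nat_lit 0)) (P (nat_lit 35006146232877056)))))) (T.h (P (nat_lit 0)) (T.h (T.h (P (nat_lit 89746200216324985061376)) (T.h (P (nat_lit 0)) (M (nat_lit 93737683484508159)))) (T.h (P (nat_lit 0)) (M (nat_lit 42162729439887359))))))) (T.h (T.h (T.h (P (nat_lit 0)) (T.h (P (nat_lit 1682189232321638827032576)) (T.h (P (nat_lit 0)) (T.h (P (nat_lit 29827779157339144192)) (T.h (P (nat_lit 0)) (P (nat_lit 18104669004960))))))) (T.h (P (nat_lit 0)) (T.h (T.h (P (nat_lit 0)) (T.h (P (nat_lit 58648929392887070720)) (T.h (P (nat_lit 0)) (M (nat_lit 49743205508255))))) (T.h (P (nat_lit 0)) (T.h (T.h (P (nat_lit 0)) (M (nat_lit 154815030088991))) (P (nat_lit 0))))))) (T.h (T.h (P (nat_lit 0)) (T.h (T.h (P (nat_lit 53116712304456398536704)) (T.h (P (nat_lit 0)) (M (nat_lit 45237387053236223)))) (T.h (P (nat_lit 0)) (M (nat_lit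 239507379198361599))))) (T.h (T.h (T.h (P (nat_lit 0)) (T.h (P (nat_lit 34971865101436452864)) (T.h (P (nat_lit 0)) (M (nat_lit 3182115287471))))) (T.h (P (nat_lit 0)) (T.h (T.h (P (nat_lit 0)) (P (nat_lit 6806561621472))) (P (nat_lit 0))))) (T.h (T.h (P (nat_lit 0)) (P (nat_lit 13389182920425472))) (T.h (T.h (T.h (P (nat_lit 0)) (M (nat_lit 2216404253375))) (P (nat_lit 0))) (P (nat_lit 0)))))))), (T.h (T.h (P (nat_lit 0)) (T.h (T.h (P (nat_lit 0)) (T.h (M (nat_lit 1974649089754001720737791)) (T.h (P (nat_lit 0)) (T.h (M (nat_lit 12150048673841020927)) (T.h (P (nat_lit 0)) (M (nat_lit 153484319177423))))))) (T.h (P (nat_lit 0)) (T.h (T.h (P (nat_lit 0)) (T.h (P (nat_lit 365582842032417669120)) (T.h (P (nat_lit 0)) (P (nat_lit 356919587573616))))) (T.h (P (nat_lit 0)) (T.h (T.h (P (nat_lit 0)) (P (nat_lit 418099953986208))) (P (nat_lit 0)))))))) (T.h (T.h (T.h (M (nat_lit 3335675229011176419139518463)) (T.h (P (nat_lit 0)) (T.h (M (nat_lit 7048662301444117889023))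 (T.h (P (nat_lit 0)) (M (nat_lit 55932866233335807)))))) (T.h (P (nat_lit 0)) (T.h (T.h (P (nat_lit 24602323935072788414464)) (T.h (P (nat_lit 0)) (P (nat_lit 69244562661801984)))) (T.h (P (nat_lit 0)) (P (nat_lit 227435957508997120)))))) (T.h (T.h (P (nat_lit 0)) (T.h (T.h (P (nat_lit 0)) (T.h (M (nat_lit 18276632113639849983)) (T.h (P (nat_lit 0)) (P (nat_lit 157454749658304))))) (T.h (P (nat_lit 0)) (T.h (T.h (P (nat_lit 0)) (M (nat_lit 111663856591199))) (P (nat_lit 0)))))) (T.h (T.h (T.h (M (nat_lit 2556215325078874750975)) (T.h (P (nat_lit 0)) (P (nat_lit 10764761764429824)))) (T.h (P (nat_lit 0)) (M (nat_lit 16203078846971903)))) (T.h (T.h (P (nat_lit 0)) (T.h (T.h (P (nat_lit 0)) (M (nat_lit 235517594865407))) (P (nat_lit 0)))) (P (nat_lit 3963771170832384))))))), (T.h (T.h (P (nat_lit 0)) (T.h (T.h (P (nat_lit 4622686116289818125836222464)) (T.h (P (nat_lit 0)) (T.h (P (nat_lit 210632273554275901112320)) (T.h (P (nat_lit 0)) (P (nat_lit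 170806740523974656)))))) (T.h (P (nat_lit 0)) (T.h (T.h (P (nat_lit 67326681209505262338048)) (T.h (P (nat_lit 0)) (M (nat_lit 251305719263821823)))) (T.h (P (nat_lit 0)) (P (nat_lit 73889396061962240))))))) (T.h (T.h (T.h (P (nat_lit 0)) (T.h (P (nat_lit 32368617483080180722302976)) (T.h (P (nat_lit 0)) (P (nat_lit 70812932436679196672))))) (T.h (P (nat_lit 0)) (T.h (T.h (P (nat_lit 0)) (P (nat_lit 210714216620942688256))) (P (nat_lit 0))))) (T.h (T.h (P (nat_lit 0)) (T.h (T.h (P (nat_lit 5038203398620824207360)) (T.h (P (nat_lit 0)) (M (nat_lit 257875223365943295)))) (T.h (P (nat_lit 0)) (M (nat_lit 12566762318135295))))) (T.h (T.h (T.h (P (nat_lit 0)) (M (nat_lit 30422275876538286079))) (P (nat_lit 0))) (T.h (T.h (P (nat_lit 0)) (P (nat_lit 30035550910087168))) (P (nat_lit 0))))))), (P (nat_lit 0)), (P (nat_lit 0))]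
def lP22_6 : List (T ℤ) := [(T.h (T.h (T.h (P (nat_lit 6945281478211275015688300789760)) (T.h (P (nat_lit 0)) (T.h (M (nat_lit 844005617985062042599423)) (T.h (P (nat_lit 0)) (T.h (M (nat_lit 250077559696392191)) (T.h (P (nat_lit 0)) (M (nat_lit 394146612063)))))))) (T.h (P (nat_lit 0)) (T.h (T.h (M (nat_lit 6892331385474144117194751)) (T.h (P (nat_lit 0)) (T.h (P (nat_lit 28162852510398152704)) (T.h (P (nat_lit 0)) (M (nat_lit 12025278876719)))))) (T.h (P (nat_lit 0)) (T.h (T.h (M (nat_lit 12345843102613766143)) (T.h (P (nat_lit 0)) (M (nat_lit 6531616341807)))) (T.h (P (nat_lit 0)) (P (nat_lit 10239292669440)))))))) (T.h (T.h (P (nat_lit 0)) (T.h (T.h (P (nat_lit 0)) (T.h (P (nat_lit 21790855645850796818432)) (T.h (P (nat_lit 0)) (M (nat_lit 8712303045115903))))) (T.h (P (nat_lit 0)) (T.h (T.h (P (nat_lit 0)) (P (nat_lit 114410331772616704))) (P (nat_lit 0)))))) (T.h (T.h (T.h (M (nat_lit 844005617985062042599423)) (T.h (P (nat_lit 0)) (T.h (P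 (nat_lit 1700261905928552448)) (T.h (P (nat_lit 0)) (M (nat_lit 1928525502543)))))) (T.h (P (nat_lit 0)) (T.h (T.h (P (nat_lit 28162852510398152704)) (T.h (P (nat_lit 0)) (M (nat_lit 46369747134399)))) (T.h (P (nat_lit 0)) (M (nat_lit 6531616341807)))))) (T.h (T.h (P (nat_lit 0)) (T.h (T.h (P (nat_lit 0)) (M (nat_lit 8712303045115903))) (P (nat_lit 0)))) (T.h (T.h (T.h (M (nat_lit 250077559696392191)) (T.h (P (nat_lit 0)) (M (nat_lit 1928525502543)))) (T.h (P (nat_lit 0)) (M (nat_lit 12025278876719)))) (T.h (P (nat_lit 0)) (M (nat_lit 394146612063)))))))), (T.h (T.h (T.h (P (nat_lit 0)) (T.h (M (nat_lit 2787373763577663888453271551)) (T.h (P (nat_lit 0)) (T.h (M (nat_lit 14596476764099333586943)) (T.h (P (nat_lit 0)) (P (nat_lit 12471877204180992))))))) (T.h (P (nat_lit 0)) (T.h (T.h (P (nat_lit 0)) (T.h (P (nat_lit 37652368741945447546880)) (T.h (P (nat_lit 0)) (M (nat_lit 18450982411370495))))) (T.h (P (nat_lit 0)) (T.h (T.h (P (nat_lit 0)) (P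 (nat_lit 498903295979454464))) (P (nat_lit 0))))))) (T.h (T.h (P (nat_lit 0)) (T.h (T.h (P (nat_lit 8420469345027642405945344)) (T.h (P (nat_lit 0)) (T.h (M (nat_lit 29332209703661338623)) (T.h (P (nat_lit 0)) (M (nat_lit 5796365101967)))))) (T.h (P (nat_lit 0)) (T.h (T.h (P (nat_lit 184211853846620667904)) (T.h (P (nat_lit 0)) (M (nat_lit 31467877982927)))) (T.h (P (nat_lit 0)) (M (nat_lit 98814136291871))))))) (T.h (T.h (T.h (P (nat_lit 0)) (T.h (M (nat_lit 3668610430600438874111)) (T.h (P (nat_lit 0)) (M (nat_lit 47013678771863551))))) (T.h (P (nat_lit 0)) (T.h (T.h (P (nat_lit 0)) (M (nat_lit 105182443699470335))) (P (nat_lit 0))))) (T.h (T.h (P (nat_lit 0)) (T.h (T.h (M (nat_lit 26595740297180741631)) (T.h (P (nat_lit 0)) (M (nat_lit 18427241446751)))) (T.h (P (nat_lit 0)) (P (nat_lit 13347002066688))))) (T.h (T.h (T.h (P (nat_lit 0)) (M (nat_lit 12344674416689151))) (P (nat_lit 0))) (T.h (T.h (P (nat_lit 0)) (P (nat_lit 2088080913312))) (P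 (nat_lit 0)))))))), (T.h (T.h (T.h (M (nat_lit 7347284730981760738617207029759)) (T.h (P (nat_lit 0)) (T.h (P (nat_lit 57923522351927671027400704)) (T.h (P (nat_lit 0)) (T.h (M (nat_lit 29989453987150036991)) (T.h (P (nat_lit 0)) (M (nat_lit 12383001643247)))))))) (T.h (P (nat_lit 0)) (T.h (T.h (M (nat_lit 24986163315578777425149951)) (T.h (P (nat_lit 0)) (T.h (P (nat_lit 177177424402405392384)) (T.h (P (nat_lit 0)) (M (nat_lit 29246983189487)))))) (T.h (P (nat_lit 0)) (T.h (T.h (P (nat_lit 14892719367979532288)) (T.h (P (nat_lit 0)) (P (nat_lit 135693679464000)))) (T.h (P (nat_lit 0)) (M (nat_lit 1900902457007)))))))) (T.h (T.h (P (nat_lit 0)) (T.h (T.h (P (nat_lit 0)) (T.h (P (nat_lit 70258196730489203589120)) (T.h (P (nat_lit 0)) (P (nat_lit 47568789769158656))))) (T.h (P (nat_lit 0)) (T.h (T.h (P (nat_lit 0)) (P (nat_lit 262996897238188032))) (P (nat_lit 0)))))) (T.h (T.h (T.h (M (nat_lit 4210623603377640919007231)) (T.h (P (nat_lit 0)) (T.h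 (M (nat_lit 2352003625896640511)) (T.h (P (nat_lit 0)) (P (nat_lit 3747522647088)))))) (T.h (P (nat_lit 0)) (T.h (T.h (P (nat_lit 112178435325171859456)) (T.h (P (nat_lit 0)) (M (nat_lit 154284181097903)))) (T.h (P (nat_lit 0)) (M (nat_lit 154054818207791)))))) (T.h (T.h (P (nat_lit 0)) (T.h (T.h (P (nat_lit 0)) (P (nat_lit 12885981240885248))) (P (nat_lit 0)))) (T.h (T.h (T.h (P (nat_lit 1445542280348827648)) (T.h (P (nat_lit 0)) (M (nat_lit 40758030476063)))) (T.h (P (nat_lit 0)) (M (nat_lit 40633845785423)))) (T.h (P (nat_lit 0)) (P (nat_lit 2262664312560)))))))), (T.h (T.h (T.h (P (nat_lit 0)) (T.h (M (nat_lit 19010715559394962457480921087)) (T.h (P (nat_lit 0)) (T.h (P (nat_lit 17167194726438533070848)) (T.h (P (nat_lit 0)) (P (nat_lit 51833134429732864))))))) (T.h (P (nat_lit 0)) (T.h (T.h (P (nat_lit 0)) (T.h (M (nat_lit 337256168840861870718975)) (T.h (P (nat_lit 0)) (M (nat_lit 217035851084890111))))) (T.h (P (nat_lit 0)) (T.h (T.h (P (nat_lit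 0)) (M (nat_lit 537460537767034879))) (P (nat_lit 0))))))) (T.h (T.h (P (nat_lit 0)) (T.h (T.h (M (nat_lit 11796831539250381828653055)) (T.h (P (nat_lit 0)) (P (nat_lit 27730665333827043328)))) (T.h (P (nat_lit 0)) (M (nat_lit 201848382004607844351))))) (T.h (T.h (T.h (P (nat_lit 0)) (T.h (M (nat_lit 4534848523537343315967)) (T.h (P (nat_lit 0)) (M (nat_lit 39240781425016831))))) (T.h (P (nat_lit 0)) (T.h (T.h (P (nat_lit 0)) (P (nat_lit 146445637852594176))) (P (nat_lit 0))))) (T.h (T.h (P (nat_lit 0)) (P (nat_lit 11447994264663883776))) (T.h (T.h (T.h (P (nat_lit 0)) (P (nat_lit 72142769679368192))) (P (nat_lit 0))) (P (nat_lit 0))))))), (P (nat_lit 0)), (P (nat_lit 0)), (T.h (T.h (P (nat_lit 0)) (T.h (T.h (P (nat_lit 12705971551799468700223930368)) (T.h (P (nat_lit 0)) (T.h (M (nat_lit 8848581376903131168767)) (T.h (P (nat_lit 0)) (P (nat_lit 15828416420511744)))))) (T.h (P (nat_lit 0)) (T.h (T.h (P (nat_lit 1067211340657522114560)) (T.h (P (nat_lit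 0)) (P (nat_lit 10236873174646784)))) (T.h (P (nat_lit 0)) (M (nat_lit 24957961867493375))))))) (T.h (T.h (T.h (P (nat_lit 0)) (T.h (M (nat_lit 6603952406297327842623487)) (T.h (P (nat_lit 0)) (T.h (M (nat_lit 7293634597340839935)) (T.h (P (nat_lit 0)) (M (nat_lit 776391066335))))))) (T.h (P (nat_lit 0)) (T.h (T.h (P (nat_lit 0)) (T.h (P (nat_lit 46739776176339812352)) (T.h (P (nat_lit 0)) (P (nat_lit 18444320661312))))) (T.h (P (nat_lit 0)) (T.h (T.h (P (nat_lit 0)) (P (nat_lit 135946721145024))) (P (nat_lit 0))))))) (T.h (T.h (P (nat_lit 0)) (T.h (T.h (M (nat_lit 1703111653625365004287)) (T.h (P (nat_lit 0)) (P (nat_lit 24253972323106816)))) (T.h (P (nat_lit 0)) (P (nat_lit 33631326450122752))))) (T.h (T.h (T.h (P (nat_lit 0)) (T.h (P (nat_lit 4491474292059406336)) (T.h (P (nat_lit 0)) (M (nat_lit 72660681503))))) (T.h (P (nat_lit 0)) (T.h (T.h (P (nat_lit 0)) (P (nat_lit 18444320661312))) (P (nat_lit 0))))) (T.h (T.h (P (nat_lit 0)) (P (nat_lit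 8727060432158720))) (T.h (T.h (T.h (P (nat_lit 0)) (M (nat_lit 776391066335))) (P (nat_lit 0))) (P (nat_lit 0)))))))), (T.h (T.h (P (nat_lit 0)) (T.h (T.h (P (nat_lit 0)) (T.h (P (nat_lit 16770020288298499683909632)) (T.h (P (nat_lit 0)) (T.h (M (nat_lit 24581911049941286911)) (T.h (P (nat_lit 0)) (M (nat_lit 3743196082991))))))) (T.h (P (nat_lit 0)) (T.h (T.h (P (nat_lit 0)) (T.h (M (nat_lit 54436003502392082431)) (T.h (P (nat_lit 0)) (M (nat_lit 15746492039039))))) (T.h (P (nat_lit 0)) (T.h (T.h (P (nat_lit 0)) (P (nat_lit 310329193881600))) (P (nat_lit 0)))))))) (T.h (T.h (T.h (P (nat_lit 7613911020926650974465949696)) (T.h (P (nat_lit 0)) (T.h (P (nat_lit 856239061351264157696)) (T.h (P (nat_lit 0)) (M (nat_lit 18543270365085695)))))) (T.h (P (nat_lit 0)) (T.h (T.h (M (nat_lit 37608647712375417339903)) (T.h (P (nat_lit 0)) (M (nat_lit 11201544438792191)))) (T.h (P (nat_lit 0)) (P (nat_lit 288386959946383360)))))) (T.h (T.h (P (nat_lit 0)) (T.h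 (T.h (P (nat_lit 0)) (T.h (P (nat_lit 6148453346429632512)) (T.h (P (nat_lit 0)) (M (nat_lit 43491366017423))))) (T.h (P (nat_lit 0)) (T.h (T.h (P (nat_lit 0)) (M (nat_lit 157763501468927))) (P (nat_lit 0)))))) (T.h (T.h (T.h (P (nat_lit 3737831950392995348480)) (T.h (P (nat_lit 0)) (P (nat_lit 18868985238323200)))) (T.h (P (nat_lit 0)) (M (nat_lit 15025593104400383)))) (T.h (T.h (P (nat_lit 0)) (T.h (T.h (P (nat_lit 0)) (P (nat_lit 17575024374576))) (P (nat_lit 0)))) (M (nat_lit 2662119321436159)))))))]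
def lP22_7 : List (T ℤ) := [(T.h (T.h (P (nat_lit 0)) (T.h (T.h (P (nat_lit 5938840239767262457329876992)) (T.h (P (nat_lit 0)) (T.h (M (nat_lit 83505656668972851920895)) (T.h (P (nat_lit 0)) (P (nat_lit 17569552337108992)))))) (T.h (P (nat_lit 0)) (T.h (T.h (M (nat_lit 15260972577348049174527)) (T.h (P (nat_lit 0)) (M (nat_lit 112761797231247359)))) (T.h (P (nat_lit 0)) (M (nat_lit 68021766630866943))))))) (T.h (T.h (T.h (P (nat_lit 0)) (T.h (M (nat_lit 8121832179209592299847679)) (T.h (P (nat_lit 0)) (P (nat_lit 18589109809936596992))))) (T.h (P (nat_lit 0)) (T.h (T.h (P (nat_lit 0)) (M (nat_lit 9408689513531703295))) (P (nat_lit 0))))) (T.h (T.h (P (nat_lit 0)) (T.h (T.h (M (nat_lit 32448110580492473991167)) (T.h (P (nat_lit 0)) (P (nat_lit 99906550954229760)))) (T.h (P (nat_lit 0)) (P (nat_lit 176124080196288512))))) (T.h (T.h (T.h (P (nat_lit 0)) (M (nat_lit 6818117037345210367))) (P (nat_lit 0))) (T.h (T.h (P (nat_lit 0)) (P (nat_lit 14493620268662784)))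 (P (nat_lit 0))))))), (P (nat_lit 0)), (P (nat_lit 0)), (T.h (T.h (T.h (M (nat_lit 1526812637208704738452194721791)) (T.h (P (nat_lit 0)) (T.h (M (nat_lit 1566168659524124063825919)) (T.h (P (nat_lit 0)) (T.h (M (nat_lit 1257490112028082175)) (T.h (P (nat_lit 0)) (P (nat_lit 485082553536)))))))) (T.h (P (nat_lit 0)) (T.h (T.h (P (nat_lit 20864823599583554539880448)) (T.h (P (nat_lit 0)) (T.h (M (nat_lit 11962976014688059391)) (T.h (P (nat_lit 0)) (P (nat_lit 21823059736368)))))) (T.h (P (nat_lit 0)) (T.h (T.h (P (nat_lit 6830011316166459392)) (T.h (P (nat_lit 0)) (P (nat_lit 17223692796864)))) (T.h (P (nat_lit 0)) (M (nat_lit 18430719318143)))))))) (T.h (T.h (P (nat_lit 0)) (T.h (T.h (P (nat_lit 0)) (T.h (M (nat_lit 25949813201762300985343)) (T.h (P (nat_lit 0)) (M (nat_lit 16206316422561791))))) (T.h (P (nat_lit 0)) (T.h (T.h (P (nat_lit 0)) (M (nat_lit 150200156445474815))) (P (nat_lit 0)))))) (T.h (T.h (T.h (M (nat_lit 1566168659524124063825919))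 (T.h (P (nat_lit 0)) (T.h (P (nat_lit 5272713814171713536)) (T.h (P (nat_lit 0)) (P (nat_lit 6479329439808)))))) (T.h (P (nat_lit 0)) (T.h (T.h (M (nat_lit 11962976014688059391)) (T.h (P (nat_lit 0)) (P (nat_lit 83465545105728)))) (T.h (P (nat_lit 0)) (P (nat_lit 17223692796864)))))) (T.h (T.h (P (nat_lit 0)) (T.h (T.h (P (nat_lit 0)) (M (nat_lit 16206316422561791))) (P (nat_lit 0)))) (T.h (T.h (T.h (M (nat_lit 1257490112028082175)) (T.h (P (nat_lit 0)) (P (nat_lit 6479329439808)))) (T.h (P (nat_lit 0)) (P (nat_lit 21823059736368)))) (T.h (P (nat_lit 0)) (P (nat_lit 485082553536)))))))), (T.h (T.h (T.h (P (nat_lit 0)) (T.h (M (nat_lit 1069719061105742419312246783)) (T.h (P (nat_lit 0)) (T.h (P (nat_lit 4810639926731932172288)) (T.h (P (nat_lit 0)) (P (nat_lit 189485684457472))))))) (T.h (P (nat_lit 0)) (T.h (T.h (P (nat_lit 0)) (T.h (M (nat_lit 9039233065320873721855)) (T.h (P (nat_lit 0)) (M (nat_lit 9114228696940543))))) (T.h (P (nat_lit 0)) (T.h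 (T.h (P (nat_lit 0)) (M (nat_lit 360924354560393215))) (P (nat_lit 0))))))) (T.h (T.h (P (nat_lit 0)) (T.h (T.h (M (nat_lit 1761177201905144919228415)) (T.h (P (nat_lit 0)) (P (nat_lit 13635200529196908544)))) (T.h (P (nat_lit 0)) (M (nat_lit 159289274093619118079))))) (T.h (T.h (T.h (P (nat_lit 0)) (T.h (P (nat_lit 167114983961662586880)) (T.h (P (nat_lit 0)) (P (nat_lit 3999072314753024))))) (T.h (P (nat_lit 0)) (T.h (T.h (P (nat_lit 0)) (P (nat_lit 69713786696892416))) (P (nat_lit 0))))) (T.h (T.h (P (nat_lit 0)) (M (nat_lit 1424453042811437055))) (T.h (T.h (T.h (P (nat_lit 0)) (M (nat_lit 6948109256065023))) (P (nat_lit 0))) (P (nat_lit 0))))))), (P (nat_lit 0)), (P (nat_lit 0)), (T.h (T.h (P (nat_lit 0)) (T.h (T.h (M (nat_lit 6946700081529947634800787455)) (T.h (P (nat_lit 0)) (T.h (P (nat_lit 2528644232359897464832)) (T.h (P (nat_lit 0)) (M (nat_lit 9931916964462591)))))) (T.h (P (nat_lit 0)) (T.h (T.h (M (nat_lit 6537014371178130702335)) (T.h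 (P (nat_lit 0)) (M (nat_lit 15677387932434431)))) (T.h (P (nat_lit 0)) (P (nat_lit 25164075442372608))))))) (T.h (T.h (T.h (P (nat_lit 0)) (T.h (P (nat_lit 2399690788163493904252928)) (T.h (P (nat_lit 0)) (P (nat_lit 822611858266521600))))) (T.h (P (nat_lit 0)) (T.h (T.h (P (nat_lit 0)) (M (nat_lit 24174887929991135231))) (P (nat_lit 0))))) (T.h (T.h (P (nat_lit 0)) (T.h (T.h (P (nat_lit 2528644232359897464832)) (T.h (P (nat_lit 0)) (M (nat_lit 37986096972562431)))) (T.h (P (nat_lit 0)) (M (nat_lit 15677387932434431))))) (T.h (T.h (T.h (P (nat_lit 0)) (P (nat_lit 822611858266521600))) (P (nat_lit 0))) (T.h (T.h (P (nat_lit 0)) (M (nat_lit 9931916964462591))) (P (nat_lit 0)))))))]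
def lP22_8 : List (T ℤ) := [(P (nat_lit 0)), (P (nat_lit 0)), (P (nat_lit 0)), (P (nat_lit 0)), (P (nat_lit 0)), (T.h (T.h (P (nat_lit 0)) (T.h (T.h (P (nat_lit 0)) (T.h (M (nat_lit 96432428552945085186047)) (T.h (P (nat_lit 0)) (T.h (M (nat_lit 88373213733551341567)) (T.h (P (nat_lit 0)) (P (nat_lit 234639226797744))))))) (T.h (P (nat_lit 0)) (T.h (T.h (P (nat_lit 0)) (T.h (P (nat_lit 11420674673478729728)) (T.h (P (nat_lit 0)) (M (nat_lit 18135366468679))))) (T.h (P (nat_lit 0)) (T.h (T.h (P (nat_lit 0)) (M (nat_lit 4202247363807))) (P (nat_lit 0)))))))) (T.h (T.h (T.h (P (nat_lit 522746914167041583189327872)) (T.h (P (nat_lit 0)) (T.h (M (nat_lit 8702805273159426637823)) (T.h (P (nat_lit 0)) (M (nat_lit 29197831500988415)))))) (T.h (P (nat_lit 0)) (T.h (T.h (P (nat_lit 3850669693482588700672)) (T.h (P (nat_lit 0)) (M (nat_lit 16434744863326207)))) (T.h (P (nat_lit 0)) (P (nat_lit 10120581031886848)))))) (T.h (T.h (P (nat_lit 0)) (T.h (T.h (P (nat_lit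 0)) (T.h (P (nat_lit 11867314922343890944)) (T.h (P (nat_lit 0)) (M (nat_lit 43141223945559))))) (T.h (P (nat_lit 0)) (T.h (T.h (P (nat_lit 0)) (P (nat_lit 41506757289896))) (P (nat_lit 0)))))) (T.h (T.h (T.h (P (nat_lit 15476794070994316689408)) (T.h (P (nat_lit 0)) (P (nat_lit 24712650814357504)))) (T.h (P (nat_lit 0)) (M (nat_lit 2462725884444671)))) (T.h (T.h (P (nat_lit 0)) (T.h (T.h (P (nat_lit 0)) (P (nat_lit 31941939063544))) (P (nat_lit 0)))) (M (nat_lit 8973031546978303))))))), (T.h (T.h (P (nat_lit 0)) (T.h (T.h (P (nat_lit 2084092978544746558608375808)) (T.h (P (nat_lit 0)) (T.h (M (nat_lit 14112679512842935730175)) (T.h (P (nat_lit 0)) (M (nat_lit 145933282261073919)))))) (T.h (P (nat_lit 0)) (T.h (T.h (M (nat_lit 2445534956294129057791)) (T.h (P (nat_lit 0)) (P (nat_lit 3081846973022208)))) (T.h (P (nat_lit 0)) (P (nat_lit 2747498126852096))))))) (T.h (T.h (T.h (P (nat_lit 0)) (T.h (P (nat_lit 3505100089068918241492992)) (T.h (P (nat_lit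 0)) (T.h (P (nat_lit 83778115168194527232)) (T.h (P (nat_lit 0)) (M (nat_lit 335941989346463))))))) (T.h (P (nat_lit 0)) (T.h (T.h (P (nat_lit 0)) (T.h (P (nat_lit 8688976552274165760)) (T.h (P (nat_lit 0)) (P (nat_lit 19291176429520))))) (T.h (P (nat_lit 0)) (T.h (T.h (P (nat_lit 0)) (M (nat_lit 6391443606815))) (P (nat_lit 0))))))) (T.h (T.h (P (nat_lit 0)) (T.h (T.h (M (nat_lit 13105697841355797037055)) (T.h (P (nat_lit 0)) (M (nat_lit 45175380232437759)))) (T.h (P (nat_lit 0)) (M (nat_lit 10769564384280575))))) (T.h (T.h (T.h (P (nat_lit 0)) (T.h (M (nat_lit 3206093737427992575)) (T.h (P (nat_lit 0)) (P (nat_lit 19834863972112))))) (T.h (P (nat_lit 0)) (T.h (T.h (P (nat_lit 0)) (P (nat_lit 7731991111936))) (P (nat_lit 0))))) (T.h (T.h (P (nat_lit 0)) (M (nat_lit 21643633645551615))) (T.h (T.h (T.h (P (nat_lit 0)) (M (nat_lit 2171138809055))) (P (nat_lit 0))) (P (nat_lit 0)))))))), (T.h (T.h (P (nat_lit 0)) (T.h (T.h (P (nat_lit 0)) (T.h (P (nat_lit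 2383553571043493235654656)) (T.h (P (nat_lit 0)) (T.h (P (nat_lit 210634333785335791616)) (T.h (P (nat_lit 0)) (M (nat_lit 98814136291871))))))) (T.h (P (nat_lit 0)) (T.h (T.h (P (nat_lit 0)) (T.h (P (nat_lit 14669747237702074368)) (T.h (P (nat_lit 0)) (P (nat_lit 13347002066688))))) (T.h (P (nat_lit 0)) (T.h (T.h (P (nat_lit 0)) (P (nat_lit 2088080913312))) (P (nat_lit 0)))))))) (T.h (T.h (T.h (P (nat_lit 2154891042732379661706199040)) (T.h (P (nat_lit 0)) (T.h (M (nat_lit 34767034279980458573823)) (T.h (P (nat_lit 0)) (P (nat_lit 321250912583647232)))))) (T.h (P (nat_lit 0)) (T.h (T.h (P (nat_lit 4474762371420710240256)) (T.h (P (nat_lit 0)) (M (nat_lit 30376024633999359)))) (T.h (P (nat_lit 0)) (P (nat_lit 13999807017811968)))))) (T.h (T.h (P (nat_lit 0)) (T.h (T.h (P (nat_lit 0)) (T.h (M (nat_lit 11842962872105697279)) (T.h (P (nat_lit 0)) (M (nat_lit 31467877982927))))) (T.h (P (nat_lit 0)) (T.h (T.h (P (nat_lit 0)) (M (nat_lit 18427241446751)))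 (P (nat_lit 0)))))) (T.h (T.h (T.h (M (nat_lit 19457227158117284839423)) (T.h (P (nat_lit 0)) (P (nat_lit 42731317351088128)))) (T.h (P (nat_lit 0)) (P (nat_lit 38720267754078208)))) (T.h (T.h (P (nat_lit 0)) (T.h (T.h (P (nat_lit 0)) (M (nat_lit 5796365101967))) (P (nat_lit 0)))) (P (nat_lit 8820553485451264)))))))]
def lP22_9 : List (T ℤ) := [(T.h (T.h (P (nat_lit 0)) (T.h (T.h (P (nat_lit 7613911020926650974465949696)) (T.h (P (nat_lit 0)) (T.h (M (nat_lit 37608647712375417339903)) (T.h (P (nat_lit 0)) (P (nat_lit 288386959946383360)))))) (T.h (P (nat_lit 0)) (T.h (T.h (P (nat_lit 3737831950392995348480)) (T.h (P (nat_lit 0)) (M (nat_lit 15025593104400383)))) (T.h (P (nat_lit 0)) (M (nat_lit 2662119321436159))))))) (T.h (T.h (T.h (P (nat_lit 0)) (T.h (P (nat_lit 16770020288298499683909632)) (T.h (P (nat_lit 0)) (T.h (M (nat_lit 54436003502392082431)) (T.h (P (nat_lit 0)) (P (nat_lit 310329193881600))))))) (T.h (P (nat_lit 0)) (T.h (T.h (P (nat_lit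 0)) (T.h (P (nat_lit 6148453346429632512)) (T.h (P (nat_lit 0)) (M (nat_lit 157763501468927))))) (T.h (P (nat_lit 0)) (T.h (T.h (P (nat_lit 0)) (P (nat_lit 17575024374576))) (P (nat_lit 0))))))) (T.h (T.h (P (nat_lit 0)) (T.h (T.h (P (nat_lit 856239061351264157696)) (T.h (P (nat_lit 0)) (M (nat_lit 11201544438792191)))) (T.h (P (nat_lit 0)) (P (nat_lit 18868985238323200))))) (T.h (T.h (T.h (P (nat_lit 0)) (T.h (M (nat_lit 24581911049941286911)) (T.h (P (nat_lit 0)) (M (nat_lit 15746492039039))))) (T.h (P (nat_lit 0)) (T.h (T.h (P (nat_lit 0)) (M (nat_lit 43491366017423))) (P (nat_lit 0))))) (T.h (T.h (P (nat_lit 0)) (M (nat_lit 18543270365085695))) (T.h (T.h (T.h (P (nat_lit 0)) (M (nat_lit 3743196082991))) (P (nat_lit 0))) (P (nat_lit 0)))))))), (T.h (T.h (P (nat_lit 0)) (T.h (T.h (P (nat_lit 0)) (T.h (M (nat_lit 1761177201905144919228415)) (T.h (P (nat_lit 0)) (M (nat_lit 159289274093619118079))))) (T.h (P (nat_lit 0)) (T.h (T.h (P (nat_lit 0))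 (M (nat_lit 1424453042811437055))) (P (nat_lit 0)))))) (T.h (T.h (T.h (M (nat_lit 1069719061105742419312246783)) (T.h (P (nat_lit 0)) (T.h (M (nat_lit 9039233065320873721855)) (T.h (P (nat_lit 0)) (M (nat_lit 360924354560393215)))))) (T.h (P (nat_lit 0)) (T.h (T.h (P (nat_lit 167114983961662586880)) (T.h (P (nat_lit 0)) (P (nat_lit 69713786696892416)))) (T.h (P (nat_lit 0)) (M (nat_lit 6948109256065023)))))) (T.h (T.h (P (nat_lit 0)) (T.h (T.h (P (nat_lit 0)) (P (nat_lit 13635200529196908544))) (P (nat_lit 0)))) (T.h (T.h (T.h (P (nat_lit 4810639926731932172288)) (T.h (P (nat_lit 0)) (M (nat_lit 9114228696940543)))) (T.h (P (nat_lit 0)) (P (nat_lit 3999072314753024)))) (T.h (P (nat_lit 0)) (P (nat_lit 189485684457472))))))), (P (nat_lit 0)), (P (nat_lit 0)), (T.h (T.h (T.h (P (nat_lit 4345229455277619414954397401088)) (T.h (P (nat_lit 0)) (T.h (P (nat_lit 48017170341066311653654528)) (T.h (P (nat_lit 0)) (T.h (M (nat_lit 30611565311590137855)) (T.h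 (P (nat_lit 0)) (M (nat_lit 9307161110703)))))))) (T.h (P (nat_lit 0)) (T.h (T.h (M (nat_lit 17410927576039392920207359)) (T.h (P (nat_lit 0)) (T.h (M (nat_lit 96945337112146739199)) (T.h (P (nat_lit 0)) (M (nat_lit 68198036147983)))))) (T.h (P (nat_lit 0)) (T.h (T.h (P (nat_lit 27007099472634183680)) (T.h (P (nat_lit 0)) (P (nat_lit 129946810063712)))) (T.h (P (nat_lit 0)) (P (nat_lit 2216894909152)))))))) (T.h (T.h (P (nat_lit 0)) (T.h (T.h (P (nat_lit 0)) (T.h (M (nat_lit 104733288933201473961983)) (T.h (P (nat_lit 0)) (M (nat_lit 722480102479364095))))) (T.h (P (nat_lit 0)) (T.h (T.h (P (nat_lit 0)) (P (nat_lit 70819775688146944))) (P (nat_lit 0)))))) (T.h (T.h (T.h (M (nat_lit 6944273271222253220003839)) (T.h (P (nat_lit 0)) (T.h (M (nat_lit 127485411942549422079)) (T.h (P (nat_lit 0)) (M (nat_lit 58208410205215)))))) (T.h (P (nat_lit 0)) (T.h (T.h (P (nat_lit 24896289713661411328)) (T.h (P (nat_lit 0)) (P (nat_lit 53817447588928)))) (T.h (P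 (nat_lit 0)) (P (nat_lit 86229969563360)))))) (T.h (T.h (P (nat_lit 0)) (T.h (T.h (P (nat_lit 0)) (M (nat_lit 89812631248699391))) (P (nat_lit 0)))) (T.h (T.h (T.h (P (nat_lit 5593462061897089024)) (T.h (P (nat_lit 0)) (P (nat_lit 70963940777632)))) (T.h (P (nat_lit 0)) (P (nat_lit 9436951179808)))) (T.h (P (nat_lit 0)) (P (nat_lit 1226188406752)))))))), (T.h (T.h (T.h (P (nat_lit 0)) (T.h (M (nat_lit 13210451688327983842182823935)) (T.h (P (nat_lit 0)) (T.h (P (nat_lit 53049158737755864301568)) (T.h (P (nat_lit 0)) (M (nat_lit 33213642493526015))))))) (T.h (P (nat_lit 0)) (T.h (T.h (P (nat_lit 0)) (T.h (P (nat_lit 71268525060009716875264)) (T.h (P (nat_lit 0)) (P (nat_lit 142194421957574656))))) (T.h (P (nat_lit 0)) (T.h (T.h (P (nat_lit 0)) (M (nat_lit 77890511696707583))) (P (nat_lit 0))))))) (T.h (T.h (P (nat_lit 0)) (T.h (T.h (M (nat_lit 812139356238288361881599)) (T.h (P (nat_lit 0)) (T.h (P (nat_lit 686793345222343393280)) (T.h (P (nat_lit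 0)) (M (nat_lit 33739957894015)))))) (T.h (P (nat_lit 0)) (T.h (T.h (P (nat_lit 14353739500201443328)) (T.h (P (nat_lit 0)) (M (nat_lit 5250374281359)))) (T.h (P (nat_lit 0)) (M (nat_lit 12009131250063))))))) (T.h (T.h (T.h (P (nat_lit 0)) (T.h (P (nat_lit 71268525060009716875264)) (T.h (P (nat_lit 0)) (P (nat_lit 142194421957574656))))) (T.h (P (nat_lit 0)) (T.h (T.h (P (nat_lit 0)) (M (nat_lit 82599042909241343))) (P (nat_lit 0))))) (T.h (T.h (P (nat_lit 0)) (T.h (T.h (P (nat_lit 14353739500201443328)) (T.h (P (nat_lit 0)) (M (nat_lit 5250374281359)))) (T.h (P (nat_lit 0)) (P (nat_lit 15419168176256))))) (T.h (T.h (T.h (P (nat_lit 0)) (M (nat_lit 77890511696707583))) (P (nat_lit 0))) (T.h (T.h (P (nat_lit 0)) (M (nat_lit 12009131250063))) (P (nat_lit 0)))))))), (T.h (T.h (T.h (M (nat_lit 1964079821679632770399920455679)) (T.h (P (nat_lit 0)) (T.h (M (nat_lit 9123437953756958918967295)) (T.h (P (nat_lit 0)) (T.h (P (nat_lit 253900677321045573632))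 (T.h (P (nat_lit 0)) (P (nat_lit 5727466517568)))))))) (T.h (P (nat_lit 0)) (T.h (T.h (P (nat_lit 23608996639526259129319424)) (T.h (P (nat_lit 0)) (T.h (P (nat_lit 143905283881725591552)) (T.h (P (nat_lit 0)) (P (nat_lit 86654082495648)))))) (T.h (P (nat_lit 0)) (T.h (T.h (M (nat_lit 32055392101604524031)) (T.h (P (nat_lit 0)) (M (nat_lit 106775006108063)))) (T.h (P (nat_lit 0)) (M (nat_lit 1272585424271)))))))) (T.h (T.h (P (nat_lit 0)) (T.h (T.h (P (nat_lit 0)) (T.h (M (nat_lit 21975044058024553480191)) (T.h (P (nat_lit 0)) (P (nat_lit 982799063274225664))))) (T.h (P (nat_lit 0)) (T.h (T.h (P (nat_lit 0)) (M (nat_lit 100790867312836607))) (P (nat_lit 0)))))) (T.h (T.h (T.h (M (nat_lit 4399674366462710643687423)) (T.h (P (nat_lit 0)) (T.h (P (nat_lit 242922535185952014336)) (T.h (P (nat_lit 0)) (P (nat_lit 86654082495648)))))) (T.h (P (nat_lit 0)) (T.h (T.h (P (nat_lit 15223931451574583296)) (T.h (P (nat_lit 0)) (M (nat_lit 51987151445087)))) (T.h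 (P (nat_lit 0)) (M (nat_lit 54304868692991)))))) (T.h (T.h (P (nat_lit 0)) (T.h (T.h (P (nat_lit 0)) (P (nat_lit 219158715339046912))) (P (nat_lit 0)))) (T.h (T.h (T.h (M (nat_lit 9235792456685977599)) (T.h (P (nat_lit 0)) (M (nat_lit 106775006108063)))) (T.h (P (nat_lit 0)) (M (nat_lit 54304868692991)))) (T.h (P (nat_lit 0)) (M (nat_lit 1272585424271)))))))), (T.h (T.h (T.h (P (nat_lit 0)) (T.h (P (nat_lit 36998131545928357616738631680)) (T.h (P (nat_lit 0)) (T.h (M (nat_lit 3100395856076149358591)) (T.h (P (nat_lit 0)) (P (nat_lit 166287845529026560))))))) (T.h (P (nat_lit 0)) (T.h (T.h (P (nat_lit 0)) (T.h (M (nat_lit 90589036788935810875391)) (T.h (P (nat_lit 0)) (P (nat_lit 15382350327431168))))) (T.h (P (nat_lit 0)) (T.h (T.h (P (nat_lit 0)) (P (nat_lit 79739785560276992))) (P (nat_lit 0))))))) (T.h (T.h (P (nat_lit 0)) (T.h (T.h (M (nat_lit 53272160417920283098218495)) (T.h (P (nat_lit 0)) (T.h (M (nat_lit 1051264078816068239359)) (T.h (P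 (nat_lit 0)) (P (nat_lit 354926245962528)))))) (T.h (P (nat_lit 0)) (T.h (T.h (M (nat_lit 18135119514684096511)) (T.h (P (nat_lit 0)) (P (nat_lit 71961381107280)))) (T.h (P (nat_lit 0)) (P (nat_lit 25603466475168))))))) (T.h (T.h (T.h (P (nat_lit 0)) (T.h (M (nat_lit 90589036788935810875391)) (T.h (P (nat_lit 0)) (P (nat_lit 15382350327431168))))) (T.h (P (nat_lit 0)) (T.h (T.h (P (nat_lit 0)) (P (nat_lit 200668995862790144))) (P (nat_lit 0))))) (T.h (T.h (P (nat_lit 0)) (T.h (T.h (M (nat_lit 18135119514684096511)) (T.h (P (nat_lit 0)) (P (nat_lit 71961381107280)))) (T.h (P (nat_lit 0)) (M (nat_lit 85814251092287))))) (T.h (T.h (T.h (P (nat_lit 0)) (P (nat_lit 79739785560276992))) (P (nat_lit 0))) (T.h (T.h (P (nat_lit 0)) (P (nat_lit 25603466475168))) (P (nat_lit 0))))))))]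
def lP22_10 : List (T ℤ) := [(T.h (T.h (T.h (M (nat_lit 3388291302366962560366419116031)) (T.h (P (nat_lit 0)) (T.h (M (nat_lit 52973080057366503088979967)) (T.h (P (nat_lit 0)) (M (nat_lit 201408859984088793087)))))) (T.h (P (nat_lit 0)) (T.h (T.h (P (nat_lit 4983474547258667095293952)) (T.h (P (nat_lit 0)) (M (nat_lit 91053075213775273983)))) (T.h (P (nat_lit 0)) (P (nat_lit 5571827366197460992)))))) (T.h (T.h (P (nat_lit 0)) (T.h (T.h (P (nat_lit 0)) (T.h (P (nat_lit 130518322924367101558784)) (T.h (P (nat_lit 0)) (M (nat_lit 179461911432396799))))) (T.h (P (nat_lit 0)) (T.h (T.h (P (nat_lit 0)) (M (nat_lit 28954197942730751))) (P (nat_lit 0)))))) (T.h (T.h (T.h (P (nat_lit 4983474547258667095293952)) (T.h (P (nat_lit 0)) (M (nat_lit 91053075213775273983)))) (T.h (P (nat_lit 0)) (M (nat_lit 46072855600505552895)))) (T.h (T.h (P (nat_lit 0)) (T.h (T.h (P (nat_lit 0)) (M (nat_lit 28954197942730751))) (P (nat_lit 0)))) (P (nat_lit 5571827366197460992)))))),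 (P (nat_lit 0)), (P (nat_lit 0)), (T.h (T.h (P (nat_lit 0)) (T.h (T.h (P (nat_lit 0)) (T.h (P (nat_lit 17751721323428791827038208)) (T.h (P (nat_lit 0)) (T.h (M (nat_lit 21355229172702642175)) (T.h (P (nat_lit 0)) (M (nat_lit 72499158235039))))))) (T.h (P (nat_lit 0)) (T.h (T.h (P (nat_lit 0)) (T.h (M (nat_lit 31742617130891214847)) (T.h (P (nat_lit 0)) (M (nat_lit 351489962257887))))) (T.h (P (nat_lit 0)) (T.h (T.h (P (nat_lit 0)) (M (nat_lit 65012436277567))) (P (nat_lit 0)))))))) (T.h (T.h (T.h (P (nat_lit 14383368854768177539719364608)) (T.h (P (nat_lit 0)) (T.h (M (nat_lit 23523837453691510587391)) (T.h (P (nat_lit 0)) (P (nat_lit 160969301410611200)))))) (T.h (P (nat_lit 0)) (T.h (T.h (M (nat_lit 32986617876956395339775)) (T.h (P (nat_lit 0)) (M (nat_lit 361315451952037887)))) (T.h (P (nat_lit 0)) (M (nat_lit 32984115393232895)))))) (T.h (T.h (P (nat_lit 0)) (T.h (T.h (P (nat_lit 0)) (T.h (M (nat_lit 12180618487835656191)) (T.h (P (nat_lit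 0)) (P (nat_lit 661357504973176))))) (T.h (P (nat_lit 0)) (T.h (T.h (P (nat_lit 0)) (P (nat_lit 256856339610056))) (P (nat_lit 0)))))) (T.h (T.h (T.h (M (nat_lit 2204895729563765571583)) (T.h (P (nat_lit 0)) (P (nat_lit 144540574879023104)))) (T.h (P (nat_lit 0)) (P (nat_lit 62660711568801792)))) (T.h (T.h (P (nat_lit 0)) (T.h (T.h (P (nat_lit 0)) (P (nat_lit 133115458075168))) (P (nat_lit 0)))) (P (nat_lit 3366261452439552))))))), (T.h (T.h (P (nat_lit 0)) (T.h (T.h (P (nat_lit 11401952711144634565808619520)) (T.h (P (nat_lit 0)) (T.h (P (nat_lit 89621593371965055303680)) (T.h (P (nat_lit 0)) (P (nat_lit 92959733253701632)))))) (T.h (P (nat_lit 0)) (T.h (T.h (M (nat_lit 349580771751851196415)) (T.h (P (nat_lit 0)) (P (nat_lit 387135896393826304)))) (T.h (P (nat_lit 0)) (M (nat_lit 25174507732271103))))))) (T.h (T.h (T.h (P (nat_lit 0)) (T.h (P (nat_lit 3580340693341382729793536)) (T.h (P (nat_lit 0)) (T.h (M (nat_lit 276770331442141986815)) (T.h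 (P (nat_lit 0)) (M (nat_lit 12012813532351))))))) (T.h (P (nat_lit 0)) (T.h (T.h (P (nat_lit 0)) (T.h (M (nat_lit 52911668563758022655)) (T.h (P (nat_lit 0)) (P (nat_lit 254418358177664))))) (T.h (P (nat_lit 0)) (T.h (T.h (P (nat_lit 0)) (P (nat_lit 54023327974512))) (P (nat_lit 0))))))) (T.h (T.h (P (nat_lit 0)) (T.h (T.h (P (nat_lit 9211029130427594964992)) (T.h (P (nat_lit 0)) (M (nat_lit 948573949698473983)))) (T.h (P (nat_lit 0)) (P (nat_lit 82684409123340288))))) (T.h (T.h (T.h (P (nat_lit 0)) (T.h (M (nat_lit 135983825542308691967)) (T.h (P (nat_lit 0)) (M (nat_lit 7866646795423))))) (T.h (P (nat_lit 0)) (T.h (T.h (P (nat_lit 0)) (P (nat_lit 90268290434928))) (P (nat_lit 0))))) (T.h (T.h (P (nat_lit 0)) (P (nat_lit 157045282990014464))) (T.h (T.h (T.h (P (nat_lit 0)) (M (nat_lit 4685423447423))) (P (nat_lit 0))) (P (nat_lit 0)))))))), (T.h (T.h (P (nat_lit 0)) (T.h (T.h (P (nat_lit 0)) (T.h (M (nat_lit 8036348300840160110575615)) (T.h (P (nat_lit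 0)) (T.h (P (nat_lit 1404933726449294114816)) (T.h (P (nat_lit 0)) (M (nat_lit 89014422257279))))))) (T.h (P (nat_lit 0)) (T.h (T.h (P (nat_lit 0)) (T.h (M (nat_lit 241182344953884311551)) (T.h (P (nat_lit 0)) (P (nat_lit 222868762305024))))) (T.h (P (nat_lit 0)) (T.h (T.h (P (nat_lit 0)) (P (nat_lit 31462978248624))) (P (nat_lit 0)))))))) (T.h (T.h (T.h (M (nat_lit 5650060058408433800143962111)) (T.h (P (nat_lit 0)) (T.h (M (nat_lit 5989468968187611578367)) (T.h (P (nat_lit 0)) (P (nat_lit 230956717399277568)))))) (T.h (P (nat_lit 0)) (T.h (T.h (P (nat_lit 47839518422904462114816)) (T.h (P (nat_lit 0)) (P (nat_lit 1081420783830597632)))) (T.h (P (nat_lit 0)) (P (nat_lit 169044708653203456)))))) (T.h (T.h (P (nat_lit 0)) (T.h (T.h (P (nat_lit 0)) (T.h (P (nat_lit 72208137597776560128)) (T.h (P (nat_lit 0)) (M (nat_lit 326692463252447))))) (T.h (P (nat_lit 0)) (T.h (T.h (P (nat_lit 0)) (P (nat_lit 151194672219024))) (P (nat_lit 0)))))) (T.h (T.h (T.h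 (P (nat_lit 4735867718199618306048)) (T.h (P (nat_lit 0)) (M (nat_lit 351021351897399295)))) (T.h (P (nat_lit 0)) (M (nat_lit 58709267346751487)))) (T.h (T.h (P (nat_lit 0)) (T.h (T.h (P (nat_lit 0)) (M (nat_lit 168082866176879))) (P (nat_lit 0)))) (M (nat_lit 28820754797953023))))))), (T.h (T.h (P (nat_lit 0)) (T.h (T.h (M (nat_lit 10238001575438095358980259839)) (T.h (P (nat_lit 0)) (T.h (M (nat_lit 148288026953148786540543)) (T.h (P (nat_lit 0)) (P (nat_lit 391068373448163328)))))) (T.h (P (nat_lit 0)) (T.h (T.h (P (nat_lit 4498526712991768903680)) (T.h (P (nat_lit 0)) (M (nat_lit 902612114225659903)))) (T.h (P (nat_lit 0)) (M (nat_lit 5867200945930239))))))) (T.h (T.h (T.h (P (nat_lit 0)) (T.h (M (nat_lit 65918469378897187897868287)) (T.h (P (nat_lit 0)) (T.h (M (nat_lit 204190865734695387135)) (T.h (P (nat_lit 0)) (P (nat_lit 88368910367184))))))) (T.h (P (nat_lit 0)) (T.h (T.h (P (nat_lit 0)) (T.h (M (nat_lit 115437795602681823231)) (T.h (P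 (nat_lit 0)) (P (nat_lit 480696106885200))))) (T.h (P (nat_lit 0)) (T.h (T.h (P (nat_lit 0)) (M (nat_lit 212902374284207))) (P (nat_lit 0))))))) (T.h (T.h (P (nat_lit 0)) (T.h (T.h (M (nat_lit 32773840107748108271615)) (T.h (P (nat_lit 0)) (P (nat_lit 519943386516488192)))) (T.h (P (nat_lit 0)) (M (nat_lit 13902498383790079))))) (T.h (T.h (T.h (P (nat_lit 0)) (T.h (P (nat_lit 258219709894464897024)) (T.h (P (nat_lit 0)) (M (nat_lit 40308873541055))))) (T.h (P (nat_lit 0)) (T.h (T.h (P (nat_lit 0)) (P (nat_lit 135400654107216))) (P (nat_lit 0))))) (T.h (T.h (P (nat_lit 0)) (P (nat_lit 105856962375598080))) (T.h (T.h (T.h (P (nat_lit 0)) (P (nat_lit 6090557697360))) (P (nat_lit 0))) (P (nat_lit 0)))))))), (T.h (T.h (P (nat_lit 0)) (T.h (T.h (P (nat_lit 0)) (T.h (P (nat_lit 15532778243652765473570816)) (T.h (P (nat_lit 0)) (M (nat_lit 292461774379792990207))))) (T.h (P (nat_lit 0)) (T.h (T.h (P (nat_lit 0)) (P (nat_lit 372027013451330093056))) (P (nat_lit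 0)))))) (T.h (T.h (T.h (M (nat_lit 2802544089202721518058995711)) (T.h (P (nat_lit 0)) (T.h (P (nat_lit 219226733783414827122688)) (T.h (P (nat_lit 0)) (M (nat_lit 111197562056900607)))))) (T.h (P (nat_lit 0)) (T.h (T.h (M (nat_lit 11334887043216479092735)) (T.h (P (nat_lit 0)) (M (nat_lit 307064400049864703)))) (T.h (P (nat_lit 0)) (P (nat_lit 17610523673985024)))))) (T.h (T.h (P (nat_lit 0)) (T.h (T.h (P (nat_lit 0)) (M (nat_lit 132783142035194380287))) (P (nat_lit 0)))) (T.h (T.h (T.h (P (nat_lit 11706436078456893603840)) (T.h (P (nat_lit 0)) (P (nat_lit 48128141689192448)))) (T.h (P (nat_lit 0)) (P (nat_lit 64870222751039488)))) (T.h (P (nat_lit 0)) (M (nat_lit 10301442286452735)))))))]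
def lP22_11 : List (T ℤ) := [(P (nat_lit 0)), (P (nat_lit 0)), (T.h (T.h (T.h (M (nat_lit 3394801292347723612557888454655)) (T.h (P (nat_lit 0)) (T.h (P (nat_lit 24103448565242123354374144)) (T.h (P (nat_lit 0)) (T.h (P (nat_lit 11026167477728968704)) (T.h (P (nat_lit 0)) (P (nat_lit 8700861836544)))))))) (T.h (P (nat_lit 0)) (T.h (T.h (P (nat_lit 26477007149013805545029632)) (T.h (P (nat_lit 0)) (T.h (P (nat_lit 86457667896909758464)) (T.h (P (nat_lit 0)) (P (nat_lit 54305835975360)))))) (T.h (P (nat_lit 0)) (T.h (T.h (M (nat_lit 11637485353798991871)) (T.h (P (nat_lit 0)) (P (nat_lit 165372176523456)))) (T.h (P (nat_lit 0)) (M (nat_lit 5654054247519)))))))) (T.h (T.h (P (nat_lit 0)) (T.h (T.h (P (nat_lit 0)) (T.h (M (nat_lit 6362359278971052359679)) (T.h (P (nat_lit 0)) (P (nat_lit 157961034702782464))))) (T.h (P (nat_lit 0)) (T.h (T.h (P (nat_lit 0)) (M (nat_lit 135719300220321791))) (P (nat_lit 0)))))) (T.h (T.h (T.h (M (nat_lit 5434118682628604146221055))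 (T.h (P (nat_lit 0)) (T.h (P (nat_lit 3573854567118405632)) (T.h (P (nat_lit 0)) (M (nat_lit 35050319275487)))))) (T.h (P (nat_lit 0)) (T.h (T.h (M (nat_lit 120370363877719801855)) (T.h (P (nat_lit 0)) (P (nat_lit 168515996858544)))) (T.h (P (nat_lit 0)) (M (nat_lit 104287281364127)))))) (T.h (T.h (P (nat_lit 0)) (T.h (T.h (P (nat_lit 0)) (M (nat_lit 154976873774710783))) (P (nat_lit 0)))) (T.h (T.h (T.h (M (nat_lit 7321025331169591295)) (T.h (P (nat_lit 0)) (M (nat_lit 57358249793279)))) (T.h (P (nat_lit 0)) (P (nat_lit 19445134848960)))) (T.h (P (nat_lit 0)) (M (nat_lit 1981720118879)))))))), (T.h (T.h (T.h (P (nat_lit 0)) (T.h (P (nat_lit 11401952711144634565808619520)) (T.h (P (nat_lit 0)) (T.h (M (nat_lit 349580771751851196415)) (T.h (P (nat_lit 0)) (M (nat_lit 25174507732271103))))))) (T.h (P (nat_lit 0)) (T.h (T.h (P (nat_lit 0)) (T.h (P (nat_lit 89621593371965055303680)) (T.h (P (nat_lit 0)) (P (nat_lit 387135896393826304))))) (T.h (P (nat_lit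 0)) (T.h (T.h (P (nat_lit 0)) (P (nat_lit 92959733253701632))) (P (nat_lit 0))))))) (T.h (T.h (P (nat_lit 0)) (T.h (T.h (P (nat_lit 3580340693341382729793536)) (T.h (P (nat_lit 0)) (T.h (M (nat_lit 52911668563758022655)) (T.h (P (nat_lit 0)) (P (nat_lit 54023327974512)))))) (T.h (P (nat_lit 0)) (T.h (T.h (M (nat_lit 276770331442141986815)) (T.h (P (nat_lit 0)) (P (nat_lit 254418358177664)))) (T.h (P (nat_lit 0)) (M (nat_lit 12012813532351))))))) (T.h (T.h (T.h (P (nat_lit 0)) (T.h (P (nat_lit 9211029130427594964992)) (T.h (P (nat_lit 0)) (P (nat_lit 82684409123340288))))) (T.h (P (nat_lit 0)) (T.h (T.h (P (nat_lit 0)) (M (nat_lit 948573949698473983))) (P (nat_lit 0))))) (T.h (T.h (P (nat_lit 0)) (T.h (T.h (M (nat_lit 135983825542308691967)) (T.h (P (nat_lit 0)) (P (nat_lit 90268290434928)))) (T.h (P (nat_lit 0)) (M (nat_lit 7866646795423))))) (T.h (T.h (T.h (P (nat_lit 0)) (P (nat_lit 157045282990014464))) (P (nat_lit 0))) (T.h (T.h (P (nat_lit 0))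 (M (nat_lit 4685423447423))) (P (nat_lit 0)))))))), (T.h (T.h (T.h (M (nat_lit 851272596110149998887372324863)) (T.h (P (nat_lit 0)) (T.h (M (nat_lit 117630942955441938893897727)) (T.h (P (nat_lit 0)) (T.h (M (nat_lit 884226064002586771455)) (T.h (P (nat_lit 0)) (M (nat_lit 31513377938015)))))))) (T.h (P (nat_lit 0)) (T.h (T.h (M (nat_lit 82576336320761497074532351)) (T.h (P (nat_lit 0)) (T.h (M (nat_lit 148602608935352926207)) (T.h (P (nat_lit 0)) (M (nat_lit 143720920917935)))))) (T.h (P (nat_lit 0)) (T.h (T.h (M (nat_lit 159607655211324145663)) (T.h (P (nat_lit 0)) (M (nat_lit 143720920917935)))) (T.h (P (nat_lit 0)) (M (nat_lit 31513377938015)))))))) (T.h (T.h (P (nat_lit 0)) (T.h (T.h (P (nat_lit 0)) (T.h (P (nat_lit 108238888629147831107584)) (T.h (P (nat_lit 0)) (M (nat_lit 1157162016127385599))))) (T.h (P (nat_lit 0)) (T.h (T.h (P (nat_lit 0)) (M (nat_lit 477586486620127231))) (P (nat_lit 0)))))) (T.h (T.h (T.h (M (nat_lit 23188096804866667602509823))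 (T.h (P (nat_lit 0)) (T.h (P (nat_lit 47412320963395584000)) (T.h (P (nat_lit 0)) (P (nat_lit 117921880255536)))))) (T.h (P (nat_lit 0)) (T.h (T.h (M (nat_lit 115216683789640007679)) (T.h (P (nat_lit 0)) (M (nat_lit 21588494913791)))) (T.h (P (nat_lit 0)) (P (nat_lit 117921880255536)))))) (T.h (T.h (P (nat_lit 0)) (T.h (T.h (P (nat_lit 0)) (M (nat_lit 303228862671224831))) (P (nat_lit 0)))) (T.h (T.h (T.h (P (nat_lit 57736743200067944448)) (T.h (P (nat_lit 0)) (P (nat_lit 106034947275024)))) (T.h (P (nat_lit 0)) (P (nat_lit 106034947275024)))) (T.h (P (nat_lit 0)) (P (nat_lit 12514805647488)))))))), (T.h (T.h (T.h (P (nat_lit 0)) (T.h (P (nat_lit 20336825086277710617774129152)) (T.h (P (nat_lit 0)) (T.h (M (nat_lit 19845638658273772044287)) (T.h (P (nat_lit 0)) (M (nat_lit 172462478615511039))))))) (T.h (P (nat_lit 0)) (T.h (T.h (P (nat_lit 0)) (T.h (P (nat_lit 66911026800784601776128)) (T.h (P (nat_lit 0)) (M (nat_lit 162785966131183615))))) (T.h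 (P (nat_lit 0)) (T.h (T.h (P (nat_lit 0)) (M (nat_lit 135904604962209791))) (P (nat_lit 0))))))) (T.h (T.h (P (nat_lit 0)) (T.h (T.h (P (nat_lit 100406850484060940098600960)) (T.h (P (nat_lit 0)) (T.h (P (nat_lit 932873236081316724736)) (T.h (P (nat_lit 0)) (M (nat_lit 493402670761247)))))) (T.h (P (nat_lit 0)) (T.h (T.h (P (nat_lit 149060729167943827456)) (T.h (P (nat_lit 0)) (M (nat_lit 187314034551551)))) (T.h (P (nat_lit 0)) (P (nat_lit 8562378236832))))))) (T.h (T.h (T.h (P (nat_lit 0)) (T.h (M (nat_lit 35675785022990670888959)) (T.h (P (nat_lit 0)) (P (nat_lit 61532118309339136))))) (T.h (P (nat_lit 0)) (T.h (T.h (P (nat_lit 0)) (M (nat_lit 373595198247862271))) (P (nat_lit 0))))) (T.h (T.h (P (nat_lit 0)) (T.h (T.h (M (nat_lit 128456059387660730367)) (T.h (P (nat_lit 0)) (M (nat_lit 105852932695583)))) (T.h (P (nat_lit 0)) (P (nat_lit 79993172440224))))) (T.h (T.h (T.h (P (nat_lit 0)) (M (nat_lit 36241238331195391))) (P (nat_lit 0))) (T.h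 (T.h (P (nat_lit 0)) (M (nat_lit 59828803719263))) (P (nat_lit 0)))))))), (T.h (T.h (T.h (P (nat_lit 6956814252741079948443380613120)) (T.h (P (nat_lit 0)) (T.h (P (nat_lit 7835852522007655234928640)) (T.h (P (nat_lit 0)) (P (nat_lit 190603457277588406272)))))) (T.h (P (nat_lit 0)) (T.h (T.h (P (nat_lit 12512308161857980632924160)) (T.h (P (nat_lit 0)) (P (nat_lit 696574428408140791808)))) (T.h (P (nat_lit 0)) (P (nat_lit 31284549361191616512)))))) (T.h (T.h (P (nat_lit 0)) (T.h (T.h (P (nat_lit 0)) (T.h (M (nat_lit 245888729080067128295423)) (T.h (P (nat_lit 0)) (P (nat_lit 281155397963546624))))) (T.h (P (nat_lit 0)) (T.h (T.h (P (nat_lit 0)) (P (nat_lit 207377764562108416))) (P (nat_lit 0)))))) (T.h (T.h (T.h (P (nat_lit 9834762153925330696404992)) (T.h (P (nat_lit 0)) (M (nat_lit 83243563760396271615)))) (T.h (P (nat_lit 0)) (P (nat_lit 89162961353009266688)))) (T.h (T.h (P (nat_lit 0)) (T.h (T.h (P (nat_lit 0)) (P (nat_lit 200925852248375296)))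 (P (nat_lit 0)))) (M (nat_lit 907467354663813119)))))), (P (nat_lit 0))]
def lP22_12 : List (T ℤ) := [(P (nat_lit 0)), (T.h (T.h (P (nat_lit 0)) (T.h (T.h (P (nat_lit 0)) (T.h (P (nat_lit 18465344014479985616093184)) (T.h (P (nat_lit 0)) (T.h (M (nat_lit 34605755205232361471)) (T.h (P (nat_lit 0)) (P (nat_lit 8726481011648))))))) (T.h (P (nat_lit 0)) (T.h (T.h (P (nat_lit 0)) (T.h (M (nat_lit 68835595945469018111)) (T.h (P (nat_lit 0)) (M (nat_lit 131871204228983))))) (T.h (P (nat_lit 0)) (T.h (T.h (P (nat_lit 0)) (P (nat_lit 89022642699632))) (P (nat_lit 0)))))))) (T.h (T.h (T.h (P (nat_lit 14269134643526864158614093824)) (T.h (P (nat_lit 0)) (T.h (M (nat_lit 9636943539543870537727)) (T.h (P (nat_lit 0)) (M (nat_lit 34878434534850559)))))) (T.h (P (nat_lit 0)) (T.h (T.h (M (nat_lit 27471635030742633807871)) (T.h (P (nat_lit 0)) (M (nat_lit 45498791329431551)))) (T.h (P (nat_lit 0)) (P (nat_lit 43677374260051968)))))) (T.h (T.h (P (nat_lit 0)) (T.h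 (T.h (P (nat_lit 0)) (T.h (P (nat_lit 6342422112648560640)) (T.h (P (nat_lit 0)) (M (nat_lit 60088718014791))))) (T.h (P (nat_lit 0)) (T.h (T.h (P (nat_lit 0)) (M (nat_lit 316972010861575))) (P (nat_lit 0)))))) (T.h (T.h (T.h (P (nat_lit 7967390448646252134400)) (T.h (P (nat_lit 0)) (P (nat_lit 1921388020072448)))) (T.h (P (nat_lit 0)) (P (nat_lit 107764172307333120)))) (T.h (T.h (P (nat_lit 0)) (T.h (T.h (P (nat_lit 0)) (P (nat_lit 53825143441704))) (P (nat_lit 0)))) (P (nat_lit 380968898691072))))))), (T.h (T.h (P (nat_lit 0)) (T.h (T.h (M (nat_lit 13210451688327983842182823935)) (T.h (P (nat_lit 0)) (T.h (P (nat_lit 71268525060009716875264)) (T.h (P (nat_lit 0)) (M (nat_lit 77890511696707583)))))) (T.h (P (nat_lit 0)) (T.h (T.h (P (nat_lit 53049158737755864301568)) (T.h (P (nat_lit 0)) (P (nat_lit 142194421957574656)))) (T.h (P (nat_lit 0)) (M (nat_lit 33213642493526015))))))) (T.h (T.h (T.h (P (nat_lit 0)) (T.h (M (nat_lit 812139356238288361881599))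 (T.h (P (nat_lit 0)) (T.h (P (nat_lit 14353739500201443328)) (T.h (P (nat_lit 0)) (M (nat_lit 12009131250063))))))) (T.h (P (nat_lit 0)) (T.h (T.h (P (nat_lit 0)) (T.h (P (nat_lit 686793345222343393280)) (T.h (P (nat_lit 0)) (M (nat_lit 5250374281359))))) (T.h (P (nat_lit 0)) (T.h (T.h (P (nat_lit 0)) (M (nat_lit 33739957894015))) (P (nat_lit 0))))))) (T.h (T.h (P (nat_lit 0)) (T.h (T.h (P (nat_lit 71268525060009716875264)) (T.h (P (nat_lit 0)) (M (nat_lit 82599042909241343)))) (T.h (P (nat_lit 0)) (P (nat_lit 142194421957574656))))) (T.h (T.h (T.h (P (nat_lit 0)) (T.h (P (nat_lit 14353739500201443328)) (T.h (P (nat_lit 0)) (P (nat_lit 15419168176256))))) (T.h (P (nat_lit 0)) (T.h (T.h (P (nat_lit 0)) (M (nat_lit 5250374281359))) (P (nat_lit 0))))) (T.h (T.h (P (nat_lit 0)) (M (nat_lit 77890511696707583))) (T.h (T.h (T.h (P (nat_lit 0)) (M (nat_lit 12009131250063))) (P (nat_lit 0))) (P (nat_lit 0)))))))), (T.h (T.h (P (nat_lit 0)) (T.h (T.h (P (nat_lit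 0)) (T.h (M (nat_lit 169192765945311575322656767)) (T.h (P (nat_lit 0)) (T.h (M (nat_lit 697697792170483777535)) (T.h (P (nat_lit 0)) (P (nat_lit 31462978248624))))))) (T.h (P (nat_lit 0)) (T.h (T.h (P (nat_lit 0)) (T.h (M (nat_lit 231944975521304018943)) (T.h (P (nat_lit 0)) (P (nat_lit 222868762305024))))) (T.h (P (nat_lit 0)) (T.h (T.h (P (nat_lit 0)) (M (nat_lit 89014422257279))) (P (nat_lit 0)))))))) (T.h (T.h (T.h (M (nat_lit 18562684784021751830870491135)) (T.h (P (nat_lit 0)) (T.h (M (nat_lit 12091848963564075220991)) (T.h (P (nat_lit 0)) (P (nat_lit 163751868827697152)))))) (T.h (P (nat_lit 0)) (T.h (T.h (P (nat_lit 245565820896624710254592)) (T.h (P (nat_lit 0)) (M (nat_lit 638821902318600191)))) (T.h (P (nat_lit 0)) (M (nat_lit 559276618694197247)))))) (T.h (T.h (P (nat_lit 0)) (T.h (T.h (P (nat_lit 0)) (T.h (P (nat_lit 99592440577632763904)) (T.h (P (nat_lit 0)) (P (nat_lit 151194672219024))))) (T.h (P (nat_lit 0)) (T.h (T.h (P (nat_lit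 0)) (M (nat_lit 326692463252447))) (P (nat_lit 0)))))) (T.h (T.h (T.h (P (nat_lit 29517837160202245242880)) (T.h (P (nat_lit 0)) (M (nat_lit 148660680979709951)))) (T.h (P (nat_lit 0)) (M (nat_lit 434076260452663295)))) (T.h (T.h (P (nat_lit 0)) (T.h (T.h (P (nat_lit 0)) (M (nat_lit 168082866176879))) (P (nat_lit 0)))) (M (nat_lit 20025180165963775))))))), (T.h (T.h (P (nat_lit 0)) (T.h (T.h (P (nat_lit 20336825086277710617774129152)) (T.h (P (nat_lit 0)) (T.h (P (nat_lit 66911026800784601776128)) (T.h (P (nat_lit 0)) (M (nat_lit 135904604962209791)))))) (T.h (P (nat_lit 0)) (T.h (T.h (M (nat_lit 19845638658273772044287)) (T.h (P (nat_lit 0)) (M (nat_lit 162785966131183615)))) (T.h (P (nat_lit 0)) (M (nat_lit 172462478615511039))))))) (T.h (T.h (T.h (P (nat_lit 0)) (T.h (P (nat_lit 100406850484060940098600960)) (T.h (P (nat_lit 0)) (T.h (P (nat_lit 149060729167943827456)) (T.h (P (nat_lit 0)) (P (nat_lit 8562378236832))))))) (T.h (P (nat_lit 0))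 (T.h (T.h (P (nat_lit 0)) (T.h (P (nat_lit 932873236081316724736)) (T.h (P (nat_lit 0)) (M (nat_lit 187314034551551))))) (T.h (P (nat_lit 0)) (T.h (T.h (P (nat_lit 0)) (M (nat_lit 493402670761247))) (P (nat_lit 0))))))) (T.h (T.h (P (nat_lit 0)) (T.h (T.h (M (nat_lit 35675785022990670888959)) (T.h (P (nat_lit 0)) (M (nat_lit 373595198247862271)))) (T.h (P (nat_lit 0)) (P (nat_lit 61532118309339136))))) (T.h (T.h (T.h (P (nat_lit 0)) (T.h (M (nat_lit 128456059387660730367)) (T.h (P (nat_lit 0)) (P (nat_lit 79993172440224))))) (T.h (P (nat_lit 0)) (T.h (T.h (P (nat_lit 0)) (M (nat_lit 105852932695583))) (P (nat_lit 0))))) (T.h (T.h (P (nat_lit 0)) (M (nat_lit 36241238331195391))) (T.h (T.h (T.h (P (nat_lit 0)) (M (nat_lit 59828803719263))) (P (nat_lit 0))) (P (nat_lit 0)))))))), (T.h (T.h (P (nat_lit 0)) (T.h (T.h (P (nat_lit 0)) (T.h (P (nat_lit 82022475448791551103205376)) (T.h (P (nat_lit 0)) (P (nat_lit 285002259208458993664))))) (T.h (P (nat_lit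 0)) (T.h (T.h (P (nat_lit 0)) (P (nat_lit 285002259208458993664))) (P (nat_lit 0)))))) (T.h (T.h (T.h (M (nat_lit 23982801289164216537089835007)) (T.h (P (nat_lit 0)) (T.h (M (nat_lit 103457444550888944304127)) (T.h (P (nat_lit 0)) (P (nat_lit 83546188554764288)))))) (T.h (P (nat_lit 0)) (T.h (T.h (M (nat_lit 103457444550888944304127)) (T.h (P (nat_lit 0)) (P (nat_lit 105359980908511232)))) (T.h (P (nat_lit 0)) (P (nat_lit 83546188554764288)))))) (T.h (T.h (P (nat_lit 0)) (T.h (T.h (P (nat_lit 0)) (P (nat_lit 145578080354680438784))) (P (nat_lit 0)))) (T.h (T.h (T.h (M (nat_lit 40637152726621985177599)) (T.h (P (nat_lit 0)) (M (nat_lit 77636821944369151)))) (T.h (P (nat_lit 0)) (M (nat_lit 77636821944369151)))) (T.h (P (nat_lit 0)) (P (nat_lit 30478663296221184))))))), (P (nat_lit 0)), (T.h (T.h (T.h (P (nat_lit 1044092864234815686108453535744)) (T.h (P (nat_lit 0)) (T.h (M (nat_lit 3304818183930917377015807)) (T.h (P (nat_lit 0)) (T.h (P (nat_lit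 540673259700486144)) (T.h (P (nat_lit 0)) (M (nat_lit 897912467359)))))))) (T.h (P (nat_lit 0)) (T.h (T.h (P (nat_lit 19503290221629731359424512)) (T.h (P (nat_lit 0)) (T.h (M (nat_lit 3146289170763218943)) (T.h (P (nat_lit 0)) (P (nat_lit 12639261374784)))))) (T.h (P (nat_lit 0)) (T.h (T.h (M (nat_lit 9924289341763354623)) (T.h (P (nat_lit 0)) (M (nat_lit 46901718638095)))) (T.h (P (nat_lit 0)) (P (nat_lit 7159389186272)))))))) (T.h (T.h (P (nat_lit 0)) (T.h (T.h (P (nat_lit 0)) (T.h (M (nat_lit 16270717099454440144895)) (T.h (P (nat_lit 0)) (M (nat_lit 6260513164951551))))) (T.h (P (nat_lit 0)) (T.h (T.h (P (nat_lit 0)) (M (nat_lit 50450062895218687))) (P (nat_lit 0)))))) (T.h (T.h (T.h (M (nat_lit 3304818183930917377015807)) (T.h (P (nat_lit 0)) (T.h (P (nat_lit 4911392064010190848)) (T.h (P (nat_lit 0)) (P (nat_lit 12942816642816)))))) (T.h (P (nat_lit 0)) (T.h (T.h (M (nat_lit 3146289170763218943)) (T.h (P (nat_lit 0)) (M (nat_lit 3660592287679))))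 (T.h (P (nat_lit 0)) (M (nat_lit 46901718638095)))))) (T.h (T.h (P (nat_lit 0)) (T.h (T.h (P (nat_lit 0)) (M (nat_lit 6260513164951551))) (P (nat_lit 0)))) (T.h (T.h (T.h (P (nat_lit 540673259700486144)) (T.h (P (nat_lit 0)) (P (nat_lit 12942816642816)))) (T.h (P (nat_lit 0)) (P (nat_lit 12639261374784)))) (T.h (P (nat_lit 0)) (M (nat_lit 897912467359))))))))]
def lP22_13 : List (T ℤ) := [(T.h (T.h (T.h (P (nat_lit 0)) (T.h (P (nat_lit 2084092978544746558608375808)) (T.h (P (nat_lit 0)) (T.h (M (nat_lit 2445534956294129057791)) (T.h (P (nat_lit 0)) (P (nat_lit 2747498126852096))))))) (T.h (P (nat_lit 0)) (T.h (T.h (P (nat_lit 0)) (T.h (M (nat_lit 14112679512842935730175)) (T.h (P (nat_lit 0)) (P (nat_lit 3081846973022208))))) (T.h (P (nat_lit 0)) (T.h (T.h (P (nat_lit 0)) (M (nat_lit 145933282261073919))) (P (nat_lit 0))))))) (T.h (T.h (P (nat_lit 0)) (T.h (T.h (P (nat_lit 3505100089068918241492992)) (T.h (P (nat_lit 0)) (T.h (P (nat_lit 8688976552274165760))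 (T.h (P (nat_lit 0)) (M (nat_lit 6391443606815)))))) (T.h (P (nat_lit 0)) (T.h (T.h (P (nat_lit 83778115168194527232)) (T.h (P (nat_lit 0)) (P (nat_lit 19291176429520)))) (T.h (P (nat_lit 0)) (M (nat_lit 335941989346463))))))) (T.h (T.h (T.h (P (nat_lit 0)) (T.h (M (nat_lit 13105697841355797037055)) (T.h (P (nat_lit 0)) (M (nat_lit 10769564384280575))))) (T.h (P (nat_lit 0)) (T.h (T.h (P (nat_lit 0)) (M (nat_lit 45175380232437759))) (P (nat_lit 0))))) (T.h (T.h (P (nat_lit 0)) (T.h (T.h (M (nat_lit 3206093737427992575)) (T.h (P (nat_lit 0)) (P (nat_lit 7731991111936)))) (T.h (P (nat_lit 0)) (P (nat_lit 19834863972112))))) (T.h (T.h (T.h (P (nat_lit 0)) (M (nat_lit 21643633645551615))) (P (nat_lit 0))) (T.h (T.h (P (nat_lit 0)) (M (nat_lit 2171138809055))) (P (nat_lit 0)))))))), (T.h (T.h (T.h (M (nat_lit 10908091202296607606064923279359)) (T.h (P (nat_lit 0)) (T.h (P (nat_lit 82864319336703675494039552)) (T.h (P (nat_lit 0)) (T.h (M (nat_lit 22000063034372915199))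 (T.h (P (nat_lit 0)) (M (nat_lit 1272585424271)))))))) (T.h (P (nat_lit 0)) (T.h (T.h (M (nat_lit 106870122577452009223356415)) (T.h (P (nat_lit 0)) (T.h (P (nat_lit 211858420758472556544)) (T.h (P (nat_lit 0)) (M (nat_lit 106775006108063)))))) (T.h (P (nat_lit 0)) (T.h (T.h (P (nat_lit 435617874878641733632)) (T.h (P (nat_lit 0)) (P (nat_lit 86654082495648)))) (T.h (P (nat_lit 0)) (P (nat_lit 5727466517568)))))))) (T.h (T.h (P (nat_lit 0)) (T.h (T.h (P (nat_lit 0)) (T.h (P (nat_lit 125059298089674232299520)) (T.h (P (nat_lit 0)) (M (nat_lit 197613513858678783))))) (T.h (P (nat_lit 0)) (T.h (T.h (P (nat_lit 0)) (P (nat_lit 2029145175772889088))) (P (nat_lit 0)))))) (T.h (T.h (T.h (P (nat_lit 7611565181106873031458816)) (T.h (P (nat_lit 0)) (T.h (M (nat_lit 24513740372315209727)) (T.h (P (nat_lit 0)) (M (nat_lit 54304868692991)))))) (T.h (P (nat_lit 0)) (T.h (T.h (P (nat_lit 207371639715153313792)) (T.h (P (nat_lit 0)) (M (nat_lit 51987151445087))))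 (T.h (P (nat_lit 0)) (P (nat_lit 86654082495648)))))) (T.h (T.h (P (nat_lit 0)) (T.h (T.h (P (nat_lit 0)) (P (nat_lit 210507189172764672))) (P (nat_lit 0)))) (T.h (T.h (T.h (M (nat_lit 26661579478922166271)) (T.h (P (nat_lit 0)) (M (nat_lit 54304868692991)))) (T.h (P (nat_lit 0)) (M (nat_lit 106775006108063)))) (T.h (P (nat_lit 0)) (M (nat_lit 1272585424271)))))))), (T.h (T.h (T.h (P (nat_lit 0)) (T.h (M (nat_lit 10238001575438095358980259839)) (T.h (P (nat_lit 0)) (T.h (P (nat_lit 4498526712991768903680)) (T.h (P (nat_lit 0)) (M (nat_lit 5867200945930239))))))) (T.h (P (nat_lit 0)) (T.h (T.h (P (nat_lit 0)) (T.h (M (nat_lit 148288026953148786540543)) (T.h (P (nat_lit 0)) (M (nat_lit 902612114225659903))))) (T.h (P (nat_lit 0)) (T.h (T.h (P (nat_lit 0)) (P (nat_lit 391068373448163328))) (P (nat_lit 0))))))) (T.h (T.h (P (nat_lit 0)) (T.h (T.h (M (nat_lit 65918469378897187897868287)) (T.h (P (nat_lit 0)) (T.h (M (nat_lit 115437795602681823231)) (T.h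 (P (nat_lit 0)) (M (nat_lit 212902374284207)))))) (T.h (P (nat_lit 0)) (T.h (T.h (M (nat_lit 204190865734695387135)) (T.h (P (nat_lit 0)) (P (nat_lit 480696106885200)))) (T.h (P (nat_lit 0)) (P (nat_lit 88368910367184))))))) (T.h (T.h (T.h (P (nat_lit 0)) (T.h (M (nat_lit 32773840107748108271615)) (T.h (P (nat_lit 0)) (M (nat_lit 13902498383790079))))) (T.h (P (nat_lit 0)) (T.h (T.h (P (nat_lit 0)) (P (nat_lit 519943386516488192))) (P (nat_lit 0))))) (T.h (T.h (P (nat_lit 0)) (T.h (T.h (P (nat_lit 258219709894464897024)) (T.h (P (nat_lit 0)) (P (nat_lit 135400654107216)))) (T.h (P (nat_lit 0)) (M (nat_lit 40308873541055))))) (T.h (T.h (T.h (P (nat_lit 0)) (P (nat_lit 105856962375598080))) (P (nat_lit 0))) (T.h (T.h (P (nat_lit 0)) (P (nat_lit 6090557697360))) (P (nat_lit 0)))))))), (T.h (T.h (T.h (P (nat_lit 6956814252741079948443380613120)) (T.h (P (nat_lit 0)) (T.h (P (nat_lit 12512308161857980632924160)) (T.h (P (nat_lit 0)) (P (nat_lit 31284549361191616512))))))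 (T.h (P (nat_lit 0)) (T.h (T.h (P (nat_lit 7835852522007655234928640)) (T.h (P (nat_lit 0)) (P (nat_lit 696574428408140791808)))) (T.h (P (nat_lit 0)) (P (nat_lit 190603457277588406272)))))) (T.h (T.h (P (nat_lit 0)) (T.h (T.h (P (nat_lit 0)) (T.h (M (nat_lit 245888729080067128295423)) (T.h (P (nat_lit 0)) (P (nat_lit 207377764562108416))))) (T.h (P (nat_lit 0)) (T.h (T.h (P (nat_lit 0)) (P (nat_lit 281155397963546624))) (P (nat_lit 0)))))) (T.h (T.h (T.h (P (nat_lit 9834762153925330696404992)) (T.h (P (nat_lit 0)) (P (nat_lit 89162961353009266688)))) (T.h (P (nat_lit 0)) (M (nat_lit 83243563760396271615)))) (T.h (T.h (P (nat_lit 0)) (T.h (T.h (P (nat_lit 0)) (P (nat_lit 200925852248375296))) (P (nat_lit 0)))) (M (nat_lit 907467354663813119)))))), (P (nat_lit 0)), (P (nat_lit 0)), (T.h (T.h (P (nat_lit 0)) (T.h (T.h (P (nat_lit 0)) (T.h (P (nat_lit 22636031326665170084691968)) (T.h (P (nat_lit 0)) (T.h (M (nat_lit 21302232484879007743)) (T.h (P (nat_lit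 0)) (P (nat_lit 2088080913312))))))) (T.h (P (nat_lit 0)) (T.h (T.h (P (nat_lit 0)) (T.h (P (nat_lit 291205708661791916032)) (T.h (P (nat_lit 0)) (P (nat_lit 13347002066688))))) (T.h (P (nat_lit 0)) (T.h (T.h (P (nat_lit 0)) (M (nat_lit 98814136291871))) (P (nat_lit 0)))))))) (T.h (T.h (T.h (P (nat_lit 7829836801137287811569811456)) (T.h (P (nat_lit 0)) (T.h (M (nat_lit 2266056552591724118015)) (T.h (P (nat_lit 0)) (M (nat_lit 34806846483628031)))))) (T.h (P (nat_lit 0)) (T.h (T.h (M (nat_lit 68905016941645014237183)) (T.h (P (nat_lit 0)) (P (nat_lit 9198005605859328)))) (T.h (P (nat_lit 0)) (P (nat_lit 635986056902115328)))))) (T.h (T.h (P (nat_lit 0)) (T.h (T.h (P (nat_lit 0)) (T.h (P (nat_lit 10994774995497910272)) (T.h (P (nat_lit 0)) (M (nat_lit 18427241446751))))) (T.h (P (nat_lit 0)) (T.h (T.h (P (nat_lit 0)) (M (nat_lit 31467877982927))) (P (nat_lit 0)))))) (T.h (T.h (T.h (M (nat_lit 15005716945789723344895)) (T.h (P (nat_lit 0)) (P (nat_lit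 70866266141229056)))) (T.h (P (nat_lit 0)) (P (nat_lit 11887588504567808)))) (T.h (T.h (P (nat_lit 0)) (T.h (T.h (P (nat_lit 0)) (M (nat_lit 5796365101967))) (P (nat_lit 0)))) (P (nat_lit 10514767459319808))))))), (T.h (T.h (P (nat_lit 0)) (T.h (T.h (P (nat_lit 36998131545928357616738631680)) (T.h (P (nat_lit 0)) (T.h (M (nat_lit 90589036788935810875391)) (T.h (P (nat_lit 0)) (P (nat_lit 79739785560276992)))))) (T.h (P (nat_lit 0)) (T.h (T.h (M (nat_lit 3100395856076149358591)) (T.h (P (nat_lit 0)) (P (nat_lit 15382350327431168)))) (T.h (P (nat_lit 0)) (P (nat_lit 166287845529026560))))))) (T.h (T.h (T.h (P (nat_lit 0)) (T.h (M (nat_lit 53272160417920283098218495)) (T.h (P (nat_lit 0)) (T.h (M (nat_lit 18135119514684096511)) (T.h (P (nat_lit 0)) (P (nat_lit 25603466475168))))))) (T.h (P (nat_lit 0)) (T.h (T.h (P (nat_lit 0)) (T.h (M (nat_lit 1051264078816068239359)) (T.h (P (nat_lit 0)) (P (nat_lit 71961381107280))))) (T.h (P (nat_lit 0)) (T.h (T.h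 (P (nat_lit 0)) (P (nat_lit 354926245962528))) (P (nat_lit 0))))))) (T.h (T.h (P (nat_lit 0)) (T.h (T.h (M (nat_lit 90589036788935810875391)) (T.h (P (nat_lit 0)) (P (nat_lit 200668995862790144)))) (T.h (P (nat_lit 0)) (P (nat_lit 15382350327431168))))) (T.h (T.h (T.h (P (nat_lit 0)) (T.h (M (nat_lit 18135119514684096511)) (T.h (P (nat_lit 0)) (M (nat_lit 85814251092287))))) (T.h (P (nat_lit 0)) (T.h (T.h (P (nat_lit 0)) (P (nat_lit 71961381107280))) (P (nat_lit 0))))) (T.h (T.h (P (nat_lit 0)) (P (nat_lit 79739785560276992))) (T.h (T.h (T.h (P (nat_lit 0)) (P (nat_lit 25603466475168))) (P (nat_lit 0))) (P (nat_lit 0))))))))]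
def lP22_14 : List (T ℤ) := [(T.h (T.h (P (nat_lit 0)) (T.h (T.h (P (nat_lit 0)) (T.h (P (nat_lit 15532778243652765473570816)) (T.h (P (nat_lit 0)) (P (nat_lit 372027013451330093056))))) (T.h (P (nat_lit 0)) (T.h (T.h (P (nat_lit 0)) (M (nat_lit 292461774379792990207))) (P (nat_lit 0)))))) (T.h (T.h (T.h (M (nat_lit 2802544089202721518058995711)) (T.h (P (nat_lit 0)) (T.h (M (nat_lit 11334887043216479092735)) (T.h (P (nat_lit 0)) (P (nat_lit 17610523673985024)))))) (T.h (P (nat_lit 0)) (T.h (T.h (P (nat_lit 219226733783414827122688)) (T.h (P (nat_lit 0)) (M (nat_lit 307064400049864703)))) (T.h (P (nat_lit 0)) (M (nat_lit 111197562056900607)))))) (T.h (T.h (P (nat_lit 0)) (T.h (T.h (P (nat_lit 0)) (M (nat_lit 132783142035194380287))) (P (nat_lit 0)))) (T.h (T.h (T.h (P (nat_lit 11706436078456893603840)) (T.h (P (nat_lit 0)) (P (nat_lit 64870222751039488)))) (T.h (P (nat_lit 0)) (P (nat_lit 48128141689192448)))) (T.h (P (nat_lit 0)) (M (nat_lit 10301442286452735))))))),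 (P (nat_lit 0)), (T.h (T.h (T.h (P (nat_lit 970190473303136145515430805504)) (T.h (P (nat_lit 0)) (T.h (M (nat_lit 1516252336388319158992895)) (T.h (P (nat_lit 0)) (M (nat_lit 2993704968336179199)))))) (T.h (P (nat_lit 0)) (T.h (T.h (P (nat_lit 8655405118484569349160960)) (T.h (P (nat_lit 0)) (P (nat_lit 22855369585332322304)))) (T.h (P (nat_lit 0)) (M (nat_lit 33836214708969930751)))))) (T.h (T.h (P (nat_lit 0)) (T.h (T.h (P (nat_lit 0)) (T.h (P (nat_lit 8650737233172291911680)) (T.h (P (nat_lit 0)) (M (nat_lit 35206083415244799))))) (T.h (P (nat_lit 0)) (T.h (T.h (P (nat_lit 0)) (M (nat_lit 111264035829710847))) (P (nat_lit 0)))))) (T.h (T.h (T.h (M (nat_lit 1516252336388319158992895)) (T.h (P (nat_lit 0)) (P (nat_lit 6993876806528925696)))) (T.h (P (nat_lit 0)) (P (nat_lit 22855369585332322304)))) (T.h (T.h (P (nat_lit 0)) (T.h (T.h (P (nat_lit 0)) (M (nat_lit 35206083415244799))) (P (nat_lit 0)))) (M (nat_lit 2993704968336179199)))))), (T.h (T.h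 (T.h (P (nat_lit 0)) (T.h (P (nat_lit 7613911020926650974465949696)) (T.h (P (nat_lit 0)) (T.h (P (nat_lit 3737831950392995348480)) (T.h (P (nat_lit 0)) (M (nat_lit 2662119321436159))))))) (T.h (P (nat_lit 0)) (T.h (T.h (P (nat_lit 0)) (T.h (M (nat_lit 37608647712375417339903)) (T.h (P (nat_lit 0)) (M (nat_lit 15025593104400383))))) (T.h (P (nat_lit 0)) (T.h (T.h (P (nat_lit 0)) (P (nat_lit 288386959946383360))) (P (nat_lit 0))))))) (T.h (T.h (P (nat_lit 0)) (T.h (T.h (P (nat_lit 16770020288298499683909632)) (T.h (P (nat_lit 0)) (T.h (P (nat_lit 6148453346429632512)) (T.h (P (nat_lit 0)) (P (nat_lit 17575024374576)))))) (T.h (P (nat_lit 0)) (T.h (T.h (M (nat_lit 54436003502392082431)) (T.h (P (nat_lit 0)) (M (nat_lit 157763501468927)))) (T.h (P (nat_lit 0)) (P (nat_lit 310329193881600))))))) (T.h (T.h (T.h (P (nat_lit 0)) (T.h (P (nat_lit 856239061351264157696)) (T.h (P (nat_lit 0)) (P (nat_lit 18868985238323200))))) (T.h (P (nat_lit 0)) (T.h (T.h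 (P (nat_lit 0)) (M (nat_lit 11201544438792191))) (P (nat_lit 0))))) (T.h (T.h (P (nat_lit 0)) (T.h (T.h (M (nat_lit 24581911049941286911)) (T.h (P (nat_lit 0)) (M (nat_lit 43491366017423)))) (T.h (P (nat_lit 0)) (M (nat_lit 15746492039039))))) (T.h (T.h (T.h (P (nat_lit 0)) (M (nat_lit 18543270365085695))) (P (nat_lit 0))) (T.h (T.h (P (nat_lit 0)) (M (nat_lit 3743196082991))) (P (nat_lit 0)))))))), (T.h (T.h (T.h (M (nat_lit 3388291302366962560366419116031)) (T.h (P (nat_lit 0)) (T.h (P (nat_lit 4983474547258667095293952)) (T.h (P (nat_lit 0)) (P (nat_lit 5571827366197460992)))))) (T.h (P (nat_lit 0)) (T.h (T.h (M (nat_lit 52973080057366503088979967)) (T.h (P (nat_lit 0)) (M (nat_lit 91053075213775273983)))) (T.h (P (nat_lit 0)) (M (nat_lit 201408859984088793087)))))) (T.h (T.h (P (nat_lit 0)) (T.h (T.h (P (nat_lit 0)) (T.h (P (nat_lit 130518322924367101558784)) (T.h (P (nat_lit 0)) (M (nat_lit 28954197942730751))))) (T.h (P (nat_lit 0)) (T.h (T.h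 (P (nat_lit 0)) (M (nat_lit 179461911432396799))) (P (nat_lit 0)))))) (T.h (T.h (T.h (P (nat_lit 4983474547258667095293952)) (T.h (P (nat_lit 0)) (M (nat_lit 46072855600505552895)))) (T.h (P (nat_lit 0)) (M (nat_lit 91053075213775273983)))) (T.h (T.h (P (nat_lit 0)) (T.h (T.h (P (nat_lit 0)) (M (nat_lit 28954197942730751))) (P (nat_lit 0)))) (P (nat_lit 5571827366197460992)))))), (P (nat_lit 0)), (P (nat_lit 0)), (T.h (T.h (P (nat_lit 0)) (T.h (T.h (P (nat_lit 0)) (T.h (M (nat_lit 1761177201905144919228415)) (T.h (P (nat_lit 0)) (M (nat_lit 1424453042811437055))))) (T.h (P (nat_lit 0)) (T.h (T.h (P (nat_lit 0)) (M (nat_lit 159289274093619118079))) (P (nat_lit 0)))))) (T.h (T.h (T.h (M (nat_lit 1069719061105742419312246783)) (T.h (P (nat_lit 0)) (T.h (P (nat_lit 167114983961662586880)) (T.h (P (nat_lit 0)) (M (nat_lit 6948109256065023)))))) (T.h (P (nat_lit 0)) (T.h (T.h (M (nat_lit 9039233065320873721855)) (T.h (P (nat_lit 0)) (P (nat_lit 69713786696892416))))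 (T.h (P (nat_lit 0)) (M (nat_lit 360924354560393215)))))) (T.h (T.h (P (nat_lit 0)) (T.h (T.h (P (nat_lit 0)) (P (nat_lit 13635200529196908544))) (P (nat_lit 0)))) (T.h (T.h (T.h (P (nat_lit 4810639926731932172288)) (T.h (P (nat_lit 0)) (P (nat_lit 3999072314753024)))) (T.h (P (nat_lit 0)) (M (nat_lit 9114228696940543)))) (T.h (P (nat_lit 0)) (P (nat_lit 189485684457472)))))))]
def lP22_15 : List (T ℤ) := [(P (nat_lit 0)), (P (nat_lit 0)), (P (nat_lit 0)), (M (nat_lit 4410501400340933843783516159999)), (P (nat_lit 0)), (P (nat_lit 0)), (T.h (T.h (T.h (P (nat_lit 0)) (T.h (P (nat_lit 3098604776172329639948058624)) (T.h (P (nat_lit 0)) (T.h (M (nat_lit 38481021830886875725823)) (T.h (P (nat_lit 0)) (P (nat_lit 37063228215164928))))))) (T.h (P (nat_lit 0)) (T.h (T.h (P (nat_lit 0)) (T.h (M (nat_lit 20386365812639080120319)) (T.h (P (nat_lit 0)) (P (nat_lit 77841860088954880))))) (T.h (P (nat_lit 0)) (T.h (T.h (P (nat_lit 0)) (P (nat_lit 43855150067777536)))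 (P (nat_lit 0))))))) (T.h (T.h (P (nat_lit 0)) (T.h (T.h (P (nat_lit 8531529062098120212480)) (T.h (P (nat_lit 0)) (T.h (P (nat_lit 4385020619398316032)) (T.h (P (nat_lit 0)) (P (nat_lit 427880890365408)))))) (T.h (P (nat_lit 0)) (T.h (T.h (M (nat_lit 16192905334090629119)) (T.h (P (nat_lit 0)) (P (nat_lit 26647936252512)))) (T.h (P (nat_lit 0)) (M (nat_lit 4999931188511))))))) (T.h (T.h (T.h (P (nat_lit 0)) (T.h (P (nat_lit 11963179285475925950464)) (T.h (P (nat_lit 0)) (M (nat_lit 97067009098317823))))) (T.h (P (nat_lit 0)) (T.h (T.h (P (nat_lit 0)) (M (nat_lit 37995606355640319))) (P (nat_lit 0))))) (T.h (T.h (P (nat_lit 0)) (T.h (T.h (P (nat_lit 220896974080049152)) (T.h (P (nat_lit 0)) (P (nat_lit 96406081654456)))) (T.h (P (nat_lit 0)) (M (nat_lit 7665255229367))))) (T.h (T.h (T.h (P (nat_lit 0)) (M (nat_lit 29449097314795519))) (P (nat_lit 0))) (T.h (T.h (P (nat_lit 0)) (M (nat_lit 3552485475551))) (P (nat_lit 0)))))))), (T.h (T.h (T.h (P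 (nat_lit 17186048480389962970581123989504)) (T.h (P (nat_lit 0)) (T.h (P (nat_lit 5165854903960748718817280)) (T.h (P (nat_lit 0)) (T.h (M (nat_lit 14579139269005148159)) (T.h (P (nat_lit 0)) (P (nat_lit 43834524249552)))))))) (T.h (P (nat_lit 0)) (T.h (T.h (P (nat_lit 1030524174758747456929792)) (T.h (P (nat_lit 0)) (T.h (M (nat_lit 23045151358256676863)) (T.h (P (nat_lit 0)) (P (nat_lit 45520902769520)))))) (T.h (P (nat_lit 0)) (T.h (T.h (M (nat_lit 791340047772155903)) (T.h (P (nat_lit 0)) (M (nat_lit 16161360894767)))) (T.h (P (nat_lit 0)) (M (nat_lit 1620225025199)))))))) (T.h (T.h (P (nat_lit 0)) (T.h (T.h (P (nat_lit 0)) (T.h (P (nat_lit 31707492845516186714112)) (T.h (P (nat_lit 0)) (P (nat_lit 105860431028912128))))) (T.h (P (nat_lit 0)) (T.h (T.h (P (nat_lit 0)) (M (nat_lit 17942345083060223))) (P (nat_lit 0)))))) (T.h (T.h (T.h (M (nat_lit 5767479176908533173059583)) (T.h (P (nat_lit 0)) (T.h (P (nat_lit 93173685853035167744)) (T.h (P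 (nat_lit 0)) (M (nat_lit 25655274239343)))))) (T.h (P (nat_lit 0)) (T.h (T.h (P (nat_lit 9059062354263670784)) (T.h (P (nat_lit 0)) (M (nat_lit 69877698233887)))) (T.h (P (nat_lit 0)) (P (nat_lit 1952428219088)))))) (T.h (T.h (P (nat_lit 0)) (T.h (T.h (P (nat_lit 0)) (P (nat_lit 84250871117971456))) (P (nat_lit 0)))) (T.h (T.h (T.h (P (nat_lit 24275567268432183296)) (T.h (P (nat_lit 0)) (M (nat_lit 47859465315983)))) (T.h (P (nat_lit 0)) (M (nat_lit 4261203039183)))) (T.h (P (nat_lit 0)) (P (nat_lit 4712665378400))))))))]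
def lP22_16 : List (T ℤ) := [(T.h (T.h (T.h (P (nat_lit 0)) (T.h (P (nat_lit 5780547317694839156132282368)) (T.h (P (nat_lit 0)) (T.h (M (nat_lit 52333459867568806297599)) (T.h (P (nat_lit 0)) (P (nat_lit 181146448704733184))))))) (T.h (P (nat_lit 0)) (T.h (T.h (P (nat_lit 0)) (T.h (P (nat_lit 21863340973001673801728)) (T.h (P (nat_lit 0)) (M (nat_lit 213134009412911103))))) (T.h (P (nat_lit 0)) (T.h (T.h (P (nat_lit 0)) (M (nat_lit 70505012681048063))) (P (nat_lit 0))))))) (T.h (T.h (P (nat_lit 0)) (T.h (T.h (P (nat_lit 2509986246629006751301632)) (T.h (P (nat_lit 0)) (T.h (M (nat_lit 116447416587535777791)) (T.h (P (nat_lit 0)) (M (nat_lit 18868308943967)))))) (T.h (P (nat_lit 0)) (T.h (T.h (M (nat_lit 13312026751304466431)) (T.h (P (nat_lit 0)) (P (nat_lit 25250882282784)))) (T.h (P (nat_lit 0)) (M (nat_lit 2992795319711))))))) (T.h (T.h (T.h (P (nat_lit 0)) (T.h (P (nat_lit 74301604029433693339648)) (T.h (P (nat_lit 0)) (P (nat_lit 384385848265539584)))))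 (T.h (P (nat_lit 0)) (T.h (T.h (P (nat_lit 0)) (M (nat_lit 149697733790728191))) (P (nat_lit 0))))) (T.h (T.h (P (nat_lit 0)) (T.h (T.h (M (nat_lit 59818567954692308991)) (T.h (P (nat_lit 0)) (M (nat_lit 31298884846943)))) (T.h (P (nat_lit 0)) (M (nat_lit 3254775968975))))) (T.h (T.h (T.h (P (nat_lit 0)) (M (nat_lit 63707590864371711))) (P (nat_lit 0))) (T.h (T.h (P (nat_lit 0)) (P (nat_lit 17328277938624))) (P (nat_lit 0)))))))), (T.h (T.h (T.h (M (nat_lit 8874097368190465477069401751551)) (T.h (P (nat_lit 0)) (T.h (M (nat_lit 4121339715995222885269503)) (T.h (P (nat_lit 0)) (T.h (P (nat_lit 21722730684145991680)) (T.h (P (nat_lit 0)) (M (nat_lit 20331621775151)))))))) (T.h (P (nat_lit 0)) (T.h (T.h (M (nat_lit 5776792262901764982833151)) (T.h (P (nat_lit 0)) (T.h (P (nat_lit 100215459310483800064)) (T.h (P (nat_lit 0)) (M (nat_lit 136831125410927)))))) (T.h (P (nat_lit 0)) (T.h (T.h (P (nat_lit 188052168320745472)) (T.h (P (nat_lit 0)) (M (nat_lit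 18810786049055)))) (T.h (P (nat_lit 0)) (P (nat_lit 2747746866096)))))))) (T.h (T.h (P (nat_lit 0)) (T.h (T.h (P (nat_lit 0)) (T.h (P (nat_lit 44308383528726902603776)) (T.h (P (nat_lit 0)) (P (nat_lit 112796740792713216))))) (T.h (P (nat_lit 0)) (T.h (T.h (P (nat_lit 0)) (M (nat_lit 3320335181676543))) (P (nat_lit 0)))))) (T.h (T.h (T.h (P (nat_lit 56357353692403546963574784)) (T.h (P (nat_lit 0)) (T.h (P (nat_lit 165214448387717332992)) (T.h (P (nat_lit 0)) (P (nat_lit 152917372260864)))))) (T.h (P (nat_lit 0)) (T.h (T.h (P (nat_lit 2920710188275073024)) (T.h (P (nat_lit 0)) (M (nat_lit 70818635992175)))) (T.h (P (nat_lit 0)) (M (nat_lit 34278701036255)))))) (T.h (T.h (P (nat_lit 0)) (T.h (T.h (P (nat_lit 0)) (P (nat_lit 31362473346596864))) (P (nat_lit 0)))) (T.h (T.h (T.h (M (nat_lit 31246944099178119167)) (T.h (P (nat_lit 0)) (M (nat_lit 7423923453119)))) (T.h (P (nat_lit 0)) (P (nat_lit 10226852086896)))) (T.h (P (nat_lit 0)) (M (nat_lit 11897919089711)))))))),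 (T.h (T.h (T.h (P (nat_lit 0)) (T.h (M (nat_lit 1007859841762685177470910463)) (T.h (P (nat_lit 0)) (T.h (M (nat_lit 21797986948526179876863)) (T.h (P (nat_lit 0)) (M (nat_lit 42857691188494335))))))) (T.h (P (nat_lit 0)) (T.h (T.h (P (nat_lit 0)) (T.h (M (nat_lit 29919466348132576526335)) (T.h (P (nat_lit 0)) (P (nat_lit 160446692263854080))))) (T.h (P (nat_lit 0)) (T.h (T.h (P (nat_lit 0)) (P (nat_lit 4561703304200192))) (P (nat_lit 0))))))) (T.h (T.h (P (nat_lit 0)) (T.h (T.h (M (nat_lit 5722141391046098395594751)) (T.h (P (nat_lit 0)) (M (nat_lit 33583577443522838527)))) (T.h (P (nat_lit 0)) (M (nat_lit 5995505179078688767))))) (T.h (T.h (T.h (P (nat_lit 0)) (T.h (M (nat_lit 80977012436612954456063)) (T.h (P (nat_lit 0)) (M (nat_lit 128439185163681791))))) (T.h (P (nat_lit 0)) (T.h (T.h (P (nat_lit 0)) (P (nat_lit 61920453981667328))) (P (nat_lit 0))))) (T.h (T.h (P (nat_lit 0)) (P (nat_lit 19411721668203118592))) (T.h (T.h (T.h (P (nat_lit 0))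 (P (nat_lit 7637635372646400))) (P (nat_lit 0))) (P (nat_lit 0))))))), (P (nat_lit 0)), (P (nat_lit 0)), (T.h (T.h (P (nat_lit 0)) (T.h (T.h (P (nat_lit 10325839095429112767283462144)) (T.h (P (nat_lit 0)) (T.h (M (nat_lit 102040400974397862576127)) (T.h (P (nat_lit 0)) (P (nat_lit 233256223869730816)))))) (T.h (P (nat_lit 0)) (T.h (T.h (M (nat_lit 23347121895935433506815)) (T.h (P (nat_lit 0)) (P (nat_lit 498344816856530944)))) (T.h (P (nat_lit 0)) (P (nat_lit 34008853981396992))))))) (T.h (T.h (T.h (P (nat_lit 0)) (T.h (P (nat_lit 36723158071114076937781248)) (T.h (P (nat_lit 0)) (T.h (M (nat_lit 11707574109595500543)) (T.h (P (nat_lit 0)) (P (nat_lit 161505360049968))))))) (T.h (P (nat_lit 0)) (T.h (T.h (P (nat_lit 0)) (T.h (M (nat_lit 17507187907994058751)) (T.h (P (nat_lit 0)) (P (nat_lit 308999432393296))))) (T.h (P (nat_lit 0)) (T.h (T.h (P (nat_lit 0)) (P (nat_lit 149225130836888))) (P (nat_lit 0))))))) (T.h (T.h (P (nat_lit 0)) (T.h (T.h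 (P (nat_lit 28838031634348434784256)) (T.h (P (nat_lit 0)) (M (nat_lit 136752169682960383)))) (T.h (P (nat_lit 0)) (M (nat_lit 162548584158986239))))) (T.h (T.h (T.h (P (nat_lit 0)) (T.h (M (nat_lit 40371769524537524223)) (T.h (P (nat_lit 0)) (P (nat_lit 37623641876824))))) (T.h (P (nat_lit 0)) (T.h (T.h (P (nat_lit 0)) (M (nat_lit 499156966033311))) (P (nat_lit 0))))) (T.h (T.h (P (nat_lit 0)) (M (nat_lit 54354603769987071))) (T.h (T.h (T.h (P (nat_lit 0)) (M (nat_lit 6640001231327))) (P (nat_lit 0))) (P (nat_lit 0)))))))), (T.h (T.h (P (nat_lit 0)) (T.h (T.h (P (nat_lit 0)) (T.h (P (nat_lit 7085440782410300971286528)) (T.h (P (nat_lit 0)) (T.h (M (nat_lit 192992216273947459583)) (T.h (P (nat_lit 0)) (M (nat_lit 347954802878815))))))) (T.h (P (nat_lit 0)) (T.h (T.h (P (nat_lit 0)) (T.h (M (nat_lit 139189919279736684543)) (T.h (P (nat_lit 0)) (P (nat_lit 11968217176688))))) (T.h (P (nat_lit 0)) (T.h (T.h (P (nat_lit 0)) (M (nat_lit 6856562256479)))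 (P (nat_lit 0)))))))) (T.h (T.h (T.h (P (nat_lit 13486045689689381124416995328)) (T.h (P (nat_lit 0)) (T.h (P (nat_lit 75508913859122119573504)) (T.h (P (nat_lit 0)) (M (nat_lit 52973549007372287)))))) (T.h (P (nat_lit 0)) (T.h (T.h (M (nat_lit 3894668710928202072063)) (T.h (P (nat_lit 0)) (M (nat_lit 993749329930911743)))) (T.h (P (nat_lit 0)) (P (nat_lit 135401649344462848)))))) (T.h (T.h (P (nat_lit 0)) (T.h (T.h (P (nat_lit 0)) (T.h (M (nat_lit 44222692011483856895)) (T.h (P (nat_lit 0)) (P (nat_lit 273709534607184))))) (T.h (P (nat_lit 0)) (T.h (T.h (P (nat_lit 0)) (P (nat_lit 98000281546864))) (P (nat_lit 0)))))) (T.h (T.h (T.h (M (nat_lit 2795115728045980254207)) (T.h (P (nat_lit 0)) (P (nat_lit 390217743366848512)))) (T.h (P (nat_lit 0)) (P (nat_lit 71914844739059712)))) (T.h (T.h (P (nat_lit 0)) (T.h (T.h (P (nat_lit 0)) (P (nat_lit 47631884367696))) (P (nat_lit 0)))) (M (nat_lit 22427009605419007))))))), (T.h (T.h (P (nat_lit 0)) (T.h (T.h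 (M (nat_lit 38324952001104334506296344575)) (T.h (P (nat_lit 0)) (T.h (M (nat_lit 225716239866841779929087)) (T.h (P (nat_lit 0)) (M (nat_lit 984145050285670399)))))) (T.h (P (nat_lit 0)) (T.h (T.h (M (nat_lit 19990819821223489306623)) (T.h (P (nat_lit 0)) (M (nat_lit 501720206482604031)))) (T.h (P (nat_lit 0)) (P (nat_lit 22824189637558272))))))) (T.h (T.h (T.h (P (nat_lit 0)) (T.h (M (nat_lit 111323794409892549499027455)) (T.h (P (nat_lit 0)) (T.h (M (nat_lit 933049847679014666239)) (T.h (P (nat_lit 0)) (M (nat_lit 187828558549151))))))) (T.h (P (nat_lit 0)) (T.h (T.h (P (nat_lit 0)) (T.h (P (nat_lit 191803984242922225664)) (T.h (P (nat_lit 0)) (M (nat_lit 358160341235375))))) (T.h (P (nat_lit 0)) (T.h (T.h (P (nat_lit 0)) (M (nat_lit 173879231278847))) (P (nat_lit 0))))))) (T.h (T.h (P (nat_lit 0)) (T.h (T.h (M (nat_lit 7977776092984352178175)) (T.h (P (nat_lit 0)) (P (nat_lit 70945528688017408)))) (T.h (P (nat_lit 0)) (M (nat_lit 44226226114723839)))))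 (T.h (T.h (T.h (P (nat_lit 0)) (T.h (M (nat_lit 389624206748337307647)) (T.h (P (nat_lit 0)) (P (nat_lit 236215764371712))))) (T.h (P (nat_lit 0)) (T.h (T.h (P (nat_lit 0)) (P (nat_lit 132767430772272))) (P (nat_lit 0))))) (T.h (T.h (P (nat_lit 0)) (M (nat_lit 59482841730482175))) (T.h (T.h (T.h (P (nat_lit 0)) (P (nat_lit 33551059161936))) (P (nat_lit 0))) (P (nat_lit 0))))))))]
def lP22_17 : List (T ℤ) := [(T.h (T.h (P (nat_lit 0)) (T.h (T.h (P (nat_lit 0)) (T.h (M (nat_lit 49148449090598688213958655)) (T.h (P (nat_lit 0)) (T.h (M (nat_lit 258626869237087469567)) (T.h (P (nat_lit 0)) (P (nat_lit 398698104248784))))))) (T.h (P (nat_lit 0)) (T.h (T.h (P (nat_lit 0)) (T.h (P (nat_lit 233637798844523610112)) (T.h (P (nat_lit 0)) (M (nat_lit 56055365580095))))) (T.h (P (nat_lit 0)) (T.h (T.h (P (nat_lit 0)) (P (nat_lit 2347361614368))) (P (nat_lit 0)))))))) (T.h (T.h (T.h (M (nat_lit 2624090554511444384514310143)) (T.h (P (nat_lit 0)) (T.h (M (nat_lit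 185896674665524203880447)) (T.h (P (nat_lit 0)) (P (nat_lit 679455333394546688)))))) (T.h (P (nat_lit 0)) (T.h (T.h (M (nat_lit 31917601046396844113919)) (T.h (P (nat_lit 0)) (P (nat_lit 508741842077696000)))) (T.h (P (nat_lit 0)) (P (nat_lit 87313692010512384)))))) (T.h (T.h (P (nat_lit 0)) (T.h (T.h (P (nat_lit 0)) (T.h (M (nat_lit 109289342256252190719)) (T.h (P (nat_lit 0)) (P (nat_lit 322932605416272))))) (T.h (P (nat_lit 0)) (T.h (T.h (P (nat_lit 0)) (P (nat_lit 91909288089792))) (P (nat_lit 0)))))) (T.h (T.h (T.h (P (nat_lit 8236358663384764252160)) (T.h (P (nat_lit 0)) (M (nat_lit 917637707330060287)))) (T.h (P (nat_lit 0)) (P (nat_lit 4966486854533120)))) (T.h (T.h (P (nat_lit 0)) (T.h (T.h (P (nat_lit 0)) (M (nat_lit 195327349909631))) (P (nat_lit 0)))) (M (nat_lit 8529320267366399))))))), (T.h (T.h (P (nat_lit 0)) (T.h (T.h (M (nat_lit 3872263150308463937371242495)) (T.h (P (nat_lit 0)) (T.h (P (nat_lit 210187500718093953400832)) (T.h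 (P (nat_lit 0)) (M (nat_lit 472121916617293823)))))) (T.h (P (nat_lit 0)) (T.h (T.h (P (nat_lit 16517076005188825776128)) (T.h (P (nat_lit 0)) (P (nat_lit 39013912992251904)))) (T.h (P (nat_lit 0)) (M (nat_lit 10111956601995263))))))) (T.h (T.h (T.h (P (nat_lit 0)) (T.h (P (nat_lit 13771601041747620554342400)) (T.h (P (nat_lit 0)) (M (nat_lit 451751048473412108287))))) (T.h (P (nat_lit 0)) (T.h (T.h (P (nat_lit 0)) (M (nat_lit 119147941505997471743))) (P (nat_lit 0))))) (T.h (T.h (P (nat_lit 0)) (T.h (T.h (M (nat_lit 11167772059254816505855)) (T.h (P (nat_lit 0)) (M (nat_lit 237350613352972287)))) (T.h (P (nat_lit 0)) (P (nat_lit 68869295065792512))))) (T.h (T.h (T.h (P (nat_lit 0)) (P (nat_lit 370602560408518656000))) (P (nat_lit 0))) (T.h (T.h (P (nat_lit 0)) (P (nat_lit 10662414417920000))) (P (nat_lit 0))))))), (P (nat_lit 0)), (P (nat_lit 0)), (T.h (T.h (T.h (P (nat_lit 0)) (T.h (P (nat_lit 14278752545302595397457281024)) (T.h (P (nat_lit 0))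 (T.h (M (nat_lit 20998483959028232749055)) (T.h (P (nat_lit 0)) (M (nat_lit 3056444827533311))))))) (T.h (P (nat_lit 0)) (T.h (T.h (P (nat_lit 0)) (T.h (M (nat_lit 44275768650990752890879)) (T.h (P (nat_lit 0)) (P (nat_lit 172420659023511552))))) (T.h (P (nat_lit 0)) (T.h (T.h (P (nat_lit 0)) (P (nat_lit 16761049637093376))) (P (nat_lit 0))))))) (T.h (T.h (P (nat_lit 0)) (T.h (T.h (M (nat_lit 33260516545734121384574975)) (T.h (P (nat_lit 0)) (T.h (M (nat_lit 599009681001056043007)) (T.h (P (nat_lit 0)) (M (nat_lit 201121921056575)))))) (T.h (P (nat_lit 0)) (T.h (T.h (P (nat_lit 36900960490852712448)) (T.h (P (nat_lit 0)) (P (nat_lit 456731647457936)))) (T.h (P (nat_lit 0)) (P (nat_lit 162856745037048))))))) (T.h (T.h (T.h (P (nat_lit 0)) (T.h (M (nat_lit 26587894600553000337407)) (T.h (P (nat_lit 0)) (M (nat_lit 99343303046987775))))) (T.h (P (nat_lit 0)) (T.h (T.h (P (nat_lit 0)) (P (nat_lit 365983832700256256))) (P (nat_lit 0))))) (T.h (T.h (P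 (nat_lit 0)) (T.h (T.h (M (nat_lit 62543238470354075647)) (T.h (P (nat_lit 0)) (M (nat_lit 347842490566887)))) (T.h (P (nat_lit 0)) (M (nat_lit 17783705421671))))) (T.h (T.h (T.h (P (nat_lit 0)) (P (nat_lit 64078250146168832))) (P (nat_lit 0))) (T.h (T.h (P (nat_lit 0)) (P (nat_lit 721848616872))) (P (nat_lit 0)))))))), (T.h (T.h (T.h (P (nat_lit 22032026419389384402761655779328)) (T.h (P (nat_lit 0)) (T.h (M (nat_lit 663153566823727851634687)) (T.h (P (nat_lit 0)) (T.h (P (nat_lit 10808579313234870272)) (T.h (P (nat_lit 0)) (P (nat_lit 19537263737616)))))))) (T.h (P (nat_lit 0)) (T.h (T.h (M (nat_lit 17644813415182091818106879)) (T.h (P (nat_lit 0)) (T.h (P (nat_lit 65035715147429052416)) (T.h (P (nat_lit 0)) (M (nat_lit 117008043874271)))))) (T.h (P (nat_lit 0)) (T.h (T.h (P (nat_lit 37567520307754827776)) (T.h (P (nat_lit 0)) (M (nat_lit 133718572415999)))) (T.h (P (nat_lit 0)) (M (nat_lit 8951155852031)))))))) (T.h (T.h (P (nat_lit 0)) (T.h (T.h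 (P (nat_lit 0)) (T.h (P (nat_lit 1494811216436782956544)) (T.h (P (nat_lit 0)) (M (nat_lit 34408057877266431))))) (T.h (P (nat_lit 0)) (T.h (T.h (P (nat_lit 0)) (P (nat_lit 67105017029525504))) (P (nat_lit 0)))))) (T.h (T.h (T.h (M (nat_lit 10846810063514811188117503)) (T.h (P (nat_lit 0)) (T.h (M (nat_lit 51183122063862792191)) (T.h (P (nat_lit 0)) (M (nat_lit 45831866865407)))))) (T.h (P (nat_lit 0)) (T.h (T.h (P (nat_lit 7383682253127155712)) (T.h (P (nat_lit 0)) (M (nat_lit 23507951099487)))) (T.h (P (nat_lit 0)) (M (nat_lit 100217063513375)))))) (T.h (T.h (P (nat_lit 0)) (T.h (T.h (P (nat_lit 0)) (M (nat_lit 35088199171506175))) (P (nat_lit 0)))) (T.h (T.h (T.h (P (nat_lit 12500612991550488576)) (T.h (P (nat_lit 0)) (M (nat_lit 102020467994783)))) (T.h (P (nat_lit 0)) (M (nat_lit 94003432255103)))) (T.h (P (nat_lit 0)) (M (nat_lit 15284046255631)))))))), (T.h (T.h (T.h (P (nat_lit 0)) (T.h (M (nat_lit 32904838678025222514974654463)) (T.h (P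 (nat_lit 0)) (T.h (P (nat_lit 230623321736917653913600)) (T.h (P (nat_lit 0)) (P (nat_lit 605889743037169664))))))) (T.h (P (nat_lit 0)) (T.h (T.h (P (nat_lit 0)) (T.h (M (nat_lit 569524322453197634404351)) (T.h (P (nat_lit 0)) (M (nat_lit 841040843064377343))))) (T.h (P (nat_lit 0)) (T.h (T.h (P (nat_lit 0)) (M (nat_lit 164508673474199551))) (P (nat_lit 0))))))) (T.h (T.h (P (nat_lit 0)) (T.h (T.h (P (nat_lit 30679117521454634350149632)) (T.h (P (nat_lit 0)) (T.h (P (nat_lit 909480425701685329920)) (T.h (P (nat_lit 0)) (P (nat_lit 98202852104064)))))) (T.h (P (nat_lit 0)) (T.h (T.h (M (nat_lit 123536000743622311935)) (T.h (P (nat_lit 0)) (M (nat_lit 98435914191599)))) (T.h (P (nat_lit 0)) (M (nat_lit 82313255619695))))))) (T.h (T.h (T.h (P (nat_lit 0)) (T.h (P (nat_lit 51579858231777065697280)) (T.h (P (nat_lit 0)) (P (nat_lit 242030354644992000))))) (T.h (P (nat_lit 0)) (T.h (T.h (P (nat_lit 0)) (M (nat_lit 383777710999011327))) (P (nat_lit 0)))))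 (T.h (T.h (P (nat_lit 0)) (T.h (T.h (P (nat_lit 367868479617498087424)) (T.h (P (nat_lit 0)) (M (nat_lit 41886147061871)))) (T.h (P (nat_lit 0)) (P (nat_lit 60989033757360))))) (T.h (T.h (T.h (P (nat_lit 0)) (P (nat_lit 93780380375121920))) (P (nat_lit 0))) (T.h (T.h (P (nat_lit 0)) (M (nat_lit 102634328878031))) (P (nat_lit 0)))))))), (T.h (T.h (T.h (P (nat_lit 19347335837551506643391457787904)) (T.h (P (nat_lit 0)) (T.h (M (nat_lit 159468951994826349111934975)) (T.h (P (nat_lit 0)) (T.h (P (nat_lit 464165310918098419712)) (T.h (P (nat_lit 0)) (P (nat_lit 333169098285744)))))))) (T.h (P (nat_lit 0)) (T.h (T.h (P (nat_lit 38697378061273282518188032)) (T.h (P (nat_lit 0)) (T.h (M (nat_lit 112659060996140171263)) (T.h (P (nat_lit 0)) (M (nat_lit 4342901915231)))))) (T.h (P (nat_lit 0)) (T.h (T.h (M (nat_lit 635823466020339711)) (T.h (P (nat_lit 0)) (P (nat_lit 18915543430272)))) (T.h (P (nat_lit 0)) (P (nat_lit 31878738175680)))))))) (T.h (T.h (P (nat_lit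 0)) (T.h (T.h (P (nat_lit 0)) (T.h (M (nat_lit 648060356319322690289663)) (T.h (P (nat_lit 0)) (P (nat_lit 103613129585426432))))) (T.h (P (nat_lit 0)) (T.h (T.h (P (nat_lit 0)) (P (nat_lit 516668073069379584))) (P (nat_lit 0)))))) (T.h (T.h (T.h (M (nat_lit 23436767894032029428219903)) (T.h (P (nat_lit 0)) (T.h (M (nat_lit 177658050073373704191)) (T.h (P (nat_lit 0)) (M (nat_lit 294091399587023)))))) (T.h (P (nat_lit 0)) (T.h (T.h (P (nat_lit 452359433986062155776)) (T.h (P (nat_lit 0)) (M (nat_lit 14269426041743)))) (T.h (P (nat_lit 0)) (P (nat_lit 87742494175680)))))) (T.h (T.h (P (nat_lit 0)) (T.h (T.h (P (nat_lit 0)) (P (nat_lit 481985264541106176))) (P (nat_lit 0)))) (T.h (T.h (T.h (P (nat_lit 30799172801478524928)) (T.h (P (nat_lit 0)) (P (nat_lit 7528680834336)))) (T.h (P (nat_lit 0)) (P (nat_lit 43236941052528)))) (T.h (P (nat_lit 0)) (P (nat_lit 46524404131488))))))))]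
def lP22_18 : List (T ℤ) := [(T.h (T.h (T.h (P (nat_lit 0)) (T.h (P (nat_lit 1359415713603641114441547776)) (T.h (P (nat_lit 0)) (T.h (M (nat_lit 100957978358762012934143)) (T.h (P (nat_lit 0)) (M (nat_lit 565721680629858303))))))) (T.h (P (nat_lit 0)) (T.h (T.h (P (nat_lit 0)) (T.h (P (nat_lit 165431742148911250276352)) (T.h (P (nat_lit 0)) (M (nat_lit 67164934254133247))))) (T.h (P (nat_lit 0)) (T.h (T.h (P (nat_lit 0)) (P (nat_lit 37167668190281728))) (P (nat_lit 0))))))) (T.h (T.h (P (nat_lit 0)) (T.h (T.h (P (nat_lit 31566637270320121059999744)) (T.h (P (nat_lit 0)) (P (nat_lit 25261919675590115328)))) (T.h (P (nat_lit 0)) (M (nat_lit 40736780318343692287))))) (T.h (T.h (T.h (P (nat_lit 0)) (T.h (P (nat_lit 216489288237391628206080)) (T.h (P (nat_lit 0)) (P (nat_lit 221720943173402624))))) (T.h (P (nat_lit 0)) (T.h (T.h (P (nat_lit 0)) (M (nat_lit 148682746199048191))) (P (nat_lit 0))))) (T.h (T.h (P (nat_lit 0)) (M (nat_lit 66144007165625499647)))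 (T.h (T.h (T.h (P (nat_lit 0)) (P (nat_lit 34091736121835520))) (P (nat_lit 0))) (P (nat_lit 0))))))), (P (nat_lit 0)), (P (nat_lit 0)), (T.h (T.h (P (nat_lit 0)) (T.h (T.h (M (nat_lit 118319132035971919053324287)) (T.h (P (nat_lit 0)) (T.h (M (nat_lit 35259625543708186771455)) (T.h (P (nat_lit 0)) (P (nat_lit 73761685636710400)))))) (T.h (P (nat_lit 0)) (T.h (T.h (M (nat_lit 80520817602612053409791)) (T.h (P (nat_lit 0)) (M (nat_lit 70059084303761407)))) (T.h (P (nat_lit 0)) (P (nat_lit 85993269434843136))))))) (T.h (T.h (T.h (P (nat_lit 0)) (T.h (M (nat_lit 23862860373432479602704383)) (T.h (P (nat_lit 0)) (T.h (M (nat_lit 19349078975740641279)) (T.h (P (nat_lit 0)) (P (nat_lit 37257255595392))))))) (T.h (P (nat_lit 0)) (T.h (T.h (P (nat_lit 0)) (T.h (M (nat_lit 822926921928670183423)) (T.h (P (nat_lit 0)) (M (nat_lit 11503739524359))))) (T.h (P (nat_lit 0)) (T.h (T.h (P (nat_lit 0)) (M (nat_lit 103791922272959))) (P (nat_lit 0))))))) (T.h (T.h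 (P (nat_lit 0)) (T.h (T.h (M (nat_lit 35259625543708186771455)) (T.h (P (nat_lit 0)) (P (nat_lit 233378147470082048)))) (T.h (P (nat_lit 0)) (M (nat_lit 70059084303761407))))) (T.h (T.h (T.h (P (nat_lit 0)) (T.h (M (nat_lit 19349078975740641279)) (T.h (P (nat_lit 0)) (M (nat_lit 92774887246319))))) (T.h (P (nat_lit 0)) (T.h (T.h (P (nat_lit 0)) (M (nat_lit 11503739524359))) (P (nat_lit 0))))) (T.h (T.h (P (nat_lit 0)) (P (nat_lit 73761685636710400))) (T.h (T.h (T.h (P (nat_lit 0)) (P (nat_lit 37257255595392))) (P (nat_lit 0))) (P (nat_lit 0)))))))), (T.h (T.h (P (nat_lit 0)) (T.h (T.h (P (nat_lit 0)) (T.h (M (nat_lit 18104529234598034365480959)) (T.h (P (nat_lit 0)) (T.h (M (nat_lit 342750232213628911615)) (T.h (P (nat_lit 0)) (P (nat_lit 11828458486864))))))) (T.h (P (nat_lit 0)) (T.h (T.h (P (nat_lit 0)) (T.h (M (nat_lit 483536738113462206463)) (T.h (P (nat_lit 0)) (M (nat_lit 407645324492543))))) (T.h (P (nat_lit 0)) (T.h (T.h (P (nat_lit 0))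 (P (nat_lit 4501068401936))) (P (nat_lit 0)))))))) (T.h (T.h (T.h (P (nat_lit 22422369025759376930156576768)) (T.h (P (nat_lit 0)) (T.h (M (nat_lit 3633777247198442946559)) (T.h (P (nat_lit 0)) (P (nat_lit 230717039266758656)))))) (T.h (P (nat_lit 0)) (T.h (T.h (P (nat_lit 76776786994339017392128)) (T.h (P (nat_lit 0)) (M (nat_lit 955165724419751935)))) (T.h (P (nat_lit 0)) (P (nat_lit 166631489530445824)))))) (T.h (T.h (P (nat_lit 0)) (T.h (T.h (P (nat_lit 0)) (T.h (M (nat_lit 65875113286962249727)) (T.h (P (nat_lit 0)) (P (nat_lit 138298531161408))))) (T.h (P (nat_lit 0)) (T.h (T.h (P (nat_lit 0)) (P (nat_lit 302448598904144))) (P (nat_lit 0)))))) (T.h (T.h (T.h (M (nat_lit 6087368376591455354879)) (T.h (P (nat_lit 0)) (P (nat_lit 121172382671339520)))) (T.h (P (nat_lit 0)) (P (nat_lit 425623869941825536)))) (T.h (T.h (P (nat_lit 0)) (T.h (T.h (P (nat_lit 0)) (P (nat_lit 245254089850128))) (P (nat_lit 0)))) (M (nat_lit 24736586224271359))))))),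 (T.h (T.h (P (nat_lit 0)) (T.h (T.h (M (nat_lit 55975877746925841019628945407)) (T.h (P (nat_lit 0)) (T.h (M (nat_lit 545918331871671131045887)) (T.h (P (nat_lit 0)) (P (nat_lit 657400352911032320)))))) (T.h (P (nat_lit 0)) (T.h (T.h (P (nat_lit 87364782547505235623936)) (T.h (P (nat_lit 0)) (M (nat_lit 1007081889253851135)))) (T.h (P (nat_lit 0)) (P (nat_lit 105743219492356096))))))) (T.h (T.h (T.h (P (nat_lit 0)) (T.h (M (nat_lit 18011779666298668056575999)) (T.h (P (nat_lit 0)) (T.h (P (nat_lit 242110219074574221312)) (T.h (P (nat_lit 0)) (M (nat_lit 77197425297551))))))) (T.h (P (nat_lit 0)) (T.h (T.h (P (nat_lit 0)) (T.h (P (nat_lit 892114938688845119488)) (T.h (P (nat_lit 0)) (M (nat_lit 134419607513615))))) (T.h (P (nat_lit 0)) (T.h (T.h (P (nat_lit 0)) (P (nat_lit 290585851305696))) (P (nat_lit 0))))))) (T.h (T.h (P (nat_lit 0)) (T.h (T.h (P (nat_lit 213233816650005486764032)) (T.h (P (nat_lit 0)) (M (nat_lit 715153917534207999)))) (T.h (P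 (nat_lit 0)) (M (nat_lit 599423486802100223))))) (T.h (T.h (T.h (P (nat_lit 0)) (T.h (P (nat_lit 470499440144615997440)) (T.h (P (nat_lit 0)) (P (nat_lit 50742460536192))))) (T.h (P (nat_lit 0)) (T.h (T.h (P (nat_lit 0)) (M (nat_lit 78842267400671))) (P (nat_lit 0))))) (T.h (T.h (P (nat_lit 0)) (P (nat_lit 203169303379476480))) (T.h (T.h (T.h (P (nat_lit 0)) (M (nat_lit 99964171714655))) (P (nat_lit 0))) (P (nat_lit 0)))))))), (T.h (T.h (P (nat_lit 0)) (T.h (T.h (P (nat_lit 0)) (T.h (M (nat_lit 136075761118814041045729279)) (T.h (P (nat_lit 0)) (T.h (P (nat_lit 392321056459123064832)) (T.h (P (nat_lit 0)) (P (nat_lit 755771081354496))))))) (T.h (P (nat_lit 0)) (T.h (T.h (P (nat_lit 0)) (T.h (P (nat_lit 14588165752864374784)) (T.h (P (nat_lit 0)) (P (nat_lit 257353026753168))))) (T.h (P (nat_lit 0)) (T.h (T.h (P (nat_lit 0)) (P (nat_lit 184186808190864))) (P (nat_lit 0)))))))) (T.h (T.h (T.h (M (nat_lit 11643964207393972780093407231)) (T.h (P (nat_lit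 0)) (T.h (M (nat_lit 153061734562480164700159)) (T.h (P (nat_lit 0)) (P (nat_lit 240888816312598528)))))) (T.h (P (nat_lit 0)) (T.h (T.h (M (nat_lit 184712720798997071003647)) (T.h (P (nat_lit 0)) (P (nat_lit 101493264872374272)))) (T.h (P (nat_lit 0)) (M (nat_lit 42480007429734399)))))) (T.h (T.h (P (nat_lit 0)) (T.h (T.h (P (nat_lit 0)) (T.h (P (nat_lit 617493427888091824128)) (T.h (P (nat_lit 0)) (M (nat_lit 962641220489135))))) (T.h (P (nat_lit 0)) (T.h (T.h (P (nat_lit 0)) (M (nat_lit 693522614239631))) (P (nat_lit 0)))))) (T.h (T.h (T.h (M (nat_lit 29396462670571011833855)) (T.h (P (nat_lit 0)) (P (nat_lit 153120127768805376)))) (T.h (P (nat_lit 0)) (P (nat_lit 180087968380207104)))) (T.h (T.h (P (nat_lit 0)) (T.h (T.h (P (nat_lit 0)) (M (nat_lit 674888095672991))) (P (nat_lit 0)))) (M (nat_lit 20449760499122175))))))), (T.h (T.h (P (nat_lit 0)) (T.h (T.h (M (nat_lit 10332317721075008077777862655)) (T.h (P (nat_lit 0)) (T.h (P (nat_lit 41336827440789672951808))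 (T.h (P (nat_lit 0)) (M (nat_lit 745646519678468095)))))) (T.h (P (nat_lit 0)) (T.h (T.h (P (nat_lit 91561267103775804358656)) (T.h (P (nat_lit 0)) (M (nat_lit 150279331710074879)))) (T.h (P (nat_lit 0)) (M (nat_lit 87386252056297471))))))) (T.h (T.h (T.h (P (nat_lit 0)) (T.h (M (nat_lit 107976093531274162189893631)) (T.h (P (nat_lit 0)) (M (nat_lit 195095051702701654015))))) (T.h (P (nat_lit 0)) (T.h (T.h (P (nat_lit 0)) (M (nat_lit 25873580517549408255))) (P (nat_lit 0))))) (T.h (T.h (P (nat_lit 0)) (T.h (T.h (M (nat_lit 345733927545194663641087)) (T.h (P (nat_lit 0)) (P (nat_lit 735919516248211456)))) (T.h (P (nat_lit 0)) (P (nat_lit 23341083355873280))))) (T.h (T.h (T.h (P (nat_lit 0)) (M (nat_lit 205673814371149545471))) (P (nat_lit 0))) (T.h (T.h (P (nat_lit 0)) (P (nat_lit 201968806608044032))) (P (nat_lit 0)))))))]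
def lP22_19 : List (T ℤ) := [(P (nat_lit 0)), (T.h (T.h (T.h (P (nat_lit 0)) (T.h (P (nat_lit 14269134643526864158614093824)) (T.h (P (nat_lit 0)) (T.h (P (nat_lit 7967390448646252134400)) (T.h (P (nat_lit 0)) (P (nat_lit 380968898691072))))))) (T.h (P (nat_lit 0)) (T.h (T.h (P (nat_lit 0)) (T.h (M (nat_lit 27471635030742633807871)) (T.h (P (nat_lit 0)) (P (nat_lit 107764172307333120))))) (T.h (P (nat_lit 0)) (T.h (T.h (P (nat_lit 0)) (P (nat_lit 43677374260051968))) (P (nat_lit 0))))))) (T.h (T.h (P (nat_lit 0)) (T.h (T.h (P (nat_lit 18465344014479985616093184)) (T.h (P (nat_lit 0)) (T.h (P (nat_lit 6342422112648560640)) (T.h (P (nat_lit 0)) (P (nat_lit 53825143441704)))))) (T.h (P (nat_lit 0)) (T.h (T.h (M (nat_lit 68835595945469018111)) (T.h (P (nat_lit 0)) (M (nat_lit 316972010861575)))) (T.h (P (nat_lit 0)) (P (nat_lit 89022642699632))))))) (T.h (T.h (T.h (P (nat_lit 0)) (T.h (M (nat_lit 9636943539543870537727)) (T.h (P (nat_lit 0)) (P (nat_lit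 1921388020072448))))) (T.h (P (nat_lit 0)) (T.h (T.h (P (nat_lit 0)) (M (nat_lit 45498791329431551))) (P (nat_lit 0))))) (T.h (T.h (P (nat_lit 0)) (T.h (T.h (M (nat_lit 34605755205232361471)) (T.h (P (nat_lit 0)) (M (nat_lit 60088718014791)))) (T.h (P (nat_lit 0)) (M (nat_lit 131871204228983))))) (T.h (T.h (T.h (P (nat_lit 0)) (M (nat_lit 34878434534850559))) (P (nat_lit 0))) (T.h (T.h (P (nat_lit 0)) (P (nat_lit 8726481011648))) (P (nat_lit 0)))))))), (T.h (T.h (T.h (P (nat_lit 20481534004357375909785646399488)) (T.h (P (nat_lit 0)) (T.h (M (nat_lit 3048943766179661630930943)) (T.h (P (nat_lit 0)) (T.h (P (nat_lit 23984382340052811776)) (T.h (P (nat_lit 0)) (P (nat_lit 3880733577328)))))))) (T.h (P (nat_lit 0)) (T.h (T.h (P (nat_lit 24116372578869785672024064)) (T.h (P (nat_lit 0)) (T.h (P (nat_lit 13802829473982185472)) (T.h (P (nat_lit 0)) (M (nat_lit 39970268457311)))))) (T.h (P (nat_lit 0)) (T.h (T.h (M (nat_lit 4466592332782764031)) (T.h (P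 (nat_lit 0)) (P (nat_lit 32928861213792)))) (T.h (P (nat_lit 0)) (P (nat_lit 67190463160224)))))))) (T.h (T.h (P (nat_lit 0)) (T.h (T.h (P (nat_lit 0)) (T.h (P (nat_lit 19833274399330779791360)) (T.h (P (nat_lit 0)) (P (nat_lit 83733132125143040))))) (T.h (P (nat_lit 0)) (T.h (T.h (P (nat_lit 0)) (M (nat_lit 17099801487409151))) (P (nat_lit 0)))))) (T.h (T.h (T.h (M (nat_lit 3048943766179661630930943)) (T.h (P (nat_lit 0)) (T.h (P (nat_lit 14717600896670236672)) (T.h (P (nat_lit 0)) (P (nat_lit 1548276184992)))))) (T.h (P (nat_lit 0)) (T.h (T.h (P (nat_lit 13802829473982185472)) (T.h (P (nat_lit 0)) (M (nat_lit 47015902198975)))) (T.h (P (nat_lit 0)) (P (nat_lit 32928861213792)))))) (T.h (T.h (P (nat_lit 0)) (T.h (T.h (P (nat_lit 0)) (P (nat_lit 83733132125143040))) (P (nat_lit 0)))) (T.h (T.h (T.h (P (nat_lit 23984382340052811776)) (T.h (P (nat_lit 0)) (P (nat_lit 1548276184992)))) (T.h (P (nat_lit 0)) (M (nat_lit 39970268457311)))) (T.h (P (nat_lit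 0)) (P (nat_lit 3880733577328)))))))), (T.h (T.h (T.h (P (nat_lit 0)) (T.h (M (nat_lit 17615004041375262466134507519)) (T.h (P (nat_lit 0)) (T.h (M (nat_lit 129295660143229062348799)) (T.h (P (nat_lit 0)) (P (nat_lit 7889633875230720))))))) (T.h (P (nat_lit 0)) (T.h (T.h (P (nat_lit 0)) (T.h (P (nat_lit 238071711623405765656576)) (T.h (P (nat_lit 0)) (M (nat_lit 1346142216951136255))))) (T.h (P (nat_lit 0)) (T.h (T.h (P (nat_lit 0)) (M (nat_lit 174905089141735423))) (P (nat_lit 0))))))) (T.h (T.h (P (nat_lit 0)) (T.h (T.h (M (nat_lit 85696567655514798834057215)) (T.h (P (nat_lit 0)) (T.h (M (nat_lit 29837369592751587327)) (T.h (P (nat_lit 0)) (M (nat_lit 130514897064239)))))) (T.h (P (nat_lit 0)) (T.h (T.h (P (nat_lit 257694155673815744512)) (T.h (P (nat_lit 0)) (M (nat_lit 412419362082719)))) (T.h (P (nat_lit 0)) (M (nat_lit 65793922930175))))))) (T.h (T.h (T.h (P (nat_lit 0)) (T.h (P (nat_lit 100033827551878204882944)) (T.h (P (nat_lit 0)) (M (nat_lit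 4358388351205375))))) (T.h (P (nat_lit 0)) (T.h (T.h (P (nat_lit 0)) (M (nat_lit 474806415359246335))) (P (nat_lit 0))))) (T.h (T.h (P (nat_lit 0)) (T.h (T.h (M (nat_lit 470033679047496564735)) (T.h (P (nat_lit 0)) (P (nat_lit 121045113501696)))) (T.h (P (nat_lit 0)) (P (nat_lit 209440073796384))))) (T.h (T.h (T.h (P (nat_lit 0)) (M (nat_lit 48504213693825023))) (P (nat_lit 0))) (T.h (T.h (P (nat_lit 0)) (P (nat_lit 31916731158624))) (P (nat_lit 0)))))))), (T.h (T.h (T.h (P (nat_lit 29397274956914117545857438973952)) (T.h (P (nat_lit 0)) (T.h (M (nat_lit 17999128066405266125488127)) (T.h (P (nat_lit 0)) (T.h (M (nat_lit 190714827476958183423)) (T.h (P (nat_lit 0)) (M (nat_lit 79539795851759)))))))) (T.h (P (nat_lit 0)) (T.h (T.h (M (nat_lit 133255772454998449303060479)) (T.h (P (nat_lit 0)) (T.h (M (nat_lit 566570040392941567999)) (T.h (P (nat_lit 0)) (P (nat_lit 56565545091696)))))) (T.h (P (nat_lit 0)) (T.h (T.h (P (nat_lit 229204133552031006720))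 (T.h (P (nat_lit 0)) (M (nat_lit 131633562907295)))) (T.h (P (nat_lit 0)) (P (nat_lit 211268465072064)))))))) (T.h (T.h (P (nat_lit 0)) (T.h (T.h (P (nat_lit 0)) (T.h (M (nat_lit 881664639651964837167103)) (T.h (P (nat_lit 0)) (P (nat_lit 213983858607128576))))) (T.h (P (nat_lit 0)) (T.h (T.h (P (nat_lit 0)) (M (nat_lit 414499192345853951))) (P (nat_lit 0)))))) (T.h (T.h (T.h (M (nat_lit 14021601366091200968261631)) (T.h (P (nat_lit 0)) (T.h (P (nat_lit 416910367914010345472)) (T.h (P (nat_lit 0)) (P (nat_lit 125717193105984)))))) (T.h (P (nat_lit 0)) (T.h (T.h (M (nat_lit 327637555096494014463)) (T.h (P (nat_lit 0)) (P (nat_lit 470452994409888)))) (T.h (P (nat_lit 0)) (M (nat_lit 98314359801839)))))) (T.h (T.h (P (nat_lit 0)) (T.h (T.h (P (nat_lit 0)) (P (nat_lit 649524670168760320))) (P (nat_lit 0)))) (T.h (T.h (T.h (P (nat_lit 23386002690976776192)) (T.h (P (nat_lit 0)) (P (nat_lit 135757685418624)))) (T.h (P (nat_lit 0)) (P (nat_lit 99925240509792))))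 (T.h (P (nat_lit 0)) (P (nat_lit 41881434673104)))))))), (T.h (T.h (T.h (P (nat_lit 0)) (T.h (P (nat_lit 13301083954609772505539280896)) (T.h (P (nat_lit 0)) (T.h (P (nat_lit 141720753586842533625856)) (T.h (P (nat_lit 0)) (M (nat_lit 65329990424068095))))))) (T.h (P (nat_lit 0)) (T.h (T.h (P (nat_lit 0)) (T.h (P (nat_lit 589225269835927444783104)) (T.h (P (nat_lit 0)) (M (nat_lit 184549199889006591))))) (T.h (P (nat_lit 0)) (T.h (T.h (P (nat_lit 0)) (M (nat_lit 37379241387458559))) (P (nat_lit 0))))))) (T.h (T.h (P (nat_lit 0)) (T.h (T.h (M (nat_lit 63810644508943599638937599)) (T.h (P (nat_lit 0)) (P (nat_lit 157109970769566236672)))) (T.h (P (nat_lit 0)) (P (nat_lit 77566262738585387008))))) (T.h (T.h (T.h (P (nat_lit 0)) (T.h (M (nat_lit 336160875623036496117759)) (T.h (P (nat_lit 0)) (P (nat_lit 50015102462754816))))) (T.h (P (nat_lit 0)) (T.h (T.h (P (nat_lit 0)) (P (nat_lit 331598655029673984))) (P (nat_lit 0))))) (T.h (T.h (P (nat_lit 0))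 (M (nat_lit 247544084512351715327))) (T.h (T.h (T.h (P (nat_lit 0)) (P (nat_lit 159861587838763008))) (P (nat_lit 0))) (P (nat_lit 0))))))), (T.h (T.h (P (nat_lit 0)) (T.h (T.h (M (nat_lit 5759271470269521065423142911)) (T.h (P (nat_lit 0)) (T.h (P (nat_lit 2781654216421851267072)) (T.h (P (nat_lit 0)) (M (nat_lit 1986962158813183)))))) (T.h (P (nat_lit 0)) (T.h (T.h (P (nat_lit 5469803030520608587776)) (T.h (P (nat_lit 0)) (M (nat_lit 468974644527103)))) (T.h (P (nat_lit 0)) (M (nat_lit 206113574879231))))))) (T.h (T.h (T.h (P (nat_lit 0)) (T.h (P (nat_lit 4204261618133833938370560)) (T.h (P (nat_lit 0)) (T.h (M (nat_lit 279505857551532031)) (T.h (P (nat_lit 0)) (P (nat_lit 251898760536))))))) (T.h (P (nat_lit 0)) (T.h (T.h (P (nat_lit 0)) (T.h (M (nat_lit 22564888246348677119)) (T.h (P (nat_lit 0)) (M (nat_lit 23848727315007))))) (T.h (P (nat_lit 0)) (T.h (T.h (P (nat_lit 0)) (M (nat_lit 135946721145023))) (P (nat_lit 0))))))) (T.h (T.h (P (nat_lit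 0)) (T.h (T.h (P (nat_lit 2712750349386849976320)) (T.h (P (nat_lit 0)) (P (nat_lit 13732124649455616)))) (T.h (P (nat_lit 0)) (M (nat_lit 12044449115373567))))) (T.h (T.h (T.h (P (nat_lit 0)) (T.h (P (nat_lit 1436442446299922432)) (T.h (P (nat_lit 0)) (P (nat_lit 72660681504))))) (T.h (P (nat_lit 0)) (T.h (T.h (P (nat_lit 0)) (M (nat_lit 13039914007615))) (P (nat_lit 0))))) (T.h (T.h (P (nat_lit 0)) (M (nat_lit 2704680764932095))) (T.h (T.h (T.h (P (nat_lit 0)) (P (nat_lit 1300883372136))) (P (nat_lit 0))) (P (nat_lit 0)))))))), (T.h (T.h (P (nat_lit 0)) (T.h (T.h (P (nat_lit 0)) (T.h (P (nat_lit 3505100089068918241492992)) (T.h (P (nat_lit 0)) (T.h (M (nat_lit 3206093737427992575)) (T.h (P (nat_lit 0)) (M (nat_lit 2171138809055))))))) (T.h (P (nat_lit 0)) (T.h (T.h (P (nat_lit 0)) (T.h (P (nat_lit 83778115168194527232)) (T.h (P (nat_lit 0)) (P (nat_lit 19834863972112))))) (T.h (P (nat_lit 0)) (T.h (T.h (P (nat_lit 0)) (M (nat_lit 335941989346463)))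 (P (nat_lit 0)))))))) (T.h (T.h (T.h (P (nat_lit 2084092978544746558608375808)) (T.h (P (nat_lit 0)) (T.h (M (nat_lit 13105697841355797037055)) (T.h (P (nat_lit 0)) (M (nat_lit 21643633645551615)))))) (T.h (P (nat_lit 0)) (T.h (T.h (M (nat_lit 14112679512842935730175)) (T.h (P (nat_lit 0)) (M (nat_lit 45175380232437759)))) (T.h (P (nat_lit 0)) (M (nat_lit 145933282261073919)))))) (T.h (T.h (P (nat_lit 0)) (T.h (T.h (P (nat_lit 0)) (T.h (P (nat_lit 8688976552274165760)) (T.h (P (nat_lit 0)) (P (nat_lit 7731991111936))))) (T.h (P (nat_lit 0)) (T.h (T.h (P (nat_lit 0)) (P (nat_lit 19291176429520))) (P (nat_lit 0)))))) (T.h (T.h (T.h (M (nat_lit 2445534956294129057791)) (T.h (P (nat_lit 0)) (M (nat_lit 10769564384280575)))) (T.h (P (nat_lit 0)) (P (nat_lit 3081846973022208)))) (T.h (T.h (P (nat_lit 0)) (T.h (T.h (P (nat_lit 0)) (M (nat_lit 6391443606815))) (P (nat_lit 0)))) (P (nat_lit 2747498126852096)))))))]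
def lP22_20 : List (T ℤ) := [(T.h (T.h (P (nat_lit 0)) (T.h (T.h (P (nat_lit 56743565472631009783335354368)) (T.h (P (nat_lit 0)) (T.h (P (nat_lit 115868021089704330919936)) (T.h (P (nat_lit 0)) (M (nat_lit 129587662202634239)))))) (T.h (P (nat_lit 0)) (T.h (T.h (M (nat_lit 129539621198821221990399)) (T.h (P (nat_lit 0)) (P (nat_lit 488371184997203968)))) (T.h (P (nat_lit 0)) (M (nat_lit 341120043884412927))))))) (T.h (T.h (T.h (P (nat_lit 0)) (T.h (M (nat_lit 70845116576064371022626815)) (T.h (P (nat_lit 0)) (T.h (M (nat_lit 65966593691896250367)) (T.h (P (nat_lit 0)) (P (nat_lit 15888264751584))))))) (T.h (P (nat_lit 0)) (T.h (T.h (P (nat_lit 0)) (T.h (M (nat_lit 17367518926971338751)) (T.h (P (nat_lit 0)) (M (nat_lit 42936643886783))))) (T.h (P (nat_lit 0)) (T.h (T.h (P (nat_lit 0)) (M (nat_lit 309630060177983))) (P (nat_lit 0))))))) (T.h (T.h (P (nat_lit 0)) (T.h (T.h (P (nat_lit 115868021089704330919936)) (T.h (P (nat_lit 0)) (P (nat_lit 412580608807010304))))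 (T.h (P (nat_lit 0)) (P (nat_lit 488371184997203968))))) (T.h (T.h (T.h (P (nat_lit 0)) (T.h (M (nat_lit 65966593691896250367)) (T.h (P (nat_lit 0)) (M (nat_lit 6364230574943))))) (T.h (P (nat_lit 0)) (T.h (T.h (P (nat_lit 0)) (M (nat_lit 42936643886783))) (P (nat_lit 0))))) (T.h (T.h (P (nat_lit 0)) (M (nat_lit 129587662202634239))) (T.h (T.h (T.h (P (nat_lit 0)) (P (nat_lit 15888264751584))) (P (nat_lit 0))) (P (nat_lit 0)))))))), (T.h (T.h (P (nat_lit 0)) (T.h (T.h (P (nat_lit 0)) (T.h (M (nat_lit 67893118468651189618606079)) (T.h (P (nat_lit 0)) (T.h (P (nat_lit 246069661220623876096)) (T.h (P (nat_lit 0)) (M (nat_lit 147393761480063))))))) (T.h (P (nat_lit 0)) (T.h (T.h (P (nat_lit 0)) (T.h (P (nat_lit 161391976297722281984)) (T.h (P (nat_lit 0)) (P (nat_lit 316610714032560))))) (T.h (P (nat_lit 0)) (T.h (T.h (P (nat_lit 0)) (P (nat_lit 506468864353392))) (P (nat_lit 0)))))))) (T.h (T.h (T.h (M (nat_lit 13573676804449271778119778303)) (T.h (P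 (nat_lit 0)) (T.h (M (nat_lit 39822502409192226160639)) (T.h (P (nat_lit 0)) (P (nat_lit 49924096142262272)))))) (T.h (P (nat_lit 0)) (T.h (T.h (M (nat_lit 123685703018075998126079)) (T.h (P (nat_lit 0)) (P (nat_lit 589187949178290176)))) (T.h (P (nat_lit 0)) (P (nat_lit 618504330957160448)))))) (T.h (T.h (P (nat_lit 0)) (T.h (T.h (P (nat_lit 0)) (T.h (M (nat_lit 133714427716321673215)) (T.h (P (nat_lit 0)) (P (nat_lit 292855403765520))))) (T.h (P (nat_lit 0)) (T.h (T.h (P (nat_lit 0)) (P (nat_lit 369032250294000))) (P (nat_lit 0)))))) (T.h (T.h (T.h (P (nat_lit 1942311387912894152704)) (T.h (P (nat_lit 0)) (M (nat_lit 3137736619360255)))) (T.h (P (nat_lit 0)) (M (nat_lit 918815193072631807)))) (T.h (T.h (P (nat_lit 0)) (T.h (T.h (P (nat_lit 0)) (M (nat_lit 448419969149615))) (P (nat_lit 0)))) (M (nat_lit 1903429775097855))))))), (T.h (T.h (P (nat_lit 0)) (T.h (T.h (P (nat_lit 43261590126196782947893248)) (T.h (P (nat_lit 0)) (T.h (P (nat_lit 459569672372160003309568))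 (T.h (P (nat_lit 0)) (P (nat_lit 190404856377147392)))))) (T.h (P (nat_lit 0)) (T.h (T.h (M (nat_lit 18370324571908701421567)) (T.h (P (nat_lit 0)) (M (nat_lit 205708856286707711)))) (T.h (P (nat_lit 0)) (M (nat_lit 423810517937029119))))))) (T.h (T.h (T.h (P (nat_lit 0)) (T.h (P (nat_lit 72057086932609894082150400)) (T.h (P (nat_lit 0)) (P (nat_lit 11487042308398907392))))) (T.h (P (nat_lit 0)) (T.h (T.h (P (nat_lit 0)) (P (nat_lit 245384825810064506880))) (P (nat_lit 0))))) (T.h (T.h (P (nat_lit 0)) (T.h (T.h (P (nat_lit 253975602216504926404608)) (T.h (P (nat_lit 0)) (M (nat_lit 506464520519221247)))) (T.h (P (nat_lit 0)) (P (nat_lit 33030100658978816))))) (T.h (T.h (T.h (P (nat_lit 0)) (M (nat_lit 89748166004818575359))) (P (nat_lit 0))) (T.h (T.h (P (nat_lit 0)) (P (nat_lit 49633666763259904))) (P (nat_lit 0))))))), (T.h (T.h (T.h (P (nat_lit 6945281478211275015688300789760)) (T.h (P (nat_lit 0)) (T.h (M (nat_lit 844005617985062042599423)) (T.h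 (P (nat_lit 0)) (T.h (M (nat_lit 250077559696392191)) (T.h (P (nat_lit 0)) (M (nat_lit 394146612063)))))))) (T.h (P (nat_lit 0)) (T.h (T.h (M (nat_lit 6892331385474144117194751)) (T.h (P (nat_lit 0)) (T.h (P (nat_lit 28162852510398152704)) (T.h (P (nat_lit 0)) (M (nat_lit 12025278876719)))))) (T.h (P (nat_lit 0)) (T.h (T.h (M (nat_lit 12345843102613766143)) (T.h (P (nat_lit 0)) (M (nat_lit 6531616341807)))) (T.h (P (nat_lit 0)) (P (nat_lit 10239292669440)))))))) (T.h (T.h (P (nat_lit 0)) (T.h (T.h (P (nat_lit 0)) (T.h (P (nat_lit 21790855645850796818432)) (T.h (P (nat_lit 0)) (M (nat_lit 8712303045115903))))) (T.h (P (nat_lit 0)) (T.h (T.h (P (nat_lit 0)) (P (nat_lit 114410331772616704))) (P (nat_lit 0)))))) (T.h (T.h (T.h (M (nat_lit 844005617985062042599423)) (T.h (P (nat_lit 0)) (T.h (P (nat_lit 1700261905928552448)) (T.h (P (nat_lit 0)) (M (nat_lit 1928525502543)))))) (T.h (P (nat_lit 0)) (T.h (T.h (P (nat_lit 28162852510398152704)) (T.h (P (nat_lit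 0)) (M (nat_lit 46369747134399)))) (T.h (P (nat_lit 0)) (M (nat_lit 6531616341807)))))) (T.h (T.h (P (nat_lit 0)) (T.h (T.h (P (nat_lit 0)) (M (nat_lit 8712303045115903))) (P (nat_lit 0)))) (T.h (T.h (T.h (M (nat_lit 250077559696392191)) (T.h (P (nat_lit 0)) (M (nat_lit 1928525502543)))) (T.h (P (nat_lit 0)) (M (nat_lit 12025278876719)))) (T.h (P (nat_lit 0)) (M (nat_lit 394146612063)))))))), (T.h (T.h (T.h (P (nat_lit 0)) (T.h (P (nat_lit 7829836801137287811569811456)) (T.h (P (nat_lit 0)) (T.h (M (nat_lit 15005716945789723344895)) (T.h (P (nat_lit 0)) (P (nat_lit 10514767459319808))))))) (T.h (P (nat_lit 0)) (T.h (T.h (P (nat_lit 0)) (T.h (M (nat_lit 68905016941645014237183)) (T.h (P (nat_lit 0)) (P (nat_lit 11887588504567808))))) (T.h (P (nat_lit 0)) (T.h (T.h (P (nat_lit 0)) (P (nat_lit 635986056902115328))) (P (nat_lit 0))))))) (T.h (T.h (P (nat_lit 0)) (T.h (T.h (P (nat_lit 22636031326665170084691968)) (T.h (P (nat_lit 0)) (T.h (P (nat_lit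 10994774995497910272)) (T.h (P (nat_lit 0)) (M (nat_lit 5796365101967)))))) (T.h (P (nat_lit 0)) (T.h (T.h (P (nat_lit 291205708661791916032)) (T.h (P (nat_lit 0)) (M (nat_lit 31467877982927)))) (T.h (P (nat_lit 0)) (M (nat_lit 98814136291871))))))) (T.h (T.h (T.h (P (nat_lit 0)) (T.h (M (nat_lit 2266056552591724118015)) (T.h (P (nat_lit 0)) (P (nat_lit 70866266141229056))))) (T.h (P (nat_lit 0)) (T.h (T.h (P (nat_lit 0)) (P (nat_lit 9198005605859328))) (P (nat_lit 0))))) (T.h (T.h (P (nat_lit 0)) (T.h (T.h (M (nat_lit 21302232484879007743)) (T.h (P (nat_lit 0)) (M (nat_lit 18427241446751)))) (T.h (P (nat_lit 0)) (P (nat_lit 13347002066688))))) (T.h (T.h (T.h (P (nat_lit 0)) (M (nat_lit 34806846483628031))) (P (nat_lit 0))) (T.h (T.h (P (nat_lit 0)) (P (nat_lit 2088080913312))) (P (nat_lit 0)))))))), (T.h (T.h (T.h (M (nat_lit 14694569461963521477234414059519)) (T.h (P (nat_lit 0)) (T.h (P (nat_lit 53712898748550030108393472)) (T.h (P (nat_lit 0))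 (T.h (M (nat_lit 28543911706801209343)) (T.h (P (nat_lit 0)) (M (nat_lit 10120337330687)))))))) (T.h (P (nat_lit 0)) (T.h (T.h (M (nat_lit 49972326631157554850299903)) (T.h (P (nat_lit 0)) (T.h (P (nat_lit 289355859727577251840)) (T.h (P (nat_lit 0)) (M (nat_lit 69880828974911)))))) (T.h (P (nat_lit 0)) (T.h (T.h (P (nat_lit 29785438735959064576)) (T.h (P (nat_lit 0)) (M (nat_lit 18361138743791)))) (T.h (P (nat_lit 0)) (M (nat_lit 3801804914015)))))))) (T.h (T.h (P (nat_lit 0)) (T.h (T.h (P (nat_lit 0)) (T.h (P (nat_lit 140516393460978407178240)) (T.h (P (nat_lit 0)) (P (nat_lit 60454771010043904))))) (T.h (P (nat_lit 0)) (T.h (T.h (P (nat_lit 0)) (P (nat_lit 525993794476376064))) (P (nat_lit 0)))))) (T.h (T.h (T.h (P (nat_lit 53712898748550030108393472)) (T.h (P (nat_lit 0)) (T.h (M (nat_lit 4704007251793281023)) (T.h (P (nat_lit 0)) (M (nat_lit 37010507828975)))))) (T.h (P (nat_lit 0)) (T.h (T.h (P (nat_lit 289355859727577251840)) (T.h (P (nat_lit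 0)) (M (nat_lit 308568362195807)))) (T.h (P (nat_lit 0)) (M (nat_lit 18361138743791)))))) (T.h (T.h (P (nat_lit 0)) (T.h (T.h (P (nat_lit 0)) (P (nat_lit 60454771010043904))) (P (nat_lit 0)))) (T.h (T.h (T.h (M (nat_lit 28543911706801209343)) (T.h (P (nat_lit 0)) (M (nat_lit 37010507828975)))) (T.h (P (nat_lit 0)) (M (nat_lit 69880828974911)))) (T.h (P (nat_lit 0)) (M (nat_lit 10120337330687)))))))), (T.h (T.h (T.h (P (nat_lit 0)) (T.h (M (nat_lit 21813259648597683975539916799)) (T.h (P (nat_lit 0)) (T.h (P (nat_lit 28873630804895426674688)) (T.h (P (nat_lit 0)) (P (nat_lit 41531692143280128))))))) (T.h (P (nat_lit 0)) (T.h (T.h (P (nat_lit 0)) (T.h (M (nat_lit 118029435057447043596287)) (T.h (P (nat_lit 0)) (M (nat_lit 168907709395697663))))) (T.h (P (nat_lit 0)) (T.h (T.h (P (nat_lit 0)) (M (nat_lit 648658099823935487))) (P (nat_lit 0))))))) (T.h (T.h (P (nat_lit 0)) (T.h (T.h (P (nat_lit 3735946704402383644917760)) (T.h (P (nat_lit 0)) (M (nat_lit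 105052476701367336959)))) (T.h (P (nat_lit 0)) (M (nat_lit 494310156384400834559))))) (T.h (T.h (T.h (P (nat_lit 0)) (T.h (M (nat_lit 15869735566753822408703)) (T.h (P (nat_lit 0)) (P (nat_lit 25629441326022656))))) (T.h (P (nat_lit 0)) (T.h (T.h (P (nat_lit 0)) (M (nat_lit 160618762197270527))) (P (nat_lit 0))))) (T.h (T.h (P (nat_lit 0)) (P (nat_lit 383475007715993976832))) (T.h (T.h (T.h (P (nat_lit 0)) (P (nat_lit 89753293353353216))) (P (nat_lit 0))) (P (nat_lit 0))))))), (T.h (T.h (P (nat_lit 0)) (T.h (T.h (P (nat_lit 12705971551799468700223930368)) (T.h (P (nat_lit 0)) (T.h (M (nat_lit 1703111653625365004287)) (T.h (P (nat_lit 0)) (P (nat_lit 8727060432158720)))))) (T.h (P (nat_lit 0)) (T.h (T.h (P (nat_lit 1067211340657522114560)) (T.h (P (nat_lit 0)) (P (nat_lit 33631326450122752)))) (T.h (P (nat_lit 0)) (M (nat_lit 24957961867493375))))))) (T.h (T.h (T.h (P (nat_lit 0)) (T.h (M (nat_lit 6603952406297327842623487)) (T.h (P (nat_lit 0)) (T.h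 (P (nat_lit 4491474292059406336)) (T.h (P (nat_lit 0)) (M (nat_lit 776391066335))))))) (T.h (P (nat_lit 0)) (T.h (T.h (P (nat_lit 0)) (T.h (P (nat_lit 46739776176339812352)) (T.h (P (nat_lit 0)) (P (nat_lit 18444320661312))))) (T.h (P (nat_lit 0)) (T.h (T.h (P (nat_lit 0)) (P (nat_lit 135946721145024))) (P (nat_lit 0))))))) (T.h (T.h (P (nat_lit 0)) (T.h (T.h (M (nat_lit 8848581376903131168767)) (T.h (P (nat_lit 0)) (P (nat_lit 24253972323106816)))) (T.h (P (nat_lit 0)) (P (nat_lit 10236873174646784))))) (T.h (T.h (T.h (P (nat_lit 0)) (T.h (M (nat_lit 7293634597340839935)) (T.h (P (nat_lit 0)) (M (nat_lit 72660681503))))) (T.h (P (nat_lit 0)) (T.h (T.h (P (nat_lit 0)) (P (nat_lit 18444320661312))) (P (nat_lit 0))))) (T.h (T.h (P (nat_lit 0)) (P (nat_lit 15828416420511744))) (T.h (T.h (T.h (P (nat_lit 0)) (M (nat_lit 776391066335))) (P (nat_lit 0))) (P (nat_lit 0))))))))]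
def lP22_21 : List (T ℤ) := [(T.h (T.h (P (nat_lit 0)) (T.h (T.h (P (nat_lit 0)) (T.h (P (nat_lit 16770020288298499683909632)) (T.h (P (nat_lit 0)) (T.h (M (nat_lit 24581911049941286911)) (T.h (P (nat_lit 0)) (M (nat_lit 3743196082991))))))) (T.h (P (nat_lit 0)) (T.h (T.h (P (nat_lit 0)) (T.h (M (nat_lit 54436003502392082431)) (T.h (P (nat_lit 0)) (M (nat_lit 15746492039039))))) (T.h (P (nat_lit 0)) (T.h (T.h (P (nat_lit 0)) (P (nat_lit 310329193881600))) (P (nat_lit 0)))))))) (T.h (T.h (T.h (P (nat_lit 7613911020926650974465949696)) (T.h (P (nat_lit 0)) (T.h (P (nat_lit 856239061351264157696)) (T.h (P (nat_lit 0)) (M (nat_lit 18543270365085695)))))) (T.h (P (nat_lit 0)) (T.h (T.h (M (nat_lit 37608647712375417339903)) (T.h (P (nat_lit 0)) (M (nat_lit 11201544438792191)))) (T.h (P (nat_lit 0)) (P (nat_lit 288386959946383360)))))) (T.h (T.h (P (nat_lit 0)) (T.h (T.h (P (nat_lit 0)) (T.h (P (nat_lit 6148453346429632512)) (T.h (P (nat_lit 0)) (M (nat_lit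 43491366017423))))) (T.h (P (nat_lit 0)) (T.h (T.h (P (nat_lit 0)) (M (nat_lit 157763501468927))) (P (nat_lit 0)))))) (T.h (T.h (T.h (P (nat_lit 3737831950392995348480)) (T.h (P (nat_lit 0)) (P (nat_lit 18868985238323200)))) (T.h (P (nat_lit 0)) (M (nat_lit 15025593104400383)))) (T.h (T.h (P (nat_lit 0)) (T.h (T.h (P (nat_lit 0)) (P (nat_lit 17575024374576))) (P (nat_lit 0)))) (M (nat_lit 2662119321436159))))))), (T.h (T.h (P (nat_lit 0)) (T.h (T.h (P (nat_lit 11877680479534524914659753984)) (T.h (P (nat_lit 0)) (T.h (M (nat_lit 115953767249465325912063)) (T.h (P (nat_lit 0)) (P (nat_lit 32063172605771776)))))) (T.h (P (nat_lit 0)) (T.h (T.h (M (nat_lit 30521945154696098349055)) (T.h (P (nat_lit 0)) (P (nat_lit 63362282965041152)))) (T.h (P (nat_lit 0)) (M (nat_lit 136043533261733887))))))) (T.h (T.h (T.h (P (nat_lit 0)) (T.h (M (nat_lit 16243664358419184599695359)) (T.h (P (nat_lit 0)) (P (nat_lit 11770992772591386624))))) (T.h (P (nat_lit 0)) (T.h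 (T.h (P (nat_lit 0)) (M (nat_lit 18817379027063406591))) (P (nat_lit 0))))) (T.h (T.h (P (nat_lit 0)) (T.h (T.h (M (nat_lit 115953767249465325912063)) (T.h (P (nat_lit 0)) (P (nat_lit 199813101908459520)))) (T.h (P (nat_lit 0)) (P (nat_lit 63362282965041152))))) (T.h (T.h (T.h (P (nat_lit 0)) (P (nat_lit 11770992772591386624))) (P (nat_lit 0))) (T.h (T.h (P (nat_lit 0)) (P (nat_lit 32063172605771776))) (P (nat_lit 0))))))), (T.h (T.h (T.h (M (nat_lit 1526812637208704738452194721791)) (T.h (P (nat_lit 0)) (T.h (M (nat_lit 1566168659524124063825919)) (T.h (P (nat_lit 0)) (T.h (M (nat_lit 1257490112028082175)) (T.h (P (nat_lit 0)) (P (nat_lit 485082553536)))))))) (T.h (P (nat_lit 0)) (T.h (T.h (P (nat_lit 20864823599583554539880448)) (T.h (P (nat_lit 0)) (T.h (M (nat_lit 11962976014688059391)) (T.h (P (nat_lit 0)) (P (nat_lit 21823059736368)))))) (T.h (P (nat_lit 0)) (T.h (T.h (P (nat_lit 6830011316166459392)) (T.h (P (nat_lit 0)) (P (nat_lit 17223692796864))))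 (T.h (P (nat_lit 0)) (M (nat_lit 18430719318143)))))))) (T.h (T.h (P (nat_lit 0)) (T.h (T.h (P (nat_lit 0)) (T.h (M (nat_lit 25949813201762300985343)) (T.h (P (nat_lit 0)) (M (nat_lit 16206316422561791))))) (T.h (P (nat_lit 0)) (T.h (T.h (P (nat_lit 0)) (M (nat_lit 150200156445474815))) (P (nat_lit 0)))))) (T.h (T.h (T.h (M (nat_lit 1566168659524124063825919)) (T.h (P (nat_lit 0)) (T.h (P (nat_lit 5272713814171713536)) (T.h (P (nat_lit 0)) (P (nat_lit 6479329439808)))))) (T.h (P (nat_lit 0)) (T.h (T.h (M (nat_lit 11962976014688059391)) (T.h (P (nat_lit 0)) (P (nat_lit 83465545105728)))) (T.h (P (nat_lit 0)) (P (nat_lit 17223692796864)))))) (T.h (T.h (P (nat_lit 0)) (T.h (T.h (P (nat_lit 0)) (M (nat_lit 16206316422561791))) (P (nat_lit 0)))) (T.h (T.h (T.h (M (nat_lit 1257490112028082175)) (T.h (P (nat_lit 0)) (P (nat_lit 6479329439808)))) (T.h (P (nat_lit 0)) (P (nat_lit 21823059736368)))) (T.h (P (nat_lit 0)) (P (nat_lit 485082553536)))))))), (T.h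 (T.h (T.h (P (nat_lit 0)) (T.h (M (nat_lit 1069719061105742419312246783)) (T.h (P (nat_lit 0)) (T.h (P (nat_lit 4810639926731932172288)) (T.h (P (nat_lit 0)) (P (nat_lit 189485684457472))))))) (T.h (P (nat_lit 0)) (T.h (T.h (P (nat_lit 0)) (T.h (M (nat_lit 9039233065320873721855)) (T.h (P (nat_lit 0)) (M (nat_lit 9114228696940543))))) (T.h (P (nat_lit 0)) (T.h (T.h (P (nat_lit 0)) (M (nat_lit 360924354560393215))) (P (nat_lit 0))))))) (T.h (T.h (P (nat_lit 0)) (T.h (T.h (M (nat_lit 1761177201905144919228415)) (T.h (P (nat_lit 0)) (P (nat_lit 13635200529196908544)))) (T.h (P (nat_lit 0)) (M (nat_lit 159289274093619118079))))) (T.h (T.h (T.h (P (nat_lit 0)) (T.h (P (nat_lit 167114983961662586880)) (T.h (P (nat_lit 0)) (P (nat_lit 3999072314753024))))) (T.h (P (nat_lit 0)) (T.h (T.h (P (nat_lit 0)) (P (nat_lit 69713786696892416))) (P (nat_lit 0))))) (T.h (T.h (P (nat_lit 0)) (M (nat_lit 1424453042811437055))) (T.h (T.h (T.h (P (nat_lit 0)) (M (nat_lit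 6948109256065023))) (P (nat_lit 0))) (P (nat_lit 0))))))), (T.h (T.h (P (nat_lit 0)) (T.h (T.h (M (nat_lit 6946700081529947634800787455)) (T.h (P (nat_lit 0)) (T.h (P (nat_lit 2528644232359897464832)) (T.h (P (nat_lit 0)) (M (nat_lit 9931916964462591)))))) (T.h (P (nat_lit 0)) (T.h (T.h (M (nat_lit 6537014371178130702335)) (T.h (P (nat_lit 0)) (M (nat_lit 15677387932434431)))) (T.h (P (nat_lit 0)) (P (nat_lit 25164075442372608))))))) (T.h (T.h (T.h (P (nat_lit 0)) (T.h (P (nat_lit 2399690788163493904252928)) (T.h (P (nat_lit 0)) (P (nat_lit 822611858266521600))))) (T.h (P (nat_lit 0)) (T.h (T.h (P (nat_lit 0)) (M (nat_lit 24174887929991135231))) (P (nat_lit 0))))) (T.h (T.h (P (nat_lit 0)) (T.h (T.h (P (nat_lit 2528644232359897464832)) (T.h (P (nat_lit 0)) (M (nat_lit 37986096972562431)))) (T.h (P (nat_lit 0)) (M (nat_lit 15677387932434431))))) (T.h (T.h (T.h (P (nat_lit 0)) (P (nat_lit 822611858266521600))) (P (nat_lit 0))) (T.h (T.h (P (nat_lit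 0)) (M (nat_lit 9931916964462591))) (P (nat_lit 0))))))), (P (nat_lit 0)), (P (nat_lit 0)), (T.h (T.h (P (nat_lit 0)) (T.h (T.h (P (nat_lit 0)) (T.h (M (nat_lit 2310389944728478820597759)) (T.h (P (nat_lit 0)) (T.h (P (nat_lit 2000088618483318784)) (T.h (P (nat_lit 0)) (P (nat_lit 24527691466296))))))) (T.h (P (nat_lit 0)) (T.h (T.h (P (nat_lit 0)) (T.h (M (nat_lit 6271557334242164735)) (T.h (P (nat_lit 0)) (P (nat_lit 21459189559168))))) (T.h (P (nat_lit 0)) (T.h (T.h (P (nat_lit 0)) (M (nat_lit 10114432291911))) (P (nat_lit 0)))))))) (T.h (T.h (T.h (P (nat_lit 1045850818948769630476304384)) (T.h (P (nat_lit 0)) (T.h (M (nat_lit 66262344181358746664959)) (T.h (P (nat_lit 0)) (P (nat_lit 105275622569213952)))))) (T.h (P (nat_lit 0)) (T.h (T.h (P (nat_lit 14114756792398624325632)) (T.h (P (nat_lit 0)) (P (nat_lit 6363219857768448)))) (T.h (P (nat_lit 0)) (M (nat_lit 8809992696004607)))))) (T.h (T.h (P (nat_lit 0)) (T.h (T.h (P (nat_lit 0)) (T.h (M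 (nat_lit 128546003020681314303)) (T.h (P (nat_lit 0)) (P (nat_lit 49256574379456))))) (T.h (P (nat_lit 0)) (T.h (T.h (P (nat_lit 0)) (P (nat_lit 81363724011496))) (P (nat_lit 0)))))) (T.h (T.h (T.h (P (nat_lit 11065493470585011830784)) (T.h (P (nat_lit 0)) (P (nat_lit 105498906374373376)))) (T.h (P (nat_lit 0)) (M (nat_lit 46915988397752319)))) (T.h (T.h (P (nat_lit 0)) (T.h (T.h (P (nat_lit 0)) (M (nat_lit 72482620323271))) (P (nat_lit 0)))) (M (nat_lit 50996580505223167)))))))]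
def lP22_22 : List (T ℤ) := [(T.h (T.h (P (nat_lit 0)) (T.h (T.h (P (nat_lit 13104509293159488922956333056)) (T.h (P (nat_lit 0)) (T.h (M (nat_lit 26957485890468973641727)) (T.h (P (nat_lit 0)) (M (nat_lit 72261525984329727)))))) (T.h (P (nat_lit 0)) (T.h (T.h (M (nat_lit 8183322561133733216255)) (T.h (P (nat_lit 0)) (P (nat_lit 41569820521021440)))) (T.h (P (nat_lit 0)) (P (nat_lit 3185419634851840))))))) (T.h (T.h (T.h (P (nat_lit 0)) (T.h (M (nat_lit 18179769838870498853781503)) (T.h (P (nat_lit 0)) (T.h (M (nat_lit 122988291503125692415)) (T.h (P (nat_lit 0)) (M (nat_lit 319428107412175))))))) (T.h (P (nat_lit 0)) (T.h (T.h (P (nat_lit 0)) (T.h (M (nat_lit 4274468170930061311)) (T.h (P (nat_lit 0)) (P (nat_lit 67321417156000))))) (T.h (P (nat_lit 0)) (T.h (T.h (P (nat_lit 0)) (P (nat_lit 184839318268800))) (P (nat_lit 0))))))) (T.h (T.h (P (nat_lit 0)) (T.h (T.h (M (nat_lit 25950504218981834948607)) (T.h (P (nat_lit 0)) (M (nat_lit 51767154953715711))))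 (T.h (P (nat_lit 0)) (P (nat_lit 27718409163718656))))) (T.h (T.h (T.h (P (nat_lit 0)) (T.h (M (nat_lit 209972500408748212223)) (T.h (P (nat_lit 0)) (M (nat_lit 379943813725007))))) (T.h (P (nat_lit 0)) (T.h (T.h (P (nat_lit 0)) (P (nat_lit 55762231838416))) (P (nat_lit 0))))) (T.h (T.h (P (nat_lit 0)) (P (nat_lit 52028122631192576))) (T.h (T.h (T.h (P (nat_lit 0)) (P (nat_lit 14342743125232))) (P (nat_lit 0))) (P (nat_lit 0)))))))), (T.h (T.h (P (nat_lit 0)) (T.h (T.h (P (nat_lit 0)) (T.h (M (nat_lit 17906246140690551118233599)) (T.h (P (nat_lit 0)) (T.h (P (nat_lit 462682744916455456768)) (T.h (P (nat_lit 0)) (M (nat_lit 75593636964767))))))) (T.h (P (nat_lit 0)) (T.h (T.h (P (nat_lit 0)) (T.h (P (nat_lit 14491939499531042816)) (T.h (P (nat_lit 0)) (M (nat_lit 81686441951))))) (T.h (P (nat_lit 0)) (T.h (T.h (P (nat_lit 0)) (P (nat_lit 2541833823312))) (P (nat_lit 0)))))))) (T.h (T.h (T.h (P (nat_lit 32820189050558047296543522816)) (T.h (P (nat_lit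 0)) (T.h (P (nat_lit 655956070507653271388160)) (T.h (P (nat_lit 0)) (P (nat_lit 601828279577083904)))))) (T.h (P (nat_lit 0)) (T.h (T.h (P (nat_lit 29953871756365303644160)) (T.h (P (nat_lit 0)) (M (nat_lit 237070253261619199)))) (T.h (P (nat_lit 0)) (M (nat_lit 60169700583014399)))))) (T.h (T.h (P (nat_lit 0)) (T.h (T.h (P (nat_lit 0)) (T.h (P (nat_lit 31554473888527155200)) (T.h (P (nat_lit 0)) (M (nat_lit 117194776813199))))) (T.h (P (nat_lit 0)) (T.h (T.h (P (nat_lit 0)) (M (nat_lit 48576800164079))) (P (nat_lit 0)))))) (T.h (T.h (T.h (M (nat_lit 70924678006650984988671)) (T.h (P (nat_lit 0)) (M (nat_lit 297089124101226495)))) (T.h (P (nat_lit 0)) (P (nat_lit 19997091208003584)))) (T.h (T.h (P (nat_lit 0)) (T.h (T.h (P (nat_lit 0)) (P (nat_lit 31771604010672))) (P (nat_lit 0)))) (M (nat_lit 21390266879737855))))))), (T.h (T.h (P (nat_lit 0)) (T.h (T.h (P (nat_lit 4278235791915474555326431232)) (T.h (P (nat_lit 0)) (T.h (M (nat_lit 13006323777302628925439))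 (T.h (P (nat_lit 0)) (P (nat_lit 515822917455380480)))))) (T.h (P (nat_lit 0)) (T.h (T.h (P (nat_lit 1181616625314120597504)) (T.h (P (nat_lit 0)) (M (nat_lit 31228671951372287)))) (T.h (P (nat_lit 0)) (P (nat_lit 1301651849396224))))))) (T.h (T.h (T.h (P (nat_lit 0)) (T.h (P (nat_lit 14795371198544497963171840)) (T.h (P (nat_lit 0)) (T.h (P (nat_lit 311146838530025586688)) (T.h (P (nat_lit 0)) (P (nat_lit 728429147867808))))))) (T.h (P (nat_lit 0)) (T.h (T.h (P (nat_lit 0)) (T.h (M (nat_lit 12128178767210217471)) (T.h (P (nat_lit 0)) (M (nat_lit 269427358060127))))) (T.h (P (nat_lit 0)) (T.h (T.h (P (nat_lit 0)) (M (nat_lit 217942570490831))) (P (nat_lit 0))))))) (T.h (T.h (P (nat_lit 0)) (T.h (T.h (M (nat_lit 6192423240092853731327)) (T.h (P (nat_lit 0)) (P (nat_lit 58043018223009792)))) (T.h (P (nat_lit 0)) (P (nat_lit 29633747002753024))))) (T.h (T.h (T.h (P (nat_lit 0)) (T.h (M (nat_lit 36731959723782307839)) (T.h (P (nat_lit 0)) (P (nat_lit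 341173095534576))))) (T.h (P (nat_lit 0)) (T.h (T.h (P (nat_lit 0)) (P (nat_lit 113963383640880))) (P (nat_lit 0))))) (T.h (T.h (P (nat_lit 0)) (M (nat_lit 74476136598421503))) (T.h (T.h (T.h (P (nat_lit 0)) (M (nat_lit 157227515260415))) (P (nat_lit 0))) (P (nat_lit 0)))))))), (T.h (T.h (P (nat_lit 0)) (T.h (T.h (P (nat_lit 0)) (T.h (M (nat_lit 13558008741155526747881471)) (T.h (P (nat_lit 0)) (M (nat_lit 361137656098226962431))))) (T.h (P (nat_lit 0)) (T.h (T.h (P (nat_lit 0)) (P (nat_lit 10023541221852446720))) (P (nat_lit 0)))))) (T.h (T.h (T.h (M (nat_lit 20080434620500704876793167871)) (T.h (P (nat_lit 0)) (T.h (M (nat_lit 346295401906182744440831)) (T.h (P (nat_lit 0)) (M (nat_lit 898384892327428095)))))) (T.h (P (nat_lit 0)) (T.h (T.h (M (nat_lit 4367733539575680729087)) (T.h (P (nat_lit 0)) (P (nat_lit 216159424549486592)))) (T.h (P (nat_lit 0)) (P (nat_lit 65194660423303168)))))) (T.h (T.h (P (nat_lit 0)) (T.h (T.h (P (nat_lit 0)) (P (nat_lit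 41365865863023951872))) (P (nat_lit 0)))) (T.h (T.h (T.h (P (nat_lit 21977834653170465243136)) (T.h (P (nat_lit 0)) (M (nat_lit 226150079781830655)))) (T.h (P (nat_lit 0)) (M (nat_lit 35241709110263807)))) (T.h (P (nat_lit 0)) (P (nat_lit 52022620114190336))))))), (P (nat_lit 0)), (P (nat_lit 0)), (T.h (T.h (T.h (M (nat_lit 8096653286310737006045329096703)) (T.h (P (nat_lit 0)) (T.h (P (nat_lit 6734057503918383796584448)) (T.h (P (nat_lit 0)) (T.h (M (nat_lit 1360003242993385471)) (T.h (P (nat_lit 0)) (P (nat_lit 59979948287008)))))))) (T.h (P (nat_lit 0)) (T.h (T.h (P (nat_lit 12455452997535198022205440)) (T.h (P (nat_lit 0)) (T.h (P (nat_lit 30420691673287753728)) (T.h (P (nat_lit 0)) (M (nat_lit 96506159871455)))))) (T.h (P (nat_lit 0)) (T.h (T.h (M (nat_lit 88541707545901793279)) (T.h (P (nat_lit 0)) (M (nat_lit 174156779605727)))) (T.h (P (nat_lit 0)) (M (nat_lit 21066171057215)))))))) (T.h (T.h (P (nat_lit 0)) (T.h (T.h (P (nat_lit 0)) (T.h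 (P (nat_lit 298930317408136626962432)) (T.h (P (nat_lit 0)) (P (nat_lit 1326717372513124352))))) (T.h (P (nat_lit 0)) (T.h (T.h (P (nat_lit 0)) (M (nat_lit 644189832269791231))) (P (nat_lit 0)))))) (T.h (T.h (T.h (P (nat_lit 6734057503918383796584448)) (T.h (P (nat_lit 0)) (T.h (P (nat_lit 360879548752231137280)) (T.h (P (nat_lit 0)) (P (nat_lit 67763829337056)))))) (T.h (P (nat_lit 0)) (T.h (T.h (P (nat_lit 30420691673287753728)) (T.h (P (nat_lit 0)) (M (nat_lit 293855003889503)))) (T.h (P (nat_lit 0)) (M (nat_lit 174156779605727)))))) (T.h (T.h (P (nat_lit 0)) (T.h (T.h (P (nat_lit 0)) (P (nat_lit 1326717372513124352))) (P (nat_lit 0)))) (T.h (T.h (T.h (M (nat_lit 1360003242993385471)) (T.h (P (nat_lit 0)) (P (nat_lit 67763829337056)))) (T.h (P (nat_lit 0)) (M (nat_lit 96506159871455)))) (T.h (P (nat_lit 0)) (P (nat_lit 59979948287008)))))))), (T.h (T.h (T.h (P (nat_lit 0)) (T.h (M (nat_lit 1808498977183349276374204415)) (T.h (P (nat_lit 0)) (T.h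 (P (nat_lit 52699577966004013105152)) (T.h (P (nat_lit 0)) (M (nat_lit 58388150225797119))))))) (T.h (P (nat_lit 0)) (T.h (T.h (P (nat_lit 0)) (T.h (P (nat_lit 80479554190437311840256)) (T.h (P (nat_lit 0)) (P (nat_lit 224878831080914944))))) (T.h (P (nat_lit 0)) (T.h (T.h (P (nat_lit 0)) (P (nat_lit 79154771293306880))) (P (nat_lit 0))))))) (T.h (T.h (P (nat_lit 0)) (T.h (T.h (P (nat_lit 2768201337103094367911936)) (T.h (P (nat_lit 0)) (T.h (P (nat_lit 633881676658585370624)) (T.h (P (nat_lit 0)) (P (nat_lit 20283370080496)))))) (T.h (P (nat_lit 0)) (T.h (T.h (M (nat_lit 121630086042107248639)) (T.h (P (nat_lit 0)) (P (nat_lit 85017916153568)))) (T.h (P (nat_lit 0)) (M (nat_lit 16694554697487))))))) (T.h (T.h (T.h (P (nat_lit 0)) (T.h (P (nat_lit 160890118431974772178944)) (T.h (P (nat_lit 0)) (P (nat_lit 529330318351400960))))) (T.h (P (nat_lit 0)) (T.h (T.h (P (nat_lit 0)) (M (nat_lit 1031172992607715327))) (P (nat_lit 0))))) (T.h (T.h (P (nat_lit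 0)) (T.h (T.h (M (nat_lit 262416591941940543487)) (T.h (P (nat_lit 0)) (P (nat_lit 249167983896304)))) (T.h (P (nat_lit 0)) (P (nat_lit 7552521380832))))) (T.h (T.h (T.h (P (nat_lit 0)) (P (nat_lit 15069221556994048))) (P (nat_lit 0))) (T.h (T.h (P (nat_lit 0)) (M (nat_lit 24021944782415))) (P (nat_lit 0))))))))]
def lP22_23 : List (T ℤ) := [(T.h (T.h (T.h (P (nat_lit 2997439389140727423209392046080)) (T.h (P (nat_lit 0)) (T.h (P (nat_lit 35977216366941970284675072)) (T.h (P (nat_lit 0)) (T.h (P (nat_lit 140520015652775264256)) (T.h (P (nat_lit 0)) (M (nat_lit 25785911420447)))))))) (T.h (P (nat_lit 0)) (T.h (T.h (P (nat_lit 21979810714823706965704704)) (T.h (P (nat_lit 0)) (T.h (P (nat_lit 225656022705016668160)) (T.h (P (nat_lit 0)) (P (nat_lit 204575962751184)))))) (T.h (P (nat_lit 0)) (T.h (T.h (P (nat_lit 40782294402191065088)) (T.h (P (nat_lit 0)) (M (nat_lit 740058833039)))) (T.h (P (nat_lit 0)) (P (nat_lit 11242220223216)))))))) (T.h (T.h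 (P (nat_lit 0)) (T.h (T.h (P (nat_lit 0)) (T.h (P (nat_lit 198010967556975059009536)) (T.h (P (nat_lit 0)) (M (nat_lit 1287842794714234879))))) (T.h (P (nat_lit 0)) (T.h (T.h (P (nat_lit 0)) (P (nat_lit 670266917546426368))) (P (nat_lit 0)))))) (T.h (T.h (T.h (M (nat_lit 54967093526639888864116735)) (T.h (P (nat_lit 0)) (T.h (M (nat_lit 1762622514959992487935)) (T.h (P (nat_lit 0)) (M (nat_lit 57066838422287)))))) (T.h (P (nat_lit 0)) (T.h (T.h (M (nat_lit 6923652398082686975)) (T.h (P (nat_lit 0)) (M (nat_lit 73575646358879)))) (T.h (P (nat_lit 0)) (P (nat_lit 51730078582032)))))) (T.h (T.h (P (nat_lit 0)) (T.h (T.h (P (nat_lit 0)) (M (nat_lit 1063261266915491839))) (P (nat_lit 0)))) (T.h (T.h (T.h (P (nat_lit 87868705848145477632)) (T.h (P (nat_lit 0)) (M (nat_lit 250495927025999)))) (T.h (P (nat_lit 0)) (P (nat_lit 63617011562544)))) (T.h (P (nat_lit 0)) (M (nat_lit 32785963362287)))))))), (T.h (T.h (T.h (P (nat_lit 0)) (T.h (P (nat_lit 57334956632206068234512760832))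 (T.h (P (nat_lit 0)) (T.h (M (nat_lit 22946034514349921402879)) (T.h (P (nat_lit 0)) (M (nat_lit 6174633086484479))))))) (T.h (P (nat_lit 0)) (T.h (T.h (P (nat_lit 0)) (T.h (M (nat_lit 126264821811926481764351)) (T.h (P (nat_lit 0)) (P (nat_lit 76914468636770304))))) (T.h (P (nat_lit 0)) (T.h (T.h (P (nat_lit 0)) (P (nat_lit 43498547229081600))) (P (nat_lit 0))))))) (T.h (T.h (P (nat_lit 0)) (T.h (T.h (P (nat_lit 47134690066140657000382464)) (T.h (P (nat_lit 0)) (T.h (M (nat_lit 118390842734751514623)) (T.h (P (nat_lit 0)) (M (nat_lit 138476424798719)))))) (T.h (P (nat_lit 0)) (T.h (T.h (M (nat_lit 146591178902344826879)) (T.h (P (nat_lit 0)) (M (nat_lit 33891551588303)))) (T.h (P (nat_lit 0)) (M (nat_lit 34225337244095))))))) (T.h (T.h (T.h (P (nat_lit 0)) (T.h (M (nat_lit 23678009988151209099263)) (T.h (P (nat_lit 0)) (M (nat_lit 147403615803752447))))) (T.h (P (nat_lit 0)) (T.h (T.h (P (nat_lit 0)) (M (nat_lit 172926202385072127))) (P (nat_lit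 0))))) (T.h (T.h (P (nat_lit 0)) (T.h (T.h (P (nat_lit 130925609653259730944)) (T.h (P (nat_lit 0)) (M (nat_lit 115352653444271)))) (T.h (P (nat_lit 0)) (M (nat_lit 5821078652063))))) (T.h (T.h (T.h (P (nat_lit 0)) (M (nat_lit 56164819401932799))) (P (nat_lit 0))) (T.h (T.h (P (nat_lit 0)) (P (nat_lit 34165844712000))) (P (nat_lit 0)))))))), (T.h (T.h (T.h (P (nat_lit 3568522950374117388076961497088)) (T.h (P (nat_lit 0)) (T.h (M (nat_lit 45137227535358847854051327)) (T.h (P (nat_lit 0)) (M (nat_lit 10805402706500386815)))))) (T.h (P (nat_lit 0)) (T.h (T.h (P (nat_lit 14818236701183997791698944)) (T.h (P (nat_lit 0)) (M (nat_lit 174296638974171545599)))) (T.h (P (nat_lit 0)) (P (nat_lit 4664360011533647872)))))) (T.h (T.h (P (nat_lit 0)) (T.h (T.h (P (nat_lit 0)) (T.h (M (nat_lit 115370406155700026736639)) (T.h (P (nat_lit 0)) (P (nat_lit 101693486531149824))))) (T.h (P (nat_lit 0)) (T.h (T.h (P (nat_lit 0)) (P (nat_lit 171971654305644544))) (P (nat_lit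 0)))))) (T.h (T.h (T.h (P (nat_lit 17495782709116647728218112)) (T.h (P (nat_lit 0)) (P (nat_lit 605521353194365517824)))) (T.h (P (nat_lit 0)) (P (nat_lit 43090105752503713792)))) (T.h (T.h (P (nat_lit 0)) (T.h (T.h (P (nat_lit 0)) (P (nat_lit 178423566619377664))) (P (nat_lit 0)))) (P (nat_lit 36856376727389077504)))))), (P (nat_lit 0)), (P (nat_lit 0)), (T.h (T.h (P (nat_lit 0)) (T.h (T.h (P (nat_lit 0)) (T.h (M (nat_lit 33260516545734121384574975)) (T.h (P (nat_lit 0)) (T.h (M (nat_lit 62543238470354075647)) (T.h (P (nat_lit 0)) (P (nat_lit 721848616872))))))) (T.h (P (nat_lit 0)) (T.h (T.h (P (nat_lit 0)) (T.h (P (nat_lit 36900960490852712448)) (T.h (P (nat_lit 0)) (M (nat_lit 17783705421671))))) (T.h (P (nat_lit 0)) (T.h (T.h (P (nat_lit 0)) (P (nat_lit 162856745037048))) (P (nat_lit 0)))))))) (T.h (T.h (T.h (P (nat_lit 14278752545302595397457281024)) (T.h (P (nat_lit 0)) (T.h (M (nat_lit 26587894600553000337407)) (T.h (P (nat_lit 0)) (P (nat_lit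 64078250146168832)))))) (T.h (P (nat_lit 0)) (T.h (T.h (M (nat_lit 44275768650990752890879)) (T.h (P (nat_lit 0)) (P (nat_lit 365983832700256256)))) (T.h (P (nat_lit 0)) (P (nat_lit 16761049637093376)))))) (T.h (T.h (P (nat_lit 0)) (T.h (T.h (P (nat_lit 0)) (T.h (M (nat_lit 599009681001056043007)) (T.h (P (nat_lit 0)) (M (nat_lit 347842490566887))))) (T.h (P (nat_lit 0)) (T.h (T.h (P (nat_lit 0)) (P (nat_lit 456731647457936))) (P (nat_lit 0)))))) (T.h (T.h (T.h (M (nat_lit 20998483959028232749055)) (T.h (P (nat_lit 0)) (M (nat_lit 99343303046987775)))) (T.h (P (nat_lit 0)) (P (nat_lit 172420659023511552)))) (T.h (T.h (P (nat_lit 0)) (T.h (T.h (P (nat_lit 0)) (M (nat_lit 201121921056575))) (P (nat_lit 0)))) (M (nat_lit 3056444827533311))))))), (T.h (T.h (P (nat_lit 0)) (T.h (T.h (P (nat_lit 22803905422289269131617239040)) (T.h (P (nat_lit 0)) (T.h (P (nat_lit 98832622502392650268672)) (T.h (P (nat_lit 0)) (P (nat_lit 250005016243716096)))))) (T.h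 (P (nat_lit 0)) (T.h (T.h (M (nat_lit 699161543503702392831)) (T.h (P (nat_lit 0)) (P (nat_lit 469820305517166592)))) (T.h (P (nat_lit 0)) (M (nat_lit 50349015464542207))))))) (T.h (T.h (T.h (P (nat_lit 0)) (T.h (P (nat_lit 7160681386682765459587072)) (T.h (P (nat_lit 0)) (T.h (M (nat_lit 412754156984450678783)) (T.h (P (nat_lit 0)) (M (nat_lit 16698236979775))))))) (T.h (P (nat_lit 0)) (T.h (T.h (P (nat_lit 0)) (T.h (M (nat_lit 105823337127516045311)) (T.h (P (nat_lit 0)) (P (nat_lit 344686648612592))))) (T.h (P (nat_lit 0)) (T.h (T.h (P (nat_lit 0)) (P (nat_lit 108046655949024))) (P (nat_lit 0))))))) (T.h (T.h (P (nat_lit 0)) (T.h (T.h (P (nat_lit 98832622502392650268672)) (T.h (P (nat_lit 0)) (M (nat_lit 1897147899396947967)))) (T.h (P (nat_lit 0)) (P (nat_lit 469820305517166592))))) (T.h (T.h (T.h (P (nat_lit 0)) (T.h (M (nat_lit 412754156984450678783)) (T.h (P (nat_lit 0)) (M (nat_lit 15733293590847))))) (T.h (P (nat_lit 0)) (T.h (T.h (P (nat_lit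 0)) (P (nat_lit 344686648612592))) (P (nat_lit 0))))) (T.h (T.h (P (nat_lit 0)) (P (nat_lit 250005016243716096))) (T.h (T.h (T.h (P (nat_lit 0)) (M (nat_lit 16698236979775))) (P (nat_lit 0))) (P (nat_lit 0)))))))), (T.h (T.h (P (nat_lit 0)) (T.h (T.h (P (nat_lit 0)) (T.h (P (nat_lit 316972042487873008213950464)) (T.h (P (nat_lit 0)) (T.h (M (nat_lit 377818869842202066943)) (T.h (P (nat_lit 0)) (M (nat_lit 189432346881935))))))) (T.h (P (nat_lit 0)) (T.h (T.h (P (nat_lit 0)) (T.h (P (nat_lit 585606291817637085184)) (T.h (P (nat_lit 0)) (P (nat_lit 287039911349856))))) (T.h (P (nat_lit 0)) (T.h (T.h (P (nat_lit 0)) (M (nat_lit 68954946376031))) (P (nat_lit 0)))))))) (T.h (T.h (T.h (M (nat_lit 12032021371156596681519136767)) (T.h (P (nat_lit 0)) (T.h (M (nat_lit 157337932506424871485439)) (T.h (P (nat_lit 0)) (M (nat_lit 709374484074921983)))))) (T.h (P (nat_lit 0)) (T.h (T.h (P (nat_lit 476186040661101512753152)) (T.h (P (nat_lit 0)) (M (nat_lit 397362962484396031))))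 (T.h (P (nat_lit 0)) (M (nat_lit 422236491253940223)))))) (T.h (T.h (P (nat_lit 0)) (T.h (T.h (P (nat_lit 0)) (T.h (P (nat_lit 1322545403081254764544)) (T.h (P (nat_lit 0)) (M (nat_lit 375385171935791))))) (T.h (P (nat_lit 0)) (T.h (T.h (P (nat_lit 0)) (P (nat_lit 102501963535680))) (P (nat_lit 0)))))) (T.h (T.h (T.h (M (nat_lit 889584134380146655231)) (T.h (P (nat_lit 0)) (P (nat_lit 1345045415245119488)))) (T.h (P (nat_lit 0)) (P (nat_lit 615821914529857536)))) (T.h (T.h (P (nat_lit 0)) (T.h (T.h (P (nat_lit 0)) (P (nat_lit 84935016016176))) (P (nat_lit 0)))) (P (nat_lit 125291518135107584)))))))]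
def lP22_24 : List (T ℤ) := [(T.h (T.h (P (nat_lit 0)) (T.h (T.h (M (nat_lit 18546290553820891719934148607)) (T.h (P (nat_lit 0)) (T.h (M (nat_lit 325952085450701739655167)) (T.h (P (nat_lit 0)) (P (nat_lit 404521232251764736)))))) (T.h (P (nat_lit 0)) (T.h (T.h (M (nat_lit 22341720632500368179199)) (T.h (P (nat_lit 0)) (M (nat_lit 733288907609882623)))) (T.h (P (nat_lit 0)) (M (nat_lit 30280732615884799))))))) (T.h (T.h (T.h (P (nat_lit 0)) (T.h (M (nat_lit 200019581407957227222859775)) (T.h (P (nat_lit 0)) (T.h (M (nat_lit 177452651307989991423)) (T.h (P (nat_lit 0)) (P (nat_lit 426040037735472))))))) (T.h (P (nat_lit 0)) (T.h (T.h (P (nat_lit 0)) (T.h (P (nat_lit 520332264399049850880)) (T.h (P (nat_lit 0)) (M (nat_lit 370281257012735))))) (T.h (P (nat_lit 0)) (T.h (T.h (P (nat_lit 0)) (M (nat_lit 652272875091791))) (P (nat_lit 0))))))) (T.h (T.h (P (nat_lit 0)) (T.h (T.h (M (nat_lit 210437898605301061386239)) (T.h (P (nat_lit 0)) (P (nat_lit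 552192088727060480)))) (T.h (P (nat_lit 0)) (P (nat_lit 155420708231987200))))) (T.h (T.h (T.h (P (nat_lit 0)) (T.h (P (nat_lit 284957924321170292736)) (T.h (P (nat_lit 0)) (M (nat_lit 139875434361503))))) (T.h (P (nat_lit 0)) (T.h (T.h (P (nat_lit 0)) (M (nat_lit 715576709790719))) (P (nat_lit 0))))) (T.h (T.h (P (nat_lit 0)) (P (nat_lit 119309821179199488))) (T.h (T.h (T.h (P (nat_lit 0)) (P (nat_lit 343761685065648))) (P (nat_lit 0))) (P (nat_lit 0)))))))), (T.h (T.h (P (nat_lit 0)) (T.h (T.h (P (nat_lit 0)) (T.h (M (nat_lit 80646483748371014887669759)) (T.h (P (nat_lit 0)) (M (nat_lit 285708444077886799871))))) (T.h (P (nat_lit 0)) (T.h (T.h (P (nat_lit 0)) (P (nat_lit 154905204815516663808))) (P (nat_lit 0)))))) (T.h (T.h (T.h (P (nat_lit 5875853749117232861644062720)) (T.h (P (nat_lit 0)) (T.h (P (nat_lit 597819730065066370793472)) (T.h (P (nat_lit 0)) (M (nat_lit 319383543968333823)))))) (T.h (P (nat_lit 0)) (T.h (T.h (M (nat_lit 352533966064873799417855))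 (T.h (P (nat_lit 0)) (P (nat_lit 282409478345752576)))) (T.h (P (nat_lit 0)) (P (nat_lit 147436560602660864)))))) (T.h (T.h (P (nat_lit 0)) (T.h (T.h (P (nat_lit 0)) (M (nat_lit 186387387886570831871))) (P (nat_lit 0)))) (T.h (T.h (T.h (P (nat_lit 86100508455794164891648)) (T.h (P (nat_lit 0)) (P (nat_lit 114884661064007680)))) (T.h (P (nat_lit 0)) (P (nat_lit 127452087531929600)))) (T.h (P (nat_lit 0)) (M (nat_lit 149520828772483071))))))), (P (nat_lit 0)), (T.h (T.h (T.h (M (nat_lit 3394801292347723612557888454655)) (T.h (P (nat_lit 0)) (T.h (M (nat_lit 5434118682628604146221055)) (T.h (P (nat_lit 0)) (T.h (M (nat_lit 7321025331169591295)) (T.h (P (nat_lit 0)) (M (nat_lit 1981720118879)))))))) (T.h (P (nat_lit 0)) (T.h (T.h (P (nat_lit 26477007149013805545029632)) (T.h (P (nat_lit 0)) (T.h (M (nat_lit 120370363877719801855)) (T.h (P (nat_lit 0)) (P (nat_lit 19445134848960)))))) (T.h (P (nat_lit 0)) (T.h (T.h (M (nat_lit 11637485353798991871)) (T.h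 (P (nat_lit 0)) (M (nat_lit 104287281364127)))) (T.h (P (nat_lit 0)) (M (nat_lit 5654054247519)))))))) (T.h (T.h (P (nat_lit 0)) (T.h (T.h (P (nat_lit 0)) (T.h (M (nat_lit 6362359278971052359679)) (T.h (P (nat_lit 0)) (M (nat_lit 154976873774710783))))) (T.h (P (nat_lit 0)) (T.h (T.h (P (nat_lit 0)) (M (nat_lit 135719300220321791))) (P (nat_lit 0)))))) (T.h (T.h (T.h (P (nat_lit 24103448565242123354374144)) (T.h (P (nat_lit 0)) (T.h (P (nat_lit 3573854567118405632)) (T.h (P (nat_lit 0)) (M (nat_lit 57358249793279)))))) (T.h (P (nat_lit 0)) (T.h (T.h (P (nat_lit 86457667896909758464)) (T.h (P (nat_lit 0)) (P (nat_lit 168515996858544)))) (T.h (P (nat_lit 0)) (P (nat_lit 165372176523456)))))) (T.h (T.h (P (nat_lit 0)) (T.h (T.h (P (nat_lit 0)) (P (nat_lit 157961034702782464))) (P (nat_lit 0)))) (T.h (T.h (T.h (P (nat_lit 11026167477728968704)) (T.h (P (nat_lit 0)) (M (nat_lit 35050319275487)))) (T.h (P (nat_lit 0)) (P (nat_lit 54305835975360)))) (T.h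 (P (nat_lit 0)) (P (nat_lit 8700861836544)))))))), (T.h (T.h (T.h (P (nat_lit 0)) (T.h (P (nat_lit 22422369025759376930156576768)) (T.h (P (nat_lit 0)) (T.h (M (nat_lit 6087368376591455354879)) (T.h (P (nat_lit 0)) (M (nat_lit 24736586224271359))))))) (T.h (P (nat_lit 0)) (T.h (T.h (P (nat_lit 0)) (T.h (P (nat_lit 76776786994339017392128)) (T.h (P (nat_lit 0)) (P (nat_lit 425623869941825536))))) (T.h (P (nat_lit 0)) (T.h (T.h (P (nat_lit 0)) (P (nat_lit 166631489530445824))) (P (nat_lit 0))))))) (T.h (T.h (P (nat_lit 0)) (T.h (T.h (M (nat_lit 18104529234598034365480959)) (T.h (P (nat_lit 0)) (T.h (M (nat_lit 65875113286962249727)) (T.h (P (nat_lit 0)) (P (nat_lit 245254089850128)))))) (T.h (P (nat_lit 0)) (T.h (T.h (M (nat_lit 483536738113462206463)) (T.h (P (nat_lit 0)) (P (nat_lit 302448598904144)))) (T.h (P (nat_lit 0)) (P (nat_lit 4501068401936))))))) (T.h (T.h (T.h (P (nat_lit 0)) (T.h (M (nat_lit 3633777247198442946559)) (T.h (P (nat_lit 0))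 (P (nat_lit 121172382671339520))))) (T.h (P (nat_lit 0)) (T.h (T.h (P (nat_lit 0)) (M (nat_lit 955165724419751935))) (P (nat_lit 0))))) (T.h (T.h (P (nat_lit 0)) (T.h (T.h (M (nat_lit 342750232213628911615)) (T.h (P (nat_lit 0)) (P (nat_lit 138298531161408)))) (T.h (P (nat_lit 0)) (M (nat_lit 407645324492543))))) (T.h (T.h (T.h (P (nat_lit 0)) (P (nat_lit 230717039266758656))) (P (nat_lit 0))) (T.h (T.h (P (nat_lit 0)) (P (nat_lit 11828458486864))) (P (nat_lit 0)))))))), (T.h (T.h (T.h (P (nat_lit 24899144984106667798874124451840)) (T.h (P (nat_lit 0)) (T.h (P (nat_lit 47839095356928101906907136)) (T.h (P (nat_lit 0)) (T.h (M (nat_lit 94822121564283076607)) (T.h (P (nat_lit 0)) (M (nat_lit 18998572290527)))))))) (T.h (P (nat_lit 0)) (T.h (T.h (P (nat_lit 68634235621916681403629568)) (T.h (P (nat_lit 0)) (T.h (M (nat_lit 2289326733549109247)) (T.h (P (nat_lit 0)) (M (nat_lit 37685973642911)))))) (T.h (P (nat_lit 0)) (T.h (T.h (P (nat_lit 151681002172447719424))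 (T.h (P (nat_lit 0)) (M (nat_lit 25799040662399)))) (T.h (P (nat_lit 0)) (M (nat_lit 63026755876031)))))))) (T.h (T.h (P (nat_lit 0)) (T.h (T.h (P (nat_lit 0)) (T.h (P (nat_lit 137304566987107078242304)) (T.h (P (nat_lit 0)) (M (nat_lit 1277752295594328063))))) (T.h (P (nat_lit 0)) (T.h (T.h (P (nat_lit 0)) (M (nat_lit 1537276644687216639))) (P (nat_lit 0)))))) (T.h (T.h (T.h (P (nat_lit 47839095356928101906907136)) (T.h (P (nat_lit 0)) (T.h (P (nat_lit 597862757806167293952)) (T.h (P (nat_lit 0)) (P (nat_lit 223956827530560)))))) (T.h (P (nat_lit 0)) (T.h (T.h (M (nat_lit 2289326733549109247)) (T.h (P (nat_lit 0)) (M (nat_lit 43176989827583)))) (T.h (P (nat_lit 0)) (M (nat_lit 25799040662399)))))) (T.h (T.h (P (nat_lit 0)) (T.h (T.h (P (nat_lit 0)) (M (nat_lit 1277752295594328063))) (P (nat_lit 0)))) (T.h (T.h (T.h (M (nat_lit 94822121564283076607)) (T.h (P (nat_lit 0)) (P (nat_lit 223956827530560)))) (T.h (P (nat_lit 0)) (M (nat_lit 37685973642911))))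 (T.h (P (nat_lit 0)) (M (nat_lit 18998572290527)))))))), (T.h (T.h (T.h (P (nat_lit 0)) (T.h (P (nat_lit 12028536107894914256820240384)) (T.h (P (nat_lit 0)) (T.h (M (nat_lit 46685886003765909127167)) (T.h (P (nat_lit 0)) (M (nat_lit 196876010285465599))))))) (T.h (P (nat_lit 0)) (T.h (T.h (P (nat_lit 0)) (T.h (M (nat_lit 110753031696768351338495)) (T.h (P (nat_lit 0)) (P (nat_lit 6537240484593664))))) (T.h (P (nat_lit 0)) (T.h (T.h (P (nat_lit 0)) (M (nat_lit 122451746158608383))) (P (nat_lit 0))))))) (T.h (T.h (P (nat_lit 0)) (T.h (T.h (M (nat_lit 33694261544999099226390527)) (T.h (P (nat_lit 0)) (T.h (P (nat_lit 1568643296083048398848)) (T.h (P (nat_lit 0)) (M (nat_lit 932773171568831)))))) (T.h (P (nat_lit 0)) (T.h (T.h (P (nat_lit 175798943594649223168)) (T.h (P (nat_lit 0)) (M (nat_lit 1038291398449487)))) (T.h (P (nat_lit 0)) (P (nat_lit 346233505605120))))))) (T.h (T.h (T.h (P (nat_lit 0)) (T.h (M (nat_lit 213339843520543624003583)) (T.h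 (P (nat_lit 0)) (P (nat_lit 230855324925116416))))) (T.h (P (nat_lit 0)) (T.h (T.h (P (nat_lit 0)) (M (nat_lit 341346496037289983))) (P (nat_lit 0))))) (T.h (T.h (P (nat_lit 0)) (T.h (T.h (M (nat_lit 101717844960955334655)) (T.h (P (nat_lit 0)) (M (nat_lit 956830296593519)))) (T.h (P (nat_lit 0)) (M (nat_lit 19573388380223))))) (T.h (T.h (T.h (P (nat_lit 0)) (M (nat_lit 22788379527593983))) (P (nat_lit 0))) (T.h (T.h (P (nat_lit 0)) (P (nat_lit 277842323649024))) (P (nat_lit 0)))))))), (T.h (T.h (T.h (M (nat_lit 8062519416909645403126147055615)) (T.h (P (nat_lit 0)) (T.h (M (nat_lit 132428481680192094934663167)) (T.h (P (nat_lit 0)) (P (nat_lit 263148277978831519744)))))) (T.h (P (nat_lit 0)) (T.h (T.h (M (nat_lit 127752026040341769536667647)) (T.h (P (nat_lit 0)) (P (nat_lit 219410751602894569472)))) (T.h (P (nat_lit 0)) (P (nat_lit 103829370062434729984)))))) (T.h (T.h (P (nat_lit 0)) (T.h (T.h (P (nat_lit 0)) (T.h (M (nat_lit 881153977836019529023487))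 (T.h (P (nat_lit 0)) (P (nat_lit 1455658698815504384))))) (T.h (P (nat_lit 0)) (T.h (T.h (P (nat_lit 0)) (P (nat_lit 1381881065414066176))) (P (nat_lit 0)))))) (T.h (T.h (T.h (M (nat_lit 130429572048274419473186815)) (T.h (P (nat_lit 0)) (M (nat_lit 560407240565642493951)))) (T.h (P (nat_lit 0)) (M (nat_lit 388000715452236955647)))) (T.h (T.h (P (nat_lit 0)) (T.h (T.h (P (nat_lit 0)) (P (nat_lit 1375429153100333056))) (P (nat_lit 0)))) (P (nat_lit 71637353346579300352))))))]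
def lP22_25 : List (T ℤ) := [(T.h (T.h (P (nat_lit 0)) (T.h (T.h (P (nat_lit 0)) (T.h (M (nat_lit 7185236083707900717957119)) (T.h (P (nat_lit 0)) (T.h (P (nat_lit 3354224471622811648)) (T.h (P (nat_lit 0)) (P (nat_lit 26085537184))))))) (T.h (P (nat_lit 0)) (T.h (T.h (P (nat_lit 0)) (T.h (P (nat_lit 12105574288833118208)) (T.h (P (nat_lit 0)) (M (nat_lit 8558637664695))))) (T.h (P (nat_lit 0)) (T.h (T.h (P (nat_lit 0)) (M (nat_lit 37010954213999))) (P (nat_lit 0)))))))) (T.h (T.h (T.h (P (nat_lit 2249173928889727482182238208)) (T.h (P (nat_lit 0)) (T.h (M (nat_lit 4991051602226185240575)) (T.h (P (nat_lit 0)) (P (nat_lit 2120504879120384)))))) (T.h (P (nat_lit 0)) (T.h (T.h (P (nat_lit 23895936941836185108480)) (T.h (P (nat_lit 0)) (P (nat_lit 12565639803011072)))) (T.h (P (nat_lit 0)) (M (nat_lit 69107667941326847)))))) (T.h (T.h (P (nat_lit 0)) (T.h (T.h (P (nat_lit 0)) (T.h (P (nat_lit 2037456595029327872)) (T.h (P (nat_lit 0)) (M (nat_lit 4652274396391)))))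 (T.h (P (nat_lit 0)) (T.h (T.h (P (nat_lit 0)) (P (nat_lit 106076979911416))) (P (nat_lit 0)))))) (T.h (T.h (T.h (P (nat_lit 8955629997758437392384)) (T.h (P (nat_lit 0)) (P (nat_lit 2757992272723968)))) (T.h (P (nat_lit 0)) (M (nat_lit 30764528360194047)))) (T.h (T.h (P (nat_lit 0)) (T.h (T.h (P (nat_lit 0)) (M (nat_lit 20349208859607))) (P (nat_lit 0)))) (M (nat_lit 12698370511568895))))))), (T.h (T.h (P (nat_lit 0)) (T.h (T.h (M (nat_lit 13210451688327983842182823935)) (T.h (P (nat_lit 0)) (T.h (P (nat_lit 71268525060009716875264)) (T.h (P (nat_lit 0)) (M (nat_lit 77890511696707583)))))) (T.h (P (nat_lit 0)) (T.h (T.h (P (nat_lit 53049158737755864301568)) (T.h (P (nat_lit 0)) (P (nat_lit 142194421957574656)))) (T.h (P (nat_lit 0)) (M (nat_lit 33213642493526015))))))) (T.h (T.h (T.h (P (nat_lit 0)) (T.h (M (nat_lit 812139356238288361881599)) (T.h (P (nat_lit 0)) (T.h (P (nat_lit 14353739500201443328)) (T.h (P (nat_lit 0)) (M (nat_lit 12009131250063)))))))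 (T.h (P (nat_lit 0)) (T.h (T.h (P (nat_lit 0)) (T.h (P (nat_lit 686793345222343393280)) (T.h (P (nat_lit 0)) (M (nat_lit 5250374281359))))) (T.h (P (nat_lit 0)) (T.h (T.h (P (nat_lit 0)) (M (nat_lit 33739957894015))) (P (nat_lit 0))))))) (T.h (T.h (P (nat_lit 0)) (T.h (T.h (P (nat_lit 71268525060009716875264)) (T.h (P (nat_lit 0)) (M (nat_lit 82599042909241343)))) (T.h (P (nat_lit 0)) (P (nat_lit 142194421957574656))))) (T.h (T.h (T.h (P (nat_lit 0)) (T.h (P (nat_lit 14353739500201443328)) (T.h (P (nat_lit 0)) (P (nat_lit 15419168176256))))) (T.h (P (nat_lit 0)) (T.h (T.h (P (nat_lit 0)) (M (nat_lit 5250374281359))) (P (nat_lit 0))))) (T.h (T.h (P (nat_lit 0)) (M (nat_lit 77890511696707583))) (T.h (T.h (T.h (P (nat_lit 0)) (M (nat_lit 12009131250063))) (P (nat_lit 0))) (P (nat_lit 0)))))))), (T.h (T.h (P (nat_lit 0)) (T.h (T.h (P (nat_lit 0)) (T.h (M (nat_lit 85696567655514798834057215)) (T.h (P (nat_lit 0)) (T.h (M (nat_lit 470033679047496564735))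 (T.h (P (nat_lit 0)) (P (nat_lit 31916731158624))))))) (T.h (P (nat_lit 0)) (T.h (T.h (P (nat_lit 0)) (T.h (P (nat_lit 257694155673815744512)) (T.h (P (nat_lit 0)) (P (nat_lit 209440073796384))))) (T.h (P (nat_lit 0)) (T.h (T.h (P (nat_lit 0)) (M (nat_lit 65793922930175))) (P (nat_lit 0)))))))) (T.h (T.h (T.h (M (nat_lit 17615004041375262466134507519)) (T.h (P (nat_lit 0)) (T.h (P (nat_lit 100033827551878204882944)) (T.h (P (nat_lit 0)) (M (nat_lit 48504213693825023)))))) (T.h (P (nat_lit 0)) (T.h (T.h (P (nat_lit 238071711623405765656576)) (T.h (P (nat_lit 0)) (M (nat_lit 474806415359246335)))) (T.h (P (nat_lit 0)) (M (nat_lit 174905089141735423)))))) (T.h (T.h (P (nat_lit 0)) (T.h (T.h (P (nat_lit 0)) (T.h (M (nat_lit 29837369592751587327)) (T.h (P (nat_lit 0)) (P (nat_lit 121045113501696))))) (T.h (P (nat_lit 0)) (T.h (T.h (P (nat_lit 0)) (M (nat_lit 412419362082719))) (P (nat_lit 0)))))) (T.h (T.h (T.h (M (nat_lit 129295660143229062348799)) (T.h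 (P (nat_lit 0)) (M (nat_lit 4358388351205375)))) (T.h (P (nat_lit 0)) (M (nat_lit 1346142216951136255)))) (T.h (T.h (P (nat_lit 0)) (T.h (T.h (P (nat_lit 0)) (M (nat_lit 130514897064239))) (P (nat_lit 0)))) (P (nat_lit 7889633875230720))))))), (T.h (T.h (P (nat_lit 0)) (T.h (T.h (P (nat_lit 40673650172555421235548258304)) (T.h (P (nat_lit 0)) (T.h (P (nat_lit 31235241777793930887168)) (T.h (P (nat_lit 0)) (M (nat_lit 172145843293405183)))))) (T.h (P (nat_lit 0)) (T.h (T.h (M (nat_lit 39691277316547544088575)) (T.h (P (nat_lit 0)) (M (nat_lit 101253847821844479)))) (T.h (P (nat_lit 0)) (M (nat_lit 344924957231022079))))))) (T.h (T.h (T.h (P (nat_lit 0)) (T.h (P (nat_lit 200813700968121880197201920)) (T.h (P (nat_lit 0)) (T.h (P (nat_lit 20604669780283097088)) (T.h (P (nat_lit 0)) (M (nat_lit 51266425482431))))))) (T.h (P (nat_lit 0)) (T.h (T.h (P (nat_lit 0)) (T.h (P (nat_lit 1865746472162633449472)) (T.h (P (nat_lit 0)) (M (nat_lit 293166967247135)))))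 (T.h (P (nat_lit 0)) (T.h (T.h (P (nat_lit 0)) (M (nat_lit 986805341522495))) (P (nat_lit 0))))))) (T.h (T.h (P (nat_lit 0)) (T.h (T.h (P (nat_lit 31235241777793930887168)) (T.h (P (nat_lit 0)) (M (nat_lit 747190396495724543)))) (T.h (P (nat_lit 0)) (M (nat_lit 101253847821844479))))) (T.h (T.h (T.h (P (nat_lit 0)) (T.h (P (nat_lit 20604669780283097088)) (T.h (P (nat_lit 0)) (P (nat_lit 159986344880448))))) (T.h (P (nat_lit 0)) (T.h (T.h (P (nat_lit 0)) (M (nat_lit 293166967247135))) (P (nat_lit 0))))) (T.h (T.h (P (nat_lit 0)) (M (nat_lit 172145843293405183))) (T.h (T.h (T.h (P (nat_lit 0)) (M (nat_lit 51266425482431))) (P (nat_lit 0))) (P (nat_lit 0)))))))), (T.h (T.h (P (nat_lit 0)) (T.h (T.h (P (nat_lit 0)) (T.h (M (nat_lit 14156786543232229258035199)) (T.h (P (nat_lit 0)) (P (nat_lit 67880450572645564416))))) (T.h (P (nat_lit 0)) (T.h (T.h (P (nat_lit 0)) (P (nat_lit 291755589510365184000))) (P (nat_lit 0)))))) (T.h (T.h (T.h (M (nat_lit 15304403450844262157386776575))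 (T.h (P (nat_lit 0)) (T.h (M (nat_lit 444656523572546264629247)) (T.h (P (nat_lit 0)) (P (nat_lit 213372225483440128)))))) (T.h (P (nat_lit 0)) (T.h (T.h (P (nat_lit 275135551730762599366656)) (T.h (P (nat_lit 0)) (P (nat_lit 694833859304128512)))) (T.h (P (nat_lit 0)) (M (nat_lit 124639793356668927)))))) (T.h (T.h (P (nat_lit 0)) (T.h (T.h (P (nat_lit 0)) (P (nat_lit 91973834503303987200))) (P (nat_lit 0)))) (T.h (T.h (T.h (P (nat_lit 33756919650715286110208)) (T.h (P (nat_lit 0)) (M (nat_lit 15054957163479039)))) (T.h (P (nat_lit 0)) (M (nat_lit 10880302569553919)))) (T.h (P (nat_lit 0)) (M (nat_lit 108740723189809151))))))), (T.h (T.h (T.h (P (nat_lit 0)) (T.h (P (nat_lit 2084092978544746558608375808)) (T.h (P (nat_lit 0)) (T.h (M (nat_lit 2445534956294129057791)) (T.h (P (nat_lit 0)) (P (nat_lit 2747498126852096))))))) (T.h (P (nat_lit 0)) (T.h (T.h (P (nat_lit 0)) (T.h (M (nat_lit 14112679512842935730175)) (T.h (P (nat_lit 0)) (P (nat_lit 3081846973022208)))))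 (T.h (P (nat_lit 0)) (T.h (T.h (P (nat_lit 0)) (M (nat_lit 145933282261073919))) (P (nat_lit 0))))))) (T.h (T.h (P (nat_lit 0)) (T.h (T.h (P (nat_lit 3505100089068918241492992)) (T.h (P (nat_lit 0)) (T.h (P (nat_lit 8688976552274165760)) (T.h (P (nat_lit 0)) (M (nat_lit 6391443606815)))))) (T.h (P (nat_lit 0)) (T.h (T.h (P (nat_lit 83778115168194527232)) (T.h (P (nat_lit 0)) (P (nat_lit 19291176429520)))) (T.h (P (nat_lit 0)) (M (nat_lit 335941989346463))))))) (T.h (T.h (T.h (P (nat_lit 0)) (T.h (M (nat_lit 13105697841355797037055)) (T.h (P (nat_lit 0)) (M (nat_lit 10769564384280575))))) (T.h (P (nat_lit 0)) (T.h (T.h (P (nat_lit 0)) (M (nat_lit 45175380232437759))) (P (nat_lit 0))))) (T.h (T.h (P (nat_lit 0)) (T.h (T.h (M (nat_lit 3206093737427992575)) (T.h (P (nat_lit 0)) (P (nat_lit 7731991111936)))) (T.h (P (nat_lit 0)) (P (nat_lit 19834863972112))))) (T.h (T.h (T.h (P (nat_lit 0)) (M (nat_lit 21643633645551615))) (P (nat_lit 0))) (T.h (T.h (P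 (nat_lit 0)) (M (nat_lit 2171138809055))) (P (nat_lit 0)))))))), (T.h (T.h (T.h (M (nat_lit 10908091202296607606064923279359)) (T.h (P (nat_lit 0)) (T.h (P (nat_lit 7611565181106873031458816)) (T.h (P (nat_lit 0)) (T.h (M (nat_lit 26661579478922166271)) (T.h (P (nat_lit 0)) (M (nat_lit 1272585424271)))))))) (T.h (P (nat_lit 0)) (T.h (T.h (M (nat_lit 106870122577452009223356415)) (T.h (P (nat_lit 0)) (T.h (P (nat_lit 207371639715153313792)) (T.h (P (nat_lit 0)) (M (nat_lit 106775006108063)))))) (T.h (P (nat_lit 0)) (T.h (T.h (P (nat_lit 435617874878641733632)) (T.h (P (nat_lit 0)) (P (nat_lit 86654082495648)))) (T.h (P (nat_lit 0)) (P (nat_lit 5727466517568)))))))) (T.h (T.h (P (nat_lit 0)) (T.h (T.h (P (nat_lit 0)) (T.h (P (nat_lit 125059298089674232299520)) (T.h (P (nat_lit 0)) (P (nat_lit 210507189172764672))))) (T.h (P (nat_lit 0)) (T.h (T.h (P (nat_lit 0)) (P (nat_lit 2029145175772889088))) (P (nat_lit 0)))))) (T.h (T.h (T.h (P (nat_lit 82864319336703675494039552))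 (T.h (P (nat_lit 0)) (T.h (M (nat_lit 24513740372315209727)) (T.h (P (nat_lit 0)) (M (nat_lit 54304868692991)))))) (T.h (P (nat_lit 0)) (T.h (T.h (P (nat_lit 211858420758472556544)) (T.h (P (nat_lit 0)) (M (nat_lit 51987151445087)))) (T.h (P (nat_lit 0)) (P (nat_lit 86654082495648)))))) (T.h (T.h (P (nat_lit 0)) (T.h (T.h (P (nat_lit 0)) (M (nat_lit 197613513858678783))) (P (nat_lit 0)))) (T.h (T.h (T.h (M (nat_lit 22000063034372915199)) (T.h (P (nat_lit 0)) (M (nat_lit 54304868692991)))) (T.h (P (nat_lit 0)) (M (nat_lit 106775006108063)))) (T.h (P (nat_lit 0)) (M (nat_lit 1272585424271)))))))), (T.h (T.h (T.h (P (nat_lit 0)) (T.h (M (nat_lit 13573676804449271778119778303)) (T.h (P (nat_lit 0)) (T.h (P (nat_lit 1942311387912894152704)) (T.h (P (nat_lit 0)) (M (nat_lit 1903429775097855))))))) (T.h (P (nat_lit 0)) (T.h (T.h (P (nat_lit 0)) (T.h (M (nat_lit 123685703018075998126079)) (T.h (P (nat_lit 0)) (M (nat_lit 918815193072631807))))) (T.h (P (nat_lit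 0)) (T.h (T.h (P (nat_lit 0)) (P (nat_lit 618504330957160448))) (P (nat_lit 0))))))) (T.h (T.h (P (nat_lit 0)) (T.h (T.h (M (nat_lit 67893118468651189618606079)) (T.h (P (nat_lit 0)) (T.h (M (nat_lit 133714427716321673215)) (T.h (P (nat_lit 0)) (M (nat_lit 448419969149615)))))) (T.h (P (nat_lit 0)) (T.h (T.h (P (nat_lit 161391976297722281984)) (T.h (P (nat_lit 0)) (P (nat_lit 369032250294000)))) (T.h (P (nat_lit 0)) (P (nat_lit 506468864353392))))))) (T.h (T.h (T.h (P (nat_lit 0)) (T.h (M (nat_lit 39822502409192226160639)) (T.h (P (nat_lit 0)) (M (nat_lit 3137736619360255))))) (T.h (P (nat_lit 0)) (T.h (T.h (P (nat_lit 0)) (P (nat_lit 589187949178290176))) (P (nat_lit 0))))) (T.h (T.h (P (nat_lit 0)) (T.h (T.h (P (nat_lit 246069661220623876096)) (T.h (P (nat_lit 0)) (P (nat_lit 292855403765520)))) (T.h (P (nat_lit 0)) (P (nat_lit 316610714032560))))) (T.h (T.h (T.h (P (nat_lit 0)) (P (nat_lit 49924096142262272))) (P (nat_lit 0))) (T.h (T.h (P (nat_lit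 0)) (M (nat_lit 147393761480063))) (P (nat_lit 0))))))))]
def lP22_26 : List (T ℤ) := [(T.h (T.h (T.h (P (nat_lit 13913628505482159896886761226240)) (T.h (P (nat_lit 0)) (T.h (P (nat_lit 22347070315783311329329152)) (T.h (P (nat_lit 0)) (P (nat_lit 30377082006527803392)))))) (T.h (P (nat_lit 0)) (T.h (T.h (P (nat_lit 15671705044015310469857280)) (T.h (P (nat_lit 0)) (P (nat_lit 613330864647744520192)))) (T.h (P (nat_lit 0)) (P (nat_lit 381206914555176812544)))))) (T.h (T.h (P (nat_lit 0)) (T.h (T.h (P (nat_lit 0)) (T.h (M (nat_lit 491777458160134256590847)) (T.h (P (nat_lit 0)) (P (nat_lit 408303616810483712))))) (T.h (P (nat_lit 0)) (T.h (T.h (P (nat_lit 0)) (P (nat_lit 562310795927093248))) (P (nat_lit 0)))))) (T.h (T.h (T.h (P (nat_lit 22347070315783311329329152)) (T.h (P (nat_lit 0)) (P (nat_lit 178325922706018533376)))) (T.h (P (nat_lit 0)) (P (nat_lit 613330864647744520192)))) (T.h (T.h (P (nat_lit 0)) (T.h (T.h (P (nat_lit 0)) (P (nat_lit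 408303616810483712))) (P (nat_lit 0)))) (P (nat_lit 30377082006527803392)))))), (T.h (T.h (P (nat_lit 0)) (T.h (T.h (P (nat_lit 0)) (T.h (P (nat_lit 8420469345027642405945344)) (T.h (P (nat_lit 0)) (T.h (M (nat_lit 26595740297180741631)) (T.h (P (nat_lit 0)) (P (nat_lit 2088080913312))))))) (T.h (P (nat_lit 0)) (T.h (T.h (P (nat_lit 0)) (T.h (P (nat_lit 184211853846620667904)) (T.h (P (nat_lit 0)) (P (nat_lit 13347002066688))))) (T.h (P (nat_lit 0)) (T.h (T.h (P (nat_lit 0)) (M (nat_lit 98814136291871))) (P (nat_lit 0)))))))) (T.h (T.h (T.h (M (nat_lit 2787373763577663888453271551)) (T.h (P (nat_lit 0)) (T.h (M (nat_lit 3668610430600438874111)) (T.h (P (nat_lit 0)) (M (nat_lit 12344674416689151)))))) (T.h (P (nat_lit 0)) (T.h (T.h (P (nat_lit 37652368741945447546880)) (T.h (P (nat_lit 0)) (M (nat_lit 105182443699470335)))) (T.h (P (nat_lit 0)) (P (nat_lit 498903295979454464)))))) (T.h (T.h (P (nat_lit 0)) (T.h (T.h (P (nat_lit 0)) (T.h (M (nat_lit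 29332209703661338623)) (T.h (P (nat_lit 0)) (M (nat_lit 18427241446751))))) (T.h (P (nat_lit 0)) (T.h (T.h (P (nat_lit 0)) (M (nat_lit 31467877982927))) (P (nat_lit 0)))))) (T.h (T.h (T.h (M (nat_lit 14596476764099333586943)) (T.h (P (nat_lit 0)) (M (nat_lit 47013678771863551)))) (T.h (P (nat_lit 0)) (M (nat_lit 18450982411370495)))) (T.h (T.h (P (nat_lit 0)) (T.h (T.h (P (nat_lit 0)) (M (nat_lit 5796365101967))) (P (nat_lit 0)))) (P (nat_lit 12471877204180992))))))), (T.h (T.h (P (nat_lit 0)) (T.h (T.h (P (nat_lit 36998131545928357616738631680)) (T.h (P (nat_lit 0)) (T.h (M (nat_lit 90589036788935810875391)) (T.h (P (nat_lit 0)) (P (nat_lit 79739785560276992)))))) (T.h (P (nat_lit 0)) (T.h (T.h (M (nat_lit 3100395856076149358591)) (T.h (P (nat_lit 0)) (P (nat_lit 15382350327431168)))) (T.h (P (nat_lit 0)) (P (nat_lit 166287845529026560))))))) (T.h (T.h (T.h (P (nat_lit 0)) (T.h (M (nat_lit 53272160417920283098218495)) (T.h (P (nat_lit 0)) (T.h (M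 (nat_lit 18135119514684096511)) (T.h (P (nat_lit 0)) (P (nat_lit 25603466475168))))))) (T.h (P (nat_lit 0)) (T.h (T.h (P (nat_lit 0)) (T.h (M (nat_lit 1051264078816068239359)) (T.h (P (nat_lit 0)) (P (nat_lit 71961381107280))))) (T.h (P (nat_lit 0)) (T.h (T.h (P (nat_lit 0)) (P (nat_lit 354926245962528))) (P (nat_lit 0))))))) (T.h (T.h (P (nat_lit 0)) (T.h (T.h (M (nat_lit 90589036788935810875391)) (T.h (P (nat_lit 0)) (P (nat_lit 200668995862790144)))) (T.h (P (nat_lit 0)) (P (nat_lit 15382350327431168))))) (T.h (T.h (T.h (P (nat_lit 0)) (T.h (M (nat_lit 18135119514684096511)) (T.h (P (nat_lit 0)) (M (nat_lit 85814251092287))))) (T.h (P (nat_lit 0)) (T.h (T.h (P (nat_lit 0)) (P (nat_lit 71961381107280))) (P (nat_lit 0))))) (T.h (T.h (P (nat_lit 0)) (P (nat_lit 79739785560276992))) (T.h (T.h (T.h (P (nat_lit 0)) (P (nat_lit 25603466475168))) (P (nat_lit 0))) (P (nat_lit 0)))))))), (T.h (T.h (P (nat_lit 0)) (T.h (T.h (P (nat_lit 0)) (T.h (P (nat_lit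 3735946704402383644917760)) (T.h (P (nat_lit 0)) (P (nat_lit 383475007715993976832))))) (T.h (P (nat_lit 0)) (T.h (T.h (P (nat_lit 0)) (M (nat_lit 494310156384400834559))) (P (nat_lit 0)))))) (T.h (T.h (T.h (M (nat_lit 21813259648597683975539916799)) (T.h (P (nat_lit 0)) (T.h (M (nat_lit 15869735566753822408703)) (T.h (P (nat_lit 0)) (P (nat_lit 89753293353353216)))))) (T.h (P (nat_lit 0)) (T.h (T.h (M (nat_lit 118029435057447043596287)) (T.h (P (nat_lit 0)) (M (nat_lit 160618762197270527)))) (T.h (P (nat_lit 0)) (M (nat_lit 648658099823935487)))))) (T.h (T.h (P (nat_lit 0)) (T.h (T.h (P (nat_lit 0)) (M (nat_lit 105052476701367336959))) (P (nat_lit 0)))) (T.h (T.h (T.h (P (nat_lit 28873630804895426674688)) (T.h (P (nat_lit 0)) (P (nat_lit 25629441326022656)))) (T.h (P (nat_lit 0)) (M (nat_lit 168907709395697663)))) (T.h (P (nat_lit 0)) (P (nat_lit 41531692143280128))))))), (T.h (T.h (T.h (P (nat_lit 0)) (T.h (P (nat_lit 7613911020926650974465949696))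 (T.h (P (nat_lit 0)) (T.h (P (nat_lit 3737831950392995348480)) (T.h (P (nat_lit 0)) (M (nat_lit 2662119321436159))))))) (T.h (P (nat_lit 0)) (T.h (T.h (P (nat_lit 0)) (T.h (M (nat_lit 37608647712375417339903)) (T.h (P (nat_lit 0)) (M (nat_lit 15025593104400383))))) (T.h (P (nat_lit 0)) (T.h (T.h (P (nat_lit 0)) (P (nat_lit 288386959946383360))) (P (nat_lit 0))))))) (T.h (T.h (P (nat_lit 0)) (T.h (T.h (P (nat_lit 16770020288298499683909632)) (T.h (P (nat_lit 0)) (T.h (P (nat_lit 6148453346429632512)) (T.h (P (nat_lit 0)) (P (nat_lit 17575024374576)))))) (T.h (P (nat_lit 0)) (T.h (T.h (M (nat_lit 54436003502392082431)) (T.h (P (nat_lit 0)) (M (nat_lit 157763501468927)))) (T.h (P (nat_lit 0)) (P (nat_lit 310329193881600))))))) (T.h (T.h (T.h (P (nat_lit 0)) (T.h (P (nat_lit 856239061351264157696)) (T.h (P (nat_lit 0)) (P (nat_lit 18868985238323200))))) (T.h (P (nat_lit 0)) (T.h (T.h (P (nat_lit 0)) (M (nat_lit 11201544438792191))) (P (nat_lit 0)))))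 (T.h (T.h (P (nat_lit 0)) (T.h (T.h (M (nat_lit 24581911049941286911)) (T.h (P (nat_lit 0)) (M (nat_lit 43491366017423)))) (T.h (P (nat_lit 0)) (M (nat_lit 15746492039039))))) (T.h (T.h (T.h (P (nat_lit 0)) (M (nat_lit 18543270365085695))) (P (nat_lit 0))) (T.h (T.h (P (nat_lit 0)) (M (nat_lit 3743196082991))) (P (nat_lit 0)))))))), (T.h (T.h (T.h (M (nat_lit 3388291302366962560366419116031)) (T.h (P (nat_lit 0)) (T.h (P (nat_lit 4983474547258667095293952)) (T.h (P (nat_lit 0)) (P (nat_lit 5571827366197460992)))))) (T.h (P (nat_lit 0)) (T.h (T.h (M (nat_lit 52973080057366503088979967)) (T.h (P (nat_lit 0)) (M (nat_lit 91053075213775273983)))) (T.h (P (nat_lit 0)) (M (nat_lit 201408859984088793087)))))) (T.h (T.h (P (nat_lit 0)) (T.h (T.h (P (nat_lit 0)) (T.h (P (nat_lit 130518322924367101558784)) (T.h (P (nat_lit 0)) (M (nat_lit 28954197942730751))))) (T.h (P (nat_lit 0)) (T.h (T.h (P (nat_lit 0)) (M (nat_lit 179461911432396799))) (P (nat_lit 0))))))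 (T.h (T.h (T.h (P (nat_lit 4983474547258667095293952)) (T.h (P (nat_lit 0)) (M (nat_lit 46072855600505552895)))) (T.h (P (nat_lit 0)) (M (nat_lit 91053075213775273983)))) (T.h (T.h (P (nat_lit 0)) (T.h (T.h (P (nat_lit 0)) (M (nat_lit 28954197942730751))) (P (nat_lit 0)))) (P (nat_lit 5571827366197460992)))))), (T.h (T.h (P (nat_lit 0)) (T.h (T.h (P (nat_lit 0)) (T.h (M (nat_lit 1761177201905144919228415)) (T.h (P (nat_lit 0)) (M (nat_lit 1424453042811437055))))) (T.h (P (nat_lit 0)) (T.h (T.h (P (nat_lit 0)) (M (nat_lit 159289274093619118079))) (P (nat_lit 0)))))) (T.h (T.h (T.h (M (nat_lit 1069719061105742419312246783)) (T.h (P (nat_lit 0)) (T.h (P (nat_lit 167114983961662586880)) (T.h (P (nat_lit 0)) (M (nat_lit 6948109256065023)))))) (T.h (P (nat_lit 0)) (T.h (T.h (M (nat_lit 9039233065320873721855)) (T.h (P (nat_lit 0)) (P (nat_lit 69713786696892416)))) (T.h (P (nat_lit 0)) (M (nat_lit 360924354560393215)))))) (T.h (T.h (P (nat_lit 0)) (T.h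 (T.h (P (nat_lit 0)) (P (nat_lit 13635200529196908544))) (P (nat_lit 0)))) (T.h (T.h (T.h (P (nat_lit 4810639926731932172288)) (T.h (P (nat_lit 0)) (P (nat_lit 3999072314753024)))) (T.h (P (nat_lit 0)) (M (nat_lit 9114228696940543)))) (T.h (P (nat_lit 0)) (P (nat_lit 189485684457472))))))), (P (nat_lit 0))]
def lP22_27 : List (T ℤ) := [(P (nat_lit 0)), (T.h (T.h (T.h (P (nat_lit 0)) (T.h (P (nat_lit 1045850818948769630476304384)) (T.h (P (nat_lit 0)) (T.h (P (nat_lit 11065493470585011830784)) (T.h (P (nat_lit 0)) (M (nat_lit 50996580505223167))))))) (T.h (P (nat_lit 0)) (T.h (T.h (P (nat_lit 0)) (T.h (P (nat_lit 14114756792398624325632)) (T.h (P (nat_lit 0)) (M (nat_lit 46915988397752319))))) (T.h (P (nat_lit 0)) (T.h (T.h (P (nat_lit 0)) (M (nat_lit 8809992696004607))) (P (nat_lit 0))))))) (T.h (T.h (P (nat_lit 0)) (T.h (T.h (M (nat_lit 2310389944728478820597759)) (T.h (P (nat_lit 0)) (T.h (M (nat_lit 128546003020681314303)) (T.h (P (nat_lit 0))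 (M (nat_lit 72482620323271)))))) (T.h (P (nat_lit 0)) (T.h (T.h (M (nat_lit 6271557334242164735)) (T.h (P (nat_lit 0)) (P (nat_lit 81363724011496)))) (T.h (P (nat_lit 0)) (M (nat_lit 10114432291911))))))) (T.h (T.h (T.h (P (nat_lit 0)) (T.h (M (nat_lit 66262344181358746664959)) (T.h (P (nat_lit 0)) (P (nat_lit 105498906374373376))))) (T.h (P (nat_lit 0)) (T.h (T.h (P (nat_lit 0)) (P (nat_lit 6363219857768448))) (P (nat_lit 0))))) (T.h (T.h (P (nat_lit 0)) (T.h (T.h (P (nat_lit 2000088618483318784)) (T.h (P (nat_lit 0)) (P (nat_lit 49256574379456)))) (T.h (P (nat_lit 0)) (P (nat_lit 21459189559168))))) (T.h (T.h (T.h (P (nat_lit 0)) (P (nat_lit 105275622569213952))) (P (nat_lit 0))) (T.h (T.h (P (nat_lit 0)) (P (nat_lit 24527691466296))) (P (nat_lit 0)))))))), (T.h (T.h (T.h (P (nat_lit 20481534004357375909785646399488)) (T.h (P (nat_lit 0)) (T.h (P (nat_lit 7134712730511421705551872)) (T.h (P (nat_lit 0)) (T.h (P (nat_lit 22292348661737193472)) (T.h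 (P (nat_lit 0)) (P (nat_lit 38702043570576)))))))) (T.h (P (nat_lit 0)) (T.h (T.h (P (nat_lit 3749059585487618999058432)) (T.h (P (nat_lit 0)) (T.h (M (nat_lit 43849203420319711231)) (T.h (P (nat_lit 0)) (P (nat_lit 49719841574688)))))) (T.h (P (nat_lit 0)) (T.h (T.h (M (nat_lit 1082524976151527423)) (T.h (P (nat_lit 0)) (M (nat_lit 255128296415)))) (T.h (P (nat_lit 0)) (M (nat_lit 2452156826271)))))))) (T.h (T.h (P (nat_lit 0)) (T.h (T.h (P (nat_lit 0)) (T.h (P (nat_lit 19833274399330779791360)) (T.h (P (nat_lit 0)) (P (nat_lit 84413273419382784))))) (T.h (P (nat_lit 0)) (T.h (T.h (P (nat_lit 0)) (M (nat_lit 18460084075888639))) (P (nat_lit 0)))))) (T.h (T.h (T.h (P (nat_lit 7134712730511421705551872)) (T.h (P (nat_lit 0)) (T.h (P (nat_lit 130021666685274030080)) (T.h (P (nat_lit 0)) (M (nat_lit 54957844336799)))))) (T.h (P (nat_lit 0)) (T.h (T.h (M (nat_lit 43849203420319711231)) (T.h (P (nat_lit 0)) (M (nat_lit 47015902198975)))) (T.h (P (nat_lit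 0)) (M (nat_lit 255128296415)))))) (T.h (T.h (P (nat_lit 0)) (T.h (T.h (P (nat_lit 0)) (P (nat_lit 84413273419382784))) (P (nat_lit 0)))) (T.h (T.h (T.h (P (nat_lit 22292348661737193472)) (T.h (P (nat_lit 0)) (M (nat_lit 54957844336799)))) (T.h (P (nat_lit 0)) (P (nat_lit 49719841574688)))) (T.h (P (nat_lit 0)) (P (nat_lit 38702043570576)))))))), (T.h (T.h (T.h (P (nat_lit 0)) (T.h (P (nat_lit 4383589187157381946997211136)) (T.h (P (nat_lit 0)) (T.h (M (nat_lit 232256291288697188384767)) (T.h (P (nat_lit 0)) (M (nat_lit 54969588572815359))))))) (T.h (P (nat_lit 0)) (T.h (T.h (P (nat_lit 0)) (T.h (M (nat_lit 33242811703095004758015)) (T.h (P (nat_lit 0)) (P (nat_lit 80162694280544256))))) (T.h (P (nat_lit 0)) (T.h (T.h (P (nat_lit 0)) (M (nat_lit 13541206185443327))) (P (nat_lit 0))))))) (T.h (T.h (P (nat_lit 0)) (T.h (T.h (M (nat_lit 117027450634404717431619583)) (T.h (P (nat_lit 0)) (T.h (M (nat_lit 483494862802948980735)) (T.h (P (nat_lit 0)) (M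 (nat_lit 117247060976351)))))) (T.h (P (nat_lit 0)) (T.h (T.h (P (nat_lit 65111788684669091840)) (T.h (P (nat_lit 0)) (M (nat_lit 23342997095855)))) (T.h (P (nat_lit 0)) (M (nat_lit 1762651343375))))))) (T.h (T.h (T.h (P (nat_lit 0)) (T.h (M (nat_lit 483039199991606506684415)) (T.h (P (nat_lit 0)) (M (nat_lit 96466544482779135))))) (T.h (P (nat_lit 0)) (T.h (T.h (P (nat_lit 0)) (P (nat_lit 564353510155419648))) (P (nat_lit 0))))) (T.h (T.h (P (nat_lit 0)) (T.h (T.h (M (nat_lit 3472715907627745279)) (T.h (P (nat_lit 0)) (M (nat_lit 135470104338527)))) (T.h (P (nat_lit 0)) (M (nat_lit 16610803796111))))) (T.h (T.h (T.h (P (nat_lit 0)) (M (nat_lit 431540193161183231))) (P (nat_lit 0))) (T.h (T.h (P (nat_lit 0)) (P (nat_lit 41325168332064))) (P (nat_lit 0)))))))), (T.h (T.h (T.h (M (nat_lit 4644630342600910574768432873471)) (T.h (P (nat_lit 0)) (T.h (M (nat_lit 23759147091329655041425407)) (T.h (P (nat_lit 0)) (T.h (M (nat_lit 205175738630108348415))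 (T.h (P (nat_lit 0)) (M (nat_lit 125702438127695)))))))) (T.h (P (nat_lit 0)) (T.h (T.h (P (nat_lit 993919321185546621943808)) (T.h (P (nat_lit 0)) (T.h (P (nat_lit 74377365627223408640)) (T.h (P (nat_lit 0)) (M (nat_lit 112332596630399)))))) (T.h (P (nat_lit 0)) (T.h (T.h (M (nat_lit 4522085549804093439)) (T.h (P (nat_lit 0)) (P (nat_lit 11128868104608)))) (T.h (P (nat_lit 0)) (M (nat_lit 117640833263)))))))) (T.h (T.h (P (nat_lit 0)) (T.h (T.h (P (nat_lit 0)) (T.h (M (nat_lit 93087889871663739699199)) (T.h (P (nat_lit 0)) (P (nat_lit 7881472545095680))))) (T.h (P (nat_lit 0)) (T.h (T.h (P (nat_lit 0)) (P (nat_lit 193311368109424640))) (P (nat_lit 0)))))) (T.h (T.h (T.h (P (nat_lit 59150538576176793411125248)) (T.h (P (nat_lit 0)) (T.h (M (nat_lit 99556130591990611967)) (T.h (P (nat_lit 0)) (P (nat_lit 144096697935936)))))) (T.h (P (nat_lit 0)) (T.h (T.h (M (nat_lit 40153073323845091327)) (T.h (P (nat_lit 0)) (P (nat_lit 176154058255824)))) (T.h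 (P (nat_lit 0)) (P (nat_lit 11004683413968)))))) (T.h (T.h (P (nat_lit 0)) (T.h (T.h (P (nat_lit 0)) (M (nat_lit 207546634923933695))) (P (nat_lit 0)))) (T.h (T.h (T.h (M (nat_lit 250057911985237917695)) (T.h (P (nat_lit 0)) (M (nat_lit 20843964717551)))) (T.h (P (nat_lit 0)) (P (nat_lit 45469744224480)))) (T.h (P (nat_lit 0)) (M (nat_lit 136184537313935)))))))), (T.h (T.h (T.h (P (nat_lit 0)) (T.h (P (nat_lit 10561526356057080583166099456)) (T.h (P (nat_lit 0)) (T.h (P (nat_lit 52065708632157213163520)) (T.h (P (nat_lit 0)) (P (nat_lit 5867629431095296))))))) (T.h (P (nat_lit 0)) (T.h (T.h (P (nat_lit 0)) (T.h (M (nat_lit 27409907181871649783807)) (T.h (P (nat_lit 0)) (P (nat_lit 163557317878153216))))) (T.h (P (nat_lit 0)) (T.h (T.h (P (nat_lit 0)) (P (nat_lit 44529171178749952))) (P (nat_lit 0))))))) (T.h (T.h (P (nat_lit 0)) (T.h (T.h (P (nat_lit 24246785303870588422455296)) (T.h (P (nat_lit 0)) (P (nat_lit 201305527107410984960)))) (T.h (P (nat_lit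 0)) (M (nat_lit 37240392913883496447))))) (T.h (T.h (T.h (P (nat_lit 0)) (T.h (P (nat_lit 127126616885303049191424)) (T.h (P (nat_lit 0)) (M (nat_lit 364067516495069183))))) (T.h (P (nat_lit 0)) (T.h (T.h (P (nat_lit 0)) (M (nat_lit 157968672411713535))) (P (nat_lit 0))))) (T.h (T.h (P (nat_lit 0)) (P (nat_lit 89402042246615793664))) (T.h (T.h (T.h (P (nat_lit 0)) (P (nat_lit 188376292861083648))) (P (nat_lit 0))) (P (nat_lit 0))))))), (P (nat_lit 0)), (P (nat_lit 0))]
def lP22_28 : List (T ℤ) := [(T.h (T.h (P (nat_lit 0)) (T.h (T.h (P (nat_lit 10325839095429112767283462144)) (T.h (P (nat_lit 0)) (T.h (P (nat_lit 28838031634348434784256)) (T.h (P (nat_lit 0)) (M (nat_lit 54354603769987071)))))) (T.h (P (nat_lit 0)) (T.h (T.h (M (nat_lit 23347121895935433506815)) (T.h (P (nat_lit 0)) (M (nat_lit 162548584158986239)))) (T.h (P (nat_lit 0)) (P (nat_lit 34008853981396992))))))) (T.h (T.h (T.h (P (nat_lit 0)) (T.h (P (nat_lit 36723158071114076937781248))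 (T.h (P (nat_lit 0)) (T.h (M (nat_lit 40371769524537524223)) (T.h (P (nat_lit 0)) (M (nat_lit 6640001231327))))))) (T.h (P (nat_lit 0)) (T.h (T.h (P (nat_lit 0)) (T.h (M (nat_lit 17507187907994058751)) (T.h (P (nat_lit 0)) (M (nat_lit 499156966033311))))) (T.h (P (nat_lit 0)) (T.h (T.h (P (nat_lit 0)) (P (nat_lit 149225130836888))) (P (nat_lit 0))))))) (T.h (T.h (P (nat_lit 0)) (T.h (T.h (M (nat_lit 102040400974397862576127)) (T.h (P (nat_lit 0)) (M (nat_lit 136752169682960383)))) (T.h (P (nat_lit 0)) (P (nat_lit 498344816856530944))))) (T.h (T.h (T.h (P (nat_lit 0)) (T.h (M (nat_lit 11707574109595500543)) (T.h (P (nat_lit 0)) (P (nat_lit 37623641876824))))) (T.h (P (nat_lit 0)) (T.h (T.h (P (nat_lit 0)) (P (nat_lit 308999432393296))) (P (nat_lit 0))))) (T.h (T.h (P (nat_lit 0)) (P (nat_lit 233256223869730816))) (T.h (T.h (T.h (P (nat_lit 0)) (P (nat_lit 161505360049968))) (P (nat_lit 0))) (P (nat_lit 0)))))))), (T.h (T.h (P (nat_lit 0)) (T.h (T.h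 (P (nat_lit 0)) (T.h (P (nat_lit 2768201337103094367911936)) (T.h (P (nat_lit 0)) (T.h (M (nat_lit 262416591941940543487)) (T.h (P (nat_lit 0)) (M (nat_lit 24021944782415))))))) (T.h (P (nat_lit 0)) (T.h (T.h (P (nat_lit 0)) (T.h (M (nat_lit 121630086042107248639)) (T.h (P (nat_lit 0)) (P (nat_lit 7552521380832))))) (T.h (P (nat_lit 0)) (T.h (T.h (P (nat_lit 0)) (M (nat_lit 16694554697487))) (P (nat_lit 0)))))))) (T.h (T.h (T.h (M (nat_lit 1808498977183349276374204415)) (T.h (P (nat_lit 0)) (T.h (P (nat_lit 160890118431974772178944)) (T.h (P (nat_lit 0)) (P (nat_lit 15069221556994048)))))) (T.h (P (nat_lit 0)) (T.h (T.h (P (nat_lit 80479554190437311840256)) (T.h (P (nat_lit 0)) (M (nat_lit 1031172992607715327)))) (T.h (P (nat_lit 0)) (P (nat_lit 79154771293306880)))))) (T.h (T.h (P (nat_lit 0)) (T.h (T.h (P (nat_lit 0)) (T.h (P (nat_lit 633881676658585370624)) (T.h (P (nat_lit 0)) (P (nat_lit 249167983896304))))) (T.h (P (nat_lit 0)) (T.h (T.h (P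 (nat_lit 0)) (P (nat_lit 85017916153568))) (P (nat_lit 0)))))) (T.h (T.h (T.h (P (nat_lit 52699577966004013105152)) (T.h (P (nat_lit 0)) (P (nat_lit 529330318351400960)))) (T.h (P (nat_lit 0)) (P (nat_lit 224878831080914944)))) (T.h (T.h (P (nat_lit 0)) (T.h (T.h (P (nat_lit 0)) (P (nat_lit 20283370080496))) (P (nat_lit 0)))) (M (nat_lit 58388150225797119))))))), (T.h (T.h (P (nat_lit 0)) (T.h (T.h (P (nat_lit 7134286958923627804686811136)) (T.h (P (nat_lit 0)) (T.h (P (nat_lit 140262320409701091639296)) (T.h (P (nat_lit 0)) (M (nat_lit 87253373085351935)))))) (T.h (P (nat_lit 0)) (T.h (T.h (P (nat_lit 57407885486545373757440)) (T.h (P (nat_lit 0)) (P (nat_lit 85327505848336384)))) (T.h (P (nat_lit 0)) (M (nat_lit 96419134925570047))))))) (T.h (T.h (T.h (P (nat_lit 0)) (T.h (P (nat_lit 28460134174994339677077504)) (T.h (P (nat_lit 0)) (T.h (P (nat_lit 568256790363298070528)) (T.h (P (nat_lit 0)) (M (nat_lit 57551444008655))))))) (T.h (P (nat_lit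 0)) (T.h (T.h (P (nat_lit 0)) (T.h (M (nat_lit 443650273298264096767)) (T.h (P (nat_lit 0)) (M (nat_lit 175497791033423))))) (T.h (P (nat_lit 0)) (T.h (T.h (P (nat_lit 0)) (M (nat_lit 336165732353759))) (P (nat_lit 0))))))) (T.h (T.h (P (nat_lit 0)) (T.h (T.h (P (nat_lit 140262320409701091639296)) (T.h (P (nat_lit 0)) (P (nat_lit 2154056668749037568)))) (T.h (P (nat_lit 0)) (P (nat_lit 85327505848336384))))) (T.h (T.h (T.h (P (nat_lit 0)) (T.h (P (nat_lit 568256790363298070528)) (T.h (P (nat_lit 0)) (P (nat_lit 445737524610048))))) (T.h (P (nat_lit 0)) (T.h (T.h (P (nat_lit 0)) (M (nat_lit 175497791033423))) (P (nat_lit 0))))) (T.h (T.h (P (nat_lit 0)) (M (nat_lit 87253373085351935))) (T.h (T.h (T.h (P (nat_lit 0)) (M (nat_lit 57551444008655))) (P (nat_lit 0))) (P (nat_lit 0)))))))), (T.h (T.h (P (nat_lit 0)) (T.h (T.h (P (nat_lit 0)) (T.h (P (nat_lit 34488381105163752200732672)) (T.h (P (nat_lit 0)) (T.h (M (nat_lit 55130136566751559679)) (T.h (P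 (nat_lit 0)) (P (nat_lit 96931288604016))))))) (T.h (P (nat_lit 0)) (T.h (T.h (P (nat_lit 0)) (T.h (P (nat_lit 129763650506804166656)) (T.h (P (nat_lit 0)) (P (nat_lit 39684298899168))))) (T.h (P (nat_lit 0)) (T.h (T.h (P (nat_lit 0)) (M (nat_lit 53738246021903))) (P (nat_lit 0)))))))) (T.h (T.h (T.h (P (nat_lit 10098823510839615258793869312)) (T.h (P (nat_lit 0)) (T.h (M (nat_lit 81377000152364184764415)) (T.h (P (nat_lit 0)) (P (nat_lit 255163768485953536)))))) (T.h (P (nat_lit 0)) (T.h (T.h (M (nat_lit 68449625130738779160575)) (T.h (P (nat_lit 0)) (P (nat_lit 146348188268625920)))) (T.h (P (nat_lit 0)) (P (nat_lit 69615724044402688)))))) (T.h (T.h (P (nat_lit 0)) (T.h (T.h (P (nat_lit 0)) (T.h (P (nat_lit 817435440478634901504)) (T.h (P (nat_lit 0)) (P (nat_lit 293382072333648))))) (T.h (P (nat_lit 0)) (T.h (T.h (P (nat_lit 0)) (P (nat_lit 29547721411632))) (P (nat_lit 0)))))) (T.h (T.h (T.h (M (nat_lit 15347111945282003140607)) (T.h (P (nat_lit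 0)) (M (nat_lit 1065398080356843519)))) (T.h (P (nat_lit 0)) (P (nat_lit 47629619925549056)))) (T.h (T.h (P (nat_lit 0)) (T.h (T.h (P (nat_lit 0)) (M (nat_lit 706305045045455))) (P (nat_lit 0)))) (M (nat_lit 178329679561441279))))))), (T.h (T.h (P (nat_lit 0)) (T.h (T.h (M (nat_lit 26785345378366938055148830719)) (T.h (P (nat_lit 0)) (T.h (P (nat_lit 115769289232525882818560)) (T.h (P (nat_lit 0)) (M (nat_lit 27651373502136319)))))) (T.h (P (nat_lit 0)) (T.h (T.h (M (nat_lit 28930716648165091573759)) (T.h (P (nat_lit 0)) (M (nat_lit 29508680255176703)))) (T.h (P (nat_lit 0)) (P (nat_lit 20177221009768448))))))) (T.h (T.h (T.h (P (nat_lit 0)) (T.h (P (nat_lit 97555253692444316576776192)) (T.h (P (nat_lit 0)) (M (nat_lit 7459515171333996543))))) (T.h (P (nat_lit 0)) (T.h (T.h (P (nat_lit 0)) (P (nat_lit 12794938319486058496))) (P (nat_lit 0))))) (T.h (T.h (P (nat_lit 0)) (T.h (T.h (M (nat_lit 114792331594105423396863)) (T.h (P (nat_lit 0)) (M (nat_lit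 201704419141353471)))) (T.h (P (nat_lit 0)) (M (nat_lit 12766599193329663))))) (T.h (T.h (T.h (P (nat_lit 0)) (P (nat_lit 657029272659789086720))) (P (nat_lit 0))) (T.h (T.h (P (nat_lit 0)) (P (nat_lit 101156712228749312))) (P (nat_lit 0))))))), (P (nat_lit 0)), (T.h (T.h (T.h (P (nat_lit 0)) (T.h (P (nat_lit 14383368854768177539719364608)) (T.h (P (nat_lit 0)) (T.h (M (nat_lit 2204895729563765571583)) (T.h (P (nat_lit 0)) (P (nat_lit 3366261452439552))))))) (T.h (P (nat_lit 0)) (T.h (T.h (P (nat_lit 0)) (T.h (M (nat_lit 32986617876956395339775)) (T.h (P (nat_lit 0)) (P (nat_lit 62660711568801792))))) (T.h (P (nat_lit 0)) (T.h (T.h (P (nat_lit 0)) (M (nat_lit 32984115393232895))) (P (nat_lit 0))))))) (T.h (T.h (P (nat_lit 0)) (T.h (T.h (P (nat_lit 17751721323428791827038208)) (T.h (P (nat_lit 0)) (T.h (M (nat_lit 12180618487835656191)) (T.h (P (nat_lit 0)) (P (nat_lit 133115458075168)))))) (T.h (P (nat_lit 0)) (T.h (T.h (M (nat_lit 31742617130891214847))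 (T.h (P (nat_lit 0)) (P (nat_lit 256856339610056)))) (T.h (P (nat_lit 0)) (M (nat_lit 65012436277567))))))) (T.h (T.h (T.h (P (nat_lit 0)) (T.h (M (nat_lit 23523837453691510587391)) (T.h (P (nat_lit 0)) (P (nat_lit 144540574879023104))))) (T.h (P (nat_lit 0)) (T.h (T.h (P (nat_lit 0)) (M (nat_lit 361315451952037887))) (P (nat_lit 0))))) (T.h (T.h (P (nat_lit 0)) (T.h (T.h (M (nat_lit 21355229172702642175)) (T.h (P (nat_lit 0)) (P (nat_lit 661357504973176)))) (T.h (P (nat_lit 0)) (M (nat_lit 351489962257887))))) (T.h (T.h (T.h (P (nat_lit 0)) (P (nat_lit 160969301410611200))) (P (nat_lit 0))) (T.h (T.h (P (nat_lit 0)) (M (nat_lit 72499158235039))) (P (nat_lit 0)))))))), (T.h (T.h (T.h (P (nat_lit 22032026419389384402761655779328)) (T.h (P (nat_lit 0)) (T.h (M (nat_lit 10846810063514811188117503)) (T.h (P (nat_lit 0)) (T.h (P (nat_lit 12500612991550488576)) (T.h (P (nat_lit 0)) (M (nat_lit 15284046255631)))))))) (T.h (P (nat_lit 0)) (T.h (T.h (M (nat_lit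 17644813415182091818106879)) (T.h (P (nat_lit 0)) (T.h (P (nat_lit 7383682253127155712)) (T.h (P (nat_lit 0)) (M (nat_lit 94003432255103)))))) (T.h (P (nat_lit 0)) (T.h (T.h (P (nat_lit 37567520307754827776)) (T.h (P (nat_lit 0)) (M (nat_lit 100217063513375)))) (T.h (P (nat_lit 0)) (M (nat_lit 8951155852031)))))))) (T.h (T.h (P (nat_lit 0)) (T.h (T.h (P (nat_lit 0)) (T.h (P (nat_lit 1494811216436782956544)) (T.h (P (nat_lit 0)) (M (nat_lit 35088199171506175))))) (T.h (P (nat_lit 0)) (T.h (T.h (P (nat_lit 0)) (P (nat_lit 67105017029525504))) (P (nat_lit 0)))))) (T.h (T.h (T.h (M (nat_lit 663153566823727851634687)) (T.h (P (nat_lit 0)) (T.h (M (nat_lit 51183122063862792191)) (T.h (P (nat_lit 0)) (M (nat_lit 102020467994783)))))) (T.h (P (nat_lit 0)) (T.h (T.h (P (nat_lit 65035715147429052416)) (T.h (P (nat_lit 0)) (M (nat_lit 23507951099487)))) (T.h (P (nat_lit 0)) (M (nat_lit 133718572415999)))))) (T.h (T.h (P (nat_lit 0)) (T.h (T.h (P (nat_lit 0))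 (M (nat_lit 34408057877266431))) (P (nat_lit 0)))) (T.h (T.h (T.h (P (nat_lit 10808579313234870272)) (T.h (P (nat_lit 0)) (M (nat_lit 45831866865407)))) (T.h (P (nat_lit 0)) (M (nat_lit 117008043874271)))) (T.h (P (nat_lit 0)) (P (nat_lit 19537263737616))))))))]
def lP22_29 : List (T ℤ) := [(T.h (T.h (T.h (P (nat_lit 0)) (T.h (M (nat_lit 12032021371156596681519136767)) (T.h (P (nat_lit 0)) (T.h (M (nat_lit 889584134380146655231)) (T.h (P (nat_lit 0)) (P (nat_lit 125291518135107584))))))) (T.h (P (nat_lit 0)) (T.h (T.h (P (nat_lit 0)) (T.h (P (nat_lit 476186040661101512753152)) (T.h (P (nat_lit 0)) (P (nat_lit 615821914529857536))))) (T.h (P (nat_lit 0)) (T.h (T.h (P (nat_lit 0)) (M (nat_lit 422236491253940223))) (P (nat_lit 0))))))) (T.h (T.h (P (nat_lit 0)) (T.h (T.h (P (nat_lit 316972042487873008213950464)) (T.h (P (nat_lit 0)) (T.h (P (nat_lit 1322545403081254764544)) (T.h (P (nat_lit 0)) (P (nat_lit 84935016016176)))))) (T.h (P (nat_lit 0)) (T.h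 (T.h (P (nat_lit 585606291817637085184)) (T.h (P (nat_lit 0)) (P (nat_lit 102501963535680)))) (T.h (P (nat_lit 0)) (M (nat_lit 68954946376031))))))) (T.h (T.h (T.h (P (nat_lit 0)) (T.h (M (nat_lit 157337932506424871485439)) (T.h (P (nat_lit 0)) (P (nat_lit 1345045415245119488))))) (T.h (P (nat_lit 0)) (T.h (T.h (P (nat_lit 0)) (M (nat_lit 397362962484396031))) (P (nat_lit 0))))) (T.h (T.h (P (nat_lit 0)) (T.h (T.h (M (nat_lit 377818869842202066943)) (T.h (P (nat_lit 0)) (M (nat_lit 375385171935791)))) (T.h (P (nat_lit 0)) (P (nat_lit 287039911349856))))) (T.h (T.h (T.h (P (nat_lit 0)) (M (nat_lit 709374484074921983))) (P (nat_lit 0))) (T.h (T.h (P (nat_lit 0)) (M (nat_lit 189432346881935))) (P (nat_lit 0)))))))), (T.h (T.h (T.h (P (nat_lit 53389241137066534764017329635328)) (T.h (P (nat_lit 0)) (T.h (M (nat_lit 153708932969901960195997695)) (T.h (P (nat_lit 0)) (T.h (P (nat_lit 478626222071248584704)) (T.h (P (nat_lit 0)) (P (nat_lit 379331740561680))))))))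 (T.h (P (nat_lit 0)) (T.h (T.h (M (nat_lit 38452288581308777018425343)) (T.h (P (nat_lit 0)) (T.h (P (nat_lit 164874952213413232640)) (T.h (P (nat_lit 0)) (M (nat_lit 56041609850639)))))) (T.h (P (nat_lit 0)) (T.h (T.h (P (nat_lit 58707261042259394560)) (T.h (P (nat_lit 0)) (P (nat_lit 132157498148352)))) (T.h (P (nat_lit 0)) (P (nat_lit 88523479637856)))))))) (T.h (T.h (P (nat_lit 0)) (T.h (T.h (P (nat_lit 0)) (T.h (M (nat_lit 1436637106099623787757567)) (T.h (P (nat_lit 0)) (P (nat_lit 309715515647459328))))) (T.h (P (nat_lit 0)) (T.h (T.h (P (nat_lit 0)) (P (nat_lit 938198566600441856))) (P (nat_lit 0)))))) (T.h (T.h (T.h (M (nat_lit 153708932969901960195997695)) (T.h (P (nat_lit 0)) (T.h (M (nat_lit 579672970797091127295)) (T.h (P (nat_lit 0)) (M (nat_lit 91874054759471)))))) (T.h (P (nat_lit 0)) (T.h (T.h (P (nat_lit 164874952213413232640)) (T.h (P (nat_lit 0)) (P (nat_lit 280029510112320)))) (T.h (P (nat_lit 0)) (P (nat_lit 132157498148352))))))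 (T.h (T.h (P (nat_lit 0)) (T.h (T.h (P (nat_lit 0)) (P (nat_lit 309715515647459328))) (P (nat_lit 0)))) (T.h (T.h (T.h (P (nat_lit 478626222071248584704)) (T.h (P (nat_lit 0)) (M (nat_lit 91874054759471)))) (T.h (P (nat_lit 0)) (M (nat_lit 56041609850639)))) (T.h (P (nat_lit 0)) (P (nat_lit 379331740561680)))))))), (T.h (T.h (T.h (P (nat_lit 0)) (T.h (P (nat_lit 4098973312156333036814729216)) (T.h (P (nat_lit 0)) (T.h (M (nat_lit 11302933404076692471807)) (T.h (P (nat_lit 0)) (M (nat_lit 636919300485021695))))))) (T.h (P (nat_lit 0)) (T.h (T.h (P (nat_lit 0)) (T.h (M (nat_lit 92261680203773218127871)) (T.h (P (nat_lit 0)) (P (nat_lit 108178727758004224))))) (T.h (P (nat_lit 0)) (T.h (T.h (P (nat_lit 0)) (P (nat_lit 149424152781848576))) (P (nat_lit 0))))))) (T.h (T.h (P (nat_lit 0)) (T.h (T.h (M (nat_lit 56490792542494067001393151)) (T.h (P (nat_lit 0)) (M (nat_lit 18933636662254632959)))) (T.h (P (nat_lit 0)) (M (nat_lit 276447698764093718527)))))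 (T.h (T.h (T.h (P (nat_lit 0)) (T.h (P (nat_lit 627530395099535645868032)) (T.h (P (nat_lit 0)) (P (nat_lit 112353382351929344))))) (T.h (P (nat_lit 0)) (T.h (T.h (P (nat_lit 0)) (P (nat_lit 340884581242339328))) (P (nat_lit 0))))) (T.h (T.h (P (nat_lit 0)) (M (nat_lit 52572559826374098943))) (T.h (T.h (T.h (P (nat_lit 0)) (M (nat_lit 188587866058260479))) (P (nat_lit 0))) (P (nat_lit 0))))))), (T.h (T.h (P (nat_lit 0)) (T.h (T.h (M (nat_lit 2446445817314079046260228095)) (T.h (P (nat_lit 0)) (T.h (P (nat_lit 3729586567560768258048)) (T.h (P (nat_lit 0)) (M (nat_lit 17775016194080767)))))) (T.h (P (nat_lit 0)) (T.h (T.h (P (nat_lit 14113606204607447433216)) (T.h (P (nat_lit 0)) (P (nat_lit 1902440084045824)))) (T.h (P (nat_lit 0)) (M (nat_lit 14427111626145791))))))) (T.h (T.h (T.h (P (nat_lit 0)) (T.h (P (nat_lit 6034124902302266928660480)) (T.h (P (nat_lit 0)) (T.h (P (nat_lit 2800396035392798720)) (T.h (P (nat_lit 0)) (P (nat_lit 9180840934728)))))))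 (T.h (P (nat_lit 0)) (T.h (T.h (P (nat_lit 0)) (T.h (P (nat_lit 93185734165020016640)) (T.h (P (nat_lit 0)) (M (nat_lit 16412332180447))))) (T.h (P (nat_lit 0)) (T.h (T.h (P (nat_lit 0)) (P (nat_lit 17695890957600))) (P (nat_lit 0))))))) (T.h (T.h (P (nat_lit 0)) (T.h (T.h (P (nat_lit 9524129684993658060800)) (T.h (P (nat_lit 0)) (M (nat_lit 32332720980328447)))) (T.h (P (nat_lit 0)) (P (nat_lit 46263438480408576))))) (T.h (T.h (T.h (P (nat_lit 0)) (T.h (M (nat_lit 2708072234307551231)) (T.h (P (nat_lit 0)) (P (nat_lit 13956825122808))))) (T.h (P (nat_lit 0)) (T.h (T.h (P (nat_lit 0)) (P (nat_lit 16120243369672))) (P (nat_lit 0))))) (T.h (T.h (P (nat_lit 0)) (P (nat_lit 14579344540237824))) (T.h (T.h (T.h (P (nat_lit 0)) (M (nat_lit 33957735906503))) (P (nat_lit 0))) (P (nat_lit 0)))))))), (T.h (T.h (P (nat_lit 0)) (T.h (T.h (P (nat_lit 0)) (T.h (P (nat_lit 3580340693341382729793536)) (T.h (P (nat_lit 0)) (T.h (M (nat_lit 135983825542308691967))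 (T.h (P (nat_lit 0)) (M (nat_lit 4685423447423))))))) (T.h (P (nat_lit 0)) (T.h (T.h (P (nat_lit 0)) (T.h (M (nat_lit 276770331442141986815)) (T.h (P (nat_lit 0)) (M (nat_lit 7866646795423))))) (T.h (P (nat_lit 0)) (T.h (T.h (P (nat_lit 0)) (M (nat_lit 12012813532351))) (P (nat_lit 0)))))))) (T.h (T.h (T.h (P (nat_lit 11401952711144634565808619520)) (T.h (P (nat_lit 0)) (T.h (P (nat_lit 9211029130427594964992)) (T.h (P (nat_lit 0)) (P (nat_lit 157045282990014464)))))) (T.h (P (nat_lit 0)) (T.h (T.h (P (nat_lit 89621593371965055303680)) (T.h (P (nat_lit 0)) (M (nat_lit 948573949698473983)))) (T.h (P (nat_lit 0)) (P (nat_lit 92959733253701632)))))) (T.h (T.h (P (nat_lit 0)) (T.h (T.h (P (nat_lit 0)) (T.h (M (nat_lit 52911668563758022655)) (T.h (P (nat_lit 0)) (P (nat_lit 90268290434928))))) (T.h (P (nat_lit 0)) (T.h (T.h (P (nat_lit 0)) (P (nat_lit 254418358177664))) (P (nat_lit 0)))))) (T.h (T.h (T.h (M (nat_lit 349580771751851196415)) (T.h (P (nat_lit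 0)) (P (nat_lit 82684409123340288)))) (T.h (P (nat_lit 0)) (P (nat_lit 387135896393826304)))) (T.h (T.h (P (nat_lit 0)) (T.h (T.h (P (nat_lit 0)) (P (nat_lit 54023327974512))) (P (nat_lit 0)))) (M (nat_lit 25174507732271103))))))), (T.h (T.h (P (nat_lit 0)) (T.h (T.h (M (nat_lit 55975877746925841019628945407)) (T.h (P (nat_lit 0)) (T.h (P (nat_lit 213233816650005486764032)) (T.h (P (nat_lit 0)) (P (nat_lit 203169303379476480)))))) (T.h (P (nat_lit 0)) (T.h (T.h (P (nat_lit 87364782547505235623936)) (T.h (P (nat_lit 0)) (M (nat_lit 599423486802100223)))) (T.h (P (nat_lit 0)) (P (nat_lit 105743219492356096))))))) (T.h (T.h (T.h (P (nat_lit 0)) (T.h (M (nat_lit 18011779666298668056575999)) (T.h (P (nat_lit 0)) (T.h (P (nat_lit 470499440144615997440)) (T.h (P (nat_lit 0)) (M (nat_lit 99964171714655))))))) (T.h (P (nat_lit 0)) (T.h (T.h (P (nat_lit 0)) (T.h (P (nat_lit 892114938688845119488)) (T.h (P (nat_lit 0)) (M (nat_lit 78842267400671))))) (T.h (P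 (nat_lit 0)) (T.h (T.h (P (nat_lit 0)) (P (nat_lit 290585851305696))) (P (nat_lit 0))))))) (T.h (T.h (P (nat_lit 0)) (T.h (T.h (M (nat_lit 545918331871671131045887)) (T.h (P (nat_lit 0)) (M (nat_lit 715153917534207999)))) (T.h (P (nat_lit 0)) (M (nat_lit 1007081889253851135))))) (T.h (T.h (T.h (P (nat_lit 0)) (T.h (P (nat_lit 242110219074574221312)) (T.h (P (nat_lit 0)) (P (nat_lit 50742460536192))))) (T.h (P (nat_lit 0)) (T.h (T.h (P (nat_lit 0)) (M (nat_lit 134419607513615))) (P (nat_lit 0))))) (T.h (T.h (P (nat_lit 0)) (P (nat_lit 657400352911032320))) (T.h (T.h (T.h (P (nat_lit 0)) (M (nat_lit 77197425297551))) (P (nat_lit 0))) (P (nat_lit 0)))))))), (T.h (T.h (P (nat_lit 0)) (T.h (T.h (P (nat_lit 0)) (T.h (M (nat_lit 33694261544999099226390527)) (T.h (P (nat_lit 0)) (T.h (M (nat_lit 101717844960955334655)) (T.h (P (nat_lit 0)) (P (nat_lit 277842323649024))))))) (T.h (P (nat_lit 0)) (T.h (T.h (P (nat_lit 0)) (T.h (P (nat_lit 175798943594649223168))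 (T.h (P (nat_lit 0)) (M (nat_lit 19573388380223))))) (T.h (P (nat_lit 0)) (T.h (T.h (P (nat_lit 0)) (P (nat_lit 346233505605120))) (P (nat_lit 0)))))))) (T.h (T.h (T.h (P (nat_lit 12028536107894914256820240384)) (T.h (P (nat_lit 0)) (T.h (M (nat_lit 213339843520543624003583)) (T.h (P (nat_lit 0)) (M (nat_lit 22788379527593983)))))) (T.h (P (nat_lit 0)) (T.h (T.h (M (nat_lit 110753031696768351338495)) (T.h (P (nat_lit 0)) (M (nat_lit 341346496037289983)))) (T.h (P (nat_lit 0)) (M (nat_lit 122451746158608383)))))) (T.h (T.h (P (nat_lit 0)) (T.h (T.h (P (nat_lit 0)) (T.h (P (nat_lit 1568643296083048398848)) (T.h (P (nat_lit 0)) (M (nat_lit 956830296593519))))) (T.h (P (nat_lit 0)) (T.h (T.h (P (nat_lit 0)) (M (nat_lit 1038291398449487))) (P (nat_lit 0)))))) (T.h (T.h (T.h (M (nat_lit 46685886003765909127167)) (T.h (P (nat_lit 0)) (P (nat_lit 230855324925116416)))) (T.h (P (nat_lit 0)) (P (nat_lit 6537240484593664)))) (T.h (T.h (P (nat_lit 0)) (T.h (T.h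 (P (nat_lit 0)) (M (nat_lit 932773171568831))) (P (nat_lit 0)))) (M (nat_lit 196876010285465599))))))), (T.h (T.h (P (nat_lit 0)) (T.h (T.h (P (nat_lit 17356795676639908759406116864)) (T.h (P (nat_lit 0)) (T.h (P (nat_lit 37393917259994223345664)) (T.h (P (nat_lit 0)) (M (nat_lit 78359944982757375)))))) (T.h (P (nat_lit 0)) (T.h (T.h (P (nat_lit 148788144754674542575616)) (T.h (P (nat_lit 0)) (P (nat_lit 129338384155705344)))) (T.h (P (nat_lit 0)) (M (nat_lit 278438772972060671))))))) (T.h (T.h (T.h (P (nat_lit 0)) (T.h (M (nat_lit 192358523984047560722481151)) (T.h (P (nat_lit 0)) (M (nat_lit 210368478333907238911))))) (T.h (P (nat_lit 0)) (T.h (T.h (P (nat_lit 0)) (M (nat_lit 107208491702752903167))) (P (nat_lit 0))))) (T.h (T.h (P (nat_lit 0)) (T.h (T.h (P (nat_lit 37393917259994223345664)) (T.h (P (nat_lit 0)) (P (nat_lit 1178947756791234560)))) (T.h (P (nat_lit 0)) (P (nat_lit 129338384155705344))))) (T.h (T.h (T.h (P (nat_lit 0)) (M (nat_lit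 210368478333907238911))) (P (nat_lit 0))) (T.h (T.h (P (nat_lit 0)) (M (nat_lit 78359944982757375))) (P (nat_lit 0)))))))]
def lP22_30 : List (T ℤ) := [(T.h (T.h (T.h (P (nat_lit 10240767002178687954892823199744)) (T.h (P (nat_lit 0)) (T.h (P (nat_lit 1874529792743809499529216)) (T.h (P (nat_lit 0)) (T.h (M (nat_lit 541262488075763711)) (T.h (P (nat_lit 0)) (M (nat_lit 1226078413135)))))))) (T.h (P (nat_lit 0)) (T.h (T.h (P (nat_lit 12058186289434892836012032)) (T.h (P (nat_lit 0)) (T.h (M (nat_lit 51208003868654829567)) (T.h (P (nat_lit 0)) (M (nat_lit 4136082018047)))))) (T.h (P (nat_lit 0)) (T.h (T.h (M (nat_lit 2233296166391382015)) (T.h (P (nat_lit 0)) (P (nat_lit 52052519111328)))) (T.h (P (nat_lit 0)) (P (nat_lit 33595231580112)))))))) (T.h (T.h (P (nat_lit 0)) (T.h (T.h (P (nat_lit 0)) (T.h (P (nat_lit 9916637199665389895680)) (T.h (P (nat_lit 0)) (M (nat_lit 9230042037944319))))) (T.h (P (nat_lit 0)) (T.h (T.h (P (nat_lit 0)) (M (nat_lit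 8549900743704575))) (P (nat_lit 0)))))) (T.h (T.h (T.h (M (nat_lit 4923473558923471130460159)) (T.h (P (nat_lit 0)) (T.h (P (nat_lit 7358800448335118336)) (T.h (P (nat_lit 0)) (P (nat_lit 3880953721632)))))) (T.h (P (nat_lit 0)) (T.h (T.h (P (nat_lit 65010833342637015040)) (T.h (P (nat_lit 0)) (M (nat_lit 23507951099487)))) (T.h (P (nat_lit 0)) (M (nat_lit 19123657897535)))))) (T.h (T.h (P (nat_lit 0)) (T.h (T.h (P (nat_lit 0)) (P (nat_lit 92963174163087360))) (P (nat_lit 0)))) (T.h (T.h (T.h (P (nat_lit 24525644828128575488)) (T.h (P (nat_lit 0)) (M (nat_lit 2332677536639)))) (T.h (P (nat_lit 0)) (M (nat_lit 35834186439263)))) (T.h (P (nat_lit 0)) (P (nat_lit 5106811990464)))))))), (T.h (T.h (T.h (P (nat_lit 0)) (T.h (M (nat_lit 18562684784021751830870491135)) (T.h (P (nat_lit 0)) (T.h (P (nat_lit 29517837160202245242880)) (T.h (P (nat_lit 0)) (M (nat_lit 20025180165963775))))))) (T.h (P (nat_lit 0)) (T.h (T.h (P (nat_lit 0)) (T.h (P (nat_lit 245565820896624710254592))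 (T.h (P (nat_lit 0)) (M (nat_lit 434076260452663295))))) (T.h (P (nat_lit 0)) (T.h (T.h (P (nat_lit 0)) (M (nat_lit 559276618694197247))) (P (nat_lit 0))))))) (T.h (T.h (P (nat_lit 0)) (T.h (T.h (M (nat_lit 169192765945311575322656767)) (T.h (P (nat_lit 0)) (T.h (P (nat_lit 99592440577632763904)) (T.h (P (nat_lit 0)) (M (nat_lit 168082866176879)))))) (T.h (P (nat_lit 0)) (T.h (T.h (M (nat_lit 231944975521304018943)) (T.h (P (nat_lit 0)) (M (nat_lit 326692463252447)))) (T.h (P (nat_lit 0)) (M (nat_lit 89014422257279))))))) (T.h (T.h (T.h (P (nat_lit 0)) (T.h (M (nat_lit 12091848963564075220991)) (T.h (P (nat_lit 0)) (M (nat_lit 148660680979709951))))) (T.h (P (nat_lit 0)) (T.h (T.h (P (nat_lit 0)) (M (nat_lit 638821902318600191))) (P (nat_lit 0))))) (T.h (T.h (P (nat_lit 0)) (T.h (T.h (M (nat_lit 697697792170483777535)) (T.h (P (nat_lit 0)) (P (nat_lit 151194672219024)))) (T.h (P (nat_lit 0)) (P (nat_lit 222868762305024))))) (T.h (T.h (T.h (P (nat_lit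 0)) (P (nat_lit 163751868827697152))) (P (nat_lit 0))) (T.h (T.h (P (nat_lit 0)) (P (nat_lit 31462978248624))) (P (nat_lit 0)))))))), (T.h (T.h (T.h (P (nat_lit 29397274956914117545857438973952)) (T.h (P (nat_lit 0)) (T.h (M (nat_lit 14021601366091200968261631)) (T.h (P (nat_lit 0)) (T.h (P (nat_lit 23386002690976776192)) (T.h (P (nat_lit 0)) (P (nat_lit 41881434673104)))))))) (T.h (P (nat_lit 0)) (T.h (T.h (M (nat_lit 133255772454998449303060479)) (T.h (P (nat_lit 0)) (T.h (M (nat_lit 327637555096494014463)) (T.h (P (nat_lit 0)) (P (nat_lit 99925240509792)))))) (T.h (P (nat_lit 0)) (T.h (T.h (P (nat_lit 229204133552031006720)) (T.h (P (nat_lit 0)) (M (nat_lit 98314359801839)))) (T.h (P (nat_lit 0)) (P (nat_lit 211268465072064)))))))) (T.h (T.h (P (nat_lit 0)) (T.h (T.h (P (nat_lit 0)) (T.h (M (nat_lit 881664639651964837167103)) (T.h (P (nat_lit 0)) (P (nat_lit 649524670168760320))))) (T.h (P (nat_lit 0)) (T.h (T.h (P (nat_lit 0)) (M (nat_lit 414499192345853951)))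 (P (nat_lit 0)))))) (T.h (T.h (T.h (M (nat_lit 17999128066405266125488127)) (T.h (P (nat_lit 0)) (T.h (P (nat_lit 416910367914010345472)) (T.h (P (nat_lit 0)) (P (nat_lit 135757685418624)))))) (T.h (P (nat_lit 0)) (T.h (T.h (M (nat_lit 566570040392941567999)) (T.h (P (nat_lit 0)) (P (nat_lit 470452994409888)))) (T.h (P (nat_lit 0)) (M (nat_lit 131633562907295)))))) (T.h (T.h (P (nat_lit 0)) (T.h (T.h (P (nat_lit 0)) (P (nat_lit 213983858607128576))) (P (nat_lit 0)))) (T.h (T.h (T.h (M (nat_lit 190714827476958183423)) (T.h (P (nat_lit 0)) (P (nat_lit 125717193105984)))) (T.h (P (nat_lit 0)) (P (nat_lit 56565545091696)))) (T.h (P (nat_lit 0)) (M (nat_lit 79539795851759)))))))), (T.h (T.h (T.h (P (nat_lit 0)) (T.h (M (nat_lit 15304403450844262157386776575)) (T.h (P (nat_lit 0)) (T.h (P (nat_lit 33756919650715286110208)) (T.h (P (nat_lit 0)) (M (nat_lit 108740723189809151))))))) (T.h (P (nat_lit 0)) (T.h (T.h (P (nat_lit 0)) (T.h (P (nat_lit 275135551730762599366656))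 (T.h (P (nat_lit 0)) (M (nat_lit 10880302569553919))))) (T.h (P (nat_lit 0)) (T.h (T.h (P (nat_lit 0)) (M (nat_lit 124639793356668927))) (P (nat_lit 0))))))) (T.h (T.h (P (nat_lit 0)) (T.h (T.h (M (nat_lit 14156786543232229258035199)) (T.h (P (nat_lit 0)) (P (nat_lit 91973834503303987200)))) (T.h (P (nat_lit 0)) (P (nat_lit 291755589510365184000))))) (T.h (T.h (T.h (P (nat_lit 0)) (T.h (M (nat_lit 444656523572546264629247)) (T.h (P (nat_lit 0)) (M (nat_lit 15054957163479039))))) (T.h (P (nat_lit 0)) (T.h (T.h (P (nat_lit 0)) (P (nat_lit 694833859304128512))) (P (nat_lit 0))))) (T.h (T.h (P (nat_lit 0)) (P (nat_lit 67880450572645564416))) (T.h (T.h (T.h (P (nat_lit 0)) (P (nat_lit 213372225483440128))) (P (nat_lit 0))) (P (nat_lit 0))))))), (T.h (T.h (P (nat_lit 0)) (T.h (T.h (M (nat_lit 13738543897078520168434368511)) (T.h (P (nat_lit 0)) (T.h (P (nat_lit 53116712304456398536704)) (T.h (P (nat_lit 0)) (P (nat_lit 13389182920425472)))))) (T.h (P (nat_lit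 0)) (T.h (T.h (P (nat_lit 89746200216324985061376)) (T.h (P (nat_lit 0)) (M (nat_lit 239507379198361599)))) (T.h (P (nat_lit 0)) (M (nat_lit 42162729439887359))))))) (T.h (T.h (T.h (P (nat_lit 0)) (T.h (P (nat_lit 1682189232321638827032576)) (T.h (P (nat_lit 0)) (T.h (P (nat_lit 34971865101436452864)) (T.h (P (nat_lit 0)) (M (nat_lit 2216404253375))))))) (T.h (P (nat_lit 0)) (T.h (T.h (P (nat_lit 0)) (T.h (P (nat_lit 58648929392887070720)) (T.h (P (nat_lit 0)) (P (nat_lit 6806561621472))))) (T.h (P (nat_lit 0)) (T.h (T.h (P (nat_lit 0)) (M (nat_lit 154815030088991))) (P (nat_lit 0))))))) (T.h (T.h (P (nat_lit 0)) (T.h (T.h (P (nat_lit 71863826799750006439936)) (T.h (P (nat_lit 0)) (M (nat_lit 45237387053236223)))) (T.h (P (nat_lit 0)) (M (nat_lit 93737683484508159))))) (T.h (T.h (T.h (P (nat_lit 0)) (T.h (P (nat_lit 29827779157339144192)) (T.h (P (nat_lit 0)) (M (nat_lit 3182115287471))))) (T.h (P (nat_lit 0)) (T.h (T.h (P (nat_lit 0)) (M (nat_lit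 49743205508255))) (P (nat_lit 0))))) (T.h (T.h (P (nat_lit 0)) (P (nat_lit 35006146232877056))) (T.h (T.h (T.h (P (nat_lit 0)) (P (nat_lit 18104669004960))) (P (nat_lit 0))) (P (nat_lit 0)))))))), (T.h (T.h (P (nat_lit 0)) (T.h (T.h (P (nat_lit 0)) (T.h (M (nat_lit 65918469378897187897868287)) (T.h (P (nat_lit 0)) (T.h (P (nat_lit 258219709894464897024)) (T.h (P (nat_lit 0)) (P (nat_lit 6090557697360))))))) (T.h (P (nat_lit 0)) (T.h (T.h (P (nat_lit 0)) (T.h (M (nat_lit 204190865734695387135)) (T.h (P (nat_lit 0)) (M (nat_lit 40308873541055))))) (T.h (P (nat_lit 0)) (T.h (T.h (P (nat_lit 0)) (P (nat_lit 88368910367184))) (P (nat_lit 0)))))))) (T.h (T.h (T.h (M (nat_lit 10238001575438095358980259839)) (T.h (P (nat_lit 0)) (T.h (M (nat_lit 32773840107748108271615)) (T.h (P (nat_lit 0)) (P (nat_lit 105856962375598080)))))) (T.h (P (nat_lit 0)) (T.h (T.h (M (nat_lit 148288026953148786540543)) (T.h (P (nat_lit 0)) (P (nat_lit 519943386516488192)))) (T.h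 (P (nat_lit 0)) (P (nat_lit 391068373448163328)))))) (T.h (T.h (P (nat_lit 0)) (T.h (T.h (P (nat_lit 0)) (T.h (M (nat_lit 115437795602681823231)) (T.h (P (nat_lit 0)) (P (nat_lit 135400654107216))))) (T.h (P (nat_lit 0)) (T.h (T.h (P (nat_lit 0)) (P (nat_lit 480696106885200))) (P (nat_lit 0)))))) (T.h (T.h (T.h (P (nat_lit 4498526712991768903680)) (T.h (P (nat_lit 0)) (M (nat_lit 13902498383790079)))) (T.h (P (nat_lit 0)) (M (nat_lit 902612114225659903)))) (T.h (T.h (P (nat_lit 0)) (T.h (T.h (P (nat_lit 0)) (M (nat_lit 212902374284207))) (P (nat_lit 0)))) (M (nat_lit 5867200945930239))))))), (T.h (T.h (P (nat_lit 0)) (T.h (T.h (P (nat_lit 43261590126196782947893248)) (T.h (P (nat_lit 0)) (T.h (P (nat_lit 253975602216504926404608)) (T.h (P (nat_lit 0)) (P (nat_lit 49633666763259904)))))) (T.h (P (nat_lit 0)) (T.h (T.h (M (nat_lit 18370324571908701421567)) (T.h (P (nat_lit 0)) (P (nat_lit 33030100658978816)))) (T.h (P (nat_lit 0)) (M (nat_lit 423810517937029119)))))))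 (T.h (T.h (T.h (P (nat_lit 0)) (T.h (P (nat_lit 72057086932609894082150400)) (T.h (P (nat_lit 0)) (M (nat_lit 89748166004818575359))))) (T.h (P (nat_lit 0)) (T.h (T.h (P (nat_lit 0)) (P (nat_lit 245384825810064506880))) (P (nat_lit 0))))) (T.h (T.h (P (nat_lit 0)) (T.h (T.h (P (nat_lit 459569672372160003309568)) (T.h (P (nat_lit 0)) (M (nat_lit 506464520519221247)))) (T.h (P (nat_lit 0)) (M (nat_lit 205708856286707711))))) (T.h (T.h (T.h (P (nat_lit 0)) (P (nat_lit 11487042308398907392))) (P (nat_lit 0))) (T.h (T.h (P (nat_lit 0)) (P (nat_lit 190404856377147392))) (P (nat_lit 0))))))), (T.h (T.h (T.h (M (nat_lit 7347284730981760738617207029759)) (T.h (P (nat_lit 0)) (T.h (M (nat_lit 4210623603377640919007231)) (T.h (P (nat_lit 0)) (T.h (P (nat_lit 1445542280348827648)) (T.h (P (nat_lit 0)) (P (nat_lit 2262664312560)))))))) (T.h (P (nat_lit 0)) (T.h (T.h (M (nat_lit 24986163315578777425149951)) (T.h (P (nat_lit 0)) (T.h (P (nat_lit 112178435325171859456))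 (T.h (P (nat_lit 0)) (M (nat_lit 40633845785423)))))) (T.h (P (nat_lit 0)) (T.h (T.h (P (nat_lit 14892719367979532288)) (T.h (P (nat_lit 0)) (M (nat_lit 154054818207791)))) (T.h (P (nat_lit 0)) (M (nat_lit 1900902457007)))))))) (T.h (T.h (P (nat_lit 0)) (T.h (T.h (P (nat_lit 0)) (T.h (P (nat_lit 70258196730489203589120)) (T.h (P (nat_lit 0)) (P (nat_lit 12885981240885248))))) (T.h (P (nat_lit 0)) (T.h (T.h (P (nat_lit 0)) (P (nat_lit 262996897238188032))) (P (nat_lit 0)))))) (T.h (T.h (T.h (P (nat_lit 57923522351927671027400704)) (T.h (P (nat_lit 0)) (T.h (M (nat_lit 2352003625896640511)) (T.h (P (nat_lit 0)) (M (nat_lit 40758030476063)))))) (T.h (P (nat_lit 0)) (T.h (T.h (P (nat_lit 177177424402405392384)) (T.h (P (nat_lit 0)) (M (nat_lit 154284181097903)))) (T.h (P (nat_lit 0)) (P (nat_lit 135693679464000)))))) (T.h (T.h (P (nat_lit 0)) (T.h (T.h (P (nat_lit 0)) (P (nat_lit 47568789769158656))) (P (nat_lit 0)))) (T.h (T.h (T.h (M (nat_lit 29989453987150036991))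 (T.h (P (nat_lit 0)) (P (nat_lit 3747522647088)))) (T.h (P (nat_lit 0)) (M (nat_lit 29246983189487)))) (T.h (P (nat_lit 0)) (M (nat_lit 12383001643247))))))))]
def lP22_31 : List (T ℤ) := [(T.h (T.h (T.h (P (nat_lit 0)) (T.h (M (nat_lit 2802544089202721518058995711)) (T.h (P (nat_lit 0)) (T.h (P (nat_lit 11706436078456893603840)) (T.h (P (nat_lit 0)) (M (nat_lit 10301442286452735))))))) (T.h (P (nat_lit 0)) (T.h (T.h (P (nat_lit 0)) (T.h (P (nat_lit 219226733783414827122688)) (T.h (P (nat_lit 0)) (P (nat_lit 48128141689192448))))) (T.h (P (nat_lit 0)) (T.h (T.h (P (nat_lit 0)) (M (nat_lit 111197562056900607))) (P (nat_lit 0))))))) (T.h (T.h (P (nat_lit 0)) (T.h (T.h (P (nat_lit 15532778243652765473570816)) (T.h (P (nat_lit 0)) (M (nat_lit 132783142035194380287)))) (T.h (P (nat_lit 0)) (M (nat_lit 292461774379792990207))))) (T.h (T.h (T.h (P (nat_lit 0)) (T.h (M (nat_lit 11334887043216479092735)) (T.h (P (nat_lit 0)) (P (nat_lit 64870222751039488)))))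 (T.h (P (nat_lit 0)) (T.h (T.h (P (nat_lit 0)) (M (nat_lit 307064400049864703))) (P (nat_lit 0))))) (T.h (T.h (P (nat_lit 0)) (P (nat_lit 372027013451330093056))) (T.h (T.h (T.h (P (nat_lit 0)) (P (nat_lit 17610523673985024))) (P (nat_lit 0))) (P (nat_lit 0))))))), (T.h (T.h (P (nat_lit 0)) (T.h (T.h (P (nat_lit 5938840239767262457329876992)) (T.h (P (nat_lit 0)) (T.h (M (nat_lit 32448110580492473991167)) (T.h (P (nat_lit 0)) (P (nat_lit 14493620268662784)))))) (T.h (P (nat_lit 0)) (T.h (T.h (M (nat_lit 15260972577348049174527)) (T.h (P (nat_lit 0)) (P (nat_lit 176124080196288512)))) (T.h (P (nat_lit 0)) (M (nat_lit 68021766630866943))))))) (T.h (T.h (T.h (P (nat_lit 0)) (T.h (M (nat_lit 8121832179209592299847679)) (T.h (P (nat_lit 0)) (M (nat_lit 6818117037345210367))))) (T.h (P (nat_lit 0)) (T.h (T.h (P (nat_lit 0)) (M (nat_lit 9408689513531703295))) (P (nat_lit 0))))) (T.h (T.h (P (nat_lit 0)) (T.h (T.h (M (nat_lit 83505656668972851920895)) (T.h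 (P (nat_lit 0)) (P (nat_lit 99906550954229760)))) (T.h (P (nat_lit 0)) (M (nat_lit 112761797231247359))))) (T.h (T.h (T.h (P (nat_lit 0)) (P (nat_lit 18589109809936596992))) (P (nat_lit 0))) (T.h (T.h (P (nat_lit 0)) (P (nat_lit 17569552337108992))) (P (nat_lit 0))))))), (P (nat_lit 0)), (P (nat_lit 0)), (T.h (T.h (P (nat_lit 0)) (T.h (T.h (P (nat_lit 0)) (T.h (P (nat_lit 8531529062098120212480)) (T.h (P (nat_lit 0)) (T.h (P (nat_lit 220896974080049152)) (T.h (P (nat_lit 0)) (M (nat_lit 3552485475551))))))) (T.h (P (nat_lit 0)) (T.h (T.h (P (nat_lit 0)) (T.h (M (nat_lit 16192905334090629119)) (T.h (P (nat_lit 0)) (M (nat_lit 7665255229367))))) (T.h (P (nat_lit 0)) (T.h (T.h (P (nat_lit 0)) (M (nat_lit 4999931188511))) (P (nat_lit 0)))))))) (T.h (T.h (T.h (P (nat_lit 3098604776172329639948058624)) (T.h (P (nat_lit 0)) (T.h (P (nat_lit 11963179285475925950464)) (T.h (P (nat_lit 0)) (M (nat_lit 29449097314795519)))))) (T.h (P (nat_lit 0)) (T.h (T.h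 (M (nat_lit 20386365812639080120319)) (T.h (P (nat_lit 0)) (M (nat_lit 37995606355640319)))) (T.h (P (nat_lit 0)) (P (nat_lit 43855150067777536)))))) (T.h (T.h (P (nat_lit 0)) (T.h (T.h (P (nat_lit 0)) (T.h (P (nat_lit 4385020619398316032)) (T.h (P (nat_lit 0)) (P (nat_lit 96406081654456))))) (T.h (P (nat_lit 0)) (T.h (T.h (P (nat_lit 0)) (P (nat_lit 26647936252512))) (P (nat_lit 0)))))) (T.h (T.h (T.h (M (nat_lit 38481021830886875725823)) (T.h (P (nat_lit 0)) (M (nat_lit 97067009098317823)))) (T.h (P (nat_lit 0)) (P (nat_lit 77841860088954880)))) (T.h (T.h (P (nat_lit 0)) (T.h (T.h (P (nat_lit 0)) (P (nat_lit 427880890365408))) (P (nat_lit 0)))) (P (nat_lit 37063228215164928))))))), (T.h (T.h (P (nat_lit 0)) (T.h (T.h (P (nat_lit 13104509293159488922956333056)) (T.h (P (nat_lit 0)) (T.h (M (nat_lit 25950504218981834948607)) (T.h (P (nat_lit 0)) (P (nat_lit 52028122631192576)))))) (T.h (P (nat_lit 0)) (T.h (T.h (M (nat_lit 8183322561133733216255))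 (T.h (P (nat_lit 0)) (P (nat_lit 27718409163718656)))) (T.h (P (nat_lit 0)) (P (nat_lit 3185419634851840))))))) (T.h (T.h (T.h (P (nat_lit 0)) (T.h (M (nat_lit 18179769838870498853781503)) (T.h (P (nat_lit 0)) (T.h (M (nat_lit 209972500408748212223)) (T.h (P (nat_lit 0)) (P (nat_lit 14342743125232))))))) (T.h (P (nat_lit 0)) (T.h (T.h (P (nat_lit 0)) (T.h (M (nat_lit 4274468170930061311)) (T.h (P (nat_lit 0)) (P (nat_lit 55762231838416))))) (T.h (P (nat_lit 0)) (T.h (T.h (P (nat_lit 0)) (P (nat_lit 184839318268800))) (P (nat_lit 0))))))) (T.h (T.h (P (nat_lit 0)) (T.h (T.h (M (nat_lit 26957485890468973641727)) (T.h (P (nat_lit 0)) (M (nat_lit 51767154953715711)))) (T.h (P (nat_lit 0)) (P (nat_lit 41569820521021440))))) (T.h (T.h (T.h (P (nat_lit 0)) (T.h (M (nat_lit 122988291503125692415)) (T.h (P (nat_lit 0)) (M (nat_lit 379943813725007))))) (T.h (P (nat_lit 0)) (T.h (T.h (P (nat_lit 0)) (P (nat_lit 67321417156000))) (P (nat_lit 0))))) (T.h (T.h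 (P (nat_lit 0)) (M (nat_lit 72261525984329727))) (T.h (T.h (T.h (P (nat_lit 0)) (M (nat_lit 319428107412175))) (P (nat_lit 0))) (P (nat_lit 0)))))))), (T.h (T.h (P (nat_lit 0)) (T.h (T.h (P (nat_lit 0)) (T.h (M (nat_lit 117027450634404717431619583)) (T.h (P (nat_lit 0)) (T.h (M (nat_lit 3472715907627745279)) (T.h (P (nat_lit 0)) (P (nat_lit 41325168332064))))))) (T.h (P (nat_lit 0)) (T.h (T.h (P (nat_lit 0)) (T.h (P (nat_lit 65111788684669091840)) (T.h (P (nat_lit 0)) (M (nat_lit 16610803796111))))) (T.h (P (nat_lit 0)) (T.h (T.h (P (nat_lit 0)) (M (nat_lit 1762651343375))) (P (nat_lit 0)))))))) (T.h (T.h (T.h (P (nat_lit 4383589187157381946997211136)) (T.h (P (nat_lit 0)) (T.h (M (nat_lit 483039199991606506684415)) (T.h (P (nat_lit 0)) (M (nat_lit 431540193161183231)))))) (T.h (P (nat_lit 0)) (T.h (T.h (M (nat_lit 33242811703095004758015)) (T.h (P (nat_lit 0)) (P (nat_lit 564353510155419648)))) (T.h (P (nat_lit 0)) (M (nat_lit 13541206185443327))))))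 (T.h (T.h (P (nat_lit 0)) (T.h (T.h (P (nat_lit 0)) (T.h (M (nat_lit 483494862802948980735)) (T.h (P (nat_lit 0)) (M (nat_lit 135470104338527))))) (T.h (P (nat_lit 0)) (T.h (T.h (P (nat_lit 0)) (M (nat_lit 23342997095855))) (P (nat_lit 0)))))) (T.h (T.h (T.h (M (nat_lit 232256291288697188384767)) (T.h (P (nat_lit 0)) (M (nat_lit 96466544482779135)))) (T.h (P (nat_lit 0)) (P (nat_lit 80162694280544256)))) (T.h (T.h (P (nat_lit 0)) (T.h (T.h (P (nat_lit 0)) (M (nat_lit 117247060976351))) (P (nat_lit 0)))) (M (nat_lit 54969588572815359))))))), (T.h (T.h (P (nat_lit 0)) (T.h (T.h (M (nat_lit 6671350458022352838279036927)) (T.h (P (nat_lit 0)) (T.h (P (nat_lit 17553661633628670525440)) (T.h (P (nat_lit 0)) (P (nat_lit 171503091275661312)))))) (T.h (P (nat_lit 0)) (T.h (T.h (M (nat_lit 5112430650157749501951)) (T.h (P (nat_lit 0)) (M (nat_lit 5438317082542079)))) (T.h (P (nat_lit 0)) (P (nat_lit 7927542341664768))))))) (T.h (T.h (T.h (P (nat_lit 0)) (T.h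 (M (nat_lit 3949298179508003441475583)) (T.h (P (nat_lit 0)) (T.h (P (nat_lit 353432793358576648192)) (T.h (P (nat_lit 0)) (P (nat_lit 264615634808784))))))) (T.h (P (nat_lit 0)) (T.h (T.h (P (nat_lit 0)) (T.h (M (nat_lit 36553264227279699967)) (T.h (P (nat_lit 0)) (P (nat_lit 45790893067104))))) (T.h (P (nat_lit 0)) (T.h (T.h (P (nat_lit 0)) (M (nat_lit 471035189730815))) (P (nat_lit 0))))))) (T.h (T.h (P (nat_lit 0)) (T.h (T.h (P (nat_lit 17553661633628670525440)) (T.h (P (nat_lit 0)) (P (nat_lit 138489125323603968)))) (T.h (P (nat_lit 0)) (M (nat_lit 5438317082542079))))) (T.h (T.h (T.h (P (nat_lit 0)) (T.h (P (nat_lit 353432793358576648192)) (T.h (P (nat_lit 0)) (P (nat_lit 713839175147232))))) (T.h (P (nat_lit 0)) (T.h (T.h (P (nat_lit 0)) (P (nat_lit 45790893067104))) (P (nat_lit 0))))) (T.h (T.h (P (nat_lit 0)) (P (nat_lit 171503091275661312))) (T.h (T.h (T.h (P (nat_lit 0)) (P (nat_lit 264615634808784))) (P (nat_lit 0))) (P (nat_lit 0))))))))]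
def lP22_32 : List (T ℤ) := [(T.h (T.h (P (nat_lit 0)) (T.h (T.h (P (nat_lit 0)) (T.h (P (nat_lit 20571785943829798893649920)) (T.h (P (nat_lit 0)) (M (nat_lit 131035449567928647679))))) (T.h (P (nat_lit 0)) (T.h (T.h (P (nat_lit 0)) (M (nat_lit 18974281611874402303))) (P (nat_lit 0)))))) (T.h (T.h (T.h (M (nat_lit 14388029443105144331644698623)) (T.h (P (nat_lit 0)) (T.h (M (nat_lit 126623895286585969606655)) (T.h (P (nat_lit 0)) (M (nat_lit 366653797243060223)))))) (T.h (P (nat_lit 0)) (T.h (T.h (P (nat_lit 503354875083480891392)) (T.h (P (nat_lit 0)) (M (nat_lit 111429585513349119)))) (T.h (P (nat_lit 0)) (P (nat_lit 102178320589455360)))))) (T.h (T.h (P (nat_lit 0)) (T.h (T.h (P (nat_lit 0)) (P (nat_lit 238444881954769731584))) (P (nat_lit 0)))) (T.h (T.h (T.h (P (nat_lit 84493875935943795408896)) (T.h (P (nat_lit 0)) (M (nat_lit 468341570348711935)))) (T.h (P (nat_lit 0)) (M (nat_lit 51807543743152127)))) (T.h (P (nat_lit 0)) (P (nat_lit 125722530491695104))))))),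 (P (nat_lit 0)), (T.h (T.h (T.h (P (nat_lit 4345229455277619414954397401088)) (T.h (P (nat_lit 0)) (T.h (M (nat_lit 6944273271222253220003839)) (T.h (P (nat_lit 0)) (T.h (P (nat_lit 5593462061897089024)) (T.h (P (nat_lit 0)) (P (nat_lit 1226188406752)))))))) (T.h (P (nat_lit 0)) (T.h (T.h (M (nat_lit 17410927576039392920207359)) (T.h (P (nat_lit 0)) (T.h (P (nat_lit 24896289713661411328)) (T.h (P (nat_lit 0)) (P (nat_lit 9436951179808)))))) (T.h (P (nat_lit 0)) (T.h (T.h (P (nat_lit 27007099472634183680)) (T.h (P (nat_lit 0)) (P (nat_lit 86229969563360)))) (T.h (P (nat_lit 0)) (P (nat_lit 2216894909152)))))))) (T.h (T.h (P (nat_lit 0)) (T.h (T.h (P (nat_lit 0)) (T.h (M (nat_lit 104733288933201473961983)) (T.h (P (nat_lit 0)) (M (nat_lit 89812631248699391))))) (T.h (P (nat_lit 0)) (T.h (T.h (P (nat_lit 0)) (P (nat_lit 70819775688146944))) (P (nat_lit 0)))))) (T.h (T.h (T.h (P (nat_lit 48017170341066311653654528)) (T.h (P (nat_lit 0)) (T.h (M (nat_lit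 127485411942549422079)) (T.h (P (nat_lit 0)) (P (nat_lit 70963940777632)))))) (T.h (P (nat_lit 0)) (T.h (T.h (M (nat_lit 96945337112146739199)) (T.h (P (nat_lit 0)) (P (nat_lit 53817447588928)))) (T.h (P (nat_lit 0)) (P (nat_lit 129946810063712)))))) (T.h (T.h (P (nat_lit 0)) (T.h (T.h (P (nat_lit 0)) (M (nat_lit 722480102479364095))) (P (nat_lit 0)))) (T.h (T.h (T.h (M (nat_lit 30611565311590137855)) (T.h (P (nat_lit 0)) (M (nat_lit 58208410205215)))) (T.h (P (nat_lit 0)) (M (nat_lit 68198036147983)))) (T.h (P (nat_lit 0)) (M (nat_lit 9307161110703)))))))), (T.h (T.h (T.h (P (nat_lit 0)) (T.h (P (nat_lit 13486045689689381124416995328)) (T.h (P (nat_lit 0)) (T.h (M (nat_lit 2795115728045980254207)) (T.h (P (nat_lit 0)) (M (nat_lit 22427009605419007))))))) (T.h (P (nat_lit 0)) (T.h (T.h (P (nat_lit 0)) (T.h (M (nat_lit 3894668710928202072063)) (T.h (P (nat_lit 0)) (P (nat_lit 71914844739059712))))) (T.h (P (nat_lit 0)) (T.h (T.h (P (nat_lit 0)) (P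 (nat_lit 135401649344462848))) (P (nat_lit 0))))))) (T.h (T.h (P (nat_lit 0)) (T.h (T.h (P (nat_lit 7085440782410300971286528)) (T.h (P (nat_lit 0)) (T.h (M (nat_lit 44222692011483856895)) (T.h (P (nat_lit 0)) (P (nat_lit 47631884367696)))))) (T.h (P (nat_lit 0)) (T.h (T.h (M (nat_lit 139189919279736684543)) (T.h (P (nat_lit 0)) (P (nat_lit 98000281546864)))) (T.h (P (nat_lit 0)) (M (nat_lit 6856562256479))))))) (T.h (T.h (T.h (P (nat_lit 0)) (T.h (P (nat_lit 75508913859122119573504)) (T.h (P (nat_lit 0)) (P (nat_lit 390217743366848512))))) (T.h (P (nat_lit 0)) (T.h (T.h (P (nat_lit 0)) (M (nat_lit 993749329930911743))) (P (nat_lit 0))))) (T.h (T.h (P (nat_lit 0)) (T.h (T.h (M (nat_lit 192992216273947459583)) (T.h (P (nat_lit 0)) (P (nat_lit 273709534607184)))) (T.h (P (nat_lit 0)) (P (nat_lit 11968217176688))))) (T.h (T.h (T.h (P (nat_lit 0)) (M (nat_lit 52973549007372287))) (P (nat_lit 0))) (T.h (T.h (P (nat_lit 0)) (M (nat_lit 347954802878815)))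 (P (nat_lit 0)))))))), (T.h (T.h (T.h (P (nat_lit 2997439389140727423209392046080)) (T.h (P (nat_lit 0)) (T.h (M (nat_lit 54967093526639888864116735)) (T.h (P (nat_lit 0)) (T.h (P (nat_lit 87868705848145477632)) (T.h (P (nat_lit 0)) (M (nat_lit 32785963362287)))))))) (T.h (P (nat_lit 0)) (T.h (T.h (P (nat_lit 21979810714823706965704704)) (T.h (P (nat_lit 0)) (T.h (M (nat_lit 6923652398082686975)) (T.h (P (nat_lit 0)) (P (nat_lit 63617011562544)))))) (T.h (P (nat_lit 0)) (T.h (T.h (P (nat_lit 40782294402191065088)) (T.h (P (nat_lit 0)) (P (nat_lit 51730078582032)))) (T.h (P (nat_lit 0)) (P (nat_lit 11242220223216)))))))) (T.h (T.h (P (nat_lit 0)) (T.h (T.h (P (nat_lit 0)) (T.h (P (nat_lit 198010967556975059009536)) (T.h (P (nat_lit 0)) (M (nat_lit 1063261266915491839))))) (T.h (P (nat_lit 0)) (T.h (T.h (P (nat_lit 0)) (P (nat_lit 670266917546426368))) (P (nat_lit 0)))))) (T.h (T.h (T.h (P (nat_lit 35977216366941970284675072)) (T.h (P (nat_lit 0))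 (T.h (M (nat_lit 1762622514959992487935)) (T.h (P (nat_lit 0)) (M (nat_lit 250495927025999)))))) (T.h (P (nat_lit 0)) (T.h (T.h (P (nat_lit 225656022705016668160)) (T.h (P (nat_lit 0)) (M (nat_lit 73575646358879)))) (T.h (P (nat_lit 0)) (M (nat_lit 740058833039)))))) (T.h (T.h (P (nat_lit 0)) (T.h (T.h (P (nat_lit 0)) (M (nat_lit 1287842794714234879))) (P (nat_lit 0)))) (T.h (T.h (T.h (P (nat_lit 140520015652775264256)) (T.h (P (nat_lit 0)) (M (nat_lit 57066838422287)))) (T.h (P (nat_lit 0)) (P (nat_lit 204575962751184)))) (T.h (P (nat_lit 0)) (M (nat_lit 25785911420447)))))))), (T.h (T.h (T.h (P (nat_lit 0)) (T.h (P (nat_lit 10098823510839615258793869312)) (T.h (P (nat_lit 0)) (T.h (M (nat_lit 15347111945282003140607)) (T.h (P (nat_lit 0)) (M (nat_lit 178329679561441279))))))) (T.h (P (nat_lit 0)) (T.h (T.h (P (nat_lit 0)) (T.h (M (nat_lit 68449625130738779160575)) (T.h (P (nat_lit 0)) (P (nat_lit 47629619925549056))))) (T.h (P (nat_lit 0)) (T.h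 (T.h (P (nat_lit 0)) (P (nat_lit 69615724044402688))) (P (nat_lit 0))))))) (T.h (T.h (P (nat_lit 0)) (T.h (T.h (P (nat_lit 34488381105163752200732672)) (T.h (P (nat_lit 0)) (T.h (P (nat_lit 817435440478634901504)) (T.h (P (nat_lit 0)) (M (nat_lit 706305045045455)))))) (T.h (P (nat_lit 0)) (T.h (T.h (P (nat_lit 129763650506804166656)) (T.h (P (nat_lit 0)) (P (nat_lit 29547721411632)))) (T.h (P (nat_lit 0)) (M (nat_lit 53738246021903))))))) (T.h (T.h (T.h (P (nat_lit 0)) (T.h (M (nat_lit 81377000152364184764415)) (T.h (P (nat_lit 0)) (M (nat_lit 1065398080356843519))))) (T.h (P (nat_lit 0)) (T.h (T.h (P (nat_lit 0)) (P (nat_lit 146348188268625920))) (P (nat_lit 0))))) (T.h (T.h (P (nat_lit 0)) (T.h (T.h (M (nat_lit 55130136566751559679)) (T.h (P (nat_lit 0)) (P (nat_lit 293382072333648)))) (T.h (P (nat_lit 0)) (P (nat_lit 39684298899168))))) (T.h (T.h (T.h (P (nat_lit 0)) (P (nat_lit 255163768485953536))) (P (nat_lit 0))) (T.h (T.h (P (nat_lit 0))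 (P (nat_lit 96931288604016))) (P (nat_lit 0)))))))), (T.h (T.h (T.h (P (nat_lit 13913628505482159896886761226240)) (T.h (P (nat_lit 0)) (T.h (P (nat_lit 20348160683865635867852800)) (T.h (P (nat_lit 0)) (P (nat_lit 221888006638780022784)))))) (T.h (P (nat_lit 0)) (T.h (T.h (P (nat_lit 19669524307850661392809984)) (T.h (P (nat_lit 0)) (P (nat_lit 5919397592612995072)))) (T.h (P (nat_lit 0)) (M (nat_lit 1814934709327626239)))))) (T.h (T.h (P (nat_lit 0)) (T.h (T.h (P (nat_lit 0)) (T.h (M (nat_lit 491777458160134256590847)) (T.h (P (nat_lit 0)) (P (nat_lit 488533162525655040))))) (T.h (P (nat_lit 0)) (T.h (T.h (P (nat_lit 0)) (P (nat_lit 401851704496750592))) (P (nat_lit 0)))))) (T.h (T.h (T.h (P (nat_lit 20348160683865635867852800)) (T.h (P (nat_lit 0)) (P (nat_lit 1393148856816281583616)))) (T.h (P (nat_lit 0)) (P (nat_lit 5919397592612995072)))) (T.h (T.h (P (nat_lit 0)) (T.h (T.h (P (nat_lit 0)) (P (nat_lit 488533162525655040))) (P (nat_lit 0))))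 (P (nat_lit 221888006638780022784)))))), (T.h (T.h (P (nat_lit 0)) (T.h (T.h (P (nat_lit 0)) (T.h (P (nat_lit 6034124902302266928660480)) (T.h (P (nat_lit 0)) (T.h (P (nat_lit 2800396035392798720)) (T.h (P (nat_lit 0)) (P (nat_lit 9180840934728))))))) (T.h (P (nat_lit 0)) (T.h (T.h (P (nat_lit 0)) (T.h (M (nat_lit 2708072234307551231)) (T.h (P (nat_lit 0)) (P (nat_lit 13956825122808))))) (T.h (P (nat_lit 0)) (T.h (T.h (P (nat_lit 0)) (M (nat_lit 33957735906503))) (P (nat_lit 0)))))))) (T.h (T.h (T.h (M (nat_lit 2446445817314079046260228095)) (T.h (P (nat_lit 0)) (T.h (P (nat_lit 3729586567560768258048)) (T.h (P (nat_lit 0)) (M (nat_lit 17775016194080767)))))) (T.h (P (nat_lit 0)) (T.h (T.h (P (nat_lit 9524129684993658060800)) (T.h (P (nat_lit 0)) (M (nat_lit 32332720980328447)))) (T.h (P (nat_lit 0)) (P (nat_lit 14579344540237824)))))) (T.h (T.h (P (nat_lit 0)) (T.h (T.h (P (nat_lit 0)) (T.h (P (nat_lit 93185734165020016640)) (T.h (P (nat_lit 0))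 (M (nat_lit 16412332180447))))) (T.h (P (nat_lit 0)) (T.h (T.h (P (nat_lit 0)) (P (nat_lit 16120243369672))) (P (nat_lit 0)))))) (T.h (T.h (T.h (P (nat_lit 14113606204607447433216)) (T.h (P (nat_lit 0)) (P (nat_lit 1902440084045824)))) (T.h (P (nat_lit 0)) (P (nat_lit 46263438480408576)))) (T.h (T.h (P (nat_lit 0)) (T.h (T.h (P (nat_lit 0)) (P (nat_lit 17695890957600))) (P (nat_lit 0)))) (M (nat_lit 14427111626145791)))))))]
def lP22_33 : List (T ℤ) := [(T.h (T.h (P (nat_lit 0)) (T.h (T.h (P (nat_lit 11401952711144634565808619520)) (T.h (P (nat_lit 0)) (T.h (P (nat_lit 9211029130427594964992)) (T.h (P (nat_lit 0)) (P (nat_lit 157045282990014464)))))) (T.h (P (nat_lit 0)) (T.h (T.h (M (nat_lit 349580771751851196415)) (T.h (P (nat_lit 0)) (P (nat_lit 82684409123340288)))) (T.h (P (nat_lit 0)) (M (nat_lit 25174507732271103))))))) (T.h (T.h (T.h (P (nat_lit 0)) (T.h (P (nat_lit 3580340693341382729793536)) (T.h (P (nat_lit 0)) (T.h (M (nat_lit 135983825542308691967))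 (T.h (P (nat_lit 0)) (M (nat_lit 4685423447423))))))) (T.h (P (nat_lit 0)) (T.h (T.h (P (nat_lit 0)) (T.h (M (nat_lit 52911668563758022655)) (T.h (P (nat_lit 0)) (P (nat_lit 90268290434928))))) (T.h (P (nat_lit 0)) (T.h (T.h (P (nat_lit 0)) (P (nat_lit 54023327974512))) (P (nat_lit 0))))))) (T.h (T.h (P (nat_lit 0)) (T.h (T.h (P (nat_lit 89621593371965055303680)) (T.h (P (nat_lit 0)) (M (nat_lit 948573949698473983)))) (T.h (P (nat_lit 0)) (P (nat_lit 387135896393826304))))) (T.h (T.h (T.h (P (nat_lit 0)) (T.h (M (nat_lit 276770331442141986815)) (T.h (P (nat_lit 0)) (M (nat_lit 7866646795423))))) (T.h (P (nat_lit 0)) (T.h (T.h (P (nat_lit 0)) (P (nat_lit 254418358177664))) (P (nat_lit 0))))) (T.h (T.h (P (nat_lit 0)) (P (nat_lit 92959733253701632))) (T.h (T.h (T.h (P (nat_lit 0)) (M (nat_lit 12012813532351))) (P (nat_lit 0))) (P (nat_lit 0)))))))), (T.h (T.h (P (nat_lit 0)) (T.h (T.h (P (nat_lit 0)) (T.h (P (nat_lit 30679117521454634350149632)) (T.h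 (P (nat_lit 0)) (T.h (P (nat_lit 367868479617498087424)) (T.h (P (nat_lit 0)) (M (nat_lit 102634328878031))))))) (T.h (P (nat_lit 0)) (T.h (T.h (P (nat_lit 0)) (T.h (M (nat_lit 123536000743622311935)) (T.h (P (nat_lit 0)) (P (nat_lit 60989033757360))))) (T.h (P (nat_lit 0)) (T.h (T.h (P (nat_lit 0)) (M (nat_lit 82313255619695))) (P (nat_lit 0)))))))) (T.h (T.h (T.h (M (nat_lit 32904838678025222514974654463)) (T.h (P (nat_lit 0)) (T.h (P (nat_lit 51579858231777065697280)) (T.h (P (nat_lit 0)) (P (nat_lit 93780380375121920)))))) (T.h (P (nat_lit 0)) (T.h (T.h (M (nat_lit 569524322453197634404351)) (T.h (P (nat_lit 0)) (M (nat_lit 383777710999011327)))) (T.h (P (nat_lit 0)) (M (nat_lit 164508673474199551)))))) (T.h (T.h (P (nat_lit 0)) (T.h (T.h (P (nat_lit 0)) (T.h (P (nat_lit 909480425701685329920)) (T.h (P (nat_lit 0)) (M (nat_lit 41886147061871))))) (T.h (P (nat_lit 0)) (T.h (T.h (P (nat_lit 0)) (M (nat_lit 98435914191599))) (P (nat_lit 0))))))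 (T.h (T.h (T.h (P (nat_lit 230623321736917653913600)) (T.h (P (nat_lit 0)) (P (nat_lit 242030354644992000)))) (T.h (P (nat_lit 0)) (M (nat_lit 841040843064377343)))) (T.h (T.h (P (nat_lit 0)) (T.h (T.h (P (nat_lit 0)) (P (nat_lit 98202852104064))) (P (nat_lit 0)))) (P (nat_lit 605889743037169664))))))), (T.h (T.h (P (nat_lit 0)) (T.h (T.h (M (nat_lit 18546290553820891719934148607)) (T.h (P (nat_lit 0)) (T.h (M (nat_lit 210437898605301061386239)) (T.h (P (nat_lit 0)) (P (nat_lit 119309821179199488)))))) (T.h (P (nat_lit 0)) (T.h (T.h (M (nat_lit 22341720632500368179199)) (T.h (P (nat_lit 0)) (P (nat_lit 155420708231987200)))) (T.h (P (nat_lit 0)) (M (nat_lit 30280732615884799))))))) (T.h (T.h (T.h (P (nat_lit 0)) (T.h (M (nat_lit 200019581407957227222859775)) (T.h (P (nat_lit 0)) (T.h (P (nat_lit 284957924321170292736)) (T.h (P (nat_lit 0)) (P (nat_lit 343761685065648))))))) (T.h (P (nat_lit 0)) (T.h (T.h (P (nat_lit 0)) (T.h (P (nat_lit 520332264399049850880))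 (T.h (P (nat_lit 0)) (M (nat_lit 715576709790719))))) (T.h (P (nat_lit 0)) (T.h (T.h (P (nat_lit 0)) (M (nat_lit 652272875091791))) (P (nat_lit 0))))))) (T.h (T.h (P (nat_lit 0)) (T.h (T.h (M (nat_lit 325952085450701739655167)) (T.h (P (nat_lit 0)) (P (nat_lit 552192088727060480)))) (T.h (P (nat_lit 0)) (M (nat_lit 733288907609882623))))) (T.h (T.h (T.h (P (nat_lit 0)) (T.h (M (nat_lit 177452651307989991423)) (T.h (P (nat_lit 0)) (M (nat_lit 139875434361503))))) (T.h (P (nat_lit 0)) (T.h (T.h (P (nat_lit 0)) (M (nat_lit 370281257012735))) (P (nat_lit 0))))) (T.h (T.h (P (nat_lit 0)) (P (nat_lit 404521232251764736))) (T.h (T.h (T.h (P (nat_lit 0)) (P (nat_lit 426040037735472))) (P (nat_lit 0))) (P (nat_lit 0)))))))), (T.h (T.h (P (nat_lit 0)) (T.h (T.h (P (nat_lit 0)) (T.h (M (nat_lit 56490792542494067001393151)) (T.h (P (nat_lit 0)) (M (nat_lit 52572559826374098943))))) (T.h (P (nat_lit 0)) (T.h (T.h (P (nat_lit 0)) (M (nat_lit 276447698764093718527)))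 (P (nat_lit 0)))))) (T.h (T.h (T.h (P (nat_lit 4098973312156333036814729216)) (T.h (P (nat_lit 0)) (T.h (P (nat_lit 627530395099535645868032)) (T.h (P (nat_lit 0)) (M (nat_lit 188587866058260479)))))) (T.h (P (nat_lit 0)) (T.h (T.h (M (nat_lit 92261680203773218127871)) (T.h (P (nat_lit 0)) (P (nat_lit 340884581242339328)))) (T.h (P (nat_lit 0)) (P (nat_lit 149424152781848576)))))) (T.h (T.h (P (nat_lit 0)) (T.h (T.h (P (nat_lit 0)) (M (nat_lit 18933636662254632959))) (P (nat_lit 0)))) (T.h (T.h (T.h (M (nat_lit 11302933404076692471807)) (T.h (P (nat_lit 0)) (P (nat_lit 112353382351929344)))) (T.h (P (nat_lit 0)) (P (nat_lit 108178727758004224)))) (T.h (P (nat_lit 0)) (M (nat_lit 636919300485021695))))))), (T.h (T.h (T.h (P (nat_lit 0)) (T.h (P (nat_lit 11020416314614742364347957248)) (T.h (P (nat_lit 0)) (T.h (M (nat_lit 5737787604839604158463)) (T.h (P (nat_lit 0)) (P (nat_lit 437921507999744))))))) (T.h (P (nat_lit 0)) (T.h (T.h (P (nat_lit 0))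 (T.h (M (nat_lit 12844806377626037911551)) (T.h (P (nat_lit 0)) (P (nat_lit 38487973547999232))))) (T.h (P (nat_lit 0)) (T.h (T.h (P (nat_lit 0)) (P (nat_lit 73671756276744192))) (P (nat_lit 0))))))) (T.h (T.h (P (nat_lit 0)) (T.h (T.h (M (nat_lit 21684869927939417095274495)) (T.h (P (nat_lit 0)) (T.h (M (nat_lit 12963444723204227071)) (T.h (P (nat_lit 0)) (P (nat_lit 191230761875616)))))) (T.h (P (nat_lit 0)) (T.h (T.h (M (nat_lit 206766406671320219647)) (T.h (P (nat_lit 0)) (P (nat_lit 48030240726480)))) (T.h (P (nat_lit 0)) (P (nat_lit 16513881934288))))))) (T.h (T.h (T.h (P (nat_lit 0)) (T.h (M (nat_lit 12844806377626037911551)) (T.h (P (nat_lit 0)) (P (nat_lit 38487973547999232))))) (T.h (P (nat_lit 0)) (T.h (T.h (P (nat_lit 0)) (M (nat_lit 6591774721277951))) (P (nat_lit 0))))) (T.h (T.h (P (nat_lit 0)) (T.h (T.h (M (nat_lit 206766406671320219647)) (T.h (P (nat_lit 0)) (P (nat_lit 48030240726480)))) (T.h (P (nat_lit 0)) (M (nat_lit 399778677697119)))))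 (T.h (T.h (T.h (P (nat_lit 0)) (P (nat_lit 73671756276744192))) (P (nat_lit 0))) (T.h (T.h (P (nat_lit 0)) (P (nat_lit 16513881934288))) (P (nat_lit 0)))))))), (T.h (T.h (T.h (M (nat_lit 851272596110149998887372324863)) (T.h (P (nat_lit 0)) (T.h (M (nat_lit 23188096804866667602509823)) (T.h (P (nat_lit 0)) (T.h (P (nat_lit 57736743200067944448)) (T.h (P (nat_lit 0)) (P (nat_lit 12514805647488)))))))) (T.h (P (nat_lit 0)) (T.h (T.h (M (nat_lit 82576336320761497074532351)) (T.h (P (nat_lit 0)) (T.h (M (nat_lit 115216683789640007679)) (T.h (P (nat_lit 0)) (P (nat_lit 106034947275024)))))) (T.h (P (nat_lit 0)) (T.h (T.h (M (nat_lit 159607655211324145663)) (T.h (P (nat_lit 0)) (P (nat_lit 117921880255536)))) (T.h (P (nat_lit 0)) (M (nat_lit 31513377938015)))))))) (T.h (T.h (P (nat_lit 0)) (T.h (T.h (P (nat_lit 0)) (T.h (P (nat_lit 108238888629147831107584)) (T.h (P (nat_lit 0)) (M (nat_lit 303228862671224831))))) (T.h (P (nat_lit 0)) (T.h (T.h (P (nat_lit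 0)) (M (nat_lit 477586486620127231))) (P (nat_lit 0)))))) (T.h (T.h (T.h (M (nat_lit 117630942955441938893897727)) (T.h (P (nat_lit 0)) (T.h (P (nat_lit 47412320963395584000)) (T.h (P (nat_lit 0)) (P (nat_lit 106034947275024)))))) (T.h (P (nat_lit 0)) (T.h (T.h (M (nat_lit 148602608935352926207)) (T.h (P (nat_lit 0)) (M (nat_lit 21588494913791)))) (T.h (P (nat_lit 0)) (M (nat_lit 143720920917935)))))) (T.h (T.h (P (nat_lit 0)) (T.h (T.h (P (nat_lit 0)) (M (nat_lit 1157162016127385599))) (P (nat_lit 0)))) (T.h (T.h (T.h (M (nat_lit 884226064002586771455)) (T.h (P (nat_lit 0)) (P (nat_lit 117921880255536)))) (T.h (P (nat_lit 0)) (M (nat_lit 143720920917935)))) (T.h (P (nat_lit 0)) (M (nat_lit 31513377938015)))))))), (T.h (T.h (T.h (P (nat_lit 0)) (T.h (M (nat_lit 11643964207393972780093407231)) (T.h (P (nat_lit 0)) (T.h (M (nat_lit 29396462670571011833855)) (T.h (P (nat_lit 0)) (M (nat_lit 20449760499122175))))))) (T.h (P (nat_lit 0)) (T.h (T.h (P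 (nat_lit 0)) (T.h (M (nat_lit 184712720798997071003647)) (T.h (P (nat_lit 0)) (P (nat_lit 180087968380207104))))) (T.h (P (nat_lit 0)) (T.h (T.h (P (nat_lit 0)) (M (nat_lit 42480007429734399))) (P (nat_lit 0))))))) (T.h (T.h (P (nat_lit 0)) (T.h (T.h (M (nat_lit 136075761118814041045729279)) (T.h (P (nat_lit 0)) (T.h (P (nat_lit 617493427888091824128)) (T.h (P (nat_lit 0)) (M (nat_lit 674888095672991)))))) (T.h (P (nat_lit 0)) (T.h (T.h (P (nat_lit 14588165752864374784)) (T.h (P (nat_lit 0)) (M (nat_lit 693522614239631)))) (T.h (P (nat_lit 0)) (P (nat_lit 184186808190864))))))) (T.h (T.h (T.h (P (nat_lit 0)) (T.h (M (nat_lit 153061734562480164700159)) (T.h (P (nat_lit 0)) (P (nat_lit 153120127768805376))))) (T.h (P (nat_lit 0)) (T.h (T.h (P (nat_lit 0)) (P (nat_lit 101493264872374272))) (P (nat_lit 0))))) (T.h (T.h (P (nat_lit 0)) (T.h (T.h (P (nat_lit 392321056459123064832)) (T.h (P (nat_lit 0)) (M (nat_lit 962641220489135)))) (T.h (P (nat_lit 0))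 (P (nat_lit 257353026753168))))) (T.h (T.h (T.h (P (nat_lit 0)) (P (nat_lit 240888816312598528))) (P (nat_lit 0))) (T.h (T.h (P (nat_lit 0)) (P (nat_lit 755771081354496))) (P (nat_lit 0)))))))), (T.h (T.h (T.h (M (nat_lit 8062519416909645403126147055615)) (T.h (P (nat_lit 0)) (T.h (M (nat_lit 130429572048274419473186815)) (T.h (P (nat_lit 0)) (P (nat_lit 71637353346579300352)))))) (T.h (P (nat_lit 0)) (T.h (T.h (M (nat_lit 127752026040341769536667647)) (T.h (P (nat_lit 0)) (M (nat_lit 388000715452236955647)))) (T.h (P (nat_lit 0)) (P (nat_lit 103829370062434729984)))))) (T.h (T.h (P (nat_lit 0)) (T.h (T.h (P (nat_lit 0)) (T.h (M (nat_lit 881153977836019529023487)) (T.h (P (nat_lit 0)) (P (nat_lit 1375429153100333056))))) (T.h (P (nat_lit 0)) (T.h (T.h (P (nat_lit 0)) (P (nat_lit 1381881065414066176))) (P (nat_lit 0)))))) (T.h (T.h (T.h (M (nat_lit 132428481680192094934663167)) (T.h (P (nat_lit 0)) (M (nat_lit 560407240565642493951)))) (T.h (P (nat_lit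 0)) (P (nat_lit 219410751602894569472)))) (T.h (T.h (P (nat_lit 0)) (T.h (T.h (P (nat_lit 0)) (P (nat_lit 1455658698815504384))) (P (nat_lit 0)))) (P (nat_lit 263148277978831519744))))))]
def lP22_34 : List (T ℤ) := [(T.h (T.h (P (nat_lit 0)) (T.h (T.h (P (nat_lit 0)) (T.h (P (nat_lit 43822609512558630782631936)) (T.h (P (nat_lit 0)) (T.h (M (nat_lit 25450150049553055743)) (T.h (P (nat_lit 0)) (P (nat_lit 453752910000))))))) (T.h (P (nat_lit 0)) (T.h (T.h (P (nat_lit 0)) (T.h (M (nat_lit 178327785982151098367)) (T.h (P (nat_lit 0)) (M (nat_lit 13428688508639))))) (T.h (P (nat_lit 0)) (T.h (T.h (P (nat_lit 0)) (P (nat_lit 23220499327104))) (P (nat_lit 0)))))))) (T.h (T.h (T.h (P (nat_lit 4368116058228354375101710336)) (T.h (P (nat_lit 0)) (T.h (M (nat_lit 28928474127679788941311)) (T.h (P (nat_lit 0)) (M (nat_lit 59547746259075071)))))) (T.h (P (nat_lit 0)) (T.h (T.h (M (nat_lit 1446955682022832472063)) (T.h (P (nat_lit 0)) (P (nat_lit 66634387635765248))))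 (T.h (P (nat_lit 0)) (P (nat_lit 21747700251721728)))))) (T.h (T.h (P (nat_lit 0)) (T.h (T.h (P (nat_lit 0)) (T.h (M (nat_lit 38265554109261152255)) (T.h (P (nat_lit 0)) (M (nat_lit 30149558717327))))) (T.h (P (nat_lit 0)) (T.h (T.h (P (nat_lit 0)) (M (nat_lit 85726898830271))) (P (nat_lit 0)))))) (T.h (T.h (T.h (M (nat_lit 7380388423830398304255)) (T.h (P (nat_lit 0)) (P (nat_lit 147458440066596864)))) (T.h (P (nat_lit 0)) (P (nat_lit 634665869733625856)))) (T.h (T.h (P (nat_lit 0)) (T.h (T.h (P (nat_lit 0)) (P (nat_lit 37567969112640))) (P (nat_lit 0)))) (P (nat_lit 5045585517576192))))))), (T.h (T.h (P (nat_lit 0)) (T.h (T.h (P (nat_lit 20336825086277710617774129152)) (T.h (P (nat_lit 0)) (T.h (M (nat_lit 35675785022990670888959)) (T.h (P (nat_lit 0)) (M (nat_lit 36241238331195391)))))) (T.h (P (nat_lit 0)) (T.h (T.h (M (nat_lit 19845638658273772044287)) (T.h (P (nat_lit 0)) (P (nat_lit 61532118309339136)))) (T.h (P (nat_lit 0)) (M (nat_lit 172462478615511039)))))))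 (T.h (T.h (T.h (P (nat_lit 0)) (T.h (P (nat_lit 100406850484060940098600960)) (T.h (P (nat_lit 0)) (T.h (M (nat_lit 128456059387660730367)) (T.h (P (nat_lit 0)) (M (nat_lit 59828803719263))))))) (T.h (P (nat_lit 0)) (T.h (T.h (P (nat_lit 0)) (T.h (P (nat_lit 932873236081316724736)) (T.h (P (nat_lit 0)) (M (nat_lit 105852932695583))))) (T.h (P (nat_lit 0)) (T.h (T.h (P (nat_lit 0)) (M (nat_lit 493402670761247))) (P (nat_lit 0))))))) (T.h (T.h (P (nat_lit 0)) (T.h (T.h (P (nat_lit 66911026800784601776128)) (T.h (P (nat_lit 0)) (M (nat_lit 373595198247862271)))) (T.h (P (nat_lit 0)) (M (nat_lit 162785966131183615))))) (T.h (T.h (T.h (P (nat_lit 0)) (T.h (P (nat_lit 149060729167943827456)) (T.h (P (nat_lit 0)) (P (nat_lit 79993172440224))))) (T.h (P (nat_lit 0)) (T.h (T.h (P (nat_lit 0)) (M (nat_lit 187314034551551))) (P (nat_lit 0))))) (T.h (T.h (P (nat_lit 0)) (M (nat_lit 135904604962209791))) (T.h (T.h (T.h (P (nat_lit 0)) (P (nat_lit 8562378236832)))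 (P (nat_lit 0))) (P (nat_lit 0)))))))), (T.h (T.h (P (nat_lit 0)) (T.h (T.h (P (nat_lit 0)) (T.h (M (nat_lit 63810644508943599638937599)) (T.h (P (nat_lit 0)) (M (nat_lit 247544084512351715327))))) (T.h (P (nat_lit 0)) (T.h (T.h (P (nat_lit 0)) (P (nat_lit 77566262738585387008))) (P (nat_lit 0)))))) (T.h (T.h (T.h (P (nat_lit 13301083954609772505539280896)) (T.h (P (nat_lit 0)) (T.h (M (nat_lit 336160875623036496117759)) (T.h (P (nat_lit 0)) (P (nat_lit 159861587838763008)))))) (T.h (P (nat_lit 0)) (T.h (T.h (P (nat_lit 589225269835927444783104)) (T.h (P (nat_lit 0)) (P (nat_lit 331598655029673984)))) (T.h (P (nat_lit 0)) (M (nat_lit 37379241387458559)))))) (T.h (T.h (P (nat_lit 0)) (T.h (T.h (P (nat_lit 0)) (P (nat_lit 157109970769566236672))) (P (nat_lit 0)))) (T.h (T.h (T.h (P (nat_lit 141720753586842533625856)) (T.h (P (nat_lit 0)) (P (nat_lit 50015102462754816)))) (T.h (P (nat_lit 0)) (M (nat_lit 184549199889006591)))) (T.h (P (nat_lit 0)) (M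 (nat_lit 65329990424068095))))))), (T.h (T.h (T.h (P (nat_lit 0)) (T.h (M (nat_lit 3335675229011176419139518463)) (T.h (P (nat_lit 0)) (T.h (M (nat_lit 2556215325078874750975)) (T.h (P (nat_lit 0)) (P (nat_lit 3963771170832384))))))) (T.h (P (nat_lit 0)) (T.h (T.h (P (nat_lit 0)) (T.h (P (nat_lit 24602323935072788414464)) (T.h (P (nat_lit 0)) (M (nat_lit 16203078846971903))))) (T.h (P (nat_lit 0)) (T.h (T.h (P (nat_lit 0)) (P (nat_lit 227435957508997120))) (P (nat_lit 0))))))) (T.h (T.h (P (nat_lit 0)) (T.h (T.h (M (nat_lit 1974649089754001720737791)) (T.h (P (nat_lit 0)) (T.h (M (nat_lit 18276632113639849983)) (T.h (P (nat_lit 0)) (M (nat_lit 235517594865407)))))) (T.h (P (nat_lit 0)) (T.h (T.h (P (nat_lit 365582842032417669120)) (T.h (P (nat_lit 0)) (M (nat_lit 111663856591199)))) (T.h (P (nat_lit 0)) (P (nat_lit 418099953986208))))))) (T.h (T.h (T.h (P (nat_lit 0)) (T.h (M (nat_lit 7048662301444117889023)) (T.h (P (nat_lit 0)) (P (nat_lit 10764761764429824)))))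 (T.h (P (nat_lit 0)) (T.h (T.h (P (nat_lit 0)) (P (nat_lit 69244562661801984))) (P (nat_lit 0))))) (T.h (T.h (P (nat_lit 0)) (T.h (T.h (M (nat_lit 12150048673841020927)) (T.h (P (nat_lit 0)) (P (nat_lit 157454749658304)))) (T.h (P (nat_lit 0)) (P (nat_lit 356919587573616))))) (T.h (T.h (T.h (P (nat_lit 0)) (M (nat_lit 55932866233335807))) (P (nat_lit 0))) (T.h (T.h (P (nat_lit 0)) (M (nat_lit 153484319177423))) (P (nat_lit 0)))))))), (T.h (T.h (T.h (P (nat_lit 6956814252741079948443380613120)) (T.h (P (nat_lit 0)) (T.h (P (nat_lit 9834762153925330696404992)) (T.h (P (nat_lit 0)) (M (nat_lit 907467354663813119)))))) (T.h (P (nat_lit 0)) (T.h (T.h (P (nat_lit 7835852522007655234928640)) (T.h (P (nat_lit 0)) (M (nat_lit 83243563760396271615)))) (T.h (P (nat_lit 0)) (P (nat_lit 190603457277588406272)))))) (T.h (T.h (P (nat_lit 0)) (T.h (T.h (P (nat_lit 0)) (T.h (M (nat_lit 245888729080067128295423)) (T.h (P (nat_lit 0)) (P (nat_lit 200925852248375296)))))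 (T.h (P (nat_lit 0)) (T.h (T.h (P (nat_lit 0)) (P (nat_lit 281155397963546624))) (P (nat_lit 0)))))) (T.h (T.h (T.h (P (nat_lit 12512308161857980632924160)) (T.h (P (nat_lit 0)) (P (nat_lit 89162961353009266688)))) (T.h (P (nat_lit 0)) (P (nat_lit 696574428408140791808)))) (T.h (T.h (P (nat_lit 0)) (T.h (T.h (P (nat_lit 0)) (P (nat_lit 207377764562108416))) (P (nat_lit 0)))) (P (nat_lit 31284549361191616512)))))), (T.h (T.h (P (nat_lit 0)) (T.h (T.h (P (nat_lit 0)) (T.h (M (nat_lit 11796831539250381828653055)) (T.h (P (nat_lit 0)) (P (nat_lit 11447994264663883776))))) (T.h (P (nat_lit 0)) (T.h (T.h (P (nat_lit 0)) (M (nat_lit 201848382004607844351))) (P (nat_lit 0)))))) (T.h (T.h (T.h (M (nat_lit 19010715559394962457480921087)) (T.h (P (nat_lit 0)) (T.h (M (nat_lit 4534848523537343315967)) (T.h (P (nat_lit 0)) (P (nat_lit 72142769679368192)))))) (T.h (P (nat_lit 0)) (T.h (T.h (M (nat_lit 337256168840861870718975)) (T.h (P (nat_lit 0)) (P (nat_lit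 146445637852594176)))) (T.h (P (nat_lit 0)) (M (nat_lit 537460537767034879)))))) (T.h (T.h (P (nat_lit 0)) (T.h (T.h (P (nat_lit 0)) (P (nat_lit 27730665333827043328))) (P (nat_lit 0)))) (T.h (T.h (T.h (P (nat_lit 17167194726438533070848)) (T.h (P (nat_lit 0)) (M (nat_lit 39240781425016831)))) (T.h (P (nat_lit 0)) (M (nat_lit 217035851084890111)))) (T.h (P (nat_lit 0)) (P (nat_lit 51833134429732864))))))), (P (nat_lit 0)), (T.h (T.h (T.h (P (nat_lit 0)) (T.h (P (nat_lit 522746914167041583189327872)) (T.h (P (nat_lit 0)) (T.h (P (nat_lit 15476794070994316689408)) (T.h (P (nat_lit 0)) (M (nat_lit 8973031546978303))))))) (T.h (P (nat_lit 0)) (T.h (T.h (P (nat_lit 0)) (T.h (P (nat_lit 3850669693482588700672)) (T.h (P (nat_lit 0)) (M (nat_lit 2462725884444671))))) (T.h (P (nat_lit 0)) (T.h (T.h (P (nat_lit 0)) (P (nat_lit 10120581031886848))) (P (nat_lit 0))))))) (T.h (T.h (P (nat_lit 0)) (T.h (T.h (M (nat_lit 96432428552945085186047)) (T.h (P (nat_lit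 0)) (T.h (P (nat_lit 11867314922343890944)) (T.h (P (nat_lit 0)) (P (nat_lit 31941939063544)))))) (T.h (P (nat_lit 0)) (T.h (T.h (P (nat_lit 11420674673478729728)) (T.h (P (nat_lit 0)) (P (nat_lit 41506757289896)))) (T.h (P (nat_lit 0)) (M (nat_lit 4202247363807))))))) (T.h (T.h (T.h (P (nat_lit 0)) (T.h (M (nat_lit 8702805273159426637823)) (T.h (P (nat_lit 0)) (P (nat_lit 24712650814357504))))) (T.h (P (nat_lit 0)) (T.h (T.h (P (nat_lit 0)) (M (nat_lit 16434744863326207))) (P (nat_lit 0))))) (T.h (T.h (P (nat_lit 0)) (T.h (T.h (M (nat_lit 88373213733551341567)) (T.h (P (nat_lit 0)) (M (nat_lit 43141223945559)))) (T.h (P (nat_lit 0)) (M (nat_lit 18135366468679))))) (T.h (T.h (T.h (P (nat_lit 0)) (M (nat_lit 29197831500988415))) (P (nat_lit 0))) (T.h (T.h (P (nat_lit 0)) (P (nat_lit 234639226797744))) (P (nat_lit 0))))))))]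
def lP22_35 : List (T ℤ) := [(T.h (T.h (T.h (P (nat_lit 17186048480389962970581123989504)) (T.h (P (nat_lit 0)) (T.h (M (nat_lit 5767479176908533173059583)) (T.h (P (nat_lit 0)) (T.h (P (nat_lit 24275567268432183296)) (T.h (P (nat_lit 0)) (P (nat_lit 4712665378400)))))))) (T.h (P (nat_lit 0)) (T.h (T.h (P (nat_lit 1030524174758747456929792)) (T.h (P (nat_lit 0)) (T.h (P (nat_lit 9059062354263670784)) (T.h (P (nat_lit 0)) (M (nat_lit 4261203039183)))))) (T.h (P (nat_lit 0)) (T.h (T.h (M (nat_lit 791340047772155903)) (T.h (P (nat_lit 0)) (P (nat_lit 1952428219088)))) (T.h (P (nat_lit 0)) (M (nat_lit 1620225025199)))))))) (T.h (T.h (P (nat_lit 0)) (T.h (T.h (P (nat_lit 0)) (T.h (P (nat_lit 31707492845516186714112)) (T.h (P (nat_lit 0)) (P (nat_lit 84250871117971456))))) (T.h (P (nat_lit 0)) (T.h (T.h (P (nat_lit 0)) (M (nat_lit 17942345083060223))) (P (nat_lit 0)))))) (T.h (T.h (T.h (P (nat_lit 5165854903960748718817280)) (T.h (P (nat_lit 0)) (T.h (P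 (nat_lit 93173685853035167744)) (T.h (P (nat_lit 0)) (M (nat_lit 47859465315983)))))) (T.h (P (nat_lit 0)) (T.h (T.h (M (nat_lit 23045151358256676863)) (T.h (P (nat_lit 0)) (M (nat_lit 69877698233887)))) (T.h (P (nat_lit 0)) (M (nat_lit 16161360894767)))))) (T.h (T.h (P (nat_lit 0)) (T.h (T.h (P (nat_lit 0)) (P (nat_lit 105860431028912128))) (P (nat_lit 0)))) (T.h (T.h (T.h (M (nat_lit 14579139269005148159)) (T.h (P (nat_lit 0)) (M (nat_lit 25655274239343)))) (T.h (P (nat_lit 0)) (P (nat_lit 45520902769520)))) (T.h (P (nat_lit 0)) (P (nat_lit 43834524249552)))))))), (T.h (T.h (T.h (P (nat_lit 0)) (T.h (P (nat_lit 32820189050558047296543522816)) (T.h (P (nat_lit 0)) (T.h (M (nat_lit 70924678006650984988671)) (T.h (P (nat_lit 0)) (M (nat_lit 21390266879737855))))))) (T.h (P (nat_lit 0)) (T.h (T.h (P (nat_lit 0)) (T.h (P (nat_lit 29953871756365303644160)) (T.h (P (nat_lit 0)) (P (nat_lit 19997091208003584))))) (T.h (P (nat_lit 0)) (T.h (T.h (P (nat_lit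 0)) (M (nat_lit 60169700583014399))) (P (nat_lit 0))))))) (T.h (T.h (P (nat_lit 0)) (T.h (T.h (M (nat_lit 17906246140690551118233599)) (T.h (P (nat_lit 0)) (T.h (P (nat_lit 31554473888527155200)) (T.h (P (nat_lit 0)) (P (nat_lit 31771604010672)))))) (T.h (P (nat_lit 0)) (T.h (T.h (P (nat_lit 14491939499531042816)) (T.h (P (nat_lit 0)) (M (nat_lit 48576800164079)))) (T.h (P (nat_lit 0)) (P (nat_lit 2541833823312))))))) (T.h (T.h (T.h (P (nat_lit 0)) (T.h (P (nat_lit 655956070507653271388160)) (T.h (P (nat_lit 0)) (M (nat_lit 297089124101226495))))) (T.h (P (nat_lit 0)) (T.h (T.h (P (nat_lit 0)) (M (nat_lit 237070253261619199))) (P (nat_lit 0))))) (T.h (T.h (P (nat_lit 0)) (T.h (T.h (P (nat_lit 462682744916455456768)) (T.h (P (nat_lit 0)) (M (nat_lit 117194776813199)))) (T.h (P (nat_lit 0)) (M (nat_lit 81686441951))))) (T.h (T.h (T.h (P (nat_lit 0)) (P (nat_lit 601828279577083904))) (P (nat_lit 0))) (T.h (T.h (P (nat_lit 0)) (M (nat_lit 75593636964767)))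 (P (nat_lit 0)))))))), (T.h (T.h (T.h (M (nat_lit 4644630342600910574768432873471)) (T.h (P (nat_lit 0)) (T.h (P (nat_lit 59150538576176793411125248)) (T.h (P (nat_lit 0)) (T.h (M (nat_lit 250057911985237917695)) (T.h (P (nat_lit 0)) (M (nat_lit 136184537313935)))))))) (T.h (P (nat_lit 0)) (T.h (T.h (P (nat_lit 993919321185546621943808)) (T.h (P (nat_lit 0)) (T.h (M (nat_lit 40153073323845091327)) (T.h (P (nat_lit 0)) (P (nat_lit 45469744224480)))))) (T.h (P (nat_lit 0)) (T.h (T.h (M (nat_lit 4522085549804093439)) (T.h (P (nat_lit 0)) (P (nat_lit 11004683413968)))) (T.h (P (nat_lit 0)) (M (nat_lit 117640833263)))))))) (T.h (T.h (P (nat_lit 0)) (T.h (T.h (P (nat_lit 0)) (T.h (M (nat_lit 93087889871663739699199)) (T.h (P (nat_lit 0)) (M (nat_lit 207546634923933695))))) (T.h (P (nat_lit 0)) (T.h (T.h (P (nat_lit 0)) (P (nat_lit 193311368109424640))) (P (nat_lit 0)))))) (T.h (T.h (T.h (M (nat_lit 23759147091329655041425407)) (T.h (P (nat_lit 0)) (T.h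 (M (nat_lit 99556130591990611967)) (T.h (P (nat_lit 0)) (M (nat_lit 20843964717551)))))) (T.h (P (nat_lit 0)) (T.h (T.h (P (nat_lit 74377365627223408640)) (T.h (P (nat_lit 0)) (P (nat_lit 176154058255824)))) (T.h (P (nat_lit 0)) (P (nat_lit 11128868104608)))))) (T.h (T.h (P (nat_lit 0)) (T.h (T.h (P (nat_lit 0)) (P (nat_lit 7881472545095680))) (P (nat_lit 0)))) (T.h (T.h (T.h (M (nat_lit 205175738630108348415)) (T.h (P (nat_lit 0)) (P (nat_lit 144096697935936)))) (T.h (P (nat_lit 0)) (M (nat_lit 112332596630399)))) (T.h (P (nat_lit 0)) (M (nat_lit 125702438127695)))))))), (T.h (T.h (T.h (P (nat_lit 0)) (T.h (M (nat_lit 14388029443105144331644698623)) (T.h (P (nat_lit 0)) (T.h (P (nat_lit 84493875935943795408896)) (T.h (P (nat_lit 0)) (P (nat_lit 125722530491695104))))))) (T.h (P (nat_lit 0)) (T.h (T.h (P (nat_lit 0)) (T.h (P (nat_lit 503354875083480891392)) (T.h (P (nat_lit 0)) (M (nat_lit 51807543743152127))))) (T.h (P (nat_lit 0)) (T.h (T.h (P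 (nat_lit 0)) (P (nat_lit 102178320589455360))) (P (nat_lit 0))))))) (T.h (T.h (P (nat_lit 0)) (T.h (T.h (P (nat_lit 20571785943829798893649920)) (T.h (P (nat_lit 0)) (P (nat_lit 238444881954769731584)))) (T.h (P (nat_lit 0)) (M (nat_lit 18974281611874402303))))) (T.h (T.h (T.h (P (nat_lit 0)) (T.h (M (nat_lit 126623895286585969606655)) (T.h (P (nat_lit 0)) (M (nat_lit 468341570348711935))))) (T.h (P (nat_lit 0)) (T.h (T.h (P (nat_lit 0)) (M (nat_lit 111429585513349119))) (P (nat_lit 0))))) (T.h (T.h (P (nat_lit 0)) (M (nat_lit 131035449567928647679))) (T.h (T.h (T.h (P (nat_lit 0)) (M (nat_lit 366653797243060223))) (P (nat_lit 0))) (P (nat_lit 0))))))), (T.h (T.h (P (nat_lit 0)) (T.h (T.h (P (nat_lit 2249173928889727482182238208)) (T.h (P (nat_lit 0)) (T.h (M (nat_lit 4991051602226185240575)) (T.h (P (nat_lit 0)) (P (nat_lit 2120504879120384)))))) (T.h (P (nat_lit 0)) (T.h (T.h (P (nat_lit 8955629997758437392384)) (T.h (P (nat_lit 0)) (P (nat_lit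 2757992272723968)))) (T.h (P (nat_lit 0)) (M (nat_lit 12698370511568895))))))) (T.h (T.h (T.h (P (nat_lit 0)) (T.h (M (nat_lit 7185236083707900717957119)) (T.h (P (nat_lit 0)) (T.h (P (nat_lit 3354224471622811648)) (T.h (P (nat_lit 0)) (P (nat_lit 26085537184))))))) (T.h (P (nat_lit 0)) (T.h (T.h (P (nat_lit 0)) (T.h (P (nat_lit 2037456595029327872)) (T.h (P (nat_lit 0)) (M (nat_lit 4652274396391))))) (T.h (P (nat_lit 0)) (T.h (T.h (P (nat_lit 0)) (M (nat_lit 20349208859607))) (P (nat_lit 0))))))) (T.h (T.h (P (nat_lit 0)) (T.h (T.h (P (nat_lit 23895936941836185108480)) (T.h (P (nat_lit 0)) (P (nat_lit 12565639803011072)))) (T.h (P (nat_lit 0)) (M (nat_lit 30764528360194047))))) (T.h (T.h (T.h (P (nat_lit 0)) (T.h (P (nat_lit 12105574288833118208)) (T.h (P (nat_lit 0)) (M (nat_lit 8558637664695))))) (T.h (P (nat_lit 0)) (T.h (T.h (P (nat_lit 0)) (P (nat_lit 106076979911416))) (P (nat_lit 0))))) (T.h (T.h (P (nat_lit 0)) (M (nat_lit 69107667941326847)))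 (T.h (T.h (T.h (P (nat_lit 0)) (M (nat_lit 37010954213999))) (P (nat_lit 0))) (P (nat_lit 0)))))))), (T.h (T.h (P (nat_lit 0)) (T.h (T.h (P (nat_lit 0)) (T.h (M (nat_lit 812139356238288361881599)) (T.h (P (nat_lit 0)) (T.h (P (nat_lit 14353739500201443328)) (T.h (P (nat_lit 0)) (M (nat_lit 12009131250063))))))) (T.h (P (nat_lit 0)) (T.h (T.h (P (nat_lit 0)) (T.h (P (nat_lit 14353739500201443328)) (T.h (P (nat_lit 0)) (P (nat_lit 15419168176256))))) (T.h (P (nat_lit 0)) (T.h (T.h (P (nat_lit 0)) (M (nat_lit 12009131250063))) (P (nat_lit 0)))))))) (T.h (T.h (T.h (M (nat_lit 13210451688327983842182823935)) (T.h (P (nat_lit 0)) (T.h (P (nat_lit 71268525060009716875264)) (T.h (P (nat_lit 0)) (M (nat_lit 77890511696707583)))))) (T.h (P (nat_lit 0)) (T.h (T.h (P (nat_lit 71268525060009716875264)) (T.h (P (nat_lit 0)) (M (nat_lit 82599042909241343)))) (T.h (P (nat_lit 0)) (M (nat_lit 77890511696707583)))))) (T.h (T.h (P (nat_lit 0)) (T.h (T.h (P (nat_lit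 0)) (T.h (P (nat_lit 686793345222343393280)) (T.h (P (nat_lit 0)) (M (nat_lit 5250374281359))))) (T.h (P (nat_lit 0)) (T.h (T.h (P (nat_lit 0)) (M (nat_lit 5250374281359))) (P (nat_lit 0)))))) (T.h (T.h (T.h (P (nat_lit 53049158737755864301568)) (T.h (P (nat_lit 0)) (P (nat_lit 142194421957574656)))) (T.h (P (nat_lit 0)) (P (nat_lit 142194421957574656)))) (T.h (T.h (P (nat_lit 0)) (T.h (T.h (P (nat_lit 0)) (M (nat_lit 33739957894015))) (P (nat_lit 0)))) (M (nat_lit 33213642493526015))))))), (T.h (T.h (P (nat_lit 0)) (T.h (T.h (M (nat_lit 38324952001104334506296344575)) (T.h (P (nat_lit 0)) (T.h (M (nat_lit 7977776092984352178175)) (T.h (P (nat_lit 0)) (M (nat_lit 59482841730482175)))))) (T.h (P (nat_lit 0)) (T.h (T.h (M (nat_lit 19990819821223489306623)) (T.h (P (nat_lit 0)) (M (nat_lit 44226226114723839)))) (T.h (P (nat_lit 0)) (P (nat_lit 22824189637558272))))))) (T.h (T.h (T.h (P (nat_lit 0)) (T.h (M (nat_lit 111323794409892549499027455)) (T.h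 (P (nat_lit 0)) (T.h (M (nat_lit 389624206748337307647)) (T.h (P (nat_lit 0)) (P (nat_lit 33551059161936))))))) (T.h (P (nat_lit 0)) (T.h (T.h (P (nat_lit 0)) (T.h (P (nat_lit 191803984242922225664)) (T.h (P (nat_lit 0)) (P (nat_lit 132767430772272))))) (T.h (P (nat_lit 0)) (T.h (T.h (P (nat_lit 0)) (M (nat_lit 173879231278847))) (P (nat_lit 0))))))) (T.h (T.h (P (nat_lit 0)) (T.h (T.h (M (nat_lit 225716239866841779929087)) (T.h (P (nat_lit 0)) (P (nat_lit 70945528688017408)))) (T.h (P (nat_lit 0)) (M (nat_lit 501720206482604031))))) (T.h (T.h (T.h (P (nat_lit 0)) (T.h (M (nat_lit 933049847679014666239)) (T.h (P (nat_lit 0)) (P (nat_lit 236215764371712))))) (T.h (P (nat_lit 0)) (T.h (T.h (P (nat_lit 0)) (M (nat_lit 358160341235375))) (P (nat_lit 0))))) (T.h (T.h (P (nat_lit 0)) (M (nat_lit 984145050285670399))) (T.h (T.h (T.h (P (nat_lit 0)) (M (nat_lit 187828558549151))) (P (nat_lit 0))) (P (nat_lit 0)))))))), (T.h (T.h (P (nat_lit 0)) (T.h (T.h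 (P (nat_lit 0)) (T.h (P (nat_lit 47134690066140657000382464)) (T.h (P (nat_lit 0)) (T.h (P (nat_lit 130925609653259730944)) (T.h (P (nat_lit 0)) (P (nat_lit 34165844712000))))))) (T.h (P (nat_lit 0)) (T.h (T.h (P (nat_lit 0)) (T.h (M (nat_lit 146591178902344826879)) (T.h (P (nat_lit 0)) (M (nat_lit 5821078652063))))) (T.h (P (nat_lit 0)) (T.h (T.h (P (nat_lit 0)) (M (nat_lit 34225337244095))) (P (nat_lit 0)))))))) (T.h (T.h (T.h (P (nat_lit 57334956632206068234512760832)) (T.h (P (nat_lit 0)) (T.h (M (nat_lit 23678009988151209099263)) (T.h (P (nat_lit 0)) (M (nat_lit 56164819401932799)))))) (T.h (P (nat_lit 0)) (T.h (T.h (M (nat_lit 126264821811926481764351)) (T.h (P (nat_lit 0)) (M (nat_lit 172926202385072127)))) (T.h (P (nat_lit 0)) (P (nat_lit 43498547229081600)))))) (T.h (T.h (P (nat_lit 0)) (T.h (T.h (P (nat_lit 0)) (T.h (M (nat_lit 118390842734751514623)) (T.h (P (nat_lit 0)) (M (nat_lit 115352653444271))))) (T.h (P (nat_lit 0)) (T.h (T.h (P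 (nat_lit 0)) (M (nat_lit 33891551588303))) (P (nat_lit 0)))))) (T.h (T.h (T.h (M (nat_lit 22946034514349921402879)) (T.h (P (nat_lit 0)) (M (nat_lit 147403615803752447)))) (T.h (P (nat_lit 0)) (P (nat_lit 76914468636770304)))) (T.h (T.h (P (nat_lit 0)) (T.h (T.h (P (nat_lit 0)) (M (nat_lit 138476424798719))) (P (nat_lit 0)))) (M (nat_lit 6174633086484479)))))))]
def lP22_36 : List (T ℤ) := [(T.h (T.h (P (nat_lit 0)) (T.h (T.h (M (nat_lit 26785345378366938055148830719)) (T.h (P (nat_lit 0)) (T.h (M (nat_lit 114792331594105423396863)) (T.h (P (nat_lit 0)) (P (nat_lit 101156712228749312)))))) (T.h (P (nat_lit 0)) (T.h (T.h (M (nat_lit 28930716648165091573759)) (T.h (P (nat_lit 0)) (M (nat_lit 12766599193329663)))) (T.h (P (nat_lit 0)) (P (nat_lit 20177221009768448))))))) (T.h (T.h (T.h (P (nat_lit 0)) (T.h (P (nat_lit 97555253692444316576776192)) (T.h (P (nat_lit 0)) (P (nat_lit 657029272659789086720))))) (T.h (P (nat_lit 0)) (T.h (T.h (P (nat_lit 0))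 (P (nat_lit 12794938319486058496))) (P (nat_lit 0))))) (T.h (T.h (P (nat_lit 0)) (T.h (T.h (P (nat_lit 115769289232525882818560)) (T.h (P (nat_lit 0)) (M (nat_lit 201704419141353471)))) (T.h (P (nat_lit 0)) (M (nat_lit 29508680255176703))))) (T.h (T.h (T.h (P (nat_lit 0)) (M (nat_lit 7459515171333996543))) (P (nat_lit 0))) (T.h (T.h (P (nat_lit 0)) (M (nat_lit 27651373502136319))) (P (nat_lit 0))))))), (T.h (T.h (T.h (P (nat_lit 10240767002178687954892823199744)) (T.h (P (nat_lit 0)) (T.h (P (nat_lit 1874529792743809499529216)) (T.h (P (nat_lit 0)) (T.h (M (nat_lit 541262488075763711)) (T.h (P (nat_lit 0)) (M (nat_lit 1226078413135)))))))) (T.h (P (nat_lit 0)) (T.h (T.h (M (nat_lit 4923473558923471130460159)) (T.h (P (nat_lit 0)) (T.h (P (nat_lit 7358800448335118336)) (T.h (P (nat_lit 0)) (P (nat_lit 3880953721632)))))) (T.h (P (nat_lit 0)) (T.h (T.h (P (nat_lit 24525644828128575488)) (T.h (P (nat_lit 0)) (M (nat_lit 2332677536639)))) (T.h (P (nat_lit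 0)) (P (nat_lit 5106811990464)))))))) (T.h (T.h (P (nat_lit 0)) (T.h (T.h (P (nat_lit 0)) (T.h (P (nat_lit 9916637199665389895680)) (T.h (P (nat_lit 0)) (M (nat_lit 9230042037944319))))) (T.h (P (nat_lit 0)) (T.h (T.h (P (nat_lit 0)) (P (nat_lit 92963174163087360))) (P (nat_lit 0)))))) (T.h (T.h (T.h (P (nat_lit 12058186289434892836012032)) (T.h (P (nat_lit 0)) (T.h (M (nat_lit 51208003868654829567)) (T.h (P (nat_lit 0)) (M (nat_lit 4136082018047)))))) (T.h (P (nat_lit 0)) (T.h (T.h (P (nat_lit 65010833342637015040)) (T.h (P (nat_lit 0)) (M (nat_lit 23507951099487)))) (T.h (P (nat_lit 0)) (M (nat_lit 35834186439263)))))) (T.h (T.h (P (nat_lit 0)) (T.h (T.h (P (nat_lit 0)) (M (nat_lit 8549900743704575))) (P (nat_lit 0)))) (T.h (T.h (T.h (M (nat_lit 2233296166391382015)) (T.h (P (nat_lit 0)) (P (nat_lit 52052519111328)))) (T.h (P (nat_lit 0)) (M (nat_lit 19123657897535)))) (T.h (P (nat_lit 0)) (P (nat_lit 33595231580112)))))))), (T.h (T.h (T.h (P (nat_lit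 0)) (T.h (M (nat_lit 5650060058408433800143962111)) (T.h (P (nat_lit 0)) (T.h (P (nat_lit 4735867718199618306048)) (T.h (P (nat_lit 0)) (M (nat_lit 28820754797953023))))))) (T.h (P (nat_lit 0)) (T.h (T.h (P (nat_lit 0)) (T.h (P (nat_lit 47839518422904462114816)) (T.h (P (nat_lit 0)) (M (nat_lit 58709267346751487))))) (T.h (P (nat_lit 0)) (T.h (T.h (P (nat_lit 0)) (P (nat_lit 169044708653203456))) (P (nat_lit 0))))))) (T.h (T.h (P (nat_lit 0)) (T.h (T.h (M (nat_lit 8036348300840160110575615)) (T.h (P (nat_lit 0)) (T.h (P (nat_lit 72208137597776560128)) (T.h (P (nat_lit 0)) (M (nat_lit 168082866176879)))))) (T.h (P (nat_lit 0)) (T.h (T.h (M (nat_lit 241182344953884311551)) (T.h (P (nat_lit 0)) (P (nat_lit 151194672219024)))) (T.h (P (nat_lit 0)) (P (nat_lit 31462978248624))))))) (T.h (T.h (T.h (P (nat_lit 0)) (T.h (M (nat_lit 5989468968187611578367)) (T.h (P (nat_lit 0)) (M (nat_lit 351021351897399295))))) (T.h (P (nat_lit 0)) (T.h (T.h (P (nat_lit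 0)) (P (nat_lit 1081420783830597632))) (P (nat_lit 0))))) (T.h (T.h (P (nat_lit 0)) (T.h (T.h (P (nat_lit 1404933726449294114816)) (T.h (P (nat_lit 0)) (M (nat_lit 326692463252447)))) (T.h (P (nat_lit 0)) (P (nat_lit 222868762305024))))) (T.h (T.h (T.h (P (nat_lit 0)) (P (nat_lit 230956717399277568))) (P (nat_lit 0))) (T.h (T.h (P (nat_lit 0)) (M (nat_lit 89014422257279))) (P (nat_lit 0)))))))), (T.h (T.h (T.h (P (nat_lit 19347335837551506643391457787904)) (T.h (P (nat_lit 0)) (T.h (M (nat_lit 23436767894032029428219903)) (T.h (P (nat_lit 0)) (T.h (P (nat_lit 30799172801478524928)) (T.h (P (nat_lit 0)) (P (nat_lit 46524404131488)))))))) (T.h (P (nat_lit 0)) (T.h (T.h (P (nat_lit 38697378061273282518188032)) (T.h (P (nat_lit 0)) (T.h (P (nat_lit 452359433986062155776)) (T.h (P (nat_lit 0)) (P (nat_lit 43236941052528)))))) (T.h (P (nat_lit 0)) (T.h (T.h (M (nat_lit 635823466020339711)) (T.h (P (nat_lit 0)) (P (nat_lit 87742494175680)))) (T.h (P (nat_lit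 0)) (P (nat_lit 31878738175680)))))))) (T.h (T.h (P (nat_lit 0)) (T.h (T.h (P (nat_lit 0)) (T.h (M (nat_lit 648060356319322690289663)) (T.h (P (nat_lit 0)) (P (nat_lit 481985264541106176))))) (T.h (P (nat_lit 0)) (T.h (T.h (P (nat_lit 0)) (P (nat_lit 516668073069379584))) (P (nat_lit 0)))))) (T.h (T.h (T.h (M (nat_lit 159468951994826349111934975)) (T.h (P (nat_lit 0)) (T.h (M (nat_lit 177658050073373704191)) (T.h (P (nat_lit 0)) (P (nat_lit 7528680834336)))))) (T.h (P (nat_lit 0)) (T.h (T.h (M (nat_lit 112659060996140171263)) (T.h (P (nat_lit 0)) (M (nat_lit 14269426041743)))) (T.h (P (nat_lit 0)) (P (nat_lit 18915543430272)))))) (T.h (T.h (P (nat_lit 0)) (T.h (T.h (P (nat_lit 0)) (P (nat_lit 103613129585426432))) (P (nat_lit 0)))) (T.h (T.h (T.h (P (nat_lit 464165310918098419712)) (T.h (P (nat_lit 0)) (M (nat_lit 294091399587023)))) (T.h (P (nat_lit 0)) (M (nat_lit 4342901915231)))) (T.h (P (nat_lit 0)) (P (nat_lit 333169098285744)))))))), (T.h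 (T.h (T.h (P (nat_lit 0)) (T.h (P (nat_lit 5875853749117232861644062720)) (T.h (P (nat_lit 0)) (T.h (P (nat_lit 86100508455794164891648)) (T.h (P (nat_lit 0)) (M (nat_lit 149520828772483071))))))) (T.h (P (nat_lit 0)) (T.h (T.h (P (nat_lit 0)) (T.h (M (nat_lit 352533966064873799417855)) (T.h (P (nat_lit 0)) (P (nat_lit 127452087531929600))))) (T.h (P (nat_lit 0)) (T.h (T.h (P (nat_lit 0)) (P (nat_lit 147436560602660864))) (P (nat_lit 0))))))) (T.h (T.h (P (nat_lit 0)) (T.h (T.h (M (nat_lit 80646483748371014887669759)) (T.h (P (nat_lit 0)) (M (nat_lit 186387387886570831871)))) (T.h (P (nat_lit 0)) (P (nat_lit 154905204815516663808))))) (T.h (T.h (T.h (P (nat_lit 0)) (T.h (P (nat_lit 597819730065066370793472)) (T.h (P (nat_lit 0)) (P (nat_lit 114884661064007680))))) (T.h (P (nat_lit 0)) (T.h (T.h (P (nat_lit 0)) (P (nat_lit 282409478345752576))) (P (nat_lit 0))))) (T.h (T.h (P (nat_lit 0)) (M (nat_lit 285708444077886799871))) (T.h (T.h (T.h (P (nat_lit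 0)) (M (nat_lit 319383543968333823))) (P (nat_lit 0))) (P (nat_lit 0))))))), (T.h (T.h (P (nat_lit 0)) (T.h (T.h (P (nat_lit 4368116058228354375101710336)) (T.h (P (nat_lit 0)) (T.h (M (nat_lit 28928474127679788941311)) (T.h (P (nat_lit 0)) (M (nat_lit 59547746259075071)))))) (T.h (P (nat_lit 0)) (T.h (T.h (M (nat_lit 7380388423830398304255)) (T.h (P (nat_lit 0)) (P (nat_lit 147458440066596864)))) (T.h (P (nat_lit 0)) (P (nat_lit 5045585517576192))))))) (T.h (T.h (T.h (P (nat_lit 0)) (T.h (P (nat_lit 43822609512558630782631936)) (T.h (P (nat_lit 0)) (T.h (M (nat_lit 25450150049553055743)) (T.h (P (nat_lit 0)) (P (nat_lit 453752910000))))))) (T.h (P (nat_lit 0)) (T.h (T.h (P (nat_lit 0)) (T.h (M (nat_lit 38265554109261152255)) (T.h (P (nat_lit 0)) (M (nat_lit 30149558717327))))) (T.h (P (nat_lit 0)) (T.h (T.h (P (nat_lit 0)) (P (nat_lit 37567969112640))) (P (nat_lit 0))))))) (T.h (T.h (P (nat_lit 0)) (T.h (T.h (M (nat_lit 1446955682022832472063))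 (T.h (P (nat_lit 0)) (P (nat_lit 66634387635765248)))) (T.h (P (nat_lit 0)) (P (nat_lit 634665869733625856))))) (T.h (T.h (T.h (P (nat_lit 0)) (T.h (M (nat_lit 178327785982151098367)) (T.h (P (nat_lit 0)) (M (nat_lit 13428688508639))))) (T.h (P (nat_lit 0)) (T.h (T.h (P (nat_lit 0)) (M (nat_lit 85726898830271))) (P (nat_lit 0))))) (T.h (T.h (P (nat_lit 0)) (P (nat_lit 21747700251721728))) (T.h (T.h (T.h (P (nat_lit 0)) (P (nat_lit 23220499327104))) (P (nat_lit 0))) (P (nat_lit 0)))))))), (T.h (T.h (P (nat_lit 0)) (T.h (T.h (P (nat_lit 0)) (T.h (P (nat_lit 100406850484060940098600960)) (T.h (P (nat_lit 0)) (T.h (M (nat_lit 128456059387660730367)) (T.h (P (nat_lit 0)) (M (nat_lit 59828803719263))))))) (T.h (P (nat_lit 0)) (T.h (T.h (P (nat_lit 0)) (T.h (P (nat_lit 149060729167943827456)) (T.h (P (nat_lit 0)) (P (nat_lit 79993172440224))))) (T.h (P (nat_lit 0)) (T.h (T.h (P (nat_lit 0)) (P (nat_lit 8562378236832))) (P (nat_lit 0)))))))) (T.h (T.h (T.h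 (P (nat_lit 20336825086277710617774129152)) (T.h (P (nat_lit 0)) (T.h (M (nat_lit 35675785022990670888959)) (T.h (P (nat_lit 0)) (M (nat_lit 36241238331195391)))))) (T.h (P (nat_lit 0)) (T.h (T.h (P (nat_lit 66911026800784601776128)) (T.h (P (nat_lit 0)) (M (nat_lit 373595198247862271)))) (T.h (P (nat_lit 0)) (M (nat_lit 135904604962209791)))))) (T.h (T.h (P (nat_lit 0)) (T.h (T.h (P (nat_lit 0)) (T.h (P (nat_lit 932873236081316724736)) (T.h (P (nat_lit 0)) (M (nat_lit 105852932695583))))) (T.h (P (nat_lit 0)) (T.h (T.h (P (nat_lit 0)) (M (nat_lit 187314034551551))) (P (nat_lit 0)))))) (T.h (T.h (T.h (M (nat_lit 19845638658273772044287)) (T.h (P (nat_lit 0)) (P (nat_lit 61532118309339136)))) (T.h (P (nat_lit 0)) (M (nat_lit 162785966131183615)))) (T.h (T.h (P (nat_lit 0)) (T.h (T.h (P (nat_lit 0)) (M (nat_lit 493402670761247))) (P (nat_lit 0)))) (M (nat_lit 172462478615511039))))))), (T.h (T.h (P (nat_lit 0)) (T.h (T.h (M (nat_lit 10332317721075008077777862655))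 (T.h (P (nat_lit 0)) (T.h (M (nat_lit 345733927545194663641087)) (T.h (P (nat_lit 0)) (P (nat_lit 201968806608044032)))))) (T.h (P (nat_lit 0)) (T.h (T.h (P (nat_lit 91561267103775804358656)) (T.h (P (nat_lit 0)) (P (nat_lit 23341083355873280)))) (T.h (P (nat_lit 0)) (M (nat_lit 87386252056297471))))))) (T.h (T.h (T.h (P (nat_lit 0)) (T.h (M (nat_lit 107976093531274162189893631)) (T.h (P (nat_lit 0)) (M (nat_lit 205673814371149545471))))) (T.h (P (nat_lit 0)) (T.h (T.h (P (nat_lit 0)) (M (nat_lit 25873580517549408255))) (P (nat_lit 0))))) (T.h (T.h (P (nat_lit 0)) (T.h (T.h (P (nat_lit 41336827440789672951808)) (T.h (P (nat_lit 0)) (P (nat_lit 735919516248211456)))) (T.h (P (nat_lit 0)) (M (nat_lit 150279331710074879))))) (T.h (T.h (T.h (P (nat_lit 0)) (M (nat_lit 195095051702701654015))) (P (nat_lit 0))) (T.h (T.h (P (nat_lit 0)) (M (nat_lit 745646519678468095))) (P (nat_lit 0)))))))]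
def lP22_37 : List (T ℤ) := [(T.h (T.h (T.h (P (nat_lit 2702654388380850163848774156288)) (T.h (P (nat_lit 0)) (T.h (P (nat_lit 5204542924563187540951040)) (T.h (P (nat_lit 0)) (T.h (M (nat_lit 5967627830152921087)) (T.h (P (nat_lit 0)) (M (nat_lit 2380305145823)))))))) (T.h (P (nat_lit 0)) (T.h (T.h (P (nat_lit 1227016224249122383724544)) (T.h (P (nat_lit 0)) (T.h (M (nat_lit 37801069697948450815)) (T.h (P (nat_lit 0)) (P (nat_lit 51762713890032)))))) (T.h (P (nat_lit 0)) (T.h (T.h (M (nat_lit 220068457998087880703)) (T.h (P (nat_lit 0)) (P (nat_lit 41722221577392)))) (T.h (P (nat_lit 0)) (M (nat_lit 123801535670687)))))))) (T.h (T.h (P (nat_lit 0)) (T.h (T.h (P (nat_lit 0)) (T.h (M (nat_lit 163346086602152943288319)) (T.h (P (nat_lit 0)) (P (nat_lit 180425386868539392))))) (T.h (P (nat_lit 0)) (T.h (T.h (P (nat_lit 0)) (M (nat_lit 255115424693092351))) (P (nat_lit 0)))))) (T.h (T.h (T.h (P (nat_lit 1227016224249122383724544)) (T.h (P (nat_lit 0))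 (T.h (M (nat_lit 37801069697948450815)) (T.h (P (nat_lit 0)) (P (nat_lit 51762713890032)))))) (T.h (P (nat_lit 0)) (T.h (T.h (M (nat_lit 276733554994396004351)) (T.h (P (nat_lit 0)) (P (nat_lit 330438239353728)))) (T.h (P (nat_lit 0)) (P (nat_lit 8403018471936)))))) (T.h (T.h (P (nat_lit 0)) (T.h (T.h (P (nat_lit 0)) (M (nat_lit 255115424693092351))) (P (nat_lit 0)))) (T.h (T.h (T.h (M (nat_lit 220068457998087880703)) (T.h (P (nat_lit 0)) (P (nat_lit 41722221577392)))) (T.h (P (nat_lit 0)) (P (nat_lit 8403018471936)))) (T.h (P (nat_lit 0)) (M (nat_lit 123801535670687)))))))), (T.h (T.h (T.h (P (nat_lit 0)) (T.h (M (nat_lit 23982801289164216537089835007)) (T.h (P (nat_lit 0)) (T.h (M (nat_lit 40637152726621985177599)) (T.h (P (nat_lit 0)) (P (nat_lit 30478663296221184))))))) (T.h (P (nat_lit 0)) (T.h (T.h (P (nat_lit 0)) (T.h (M (nat_lit 103457444550888944304127)) (T.h (P (nat_lit 0)) (M (nat_lit 77636821944369151))))) (T.h (P (nat_lit 0)) (T.h (T.h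 (P (nat_lit 0)) (P (nat_lit 83546188554764288))) (P (nat_lit 0))))))) (T.h (T.h (P (nat_lit 0)) (T.h (T.h (P (nat_lit 82022475448791551103205376)) (T.h (P (nat_lit 0)) (P (nat_lit 145578080354680438784)))) (T.h (P (nat_lit 0)) (P (nat_lit 285002259208458993664))))) (T.h (T.h (T.h (P (nat_lit 0)) (T.h (M (nat_lit 103457444550888944304127)) (T.h (P (nat_lit 0)) (M (nat_lit 77636821944369151))))) (T.h (P (nat_lit 0)) (T.h (T.h (P (nat_lit 0)) (P (nat_lit 105359980908511232))) (P (nat_lit 0))))) (T.h (T.h (P (nat_lit 0)) (P (nat_lit 285002259208458993664))) (T.h (T.h (T.h (P (nat_lit 0)) (P (nat_lit 83546188554764288))) (P (nat_lit 0))) (P (nat_lit 0))))))), (T.h (T.h (P (nat_lit 0)) (T.h (T.h (P (nat_lit 4622686116289818125836222464)) (T.h (P (nat_lit 0)) (T.h (P (nat_lit 5038203398620824207360)) (T.h (P (nat_lit 0)) (P (nat_lit 30035550910087168)))))) (T.h (P (nat_lit 0)) (T.h (T.h (P (nat_lit 67326681209505262338048)) (T.h (P (nat_lit 0)) (M (nat_lit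 12566762318135295)))) (T.h (P (nat_lit 0)) (P (nat_lit 73889396061962240))))))) (T.h (T.h (T.h (P (nat_lit 0)) (T.h (P (nat_lit 32368617483080180722302976)) (T.h (P (nat_lit 0)) (M (nat_lit 30422275876538286079))))) (T.h (P (nat_lit 0)) (T.h (T.h (P (nat_lit 0)) (P (nat_lit 210714216620942688256))) (P (nat_lit 0))))) (T.h (T.h (P (nat_lit 0)) (T.h (T.h (P (nat_lit 210632273554275901112320)) (T.h (P (nat_lit 0)) (M (nat_lit 257875223365943295)))) (T.h (P (nat_lit 0)) (M (nat_lit 251305719263821823))))) (T.h (T.h (T.h (P (nat_lit 0)) (P (nat_lit 70812932436679196672))) (P (nat_lit 0))) (T.h (T.h (P (nat_lit 0)) (P (nat_lit 170806740523974656))) (P (nat_lit 0))))))), (T.h (T.h (P (nat_lit 0)) (T.h (T.h (P (nat_lit 0)) (T.h (P (nat_lit 4204261618133833938370560)) (T.h (P (nat_lit 0)) (T.h (M (nat_lit 279505857551532031)) (T.h (P (nat_lit 0)) (P (nat_lit 251898760536))))))) (T.h (P (nat_lit 0)) (T.h (T.h (P (nat_lit 0)) (T.h (P (nat_lit 1436442446299922432))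 (T.h (P (nat_lit 0)) (P (nat_lit 72660681504))))) (T.h (P (nat_lit 0)) (T.h (T.h (P (nat_lit 0)) (P (nat_lit 1300883372136))) (P (nat_lit 0)))))))) (T.h (T.h (T.h (M (nat_lit 5759271470269521065423142911)) (T.h (P (nat_lit 0)) (T.h (P (nat_lit 2781654216421851267072)) (T.h (P (nat_lit 0)) (M (nat_lit 1986962158813183)))))) (T.h (P (nat_lit 0)) (T.h (T.h (P (nat_lit 2712750349386849976320)) (T.h (P (nat_lit 0)) (P (nat_lit 13732124649455616)))) (T.h (P (nat_lit 0)) (M (nat_lit 2704680764932095)))))) (T.h (T.h (P (nat_lit 0)) (T.h (T.h (P (nat_lit 0)) (T.h (M (nat_lit 22564888246348677119)) (T.h (P (nat_lit 0)) (M (nat_lit 23848727315007))))) (T.h (P (nat_lit 0)) (T.h (T.h (P (nat_lit 0)) (M (nat_lit 13039914007615))) (P (nat_lit 0)))))) (T.h (T.h (T.h (P (nat_lit 5469803030520608587776)) (T.h (P (nat_lit 0)) (M (nat_lit 468974644527103)))) (T.h (P (nat_lit 0)) (M (nat_lit 12044449115373567)))) (T.h (T.h (P (nat_lit 0)) (T.h (T.h (P (nat_lit 0)) (M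 (nat_lit 135946721145023))) (P (nat_lit 0)))) (M (nat_lit 206113574879231))))))), (T.h (T.h (P (nat_lit 0)) (T.h (T.h (P (nat_lit 2084092978544746558608375808)) (T.h (P (nat_lit 0)) (T.h (M (nat_lit 13105697841355797037055)) (T.h (P (nat_lit 0)) (M (nat_lit 21643633645551615)))))) (T.h (P (nat_lit 0)) (T.h (T.h (M (nat_lit 2445534956294129057791)) (T.h (P (nat_lit 0)) (M (nat_lit 10769564384280575)))) (T.h (P (nat_lit 0)) (P (nat_lit 2747498126852096))))))) (T.h (T.h (T.h (P (nat_lit 0)) (T.h (P (nat_lit 3505100089068918241492992)) (T.h (P (nat_lit 0)) (T.h (M (nat_lit 3206093737427992575)) (T.h (P (nat_lit 0)) (M (nat_lit 2171138809055))))))) (T.h (P (nat_lit 0)) (T.h (T.h (P (nat_lit 0)) (T.h (P (nat_lit 8688976552274165760)) (T.h (P (nat_lit 0)) (P (nat_lit 7731991111936))))) (T.h (P (nat_lit 0)) (T.h (T.h (P (nat_lit 0)) (M (nat_lit 6391443606815))) (P (nat_lit 0))))))) (T.h (T.h (P (nat_lit 0)) (T.h (T.h (M (nat_lit 14112679512842935730175))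 (T.h (P (nat_lit 0)) (M (nat_lit 45175380232437759)))) (T.h (P (nat_lit 0)) (P (nat_lit 3081846973022208))))) (T.h (T.h (T.h (P (nat_lit 0)) (T.h (P (nat_lit 83778115168194527232)) (T.h (P (nat_lit 0)) (P (nat_lit 19834863972112))))) (T.h (P (nat_lit 0)) (T.h (T.h (P (nat_lit 0)) (P (nat_lit 19291176429520))) (P (nat_lit 0))))) (T.h (T.h (P (nat_lit 0)) (M (nat_lit 145933282261073919))) (T.h (T.h (T.h (P (nat_lit 0)) (M (nat_lit 335941989346463))) (P (nat_lit 0))) (P (nat_lit 0)))))))), (T.h (T.h (P (nat_lit 0)) (T.h (T.h (P (nat_lit 0)) (T.h (P (nat_lit 2509986246629006751301632)) (T.h (P (nat_lit 0)) (T.h (M (nat_lit 59818567954692308991)) (T.h (P (nat_lit 0)) (P (nat_lit 17328277938624))))))) (T.h (P (nat_lit 0)) (T.h (T.h (P (nat_lit 0)) (T.h (M (nat_lit 13312026751304466431)) (T.h (P (nat_lit 0)) (M (nat_lit 3254775968975))))) (T.h (P (nat_lit 0)) (T.h (T.h (P (nat_lit 0)) (M (nat_lit 2992795319711))) (P (nat_lit 0)))))))) (T.h (T.h (T.h (P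 (nat_lit 5780547317694839156132282368)) (T.h (P (nat_lit 0)) (T.h (P (nat_lit 74301604029433693339648)) (T.h (P (nat_lit 0)) (M (nat_lit 63707590864371711)))))) (T.h (P (nat_lit 0)) (T.h (T.h (P (nat_lit 21863340973001673801728)) (T.h (P (nat_lit 0)) (M (nat_lit 149697733790728191)))) (T.h (P (nat_lit 0)) (M (nat_lit 70505012681048063)))))) (T.h (T.h (P (nat_lit 0)) (T.h (T.h (P (nat_lit 0)) (T.h (M (nat_lit 116447416587535777791)) (T.h (P (nat_lit 0)) (M (nat_lit 31298884846943))))) (T.h (P (nat_lit 0)) (T.h (T.h (P (nat_lit 0)) (P (nat_lit 25250882282784))) (P (nat_lit 0)))))) (T.h (T.h (T.h (M (nat_lit 52333459867568806297599)) (T.h (P (nat_lit 0)) (P (nat_lit 384385848265539584)))) (T.h (P (nat_lit 0)) (M (nat_lit 213134009412911103)))) (T.h (T.h (P (nat_lit 0)) (T.h (T.h (P (nat_lit 0)) (M (nat_lit 18868308943967))) (P (nat_lit 0)))) (P (nat_lit 181146448704733184))))))), (T.h (T.h (P (nat_lit 0)) (T.h (T.h (P (nat_lit 4278235791915474555326431232))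 (T.h (P (nat_lit 0)) (T.h (M (nat_lit 6192423240092853731327)) (T.h (P (nat_lit 0)) (M (nat_lit 74476136598421503)))))) (T.h (P (nat_lit 0)) (T.h (T.h (P (nat_lit 1181616625314120597504)) (T.h (P (nat_lit 0)) (P (nat_lit 29633747002753024)))) (T.h (P (nat_lit 0)) (P (nat_lit 1301651849396224))))))) (T.h (T.h (T.h (P (nat_lit 0)) (T.h (P (nat_lit 14795371198544497963171840)) (T.h (P (nat_lit 0)) (T.h (M (nat_lit 36731959723782307839)) (T.h (P (nat_lit 0)) (M (nat_lit 157227515260415))))))) (T.h (P (nat_lit 0)) (T.h (T.h (P (nat_lit 0)) (T.h (M (nat_lit 12128178767210217471)) (T.h (P (nat_lit 0)) (P (nat_lit 113963383640880))))) (T.h (P (nat_lit 0)) (T.h (T.h (P (nat_lit 0)) (M (nat_lit 217942570490831))) (P (nat_lit 0))))))) (T.h (T.h (P (nat_lit 0)) (T.h (T.h (M (nat_lit 13006323777302628925439)) (T.h (P (nat_lit 0)) (P (nat_lit 58043018223009792)))) (T.h (P (nat_lit 0)) (M (nat_lit 31228671951372287))))) (T.h (T.h (T.h (P (nat_lit 0)) (T.h (P (nat_lit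 311146838530025586688)) (T.h (P (nat_lit 0)) (P (nat_lit 341173095534576))))) (T.h (P (nat_lit 0)) (T.h (T.h (P (nat_lit 0)) (M (nat_lit 269427358060127))) (P (nat_lit 0))))) (T.h (T.h (P (nat_lit 0)) (P (nat_lit 515822917455380480))) (T.h (T.h (T.h (P (nat_lit 0)) (P (nat_lit 728429147867808))) (P (nat_lit 0))) (P (nat_lit 0)))))))), (T.h (T.h (P (nat_lit 0)) (T.h (T.h (P (nat_lit 0)) (T.h (P (nat_lit 24246785303870588422455296)) (T.h (P (nat_lit 0)) (P (nat_lit 89402042246615793664))))) (T.h (P (nat_lit 0)) (T.h (T.h (P (nat_lit 0)) (M (nat_lit 37240392913883496447))) (P (nat_lit 0)))))) (T.h (T.h (T.h (P (nat_lit 10561526356057080583166099456)) (T.h (P (nat_lit 0)) (T.h (P (nat_lit 127126616885303049191424)) (T.h (P (nat_lit 0)) (P (nat_lit 188376292861083648)))))) (T.h (P (nat_lit 0)) (T.h (T.h (M (nat_lit 27409907181871649783807)) (T.h (P (nat_lit 0)) (M (nat_lit 157968672411713535)))) (T.h (P (nat_lit 0)) (P (nat_lit 44529171178749952))))))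 (T.h (T.h (P (nat_lit 0)) (T.h (T.h (P (nat_lit 0)) (P (nat_lit 201305527107410984960))) (P (nat_lit 0)))) (T.h (T.h (T.h (P (nat_lit 52065708632157213163520)) (T.h (P (nat_lit 0)) (M (nat_lit 364067516495069183)))) (T.h (P (nat_lit 0)) (P (nat_lit 163557317878153216)))) (T.h (P (nat_lit 0)) (P (nat_lit 5867629431095296)))))))]
def lP22_38 : List (T ℤ) := [(T.h (T.h (T.h (P (nat_lit 0)) (T.h (P (nat_lit 2084092978544746558608375808)) (T.h (P (nat_lit 0)) (T.h (M (nat_lit 2445534956294129057791)) (T.h (P (nat_lit 0)) (P (nat_lit 2747498126852096))))))) (T.h (P (nat_lit 0)) (T.h (T.h (P (nat_lit 0)) (T.h (M (nat_lit 13105697841355797037055)) (T.h (P (nat_lit 0)) (M (nat_lit 10769564384280575))))) (T.h (P (nat_lit 0)) (T.h (T.h (P (nat_lit 0)) (M (nat_lit 21643633645551615))) (P (nat_lit 0))))))) (T.h (T.h (P (nat_lit 0)) (T.h (T.h (P (nat_lit 3505100089068918241492992)) (T.h (P (nat_lit 0)) (T.h (P (nat_lit 8688976552274165760)) (T.h (P (nat_lit 0))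 (M (nat_lit 6391443606815)))))) (T.h (P (nat_lit 0)) (T.h (T.h (M (nat_lit 3206093737427992575)) (T.h (P (nat_lit 0)) (P (nat_lit 7731991111936)))) (T.h (P (nat_lit 0)) (M (nat_lit 2171138809055))))))) (T.h (T.h (T.h (P (nat_lit 0)) (T.h (M (nat_lit 14112679512842935730175)) (T.h (P (nat_lit 0)) (P (nat_lit 3081846973022208))))) (T.h (P (nat_lit 0)) (T.h (T.h (P (nat_lit 0)) (M (nat_lit 45175380232437759))) (P (nat_lit 0))))) (T.h (T.h (P (nat_lit 0)) (T.h (T.h (P (nat_lit 83778115168194527232)) (T.h (P (nat_lit 0)) (P (nat_lit 19291176429520)))) (T.h (P (nat_lit 0)) (P (nat_lit 19834863972112))))) (T.h (T.h (T.h (P (nat_lit 0)) (M (nat_lit 145933282261073919))) (P (nat_lit 0))) (T.h (T.h (P (nat_lit 0)) (M (nat_lit 335941989346463))) (P (nat_lit 0)))))))), (T.h (T.h (T.h (M (nat_lit 1964079821679632770399920455679)) (T.h (P (nat_lit 0)) (T.h (M (nat_lit 4399674366462710643687423)) (T.h (P (nat_lit 0)) (T.h (M (nat_lit 9235792456685977599)) (T.h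 (P (nat_lit 0)) (M (nat_lit 1272585424271)))))))) (T.h (P (nat_lit 0)) (T.h (T.h (P (nat_lit 23608996639526259129319424)) (T.h (P (nat_lit 0)) (T.h (P (nat_lit 15223931451574583296)) (T.h (P (nat_lit 0)) (M (nat_lit 54304868692991)))))) (T.h (P (nat_lit 0)) (T.h (T.h (M (nat_lit 32055392101604524031)) (T.h (P (nat_lit 0)) (M (nat_lit 54304868692991)))) (T.h (P (nat_lit 0)) (M (nat_lit 1272585424271)))))))) (T.h (T.h (P (nat_lit 0)) (T.h (T.h (P (nat_lit 0)) (T.h (M (nat_lit 21975044058024553480191)) (T.h (P (nat_lit 0)) (P (nat_lit 219158715339046912))))) (T.h (P (nat_lit 0)) (T.h (T.h (P (nat_lit 0)) (M (nat_lit 100790867312836607))) (P (nat_lit 0)))))) (T.h (T.h (T.h (M (nat_lit 9123437953756958918967295)) (T.h (P (nat_lit 0)) (T.h (P (nat_lit 242922535185952014336)) (T.h (P (nat_lit 0)) (M (nat_lit 106775006108063)))))) (T.h (P (nat_lit 0)) (T.h (T.h (P (nat_lit 143905283881725591552)) (T.h (P (nat_lit 0)) (M (nat_lit 51987151445087)))) (T.h (P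 (nat_lit 0)) (M (nat_lit 106775006108063)))))) (T.h (T.h (P (nat_lit 0)) (T.h (T.h (P (nat_lit 0)) (P (nat_lit 982799063274225664))) (P (nat_lit 0)))) (T.h (T.h (T.h (P (nat_lit 253900677321045573632)) (T.h (P (nat_lit 0)) (P (nat_lit 86654082495648)))) (T.h (P (nat_lit 0)) (P (nat_lit 86654082495648)))) (T.h (P (nat_lit 0)) (P (nat_lit 5727466517568)))))))), (T.h (T.h (T.h (P (nat_lit 0)) (T.h (M (nat_lit 2624090554511444384514310143)) (T.h (P (nat_lit 0)) (T.h (P (nat_lit 8236358663384764252160)) (T.h (P (nat_lit 0)) (M (nat_lit 8529320267366399))))))) (T.h (P (nat_lit 0)) (T.h (T.h (P (nat_lit 0)) (T.h (M (nat_lit 31917601046396844113919)) (T.h (P (nat_lit 0)) (P (nat_lit 4966486854533120))))) (T.h (P (nat_lit 0)) (T.h (T.h (P (nat_lit 0)) (P (nat_lit 87313692010512384))) (P (nat_lit 0))))))) (T.h (T.h (P (nat_lit 0)) (T.h (T.h (M (nat_lit 49148449090598688213958655)) (T.h (P (nat_lit 0)) (T.h (M (nat_lit 109289342256252190719)) (T.h (P (nat_lit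 0)) (M (nat_lit 195327349909631)))))) (T.h (P (nat_lit 0)) (T.h (T.h (P (nat_lit 233637798844523610112)) (T.h (P (nat_lit 0)) (P (nat_lit 91909288089792)))) (T.h (P (nat_lit 0)) (P (nat_lit 2347361614368))))))) (T.h (T.h (T.h (P (nat_lit 0)) (T.h (M (nat_lit 185896674665524203880447)) (T.h (P (nat_lit 0)) (M (nat_lit 917637707330060287))))) (T.h (P (nat_lit 0)) (T.h (T.h (P (nat_lit 0)) (P (nat_lit 508741842077696000))) (P (nat_lit 0))))) (T.h (T.h (P (nat_lit 0)) (T.h (T.h (M (nat_lit 258626869237087469567)) (T.h (P (nat_lit 0)) (P (nat_lit 322932605416272)))) (T.h (P (nat_lit 0)) (M (nat_lit 56055365580095))))) (T.h (T.h (T.h (P (nat_lit 0)) (P (nat_lit 679455333394546688))) (P (nat_lit 0))) (T.h (T.h (P (nat_lit 0)) (P (nat_lit 398698104248784))) (P (nat_lit 0)))))))), (T.h (T.h (T.h (P (nat_lit 3568522950374117388076961497088)) (T.h (P (nat_lit 0)) (T.h (P (nat_lit 17495782709116647728218112)) (T.h (P (nat_lit 0)) (P (nat_lit 36856376727389077504))))))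 (T.h (P (nat_lit 0)) (T.h (T.h (P (nat_lit 14818236701183997791698944)) (T.h (P (nat_lit 0)) (P (nat_lit 43090105752503713792)))) (T.h (P (nat_lit 0)) (P (nat_lit 4664360011533647872)))))) (T.h (T.h (P (nat_lit 0)) (T.h (T.h (P (nat_lit 0)) (T.h (M (nat_lit 115370406155700026736639)) (T.h (P (nat_lit 0)) (P (nat_lit 178423566619377664))))) (T.h (P (nat_lit 0)) (T.h (T.h (P (nat_lit 0)) (P (nat_lit 171971654305644544))) (P (nat_lit 0)))))) (T.h (T.h (T.h (M (nat_lit 45137227535358847854051327)) (T.h (P (nat_lit 0)) (P (nat_lit 605521353194365517824)))) (T.h (P (nat_lit 0)) (M (nat_lit 174296638974171545599)))) (T.h (T.h (P (nat_lit 0)) (T.h (T.h (P (nat_lit 0)) (P (nat_lit 101693486531149824))) (P (nat_lit 0)))) (M (nat_lit 10805402706500386815)))))), (T.h (T.h (P (nat_lit 0)) (T.h (T.h (P (nat_lit 0)) (T.h (P (nat_lit 1682189232321638827032576)) (T.h (P (nat_lit 0)) (T.h (P (nat_lit 34971865101436452864)) (T.h (P (nat_lit 0)) (M (nat_lit 2216404253375)))))))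 (T.h (P (nat_lit 0)) (T.h (T.h (P (nat_lit 0)) (T.h (P (nat_lit 29827779157339144192)) (T.h (P (nat_lit 0)) (M (nat_lit 3182115287471))))) (T.h (P (nat_lit 0)) (T.h (T.h (P (nat_lit 0)) (P (nat_lit 18104669004960))) (P (nat_lit 0)))))))) (T.h (T.h (T.h (M (nat_lit 13738543897078520168434368511)) (T.h (P (nat_lit 0)) (T.h (P (nat_lit 53116712304456398536704)) (T.h (P (nat_lit 0)) (P (nat_lit 13389182920425472)))))) (T.h (P (nat_lit 0)) (T.h (T.h (P (nat_lit 71863826799750006439936)) (T.h (P (nat_lit 0)) (M (nat_lit 45237387053236223)))) (T.h (P (nat_lit 0)) (P (nat_lit 35006146232877056)))))) (T.h (T.h (P (nat_lit 0)) (T.h (T.h (P (nat_lit 0)) (T.h (P (nat_lit 58648929392887070720)) (T.h (P (nat_lit 0)) (P (nat_lit 6806561621472))))) (T.h (P (nat_lit 0)) (T.h (T.h (P (nat_lit 0)) (M (nat_lit 49743205508255))) (P (nat_lit 0)))))) (T.h (T.h (T.h (P (nat_lit 89746200216324985061376)) (T.h (P (nat_lit 0)) (M (nat_lit 239507379198361599)))) (T.h (P (nat_lit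 0)) (M (nat_lit 93737683484508159)))) (T.h (T.h (P (nat_lit 0)) (T.h (T.h (P (nat_lit 0)) (M (nat_lit 154815030088991))) (P (nat_lit 0)))) (M (nat_lit 42162729439887359))))))), (T.h (T.h (P (nat_lit 0)) (T.h (T.h (M (nat_lit 10238001575438095358980259839)) (T.h (P (nat_lit 0)) (T.h (M (nat_lit 32773840107748108271615)) (T.h (P (nat_lit 0)) (P (nat_lit 105856962375598080)))))) (T.h (P (nat_lit 0)) (T.h (T.h (P (nat_lit 4498526712991768903680)) (T.h (P (nat_lit 0)) (M (nat_lit 13902498383790079)))) (T.h (P (nat_lit 0)) (M (nat_lit 5867200945930239))))))) (T.h (T.h (T.h (P (nat_lit 0)) (T.h (M (nat_lit 65918469378897187897868287)) (T.h (P (nat_lit 0)) (T.h (P (nat_lit 258219709894464897024)) (T.h (P (nat_lit 0)) (P (nat_lit 6090557697360))))))) (T.h (P (nat_lit 0)) (T.h (T.h (P (nat_lit 0)) (T.h (M (nat_lit 115437795602681823231)) (T.h (P (nat_lit 0)) (P (nat_lit 135400654107216))))) (T.h (P (nat_lit 0)) (T.h (T.h (P (nat_lit 0)) (M (nat_lit 212902374284207)))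 (P (nat_lit 0))))))) (T.h (T.h (P (nat_lit 0)) (T.h (T.h (M (nat_lit 148288026953148786540543)) (T.h (P (nat_lit 0)) (P (nat_lit 519943386516488192)))) (T.h (P (nat_lit 0)) (M (nat_lit 902612114225659903))))) (T.h (T.h (T.h (P (nat_lit 0)) (T.h (M (nat_lit 204190865734695387135)) (T.h (P (nat_lit 0)) (M (nat_lit 40308873541055))))) (T.h (P (nat_lit 0)) (T.h (T.h (P (nat_lit 0)) (P (nat_lit 480696106885200))) (P (nat_lit 0))))) (T.h (T.h (P (nat_lit 0)) (P (nat_lit 391068373448163328))) (T.h (T.h (T.h (P (nat_lit 0)) (P (nat_lit 88368910367184))) (P (nat_lit 0))) (P (nat_lit 0)))))))), (T.h (T.h (P (nat_lit 0)) (T.h (T.h (P (nat_lit 0)) (T.h (P (nat_lit 31566637270320121059999744)) (T.h (P (nat_lit 0)) (M (nat_lit 66144007165625499647))))) (T.h (P (nat_lit 0)) (T.h (T.h (P (nat_lit 0)) (M (nat_lit 40736780318343692287))) (P (nat_lit 0)))))) (T.h (T.h (T.h (P (nat_lit 1359415713603641114441547776)) (T.h (P (nat_lit 0)) (T.h (P (nat_lit 216489288237391628206080))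 (T.h (P (nat_lit 0)) (P (nat_lit 34091736121835520)))))) (T.h (P (nat_lit 0)) (T.h (T.h (P (nat_lit 165431742148911250276352)) (T.h (P (nat_lit 0)) (M (nat_lit 148682746199048191)))) (T.h (P (nat_lit 0)) (P (nat_lit 37167668190281728)))))) (T.h (T.h (P (nat_lit 0)) (T.h (T.h (P (nat_lit 0)) (P (nat_lit 25261919675590115328))) (P (nat_lit 0)))) (T.h (T.h (T.h (M (nat_lit 100957978358762012934143)) (T.h (P (nat_lit 0)) (P (nat_lit 221720943173402624)))) (T.h (P (nat_lit 0)) (M (nat_lit 67164934254133247)))) (T.h (P (nat_lit 0)) (M (nat_lit 565721680629858303))))))), (T.h (T.h (T.h (P (nat_lit 0)) (T.h (M (nat_lit 3335675229011176419139518463)) (T.h (P (nat_lit 0)) (T.h (M (nat_lit 2556215325078874750975)) (T.h (P (nat_lit 0)) (P (nat_lit 3963771170832384))))))) (T.h (P (nat_lit 0)) (T.h (T.h (P (nat_lit 0)) (T.h (M (nat_lit 7048662301444117889023)) (T.h (P (nat_lit 0)) (P (nat_lit 10764761764429824))))) (T.h (P (nat_lit 0)) (T.h (T.h (P (nat_lit 0))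 (M (nat_lit 55932866233335807))) (P (nat_lit 0))))))) (T.h (T.h (P (nat_lit 0)) (T.h (T.h (M (nat_lit 1974649089754001720737791)) (T.h (P (nat_lit 0)) (T.h (M (nat_lit 18276632113639849983)) (T.h (P (nat_lit 0)) (M (nat_lit 235517594865407)))))) (T.h (P (nat_lit 0)) (T.h (T.h (M (nat_lit 12150048673841020927)) (T.h (P (nat_lit 0)) (P (nat_lit 157454749658304)))) (T.h (P (nat_lit 0)) (M (nat_lit 153484319177423))))))) (T.h (T.h (T.h (P (nat_lit 0)) (T.h (P (nat_lit 24602323935072788414464)) (T.h (P (nat_lit 0)) (M (nat_lit 16203078846971903))))) (T.h (P (nat_lit 0)) (T.h (T.h (P (nat_lit 0)) (P (nat_lit 69244562661801984))) (P (nat_lit 0))))) (T.h (T.h (P (nat_lit 0)) (T.h (T.h (P (nat_lit 365582842032417669120)) (T.h (P (nat_lit 0)) (M (nat_lit 111663856591199)))) (T.h (P (nat_lit 0)) (P (nat_lit 356919587573616))))) (T.h (T.h (T.h (P (nat_lit 0)) (P (nat_lit 227435957508997120))) (P (nat_lit 0))) (T.h (T.h (P (nat_lit 0)) (P (nat_lit 418099953986208)))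 (P (nat_lit 0))))))))]
def lP22_39 : List (T ℤ) := [(T.h (T.h (T.h (P (nat_lit 6956814252741079948443380613120)) (T.h (P (nat_lit 0)) (T.h (P (nat_lit 9834762153925330696404992)) (T.h (P (nat_lit 0)) (M (nat_lit 907467354663813119)))))) (T.h (P (nat_lit 0)) (T.h (T.h (P (nat_lit 12512308161857980632924160)) (T.h (P (nat_lit 0)) (P (nat_lit 89162961353009266688)))) (T.h (P (nat_lit 0)) (P (nat_lit 31284549361191616512)))))) (T.h (T.h (P (nat_lit 0)) (T.h (T.h (P (nat_lit 0)) (T.h (M (nat_lit 245888729080067128295423)) (T.h (P (nat_lit 0)) (P (nat_lit 200925852248375296))))) (T.h (P (nat_lit 0)) (T.h (T.h (P (nat_lit 0)) (P (nat_lit 207377764562108416))) (P (nat_lit 0)))))) (T.h (T.h (T.h (P (nat_lit 7835852522007655234928640)) (T.h (P (nat_lit 0)) (M (nat_lit 83243563760396271615)))) (T.h (P (nat_lit 0)) (P (nat_lit 696574428408140791808)))) (T.h (T.h (P (nat_lit 0)) (T.h (T.h (P (nat_lit 0)) (P (nat_lit 281155397963546624))) (P (nat_lit 0)))) (P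 (nat_lit 190603457277588406272)))))), (T.h (T.h (P (nat_lit 0)) (T.h (T.h (P (nat_lit 0)) (T.h (P (nat_lit 32368617483080180722302976)) (T.h (P (nat_lit 0)) (M (nat_lit 30422275876538286079))))) (T.h (P (nat_lit 0)) (T.h (T.h (P (nat_lit 0)) (P (nat_lit 70812932436679196672))) (P (nat_lit 0)))))) (T.h (T.h (T.h (P (nat_lit 4622686116289818125836222464)) (T.h (P (nat_lit 0)) (T.h (P (nat_lit 5038203398620824207360)) (T.h (P (nat_lit 0)) (P (nat_lit 30035550910087168)))))) (T.h (P (nat_lit 0)) (T.h (T.h (P (nat_lit 210632273554275901112320)) (T.h (P (nat_lit 0)) (M (nat_lit 257875223365943295)))) (T.h (P (nat_lit 0)) (P (nat_lit 170806740523974656)))))) (T.h (T.h (P (nat_lit 0)) (T.h (T.h (P (nat_lit 0)) (P (nat_lit 210714216620942688256))) (P (nat_lit 0)))) (T.h (T.h (T.h (P (nat_lit 67326681209505262338048)) (T.h (P (nat_lit 0)) (M (nat_lit 12566762318135295)))) (T.h (P (nat_lit 0)) (M (nat_lit 251305719263821823)))) (T.h (P (nat_lit 0)) (P (nat_lit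 73889396061962240))))))), (T.h (T.h (T.h (P (nat_lit 6945281478211275015688300789760)) (T.h (P (nat_lit 0)) (T.h (M (nat_lit 844005617985062042599423)) (T.h (P (nat_lit 0)) (T.h (M (nat_lit 250077559696392191)) (T.h (P (nat_lit 0)) (M (nat_lit 394146612063)))))))) (T.h (P (nat_lit 0)) (T.h (T.h (M (nat_lit 844005617985062042599423)) (T.h (P (nat_lit 0)) (T.h (P (nat_lit 1700261905928552448)) (T.h (P (nat_lit 0)) (M (nat_lit 1928525502543)))))) (T.h (P (nat_lit 0)) (T.h (T.h (M (nat_lit 250077559696392191)) (T.h (P (nat_lit 0)) (M (nat_lit 1928525502543)))) (T.h (P (nat_lit 0)) (M (nat_lit 394146612063)))))))) (T.h (T.h (P (nat_lit 0)) (T.h (T.h (P (nat_lit 0)) (T.h (P (nat_lit 21790855645850796818432)) (T.h (P (nat_lit 0)) (M (nat_lit 8712303045115903))))) (T.h (P (nat_lit 0)) (T.h (T.h (P (nat_lit 0)) (M (nat_lit 8712303045115903))) (P (nat_lit 0)))))) (T.h (T.h (T.h (M (nat_lit 6892331385474144117194751)) (T.h (P (nat_lit 0)) (T.h (P (nat_lit 28162852510398152704))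 (T.h (P (nat_lit 0)) (M (nat_lit 12025278876719)))))) (T.h (P (nat_lit 0)) (T.h (T.h (P (nat_lit 28162852510398152704)) (T.h (P (nat_lit 0)) (M (nat_lit 46369747134399)))) (T.h (P (nat_lit 0)) (M (nat_lit 12025278876719)))))) (T.h (T.h (P (nat_lit 0)) (T.h (T.h (P (nat_lit 0)) (P (nat_lit 114410331772616704))) (P (nat_lit 0)))) (T.h (T.h (T.h (M (nat_lit 12345843102613766143)) (T.h (P (nat_lit 0)) (M (nat_lit 6531616341807)))) (T.h (P (nat_lit 0)) (M (nat_lit 6531616341807)))) (T.h (P (nat_lit 0)) (P (nat_lit 10239292669440)))))))), (T.h (T.h (T.h (P (nat_lit 0)) (T.h (P (nat_lit 2154891042732379661706199040)) (T.h (P (nat_lit 0)) (T.h (M (nat_lit 19457227158117284839423)) (T.h (P (nat_lit 0)) (P (nat_lit 8820553485451264))))))) (T.h (P (nat_lit 0)) (T.h (T.h (P (nat_lit 0)) (T.h (P (nat_lit 4474762371420710240256)) (T.h (P (nat_lit 0)) (P (nat_lit 38720267754078208))))) (T.h (P (nat_lit 0)) (T.h (T.h (P (nat_lit 0)) (P (nat_lit 13999807017811968)))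 (P (nat_lit 0))))))) (T.h (T.h (P (nat_lit 0)) (T.h (T.h (P (nat_lit 2383553571043493235654656)) (T.h (P (nat_lit 0)) (T.h (M (nat_lit 11842962872105697279)) (T.h (P (nat_lit 0)) (M (nat_lit 5796365101967)))))) (T.h (P (nat_lit 0)) (T.h (T.h (P (nat_lit 14669747237702074368)) (T.h (P (nat_lit 0)) (M (nat_lit 18427241446751)))) (T.h (P (nat_lit 0)) (P (nat_lit 2088080913312))))))) (T.h (T.h (T.h (P (nat_lit 0)) (T.h (M (nat_lit 34767034279980458573823)) (T.h (P (nat_lit 0)) (P (nat_lit 42731317351088128))))) (T.h (P (nat_lit 0)) (T.h (T.h (P (nat_lit 0)) (M (nat_lit 30376024633999359))) (P (nat_lit 0))))) (T.h (T.h (P (nat_lit 0)) (T.h (T.h (P (nat_lit 210634333785335791616)) (T.h (P (nat_lit 0)) (M (nat_lit 31467877982927)))) (T.h (P (nat_lit 0)) (P (nat_lit 13347002066688))))) (T.h (T.h (T.h (P (nat_lit 0)) (P (nat_lit 321250912583647232))) (P (nat_lit 0))) (T.h (T.h (P (nat_lit 0)) (M (nat_lit 98814136291871))) (P (nat_lit 0)))))))), (T.h (T.h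 (T.h (M (nat_lit 8874097368190465477069401751551)) (T.h (P (nat_lit 0)) (T.h (P (nat_lit 56357353692403546963574784)) (T.h (P (nat_lit 0)) (T.h (M (nat_lit 31246944099178119167)) (T.h (P (nat_lit 0)) (M (nat_lit 11897919089711)))))))) (T.h (P (nat_lit 0)) (T.h (T.h (M (nat_lit 5776792262901764982833151)) (T.h (P (nat_lit 0)) (T.h (P (nat_lit 2920710188275073024)) (T.h (P (nat_lit 0)) (P (nat_lit 10226852086896)))))) (T.h (P (nat_lit 0)) (T.h (T.h (P (nat_lit 188052168320745472)) (T.h (P (nat_lit 0)) (M (nat_lit 34278701036255)))) (T.h (P (nat_lit 0)) (P (nat_lit 2747746866096)))))))) (T.h (T.h (P (nat_lit 0)) (T.h (T.h (P (nat_lit 0)) (T.h (P (nat_lit 44308383528726902603776)) (T.h (P (nat_lit 0)) (P (nat_lit 31362473346596864))))) (T.h (P (nat_lit 0)) (T.h (T.h (P (nat_lit 0)) (M (nat_lit 3320335181676543))) (P (nat_lit 0)))))) (T.h (T.h (T.h (M (nat_lit 4121339715995222885269503)) (T.h (P (nat_lit 0)) (T.h (P (nat_lit 165214448387717332992)) (T.h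 (P (nat_lit 0)) (M (nat_lit 7423923453119)))))) (T.h (P (nat_lit 0)) (T.h (T.h (P (nat_lit 100215459310483800064)) (T.h (P (nat_lit 0)) (M (nat_lit 70818635992175)))) (T.h (P (nat_lit 0)) (M (nat_lit 18810786049055)))))) (T.h (T.h (P (nat_lit 0)) (T.h (T.h (P (nat_lit 0)) (P (nat_lit 112796740792713216))) (P (nat_lit 0)))) (T.h (T.h (T.h (P (nat_lit 21722730684145991680)) (T.h (P (nat_lit 0)) (P (nat_lit 152917372260864)))) (T.h (P (nat_lit 0)) (M (nat_lit 136831125410927)))) (T.h (P (nat_lit 0)) (M (nat_lit 20331621775151)))))))), (T.h (T.h (T.h (P (nat_lit 0)) (T.h (M (nat_lit 20080434620500704876793167871)) (T.h (P (nat_lit 0)) (T.h (P (nat_lit 21977834653170465243136)) (T.h (P (nat_lit 0)) (P (nat_lit 52022620114190336))))))) (T.h (P (nat_lit 0)) (T.h (T.h (P (nat_lit 0)) (T.h (M (nat_lit 4367733539575680729087)) (T.h (P (nat_lit 0)) (M (nat_lit 35241709110263807))))) (T.h (P (nat_lit 0)) (T.h (T.h (P (nat_lit 0)) (P (nat_lit 65194660423303168)))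 (P (nat_lit 0))))))) (T.h (T.h (P (nat_lit 0)) (T.h (T.h (M (nat_lit 13558008741155526747881471)) (T.h (P (nat_lit 0)) (P (nat_lit 41365865863023951872)))) (T.h (P (nat_lit 0)) (P (nat_lit 10023541221852446720))))) (T.h (T.h (T.h (P (nat_lit 0)) (T.h (M (nat_lit 346295401906182744440831)) (T.h (P (nat_lit 0)) (M (nat_lit 226150079781830655))))) (T.h (P (nat_lit 0)) (T.h (T.h (P (nat_lit 0)) (P (nat_lit 216159424549486592))) (P (nat_lit 0))))) (T.h (T.h (P (nat_lit 0)) (M (nat_lit 361137656098226962431))) (T.h (T.h (T.h (P (nat_lit 0)) (M (nat_lit 898384892327428095))) (P (nat_lit 0))) (P (nat_lit 0))))))), (T.h (T.h (P (nat_lit 0)) (T.h (T.h (M (nat_lit 2787373763577663888453271551)) (T.h (P (nat_lit 0)) (T.h (M (nat_lit 3668610430600438874111)) (T.h (P (nat_lit 0)) (M (nat_lit 12344674416689151)))))) (T.h (P (nat_lit 0)) (T.h (T.h (M (nat_lit 14596476764099333586943)) (T.h (P (nat_lit 0)) (M (nat_lit 47013678771863551)))) (T.h (P (nat_lit 0)) (P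 (nat_lit 12471877204180992))))))) (T.h (T.h (T.h (P (nat_lit 0)) (T.h (P (nat_lit 8420469345027642405945344)) (T.h (P (nat_lit 0)) (T.h (M (nat_lit 26595740297180741631)) (T.h (P (nat_lit 0)) (P (nat_lit 2088080913312))))))) (T.h (P (nat_lit 0)) (T.h (T.h (P (nat_lit 0)) (T.h (M (nat_lit 29332209703661338623)) (T.h (P (nat_lit 0)) (M (nat_lit 18427241446751))))) (T.h (P (nat_lit 0)) (T.h (T.h (P (nat_lit 0)) (M (nat_lit 5796365101967))) (P (nat_lit 0))))))) (T.h (T.h (P (nat_lit 0)) (T.h (T.h (P (nat_lit 37652368741945447546880)) (T.h (P (nat_lit 0)) (M (nat_lit 105182443699470335)))) (T.h (P (nat_lit 0)) (M (nat_lit 18450982411370495))))) (T.h (T.h (T.h (P (nat_lit 0)) (T.h (P (nat_lit 184211853846620667904)) (T.h (P (nat_lit 0)) (P (nat_lit 13347002066688))))) (T.h (P (nat_lit 0)) (T.h (T.h (P (nat_lit 0)) (M (nat_lit 31467877982927))) (P (nat_lit 0))))) (T.h (T.h (P (nat_lit 0)) (P (nat_lit 498903295979454464))) (T.h (T.h (T.h (P (nat_lit 0))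 (M (nat_lit 98814136291871))) (P (nat_lit 0))) (P (nat_lit 0)))))))), (T.h (T.h (P (nat_lit 0)) (T.h (T.h (P (nat_lit 0)) (T.h (M (nat_lit 53272160417920283098218495)) (T.h (P (nat_lit 0)) (T.h (M (nat_lit 18135119514684096511)) (T.h (P (nat_lit 0)) (P (nat_lit 25603466475168))))))) (T.h (P (nat_lit 0)) (T.h (T.h (P (nat_lit 0)) (T.h (M (nat_lit 18135119514684096511)) (T.h (P (nat_lit 0)) (M (nat_lit 85814251092287))))) (T.h (P (nat_lit 0)) (T.h (T.h (P (nat_lit 0)) (P (nat_lit 25603466475168))) (P (nat_lit 0)))))))) (T.h (T.h (T.h (P (nat_lit 36998131545928357616738631680)) (T.h (P (nat_lit 0)) (T.h (M (nat_lit 90589036788935810875391)) (T.h (P (nat_lit 0)) (P (nat_lit 79739785560276992)))))) (T.h (P (nat_lit 0)) (T.h (T.h (M (nat_lit 90589036788935810875391)) (T.h (P (nat_lit 0)) (P (nat_lit 200668995862790144)))) (T.h (P (nat_lit 0)) (P (nat_lit 79739785560276992)))))) (T.h (T.h (P (nat_lit 0)) (T.h (T.h (P (nat_lit 0)) (T.h (M (nat_lit 1051264078816068239359))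 (T.h (P (nat_lit 0)) (P (nat_lit 71961381107280))))) (T.h (P (nat_lit 0)) (T.h (T.h (P (nat_lit 0)) (P (nat_lit 71961381107280))) (P (nat_lit 0)))))) (T.h (T.h (T.h (M (nat_lit 3100395856076149358591)) (T.h (P (nat_lit 0)) (P (nat_lit 15382350327431168)))) (T.h (P (nat_lit 0)) (P (nat_lit 15382350327431168)))) (T.h (T.h (P (nat_lit 0)) (T.h (T.h (P (nat_lit 0)) (P (nat_lit 354926245962528))) (P (nat_lit 0)))) (P (nat_lit 166287845529026560)))))))]
def lP22_40 : List (T ℤ) := [(T.h (T.h (P (nat_lit 0)) (T.h (T.h (M (nat_lit 3872263150308463937371242495)) (T.h (P (nat_lit 0)) (T.h (M (nat_lit 11167772059254816505855)) (T.h (P (nat_lit 0)) (P (nat_lit 10662414417920000)))))) (T.h (P (nat_lit 0)) (T.h (T.h (P (nat_lit 16517076005188825776128)) (T.h (P (nat_lit 0)) (P (nat_lit 68869295065792512)))) (T.h (P (nat_lit 0)) (M (nat_lit 10111956601995263))))))) (T.h (T.h (T.h (P (nat_lit 0)) (T.h (P (nat_lit 13771601041747620554342400)) (T.h (P (nat_lit 0))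 (P (nat_lit 370602560408518656000))))) (T.h (P (nat_lit 0)) (T.h (T.h (P (nat_lit 0)) (M (nat_lit 119147941505997471743))) (P (nat_lit 0))))) (T.h (T.h (P (nat_lit 0)) (T.h (T.h (P (nat_lit 210187500718093953400832)) (T.h (P (nat_lit 0)) (M (nat_lit 237350613352972287)))) (T.h (P (nat_lit 0)) (P (nat_lit 39013912992251904))))) (T.h (T.h (T.h (P (nat_lit 0)) (M (nat_lit 451751048473412108287))) (P (nat_lit 0))) (T.h (T.h (P (nat_lit 0)) (M (nat_lit 472121916617293823))) (P (nat_lit 0))))))), (T.h (T.h (T.h (M (nat_lit 7347284730981760738617207029759)) (T.h (P (nat_lit 0)) (T.h (M (nat_lit 4210623603377640919007231)) (T.h (P (nat_lit 0)) (T.h (P (nat_lit 1445542280348827648)) (T.h (P (nat_lit 0)) (P (nat_lit 2262664312560)))))))) (T.h (P (nat_lit 0)) (T.h (T.h (P (nat_lit 57923522351927671027400704)) (T.h (P (nat_lit 0)) (T.h (M (nat_lit 2352003625896640511)) (T.h (P (nat_lit 0)) (M (nat_lit 40758030476063)))))) (T.h (P (nat_lit 0)) (T.h (T.h (M (nat_lit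 29989453987150036991)) (T.h (P (nat_lit 0)) (P (nat_lit 3747522647088)))) (T.h (P (nat_lit 0)) (M (nat_lit 12383001643247)))))))) (T.h (T.h (P (nat_lit 0)) (T.h (T.h (P (nat_lit 0)) (T.h (P (nat_lit 70258196730489203589120)) (T.h (P (nat_lit 0)) (P (nat_lit 12885981240885248))))) (T.h (P (nat_lit 0)) (T.h (T.h (P (nat_lit 0)) (P (nat_lit 47568789769158656))) (P (nat_lit 0)))))) (T.h (T.h (T.h (M (nat_lit 24986163315578777425149951)) (T.h (P (nat_lit 0)) (T.h (P (nat_lit 112178435325171859456)) (T.h (P (nat_lit 0)) (M (nat_lit 40633845785423)))))) (T.h (P (nat_lit 0)) (T.h (T.h (P (nat_lit 177177424402405392384)) (T.h (P (nat_lit 0)) (M (nat_lit 154284181097903)))) (T.h (P (nat_lit 0)) (M (nat_lit 29246983189487)))))) (T.h (T.h (P (nat_lit 0)) (T.h (T.h (P (nat_lit 0)) (P (nat_lit 262996897238188032))) (P (nat_lit 0)))) (T.h (T.h (T.h (P (nat_lit 14892719367979532288)) (T.h (P (nat_lit 0)) (M (nat_lit 154054818207791)))) (T.h (P (nat_lit 0)) (P (nat_lit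 135693679464000)))) (T.h (P (nat_lit 0)) (M (nat_lit 1900902457007)))))))), (T.h (T.h (T.h (P (nat_lit 0)) (T.h (M (nat_lit 2802544089202721518058995711)) (T.h (P (nat_lit 0)) (T.h (P (nat_lit 11706436078456893603840)) (T.h (P (nat_lit 0)) (M (nat_lit 10301442286452735))))))) (T.h (P (nat_lit 0)) (T.h (T.h (P (nat_lit 0)) (T.h (M (nat_lit 11334887043216479092735)) (T.h (P (nat_lit 0)) (P (nat_lit 64870222751039488))))) (T.h (P (nat_lit 0)) (T.h (T.h (P (nat_lit 0)) (P (nat_lit 17610523673985024))) (P (nat_lit 0))))))) (T.h (T.h (P (nat_lit 0)) (T.h (T.h (P (nat_lit 15532778243652765473570816)) (T.h (P (nat_lit 0)) (M (nat_lit 132783142035194380287)))) (T.h (P (nat_lit 0)) (P (nat_lit 372027013451330093056))))) (T.h (T.h (T.h (P (nat_lit 0)) (T.h (P (nat_lit 219226733783414827122688)) (T.h (P (nat_lit 0)) (P (nat_lit 48128141689192448))))) (T.h (P (nat_lit 0)) (T.h (T.h (P (nat_lit 0)) (M (nat_lit 307064400049864703))) (P (nat_lit 0))))) (T.h (T.h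 (P (nat_lit 0)) (M (nat_lit 292461774379792990207))) (T.h (T.h (T.h (P (nat_lit 0)) (M (nat_lit 111197562056900607))) (P (nat_lit 0))) (P (nat_lit 0))))))), (T.h (T.h (P (nat_lit 0)) (T.h (T.h (M (nat_lit 19010715559394962457480921087)) (T.h (P (nat_lit 0)) (T.h (M (nat_lit 4534848523537343315967)) (T.h (P (nat_lit 0)) (P (nat_lit 72142769679368192)))))) (T.h (P (nat_lit 0)) (T.h (T.h (P (nat_lit 17167194726438533070848)) (T.h (P (nat_lit 0)) (M (nat_lit 39240781425016831)))) (T.h (P (nat_lit 0)) (P (nat_lit 51833134429732864))))))) (T.h (T.h (T.h (P (nat_lit 0)) (T.h (M (nat_lit 11796831539250381828653055)) (T.h (P (nat_lit 0)) (P (nat_lit 11447994264663883776))))) (T.h (P (nat_lit 0)) (T.h (T.h (P (nat_lit 0)) (P (nat_lit 27730665333827043328))) (P (nat_lit 0))))) (T.h (T.h (P (nat_lit 0)) (T.h (T.h (M (nat_lit 337256168840861870718975)) (T.h (P (nat_lit 0)) (P (nat_lit 146445637852594176)))) (T.h (P (nat_lit 0)) (M (nat_lit 217035851084890111)))))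 (T.h (T.h (T.h (P (nat_lit 0)) (M (nat_lit 201848382004607844351))) (P (nat_lit 0))) (T.h (T.h (P (nat_lit 0)) (M (nat_lit 537460537767034879))) (P (nat_lit 0))))))), (T.h (T.h (P (nat_lit 0)) (T.h (T.h (P (nat_lit 0)) (T.h (M (nat_lit 6603952406297327842623487)) (T.h (P (nat_lit 0)) (T.h (P (nat_lit 4491474292059406336)) (T.h (P (nat_lit 0)) (M (nat_lit 776391066335))))))) (T.h (P (nat_lit 0)) (T.h (T.h (P (nat_lit 0)) (T.h (M (nat_lit 7293634597340839935)) (T.h (P (nat_lit 0)) (M (nat_lit 72660681503))))) (T.h (P (nat_lit 0)) (T.h (T.h (P (nat_lit 0)) (M (nat_lit 776391066335))) (P (nat_lit 0)))))))) (T.h (T.h (T.h (P (nat_lit 12705971551799468700223930368)) (T.h (P (nat_lit 0)) (T.h (M (nat_lit 1703111653625365004287)) (T.h (P (nat_lit 0)) (P (nat_lit 8727060432158720)))))) (T.h (P (nat_lit 0)) (T.h (T.h (M (nat_lit 8848581376903131168767)) (T.h (P (nat_lit 0)) (P (nat_lit 24253972323106816)))) (T.h (P (nat_lit 0)) (P (nat_lit 15828416420511744))))))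 (T.h (T.h (P (nat_lit 0)) (T.h (T.h (P (nat_lit 0)) (T.h (P (nat_lit 46739776176339812352)) (T.h (P (nat_lit 0)) (P (nat_lit 18444320661312))))) (T.h (P (nat_lit 0)) (T.h (T.h (P (nat_lit 0)) (P (nat_lit 18444320661312))) (P (nat_lit 0)))))) (T.h (T.h (T.h (P (nat_lit 1067211340657522114560)) (T.h (P (nat_lit 0)) (P (nat_lit 33631326450122752)))) (T.h (P (nat_lit 0)) (P (nat_lit 10236873174646784)))) (T.h (T.h (P (nat_lit 0)) (T.h (T.h (P (nat_lit 0)) (P (nat_lit 135946721145024))) (P (nat_lit 0)))) (M (nat_lit 24957961867493375))))))), (T.h (T.h (P (nat_lit 0)) (T.h (T.h (P (nat_lit 7613911020926650974465949696)) (T.h (P (nat_lit 0)) (T.h (P (nat_lit 856239061351264157696)) (T.h (P (nat_lit 0)) (M (nat_lit 18543270365085695)))))) (T.h (P (nat_lit 0)) (T.h (T.h (P (nat_lit 3737831950392995348480)) (T.h (P (nat_lit 0)) (P (nat_lit 18868985238323200)))) (T.h (P (nat_lit 0)) (M (nat_lit 2662119321436159))))))) (T.h (T.h (T.h (P (nat_lit 0)) (T.h (P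 (nat_lit 16770020288298499683909632)) (T.h (P (nat_lit 0)) (T.h (M (nat_lit 24581911049941286911)) (T.h (P (nat_lit 0)) (M (nat_lit 3743196082991))))))) (T.h (P (nat_lit 0)) (T.h (T.h (P (nat_lit 0)) (T.h (P (nat_lit 6148453346429632512)) (T.h (P (nat_lit 0)) (M (nat_lit 43491366017423))))) (T.h (P (nat_lit 0)) (T.h (T.h (P (nat_lit 0)) (P (nat_lit 17575024374576))) (P (nat_lit 0))))))) (T.h (T.h (P (nat_lit 0)) (T.h (T.h (M (nat_lit 37608647712375417339903)) (T.h (P (nat_lit 0)) (M (nat_lit 11201544438792191)))) (T.h (P (nat_lit 0)) (M (nat_lit 15025593104400383))))) (T.h (T.h (T.h (P (nat_lit 0)) (T.h (M (nat_lit 54436003502392082431)) (T.h (P (nat_lit 0)) (M (nat_lit 15746492039039))))) (T.h (P (nat_lit 0)) (T.h (T.h (P (nat_lit 0)) (M (nat_lit 157763501468927))) (P (nat_lit 0))))) (T.h (T.h (P (nat_lit 0)) (P (nat_lit 288386959946383360))) (T.h (T.h (T.h (P (nat_lit 0)) (P (nat_lit 310329193881600))) (P (nat_lit 0))) (P (nat_lit 0)))))))), (T.h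 (T.h (P (nat_lit 0)) (T.h (T.h (P (nat_lit 0)) (T.h (M (nat_lit 5722141391046098395594751)) (T.h (P (nat_lit 0)) (P (nat_lit 19411721668203118592))))) (T.h (P (nat_lit 0)) (T.h (T.h (P (nat_lit 0)) (M (nat_lit 5995505179078688767))) (P (nat_lit 0)))))) (T.h (T.h (T.h (M (nat_lit 1007859841762685177470910463)) (T.h (P (nat_lit 0)) (T.h (M (nat_lit 80977012436612954456063)) (T.h (P (nat_lit 0)) (P (nat_lit 7637635372646400)))))) (T.h (P (nat_lit 0)) (T.h (T.h (M (nat_lit 29919466348132576526335)) (T.h (P (nat_lit 0)) (P (nat_lit 61920453981667328)))) (T.h (P (nat_lit 0)) (P (nat_lit 4561703304200192)))))) (T.h (T.h (P (nat_lit 0)) (T.h (T.h (P (nat_lit 0)) (M (nat_lit 33583577443522838527))) (P (nat_lit 0)))) (T.h (T.h (T.h (M (nat_lit 21797986948526179876863)) (T.h (P (nat_lit 0)) (M (nat_lit 128439185163681791)))) (T.h (P (nat_lit 0)) (P (nat_lit 160446692263854080)))) (T.h (P (nat_lit 0)) (M (nat_lit 42857691188494335))))))), (T.h (T.h (T.h (P (nat_lit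 0)) (T.h (P (nat_lit 7613911020926650974465949696)) (T.h (P (nat_lit 0)) (T.h (P (nat_lit 3737831950392995348480)) (T.h (P (nat_lit 0)) (M (nat_lit 2662119321436159))))))) (T.h (P (nat_lit 0)) (T.h (T.h (P (nat_lit 0)) (T.h (P (nat_lit 856239061351264157696)) (T.h (P (nat_lit 0)) (P (nat_lit 18868985238323200))))) (T.h (P (nat_lit 0)) (T.h (T.h (P (nat_lit 0)) (M (nat_lit 18543270365085695))) (P (nat_lit 0))))))) (T.h (T.h (P (nat_lit 0)) (T.h (T.h (P (nat_lit 16770020288298499683909632)) (T.h (P (nat_lit 0)) (T.h (P (nat_lit 6148453346429632512)) (T.h (P (nat_lit 0)) (P (nat_lit 17575024374576)))))) (T.h (P (nat_lit 0)) (T.h (T.h (M (nat_lit 24581911049941286911)) (T.h (P (nat_lit 0)) (M (nat_lit 43491366017423)))) (T.h (P (nat_lit 0)) (M (nat_lit 3743196082991))))))) (T.h (T.h (T.h (P (nat_lit 0)) (T.h (M (nat_lit 37608647712375417339903)) (T.h (P (nat_lit 0)) (M (nat_lit 15025593104400383))))) (T.h (P (nat_lit 0)) (T.h (T.h (P (nat_lit 0)) (M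 (nat_lit 11201544438792191))) (P (nat_lit 0))))) (T.h (T.h (P (nat_lit 0)) (T.h (T.h (M (nat_lit 54436003502392082431)) (T.h (P (nat_lit 0)) (M (nat_lit 157763501468927)))) (T.h (P (nat_lit 0)) (M (nat_lit 15746492039039))))) (T.h (T.h (T.h (P (nat_lit 0)) (P (nat_lit 288386959946383360))) (P (nat_lit 0))) (T.h (T.h (P (nat_lit 0)) (P (nat_lit 310329193881600))) (P (nat_lit 0))))))))]
def lP22_41 : List (T ℤ) := [(T.h (T.h (T.h (M (nat_lit 3388291302366962560366419116031)) (T.h (P (nat_lit 0)) (T.h (P (nat_lit 4983474547258667095293952)) (T.h (P (nat_lit 0)) (P (nat_lit 5571827366197460992)))))) (T.h (P (nat_lit 0)) (T.h (T.h (P (nat_lit 4983474547258667095293952)) (T.h (P (nat_lit 0)) (M (nat_lit 46072855600505552895)))) (T.h (P (nat_lit 0)) (P (nat_lit 5571827366197460992)))))) (T.h (T.h (P (nat_lit 0)) (T.h (T.h (P (nat_lit 0)) (T.h (P (nat_lit 130518322924367101558784)) (T.h (P (nat_lit 0)) (M (nat_lit 28954197942730751))))) (T.h (P (nat_lit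 0)) (T.h (T.h (P (nat_lit 0)) (M (nat_lit 28954197942730751))) (P (nat_lit 0)))))) (T.h (T.h (T.h (M (nat_lit 52973080057366503088979967)) (T.h (P (nat_lit 0)) (M (nat_lit 91053075213775273983)))) (T.h (P (nat_lit 0)) (M (nat_lit 91053075213775273983)))) (T.h (T.h (P (nat_lit 0)) (T.h (T.h (P (nat_lit 0)) (M (nat_lit 179461911432396799))) (P (nat_lit 0)))) (M (nat_lit 201408859984088793087)))))), (T.h (T.h (P (nat_lit 0)) (T.h (T.h (P (nat_lit 0)) (T.h (M (nat_lit 8121832179209592299847679)) (T.h (P (nat_lit 0)) (M (nat_lit 6818117037345210367))))) (T.h (P (nat_lit 0)) (T.h (T.h (P (nat_lit 0)) (P (nat_lit 18589109809936596992))) (P (nat_lit 0)))))) (T.h (T.h (T.h (P (nat_lit 5938840239767262457329876992)) (T.h (P (nat_lit 0)) (T.h (M (nat_lit 32448110580492473991167)) (T.h (P (nat_lit 0)) (P (nat_lit 14493620268662784)))))) (T.h (P (nat_lit 0)) (T.h (T.h (M (nat_lit 83505656668972851920895)) (T.h (P (nat_lit 0)) (P (nat_lit 99906550954229760))))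 (T.h (P (nat_lit 0)) (P (nat_lit 17569552337108992)))))) (T.h (T.h (P (nat_lit 0)) (T.h (T.h (P (nat_lit 0)) (M (nat_lit 9408689513531703295))) (P (nat_lit 0)))) (T.h (T.h (T.h (M (nat_lit 15260972577348049174527)) (T.h (P (nat_lit 0)) (P (nat_lit 176124080196288512)))) (T.h (P (nat_lit 0)) (M (nat_lit 112761797231247359)))) (T.h (P (nat_lit 0)) (M (nat_lit 68021766630866943))))))), (T.h (T.h (T.h (M (nat_lit 1526812637208704738452194721791)) (T.h (P (nat_lit 0)) (T.h (M (nat_lit 1566168659524124063825919)) (T.h (P (nat_lit 0)) (T.h (M (nat_lit 1257490112028082175)) (T.h (P (nat_lit 0)) (P (nat_lit 485082553536)))))))) (T.h (P (nat_lit 0)) (T.h (T.h (M (nat_lit 1566168659524124063825919)) (T.h (P (nat_lit 0)) (T.h (P (nat_lit 5272713814171713536)) (T.h (P (nat_lit 0)) (P (nat_lit 6479329439808)))))) (T.h (P (nat_lit 0)) (T.h (T.h (M (nat_lit 1257490112028082175)) (T.h (P (nat_lit 0)) (P (nat_lit 6479329439808)))) (T.h (P (nat_lit 0)) (P (nat_lit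 485082553536)))))))) (T.h (T.h (P (nat_lit 0)) (T.h (T.h (P (nat_lit 0)) (T.h (M (nat_lit 25949813201762300985343)) (T.h (P (nat_lit 0)) (M (nat_lit 16206316422561791))))) (T.h (P (nat_lit 0)) (T.h (T.h (P (nat_lit 0)) (M (nat_lit 16206316422561791))) (P (nat_lit 0)))))) (T.h (T.h (T.h (P (nat_lit 20864823599583554539880448)) (T.h (P (nat_lit 0)) (T.h (M (nat_lit 11962976014688059391)) (T.h (P (nat_lit 0)) (P (nat_lit 21823059736368)))))) (T.h (P (nat_lit 0)) (T.h (T.h (M (nat_lit 11962976014688059391)) (T.h (P (nat_lit 0)) (P (nat_lit 83465545105728)))) (T.h (P (nat_lit 0)) (P (nat_lit 21823059736368)))))) (T.h (T.h (P (nat_lit 0)) (T.h (T.h (P (nat_lit 0)) (M (nat_lit 150200156445474815))) (P (nat_lit 0)))) (T.h (T.h (T.h (P (nat_lit 6830011316166459392)) (T.h (P (nat_lit 0)) (P (nat_lit 17223692796864)))) (T.h (P (nat_lit 0)) (P (nat_lit 17223692796864)))) (T.h (P (nat_lit 0)) (M (nat_lit 18430719318143)))))))), (T.h (T.h (T.h (P (nat_lit 0))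 (T.h (M (nat_lit 1069719061105742419312246783)) (T.h (P (nat_lit 0)) (T.h (P (nat_lit 4810639926731932172288)) (T.h (P (nat_lit 0)) (P (nat_lit 189485684457472))))))) (T.h (P (nat_lit 0)) (T.h (T.h (P (nat_lit 0)) (T.h (P (nat_lit 167114983961662586880)) (T.h (P (nat_lit 0)) (P (nat_lit 3999072314753024))))) (T.h (P (nat_lit 0)) (T.h (T.h (P (nat_lit 0)) (M (nat_lit 6948109256065023))) (P (nat_lit 0))))))) (T.h (T.h (P (nat_lit 0)) (T.h (T.h (M (nat_lit 1761177201905144919228415)) (T.h (P (nat_lit 0)) (P (nat_lit 13635200529196908544)))) (T.h (P (nat_lit 0)) (M (nat_lit 1424453042811437055))))) (T.h (T.h (T.h (P (nat_lit 0)) (T.h (M (nat_lit 9039233065320873721855)) (T.h (P (nat_lit 0)) (M (nat_lit 9114228696940543))))) (T.h (P (nat_lit 0)) (T.h (T.h (P (nat_lit 0)) (P (nat_lit 69713786696892416))) (P (nat_lit 0))))) (T.h (T.h (P (nat_lit 0)) (M (nat_lit 159289274093619118079))) (T.h (T.h (T.h (P (nat_lit 0)) (M (nat_lit 360924354560393215))) (P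 (nat_lit 0))) (P (nat_lit 0))))))), (T.h (T.h (P (nat_lit 0)) (T.h (T.h (M (nat_lit 1069719061105742419312246783)) (T.h (P (nat_lit 0)) (T.h (P (nat_lit 167114983961662586880)) (T.h (P (nat_lit 0)) (M (nat_lit 6948109256065023)))))) (T.h (P (nat_lit 0)) (T.h (T.h (P (nat_lit 4810639926731932172288)) (T.h (P (nat_lit 0)) (P (nat_lit 3999072314753024)))) (T.h (P (nat_lit 0)) (P (nat_lit 189485684457472))))))) (T.h (T.h (T.h (P (nat_lit 0)) (T.h (M (nat_lit 1761177201905144919228415)) (T.h (P (nat_lit 0)) (M (nat_lit 1424453042811437055))))) (T.h (P (nat_lit 0)) (T.h (T.h (P (nat_lit 0)) (P (nat_lit 13635200529196908544))) (P (nat_lit 0))))) (T.h (T.h (P (nat_lit 0)) (T.h (T.h (M (nat_lit 9039233065320873721855)) (T.h (P (nat_lit 0)) (P (nat_lit 69713786696892416)))) (T.h (P (nat_lit 0)) (M (nat_lit 9114228696940543))))) (T.h (T.h (T.h (P (nat_lit 0)) (M (nat_lit 159289274093619118079))) (P (nat_lit 0))) (T.h (T.h (P (nat_lit 0)) (M (nat_lit 360924354560393215)))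 (P (nat_lit 0))))))), (T.h (T.h (P (nat_lit 0)) (T.h (T.h (P (nat_lit 0)) (T.h (P (nat_lit 2399690788163493904252928)) (T.h (P (nat_lit 0)) (P (nat_lit 822611858266521600))))) (T.h (P (nat_lit 0)) (T.h (T.h (P (nat_lit 0)) (P (nat_lit 822611858266521600))) (P (nat_lit 0)))))) (T.h (T.h (T.h (M (nat_lit 6946700081529947634800787455)) (T.h (P (nat_lit 0)) (T.h (P (nat_lit 2528644232359897464832)) (T.h (P (nat_lit 0)) (M (nat_lit 9931916964462591)))))) (T.h (P (nat_lit 0)) (T.h (T.h (P (nat_lit 2528644232359897464832)) (T.h (P (nat_lit 0)) (M (nat_lit 37986096972562431)))) (T.h (P (nat_lit 0)) (M (nat_lit 9931916964462591)))))) (T.h (T.h (P (nat_lit 0)) (T.h (T.h (P (nat_lit 0)) (M (nat_lit 24174887929991135231))) (P (nat_lit 0)))) (T.h (T.h (T.h (M (nat_lit 6537014371178130702335)) (T.h (P (nat_lit 0)) (M (nat_lit 15677387932434431)))) (T.h (P (nat_lit 0)) (M (nat_lit 15677387932434431)))) (T.h (P (nat_lit 0)) (P (nat_lit 25164075442372608)))))))]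

def CP22 : List (T ℤ) := lP22_0 ++ (lP22_1 ++ (lP22_2 ++ (lP22_3 ++ (lP22_4 ++ (lP22_5 ++ (lP22_6 ++ (lP22_7 ++ (lP22_8 ++ (lP22_9 ++ (lP22_10 ++ (lP22_11 ++ (lP22_12 ++ (lP22_13 ++ (lP22_14 ++ (lP22_15 ++ (lP22_16 ++ (lP22_17 ++ (lP22_18 ++ (lP22_19 ++ (lP22_20 ++ (lP22_21 ++ (lP22_22 ++ (lP22_23 ++ (lP22_24 ++ (lP22_25 ++ (lP22_26 ++ (lP22_27 ++ (lP22_28 ++ (lP22_29 ++ (lP22_30 ++ (lP22_31 ++ (lP22_32 ++ (lP22_33 ++ (lP22_34 ++ (lP22_35 ++ (lP22_36 ++ (lP22_37 ++ (lP22_38 ++ (lP22_39 ++ (lP22_40 ++ (lP22_41)))))))))))))))))))))))))))))))))))))))))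

/-- norms at radius 1536 -/
def NP22 : List ℕ := [(nat_lit 0), (nat_lit 4410501400340933843783516160000), (nat_lit 0), (nat_lit 0), (nat_lit 2751027194147596417254050871902208), (nat_lit 2919631678078281648770183635927040), (nat_lit 3699835453629209393582586653048832), (nat_lit 4474665409993961188770017645166592), (nat_lit 1179900458896524047471018407624704), (nat_lit 0), (nat_lit 0), (nat_lit 0), (nat_lit 3686711032164120860090037140717568), (nat_lit 7751988180053695272629066973315072), (nat_lit 9731916624803796350692896836419584), (nat_lit 10915902056765023560337884400582656), (nat_lit 4882080804122028056973939289620480), (nat_lit 0), (nat_lit 0), (nat_lit 0), (nat_lit 3164179008046073739188494751760384), (nat_lit 4251629315499708287403080533671936), (nat_lit 8584970541670606820824148418232320), (nat_lit 12665278915081336351341408241582080), (nat_lit 4877390115265699470167065485115392), (nat_lit 0), (nat_lit 0), (nat_lit 3164179008046073739188494751760384),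 (nat_lit 13990643954564281047612103040434176), (nat_lit 12091484264369085907824085372502016), (nat_lit 24437984887166330638999702487433216), (nat_lit 11797823836781131919374112205570048), (nat_lit 0), (nat_lit 0), (nat_lit 3686711032164120860090037140717568), (nat_lit 4251629315499708287403080533671936), (nat_lit 12091484264369085907824085372502016), (nat_lit 21260503527329198288352611559014400), (nat_lit 9655153493091300658344029979672576), (nat_lit 0), (nat_lit 0), (nat_lit 2751027194147596417254050871902208), (nat_lit 7751988180053695272629066973315072), (nat_lit 8584970541670606820824148418232320), (nat_lit 24437984887166330638999702487433216), (nat_lit 9655153493091300658344029979672576), (nat_lit 0), (nat_lit 0), (nat_lit 2919631678078281648770183635927040), (nat_lit 9731916624803796350692896836419584), (nat_lit 12665278915081336351341408241582080), (nat_lit 11797823836781131919374112205570048), (nat_lit 0), (nat_lit 0), (nat_lit 3699835453629209393582586653048832),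 (nat_lit 10915902056765023560337884400582656), (nat_lit 4877390115265699470167065485115392), (nat_lit 0), (nat_lit 0), (nat_lit 4474665409993961188770017645166592), (nat_lit 4882080804122028056973939289620480), (nat_lit 0), (nat_lit 0), (nat_lit 1179900458896524047471018407624704), (nat_lit 0), (nat_lit 0), (nat_lit 0), (nat_lit 0), (nat_lit 0), (nat_lit 6415750415751247026802313782099968), (nat_lit 7751988180053695272629066973315072), (nat_lit 7671268913349770690281509690015744), (nat_lit 10915902056765023560337884400582656), (nat_lit 4882080804122028056973939289620480), (nat_lit 0), (nat_lit 0), (nat_lit 16273788472564354366069867364220928), (nat_lit 10566108057898027055131773011755008), (nat_lit 22486591771227849227508628792016896), (nat_lit 20018357173566340707062004634877952), (nat_lit 5107568240768948553730650724630528), (nat_lit 0), (nat_lit 0), (nat_lit 27416249472063068734065304154406912), (nat_lit 23015786833063519900767466096164864), (nat_lit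 39212125995974983644097734865059840), (nat_lit 33297041505957528553104048062988288), (nat_lit 10137550684850219468597346321825792), (nat_lit 0), (nat_lit 0), (nat_lit 13483563049298091417996832530235392), (nat_lit 23015786833063519900767466096164864), (nat_lit 36286137450272747654935239465107456), (nat_lit 27785827627526189123212024416829440), (nat_lit 12941107221511953457874163820658688), (nat_lit 0), (nat_lit 0), (nat_lit 11515704174492484725962866560073728), (nat_lit 10566108057898027055131773011755008), (nat_lit 36986626071506849098811591148699648), (nat_lit 27785827627526189123212024416829440), (nat_lit 9028142197616287317498108951134208), (nat_lit 0), (nat_lit 2853093973034014292172111685353472), (nat_lit 7751988180053695272629066973315072), (nat_lit 34231574710786070944023135402328064), (nat_lit 33297041505957528553104048062988288), (nat_lit 12941107221511953457874163820658688), (nat_lit 0), (nat_lit 0), (nat_lit 11021393795041604743773814750445568),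 (nat_lit 20018357173566340707062004634877952), (nat_lit 10137550684850219468597346321825792), (nat_lit 0), (nat_lit 2128228162623424250497436923985920), (nat_lit 10915902056765023560337884400582656), (nat_lit 5107568240768948553730650724630528), (nat_lit 0), (nat_lit 0), (nat_lit 4882080804122028056973939289620480), (nat_lit 0), (nat_lit 0), (nat_lit 0), (nat_lit 4410501400340933843783516160000), (nat_lit 0), (nat_lit 0), (nat_lit 10589273578518307618933081009815552), (nat_lit 6290713174459397191403951253094400), (nat_lit 11993042497932988140623017185116160), (nat_lit 9499766302631035693071869660889088), (nat_lit 4294327681038242856217955077718016), (nat_lit 0), (nat_lit 0), (nat_lit 25893301008648568254954086319783936), (nat_lit 27004038068384617344866578392416256), (nat_lit 38803045557317591678306577605984256), (nat_lit 37169877042225813198691454725128192), (nat_lit 13306965444640261035598808566726656), (nat_lit 0), (nat_lit 0), (nat_lit 26080038467052214995157948620079104),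 (nat_lit 10959506823925672063170474726653952), (nat_lit 37299210050428538477454366678712320), (nat_lit 30786337247829905781013118487363584), (nat_lit 11749188725868237356381717246509056), (nat_lit 0), (nat_lit 0), (nat_lit 14451837548431020428431076018356224), (nat_lit 36383613915029458979019586944368640), (nat_lit 49849731466630101750866297323782144), (nat_lit 60022032917306295993572779616108544), (nat_lit 21005378375207920318418519190405120), (nat_lit 0), (nat_lit 11515704174492484725962866560073728), (nat_lit 5826198190663574362426785241497600), (nat_lit 36476800930327988194086169312493568), (nat_lit 43362689201843109637321475326214144), (nat_lit 13807726790818020441573469150248960), (nat_lit 2751027194147596417254050871902208), (nat_lit 7751988180053695272629066973315072), (nat_lit 25100244552499948183178757040766976), (nat_lit 49769947557664332430368503645601792), (nat_lit 16798947731169350018474083400810496), (nat_lit 2919631678078281648770183635927040),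 (nat_lit 11021393795041604743773814750445568), (nat_lit 17814934114930289953016906029989888), (nat_lit 15807807570940305294252721519460352), (nat_lit 3699835453629209393582586653048832), (nat_lit 10915902056765023560337884400582656), (nat_lit 5746609755232576663131884032622592), (nat_lit 4474665409993961188770017645166592), (nat_lit 4882080804122028056973939289620480), (nat_lit 1179900458896524047471018407624704), (nat_lit 0), (nat_lit 0), (nat_lit 7272939542008659655762673292804096), (nat_lit 17703091468919301769486003379109888), (nat_lit 19869246979663055859460496462708736), (nat_lit 32202265066493501811241624195301376), (nat_lit 16475643150962942312831827134382080), (nat_lit 0), (nat_lit 0), (nat_lit 46801838502579729670839301753012224), (nat_lit 28599479382524569596121038874214400), (nat_lit 49556480796579293990249971710951424), (nat_lit 12083867809037647453405302925295616), (nat_lit 9341453160311851017575404301975552), (nat_lit 0), (nat_lit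 0), (nat_lit 26080038467052214995157948620079104), (nat_lit 46031573666127039801534932192329728), (nat_lit 61252448426826164513958444901859328), (nat_lit 59824688353031924293164930057633792), (nat_lit 17201410105479006430739133401923584), (nat_lit 0), (nat_lit 13483563049298091417996832530235392), (nat_lit 36383613915029458979019586944368640), (nat_lit 50599249665192578289816303415853056), (nat_lit 66494287587801668013035079201718272), (nat_lit 49084730241132878698817326745124864), (nat_lit 3686711032164120860090037140717568), (nat_lit 10566108057898027055131773011755008), (nat_lit 36476800930327988194086169312493568), (nat_lit 49640296614801432890017079818715136), (nat_lit 15283544898865920353688987887468544), (nat_lit 7751988180053695272629066973315072), (nat_lit 34231574710786070944023135402328064), (nat_lit 49769947557664332430368503645601792), (nat_lit 24008582439716849018896819653967872), (nat_lit 9731916624803796350692896836419584), (nat_lit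 20018357173566340707062004634877952), (nat_lit 15807807570940305294252721519460352), (nat_lit 10915902056765023560337884400582656), (nat_lit 5107568240768948553730650724630528), (nat_lit 4882080804122028056973939289620480), (nat_lit 0), (nat_lit 0), (nat_lit 7272939542008659655762673292804096), (nat_lit 7624424002877070965552658914476032), (nat_lit 21088418921790856774601510416809984), (nat_lit 18068579808443329019436083177324544), (nat_lit 10550730464486495538467058512560128), (nat_lit 0), (nat_lit 0), (nat_lit 25893301008648568254954086319783936), (nat_lit 28599479382524569596121038874214400), (nat_lit 48679927932438999270550817168424960), (nat_lit 37359835435603911568926043482882048), (nat_lit 8341395150381929338803528753217536), (nat_lit 0), (nat_lit 27416249472063068734065304154406912), (nat_lit 10959506823925672063170474726653952), (nat_lit 61252448426826164513958444901859328), (nat_lit 52269523159504965456391924363558912), (nat_lit 17861254035807638069075811237888000),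 (nat_lit 3164179008046073739188494751760384), (nat_lit 23015786833063519900767466096164864), (nat_lit 49849731466630101750866297323782144), (nat_lit 66494287587801668013035079201718272), (nat_lit 20241320113901002528647234352840704), (nat_lit 4251629315499708287403080533671936), (nat_lit 36986626071506849098811591148699648), (nat_lit 43362689201843109637321475326214144), (nat_lit 15283544898865920353688987887468544), (nat_lit 8584970541670606820824148418232320), (nat_lit 33297041505957528553104048062988288), (nat_lit 16798947731169350018474083400810496), (nat_lit 12665278915081336351341408241582080), (nat_lit 10137550684850219468597346321825792), (nat_lit 4877390115265699470167065485115392), (nat_lit 0), (nat_lit 0), (nat_lit 10589273578518307618933081009815552), (nat_lit 17703091468919301769486003379109888), (nat_lit 21088418921790856774601510416809984), (nat_lit 32294037471328400101809824496353280), (nat_lit 13482968307722334191209169087889408),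 (nat_lit 0), (nat_lit 16273788472564354366069867364220928), (nat_lit 27004038068384617344866578392416256), (nat_lit 49556480796579293990249971710951424), (nat_lit 37359835435603911568926043482882048), (nat_lit 24028787300609518813740308524695552), (nat_lit 3164179008046073739188494751760384), (nat_lit 23015786833063519900767466096164864), (nat_lit 37299210050428538477454366678712320), (nat_lit 59824688353031924293164930057633792), (nat_lit 17861254035807638069075811237888000), (nat_lit 13990643954564281047612103040434176), (nat_lit 36286137450272747654935239465107456), (nat_lit 60022032917306295993572779616108544), (nat_lit 49084730241132878698817326745124864), (nat_lit 12091484264369085907824085372502016), (nat_lit 27785827627526189123212024416829440), (nat_lit 13807726790818020441573469150248960), (nat_lit 24437984887166330638999702487433216), (nat_lit 12941107221511953457874163820658688), (nat_lit 11797823836781131919374112205570048), (nat_lit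 0), (nat_lit 6415750415751247026802313782099968), (nat_lit 6290713174459397191403951253094400), (nat_lit 19869246979663055859460496462708736), (nat_lit 18068579808443329019436083177324544), (nat_lit 13482968307722334191209169087889408), (nat_lit 3686711032164120860090037140717568), (nat_lit 10566108057898027055131773011755008), (nat_lit 38803045557317591678306577605984256), (nat_lit 12083867809037647453405302925295616), (nat_lit 8341395150381929338803528753217536), (nat_lit 4251629315499708287403080533671936), (nat_lit 39212125995974983644097734865059840), (nat_lit 30786337247829905781013118487363584), (nat_lit 17201410105479006430739133401923584), (nat_lit 12091484264369085907824085372502016), (nat_lit 27785827627526189123212024416829440), (nat_lit 21005378375207920318418519190405120), (nat_lit 21260503527329198288352611559014400), (nat_lit 9028142197616287317498108951134208), (nat_lit 9655153493091300658344029979672576), (nat_lit 2751027194147596417254050871902208),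 (nat_lit 7751988180053695272629066973315072), (nat_lit 11993042497932988140623017185116160), (nat_lit 32202265066493501811241624195301376), (nat_lit 10550730464486495538467058512560128), (nat_lit 7751988180053695272629066973315072), (nat_lit 22486591771227849227508628792016896), (nat_lit 37169877042225813198691454725128192), (nat_lit 9341453160311851017575404301975552), (nat_lit 8584970541670606820824148418232320), (nat_lit 33297041505957528553104048062988288), (nat_lit 11749188725868237356381717246509056), (nat_lit 24437984887166330638999702487433216), (nat_lit 12941107221511953457874163820658688), (nat_lit 9655153493091300658344029979672576), (nat_lit 2919631678078281648770183635927040), (nat_lit 7671268913349770690281509690015744), (nat_lit 9499766302631035693071869660889088), (nat_lit 16475643150962942312831827134382080), (nat_lit 9731916624803796350692896836419584), (nat_lit 20018357173566340707062004634877952), (nat_lit 13306965444640261035598808566726656),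 (nat_lit 12665278915081336351341408241582080), (nat_lit 10137550684850219468597346321825792), (nat_lit 11797823836781131919374112205570048), (nat_lit 3699835453629209393582586653048832), (nat_lit 10915902056765023560337884400582656), (nat_lit 4294327681038242856217955077718016), (nat_lit 10915902056765023560337884400582656), (nat_lit 5107568240768948553730650724630528), (nat_lit 4877390115265699470167065485115392), (nat_lit 4474665409993961188770017645166592), (nat_lit 4882080804122028056973939289620480), (nat_lit 4882080804122028056973939289620480), (nat_lit 1179900458896524047471018407624704)]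


end Pool.Agent.TOPR.R61135
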