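import Pool.Agent.TOPR.R61135.Cert

set_option autoImplicit false
set_option linter.all false
set_option maxRecDepth 100000

namespace Pool.Agent.TOPR.R61135

open Helper10.PC hiding V3
open Helper80.CW.DL Pool.Agent.Helper6.TOP

def et0_0 : T ℤ := (T.h (T.h (T.h (T.h (T.h (P (nat_lit 12911928)) (T.h (P (nat_lit 0)) (T.h (M (nat_lit 1303148631)) (T.h (P (nat_lit 0)) (T.h (M (nat_lit 3913173139)) (T.h (P (nat_lit 0)) (P (nat_lit 98536653016)))))))) (T.h (P (nat_lit 0)) (T.h (T.h (P (nat_lit 7531627320)) (T.h (P (nat_lit 0)) (T.h (M (nat_lit 13672736003)) (T.h (P (nat_lit 0)) (P (nat_lit 3006319719180)))))) (T.h (P (nat_lit 0)) (T.h (T.h (P (nat_lit 59453791664)) (T.h (P (nat_lit 0)) (P (nat_lit 1632904085452)))) (T.h (P (nat_lit 0)) (M (nat_lit 2559823167359)))))))) (T.h (T.h (P (nat_lit 0)) (T.h (T.h (P (nat_lit 0)) (T.h (M (nat_lit 21313535895)) (T.h (P (nat_lit 0)) (M (nat_lit 92673185607)))))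 (T.h (P (nat_lit 0)) (T.h (T.h (P (nat_lit 0)) (P (nat_lit 1200779653080))) (P (nat_lit 0)))))) (T.h (T.h (T.h (M (nat_lit 1303148631)) (T.h (P (nat_lit 0)) (T.h (P (nat_lit 4846867096)) (T.h (P (nat_lit 0)) (P (nat_lit 482131375636)))))) (T.h (P (nat_lit 0)) (T.h (T.h (M (nat_lit 13672736003)) (T.h (P (nat_lit 0)) (P (nat_lit 11592436783600)))) (T.h (P (nat_lit 0)) (P (nat_lit 1632904085452)))))) (T.h (T.h (P (nat_lit 0)) (T.h (T.h (P (nat_lit 0)) (M (nat_lit 92673185607))) (P (nat_lit 0)))) (T.h (T.h (T.h (M (nat_lit 3913173139)) (T.h (P (nat_lit 0)) (P (nat_lit 482131375636)))) (T.h (P (nat_lit 0)) (P (nat_lit 3006319719180)))) (T.h (P (nat_lit 0)) (P (nat_lit 98536653016)))))))) (T.h (P (nat_lit 0)) (T.h (T.h (T.h (T.h (P (nat_lit 367863516)) (T.h (P (nat_lit 0)) (T.h (M (nat_lit 36667538135)) (T.h (P (nat_lit 0)) (T.h (P (nat_lit 126617465016)) (T.h (P (nat_lit 0)) (P (nat_lit 3095750410812))))))))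 (T.h (P (nat_lit 0)) (T.h (T.h (P (nat_lit 15901543908)) (T.h (P (nat_lit 0)) (T.h (M (nat_lit 3165813860435)) (T.h (P (nat_lit 0)) (P (nat_lit 7311745797372)))))) (T.h (P (nat_lit 0)) (T.h (T.h (M (nat_lit 186710387975)) (T.h (P (nat_lit 0)) (M (nat_lit 33923419865999)))) (T.h (P (nat_lit 0)) (P (nat_lit 475225614252)))))))) (T.h (T.h (P (nat_lit 0)) (T.h (T.h (P (nat_lit 0)) (T.h (M (nat_lit 145191851603)) (T.h (P (nat_lit 0)) (M (nat_lit 347704528175))))) (T.h (P (nat_lit 0)) (T.h (T.h (P (nat_lit 0)) (M (nat_lit 1839642626159))) (P (nat_lit 0)))))) (T.h (T.h (T.h (P (nat_lit 1463697684)) (T.h (P (nat_lit 0)) (T.h (M (nat_lit 106631297495)) (T.h (P (nat_lit 0)) (M (nat_lit 936880661771)))))) (T.h (P (nat_lit 0)) (T.h (T.h (M (nat_lit 1076605855199)) (T.h (P (nat_lit 0)) (P (nat_lit 38571045274476)))) (T.h (P (nat_lit 0)) (P (nat_lit 38513704551948)))))) (T.h (T.h (P (nat_lit 0)) (T.h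 (T.h (P (nat_lit 0)) (M (nat_lit 302302885751))) (P (nat_lit 0)))) (T.h (T.h (T.h (P (nat_lit 70862536944)) (T.h (P (nat_lit 0)) (P (nat_lit 10189507619016)))) (T.h (P (nat_lit 0)) (P (nat_lit 10158461446356)))) (T.h (P (nat_lit 0)) (M (nat_lit 565666078139)))))))) (P (nat_lit 0))))) (T.h (T.h (P (nat_lit 0)) (T.h (T.h (T.h (P (nat_lit 0)) (T.h (T.h (P (nat_lit 0)) (T.h (M (nat_lit 8623035251)) (T.h (P (nat_lit 0)) (T.h (P (nat_lit 287791718220)) (T.h (P (nat_lit 0)) (P (nat_lit 935799020748))))))) (T.h (P (nat_lit 0)) (T.h (T.h (P (nat_lit 0)) (T.h (M (nat_lit 252502154711)) (T.h (P (nat_lit 0)) (P (nat_lit 3936623009760))))) (T.h (P (nat_lit 0)) (T.h (T.h (P (nat_lit 0)) (M (nat_lit 77582298470399))) (P (nat_lit 0)))))))) (T.h (T.h (T.h (M (nat_lit 1609301771)) (T.h (P (nat_lit 0)) (T.h (P (nat_lit 7673201172)) (T.h (P (nat_lit 0)) (P (nat_lit 1333423079820)))))) (T.h (P (nat_lit 0)) (T.h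 (T.h (M (nat_lit 33260338403)) (T.h (P (nat_lit 0)) (P (nat_lit 1497660347664)))) (T.h (P (nat_lit 0)) (M (nat_lit 10140827320907)))))) (T.h (T.h (P (nat_lit 0)) (T.h (T.h (P (nat_lit 0)) (T.h (P (nat_lit 28392015204)) (T.h (P (nat_lit 0)) (P (nat_lit 10872841504356))))) (T.h (P (nat_lit 0)) (T.h (T.h (P (nat_lit 0)) (P (nat_lit 39440875367232))) (P (nat_lit 0)))))) (T.h (T.h (T.h (M (nat_lit 3706367903)) (T.h (P (nat_lit 0)) (M (nat_lit 763229306231)))) (T.h (P (nat_lit 0)) (M (nat_lit 301354886735)))) (T.h (T.h (P (nat_lit 0)) (T.h (T.h (P (nat_lit 0)) (M (nat_lit 4393756093643))) (P (nat_lit 0)))) (P (nat_lit 135155996928))))))) (P (nat_lit 0)))) (T.h (T.h (T.h (T.h (T.h (M (nat_lit 23241455)) (T.h (P (nat_lit 0)) (T.h (P (nat_lit 2223892512)) (T.h (P (nat_lit 0)) (T.h (P (nat_lit 6806597904)) (T.h (P (nat_lit 0)) (M (nat_lit 121270638383)))))))) (T.h (P (nat_lit 0)) (T.h (T.h (M (nat_lit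 13556929175)) (T.h (P (nat_lit 0)) (T.h (P (nat_lit 82792387152)) (T.h (P (nat_lit 0)) (M (nat_lit 5455764934091)))))) (T.h (P (nat_lit 0)) (T.h (T.h (M (nat_lit 107016838847)) (T.h (P (nat_lit 0)) (M (nat_lit 4305923199215)))) (T.h (P (nat_lit 0)) (P (nat_lit 4607679829536)))))))) (T.h (T.h (P (nat_lit 0)) (T.h (T.h (P (nat_lit 0)) (T.h (P (nat_lit 38364364296)) (T.h (P (nat_lit 0)) (P (nat_lit 220641694200))))) (T.h (P (nat_lit 0)) (T.h (T.h (P (nat_lit 0)) (M (nat_lit 2161403411327))) (P (nat_lit 0)))))) (T.h (T.h (T.h (P (nat_lit 2223892512)) (T.h (P (nat_lit 0)) (T.h (M (nat_lit 8724360671)) (T.h (P (nat_lit 0)) (M (nat_lit 1619832359951)))))) (T.h (P (nat_lit 0)) (T.h (T.h (P (nat_lit 82792387152)) (T.h (P (nat_lit 0)) (M (nat_lit 20866386276431)))) (T.h (P (nat_lit 0)) (M (nat_lit 4305923199215)))))) (T.h (T.h (P (nat_lit 0)) (T.h (T.h (P (nat_lit 0)) (P (nat_lit 220641694200))) (P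 (nat_lit 0)))) (T.h (T.h (T.h (P (nat_lit 6806597904)) (T.h (P (nat_lit 0)) (M (nat_lit 1619832359951)))) (T.h (P (nat_lit 0)) (M (nat_lit 5455764934091)))) (T.h (P (nat_lit 0)) (M (nat_lit 121270638383)))))))) (P (nat_lit 0))) (P (nat_lit 0)))))
def et0_1 : T ℤ := (T.h (T.h (P (nat_lit 0)) (T.h (P (nat_lit 0)) (T.h (T.h (T.h (T.h (M (nat_lit 145059871)) (T.h (P (nat_lit 0)) (T.h (P (nat_lit 12646789416)) (T.h (P (nat_lit 0)) (T.h (P (nat_lit 13050757848)) (T.h (P (nat_lit 0)) (M (nat_lit 1276702997615)))))))) (T.h (P (nat_lit 0)) (T.h (T.h (P (nat_lit 278844076)) (T.h (P (nat_lit 0)) (T.h (P (nat_lit 247132360104)) (T.h (P (nat_lit 0)) (P (nat_lit 8958546609816)))))) (T.h (P (nat_lit 0)) (T.h (T.h (M (nat_lit 572582162667)) (T.h (P (nat_lit 0)) (P (nat_lit 4780914474384)))) (T.h (P (nat_lit 0)) (M (nat_lit 8398807895027)))))))) (T.h (T.h (P (nat_lit 0)) (T.h (T.h (P (nat_lit 0)) (T.h (M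 (nat_lit 28439511831)) (T.h (P (nat_lit 0)) (M (nat_lit 159545156199))))) (T.h (P (nat_lit 0)) (T.h (T.h (P (nat_lit 0)) (M (nat_lit 2436042908715))) (P (nat_lit 0)))))) (T.h (T.h (T.h (M (nat_lit 1174638463)) (T.h (P (nat_lit 0)) (T.h (M (nat_lit 7588291315)) (T.h (P (nat_lit 0)) (P (nat_lit 583169384160)))))) (T.h (P (nat_lit 0)) (T.h (T.h (P (nat_lit 535161740848)) (T.h (P (nat_lit 0)) (P (nat_lit 5876987774872)))) (T.h (P (nat_lit 0)) (M (nat_lit 13013129777831)))))) (T.h (T.h (P (nat_lit 0)) (T.h (T.h (P (nat_lit 0)) (P (nat_lit 967651227500))) (P (nat_lit 0)))) (T.h (T.h (T.h (M (nat_lit 36769800823)) (T.h (P (nat_lit 0)) (M (nat_lit 970238430407)))) (T.h (P (nat_lit 0)) (P (nat_lit 1034020504512)))) (T.h (P (nat_lit 0)) (P (nat_lit 306519603284)))))))) (T.h (P (nat_lit 0)) (T.h (T.h (T.h (T.h (M (nat_lit 127743479)) (T.h (P (nat_lit 0)) (T.h (P (nat_lit 9454555656)) (T.h (P (nat_lit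 0)) (T.h (P (nat_lit 2414959226064)) (T.h (P (nat_lit 0)) (P (nat_lit 30950383917672)))))))) (T.h (P (nat_lit 0)) (T.h (T.h (P (nat_lit 9454555656)) (T.h (P (nat_lit 0)) (T.h (P (nat_lit 5969931469632)) (T.h (P (nat_lit 0)) (M (nat_lit 2100754617983)))))) (T.h (P (nat_lit 0)) (T.h (T.h (P (nat_lit 2414959226064)) (T.h (P (nat_lit 0)) (M (nat_lit 2100754617983)))) (T.h (P (nat_lit 0)) (P (nat_lit 30950383917672)))))))) (T.h (T.h (P (nat_lit 0)) (T.h (T.h (P (nat_lit 0)) (T.h (P (nat_lit 511491501792)) (T.h (P (nat_lit 0)) (P (nat_lit 16012299833136))))) (T.h (P (nat_lit 0)) (T.h (T.h (P (nat_lit 0)) (P (nat_lit 16012299833136))) (P (nat_lit 0)))))) (T.h (T.h (T.h (M (nat_lit 725895791)) (T.h (P (nat_lit 0)) (T.h (P (nat_lit 206807742612)) (T.h (P (nat_lit 0)) (M (nat_lit 10430555394347)))))) (T.h (P (nat_lit 0)) (T.h (T.h (P (nat_lit 206807742612)) (T.h (P (nat_lit 0)) (M (nat_lit 82609559838431))))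 (T.h (P (nat_lit 0)) (M (nat_lit 10430555394347)))))) (T.h (T.h (P (nat_lit 0)) (T.h (T.h (P (nat_lit 0)) (M (nat_lit 8499828452543))) (P (nat_lit 0)))) (T.h (T.h (T.h (M (nat_lit 35508317831)) (T.h (P (nat_lit 0)) (M (nat_lit 12940678472507)))) (T.h (P (nat_lit 0)) (M (nat_lit 12940678472507)))) (T.h (P (nat_lit 0)) (P (nat_lit 595076286456)))))))) (P (nat_lit 0))))))) (T.h (T.h (P (nat_lit 0)) (T.h (T.h (T.h (P (nat_lit 0)) (T.h (T.h (P (nat_lit 0)) (T.h (M (nat_lit 4713459787)) (T.h (P (nat_lit 0)) (T.h (M (nat_lit 24013556547)) (T.h (P (nat_lit 0)) (P (nat_lit 542784702264))))))) (T.h (P (nat_lit 0)) (T.h (T.h (P (nat_lit 0)) (T.h (P (nat_lit 527549677104)) (T.h (P (nat_lit 0)) (M (nat_lit 4958715993027))))) (T.h (P (nat_lit 0)) (T.h (T.h (P (nat_lit 0)) (P (nat_lit 83985497336616))) (P (nat_lit 0)))))))) (T.h (T.h (T.h (P (nat_lit 727247928)) (T.h (P (nat_lit 0)) (T.h (P (nat_lit 5939962672))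 (T.h (P (nat_lit 0)) (M (nat_lit 200169002739)))))) (T.h (P (nat_lit 0)) (T.h (T.h (M (nat_lit 14383985407)) (T.h (P (nat_lit 0)) (P (nat_lit 199028128140)))) (T.h (P (nat_lit 0)) (P (nat_lit 8165716579480)))))) (T.h (T.h (P (nat_lit 0)) (T.h (T.h (P (nat_lit 0)) (T.h (M (nat_lit 15375279075)) (T.h (P (nat_lit 0)) (M (nat_lit 1932997777983))))) (T.h (P (nat_lit 0)) (T.h (T.h (P (nat_lit 0)) (M (nat_lit 4822794107379))) (P (nat_lit 0)))))) (T.h (T.h (T.h (P (nat_lit 2270840144)) (T.h (P (nat_lit 0)) (P (nat_lit 67610077272)))) (T.h (P (nat_lit 0)) (M (nat_lit 74378973175)))) (T.h (T.h (P (nat_lit 0)) (T.h (T.h (P (nat_lit 0)) (P (nat_lit 1597860901704))) (P (nat_lit 0)))) (M (nat_lit 66197208039))))))) (T.h (P (nat_lit 0)) (T.h (T.h (T.h (P (nat_lit 0)) (T.h (T.h (P (nat_lit 0)) (T.h (M (nat_lit 866176523)) (T.h (P (nat_lit 0)) (T.h (P (nat_lit 617700170592)) (T.h (P (nat_lit 0)) (P (nat_lit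 38371079794356))))))) (T.h (P (nat_lit 0)) (T.h (T.h (P (nat_lit 0)) (T.h (M (nat_lit 5251042195199)) (T.h (P (nat_lit 0)) (M (nat_lit 89229896893403))))) (T.h (P (nat_lit 0)) (T.h (T.h (P (nat_lit 0)) (M (nat_lit 104524988496551))) (P (nat_lit 0)))))))) (T.h (T.h (T.h (P (nat_lit 974420136)) (T.h (P (nat_lit 0)) (T.h (P (nat_lit 2996216820)) (T.h (P (nat_lit 0)) (P (nat_lit 745302185532)))))) (T.h (P (nat_lit 0)) (T.h (T.h (M (nat_lit 21703294943)) (T.h (P (nat_lit 0)) (P (nat_lit 4240528819632)))) (T.h (P (nat_lit 0)) (M (nat_lit 13075078089815)))))) (T.h (T.h (P (nat_lit 0)) (T.h (T.h (P (nat_lit 0)) (T.h (M (nat_lit 83695695803)) (T.h (P (nat_lit 0)) (M (nat_lit 39363687414575))))) (T.h (P (nat_lit 0)) (T.h (T.h (P (nat_lit 0)) (P (nat_lit 27915964147800))) (P (nat_lit 0)))))) (T.h (T.h (T.h (P (nat_lit 738149004)) (T.h (P (nat_lit 0)) (P (nat_lit 169969095792)))) (T.h (P (nat_lit 0))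 (P (nat_lit 1686447113832)))) (T.h (T.h (P (nat_lit 0)) (T.h (T.h (P (nat_lit 0)) (P (nat_lit 58879398716352))) (P (nat_lit 0)))) (M (nat_lit 205207489763))))))) (P (nat_lit 0)))))) et0_0))
def et0_2 : T ℤ := (T.h (T.h (P (nat_lit 0)) (T.h (P (nat_lit 0)) (T.h (P (nat_lit 0)) (T.h (P (nat_lit 0)) (T.h (T.h (T.h (T.h (M (nat_lit 145059871)) (T.h (P (nat_lit 0)) (T.h (P (nat_lit 278844076)) (T.h (P (nat_lit 0)) (T.h (M (nat_lit 572582162667)) (T.h (P (nat_lit 0)) (M (nat_lit 8398807895027)))))))) (T.h (P (nat_lit 0)) (T.h (T.h (P (nat_lit 12646789416)) (T.h (P (nat_lit 0)) (T.h (P (nat_lit 247132360104)) (T.h (P (nat_lit 0)) (P (nat_lit 4780914474384)))))) (T.h (P (nat_lit 0)) (T.h (T.h (P (nat_lit 13050757848)) (T.h (P (nat_lit 0)) (P (nat_lit 8958546609816)))) (T.h (P (nat_lit 0)) (M (nat_lit 1276702997615)))))))) (T.h (T.h (P (nat_lit 0)) (T.h (T.h (P (nat_lit 0)) (T.h (M (nat_lit 28439511831))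 (T.h (P (nat_lit 0)) (M (nat_lit 2436042908715))))) (T.h (P (nat_lit 0)) (T.h (T.h (P (nat_lit 0)) (M (nat_lit 159545156199))) (P (nat_lit 0)))))) (T.h (T.h (T.h (M (nat_lit 1174638463)) (T.h (P (nat_lit 0)) (T.h (P (nat_lit 535161740848)) (T.h (P (nat_lit 0)) (M (nat_lit 13013129777831)))))) (T.h (P (nat_lit 0)) (T.h (T.h (M (nat_lit 7588291315)) (T.h (P (nat_lit 0)) (P (nat_lit 5876987774872)))) (T.h (P (nat_lit 0)) (P (nat_lit 583169384160)))))) (T.h (T.h (P (nat_lit 0)) (T.h (T.h (P (nat_lit 0)) (P (nat_lit 967651227500))) (P (nat_lit 0)))) (T.h (T.h (T.h (M (nat_lit 36769800823)) (T.h (P (nat_lit 0)) (P (nat_lit 1034020504512)))) (T.h (P (nat_lit 0)) (M (nat_lit 970238430407)))) (T.h (P (nat_lit 0)) (P (nat_lit 306519603284)))))))) (T.h (P (nat_lit 0)) (T.h (T.h (T.h (T.h (P (nat_lit 367863516)) (T.h (P (nat_lit 0)) (T.h (P (nat_lit 15901543908)) (T.h (P (nat_lit 0)) (T.h (M (nat_lit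 186710387975)) (T.h (P (nat_lit 0)) (P (nat_lit 475225614252)))))))) (T.h (P (nat_lit 0)) (T.h (T.h (M (nat_lit 36667538135)) (T.h (P (nat_lit 0)) (T.h (M (nat_lit 3165813860435)) (T.h (P (nat_lit 0)) (M (nat_lit 33923419865999)))))) (T.h (P (nat_lit 0)) (T.h (T.h (P (nat_lit 126617465016)) (T.h (P (nat_lit 0)) (P (nat_lit 7311745797372)))) (T.h (P (nat_lit 0)) (P (nat_lit 3095750410812)))))))) (T.h (T.h (P (nat_lit 0)) (T.h (T.h (P (nat_lit 0)) (T.h (M (nat_lit 145191851603)) (T.h (P (nat_lit 0)) (M (nat_lit 1839642626159))))) (T.h (P (nat_lit 0)) (T.h (T.h (P (nat_lit 0)) (M (nat_lit 347704528175))) (P (nat_lit 0)))))) (T.h (T.h (T.h (P (nat_lit 1463697684)) (T.h (P (nat_lit 0)) (T.h (M (nat_lit 1076605855199)) (T.h (P (nat_lit 0)) (P (nat_lit 38513704551948)))))) (T.h (P (nat_lit 0)) (T.h (T.h (M (nat_lit 106631297495)) (T.h (P (nat_lit 0)) (P (nat_lit 38571045274476)))) (T.h (P (nat_lit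 0)) (M (nat_lit 936880661771)))))) (T.h (T.h (P (nat_lit 0)) (T.h (T.h (P (nat_lit 0)) (M (nat_lit 302302885751))) (P (nat_lit 0)))) (T.h (T.h (T.h (P (nat_lit 70862536944)) (T.h (P (nat_lit 0)) (P (nat_lit 10158461446356)))) (T.h (P (nat_lit 0)) (P (nat_lit 10189507619016)))) (T.h (P (nat_lit 0)) (M (nat_lit 565666078139)))))))) (P (nat_lit 0))))))))) (T.h (T.h (P (nat_lit 0)) (T.h (P (nat_lit 0)) (T.h (P (nat_lit 0)) (T.h (T.h (T.h (P (nat_lit 0)) (T.h (T.h (P (nat_lit 0)) (T.h (P (nat_lit 28677144144)) (T.h (P (nat_lit 0)) (T.h (P (nat_lit 950964428536)) (T.h (P (nat_lit 0)) (M (nat_lit 4128470483571))))))) (T.h (P (nat_lit 0)) (T.h (T.h (P (nat_lit 0)) (T.h (P (nat_lit 950964428536)) (T.h (P (nat_lit 0)) (P (nat_lit 99944669424280))))) (T.h (P (nat_lit 0)) (T.h (T.h (P (nat_lit 0)) (M (nat_lit 4128470483571))) (P (nat_lit 0)))))))) (T.h (T.h (T.h (M (nat_lit 380585183)) (T.h (P (nat_lit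 0)) (T.h (P (nat_lit 34090970220)) (T.h (P (nat_lit 0)) (M (nat_lit 943217552495)))))) (T.h (P (nat_lit 0)) (T.h (T.h (P (nat_lit 34090970220)) (T.h (P (nat_lit 0)) (M (nat_lit 8161483779263)))) (T.h (P (nat_lit 0)) (M (nat_lit 943217552495)))))) (T.h (T.h (P (nat_lit 0)) (T.h (T.h (P (nat_lit 0)) (T.h (M (nat_lit 55620779983)) (T.h (P (nat_lit 0)) (M (nat_lit 12007560181619))))) (T.h (P (nat_lit 0)) (T.h (T.h (P (nat_lit 0)) (M (nat_lit 12007560181619))) (P (nat_lit 0)))))) (T.h (T.h (T.h (P (nat_lit 205073024)) (T.h (P (nat_lit 0)) (M (nat_lit 1150946715995)))) (T.h (P (nat_lit 0)) (M (nat_lit 1150946715995)))) (T.h (T.h (P (nat_lit 0)) (T.h (T.h (P (nat_lit 0)) (M (nat_lit 47807690468903))) (P (nat_lit 0)))) (P (nat_lit 130283699624))))))) (T.h (P (nat_lit 0)) (T.h (T.h (T.h (P (nat_lit 0)) (T.h (T.h (P (nat_lit 0)) (T.h (M (nat_lit 866176523)) (T.h (P (nat_lit 0)) (T.h (M (nat_lit 5251042195199))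 (T.h (P (nat_lit 0)) (M (nat_lit 104524988496551))))))) (T.h (P (nat_lit 0)) (T.h (T.h (P (nat_lit 0)) (T.h (P (nat_lit 617700170592)) (T.h (P (nat_lit 0)) (M (nat_lit 89229896893403))))) (T.h (P (nat_lit 0)) (T.h (T.h (P (nat_lit 0)) (P (nat_lit 38371079794356))) (P (nat_lit 0)))))))) (T.h (T.h (T.h (P (nat_lit 974420136)) (T.h (P (nat_lit 0)) (T.h (M (nat_lit 21703294943)) (T.h (P (nat_lit 0)) (M (nat_lit 13075078089815)))))) (T.h (P (nat_lit 0)) (T.h (T.h (P (nat_lit 2996216820)) (T.h (P (nat_lit 0)) (P (nat_lit 4240528819632)))) (T.h (P (nat_lit 0)) (P (nat_lit 745302185532)))))) (T.h (T.h (P (nat_lit 0)) (T.h (T.h (P (nat_lit 0)) (T.h (M (nat_lit 83695695803)) (T.h (P (nat_lit 0)) (P (nat_lit 27915964147800))))) (T.h (P (nat_lit 0)) (T.h (T.h (P (nat_lit 0)) (M (nat_lit 39363687414575))) (P (nat_lit 0)))))) (T.h (T.h (T.h (P (nat_lit 738149004)) (T.h (P (nat_lit 0)) (P (nat_lit 1686447113832))))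 (T.h (P (nat_lit 0)) (P (nat_lit 169969095792)))) (T.h (T.h (P (nat_lit 0)) (T.h (T.h (P (nat_lit 0)) (P (nat_lit 58879398716352))) (P (nat_lit 0)))) (M (nat_lit 205207489763))))))) (P (nat_lit 0)))))))) et0_1))
def et0_3 : T ℤ := (T.h (T.h (P (nat_lit 0)) (T.h (P (nat_lit 0)) (T.h (P (nat_lit 0)) (T.h (P (nat_lit 0)) (T.h (P (nat_lit 0)) (T.h (P (nat_lit 0)) (T.h (T.h (T.h (T.h (P (nat_lit 12911928)) (T.h (P (nat_lit 0)) (T.h (P (nat_lit 7531627320)) (T.h (P (nat_lit 0)) (T.h (P (nat_lit 59453791664)) (T.h (P (nat_lit 0)) (M (nat_lit 2559823167359)))))))) (T.h (P (nat_lit 0)) (T.h (T.h (M (nat_lit 1303148631)) (T.h (P (nat_lit 0)) (T.h (M (nat_lit 13672736003)) (T.h (P (nat_lit 0)) (P (nat_lit 1632904085452)))))) (T.h (P (nat_lit 0)) (T.h (T.h (M (nat_lit 3913173139)) (T.h (P (nat_lit 0)) (P (nat_lit 3006319719180)))) (T.h (P (nat_lit 0)) (P (nat_lit 98536653016)))))))) (T.h (T.h (P (nat_lit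 0)) (T.h (T.h (P (nat_lit 0)) (T.h (M (nat_lit 21313535895)) (T.h (P (nat_lit 0)) (P (nat_lit 1200779653080))))) (T.h (P (nat_lit 0)) (T.h (T.h (P (nat_lit 0)) (M (nat_lit 92673185607))) (P (nat_lit 0)))))) (T.h (T.h (T.h (M (nat_lit 1303148631)) (T.h (P (nat_lit 0)) (T.h (M (nat_lit 13672736003)) (T.h (P (nat_lit 0)) (P (nat_lit 1632904085452)))))) (T.h (P (nat_lit 0)) (T.h (T.h (P (nat_lit 4846867096)) (T.h (P (nat_lit 0)) (P (nat_lit 11592436783600)))) (T.h (P (nat_lit 0)) (P (nat_lit 482131375636)))))) (T.h (T.h (P (nat_lit 0)) (T.h (T.h (P (nat_lit 0)) (M (nat_lit 92673185607))) (P (nat_lit 0)))) (T.h (T.h (T.h (M (nat_lit 3913173139)) (T.h (P (nat_lit 0)) (P (nat_lit 3006319719180)))) (T.h (P (nat_lit 0)) (P (nat_lit 482131375636)))) (T.h (P (nat_lit 0)) (P (nat_lit 98536653016)))))))) (T.h (P (nat_lit 0)) (T.h (T.h (T.h (T.h (M (nat_lit 23241455)) (T.h (P (nat_lit 0)) (T.h (M (nat_lit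 13556929175)) (T.h (P (nat_lit 0)) (T.h (M (nat_lit 107016838847)) (T.h (P (nat_lit 0)) (P (nat_lit 4607679829536)))))))) (T.h (P (nat_lit 0)) (T.h (T.h (P (nat_lit 2223892512)) (T.h (P (nat_lit 0)) (T.h (P (nat_lit 82792387152)) (T.h (P (nat_lit 0)) (M (nat_lit 4305923199215)))))) (T.h (P (nat_lit 0)) (T.h (T.h (P (nat_lit 6806597904)) (T.h (P (nat_lit 0)) (M (nat_lit 5455764934091)))) (T.h (P (nat_lit 0)) (M (nat_lit 121270638383)))))))) (T.h (T.h (P (nat_lit 0)) (T.h (T.h (P (nat_lit 0)) (T.h (P (nat_lit 38364364296)) (T.h (P (nat_lit 0)) (M (nat_lit 2161403411327))))) (T.h (P (nat_lit 0)) (T.h (T.h (P (nat_lit 0)) (P (nat_lit 220641694200))) (P (nat_lit 0)))))) (T.h (T.h (T.h (P (nat_lit 2223892512)) (T.h (P (nat_lit 0)) (T.h (P (nat_lit 82792387152)) (T.h (P (nat_lit 0)) (M (nat_lit 4305923199215)))))) (T.h (P (nat_lit 0)) (T.h (T.h (M (nat_lit 8724360671)) (T.h (P (nat_lit 0)) (M (nat_lit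 20866386276431)))) (T.h (P (nat_lit 0)) (M (nat_lit 1619832359951)))))) (T.h (T.h (P (nat_lit 0)) (T.h (T.h (P (nat_lit 0)) (P (nat_lit 220641694200))) (P (nat_lit 0)))) (T.h (T.h (T.h (P (nat_lit 6806597904)) (T.h (P (nat_lit 0)) (M (nat_lit 5455764934091)))) (T.h (P (nat_lit 0)) (M (nat_lit 1619832359951)))) (T.h (P (nat_lit 0)) (M (nat_lit 121270638383)))))))) (P (nat_lit 0))))))))))) (T.h (T.h (P (nat_lit 0)) (T.h (P (nat_lit 0)) (T.h (P (nat_lit 0)) (T.h (P (nat_lit 0)) (T.h (P (nat_lit 0)) (T.h (T.h (T.h (P (nat_lit 0)) (T.h (T.h (P (nat_lit 0)) (T.h (M (nat_lit 4713459787)) (T.h (P (nat_lit 0)) (T.h (P (nat_lit 527549677104)) (T.h (P (nat_lit 0)) (P (nat_lit 83985497336616))))))) (T.h (P (nat_lit 0)) (T.h (T.h (P (nat_lit 0)) (T.h (M (nat_lit 24013556547)) (T.h (P (nat_lit 0)) (M (nat_lit 4958715993027))))) (T.h (P (nat_lit 0)) (T.h (T.h (P (nat_lit 0)) (P (nat_lit 542784702264)))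 (P (nat_lit 0)))))))) (T.h (T.h (T.h (P (nat_lit 727247928)) (T.h (P (nat_lit 0)) (T.h (M (nat_lit 14383985407)) (T.h (P (nat_lit 0)) (P (nat_lit 8165716579480)))))) (T.h (P (nat_lit 0)) (T.h (T.h (P (nat_lit 5939962672)) (T.h (P (nat_lit 0)) (P (nat_lit 199028128140)))) (T.h (P (nat_lit 0)) (M (nat_lit 200169002739)))))) (T.h (T.h (P (nat_lit 0)) (T.h (T.h (P (nat_lit 0)) (T.h (M (nat_lit 15375279075)) (T.h (P (nat_lit 0)) (M (nat_lit 4822794107379))))) (T.h (P (nat_lit 0)) (T.h (T.h (P (nat_lit 0)) (M (nat_lit 1932997777983))) (P (nat_lit 0)))))) (T.h (T.h (T.h (P (nat_lit 2270840144)) (T.h (P (nat_lit 0)) (M (nat_lit 74378973175)))) (T.h (P (nat_lit 0)) (P (nat_lit 67610077272)))) (T.h (T.h (P (nat_lit 0)) (T.h (T.h (P (nat_lit 0)) (P (nat_lit 1597860901704))) (P (nat_lit 0)))) (M (nat_lit 66197208039))))))) (T.h (P (nat_lit 0)) (T.h (T.h (T.h (P (nat_lit 0)) (T.h (T.h (P (nat_lit 0))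 (T.h (M (nat_lit 8623035251)) (T.h (P (nat_lit 0)) (T.h (M (nat_lit 252502154711)) (T.h (P (nat_lit 0)) (M (nat_lit 77582298470399))))))) (T.h (P (nat_lit 0)) (T.h (T.h (P (nat_lit 0)) (T.h (P (nat_lit 287791718220)) (T.h (P (nat_lit 0)) (P (nat_lit 3936623009760))))) (T.h (P (nat_lit 0)) (T.h (T.h (P (nat_lit 0)) (P (nat_lit 935799020748))) (P (nat_lit 0)))))))) (T.h (T.h (T.h (M (nat_lit 1609301771)) (T.h (P (nat_lit 0)) (T.h (M (nat_lit 33260338403)) (T.h (P (nat_lit 0)) (M (nat_lit 10140827320907)))))) (T.h (P (nat_lit 0)) (T.h (T.h (P (nat_lit 7673201172)) (T.h (P (nat_lit 0)) (P (nat_lit 1497660347664)))) (T.h (P (nat_lit 0)) (P (nat_lit 1333423079820)))))) (T.h (T.h (P (nat_lit 0)) (T.h (T.h (P (nat_lit 0)) (T.h (P (nat_lit 28392015204)) (T.h (P (nat_lit 0)) (P (nat_lit 39440875367232))))) (T.h (P (nat_lit 0)) (T.h (T.h (P (nat_lit 0)) (P (nat_lit 10872841504356))) (P (nat_lit 0))))))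 (T.h (T.h (T.h (M (nat_lit 3706367903)) (T.h (P (nat_lit 0)) (M (nat_lit 301354886735)))) (T.h (P (nat_lit 0)) (M (nat_lit 763229306231)))) (T.h (T.h (P (nat_lit 0)) (T.h (T.h (P (nat_lit 0)) (M (nat_lit 4393756093643))) (P (nat_lit 0)))) (P (nat_lit 135155996928))))))) (P (nat_lit 0)))))))))) et0_2))
def et0_4 : T ℤ := (T.h (T.h (T.h (T.h (T.h (P (nat_lit 0)) (T.h (P (nat_lit 727247928)) (T.h (P (nat_lit 0)) (T.h (P (nat_lit 2270840144)) (T.h (P (nat_lit 0)) (M (nat_lit 66197208039))))))) (T.h (P (nat_lit 0)) (T.h (T.h (P (nat_lit 0)) (T.h (M (nat_lit 14383985407)) (T.h (P (nat_lit 0)) (M (nat_lit 74378973175))))) (T.h (P (nat_lit 0)) (T.h (T.h (P (nat_lit 0)) (P (nat_lit 8165716579480))) (P (nat_lit 0))))))) (T.h (T.h (P (nat_lit 0)) (T.h (T.h (M (nat_lit 4713459787)) (T.h (P (nat_lit 0)) (T.h (M (nat_lit 15375279075)) (T.h (P (nat_lit 0)) (P (nat_lit 1597860901704)))))) (T.h (P (nat_lit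 0)) (T.h (T.h (P (nat_lit 527549677104)) (T.h (P (nat_lit 0)) (M (nat_lit 4822794107379)))) (T.h (P (nat_lit 0)) (P (nat_lit 83985497336616))))))) (T.h (T.h (T.h (P (nat_lit 0)) (T.h (P (nat_lit 5939962672)) (T.h (P (nat_lit 0)) (P (nat_lit 67610077272))))) (T.h (P (nat_lit 0)) (T.h (T.h (P (nat_lit 0)) (P (nat_lit 199028128140))) (P (nat_lit 0))))) (T.h (T.h (P (nat_lit 0)) (T.h (T.h (M (nat_lit 24013556547)) (T.h (P (nat_lit 0)) (M (nat_lit 1932997777983)))) (T.h (P (nat_lit 0)) (M (nat_lit 4958715993027))))) (T.h (T.h (T.h (P (nat_lit 0)) (M (nat_lit 200169002739))) (P (nat_lit 0))) (T.h (T.h (P (nat_lit 0)) (P (nat_lit 542784702264))) (P (nat_lit 0)))))))) (T.h (P (nat_lit 0)) (T.h (T.h (T.h (T.h (P (nat_lit 0)) (T.h (P (nat_lit 3251302704)) (T.h (P (nat_lit 0)) (T.h (M (nat_lit 971363519)) (T.h (P (nat_lit 0)) (M (nat_lit 515480613263))))))) (T.h (P (nat_lit 0)) (T.h (T.h (P (nat_lit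 0)) (T.h (P (nat_lit 113641067304)) (T.h (P (nat_lit 0)) (P (nat_lit 51096007737936))))) (T.h (P (nat_lit 0)) (T.h (T.h (P (nat_lit 0)) (M (nat_lit 14981857269839))) (P (nat_lit 0))))))) (T.h (T.h (P (nat_lit 0)) (T.h (T.h (M (nat_lit 26272006595)) (T.h (P (nat_lit 0)) (T.h (M (nat_lit 1525095631583)) (T.h (P (nat_lit 0)) (P (nat_lit 53225593571052)))))) (T.h (P (nat_lit 0)) (T.h (T.h (P (nat_lit 4097449837440)) (T.h (P (nat_lit 0)) (M (nat_lit 120174026721299)))) (T.h (P (nat_lit 0)) (M (nat_lit 22092227591795))))))) (T.h (T.h (T.h (P (nat_lit 0)) (T.h (P (nat_lit 147199092192)) (T.h (P (nat_lit 0)) (P (nat_lit 2422940086440))))) (T.h (P (nat_lit 0)) (T.h (T.h (P (nat_lit 0)) (M (nat_lit 9575825675039))) (P (nat_lit 0))))) (T.h (T.h (P (nat_lit 0)) (T.h (T.h (P (nat_lit 151093377576)) (T.h (P (nat_lit 0)) (M (nat_lit 33850163526803)))) (T.h (P (nat_lit 0)) (P (nat_lit 10077218385264)))))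 (T.h (T.h (T.h (P (nat_lit 0)) (M (nat_lit 465691554791))) (P (nat_lit 0))) (T.h (T.h (P (nat_lit 0)) (M (nat_lit 1522639424339))) (P (nat_lit 0)))))))) (P (nat_lit 0))))) (T.h (T.h (P (nat_lit 0)) (T.h (T.h (T.h (P (nat_lit 0)) (T.h (T.h (M (nat_lit 10140119)) (T.h (P (nat_lit 0)) (T.h (P (nat_lit 83117764404)) (T.h (P (nat_lit 0)) (M (nat_lit 514722505355)))))) (T.h (P (nat_lit 0)) (T.h (T.h (M (nat_lit 260123720255)) (T.h (P (nat_lit 0)) (M (nat_lit 8338644534887)))) (T.h (P (nat_lit 0)) (M (nat_lit 6748082270207))))))) (T.h (T.h (T.h (P (nat_lit 0)) (T.h (P (nat_lit 12405923424)) (T.h (P (nat_lit 0)) (T.h (P (nat_lit 332036269128)) (T.h (P (nat_lit 0)) (M (nat_lit 6400866618791))))))) (T.h (P (nat_lit 0)) (T.h (T.h (P (nat_lit 0)) (T.h (P (nat_lit 4216622004216)) (T.h (P (nat_lit 0)) (M (nat_lit 17990345276819))))) (T.h (P (nat_lit 0)) (T.h (T.h (P (nat_lit 0)) (M (nat_lit 88731561490631)))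 (P (nat_lit 0))))))) (T.h (T.h (P (nat_lit 0)) (T.h (T.h (P (nat_lit 83117764404)) (T.h (P (nat_lit 0)) (M (nat_lit 7778327025959)))) (T.h (P (nat_lit 0)) (M (nat_lit 8338644534887))))) (T.h (T.h (T.h (P (nat_lit 0)) (T.h (P (nat_lit 332036269128)) (T.h (P (nat_lit 0)) (P (nat_lit 21453562773072))))) (T.h (P (nat_lit 0)) (T.h (T.h (P (nat_lit 0)) (M (nat_lit 17990345276819))) (P (nat_lit 0))))) (T.h (T.h (P (nat_lit 0)) (M (nat_lit 514722505355))) (T.h (T.h (T.h (P (nat_lit 0)) (M (nat_lit 6400866618791))) (P (nat_lit 0))) (P (nat_lit 0)))))))) (P (nat_lit 0)))) (T.h (T.h (T.h (T.h (T.h (P (nat_lit 0)) (T.h (M (nat_lit 1609301771)) (T.h (P (nat_lit 0)) (T.h (M (nat_lit 3706367903)) (T.h (P (nat_lit 0)) (P (nat_lit 135155996928))))))) (T.h (P (nat_lit 0)) (T.h (T.h (P (nat_lit 0)) (T.h (M (nat_lit 33260338403)) (T.h (P (nat_lit 0)) (M (nat_lit 301354886735))))) (T.h (P (nat_lit 0)) (T.h (T.h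 (P (nat_lit 0)) (M (nat_lit 10140827320907))) (P (nat_lit 0))))))) (T.h (T.h (P (nat_lit 0)) (T.h (T.h (M (nat_lit 8623035251)) (T.h (P (nat_lit 0)) (T.h (P (nat_lit 28392015204)) (T.h (P (nat_lit 0)) (M (nat_lit 4393756093643)))))) (T.h (P (nat_lit 0)) (T.h (T.h (M (nat_lit 252502154711)) (T.h (P (nat_lit 0)) (P (nat_lit 39440875367232)))) (T.h (P (nat_lit 0)) (M (nat_lit 77582298470399))))))) (T.h (T.h (T.h (P (nat_lit 0)) (T.h (P (nat_lit 7673201172)) (T.h (P (nat_lit 0)) (M (nat_lit 763229306231))))) (T.h (P (nat_lit 0)) (T.h (T.h (P (nat_lit 0)) (P (nat_lit 1497660347664))) (P (nat_lit 0))))) (T.h (T.h (P (nat_lit 0)) (T.h (T.h (P (nat_lit 287791718220)) (T.h (P (nat_lit 0)) (P (nat_lit 10872841504356)))) (T.h (P (nat_lit 0)) (P (nat_lit 3936623009760))))) (T.h (T.h (T.h (P (nat_lit 0)) (P (nat_lit 1333423079820))) (P (nat_lit 0))) (T.h (T.h (P (nat_lit 0)) (P (nat_lit 935799020748)))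 (P (nat_lit 0)))))))) (P (nat_lit 0))) (P (nat_lit 0)))))
def et0_5 : T ℤ := (T.h (T.h (P (nat_lit 0)) (T.h (P (nat_lit 0)) (T.h (T.h (T.h (T.h (P (nat_lit 0)) (T.h (P (nat_lit 112779468)) (T.h (P (nat_lit 0)) (T.h (M (nat_lit 40734978351)) (T.h (P (nat_lit 0)) (P (nat_lit 215985242236))))))) (T.h (P (nat_lit 0)) (T.h (T.h (P (nat_lit 0)) (T.h (M (nat_lit 179963960199)) (T.h (P (nat_lit 0)) (M (nat_lit 18275141232347))))) (T.h (P (nat_lit 0)) (T.h (T.h (P (nat_lit 0)) (M (nat_lit 1284208178915))) (P (nat_lit 0))))))) (T.h (T.h (P (nat_lit 0)) (T.h (T.h (M (nat_lit 10188117275)) (T.h (P (nat_lit 0)) (T.h (P (nat_lit 718102956600)) (T.h (P (nat_lit 0)) (M (nat_lit 13505831993627)))))) (T.h (P (nat_lit 0)) (T.h (T.h (M (nat_lit 289492501943)) (T.h (P (nat_lit 0)) (M (nat_lit 63604589544415)))) (T.h (P (nat_lit 0)) (P (nat_lit 3003203383088))))))) (T.h (T.h (T.h (P (nat_lit 0)) (T.h (P (nat_lit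 84591741452)) (T.h (P (nat_lit 0)) (P (nat_lit 787209971636))))) (T.h (P (nat_lit 0)) (T.h (T.h (P (nat_lit 0)) (M (nat_lit 300080235339))) (P (nat_lit 0))))) (T.h (T.h (P (nat_lit 0)) (T.h (T.h (M (nat_lit 1235885130399)) (T.h (P (nat_lit 0)) (M (nat_lit 22567072608731)))) (T.h (P (nat_lit 0)) (P (nat_lit 1966661698856))))) (T.h (T.h (T.h (P (nat_lit 0)) (M (nat_lit 2849220224187))) (P (nat_lit 0))) (T.h (T.h (P (nat_lit 0)) (P (nat_lit 1171355861856))) (P (nat_lit 0)))))))) (T.h (P (nat_lit 0)) (T.h (T.h (T.h (T.h (P (nat_lit 0)) (T.h (P (nat_lit 2403509400)) (T.h (P (nat_lit 0)) (T.h (P (nat_lit 11111886540)) (T.h (P (nat_lit 0)) (P (nat_lit 15836153299524))))))) (T.h (P (nat_lit 0)) (T.h (T.h (P (nat_lit 0)) (T.h (P (nat_lit 199954791360)) (T.h (P (nat_lit 0)) (P (nat_lit 9769089702852))))) (T.h (P (nat_lit 0)) (T.h (T.h (P (nat_lit 0)) (P (nat_lit 10223270913132))) (P (nat_lit 0)))))))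 (T.h (T.h (P (nat_lit 0)) (T.h (T.h (M (nat_lit 46078073675)) (T.h (P (nat_lit 0)) (T.h (M (nat_lit 6442050540275)) (T.h (P (nat_lit 0)) (P (nat_lit 123350667690312)))))) (T.h (P (nat_lit 0)) (T.h (T.h (M (nat_lit 248777592587)) (T.h (P (nat_lit 0)) (P (nat_lit 46828508637888)))) (T.h (P (nat_lit 0)) (M (nat_lit 2140594559207))))))) (T.h (T.h (T.h (P (nat_lit 0)) (T.h (P (nat_lit 7816883940)) (T.h (P (nat_lit 0)) (M (nat_lit 5937059793815))))) (T.h (P (nat_lit 0)) (T.h (T.h (P (nat_lit 0)) (P (nat_lit 16136642326860))) (P (nat_lit 0))))) (T.h (T.h (P (nat_lit 0)) (T.h (T.h (M (nat_lit 1259517267935)) (T.h (P (nat_lit 0)) (P (nat_lit 26463233173896)))) (T.h (P (nat_lit 0)) (M (nat_lit 19998293110055))))) (T.h (T.h (T.h (P (nat_lit 0)) (P (nat_lit 1248327291672))) (P (nat_lit 0))) (T.h (T.h (P (nat_lit 0)) (P (nat_lit 14957200929816))) (P (nat_lit 0)))))))) (P (nat_lit 0))))))) (T.h (T.h (P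 (nat_lit 0)) (T.h (T.h (T.h (P (nat_lit 0)) (T.h (T.h (M (nat_lit 90491319)) (T.h (P (nat_lit 0)) (T.h (P (nat_lit 17877522020)) (T.h (P (nat_lit 0)) (P (nat_lit 881805271784)))))) (T.h (P (nat_lit 0)) (T.h (T.h (M (nat_lit 29739764735)) (T.h (P (nat_lit 0)) (M (nat_lit 3862256206331)))) (T.h (P (nat_lit 0)) (M (nat_lit 608536130391))))))) (T.h (T.h (T.h (P (nat_lit 0)) (T.h (M (nat_lit 4150905415)) (T.h (P (nat_lit 0)) (T.h (M (nat_lit 43864580107)) (T.h (P (nat_lit 0)) (P (nat_lit 3002282812516))))))) (T.h (P (nat_lit 0)) (T.h (T.h (P (nat_lit 0)) (T.h (M (nat_lit 246676799575)) (T.h (P (nat_lit 0)) (P (nat_lit 1312593570340))))) (T.h (P (nat_lit 0)) (T.h (T.h (P (nat_lit 0)) (P (nat_lit 8434989473504))) (P (nat_lit 0))))))) (T.h (T.h (P (nat_lit 0)) (T.h (T.h (P (nat_lit 17877522020)) (T.h (P (nat_lit 0)) (P (nat_lit 535896436704)))) (T.h (P (nat_lit 0)) (M (nat_lit 3862256206331)))))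 (T.h (T.h (T.h (P (nat_lit 0)) (T.h (M (nat_lit 43864580107)) (T.h (P (nat_lit 0)) (M (nat_lit 3854792044063))))) (T.h (P (nat_lit 0)) (T.h (T.h (P (nat_lit 0)) (P (nat_lit 1312593570340))) (P (nat_lit 0))))) (T.h (T.h (P (nat_lit 0)) (P (nat_lit 881805271784))) (T.h (T.h (T.h (P (nat_lit 0)) (P (nat_lit 3002282812516))) (P (nat_lit 0))) (P (nat_lit 0)))))))) (T.h (P (nat_lit 0)) (T.h (T.h (T.h (P (nat_lit 0)) (T.h (T.h (P (nat_lit 2403509400)) (T.h (P (nat_lit 0)) (T.h (P (nat_lit 199954791360)) (T.h (P (nat_lit 0)) (P (nat_lit 10223270913132)))))) (T.h (P (nat_lit 0)) (T.h (T.h (P (nat_lit 11111886540)) (T.h (P (nat_lit 0)) (P (nat_lit 9769089702852)))) (T.h (P (nat_lit 0)) (P (nat_lit 15836153299524))))))) (T.h (T.h (T.h (P (nat_lit 0)) (T.h (M (nat_lit 46078073675)) (T.h (P (nat_lit 0)) (T.h (M (nat_lit 248777592587)) (T.h (P (nat_lit 0)) (M (nat_lit 2140594559207))))))) (T.h (P (nat_lit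 0)) (T.h (T.h (P (nat_lit 0)) (T.h (M (nat_lit 6442050540275)) (T.h (P (nat_lit 0)) (P (nat_lit 46828508637888))))) (T.h (P (nat_lit 0)) (T.h (T.h (P (nat_lit 0)) (P (nat_lit 123350667690312))) (P (nat_lit 0))))))) (T.h (T.h (P (nat_lit 0)) (T.h (T.h (P (nat_lit 7816883940)) (T.h (P (nat_lit 0)) (P (nat_lit 16136642326860)))) (T.h (P (nat_lit 0)) (M (nat_lit 5937059793815))))) (T.h (T.h (T.h (P (nat_lit 0)) (T.h (M (nat_lit 1259517267935)) (T.h (P (nat_lit 0)) (M (nat_lit 19998293110055))))) (T.h (P (nat_lit 0)) (T.h (T.h (P (nat_lit 0)) (P (nat_lit 26463233173896))) (P (nat_lit 0))))) (T.h (T.h (P (nat_lit 0)) (P (nat_lit 1248327291672))) (T.h (T.h (T.h (P (nat_lit 0)) (P (nat_lit 14957200929816))) (P (nat_lit 0))) (P (nat_lit 0)))))))) (P (nat_lit 0)))))) et0_4))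
def et0_6 : T ℤ := (T.h (T.h (P (nat_lit 0)) (T.h (P (nat_lit 0)) (T.h (P (nat_lit 0)) (T.h (P (nat_lit 0)) (T.h (T.h (T.h (T.h (P (nat_lit 0)) (T.h (M (nat_lit 90491319)) (T.h (P (nat_lit 0)) (T.h (M (nat_lit 29739764735)) (T.h (P (nat_lit 0)) (M (nat_lit 608536130391))))))) (T.h (P (nat_lit 0)) (T.h (T.h (P (nat_lit 0)) (T.h (P (nat_lit 17877522020)) (T.h (P (nat_lit 0)) (M (nat_lit 3862256206331))))) (T.h (P (nat_lit 0)) (T.h (T.h (P (nat_lit 0)) (P (nat_lit 881805271784))) (P (nat_lit 0))))))) (T.h (T.h (P (nat_lit 0)) (T.h (T.h (M (nat_lit 4150905415)) (T.h (P (nat_lit 0)) (T.h (M (nat_lit 246676799575)) (T.h (P (nat_lit 0)) (P (nat_lit 8434989473504)))))) (T.h (P (nat_lit 0)) (T.h (T.h (M (nat_lit 43864580107)) (T.h (P (nat_lit 0)) (P (nat_lit 1312593570340)))) (T.h (P (nat_lit 0)) (P (nat_lit 3002282812516))))))) (T.h (T.h (T.h (P (nat_lit 0)) (T.h (P (nat_lit 17877522020)) (T.h (P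 (nat_lit 0)) (M (nat_lit 3862256206331))))) (T.h (P (nat_lit 0)) (T.h (T.h (P (nat_lit 0)) (P (nat_lit 535896436704))) (P (nat_lit 0))))) (T.h (T.h (P (nat_lit 0)) (T.h (T.h (M (nat_lit 43864580107)) (T.h (P (nat_lit 0)) (P (nat_lit 1312593570340)))) (T.h (P (nat_lit 0)) (M (nat_lit 3854792044063))))) (T.h (T.h (T.h (P (nat_lit 0)) (P (nat_lit 881805271784))) (P (nat_lit 0))) (T.h (T.h (P (nat_lit 0)) (P (nat_lit 3002282812516))) (P (nat_lit 0)))))))) (T.h (P (nat_lit 0)) (T.h (T.h (T.h (T.h (P (nat_lit 0)) (T.h (M (nat_lit 10140119)) (T.h (P (nat_lit 0)) (T.h (M (nat_lit 260123720255)) (T.h (P (nat_lit 0)) (M (nat_lit 6748082270207))))))) (T.h (P (nat_lit 0)) (T.h (T.h (P (nat_lit 0)) (T.h (P (nat_lit 83117764404)) (T.h (P (nat_lit 0)) (M (nat_lit 8338644534887))))) (T.h (P (nat_lit 0)) (T.h (T.h (P (nat_lit 0)) (M (nat_lit 514722505355))) (P (nat_lit 0))))))) (T.h (T.h (P (nat_lit 0))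 (T.h (T.h (P (nat_lit 12405923424)) (T.h (P (nat_lit 0)) (T.h (P (nat_lit 4216622004216)) (T.h (P (nat_lit 0)) (M (nat_lit 88731561490631)))))) (T.h (P (nat_lit 0)) (T.h (T.h (P (nat_lit 332036269128)) (T.h (P (nat_lit 0)) (M (nat_lit 17990345276819)))) (T.h (P (nat_lit 0)) (M (nat_lit 6400866618791))))))) (T.h (T.h (T.h (P (nat_lit 0)) (T.h (P (nat_lit 83117764404)) (T.h (P (nat_lit 0)) (M (nat_lit 8338644534887))))) (T.h (P (nat_lit 0)) (T.h (T.h (P (nat_lit 0)) (M (nat_lit 7778327025959))) (P (nat_lit 0))))) (T.h (T.h (P (nat_lit 0)) (T.h (T.h (P (nat_lit 332036269128)) (T.h (P (nat_lit 0)) (M (nat_lit 17990345276819)))) (T.h (P (nat_lit 0)) (P (nat_lit 21453562773072))))) (T.h (T.h (T.h (P (nat_lit 0)) (M (nat_lit 514722505355))) (P (nat_lit 0))) (T.h (T.h (P (nat_lit 0)) (M (nat_lit 6400866618791))) (P (nat_lit 0)))))))) (P (nat_lit 0))))))))) (T.h (T.h (P (nat_lit 0)) (T.h (P (nat_lit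 0)) (T.h (P (nat_lit 0)) (T.h (T.h (T.h (P (nat_lit 0)) (T.h (T.h (P (nat_lit 112779468)) (T.h (P (nat_lit 0)) (T.h (M (nat_lit 179963960199)) (T.h (P (nat_lit 0)) (M (nat_lit 1284208178915)))))) (T.h (P (nat_lit 0)) (T.h (T.h (M (nat_lit 40734978351)) (T.h (P (nat_lit 0)) (M (nat_lit 18275141232347)))) (T.h (P (nat_lit 0)) (P (nat_lit 215985242236))))))) (T.h (T.h (T.h (P (nat_lit 0)) (T.h (M (nat_lit 10188117275)) (T.h (P (nat_lit 0)) (T.h (M (nat_lit 289492501943)) (T.h (P (nat_lit 0)) (P (nat_lit 3003203383088))))))) (T.h (P (nat_lit 0)) (T.h (T.h (P (nat_lit 0)) (T.h (P (nat_lit 718102956600)) (T.h (P (nat_lit 0)) (M (nat_lit 63604589544415))))) (T.h (P (nat_lit 0)) (T.h (T.h (P (nat_lit 0)) (M (nat_lit 13505831993627))) (P (nat_lit 0))))))) (T.h (T.h (P (nat_lit 0)) (T.h (T.h (P (nat_lit 84591741452)) (T.h (P (nat_lit 0)) (M (nat_lit 300080235339)))) (T.h (P (nat_lit 0)) (P (nat_lit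 787209971636))))) (T.h (T.h (T.h (P (nat_lit 0)) (T.h (M (nat_lit 1235885130399)) (T.h (P (nat_lit 0)) (P (nat_lit 1966661698856))))) (T.h (P (nat_lit 0)) (T.h (T.h (P (nat_lit 0)) (M (nat_lit 22567072608731))) (P (nat_lit 0))))) (T.h (T.h (P (nat_lit 0)) (M (nat_lit 2849220224187))) (T.h (T.h (T.h (P (nat_lit 0)) (P (nat_lit 1171355861856))) (P (nat_lit 0))) (P (nat_lit 0)))))))) (T.h (P (nat_lit 0)) (T.h (T.h (T.h (P (nat_lit 0)) (T.h (T.h (P (nat_lit 3251302704)) (T.h (P (nat_lit 0)) (T.h (P (nat_lit 113641067304)) (T.h (P (nat_lit 0)) (M (nat_lit 14981857269839)))))) (T.h (P (nat_lit 0)) (T.h (T.h (M (nat_lit 971363519)) (T.h (P (nat_lit 0)) (P (nat_lit 51096007737936)))) (T.h (P (nat_lit 0)) (M (nat_lit 515480613263))))))) (T.h (T.h (T.h (P (nat_lit 0)) (T.h (M (nat_lit 26272006595)) (T.h (P (nat_lit 0)) (T.h (P (nat_lit 4097449837440)) (T.h (P (nat_lit 0)) (M (nat_lit 22092227591795)))))))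 (T.h (P (nat_lit 0)) (T.h (T.h (P (nat_lit 0)) (T.h (M (nat_lit 1525095631583)) (T.h (P (nat_lit 0)) (M (nat_lit 120174026721299))))) (T.h (P (nat_lit 0)) (T.h (T.h (P (nat_lit 0)) (P (nat_lit 53225593571052))) (P (nat_lit 0))))))) (T.h (T.h (P (nat_lit 0)) (T.h (T.h (P (nat_lit 147199092192)) (T.h (P (nat_lit 0)) (M (nat_lit 9575825675039)))) (T.h (P (nat_lit 0)) (P (nat_lit 2422940086440))))) (T.h (T.h (T.h (P (nat_lit 0)) (T.h (P (nat_lit 151093377576)) (T.h (P (nat_lit 0)) (P (nat_lit 10077218385264))))) (T.h (P (nat_lit 0)) (T.h (T.h (P (nat_lit 0)) (M (nat_lit 33850163526803))) (P (nat_lit 0))))) (T.h (T.h (P (nat_lit 0)) (M (nat_lit 465691554791))) (T.h (T.h (T.h (P (nat_lit 0)) (M (nat_lit 1522639424339))) (P (nat_lit 0))) (P (nat_lit 0)))))))) (P (nat_lit 0)))))))) et0_5))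
def et0_7 : T ℤ := (T.h (T.h (T.h (T.h (T.h (M (nat_lit 145059871)) (T.h (P (nat_lit 0)) (T.h (M (nat_lit 1174638463)) (T.h (P (nat_lit 0)) (T.h (M (nat_lit 36769800823)) (T.h (P (nat_lit 0)) (P (nat_lit 306519603284)))))))) (T.h (P (nat_lit 0)) (T.h (T.h (P (nat_lit 278844076)) (T.h (P (nat_lit 0)) (T.h (P (nat_lit 535161740848)) (T.h (P (nat_lit 0)) (P (nat_lit 1034020504512)))))) (T.h (P (nat_lit 0)) (T.h (T.h (M (nat_lit 572582162667)) (T.h (P (nat_lit 0)) (M (nat_lit 13013129777831)))) (T.h (P (nat_lit 0)) (M (nat_lit 8398807895027)))))))) (T.h (T.h (P (nat_lit 0)) (T.h (T.h (P (nat_lit 0)) (T.h (M (nat_lit 28439511831)) (T.h (P (nat_lit 0)) (P (nat_lit 967651227500))))) (T.h (P (nat_lit 0)) (T.h (T.h (P (nat_lit 0)) (M (nat_lit 2436042908715))) (P (nat_lit 0)))))) (T.h (T.h (T.h (P (nat_lit 12646789416)) (T.h (P (nat_lit 0)) (T.h (M (nat_lit 7588291315)) (T.h (P (nat_lit 0)) (M (nat_lit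 970238430407)))))) (T.h (P (nat_lit 0)) (T.h (T.h (P (nat_lit 247132360104)) (T.h (P (nat_lit 0)) (P (nat_lit 5876987774872)))) (T.h (P (nat_lit 0)) (P (nat_lit 4780914474384)))))) (T.h (T.h (P (nat_lit 0)) (T.h (T.h (P (nat_lit 0)) (M (nat_lit 159545156199))) (P (nat_lit 0)))) (T.h (T.h (T.h (P (nat_lit 13050757848)) (T.h (P (nat_lit 0)) (P (nat_lit 583169384160)))) (T.h (P (nat_lit 0)) (P (nat_lit 8958546609816)))) (T.h (P (nat_lit 0)) (M (nat_lit 1276702997615)))))))) (T.h (P (nat_lit 0)) (T.h (T.h (T.h (T.h (M (nat_lit 451912823)) (T.h (P (nat_lit 0)) (T.h (M (nat_lit 9096388703)) (T.h (P (nat_lit 0)) (T.h (P (nat_lit 125046601740)) (T.h (P (nat_lit 0)) (M (nat_lit 11065434954731)))))))) (T.h (P (nat_lit 0)) (T.h (T.h (P (nat_lit 17334966960)) (T.h (P (nat_lit 0)) (T.h (P (nat_lit 8686568580156)) (T.h (P (nat_lit 0)) (M (nat_lit 12040631654939)))))) (T.h (P (nat_lit 0)) (T.h (T.h (M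 (nat_lit 3451662427607)) (T.h (P (nat_lit 0)) (P (nat_lit 35009145344808)))) (T.h (P (nat_lit 0)) (M (nat_lit 83767500185687)))))))) (T.h (T.h (P (nat_lit 0)) (T.h (T.h (P (nat_lit 0)) (T.h (P (nat_lit 45711588600)) (T.h (P (nat_lit 0)) (M (nat_lit 18895557685571))))) (T.h (P (nat_lit 0)) (T.h (T.h (P (nat_lit 0)) (P (nat_lit 15867561584016))) (P (nat_lit 0)))))) (T.h (T.h (T.h (M (nat_lit 9096388703)) (T.h (P (nat_lit 0)) (T.h (M (nat_lit 5815576996631)) (T.h (P (nat_lit 0)) (M (nat_lit 20998742882147)))))) (T.h (P (nat_lit 0)) (T.h (T.h (P (nat_lit 8686568580156)) (T.h (P (nat_lit 0)) (M (nat_lit 35003688764039)))) (T.h (P (nat_lit 0)) (P (nat_lit 35009145344808)))))) (T.h (T.h (P (nat_lit 0)) (T.h (T.h (P (nat_lit 0)) (M (nat_lit 18895557685571))) (P (nat_lit 0)))) (T.h (T.h (T.h (P (nat_lit 125046601740)) (T.h (P (nat_lit 0)) (M (nat_lit 20998742882147)))) (T.h (P (nat_lit 0)) (M (nat_lit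 12040631654939)))) (T.h (P (nat_lit 0)) (M (nat_lit 11065434954731)))))))) (P (nat_lit 0))))) (T.h (T.h (P (nat_lit 0)) (T.h (T.h (T.h (P (nat_lit 0)) (T.h (T.h (P (nat_lit 0)) (T.h (M (nat_lit 26272006595)) (T.h (P (nat_lit 0)) (T.h (P (nat_lit 151093377576)) (T.h (P (nat_lit 0)) (M (nat_lit 1522639424339))))))) (T.h (P (nat_lit 0)) (T.h (T.h (P (nat_lit 0)) (T.h (P (nat_lit 4097449837440)) (T.h (P (nat_lit 0)) (P (nat_lit 10077218385264))))) (T.h (P (nat_lit 0)) (T.h (T.h (P (nat_lit 0)) (M (nat_lit 22092227591795))) (P (nat_lit 0)))))))) (T.h (T.h (T.h (P (nat_lit 3251302704)) (T.h (P (nat_lit 0)) (T.h (P (nat_lit 147199092192)) (T.h (P (nat_lit 0)) (M (nat_lit 465691554791)))))) (T.h (P (nat_lit 0)) (T.h (T.h (P (nat_lit 113641067304)) (T.h (P (nat_lit 0)) (M (nat_lit 9575825675039)))) (T.h (P (nat_lit 0)) (M (nat_lit 14981857269839)))))) (T.h (T.h (P (nat_lit 0)) (T.h (T.h (P (nat_lit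 0)) (T.h (M (nat_lit 1525095631583)) (T.h (P (nat_lit 0)) (M (nat_lit 33850163526803))))) (T.h (P (nat_lit 0)) (T.h (T.h (P (nat_lit 0)) (M (nat_lit 120174026721299))) (P (nat_lit 0)))))) (T.h (T.h (T.h (M (nat_lit 971363519)) (T.h (P (nat_lit 0)) (P (nat_lit 2422940086440)))) (T.h (P (nat_lit 0)) (P (nat_lit 51096007737936)))) (T.h (T.h (P (nat_lit 0)) (T.h (T.h (P (nat_lit 0)) (P (nat_lit 53225593571052))) (P (nat_lit 0)))) (M (nat_lit 515480613263))))))) (P (nat_lit 0)))) (T.h (T.h (T.h (T.h (T.h (P (nat_lit 367863516)) (T.h (P (nat_lit 0)) (T.h (P (nat_lit 1463697684)) (T.h (P (nat_lit 0)) (T.h (P (nat_lit 70862536944)) (T.h (P (nat_lit 0)) (M (nat_lit 565666078139)))))))) (T.h (P (nat_lit 0)) (T.h (T.h (P (nat_lit 15901543908)) (T.h (P (nat_lit 0)) (T.h (M (nat_lit 1076605855199)) (T.h (P (nat_lit 0)) (P (nat_lit 10158461446356)))))) (T.h (P (nat_lit 0)) (T.h (T.h (M (nat_lit 186710387975))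 (T.h (P (nat_lit 0)) (P (nat_lit 38513704551948)))) (T.h (P (nat_lit 0)) (P (nat_lit 475225614252)))))))) (T.h (T.h (P (nat_lit 0)) (T.h (T.h (P (nat_lit 0)) (T.h (M (nat_lit 145191851603)) (T.h (P (nat_lit 0)) (M (nat_lit 302302885751))))) (T.h (P (nat_lit 0)) (T.h (T.h (P (nat_lit 0)) (M (nat_lit 1839642626159))) (P (nat_lit 0)))))) (T.h (T.h (T.h (M (nat_lit 36667538135)) (T.h (P (nat_lit 0)) (T.h (M (nat_lit 106631297495)) (T.h (P (nat_lit 0)) (P (nat_lit 10189507619016)))))) (T.h (P (nat_lit 0)) (T.h (T.h (M (nat_lit 3165813860435)) (T.h (P (nat_lit 0)) (P (nat_lit 38571045274476)))) (T.h (P (nat_lit 0)) (M (nat_lit 33923419865999)))))) (T.h (T.h (P (nat_lit 0)) (T.h (T.h (P (nat_lit 0)) (M (nat_lit 347704528175))) (P (nat_lit 0)))) (T.h (T.h (T.h (P (nat_lit 126617465016)) (T.h (P (nat_lit 0)) (M (nat_lit 936880661771)))) (T.h (P (nat_lit 0)) (P (nat_lit 7311745797372)))) (T.h (P (nat_lit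 0)) (P (nat_lit 3095750410812)))))))) (P (nat_lit 0))) (P (nat_lit 0)))))
def et0_8 : T ℤ := (T.h (T.h (P (nat_lit 0)) (T.h (P (nat_lit 0)) (T.h (T.h (T.h (T.h (P (nat_lit 0)) (T.h (P (nat_lit 0)) (T.h (P (nat_lit 8331137208)) (T.h (P (nat_lit 0)) (T.h (P (nat_lit 129985615704)) (T.h (P (nat_lit 0)) (P (nat_lit 3514491960624)))))))) (T.h (P (nat_lit 0)) (T.h (T.h (P (nat_lit 8331137208)) (T.h (P (nat_lit 0)) (T.h (M (nat_lit 1880024242151)) (T.h (P (nat_lit 0)) (P (nat_lit 24471096494184)))))) (T.h (P (nat_lit 0)) (T.h (T.h (P (nat_lit 129985615704)) (T.h (P (nat_lit 0)) (P (nat_lit 24471096494184)))) (T.h (P (nat_lit 0)) (P (nat_lit 3514491960624)))))))) (T.h (T.h (P (nat_lit 0)) (T.h (T.h (P (nat_lit 0)) (T.h (P (nat_lit 0)) (T.h (P (nat_lit 0)) (P (nat_lit 6686102246304))))) (T.h (P (nat_lit 0)) (T.h (T.h (P (nat_lit 0)) (P (nat_lit 6686102246304))) (P (nat_lit 0)))))) (T.h (T.h (T.h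 (P (nat_lit 8331137208)) (T.h (P (nat_lit 0)) (T.h (M (nat_lit 1880024242151)) (T.h (P (nat_lit 0)) (P (nat_lit 24471096494184)))))) (T.h (P (nat_lit 0)) (T.h (M (nat_lit 1880024242151)) (T.h (P (nat_lit 0)) (P (nat_lit 24471096494184)))))) (T.h (T.h (P (nat_lit 0)) (T.h (T.h (P (nat_lit 0)) (P (nat_lit 6686102246304))) (P (nat_lit 0)))) (T.h (T.h (T.h (P (nat_lit 129985615704)) (T.h (P (nat_lit 0)) (P (nat_lit 24471096494184)))) (T.h (P (nat_lit 0)) (P (nat_lit 24471096494184)))) (T.h (P (nat_lit 0)) (P (nat_lit 3514491960624)))))))) (T.h (P (nat_lit 0)) (T.h (T.h (T.h (T.h (M (nat_lit 451912823)) (T.h (P (nat_lit 0)) (T.h (P (nat_lit 17334966960)) (T.h (P (nat_lit 0)) (T.h (M (nat_lit 3451662427607)) (T.h (P (nat_lit 0)) (M (nat_lit 83767500185687)))))))) (T.h (P (nat_lit 0)) (T.h (T.h (M (nat_lit 9096388703)) (T.h (P (nat_lit 0)) (T.h (P (nat_lit 8686568580156)) (T.h (P (nat_lit 0)) (P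 (nat_lit 35009145344808)))))) (T.h (P (nat_lit 0)) (T.h (T.h (P (nat_lit 125046601740)) (T.h (P (nat_lit 0)) (M (nat_lit 12040631654939)))) (T.h (P (nat_lit 0)) (M (nat_lit 11065434954731)))))))) (T.h (T.h (P (nat_lit 0)) (T.h (T.h (P (nat_lit 0)) (T.h (P (nat_lit 45711588600)) (T.h (P (nat_lit 0)) (P (nat_lit 15867561584016))))) (T.h (P (nat_lit 0)) (T.h (T.h (P (nat_lit 0)) (M (nat_lit 18895557685571))) (P (nat_lit 0)))))) (T.h (T.h (T.h (M (nat_lit 9096388703)) (T.h (P (nat_lit 0)) (T.h (P (nat_lit 8686568580156)) (T.h (P (nat_lit 0)) (P (nat_lit 35009145344808)))))) (T.h (P (nat_lit 0)) (T.h (T.h (M (nat_lit 5815576996631)) (T.h (P (nat_lit 0)) (M (nat_lit 35003688764039)))) (T.h (P (nat_lit 0)) (M (nat_lit 20998742882147)))))) (T.h (T.h (P (nat_lit 0)) (T.h (T.h (P (nat_lit 0)) (M (nat_lit 18895557685571))) (P (nat_lit 0)))) (T.h (T.h (T.h (P (nat_lit 125046601740)) (T.h (P (nat_lit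 0)) (M (nat_lit 12040631654939)))) (T.h (P (nat_lit 0)) (M (nat_lit 20998742882147)))) (T.h (P (nat_lit 0)) (M (nat_lit 11065434954731)))))))) (P (nat_lit 0))))))) (T.h (T.h (P (nat_lit 0)) (T.h (T.h (T.h (P (nat_lit 0)) (T.h (T.h (P (nat_lit 0)) (T.h (M (nat_lit 10188117275)) (T.h (P (nat_lit 0)) (T.h (M (nat_lit 1235885130399)) (T.h (P (nat_lit 0)) (P (nat_lit 1171355861856))))))) (T.h (P (nat_lit 0)) (T.h (T.h (P (nat_lit 0)) (T.h (M (nat_lit 289492501943)) (T.h (P (nat_lit 0)) (P (nat_lit 1966661698856))))) (T.h (P (nat_lit 0)) (T.h (T.h (P (nat_lit 0)) (P (nat_lit 3003203383088))) (P (nat_lit 0)))))))) (T.h (T.h (T.h (P (nat_lit 112779468)) (T.h (P (nat_lit 0)) (T.h (P (nat_lit 84591741452)) (T.h (P (nat_lit 0)) (M (nat_lit 2849220224187)))))) (T.h (P (nat_lit 0)) (T.h (T.h (M (nat_lit 179963960199)) (T.h (P (nat_lit 0)) (M (nat_lit 300080235339)))) (T.h (P (nat_lit 0)) (M (nat_lit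 1284208178915)))))) (T.h (T.h (P (nat_lit 0)) (T.h (T.h (P (nat_lit 0)) (T.h (P (nat_lit 718102956600)) (T.h (P (nat_lit 0)) (M (nat_lit 22567072608731))))) (T.h (P (nat_lit 0)) (T.h (T.h (P (nat_lit 0)) (M (nat_lit 63604589544415))) (P (nat_lit 0)))))) (T.h (T.h (T.h (M (nat_lit 40734978351)) (T.h (P (nat_lit 0)) (P (nat_lit 787209971636)))) (T.h (P (nat_lit 0)) (M (nat_lit 18275141232347)))) (T.h (T.h (P (nat_lit 0)) (T.h (T.h (P (nat_lit 0)) (M (nat_lit 13505831993627))) (P (nat_lit 0)))) (P (nat_lit 215985242236))))))) (T.h (P (nat_lit 0)) (T.h (T.h (T.h (P (nat_lit 0)) (T.h (T.h (P (nat_lit 0)) (T.h (P (nat_lit 98143747128)) (T.h (P (nat_lit 0)) (T.h (P (nat_lit 4620184241904)) (T.h (P (nat_lit 0)) (M (nat_lit 84417781842071))))))) (T.h (P (nat_lit 0)) (T.h (T.h (P (nat_lit 0)) (T.h (P (nat_lit 4620184241904)) (T.h (P (nat_lit 0)) (P (nat_lit 24891640205112))))) (T.h (P (nat_lit 0))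 (T.h (T.h (P (nat_lit 0)) (M (nat_lit 84417781842071))) (P (nat_lit 0)))))))) (T.h (T.h (T.h (M (nat_lit 4770701423)) (T.h (P (nat_lit 0)) (T.h (M (nat_lit 799491782555)) (T.h (P (nat_lit 0)) (M (nat_lit 545514413687)))))) (T.h (P (nat_lit 0)) (T.h (T.h (M (nat_lit 799491782555)) (T.h (P (nat_lit 0)) (P (nat_lit 5017804628544)))) (T.h (P (nat_lit 0)) (M (nat_lit 545514413687)))))) (T.h (T.h (P (nat_lit 0)) (T.h (T.h (P (nat_lit 0)) (T.h (M (nat_lit 6933244535567)) (T.h (P (nat_lit 0)) (P (nat_lit 212744340974484))))) (T.h (P (nat_lit 0)) (T.h (T.h (P (nat_lit 0)) (P (nat_lit 212744340974484))) (P (nat_lit 0)))))) (T.h (T.h (T.h (M (nat_lit 214484006447)) (T.h (P (nat_lit 0)) (M (nat_lit 22167179363195)))) (T.h (P (nat_lit 0)) (M (nat_lit 22167179363195)))) (T.h (T.h (P (nat_lit 0)) (T.h (T.h (P (nat_lit 0)) (P (nat_lit 109842625201896))) (P (nat_lit 0)))) (P (nat_lit 4109813206848)))))))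 (P (nat_lit 0)))))) et0_7))
def et0_9 : T ℤ := (T.h (T.h (P (nat_lit 0)) (T.h (P (nat_lit 0)) (T.h (P (nat_lit 0)) (T.h (P (nat_lit 0)) (T.h (T.h (T.h (T.h (M (nat_lit 145059871)) (T.h (P (nat_lit 0)) (T.h (P (nat_lit 278844076)) (T.h (P (nat_lit 0)) (T.h (M (nat_lit 572582162667)) (T.h (P (nat_lit 0)) (M (nat_lit 8398807895027)))))))) (T.h (P (nat_lit 0)) (T.h (T.h (M (nat_lit 1174638463)) (T.h (P (nat_lit 0)) (T.h (P (nat_lit 535161740848)) (T.h (P (nat_lit 0)) (M (nat_lit 13013129777831)))))) (T.h (P (nat_lit 0)) (T.h (T.h (M (nat_lit 36769800823)) (T.h (P (nat_lit 0)) (P (nat_lit 1034020504512)))) (T.h (P (nat_lit 0)) (P (nat_lit 306519603284)))))))) (T.h (T.h (P (nat_lit 0)) (T.h (T.h (P (nat_lit 0)) (T.h (M (nat_lit 28439511831)) (T.h (P (nat_lit 0)) (M (nat_lit 2436042908715))))) (T.h (P (nat_lit 0)) (T.h (T.h (P (nat_lit 0)) (P (nat_lit 967651227500))) (P (nat_lit 0)))))) (T.h (T.h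 (T.h (P (nat_lit 12646789416)) (T.h (P (nat_lit 0)) (T.h (P (nat_lit 247132360104)) (T.h (P (nat_lit 0)) (P (nat_lit 4780914474384)))))) (T.h (P (nat_lit 0)) (T.h (T.h (M (nat_lit 7588291315)) (T.h (P (nat_lit 0)) (P (nat_lit 5876987774872)))) (T.h (P (nat_lit 0)) (M (nat_lit 970238430407)))))) (T.h (T.h (P (nat_lit 0)) (T.h (T.h (P (nat_lit 0)) (M (nat_lit 159545156199))) (P (nat_lit 0)))) (T.h (T.h (T.h (P (nat_lit 13050757848)) (T.h (P (nat_lit 0)) (P (nat_lit 8958546609816)))) (T.h (P (nat_lit 0)) (P (nat_lit 583169384160)))) (T.h (P (nat_lit 0)) (M (nat_lit 1276702997615)))))))) (T.h (P (nat_lit 0)) (T.h (T.h (T.h (T.h (P (nat_lit 367863516)) (T.h (P (nat_lit 0)) (T.h (P (nat_lit 15901543908)) (T.h (P (nat_lit 0)) (T.h (M (nat_lit 186710387975)) (T.h (P (nat_lit 0)) (P (nat_lit 475225614252)))))))) (T.h (P (nat_lit 0)) (T.h (T.h (P (nat_lit 1463697684)) (T.h (P (nat_lit 0)) (T.h (M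 (nat_lit 1076605855199)) (T.h (P (nat_lit 0)) (P (nat_lit 38513704551948)))))) (T.h (P (nat_lit 0)) (T.h (T.h (P (nat_lit 70862536944)) (T.h (P (nat_lit 0)) (P (nat_lit 10158461446356)))) (T.h (P (nat_lit 0)) (M (nat_lit 565666078139)))))))) (T.h (T.h (P (nat_lit 0)) (T.h (T.h (P (nat_lit 0)) (T.h (M (nat_lit 145191851603)) (T.h (P (nat_lit 0)) (M (nat_lit 1839642626159))))) (T.h (P (nat_lit 0)) (T.h (T.h (P (nat_lit 0)) (M (nat_lit 302302885751))) (P (nat_lit 0)))))) (T.h (T.h (T.h (M (nat_lit 36667538135)) (T.h (P (nat_lit 0)) (T.h (M (nat_lit 3165813860435)) (T.h (P (nat_lit 0)) (M (nat_lit 33923419865999)))))) (T.h (P (nat_lit 0)) (T.h (T.h (M (nat_lit 106631297495)) (T.h (P (nat_lit 0)) (P (nat_lit 38571045274476)))) (T.h (P (nat_lit 0)) (P (nat_lit 10189507619016)))))) (T.h (T.h (P (nat_lit 0)) (T.h (T.h (P (nat_lit 0)) (M (nat_lit 347704528175))) (P (nat_lit 0)))) (T.h (T.h (T.h (P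 (nat_lit 126617465016)) (T.h (P (nat_lit 0)) (P (nat_lit 7311745797372)))) (T.h (P (nat_lit 0)) (M (nat_lit 936880661771)))) (T.h (P (nat_lit 0)) (P (nat_lit 3095750410812)))))))) (P (nat_lit 0))))))))) (T.h (T.h (P (nat_lit 0)) (T.h (P (nat_lit 0)) (T.h (P (nat_lit 0)) (T.h (T.h (T.h (P (nat_lit 0)) (T.h (T.h (P (nat_lit 0)) (T.h (M (nat_lit 10188117275)) (T.h (P (nat_lit 0)) (T.h (M (nat_lit 289492501943)) (T.h (P (nat_lit 0)) (P (nat_lit 3003203383088))))))) (T.h (P (nat_lit 0)) (T.h (T.h (P (nat_lit 0)) (T.h (M (nat_lit 1235885130399)) (T.h (P (nat_lit 0)) (P (nat_lit 1966661698856))))) (T.h (P (nat_lit 0)) (T.h (T.h (P (nat_lit 0)) (P (nat_lit 1171355861856))) (P (nat_lit 0)))))))) (T.h (T.h (T.h (P (nat_lit 112779468)) (T.h (P (nat_lit 0)) (T.h (M (nat_lit 179963960199)) (T.h (P (nat_lit 0)) (M (nat_lit 1284208178915)))))) (T.h (P (nat_lit 0)) (T.h (T.h (P (nat_lit 84591741452)) (T.h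 (P (nat_lit 0)) (M (nat_lit 300080235339)))) (T.h (P (nat_lit 0)) (M (nat_lit 2849220224187)))))) (T.h (T.h (P (nat_lit 0)) (T.h (T.h (P (nat_lit 0)) (T.h (P (nat_lit 718102956600)) (T.h (P (nat_lit 0)) (M (nat_lit 63604589544415))))) (T.h (P (nat_lit 0)) (T.h (T.h (P (nat_lit 0)) (M (nat_lit 22567072608731))) (P (nat_lit 0)))))) (T.h (T.h (T.h (M (nat_lit 40734978351)) (T.h (P (nat_lit 0)) (M (nat_lit 18275141232347)))) (T.h (P (nat_lit 0)) (P (nat_lit 787209971636)))) (T.h (T.h (P (nat_lit 0)) (T.h (T.h (P (nat_lit 0)) (M (nat_lit 13505831993627))) (P (nat_lit 0)))) (P (nat_lit 215985242236))))))) (T.h (P (nat_lit 0)) (T.h (T.h (T.h (P (nat_lit 0)) (T.h (T.h (P (nat_lit 0)) (T.h (M (nat_lit 26272006595)) (T.h (P (nat_lit 0)) (T.h (P (nat_lit 4097449837440)) (T.h (P (nat_lit 0)) (M (nat_lit 22092227591795))))))) (T.h (P (nat_lit 0)) (T.h (T.h (P (nat_lit 0)) (T.h (P (nat_lit 151093377576))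 (T.h (P (nat_lit 0)) (P (nat_lit 10077218385264))))) (T.h (P (nat_lit 0)) (T.h (T.h (P (nat_lit 0)) (M (nat_lit 1522639424339))) (P (nat_lit 0)))))))) (T.h (T.h (T.h (P (nat_lit 3251302704)) (T.h (P (nat_lit 0)) (T.h (P (nat_lit 113641067304)) (T.h (P (nat_lit 0)) (M (nat_lit 14981857269839)))))) (T.h (P (nat_lit 0)) (T.h (T.h (P (nat_lit 147199092192)) (T.h (P (nat_lit 0)) (M (nat_lit 9575825675039)))) (T.h (P (nat_lit 0)) (M (nat_lit 465691554791)))))) (T.h (T.h (P (nat_lit 0)) (T.h (T.h (P (nat_lit 0)) (T.h (M (nat_lit 1525095631583)) (T.h (P (nat_lit 0)) (M (nat_lit 120174026721299))))) (T.h (P (nat_lit 0)) (T.h (T.h (P (nat_lit 0)) (M (nat_lit 33850163526803))) (P (nat_lit 0)))))) (T.h (T.h (T.h (M (nat_lit 971363519)) (T.h (P (nat_lit 0)) (P (nat_lit 51096007737936)))) (T.h (P (nat_lit 0)) (P (nat_lit 2422940086440)))) (T.h (T.h (P (nat_lit 0)) (T.h (T.h (P (nat_lit 0)) (P (nat_lit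 53225593571052))) (P (nat_lit 0)))) (M (nat_lit 515480613263))))))) (P (nat_lit 0)))))))) et0_8))
def et0_10 : T ℤ := (T.h (T.h (T.h (T.h (T.h (P (nat_lit 0)) (T.h (M (nat_lit 380585183)) (T.h (P (nat_lit 0)) (T.h (P (nat_lit 205073024)) (T.h (P (nat_lit 0)) (P (nat_lit 130283699624))))))) (T.h (P (nat_lit 0)) (T.h (T.h (P (nat_lit 0)) (T.h (P (nat_lit 34090970220)) (T.h (P (nat_lit 0)) (M (nat_lit 1150946715995))))) (T.h (P (nat_lit 0)) (T.h (T.h (P (nat_lit 0)) (M (nat_lit 943217552495))) (P (nat_lit 0))))))) (T.h (T.h (P (nat_lit 0)) (T.h (T.h (P (nat_lit 28677144144)) (T.h (P (nat_lit 0)) (T.h (M (nat_lit 55620779983)) (T.h (P (nat_lit 0)) (M (nat_lit 47807690468903)))))) (T.h (P (nat_lit 0)) (T.h (T.h (P (nat_lit 950964428536)) (T.h (P (nat_lit 0)) (M (nat_lit 12007560181619)))) (T.h (P (nat_lit 0)) (M (nat_lit 4128470483571))))))) (T.h (T.h (T.h (P (nat_lit 0)) (T.h (P (nat_lit 34090970220))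 (T.h (P (nat_lit 0)) (M (nat_lit 1150946715995))))) (T.h (P (nat_lit 0)) (T.h (T.h (P (nat_lit 0)) (M (nat_lit 8161483779263))) (P (nat_lit 0))))) (T.h (T.h (P (nat_lit 0)) (T.h (T.h (P (nat_lit 950964428536)) (T.h (P (nat_lit 0)) (M (nat_lit 12007560181619)))) (T.h (P (nat_lit 0)) (P (nat_lit 99944669424280))))) (T.h (T.h (T.h (P (nat_lit 0)) (M (nat_lit 943217552495))) (P (nat_lit 0))) (T.h (T.h (P (nat_lit 0)) (M (nat_lit 4128470483571))) (P (nat_lit 0)))))))) (T.h (P (nat_lit 0)) (T.h (T.h (T.h (T.h (P (nat_lit 0)) (T.h (M (nat_lit 4770701423)) (T.h (P (nat_lit 0)) (T.h (M (nat_lit 214484006447)) (T.h (P (nat_lit 0)) (P (nat_lit 4109813206848))))))) (T.h (P (nat_lit 0)) (T.h (T.h (P (nat_lit 0)) (T.h (M (nat_lit 799491782555)) (T.h (P (nat_lit 0)) (M (nat_lit 22167179363195))))) (T.h (P (nat_lit 0)) (T.h (T.h (P (nat_lit 0)) (M (nat_lit 545514413687))) (P (nat_lit 0))))))) (T.h (T.h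 (P (nat_lit 0)) (T.h (T.h (P (nat_lit 98143747128)) (T.h (P (nat_lit 0)) (T.h (M (nat_lit 6933244535567)) (T.h (P (nat_lit 0)) (P (nat_lit 109842625201896)))))) (T.h (P (nat_lit 0)) (T.h (T.h (P (nat_lit 4620184241904)) (T.h (P (nat_lit 0)) (P (nat_lit 212744340974484)))) (T.h (P (nat_lit 0)) (M (nat_lit 84417781842071))))))) (T.h (T.h (T.h (P (nat_lit 0)) (T.h (M (nat_lit 799491782555)) (T.h (P (nat_lit 0)) (M (nat_lit 22167179363195))))) (T.h (P (nat_lit 0)) (T.h (T.h (P (nat_lit 0)) (P (nat_lit 5017804628544))) (P (nat_lit 0))))) (T.h (T.h (P (nat_lit 0)) (T.h (T.h (P (nat_lit 4620184241904)) (T.h (P (nat_lit 0)) (P (nat_lit 212744340974484)))) (T.h (P (nat_lit 0)) (P (nat_lit 24891640205112))))) (T.h (T.h (T.h (P (nat_lit 0)) (M (nat_lit 545514413687))) (P (nat_lit 0))) (T.h (T.h (P (nat_lit 0)) (M (nat_lit 84417781842071))) (P (nat_lit 0)))))))) (P (nat_lit 0))))) (T.h (T.h (P (nat_lit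 0)) (T.h (T.h (T.h (P (nat_lit 0)) (T.h (T.h (P (nat_lit 2403509400)) (T.h (P (nat_lit 0)) (T.h (P (nat_lit 7816883940)) (T.h (P (nat_lit 0)) (P (nat_lit 1248327291672)))))) (T.h (P (nat_lit 0)) (T.h (T.h (P (nat_lit 11111886540)) (T.h (P (nat_lit 0)) (M (nat_lit 5937059793815)))) (T.h (P (nat_lit 0)) (P (nat_lit 15836153299524))))))) (T.h (T.h (T.h (P (nat_lit 0)) (T.h (M (nat_lit 46078073675)) (T.h (P (nat_lit 0)) (T.h (M (nat_lit 1259517267935)) (T.h (P (nat_lit 0)) (P (nat_lit 14957200929816))))))) (T.h (P (nat_lit 0)) (T.h (T.h (P (nat_lit 0)) (T.h (M (nat_lit 6442050540275)) (T.h (P (nat_lit 0)) (P (nat_lit 26463233173896))))) (T.h (P (nat_lit 0)) (T.h (T.h (P (nat_lit 0)) (P (nat_lit 123350667690312))) (P (nat_lit 0))))))) (T.h (T.h (P (nat_lit 0)) (T.h (T.h (P (nat_lit 199954791360)) (T.h (P (nat_lit 0)) (P (nat_lit 16136642326860)))) (T.h (P (nat_lit 0)) (P (nat_lit 9769089702852)))))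 (T.h (T.h (T.h (P (nat_lit 0)) (T.h (M (nat_lit 248777592587)) (T.h (P (nat_lit 0)) (M (nat_lit 19998293110055))))) (T.h (P (nat_lit 0)) (T.h (T.h (P (nat_lit 0)) (P (nat_lit 46828508637888))) (P (nat_lit 0))))) (T.h (T.h (P (nat_lit 0)) (P (nat_lit 10223270913132))) (T.h (T.h (T.h (P (nat_lit 0)) (M (nat_lit 2140594559207))) (P (nat_lit 0))) (P (nat_lit 0)))))))) (P (nat_lit 0)))) (T.h (T.h (T.h (T.h (T.h (P (nat_lit 0)) (T.h (P (nat_lit 974420136)) (T.h (P (nat_lit 0)) (T.h (P (nat_lit 738149004)) (T.h (P (nat_lit 0)) (M (nat_lit 205207489763))))))) (T.h (P (nat_lit 0)) (T.h (T.h (P (nat_lit 0)) (T.h (M (nat_lit 21703294943)) (T.h (P (nat_lit 0)) (P (nat_lit 1686447113832))))) (T.h (P (nat_lit 0)) (T.h (T.h (P (nat_lit 0)) (M (nat_lit 13075078089815))) (P (nat_lit 0))))))) (T.h (T.h (P (nat_lit 0)) (T.h (T.h (M (nat_lit 866176523)) (T.h (P (nat_lit 0)) (T.h (M (nat_lit 83695695803)) (T.h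 (P (nat_lit 0)) (P (nat_lit 58879398716352)))))) (T.h (P (nat_lit 0)) (T.h (T.h (M (nat_lit 5251042195199)) (T.h (P (nat_lit 0)) (P (nat_lit 27915964147800)))) (T.h (P (nat_lit 0)) (M (nat_lit 104524988496551))))))) (T.h (T.h (T.h (P (nat_lit 0)) (T.h (P (nat_lit 2996216820)) (T.h (P (nat_lit 0)) (P (nat_lit 169969095792))))) (T.h (P (nat_lit 0)) (T.h (T.h (P (nat_lit 0)) (P (nat_lit 4240528819632))) (P (nat_lit 0))))) (T.h (T.h (P (nat_lit 0)) (T.h (T.h (P (nat_lit 617700170592)) (T.h (P (nat_lit 0)) (M (nat_lit 39363687414575)))) (T.h (P (nat_lit 0)) (M (nat_lit 89229896893403))))) (T.h (T.h (T.h (P (nat_lit 0)) (P (nat_lit 745302185532))) (P (nat_lit 0))) (T.h (T.h (P (nat_lit 0)) (P (nat_lit 38371079794356))) (P (nat_lit 0)))))))) (P (nat_lit 0))) (P (nat_lit 0)))))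
def et0_11 : T ℤ := (T.h (T.h (P (nat_lit 0)) (T.h (P (nat_lit 0)) (T.h (T.h (T.h (T.h (P (nat_lit 0)) (T.h (P (nat_lit 112779468)) (T.h (P (nat_lit 0)) (T.h (M (nat_lit 40734978351)) (T.h (P (nat_lit 0)) (P (nat_lit 215985242236))))))) (T.h (P (nat_lit 0)) (T.h (T.h (P (nat_lit 0)) (T.h (P (nat_lit 84591741452)) (T.h (P (nat_lit 0)) (P (nat_lit 787209971636))))) (T.h (P (nat_lit 0)) (T.h (T.h (P (nat_lit 0)) (M (nat_lit 2849220224187))) (P (nat_lit 0))))))) (T.h (T.h (P (nat_lit 0)) (T.h (T.h (M (nat_lit 10188117275)) (T.h (P (nat_lit 0)) (T.h (P (nat_lit 718102956600)) (T.h (P (nat_lit 0)) (M (nat_lit 13505831993627)))))) (T.h (P (nat_lit 0)) (T.h (T.h (M (nat_lit 1235885130399)) (T.h (P (nat_lit 0)) (M (nat_lit 22567072608731)))) (T.h (P (nat_lit 0)) (P (nat_lit 1171355861856))))))) (T.h (T.h (T.h (P (nat_lit 0)) (T.h (M (nat_lit 179963960199)) (T.h (P (nat_lit 0)) (M (nat_lit 18275141232347)))))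 (T.h (P (nat_lit 0)) (T.h (T.h (P (nat_lit 0)) (M (nat_lit 300080235339))) (P (nat_lit 0))))) (T.h (T.h (P (nat_lit 0)) (T.h (T.h (M (nat_lit 289492501943)) (T.h (P (nat_lit 0)) (M (nat_lit 63604589544415)))) (T.h (P (nat_lit 0)) (P (nat_lit 1966661698856))))) (T.h (T.h (T.h (P (nat_lit 0)) (M (nat_lit 1284208178915))) (P (nat_lit 0))) (T.h (T.h (P (nat_lit 0)) (P (nat_lit 3003203383088))) (P (nat_lit 0)))))))) (T.h (P (nat_lit 0)) (T.h (T.h (T.h (T.h (P (nat_lit 0)) (T.h (P (nat_lit 2403509400)) (T.h (P (nat_lit 0)) (T.h (P (nat_lit 11111886540)) (T.h (P (nat_lit 0)) (P (nat_lit 15836153299524))))))) (T.h (P (nat_lit 0)) (T.h (T.h (P (nat_lit 0)) (T.h (P (nat_lit 7816883940)) (T.h (P (nat_lit 0)) (M (nat_lit 5937059793815))))) (T.h (P (nat_lit 0)) (T.h (T.h (P (nat_lit 0)) (P (nat_lit 1248327291672))) (P (nat_lit 0))))))) (T.h (T.h (P (nat_lit 0)) (T.h (T.h (M (nat_lit 46078073675)) (T.h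 (P (nat_lit 0)) (T.h (M (nat_lit 6442050540275)) (T.h (P (nat_lit 0)) (P (nat_lit 123350667690312)))))) (T.h (P (nat_lit 0)) (T.h (T.h (M (nat_lit 1259517267935)) (T.h (P (nat_lit 0)) (P (nat_lit 26463233173896)))) (T.h (P (nat_lit 0)) (P (nat_lit 14957200929816))))))) (T.h (T.h (T.h (P (nat_lit 0)) (T.h (P (nat_lit 199954791360)) (T.h (P (nat_lit 0)) (P (nat_lit 9769089702852))))) (T.h (P (nat_lit 0)) (T.h (T.h (P (nat_lit 0)) (P (nat_lit 16136642326860))) (P (nat_lit 0))))) (T.h (T.h (P (nat_lit 0)) (T.h (T.h (M (nat_lit 248777592587)) (T.h (P (nat_lit 0)) (P (nat_lit 46828508637888)))) (T.h (P (nat_lit 0)) (M (nat_lit 19998293110055))))) (T.h (T.h (T.h (P (nat_lit 0)) (P (nat_lit 10223270913132))) (P (nat_lit 0))) (T.h (T.h (P (nat_lit 0)) (M (nat_lit 2140594559207))) (P (nat_lit 0)))))))) (P (nat_lit 0))))))) (T.h (T.h (P (nat_lit 0)) (T.h (T.h (T.h (P (nat_lit 0)) (T.h (T.h (P (nat_lit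 112779468)) (T.h (P (nat_lit 0)) (T.h (P (nat_lit 84591741452)) (T.h (P (nat_lit 0)) (M (nat_lit 2849220224187)))))) (T.h (P (nat_lit 0)) (T.h (T.h (M (nat_lit 40734978351)) (T.h (P (nat_lit 0)) (P (nat_lit 787209971636)))) (T.h (P (nat_lit 0)) (P (nat_lit 215985242236))))))) (T.h (T.h (T.h (P (nat_lit 0)) (T.h (M (nat_lit 10188117275)) (T.h (P (nat_lit 0)) (T.h (M (nat_lit 1235885130399)) (T.h (P (nat_lit 0)) (P (nat_lit 1171355861856))))))) (T.h (P (nat_lit 0)) (T.h (T.h (P (nat_lit 0)) (T.h (P (nat_lit 718102956600)) (T.h (P (nat_lit 0)) (M (nat_lit 22567072608731))))) (T.h (P (nat_lit 0)) (T.h (T.h (P (nat_lit 0)) (M (nat_lit 13505831993627))) (P (nat_lit 0))))))) (T.h (T.h (P (nat_lit 0)) (T.h (T.h (M (nat_lit 179963960199)) (T.h (P (nat_lit 0)) (M (nat_lit 300080235339)))) (T.h (P (nat_lit 0)) (M (nat_lit 18275141232347))))) (T.h (T.h (T.h (P (nat_lit 0)) (T.h (M (nat_lit 289492501943))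 (T.h (P (nat_lit 0)) (P (nat_lit 1966661698856))))) (T.h (P (nat_lit 0)) (T.h (T.h (P (nat_lit 0)) (M (nat_lit 63604589544415))) (P (nat_lit 0))))) (T.h (T.h (P (nat_lit 0)) (M (nat_lit 1284208178915))) (T.h (T.h (T.h (P (nat_lit 0)) (P (nat_lit 3003203383088))) (P (nat_lit 0))) (P (nat_lit 0)))))))) (T.h (P (nat_lit 0)) (T.h (T.h (T.h (P (nat_lit 0)) (T.h (T.h (M (nat_lit 4770701423)) (T.h (P (nat_lit 0)) (T.h (M (nat_lit 799491782555)) (T.h (P (nat_lit 0)) (M (nat_lit 545514413687)))))) (T.h (P (nat_lit 0)) (T.h (T.h (M (nat_lit 214484006447)) (T.h (P (nat_lit 0)) (M (nat_lit 22167179363195)))) (T.h (P (nat_lit 0)) (P (nat_lit 4109813206848))))))) (T.h (T.h (T.h (P (nat_lit 0)) (T.h (P (nat_lit 98143747128)) (T.h (P (nat_lit 0)) (T.h (P (nat_lit 4620184241904)) (T.h (P (nat_lit 0)) (M (nat_lit 84417781842071))))))) (T.h (P (nat_lit 0)) (T.h (T.h (P (nat_lit 0)) (T.h (M (nat_lit 6933244535567))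 (T.h (P (nat_lit 0)) (P (nat_lit 212744340974484))))) (T.h (P (nat_lit 0)) (T.h (T.h (P (nat_lit 0)) (P (nat_lit 109842625201896))) (P (nat_lit 0))))))) (T.h (T.h (P (nat_lit 0)) (T.h (T.h (M (nat_lit 799491782555)) (T.h (P (nat_lit 0)) (P (nat_lit 5017804628544)))) (T.h (P (nat_lit 0)) (M (nat_lit 22167179363195))))) (T.h (T.h (T.h (P (nat_lit 0)) (T.h (P (nat_lit 4620184241904)) (T.h (P (nat_lit 0)) (P (nat_lit 24891640205112))))) (T.h (P (nat_lit 0)) (T.h (T.h (P (nat_lit 0)) (P (nat_lit 212744340974484))) (P (nat_lit 0))))) (T.h (T.h (P (nat_lit 0)) (M (nat_lit 545514413687))) (T.h (T.h (T.h (P (nat_lit 0)) (M (nat_lit 84417781842071))) (P (nat_lit 0))) (P (nat_lit 0)))))))) (P (nat_lit 0)))))) et0_10))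
def et0_12 : T ℤ := (T.h (T.h (T.h (T.h (T.h (M (nat_lit 145059871)) (T.h (P (nat_lit 0)) (T.h (M (nat_lit 1174638463)) (T.h (P (nat_lit 0)) (T.h (M (nat_lit 36769800823)) (T.h (P (nat_lit 0)) (P (nat_lit 306519603284)))))))) (T.h (P (nat_lit 0)) (T.h (T.h (P (nat_lit 12646789416)) (T.h (P (nat_lit 0)) (T.h (M (nat_lit 7588291315)) (T.h (P (nat_lit 0)) (M (nat_lit 970238430407)))))) (T.h (P (nat_lit 0)) (T.h (T.h (P (nat_lit 13050757848)) (T.h (P (nat_lit 0)) (P (nat_lit 583169384160)))) (T.h (P (nat_lit 0)) (M (nat_lit 1276702997615)))))))) (T.h (T.h (P (nat_lit 0)) (T.h (T.h (P (nat_lit 0)) (T.h (M (nat_lit 28439511831)) (T.h (P (nat_lit 0)) (P (nat_lit 967651227500))))) (T.h (P (nat_lit 0)) (T.h (T.h (P (nat_lit 0)) (M (nat_lit 159545156199))) (P (nat_lit 0)))))) (T.h (T.h (T.h (P (nat_lit 278844076)) (T.h (P (nat_lit 0)) (T.h (P (nat_lit 535161740848)) (T.h (P (nat_lit 0)) (P (nat_lit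 1034020504512)))))) (T.h (P (nat_lit 0)) (T.h (T.h (P (nat_lit 247132360104)) (T.h (P (nat_lit 0)) (P (nat_lit 5876987774872)))) (T.h (P (nat_lit 0)) (P (nat_lit 8958546609816)))))) (T.h (T.h (P (nat_lit 0)) (T.h (T.h (P (nat_lit 0)) (M (nat_lit 2436042908715))) (P (nat_lit 0)))) (T.h (T.h (T.h (M (nat_lit 572582162667)) (T.h (P (nat_lit 0)) (M (nat_lit 13013129777831)))) (T.h (P (nat_lit 0)) (P (nat_lit 4780914474384)))) (T.h (P (nat_lit 0)) (M (nat_lit 8398807895027)))))))) (T.h (P (nat_lit 0)) (T.h (T.h (T.h (T.h (M (nat_lit 451912823)) (T.h (P (nat_lit 0)) (T.h (M (nat_lit 9096388703)) (T.h (P (nat_lit 0)) (T.h (P (nat_lit 125046601740)) (T.h (P (nat_lit 0)) (M (nat_lit 11065434954731)))))))) (T.h (P (nat_lit 0)) (T.h (T.h (M (nat_lit 9096388703)) (T.h (P (nat_lit 0)) (T.h (M (nat_lit 5815576996631)) (T.h (P (nat_lit 0)) (M (nat_lit 20998742882147)))))) (T.h (P (nat_lit 0)) (T.h (T.h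 (P (nat_lit 125046601740)) (T.h (P (nat_lit 0)) (M (nat_lit 20998742882147)))) (T.h (P (nat_lit 0)) (M (nat_lit 11065434954731)))))))) (T.h (T.h (P (nat_lit 0)) (T.h (T.h (P (nat_lit 0)) (T.h (P (nat_lit 45711588600)) (T.h (P (nat_lit 0)) (M (nat_lit 18895557685571))))) (T.h (P (nat_lit 0)) (T.h (T.h (P (nat_lit 0)) (M (nat_lit 18895557685571))) (P (nat_lit 0)))))) (T.h (T.h (T.h (P (nat_lit 17334966960)) (T.h (P (nat_lit 0)) (T.h (P (nat_lit 8686568580156)) (T.h (P (nat_lit 0)) (M (nat_lit 12040631654939)))))) (T.h (P (nat_lit 0)) (T.h (T.h (P (nat_lit 8686568580156)) (T.h (P (nat_lit 0)) (M (nat_lit 35003688764039)))) (T.h (P (nat_lit 0)) (M (nat_lit 12040631654939)))))) (T.h (T.h (P (nat_lit 0)) (T.h (T.h (P (nat_lit 0)) (P (nat_lit 15867561584016))) (P (nat_lit 0)))) (T.h (T.h (T.h (M (nat_lit 3451662427607)) (T.h (P (nat_lit 0)) (P (nat_lit 35009145344808)))) (T.h (P (nat_lit 0)) (P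 (nat_lit 35009145344808)))) (T.h (P (nat_lit 0)) (M (nat_lit 83767500185687)))))))) (P (nat_lit 0))))) (T.h (T.h (P (nat_lit 0)) (T.h (T.h (T.h (P (nat_lit 0)) (T.h (T.h (P (nat_lit 0)) (T.h (M (nat_lit 46078073675)) (T.h (P (nat_lit 0)) (T.h (M (nat_lit 1259517267935)) (T.h (P (nat_lit 0)) (P (nat_lit 14957200929816))))))) (T.h (P (nat_lit 0)) (T.h (T.h (P (nat_lit 0)) (T.h (M (nat_lit 248777592587)) (T.h (P (nat_lit 0)) (M (nat_lit 19998293110055))))) (T.h (P (nat_lit 0)) (T.h (T.h (P (nat_lit 0)) (M (nat_lit 2140594559207))) (P (nat_lit 0)))))))) (T.h (T.h (T.h (P (nat_lit 2403509400)) (T.h (P (nat_lit 0)) (T.h (P (nat_lit 7816883940)) (T.h (P (nat_lit 0)) (P (nat_lit 1248327291672)))))) (T.h (P (nat_lit 0)) (T.h (T.h (P (nat_lit 199954791360)) (T.h (P (nat_lit 0)) (P (nat_lit 16136642326860)))) (T.h (P (nat_lit 0)) (P (nat_lit 10223270913132)))))) (T.h (T.h (P (nat_lit 0)) (T.h (T.h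 (P (nat_lit 0)) (T.h (M (nat_lit 6442050540275)) (T.h (P (nat_lit 0)) (P (nat_lit 26463233173896))))) (T.h (P (nat_lit 0)) (T.h (T.h (P (nat_lit 0)) (P (nat_lit 46828508637888))) (P (nat_lit 0)))))) (T.h (T.h (T.h (P (nat_lit 11111886540)) (T.h (P (nat_lit 0)) (M (nat_lit 5937059793815)))) (T.h (P (nat_lit 0)) (P (nat_lit 9769089702852)))) (T.h (T.h (P (nat_lit 0)) (T.h (T.h (P (nat_lit 0)) (P (nat_lit 123350667690312))) (P (nat_lit 0)))) (P (nat_lit 15836153299524))))))) (P (nat_lit 0)))) (T.h (T.h (T.h (T.h (T.h (M (nat_lit 127743479)) (T.h (P (nat_lit 0)) (T.h (M (nat_lit 725895791)) (T.h (P (nat_lit 0)) (T.h (M (nat_lit 35508317831)) (T.h (P (nat_lit 0)) (P (nat_lit 595076286456)))))))) (T.h (P (nat_lit 0)) (T.h (T.h (P (nat_lit 9454555656)) (T.h (P (nat_lit 0)) (T.h (P (nat_lit 206807742612)) (T.h (P (nat_lit 0)) (M (nat_lit 12940678472507)))))) (T.h (P (nat_lit 0)) (T.h (T.h (P (nat_lit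 2414959226064)) (T.h (P (nat_lit 0)) (M (nat_lit 10430555394347)))) (T.h (P (nat_lit 0)) (P (nat_lit 30950383917672)))))))) (T.h (T.h (P (nat_lit 0)) (T.h (T.h (P (nat_lit 0)) (T.h (P (nat_lit 511491501792)) (T.h (P (nat_lit 0)) (M (nat_lit 8499828452543))))) (T.h (P (nat_lit 0)) (T.h (T.h (P (nat_lit 0)) (P (nat_lit 16012299833136))) (P (nat_lit 0)))))) (T.h (T.h (T.h (P (nat_lit 9454555656)) (T.h (P (nat_lit 0)) (T.h (P (nat_lit 206807742612)) (T.h (P (nat_lit 0)) (M (nat_lit 12940678472507)))))) (T.h (P (nat_lit 0)) (T.h (T.h (P (nat_lit 5969931469632)) (T.h (P (nat_lit 0)) (M (nat_lit 82609559838431)))) (T.h (P (nat_lit 0)) (M (nat_lit 2100754617983)))))) (T.h (T.h (P (nat_lit 0)) (T.h (T.h (P (nat_lit 0)) (P (nat_lit 16012299833136))) (P (nat_lit 0)))) (T.h (T.h (T.h (P (nat_lit 2414959226064)) (T.h (P (nat_lit 0)) (M (nat_lit 10430555394347)))) (T.h (P (nat_lit 0)) (M (nat_lit 2100754617983))))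 (T.h (P (nat_lit 0)) (P (nat_lit 30950383917672)))))))) (P (nat_lit 0))) (P (nat_lit 0)))))
def et0_13 : T ℤ := (T.h (T.h (P (nat_lit 0)) (T.h (P (nat_lit 0)) (T.h (T.h (T.h (T.h (M (nat_lit 145059871)) (T.h (P (nat_lit 0)) (T.h (P (nat_lit 12646789416)) (T.h (P (nat_lit 0)) (T.h (P (nat_lit 13050757848)) (T.h (P (nat_lit 0)) (M (nat_lit 1276702997615)))))))) (T.h (P (nat_lit 0)) (T.h (T.h (M (nat_lit 1174638463)) (T.h (P (nat_lit 0)) (T.h (M (nat_lit 7588291315)) (T.h (P (nat_lit 0)) (P (nat_lit 583169384160)))))) (T.h (P (nat_lit 0)) (T.h (T.h (M (nat_lit 36769800823)) (T.h (P (nat_lit 0)) (M (nat_lit 970238430407)))) (T.h (P (nat_lit 0)) (P (nat_lit 306519603284)))))))) (T.h (T.h (P (nat_lit 0)) (T.h (T.h (P (nat_lit 0)) (T.h (M (nat_lit 28439511831)) (T.h (P (nat_lit 0)) (M (nat_lit 159545156199))))) (T.h (P (nat_lit 0)) (T.h (T.h (P (nat_lit 0)) (P (nat_lit 967651227500))) (P (nat_lit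 0)))))) (T.h (T.h (T.h (P (nat_lit 278844076)) (T.h (P (nat_lit 0)) (T.h (P (nat_lit 247132360104)) (T.h (P (nat_lit 0)) (P (nat_lit 8958546609816)))))) (T.h (P (nat_lit 0)) (T.h (T.h (P (nat_lit 535161740848)) (T.h (P (nat_lit 0)) (P (nat_lit 5876987774872)))) (T.h (P (nat_lit 0)) (P (nat_lit 1034020504512)))))) (T.h (T.h (P (nat_lit 0)) (T.h (T.h (P (nat_lit 0)) (M (nat_lit 2436042908715))) (P (nat_lit 0)))) (T.h (T.h (T.h (M (nat_lit 572582162667)) (T.h (P (nat_lit 0)) (P (nat_lit 4780914474384)))) (T.h (P (nat_lit 0)) (M (nat_lit 13013129777831)))) (T.h (P (nat_lit 0)) (M (nat_lit 8398807895027)))))))) (T.h (P (nat_lit 0)) (T.h (T.h (T.h (T.h (M (nat_lit 127743479)) (T.h (P (nat_lit 0)) (T.h (P (nat_lit 9454555656)) (T.h (P (nat_lit 0)) (T.h (P (nat_lit 2414959226064)) (T.h (P (nat_lit 0)) (P (nat_lit 30950383917672)))))))) (T.h (P (nat_lit 0)) (T.h (T.h (M (nat_lit 725895791)) (T.h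 (P (nat_lit 0)) (T.h (P (nat_lit 206807742612)) (T.h (P (nat_lit 0)) (M (nat_lit 10430555394347)))))) (T.h (P (nat_lit 0)) (T.h (T.h (M (nat_lit 35508317831)) (T.h (P (nat_lit 0)) (M (nat_lit 12940678472507)))) (T.h (P (nat_lit 0)) (P (nat_lit 595076286456)))))))) (T.h (T.h (P (nat_lit 0)) (T.h (T.h (P (nat_lit 0)) (T.h (P (nat_lit 511491501792)) (T.h (P (nat_lit 0)) (P (nat_lit 16012299833136))))) (T.h (P (nat_lit 0)) (T.h (T.h (P (nat_lit 0)) (M (nat_lit 8499828452543))) (P (nat_lit 0)))))) (T.h (T.h (T.h (P (nat_lit 9454555656)) (T.h (P (nat_lit 0)) (T.h (P (nat_lit 5969931469632)) (T.h (P (nat_lit 0)) (M (nat_lit 2100754617983)))))) (T.h (P (nat_lit 0)) (T.h (T.h (P (nat_lit 206807742612)) (T.h (P (nat_lit 0)) (M (nat_lit 82609559838431)))) (T.h (P (nat_lit 0)) (M (nat_lit 12940678472507)))))) (T.h (T.h (P (nat_lit 0)) (T.h (T.h (P (nat_lit 0)) (P (nat_lit 16012299833136))) (P (nat_lit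 0)))) (T.h (T.h (T.h (P (nat_lit 2414959226064)) (T.h (P (nat_lit 0)) (M (nat_lit 2100754617983)))) (T.h (P (nat_lit 0)) (M (nat_lit 10430555394347)))) (T.h (P (nat_lit 0)) (P (nat_lit 30950383917672)))))))) (P (nat_lit 0))))))) (T.h (T.h (P (nat_lit 0)) (T.h (T.h (T.h (P (nat_lit 0)) (T.h (T.h (P (nat_lit 0)) (T.h (M (nat_lit 4150905415)) (T.h (P (nat_lit 0)) (T.h (M (nat_lit 43864580107)) (T.h (P (nat_lit 0)) (P (nat_lit 3002282812516))))))) (T.h (P (nat_lit 0)) (T.h (T.h (P (nat_lit 0)) (T.h (M (nat_lit 43864580107)) (T.h (P (nat_lit 0)) (M (nat_lit 3854792044063))))) (T.h (P (nat_lit 0)) (T.h (T.h (P (nat_lit 0)) (P (nat_lit 3002282812516))) (P (nat_lit 0)))))))) (T.h (T.h (T.h (M (nat_lit 90491319)) (T.h (P (nat_lit 0)) (T.h (P (nat_lit 17877522020)) (T.h (P (nat_lit 0)) (P (nat_lit 881805271784)))))) (T.h (P (nat_lit 0)) (T.h (T.h (P (nat_lit 17877522020)) (T.h (P (nat_lit 0)) (P (nat_lit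 535896436704)))) (T.h (P (nat_lit 0)) (P (nat_lit 881805271784)))))) (T.h (T.h (P (nat_lit 0)) (T.h (T.h (P (nat_lit 0)) (T.h (M (nat_lit 246676799575)) (T.h (P (nat_lit 0)) (P (nat_lit 1312593570340))))) (T.h (P (nat_lit 0)) (T.h (T.h (P (nat_lit 0)) (P (nat_lit 1312593570340))) (P (nat_lit 0)))))) (T.h (T.h (T.h (M (nat_lit 29739764735)) (T.h (P (nat_lit 0)) (M (nat_lit 3862256206331)))) (T.h (P (nat_lit 0)) (M (nat_lit 3862256206331)))) (T.h (T.h (P (nat_lit 0)) (T.h (T.h (P (nat_lit 0)) (P (nat_lit 8434989473504))) (P (nat_lit 0)))) (M (nat_lit 608536130391))))))) (T.h (P (nat_lit 0)) (T.h (T.h (T.h (P (nat_lit 0)) (T.h (T.h (P (nat_lit 0)) (T.h (M (nat_lit 46078073675)) (T.h (P (nat_lit 0)) (T.h (M (nat_lit 248777592587)) (T.h (P (nat_lit 0)) (M (nat_lit 2140594559207))))))) (T.h (P (nat_lit 0)) (T.h (T.h (P (nat_lit 0)) (T.h (M (nat_lit 1259517267935)) (T.h (P (nat_lit 0)) (M (nat_lit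 19998293110055))))) (T.h (P (nat_lit 0)) (T.h (T.h (P (nat_lit 0)) (P (nat_lit 14957200929816))) (P (nat_lit 0)))))))) (T.h (T.h (T.h (P (nat_lit 2403509400)) (T.h (P (nat_lit 0)) (T.h (P (nat_lit 199954791360)) (T.h (P (nat_lit 0)) (P (nat_lit 10223270913132)))))) (T.h (P (nat_lit 0)) (T.h (T.h (P (nat_lit 7816883940)) (T.h (P (nat_lit 0)) (P (nat_lit 16136642326860)))) (T.h (P (nat_lit 0)) (P (nat_lit 1248327291672)))))) (T.h (T.h (P (nat_lit 0)) (T.h (T.h (P (nat_lit 0)) (T.h (M (nat_lit 6442050540275)) (T.h (P (nat_lit 0)) (P (nat_lit 46828508637888))))) (T.h (P (nat_lit 0)) (T.h (T.h (P (nat_lit 0)) (P (nat_lit 26463233173896))) (P (nat_lit 0)))))) (T.h (T.h (T.h (P (nat_lit 11111886540)) (T.h (P (nat_lit 0)) (P (nat_lit 9769089702852)))) (T.h (P (nat_lit 0)) (M (nat_lit 5937059793815)))) (T.h (T.h (P (nat_lit 0)) (T.h (T.h (P (nat_lit 0)) (P (nat_lit 123350667690312))) (P (nat_lit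 0)))) (P (nat_lit 15836153299524))))))) (P (nat_lit 0)))))) et0_12))
def et0_14 : T ℤ := (T.h (T.h (T.h (T.h (T.h (P (nat_lit 0)) (T.h (P (nat_lit 727247928)) (T.h (P (nat_lit 0)) (T.h (P (nat_lit 2270840144)) (T.h (P (nat_lit 0)) (M (nat_lit 66197208039))))))) (T.h (P (nat_lit 0)) (T.h (T.h (P (nat_lit 0)) (T.h (P (nat_lit 5939962672)) (T.h (P (nat_lit 0)) (P (nat_lit 67610077272))))) (T.h (P (nat_lit 0)) (T.h (T.h (P (nat_lit 0)) (M (nat_lit 200169002739))) (P (nat_lit 0))))))) (T.h (T.h (P (nat_lit 0)) (T.h (T.h (M (nat_lit 4713459787)) (T.h (P (nat_lit 0)) (T.h (M (nat_lit 15375279075)) (T.h (P (nat_lit 0)) (P (nat_lit 1597860901704)))))) (T.h (P (nat_lit 0)) (T.h (T.h (M (nat_lit 24013556547)) (T.h (P (nat_lit 0)) (M (nat_lit 1932997777983)))) (T.h (P (nat_lit 0)) (P (nat_lit 542784702264))))))) (T.h (T.h (T.h (P (nat_lit 0)) (T.h (M (nat_lit 14383985407)) (T.h (P (nat_lit 0)) (M (nat_lit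 74378973175))))) (T.h (P (nat_lit 0)) (T.h (T.h (P (nat_lit 0)) (P (nat_lit 199028128140))) (P (nat_lit 0))))) (T.h (T.h (P (nat_lit 0)) (T.h (T.h (P (nat_lit 527549677104)) (T.h (P (nat_lit 0)) (M (nat_lit 4822794107379)))) (T.h (P (nat_lit 0)) (M (nat_lit 4958715993027))))) (T.h (T.h (T.h (P (nat_lit 0)) (P (nat_lit 8165716579480))) (P (nat_lit 0))) (T.h (T.h (P (nat_lit 0)) (P (nat_lit 83985497336616))) (P (nat_lit 0)))))))) (T.h (P (nat_lit 0)) (T.h (T.h (T.h (T.h (P (nat_lit 0)) (T.h (P (nat_lit 3251302704)) (T.h (P (nat_lit 0)) (T.h (M (nat_lit 971363519)) (T.h (P (nat_lit 0)) (M (nat_lit 515480613263))))))) (T.h (P (nat_lit 0)) (T.h (T.h (P (nat_lit 0)) (T.h (P (nat_lit 147199092192)) (T.h (P (nat_lit 0)) (P (nat_lit 2422940086440))))) (T.h (P (nat_lit 0)) (T.h (T.h (P (nat_lit 0)) (M (nat_lit 465691554791))) (P (nat_lit 0))))))) (T.h (T.h (P (nat_lit 0)) (T.h (T.h (M (nat_lit 26272006595))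 (T.h (P (nat_lit 0)) (T.h (M (nat_lit 1525095631583)) (T.h (P (nat_lit 0)) (P (nat_lit 53225593571052)))))) (T.h (P (nat_lit 0)) (T.h (T.h (P (nat_lit 151093377576)) (T.h (P (nat_lit 0)) (M (nat_lit 33850163526803)))) (T.h (P (nat_lit 0)) (M (nat_lit 1522639424339))))))) (T.h (T.h (T.h (P (nat_lit 0)) (T.h (P (nat_lit 113641067304)) (T.h (P (nat_lit 0)) (P (nat_lit 51096007737936))))) (T.h (P (nat_lit 0)) (T.h (T.h (P (nat_lit 0)) (M (nat_lit 9575825675039))) (P (nat_lit 0))))) (T.h (T.h (P (nat_lit 0)) (T.h (T.h (P (nat_lit 4097449837440)) (T.h (P (nat_lit 0)) (M (nat_lit 120174026721299)))) (T.h (P (nat_lit 0)) (P (nat_lit 10077218385264))))) (T.h (T.h (T.h (P (nat_lit 0)) (M (nat_lit 14981857269839))) (P (nat_lit 0))) (T.h (T.h (P (nat_lit 0)) (M (nat_lit 22092227591795))) (P (nat_lit 0)))))))) (P (nat_lit 0))))) (T.h (T.h (P (nat_lit 0)) (T.h (T.h (T.h (P (nat_lit 0)) (T.h (T.h (P (nat_lit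 3251302704)) (T.h (P (nat_lit 0)) (T.h (P (nat_lit 147199092192)) (T.h (P (nat_lit 0)) (M (nat_lit 465691554791)))))) (T.h (P (nat_lit 0)) (T.h (T.h (M (nat_lit 971363519)) (T.h (P (nat_lit 0)) (P (nat_lit 2422940086440)))) (T.h (P (nat_lit 0)) (M (nat_lit 515480613263))))))) (T.h (T.h (T.h (P (nat_lit 0)) (T.h (M (nat_lit 26272006595)) (T.h (P (nat_lit 0)) (T.h (P (nat_lit 151093377576)) (T.h (P (nat_lit 0)) (M (nat_lit 1522639424339))))))) (T.h (P (nat_lit 0)) (T.h (T.h (P (nat_lit 0)) (T.h (M (nat_lit 1525095631583)) (T.h (P (nat_lit 0)) (M (nat_lit 33850163526803))))) (T.h (P (nat_lit 0)) (T.h (T.h (P (nat_lit 0)) (P (nat_lit 53225593571052))) (P (nat_lit 0))))))) (T.h (T.h (P (nat_lit 0)) (T.h (T.h (P (nat_lit 113641067304)) (T.h (P (nat_lit 0)) (M (nat_lit 9575825675039)))) (T.h (P (nat_lit 0)) (P (nat_lit 51096007737936))))) (T.h (T.h (T.h (P (nat_lit 0)) (T.h (P (nat_lit 4097449837440))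 (T.h (P (nat_lit 0)) (P (nat_lit 10077218385264))))) (T.h (P (nat_lit 0)) (T.h (T.h (P (nat_lit 0)) (M (nat_lit 120174026721299))) (P (nat_lit 0))))) (T.h (T.h (P (nat_lit 0)) (M (nat_lit 14981857269839))) (T.h (T.h (T.h (P (nat_lit 0)) (M (nat_lit 22092227591795))) (P (nat_lit 0))) (P (nat_lit 0)))))))) (P (nat_lit 0)))) (T.h (T.h (T.h (T.h (T.h (P (nat_lit 0)) (T.h (P (nat_lit 974420136)) (T.h (P (nat_lit 0)) (T.h (P (nat_lit 738149004)) (T.h (P (nat_lit 0)) (M (nat_lit 205207489763))))))) (T.h (P (nat_lit 0)) (T.h (T.h (P (nat_lit 0)) (T.h (P (nat_lit 2996216820)) (T.h (P (nat_lit 0)) (P (nat_lit 169969095792))))) (T.h (P (nat_lit 0)) (T.h (T.h (P (nat_lit 0)) (P (nat_lit 745302185532))) (P (nat_lit 0))))))) (T.h (T.h (P (nat_lit 0)) (T.h (T.h (M (nat_lit 866176523)) (T.h (P (nat_lit 0)) (T.h (M (nat_lit 83695695803)) (T.h (P (nat_lit 0)) (P (nat_lit 58879398716352)))))) (T.h (P (nat_lit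 0)) (T.h (T.h (P (nat_lit 617700170592)) (T.h (P (nat_lit 0)) (M (nat_lit 39363687414575)))) (T.h (P (nat_lit 0)) (P (nat_lit 38371079794356))))))) (T.h (T.h (T.h (P (nat_lit 0)) (T.h (M (nat_lit 21703294943)) (T.h (P (nat_lit 0)) (P (nat_lit 1686447113832))))) (T.h (P (nat_lit 0)) (T.h (T.h (P (nat_lit 0)) (P (nat_lit 4240528819632))) (P (nat_lit 0))))) (T.h (T.h (P (nat_lit 0)) (T.h (T.h (M (nat_lit 5251042195199)) (T.h (P (nat_lit 0)) (P (nat_lit 27915964147800)))) (T.h (P (nat_lit 0)) (M (nat_lit 89229896893403))))) (T.h (T.h (T.h (P (nat_lit 0)) (M (nat_lit 13075078089815))) (P (nat_lit 0))) (T.h (T.h (P (nat_lit 0)) (M (nat_lit 104524988496551))) (P (nat_lit 0)))))))) (P (nat_lit 0))) (P (nat_lit 0)))))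
def et0_15 : T ℤ := (T.h (T.h (T.h (T.h (T.h (P (nat_lit 12911928)) (T.h (P (nat_lit 0)) (T.h (M (nat_lit 1303148631)) (T.h (P (nat_lit 0)) (T.h (M (nat_lit 3913173139)) (T.h (P (nat_lit 0)) (P (nat_lit 98536653016)))))))) (T.h (P (nat_lit 0)) (T.h (T.h (M (nat_lit 1303148631)) (T.h (P (nat_lit 0)) (T.h (P (nat_lit 4846867096)) (T.h (P (nat_lit 0)) (P (nat_lit 482131375636)))))) (T.h (P (nat_lit 0)) (T.h (T.h (M (nat_lit 3913173139)) (T.h (P (nat_lit 0)) (P (nat_lit 482131375636)))) (T.h (P (nat_lit 0)) (P (nat_lit 98536653016)))))))) (T.h (T.h (P (nat_lit 0)) (T.h (T.h (P (nat_lit 0)) (T.h (M (nat_lit 21313535895)) (T.h (P (nat_lit 0)) (M (nat_lit 92673185607))))) (T.h (P (nat_lit 0)) (T.h (T.h (P (nat_lit 0)) (M (nat_lit 92673185607))) (P (nat_lit 0)))))) (T.h (T.h (T.h (P (nat_lit 7531627320)) (T.h (P (nat_lit 0)) (T.h (M (nat_lit 13672736003)) (T.h (P (nat_lit 0)) (P (nat_lit 3006319719180))))))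 (T.h (P (nat_lit 0)) (T.h (T.h (M (nat_lit 13672736003)) (T.h (P (nat_lit 0)) (P (nat_lit 11592436783600)))) (T.h (P (nat_lit 0)) (P (nat_lit 3006319719180)))))) (T.h (T.h (P (nat_lit 0)) (T.h (T.h (P (nat_lit 0)) (P (nat_lit 1200779653080))) (P (nat_lit 0)))) (T.h (T.h (T.h (P (nat_lit 59453791664)) (T.h (P (nat_lit 0)) (P (nat_lit 1632904085452)))) (T.h (P (nat_lit 0)) (P (nat_lit 1632904085452)))) (T.h (P (nat_lit 0)) (M (nat_lit 2559823167359)))))))) (T.h (P (nat_lit 0)) (T.h (T.h (T.h (T.h (P (nat_lit 367863516)) (T.h (P (nat_lit 0)) (T.h (M (nat_lit 36667538135)) (T.h (P (nat_lit 0)) (T.h (P (nat_lit 126617465016)) (T.h (P (nat_lit 0)) (P (nat_lit 3095750410812)))))))) (T.h (P (nat_lit 0)) (T.h (T.h (P (nat_lit 1463697684)) (T.h (P (nat_lit 0)) (T.h (M (nat_lit 106631297495)) (T.h (P (nat_lit 0)) (M (nat_lit 936880661771)))))) (T.h (P (nat_lit 0)) (T.h (T.h (P (nat_lit 70862536944))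 (T.h (P (nat_lit 0)) (P (nat_lit 10189507619016)))) (T.h (P (nat_lit 0)) (M (nat_lit 565666078139)))))))) (T.h (T.h (P (nat_lit 0)) (T.h (T.h (P (nat_lit 0)) (T.h (M (nat_lit 145191851603)) (T.h (P (nat_lit 0)) (M (nat_lit 347704528175))))) (T.h (P (nat_lit 0)) (T.h (T.h (P (nat_lit 0)) (M (nat_lit 302302885751))) (P (nat_lit 0)))))) (T.h (T.h (T.h (P (nat_lit 15901543908)) (T.h (P (nat_lit 0)) (T.h (M (nat_lit 3165813860435)) (T.h (P (nat_lit 0)) (P (nat_lit 7311745797372)))))) (T.h (P (nat_lit 0)) (T.h (T.h (M (nat_lit 1076605855199)) (T.h (P (nat_lit 0)) (P (nat_lit 38571045274476)))) (T.h (P (nat_lit 0)) (P (nat_lit 10158461446356)))))) (T.h (T.h (P (nat_lit 0)) (T.h (T.h (P (nat_lit 0)) (M (nat_lit 1839642626159))) (P (nat_lit 0)))) (T.h (T.h (T.h (M (nat_lit 186710387975)) (T.h (P (nat_lit 0)) (M (nat_lit 33923419865999)))) (T.h (P (nat_lit 0)) (P (nat_lit 38513704551948)))) (T.h (P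 (nat_lit 0)) (P (nat_lit 475225614252)))))))) (P (nat_lit 0))))) (T.h (T.h (P (nat_lit 0)) (T.h (T.h (T.h (P (nat_lit 0)) (T.h (T.h (P (nat_lit 0)) (T.h (P (nat_lit 12405923424)) (T.h (P (nat_lit 0)) (T.h (P (nat_lit 332036269128)) (T.h (P (nat_lit 0)) (M (nat_lit 6400866618791))))))) (T.h (P (nat_lit 0)) (T.h (T.h (P (nat_lit 0)) (T.h (P (nat_lit 332036269128)) (T.h (P (nat_lit 0)) (P (nat_lit 21453562773072))))) (T.h (P (nat_lit 0)) (T.h (T.h (P (nat_lit 0)) (M (nat_lit 6400866618791))) (P (nat_lit 0)))))))) (T.h (T.h (T.h (M (nat_lit 10140119)) (T.h (P (nat_lit 0)) (T.h (P (nat_lit 83117764404)) (T.h (P (nat_lit 0)) (M (nat_lit 514722505355)))))) (T.h (P (nat_lit 0)) (T.h (T.h (P (nat_lit 83117764404)) (T.h (P (nat_lit 0)) (M (nat_lit 7778327025959)))) (T.h (P (nat_lit 0)) (M (nat_lit 514722505355)))))) (T.h (T.h (P (nat_lit 0)) (T.h (T.h (P (nat_lit 0)) (T.h (P (nat_lit 4216622004216))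 (T.h (P (nat_lit 0)) (M (nat_lit 17990345276819))))) (T.h (P (nat_lit 0)) (T.h (T.h (P (nat_lit 0)) (M (nat_lit 17990345276819))) (P (nat_lit 0)))))) (T.h (T.h (T.h (M (nat_lit 260123720255)) (T.h (P (nat_lit 0)) (M (nat_lit 8338644534887)))) (T.h (P (nat_lit 0)) (M (nat_lit 8338644534887)))) (T.h (T.h (P (nat_lit 0)) (T.h (T.h (P (nat_lit 0)) (M (nat_lit 88731561490631))) (P (nat_lit 0)))) (M (nat_lit 6748082270207))))))) (P (nat_lit 0)))) (T.h (T.h (T.h (T.h (T.h (P (nat_lit 367863516)) (T.h (P (nat_lit 0)) (T.h (P (nat_lit 1463697684)) (T.h (P (nat_lit 0)) (T.h (P (nat_lit 70862536944)) (T.h (P (nat_lit 0)) (M (nat_lit 565666078139)))))))) (T.h (P (nat_lit 0)) (T.h (T.h (M (nat_lit 36667538135)) (T.h (P (nat_lit 0)) (T.h (M (nat_lit 106631297495)) (T.h (P (nat_lit 0)) (P (nat_lit 10189507619016)))))) (T.h (P (nat_lit 0)) (T.h (T.h (P (nat_lit 126617465016)) (T.h (P (nat_lit 0)) (M (nat_lit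 936880661771)))) (T.h (P (nat_lit 0)) (P (nat_lit 3095750410812)))))))) (T.h (T.h (P (nat_lit 0)) (T.h (T.h (P (nat_lit 0)) (T.h (M (nat_lit 145191851603)) (T.h (P (nat_lit 0)) (M (nat_lit 302302885751))))) (T.h (P (nat_lit 0)) (T.h (T.h (P (nat_lit 0)) (M (nat_lit 347704528175))) (P (nat_lit 0)))))) (T.h (T.h (T.h (P (nat_lit 15901543908)) (T.h (P (nat_lit 0)) (T.h (M (nat_lit 1076605855199)) (T.h (P (nat_lit 0)) (P (nat_lit 10158461446356)))))) (T.h (P (nat_lit 0)) (T.h (T.h (M (nat_lit 3165813860435)) (T.h (P (nat_lit 0)) (P (nat_lit 38571045274476)))) (T.h (P (nat_lit 0)) (P (nat_lit 7311745797372)))))) (T.h (T.h (P (nat_lit 0)) (T.h (T.h (P (nat_lit 0)) (M (nat_lit 1839642626159))) (P (nat_lit 0)))) (T.h (T.h (T.h (M (nat_lit 186710387975)) (T.h (P (nat_lit 0)) (P (nat_lit 38513704551948)))) (T.h (P (nat_lit 0)) (M (nat_lit 33923419865999)))) (T.h (P (nat_lit 0)) (P (nat_lit 475225614252))))))))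 (P (nat_lit 0))) (P (nat_lit 0)))))
def et0_16 : T ℤ := (T.h (T.h (T.h (P (nat_lit 0)) (T.h (T.h (T.h (P (nat_lit 0)) (T.h (T.h (M (nat_lit 1609301771)) (T.h (P (nat_lit 0)) (T.h (P (nat_lit 7673201172)) (T.h (P (nat_lit 0)) (P (nat_lit 1333423079820)))))) (T.h (P (nat_lit 0)) (T.h (T.h (M (nat_lit 3706367903)) (T.h (P (nat_lit 0)) (M (nat_lit 763229306231)))) (T.h (P (nat_lit 0)) (P (nat_lit 135155996928))))))) (T.h (T.h (T.h (P (nat_lit 0)) (T.h (M (nat_lit 8623035251)) (T.h (P (nat_lit 0)) (T.h (P (nat_lit 287791718220)) (T.h (P (nat_lit 0)) (P (nat_lit 935799020748))))))) (T.h (P (nat_lit 0)) (T.h (T.h (P (nat_lit 0)) (T.h (P (nat_lit 28392015204)) (T.h (P (nat_lit 0)) (P (nat_lit 10872841504356))))) (T.h (P (nat_lit 0)) (T.h (T.h (P (nat_lit 0)) (M (nat_lit 4393756093643))) (P (nat_lit 0))))))) (T.h (T.h (P (nat_lit 0)) (T.h (T.h (M (nat_lit 33260338403)) (T.h (P (nat_lit 0)) (P (nat_lit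 1497660347664)))) (T.h (P (nat_lit 0)) (M (nat_lit 301354886735))))) (T.h (T.h (T.h (P (nat_lit 0)) (T.h (M (nat_lit 252502154711)) (T.h (P (nat_lit 0)) (P (nat_lit 3936623009760))))) (T.h (P (nat_lit 0)) (T.h (T.h (P (nat_lit 0)) (P (nat_lit 39440875367232))) (P (nat_lit 0))))) (T.h (T.h (P (nat_lit 0)) (M (nat_lit 10140827320907))) (T.h (T.h (T.h (P (nat_lit 0)) (M (nat_lit 77582298470399))) (P (nat_lit 0))) (P (nat_lit 0)))))))) (P (nat_lit 0)))) (T.h (T.h (T.h (T.h (T.h (P (nat_lit 0)) (T.h (M (nat_lit 1609301771)) (T.h (P (nat_lit 0)) (T.h (M (nat_lit 3706367903)) (T.h (P (nat_lit 0)) (P (nat_lit 135155996928))))))) (T.h (P (nat_lit 0)) (T.h (T.h (P (nat_lit 0)) (T.h (P (nat_lit 7673201172)) (T.h (P (nat_lit 0)) (M (nat_lit 763229306231))))) (T.h (P (nat_lit 0)) (T.h (T.h (P (nat_lit 0)) (P (nat_lit 1333423079820))) (P (nat_lit 0))))))) (T.h (T.h (P (nat_lit 0)) (T.h (T.h (M (nat_lit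 8623035251)) (T.h (P (nat_lit 0)) (T.h (P (nat_lit 28392015204)) (T.h (P (nat_lit 0)) (M (nat_lit 4393756093643)))))) (T.h (P (nat_lit 0)) (T.h (T.h (P (nat_lit 287791718220)) (T.h (P (nat_lit 0)) (P (nat_lit 10872841504356)))) (T.h (P (nat_lit 0)) (P (nat_lit 935799020748))))))) (T.h (T.h (T.h (P (nat_lit 0)) (T.h (M (nat_lit 33260338403)) (T.h (P (nat_lit 0)) (M (nat_lit 301354886735))))) (T.h (P (nat_lit 0)) (T.h (T.h (P (nat_lit 0)) (P (nat_lit 1497660347664))) (P (nat_lit 0))))) (T.h (T.h (P (nat_lit 0)) (T.h (T.h (M (nat_lit 252502154711)) (T.h (P (nat_lit 0)) (P (nat_lit 39440875367232)))) (T.h (P (nat_lit 0)) (P (nat_lit 3936623009760))))) (T.h (T.h (T.h (P (nat_lit 0)) (M (nat_lit 10140827320907))) (P (nat_lit 0))) (T.h (T.h (P (nat_lit 0)) (M (nat_lit 77582298470399))) (P (nat_lit 0)))))))) (P (nat_lit 0))) (P (nat_lit 0)))) (T.h (T.h (T.h (T.h (T.h (T.h (M (nat_lit 23241455))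 (T.h (P (nat_lit 0)) (T.h (P (nat_lit 2223892512)) (T.h (P (nat_lit 0)) (T.h (P (nat_lit 6806597904)) (T.h (P (nat_lit 0)) (M (nat_lit 121270638383)))))))) (T.h (P (nat_lit 0)) (T.h (T.h (P (nat_lit 2223892512)) (T.h (P (nat_lit 0)) (T.h (M (nat_lit 8724360671)) (T.h (P (nat_lit 0)) (M (nat_lit 1619832359951)))))) (T.h (P (nat_lit 0)) (T.h (T.h (P (nat_lit 6806597904)) (T.h (P (nat_lit 0)) (M (nat_lit 1619832359951)))) (T.h (P (nat_lit 0)) (M (nat_lit 121270638383)))))))) (T.h (T.h (P (nat_lit 0)) (T.h (T.h (P (nat_lit 0)) (T.h (P (nat_lit 38364364296)) (T.h (P (nat_lit 0)) (P (nat_lit 220641694200))))) (T.h (P (nat_lit 0)) (T.h (T.h (P (nat_lit 0)) (P (nat_lit 220641694200))) (P (nat_lit 0)))))) (T.h (T.h (T.h (M (nat_lit 13556929175)) (T.h (P (nat_lit 0)) (T.h (P (nat_lit 82792387152)) (T.h (P (nat_lit 0)) (M (nat_lit 5455764934091)))))) (T.h (P (nat_lit 0)) (T.h (T.h (P (nat_lit 82792387152))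 (T.h (P (nat_lit 0)) (M (nat_lit 20866386276431)))) (T.h (P (nat_lit 0)) (M (nat_lit 5455764934091)))))) (T.h (T.h (P (nat_lit 0)) (T.h (T.h (P (nat_lit 0)) (M (nat_lit 2161403411327))) (P (nat_lit 0)))) (T.h (T.h (T.h (M (nat_lit 107016838847)) (T.h (P (nat_lit 0)) (M (nat_lit 4305923199215)))) (T.h (P (nat_lit 0)) (M (nat_lit 4305923199215)))) (T.h (P (nat_lit 0)) (P (nat_lit 4607679829536)))))))) (P (nat_lit 0))) (P (nat_lit 0))) (P (nat_lit 0))))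
def et0_17 : T ℤ := (T.h (T.h (T.h (P (nat_lit 0)) (T.h (P (nat_lit 0)) (T.h (P (nat_lit 0)) (T.h (T.h (T.h (P (nat_lit 0)) (T.h (T.h (M (nat_lit 380585183)) (T.h (P (nat_lit 0)) (T.h (P (nat_lit 34090970220)) (T.h (P (nat_lit 0)) (M (nat_lit 943217552495)))))) (T.h (P (nat_lit 0)) (T.h (T.h (P (nat_lit 205073024)) (T.h (P (nat_lit 0)) (M (nat_lit 1150946715995)))) (T.h (P (nat_lit 0)) (P (nat_lit 130283699624))))))) (T.h (T.h (T.h (P (nat_lit 0)) (T.h (P (nat_lit 28677144144)) (T.h (P (nat_lit 0)) (T.h (P (nat_lit 950964428536)) (T.h (P (nat_lit 0)) (M (nat_lit 4128470483571))))))) (T.h (P (nat_lit 0)) (T.h (T.h (P (nat_lit 0)) (T.h (M (nat_lit 55620779983)) (T.h (P (nat_lit 0)) (M (nat_lit 12007560181619))))) (T.h (P (nat_lit 0)) (T.h (T.h (P (nat_lit 0)) (M (nat_lit 47807690468903))) (P (nat_lit 0))))))) (T.h (T.h (P (nat_lit 0)) (T.h (T.h (P (nat_lit 34090970220)) (T.h (P (nat_lit 0))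 (M (nat_lit 8161483779263)))) (T.h (P (nat_lit 0)) (M (nat_lit 1150946715995))))) (T.h (T.h (T.h (P (nat_lit 0)) (T.h (P (nat_lit 950964428536)) (T.h (P (nat_lit 0)) (P (nat_lit 99944669424280))))) (T.h (P (nat_lit 0)) (T.h (T.h (P (nat_lit 0)) (M (nat_lit 12007560181619))) (P (nat_lit 0))))) (T.h (T.h (P (nat_lit 0)) (M (nat_lit 943217552495))) (T.h (T.h (T.h (P (nat_lit 0)) (M (nat_lit 4128470483571))) (P (nat_lit 0))) (P (nat_lit 0)))))))) (T.h (P (nat_lit 0)) (T.h (T.h (T.h (P (nat_lit 0)) (T.h (T.h (P (nat_lit 974420136)) (T.h (P (nat_lit 0)) (T.h (M (nat_lit 21703294943)) (T.h (P (nat_lit 0)) (M (nat_lit 13075078089815)))))) (T.h (P (nat_lit 0)) (T.h (T.h (P (nat_lit 738149004)) (T.h (P (nat_lit 0)) (P (nat_lit 1686447113832)))) (T.h (P (nat_lit 0)) (M (nat_lit 205207489763))))))) (T.h (T.h (T.h (P (nat_lit 0)) (T.h (M (nat_lit 866176523)) (T.h (P (nat_lit 0)) (T.h (M (nat_lit 5251042195199))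 (T.h (P (nat_lit 0)) (M (nat_lit 104524988496551))))))) (T.h (P (nat_lit 0)) (T.h (T.h (P (nat_lit 0)) (T.h (M (nat_lit 83695695803)) (T.h (P (nat_lit 0)) (P (nat_lit 27915964147800))))) (T.h (P (nat_lit 0)) (T.h (T.h (P (nat_lit 0)) (P (nat_lit 58879398716352))) (P (nat_lit 0))))))) (T.h (T.h (P (nat_lit 0)) (T.h (T.h (P (nat_lit 2996216820)) (T.h (P (nat_lit 0)) (P (nat_lit 4240528819632)))) (T.h (P (nat_lit 0)) (P (nat_lit 169969095792))))) (T.h (T.h (T.h (P (nat_lit 0)) (T.h (P (nat_lit 617700170592)) (T.h (P (nat_lit 0)) (M (nat_lit 89229896893403))))) (T.h (P (nat_lit 0)) (T.h (T.h (P (nat_lit 0)) (M (nat_lit 39363687414575))) (P (nat_lit 0))))) (T.h (T.h (P (nat_lit 0)) (P (nat_lit 745302185532))) (T.h (T.h (T.h (P (nat_lit 0)) (P (nat_lit 38371079794356))) (P (nat_lit 0))) (P (nat_lit 0)))))))) (P (nat_lit 0)))))))) et0_11) (T.h et0_13 (T.h (T.h (T.h (P (nat_lit 0)) (T.h (T.h (T.h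 (P (nat_lit 0)) (T.h (T.h (P (nat_lit 727247928)) (T.h (P (nat_lit 0)) (T.h (P (nat_lit 5939962672)) (T.h (P (nat_lit 0)) (M (nat_lit 200169002739)))))) (T.h (P (nat_lit 0)) (T.h (T.h (P (nat_lit 2270840144)) (T.h (P (nat_lit 0)) (P (nat_lit 67610077272)))) (T.h (P (nat_lit 0)) (M (nat_lit 66197208039))))))) (T.h (T.h (T.h (P (nat_lit 0)) (T.h (M (nat_lit 4713459787)) (T.h (P (nat_lit 0)) (T.h (M (nat_lit 24013556547)) (T.h (P (nat_lit 0)) (P (nat_lit 542784702264))))))) (T.h (P (nat_lit 0)) (T.h (T.h (P (nat_lit 0)) (T.h (M (nat_lit 15375279075)) (T.h (P (nat_lit 0)) (M (nat_lit 1932997777983))))) (T.h (P (nat_lit 0)) (T.h (T.h (P (nat_lit 0)) (P (nat_lit 1597860901704))) (P (nat_lit 0))))))) (T.h (T.h (P (nat_lit 0)) (T.h (T.h (M (nat_lit 14383985407)) (T.h (P (nat_lit 0)) (P (nat_lit 199028128140)))) (T.h (P (nat_lit 0)) (M (nat_lit 74378973175))))) (T.h (T.h (T.h (P (nat_lit 0)) (T.h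 (P (nat_lit 527549677104)) (T.h (P (nat_lit 0)) (M (nat_lit 4958715993027))))) (T.h (P (nat_lit 0)) (T.h (T.h (P (nat_lit 0)) (M (nat_lit 4822794107379))) (P (nat_lit 0))))) (T.h (T.h (P (nat_lit 0)) (P (nat_lit 8165716579480))) (T.h (T.h (T.h (P (nat_lit 0)) (P (nat_lit 83985497336616))) (P (nat_lit 0))) (P (nat_lit 0)))))))) (T.h (P (nat_lit 0)) (T.h (T.h (T.h (P (nat_lit 0)) (T.h (T.h (P (nat_lit 974420136)) (T.h (P (nat_lit 0)) (T.h (P (nat_lit 2996216820)) (T.h (P (nat_lit 0)) (P (nat_lit 745302185532)))))) (T.h (P (nat_lit 0)) (T.h (T.h (P (nat_lit 738149004)) (T.h (P (nat_lit 0)) (P (nat_lit 169969095792)))) (T.h (P (nat_lit 0)) (M (nat_lit 205207489763))))))) (T.h (T.h (T.h (P (nat_lit 0)) (T.h (M (nat_lit 866176523)) (T.h (P (nat_lit 0)) (T.h (P (nat_lit 617700170592)) (T.h (P (nat_lit 0)) (P (nat_lit 38371079794356))))))) (T.h (P (nat_lit 0)) (T.h (T.h (P (nat_lit 0)) (T.h (M (nat_lit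 83695695803)) (T.h (P (nat_lit 0)) (M (nat_lit 39363687414575))))) (T.h (P (nat_lit 0)) (T.h (T.h (P (nat_lit 0)) (P (nat_lit 58879398716352))) (P (nat_lit 0))))))) (T.h (T.h (P (nat_lit 0)) (T.h (T.h (M (nat_lit 21703294943)) (T.h (P (nat_lit 0)) (P (nat_lit 4240528819632)))) (T.h (P (nat_lit 0)) (P (nat_lit 1686447113832))))) (T.h (T.h (T.h (P (nat_lit 0)) (T.h (M (nat_lit 5251042195199)) (T.h (P (nat_lit 0)) (M (nat_lit 89229896893403))))) (T.h (P (nat_lit 0)) (T.h (T.h (P (nat_lit 0)) (P (nat_lit 27915964147800))) (P (nat_lit 0))))) (T.h (T.h (P (nat_lit 0)) (M (nat_lit 13075078089815))) (T.h (T.h (T.h (P (nat_lit 0)) (M (nat_lit 104524988496551))) (P (nat_lit 0))) (P (nat_lit 0)))))))) (P (nat_lit 0)))))) et0_14) (T.h et0_15 et0_16))))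

def t0 : T ℤ := (T.h et0_3 (T.h (T.h (T.h (P (nat_lit 0)) (T.h (P (nat_lit 0)) (T.h (P (nat_lit 0)) (T.h (P (nat_lit 0)) (T.h (P (nat_lit 0)) (T.h (T.h (T.h (P (nat_lit 0)) (T.h (T.h (P (nat_lit 727247928)) (T.h (P (nat_lit 0)) (T.h (M (nat_lit 14383985407)) (T.h (P (nat_lit 0)) (P (nat_lit 8165716579480)))))) (T.h (P (nat_lit 0)) (T.h (T.h (P (nat_lit 2270840144)) (T.h (P (nat_lit 0)) (M (nat_lit 74378973175)))) (T.h (P (nat_lit 0)) (M (nat_lit 66197208039))))))) (T.h (T.h (T.h (P (nat_lit 0)) (T.h (M (nat_lit 4713459787)) (T.h (P (nat_lit 0)) (T.h (P (nat_lit 527549677104)) (T.h (P (nat_lit 0)) (P (nat_lit 83985497336616))))))) (T.h (P (nat_lit 0)) (T.h (T.h (P (nat_lit 0)) (T.h (M (nat_lit 15375279075)) (T.h (P (nat_lit 0)) (M (nat_lit 4822794107379))))) (T.h (P (nat_lit 0)) (T.h (T.h (P (nat_lit 0)) (P (nat_lit 1597860901704))) (P (nat_lit 0))))))) (T.h (T.h (P (nat_lit 0)) (T.h (T.h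 (P (nat_lit 5939962672)) (T.h (P (nat_lit 0)) (P (nat_lit 199028128140)))) (T.h (P (nat_lit 0)) (P (nat_lit 67610077272))))) (T.h (T.h (T.h (P (nat_lit 0)) (T.h (M (nat_lit 24013556547)) (T.h (P (nat_lit 0)) (M (nat_lit 4958715993027))))) (T.h (P (nat_lit 0)) (T.h (T.h (P (nat_lit 0)) (M (nat_lit 1932997777983))) (P (nat_lit 0))))) (T.h (T.h (P (nat_lit 0)) (M (nat_lit 200169002739))) (T.h (T.h (T.h (P (nat_lit 0)) (P (nat_lit 542784702264))) (P (nat_lit 0))) (P (nat_lit 0)))))))) (T.h (P (nat_lit 0)) (T.h (T.h (T.h (P (nat_lit 0)) (T.h (T.h (M (nat_lit 1609301771)) (T.h (P (nat_lit 0)) (T.h (M (nat_lit 33260338403)) (T.h (P (nat_lit 0)) (M (nat_lit 10140827320907)))))) (T.h (P (nat_lit 0)) (T.h (T.h (M (nat_lit 3706367903)) (T.h (P (nat_lit 0)) (M (nat_lit 301354886735)))) (T.h (P (nat_lit 0)) (P (nat_lit 135155996928))))))) (T.h (T.h (T.h (P (nat_lit 0)) (T.h (M (nat_lit 8623035251)) (T.h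 (P (nat_lit 0)) (T.h (M (nat_lit 252502154711)) (T.h (P (nat_lit 0)) (M (nat_lit 77582298470399))))))) (T.h (P (nat_lit 0)) (T.h (T.h (P (nat_lit 0)) (T.h (P (nat_lit 28392015204)) (T.h (P (nat_lit 0)) (P (nat_lit 39440875367232))))) (T.h (P (nat_lit 0)) (T.h (T.h (P (nat_lit 0)) (M (nat_lit 4393756093643))) (P (nat_lit 0))))))) (T.h (T.h (P (nat_lit 0)) (T.h (T.h (P (nat_lit 7673201172)) (T.h (P (nat_lit 0)) (P (nat_lit 1497660347664)))) (T.h (P (nat_lit 0)) (M (nat_lit 763229306231))))) (T.h (T.h (T.h (P (nat_lit 0)) (T.h (P (nat_lit 287791718220)) (T.h (P (nat_lit 0)) (P (nat_lit 3936623009760))))) (T.h (P (nat_lit 0)) (T.h (T.h (P (nat_lit 0)) (P (nat_lit 10872841504356))) (P (nat_lit 0))))) (T.h (T.h (P (nat_lit 0)) (P (nat_lit 1333423079820))) (T.h (T.h (T.h (P (nat_lit 0)) (P (nat_lit 935799020748))) (P (nat_lit 0))) (P (nat_lit 0)))))))) (P (nat_lit 0)))))))))) et0_6) (T.h et0_9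 et0_17)))

theorem h_t0 : chkT (c.G g0) t0 = true := by decide +kernel


end Pool.Agent.TOPR.R61135
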