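import Pool.Agent.TOPR.R61135.Cert

set_option autoImplicit false
set_option linter.all false
set_option maxRecDepth 100000

namespace Pool.Agent.TOPR.R61135

open Helper10.PC hiding V3
open Helper80.CW.DL Pool.Agent.Helper6.TOP

def et1_0 : T ℤ := (T.h (T.h (T.h (T.h (P (nat_lit 0)) (T.h (T.h (P (nat_lit 1665123904)) (T.h (P (nat_lit 0)) (T.h (M (nat_lit 12273528487)) (T.h (P (nat_lit 0)) (P (nat_lit 230197108436)))))) (T.h (P (nat_lit 0)) (T.h (T.h (M (nat_lit 26532037239)) (T.h (P (nat_lit 0)) (P (nat_lit 583293870084)))) (T.h (P (nat_lit 0)) (P (nat_lit 16773583856))))))) (T.h (T.h (T.h (P (nat_lit 0)) (T.h (M (nat_lit 4978845935)) (T.h (P (nat_lit 0)) (T.h (M (nat_lit 29879546923)) (T.h (P (nat_lit 0)) (M (nat_lit 503539623163))))))) (T.h (P (nat_lit 0)) (T.h (T.h (P (nat_lit 0)) (T.h (P (nat_lit 448324052408)) (T.h (P (nat_lit 0)) (P (nat_lit 3446766640080))))) (T.h (P (nat_lit 0))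 (T.h (T.h (P (nat_lit 0)) (P (nat_lit 45315573651296))) (P (nat_lit 0))))))) (T.h (T.h (P (nat_lit 0)) (T.h (T.h (M (nat_lit 12273528487)) (T.h (P (nat_lit 0)) (M (nat_lit 1117523173199)))) (T.h (P (nat_lit 0)) (P (nat_lit 583293870084))))) (T.h (T.h (T.h (P (nat_lit 0)) (T.h (M (nat_lit 29879546923)) (T.h (P (nat_lit 0)) (M (nat_lit 24220254327))))) (T.h (P (nat_lit 0)) (T.h (T.h (P (nat_lit 0)) (P (nat_lit 3446766640080))) (P (nat_lit 0))))) (T.h (T.h (P (nat_lit 0)) (P (nat_lit 230197108436))) (T.h (T.h (T.h (P (nat_lit 0)) (M (nat_lit 503539623163))) (P (nat_lit 0))) (P (nat_lit 0)))))))) (T.h (P (nat_lit 0)) (T.h (T.h (T.h (P (nat_lit 0)) (T.h (T.h (M (nat_lit 1291999911)) (T.h (P (nat_lit 0)) (T.h (P (nat_lit 102712520092)) (T.h (P (nat_lit 0)) (M (nat_lit 1251434679935)))))) (T.h (P (nat_lit 0)) (T.h (T.h (M (nat_lit 80207299815)) (T.h (P (nat_lit 0)) (M (nat_lit 4475261821827))))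 (T.h (P (nat_lit 0)) (P (nat_lit 1597188528432))))))) (T.h (T.h (T.h (P (nat_lit 0)) (T.h (P (nat_lit 10617940060)) (T.h (P (nat_lit 0)) (T.h (M (nat_lit 18266662203)) (T.h (P (nat_lit 0)) (M (nat_lit 10561056919559))))))) (T.h (P (nat_lit 0)) (T.h (T.h (P (nat_lit 0)) (T.h (P (nat_lit 1303953592396)) (T.h (P (nat_lit 0)) (P (nat_lit 29016869879816))))) (T.h (P (nat_lit 0)) (T.h (T.h (P (nat_lit 0)) (P (nat_lit 90308767551912))) (P (nat_lit 0))))))) (T.h (T.h (P (nat_lit 0)) (T.h (T.h (M (nat_lit 58890312599)) (T.h (P (nat_lit 0)) (M (nat_lit 4030084419815)))) (T.h (P (nat_lit 0)) (P (nat_lit 5645012193800))))) (T.h (T.h (T.h (P (nat_lit 0)) (T.h (M (nat_lit 237683718635)) (T.h (P (nat_lit 0)) (P (nat_lit 1856233917692))))) (T.h (P (nat_lit 0)) (T.h (T.h (P (nat_lit 0)) (M (nat_lit 3970494279191))) (P (nat_lit 0))))) (T.h (T.h (P (nat_lit 0)) (P (nat_lit 1715618916872))) (T.h (T.h (T.h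 (P (nat_lit 0)) (P (nat_lit 1292902481136))) (P (nat_lit 0))) (P (nat_lit 0)))))))) (P (nat_lit 0))))) (T.h (T.h (P (nat_lit 0)) (T.h (T.h (T.h (T.h (P (nat_lit 0)) (T.h (P (nat_lit 701241940)) (T.h (P (nat_lit 0)) (T.h (P (nat_lit 103698747796)) (T.h (P (nat_lit 0)) (M (nat_lit 1543170312599))))))) (T.h (P (nat_lit 0)) (T.h (T.h (P (nat_lit 0)) (T.h (P (nat_lit 64484339528)) (T.h (P (nat_lit 0)) (M (nat_lit 430940173551))))) (T.h (P (nat_lit 0)) (T.h (T.h (P (nat_lit 0)) (M (nat_lit 7000106771811))) (P (nat_lit 0))))))) (T.h (T.h (P (nat_lit 0)) (T.h (T.h (M (nat_lit 7545324303)) (T.h (P (nat_lit 0)) (T.h (P (nat_lit 241730115368)) (T.h (P (nat_lit 0)) (P (nat_lit 3381212976148)))))) (T.h (P (nat_lit 0)) (T.h (T.h (M (nat_lit 1325889120779)) (T.h (P (nat_lit 0)) (P (nat_lit 18356262156708)))) (T.h (P (nat_lit 0)) (P (nat_lit 57641579503592))))))) (T.h (T.h (T.h (P (nat_lit 0)) (T.h (M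 (nat_lit 4840132751)) (T.h (P (nat_lit 0)) (P (nat_lit 21025235168))))) (T.h (P (nat_lit 0)) (T.h (T.h (P (nat_lit 0)) (M (nat_lit 275510003887))) (P (nat_lit 0))))) (T.h (T.h (P (nat_lit 0)) (T.h (T.h (P (nat_lit 256857012748)) (T.h (P (nat_lit 0)) (P (nat_lit 10749224177272)))) (T.h (P (nat_lit 0)) (M (nat_lit 7785751205567))))) (T.h (T.h (T.h (P (nat_lit 0)) (P (nat_lit 871659356456))) (P (nat_lit 0))) (T.h (T.h (P (nat_lit 0)) (M (nat_lit 1218047199431))) (P (nat_lit 0)))))))) (P (nat_lit 0)))) (T.h (T.h (T.h (T.h (P (nat_lit 0)) (T.h (T.h (M (nat_lit 2913966831)) (T.h (P (nat_lit 0)) (T.h (P (nat_lit 23319948596)) (T.h (P (nat_lit 0)) (M (nat_lit 334081018739)))))) (T.h (P (nat_lit 0)) (T.h (T.h (P (nat_lit 46431064176)) (T.h (P (nat_lit 0)) (M (nat_lit 891051903475)))) (T.h (P (nat_lit 0)) (M (nat_lit 29353739911))))))) (T.h (T.h (T.h (P (nat_lit 0)) (T.h (P (nat_lit 8712980360))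 (T.h (P (nat_lit 0)) (T.h (P (nat_lit 20112981700)) (T.h (P (nat_lit 0)) (P (nat_lit 452894788696))))))) (T.h (P (nat_lit 0)) (T.h (T.h (P (nat_lit 0)) (T.h (M (nat_lit 784567086519)) (T.h (P (nat_lit 0)) (M (nat_lit 10759187052431))))) (T.h (P (nat_lit 0)) (T.h (T.h (P (nat_lit 0)) (M (nat_lit 79302254001263))) (P (nat_lit 0))))))) (T.h (T.h (P (nat_lit 0)) (T.h (T.h (P (nat_lit 23319948596)) (T.h (P (nat_lit 0)) (P (nat_lit 1955665538456)))) (T.h (P (nat_lit 0)) (M (nat_lit 891051903475))))) (T.h (T.h (T.h (P (nat_lit 0)) (T.h (P (nat_lit 20112981700)) (T.h (P (nat_lit 0)) (P (nat_lit 42385397544))))) (T.h (P (nat_lit 0)) (T.h (T.h (P (nat_lit 0)) (M (nat_lit 10759187052431))) (P (nat_lit 0))))) (T.h (T.h (P (nat_lit 0)) (M (nat_lit 334081018739))) (T.h (T.h (T.h (P (nat_lit 0)) (P (nat_lit 452894788696))) (P (nat_lit 0))) (P (nat_lit 0)))))))) (P (nat_lit 0))) (P (nat_lit 0)))))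
def et1_1 : T ℤ := (T.h (T.h (P (nat_lit 0)) (T.h (P (nat_lit 0)) (T.h (T.h (T.h (P (nat_lit 0)) (T.h (T.h (M (nat_lit 799116259)) (T.h (P (nat_lit 0)) (T.h (P (nat_lit 3817709884)) (T.h (P (nat_lit 0)) (M (nat_lit 1325333963007)))))) (T.h (P (nat_lit 0)) (T.h (T.h (M (nat_lit 26869194023)) (T.h (P (nat_lit 0)) (M (nat_lit 3884808174995)))) (T.h (P (nat_lit 0)) (P (nat_lit 913282348636))))))) (T.h (T.h (T.h (P (nat_lit 0)) (T.h (P (nat_lit 5565340456)) (T.h (P (nat_lit 0)) (T.h (M (nat_lit 46917086895)) (T.h (P (nat_lit 0)) (M (nat_lit 546153259851))))))) (T.h (P (nat_lit 0)) (T.h (T.h (P (nat_lit 0)) (T.h (P (nat_lit 2262348714936)) (T.h (P (nat_lit 0)) (M (nat_lit 859156601507))))) (T.h (P (nat_lit 0)) (T.h (T.h (P (nat_lit 0)) (P (nat_lit 5991508253152))) (P (nat_lit 0))))))) (T.h (T.h (P (nat_lit 0)) (T.h (T.h (P (nat_lit 35707101008)) (T.h (P (nat_lit 0)) (M (nat_lit 2387220051675))))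 (T.h (P (nat_lit 0)) (M (nat_lit 711991273403))))) (T.h (T.h (T.h (P (nat_lit 0)) (T.h (P (nat_lit 134296882364)) (T.h (P (nat_lit 0)) (P (nat_lit 2214167332356))))) (T.h (P (nat_lit 0)) (T.h (T.h (P (nat_lit 0)) (M (nat_lit 4835202042695))) (P (nat_lit 0))))) (T.h (T.h (P (nat_lit 0)) (M (nat_lit 2550961155487))) (T.h (T.h (T.h (P (nat_lit 0)) (P (nat_lit 4057045979324))) (P (nat_lit 0))) (P (nat_lit 0)))))))) (T.h (P (nat_lit 0)) (T.h (T.h (T.h (P (nat_lit 0)) (T.h (T.h (P (nat_lit 214673928)) (T.h (P (nat_lit 0)) (T.h (M (nat_lit 139392761339)) (T.h (P (nat_lit 0)) (P (nat_lit 3613597556324)))))) (T.h (P (nat_lit 0)) (T.h (T.h (P (nat_lit 144878326992)) (T.h (P (nat_lit 0)) (P (nat_lit 8615974074932)))) (T.h (P (nat_lit 0)) (M (nat_lit 5562891016647))))))) (T.h (T.h (T.h (P (nat_lit 0)) (T.h (M (nat_lit 3586835699)) (T.h (P (nat_lit 0)) (T.h (P (nat_lit 198143558480)) (T.h (P (nat_lit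 0)) (M (nat_lit 13545291274143))))))) (T.h (P (nat_lit 0)) (T.h (T.h (P (nat_lit 0)) (T.h (M (nat_lit 579306696415)) (T.h (P (nat_lit 0)) (P (nat_lit 50007357650992))))) (T.h (P (nat_lit 0)) (T.h (T.h (P (nat_lit 0)) (M (nat_lit 21914648649039))) (P (nat_lit 0))))))) (T.h (T.h (P (nat_lit 0)) (T.h (T.h (P (nat_lit 54553336852)) (T.h (P (nat_lit 0)) (M (nat_lit 954457898323)))) (T.h (P (nat_lit 0)) (M (nat_lit 3008920209623))))) (T.h (T.h (T.h (P (nat_lit 0)) (T.h (M (nat_lit 2032910263)) (T.h (P (nat_lit 0)) (P (nat_lit 7833401630040))))) (T.h (P (nat_lit 0)) (T.h (T.h (P (nat_lit 0)) (P (nat_lit 17587242585108))) (P (nat_lit 0))))) (T.h (T.h (P (nat_lit 0)) (M (nat_lit 1742060629035))) (T.h (T.h (T.h (P (nat_lit 0)) (M (nat_lit 264689197499))) (P (nat_lit 0))) (P (nat_lit 0)))))))) (P (nat_lit 0))))))) (T.h (T.h (P (nat_lit 0)) (T.h (T.h (T.h (T.h (P (nat_lit 0)) (T.h (M (nat_lit 2649485359))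 (T.h (P (nat_lit 0)) (T.h (M (nat_lit 47079988255)) (T.h (P (nat_lit 0)) (P (nat_lit 867047484988))))))) (T.h (P (nat_lit 0)) (T.h (T.h (P (nat_lit 0)) (T.h (M (nat_lit 22142912835)) (T.h (P (nat_lit 0)) (M (nat_lit 2917659441475))))) (T.h (P (nat_lit 0)) (T.h (T.h (P (nat_lit 0)) (P (nat_lit 5150790670280))) (P (nat_lit 0))))))) (T.h (T.h (P (nat_lit 0)) (T.h (T.h (P (nat_lit 504544812)) (T.h (P (nat_lit 0)) (T.h (M (nat_lit 25303031799)) (T.h (P (nat_lit 0)) (M (nat_lit 4322459232347)))))) (T.h (P (nat_lit 0)) (T.h (T.h (P (nat_lit 176981199548)) (T.h (P (nat_lit 0)) (P (nat_lit 36135257920028)))) (T.h (P (nat_lit 0)) (M (nat_lit 5640283889655))))))) (T.h (T.h (T.h (P (nat_lit 0)) (T.h (M (nat_lit 12269142819)) (T.h (P (nat_lit 0)) (P (nat_lit 52951901796))))) (T.h (P (nat_lit 0)) (T.h (T.h (P (nat_lit 0)) (P (nat_lit 241482879740))) (P (nat_lit 0))))) (T.h (T.h (P (nat_lit 0)) (T.h (T.h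 (M (nat_lit 63781000879)) (T.h (P (nat_lit 0)) (M (nat_lit 182987744723)))) (T.h (P (nat_lit 0)) (M (nat_lit 589640662371))))) (T.h (T.h (T.h (P (nat_lit 0)) (M (nat_lit 51005097499))) (P (nat_lit 0))) (T.h (T.h (P (nat_lit 0)) (P (nat_lit 1281244581392))) (P (nat_lit 0)))))))) (T.h (P (nat_lit 0)) (T.h (T.h (T.h (T.h (P (nat_lit 0)) (T.h (P (nat_lit 214673928)) (T.h (P (nat_lit 0)) (T.h (P (nat_lit 144878326992)) (T.h (P (nat_lit 0)) (M (nat_lit 5562891016647))))))) (T.h (P (nat_lit 0)) (T.h (T.h (P (nat_lit 0)) (T.h (M (nat_lit 139392761339)) (T.h (P (nat_lit 0)) (P (nat_lit 8615974074932))))) (T.h (P (nat_lit 0)) (T.h (T.h (P (nat_lit 0)) (P (nat_lit 3613597556324))) (P (nat_lit 0))))))) (T.h (T.h (P (nat_lit 0)) (T.h (T.h (M (nat_lit 3586835699)) (T.h (P (nat_lit 0)) (T.h (M (nat_lit 579306696415)) (T.h (P (nat_lit 0)) (M (nat_lit 21914648649039)))))) (T.h (P (nat_lit 0)) (T.h (T.h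 (P (nat_lit 198143558480)) (T.h (P (nat_lit 0)) (P (nat_lit 50007357650992)))) (T.h (P (nat_lit 0)) (M (nat_lit 13545291274143))))))) (T.h (T.h (T.h (P (nat_lit 0)) (T.h (P (nat_lit 54553336852)) (T.h (P (nat_lit 0)) (M (nat_lit 3008920209623))))) (T.h (P (nat_lit 0)) (T.h (T.h (P (nat_lit 0)) (M (nat_lit 954457898323))) (P (nat_lit 0))))) (T.h (T.h (P (nat_lit 0)) (T.h (T.h (M (nat_lit 2032910263)) (T.h (P (nat_lit 0)) (P (nat_lit 17587242585108)))) (T.h (P (nat_lit 0)) (P (nat_lit 7833401630040))))) (T.h (T.h (T.h (P (nat_lit 0)) (M (nat_lit 1742060629035))) (P (nat_lit 0))) (T.h (T.h (P (nat_lit 0)) (M (nat_lit 264689197499))) (P (nat_lit 0)))))))) (P (nat_lit 0)))))) et1_0))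
def et1_2 : T ℤ := (T.h (T.h (P (nat_lit 0)) (T.h (P (nat_lit 0)) (T.h (P (nat_lit 0)) (T.h (P (nat_lit 0)) (T.h (T.h (T.h (P (nat_lit 0)) (T.h (T.h (M (nat_lit 2649485359)) (T.h (P (nat_lit 0)) (T.h (M (nat_lit 22142912835)) (T.h (P (nat_lit 0)) (P (nat_lit 5150790670280)))))) (T.h (P (nat_lit 0)) (T.h (T.h (M (nat_lit 47079988255)) (T.h (P (nat_lit 0)) (M (nat_lit 2917659441475)))) (T.h (P (nat_lit 0)) (P (nat_lit 867047484988))))))) (T.h (T.h (T.h (P (nat_lit 0)) (T.h (P (nat_lit 504544812)) (T.h (P (nat_lit 0)) (T.h (P (nat_lit 176981199548)) (T.h (P (nat_lit 0)) (M (nat_lit 5640283889655))))))) (T.h (P (nat_lit 0)) (T.h (T.h (P (nat_lit 0)) (T.h (M (nat_lit 25303031799)) (T.h (P (nat_lit 0)) (P (nat_lit 36135257920028))))) (T.h (P (nat_lit 0)) (T.h (T.h (P (nat_lit 0)) (M (nat_lit 4322459232347))) (P (nat_lit 0))))))) (T.h (T.h (P (nat_lit 0)) (T.h (T.h (M (nat_lit 12269142819)) (T.h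 (P (nat_lit 0)) (P (nat_lit 241482879740)))) (T.h (P (nat_lit 0)) (P (nat_lit 52951901796))))) (T.h (T.h (T.h (P (nat_lit 0)) (T.h (M (nat_lit 63781000879)) (T.h (P (nat_lit 0)) (M (nat_lit 589640662371))))) (T.h (P (nat_lit 0)) (T.h (T.h (P (nat_lit 0)) (M (nat_lit 182987744723))) (P (nat_lit 0))))) (T.h (T.h (P (nat_lit 0)) (M (nat_lit 51005097499))) (T.h (T.h (T.h (P (nat_lit 0)) (P (nat_lit 1281244581392))) (P (nat_lit 0))) (P (nat_lit 0)))))))) (T.h (P (nat_lit 0)) (T.h (T.h (T.h (P (nat_lit 0)) (T.h (T.h (P (nat_lit 701241940)) (T.h (P (nat_lit 0)) (T.h (P (nat_lit 64484339528)) (T.h (P (nat_lit 0)) (M (nat_lit 7000106771811)))))) (T.h (P (nat_lit 0)) (T.h (T.h (P (nat_lit 103698747796)) (T.h (P (nat_lit 0)) (M (nat_lit 430940173551)))) (T.h (P (nat_lit 0)) (M (nat_lit 1543170312599))))))) (T.h (T.h (T.h (P (nat_lit 0)) (T.h (M (nat_lit 7545324303)) (T.h (P (nat_lit 0)) (T.h (M (nat_lit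 1325889120779)) (T.h (P (nat_lit 0)) (P (nat_lit 57641579503592))))))) (T.h (P (nat_lit 0)) (T.h (T.h (P (nat_lit 0)) (T.h (P (nat_lit 241730115368)) (T.h (P (nat_lit 0)) (P (nat_lit 18356262156708))))) (T.h (P (nat_lit 0)) (T.h (T.h (P (nat_lit 0)) (P (nat_lit 3381212976148))) (P (nat_lit 0))))))) (T.h (T.h (P (nat_lit 0)) (T.h (T.h (M (nat_lit 4840132751)) (T.h (P (nat_lit 0)) (M (nat_lit 275510003887)))) (T.h (P (nat_lit 0)) (P (nat_lit 21025235168))))) (T.h (T.h (T.h (P (nat_lit 0)) (T.h (P (nat_lit 256857012748)) (T.h (P (nat_lit 0)) (M (nat_lit 7785751205567))))) (T.h (P (nat_lit 0)) (T.h (T.h (P (nat_lit 0)) (P (nat_lit 10749224177272))) (P (nat_lit 0))))) (T.h (T.h (P (nat_lit 0)) (P (nat_lit 871659356456))) (T.h (T.h (T.h (P (nat_lit 0)) (M (nat_lit 1218047199431))) (P (nat_lit 0))) (P (nat_lit 0)))))))) (P (nat_lit 0))))))))) (T.h (T.h (P (nat_lit 0)) (T.h (P (nat_lit 0)) (T.h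 (P (nat_lit 0)) (T.h (T.h (T.h (T.h (P (nat_lit 0)) (T.h (M (nat_lit 799116259)) (T.h (P (nat_lit 0)) (T.h (M (nat_lit 26869194023)) (T.h (P (nat_lit 0)) (P (nat_lit 913282348636))))))) (T.h (P (nat_lit 0)) (T.h (T.h (P (nat_lit 0)) (T.h (P (nat_lit 3817709884)) (T.h (P (nat_lit 0)) (M (nat_lit 3884808174995))))) (T.h (P (nat_lit 0)) (T.h (T.h (P (nat_lit 0)) (M (nat_lit 1325333963007))) (P (nat_lit 0))))))) (T.h (T.h (P (nat_lit 0)) (T.h (T.h (P (nat_lit 5565340456)) (T.h (P (nat_lit 0)) (T.h (P (nat_lit 2262348714936)) (T.h (P (nat_lit 0)) (P (nat_lit 5991508253152)))))) (T.h (P (nat_lit 0)) (T.h (T.h (M (nat_lit 46917086895)) (T.h (P (nat_lit 0)) (M (nat_lit 859156601507)))) (T.h (P (nat_lit 0)) (M (nat_lit 546153259851))))))) (T.h (T.h (T.h (P (nat_lit 0)) (T.h (P (nat_lit 35707101008)) (T.h (P (nat_lit 0)) (M (nat_lit 711991273403))))) (T.h (P (nat_lit 0)) (T.h (T.h (P (nat_lit 0))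 (M (nat_lit 2387220051675))) (P (nat_lit 0))))) (T.h (T.h (P (nat_lit 0)) (T.h (T.h (P (nat_lit 134296882364)) (T.h (P (nat_lit 0)) (M (nat_lit 4835202042695)))) (T.h (P (nat_lit 0)) (P (nat_lit 2214167332356))))) (T.h (T.h (T.h (P (nat_lit 0)) (M (nat_lit 2550961155487))) (P (nat_lit 0))) (T.h (T.h (P (nat_lit 0)) (P (nat_lit 4057045979324))) (P (nat_lit 0)))))))) (T.h (P (nat_lit 0)) (T.h (T.h (T.h (T.h (P (nat_lit 0)) (T.h (M (nat_lit 1291999911)) (T.h (P (nat_lit 0)) (T.h (M (nat_lit 80207299815)) (T.h (P (nat_lit 0)) (P (nat_lit 1597188528432))))))) (T.h (P (nat_lit 0)) (T.h (T.h (P (nat_lit 0)) (T.h (P (nat_lit 102712520092)) (T.h (P (nat_lit 0)) (M (nat_lit 4475261821827))))) (T.h (P (nat_lit 0)) (T.h (T.h (P (nat_lit 0)) (M (nat_lit 1251434679935))) (P (nat_lit 0))))))) (T.h (T.h (P (nat_lit 0)) (T.h (T.h (P (nat_lit 10617940060)) (T.h (P (nat_lit 0)) (T.h (P (nat_lit 1303953592396))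 (T.h (P (nat_lit 0)) (P (nat_lit 90308767551912)))))) (T.h (P (nat_lit 0)) (T.h (T.h (M (nat_lit 18266662203)) (T.h (P (nat_lit 0)) (P (nat_lit 29016869879816)))) (T.h (P (nat_lit 0)) (M (nat_lit 10561056919559))))))) (T.h (T.h (T.h (P (nat_lit 0)) (T.h (M (nat_lit 58890312599)) (T.h (P (nat_lit 0)) (P (nat_lit 5645012193800))))) (T.h (P (nat_lit 0)) (T.h (T.h (P (nat_lit 0)) (M (nat_lit 4030084419815))) (P (nat_lit 0))))) (T.h (T.h (P (nat_lit 0)) (T.h (T.h (M (nat_lit 237683718635)) (T.h (P (nat_lit 0)) (M (nat_lit 3970494279191)))) (T.h (P (nat_lit 0)) (P (nat_lit 1856233917692))))) (T.h (T.h (T.h (P (nat_lit 0)) (P (nat_lit 1715618916872))) (P (nat_lit 0))) (T.h (T.h (P (nat_lit 0)) (P (nat_lit 1292902481136))) (P (nat_lit 0)))))))) (P (nat_lit 0)))))))) et1_1))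
def et1_3 : T ℤ := (T.h (T.h (T.h (T.h (P (nat_lit 0)) (T.h (T.h (P (nat_lit 0)) (T.h (P (nat_lit 504544812)) (T.h (P (nat_lit 0)) (T.h (M (nat_lit 63781000879)) (T.h (P (nat_lit 0)) (P (nat_lit 1281244581392))))))) (T.h (P (nat_lit 0)) (T.h (T.h (P (nat_lit 0)) (T.h (P (nat_lit 176981199548)) (T.h (P (nat_lit 0)) (M (nat_lit 589640662371))))) (T.h (P (nat_lit 0)) (T.h (T.h (P (nat_lit 0)) (M (nat_lit 5640283889655))) (P (nat_lit 0)))))))) (T.h (T.h (T.h (M (nat_lit 2649485359)) (T.h (P (nat_lit 0)) (T.h (M (nat_lit 12269142819)) (T.h (P (nat_lit 0)) (M (nat_lit 51005097499)))))) (T.h (P (nat_lit 0)) (T.h (T.h (M (nat_lit 22142912835)) (T.h (P (nat_lit 0)) (P (nat_lit 241482879740)))) (T.h (P (nat_lit 0)) (P (nat_lit 5150790670280)))))) (T.h (T.h (P (nat_lit 0)) (T.h (T.h (P (nat_lit 0)) (T.h (M (nat_lit 25303031799)) (T.h (P (nat_lit 0)) (M (nat_lit 182987744723))))) (T.h (P (nat_lit 0))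 (T.h (T.h (P (nat_lit 0)) (P (nat_lit 36135257920028))) (P (nat_lit 0)))))) (T.h (T.h (T.h (M (nat_lit 47079988255)) (T.h (P (nat_lit 0)) (P (nat_lit 52951901796)))) (T.h (P (nat_lit 0)) (M (nat_lit 2917659441475)))) (T.h (T.h (P (nat_lit 0)) (T.h (T.h (P (nat_lit 0)) (M (nat_lit 4322459232347))) (P (nat_lit 0)))) (P (nat_lit 867047484988))))))) (T.h (P (nat_lit 0)) (T.h (T.h (T.h (P (nat_lit 0)) (T.h (T.h (P (nat_lit 0)) (T.h (P (nat_lit 75581254420)) (T.h (P (nat_lit 0)) (T.h (M (nat_lit 1855296375911)) (T.h (P (nat_lit 0)) (M (nat_lit 18353403978363))))))) (T.h (P (nat_lit 0)) (T.h (T.h (P (nat_lit 0)) (T.h (M (nat_lit 1771471884335)) (T.h (P (nat_lit 0)) (M (nat_lit 130006778011263))))) (T.h (P (nat_lit 0)) (T.h (T.h (P (nat_lit 0)) (P (nat_lit 51925079650080))) (P (nat_lit 0)))))))) (T.h (T.h (T.h (P (nat_lit 9860760868)) (T.h (P (nat_lit 0)) (T.h (M (nat_lit 58510042723)) (T.h (P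 (nat_lit 0)) (M (nat_lit 8702800251123)))))) (T.h (P (nat_lit 0)) (T.h (T.h (M (nat_lit 649531475095)) (T.h (P (nat_lit 0)) (M (nat_lit 38706104438791)))) (T.h (P (nat_lit 0)) (P (nat_lit 31182050545072)))))) (T.h (T.h (P (nat_lit 0)) (T.h (T.h (P (nat_lit 0)) (T.h (M (nat_lit 405852223391)) (T.h (P (nat_lit 0)) (M (nat_lit 88196892127763))))) (T.h (P (nat_lit 0)) (T.h (T.h (P (nat_lit 0)) (P (nat_lit 190570603563928))) (P (nat_lit 0)))))) (T.h (T.h (T.h (M (nat_lit 74634584499)) (T.h (P (nat_lit 0)) (M (nat_lit 6975966308499)))) (T.h (P (nat_lit 0)) (P (nat_lit 53452015668744)))) (T.h (T.h (P (nat_lit 0)) (T.h (T.h (P (nat_lit 0)) (P (nat_lit 98048338603180))) (P (nat_lit 0)))) (P (nat_lit 2688523257728))))))) (P (nat_lit 0))))) (T.h (T.h (P (nat_lit 0)) (T.h (T.h (T.h (T.h (P (nat_lit 601233360)) (T.h (P (nat_lit 0)) (T.h (M (nat_lit 28661537323)) (T.h (P (nat_lit 0)) (T.h (P (nat_lit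 576150028804)) (T.h (P (nat_lit 0)) (P (nat_lit 742341497492)))))))) (T.h (P (nat_lit 0)) (T.h (T.h (P (nat_lit 119721035504)) (T.h (P (nat_lit 0)) (T.h (M (nat_lit 3956355819051)) (T.h (P (nat_lit 0)) (P (nat_lit 62285420229704)))))) (T.h (P (nat_lit 0)) (T.h (T.h (M (nat_lit 1236875702327)) (T.h (P (nat_lit 0)) (M (nat_lit 50548214789127)))) (T.h (P (nat_lit 0)) (M (nat_lit 3341022135247)))))))) (T.h (T.h (P (nat_lit 0)) (T.h (T.h (P (nat_lit 0)) (T.h (M (nat_lit 958098744231)) (T.h (P (nat_lit 0)) (M (nat_lit 1798233856999))))) (T.h (P (nat_lit 0)) (T.h (T.h (P (nat_lit 0)) (M (nat_lit 106484699249039))) (P (nat_lit 0)))))) (T.h (T.h (T.h (M (nat_lit 28661537323)) (T.h (P (nat_lit 0)) (T.h (P (nat_lit 951011479992)) (T.h (P (nat_lit 0)) (P (nat_lit 31677840070912)))))) (T.h (P (nat_lit 0)) (T.h (T.h (M (nat_lit 3956355819051)) (T.h (P (nat_lit 0)) (P (nat_lit 30325838342968)))) (T.h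 (P (nat_lit 0)) (M (nat_lit 50548214789127)))))) (T.h (T.h (P (nat_lit 0)) (T.h (T.h (P (nat_lit 0)) (M (nat_lit 1798233856999))) (P (nat_lit 0)))) (T.h (T.h (T.h (P (nat_lit 576150028804)) (T.h (P (nat_lit 0)) (P (nat_lit 31677840070912)))) (T.h (P (nat_lit 0)) (P (nat_lit 62285420229704)))) (T.h (P (nat_lit 0)) (P (nat_lit 742341497492)))))))) (P (nat_lit 0)))) (T.h (T.h (T.h (T.h (P (nat_lit 0)) (T.h (T.h (P (nat_lit 0)) (T.h (M (nat_lit 7545324303)) (T.h (P (nat_lit 0)) (T.h (P (nat_lit 256857012748)) (T.h (P (nat_lit 0)) (M (nat_lit 1218047199431))))))) (T.h (P (nat_lit 0)) (T.h (T.h (P (nat_lit 0)) (T.h (M (nat_lit 1325889120779)) (T.h (P (nat_lit 0)) (M (nat_lit 7785751205567))))) (T.h (P (nat_lit 0)) (T.h (T.h (P (nat_lit 0)) (P (nat_lit 57641579503592))) (P (nat_lit 0)))))))) (T.h (T.h (T.h (P (nat_lit 701241940)) (T.h (P (nat_lit 0)) (T.h (M (nat_lit 4840132751)) (T.h (P (nat_lit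 0)) (P (nat_lit 871659356456)))))) (T.h (P (nat_lit 0)) (T.h (T.h (P (nat_lit 64484339528)) (T.h (P (nat_lit 0)) (M (nat_lit 275510003887)))) (T.h (P (nat_lit 0)) (M (nat_lit 7000106771811)))))) (T.h (T.h (P (nat_lit 0)) (T.h (T.h (P (nat_lit 0)) (T.h (P (nat_lit 241730115368)) (T.h (P (nat_lit 0)) (P (nat_lit 10749224177272))))) (T.h (P (nat_lit 0)) (T.h (T.h (P (nat_lit 0)) (P (nat_lit 18356262156708))) (P (nat_lit 0)))))) (T.h (T.h (T.h (P (nat_lit 103698747796)) (T.h (P (nat_lit 0)) (P (nat_lit 21025235168)))) (T.h (P (nat_lit 0)) (M (nat_lit 430940173551)))) (T.h (T.h (P (nat_lit 0)) (T.h (T.h (P (nat_lit 0)) (P (nat_lit 3381212976148))) (P (nat_lit 0)))) (M (nat_lit 1543170312599))))))) (P (nat_lit 0))) (P (nat_lit 0)))))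
def et1_4 : T ℤ := (T.h (T.h (P (nat_lit 0)) (T.h (P (nat_lit 0)) (T.h (T.h (T.h (P (nat_lit 0)) (T.h (T.h (P (nat_lit 0)) (T.h (P (nat_lit 11618382856)) (T.h (P (nat_lit 0)) (T.h (M (nat_lit 1040430485979)) (T.h (P (nat_lit 0)) (P (nat_lit 24552262571904))))))) (T.h (P (nat_lit 0)) (T.h (T.h (P (nat_lit 0)) (T.h (M (nat_lit 1040430485979)) (T.h (P (nat_lit 0)) (P (nat_lit 15379937511864))))) (T.h (P (nat_lit 0)) (T.h (T.h (P (nat_lit 0)) (P (nat_lit 24552262571904))) (P (nat_lit 0)))))))) (T.h (T.h (T.h (M (nat_lit 3329195119)) (T.h (P (nat_lit 0)) (T.h (M (nat_lit 18397020331)) (T.h (P (nat_lit 0)) (M (nat_lit 2474908870979)))))) (T.h (P (nat_lit 0)) (T.h (T.h (M (nat_lit 18397020331)) (T.h (P (nat_lit 0)) (P (nat_lit 13943680100552)))) (T.h (P (nat_lit 0)) (M (nat_lit 2474908870979)))))) (T.h (T.h (P (nat_lit 0)) (T.h (T.h (P (nat_lit 0)) (T.h (P (nat_lit 81702473584)) (T.h (P (nat_lit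 0)) (M (nat_lit 208175936918643))))) (T.h (P (nat_lit 0)) (T.h (T.h (P (nat_lit 0)) (M (nat_lit 208175936918643))) (P (nat_lit 0)))))) (T.h (T.h (T.h (P (nat_lit 6138487608)) (T.h (P (nat_lit 0)) (M (nat_lit 11545069630731)))) (T.h (P (nat_lit 0)) (M (nat_lit 11545069630731)))) (T.h (T.h (P (nat_lit 0)) (T.h (T.h (P (nat_lit 0)) (M (nat_lit 24981478701687))) (P (nat_lit 0)))) (M (nat_lit 141017734967))))))) (T.h (P (nat_lit 0)) (T.h (T.h (T.h (P (nat_lit 0)) (T.h (T.h (P (nat_lit 0)) (T.h (P (nat_lit 75581254420)) (T.h (P (nat_lit 0)) (T.h (M (nat_lit 1771471884335)) (T.h (P (nat_lit 0)) (P (nat_lit 51925079650080))))))) (T.h (P (nat_lit 0)) (T.h (T.h (P (nat_lit 0)) (T.h (M (nat_lit 1855296375911)) (T.h (P (nat_lit 0)) (M (nat_lit 130006778011263))))) (T.h (P (nat_lit 0)) (T.h (T.h (P (nat_lit 0)) (M (nat_lit 18353403978363))) (P (nat_lit 0)))))))) (T.h (T.h (T.h (P (nat_lit 9860760868))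 (T.h (P (nat_lit 0)) (T.h (M (nat_lit 649531475095)) (T.h (P (nat_lit 0)) (P (nat_lit 31182050545072)))))) (T.h (P (nat_lit 0)) (T.h (T.h (M (nat_lit 58510042723)) (T.h (P (nat_lit 0)) (M (nat_lit 38706104438791)))) (T.h (P (nat_lit 0)) (M (nat_lit 8702800251123)))))) (T.h (T.h (P (nat_lit 0)) (T.h (T.h (P (nat_lit 0)) (T.h (M (nat_lit 405852223391)) (T.h (P (nat_lit 0)) (P (nat_lit 190570603563928))))) (T.h (P (nat_lit 0)) (T.h (T.h (P (nat_lit 0)) (M (nat_lit 88196892127763))) (P (nat_lit 0)))))) (T.h (T.h (T.h (M (nat_lit 74634584499)) (T.h (P (nat_lit 0)) (P (nat_lit 53452015668744)))) (T.h (P (nat_lit 0)) (M (nat_lit 6975966308499)))) (T.h (T.h (P (nat_lit 0)) (T.h (T.h (P (nat_lit 0)) (P (nat_lit 98048338603180))) (P (nat_lit 0)))) (P (nat_lit 2688523257728))))))) (P (nat_lit 0))))))) (T.h (T.h (P (nat_lit 0)) (T.h (T.h (T.h (T.h (M (nat_lit 15)) (T.h (P (nat_lit 0)) (T.h (P (nat_lit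 2501087048)) (T.h (P (nat_lit 0)) (T.h (M (nat_lit 63144965239)) (T.h (P (nat_lit 0)) (M (nat_lit 447655350415)))))))) (T.h (P (nat_lit 0)) (T.h (T.h (P (nat_lit 336)) (T.h (P (nat_lit 0)) (T.h (P (nat_lit 1470226158032)) (T.h (P (nat_lit 0)) (M (nat_lit 17877642315831)))))) (T.h (P (nat_lit 0)) (T.h (T.h (M (nat_lit 1071)) (T.h (P (nat_lit 0)) (M (nat_lit 34627820150767)))) (T.h (P (nat_lit 0)) (M (nat_lit 586463)))))))) (T.h (T.h (P (nat_lit 0)) (T.h (T.h (P (nat_lit 0)) (T.h (M (nat_lit 2735)) (T.h (P (nat_lit 0)) (P (nat_lit 8743890515392))))) (T.h (P (nat_lit 0)) (T.h (T.h (P (nat_lit 0)) (P (nat_lit 149312))) (P (nat_lit 0)))))) (T.h (T.h (T.h (P (nat_lit 2501087048)) (T.h (P (nat_lit 0)) (T.h (P (nat_lit 10800)) (T.h (P (nat_lit 0)) (P (nat_lit 8215840202728)))))) (T.h (P (nat_lit 0)) (T.h (T.h (P (nat_lit 1470226158032)) (T.h (P (nat_lit 0)) (P (nat_lit 511824)))) (T.h (P (nat_lit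 0)) (M (nat_lit 34627820150767)))))) (T.h (T.h (P (nat_lit 0)) (T.h (T.h (P (nat_lit 0)) (P (nat_lit 8743890515392))) (P (nat_lit 0)))) (T.h (T.h (T.h (M (nat_lit 63144965239)) (T.h (P (nat_lit 0)) (P (nat_lit 8215840202728)))) (T.h (P (nat_lit 0)) (M (nat_lit 17877642315831)))) (T.h (P (nat_lit 0)) (M (nat_lit 447655350415)))))))) (T.h (P (nat_lit 0)) (T.h (T.h (T.h (T.h (M (nat_lit 919417127)) (T.h (P (nat_lit 0)) (T.h (P (nat_lit 59389766072)) (T.h (P (nat_lit 0)) (T.h (M (nat_lit 34270802719)) (T.h (P (nat_lit 0)) (P (nat_lit 18382803797176)))))))) (T.h (P (nat_lit 0)) (T.h (T.h (P (nat_lit 59389766072)) (T.h (P (nat_lit 0)) (T.h (P (nat_lit 9279857555584)) (T.h (P (nat_lit 0)) (P (nat_lit 83837203868796)))))) (T.h (P (nat_lit 0)) (T.h (T.h (M (nat_lit 34270802719)) (T.h (P (nat_lit 0)) (P (nat_lit 83837203868796)))) (T.h (P (nat_lit 0)) (P (nat_lit 18382803797176)))))))) (T.h (T.h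 (P (nat_lit 0)) (T.h (T.h (P (nat_lit 0)) (T.h (P (nat_lit 1214744886936)) (T.h (P (nat_lit 0)) (P (nat_lit 96056251515392))))) (T.h (P (nat_lit 0)) (T.h (T.h (P (nat_lit 0)) (P (nat_lit 96056251515392))) (P (nat_lit 0)))))) (T.h (T.h (T.h (P (nat_lit 1644685784)) (T.h (P (nat_lit 0)) (T.h (M (nat_lit 1501616645507)) (T.h (P (nat_lit 0)) (M (nat_lit 68787763482395)))))) (T.h (P (nat_lit 0)) (T.h (T.h (M (nat_lit 1501616645507)) (T.h (P (nat_lit 0)) (P (nat_lit 12593288699712)))) (T.h (P (nat_lit 0)) (M (nat_lit 68787763482395)))))) (T.h (T.h (P (nat_lit 0)) (T.h (T.h (P (nat_lit 0)) (M (nat_lit 67942352892399))) (P (nat_lit 0)))) (T.h (T.h (T.h (M (nat_lit 1793817449255)) (T.h (P (nat_lit 0)) (M (nat_lit 61853719243763)))) (T.h (P (nat_lit 0)) (M (nat_lit 61853719243763)))) (T.h (P (nat_lit 0)) (M (nat_lit 7300303294367)))))))) (P (nat_lit 0)))))) et1_3))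
def et1_5 : T ℤ := (T.h (T.h (P (nat_lit 0)) (T.h (P (nat_lit 0)) (T.h (P (nat_lit 0)) (T.h (P (nat_lit 0)) (T.h (T.h (T.h (P (nat_lit 0)) (T.h (T.h (P (nat_lit 0)) (T.h (P (nat_lit 504544812)) (T.h (P (nat_lit 0)) (T.h (P (nat_lit 176981199548)) (T.h (P (nat_lit 0)) (M (nat_lit 5640283889655))))))) (T.h (P (nat_lit 0)) (T.h (T.h (P (nat_lit 0)) (T.h (M (nat_lit 63781000879)) (T.h (P (nat_lit 0)) (M (nat_lit 589640662371))))) (T.h (P (nat_lit 0)) (T.h (T.h (P (nat_lit 0)) (P (nat_lit 1281244581392))) (P (nat_lit 0)))))))) (T.h (T.h (T.h (M (nat_lit 2649485359)) (T.h (P (nat_lit 0)) (T.h (M (nat_lit 22142912835)) (T.h (P (nat_lit 0)) (P (nat_lit 5150790670280)))))) (T.h (P (nat_lit 0)) (T.h (T.h (M (nat_lit 12269142819)) (T.h (P (nat_lit 0)) (P (nat_lit 241482879740)))) (T.h (P (nat_lit 0)) (M (nat_lit 51005097499)))))) (T.h (T.h (P (nat_lit 0)) (T.h (T.h (P (nat_lit 0)) (T.h (M (nat_lit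 25303031799)) (T.h (P (nat_lit 0)) (P (nat_lit 36135257920028))))) (T.h (P (nat_lit 0)) (T.h (T.h (P (nat_lit 0)) (M (nat_lit 182987744723))) (P (nat_lit 0)))))) (T.h (T.h (T.h (M (nat_lit 47079988255)) (T.h (P (nat_lit 0)) (M (nat_lit 2917659441475)))) (T.h (P (nat_lit 0)) (P (nat_lit 52951901796)))) (T.h (T.h (P (nat_lit 0)) (T.h (T.h (P (nat_lit 0)) (M (nat_lit 4322459232347))) (P (nat_lit 0)))) (P (nat_lit 867047484988))))))) (T.h (P (nat_lit 0)) (T.h (T.h (T.h (P (nat_lit 0)) (T.h (T.h (P (nat_lit 0)) (T.h (M (nat_lit 7545324303)) (T.h (P (nat_lit 0)) (T.h (M (nat_lit 1325889120779)) (T.h (P (nat_lit 0)) (P (nat_lit 57641579503592))))))) (T.h (P (nat_lit 0)) (T.h (T.h (P (nat_lit 0)) (T.h (P (nat_lit 256857012748)) (T.h (P (nat_lit 0)) (M (nat_lit 7785751205567))))) (T.h (P (nat_lit 0)) (T.h (T.h (P (nat_lit 0)) (M (nat_lit 1218047199431))) (P (nat_lit 0)))))))) (T.h (T.h (T.h (P (nat_lit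 701241940)) (T.h (P (nat_lit 0)) (T.h (P (nat_lit 64484339528)) (T.h (P (nat_lit 0)) (M (nat_lit 7000106771811)))))) (T.h (P (nat_lit 0)) (T.h (T.h (M (nat_lit 4840132751)) (T.h (P (nat_lit 0)) (M (nat_lit 275510003887)))) (T.h (P (nat_lit 0)) (P (nat_lit 871659356456)))))) (T.h (T.h (P (nat_lit 0)) (T.h (T.h (P (nat_lit 0)) (T.h (P (nat_lit 241730115368)) (T.h (P (nat_lit 0)) (P (nat_lit 18356262156708))))) (T.h (P (nat_lit 0)) (T.h (T.h (P (nat_lit 0)) (P (nat_lit 10749224177272))) (P (nat_lit 0)))))) (T.h (T.h (T.h (P (nat_lit 103698747796)) (T.h (P (nat_lit 0)) (M (nat_lit 430940173551)))) (T.h (P (nat_lit 0)) (P (nat_lit 21025235168)))) (T.h (T.h (P (nat_lit 0)) (T.h (T.h (P (nat_lit 0)) (P (nat_lit 3381212976148))) (P (nat_lit 0)))) (M (nat_lit 1543170312599))))))) (P (nat_lit 0))))))))) (T.h (T.h (P (nat_lit 0)) (T.h (P (nat_lit 0)) (T.h (P (nat_lit 0)) (T.h (T.h (T.h (T.h (M (nat_lit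 15)) (T.h (P (nat_lit 0)) (T.h (P (nat_lit 336)) (T.h (P (nat_lit 0)) (T.h (M (nat_lit 1071)) (T.h (P (nat_lit 0)) (M (nat_lit 586463)))))))) (T.h (P (nat_lit 0)) (T.h (T.h (P (nat_lit 2501087048)) (T.h (P (nat_lit 0)) (T.h (P (nat_lit 1470226158032)) (T.h (P (nat_lit 0)) (M (nat_lit 34627820150767)))))) (T.h (P (nat_lit 0)) (T.h (T.h (M (nat_lit 63144965239)) (T.h (P (nat_lit 0)) (M (nat_lit 17877642315831)))) (T.h (P (nat_lit 0)) (M (nat_lit 447655350415)))))))) (T.h (T.h (P (nat_lit 0)) (T.h (T.h (P (nat_lit 0)) (T.h (M (nat_lit 2735)) (T.h (P (nat_lit 0)) (P (nat_lit 149312))))) (T.h (P (nat_lit 0)) (T.h (T.h (P (nat_lit 0)) (P (nat_lit 8743890515392))) (P (nat_lit 0)))))) (T.h (T.h (T.h (P (nat_lit 2501087048)) (T.h (P (nat_lit 0)) (T.h (P (nat_lit 1470226158032)) (T.h (P (nat_lit 0)) (M (nat_lit 34627820150767)))))) (T.h (P (nat_lit 0)) (T.h (T.h (P (nat_lit 10800)) (T.h (P (nat_lit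 0)) (P (nat_lit 511824)))) (T.h (P (nat_lit 0)) (P (nat_lit 8215840202728)))))) (T.h (T.h (P (nat_lit 0)) (T.h (T.h (P (nat_lit 0)) (P (nat_lit 8743890515392))) (P (nat_lit 0)))) (T.h (T.h (T.h (M (nat_lit 63144965239)) (T.h (P (nat_lit 0)) (M (nat_lit 17877642315831)))) (T.h (P (nat_lit 0)) (P (nat_lit 8215840202728)))) (T.h (P (nat_lit 0)) (M (nat_lit 447655350415)))))))) (T.h (P (nat_lit 0)) (T.h (T.h (T.h (T.h (P (nat_lit 601233360)) (T.h (P (nat_lit 0)) (T.h (P (nat_lit 119721035504)) (T.h (P (nat_lit 0)) (T.h (M (nat_lit 1236875702327)) (T.h (P (nat_lit 0)) (M (nat_lit 3341022135247)))))))) (T.h (P (nat_lit 0)) (T.h (T.h (M (nat_lit 28661537323)) (T.h (P (nat_lit 0)) (T.h (M (nat_lit 3956355819051)) (T.h (P (nat_lit 0)) (M (nat_lit 50548214789127)))))) (T.h (P (nat_lit 0)) (T.h (T.h (P (nat_lit 576150028804)) (T.h (P (nat_lit 0)) (P (nat_lit 62285420229704)))) (T.h (P (nat_lit 0))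 (P (nat_lit 742341497492)))))))) (T.h (T.h (P (nat_lit 0)) (T.h (T.h (P (nat_lit 0)) (T.h (M (nat_lit 958098744231)) (T.h (P (nat_lit 0)) (M (nat_lit 106484699249039))))) (T.h (P (nat_lit 0)) (T.h (T.h (P (nat_lit 0)) (M (nat_lit 1798233856999))) (P (nat_lit 0)))))) (T.h (T.h (T.h (M (nat_lit 28661537323)) (T.h (P (nat_lit 0)) (T.h (M (nat_lit 3956355819051)) (T.h (P (nat_lit 0)) (M (nat_lit 50548214789127)))))) (T.h (P (nat_lit 0)) (T.h (T.h (P (nat_lit 951011479992)) (T.h (P (nat_lit 0)) (P (nat_lit 30325838342968)))) (T.h (P (nat_lit 0)) (P (nat_lit 31677840070912)))))) (T.h (T.h (P (nat_lit 0)) (T.h (T.h (P (nat_lit 0)) (M (nat_lit 1798233856999))) (P (nat_lit 0)))) (T.h (T.h (T.h (P (nat_lit 576150028804)) (T.h (P (nat_lit 0)) (P (nat_lit 62285420229704)))) (T.h (P (nat_lit 0)) (P (nat_lit 31677840070912)))) (T.h (P (nat_lit 0)) (P (nat_lit 742341497492)))))))) (P (nat_lit 0))))))))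 et1_4))
def et1_6 : T ℤ := (T.h (T.h (T.h (T.h (P (nat_lit 0)) (T.h (T.h (M (nat_lit 799116259)) (T.h (P (nat_lit 0)) (T.h (P (nat_lit 35707101008)) (T.h (P (nat_lit 0)) (M (nat_lit 2550961155487)))))) (T.h (P (nat_lit 0)) (T.h (T.h (M (nat_lit 26869194023)) (T.h (P (nat_lit 0)) (M (nat_lit 711991273403)))) (T.h (P (nat_lit 0)) (P (nat_lit 913282348636))))))) (T.h (T.h (T.h (P (nat_lit 0)) (T.h (P (nat_lit 5565340456)) (T.h (P (nat_lit 0)) (T.h (P (nat_lit 134296882364)) (T.h (P (nat_lit 0)) (P (nat_lit 4057045979324))))))) (T.h (P (nat_lit 0)) (T.h (T.h (P (nat_lit 0)) (T.h (P (nat_lit 2262348714936)) (T.h (P (nat_lit 0)) (M (nat_lit 4835202042695))))) (T.h (P (nat_lit 0)) (T.h (T.h (P (nat_lit 0)) (P (nat_lit 5991508253152))) (P (nat_lit 0))))))) (T.h (T.h (P (nat_lit 0)) (T.h (T.h (P (nat_lit 3817709884)) (T.h (P (nat_lit 0)) (M (nat_lit 2387220051675)))) (T.h (P (nat_lit 0)) (M (nat_lit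 3884808174995))))) (T.h (T.h (T.h (P (nat_lit 0)) (T.h (M (nat_lit 46917086895)) (T.h (P (nat_lit 0)) (P (nat_lit 2214167332356))))) (T.h (P (nat_lit 0)) (T.h (T.h (P (nat_lit 0)) (M (nat_lit 859156601507))) (P (nat_lit 0))))) (T.h (T.h (P (nat_lit 0)) (M (nat_lit 1325333963007))) (T.h (T.h (T.h (P (nat_lit 0)) (M (nat_lit 546153259851))) (P (nat_lit 0))) (P (nat_lit 0)))))))) (T.h (P (nat_lit 0)) (T.h (T.h (T.h (P (nat_lit 0)) (T.h (T.h (P (nat_lit 7194559680)) (T.h (P (nat_lit 0)) (T.h (M (nat_lit 450419988171)) (T.h (P (nat_lit 0)) (P (nat_lit 11008777851764)))))) (T.h (P (nat_lit 0)) (T.h (T.h (M (nat_lit 520003291751)) (T.h (P (nat_lit 0)) (P (nat_lit 214924130344)))) (T.h (P (nat_lit 0)) (P (nat_lit 5688096704696))))))) (T.h (T.h (T.h (P (nat_lit 0)) (T.h (M (nat_lit 93656527607)) (T.h (P (nat_lit 0)) (T.h (M (nat_lit 782160706039)) (T.h (P (nat_lit 0)) (P (nat_lit 58577122697716)))))))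 (T.h (P (nat_lit 0)) (T.h (T.h (P (nat_lit 0)) (T.h (M (nat_lit 35133520731119)) (T.h (P (nat_lit 0)) (P (nat_lit 28404080065284))))) (T.h (P (nat_lit 0)) (T.h (T.h (P (nat_lit 0)) (M (nat_lit 147593764612615))) (P (nat_lit 0))))))) (T.h (T.h (P (nat_lit 0)) (T.h (T.h (M (nat_lit 450419988171)) (T.h (P (nat_lit 0)) (P (nat_lit 68740037944480)))) (T.h (P (nat_lit 0)) (P (nat_lit 214924130344))))) (T.h (T.h (T.h (P (nat_lit 0)) (T.h (M (nat_lit 782160706039)) (T.h (P (nat_lit 0)) (M (nat_lit 37433170276151))))) (T.h (P (nat_lit 0)) (T.h (T.h (P (nat_lit 0)) (P (nat_lit 28404080065284))) (P (nat_lit 0))))) (T.h (T.h (P (nat_lit 0)) (P (nat_lit 11008777851764))) (T.h (T.h (T.h (P (nat_lit 0)) (P (nat_lit 58577122697716))) (P (nat_lit 0))) (P (nat_lit 0)))))))) (P (nat_lit 0))))) (T.h (T.h (P (nat_lit 0)) (T.h (T.h (T.h (T.h (P (nat_lit 0)) (T.h (P (nat_lit 9860760868)) (T.h (P (nat_lit 0))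 (T.h (M (nat_lit 74634584499)) (T.h (P (nat_lit 0)) (P (nat_lit 2688523257728))))))) (T.h (P (nat_lit 0)) (T.h (T.h (P (nat_lit 0)) (T.h (M (nat_lit 649531475095)) (T.h (P (nat_lit 0)) (P (nat_lit 53452015668744))))) (T.h (P (nat_lit 0)) (T.h (T.h (P (nat_lit 0)) (P (nat_lit 31182050545072))) (P (nat_lit 0))))))) (T.h (T.h (P (nat_lit 0)) (T.h (T.h (P (nat_lit 75581254420)) (T.h (P (nat_lit 0)) (T.h (M (nat_lit 405852223391)) (T.h (P (nat_lit 0)) (P (nat_lit 98048338603180)))))) (T.h (P (nat_lit 0)) (T.h (T.h (M (nat_lit 1771471884335)) (T.h (P (nat_lit 0)) (P (nat_lit 190570603563928)))) (T.h (P (nat_lit 0)) (P (nat_lit 51925079650080))))))) (T.h (T.h (T.h (P (nat_lit 0)) (T.h (M (nat_lit 58510042723)) (T.h (P (nat_lit 0)) (M (nat_lit 6975966308499))))) (T.h (P (nat_lit 0)) (T.h (T.h (P (nat_lit 0)) (M (nat_lit 38706104438791))) (P (nat_lit 0))))) (T.h (T.h (P (nat_lit 0)) (T.h (T.h (M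 (nat_lit 1855296375911)) (T.h (P (nat_lit 0)) (M (nat_lit 88196892127763)))) (T.h (P (nat_lit 0)) (M (nat_lit 130006778011263))))) (T.h (T.h (T.h (P (nat_lit 0)) (M (nat_lit 8702800251123))) (P (nat_lit 0))) (T.h (T.h (P (nat_lit 0)) (M (nat_lit 18353403978363))) (P (nat_lit 0)))))))) (P (nat_lit 0)))) (T.h (T.h (T.h (T.h (P (nat_lit 0)) (T.h (T.h (M (nat_lit 1291999911)) (T.h (P (nat_lit 0)) (T.h (M (nat_lit 58890312599)) (T.h (P (nat_lit 0)) (P (nat_lit 1715618916872)))))) (T.h (P (nat_lit 0)) (T.h (T.h (M (nat_lit 80207299815)) (T.h (P (nat_lit 0)) (P (nat_lit 5645012193800)))) (T.h (P (nat_lit 0)) (P (nat_lit 1597188528432))))))) (T.h (T.h (T.h (P (nat_lit 0)) (T.h (P (nat_lit 10617940060)) (T.h (P (nat_lit 0)) (T.h (M (nat_lit 237683718635)) (T.h (P (nat_lit 0)) (P (nat_lit 1292902481136))))))) (T.h (P (nat_lit 0)) (T.h (T.h (P (nat_lit 0)) (T.h (P (nat_lit 1303953592396)) (T.h (P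 (nat_lit 0)) (M (nat_lit 3970494279191))))) (T.h (P (nat_lit 0)) (T.h (T.h (P (nat_lit 0)) (P (nat_lit 90308767551912))) (P (nat_lit 0))))))) (T.h (T.h (P (nat_lit 0)) (T.h (T.h (P (nat_lit 102712520092)) (T.h (P (nat_lit 0)) (M (nat_lit 4030084419815)))) (T.h (P (nat_lit 0)) (M (nat_lit 4475261821827))))) (T.h (T.h (T.h (P (nat_lit 0)) (T.h (M (nat_lit 18266662203)) (T.h (P (nat_lit 0)) (P (nat_lit 1856233917692))))) (T.h (P (nat_lit 0)) (T.h (T.h (P (nat_lit 0)) (P (nat_lit 29016869879816))) (P (nat_lit 0))))) (T.h (T.h (P (nat_lit 0)) (M (nat_lit 1251434679935))) (T.h (T.h (T.h (P (nat_lit 0)) (M (nat_lit 10561056919559))) (P (nat_lit 0))) (P (nat_lit 0)))))))) (P (nat_lit 0))) (P (nat_lit 0)))))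
def et1_7 : T ℤ := (T.h (T.h (P (nat_lit 0)) (T.h (P (nat_lit 0)) (T.h (T.h (T.h (P (nat_lit 0)) (T.h (T.h (M (nat_lit 3329195119)) (T.h (P (nat_lit 0)) (T.h (M (nat_lit 18397020331)) (T.h (P (nat_lit 0)) (M (nat_lit 2474908870979)))))) (T.h (P (nat_lit 0)) (T.h (T.h (P (nat_lit 6138487608)) (T.h (P (nat_lit 0)) (M (nat_lit 11545069630731)))) (T.h (P (nat_lit 0)) (M (nat_lit 141017734967))))))) (T.h (T.h (T.h (P (nat_lit 0)) (T.h (P (nat_lit 11618382856)) (T.h (P (nat_lit 0)) (T.h (M (nat_lit 1040430485979)) (T.h (P (nat_lit 0)) (P (nat_lit 24552262571904))))))) (T.h (P (nat_lit 0)) (T.h (T.h (P (nat_lit 0)) (T.h (P (nat_lit 81702473584)) (T.h (P (nat_lit 0)) (M (nat_lit 208175936918643))))) (T.h (P (nat_lit 0)) (T.h (T.h (P (nat_lit 0)) (M (nat_lit 24981478701687))) (P (nat_lit 0))))))) (T.h (T.h (P (nat_lit 0)) (T.h (T.h (M (nat_lit 18397020331)) (T.h (P (nat_lit 0)) (P (nat_lit 13943680100552))))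 (T.h (P (nat_lit 0)) (M (nat_lit 11545069630731))))) (T.h (T.h (T.h (P (nat_lit 0)) (T.h (M (nat_lit 1040430485979)) (T.h (P (nat_lit 0)) (P (nat_lit 15379937511864))))) (T.h (P (nat_lit 0)) (T.h (T.h (P (nat_lit 0)) (M (nat_lit 208175936918643))) (P (nat_lit 0))))) (T.h (T.h (P (nat_lit 0)) (M (nat_lit 2474908870979))) (T.h (T.h (T.h (P (nat_lit 0)) (P (nat_lit 24552262571904))) (P (nat_lit 0))) (P (nat_lit 0)))))))) (T.h (P (nat_lit 0)) (T.h (T.h (T.h (P (nat_lit 0)) (T.h (T.h (P (nat_lit 9860760868)) (T.h (P (nat_lit 0)) (T.h (M (nat_lit 649531475095)) (T.h (P (nat_lit 0)) (P (nat_lit 31182050545072)))))) (T.h (P (nat_lit 0)) (T.h (T.h (M (nat_lit 74634584499)) (T.h (P (nat_lit 0)) (P (nat_lit 53452015668744)))) (T.h (P (nat_lit 0)) (P (nat_lit 2688523257728))))))) (T.h (T.h (T.h (P (nat_lit 0)) (T.h (P (nat_lit 75581254420)) (T.h (P (nat_lit 0)) (T.h (M (nat_lit 1771471884335)) (T.h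 (P (nat_lit 0)) (P (nat_lit 51925079650080))))))) (T.h (P (nat_lit 0)) (T.h (T.h (P (nat_lit 0)) (T.h (M (nat_lit 405852223391)) (T.h (P (nat_lit 0)) (P (nat_lit 190570603563928))))) (T.h (P (nat_lit 0)) (T.h (T.h (P (nat_lit 0)) (P (nat_lit 98048338603180))) (P (nat_lit 0))))))) (T.h (T.h (P (nat_lit 0)) (T.h (T.h (M (nat_lit 58510042723)) (T.h (P (nat_lit 0)) (M (nat_lit 38706104438791)))) (T.h (P (nat_lit 0)) (M (nat_lit 6975966308499))))) (T.h (T.h (T.h (P (nat_lit 0)) (T.h (M (nat_lit 1855296375911)) (T.h (P (nat_lit 0)) (M (nat_lit 130006778011263))))) (T.h (P (nat_lit 0)) (T.h (T.h (P (nat_lit 0)) (M (nat_lit 88196892127763))) (P (nat_lit 0))))) (T.h (T.h (P (nat_lit 0)) (M (nat_lit 8702800251123))) (T.h (T.h (T.h (P (nat_lit 0)) (M (nat_lit 18353403978363))) (P (nat_lit 0))) (P (nat_lit 0)))))))) (P (nat_lit 0))))))) (T.h (T.h (P (nat_lit 0)) (T.h (T.h (T.h (T.h (P (nat_lit 0))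 (T.h (M (nat_lit 3329195119)) (T.h (P (nat_lit 0)) (T.h (P (nat_lit 6138487608)) (T.h (P (nat_lit 0)) (M (nat_lit 141017734967))))))) (T.h (P (nat_lit 0)) (T.h (T.h (P (nat_lit 0)) (T.h (M (nat_lit 18397020331)) (T.h (P (nat_lit 0)) (M (nat_lit 11545069630731))))) (T.h (P (nat_lit 0)) (T.h (T.h (P (nat_lit 0)) (M (nat_lit 2474908870979))) (P (nat_lit 0))))))) (T.h (T.h (P (nat_lit 0)) (T.h (T.h (P (nat_lit 11618382856)) (T.h (P (nat_lit 0)) (T.h (P (nat_lit 81702473584)) (T.h (P (nat_lit 0)) (M (nat_lit 24981478701687)))))) (T.h (P (nat_lit 0)) (T.h (T.h (M (nat_lit 1040430485979)) (T.h (P (nat_lit 0)) (M (nat_lit 208175936918643)))) (T.h (P (nat_lit 0)) (P (nat_lit 24552262571904))))))) (T.h (T.h (T.h (P (nat_lit 0)) (T.h (M (nat_lit 18397020331)) (T.h (P (nat_lit 0)) (M (nat_lit 11545069630731))))) (T.h (P (nat_lit 0)) (T.h (T.h (P (nat_lit 0)) (P (nat_lit 13943680100552))) (P (nat_lit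 0))))) (T.h (T.h (P (nat_lit 0)) (T.h (T.h (M (nat_lit 1040430485979)) (T.h (P (nat_lit 0)) (M (nat_lit 208175936918643)))) (T.h (P (nat_lit 0)) (P (nat_lit 15379937511864))))) (T.h (T.h (T.h (P (nat_lit 0)) (M (nat_lit 2474908870979))) (P (nat_lit 0))) (T.h (T.h (P (nat_lit 0)) (P (nat_lit 24552262571904))) (P (nat_lit 0)))))))) (T.h (P (nat_lit 0)) (T.h (T.h (T.h (T.h (P (nat_lit 0)) (T.h (P (nat_lit 7194559680)) (T.h (P (nat_lit 0)) (T.h (M (nat_lit 520003291751)) (T.h (P (nat_lit 0)) (P (nat_lit 5688096704696))))))) (T.h (P (nat_lit 0)) (T.h (T.h (P (nat_lit 0)) (T.h (M (nat_lit 450419988171)) (T.h (P (nat_lit 0)) (P (nat_lit 214924130344))))) (T.h (P (nat_lit 0)) (T.h (T.h (P (nat_lit 0)) (P (nat_lit 11008777851764))) (P (nat_lit 0))))))) (T.h (T.h (P (nat_lit 0)) (T.h (T.h (M (nat_lit 93656527607)) (T.h (P (nat_lit 0)) (T.h (M (nat_lit 35133520731119)) (T.h (P (nat_lit 0)) (M (nat_lit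 147593764612615)))))) (T.h (P (nat_lit 0)) (T.h (T.h (M (nat_lit 782160706039)) (T.h (P (nat_lit 0)) (P (nat_lit 28404080065284)))) (T.h (P (nat_lit 0)) (P (nat_lit 58577122697716))))))) (T.h (T.h (T.h (P (nat_lit 0)) (T.h (M (nat_lit 450419988171)) (T.h (P (nat_lit 0)) (P (nat_lit 214924130344))))) (T.h (P (nat_lit 0)) (T.h (T.h (P (nat_lit 0)) (P (nat_lit 68740037944480))) (P (nat_lit 0))))) (T.h (T.h (P (nat_lit 0)) (T.h (T.h (M (nat_lit 782160706039)) (T.h (P (nat_lit 0)) (P (nat_lit 28404080065284)))) (T.h (P (nat_lit 0)) (M (nat_lit 37433170276151))))) (T.h (T.h (T.h (P (nat_lit 0)) (P (nat_lit 11008777851764))) (P (nat_lit 0))) (T.h (T.h (P (nat_lit 0)) (P (nat_lit 58577122697716))) (P (nat_lit 0)))))))) (P (nat_lit 0)))))) et1_6))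
def et1_8 : T ℤ := (T.h (T.h (T.h (T.h (P (nat_lit 0)) (T.h (T.h (P (nat_lit 0)) (T.h (P (nat_lit 5565340456)) (T.h (P (nat_lit 0)) (T.h (P (nat_lit 134296882364)) (T.h (P (nat_lit 0)) (P (nat_lit 4057045979324))))))) (T.h (P (nat_lit 0)) (T.h (T.h (P (nat_lit 0)) (T.h (M (nat_lit 46917086895)) (T.h (P (nat_lit 0)) (P (nat_lit 2214167332356))))) (T.h (P (nat_lit 0)) (T.h (T.h (P (nat_lit 0)) (M (nat_lit 546153259851))) (P (nat_lit 0)))))))) (T.h (T.h (T.h (M (nat_lit 799116259)) (T.h (P (nat_lit 0)) (T.h (P (nat_lit 35707101008)) (T.h (P (nat_lit 0)) (M (nat_lit 2550961155487)))))) (T.h (P (nat_lit 0)) (T.h (T.h (P (nat_lit 3817709884)) (T.h (P (nat_lit 0)) (M (nat_lit 2387220051675)))) (T.h (P (nat_lit 0)) (M (nat_lit 1325333963007)))))) (T.h (T.h (P (nat_lit 0)) (T.h (T.h (P (nat_lit 0)) (T.h (P (nat_lit 2262348714936)) (T.h (P (nat_lit 0)) (M (nat_lit 4835202042695))))) (T.h (P (nat_lit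 0)) (T.h (T.h (P (nat_lit 0)) (M (nat_lit 859156601507))) (P (nat_lit 0)))))) (T.h (T.h (T.h (M (nat_lit 26869194023)) (T.h (P (nat_lit 0)) (M (nat_lit 711991273403)))) (T.h (P (nat_lit 0)) (M (nat_lit 3884808174995)))) (T.h (T.h (P (nat_lit 0)) (T.h (T.h (P (nat_lit 0)) (P (nat_lit 5991508253152))) (P (nat_lit 0)))) (P (nat_lit 913282348636))))))) (T.h (P (nat_lit 0)) (T.h (T.h (T.h (P (nat_lit 0)) (T.h (T.h (P (nat_lit 0)) (T.h (M (nat_lit 93656527607)) (T.h (P (nat_lit 0)) (T.h (M (nat_lit 782160706039)) (T.h (P (nat_lit 0)) (P (nat_lit 58577122697716))))))) (T.h (P (nat_lit 0)) (T.h (T.h (P (nat_lit 0)) (T.h (M (nat_lit 782160706039)) (T.h (P (nat_lit 0)) (M (nat_lit 37433170276151))))) (T.h (P (nat_lit 0)) (T.h (T.h (P (nat_lit 0)) (P (nat_lit 58577122697716))) (P (nat_lit 0)))))))) (T.h (T.h (T.h (P (nat_lit 7194559680)) (T.h (P (nat_lit 0)) (T.h (M (nat_lit 450419988171)) (T.h (P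 (nat_lit 0)) (P (nat_lit 11008777851764)))))) (T.h (P (nat_lit 0)) (T.h (T.h (M (nat_lit 450419988171)) (T.h (P (nat_lit 0)) (P (nat_lit 68740037944480)))) (T.h (P (nat_lit 0)) (P (nat_lit 11008777851764)))))) (T.h (T.h (P (nat_lit 0)) (T.h (T.h (P (nat_lit 0)) (T.h (M (nat_lit 35133520731119)) (T.h (P (nat_lit 0)) (P (nat_lit 28404080065284))))) (T.h (P (nat_lit 0)) (T.h (T.h (P (nat_lit 0)) (P (nat_lit 28404080065284))) (P (nat_lit 0)))))) (T.h (T.h (T.h (M (nat_lit 520003291751)) (T.h (P (nat_lit 0)) (P (nat_lit 214924130344)))) (T.h (P (nat_lit 0)) (P (nat_lit 214924130344)))) (T.h (T.h (P (nat_lit 0)) (T.h (T.h (P (nat_lit 0)) (M (nat_lit 147593764612615))) (P (nat_lit 0)))) (P (nat_lit 5688096704696))))))) (P (nat_lit 0))))) (T.h (T.h (P (nat_lit 0)) (T.h (T.h (T.h (T.h (M (nat_lit 919417127)) (T.h (P (nat_lit 0)) (T.h (P (nat_lit 1644685784)) (T.h (P (nat_lit 0)) (T.h (M (nat_lit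 1793817449255)) (T.h (P (nat_lit 0)) (M (nat_lit 7300303294367)))))))) (T.h (P (nat_lit 0)) (T.h (T.h (P (nat_lit 59389766072)) (T.h (P (nat_lit 0)) (T.h (M (nat_lit 1501616645507)) (T.h (P (nat_lit 0)) (M (nat_lit 61853719243763)))))) (T.h (P (nat_lit 0)) (T.h (T.h (M (nat_lit 34270802719)) (T.h (P (nat_lit 0)) (M (nat_lit 68787763482395)))) (T.h (P (nat_lit 0)) (P (nat_lit 18382803797176)))))))) (T.h (T.h (P (nat_lit 0)) (T.h (T.h (P (nat_lit 0)) (T.h (P (nat_lit 1214744886936)) (T.h (P (nat_lit 0)) (M (nat_lit 67942352892399))))) (T.h (P (nat_lit 0)) (T.h (T.h (P (nat_lit 0)) (P (nat_lit 96056251515392))) (P (nat_lit 0)))))) (T.h (T.h (T.h (P (nat_lit 59389766072)) (T.h (P (nat_lit 0)) (T.h (M (nat_lit 1501616645507)) (T.h (P (nat_lit 0)) (M (nat_lit 61853719243763)))))) (T.h (P (nat_lit 0)) (T.h (T.h (P (nat_lit 9279857555584)) (T.h (P (nat_lit 0)) (P (nat_lit 12593288699712)))) (T.h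 (P (nat_lit 0)) (P (nat_lit 83837203868796)))))) (T.h (T.h (P (nat_lit 0)) (T.h (T.h (P (nat_lit 0)) (P (nat_lit 96056251515392))) (P (nat_lit 0)))) (T.h (T.h (T.h (M (nat_lit 34270802719)) (T.h (P (nat_lit 0)) (M (nat_lit 68787763482395)))) (T.h (P (nat_lit 0)) (P (nat_lit 83837203868796)))) (T.h (P (nat_lit 0)) (P (nat_lit 18382803797176)))))))) (P (nat_lit 0)))) (T.h (T.h (T.h (T.h (P (nat_lit 0)) (T.h (T.h (P (nat_lit 0)) (T.h (M (nat_lit 3586835699)) (T.h (P (nat_lit 0)) (T.h (M (nat_lit 2032910263)) (T.h (P (nat_lit 0)) (M (nat_lit 264689197499))))))) (T.h (P (nat_lit 0)) (T.h (T.h (P (nat_lit 0)) (T.h (P (nat_lit 198143558480)) (T.h (P (nat_lit 0)) (P (nat_lit 7833401630040))))) (T.h (P (nat_lit 0)) (T.h (T.h (P (nat_lit 0)) (M (nat_lit 13545291274143))) (P (nat_lit 0)))))))) (T.h (T.h (T.h (P (nat_lit 214673928)) (T.h (P (nat_lit 0)) (T.h (P (nat_lit 54553336852)) (T.h (P (nat_lit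 0)) (M (nat_lit 1742060629035)))))) (T.h (P (nat_lit 0)) (T.h (T.h (M (nat_lit 139392761339)) (T.h (P (nat_lit 0)) (M (nat_lit 954457898323)))) (T.h (P (nat_lit 0)) (P (nat_lit 3613597556324)))))) (T.h (T.h (P (nat_lit 0)) (T.h (T.h (P (nat_lit 0)) (T.h (M (nat_lit 579306696415)) (T.h (P (nat_lit 0)) (P (nat_lit 17587242585108))))) (T.h (P (nat_lit 0)) (T.h (T.h (P (nat_lit 0)) (P (nat_lit 50007357650992))) (P (nat_lit 0)))))) (T.h (T.h (T.h (P (nat_lit 144878326992)) (T.h (P (nat_lit 0)) (M (nat_lit 3008920209623)))) (T.h (P (nat_lit 0)) (P (nat_lit 8615974074932)))) (T.h (T.h (P (nat_lit 0)) (T.h (T.h (P (nat_lit 0)) (M (nat_lit 21914648649039))) (P (nat_lit 0)))) (M (nat_lit 5562891016647))))))) (P (nat_lit 0))) (P (nat_lit 0)))))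
def et1_9 : T ℤ := (T.h (T.h (P (nat_lit 0)) (T.h (P (nat_lit 0)) (T.h (T.h (T.h (P (nat_lit 0)) (T.h (T.h (P (nat_lit 0)) (T.h (P (nat_lit 5565340456)) (T.h (P (nat_lit 0)) (T.h (M (nat_lit 46917086895)) (T.h (P (nat_lit 0)) (M (nat_lit 546153259851))))))) (T.h (P (nat_lit 0)) (T.h (T.h (P (nat_lit 0)) (T.h (P (nat_lit 134296882364)) (T.h (P (nat_lit 0)) (P (nat_lit 2214167332356))))) (T.h (P (nat_lit 0)) (T.h (T.h (P (nat_lit 0)) (P (nat_lit 4057045979324))) (P (nat_lit 0)))))))) (T.h (T.h (T.h (M (nat_lit 799116259)) (T.h (P (nat_lit 0)) (T.h (P (nat_lit 3817709884)) (T.h (P (nat_lit 0)) (M (nat_lit 1325333963007)))))) (T.h (P (nat_lit 0)) (T.h (T.h (P (nat_lit 35707101008)) (T.h (P (nat_lit 0)) (M (nat_lit 2387220051675)))) (T.h (P (nat_lit 0)) (M (nat_lit 2550961155487)))))) (T.h (T.h (P (nat_lit 0)) (T.h (T.h (P (nat_lit 0)) (T.h (P (nat_lit 2262348714936)) (T.h (P (nat_lit 0)) (M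 (nat_lit 859156601507))))) (T.h (P (nat_lit 0)) (T.h (T.h (P (nat_lit 0)) (M (nat_lit 4835202042695))) (P (nat_lit 0)))))) (T.h (T.h (T.h (M (nat_lit 26869194023)) (T.h (P (nat_lit 0)) (M (nat_lit 3884808174995)))) (T.h (P (nat_lit 0)) (M (nat_lit 711991273403)))) (T.h (T.h (P (nat_lit 0)) (T.h (T.h (P (nat_lit 0)) (P (nat_lit 5991508253152))) (P (nat_lit 0)))) (P (nat_lit 913282348636))))))) (T.h (P (nat_lit 0)) (T.h (T.h (T.h (P (nat_lit 0)) (T.h (T.h (P (nat_lit 0)) (T.h (M (nat_lit 3586835699)) (T.h (P (nat_lit 0)) (T.h (P (nat_lit 198143558480)) (T.h (P (nat_lit 0)) (M (nat_lit 13545291274143))))))) (T.h (P (nat_lit 0)) (T.h (T.h (P (nat_lit 0)) (T.h (M (nat_lit 2032910263)) (T.h (P (nat_lit 0)) (P (nat_lit 7833401630040))))) (T.h (P (nat_lit 0)) (T.h (T.h (P (nat_lit 0)) (M (nat_lit 264689197499))) (P (nat_lit 0)))))))) (T.h (T.h (T.h (P (nat_lit 214673928)) (T.h (P (nat_lit 0)) (T.h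 (M (nat_lit 139392761339)) (T.h (P (nat_lit 0)) (P (nat_lit 3613597556324)))))) (T.h (P (nat_lit 0)) (T.h (T.h (P (nat_lit 54553336852)) (T.h (P (nat_lit 0)) (M (nat_lit 954457898323)))) (T.h (P (nat_lit 0)) (M (nat_lit 1742060629035)))))) (T.h (T.h (P (nat_lit 0)) (T.h (T.h (P (nat_lit 0)) (T.h (M (nat_lit 579306696415)) (T.h (P (nat_lit 0)) (P (nat_lit 50007357650992))))) (T.h (P (nat_lit 0)) (T.h (T.h (P (nat_lit 0)) (P (nat_lit 17587242585108))) (P (nat_lit 0)))))) (T.h (T.h (T.h (P (nat_lit 144878326992)) (T.h (P (nat_lit 0)) (P (nat_lit 8615974074932)))) (T.h (P (nat_lit 0)) (M (nat_lit 3008920209623)))) (T.h (T.h (P (nat_lit 0)) (T.h (T.h (P (nat_lit 0)) (M (nat_lit 21914648649039))) (P (nat_lit 0)))) (M (nat_lit 5562891016647))))))) (P (nat_lit 0))))))) (T.h (T.h (P (nat_lit 0)) (T.h (T.h (T.h (T.h (M (nat_lit 15)) (T.h (P (nat_lit 0)) (T.h (P (nat_lit 2501087048)) (T.h (P (nat_lit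 0)) (T.h (M (nat_lit 63144965239)) (T.h (P (nat_lit 0)) (M (nat_lit 447655350415)))))))) (T.h (P (nat_lit 0)) (T.h (T.h (P (nat_lit 2501087048)) (T.h (P (nat_lit 0)) (T.h (P (nat_lit 10800)) (T.h (P (nat_lit 0)) (P (nat_lit 8215840202728)))))) (T.h (P (nat_lit 0)) (T.h (T.h (M (nat_lit 63144965239)) (T.h (P (nat_lit 0)) (P (nat_lit 8215840202728)))) (T.h (P (nat_lit 0)) (M (nat_lit 447655350415)))))))) (T.h (T.h (P (nat_lit 0)) (T.h (T.h (P (nat_lit 0)) (T.h (M (nat_lit 2735)) (T.h (P (nat_lit 0)) (P (nat_lit 8743890515392))))) (T.h (P (nat_lit 0)) (T.h (T.h (P (nat_lit 0)) (P (nat_lit 8743890515392))) (P (nat_lit 0)))))) (T.h (T.h (T.h (P (nat_lit 336)) (T.h (P (nat_lit 0)) (T.h (P (nat_lit 1470226158032)) (T.h (P (nat_lit 0)) (M (nat_lit 17877642315831)))))) (T.h (P (nat_lit 0)) (T.h (T.h (P (nat_lit 1470226158032)) (T.h (P (nat_lit 0)) (P (nat_lit 511824)))) (T.h (P (nat_lit 0)) (M (nat_lit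 17877642315831)))))) (T.h (T.h (P (nat_lit 0)) (T.h (T.h (P (nat_lit 0)) (P (nat_lit 149312))) (P (nat_lit 0)))) (T.h (T.h (T.h (M (nat_lit 1071)) (T.h (P (nat_lit 0)) (M (nat_lit 34627820150767)))) (T.h (P (nat_lit 0)) (M (nat_lit 34627820150767)))) (T.h (P (nat_lit 0)) (M (nat_lit 586463)))))))) (T.h (P (nat_lit 0)) (T.h (T.h (T.h (T.h (M (nat_lit 919417127)) (T.h (P (nat_lit 0)) (T.h (P (nat_lit 59389766072)) (T.h (P (nat_lit 0)) (T.h (M (nat_lit 34270802719)) (T.h (P (nat_lit 0)) (P (nat_lit 18382803797176)))))))) (T.h (P (nat_lit 0)) (T.h (T.h (P (nat_lit 1644685784)) (T.h (P (nat_lit 0)) (T.h (M (nat_lit 1501616645507)) (T.h (P (nat_lit 0)) (M (nat_lit 68787763482395)))))) (T.h (P (nat_lit 0)) (T.h (T.h (M (nat_lit 1793817449255)) (T.h (P (nat_lit 0)) (M (nat_lit 61853719243763)))) (T.h (P (nat_lit 0)) (M (nat_lit 7300303294367)))))))) (T.h (T.h (P (nat_lit 0)) (T.h (T.h (P (nat_lit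 0)) (T.h (P (nat_lit 1214744886936)) (T.h (P (nat_lit 0)) (P (nat_lit 96056251515392))))) (T.h (P (nat_lit 0)) (T.h (T.h (P (nat_lit 0)) (M (nat_lit 67942352892399))) (P (nat_lit 0)))))) (T.h (T.h (T.h (P (nat_lit 59389766072)) (T.h (P (nat_lit 0)) (T.h (P (nat_lit 9279857555584)) (T.h (P (nat_lit 0)) (P (nat_lit 83837203868796)))))) (T.h (P (nat_lit 0)) (T.h (T.h (M (nat_lit 1501616645507)) (T.h (P (nat_lit 0)) (P (nat_lit 12593288699712)))) (T.h (P (nat_lit 0)) (M (nat_lit 61853719243763)))))) (T.h (T.h (P (nat_lit 0)) (T.h (T.h (P (nat_lit 0)) (P (nat_lit 96056251515392))) (P (nat_lit 0)))) (T.h (T.h (T.h (M (nat_lit 34270802719)) (T.h (P (nat_lit 0)) (P (nat_lit 83837203868796)))) (T.h (P (nat_lit 0)) (M (nat_lit 68787763482395)))) (T.h (P (nat_lit 0)) (P (nat_lit 18382803797176)))))))) (P (nat_lit 0)))))) et1_8))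
def et1_10 : T ℤ := (T.h (T.h (T.h (T.h (P (nat_lit 0)) (T.h (T.h (M (nat_lit 2649485359)) (T.h (P (nat_lit 0)) (T.h (M (nat_lit 12269142819)) (T.h (P (nat_lit 0)) (M (nat_lit 51005097499)))))) (T.h (P (nat_lit 0)) (T.h (T.h (M (nat_lit 47079988255)) (T.h (P (nat_lit 0)) (P (nat_lit 52951901796)))) (T.h (P (nat_lit 0)) (P (nat_lit 867047484988))))))) (T.h (T.h (T.h (P (nat_lit 0)) (T.h (P (nat_lit 504544812)) (T.h (P (nat_lit 0)) (T.h (M (nat_lit 63781000879)) (T.h (P (nat_lit 0)) (P (nat_lit 1281244581392))))))) (T.h (P (nat_lit 0)) (T.h (T.h (P (nat_lit 0)) (T.h (M (nat_lit 25303031799)) (T.h (P (nat_lit 0)) (M (nat_lit 182987744723))))) (T.h (P (nat_lit 0)) (T.h (T.h (P (nat_lit 0)) (M (nat_lit 4322459232347))) (P (nat_lit 0))))))) (T.h (T.h (P (nat_lit 0)) (T.h (T.h (M (nat_lit 22142912835)) (T.h (P (nat_lit 0)) (P (nat_lit 241482879740)))) (T.h (P (nat_lit 0)) (M (nat_lit 2917659441475)))))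 (T.h (T.h (T.h (P (nat_lit 0)) (T.h (P (nat_lit 176981199548)) (T.h (P (nat_lit 0)) (M (nat_lit 589640662371))))) (T.h (P (nat_lit 0)) (T.h (T.h (P (nat_lit 0)) (P (nat_lit 36135257920028))) (P (nat_lit 0))))) (T.h (T.h (P (nat_lit 0)) (P (nat_lit 5150790670280))) (T.h (T.h (T.h (P (nat_lit 0)) (M (nat_lit 5640283889655))) (P (nat_lit 0))) (P (nat_lit 0)))))))) (T.h (P (nat_lit 0)) (T.h (T.h (T.h (P (nat_lit 0)) (T.h (T.h (P (nat_lit 9860760868)) (T.h (P (nat_lit 0)) (T.h (M (nat_lit 58510042723)) (T.h (P (nat_lit 0)) (M (nat_lit 8702800251123)))))) (T.h (P (nat_lit 0)) (T.h (T.h (M (nat_lit 74634584499)) (T.h (P (nat_lit 0)) (M (nat_lit 6975966308499)))) (T.h (P (nat_lit 0)) (P (nat_lit 2688523257728))))))) (T.h (T.h (T.h (P (nat_lit 0)) (T.h (P (nat_lit 75581254420)) (T.h (P (nat_lit 0)) (T.h (M (nat_lit 1855296375911)) (T.h (P (nat_lit 0)) (M (nat_lit 18353403978363))))))) (T.h (P (nat_lit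 0)) (T.h (T.h (P (nat_lit 0)) (T.h (M (nat_lit 405852223391)) (T.h (P (nat_lit 0)) (M (nat_lit 88196892127763))))) (T.h (P (nat_lit 0)) (T.h (T.h (P (nat_lit 0)) (P (nat_lit 98048338603180))) (P (nat_lit 0))))))) (T.h (T.h (P (nat_lit 0)) (T.h (T.h (M (nat_lit 649531475095)) (T.h (P (nat_lit 0)) (M (nat_lit 38706104438791)))) (T.h (P (nat_lit 0)) (P (nat_lit 53452015668744))))) (T.h (T.h (T.h (P (nat_lit 0)) (T.h (M (nat_lit 1771471884335)) (T.h (P (nat_lit 0)) (M (nat_lit 130006778011263))))) (T.h (P (nat_lit 0)) (T.h (T.h (P (nat_lit 0)) (P (nat_lit 190570603563928))) (P (nat_lit 0))))) (T.h (T.h (P (nat_lit 0)) (P (nat_lit 31182050545072))) (T.h (T.h (T.h (P (nat_lit 0)) (P (nat_lit 51925079650080))) (P (nat_lit 0))) (P (nat_lit 0)))))))) (P (nat_lit 0))))) (T.h (T.h (P (nat_lit 0)) (T.h (T.h (T.h (T.h (P (nat_lit 0)) (T.h (P (nat_lit 9860760868)) (T.h (P (nat_lit 0)) (T.h (M (nat_lit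 74634584499)) (T.h (P (nat_lit 0)) (P (nat_lit 2688523257728))))))) (T.h (P (nat_lit 0)) (T.h (T.h (P (nat_lit 0)) (T.h (M (nat_lit 58510042723)) (T.h (P (nat_lit 0)) (M (nat_lit 6975966308499))))) (T.h (P (nat_lit 0)) (T.h (T.h (P (nat_lit 0)) (M (nat_lit 8702800251123))) (P (nat_lit 0))))))) (T.h (T.h (P (nat_lit 0)) (T.h (T.h (P (nat_lit 75581254420)) (T.h (P (nat_lit 0)) (T.h (M (nat_lit 405852223391)) (T.h (P (nat_lit 0)) (P (nat_lit 98048338603180)))))) (T.h (P (nat_lit 0)) (T.h (T.h (M (nat_lit 1855296375911)) (T.h (P (nat_lit 0)) (M (nat_lit 88196892127763)))) (T.h (P (nat_lit 0)) (M (nat_lit 18353403978363))))))) (T.h (T.h (T.h (P (nat_lit 0)) (T.h (M (nat_lit 649531475095)) (T.h (P (nat_lit 0)) (P (nat_lit 53452015668744))))) (T.h (P (nat_lit 0)) (T.h (T.h (P (nat_lit 0)) (M (nat_lit 38706104438791))) (P (nat_lit 0))))) (T.h (T.h (P (nat_lit 0)) (T.h (T.h (M (nat_lit 1771471884335))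 (T.h (P (nat_lit 0)) (P (nat_lit 190570603563928)))) (T.h (P (nat_lit 0)) (M (nat_lit 130006778011263))))) (T.h (T.h (T.h (P (nat_lit 0)) (P (nat_lit 31182050545072))) (P (nat_lit 0))) (T.h (T.h (P (nat_lit 0)) (P (nat_lit 51925079650080))) (P (nat_lit 0)))))))) (P (nat_lit 0)))) (T.h (T.h (T.h (T.h (P (nat_lit 0)) (T.h (T.h (P (nat_lit 214673928)) (T.h (P (nat_lit 0)) (T.h (P (nat_lit 54553336852)) (T.h (P (nat_lit 0)) (M (nat_lit 1742060629035)))))) (T.h (P (nat_lit 0)) (T.h (T.h (P (nat_lit 144878326992)) (T.h (P (nat_lit 0)) (M (nat_lit 3008920209623)))) (T.h (P (nat_lit 0)) (M (nat_lit 5562891016647))))))) (T.h (T.h (T.h (P (nat_lit 0)) (T.h (M (nat_lit 3586835699)) (T.h (P (nat_lit 0)) (T.h (M (nat_lit 2032910263)) (T.h (P (nat_lit 0)) (M (nat_lit 264689197499))))))) (T.h (P (nat_lit 0)) (T.h (T.h (P (nat_lit 0)) (T.h (M (nat_lit 579306696415)) (T.h (P (nat_lit 0)) (P (nat_lit 17587242585108)))))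 (T.h (P (nat_lit 0)) (T.h (T.h (P (nat_lit 0)) (M (nat_lit 21914648649039))) (P (nat_lit 0))))))) (T.h (T.h (P (nat_lit 0)) (T.h (T.h (M (nat_lit 139392761339)) (T.h (P (nat_lit 0)) (M (nat_lit 954457898323)))) (T.h (P (nat_lit 0)) (P (nat_lit 8615974074932))))) (T.h (T.h (T.h (P (nat_lit 0)) (T.h (P (nat_lit 198143558480)) (T.h (P (nat_lit 0)) (P (nat_lit 7833401630040))))) (T.h (P (nat_lit 0)) (T.h (T.h (P (nat_lit 0)) (P (nat_lit 50007357650992))) (P (nat_lit 0))))) (T.h (T.h (P (nat_lit 0)) (P (nat_lit 3613597556324))) (T.h (T.h (T.h (P (nat_lit 0)) (M (nat_lit 13545291274143))) (P (nat_lit 0))) (P (nat_lit 0)))))))) (P (nat_lit 0))) (P (nat_lit 0)))))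
def et1_11 : T ℤ := (T.h (T.h (T.h (T.h (P (nat_lit 0)) (T.h (T.h (P (nat_lit 0)) (T.h (M (nat_lit 4978845935)) (T.h (P (nat_lit 0)) (T.h (M (nat_lit 29879546923)) (T.h (P (nat_lit 0)) (M (nat_lit 503539623163))))))) (T.h (P (nat_lit 0)) (T.h (T.h (P (nat_lit 0)) (T.h (M (nat_lit 29879546923)) (T.h (P (nat_lit 0)) (M (nat_lit 24220254327))))) (T.h (P (nat_lit 0)) (T.h (T.h (P (nat_lit 0)) (M (nat_lit 503539623163))) (P (nat_lit 0)))))))) (T.h (T.h (T.h (P (nat_lit 1665123904)) (T.h (P (nat_lit 0)) (T.h (M (nat_lit 12273528487)) (T.h (P (nat_lit 0)) (P (nat_lit 230197108436)))))) (T.h (P (nat_lit 0)) (T.h (T.h (M (nat_lit 12273528487)) (T.h (P (nat_lit 0)) (M (nat_lit 1117523173199)))) (T.h (P (nat_lit 0)) (P (nat_lit 230197108436)))))) (T.h (T.h (P (nat_lit 0)) (T.h (T.h (P (nat_lit 0)) (T.h (P (nat_lit 448324052408)) (T.h (P (nat_lit 0)) (P (nat_lit 3446766640080))))) (T.h (P (nat_lit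 0)) (T.h (T.h (P (nat_lit 0)) (P (nat_lit 3446766640080))) (P (nat_lit 0)))))) (T.h (T.h (T.h (M (nat_lit 26532037239)) (T.h (P (nat_lit 0)) (P (nat_lit 583293870084)))) (T.h (P (nat_lit 0)) (P (nat_lit 583293870084)))) (T.h (T.h (P (nat_lit 0)) (T.h (T.h (P (nat_lit 0)) (P (nat_lit 45315573651296))) (P (nat_lit 0)))) (P (nat_lit 16773583856))))))) (T.h (P (nat_lit 0)) (T.h (T.h (T.h (P (nat_lit 0)) (T.h (T.h (P (nat_lit 0)) (T.h (P (nat_lit 10617940060)) (T.h (P (nat_lit 0)) (T.h (M (nat_lit 18266662203)) (T.h (P (nat_lit 0)) (M (nat_lit 10561056919559))))))) (T.h (P (nat_lit 0)) (T.h (T.h (P (nat_lit 0)) (T.h (M (nat_lit 237683718635)) (T.h (P (nat_lit 0)) (P (nat_lit 1856233917692))))) (T.h (P (nat_lit 0)) (T.h (T.h (P (nat_lit 0)) (P (nat_lit 1292902481136))) (P (nat_lit 0)))))))) (T.h (T.h (T.h (M (nat_lit 1291999911)) (T.h (P (nat_lit 0)) (T.h (P (nat_lit 102712520092)) (T.h (P (nat_lit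 0)) (M (nat_lit 1251434679935)))))) (T.h (P (nat_lit 0)) (T.h (T.h (M (nat_lit 58890312599)) (T.h (P (nat_lit 0)) (M (nat_lit 4030084419815)))) (T.h (P (nat_lit 0)) (P (nat_lit 1715618916872)))))) (T.h (T.h (P (nat_lit 0)) (T.h (T.h (P (nat_lit 0)) (T.h (P (nat_lit 1303953592396)) (T.h (P (nat_lit 0)) (P (nat_lit 29016869879816))))) (T.h (P (nat_lit 0)) (T.h (T.h (P (nat_lit 0)) (M (nat_lit 3970494279191))) (P (nat_lit 0)))))) (T.h (T.h (T.h (M (nat_lit 80207299815)) (T.h (P (nat_lit 0)) (M (nat_lit 4475261821827)))) (T.h (P (nat_lit 0)) (P (nat_lit 5645012193800)))) (T.h (T.h (P (nat_lit 0)) (T.h (T.h (P (nat_lit 0)) (P (nat_lit 90308767551912))) (P (nat_lit 0)))) (P (nat_lit 1597188528432))))))) (P (nat_lit 0))))) (T.h (T.h (P (nat_lit 0)) (T.h (T.h (T.h (T.h (P (nat_lit 601233360)) (T.h (P (nat_lit 0)) (T.h (M (nat_lit 28661537323)) (T.h (P (nat_lit 0)) (T.h (P (nat_lit 576150028804))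 (T.h (P (nat_lit 0)) (P (nat_lit 742341497492)))))))) (T.h (P (nat_lit 0)) (T.h (T.h (M (nat_lit 28661537323)) (T.h (P (nat_lit 0)) (T.h (P (nat_lit 951011479992)) (T.h (P (nat_lit 0)) (P (nat_lit 31677840070912)))))) (T.h (P (nat_lit 0)) (T.h (T.h (P (nat_lit 576150028804)) (T.h (P (nat_lit 0)) (P (nat_lit 31677840070912)))) (T.h (P (nat_lit 0)) (P (nat_lit 742341497492)))))))) (T.h (T.h (P (nat_lit 0)) (T.h (T.h (P (nat_lit 0)) (T.h (M (nat_lit 958098744231)) (T.h (P (nat_lit 0)) (M (nat_lit 1798233856999))))) (T.h (P (nat_lit 0)) (T.h (T.h (P (nat_lit 0)) (M (nat_lit 1798233856999))) (P (nat_lit 0)))))) (T.h (T.h (T.h (P (nat_lit 119721035504)) (T.h (P (nat_lit 0)) (T.h (M (nat_lit 3956355819051)) (T.h (P (nat_lit 0)) (P (nat_lit 62285420229704)))))) (T.h (P (nat_lit 0)) (T.h (T.h (M (nat_lit 3956355819051)) (T.h (P (nat_lit 0)) (P (nat_lit 30325838342968)))) (T.h (P (nat_lit 0)) (P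 (nat_lit 62285420229704)))))) (T.h (T.h (P (nat_lit 0)) (T.h (T.h (P (nat_lit 0)) (M (nat_lit 106484699249039))) (P (nat_lit 0)))) (T.h (T.h (T.h (M (nat_lit 1236875702327)) (T.h (P (nat_lit 0)) (M (nat_lit 50548214789127)))) (T.h (P (nat_lit 0)) (M (nat_lit 50548214789127)))) (T.h (P (nat_lit 0)) (M (nat_lit 3341022135247)))))))) (P (nat_lit 0)))) (T.h (T.h (T.h (T.h (P (nat_lit 0)) (T.h (T.h (P (nat_lit 0)) (T.h (P (nat_lit 10617940060)) (T.h (P (nat_lit 0)) (T.h (M (nat_lit 237683718635)) (T.h (P (nat_lit 0)) (P (nat_lit 1292902481136))))))) (T.h (P (nat_lit 0)) (T.h (T.h (P (nat_lit 0)) (T.h (M (nat_lit 18266662203)) (T.h (P (nat_lit 0)) (P (nat_lit 1856233917692))))) (T.h (P (nat_lit 0)) (T.h (T.h (P (nat_lit 0)) (M (nat_lit 10561056919559))) (P (nat_lit 0)))))))) (T.h (T.h (T.h (M (nat_lit 1291999911)) (T.h (P (nat_lit 0)) (T.h (M (nat_lit 58890312599)) (T.h (P (nat_lit 0)) (P (nat_lit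 1715618916872)))))) (T.h (P (nat_lit 0)) (T.h (T.h (P (nat_lit 102712520092)) (T.h (P (nat_lit 0)) (M (nat_lit 4030084419815)))) (T.h (P (nat_lit 0)) (M (nat_lit 1251434679935)))))) (T.h (T.h (P (nat_lit 0)) (T.h (T.h (P (nat_lit 0)) (T.h (P (nat_lit 1303953592396)) (T.h (P (nat_lit 0)) (M (nat_lit 3970494279191))))) (T.h (P (nat_lit 0)) (T.h (T.h (P (nat_lit 0)) (P (nat_lit 29016869879816))) (P (nat_lit 0)))))) (T.h (T.h (T.h (M (nat_lit 80207299815)) (T.h (P (nat_lit 0)) (P (nat_lit 5645012193800)))) (T.h (P (nat_lit 0)) (M (nat_lit 4475261821827)))) (T.h (T.h (P (nat_lit 0)) (T.h (T.h (P (nat_lit 0)) (P (nat_lit 90308767551912))) (P (nat_lit 0)))) (P (nat_lit 1597188528432))))))) (P (nat_lit 0))) (P (nat_lit 0)))))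
def et1_12 : T ℤ := (T.h (T.h (T.h (P (nat_lit 0)) (T.h (T.h (T.h (T.h (P (nat_lit 0)) (T.h (P (nat_lit 701241940)) (T.h (P (nat_lit 0)) (T.h (P (nat_lit 103698747796)) (T.h (P (nat_lit 0)) (M (nat_lit 1543170312599))))))) (T.h (P (nat_lit 0)) (T.h (T.h (P (nat_lit 0)) (T.h (M (nat_lit 4840132751)) (T.h (P (nat_lit 0)) (P (nat_lit 21025235168))))) (T.h (P (nat_lit 0)) (T.h (T.h (P (nat_lit 0)) (P (nat_lit 871659356456))) (P (nat_lit 0))))))) (T.h (T.h (P (nat_lit 0)) (T.h (T.h (M (nat_lit 7545324303)) (T.h (P (nat_lit 0)) (T.h (P (nat_lit 241730115368)) (T.h (P (nat_lit 0)) (P (nat_lit 3381212976148)))))) (T.h (P (nat_lit 0)) (T.h (T.h (P (nat_lit 256857012748)) (T.h (P (nat_lit 0)) (P (nat_lit 10749224177272)))) (T.h (P (nat_lit 0)) (M (nat_lit 1218047199431))))))) (T.h (T.h (T.h (P (nat_lit 0)) (T.h (P (nat_lit 64484339528)) (T.h (P (nat_lit 0)) (M (nat_lit 430940173551))))) (T.h (P (nat_lit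 0)) (T.h (T.h (P (nat_lit 0)) (M (nat_lit 275510003887))) (P (nat_lit 0))))) (T.h (T.h (P (nat_lit 0)) (T.h (T.h (M (nat_lit 1325889120779)) (T.h (P (nat_lit 0)) (P (nat_lit 18356262156708)))) (T.h (P (nat_lit 0)) (M (nat_lit 7785751205567))))) (T.h (T.h (T.h (P (nat_lit 0)) (M (nat_lit 7000106771811))) (P (nat_lit 0))) (T.h (T.h (P (nat_lit 0)) (P (nat_lit 57641579503592))) (P (nat_lit 0)))))))) (P (nat_lit 0)))) (T.h (T.h (T.h (T.h (P (nat_lit 0)) (T.h (T.h (P (nat_lit 701241940)) (T.h (P (nat_lit 0)) (T.h (M (nat_lit 4840132751)) (T.h (P (nat_lit 0)) (P (nat_lit 871659356456)))))) (T.h (P (nat_lit 0)) (T.h (T.h (P (nat_lit 103698747796)) (T.h (P (nat_lit 0)) (P (nat_lit 21025235168)))) (T.h (P (nat_lit 0)) (M (nat_lit 1543170312599))))))) (T.h (T.h (T.h (P (nat_lit 0)) (T.h (M (nat_lit 7545324303)) (T.h (P (nat_lit 0)) (T.h (P (nat_lit 256857012748)) (T.h (P (nat_lit 0)) (M (nat_lit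 1218047199431))))))) (T.h (P (nat_lit 0)) (T.h (T.h (P (nat_lit 0)) (T.h (P (nat_lit 241730115368)) (T.h (P (nat_lit 0)) (P (nat_lit 10749224177272))))) (T.h (P (nat_lit 0)) (T.h (T.h (P (nat_lit 0)) (P (nat_lit 3381212976148))) (P (nat_lit 0))))))) (T.h (T.h (P (nat_lit 0)) (T.h (T.h (P (nat_lit 64484339528)) (T.h (P (nat_lit 0)) (M (nat_lit 275510003887)))) (T.h (P (nat_lit 0)) (M (nat_lit 430940173551))))) (T.h (T.h (T.h (P (nat_lit 0)) (T.h (M (nat_lit 1325889120779)) (T.h (P (nat_lit 0)) (M (nat_lit 7785751205567))))) (T.h (P (nat_lit 0)) (T.h (T.h (P (nat_lit 0)) (P (nat_lit 18356262156708))) (P (nat_lit 0))))) (T.h (T.h (P (nat_lit 0)) (M (nat_lit 7000106771811))) (T.h (T.h (T.h (P (nat_lit 0)) (P (nat_lit 57641579503592))) (P (nat_lit 0))) (P (nat_lit 0)))))))) (P (nat_lit 0))) (P (nat_lit 0)))) (T.h (T.h (T.h (T.h (T.h (P (nat_lit 0)) (T.h (T.h (P (nat_lit 0)) (T.h (P (nat_lit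 8712980360)) (T.h (P (nat_lit 0)) (T.h (P (nat_lit 20112981700)) (T.h (P (nat_lit 0)) (P (nat_lit 452894788696))))))) (T.h (P (nat_lit 0)) (T.h (T.h (P (nat_lit 0)) (T.h (P (nat_lit 20112981700)) (T.h (P (nat_lit 0)) (P (nat_lit 42385397544))))) (T.h (P (nat_lit 0)) (T.h (T.h (P (nat_lit 0)) (P (nat_lit 452894788696))) (P (nat_lit 0)))))))) (T.h (T.h (T.h (M (nat_lit 2913966831)) (T.h (P (nat_lit 0)) (T.h (P (nat_lit 23319948596)) (T.h (P (nat_lit 0)) (M (nat_lit 334081018739)))))) (T.h (P (nat_lit 0)) (T.h (T.h (P (nat_lit 23319948596)) (T.h (P (nat_lit 0)) (P (nat_lit 1955665538456)))) (T.h (P (nat_lit 0)) (M (nat_lit 334081018739)))))) (T.h (T.h (P (nat_lit 0)) (T.h (T.h (P (nat_lit 0)) (T.h (M (nat_lit 784567086519)) (T.h (P (nat_lit 0)) (M (nat_lit 10759187052431))))) (T.h (P (nat_lit 0)) (T.h (T.h (P (nat_lit 0)) (M (nat_lit 10759187052431))) (P (nat_lit 0)))))) (T.h (T.h (T.h (P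 (nat_lit 46431064176)) (T.h (P (nat_lit 0)) (M (nat_lit 891051903475)))) (T.h (P (nat_lit 0)) (M (nat_lit 891051903475)))) (T.h (T.h (P (nat_lit 0)) (T.h (T.h (P (nat_lit 0)) (M (nat_lit 79302254001263))) (P (nat_lit 0)))) (M (nat_lit 29353739911))))))) (P (nat_lit 0))) (P (nat_lit 0))) (P (nat_lit 0))))
def et1_13 : T ℤ := (T.h (T.h (T.h (P (nat_lit 0)) (T.h (P (nat_lit 0)) (T.h (P (nat_lit 0)) (T.h (T.h (T.h (T.h (P (nat_lit 0)) (T.h (M (nat_lit 799116259)) (T.h (P (nat_lit 0)) (T.h (M (nat_lit 26869194023)) (T.h (P (nat_lit 0)) (P (nat_lit 913282348636))))))) (T.h (P (nat_lit 0)) (T.h (T.h (P (nat_lit 0)) (T.h (P (nat_lit 35707101008)) (T.h (P (nat_lit 0)) (M (nat_lit 711991273403))))) (T.h (P (nat_lit 0)) (T.h (T.h (P (nat_lit 0)) (M (nat_lit 2550961155487))) (P (nat_lit 0))))))) (T.h (T.h (P (nat_lit 0)) (T.h (T.h (P (nat_lit 5565340456)) (T.h (P (nat_lit 0)) (T.h (P (nat_lit 2262348714936))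 (T.h (P (nat_lit 0)) (P (nat_lit 5991508253152)))))) (T.h (P (nat_lit 0)) (T.h (T.h (P (nat_lit 134296882364)) (T.h (P (nat_lit 0)) (M (nat_lit 4835202042695)))) (T.h (P (nat_lit 0)) (P (nat_lit 4057045979324))))))) (T.h (T.h (T.h (P (nat_lit 0)) (T.h (P (nat_lit 3817709884)) (T.h (P (nat_lit 0)) (M (nat_lit 3884808174995))))) (T.h (P (nat_lit 0)) (T.h (T.h (P (nat_lit 0)) (M (nat_lit 2387220051675))) (P (nat_lit 0))))) (T.h (T.h (P (nat_lit 0)) (T.h (T.h (M (nat_lit 46917086895)) (T.h (P (nat_lit 0)) (M (nat_lit 859156601507)))) (T.h (P (nat_lit 0)) (P (nat_lit 2214167332356))))) (T.h (T.h (T.h (P (nat_lit 0)) (M (nat_lit 1325333963007))) (P (nat_lit 0))) (T.h (T.h (P (nat_lit 0)) (M (nat_lit 546153259851))) (P (nat_lit 0)))))))) (T.h (P (nat_lit 0)) (T.h (T.h (T.h (T.h (P (nat_lit 0)) (T.h (M (nat_lit 1291999911)) (T.h (P (nat_lit 0)) (T.h (M (nat_lit 80207299815)) (T.h (P (nat_lit 0))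 (P (nat_lit 1597188528432))))))) (T.h (P (nat_lit 0)) (T.h (T.h (P (nat_lit 0)) (T.h (M (nat_lit 58890312599)) (T.h (P (nat_lit 0)) (P (nat_lit 5645012193800))))) (T.h (P (nat_lit 0)) (T.h (T.h (P (nat_lit 0)) (P (nat_lit 1715618916872))) (P (nat_lit 0))))))) (T.h (T.h (P (nat_lit 0)) (T.h (T.h (P (nat_lit 10617940060)) (T.h (P (nat_lit 0)) (T.h (P (nat_lit 1303953592396)) (T.h (P (nat_lit 0)) (P (nat_lit 90308767551912)))))) (T.h (P (nat_lit 0)) (T.h (T.h (M (nat_lit 237683718635)) (T.h (P (nat_lit 0)) (M (nat_lit 3970494279191)))) (T.h (P (nat_lit 0)) (P (nat_lit 1292902481136))))))) (T.h (T.h (T.h (P (nat_lit 0)) (T.h (P (nat_lit 102712520092)) (T.h (P (nat_lit 0)) (M (nat_lit 4475261821827))))) (T.h (P (nat_lit 0)) (T.h (T.h (P (nat_lit 0)) (M (nat_lit 4030084419815))) (P (nat_lit 0))))) (T.h (T.h (P (nat_lit 0)) (T.h (T.h (M (nat_lit 18266662203)) (T.h (P (nat_lit 0)) (P (nat_lit 29016869879816))))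 (T.h (P (nat_lit 0)) (P (nat_lit 1856233917692))))) (T.h (T.h (T.h (P (nat_lit 0)) (M (nat_lit 1251434679935))) (P (nat_lit 0))) (T.h (T.h (P (nat_lit 0)) (M (nat_lit 10561056919559))) (P (nat_lit 0)))))))) (P (nat_lit 0)))))))) et1_7) (T.h et1_9 (T.h (T.h (T.h (P (nat_lit 0)) (T.h (T.h (T.h (T.h (P (nat_lit 0)) (T.h (M (nat_lit 2649485359)) (T.h (P (nat_lit 0)) (T.h (M (nat_lit 47079988255)) (T.h (P (nat_lit 0)) (P (nat_lit 867047484988))))))) (T.h (P (nat_lit 0)) (T.h (T.h (P (nat_lit 0)) (T.h (M (nat_lit 12269142819)) (T.h (P (nat_lit 0)) (P (nat_lit 52951901796))))) (T.h (P (nat_lit 0)) (T.h (T.h (P (nat_lit 0)) (M (nat_lit 51005097499))) (P (nat_lit 0))))))) (T.h (T.h (P (nat_lit 0)) (T.h (T.h (P (nat_lit 504544812)) (T.h (P (nat_lit 0)) (T.h (M (nat_lit 25303031799)) (T.h (P (nat_lit 0)) (M (nat_lit 4322459232347)))))) (T.h (P (nat_lit 0)) (T.h (T.h (M (nat_lit 63781000879)) (T.h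 (P (nat_lit 0)) (M (nat_lit 182987744723)))) (T.h (P (nat_lit 0)) (P (nat_lit 1281244581392))))))) (T.h (T.h (T.h (P (nat_lit 0)) (T.h (M (nat_lit 22142912835)) (T.h (P (nat_lit 0)) (M (nat_lit 2917659441475))))) (T.h (P (nat_lit 0)) (T.h (T.h (P (nat_lit 0)) (P (nat_lit 241482879740))) (P (nat_lit 0))))) (T.h (T.h (P (nat_lit 0)) (T.h (T.h (P (nat_lit 176981199548)) (T.h (P (nat_lit 0)) (P (nat_lit 36135257920028)))) (T.h (P (nat_lit 0)) (M (nat_lit 589640662371))))) (T.h (T.h (T.h (P (nat_lit 0)) (P (nat_lit 5150790670280))) (P (nat_lit 0))) (T.h (T.h (P (nat_lit 0)) (M (nat_lit 5640283889655))) (P (nat_lit 0)))))))) (T.h (P (nat_lit 0)) (T.h (T.h (T.h (T.h (P (nat_lit 0)) (T.h (P (nat_lit 214673928)) (T.h (P (nat_lit 0)) (T.h (P (nat_lit 144878326992)) (T.h (P (nat_lit 0)) (M (nat_lit 5562891016647))))))) (T.h (P (nat_lit 0)) (T.h (T.h (P (nat_lit 0)) (T.h (P (nat_lit 54553336852)) (T.h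 (P (nat_lit 0)) (M (nat_lit 3008920209623))))) (T.h (P (nat_lit 0)) (T.h (T.h (P (nat_lit 0)) (M (nat_lit 1742060629035))) (P (nat_lit 0))))))) (T.h (T.h (P (nat_lit 0)) (T.h (T.h (M (nat_lit 3586835699)) (T.h (P (nat_lit 0)) (T.h (M (nat_lit 579306696415)) (T.h (P (nat_lit 0)) (M (nat_lit 21914648649039)))))) (T.h (P (nat_lit 0)) (T.h (T.h (M (nat_lit 2032910263)) (T.h (P (nat_lit 0)) (P (nat_lit 17587242585108)))) (T.h (P (nat_lit 0)) (M (nat_lit 264689197499))))))) (T.h (T.h (T.h (P (nat_lit 0)) (T.h (M (nat_lit 139392761339)) (T.h (P (nat_lit 0)) (P (nat_lit 8615974074932))))) (T.h (P (nat_lit 0)) (T.h (T.h (P (nat_lit 0)) (M (nat_lit 954457898323))) (P (nat_lit 0))))) (T.h (T.h (P (nat_lit 0)) (T.h (T.h (P (nat_lit 198143558480)) (T.h (P (nat_lit 0)) (P (nat_lit 50007357650992)))) (T.h (P (nat_lit 0)) (P (nat_lit 7833401630040))))) (T.h (T.h (T.h (P (nat_lit 0)) (P (nat_lit 3613597556324)))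 (P (nat_lit 0))) (T.h (T.h (P (nat_lit 0)) (M (nat_lit 13545291274143))) (P (nat_lit 0)))))))) (P (nat_lit 0)))))) et1_10) (T.h et1_11 et1_12))))

def t1 : T ℤ := (T.h (T.h (T.h (P (nat_lit 0)) (T.h (P (nat_lit 0)) (T.h (P (nat_lit 0)) (T.h (P (nat_lit 0)) (T.h (P (nat_lit 0)) (T.h (T.h (T.h (T.h (P (nat_lit 0)) (T.h (P (nat_lit 1665123904)) (T.h (P (nat_lit 0)) (T.h (M (nat_lit 26532037239)) (T.h (P (nat_lit 0)) (P (nat_lit 16773583856))))))) (T.h (P (nat_lit 0)) (T.h (T.h (P (nat_lit 0)) (T.h (M (nat_lit 12273528487)) (T.h (P (nat_lit 0)) (P (nat_lit 583293870084))))) (T.h (P (nat_lit 0)) (T.h (T.h (P (nat_lit 0)) (P (nat_lit 230197108436))) (P (nat_lit 0))))))) (T.h (T.h (P (nat_lit 0)) (T.h (T.h (M (nat_lit 4978845935)) (T.h (P (nat_lit 0)) (T.h (P (nat_lit 448324052408)) (T.h (P (nat_lit 0)) (P (nat_lit 45315573651296)))))) (T.h (P (nat_lit 0)) (T.h (T.h (M (nat_lit 29879546923)) (T.h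 (P (nat_lit 0)) (P (nat_lit 3446766640080)))) (T.h (P (nat_lit 0)) (M (nat_lit 503539623163))))))) (T.h (T.h (T.h (P (nat_lit 0)) (T.h (M (nat_lit 12273528487)) (T.h (P (nat_lit 0)) (P (nat_lit 583293870084))))) (T.h (P (nat_lit 0)) (T.h (T.h (P (nat_lit 0)) (M (nat_lit 1117523173199))) (P (nat_lit 0))))) (T.h (T.h (P (nat_lit 0)) (T.h (T.h (M (nat_lit 29879546923)) (T.h (P (nat_lit 0)) (P (nat_lit 3446766640080)))) (T.h (P (nat_lit 0)) (M (nat_lit 24220254327))))) (T.h (T.h (T.h (P (nat_lit 0)) (P (nat_lit 230197108436))) (P (nat_lit 0))) (T.h (T.h (P (nat_lit 0)) (M (nat_lit 503539623163))) (P (nat_lit 0)))))))) (T.h (P (nat_lit 0)) (T.h (T.h (T.h (T.h (P (nat_lit 0)) (T.h (M (nat_lit 2913966831)) (T.h (P (nat_lit 0)) (T.h (P (nat_lit 46431064176)) (T.h (P (nat_lit 0)) (M (nat_lit 29353739911))))))) (T.h (P (nat_lit 0)) (T.h (T.h (P (nat_lit 0)) (T.h (P (nat_lit 23319948596)) (T.h (P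 (nat_lit 0)) (M (nat_lit 891051903475))))) (T.h (P (nat_lit 0)) (T.h (T.h (P (nat_lit 0)) (M (nat_lit 334081018739))) (P (nat_lit 0))))))) (T.h (T.h (P (nat_lit 0)) (T.h (T.h (P (nat_lit 8712980360)) (T.h (P (nat_lit 0)) (T.h (M (nat_lit 784567086519)) (T.h (P (nat_lit 0)) (M (nat_lit 79302254001263)))))) (T.h (P (nat_lit 0)) (T.h (T.h (P (nat_lit 20112981700)) (T.h (P (nat_lit 0)) (M (nat_lit 10759187052431)))) (T.h (P (nat_lit 0)) (P (nat_lit 452894788696))))))) (T.h (T.h (T.h (P (nat_lit 0)) (T.h (P (nat_lit 23319948596)) (T.h (P (nat_lit 0)) (M (nat_lit 891051903475))))) (T.h (P (nat_lit 0)) (T.h (T.h (P (nat_lit 0)) (P (nat_lit 1955665538456))) (P (nat_lit 0))))) (T.h (T.h (P (nat_lit 0)) (T.h (T.h (P (nat_lit 20112981700)) (T.h (P (nat_lit 0)) (M (nat_lit 10759187052431)))) (T.h (P (nat_lit 0)) (P (nat_lit 42385397544))))) (T.h (T.h (T.h (P (nat_lit 0)) (M (nat_lit 334081018739)))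 (P (nat_lit 0))) (T.h (T.h (P (nat_lit 0)) (P (nat_lit 452894788696))) (P (nat_lit 0)))))))) (P (nat_lit 0)))))))))) et1_2) (T.h et1_5 et1_13))

theorem h_t1 : chkT (c.G g1) t1 = true := by decide +kernel


end Pool.Agent.TOPR.R61135
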