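import Pool.Agent.TOPR.R61135.Cert

set_option autoImplicit false
set_option linter.all false
set_option maxRecDepth 100000

namespace Pool.Agent.TOPR.R61135

open Helper10.PC hiding V3
open Helper80.CW.DL Pool.Agent.Helper6.TOP

def et2_0 : T ℤ := (T.h (T.h (P (nat_lit 0)) (T.h (T.h (T.h (P (nat_lit 0)) (T.h (T.h (P (nat_lit 0)) (T.h (M (nat_lit 6401222119)) (T.h (P (nat_lit 0)) (M (nat_lit 287152304527))))) (T.h (P (nat_lit 0)) (T.h (T.h (P (nat_lit 0)) (P (nat_lit 7103763502968))) (P (nat_lit 0)))))) (T.h (T.h (T.h (P (nat_lit 4716654220)) (T.h (P (nat_lit 0)) (T.h (M (nat_lit 166953153307)) (T.h (P (nat_lit 0)) (M (nat_lit 6084766256455)))))) (T.h (P (nat_lit 0)) (T.h (T.h (M (nat_lit 262902457547)) (T.h (P (nat_lit 0)) (M (nat_lit 10233033051999)))) (T.h (P (nat_lit 0)) (M (nat_lit 2965376421599)))))) (T.h (T.h (P (nat_lit 0)) (T.h (T.h (P (nat_lit 0)) (P (nat_lit 456402244556))) (P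 (nat_lit 0)))) (T.h (T.h (T.h (M (nat_lit 26503856795)) (T.h (P (nat_lit 0)) (M (nat_lit 2358847870667)))) (T.h (P (nat_lit 0)) (P (nat_lit 454888153444)))) (T.h (P (nat_lit 0)) (P (nat_lit 405987077716))))))) (T.h (P (nat_lit 0)) (T.h (T.h (T.h (P (nat_lit 0)) (T.h (T.h (P (nat_lit 0)) (T.h (M (nat_lit 10480068927)) (T.h (P (nat_lit 0)) (P (nat_lit 1746601347160))))) (T.h (P (nat_lit 0)) (T.h (T.h (P (nat_lit 0)) (P (nat_lit 786266654520))) (P (nat_lit 0)))))) (T.h (T.h (T.h (P (nat_lit 1004443480)) (T.h (P (nat_lit 0)) (T.h (M (nat_lit 90586669003)) (T.h (P (nat_lit 0)) (M (nat_lit 10674276178119)))))) (T.h (P (nat_lit 0)) (T.h (T.h (P (nat_lit 271197752548)) (T.h (P (nat_lit 0)) (P (nat_lit 33867526084632)))) (T.h (P (nat_lit 0)) (P (nat_lit 3226044454456)))))) (T.h (T.h (P (nat_lit 0)) (T.h (T.h (P (nat_lit 0)) (M (nat_lit 1424154948039))) (P (nat_lit 0)))) (T.h (T.h (T.h (M (nat_lit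 34245232699)) (T.h (P (nat_lit 0)) (P (nat_lit 3307992048312)))) (T.h (P (nat_lit 0)) (P (nat_lit 2789958658704)))) (T.h (P (nat_lit 0)) (P (nat_lit 146887611948))))))) (P (nat_lit 0)))))) (T.h (T.h (T.h (T.h (T.h (P (nat_lit 1522368272)) (T.h (P (nat_lit 0)) (T.h (M (nat_lit 8211104831)) (T.h (P (nat_lit 0)) (M (nat_lit 30558476671)))))) (T.h (P (nat_lit 0)) (T.h (T.h (P (nat_lit 5640029288)) (T.h (P (nat_lit 0)) (P (nat_lit 1623945875728)))) (T.h (P (nat_lit 0)) (M (nat_lit 498054425927)))))) (T.h (T.h (P (nat_lit 0)) (T.h (T.h (P (nat_lit 0)) (T.h (P (nat_lit 231844540528)) (T.h (P (nat_lit 0)) (M (nat_lit 2497719853055))))) (T.h (P (nat_lit 0)) (T.h (T.h (P (nat_lit 0)) (P (nat_lit 32735328517744))) (P (nat_lit 0)))))) (T.h (T.h (T.h (M (nat_lit 8211104831)) (T.h (P (nat_lit 0)) (P (nat_lit 120730975312)))) (T.h (P (nat_lit 0)) (P (nat_lit 1623945875728)))) (T.h (T.h (P (nat_lit 0))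 (T.h (T.h (P (nat_lit 0)) (M (nat_lit 2497719853055))) (P (nat_lit 0)))) (M (nat_lit 30558476671)))))) (T.h (P (nat_lit 0)) (T.h (T.h (T.h (T.h (M (nat_lit 84393995)) (T.h (P (nat_lit 0)) (T.h (P (nat_lit 59115537640)) (T.h (P (nat_lit 0)) (M (nat_lit 1281040891847)))))) (T.h (P (nat_lit 0)) (T.h (T.h (M (nat_lit 25162508559)) (T.h (P (nat_lit 0)) (M (nat_lit 2102657998019)))) (T.h (P (nat_lit 0)) (P (nat_lit 140833695764)))))) (T.h (T.h (P (nat_lit 0)) (T.h (T.h (P (nat_lit 0)) (T.h (P (nat_lit 441623916504)) (T.h (P (nat_lit 0)) (P (nat_lit 10222655952032))))) (T.h (P (nat_lit 0)) (T.h (T.h (P (nat_lit 0)) (P (nat_lit 56849656360152))) (P (nat_lit 0)))))) (T.h (T.h (T.h (M (nat_lit 9104349335)) (T.h (P (nat_lit 0)) (M (nat_lit 566715530615)))) (T.h (P (nat_lit 0)) (P (nat_lit 2379932368216)))) (T.h (T.h (P (nat_lit 0)) (T.h (T.h (P (nat_lit 0)) (P (nat_lit 1936779970880))) (P (nat_lit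 0)))) (P (nat_lit 369611181904)))))) (P (nat_lit 0))))) (T.h (T.h (P (nat_lit 0)) (T.h (T.h (T.h (P (nat_lit 0)) (T.h (T.h (P (nat_lit 0)) (T.h (P (nat_lit 25086939464)) (T.h (P (nat_lit 0)) (M (nat_lit 314029203151))))) (T.h (P (nat_lit 0)) (T.h (T.h (P (nat_lit 0)) (M (nat_lit 4254647270599))) (P (nat_lit 0)))))) (T.h (T.h (T.h (P (nat_lit 166808008)) (T.h (P (nat_lit 0)) (T.h (P (nat_lit 43152722924)) (T.h (P (nat_lit 0)) (P (nat_lit 806526702804)))))) (T.h (P (nat_lit 0)) (T.h (T.h (M (nat_lit 680319206979)) (T.h (P (nat_lit 0)) (P (nat_lit 3255889330404)))) (T.h (P (nat_lit 0)) (P (nat_lit 29843663359528)))))) (T.h (T.h (P (nat_lit 0)) (T.h (T.h (P (nat_lit 0)) (P (nat_lit 480044438448))) (P (nat_lit 0)))) (T.h (T.h (T.h (P (nat_lit 39567142064)) (T.h (P (nat_lit 0)) (P (nat_lit 1553768624272)))) (T.h (P (nat_lit 0)) (M (nat_lit 4873777238447)))) (T.h (P (nat_lit 0)) (M (nat_lit 109307487247)))))))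 (P (nat_lit 0)))) (T.h (T.h (T.h (T.h (T.h (M (nat_lit 416280975)) (T.h (P (nat_lit 0)) (T.h (P (nat_lit 3331421228)) (T.h (P (nat_lit 0)) (M (nat_lit 47725859819)))))) (T.h (P (nat_lit 0)) (T.h (T.h (P (nat_lit 19899027504)) (T.h (P (nat_lit 0)) (M (nat_lit 381879387203)))) (T.h (P (nat_lit 0)) (M (nat_lit 20966957079)))))) (T.h (T.h (P (nat_lit 0)) (T.h (T.h (P (nat_lit 0)) (T.h (M (nat_lit 224162024719)) (T.h (P (nat_lit 0)) (M (nat_lit 3074053443551))))) (T.h (P (nat_lit 0)) (T.h (T.h (P (nat_lit 0)) (M (nat_lit 45315573715007))) (P (nat_lit 0)))))) (T.h (T.h (T.h (P (nat_lit 3331421228)) (T.h (P (nat_lit 0)) (P (nat_lit 279380791208)))) (T.h (P (nat_lit 0)) (M (nat_lit 381879387203)))) (T.h (T.h (P (nat_lit 0)) (T.h (T.h (P (nat_lit 0)) (M (nat_lit 3074053443551))) (P (nat_lit 0)))) (M (nat_lit 47725859819)))))) (P (nat_lit 0))) (P (nat_lit 0))))))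
def et2_1 : T ℤ := (T.h (T.h (P (nat_lit 0)) (T.h (P (nat_lit 0)) (T.h (P (nat_lit 0)) (T.h (P (nat_lit 0)) (T.h (T.h (T.h (T.h (P (nat_lit 1588327276)) (T.h (P (nat_lit 0)) (T.h (P (nat_lit 43954659676)) (T.h (P (nat_lit 0)) (M (nat_lit 2423443475347)))))) (T.h (P (nat_lit 0)) (T.h (T.h (P (nat_lit 33095465804)) (T.h (P (nat_lit 0)) (P (nat_lit 4863477068356)))) (T.h (P (nat_lit 0)) (P (nat_lit 1514045379260)))))) (T.h (T.h (P (nat_lit 0)) (T.h (T.h (P (nat_lit 0)) (T.h (P (nat_lit 30548016552)) (T.h (P (nat_lit 0)) (M (nat_lit 11831549746119))))) (T.h (P (nat_lit 0)) (T.h (T.h (P (nat_lit 0)) (P (nat_lit 22057906817360))) (P (nat_lit 0)))))) (T.h (T.h (T.h (P (nat_lit 1961113780)) (T.h (P (nat_lit 0)) (M (nat_lit 911587916855)))) (T.h (P (nat_lit 0)) (P (nat_lit 408265521432)))) (T.h (T.h (P (nat_lit 0)) (T.h (T.h (P (nat_lit 0)) (P (nat_lit 1617176678080))) (P (nat_lit 0)))) (M (nat_lit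 179340961627)))))) (T.h (P (nat_lit 0)) (T.h (T.h (T.h (T.h (M (nat_lit 84393995)) (T.h (P (nat_lit 0)) (T.h (M (nat_lit 25162508559)) (T.h (P (nat_lit 0)) (P (nat_lit 140833695764)))))) (T.h (P (nat_lit 0)) (T.h (T.h (P (nat_lit 59115537640)) (T.h (P (nat_lit 0)) (M (nat_lit 2102657998019)))) (T.h (P (nat_lit 0)) (M (nat_lit 1281040891847)))))) (T.h (T.h (P (nat_lit 0)) (T.h (T.h (P (nat_lit 0)) (T.h (P (nat_lit 441623916504)) (T.h (P (nat_lit 0)) (P (nat_lit 56849656360152))))) (T.h (P (nat_lit 0)) (T.h (T.h (P (nat_lit 0)) (P (nat_lit 10222655952032))) (P (nat_lit 0)))))) (T.h (T.h (T.h (M (nat_lit 9104349335)) (T.h (P (nat_lit 0)) (P (nat_lit 2379932368216)))) (T.h (P (nat_lit 0)) (M (nat_lit 566715530615)))) (T.h (T.h (P (nat_lit 0)) (T.h (T.h (P (nat_lit 0)) (P (nat_lit 1936779970880))) (P (nat_lit 0)))) (P (nat_lit 369611181904)))))) (P (nat_lit 0))))))))) (T.h (T.h (P (nat_lit 0))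 (T.h (P (nat_lit 0)) (T.h (P (nat_lit 0)) (T.h (T.h (T.h (P (nat_lit 0)) (T.h (T.h (P (nat_lit 0)) (T.h (P (nat_lit 37668442560)) (T.h (P (nat_lit 0)) (M (nat_lit 8520380506983))))) (T.h (P (nat_lit 0)) (T.h (T.h (P (nat_lit 0)) (M (nat_lit 8520380506983))) (P (nat_lit 0)))))) (T.h (T.h (T.h (P (nat_lit 8036346712)) (T.h (P (nat_lit 0)) (T.h (M (nat_lit 50552652651)) (T.h (P (nat_lit 0)) (P (nat_lit 14213398412268)))))) (T.h (P (nat_lit 0)) (T.h (T.h (M (nat_lit 50552652651)) (T.h (P (nat_lit 0)) (M (nat_lit 34255255117367)))) (T.h (P (nat_lit 0)) (P (nat_lit 14213398412268)))))) (T.h (T.h (P (nat_lit 0)) (T.h (T.h (P (nat_lit 0)) (M (nat_lit 995164637727))) (P (nat_lit 0)))) (T.h (T.h (T.h (M (nat_lit 82675506727)) (T.h (P (nat_lit 0)) (P (nat_lit 4792691053008)))) (T.h (P (nat_lit 0)) (P (nat_lit 4792691053008)))) (T.h (P (nat_lit 0)) (P (nat_lit 628049229160))))))) (T.h (P (nat_lit 0))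 (T.h (T.h (T.h (P (nat_lit 0)) (T.h (T.h (P (nat_lit 0)) (T.h (M (nat_lit 10480068927)) (T.h (P (nat_lit 0)) (P (nat_lit 786266654520))))) (T.h (P (nat_lit 0)) (T.h (T.h (P (nat_lit 0)) (P (nat_lit 1746601347160))) (P (nat_lit 0)))))) (T.h (T.h (T.h (P (nat_lit 1004443480)) (T.h (P (nat_lit 0)) (T.h (P (nat_lit 271197752548)) (T.h (P (nat_lit 0)) (P (nat_lit 3226044454456)))))) (T.h (P (nat_lit 0)) (T.h (T.h (M (nat_lit 90586669003)) (T.h (P (nat_lit 0)) (P (nat_lit 33867526084632)))) (T.h (P (nat_lit 0)) (M (nat_lit 10674276178119)))))) (T.h (T.h (P (nat_lit 0)) (T.h (T.h (P (nat_lit 0)) (M (nat_lit 1424154948039))) (P (nat_lit 0)))) (T.h (T.h (T.h (M (nat_lit 34245232699)) (T.h (P (nat_lit 0)) (P (nat_lit 2789958658704)))) (T.h (P (nat_lit 0)) (P (nat_lit 3307992048312)))) (T.h (P (nat_lit 0)) (P (nat_lit 146887611948))))))) (P (nat_lit 0)))))))) (T.h (T.h (P (nat_lit 0)) (T.h (P (nat_lit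 0)) (T.h (T.h (T.h (T.h (P (nat_lit 1588327276)) (T.h (P (nat_lit 0)) (T.h (P (nat_lit 33095465804)) (T.h (P (nat_lit 0)) (P (nat_lit 1514045379260)))))) (T.h (P (nat_lit 0)) (T.h (T.h (P (nat_lit 43954659676)) (T.h (P (nat_lit 0)) (P (nat_lit 4863477068356)))) (T.h (P (nat_lit 0)) (M (nat_lit 2423443475347)))))) (T.h (T.h (P (nat_lit 0)) (T.h (T.h (P (nat_lit 0)) (T.h (P (nat_lit 30548016552)) (T.h (P (nat_lit 0)) (P (nat_lit 22057906817360))))) (T.h (P (nat_lit 0)) (T.h (T.h (P (nat_lit 0)) (M (nat_lit 11831549746119))) (P (nat_lit 0)))))) (T.h (T.h (T.h (P (nat_lit 1961113780)) (T.h (P (nat_lit 0)) (P (nat_lit 408265521432)))) (T.h (P (nat_lit 0)) (M (nat_lit 911587916855)))) (T.h (T.h (P (nat_lit 0)) (T.h (T.h (P (nat_lit 0)) (P (nat_lit 1617176678080))) (P (nat_lit 0)))) (M (nat_lit 179340961627)))))) (T.h (P (nat_lit 0)) (T.h (T.h (T.h (T.h (P (nat_lit 61335408)) (T.h (P (nat_lit 0))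 (T.h (P (nat_lit 42177459948)) (T.h (P (nat_lit 0)) (M (nat_lit 3457265360987)))))) (T.h (P (nat_lit 0)) (T.h (T.h (P (nat_lit 42177459948)) (T.h (P (nat_lit 0)) (P (nat_lit 7385120635656)))) (T.h (P (nat_lit 0)) (M (nat_lit 3457265360987)))))) (T.h (T.h (P (nat_lit 0)) (T.h (T.h (P (nat_lit 0)) (T.h (M (nat_lit 331032397951)) (T.h (P (nat_lit 0)) (P (nat_lit 1765160100832))))) (T.h (P (nat_lit 0)) (T.h (T.h (P (nat_lit 0)) (P (nat_lit 1765160100832))) (P (nat_lit 0)))))) (T.h (T.h (T.h (P (nat_lit 15586667672)) (T.h (P (nat_lit 0)) (M (nat_lit 1425888361027)))) (T.h (P (nat_lit 0)) (M (nat_lit 1425888361027)))) (T.h (T.h (P (nat_lit 0)) (T.h (T.h (P (nat_lit 0)) (P (nat_lit 10049852905776))) (P (nat_lit 0)))) (M (nat_lit 497731608295)))))) (P (nat_lit 0))))))) et2_0)))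
def et2_2 : T ℤ := (T.h (T.h (P (nat_lit 0)) (T.h (P (nat_lit 0)) (T.h (P (nat_lit 0)) (T.h (P (nat_lit 0)) (T.h (P (nat_lit 0)) (T.h (P (nat_lit 0)) (T.h (T.h (T.h (T.h (P (nat_lit 1522368272)) (T.h (P (nat_lit 0)) (T.h (P (nat_lit 5640029288)) (T.h (P (nat_lit 0)) (M (nat_lit 498054425927)))))) (T.h (P (nat_lit 0)) (T.h (T.h (M (nat_lit 8211104831)) (T.h (P (nat_lit 0)) (P (nat_lit 1623945875728)))) (T.h (P (nat_lit 0)) (M (nat_lit 30558476671)))))) (T.h (T.h (P (nat_lit 0)) (T.h (T.h (P (nat_lit 0)) (T.h (P (nat_lit 231844540528)) (T.h (P (nat_lit 0)) (P (nat_lit 32735328517744))))) (T.h (P (nat_lit 0)) (T.h (T.h (P (nat_lit 0)) (M (nat_lit 2497719853055))) (P (nat_lit 0)))))) (T.h (T.h (T.h (M (nat_lit 8211104831)) (T.h (P (nat_lit 0)) (P (nat_lit 1623945875728)))) (T.h (P (nat_lit 0)) (P (nat_lit 120730975312)))) (T.h (T.h (P (nat_lit 0)) (T.h (T.h (P (nat_lit 0)) (M (nat_lit 2497719853055)))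 (P (nat_lit 0)))) (M (nat_lit 30558476671)))))) (T.h (P (nat_lit 0)) (T.h (T.h (T.h (T.h (M (nat_lit 416280975)) (T.h (P (nat_lit 0)) (T.h (P (nat_lit 19899027504)) (T.h (P (nat_lit 0)) (M (nat_lit 20966957079)))))) (T.h (P (nat_lit 0)) (T.h (T.h (P (nat_lit 3331421228)) (T.h (P (nat_lit 0)) (M (nat_lit 381879387203)))) (T.h (P (nat_lit 0)) (M (nat_lit 47725859819)))))) (T.h (T.h (P (nat_lit 0)) (T.h (T.h (P (nat_lit 0)) (T.h (M (nat_lit 224162024719)) (T.h (P (nat_lit 0)) (M (nat_lit 45315573715007))))) (T.h (P (nat_lit 0)) (T.h (T.h (P (nat_lit 0)) (M (nat_lit 3074053443551))) (P (nat_lit 0)))))) (T.h (T.h (T.h (P (nat_lit 3331421228)) (T.h (P (nat_lit 0)) (M (nat_lit 381879387203)))) (T.h (P (nat_lit 0)) (P (nat_lit 279380791208)))) (T.h (T.h (P (nat_lit 0)) (T.h (T.h (P (nat_lit 0)) (M (nat_lit 3074053443551))) (P (nat_lit 0)))) (M (nat_lit 47725859819)))))) (P (nat_lit 0)))))))))))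 (T.h (T.h (P (nat_lit 0)) (T.h (P (nat_lit 0)) (T.h (P (nat_lit 0)) (T.h (P (nat_lit 0)) (T.h (P (nat_lit 0)) (T.h (T.h (T.h (P (nat_lit 0)) (T.h (T.h (P (nat_lit 0)) (T.h (M (nat_lit 6401222119)) (T.h (P (nat_lit 0)) (P (nat_lit 7103763502968))))) (T.h (P (nat_lit 0)) (T.h (T.h (P (nat_lit 0)) (M (nat_lit 287152304527))) (P (nat_lit 0)))))) (T.h (T.h (T.h (P (nat_lit 4716654220)) (T.h (P (nat_lit 0)) (T.h (M (nat_lit 262902457547)) (T.h (P (nat_lit 0)) (M (nat_lit 2965376421599)))))) (T.h (P (nat_lit 0)) (T.h (T.h (M (nat_lit 166953153307)) (T.h (P (nat_lit 0)) (M (nat_lit 10233033051999)))) (T.h (P (nat_lit 0)) (M (nat_lit 6084766256455)))))) (T.h (T.h (P (nat_lit 0)) (T.h (T.h (P (nat_lit 0)) (P (nat_lit 456402244556))) (P (nat_lit 0)))) (T.h (T.h (T.h (M (nat_lit 26503856795)) (T.h (P (nat_lit 0)) (P (nat_lit 454888153444)))) (T.h (P (nat_lit 0)) (M (nat_lit 2358847870667)))) (T.h (P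 (nat_lit 0)) (P (nat_lit 405987077716))))))) (T.h (P (nat_lit 0)) (T.h (T.h (T.h (P (nat_lit 0)) (T.h (T.h (P (nat_lit 0)) (T.h (P (nat_lit 25086939464)) (T.h (P (nat_lit 0)) (M (nat_lit 4254647270599))))) (T.h (P (nat_lit 0)) (T.h (T.h (P (nat_lit 0)) (M (nat_lit 314029203151))) (P (nat_lit 0)))))) (T.h (T.h (T.h (P (nat_lit 166808008)) (T.h (P (nat_lit 0)) (T.h (M (nat_lit 680319206979)) (T.h (P (nat_lit 0)) (P (nat_lit 29843663359528)))))) (T.h (P (nat_lit 0)) (T.h (T.h (P (nat_lit 43152722924)) (T.h (P (nat_lit 0)) (P (nat_lit 3255889330404)))) (T.h (P (nat_lit 0)) (P (nat_lit 806526702804)))))) (T.h (T.h (P (nat_lit 0)) (T.h (T.h (P (nat_lit 0)) (P (nat_lit 480044438448))) (P (nat_lit 0)))) (T.h (T.h (T.h (P (nat_lit 39567142064)) (T.h (P (nat_lit 0)) (M (nat_lit 4873777238447)))) (T.h (P (nat_lit 0)) (P (nat_lit 1553768624272)))) (T.h (P (nat_lit 0)) (M (nat_lit 109307487247)))))))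 (P (nat_lit 0)))))))))) et2_1))
def et2_3 : T ℤ := (T.h (T.h (T.h (T.h (T.h (P (nat_lit 0)) (T.h (P (nat_lit 4716654220)) (T.h (P (nat_lit 0)) (T.h (M (nat_lit 26503856795)) (T.h (P (nat_lit 0)) (P (nat_lit 405987077716))))))) (T.h (P (nat_lit 0)) (T.h (T.h (P (nat_lit 0)) (T.h (M (nat_lit 262902457547)) (T.h (P (nat_lit 0)) (P (nat_lit 454888153444))))) (T.h (P (nat_lit 0)) (T.h (T.h (P (nat_lit 0)) (M (nat_lit 2965376421599))) (P (nat_lit 0))))))) (T.h (T.h (P (nat_lit 0)) (T.h (T.h (M (nat_lit 6401222119)) (T.h (P (nat_lit 0)) (P (nat_lit 456402244556)))) (T.h (P (nat_lit 0)) (P (nat_lit 7103763502968))))) (T.h (T.h (T.h (P (nat_lit 0)) (T.h (M (nat_lit 166953153307)) (T.h (P (nat_lit 0)) (M (nat_lit 2358847870667))))) (T.h (P (nat_lit 0)) (T.h (T.h (P (nat_lit 0)) (M (nat_lit 10233033051999))) (P (nat_lit 0))))) (T.h (T.h (P (nat_lit 0)) (M (nat_lit 287152304527))) (T.h (T.h (T.h (P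 (nat_lit 0)) (M (nat_lit 6084766256455))) (P (nat_lit 0))) (P (nat_lit 0))))))) (T.h (P (nat_lit 0)) (T.h (T.h (T.h (T.h (P (nat_lit 0)) (T.h (P (nat_lit 4125159976)) (T.h (P (nat_lit 0)) (T.h (P (nat_lit 61576725300)) (T.h (P (nat_lit 0)) (M (nat_lit 3494344558995))))))) (T.h (P (nat_lit 0)) (T.h (T.h (P (nat_lit 0)) (T.h (M (nat_lit 1703310528387)) (T.h (P (nat_lit 0)) (M (nat_lit 15980254747879))))) (T.h (P (nat_lit 0)) (T.h (T.h (P (nat_lit 0)) (P (nat_lit 35548248032008))) (P (nat_lit 0))))))) (T.h (T.h (P (nat_lit 0)) (T.h (T.h (M (nat_lit 339277474231)) (T.h (P (nat_lit 0)) (M (nat_lit 12981011326887)))) (T.h (P (nat_lit 0)) (P (nat_lit 4219075331264))))) (T.h (T.h (T.h (P (nat_lit 0)) (T.h (P (nat_lit 111874225812)) (T.h (P (nat_lit 0)) (P (nat_lit 6297595701280))))) (T.h (P (nat_lit 0)) (T.h (T.h (P (nat_lit 0)) (P (nat_lit 88636000648592))) (P (nat_lit 0))))) (T.h (T.h (P (nat_lit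 0)) (P (nat_lit 15995467592568))) (T.h (T.h (T.h (P (nat_lit 0)) (P (nat_lit 23981218735812))) (P (nat_lit 0))) (P (nat_lit 0))))))) (P (nat_lit 0))))) (T.h (T.h (P (nat_lit 0)) (T.h (T.h (T.h (P (nat_lit 0)) (T.h (T.h (P (nat_lit 32050203200)) (T.h (P (nat_lit 0)) (T.h (M (nat_lit 985772926355)) (T.h (P (nat_lit 0)) (P (nat_lit 17408831062628)))))) (T.h (P (nat_lit 0)) (T.h (T.h (M (nat_lit 1085611578695)) (T.h (P (nat_lit 0)) (M (nat_lit 29599121516643)))) (T.h (P (nat_lit 0)) (P (nat_lit 13605289456528))))))) (T.h (T.h (T.h (P (nat_lit 0)) (T.h (M (nat_lit 139637039319)) (T.h (P (nat_lit 0)) (P (nat_lit 247207719880))))) (T.h (P (nat_lit 0)) (T.h (T.h (P (nat_lit 0)) (M (nat_lit 45793733966095))) (P (nat_lit 0))))) (T.h (T.h (P (nat_lit 0)) (T.h (T.h (M (nat_lit 985772926355)) (T.h (P (nat_lit 0)) (P (nat_lit 17878145964224)))) (T.h (P (nat_lit 0)) (M (nat_lit 29599121516643))))) (T.h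 (T.h (T.h (P (nat_lit 0)) (P (nat_lit 247207719880))) (P (nat_lit 0))) (T.h (T.h (P (nat_lit 0)) (P (nat_lit 17408831062628))) (P (nat_lit 0))))))) (P (nat_lit 0)))) (T.h (T.h (T.h (T.h (T.h (P (nat_lit 0)) (T.h (P (nat_lit 166808008)) (T.h (P (nat_lit 0)) (T.h (P (nat_lit 39567142064)) (T.h (P (nat_lit 0)) (M (nat_lit 109307487247))))))) (T.h (P (nat_lit 0)) (T.h (T.h (P (nat_lit 0)) (T.h (M (nat_lit 680319206979)) (T.h (P (nat_lit 0)) (M (nat_lit 4873777238447))))) (T.h (P (nat_lit 0)) (T.h (T.h (P (nat_lit 0)) (P (nat_lit 29843663359528))) (P (nat_lit 0))))))) (T.h (T.h (P (nat_lit 0)) (T.h (T.h (P (nat_lit 25086939464)) (T.h (P (nat_lit 0)) (P (nat_lit 480044438448)))) (T.h (P (nat_lit 0)) (M (nat_lit 4254647270599))))) (T.h (T.h (T.h (P (nat_lit 0)) (T.h (P (nat_lit 43152722924)) (T.h (P (nat_lit 0)) (P (nat_lit 1553768624272))))) (T.h (P (nat_lit 0)) (T.h (T.h (P (nat_lit 0)) (P (nat_lit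 3255889330404))) (P (nat_lit 0))))) (T.h (T.h (P (nat_lit 0)) (M (nat_lit 314029203151))) (T.h (T.h (T.h (P (nat_lit 0)) (P (nat_lit 806526702804))) (P (nat_lit 0))) (P (nat_lit 0))))))) (P (nat_lit 0))) (P (nat_lit 0)))))
def et2_4 : T ℤ := (T.h (T.h (P (nat_lit 0)) (T.h (P (nat_lit 0)) (T.h (T.h (T.h (T.h (P (nat_lit 0)) (T.h (P (nat_lit 10340735392)) (T.h (P (nat_lit 0)) (T.h (M (nat_lit 168026983163)) (T.h (P (nat_lit 0)) (M (nat_lit 5282179082879))))))) (T.h (P (nat_lit 0)) (T.h (T.h (P (nat_lit 0)) (T.h (P (nat_lit 584309988580)) (T.h (P (nat_lit 0)) (P (nat_lit 21415034776132))))) (T.h (P (nat_lit 0)) (T.h (T.h (P (nat_lit 0)) (P (nat_lit 17558414660728))) (P (nat_lit 0))))))) (T.h (T.h (P (nat_lit 0)) (T.h (T.h (M (nat_lit 28032543747)) (T.h (P (nat_lit 0)) (M (nat_lit 281369382815)))) (T.h (P (nat_lit 0)) (M (nat_lit 17654767297751))))) (T.h (T.h (T.h (P (nat_lit 0)) (T.h (P (nat_lit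 472405080880)) (T.h (P (nat_lit 0)) (P (nat_lit 23335463207672))))) (T.h (P (nat_lit 0)) (T.h (T.h (P (nat_lit 0)) (M (nat_lit 232785757879463))) (P (nat_lit 0))))) (T.h (T.h (P (nat_lit 0)) (M (nat_lit 13048808138247))) (T.h (T.h (T.h (P (nat_lit 0)) (P (nat_lit 26944252645732))) (P (nat_lit 0))) (P (nat_lit 0))))))) (T.h (P (nat_lit 0)) (T.h (T.h (T.h (T.h (P (nat_lit 0)) (T.h (P (nat_lit 27253421552)) (T.h (P (nat_lit 0)) (T.h (M (nat_lit 244344505247)) (T.h (P (nat_lit 0)) (P (nat_lit 21239515879856))))))) (T.h (P (nat_lit 0)) (T.h (T.h (P (nat_lit 0)) (T.h (P (nat_lit 1773502755288)) (T.h (P (nat_lit 0)) (M (nat_lit 666308701087))))) (T.h (P (nat_lit 0)) (T.h (T.h (P (nat_lit 0)) (P (nat_lit 7713248456676))) (P (nat_lit 0))))))) (T.h (T.h (P (nat_lit 0)) (T.h (T.h (P (nat_lit 172404496456)) (T.h (P (nat_lit 0)) (P (nat_lit 29835375695992)))) (T.h (P (nat_lit 0)) (P (nat_lit 7889601441664)))))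 (T.h (T.h (T.h (P (nat_lit 0)) (T.h (M (nat_lit 487883463599)) (T.h (P (nat_lit 0)) (M (nat_lit 8725749353647))))) (T.h (P (nat_lit 0)) (T.h (T.h (P (nat_lit 0)) (M (nat_lit 26663195889791))) (P (nat_lit 0))))) (T.h (T.h (P (nat_lit 0)) (M (nat_lit 12694646860791))) (T.h (T.h (T.h (P (nat_lit 0)) (M (nat_lit 3854649410263))) (P (nat_lit 0))) (P (nat_lit 0))))))) (P (nat_lit 0))))))) (T.h (T.h (P (nat_lit 0)) (T.h (T.h (T.h (P (nat_lit 0)) (T.h (T.h (M (nat_lit 11820205615)) (T.h (P (nat_lit 0)) (T.h (P (nat_lit 1108603623204)) (T.h (P (nat_lit 0)) (M (nat_lit 15489017120067)))))) (T.h (P (nat_lit 0)) (T.h (T.h (P (nat_lit 653007801944)) (T.h (P (nat_lit 0)) (P (nat_lit 19266410222908)))) (T.h (P (nat_lit 0)) (M (nat_lit 10542943958463))))))) (T.h (T.h (T.h (P (nat_lit 0)) (T.h (M (nat_lit 19488920263)) (T.h (P (nat_lit 0)) (P (nat_lit 680091223676))))) (T.h (P (nat_lit 0)) (T.h (T.h (P (nat_lit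 0)) (P (nat_lit 39949366177776))) (P (nat_lit 0))))) (T.h (T.h (P (nat_lit 0)) (T.h (T.h (P (nat_lit 1108603623204)) (T.h (P (nat_lit 0)) (M (nat_lit 18022196213447)))) (T.h (P (nat_lit 0)) (P (nat_lit 19266410222908))))) (T.h (T.h (T.h (P (nat_lit 0)) (P (nat_lit 680091223676))) (P (nat_lit 0))) (T.h (T.h (P (nat_lit 0)) (M (nat_lit 15489017120067))) (P (nat_lit 0))))))) (T.h (P (nat_lit 0)) (T.h (T.h (T.h (P (nat_lit 0)) (T.h (T.h (P (nat_lit 27253421552)) (T.h (P (nat_lit 0)) (T.h (P (nat_lit 1773502755288)) (T.h (P (nat_lit 0)) (P (nat_lit 7713248456676)))))) (T.h (P (nat_lit 0)) (T.h (T.h (M (nat_lit 244344505247)) (T.h (P (nat_lit 0)) (M (nat_lit 666308701087)))) (T.h (P (nat_lit 0)) (P (nat_lit 21239515879856))))))) (T.h (T.h (T.h (P (nat_lit 0)) (T.h (P (nat_lit 172404496456)) (T.h (P (nat_lit 0)) (P (nat_lit 7889601441664))))) (T.h (P (nat_lit 0)) (T.h (T.h (P (nat_lit 0)) (P (nat_lit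 29835375695992))) (P (nat_lit 0))))) (T.h (T.h (P (nat_lit 0)) (T.h (T.h (M (nat_lit 487883463599)) (T.h (P (nat_lit 0)) (M (nat_lit 26663195889791)))) (T.h (P (nat_lit 0)) (M (nat_lit 8725749353647))))) (T.h (T.h (T.h (P (nat_lit 0)) (M (nat_lit 12694646860791))) (P (nat_lit 0))) (T.h (T.h (P (nat_lit 0)) (M (nat_lit 3854649410263))) (P (nat_lit 0))))))) (P (nat_lit 0)))))) et2_3))
def et2_5 : T ℤ := (T.h (T.h (P (nat_lit 0)) (T.h (P (nat_lit 0)) (T.h (P (nat_lit 0)) (T.h (P (nat_lit 0)) (T.h (T.h (T.h (T.h (P (nat_lit 0)) (T.h (M (nat_lit 11820205615)) (T.h (P (nat_lit 0)) (T.h (P (nat_lit 653007801944)) (T.h (P (nat_lit 0)) (M (nat_lit 10542943958463))))))) (T.h (P (nat_lit 0)) (T.h (T.h (P (nat_lit 0)) (T.h (P (nat_lit 1108603623204)) (T.h (P (nat_lit 0)) (P (nat_lit 19266410222908))))) (T.h (P (nat_lit 0)) (T.h (T.h (P (nat_lit 0)) (M (nat_lit 15489017120067))) (P (nat_lit 0)))))))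 (T.h (T.h (P (nat_lit 0)) (T.h (T.h (M (nat_lit 19488920263)) (T.h (P (nat_lit 0)) (P (nat_lit 39949366177776)))) (T.h (P (nat_lit 0)) (P (nat_lit 680091223676))))) (T.h (T.h (T.h (P (nat_lit 0)) (T.h (P (nat_lit 1108603623204)) (T.h (P (nat_lit 0)) (P (nat_lit 19266410222908))))) (T.h (P (nat_lit 0)) (T.h (T.h (P (nat_lit 0)) (M (nat_lit 18022196213447))) (P (nat_lit 0))))) (T.h (T.h (P (nat_lit 0)) (P (nat_lit 680091223676))) (T.h (T.h (T.h (P (nat_lit 0)) (M (nat_lit 15489017120067))) (P (nat_lit 0))) (P (nat_lit 0))))))) (T.h (P (nat_lit 0)) (T.h (T.h (T.h (T.h (P (nat_lit 0)) (T.h (P (nat_lit 32050203200)) (T.h (P (nat_lit 0)) (T.h (M (nat_lit 1085611578695)) (T.h (P (nat_lit 0)) (P (nat_lit 13605289456528))))))) (T.h (P (nat_lit 0)) (T.h (T.h (P (nat_lit 0)) (T.h (M (nat_lit 985772926355)) (T.h (P (nat_lit 0)) (M (nat_lit 29599121516643))))) (T.h (P (nat_lit 0)) (T.h (T.h (P (nat_lit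 0)) (P (nat_lit 17408831062628))) (P (nat_lit 0))))))) (T.h (T.h (P (nat_lit 0)) (T.h (T.h (M (nat_lit 139637039319)) (T.h (P (nat_lit 0)) (M (nat_lit 45793733966095)))) (T.h (P (nat_lit 0)) (P (nat_lit 247207719880))))) (T.h (T.h (T.h (P (nat_lit 0)) (T.h (M (nat_lit 985772926355)) (T.h (P (nat_lit 0)) (M (nat_lit 29599121516643))))) (T.h (P (nat_lit 0)) (T.h (T.h (P (nat_lit 0)) (P (nat_lit 17878145964224))) (P (nat_lit 0))))) (T.h (T.h (P (nat_lit 0)) (P (nat_lit 247207719880))) (T.h (T.h (T.h (P (nat_lit 0)) (P (nat_lit 17408831062628))) (P (nat_lit 0))) (P (nat_lit 0))))))) (P (nat_lit 0))))))))) (T.h (T.h (P (nat_lit 0)) (T.h (P (nat_lit 0)) (T.h (P (nat_lit 0)) (T.h (T.h (T.h (P (nat_lit 0)) (T.h (T.h (P (nat_lit 10340735392)) (T.h (P (nat_lit 0)) (T.h (P (nat_lit 584309988580)) (T.h (P (nat_lit 0)) (P (nat_lit 17558414660728)))))) (T.h (P (nat_lit 0)) (T.h (T.h (M (nat_lit 168026983163))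 (T.h (P (nat_lit 0)) (P (nat_lit 21415034776132)))) (T.h (P (nat_lit 0)) (M (nat_lit 5282179082879))))))) (T.h (T.h (T.h (P (nat_lit 0)) (T.h (M (nat_lit 28032543747)) (T.h (P (nat_lit 0)) (M (nat_lit 17654767297751))))) (T.h (P (nat_lit 0)) (T.h (T.h (P (nat_lit 0)) (M (nat_lit 281369382815))) (P (nat_lit 0))))) (T.h (T.h (P (nat_lit 0)) (T.h (T.h (P (nat_lit 472405080880)) (T.h (P (nat_lit 0)) (M (nat_lit 232785757879463)))) (T.h (P (nat_lit 0)) (P (nat_lit 23335463207672))))) (T.h (T.h (T.h (P (nat_lit 0)) (M (nat_lit 13048808138247))) (P (nat_lit 0))) (T.h (T.h (P (nat_lit 0)) (P (nat_lit 26944252645732))) (P (nat_lit 0))))))) (T.h (P (nat_lit 0)) (T.h (T.h (T.h (P (nat_lit 0)) (T.h (T.h (P (nat_lit 4125159976)) (T.h (P (nat_lit 0)) (T.h (M (nat_lit 1703310528387)) (T.h (P (nat_lit 0)) (P (nat_lit 35548248032008)))))) (T.h (P (nat_lit 0)) (T.h (T.h (P (nat_lit 61576725300)) (T.h (P (nat_lit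 0)) (M (nat_lit 15980254747879)))) (T.h (P (nat_lit 0)) (M (nat_lit 3494344558995))))))) (T.h (T.h (T.h (P (nat_lit 0)) (T.h (M (nat_lit 339277474231)) (T.h (P (nat_lit 0)) (P (nat_lit 4219075331264))))) (T.h (P (nat_lit 0)) (T.h (T.h (P (nat_lit 0)) (M (nat_lit 12981011326887))) (P (nat_lit 0))))) (T.h (T.h (P (nat_lit 0)) (T.h (T.h (P (nat_lit 111874225812)) (T.h (P (nat_lit 0)) (P (nat_lit 88636000648592)))) (T.h (P (nat_lit 0)) (P (nat_lit 6297595701280))))) (T.h (T.h (T.h (P (nat_lit 0)) (P (nat_lit 15995467592568))) (P (nat_lit 0))) (T.h (T.h (P (nat_lit 0)) (P (nat_lit 23981218735812))) (P (nat_lit 0))))))) (P (nat_lit 0)))))))) et2_4))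
def et2_6 : T ℤ := (T.h (T.h (P (nat_lit 0)) (T.h (T.h (T.h (P (nat_lit 0)) (T.h (T.h (P (nat_lit 0)) (T.h (M (nat_lit 28032543747)) (T.h (P (nat_lit 0)) (M (nat_lit 13048808138247))))) (T.h (P (nat_lit 0)) (T.h (T.h (P (nat_lit 0)) (M (nat_lit 17654767297751))) (P (nat_lit 0)))))) (T.h (T.h (T.h (P (nat_lit 10340735392)) (T.h (P (nat_lit 0)) (T.h (P (nat_lit 472405080880)) (T.h (P (nat_lit 0)) (P (nat_lit 26944252645732)))))) (T.h (P (nat_lit 0)) (T.h (T.h (P (nat_lit 584309988580)) (T.h (P (nat_lit 0)) (M (nat_lit 232785757879463)))) (T.h (P (nat_lit 0)) (P (nat_lit 17558414660728)))))) (T.h (T.h (P (nat_lit 0)) (T.h (T.h (P (nat_lit 0)) (M (nat_lit 281369382815))) (P (nat_lit 0)))) (T.h (T.h (T.h (M (nat_lit 168026983163)) (T.h (P (nat_lit 0)) (P (nat_lit 23335463207672)))) (T.h (P (nat_lit 0)) (P (nat_lit 21415034776132)))) (T.h (P (nat_lit 0)) (M (nat_lit 5282179082879))))))) (T.h (P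 (nat_lit 0)) (T.h (T.h (T.h (P (nat_lit 0)) (T.h (T.h (P (nat_lit 0)) (T.h (M (nat_lit 83847866535)) (T.h (P (nat_lit 0)) (P (nat_lit 20074458740448))))) (T.h (P (nat_lit 0)) (T.h (T.h (P (nat_lit 0)) (P (nat_lit 20074458740448))) (P (nat_lit 0)))))) (T.h (T.h (T.h (M (nat_lit 26289097663)) (T.h (P (nat_lit 0)) (T.h (M (nat_lit 5783319448607)) (T.h (P (nat_lit 0)) (P (nat_lit 1102331701596)))))) (T.h (P (nat_lit 0)) (T.h (T.h (M (nat_lit 5783319448607)) (T.h (P (nat_lit 0)) (P (nat_lit 27944436827304)))) (T.h (P (nat_lit 0)) (P (nat_lit 1102331701596)))))) (T.h (T.h (P (nat_lit 0)) (T.h (T.h (P (nat_lit 0)) (P (nat_lit 10161870442960))) (P (nat_lit 0)))) (T.h (T.h (T.h (M (nat_lit 1248513029871)) (T.h (P (nat_lit 0)) (M (nat_lit 47330043962603)))) (T.h (P (nat_lit 0)) (M (nat_lit 47330043962603)))) (T.h (P (nat_lit 0)) (P (nat_lit 10478917947032))))))) (P (nat_lit 0)))))) (T.h (T.h (T.h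 (T.h (T.h (P (nat_lit 1588327276)) (T.h (P (nat_lit 0)) (T.h (P (nat_lit 1961113780)) (T.h (P (nat_lit 0)) (M (nat_lit 179340961627)))))) (T.h (P (nat_lit 0)) (T.h (T.h (P (nat_lit 43954659676)) (T.h (P (nat_lit 0)) (M (nat_lit 911587916855)))) (T.h (P (nat_lit 0)) (M (nat_lit 2423443475347)))))) (T.h (T.h (P (nat_lit 0)) (T.h (T.h (P (nat_lit 0)) (T.h (P (nat_lit 30548016552)) (T.h (P (nat_lit 0)) (P (nat_lit 1617176678080))))) (T.h (P (nat_lit 0)) (T.h (T.h (P (nat_lit 0)) (M (nat_lit 11831549746119))) (P (nat_lit 0)))))) (T.h (T.h (T.h (P (nat_lit 33095465804)) (T.h (P (nat_lit 0)) (P (nat_lit 408265521432)))) (T.h (P (nat_lit 0)) (P (nat_lit 4863477068356)))) (T.h (T.h (P (nat_lit 0)) (T.h (T.h (P (nat_lit 0)) (P (nat_lit 22057906817360))) (P (nat_lit 0)))) (P (nat_lit 1514045379260)))))) (T.h (P (nat_lit 0)) (T.h (T.h (T.h (T.h (P (nat_lit 3845154488)) (T.h (P (nat_lit 0)) (T.h (M (nat_lit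 104690540627)) (T.h (P (nat_lit 0)) (P (nat_lit 2249799127040)))))) (T.h (P (nat_lit 0)) (T.h (T.h (M (nat_lit 408438975063)) (T.h (P (nat_lit 0)) (P (nat_lit 17470673565496)))) (T.h (P (nat_lit 0)) (P (nat_lit 12972083516232)))))) (T.h (T.h (P (nat_lit 0)) (T.h (T.h (P (nat_lit 0)) (T.h (M (nat_lit 10270064336543)) (T.h (P (nat_lit 0)) (P (nat_lit 38943961469680))))) (T.h (P (nat_lit 0)) (T.h (T.h (P (nat_lit 0)) (P (nat_lit 24558193686464))) (P (nat_lit 0)))))) (T.h (T.h (T.h (M (nat_lit 104690540627)) (T.h (P (nat_lit 0)) (P (nat_lit 3840605727640)))) (T.h (P (nat_lit 0)) (P (nat_lit 17470673565496)))) (T.h (T.h (P (nat_lit 0)) (T.h (T.h (P (nat_lit 0)) (P (nat_lit 38943961469680))) (P (nat_lit 0)))) (P (nat_lit 2249799127040)))))) (P (nat_lit 0))))) (T.h (T.h (P (nat_lit 0)) (T.h (T.h (T.h (P (nat_lit 0)) (T.h (T.h (P (nat_lit 0)) (T.h (M (nat_lit 339277474231)) (T.h (P (nat_lit 0))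 (P (nat_lit 15995467592568))))) (T.h (P (nat_lit 0)) (T.h (T.h (P (nat_lit 0)) (P (nat_lit 4219075331264))) (P (nat_lit 0)))))) (T.h (T.h (T.h (P (nat_lit 4125159976)) (T.h (P (nat_lit 0)) (T.h (P (nat_lit 111874225812)) (T.h (P (nat_lit 0)) (P (nat_lit 23981218735812)))))) (T.h (P (nat_lit 0)) (T.h (T.h (M (nat_lit 1703310528387)) (T.h (P (nat_lit 0)) (P (nat_lit 88636000648592)))) (T.h (P (nat_lit 0)) (P (nat_lit 35548248032008)))))) (T.h (T.h (P (nat_lit 0)) (T.h (T.h (P (nat_lit 0)) (M (nat_lit 12981011326887))) (P (nat_lit 0)))) (T.h (T.h (T.h (P (nat_lit 61576725300)) (T.h (P (nat_lit 0)) (P (nat_lit 6297595701280)))) (T.h (P (nat_lit 0)) (M (nat_lit 15980254747879)))) (T.h (P (nat_lit 0)) (M (nat_lit 3494344558995))))))) (P (nat_lit 0)))) (T.h (T.h (T.h (T.h (T.h (M (nat_lit 84393995)) (T.h (P (nat_lit 0)) (T.h (M (nat_lit 9104349335)) (T.h (P (nat_lit 0)) (P (nat_lit 369611181904))))))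 (T.h (P (nat_lit 0)) (T.h (T.h (M (nat_lit 25162508559)) (T.h (P (nat_lit 0)) (P (nat_lit 2379932368216)))) (T.h (P (nat_lit 0)) (P (nat_lit 140833695764)))))) (T.h (T.h (P (nat_lit 0)) (T.h (T.h (P (nat_lit 0)) (T.h (P (nat_lit 441623916504)) (T.h (P (nat_lit 0)) (P (nat_lit 1936779970880))))) (T.h (P (nat_lit 0)) (T.h (T.h (P (nat_lit 0)) (P (nat_lit 56849656360152))) (P (nat_lit 0)))))) (T.h (T.h (T.h (P (nat_lit 59115537640)) (T.h (P (nat_lit 0)) (M (nat_lit 566715530615)))) (T.h (P (nat_lit 0)) (M (nat_lit 2102657998019)))) (T.h (T.h (P (nat_lit 0)) (T.h (T.h (P (nat_lit 0)) (P (nat_lit 10222655952032))) (P (nat_lit 0)))) (M (nat_lit 1281040891847)))))) (P (nat_lit 0))) (P (nat_lit 0))))))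
def et2_7 : T ℤ := (T.h (T.h (P (nat_lit 0)) (T.h (P (nat_lit 0)) (T.h (P (nat_lit 0)) (T.h (P (nat_lit 0)) (T.h (T.h (T.h (T.h (P (nat_lit 1588327276)) (T.h (P (nat_lit 0)) (T.h (P (nat_lit 43954659676)) (T.h (P (nat_lit 0)) (M (nat_lit 2423443475347)))))) (T.h (P (nat_lit 0)) (T.h (T.h (P (nat_lit 1961113780)) (T.h (P (nat_lit 0)) (M (nat_lit 911587916855)))) (T.h (P (nat_lit 0)) (M (nat_lit 179340961627)))))) (T.h (T.h (P (nat_lit 0)) (T.h (T.h (P (nat_lit 0)) (T.h (P (nat_lit 30548016552)) (T.h (P (nat_lit 0)) (M (nat_lit 11831549746119))))) (T.h (P (nat_lit 0)) (T.h (T.h (P (nat_lit 0)) (P (nat_lit 1617176678080))) (P (nat_lit 0)))))) (T.h (T.h (T.h (P (nat_lit 33095465804)) (T.h (P (nat_lit 0)) (P (nat_lit 4863477068356)))) (T.h (P (nat_lit 0)) (P (nat_lit 408265521432)))) (T.h (T.h (P (nat_lit 0)) (T.h (T.h (P (nat_lit 0)) (P (nat_lit 22057906817360))) (P (nat_lit 0)))) (P (nat_lit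 1514045379260)))))) (T.h (P (nat_lit 0)) (T.h (T.h (T.h (T.h (M (nat_lit 84393995)) (T.h (P (nat_lit 0)) (T.h (M (nat_lit 25162508559)) (T.h (P (nat_lit 0)) (P (nat_lit 140833695764)))))) (T.h (P (nat_lit 0)) (T.h (T.h (M (nat_lit 9104349335)) (T.h (P (nat_lit 0)) (P (nat_lit 2379932368216)))) (T.h (P (nat_lit 0)) (P (nat_lit 369611181904)))))) (T.h (T.h (P (nat_lit 0)) (T.h (T.h (P (nat_lit 0)) (T.h (P (nat_lit 441623916504)) (T.h (P (nat_lit 0)) (P (nat_lit 56849656360152))))) (T.h (P (nat_lit 0)) (T.h (T.h (P (nat_lit 0)) (P (nat_lit 1936779970880))) (P (nat_lit 0)))))) (T.h (T.h (T.h (P (nat_lit 59115537640)) (T.h (P (nat_lit 0)) (M (nat_lit 2102657998019)))) (T.h (P (nat_lit 0)) (M (nat_lit 566715530615)))) (T.h (T.h (P (nat_lit 0)) (T.h (T.h (P (nat_lit 0)) (P (nat_lit 10222655952032))) (P (nat_lit 0)))) (M (nat_lit 1281040891847)))))) (P (nat_lit 0))))))))) (T.h (T.h (P (nat_lit 0))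 (T.h (P (nat_lit 0)) (T.h (P (nat_lit 0)) (T.h (T.h (T.h (P (nat_lit 0)) (T.h (T.h (P (nat_lit 0)) (T.h (M (nat_lit 28032543747)) (T.h (P (nat_lit 0)) (M (nat_lit 17654767297751))))) (T.h (P (nat_lit 0)) (T.h (T.h (P (nat_lit 0)) (M (nat_lit 13048808138247))) (P (nat_lit 0)))))) (T.h (T.h (T.h (P (nat_lit 10340735392)) (T.h (P (nat_lit 0)) (T.h (P (nat_lit 584309988580)) (T.h (P (nat_lit 0)) (P (nat_lit 17558414660728)))))) (T.h (P (nat_lit 0)) (T.h (T.h (P (nat_lit 472405080880)) (T.h (P (nat_lit 0)) (M (nat_lit 232785757879463)))) (T.h (P (nat_lit 0)) (P (nat_lit 26944252645732)))))) (T.h (T.h (P (nat_lit 0)) (T.h (T.h (P (nat_lit 0)) (M (nat_lit 281369382815))) (P (nat_lit 0)))) (T.h (T.h (T.h (M (nat_lit 168026983163)) (T.h (P (nat_lit 0)) (P (nat_lit 21415034776132)))) (T.h (P (nat_lit 0)) (P (nat_lit 23335463207672)))) (T.h (P (nat_lit 0)) (M (nat_lit 5282179082879))))))) (T.h (P (nat_lit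 0)) (T.h (T.h (T.h (P (nat_lit 0)) (T.h (T.h (P (nat_lit 0)) (T.h (M (nat_lit 339277474231)) (T.h (P (nat_lit 0)) (P (nat_lit 4219075331264))))) (T.h (P (nat_lit 0)) (T.h (T.h (P (nat_lit 0)) (P (nat_lit 15995467592568))) (P (nat_lit 0)))))) (T.h (T.h (T.h (P (nat_lit 4125159976)) (T.h (P (nat_lit 0)) (T.h (M (nat_lit 1703310528387)) (T.h (P (nat_lit 0)) (P (nat_lit 35548248032008)))))) (T.h (P (nat_lit 0)) (T.h (T.h (P (nat_lit 111874225812)) (T.h (P (nat_lit 0)) (P (nat_lit 88636000648592)))) (T.h (P (nat_lit 0)) (P (nat_lit 23981218735812)))))) (T.h (T.h (P (nat_lit 0)) (T.h (T.h (P (nat_lit 0)) (M (nat_lit 12981011326887))) (P (nat_lit 0)))) (T.h (T.h (T.h (P (nat_lit 61576725300)) (T.h (P (nat_lit 0)) (M (nat_lit 15980254747879)))) (T.h (P (nat_lit 0)) (P (nat_lit 6297595701280)))) (T.h (P (nat_lit 0)) (M (nat_lit 3494344558995))))))) (P (nat_lit 0)))))))) (T.h (T.h (P (nat_lit 0))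 (T.h (P (nat_lit 0)) (T.h (T.h (T.h (T.h (P (nat_lit 2496896304)) (T.h (P (nat_lit 0)) (T.h (M (nat_lit 11870729287)) (T.h (P (nat_lit 0)) (P (nat_lit 1297298817984)))))) (T.h (P (nat_lit 0)) (T.h (T.h (M (nat_lit 11870729287)) (T.h (P (nat_lit 0)) (M (nat_lit 7518613897471)))) (T.h (P (nat_lit 0)) (P (nat_lit 1297298817984)))))) (T.h (T.h (P (nat_lit 0)) (T.h (T.h (P (nat_lit 0)) (T.h (M (nat_lit 122553697775)) (T.h (P (nat_lit 0)) (P (nat_lit 20431382341280))))) (T.h (P (nat_lit 0)) (T.h (T.h (P (nat_lit 0)) (P (nat_lit 20431382341280))) (P (nat_lit 0)))))) (T.h (T.h (T.h (M (nat_lit 11870729287)) (T.h (P (nat_lit 0)) (M (nat_lit 7518613897471)))) (T.h (P (nat_lit 0)) (M (nat_lit 7518613897471)))) (T.h (T.h (P (nat_lit 0)) (T.h (T.h (P (nat_lit 0)) (P (nat_lit 20431382341280))) (P (nat_lit 0)))) (P (nat_lit 1297298817984)))))) (T.h (P (nat_lit 0)) (T.h (T.h (T.h (T.h (P (nat_lit 3845154488))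 (T.h (P (nat_lit 0)) (T.h (M (nat_lit 408438975063)) (T.h (P (nat_lit 0)) (P (nat_lit 12972083516232)))))) (T.h (P (nat_lit 0)) (T.h (T.h (M (nat_lit 104690540627)) (T.h (P (nat_lit 0)) (P (nat_lit 17470673565496)))) (T.h (P (nat_lit 0)) (P (nat_lit 2249799127040)))))) (T.h (T.h (P (nat_lit 0)) (T.h (T.h (P (nat_lit 0)) (T.h (M (nat_lit 10270064336543)) (T.h (P (nat_lit 0)) (P (nat_lit 24558193686464))))) (T.h (P (nat_lit 0)) (T.h (T.h (P (nat_lit 0)) (P (nat_lit 38943961469680))) (P (nat_lit 0)))))) (T.h (T.h (T.h (M (nat_lit 104690540627)) (T.h (P (nat_lit 0)) (P (nat_lit 17470673565496)))) (T.h (P (nat_lit 0)) (P (nat_lit 3840605727640)))) (T.h (T.h (P (nat_lit 0)) (T.h (T.h (P (nat_lit 0)) (P (nat_lit 38943961469680))) (P (nat_lit 0)))) (P (nat_lit 2249799127040)))))) (P (nat_lit 0))))))) et2_6)))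
def et2_8 : T ℤ := (T.h (T.h (T.h (T.h (T.h (P (nat_lit 0)) (T.h (P (nat_lit 8036346712)) (T.h (P (nat_lit 0)) (T.h (M (nat_lit 82675506727)) (T.h (P (nat_lit 0)) (P (nat_lit 628049229160))))))) (T.h (P (nat_lit 0)) (T.h (T.h (P (nat_lit 0)) (T.h (M (nat_lit 50552652651)) (T.h (P (nat_lit 0)) (P (nat_lit 4792691053008))))) (T.h (P (nat_lit 0)) (T.h (T.h (P (nat_lit 0)) (P (nat_lit 14213398412268))) (P (nat_lit 0))))))) (T.h (T.h (P (nat_lit 0)) (T.h (T.h (P (nat_lit 37668442560)) (T.h (P (nat_lit 0)) (M (nat_lit 995164637727)))) (T.h (P (nat_lit 0)) (M (nat_lit 8520380506983))))) (T.h (T.h (T.h (P (nat_lit 0)) (T.h (M (nat_lit 50552652651)) (T.h (P (nat_lit 0)) (P (nat_lit 4792691053008))))) (T.h (P (nat_lit 0)) (T.h (T.h (P (nat_lit 0)) (M (nat_lit 34255255117367))) (P (nat_lit 0))))) (T.h (T.h (P (nat_lit 0)) (M (nat_lit 8520380506983))) (T.h (T.h (T.h (P (nat_lit 0)) (P (nat_lit 14213398412268)))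 (P (nat_lit 0))) (P (nat_lit 0))))))) (T.h (P (nat_lit 0)) (T.h (T.h (T.h (T.h (P (nat_lit 0)) (T.h (M (nat_lit 26289097663)) (T.h (P (nat_lit 0)) (T.h (M (nat_lit 1248513029871)) (T.h (P (nat_lit 0)) (P (nat_lit 10478917947032))))))) (T.h (P (nat_lit 0)) (T.h (T.h (P (nat_lit 0)) (T.h (M (nat_lit 5783319448607)) (T.h (P (nat_lit 0)) (M (nat_lit 47330043962603))))) (T.h (P (nat_lit 0)) (T.h (T.h (P (nat_lit 0)) (P (nat_lit 1102331701596))) (P (nat_lit 0))))))) (T.h (T.h (P (nat_lit 0)) (T.h (T.h (M (nat_lit 83847866535)) (T.h (P (nat_lit 0)) (P (nat_lit 10161870442960)))) (T.h (P (nat_lit 0)) (P (nat_lit 20074458740448))))) (T.h (T.h (T.h (P (nat_lit 0)) (T.h (M (nat_lit 5783319448607)) (T.h (P (nat_lit 0)) (M (nat_lit 47330043962603))))) (T.h (P (nat_lit 0)) (T.h (T.h (P (nat_lit 0)) (P (nat_lit 27944436827304))) (P (nat_lit 0))))) (T.h (T.h (P (nat_lit 0)) (P (nat_lit 20074458740448)))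 (T.h (T.h (T.h (P (nat_lit 0)) (P (nat_lit 1102331701596))) (P (nat_lit 0))) (P (nat_lit 0))))))) (P (nat_lit 0))))) (T.h (T.h (P (nat_lit 0)) (T.h (T.h (T.h (P (nat_lit 0)) (T.h (T.h (P (nat_lit 27253421552)) (T.h (P (nat_lit 0)) (T.h (M (nat_lit 487883463599)) (T.h (P (nat_lit 0)) (M (nat_lit 3854649410263)))))) (T.h (P (nat_lit 0)) (T.h (T.h (M (nat_lit 244344505247)) (T.h (P (nat_lit 0)) (M (nat_lit 8725749353647)))) (T.h (P (nat_lit 0)) (P (nat_lit 21239515879856))))))) (T.h (T.h (T.h (P (nat_lit 0)) (T.h (P (nat_lit 172404496456)) (T.h (P (nat_lit 0)) (M (nat_lit 12694646860791))))) (T.h (P (nat_lit 0)) (T.h (T.h (P (nat_lit 0)) (P (nat_lit 29835375695992))) (P (nat_lit 0))))) (T.h (T.h (P (nat_lit 0)) (T.h (T.h (P (nat_lit 1773502755288)) (T.h (P (nat_lit 0)) (M (nat_lit 26663195889791)))) (T.h (P (nat_lit 0)) (M (nat_lit 666308701087))))) (T.h (T.h (T.h (P (nat_lit 0)) (P (nat_lit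 7889601441664))) (P (nat_lit 0))) (T.h (T.h (P (nat_lit 0)) (P (nat_lit 7713248456676))) (P (nat_lit 0))))))) (P (nat_lit 0)))) (T.h (T.h (T.h (T.h (T.h (P (nat_lit 0)) (T.h (P (nat_lit 1004443480)) (T.h (P (nat_lit 0)) (T.h (M (nat_lit 34245232699)) (T.h (P (nat_lit 0)) (P (nat_lit 146887611948))))))) (T.h (P (nat_lit 0)) (T.h (T.h (P (nat_lit 0)) (T.h (P (nat_lit 271197752548)) (T.h (P (nat_lit 0)) (P (nat_lit 2789958658704))))) (T.h (P (nat_lit 0)) (T.h (T.h (P (nat_lit 0)) (P (nat_lit 3226044454456))) (P (nat_lit 0))))))) (T.h (T.h (P (nat_lit 0)) (T.h (T.h (M (nat_lit 10480068927)) (T.h (P (nat_lit 0)) (M (nat_lit 1424154948039)))) (T.h (P (nat_lit 0)) (P (nat_lit 786266654520))))) (T.h (T.h (T.h (P (nat_lit 0)) (T.h (M (nat_lit 90586669003)) (T.h (P (nat_lit 0)) (P (nat_lit 3307992048312))))) (T.h (P (nat_lit 0)) (T.h (T.h (P (nat_lit 0)) (P (nat_lit 33867526084632))) (P (nat_lit 0)))))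 (T.h (T.h (P (nat_lit 0)) (P (nat_lit 1746601347160))) (T.h (T.h (T.h (P (nat_lit 0)) (M (nat_lit 10674276178119))) (P (nat_lit 0))) (P (nat_lit 0))))))) (P (nat_lit 0))) (P (nat_lit 0)))))
def et2_9 : T ℤ := (T.h (T.h (P (nat_lit 0)) (T.h (P (nat_lit 0)) (T.h (T.h (T.h (T.h (P (nat_lit 0)) (T.h (P (nat_lit 10340735392)) (T.h (P (nat_lit 0)) (T.h (M (nat_lit 168026983163)) (T.h (P (nat_lit 0)) (M (nat_lit 5282179082879))))))) (T.h (P (nat_lit 0)) (T.h (T.h (P (nat_lit 0)) (T.h (P (nat_lit 472405080880)) (T.h (P (nat_lit 0)) (P (nat_lit 23335463207672))))) (T.h (P (nat_lit 0)) (T.h (T.h (P (nat_lit 0)) (P (nat_lit 26944252645732))) (P (nat_lit 0))))))) (T.h (T.h (P (nat_lit 0)) (T.h (T.h (M (nat_lit 28032543747)) (T.h (P (nat_lit 0)) (M (nat_lit 281369382815)))) (T.h (P (nat_lit 0)) (M (nat_lit 13048808138247))))) (T.h (T.h (T.h (P (nat_lit 0)) (T.h (P (nat_lit 584309988580)) (T.h (P (nat_lit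 0)) (P (nat_lit 21415034776132))))) (T.h (P (nat_lit 0)) (T.h (T.h (P (nat_lit 0)) (M (nat_lit 232785757879463))) (P (nat_lit 0))))) (T.h (T.h (P (nat_lit 0)) (M (nat_lit 17654767297751))) (T.h (T.h (T.h (P (nat_lit 0)) (P (nat_lit 17558414660728))) (P (nat_lit 0))) (P (nat_lit 0))))))) (T.h (P (nat_lit 0)) (T.h (T.h (T.h (T.h (P (nat_lit 0)) (T.h (P (nat_lit 27253421552)) (T.h (P (nat_lit 0)) (T.h (M (nat_lit 244344505247)) (T.h (P (nat_lit 0)) (P (nat_lit 21239515879856))))))) (T.h (P (nat_lit 0)) (T.h (T.h (P (nat_lit 0)) (T.h (M (nat_lit 487883463599)) (T.h (P (nat_lit 0)) (M (nat_lit 8725749353647))))) (T.h (P (nat_lit 0)) (T.h (T.h (P (nat_lit 0)) (M (nat_lit 3854649410263))) (P (nat_lit 0))))))) (T.h (T.h (P (nat_lit 0)) (T.h (T.h (P (nat_lit 172404496456)) (T.h (P (nat_lit 0)) (P (nat_lit 29835375695992)))) (T.h (P (nat_lit 0)) (M (nat_lit 12694646860791))))) (T.h (T.h (T.h (P (nat_lit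 0)) (T.h (P (nat_lit 1773502755288)) (T.h (P (nat_lit 0)) (M (nat_lit 666308701087))))) (T.h (P (nat_lit 0)) (T.h (T.h (P (nat_lit 0)) (M (nat_lit 26663195889791))) (P (nat_lit 0))))) (T.h (T.h (P (nat_lit 0)) (P (nat_lit 7889601441664))) (T.h (T.h (T.h (P (nat_lit 0)) (P (nat_lit 7713248456676))) (P (nat_lit 0))) (P (nat_lit 0))))))) (P (nat_lit 0))))))) (T.h (T.h (P (nat_lit 0)) (T.h (T.h (T.h (P (nat_lit 0)) (T.h (T.h (P (nat_lit 10340735392)) (T.h (P (nat_lit 0)) (T.h (P (nat_lit 472405080880)) (T.h (P (nat_lit 0)) (P (nat_lit 26944252645732)))))) (T.h (P (nat_lit 0)) (T.h (T.h (M (nat_lit 168026983163)) (T.h (P (nat_lit 0)) (P (nat_lit 23335463207672)))) (T.h (P (nat_lit 0)) (M (nat_lit 5282179082879))))))) (T.h (T.h (T.h (P (nat_lit 0)) (T.h (M (nat_lit 28032543747)) (T.h (P (nat_lit 0)) (M (nat_lit 13048808138247))))) (T.h (P (nat_lit 0)) (T.h (T.h (P (nat_lit 0)) (M (nat_lit 281369382815)))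 (P (nat_lit 0))))) (T.h (T.h (P (nat_lit 0)) (T.h (T.h (P (nat_lit 584309988580)) (T.h (P (nat_lit 0)) (M (nat_lit 232785757879463)))) (T.h (P (nat_lit 0)) (P (nat_lit 21415034776132))))) (T.h (T.h (T.h (P (nat_lit 0)) (M (nat_lit 17654767297751))) (P (nat_lit 0))) (T.h (T.h (P (nat_lit 0)) (P (nat_lit 17558414660728))) (P (nat_lit 0))))))) (T.h (P (nat_lit 0)) (T.h (T.h (T.h (P (nat_lit 0)) (T.h (T.h (M (nat_lit 26289097663)) (T.h (P (nat_lit 0)) (T.h (M (nat_lit 5783319448607)) (T.h (P (nat_lit 0)) (P (nat_lit 1102331701596)))))) (T.h (P (nat_lit 0)) (T.h (T.h (M (nat_lit 1248513029871)) (T.h (P (nat_lit 0)) (M (nat_lit 47330043962603)))) (T.h (P (nat_lit 0)) (P (nat_lit 10478917947032))))))) (T.h (T.h (T.h (P (nat_lit 0)) (T.h (M (nat_lit 83847866535)) (T.h (P (nat_lit 0)) (P (nat_lit 20074458740448))))) (T.h (P (nat_lit 0)) (T.h (T.h (P (nat_lit 0)) (P (nat_lit 10161870442960))) (P (nat_lit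 0))))) (T.h (T.h (P (nat_lit 0)) (T.h (T.h (M (nat_lit 5783319448607)) (T.h (P (nat_lit 0)) (P (nat_lit 27944436827304)))) (T.h (P (nat_lit 0)) (M (nat_lit 47330043962603))))) (T.h (T.h (T.h (P (nat_lit 0)) (P (nat_lit 20074458740448))) (P (nat_lit 0))) (T.h (T.h (P (nat_lit 0)) (P (nat_lit 1102331701596))) (P (nat_lit 0))))))) (P (nat_lit 0)))))) et2_8))
def et2_10 : T ℤ := (T.h (T.h (P (nat_lit 0)) (T.h (T.h (T.h (P (nat_lit 0)) (T.h (T.h (P (nat_lit 0)) (T.h (M (nat_lit 19488920263)) (T.h (P (nat_lit 0)) (P (nat_lit 680091223676))))) (T.h (P (nat_lit 0)) (T.h (T.h (P (nat_lit 0)) (P (nat_lit 680091223676))) (P (nat_lit 0)))))) (T.h (T.h (T.h (M (nat_lit 11820205615)) (T.h (P (nat_lit 0)) (T.h (P (nat_lit 1108603623204)) (T.h (P (nat_lit 0)) (M (nat_lit 15489017120067)))))) (T.h (P (nat_lit 0)) (T.h (T.h (P (nat_lit 1108603623204)) (T.h (P (nat_lit 0)) (M (nat_lit 18022196213447)))) (T.h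 (P (nat_lit 0)) (M (nat_lit 15489017120067)))))) (T.h (T.h (P (nat_lit 0)) (T.h (T.h (P (nat_lit 0)) (P (nat_lit 39949366177776))) (P (nat_lit 0)))) (T.h (T.h (T.h (P (nat_lit 653007801944)) (T.h (P (nat_lit 0)) (P (nat_lit 19266410222908)))) (T.h (P (nat_lit 0)) (P (nat_lit 19266410222908)))) (T.h (P (nat_lit 0)) (M (nat_lit 10542943958463))))))) (T.h (P (nat_lit 0)) (T.h (T.h (T.h (P (nat_lit 0)) (T.h (T.h (P (nat_lit 0)) (T.h (P (nat_lit 172404496456)) (T.h (P (nat_lit 0)) (P (nat_lit 7889601441664))))) (T.h (P (nat_lit 0)) (T.h (T.h (P (nat_lit 0)) (M (nat_lit 12694646860791))) (P (nat_lit 0)))))) (T.h (T.h (T.h (P (nat_lit 27253421552)) (T.h (P (nat_lit 0)) (T.h (P (nat_lit 1773502755288)) (T.h (P (nat_lit 0)) (P (nat_lit 7713248456676)))))) (T.h (P (nat_lit 0)) (T.h (T.h (M (nat_lit 487883463599)) (T.h (P (nat_lit 0)) (M (nat_lit 26663195889791)))) (T.h (P (nat_lit 0)) (M (nat_lit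 3854649410263)))))) (T.h (T.h (P (nat_lit 0)) (T.h (T.h (P (nat_lit 0)) (P (nat_lit 29835375695992))) (P (nat_lit 0)))) (T.h (T.h (T.h (M (nat_lit 244344505247)) (T.h (P (nat_lit 0)) (M (nat_lit 666308701087)))) (T.h (P (nat_lit 0)) (M (nat_lit 8725749353647)))) (T.h (P (nat_lit 0)) (P (nat_lit 21239515879856))))))) (P (nat_lit 0)))))) (T.h (T.h (T.h (T.h (T.h (P (nat_lit 1588327276)) (T.h (P (nat_lit 0)) (T.h (P (nat_lit 1961113780)) (T.h (P (nat_lit 0)) (M (nat_lit 179340961627)))))) (T.h (P (nat_lit 0)) (T.h (T.h (P (nat_lit 33095465804)) (T.h (P (nat_lit 0)) (P (nat_lit 408265521432)))) (T.h (P (nat_lit 0)) (P (nat_lit 1514045379260)))))) (T.h (T.h (P (nat_lit 0)) (T.h (T.h (P (nat_lit 0)) (T.h (P (nat_lit 30548016552)) (T.h (P (nat_lit 0)) (P (nat_lit 1617176678080))))) (T.h (P (nat_lit 0)) (T.h (T.h (P (nat_lit 0)) (P (nat_lit 22057906817360))) (P (nat_lit 0)))))) (T.h (T.h (T.h (P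 (nat_lit 43954659676)) (T.h (P (nat_lit 0)) (M (nat_lit 911587916855)))) (T.h (P (nat_lit 0)) (P (nat_lit 4863477068356)))) (T.h (T.h (P (nat_lit 0)) (T.h (T.h (P (nat_lit 0)) (M (nat_lit 11831549746119))) (P (nat_lit 0)))) (M (nat_lit 2423443475347)))))) (T.h (P (nat_lit 0)) (T.h (T.h (T.h (T.h (P (nat_lit 3845154488)) (T.h (P (nat_lit 0)) (T.h (M (nat_lit 104690540627)) (T.h (P (nat_lit 0)) (P (nat_lit 2249799127040)))))) (T.h (P (nat_lit 0)) (T.h (T.h (M (nat_lit 104690540627)) (T.h (P (nat_lit 0)) (P (nat_lit 3840605727640)))) (T.h (P (nat_lit 0)) (P (nat_lit 2249799127040)))))) (T.h (T.h (P (nat_lit 0)) (T.h (T.h (P (nat_lit 0)) (T.h (M (nat_lit 10270064336543)) (T.h (P (nat_lit 0)) (P (nat_lit 38943961469680))))) (T.h (P (nat_lit 0)) (T.h (T.h (P (nat_lit 0)) (P (nat_lit 38943961469680))) (P (nat_lit 0)))))) (T.h (T.h (T.h (M (nat_lit 408438975063)) (T.h (P (nat_lit 0)) (P (nat_lit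 17470673565496)))) (T.h (P (nat_lit 0)) (P (nat_lit 17470673565496)))) (T.h (T.h (P (nat_lit 0)) (T.h (T.h (P (nat_lit 0)) (P (nat_lit 24558193686464))) (P (nat_lit 0)))) (P (nat_lit 12972083516232)))))) (P (nat_lit 0))))) (T.h (T.h (P (nat_lit 0)) (T.h (T.h (T.h (P (nat_lit 0)) (T.h (T.h (P (nat_lit 0)) (T.h (P (nat_lit 172404496456)) (T.h (P (nat_lit 0)) (M (nat_lit 12694646860791))))) (T.h (P (nat_lit 0)) (T.h (T.h (P (nat_lit 0)) (P (nat_lit 7889601441664))) (P (nat_lit 0)))))) (T.h (T.h (T.h (P (nat_lit 27253421552)) (T.h (P (nat_lit 0)) (T.h (M (nat_lit 487883463599)) (T.h (P (nat_lit 0)) (M (nat_lit 3854649410263)))))) (T.h (P (nat_lit 0)) (T.h (T.h (P (nat_lit 1773502755288)) (T.h (P (nat_lit 0)) (M (nat_lit 26663195889791)))) (T.h (P (nat_lit 0)) (P (nat_lit 7713248456676)))))) (T.h (T.h (P (nat_lit 0)) (T.h (T.h (P (nat_lit 0)) (P (nat_lit 29835375695992))) (P (nat_lit 0)))) (T.h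 (T.h (T.h (M (nat_lit 244344505247)) (T.h (P (nat_lit 0)) (M (nat_lit 8725749353647)))) (T.h (P (nat_lit 0)) (M (nat_lit 666308701087)))) (T.h (P (nat_lit 0)) (P (nat_lit 21239515879856))))))) (P (nat_lit 0)))) (T.h (T.h (T.h (T.h (T.h (P (nat_lit 61335408)) (T.h (P (nat_lit 0)) (T.h (P (nat_lit 15586667672)) (T.h (P (nat_lit 0)) (M (nat_lit 497731608295)))))) (T.h (P (nat_lit 0)) (T.h (T.h (P (nat_lit 42177459948)) (T.h (P (nat_lit 0)) (M (nat_lit 1425888361027)))) (T.h (P (nat_lit 0)) (M (nat_lit 3457265360987)))))) (T.h (T.h (P (nat_lit 0)) (T.h (T.h (P (nat_lit 0)) (T.h (M (nat_lit 331032397951)) (T.h (P (nat_lit 0)) (P (nat_lit 10049852905776))))) (T.h (P (nat_lit 0)) (T.h (T.h (P (nat_lit 0)) (P (nat_lit 1765160100832))) (P (nat_lit 0)))))) (T.h (T.h (T.h (P (nat_lit 42177459948)) (T.h (P (nat_lit 0)) (M (nat_lit 1425888361027)))) (T.h (P (nat_lit 0)) (P (nat_lit 7385120635656))))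 (T.h (T.h (P (nat_lit 0)) (T.h (T.h (P (nat_lit 0)) (P (nat_lit 1765160100832))) (P (nat_lit 0)))) (M (nat_lit 3457265360987)))))) (P (nat_lit 0))) (P (nat_lit 0))))))
def et2_11 : T ℤ := (T.h (T.h (T.h (T.h (T.h (P (nat_lit 0)) (T.h (P (nat_lit 4716654220)) (T.h (P (nat_lit 0)) (T.h (M (nat_lit 26503856795)) (T.h (P (nat_lit 0)) (P (nat_lit 405987077716))))))) (T.h (P (nat_lit 0)) (T.h (T.h (P (nat_lit 0)) (T.h (M (nat_lit 166953153307)) (T.h (P (nat_lit 0)) (M (nat_lit 2358847870667))))) (T.h (P (nat_lit 0)) (T.h (T.h (P (nat_lit 0)) (M (nat_lit 6084766256455))) (P (nat_lit 0))))))) (T.h (T.h (P (nat_lit 0)) (T.h (T.h (M (nat_lit 6401222119)) (T.h (P (nat_lit 0)) (P (nat_lit 456402244556)))) (T.h (P (nat_lit 0)) (M (nat_lit 287152304527))))) (T.h (T.h (T.h (P (nat_lit 0)) (T.h (M (nat_lit 262902457547)) (T.h (P (nat_lit 0)) (P (nat_lit 454888153444))))) (T.h (P (nat_lit 0)) (T.h (T.h (P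 (nat_lit 0)) (M (nat_lit 10233033051999))) (P (nat_lit 0))))) (T.h (T.h (P (nat_lit 0)) (P (nat_lit 7103763502968))) (T.h (T.h (T.h (P (nat_lit 0)) (M (nat_lit 2965376421599))) (P (nat_lit 0))) (P (nat_lit 0))))))) (T.h (P (nat_lit 0)) (T.h (T.h (T.h (T.h (P (nat_lit 0)) (T.h (P (nat_lit 4125159976)) (T.h (P (nat_lit 0)) (T.h (P (nat_lit 61576725300)) (T.h (P (nat_lit 0)) (M (nat_lit 3494344558995))))))) (T.h (P (nat_lit 0)) (T.h (T.h (P (nat_lit 0)) (T.h (P (nat_lit 111874225812)) (T.h (P (nat_lit 0)) (P (nat_lit 6297595701280))))) (T.h (P (nat_lit 0)) (T.h (T.h (P (nat_lit 0)) (P (nat_lit 23981218735812))) (P (nat_lit 0))))))) (T.h (T.h (P (nat_lit 0)) (T.h (T.h (M (nat_lit 339277474231)) (T.h (P (nat_lit 0)) (M (nat_lit 12981011326887)))) (T.h (P (nat_lit 0)) (P (nat_lit 15995467592568))))) (T.h (T.h (T.h (P (nat_lit 0)) (T.h (M (nat_lit 1703310528387)) (T.h (P (nat_lit 0)) (M (nat_lit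 15980254747879))))) (T.h (P (nat_lit 0)) (T.h (T.h (P (nat_lit 0)) (P (nat_lit 88636000648592))) (P (nat_lit 0))))) (T.h (T.h (P (nat_lit 0)) (P (nat_lit 4219075331264))) (T.h (T.h (T.h (P (nat_lit 0)) (P (nat_lit 35548248032008))) (P (nat_lit 0))) (P (nat_lit 0))))))) (P (nat_lit 0))))) (T.h (T.h (P (nat_lit 0)) (T.h (T.h (T.h (P (nat_lit 0)) (T.h (T.h (P (nat_lit 4125159976)) (T.h (P (nat_lit 0)) (T.h (P (nat_lit 111874225812)) (T.h (P (nat_lit 0)) (P (nat_lit 23981218735812)))))) (T.h (P (nat_lit 0)) (T.h (T.h (P (nat_lit 61576725300)) (T.h (P (nat_lit 0)) (P (nat_lit 6297595701280)))) (T.h (P (nat_lit 0)) (M (nat_lit 3494344558995))))))) (T.h (T.h (T.h (P (nat_lit 0)) (T.h (M (nat_lit 339277474231)) (T.h (P (nat_lit 0)) (P (nat_lit 15995467592568))))) (T.h (P (nat_lit 0)) (T.h (T.h (P (nat_lit 0)) (M (nat_lit 12981011326887))) (P (nat_lit 0))))) (T.h (T.h (P (nat_lit 0)) (T.h (T.h (M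 (nat_lit 1703310528387)) (T.h (P (nat_lit 0)) (P (nat_lit 88636000648592)))) (T.h (P (nat_lit 0)) (M (nat_lit 15980254747879))))) (T.h (T.h (T.h (P (nat_lit 0)) (P (nat_lit 4219075331264))) (P (nat_lit 0))) (T.h (T.h (P (nat_lit 0)) (P (nat_lit 35548248032008))) (P (nat_lit 0))))))) (P (nat_lit 0)))) (T.h (T.h (T.h (T.h (T.h (P (nat_lit 0)) (T.h (P (nat_lit 1004443480)) (T.h (P (nat_lit 0)) (T.h (M (nat_lit 34245232699)) (T.h (P (nat_lit 0)) (P (nat_lit 146887611948))))))) (T.h (P (nat_lit 0)) (T.h (T.h (P (nat_lit 0)) (T.h (M (nat_lit 90586669003)) (T.h (P (nat_lit 0)) (P (nat_lit 3307992048312))))) (T.h (P (nat_lit 0)) (T.h (T.h (P (nat_lit 0)) (M (nat_lit 10674276178119))) (P (nat_lit 0))))))) (T.h (T.h (P (nat_lit 0)) (T.h (T.h (M (nat_lit 10480068927)) (T.h (P (nat_lit 0)) (M (nat_lit 1424154948039)))) (T.h (P (nat_lit 0)) (P (nat_lit 1746601347160))))) (T.h (T.h (T.h (P (nat_lit 0))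 (T.h (P (nat_lit 271197752548)) (T.h (P (nat_lit 0)) (P (nat_lit 2789958658704))))) (T.h (P (nat_lit 0)) (T.h (T.h (P (nat_lit 0)) (P (nat_lit 33867526084632))) (P (nat_lit 0))))) (T.h (T.h (P (nat_lit 0)) (P (nat_lit 786266654520))) (T.h (T.h (T.h (P (nat_lit 0)) (P (nat_lit 3226044454456))) (P (nat_lit 0))) (P (nat_lit 0))))))) (P (nat_lit 0))) (P (nat_lit 0)))))
def et2_12 : T ℤ := (T.h (T.h (T.h (T.h (T.h (T.h (P (nat_lit 1522368272)) (T.h (P (nat_lit 0)) (T.h (M (nat_lit 8211104831)) (T.h (P (nat_lit 0)) (M (nat_lit 30558476671)))))) (T.h (P (nat_lit 0)) (T.h (T.h (M (nat_lit 8211104831)) (T.h (P (nat_lit 0)) (P (nat_lit 120730975312)))) (T.h (P (nat_lit 0)) (M (nat_lit 30558476671)))))) (T.h (T.h (P (nat_lit 0)) (T.h (T.h (P (nat_lit 0)) (T.h (P (nat_lit 231844540528)) (T.h (P (nat_lit 0)) (M (nat_lit 2497719853055))))) (T.h (P (nat_lit 0)) (T.h (T.h (P (nat_lit 0)) (M (nat_lit 2497719853055)))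 (P (nat_lit 0)))))) (T.h (T.h (T.h (P (nat_lit 5640029288)) (T.h (P (nat_lit 0)) (P (nat_lit 1623945875728)))) (T.h (P (nat_lit 0)) (P (nat_lit 1623945875728)))) (T.h (T.h (P (nat_lit 0)) (T.h (T.h (P (nat_lit 0)) (P (nat_lit 32735328517744))) (P (nat_lit 0)))) (M (nat_lit 498054425927)))))) (T.h (P (nat_lit 0)) (T.h (T.h (T.h (T.h (M (nat_lit 84393995)) (T.h (P (nat_lit 0)) (T.h (P (nat_lit 59115537640)) (T.h (P (nat_lit 0)) (M (nat_lit 1281040891847)))))) (T.h (P (nat_lit 0)) (T.h (T.h (M (nat_lit 9104349335)) (T.h (P (nat_lit 0)) (M (nat_lit 566715530615)))) (T.h (P (nat_lit 0)) (P (nat_lit 369611181904)))))) (T.h (T.h (P (nat_lit 0)) (T.h (T.h (P (nat_lit 0)) (T.h (P (nat_lit 441623916504)) (T.h (P (nat_lit 0)) (P (nat_lit 10222655952032))))) (T.h (P (nat_lit 0)) (T.h (T.h (P (nat_lit 0)) (P (nat_lit 1936779970880))) (P (nat_lit 0)))))) (T.h (T.h (T.h (M (nat_lit 25162508559)) (T.h (P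 (nat_lit 0)) (M (nat_lit 2102657998019)))) (T.h (P (nat_lit 0)) (P (nat_lit 2379932368216)))) (T.h (T.h (P (nat_lit 0)) (T.h (T.h (P (nat_lit 0)) (P (nat_lit 56849656360152))) (P (nat_lit 0)))) (P (nat_lit 140833695764)))))) (P (nat_lit 0))))) (T.h (T.h (P (nat_lit 0)) (T.h (T.h (T.h (P (nat_lit 0)) (T.h (T.h (P (nat_lit 0)) (T.h (M (nat_lit 139637039319)) (T.h (P (nat_lit 0)) (P (nat_lit 247207719880))))) (T.h (P (nat_lit 0)) (T.h (T.h (P (nat_lit 0)) (P (nat_lit 247207719880))) (P (nat_lit 0)))))) (T.h (T.h (T.h (P (nat_lit 32050203200)) (T.h (P (nat_lit 0)) (T.h (M (nat_lit 985772926355)) (T.h (P (nat_lit 0)) (P (nat_lit 17408831062628)))))) (T.h (P (nat_lit 0)) (T.h (T.h (M (nat_lit 985772926355)) (T.h (P (nat_lit 0)) (P (nat_lit 17878145964224)))) (T.h (P (nat_lit 0)) (P (nat_lit 17408831062628)))))) (T.h (T.h (P (nat_lit 0)) (T.h (T.h (P (nat_lit 0)) (M (nat_lit 45793733966095))) (P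 (nat_lit 0)))) (T.h (T.h (T.h (M (nat_lit 1085611578695)) (T.h (P (nat_lit 0)) (M (nat_lit 29599121516643)))) (T.h (P (nat_lit 0)) (M (nat_lit 29599121516643)))) (T.h (P (nat_lit 0)) (P (nat_lit 13605289456528))))))) (P (nat_lit 0)))) (T.h (T.h (T.h (T.h (T.h (M (nat_lit 84393995)) (T.h (P (nat_lit 0)) (T.h (M (nat_lit 9104349335)) (T.h (P (nat_lit 0)) (P (nat_lit 369611181904)))))) (T.h (P (nat_lit 0)) (T.h (T.h (P (nat_lit 59115537640)) (T.h (P (nat_lit 0)) (M (nat_lit 566715530615)))) (T.h (P (nat_lit 0)) (M (nat_lit 1281040891847)))))) (T.h (T.h (P (nat_lit 0)) (T.h (T.h (P (nat_lit 0)) (T.h (P (nat_lit 441623916504)) (T.h (P (nat_lit 0)) (P (nat_lit 1936779970880))))) (T.h (P (nat_lit 0)) (T.h (T.h (P (nat_lit 0)) (P (nat_lit 10222655952032))) (P (nat_lit 0)))))) (T.h (T.h (T.h (M (nat_lit 25162508559)) (T.h (P (nat_lit 0)) (P (nat_lit 2379932368216)))) (T.h (P (nat_lit 0)) (M (nat_lit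 2102657998019)))) (T.h (T.h (P (nat_lit 0)) (T.h (T.h (P (nat_lit 0)) (P (nat_lit 56849656360152))) (P (nat_lit 0)))) (P (nat_lit 140833695764)))))) (P (nat_lit 0))) (P (nat_lit 0))))) (T.h (T.h (T.h (P (nat_lit 0)) (T.h (T.h (T.h (P (nat_lit 0)) (T.h (T.h (P (nat_lit 166808008)) (T.h (P (nat_lit 0)) (T.h (P (nat_lit 43152722924)) (T.h (P (nat_lit 0)) (P (nat_lit 806526702804)))))) (T.h (P (nat_lit 0)) (T.h (T.h (P (nat_lit 39567142064)) (T.h (P (nat_lit 0)) (P (nat_lit 1553768624272)))) (T.h (P (nat_lit 0)) (M (nat_lit 109307487247))))))) (T.h (T.h (T.h (P (nat_lit 0)) (T.h (P (nat_lit 25086939464)) (T.h (P (nat_lit 0)) (M (nat_lit 314029203151))))) (T.h (P (nat_lit 0)) (T.h (T.h (P (nat_lit 0)) (P (nat_lit 480044438448))) (P (nat_lit 0))))) (T.h (T.h (P (nat_lit 0)) (T.h (T.h (M (nat_lit 680319206979)) (T.h (P (nat_lit 0)) (P (nat_lit 3255889330404)))) (T.h (P (nat_lit 0)) (M (nat_lit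 4873777238447))))) (T.h (T.h (T.h (P (nat_lit 0)) (M (nat_lit 4254647270599))) (P (nat_lit 0))) (T.h (T.h (P (nat_lit 0)) (P (nat_lit 29843663359528))) (P (nat_lit 0))))))) (P (nat_lit 0)))) (T.h (T.h (T.h (T.h (T.h (P (nat_lit 0)) (T.h (P (nat_lit 166808008)) (T.h (P (nat_lit 0)) (T.h (P (nat_lit 39567142064)) (T.h (P (nat_lit 0)) (M (nat_lit 109307487247))))))) (T.h (P (nat_lit 0)) (T.h (T.h (P (nat_lit 0)) (T.h (P (nat_lit 43152722924)) (T.h (P (nat_lit 0)) (P (nat_lit 1553768624272))))) (T.h (P (nat_lit 0)) (T.h (T.h (P (nat_lit 0)) (P (nat_lit 806526702804))) (P (nat_lit 0))))))) (T.h (T.h (P (nat_lit 0)) (T.h (T.h (P (nat_lit 25086939464)) (T.h (P (nat_lit 0)) (P (nat_lit 480044438448)))) (T.h (P (nat_lit 0)) (M (nat_lit 314029203151))))) (T.h (T.h (T.h (P (nat_lit 0)) (T.h (M (nat_lit 680319206979)) (T.h (P (nat_lit 0)) (M (nat_lit 4873777238447))))) (T.h (P (nat_lit 0)) (T.h (T.h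 (P (nat_lit 0)) (P (nat_lit 3255889330404))) (P (nat_lit 0))))) (T.h (T.h (P (nat_lit 0)) (M (nat_lit 4254647270599))) (T.h (T.h (T.h (P (nat_lit 0)) (P (nat_lit 29843663359528))) (P (nat_lit 0))) (P (nat_lit 0))))))) (P (nat_lit 0))) (P (nat_lit 0)))) (T.h (T.h (T.h (T.h (T.h (T.h (M (nat_lit 416280975)) (T.h (P (nat_lit 0)) (T.h (P (nat_lit 3331421228)) (T.h (P (nat_lit 0)) (M (nat_lit 47725859819)))))) (T.h (P (nat_lit 0)) (T.h (T.h (P (nat_lit 3331421228)) (T.h (P (nat_lit 0)) (P (nat_lit 279380791208)))) (T.h (P (nat_lit 0)) (M (nat_lit 47725859819)))))) (T.h (T.h (P (nat_lit 0)) (T.h (T.h (P (nat_lit 0)) (T.h (M (nat_lit 224162024719)) (T.h (P (nat_lit 0)) (M (nat_lit 3074053443551))))) (T.h (P (nat_lit 0)) (T.h (T.h (P (nat_lit 0)) (M (nat_lit 3074053443551))) (P (nat_lit 0)))))) (T.h (T.h (T.h (P (nat_lit 19899027504)) (T.h (P (nat_lit 0)) (M (nat_lit 381879387203)))) (T.h (P (nat_lit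 0)) (M (nat_lit 381879387203)))) (T.h (T.h (P (nat_lit 0)) (T.h (T.h (P (nat_lit 0)) (M (nat_lit 45315573715007))) (P (nat_lit 0)))) (M (nat_lit 20966957079)))))) (P (nat_lit 0))) (P (nat_lit 0))) (P (nat_lit 0)))))
def et2_13 : T ℤ := (T.h (T.h (T.h (P (nat_lit 0)) (T.h (P (nat_lit 0)) (T.h (P (nat_lit 0)) (T.h (T.h (T.h (P (nat_lit 0)) (T.h (T.h (P (nat_lit 8036346712)) (T.h (P (nat_lit 0)) (T.h (M (nat_lit 50552652651)) (T.h (P (nat_lit 0)) (P (nat_lit 14213398412268)))))) (T.h (P (nat_lit 0)) (T.h (T.h (M (nat_lit 82675506727)) (T.h (P (nat_lit 0)) (P (nat_lit 4792691053008)))) (T.h (P (nat_lit 0)) (P (nat_lit 628049229160))))))) (T.h (T.h (T.h (P (nat_lit 0)) (T.h (P (nat_lit 37668442560)) (T.h (P (nat_lit 0)) (M (nat_lit 8520380506983))))) (T.h (P (nat_lit 0)) (T.h (T.h (P (nat_lit 0)) (M (nat_lit 995164637727))) (P (nat_lit 0))))) (T.h (T.h (P (nat_lit 0)) (T.h (T.h (M (nat_lit 50552652651))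 (T.h (P (nat_lit 0)) (M (nat_lit 34255255117367)))) (T.h (P (nat_lit 0)) (P (nat_lit 4792691053008))))) (T.h (T.h (T.h (P (nat_lit 0)) (M (nat_lit 8520380506983))) (P (nat_lit 0))) (T.h (T.h (P (nat_lit 0)) (P (nat_lit 14213398412268))) (P (nat_lit 0))))))) (T.h (P (nat_lit 0)) (T.h (T.h (T.h (P (nat_lit 0)) (T.h (T.h (P (nat_lit 1004443480)) (T.h (P (nat_lit 0)) (T.h (P (nat_lit 271197752548)) (T.h (P (nat_lit 0)) (P (nat_lit 3226044454456)))))) (T.h (P (nat_lit 0)) (T.h (T.h (M (nat_lit 34245232699)) (T.h (P (nat_lit 0)) (P (nat_lit 2789958658704)))) (T.h (P (nat_lit 0)) (P (nat_lit 146887611948))))))) (T.h (T.h (T.h (P (nat_lit 0)) (T.h (M (nat_lit 10480068927)) (T.h (P (nat_lit 0)) (P (nat_lit 786266654520))))) (T.h (P (nat_lit 0)) (T.h (T.h (P (nat_lit 0)) (M (nat_lit 1424154948039))) (P (nat_lit 0))))) (T.h (T.h (P (nat_lit 0)) (T.h (T.h (M (nat_lit 90586669003)) (T.h (P (nat_lit 0))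 (P (nat_lit 33867526084632)))) (T.h (P (nat_lit 0)) (P (nat_lit 3307992048312))))) (T.h (T.h (T.h (P (nat_lit 0)) (P (nat_lit 1746601347160))) (P (nat_lit 0))) (T.h (T.h (P (nat_lit 0)) (M (nat_lit 10674276178119))) (P (nat_lit 0))))))) (P (nat_lit 0)))))))) et2_9) (T.h (T.h (T.h (P (nat_lit 0)) (T.h (P (nat_lit 0)) (T.h (T.h (T.h (T.h (P (nat_lit 1588327276)) (T.h (P (nat_lit 0)) (T.h (P (nat_lit 33095465804)) (T.h (P (nat_lit 0)) (P (nat_lit 1514045379260)))))) (T.h (P (nat_lit 0)) (T.h (T.h (P (nat_lit 1961113780)) (T.h (P (nat_lit 0)) (P (nat_lit 408265521432)))) (T.h (P (nat_lit 0)) (M (nat_lit 179340961627)))))) (T.h (T.h (P (nat_lit 0)) (T.h (T.h (P (nat_lit 0)) (T.h (P (nat_lit 30548016552)) (T.h (P (nat_lit 0)) (P (nat_lit 22057906817360))))) (T.h (P (nat_lit 0)) (T.h (T.h (P (nat_lit 0)) (P (nat_lit 1617176678080))) (P (nat_lit 0)))))) (T.h (T.h (T.h (P (nat_lit 43954659676)) (T.h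 (P (nat_lit 0)) (P (nat_lit 4863477068356)))) (T.h (P (nat_lit 0)) (M (nat_lit 911587916855)))) (T.h (T.h (P (nat_lit 0)) (T.h (T.h (P (nat_lit 0)) (M (nat_lit 11831549746119))) (P (nat_lit 0)))) (M (nat_lit 2423443475347)))))) (T.h (P (nat_lit 0)) (T.h (T.h (T.h (T.h (P (nat_lit 61335408)) (T.h (P (nat_lit 0)) (T.h (P (nat_lit 42177459948)) (T.h (P (nat_lit 0)) (M (nat_lit 3457265360987)))))) (T.h (P (nat_lit 0)) (T.h (T.h (P (nat_lit 15586667672)) (T.h (P (nat_lit 0)) (M (nat_lit 1425888361027)))) (T.h (P (nat_lit 0)) (M (nat_lit 497731608295)))))) (T.h (T.h (P (nat_lit 0)) (T.h (T.h (P (nat_lit 0)) (T.h (M (nat_lit 331032397951)) (T.h (P (nat_lit 0)) (P (nat_lit 1765160100832))))) (T.h (P (nat_lit 0)) (T.h (T.h (P (nat_lit 0)) (P (nat_lit 10049852905776))) (P (nat_lit 0)))))) (T.h (T.h (T.h (P (nat_lit 42177459948)) (T.h (P (nat_lit 0)) (P (nat_lit 7385120635656)))) (T.h (P (nat_lit 0))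 (M (nat_lit 1425888361027)))) (T.h (T.h (P (nat_lit 0)) (T.h (T.h (P (nat_lit 0)) (P (nat_lit 1765160100832))) (P (nat_lit 0)))) (M (nat_lit 3457265360987)))))) (P (nat_lit 0))))))) et2_10) (T.h (T.h (T.h (P (nat_lit 0)) (T.h (T.h (T.h (P (nat_lit 0)) (T.h (T.h (P (nat_lit 4716654220)) (T.h (P (nat_lit 0)) (T.h (M (nat_lit 166953153307)) (T.h (P (nat_lit 0)) (M (nat_lit 6084766256455)))))) (T.h (P (nat_lit 0)) (T.h (T.h (M (nat_lit 26503856795)) (T.h (P (nat_lit 0)) (M (nat_lit 2358847870667)))) (T.h (P (nat_lit 0)) (P (nat_lit 405987077716))))))) (T.h (T.h (T.h (P (nat_lit 0)) (T.h (M (nat_lit 6401222119)) (T.h (P (nat_lit 0)) (M (nat_lit 287152304527))))) (T.h (P (nat_lit 0)) (T.h (T.h (P (nat_lit 0)) (P (nat_lit 456402244556))) (P (nat_lit 0))))) (T.h (T.h (P (nat_lit 0)) (T.h (T.h (M (nat_lit 262902457547)) (T.h (P (nat_lit 0)) (M (nat_lit 10233033051999)))) (T.h (P (nat_lit 0)) (P (nat_lit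 454888153444))))) (T.h (T.h (T.h (P (nat_lit 0)) (P (nat_lit 7103763502968))) (P (nat_lit 0))) (T.h (T.h (P (nat_lit 0)) (M (nat_lit 2965376421599))) (P (nat_lit 0))))))) (T.h (P (nat_lit 0)) (T.h (T.h (T.h (P (nat_lit 0)) (T.h (T.h (P (nat_lit 1004443480)) (T.h (P (nat_lit 0)) (T.h (M (nat_lit 90586669003)) (T.h (P (nat_lit 0)) (M (nat_lit 10674276178119)))))) (T.h (P (nat_lit 0)) (T.h (T.h (M (nat_lit 34245232699)) (T.h (P (nat_lit 0)) (P (nat_lit 3307992048312)))) (T.h (P (nat_lit 0)) (P (nat_lit 146887611948))))))) (T.h (T.h (T.h (P (nat_lit 0)) (T.h (M (nat_lit 10480068927)) (T.h (P (nat_lit 0)) (P (nat_lit 1746601347160))))) (T.h (P (nat_lit 0)) (T.h (T.h (P (nat_lit 0)) (M (nat_lit 1424154948039))) (P (nat_lit 0))))) (T.h (T.h (P (nat_lit 0)) (T.h (T.h (P (nat_lit 271197752548)) (T.h (P (nat_lit 0)) (P (nat_lit 33867526084632)))) (T.h (P (nat_lit 0)) (P (nat_lit 2789958658704)))))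 (T.h (T.h (T.h (P (nat_lit 0)) (P (nat_lit 786266654520))) (P (nat_lit 0))) (T.h (T.h (P (nat_lit 0)) (P (nat_lit 3226044454456))) (P (nat_lit 0))))))) (P (nat_lit 0)))))) et2_11) et2_12)))

def t2 : T ℤ := (T.h et2_2 (T.h (T.h (T.h (P (nat_lit 0)) (T.h (P (nat_lit 0)) (T.h (P (nat_lit 0)) (T.h (P (nat_lit 0)) (T.h (P (nat_lit 0)) (T.h (T.h (T.h (P (nat_lit 0)) (T.h (T.h (P (nat_lit 4716654220)) (T.h (P (nat_lit 0)) (T.h (M (nat_lit 262902457547)) (T.h (P (nat_lit 0)) (M (nat_lit 2965376421599)))))) (T.h (P (nat_lit 0)) (T.h (T.h (M (nat_lit 26503856795)) (T.h (P (nat_lit 0)) (P (nat_lit 454888153444)))) (T.h (P (nat_lit 0)) (P (nat_lit 405987077716))))))) (T.h (T.h (T.h (P (nat_lit 0)) (T.h (M (nat_lit 6401222119)) (T.h (P (nat_lit 0)) (P (nat_lit 7103763502968))))) (T.h (P (nat_lit 0)) (T.h (T.h (P (nat_lit 0)) (P (nat_lit 456402244556))) (P (nat_lit 0))))) (T.h (T.h (P (nat_lit 0)) (T.h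 (T.h (M (nat_lit 166953153307)) (T.h (P (nat_lit 0)) (M (nat_lit 10233033051999)))) (T.h (P (nat_lit 0)) (M (nat_lit 2358847870667))))) (T.h (T.h (T.h (P (nat_lit 0)) (M (nat_lit 287152304527))) (P (nat_lit 0))) (T.h (T.h (P (nat_lit 0)) (M (nat_lit 6084766256455))) (P (nat_lit 0))))))) (T.h (P (nat_lit 0)) (T.h (T.h (T.h (P (nat_lit 0)) (T.h (T.h (P (nat_lit 166808008)) (T.h (P (nat_lit 0)) (T.h (M (nat_lit 680319206979)) (T.h (P (nat_lit 0)) (P (nat_lit 29843663359528)))))) (T.h (P (nat_lit 0)) (T.h (T.h (P (nat_lit 39567142064)) (T.h (P (nat_lit 0)) (M (nat_lit 4873777238447)))) (T.h (P (nat_lit 0)) (M (nat_lit 109307487247))))))) (T.h (T.h (T.h (P (nat_lit 0)) (T.h (P (nat_lit 25086939464)) (T.h (P (nat_lit 0)) (M (nat_lit 4254647270599))))) (T.h (P (nat_lit 0)) (T.h (T.h (P (nat_lit 0)) (P (nat_lit 480044438448))) (P (nat_lit 0))))) (T.h (T.h (P (nat_lit 0)) (T.h (T.h (P (nat_lit 43152722924))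 (T.h (P (nat_lit 0)) (P (nat_lit 3255889330404)))) (T.h (P (nat_lit 0)) (P (nat_lit 1553768624272))))) (T.h (T.h (T.h (P (nat_lit 0)) (M (nat_lit 314029203151))) (P (nat_lit 0))) (T.h (T.h (P (nat_lit 0)) (P (nat_lit 806526702804))) (P (nat_lit 0))))))) (P (nat_lit 0)))))))))) et2_5) (T.h et2_7 et2_13)))

theorem h_t2 : chkT (c.G g2) t2 = true := by decide +kernel


end Pool.Agent.TOPR.R61135
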