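import Pool.Agent.TOPR.R61135.Cert

set_option autoImplicit false
set_option linter.all false
set_option maxRecDepth 100000

namespace Pool.Agent.TOPR.R61135

open Helper10.PC hiding V3
open Helper80.CW.DL Pool.Agent.Helper6.TOP

def en00_0 : T ℤ := (T.h (T.h (T.h (T.h (P (nat_lit 0)) (T.h (T.h (P (nat_lit 416280976)) (T.h (P (nat_lit 0)) (T.h (M (nat_lit 3732164035)) (T.h (P (nat_lit 0)) (P (nat_lit 49982058876)))))) (T.h (P (nat_lit 0)) (T.h (T.h (M (nat_lit 6633008883)) (T.h (P (nat_lit 0)) (P (nat_lit 443487898660)))) (T.h (P (nat_lit 0)) (P (nat_lit 4193382320))))))) (T.h (T.h (T.h (P (nat_lit 0)) (T.h (M (nat_lit 1244711471)) (T.h (P (nat_lit 0)) (T.h (M (nat_lit 6464886975)) (T.h (P (nat_lit 0)) (M (nat_lit 73451031451))))))) (T.h (P (nat_lit 0)) (T.h (T.h (P (nat_lit 0)) (T.h (P (nat_lit 112081010876)) (T.h (P (nat_lit 0)) (P (nat_lit 1536595181864))))) (T.h (P (nat_lit 0)) (T.h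 (T.h (P (nat_lit 0)) (P (nat_lit 11328893460608))) (P (nat_lit 0))))))) (T.h (T.h (P (nat_lit 0)) (T.h (T.h (M (nat_lit 3982834843)) (T.h (P (nat_lit 0)) (M (nat_lit 279380787023)))) (T.h (P (nat_lit 0)) (M (nat_lit 263022994335))))) (T.h (T.h (T.h (P (nat_lit 0)) (T.h (P (nat_lit 19104735300)) (T.h (P (nat_lit 0)) (M (nat_lit 6055043211))))) (T.h (P (nat_lit 0)) (T.h (T.h (P (nat_lit 0)) (P (nat_lit 4238798508712))) (P (nat_lit 0))))) (T.h (T.h (P (nat_lit 0)) (P (nat_lit 6175991608))) (T.h (T.h (T.h (P (nat_lit 0)) (P (nat_lit 188795121448))) (P (nat_lit 0))) (P (nat_lit 0)))))))) (T.h (P (nat_lit 0)) (T.h (T.h (T.h (P (nat_lit 0)) (T.h (T.h (P (nat_lit 2544053600)) (T.h (P (nat_lit 0)) (T.h (P (nat_lit 128267712748)) (T.h (P (nat_lit 0)) (M (nat_lit 171771494043)))))) (T.h (P (nat_lit 0)) (T.h (T.h (M (nat_lit 220385884555)) (T.h (P (nat_lit 0)) (P (nat_lit 27640559782600)))) (T.h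 (P (nat_lit 0)) (P (nat_lit 10014458006728))))))) (T.h (T.h (T.h (P (nat_lit 0)) (T.h (P (nat_lit 20364709200)) (T.h (P (nat_lit 0)) (M (nat_lit 93553363535))))) (T.h (P (nat_lit 0)) (T.h (T.h (P (nat_lit 0)) (M (nat_lit 142353967263))) (P (nat_lit 0))))) (T.h (T.h (P (nat_lit 0)) (T.h (T.h (M (nat_lit 47319413639)) (T.h (P (nat_lit 0)) (P (nat_lit 2100277818228)))) (T.h (P (nat_lit 0)) (P (nat_lit 6801356168232))))) (T.h (T.h (T.h (P (nat_lit 0)) (M (nat_lit 891975652239))) (P (nat_lit 0))) (T.h (T.h (P (nat_lit 0)) (M (nat_lit 3718981274959))) (P (nat_lit 0))))))) (P (nat_lit 0))))) (T.h (T.h (P (nat_lit 0)) (T.h (T.h (T.h (T.h (P (nat_lit 0)) (T.h (P (nat_lit 1386234764)) (T.h (P (nat_lit 0)) (T.h (M (nat_lit 4259221043)) (T.h (P (nat_lit 0)) (M (nat_lit 272600244187))))))) (T.h (P (nat_lit 0)) (T.h (T.h (P (nat_lit 0)) (T.h (M (nat_lit 110918382391)) (T.h (P (nat_lit 0)) (P (nat_lit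 2198697751020))))) (T.h (P (nat_lit 0)) (T.h (T.h (P (nat_lit 0)) (P (nat_lit 712037044124))) (P (nat_lit 0))))))) (T.h (T.h (P (nat_lit 0)) (T.h (T.h (M (nat_lit 4523988151)) (T.h (P (nat_lit 0)) (P (nat_lit 328362124904)))) (T.h (P (nat_lit 0)) (P (nat_lit 921811532720))))) (T.h (T.h (T.h (P (nat_lit 0)) (T.h (P (nat_lit 17880124416)) (T.h (P (nat_lit 0)) (P (nat_lit 2206594567416))))) (T.h (P (nat_lit 0)) (T.h (T.h (P (nat_lit 0)) (P (nat_lit 385135342236))) (P (nat_lit 0))))) (T.h (T.h (P (nat_lit 0)) (P (nat_lit 493240479632))) (T.h (T.h (T.h (P (nat_lit 0)) (P (nat_lit 1382834899960))) (P (nat_lit 0))) (P (nat_lit 0))))))) (P (nat_lit 0)))) (T.h (T.h (T.h (T.h (P (nat_lit 0)) (T.h (T.h (P (nat_lit 841306452)) (T.h (P (nat_lit 0)) (T.h (P (nat_lit 7867799680)) (T.h (P (nat_lit 0)) (M (nat_lit 217188413175)))))) (T.h (P (nat_lit 0)) (T.h (T.h (M (nat_lit 171282279)) (T.h (P (nat_lit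 0)) (M (nat_lit 1697754452967)))) (T.h (P (nat_lit 0)) (M (nat_lit 3539898791711))))))) (T.h (T.h (T.h (P (nat_lit 0)) (T.h (M (nat_lit 2279743511)) (T.h (P (nat_lit 0)) (P (nat_lit 34738961888))))) (T.h (P (nat_lit 0)) (T.h (T.h (P (nat_lit 0)) (P (nat_lit 152103399352))) (P (nat_lit 0))))) (T.h (T.h (P (nat_lit 0)) (T.h (T.h (M (nat_lit 18127267739)) (T.h (P (nat_lit 0)) (M (nat_lit 1920082724243)))) (T.h (P (nat_lit 0)) (M (nat_lit 3125638564019))))) (T.h (T.h (T.h (P (nat_lit 0)) (M (nat_lit 140872845359))) (P (nat_lit 0))) (T.h (T.h (P (nat_lit 0)) (P (nat_lit 216243959160))) (P (nat_lit 0))))))) (P (nat_lit 0))) (P (nat_lit 0)))))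
def en00_1 : T ℤ := (T.h (T.h (P (nat_lit 0)) (T.h (P (nat_lit 0)) (T.h (T.h (T.h (P (nat_lit 0)) (T.h (T.h (P (nat_lit 930046504)) (T.h (P (nat_lit 0)) (T.h (M (nat_lit 36557436891)) (T.h (P (nat_lit 0)) (M (nat_lit 227185590531)))))) (T.h (P (nat_lit 0)) (T.h (T.h (M (nat_lit 37910403251)) (T.h (P (nat_lit 0)) (M (nat_lit 881292108815)))) (T.h (P (nat_lit 0)) (P (nat_lit 423919838020))))))) (T.h (T.h (T.h (P (nat_lit 0)) (T.h (M (nat_lit 8142049747)) (T.h (P (nat_lit 0)) (T.h (P (nat_lit 63811964336)) (T.h (P (nat_lit 0)) (P (nat_lit 8762510606552))))))) (T.h (P (nat_lit 0)) (T.h (T.h (P (nat_lit 0)) (T.h (M (nat_lit 2519750003227)) (T.h (P (nat_lit 0)) (M (nat_lit 3600482541663))))) (T.h (P (nat_lit 0)) (T.h (T.h (P (nat_lit 0)) (M (nat_lit 7419726865975))) (P (nat_lit 0))))))) (T.h (T.h (P (nat_lit 0)) (T.h (T.h (M (nat_lit 31421707395)) (T.h (P (nat_lit 0)) (P (nat_lit 3167042702860))))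 (T.h (P (nat_lit 0)) (P (nat_lit 239879908916))))) (T.h (T.h (T.h (P (nat_lit 0)) (T.h (M (nat_lit 108877593911)) (T.h (P (nat_lit 0)) (M (nat_lit 4596289946879))))) (T.h (P (nat_lit 0)) (T.h (T.h (P (nat_lit 0)) (P (nat_lit 6520684066460))) (P (nat_lit 0))))) (T.h (T.h (P (nat_lit 0)) (P (nat_lit 2360381468496))) (T.h (T.h (T.h (P (nat_lit 0)) (M (nat_lit 4323733223343))) (P (nat_lit 0))) (P (nat_lit 0)))))))) (T.h (P (nat_lit 0)) (T.h (T.h (T.h (P (nat_lit 0)) (T.h (T.h (M (nat_lit 853277851)) (T.h (P (nat_lit 0)) (T.h (P (nat_lit 517101875720)) (T.h (P (nat_lit 0)) (M (nat_lit 10490451449703)))))) (T.h (P (nat_lit 0)) (T.h (T.h (M (nat_lit 3281135067)) (T.h (P (nat_lit 0)) (M (nat_lit 11728936800291)))) (T.h (P (nat_lit 0)) (P (nat_lit 177099134264))))))) (T.h (T.h (T.h (P (nat_lit 0)) (T.h (M (nat_lit 61547066119)) (T.h (P (nat_lit 0)) (P (nat_lit 2135946979432))))) (T.h (P (nat_lit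 0)) (T.h (T.h (P (nat_lit 0)) (M (nat_lit 1140669357535))) (P (nat_lit 0))))) (T.h (T.h (P (nat_lit 0)) (T.h (T.h (P (nat_lit 101493187356)) (T.h (P (nat_lit 0)) (M (nat_lit 16535150674511)))) (T.h (P (nat_lit 0)) (M (nat_lit 9464811682223))))) (T.h (T.h (T.h (P (nat_lit 0)) (P (nat_lit 350945110304))) (P (nat_lit 0))) (T.h (T.h (P (nat_lit 0)) (P (nat_lit 2087884895900))) (P (nat_lit 0))))))) (P (nat_lit 0))))))) (T.h (T.h (P (nat_lit 0)) (T.h (T.h (T.h (T.h (P (nat_lit 0)) (T.h (P (nat_lit 837030828)) (T.h (P (nat_lit 0)) (T.h (M (nat_lit 9040398007)) (T.h (P (nat_lit 0)) (P (nat_lit 341523285800))))))) (T.h (P (nat_lit 0)) (T.h (T.h (P (nat_lit 0)) (T.h (M (nat_lit 75861455751)) (T.h (P (nat_lit 0)) (P (nat_lit 3336547516160))))) (T.h (P (nat_lit 0)) (T.h (T.h (P (nat_lit 0)) (P (nat_lit 1642601975732))) (P (nat_lit 0))))))) (T.h (T.h (P (nat_lit 0)) (T.h (T.h (P (nat_lit 6129499224))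 (T.h (P (nat_lit 0)) (T.h (M (nat_lit 17708953247)) (T.h (P (nat_lit 0)) (P (nat_lit 7248531831076)))))) (T.h (P (nat_lit 0)) (T.h (T.h (M (nat_lit 268877713595)) (T.h (P (nat_lit 0)) (M (nat_lit 44586873937867)))) (T.h (P (nat_lit 0)) (P (nat_lit 12072880498328))))))) (T.h (T.h (T.h (P (nat_lit 0)) (T.h (P (nat_lit 24291911364)) (T.h (P (nat_lit 0)) (M (nat_lit 194810440199))))) (T.h (P (nat_lit 0)) (T.h (T.h (P (nat_lit 0)) (M (nat_lit 887687228627))) (P (nat_lit 0))))) (T.h (T.h (P (nat_lit 0)) (T.h (T.h (M (nat_lit 18091339091)) (T.h (P (nat_lit 0)) (P (nat_lit 1254562471460)))) (T.h (P (nat_lit 0)) (P (nat_lit 2434479747360))))) (T.h (T.h (T.h (P (nat_lit 0)) (M (nat_lit 103922797875))) (P (nat_lit 0))) (T.h (T.h (P (nat_lit 0)) (M (nat_lit 647143674991))) (P (nat_lit 0)))))))) (T.h (P (nat_lit 0)) (T.h (T.h (T.h (T.h (P (nat_lit 0)) (T.h (M (nat_lit 853277851)) (T.h (P (nat_lit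 0)) (T.h (M (nat_lit 3281135067)) (T.h (P (nat_lit 0)) (P (nat_lit 177099134264))))))) (T.h (P (nat_lit 0)) (T.h (T.h (P (nat_lit 0)) (T.h (P (nat_lit 517101875720)) (T.h (P (nat_lit 0)) (M (nat_lit 11728936800291))))) (T.h (P (nat_lit 0)) (T.h (T.h (P (nat_lit 0)) (M (nat_lit 10490451449703))) (P (nat_lit 0))))))) (T.h (T.h (P (nat_lit 0)) (T.h (T.h (M (nat_lit 61547066119)) (T.h (P (nat_lit 0)) (M (nat_lit 1140669357535)))) (T.h (P (nat_lit 0)) (P (nat_lit 2135946979432))))) (T.h (T.h (T.h (P (nat_lit 0)) (T.h (P (nat_lit 101493187356)) (T.h (P (nat_lit 0)) (M (nat_lit 9464811682223))))) (T.h (P (nat_lit 0)) (T.h (T.h (P (nat_lit 0)) (M (nat_lit 16535150674511))) (P (nat_lit 0))))) (T.h (T.h (P (nat_lit 0)) (P (nat_lit 350945110304))) (T.h (T.h (T.h (P (nat_lit 0)) (P (nat_lit 2087884895900))) (P (nat_lit 0))) (P (nat_lit 0))))))) (P (nat_lit 0)))))) en00_0))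
def en00_2 : T ℤ := (T.h (T.h (P (nat_lit 0)) (T.h (P (nat_lit 0)) (T.h (P (nat_lit 0)) (T.h (P (nat_lit 0)) (T.h (T.h (T.h (P (nat_lit 0)) (T.h (T.h (P (nat_lit 837030828)) (T.h (P (nat_lit 0)) (T.h (M (nat_lit 75861455751)) (T.h (P (nat_lit 0)) (P (nat_lit 1642601975732)))))) (T.h (P (nat_lit 0)) (T.h (T.h (M (nat_lit 9040398007)) (T.h (P (nat_lit 0)) (P (nat_lit 3336547516160)))) (T.h (P (nat_lit 0)) (P (nat_lit 341523285800))))))) (T.h (T.h (T.h (P (nat_lit 0)) (T.h (P (nat_lit 6129499224)) (T.h (P (nat_lit 0)) (T.h (M (nat_lit 268877713595)) (T.h (P (nat_lit 0)) (P (nat_lit 12072880498328))))))) (T.h (P (nat_lit 0)) (T.h (T.h (P (nat_lit 0)) (T.h (M (nat_lit 17708953247)) (T.h (P (nat_lit 0)) (M (nat_lit 44586873937867))))) (T.h (P (nat_lit 0)) (T.h (T.h (P (nat_lit 0)) (P (nat_lit 7248531831076))) (P (nat_lit 0))))))) (T.h (T.h (P (nat_lit 0)) (T.h (T.h (P (nat_lit 24291911364))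 (T.h (P (nat_lit 0)) (M (nat_lit 887687228627)))) (T.h (P (nat_lit 0)) (M (nat_lit 194810440199))))) (T.h (T.h (T.h (P (nat_lit 0)) (T.h (M (nat_lit 18091339091)) (T.h (P (nat_lit 0)) (P (nat_lit 2434479747360))))) (T.h (P (nat_lit 0)) (T.h (T.h (P (nat_lit 0)) (P (nat_lit 1254562471460))) (P (nat_lit 0))))) (T.h (T.h (P (nat_lit 0)) (M (nat_lit 103922797875))) (T.h (T.h (T.h (P (nat_lit 0)) (M (nat_lit 647143674991))) (P (nat_lit 0))) (P (nat_lit 0)))))))) (T.h (P (nat_lit 0)) (T.h (T.h (T.h (P (nat_lit 0)) (T.h (T.h (P (nat_lit 1386234764)) (T.h (P (nat_lit 0)) (T.h (M (nat_lit 110918382391)) (T.h (P (nat_lit 0)) (P (nat_lit 712037044124)))))) (T.h (P (nat_lit 0)) (T.h (T.h (M (nat_lit 4259221043)) (T.h (P (nat_lit 0)) (P (nat_lit 2198697751020)))) (T.h (P (nat_lit 0)) (M (nat_lit 272600244187))))))) (T.h (T.h (T.h (P (nat_lit 0)) (T.h (M (nat_lit 4523988151)) (T.h (P (nat_lit 0)) (P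 (nat_lit 921811532720))))) (T.h (P (nat_lit 0)) (T.h (T.h (P (nat_lit 0)) (P (nat_lit 328362124904))) (P (nat_lit 0))))) (T.h (T.h (P (nat_lit 0)) (T.h (T.h (P (nat_lit 17880124416)) (T.h (P (nat_lit 0)) (P (nat_lit 385135342236)))) (T.h (P (nat_lit 0)) (P (nat_lit 2206594567416))))) (T.h (T.h (T.h (P (nat_lit 0)) (P (nat_lit 493240479632))) (P (nat_lit 0))) (T.h (T.h (P (nat_lit 0)) (P (nat_lit 1382834899960))) (P (nat_lit 0))))))) (P (nat_lit 0))))))))) (T.h (T.h (P (nat_lit 0)) (T.h (P (nat_lit 0)) (T.h (P (nat_lit 0)) (T.h (T.h (T.h (T.h (P (nat_lit 0)) (T.h (P (nat_lit 930046504)) (T.h (P (nat_lit 0)) (T.h (M (nat_lit 37910403251)) (T.h (P (nat_lit 0)) (P (nat_lit 423919838020))))))) (T.h (P (nat_lit 0)) (T.h (T.h (P (nat_lit 0)) (T.h (M (nat_lit 36557436891)) (T.h (P (nat_lit 0)) (M (nat_lit 881292108815))))) (T.h (P (nat_lit 0)) (T.h (T.h (P (nat_lit 0)) (M (nat_lit 227185590531)))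 (P (nat_lit 0))))))) (T.h (T.h (P (nat_lit 0)) (T.h (T.h (M (nat_lit 8142049747)) (T.h (P (nat_lit 0)) (T.h (M (nat_lit 2519750003227)) (T.h (P (nat_lit 0)) (M (nat_lit 7419726865975)))))) (T.h (P (nat_lit 0)) (T.h (T.h (P (nat_lit 63811964336)) (T.h (P (nat_lit 0)) (M (nat_lit 3600482541663)))) (T.h (P (nat_lit 0)) (P (nat_lit 8762510606552))))))) (T.h (T.h (T.h (P (nat_lit 0)) (T.h (M (nat_lit 31421707395)) (T.h (P (nat_lit 0)) (P (nat_lit 239879908916))))) (T.h (P (nat_lit 0)) (T.h (T.h (P (nat_lit 0)) (P (nat_lit 3167042702860))) (P (nat_lit 0))))) (T.h (T.h (P (nat_lit 0)) (T.h (T.h (M (nat_lit 108877593911)) (T.h (P (nat_lit 0)) (P (nat_lit 6520684066460)))) (T.h (P (nat_lit 0)) (M (nat_lit 4596289946879))))) (T.h (T.h (T.h (P (nat_lit 0)) (P (nat_lit 2360381468496))) (P (nat_lit 0))) (T.h (T.h (P (nat_lit 0)) (M (nat_lit 4323733223343))) (P (nat_lit 0)))))))) (T.h (P (nat_lit 0))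 (T.h (T.h (T.h (T.h (P (nat_lit 0)) (T.h (P (nat_lit 2544053600)) (T.h (P (nat_lit 0)) (T.h (M (nat_lit 220385884555)) (T.h (P (nat_lit 0)) (P (nat_lit 10014458006728))))))) (T.h (P (nat_lit 0)) (T.h (T.h (P (nat_lit 0)) (T.h (P (nat_lit 128267712748)) (T.h (P (nat_lit 0)) (P (nat_lit 27640559782600))))) (T.h (P (nat_lit 0)) (T.h (T.h (P (nat_lit 0)) (M (nat_lit 171771494043))) (P (nat_lit 0))))))) (T.h (T.h (P (nat_lit 0)) (T.h (T.h (P (nat_lit 20364709200)) (T.h (P (nat_lit 0)) (M (nat_lit 142353967263)))) (T.h (P (nat_lit 0)) (M (nat_lit 93553363535))))) (T.h (T.h (T.h (P (nat_lit 0)) (T.h (M (nat_lit 47319413639)) (T.h (P (nat_lit 0)) (P (nat_lit 6801356168232))))) (T.h (P (nat_lit 0)) (T.h (T.h (P (nat_lit 0)) (P (nat_lit 2100277818228))) (P (nat_lit 0))))) (T.h (T.h (P (nat_lit 0)) (M (nat_lit 891975652239))) (T.h (T.h (T.h (P (nat_lit 0)) (M (nat_lit 3718981274959))) (P (nat_lit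 0))) (P (nat_lit 0))))))) (P (nat_lit 0)))))))) en00_1))
def en00_3 : T ℤ := (T.h (T.h (T.h (T.h (P (nat_lit 0)) (T.h (T.h (P (nat_lit 0)) (T.h (P (nat_lit 4621543744)) (T.h (P (nat_lit 0)) (T.h (M (nat_lit 56941119127)) (T.h (P (nat_lit 0)) (P (nat_lit 434986714720))))))) (T.h (P (nat_lit 0)) (T.h (T.h (P (nat_lit 0)) (T.h (P (nat_lit 9971007648)) (T.h (P (nat_lit 0)) (P (nat_lit 1373316520872))))) (T.h (P (nat_lit 0)) (T.h (T.h (P (nat_lit 0)) (M (nat_lit 2919225092791))) (P (nat_lit 0)))))))) (T.h (T.h (T.h (M (nat_lit 1453650807)) (T.h (P (nat_lit 0)) (T.h (P (nat_lit 5961629376)) (T.h (P (nat_lit 0)) (M (nat_lit 104501112103)))))) (T.h (P (nat_lit 0)) (T.h (T.h (M (nat_lit 11903515911)) (T.h (P (nat_lit 0)) (M (nat_lit 543075312311)))) (T.h (P (nat_lit 0)) (M (nat_lit 495762922911)))))) (T.h (T.h (P (nat_lit 0)) (T.h (T.h (P (nat_lit 0)) (T.h (M (nat_lit 139255527831)) (T.h (P (nat_lit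 0)) (P (nat_lit 538424734544))))) (T.h (P (nat_lit 0)) (T.h (T.h (P (nat_lit 0)) (P (nat_lit 11065306688200))) (P (nat_lit 0)))))) (T.h (T.h (T.h (M (nat_lit 14659728615)) (T.h (P (nat_lit 0)) (M (nat_lit 206585958815)))) (T.h (P (nat_lit 0)) (M (nat_lit 1719160305503)))) (T.h (T.h (P (nat_lit 0)) (T.h (T.h (P (nat_lit 0)) (M (nat_lit 3020516469167))) (P (nat_lit 0)))) (M (nat_lit 100658889007))))))) (T.h (P (nat_lit 0)) (T.h (T.h (T.h (P (nat_lit 0)) (T.h (T.h (P (nat_lit 0)) (T.h (M (nat_lit 2539532699)) (T.h (P (nat_lit 0)) (P (nat_lit 336900469608))))) (T.h (P (nat_lit 0)) (T.h (T.h (P (nat_lit 0)) (P (nat_lit 232819168108))) (P (nat_lit 0)))))) (T.h (T.h (T.h (M (nat_lit 7756151)) (T.h (P (nat_lit 0)) (T.h (P (nat_lit 19500471624)) (T.h (P (nat_lit 0)) (M (nat_lit 8143446783887)))))) (T.h (P (nat_lit 0)) (T.h (T.h (M (nat_lit 311818576111)) (T.h (P (nat_lit 0)) (P (nat_lit 3889298751560))))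 (T.h (P (nat_lit 0)) (P (nat_lit 19492365755592)))))) (T.h (T.h (P (nat_lit 0)) (T.h (T.h (P (nat_lit 0)) (M (nat_lit 1398284405111))) (P (nat_lit 0)))) (T.h (T.h (T.h (M (nat_lit 7444705183)) (T.h (P (nat_lit 0)) (P (nat_lit 17007004678784)))) (T.h (P (nat_lit 0)) (M (nat_lit 3170630412751)))) (T.h (P (nat_lit 0)) (P (nat_lit 303317905920))))))) (P (nat_lit 0))))) (T.h (T.h (P (nat_lit 0)) (T.h (T.h (T.h (T.h (M (nat_lit 83736367)) (T.h (P (nat_lit 0)) (T.h (M (nat_lit 16368048543)) (T.h (P (nat_lit 0)) (P (nat_lit 82539372228)))))) (T.h (P (nat_lit 0)) (T.h (T.h (P (nat_lit 23321423296)) (T.h (P (nat_lit 0)) (P (nat_lit 264265758324)))) (T.h (P (nat_lit 0)) (M (nat_lit 3702125891855)))))) (T.h (T.h (P (nat_lit 0)) (T.h (T.h (P (nat_lit 0)) (T.h (P (nat_lit 32537669688)) (T.h (P (nat_lit 0)) (P (nat_lit 6873267020304))))) (T.h (P (nat_lit 0)) (T.h (T.h (P (nat_lit 0)) (P (nat_lit 10445598143256)))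 (P (nat_lit 0)))))) (T.h (T.h (T.h (M (nat_lit 1173324263)) (T.h (P (nat_lit 0)) (M (nat_lit 840327684359)))) (T.h (P (nat_lit 0)) (M (nat_lit 758880494975)))) (T.h (T.h (P (nat_lit 0)) (T.h (T.h (P (nat_lit 0)) (M (nat_lit 12837878365951))) (P (nat_lit 0)))) (P (nat_lit 21296384560)))))) (P (nat_lit 0)))) (T.h (T.h (T.h (T.h (P (nat_lit 0)) (T.h (T.h (P (nat_lit 0)) (T.h (P (nat_lit 4262707056)) (T.h (P (nat_lit 0)) (P (nat_lit 30167618772))))) (T.h (P (nat_lit 0)) (T.h (T.h (P (nat_lit 0)) (M (nat_lit 240155944531))) (P (nat_lit 0)))))) (T.h (T.h (T.h (P (nat_lit 661660032)) (T.h (P (nat_lit 0)) (T.h (M (nat_lit 1938746759)) (T.h (P (nat_lit 0)) (M (nat_lit 82330307239)))))) (T.h (P (nat_lit 0)) (T.h (T.h (P (nat_lit 133629715928)) (T.h (P (nat_lit 0)) (M (nat_lit 4636974764735)))) (T.h (P (nat_lit 0)) (M (nat_lit 5187544113639)))))) (T.h (T.h (P (nat_lit 0)) (T.h (T.h (P (nat_lit 0))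 (P (nat_lit 146308206660))) (P (nat_lit 0)))) (T.h (T.h (T.h (P (nat_lit 4356508672)) (T.h (P (nat_lit 0)) (M (nat_lit 2946292336159)))) (T.h (P (nat_lit 0)) (M (nat_lit 2236427623583)))) (T.h (P (nat_lit 0)) (P (nat_lit 74354753592))))))) (P (nat_lit 0))) (P (nat_lit 0)))))
def en00_4 : T ℤ := (T.h (T.h (P (nat_lit 0)) (T.h (P (nat_lit 0)) (T.h (T.h (T.h (P (nat_lit 0)) (T.h (T.h (P (nat_lit 0)) (T.h (P (nat_lit 5809191104)) (T.h (P (nat_lit 0)) (T.h (M (nat_lit 133343228287)) (T.h (P (nat_lit 0)) (P (nat_lit 7858766004360))))))) (T.h (P (nat_lit 0)) (T.h (T.h (P (nat_lit 0)) (T.h (M (nat_lit 133343228287)) (T.h (P (nat_lit 0)) (P (nat_lit 7689968280048))))) (T.h (P (nat_lit 0)) (T.h (T.h (P (nat_lit 0)) (P (nat_lit 7858766004360))) (P (nat_lit 0)))))))) (T.h (T.h (T.h (M (nat_lit 1664597535)) (T.h (P (nat_lit 0)) (T.h (P (nat_lit 7266863384)) (T.h (P (nat_lit 0)) (M (nat_lit 1121026655423))))))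 (T.h (P (nat_lit 0)) (T.h (T.h (P (nat_lit 7266863384)) (T.h (P (nat_lit 0)) (P (nat_lit 6971840029840)))) (T.h (P (nat_lit 0)) (M (nat_lit 1121026655423)))))) (T.h (T.h (P (nat_lit 0)) (T.h (T.h (P (nat_lit 0)) (T.h (P (nat_lit 40851232592)) (T.h (P (nat_lit 0)) (P (nat_lit 2275048397632))))) (T.h (P (nat_lit 0)) (T.h (T.h (P (nat_lit 0)) (P (nat_lit 2275048397632))) (P (nat_lit 0)))))) (T.h (T.h (T.h (P (nat_lit 3069243936)) (T.h (P (nat_lit 0)) (P (nat_lit 1344231294184)))) (T.h (P (nat_lit 0)) (P (nat_lit 1344231294184)))) (T.h (T.h (P (nat_lit 0)) (T.h (T.h (P (nat_lit 0)) (M (nat_lit 12490739568271))) (P (nat_lit 0)))) (M (nat_lit 70508865023))))))) (T.h (P (nat_lit 0)) (T.h (T.h (T.h (P (nat_lit 0)) (T.h (T.h (P (nat_lit 0)) (T.h (M (nat_lit 2539532699)) (T.h (P (nat_lit 0)) (P (nat_lit 232819168108))))) (T.h (P (nat_lit 0)) (T.h (T.h (P (nat_lit 0)) (P (nat_lit 336900469608)))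 (P (nat_lit 0)))))) (T.h (T.h (T.h (M (nat_lit 7756151)) (T.h (P (nat_lit 0)) (T.h (M (nat_lit 311818576111)) (T.h (P (nat_lit 0)) (P (nat_lit 19492365755592)))))) (T.h (P (nat_lit 0)) (T.h (T.h (P (nat_lit 19500471624)) (T.h (P (nat_lit 0)) (P (nat_lit 3889298751560)))) (T.h (P (nat_lit 0)) (M (nat_lit 8143446783887)))))) (T.h (T.h (P (nat_lit 0)) (T.h (T.h (P (nat_lit 0)) (M (nat_lit 1398284405111))) (P (nat_lit 0)))) (T.h (T.h (T.h (M (nat_lit 7444705183)) (T.h (P (nat_lit 0)) (M (nat_lit 3170630412751)))) (T.h (P (nat_lit 0)) (P (nat_lit 17007004678784)))) (T.h (P (nat_lit 0)) (P (nat_lit 303317905920))))))) (P (nat_lit 0))))))) (T.h (T.h (P (nat_lit 0)) (T.h (T.h (T.h (T.h (M (nat_lit 61233319)) (T.h (P (nat_lit 0)) (T.h (P (nat_lit 1429951496)) (T.h (P (nat_lit 0)) (T.h (M (nat_lit 262838440383)) (T.h (P (nat_lit 0)) (M (nat_lit 1023327632383)))))))) (T.h (P (nat_lit 0)) (T.h (T.h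 (P (nat_lit 438792664)) (T.h (P (nat_lit 0)) (T.h (M (nat_lit 297407477615)) (T.h (P (nat_lit 0)) (M (nat_lit 1934965342815)))))) (T.h (P (nat_lit 0)) (T.h (T.h (P (nat_lit 57626187912)) (T.h (P (nat_lit 0)) (M (nat_lit 7634109259199)))) (T.h (P (nat_lit 0)) (P (nat_lit 4534272639296)))))))) (T.h (T.h (P (nat_lit 0)) (T.h (T.h (P (nat_lit 0)) (T.h (P (nat_lit 155357451752)) (T.h (P (nat_lit 0)) (M (nat_lit 9857523255343))))) (T.h (P (nat_lit 0)) (T.h (T.h (P (nat_lit 0)) (P (nat_lit 24265744767520))) (P (nat_lit 0)))))) (T.h (T.h (T.h (P (nat_lit 705910016)) (T.h (P (nat_lit 0)) (T.h (M (nat_lit 125346681447)) (T.h (P (nat_lit 0)) (M (nat_lit 11570956240671)))))) (T.h (P (nat_lit 0)) (T.h (T.h (P (nat_lit 900422624944)) (T.h (P (nat_lit 0)) (M (nat_lit 10494821640599)))) (T.h (P (nat_lit 0)) (P (nat_lit 24244904937088)))))) (T.h (T.h (P (nat_lit 0)) (T.h (T.h (P (nat_lit 0)) (P (nat_lit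 612749347040))) (P (nat_lit 0)))) (T.h (T.h (T.h (P (nat_lit 28981455320)) (T.h (P (nat_lit 0)) (M (nat_lit 1803690216903)))) (T.h (P (nat_lit 0)) (M (nat_lit 3139799669255)))) (T.h (P (nat_lit 0)) (P (nat_lit 148875374016)))))))) (T.h (P (nat_lit 0)) (T.h (T.h (T.h (T.h (P (nat_lit 54369312)) (T.h (P (nat_lit 0)) (T.h (M (nat_lit 6687461507)) (T.h (P (nat_lit 0)) (P (nat_lit 1556132710064)))))) (T.h (P (nat_lit 0)) (T.h (T.h (M (nat_lit 6687461507)) (T.h (P (nat_lit 0)) (P (nat_lit 1165926370112)))) (T.h (P (nat_lit 0)) (P (nat_lit 1556132710064)))))) (T.h (T.h (P (nat_lit 0)) (T.h (T.h (P (nat_lit 0)) (T.h (P (nat_lit 15891646304)) (T.h (P (nat_lit 0)) (M (nat_lit 17788629254343))))) (T.h (P (nat_lit 0)) (T.h (T.h (P (nat_lit 0)) (M (nat_lit 17788629254343))) (P (nat_lit 0)))))) (T.h (T.h (T.h (M (nat_lit 87888383)) (T.h (P (nat_lit 0)) (P (nat_lit 1721387150124)))) (T.h (P (nat_lit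 0)) (P (nat_lit 1721387150124)))) (T.h (T.h (P (nat_lit 0)) (T.h (T.h (P (nat_lit 0)) (P (nat_lit 27318679898720))) (P (nat_lit 0)))) (M (nat_lit 93059784759)))))) (P (nat_lit 0)))))) en00_3))
def en00_5 : T ℤ := (T.h (T.h (P (nat_lit 0)) (T.h (P (nat_lit 0)) (T.h (P (nat_lit 0)) (T.h (P (nat_lit 0)) (T.h (T.h (T.h (P (nat_lit 0)) (T.h (T.h (P (nat_lit 0)) (T.h (P (nat_lit 4621543744)) (T.h (P (nat_lit 0)) (T.h (P (nat_lit 9971007648)) (T.h (P (nat_lit 0)) (M (nat_lit 2919225092791))))))) (T.h (P (nat_lit 0)) (T.h (T.h (P (nat_lit 0)) (T.h (M (nat_lit 56941119127)) (T.h (P (nat_lit 0)) (P (nat_lit 1373316520872))))) (T.h (P (nat_lit 0)) (T.h (T.h (P (nat_lit 0)) (P (nat_lit 434986714720))) (P (nat_lit 0)))))))) (T.h (T.h (T.h (M (nat_lit 1453650807)) (T.h (P (nat_lit 0)) (T.h (M (nat_lit 11903515911)) (T.h (P (nat_lit 0)) (M (nat_lit 495762922911)))))) (T.h (P (nat_lit 0)) (T.h (T.h (P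 (nat_lit 5961629376)) (T.h (P (nat_lit 0)) (M (nat_lit 543075312311)))) (T.h (P (nat_lit 0)) (M (nat_lit 104501112103)))))) (T.h (T.h (P (nat_lit 0)) (T.h (T.h (P (nat_lit 0)) (T.h (M (nat_lit 139255527831)) (T.h (P (nat_lit 0)) (P (nat_lit 11065306688200))))) (T.h (P (nat_lit 0)) (T.h (T.h (P (nat_lit 0)) (P (nat_lit 538424734544))) (P (nat_lit 0)))))) (T.h (T.h (T.h (M (nat_lit 14659728615)) (T.h (P (nat_lit 0)) (M (nat_lit 1719160305503)))) (T.h (P (nat_lit 0)) (M (nat_lit 206585958815)))) (T.h (T.h (P (nat_lit 0)) (T.h (T.h (P (nat_lit 0)) (M (nat_lit 3020516469167))) (P (nat_lit 0)))) (M (nat_lit 100658889007))))))) (T.h (P (nat_lit 0)) (T.h (T.h (T.h (P (nat_lit 0)) (T.h (T.h (P (nat_lit 0)) (T.h (P (nat_lit 4262707056)) (T.h (P (nat_lit 0)) (M (nat_lit 240155944531))))) (T.h (P (nat_lit 0)) (T.h (T.h (P (nat_lit 0)) (P (nat_lit 30167618772))) (P (nat_lit 0)))))) (T.h (T.h (T.h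 (P (nat_lit 661660032)) (T.h (P (nat_lit 0)) (T.h (P (nat_lit 133629715928)) (T.h (P (nat_lit 0)) (M (nat_lit 5187544113639)))))) (T.h (P (nat_lit 0)) (T.h (T.h (M (nat_lit 1938746759)) (T.h (P (nat_lit 0)) (M (nat_lit 4636974764735)))) (T.h (P (nat_lit 0)) (M (nat_lit 82330307239)))))) (T.h (T.h (P (nat_lit 0)) (T.h (T.h (P (nat_lit 0)) (P (nat_lit 146308206660))) (P (nat_lit 0)))) (T.h (T.h (T.h (P (nat_lit 4356508672)) (T.h (P (nat_lit 0)) (M (nat_lit 2236427623583)))) (T.h (P (nat_lit 0)) (M (nat_lit 2946292336159)))) (T.h (P (nat_lit 0)) (P (nat_lit 74354753592))))))) (P (nat_lit 0))))))))) (T.h (T.h (P (nat_lit 0)) (T.h (P (nat_lit 0)) (T.h (P (nat_lit 0)) (T.h (T.h (T.h (T.h (M (nat_lit 61233319)) (T.h (P (nat_lit 0)) (T.h (P (nat_lit 438792664)) (T.h (P (nat_lit 0)) (T.h (P (nat_lit 57626187912)) (T.h (P (nat_lit 0)) (P (nat_lit 4534272639296)))))))) (T.h (P (nat_lit 0)) (T.h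 (T.h (P (nat_lit 1429951496)) (T.h (P (nat_lit 0)) (T.h (M (nat_lit 297407477615)) (T.h (P (nat_lit 0)) (M (nat_lit 7634109259199)))))) (T.h (P (nat_lit 0)) (T.h (T.h (M (nat_lit 262838440383)) (T.h (P (nat_lit 0)) (M (nat_lit 1934965342815)))) (T.h (P (nat_lit 0)) (M (nat_lit 1023327632383)))))))) (T.h (T.h (P (nat_lit 0)) (T.h (T.h (P (nat_lit 0)) (T.h (P (nat_lit 155357451752)) (T.h (P (nat_lit 0)) (P (nat_lit 24265744767520))))) (T.h (P (nat_lit 0)) (T.h (T.h (P (nat_lit 0)) (M (nat_lit 9857523255343))) (P (nat_lit 0)))))) (T.h (T.h (T.h (P (nat_lit 705910016)) (T.h (P (nat_lit 0)) (T.h (P (nat_lit 900422624944)) (T.h (P (nat_lit 0)) (P (nat_lit 24244904937088)))))) (T.h (P (nat_lit 0)) (T.h (T.h (M (nat_lit 125346681447)) (T.h (P (nat_lit 0)) (M (nat_lit 10494821640599)))) (T.h (P (nat_lit 0)) (M (nat_lit 11570956240671)))))) (T.h (T.h (P (nat_lit 0)) (T.h (T.h (P (nat_lit 0)) (P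 (nat_lit 612749347040))) (P (nat_lit 0)))) (T.h (T.h (T.h (P (nat_lit 28981455320)) (T.h (P (nat_lit 0)) (M (nat_lit 3139799669255)))) (T.h (P (nat_lit 0)) (M (nat_lit 1803690216903)))) (T.h (P (nat_lit 0)) (P (nat_lit 148875374016)))))))) (T.h (P (nat_lit 0)) (T.h (T.h (T.h (T.h (M (nat_lit 83736367)) (T.h (P (nat_lit 0)) (T.h (P (nat_lit 23321423296)) (T.h (P (nat_lit 0)) (M (nat_lit 3702125891855)))))) (T.h (P (nat_lit 0)) (T.h (T.h (M (nat_lit 16368048543)) (T.h (P (nat_lit 0)) (P (nat_lit 264265758324)))) (T.h (P (nat_lit 0)) (P (nat_lit 82539372228)))))) (T.h (T.h (P (nat_lit 0)) (T.h (T.h (P (nat_lit 0)) (T.h (P (nat_lit 32537669688)) (T.h (P (nat_lit 0)) (P (nat_lit 10445598143256))))) (T.h (P (nat_lit 0)) (T.h (T.h (P (nat_lit 0)) (P (nat_lit 6873267020304))) (P (nat_lit 0)))))) (T.h (T.h (T.h (M (nat_lit 1173324263)) (T.h (P (nat_lit 0)) (M (nat_lit 758880494975)))) (T.h (P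 (nat_lit 0)) (M (nat_lit 840327684359)))) (T.h (T.h (P (nat_lit 0)) (T.h (T.h (P (nat_lit 0)) (M (nat_lit 12837878365951))) (P (nat_lit 0)))) (P (nat_lit 21296384560)))))) (P (nat_lit 0)))))))) en00_4))
def en00_6 : T ℤ := (T.h (T.h (T.h (T.h (P (nat_lit 0)) (T.h (T.h (P (nat_lit 2272479324)) (T.h (P (nat_lit 0)) (T.h (P (nat_lit 14437557444)) (T.h (P (nat_lit 0)) (M (nat_lit 589845744287)))))) (T.h (P (nat_lit 0)) (T.h (T.h (P (nat_lit 84080304492)) (T.h (P (nat_lit 0)) (M (nat_lit 979658294471)))) (T.h (P (nat_lit 0)) (M (nat_lit 2233107816479))))))) (T.h (T.h (T.h (P (nat_lit 0)) (T.h (M (nat_lit 8469530915)) (T.h (P (nat_lit 0)) (T.h (P (nat_lit 84540431436)) (T.h (P (nat_lit 0)) (M (nat_lit 765918299579))))))) (T.h (P (nat_lit 0)) (T.h (T.h (P (nat_lit 0)) (T.h (M (nat_lit 39391006715)) (T.h (P (nat_lit 0)) (P (nat_lit 6729752577516))))) (T.h (P (nat_lit 0)) (T.h (T.h (P (nat_lit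 0)) (M (nat_lit 4861217574407))) (P (nat_lit 0))))))) (T.h (T.h (P (nat_lit 0)) (T.h (T.h (M (nat_lit 41884480991)) (T.h (P (nat_lit 0)) (P (nat_lit 405559583472)))) (T.h (P (nat_lit 0)) (P (nat_lit 6271300776084))))) (T.h (T.h (T.h (P (nat_lit 0)) (T.h (P (nat_lit 69962156448)) (T.h (P (nat_lit 0)) (P (nat_lit 1297197345852))))) (T.h (P (nat_lit 0)) (T.h (T.h (P (nat_lit 0)) (P (nat_lit 4833764675268))) (P (nat_lit 0))))) (T.h (T.h (P (nat_lit 0)) (P (nat_lit 2292329051364))) (T.h (T.h (T.h (P (nat_lit 0)) (M (nat_lit 1426287192587))) (P (nat_lit 0))) (P (nat_lit 0)))))))) (T.h (P (nat_lit 0)) (T.h (T.h (T.h (P (nat_lit 0)) (T.h (T.h (M (nat_lit 3404062899)) (T.h (P (nat_lit 0)) (T.h (P (nat_lit 381207340400)) (T.h (P (nat_lit 0)) (M (nat_lit 9517203054111)))))) (T.h (P (nat_lit 0)) (T.h (T.h (P (nat_lit 54131871108)) (T.h (P (nat_lit 0)) (M (nat_lit 929841571247)))) (T.h (P (nat_lit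 0)) (P (nat_lit 1441899564188))))))) (T.h (T.h (T.h (P (nat_lit 0)) (T.h (P (nat_lit 93016588640)) (T.h (P (nat_lit 0)) (P (nat_lit 1785904983408))))) (T.h (P (nat_lit 0)) (T.h (T.h (P (nat_lit 0)) (M (nat_lit 1723460217727))) (P (nat_lit 0))))) (T.h (T.h (P (nat_lit 0)) (T.h (T.h (M (nat_lit 1854472946579)) (T.h (P (nat_lit 0)) (M (nat_lit 41442311729567)))) (T.h (P (nat_lit 0)) (P (nat_lit 17268108864936))))) (T.h (T.h (T.h (P (nat_lit 0)) (M (nat_lit 6421462754287))) (P (nat_lit 0))) (T.h (T.h (P (nat_lit 0)) (P (nat_lit 693514336080))) (P (nat_lit 0))))))) (P (nat_lit 0))))) (T.h (T.h (P (nat_lit 0)) (T.h (T.h (T.h (T.h (P (nat_lit 0)) (T.h (P (nat_lit 4150905476)) (T.h (P (nat_lit 0)) (T.h (P (nat_lit 79650662868)) (T.h (P (nat_lit 0)) (M (nat_lit 1176144971027))))))) (T.h (P (nat_lit 0)) (T.h (T.h (P (nat_lit 0)) (T.h (P (nat_lit 246676789156)) (T.h (P (nat_lit 0)) (P (nat_lit 383516799004)))))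 (T.h (P (nat_lit 0)) (T.h (T.h (P (nat_lit 0)) (M (nat_lit 8434988006123))) (P (nat_lit 0))))))) (T.h (T.h (P (nat_lit 0)) (T.h (T.h (P (nat_lit 57311762632)) (T.h (P (nat_lit 0)) (M (nat_lit 1071792865487)))) (T.h (P (nat_lit 0)) (M (nat_lit 4511988711983))))) (T.h (T.h (T.h (P (nat_lit 0)) (T.h (M (nat_lit 15295814615)) (T.h (P (nat_lit 0)) (P (nat_lit 11564376874272))))) (T.h (P (nat_lit 0)) (T.h (T.h (P (nat_lit 0)) (P (nat_lit 3279457049388))) (P (nat_lit 0))))) (T.h (T.h (P (nat_lit 0)) (P (nat_lit 1705106583392))) (T.h (T.h (T.h (P (nat_lit 0)) (P (nat_lit 4545923557880))) (P (nat_lit 0))) (P (nat_lit 0))))))) (P (nat_lit 0)))) (T.h (T.h (T.h (T.h (P (nat_lit 0)) (T.h (T.h (M (nat_lit 4000493055)) (T.h (P (nat_lit 0)) (T.h (P (nat_lit 17245347148)) (T.h (P (nat_lit 0)) (P (nat_lit 287514642520)))))) (T.h (P (nat_lit 0)) (T.h (T.h (P (nat_lit 233309100588)) (T.h (P (nat_lit 0))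 (P (nat_lit 3030898507336)))) (T.h (P (nat_lit 0)) (P (nat_lit 9625259696476))))))) (T.h (T.h (T.h (P (nat_lit 0)) (T.h (P (nat_lit 20584248128)) (T.h (P (nat_lit 0)) (M (nat_lit 56883346431))))) (T.h (P (nat_lit 0)) (T.h (T.h (P (nat_lit 0)) (P (nat_lit 1389512799648))) (P (nat_lit 0))))) (T.h (T.h (P (nat_lit 0)) (T.h (T.h (P (nat_lit 169300698192)) (T.h (P (nat_lit 0)) (M (nat_lit 2941853600579)))) (T.h (P (nat_lit 0)) (M (nat_lit 13090130961083))))) (T.h (T.h (T.h (P (nat_lit 0)) (P (nat_lit 789862153744))) (P (nat_lit 0))) (T.h (T.h (P (nat_lit 0)) (P (nat_lit 3535400006560))) (P (nat_lit 0))))))) (P (nat_lit 0))) (P (nat_lit 0)))))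
def en00_7 : T ℤ := (T.h (T.h (P (nat_lit 0)) (T.h (P (nat_lit 0)) (T.h (T.h (T.h (P (nat_lit 0)) (T.h (T.h (P (nat_lit 2496896328)) (T.h (P (nat_lit 0)) (T.h (M (nat_lit 8665692047)) (T.h (P (nat_lit 0)) (M (nat_lit 185665795715)))))) (T.h (P (nat_lit 0)) (T.h (T.h (M (nat_lit 4603865771)) (T.h (P (nat_lit 0)) (M (nat_lit 2603227501355)))) (T.h (P (nat_lit 0)) (P (nat_lit 105763299996))))))) (T.h (T.h (T.h (P (nat_lit 0)) (T.h (M (nat_lit 8713786979)) (T.h (P (nat_lit 0)) (T.h (P (nat_lit 138756324564)) (T.h (P (nat_lit 0)) (M (nat_lit 11780872937159))))))) (T.h (P (nat_lit 0)) (T.h (T.h (P (nat_lit 0)) (T.h (M (nat_lit 61276853087)) (T.h (P (nat_lit 0)) (M (nat_lit 17817638799671))))) (T.h (P (nat_lit 0)) (T.h (T.h (P (nat_lit 0)) (P (nat_lit 18736109134980))) (P (nat_lit 0))))))) (T.h (T.h (P (nat_lit 0)) (T.h (T.h (P (nat_lit 19795848996)) (T.h (P (nat_lit 0)) (M (nat_lit 10457760065195))))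 (T.h (P (nat_lit 0)) (P (nat_lit 12804065837904))))) (T.h (T.h (T.h (P (nat_lit 0)) (T.h (P (nat_lit 1035017389704)) (T.h (P (nat_lit 0)) (M (nat_lit 11534952895955))))) (T.h (P (nat_lit 0)) (T.h (T.h (P (nat_lit 0)) (P (nat_lit 223718527320684))) (P (nat_lit 0))))) (T.h (T.h (P (nat_lit 0)) (P (nat_lit 3781601322120))) (T.h (T.h (T.h (P (nat_lit 0)) (M (nat_lit 20630155639103))) (P (nat_lit 0))) (P (nat_lit 0)))))))) (T.h (P (nat_lit 0)) (T.h (T.h (T.h (P (nat_lit 0)) (T.h (T.h (P (nat_lit 4150905476)) (T.h (P (nat_lit 0)) (T.h (P (nat_lit 246676789156)) (T.h (P (nat_lit 0)) (M (nat_lit 8434988006123)))))) (T.h (P (nat_lit 0)) (T.h (T.h (P (nat_lit 79650662868)) (T.h (P (nat_lit 0)) (P (nat_lit 383516799004)))) (T.h (P (nat_lit 0)) (M (nat_lit 1176144971027))))))) (T.h (T.h (T.h (P (nat_lit 0)) (T.h (P (nat_lit 57311762632)) (T.h (P (nat_lit 0)) (M (nat_lit 4511988711983))))) (T.h (P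 (nat_lit 0)) (T.h (T.h (P (nat_lit 0)) (M (nat_lit 1071792865487))) (P (nat_lit 0))))) (T.h (T.h (P (nat_lit 0)) (T.h (T.h (M (nat_lit 15295814615)) (T.h (P (nat_lit 0)) (P (nat_lit 3279457049388)))) (T.h (P (nat_lit 0)) (P (nat_lit 11564376874272))))) (T.h (T.h (T.h (P (nat_lit 0)) (P (nat_lit 1705106583392))) (P (nat_lit 0))) (T.h (T.h (P (nat_lit 0)) (P (nat_lit 4545923557880))) (P (nat_lit 0))))))) (P (nat_lit 0))))))) (T.h (T.h (P (nat_lit 0)) (T.h (T.h (T.h (T.h (P (nat_lit 0)) (T.h (P (nat_lit 2496896328)) (T.h (P (nat_lit 0)) (T.h (M (nat_lit 4603865771)) (T.h (P (nat_lit 0)) (P (nat_lit 105763299996))))))) (T.h (P (nat_lit 0)) (T.h (T.h (P (nat_lit 0)) (T.h (M (nat_lit 8665692047)) (T.h (P (nat_lit 0)) (M (nat_lit 2603227501355))))) (T.h (P (nat_lit 0)) (T.h (T.h (P (nat_lit 0)) (M (nat_lit 185665795715))) (P (nat_lit 0))))))) (T.h (T.h (P (nat_lit 0)) (T.h (T.h (M (nat_lit 8713786979))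 (T.h (P (nat_lit 0)) (T.h (M (nat_lit 61276853087)) (T.h (P (nat_lit 0)) (P (nat_lit 18736109134980)))))) (T.h (P (nat_lit 0)) (T.h (T.h (P (nat_lit 138756324564)) (T.h (P (nat_lit 0)) (M (nat_lit 17817638799671)))) (T.h (P (nat_lit 0)) (M (nat_lit 11780872937159))))))) (T.h (T.h (T.h (P (nat_lit 0)) (T.h (P (nat_lit 19795848996)) (T.h (P (nat_lit 0)) (P (nat_lit 12804065837904))))) (T.h (P (nat_lit 0)) (T.h (T.h (P (nat_lit 0)) (M (nat_lit 10457760065195))) (P (nat_lit 0))))) (T.h (T.h (P (nat_lit 0)) (T.h (T.h (P (nat_lit 1035017389704)) (T.h (P (nat_lit 0)) (P (nat_lit 223718527320684)))) (T.h (P (nat_lit 0)) (M (nat_lit 11534952895955))))) (T.h (T.h (T.h (P (nat_lit 0)) (P (nat_lit 3781601322120))) (P (nat_lit 0))) (T.h (T.h (P (nat_lit 0)) (M (nat_lit 20630155639103))) (P (nat_lit 0)))))))) (T.h (P (nat_lit 0)) (T.h (T.h (T.h (T.h (P (nat_lit 0)) (T.h (M (nat_lit 3404062899)) (T.h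 (P (nat_lit 0)) (T.h (P (nat_lit 54131871108)) (T.h (P (nat_lit 0)) (P (nat_lit 1441899564188))))))) (T.h (P (nat_lit 0)) (T.h (T.h (P (nat_lit 0)) (T.h (P (nat_lit 381207340400)) (T.h (P (nat_lit 0)) (M (nat_lit 929841571247))))) (T.h (P (nat_lit 0)) (T.h (T.h (P (nat_lit 0)) (M (nat_lit 9517203054111))) (P (nat_lit 0))))))) (T.h (T.h (P (nat_lit 0)) (T.h (T.h (P (nat_lit 93016588640)) (T.h (P (nat_lit 0)) (M (nat_lit 1723460217727)))) (T.h (P (nat_lit 0)) (P (nat_lit 1785904983408))))) (T.h (T.h (T.h (P (nat_lit 0)) (T.h (M (nat_lit 1854472946579)) (T.h (P (nat_lit 0)) (P (nat_lit 17268108864936))))) (T.h (P (nat_lit 0)) (T.h (T.h (P (nat_lit 0)) (M (nat_lit 41442311729567))) (P (nat_lit 0))))) (T.h (T.h (P (nat_lit 0)) (M (nat_lit 6421462754287))) (T.h (T.h (T.h (P (nat_lit 0)) (P (nat_lit 693514336080))) (P (nat_lit 0))) (P (nat_lit 0))))))) (P (nat_lit 0)))))) en00_6))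
def en00_8 : T ℤ := (T.h (T.h (T.h (T.h (P (nat_lit 0)) (T.h (T.h (P (nat_lit 0)) (T.h (P (nat_lit 11046240208)) (T.h (P (nat_lit 0)) (T.h (M (nat_lit 109959719887)) (T.h (P (nat_lit 0)) (P (nat_lit 1032605543600))))))) (T.h (P (nat_lit 0)) (T.h (T.h (P (nat_lit 0)) (T.h (M (nat_lit 86857033887)) (T.h (P (nat_lit 0)) (P (nat_lit 1084925268672))))) (T.h (P (nat_lit 0)) (T.h (T.h (P (nat_lit 0)) (M (nat_lit 6790070154111))) (P (nat_lit 0)))))))) (T.h (T.h (T.h (M (nat_lit 2403409567)) (T.h (P (nat_lit 0)) (T.h (M (nat_lit 18722951055)) (T.h (P (nat_lit 0)) (P (nat_lit 780425431280)))))) (T.h (P (nat_lit 0)) (T.h (T.h (P (nat_lit 74624208000)) (T.h (P (nat_lit 0)) (M (nat_lit 1185382234655)))) (T.h (P (nat_lit 0)) (M (nat_lit 739809497823)))))) (T.h (T.h (P (nat_lit 0)) (T.h (T.h (P (nat_lit 0)) (T.h (P (nat_lit 296792295008)) (T.h (P (nat_lit 0)) (M (nat_lit 8415234601279))))) (T.h (P (nat_lit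 0)) (T.h (T.h (P (nat_lit 0)) (M (nat_lit 374125532095))) (P (nat_lit 0)))))) (T.h (T.h (T.h (M (nat_lit 19300707215)) (T.h (P (nat_lit 0)) (P (nat_lit 1451769658960)))) (T.h (P (nat_lit 0)) (M (nat_lit 1505200492271)))) (T.h (T.h (P (nat_lit 0)) (T.h (T.h (P (nat_lit 0)) (P (nat_lit 6289436187232))) (P (nat_lit 0)))) (P (nat_lit 895905629824))))))) (T.h (P (nat_lit 0)) (T.h (T.h (T.h (P (nat_lit 0)) (T.h (T.h (P (nat_lit 0)) (T.h (P (nat_lit 0)) (T.h (P (nat_lit 0)) (P (nat_lit 2228700741604))))) (T.h (P (nat_lit 0)) (T.h (T.h (P (nat_lit 0)) (P (nat_lit 2228700741604))) (P (nat_lit 0)))))) (T.h (T.h (T.h (M (nat_lit 5554091439)) (T.h (P (nat_lit 0)) (T.h (M (nat_lit 1253349497607)) (T.h (P (nat_lit 0)) (P (nat_lit 29255747413864)))))) (T.h (P (nat_lit 0)) (T.h (M (nat_lit 1253349497607)) (T.h (P (nat_lit 0)) (P (nat_lit 29255747413864)))))) (T.h (T.h (P (nat_lit 0)) (T.h (T.h (P (nat_lit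 0)) (M (nat_lit 6686102203319))) (P (nat_lit 0)))) (T.h (T.h (T.h (M (nat_lit 173314161183)) (T.h (P (nat_lit 0)) (M (nat_lit 34496029672095)))) (T.h (P (nat_lit 0)) (M (nat_lit 34496029672095)))) (T.h (P (nat_lit 0)) (M (nat_lit 7028983984991))))))) (P (nat_lit 0))))) (T.h (T.h (P (nat_lit 0)) (T.h (T.h (T.h (T.h (M (nat_lit 45154187)) (T.h (P (nat_lit 0)) (T.h (P (nat_lit 10751398596)) (T.h (P (nat_lit 0)) (M (nat_lit 135760344907)))))) (T.h (P (nat_lit 0)) (T.h (T.h (M (nat_lit 18855306935)) (T.h (P (nat_lit 0)) (M (nat_lit 686729147027)))) (T.h (P (nat_lit 0)) (M (nat_lit 76847754291)))))) (T.h (T.h (P (nat_lit 0)) (T.h (T.h (P (nat_lit 0)) (T.h (M (nat_lit 95990543023)) (T.h (P (nat_lit 0)) (P (nat_lit 4375681701912))))) (T.h (P (nat_lit 0)) (T.h (T.h (P (nat_lit 0)) (P (nat_lit 10865233648128))) (P (nat_lit 0)))))) (T.h (T.h (T.h (P (nat_lit 1673940336)) (T.h (P (nat_lit 0)) (M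 (nat_lit 1229376390683)))) (T.h (P (nat_lit 0)) (P (nat_lit 2875341516276)))) (T.h (T.h (P (nat_lit 0)) (T.h (T.h (P (nat_lit 0)) (P (nat_lit 20879238849840))) (P (nat_lit 0)))) (P (nat_lit 378176243020)))))) (P (nat_lit 0)))) (T.h (T.h (T.h (T.h (P (nat_lit 0)) (T.h (T.h (P (nat_lit 0)) (T.h (M (nat_lit 28416194543)) (T.h (P (nat_lit 0)) (P (nat_lit 472212691808))))) (T.h (P (nat_lit 0)) (T.h (T.h (P (nat_lit 0)) (M (nat_lit 1630555160227))) (P (nat_lit 0)))))) (T.h (T.h (T.h (M (nat_lit 2871638151)) (T.h (P (nat_lit 0)) (T.h (M (nat_lit 54283335831)) (T.h (P (nat_lit 0)) (P (nat_lit 155348131944)))))) (T.h (P (nat_lit 0)) (T.h (T.h (M (nat_lit 663325718847)) (T.h (P (nat_lit 0)) (P (nat_lit 9178839982048)))) (T.h (P (nat_lit 0)) (M (nat_lit 14681473121087)))))) (T.h (T.h (P (nat_lit 0)) (T.h (T.h (P (nat_lit 0)) (M (nat_lit 445767797027))) (P (nat_lit 0)))) (T.h (T.h (T.h (P (nat_lit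 192267813072)) (T.h (P (nat_lit 0)) (P (nat_lit 602050799152)))) (T.h (P (nat_lit 0)) (P (nat_lit 30296614961280)))) (T.h (P (nat_lit 0)) (P (nat_lit 995356346952))))))) (P (nat_lit 0))) (P (nat_lit 0)))))
def en00_9 : T ℤ := (T.h (T.h (P (nat_lit 0)) (T.h (P (nat_lit 0)) (T.h (T.h (T.h (P (nat_lit 0)) (T.h (T.h (P (nat_lit 0)) (T.h (P (nat_lit 11046240208)) (T.h (P (nat_lit 0)) (T.h (M (nat_lit 86857033887)) (T.h (P (nat_lit 0)) (M (nat_lit 6790070154111))))))) (T.h (P (nat_lit 0)) (T.h (T.h (P (nat_lit 0)) (T.h (M (nat_lit 109959719887)) (T.h (P (nat_lit 0)) (P (nat_lit 1084925268672))))) (T.h (P (nat_lit 0)) (T.h (T.h (P (nat_lit 0)) (P (nat_lit 1032605543600))) (P (nat_lit 0)))))))) (T.h (T.h (T.h (M (nat_lit 2403409567)) (T.h (P (nat_lit 0)) (T.h (P (nat_lit 74624208000)) (T.h (P (nat_lit 0)) (M (nat_lit 739809497823)))))) (T.h (P (nat_lit 0)) (T.h (T.h (M (nat_lit 18722951055))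 (T.h (P (nat_lit 0)) (M (nat_lit 1185382234655)))) (T.h (P (nat_lit 0)) (P (nat_lit 780425431280)))))) (T.h (T.h (P (nat_lit 0)) (T.h (T.h (P (nat_lit 0)) (T.h (P (nat_lit 296792295008)) (T.h (P (nat_lit 0)) (M (nat_lit 374125532095))))) (T.h (P (nat_lit 0)) (T.h (T.h (P (nat_lit 0)) (M (nat_lit 8415234601279))) (P (nat_lit 0)))))) (T.h (T.h (T.h (M (nat_lit 19300707215)) (T.h (P (nat_lit 0)) (M (nat_lit 1505200492271)))) (T.h (P (nat_lit 0)) (P (nat_lit 1451769658960)))) (T.h (T.h (P (nat_lit 0)) (T.h (T.h (P (nat_lit 0)) (P (nat_lit 6289436187232))) (P (nat_lit 0)))) (P (nat_lit 895905629824))))))) (T.h (P (nat_lit 0)) (T.h (T.h (T.h (P (nat_lit 0)) (T.h (T.h (P (nat_lit 0)) (T.h (M (nat_lit 28416194543)) (T.h (P (nat_lit 0)) (M (nat_lit 1630555160227))))) (T.h (P (nat_lit 0)) (T.h (T.h (P (nat_lit 0)) (P (nat_lit 472212691808))) (P (nat_lit 0)))))) (T.h (T.h (T.h (M (nat_lit 2871638151))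 (T.h (P (nat_lit 0)) (T.h (M (nat_lit 663325718847)) (T.h (P (nat_lit 0)) (M (nat_lit 14681473121087)))))) (T.h (P (nat_lit 0)) (T.h (T.h (M (nat_lit 54283335831)) (T.h (P (nat_lit 0)) (P (nat_lit 9178839982048)))) (T.h (P (nat_lit 0)) (P (nat_lit 155348131944)))))) (T.h (T.h (P (nat_lit 0)) (T.h (T.h (P (nat_lit 0)) (M (nat_lit 445767797027))) (P (nat_lit 0)))) (T.h (T.h (T.h (P (nat_lit 192267813072)) (T.h (P (nat_lit 0)) (P (nat_lit 30296614961280)))) (T.h (P (nat_lit 0)) (P (nat_lit 602050799152)))) (T.h (P (nat_lit 0)) (P (nat_lit 995356346952))))))) (P (nat_lit 0))))))) (T.h (T.h (P (nat_lit 0)) (T.h (T.h (T.h (T.h (P (nat_lit 122466656)) (T.h (P (nat_lit 0)) (T.h (M (nat_lit 4636948559)) (T.h (P (nat_lit 0)) (T.h (P (nat_lit 297001950304)) (T.h (P (nat_lit 0)) (P (nat_lit 1322107608784)))))))) (T.h (P (nat_lit 0)) (T.h (T.h (M (nat_lit 4636948559)) (T.h (P (nat_lit 0)) (T.h (P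 (nat_lit 250693352096)) (T.h (P (nat_lit 0)) (P (nat_lit 5158806254848)))))) (T.h (P (nat_lit 0)) (T.h (T.h (P (nat_lit 297001950304)) (T.h (P (nat_lit 0)) (P (nat_lit 5158806254848)))) (T.h (P (nat_lit 0)) (P (nat_lit 1322107608784)))))))) (T.h (T.h (P (nat_lit 0)) (T.h (T.h (P (nat_lit 0)) (T.h (M (nat_lit 310714900767)) (T.h (P (nat_lit 0)) (P (nat_lit 500883392912))))) (T.h (P (nat_lit 0)) (T.h (T.h (P (nat_lit 0)) (P (nat_lit 500883392912))) (P (nat_lit 0)))))) (T.h (T.h (T.h (M (nat_lit 877585663)) (T.h (P (nat_lit 0)) (T.h (M (nat_lit 2073241305359)) (T.h (P (nat_lit 0)) (P (nat_lit 22952407327904)))))) (T.h (P (nat_lit 0)) (T.h (T.h (M (nat_lit 2073241305359)) (T.h (P (nat_lit 0)) (P (nat_lit 20989642769376)))) (T.h (P (nat_lit 0)) (P (nat_lit 22952407327904)))))) (T.h (T.h (P (nat_lit 0)) (T.h (T.h (P (nat_lit 0)) (M (nat_lit 48531489684351))) (P (nat_lit 0)))) (T.h (T.h (T.h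 (M (nat_lit 115252374751)) (T.h (P (nat_lit 0)) (P (nat_lit 18017024472880)))) (T.h (P (nat_lit 0)) (P (nat_lit 18017024472880)))) (T.h (P (nat_lit 0)) (M (nat_lit 9068544692127)))))))) (T.h (P (nat_lit 0)) (T.h (T.h (T.h (T.h (M (nat_lit 45154187)) (T.h (P (nat_lit 0)) (T.h (M (nat_lit 18855306935)) (T.h (P (nat_lit 0)) (M (nat_lit 76847754291)))))) (T.h (P (nat_lit 0)) (T.h (T.h (P (nat_lit 10751398596)) (T.h (P (nat_lit 0)) (M (nat_lit 686729147027)))) (T.h (P (nat_lit 0)) (M (nat_lit 135760344907)))))) (T.h (T.h (P (nat_lit 0)) (T.h (T.h (P (nat_lit 0)) (T.h (M (nat_lit 95990543023)) (T.h (P (nat_lit 0)) (P (nat_lit 10865233648128))))) (T.h (P (nat_lit 0)) (T.h (T.h (P (nat_lit 0)) (P (nat_lit 4375681701912))) (P (nat_lit 0)))))) (T.h (T.h (T.h (P (nat_lit 1673940336)) (T.h (P (nat_lit 0)) (P (nat_lit 2875341516276)))) (T.h (P (nat_lit 0)) (M (nat_lit 1229376390683)))) (T.h (T.h (P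 (nat_lit 0)) (T.h (T.h (P (nat_lit 0)) (P (nat_lit 20879238849840))) (P (nat_lit 0)))) (P (nat_lit 378176243020)))))) (P (nat_lit 0)))))) en00_8))
def en00_10 : T ℤ := (T.h (T.h (T.h (T.h (P (nat_lit 0)) (T.h (T.h (P (nat_lit 3266105340)) (T.h (P (nat_lit 0)) (T.h (M (nat_lit 17984397919)) (T.h (P (nat_lit 0)) (P (nat_lit 259429007480)))))) (T.h (P (nat_lit 0)) (T.h (T.h (P (nat_lit 70780114880)) (T.h (P (nat_lit 0)) (P (nat_lit 348444497220)))) (T.h (P (nat_lit 0)) (M (nat_lit 1107911881779))))))) (T.h (T.h (T.h (P (nat_lit 0)) (T.h (M (nat_lit 11255587779)) (T.h (P (nat_lit 0)) (T.h (P (nat_lit 138813459100)) (T.h (P (nat_lit 0)) (M (nat_lit 1069087621119))))))) (T.h (P (nat_lit 0)) (T.h (T.h (P (nat_lit 0)) (T.h (P (nat_lit 182267512880)) (T.h (P (nat_lit 0)) (M (nat_lit 1609999461279))))) (T.h (P (nat_lit 0)) (T.h (T.h (P (nat_lit 0)) (P (nat_lit 94443870440))) (P (nat_lit 0)))))))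 (T.h (T.h (P (nat_lit 0)) (T.h (T.h (P (nat_lit 109907884500)) (T.h (P (nat_lit 0)) (P (nat_lit 1189279661200)))) (T.h (P (nat_lit 0)) (P (nat_lit 1300272230820))))) (T.h (T.h (T.h (P (nat_lit 0)) (T.h (P (nat_lit 81925506400)) (T.h (P (nat_lit 0)) (M (nat_lit 3218155605859))))) (T.h (P (nat_lit 0)) (T.h (T.h (P (nat_lit 0)) (M (nat_lit 2613690670359))) (P (nat_lit 0))))) (T.h (T.h (P (nat_lit 0)) (M (nat_lit 6297629723099))) (T.h (T.h (T.h (P (nat_lit 0)) (M (nat_lit 3513371515879))) (P (nat_lit 0))) (P (nat_lit 0)))))))) (T.h (P (nat_lit 0)) (T.h (T.h (T.h (P (nat_lit 0)) (T.h (T.h (M (nat_lit 2211616623)) (T.h (P (nat_lit 0)) (T.h (P (nat_lit 24918522584)) (T.h (P (nat_lit 0)) (M (nat_lit 2532713755695)))))) (T.h (P (nat_lit 0)) (T.h (T.h (M (nat_lit 19740936507)) (T.h (P (nat_lit 0)) (M (nat_lit 375596835471)))) (T.h (P (nat_lit 0)) (P (nat_lit 900994948788))))))) (T.h (T.h (T.h (P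 (nat_lit 0)) (T.h (M (nat_lit 110710607167)) (T.h (P (nat_lit 0)) (M (nat_lit 11571513095143))))) (T.h (P (nat_lit 0)) (T.h (T.h (P (nat_lit 0)) (P (nat_lit 1741783711736))) (P (nat_lit 0))))) (T.h (T.h (P (nat_lit 0)) (T.h (T.h (M (nat_lit 379365996131)) (T.h (P (nat_lit 0)) (M (nat_lit 58532067655583)))) (T.h (P (nat_lit 0)) (M (nat_lit 10583957541803))))) (T.h (T.h (T.h (P (nat_lit 0)) (M (nat_lit 1273356298319))) (P (nat_lit 0))) (T.h (T.h (P (nat_lit 0)) (P (nat_lit 3330905340620))) (P (nat_lit 0))))))) (P (nat_lit 0))))) (T.h (T.h (P (nat_lit 0)) (T.h (T.h (T.h (T.h (P (nat_lit 0)) (T.h (M (nat_lit 2211616623)) (T.h (P (nat_lit 0)) (T.h (M (nat_lit 19740936507)) (T.h (P (nat_lit 0)) (P (nat_lit 900994948788))))))) (T.h (P (nat_lit 0)) (T.h (T.h (P (nat_lit 0)) (T.h (P (nat_lit 24918522584)) (T.h (P (nat_lit 0)) (M (nat_lit 375596835471))))) (T.h (P (nat_lit 0)) (T.h (T.h (P (nat_lit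 0)) (M (nat_lit 2532713755695))) (P (nat_lit 0))))))) (T.h (T.h (P (nat_lit 0)) (T.h (T.h (M (nat_lit 110710607167)) (T.h (P (nat_lit 0)) (P (nat_lit 1741783711736)))) (T.h (P (nat_lit 0)) (M (nat_lit 11571513095143))))) (T.h (T.h (T.h (P (nat_lit 0)) (T.h (M (nat_lit 379365996131)) (T.h (P (nat_lit 0)) (M (nat_lit 10583957541803))))) (T.h (P (nat_lit 0)) (T.h (T.h (P (nat_lit 0)) (M (nat_lit 58532067655583))) (P (nat_lit 0))))) (T.h (T.h (P (nat_lit 0)) (M (nat_lit 1273356298319))) (T.h (T.h (T.h (P (nat_lit 0)) (P (nat_lit 3330905340620))) (P (nat_lit 0))) (P (nat_lit 0))))))) (P (nat_lit 0)))) (T.h (T.h (T.h (T.h (P (nat_lit 0)) (T.h (T.h (P (nat_lit 4096734892)) (T.h (P (nat_lit 0)) (T.h (M (nat_lit 7945825391)) (T.h (P (nat_lit 0)) (M (nat_lit 6829670055447)))))) (T.h (P (nat_lit 0)) (T.h (T.h (M (nat_lit 125066918351)) (T.h (P (nat_lit 0)) (P (nat_lit 5354360912924)))) (T.h (P (nat_lit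 0)) (M (nat_lit 4970533311795))))))) (T.h (T.h (T.h (P (nat_lit 0)) (T.h (P (nat_lit 41639289952)) (T.h (P (nat_lit 0)) (M (nat_lit 881483652607))))) (T.h (P (nat_lit 0)) (T.h (T.h (P (nat_lit 0)) (M (nat_lit 2331852537343))) (P (nat_lit 0))))) (T.h (T.h (P (nat_lit 0)) (T.h (T.h (P (nat_lit 1050420096636)) (T.h (P (nat_lit 0)) (M (nat_lit 18398016904607)))) (T.h (P (nat_lit 0)) (P (nat_lit 42833429925552))))) (T.h (T.h (T.h (P (nat_lit 0)) (M (nat_lit 1378242693023))) (P (nat_lit 0))) (T.h (T.h (P (nat_lit 0)) (P (nat_lit 9943139571260))) (P (nat_lit 0))))))) (P (nat_lit 0))) (P (nat_lit 0)))))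
def en00_11 : T ℤ := (T.h (T.h (T.h (T.h (P (nat_lit 0)) (T.h (T.h (P (nat_lit 0)) (T.h (P (nat_lit 7468268880)) (T.h (P (nat_lit 0)) (T.h (P (nat_lit 17239698600)) (T.h (P (nat_lit 0)) (P (nat_lit 388195533168))))))) (T.h (P (nat_lit 0)) (T.h (T.h (P (nat_lit 0)) (T.h (P (nat_lit 17239698600)) (T.h (P (nat_lit 0)) (P (nat_lit 36330340752))))) (T.h (P (nat_lit 0)) (T.h (T.h (P (nat_lit 0)) (P (nat_lit 388195533168))) (P (nat_lit 0)))))))) (T.h (T.h (T.h (M (nat_lit 2497685855)) (T.h (P (nat_lit 0)) (T.h (P (nat_lit 19988527368)) (T.h (P (nat_lit 0)) (M (nat_lit 286355158919)))))) (T.h (P (nat_lit 0)) (T.h (T.h (P (nat_lit 19988527368)) (T.h (P (nat_lit 0)) (P (nat_lit 1676284747248)))) (T.h (P (nat_lit 0)) (M (nat_lit 286355158919)))))) (T.h (T.h (P (nat_lit 0)) (T.h (T.h (P (nat_lit 0)) (T.h (M (nat_lit 672486074159)) (T.h (P (nat_lit 0)) (M (nat_lit 9222160330655))))) (T.h (P (nat_lit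 0)) (T.h (T.h (P (nat_lit 0)) (M (nat_lit 9222160330655))) (P (nat_lit 0)))))) (T.h (T.h (T.h (P (nat_lit 39798055008)) (T.h (P (nat_lit 0)) (M (nat_lit 763758774407)))) (T.h (P (nat_lit 0)) (M (nat_lit 763758774407)))) (T.h (T.h (P (nat_lit 0)) (T.h (T.h (P (nat_lit 0)) (M (nat_lit 67973360572511))) (P (nat_lit 0)))) (M (nat_lit 25160348495))))))) (T.h (P (nat_lit 0)) (T.h (T.h (T.h (P (nat_lit 0)) (T.h (T.h (P (nat_lit 0)) (T.h (P (nat_lit 11869720900)) (T.h (P (nat_lit 0)) (M (nat_lit 10135565755))))) (T.h (P (nat_lit 0)) (T.h (T.h (P (nat_lit 0)) (P (nat_lit 3421590756))) (P (nat_lit 0)))))) (T.h (T.h (T.h (M (nat_lit 521025495)) (T.h (P (nat_lit 0)) (T.h (P (nat_lit 569884475280)) (T.h (P (nat_lit 0)) (M (nat_lit 506618587623)))))) (T.h (P (nat_lit 0)) (T.h (T.h (P (nat_lit 271432775744)) (T.h (P (nat_lit 0)) (M (nat_lit 3934368629591)))) (T.h (P (nat_lit 0)) (M (nat_lit 901543674087))))))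 (T.h (T.h (P (nat_lit 0)) (T.h (T.h (P (nat_lit 0)) (P (nat_lit 1333682042316))) (P (nat_lit 0)))) (T.h (T.h (T.h (P (nat_lit 130545449536)) (T.h (P (nat_lit 0)) (P (nat_lit 25452163723280)))) (T.h (P (nat_lit 0)) (M (nat_lit 20627701083503)))) (T.h (P (nat_lit 0)) (M (nat_lit 3388600509671))))))) (P (nat_lit 0))))) (T.h (T.h (P (nat_lit 0)) (T.h (T.h (T.h (T.h (M (nat_lit 90491335)) (T.h (P (nat_lit 0)) (T.h (M (nat_lit 15548284843)) (T.h (P (nat_lit 0)) (P (nat_lit 42121982048)))))) (T.h (P (nat_lit 0)) (T.h (T.h (M (nat_lit 15548284843)) (T.h (P (nat_lit 0)) (P (nat_lit 535896433536)))) (T.h (P (nat_lit 0)) (P (nat_lit 42121982048)))))) (T.h (T.h (P (nat_lit 0)) (T.h (T.h (P (nat_lit 0)) (T.h (M (nat_lit 493353582479)) (T.h (P (nat_lit 0)) (M (nat_lit 656297890903))))) (T.h (P (nat_lit 0)) (T.h (T.h (P (nat_lit 0)) (M (nat_lit 656297890903))) (P (nat_lit 0)))))) (T.h (T.h (T.h (M (nat_lit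 89219297279)) (T.h (P (nat_lit 0)) (P (nat_lit 388049162268)))) (T.h (P (nat_lit 0)) (P (nat_lit 388049162268)))) (T.h (T.h (P (nat_lit 0)) (T.h (T.h (P (nat_lit 0)) (P (nat_lit 33739953198400))) (P (nat_lit 0)))) (M (nat_lit 3042680632199)))))) (P (nat_lit 0)))) (T.h (T.h (T.h (T.h (P (nat_lit 0)) (T.h (T.h (P (nat_lit 0)) (T.h (P (nat_lit 11869720900)) (T.h (P (nat_lit 0)) (P (nat_lit 3421590756))))) (T.h (P (nat_lit 0)) (T.h (T.h (P (nat_lit 0)) (M (nat_lit 10135565755))) (P (nat_lit 0)))))) (T.h (T.h (T.h (M (nat_lit 521025495)) (T.h (P (nat_lit 0)) (T.h (P (nat_lit 271432775744)) (T.h (P (nat_lit 0)) (M (nat_lit 901543674087)))))) (T.h (P (nat_lit 0)) (T.h (T.h (P (nat_lit 569884475280)) (T.h (P (nat_lit 0)) (M (nat_lit 3934368629591)))) (T.h (P (nat_lit 0)) (M (nat_lit 506618587623)))))) (T.h (T.h (P (nat_lit 0)) (T.h (T.h (P (nat_lit 0)) (P (nat_lit 1333682042316))) (P (nat_lit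 0)))) (T.h (T.h (T.h (P (nat_lit 130545449536)) (T.h (P (nat_lit 0)) (M (nat_lit 20627701083503)))) (T.h (P (nat_lit 0)) (P (nat_lit 25452163723280)))) (T.h (P (nat_lit 0)) (M (nat_lit 3388600509671))))))) (P (nat_lit 0))) (P (nat_lit 0)))))
def en00_12 : T ℤ := (T.h (T.h (T.h (P (nat_lit 0)) (T.h (T.h (T.h (T.h (P (nat_lit 0)) (T.h (P (nat_lit 3266105340)) (T.h (P (nat_lit 0)) (T.h (P (nat_lit 70780114880)) (T.h (P (nat_lit 0)) (M (nat_lit 1107911881779))))))) (T.h (P (nat_lit 0)) (T.h (T.h (P (nat_lit 0)) (T.h (M (nat_lit 17984397919)) (T.h (P (nat_lit 0)) (P (nat_lit 348444497220))))) (T.h (P (nat_lit 0)) (T.h (T.h (P (nat_lit 0)) (P (nat_lit 259429007480))) (P (nat_lit 0))))))) (T.h (T.h (P (nat_lit 0)) (T.h (T.h (M (nat_lit 11255587779)) (T.h (P (nat_lit 0)) (T.h (P (nat_lit 182267512880)) (T.h (P (nat_lit 0)) (P (nat_lit 94443870440)))))) (T.h (P (nat_lit 0)) (T.h (T.h (P (nat_lit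 138813459100)) (T.h (P (nat_lit 0)) (M (nat_lit 1609999461279)))) (T.h (P (nat_lit 0)) (M (nat_lit 1069087621119))))))) (T.h (T.h (T.h (P (nat_lit 0)) (T.h (P (nat_lit 109907884500)) (T.h (P (nat_lit 0)) (P (nat_lit 1300272230820))))) (T.h (P (nat_lit 0)) (T.h (T.h (P (nat_lit 0)) (P (nat_lit 1189279661200))) (P (nat_lit 0))))) (T.h (T.h (P (nat_lit 0)) (T.h (T.h (P (nat_lit 81925506400)) (T.h (P (nat_lit 0)) (M (nat_lit 2613690670359)))) (T.h (P (nat_lit 0)) (M (nat_lit 3218155605859))))) (T.h (T.h (T.h (P (nat_lit 0)) (M (nat_lit 6297629723099))) (P (nat_lit 0))) (T.h (T.h (P (nat_lit 0)) (M (nat_lit 3513371515879))) (P (nat_lit 0)))))))) (T.h (P (nat_lit 0)) (T.h (T.h (T.h (T.h (P (nat_lit 0)) (T.h (P (nat_lit 4096734892)) (T.h (P (nat_lit 0)) (T.h (M (nat_lit 125066918351)) (T.h (P (nat_lit 0)) (M (nat_lit 4970533311795))))))) (T.h (P (nat_lit 0)) (T.h (T.h (P (nat_lit 0)) (T.h (M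 (nat_lit 7945825391)) (T.h (P (nat_lit 0)) (P (nat_lit 5354360912924))))) (T.h (P (nat_lit 0)) (T.h (T.h (P (nat_lit 0)) (M (nat_lit 6829670055447))) (P (nat_lit 0))))))) (T.h (T.h (P (nat_lit 0)) (T.h (T.h (P (nat_lit 41639289952)) (T.h (P (nat_lit 0)) (M (nat_lit 2331852537343)))) (T.h (P (nat_lit 0)) (M (nat_lit 881483652607))))) (T.h (T.h (T.h (P (nat_lit 0)) (T.h (P (nat_lit 1050420096636)) (T.h (P (nat_lit 0)) (P (nat_lit 42833429925552))))) (T.h (P (nat_lit 0)) (T.h (T.h (P (nat_lit 0)) (M (nat_lit 18398016904607))) (P (nat_lit 0))))) (T.h (T.h (P (nat_lit 0)) (M (nat_lit 1378242693023))) (T.h (T.h (T.h (P (nat_lit 0)) (P (nat_lit 9943139571260))) (P (nat_lit 0))) (P (nat_lit 0))))))) (P (nat_lit 0)))))) en00_10) (T.h en00_11 (T.h (T.h (T.h (P (nat_lit 0)) (T.h (T.h (T.h (T.h (P (nat_lit 0)) (T.h (P (nat_lit 116808576)) (T.h (P (nat_lit 0)) (T.h (M (nat_lit 25934434999)) (T.h (P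 (nat_lit 0)) (M (nat_lit 147226460803))))))) (T.h (P (nat_lit 0)) (T.h (T.h (P (nat_lit 0)) (T.h (M (nat_lit 11022468035)) (T.h (P (nat_lit 0)) (M (nat_lit 568065925735))))) (T.h (P (nat_lit 0)) (T.h (T.h (P (nat_lit 0)) (P (nat_lit 705383534692))) (P (nat_lit 0))))))) (T.h (T.h (P (nat_lit 0)) (T.h (T.h (M (nat_lit 296357727)) (T.h (P (nat_lit 0)) (M (nat_lit 484916809943)))) (T.h (P (nat_lit 0)) (M (nat_lit 109378811831))))) (T.h (T.h (T.h (P (nat_lit 0)) (T.h (P (nat_lit 84681231744)) (T.h (P (nat_lit 0)) (P (nat_lit 1813430894100))))) (T.h (P (nat_lit 0)) (T.h (T.h (P (nat_lit 0)) (M (nat_lit 8053695096839))) (P (nat_lit 0))))) (T.h (T.h (P (nat_lit 0)) (P (nat_lit 5515432143984))) (T.h (T.h (T.h (P (nat_lit 0)) (P (nat_lit 60800770886560))) (P (nat_lit 0))) (P (nat_lit 0))))))) (P (nat_lit 0)))) (T.h (T.h (T.h (T.h (P (nat_lit 0)) (T.h (T.h (P (nat_lit 116808576)) (T.h (P (nat_lit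 0)) (T.h (M (nat_lit 11022468035)) (T.h (P (nat_lit 0)) (P (nat_lit 705383534692)))))) (T.h (P (nat_lit 0)) (T.h (T.h (M (nat_lit 25934434999)) (T.h (P (nat_lit 0)) (M (nat_lit 568065925735)))) (T.h (P (nat_lit 0)) (M (nat_lit 147226460803))))))) (T.h (T.h (T.h (P (nat_lit 0)) (T.h (M (nat_lit 296357727)) (T.h (P (nat_lit 0)) (M (nat_lit 109378811831))))) (T.h (P (nat_lit 0)) (T.h (T.h (P (nat_lit 0)) (M (nat_lit 484916809943))) (P (nat_lit 0))))) (T.h (T.h (P (nat_lit 0)) (T.h (T.h (P (nat_lit 84681231744)) (T.h (P (nat_lit 0)) (M (nat_lit 8053695096839)))) (T.h (P (nat_lit 0)) (P (nat_lit 1813430894100))))) (T.h (T.h (T.h (P (nat_lit 0)) (P (nat_lit 5515432143984))) (P (nat_lit 0))) (T.h (T.h (P (nat_lit 0)) (P (nat_lit 60800770886560))) (P (nat_lit 0))))))) (P (nat_lit 0))) (P (nat_lit 0)))) (T.h (T.h (T.h (T.h (T.h (P (nat_lit 0)) (T.h (T.h (P (nat_lit 0)) (T.h (M (nat_lit 4262707143))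 (T.h (P (nat_lit 0)) (M (nat_lit 24515743799))))) (T.h (P (nat_lit 0)) (T.h (T.h (P (nat_lit 0)) (M (nat_lit 24515743799))) (P (nat_lit 0)))))) (T.h (T.h (T.h (P (nat_lit 3012650928)) (T.h (P (nat_lit 0)) (T.h (M (nat_lit 18398308255)) (T.h (P (nat_lit 0)) (P (nat_lit 1212392207576)))))) (T.h (P (nat_lit 0)) (T.h (T.h (M (nat_lit 18398308255)) (T.h (P (nat_lit 0)) (P (nat_lit 4636974728096)))) (T.h (P (nat_lit 0)) (P (nat_lit 1212392207576)))))) (T.h (T.h (P (nat_lit 0)) (T.h (T.h (P (nat_lit 0)) (P (nat_lit 720467803776))) (P (nat_lit 0)))) (T.h (T.h (T.h (P (nat_lit 47563039488)) (T.h (P (nat_lit 0)) (P (nat_lit 1913743644096)))) (T.h (P (nat_lit 0)) (P (nat_lit 1913743644096)))) (T.h (P (nat_lit 0)) (M (nat_lit 3071786553023))))))) (P (nat_lit 0))) (P (nat_lit 0))) (P (nat_lit 0))))))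
def en00_13 : T ℤ := (T.h (T.h (T.h (P (nat_lit 0)) (T.h (P (nat_lit 0)) (T.h (P (nat_lit 0)) (T.h (P (nat_lit 0)) (T.h (P (nat_lit 0)) (T.h (T.h (T.h (T.h (P (nat_lit 0)) (T.h (P (nat_lit 416280976)) (T.h (P (nat_lit 0)) (T.h (M (nat_lit 6633008883)) (T.h (P (nat_lit 0)) (P (nat_lit 4193382320))))))) (T.h (P (nat_lit 0)) (T.h (T.h (P (nat_lit 0)) (T.h (M (nat_lit 3732164035)) (T.h (P (nat_lit 0)) (P (nat_lit 443487898660))))) (T.h (P (nat_lit 0)) (T.h (T.h (P (nat_lit 0)) (P (nat_lit 49982058876))) (P (nat_lit 0))))))) (T.h (T.h (P (nat_lit 0)) (T.h (T.h (M (nat_lit 1244711471)) (T.h (P (nat_lit 0)) (T.h (P (nat_lit 112081010876)) (T.h (P (nat_lit 0)) (P (nat_lit 11328893460608)))))) (T.h (P (nat_lit 0)) (T.h (T.h (M (nat_lit 6464886975)) (T.h (P (nat_lit 0)) (P (nat_lit 1536595181864)))) (T.h (P (nat_lit 0)) (M (nat_lit 73451031451))))))) (T.h (T.h (T.h (P (nat_lit 0)) (T.h (M (nat_lit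 3982834843)) (T.h (P (nat_lit 0)) (M (nat_lit 263022994335))))) (T.h (P (nat_lit 0)) (T.h (T.h (P (nat_lit 0)) (M (nat_lit 279380787023))) (P (nat_lit 0))))) (T.h (T.h (P (nat_lit 0)) (T.h (T.h (P (nat_lit 19104735300)) (T.h (P (nat_lit 0)) (P (nat_lit 4238798508712)))) (T.h (P (nat_lit 0)) (M (nat_lit 6055043211))))) (T.h (T.h (T.h (P (nat_lit 0)) (P (nat_lit 6175991608))) (P (nat_lit 0))) (T.h (T.h (P (nat_lit 0)) (P (nat_lit 188795121448))) (P (nat_lit 0)))))))) (T.h (P (nat_lit 0)) (T.h (T.h (T.h (T.h (P (nat_lit 0)) (T.h (P (nat_lit 841306452)) (T.h (P (nat_lit 0)) (T.h (M (nat_lit 171282279)) (T.h (P (nat_lit 0)) (M (nat_lit 3539898791711))))))) (T.h (P (nat_lit 0)) (T.h (T.h (P (nat_lit 0)) (T.h (P (nat_lit 7867799680)) (T.h (P (nat_lit 0)) (M (nat_lit 1697754452967))))) (T.h (P (nat_lit 0)) (T.h (T.h (P (nat_lit 0)) (M (nat_lit 217188413175))) (P (nat_lit 0))))))) (T.h (T.h (P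 (nat_lit 0)) (T.h (T.h (M (nat_lit 2279743511)) (T.h (P (nat_lit 0)) (P (nat_lit 152103399352)))) (T.h (P (nat_lit 0)) (P (nat_lit 34738961888))))) (T.h (T.h (T.h (P (nat_lit 0)) (T.h (M (nat_lit 18127267739)) (T.h (P (nat_lit 0)) (M (nat_lit 3125638564019))))) (T.h (P (nat_lit 0)) (T.h (T.h (P (nat_lit 0)) (M (nat_lit 1920082724243))) (P (nat_lit 0))))) (T.h (T.h (P (nat_lit 0)) (M (nat_lit 140872845359))) (T.h (T.h (T.h (P (nat_lit 0)) (P (nat_lit 216243959160))) (P (nat_lit 0))) (P (nat_lit 0))))))) (P (nat_lit 0)))))))))) en00_2) (T.h en00_5 (T.h (T.h (T.h (P (nat_lit 0)) (T.h (P (nat_lit 0)) (T.h (P (nat_lit 0)) (T.h (T.h (T.h (T.h (P (nat_lit 0)) (T.h (P (nat_lit 2272479324)) (T.h (P (nat_lit 0)) (T.h (P (nat_lit 84080304492)) (T.h (P (nat_lit 0)) (M (nat_lit 2233107816479))))))) (T.h (P (nat_lit 0)) (T.h (T.h (P (nat_lit 0)) (T.h (P (nat_lit 14437557444)) (T.h (P (nat_lit 0)) (M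 (nat_lit 979658294471))))) (T.h (P (nat_lit 0)) (T.h (T.h (P (nat_lit 0)) (M (nat_lit 589845744287))) (P (nat_lit 0))))))) (T.h (T.h (P (nat_lit 0)) (T.h (T.h (M (nat_lit 8469530915)) (T.h (P (nat_lit 0)) (T.h (M (nat_lit 39391006715)) (T.h (P (nat_lit 0)) (M (nat_lit 4861217574407)))))) (T.h (P (nat_lit 0)) (T.h (T.h (P (nat_lit 84540431436)) (T.h (P (nat_lit 0)) (P (nat_lit 6729752577516)))) (T.h (P (nat_lit 0)) (M (nat_lit 765918299579))))))) (T.h (T.h (T.h (P (nat_lit 0)) (T.h (M (nat_lit 41884480991)) (T.h (P (nat_lit 0)) (P (nat_lit 6271300776084))))) (T.h (P (nat_lit 0)) (T.h (T.h (P (nat_lit 0)) (P (nat_lit 405559583472))) (P (nat_lit 0))))) (T.h (T.h (P (nat_lit 0)) (T.h (T.h (P (nat_lit 69962156448)) (T.h (P (nat_lit 0)) (P (nat_lit 4833764675268)))) (T.h (P (nat_lit 0)) (P (nat_lit 1297197345852))))) (T.h (T.h (T.h (P (nat_lit 0)) (P (nat_lit 2292329051364))) (P (nat_lit 0)))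 (T.h (T.h (P (nat_lit 0)) (M (nat_lit 1426287192587))) (P (nat_lit 0)))))))) (T.h (P (nat_lit 0)) (T.h (T.h (T.h (T.h (P (nat_lit 0)) (T.h (M (nat_lit 4000493055)) (T.h (P (nat_lit 0)) (T.h (P (nat_lit 233309100588)) (T.h (P (nat_lit 0)) (P (nat_lit 9625259696476))))))) (T.h (P (nat_lit 0)) (T.h (T.h (P (nat_lit 0)) (T.h (P (nat_lit 17245347148)) (T.h (P (nat_lit 0)) (P (nat_lit 3030898507336))))) (T.h (P (nat_lit 0)) (T.h (T.h (P (nat_lit 0)) (P (nat_lit 287514642520))) (P (nat_lit 0))))))) (T.h (T.h (P (nat_lit 0)) (T.h (T.h (P (nat_lit 20584248128)) (T.h (P (nat_lit 0)) (P (nat_lit 1389512799648)))) (T.h (P (nat_lit 0)) (M (nat_lit 56883346431))))) (T.h (T.h (T.h (P (nat_lit 0)) (T.h (P (nat_lit 169300698192)) (T.h (P (nat_lit 0)) (M (nat_lit 13090130961083))))) (T.h (P (nat_lit 0)) (T.h (T.h (P (nat_lit 0)) (M (nat_lit 2941853600579))) (P (nat_lit 0))))) (T.h (T.h (P (nat_lit 0))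 (P (nat_lit 789862153744))) (T.h (T.h (T.h (P (nat_lit 0)) (P (nat_lit 3535400006560))) (P (nat_lit 0))) (P (nat_lit 0))))))) (P (nat_lit 0)))))))) en00_7) (T.h en00_9 en00_12))))

def n00 : T ℤ := en00_13

theorem h_n00 : chkT (c.Nn 0 0) n00 = true := by decide +kernel


end Pool.Agent.TOPR.R61135
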