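import Pool.Agent.TOPR.R61135.Cert

set_option autoImplicit false
set_option linter.all false
set_option maxRecDepth 100000

namespace Pool.Agent.TOPR.R61135

open Helper10.PC hiding V3
open Helper80.CW.DL Pool.Agent.Helper6.TOP

def en01_0 : T ℤ := (T.h (T.h (T.h (T.h (P (nat_lit 0)) (T.h (T.h (P (nat_lit 0)) (T.h (P (nat_lit 4788166948)) (T.h (P (nat_lit 0)) (T.h (P (nat_lit 81349694684)) (T.h (P (nat_lit 0)) (P (nat_lit 25047164464))))))) (T.h (P (nat_lit 0)) (T.h (T.h (P (nat_lit 0)) (T.h (M (nat_lit 1218401895639)) (T.h (P (nat_lit 0)) (M (nat_lit 3455345427483))))) (T.h (P (nat_lit 0)) (T.h (T.h (P (nat_lit 0)) (P (nat_lit 52920439661816))) (P (nat_lit 0)))))))) (T.h (T.h (T.h (M (nat_lit 2665040819)) (T.h (P (nat_lit 0)) (T.h (P (nat_lit 13835712704)) (T.h (P (nat_lit 0)) (P (nat_lit 487707583768)))))) (T.h (P (nat_lit 0)) (T.h (T.h (M (nat_lit 54635593475)) (T.h (P (nat_lit 0)) (M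 (nat_lit 1425431093103)))) (T.h (P (nat_lit 0)) (P (nat_lit 297538204404)))))) (T.h (T.h (P (nat_lit 0)) (T.h (T.h (P (nat_lit 0)) (T.h (P (nat_lit 24929728864)) (T.h (P (nat_lit 0)) (P (nat_lit 10823620184656))))) (T.h (P (nat_lit 0)) (T.h (T.h (P (nat_lit 0)) (P (nat_lit 18347629661824))) (P (nat_lit 0)))))) (T.h (T.h (T.h (P (nat_lit 18104526088)) (T.h (P (nat_lit 0)) (M (nat_lit 330422867075)))) (T.h (P (nat_lit 0)) (M (nat_lit 1669649522435)))) (T.h (T.h (P (nat_lit 0)) (T.h (T.h (P (nat_lit 0)) (P (nat_lit 2803738680544))) (P (nat_lit 0)))) (M (nat_lit 214805529019))))))) (T.h (P (nat_lit 0)) (T.h (T.h (T.h (P (nat_lit 0)) (T.h (T.h (P (nat_lit 0)) (T.h (P (nat_lit 50683910964)) (T.h (P (nat_lit 0)) (P (nat_lit 712629473164))))) (T.h (P (nat_lit 0)) (T.h (T.h (P (nat_lit 0)) (P (nat_lit 23185023777556))) (P (nat_lit 0)))))) (T.h (T.h (T.h (P (nat_lit 2027356392)) (T.h (P (nat_lit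 0)) (T.h (P (nat_lit 153902303396)) (T.h (P (nat_lit 0)) (P (nat_lit 1509570376652)))))) (T.h (P (nat_lit 0)) (T.h (T.h (M (nat_lit 389724877923)) (T.h (P (nat_lit 0)) (P (nat_lit 78987310718208)))) (T.h (P (nat_lit 0)) (P (nat_lit 39758439491888)))))) (T.h (T.h (P (nat_lit 0)) (T.h (T.h (P (nat_lit 0)) (M (nat_lit 132089194995))) (P (nat_lit 0)))) (T.h (T.h (T.h (M (nat_lit 48434479879)) (T.h (P (nat_lit 0)) (M (nat_lit 3663916832339)))) (T.h (P (nat_lit 0)) (P (nat_lit 4998268820056)))) (T.h (P (nat_lit 0)) (M (nat_lit 317621054943))))))) (P (nat_lit 0))))) (T.h (T.h (P (nat_lit 0)) (T.h (T.h (T.h (T.h (P (nat_lit 198939588)) (T.h (P (nat_lit 0)) (T.h (P (nat_lit 8862265612)) (T.h (P (nat_lit 0)) (M (nat_lit 221180621111)))))) (T.h (P (nat_lit 0)) (T.h (T.h (P (nat_lit 87815423152)) (T.h (P (nat_lit 0)) (P (nat_lit 766323311976)))) (T.h (P (nat_lit 0)) (P (nat_lit 4774665649376))))))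 (T.h (T.h (P (nat_lit 0)) (T.h (T.h (P (nat_lit 0)) (T.h (M (nat_lit 243881700855)) (T.h (P (nat_lit 0)) (P (nat_lit 3261263650568))))) (T.h (P (nat_lit 0)) (T.h (T.h (P (nat_lit 0)) (M (nat_lit 2520981888063))) (P (nat_lit 0)))))) (T.h (T.h (T.h (M (nat_lit 819707259)) (T.h (P (nat_lit 0)) (P (nat_lit 366482388364)))) (T.h (P (nat_lit 0)) (P (nat_lit 1218649081332)))) (T.h (T.h (P (nat_lit 0)) (T.h (T.h (P (nat_lit 0)) (P (nat_lit 3078291033592))) (P (nat_lit 0)))) (P (nat_lit 57614923908)))))) (P (nat_lit 0)))) (T.h (T.h (T.h (T.h (P (nat_lit 0)) (T.h (T.h (P (nat_lit 0)) (T.h (P (nat_lit 3424836896)) (T.h (P (nat_lit 0)) (P (nat_lit 151830820640))))) (T.h (P (nat_lit 0)) (T.h (T.h (P (nat_lit 0)) (M (nat_lit 768241844543))) (P (nat_lit 0)))))) (T.h (T.h (T.h (P (nat_lit 347108116)) (T.h (P (nat_lit 0)) (T.h (P (nat_lit 9806546496)) (T.h (P (nat_lit 0)) (P (nat_lit 142774333480))))))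 (T.h (P (nat_lit 0)) (T.h (T.h (M (nat_lit 18912155095)) (T.h (P (nat_lit 0)) (M (nat_lit 456288630807)))) (T.h (P (nat_lit 0)) (M (nat_lit 16742622136511)))))) (T.h (T.h (P (nat_lit 0)) (T.h (T.h (P (nat_lit 0)) (P (nat_lit 78556167952))) (P (nat_lit 0)))) (T.h (T.h (T.h (M (nat_lit 9067577203)) (T.h (P (nat_lit 0)) (P (nat_lit 79897918564)))) (T.h (P (nat_lit 0)) (M (nat_lit 700854148867)))) (T.h (P (nat_lit 0)) (P (nat_lit 124095884088))))))) (P (nat_lit 0))) (P (nat_lit 0)))))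
def en01_1 : T ℤ := (T.h (T.h (P (nat_lit 0)) (T.h (P (nat_lit 0)) (T.h (T.h (T.h (P (nat_lit 0)) (T.h (T.h (P (nat_lit 0)) (T.h (P (nat_lit 27385078324)) (T.h (P (nat_lit 0)) (T.h (M (nat_lit 1126560325859)) (T.h (P (nat_lit 0)) (P (nat_lit 3881788220920))))))) (T.h (P (nat_lit 0)) (T.h (T.h (P (nat_lit 0)) (T.h (M (nat_lit 971776183511)) (T.h (P (nat_lit 0)) (M (nat_lit 72492553528491))))) (T.h (P (nat_lit 0)) (T.h (T.h (P (nat_lit 0)) (P (nat_lit 2010107731552))) (P (nat_lit 0)))))))) (T.h (T.h (T.h (M (nat_lit 210299143)) (T.h (P (nat_lit 0)) (T.h (M (nat_lit 121936263535)) (T.h (P (nat_lit 0)) (M (nat_lit 4371671727707)))))) (T.h (P (nat_lit 0)) (T.h (T.h (M (nat_lit 87510868899)) (T.h (P (nat_lit 0)) (M (nat_lit 8109264985315)))) (T.h (P (nat_lit 0)) (P (nat_lit 7466305372136)))))) (T.h (T.h (P (nat_lit 0)) (T.h (T.h (P (nat_lit 0)) (T.h (M (nat_lit 99802890143)) (T.h (P (nat_lit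 0)) (M (nat_lit 37598835159175))))) (T.h (P (nat_lit 0)) (T.h (T.h (P (nat_lit 0)) (P (nat_lit 63526456181604))) (P (nat_lit 0)))))) (T.h (T.h (T.h (M (nat_lit 1882876195)) (T.h (P (nat_lit 0)) (M (nat_lit 603797199843)))) (T.h (P (nat_lit 0)) (P (nat_lit 4393753051024)))) (T.h (T.h (P (nat_lit 0)) (T.h (T.h (P (nat_lit 0)) (P (nat_lit 8297385599676))) (P (nat_lit 0)))) (P (nat_lit 64442561220))))))) (T.h (P (nat_lit 0)) (T.h (T.h (T.h (P (nat_lit 0)) (T.h (T.h (P (nat_lit 0)) (T.h (M (nat_lit 92451741383)) (T.h (P (nat_lit 0)) (M (nat_lit 1206369615283))))) (T.h (P (nat_lit 0)) (T.h (T.h (P (nat_lit 0)) (M (nat_lit 6089980793291))) (P (nat_lit 0)))))) (T.h (T.h (T.h (M (nat_lit 772622763)) (T.h (P (nat_lit 0)) (T.h (P (nat_lit 525427935416)) (T.h (P (nat_lit 0)) (M (nat_lit 8473575650535)))))) (T.h (P (nat_lit 0)) (T.h (T.h (M (nat_lit 64126741035)) (T.h (P (nat_lit 0)) (M (nat_lit 26007970418827))))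 (T.h (P (nat_lit 0)) (P (nat_lit 1186521070896)))))) (T.h (T.h (P (nat_lit 0)) (T.h (T.h (P (nat_lit 0)) (P (nat_lit 275968717888))) (P (nat_lit 0)))) (T.h (T.h (T.h (P (nat_lit 41721799748)) (T.h (P (nat_lit 0)) (M (nat_lit 71000500943)))) (T.h (P (nat_lit 0)) (M (nat_lit 9154115418335)))) (T.h (P (nat_lit 0)) (P (nat_lit 219218217028))))))) (P (nat_lit 0))))))) (T.h (T.h (P (nat_lit 0)) (T.h (T.h (T.h (T.h (P (nat_lit 168801204)) (T.h (P (nat_lit 0)) (T.h (M (nat_lit 12783515119)) (T.h (P (nat_lit 0)) (T.h (P (nat_lit 108026219616)) (T.h (P (nat_lit 0)) (M (nat_lit 692931580303)))))))) (T.h (P (nat_lit 0)) (T.h (T.h (P (nat_lit 43086607304)) (T.h (P (nat_lit 0)) (T.h (M (nat_lit 1006892493899)) (T.h (P (nat_lit 0)) (P (nat_lit 21612916015196)))))) (T.h (P (nat_lit 0)) (T.h (T.h (M (nat_lit 398521681727)) (T.h (P (nat_lit 0)) (M (nat_lit 41997528371579)))) (T.h (P (nat_lit 0)) (P (nat_lit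 2207482068388)))))))) (T.h (T.h (P (nat_lit 0)) (T.h (T.h (P (nat_lit 0)) (T.h (M (nat_lit 225660035151)) (T.h (P (nat_lit 0)) (M (nat_lit 1163081922931))))) (T.h (P (nat_lit 0)) (T.h (T.h (P (nat_lit 0)) (M (nat_lit 19830941100167))) (P (nat_lit 0)))))) (T.h (T.h (T.h (M (nat_lit 4211300119)) (T.h (P (nat_lit 0)) (T.h (P (nat_lit 245636950104)) (T.h (P (nat_lit 0)) (P (nat_lit 14094456251532)))))) (T.h (P (nat_lit 0)) (T.h (T.h (M (nat_lit 264144969259)) (T.h (P (nat_lit 0)) (P (nat_lit 2959540512544)))) (T.h (P (nat_lit 0)) (M (nat_lit 7621107689599)))))) (T.h (T.h (P (nat_lit 0)) (T.h (T.h (P (nat_lit 0)) (M (nat_lit 497033376751))) (P (nat_lit 0)))) (T.h (T.h (T.h (P (nat_lit 80758052516)) (T.h (P (nat_lit 0)) (P (nat_lit 4663467679412)))) (T.h (P (nat_lit 0)) (P (nat_lit 5662364367236)))) (T.h (P (nat_lit 0)) (P (nat_lit 231594800496)))))))) (T.h (P (nat_lit 0)) (T.h (T.h (T.h (T.h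 (M (nat_lit 366763063)) (T.h (P (nat_lit 0)) (T.h (M (nat_lit 42642810463)) (T.h (P (nat_lit 0)) (M (nat_lit 1765624774287)))))) (T.h (P (nat_lit 0)) (T.h (T.h (M (nat_lit 73777555587)) (T.h (P (nat_lit 0)) (M (nat_lit 529647951255)))) (T.h (P (nat_lit 0)) (M (nat_lit 12563280487715)))))) (T.h (T.h (P (nat_lit 0)) (T.h (T.h (P (nat_lit 0)) (T.h (P (nat_lit 1018312100656)) (T.h (P (nat_lit 0)) (M (nat_lit 12749151774735))))) (T.h (P (nat_lit 0)) (T.h (T.h (P (nat_lit 0)) (M (nat_lit 54227150401887))) (P (nat_lit 0)))))) (T.h (T.h (T.h (M (nat_lit 30685644627)) (T.h (P (nat_lit 0)) (M (nat_lit 541666024383)))) (T.h (P (nat_lit 0)) (P (nat_lit 1881694990236)))) (T.h (T.h (P (nat_lit 0)) (T.h (T.h (P (nat_lit 0)) (M (nat_lit 38342114004799))) (P (nat_lit 0)))) (P (nat_lit 180796062936)))))) (P (nat_lit 0)))))) en01_0))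
def en01_2 : T ℤ := (T.h (T.h (P (nat_lit 0)) (T.h (P (nat_lit 0)) (T.h (P (nat_lit 0)) (T.h (P (nat_lit 0)) (T.h (T.h (T.h (P (nat_lit 0)) (T.h (T.h (P (nat_lit 0)) (T.h (P (nat_lit 21274336216)) (T.h (P (nat_lit 0)) (T.h (M (nat_lit 927268703635)) (T.h (P (nat_lit 0)) (P (nat_lit 16516293637288))))))) (T.h (P (nat_lit 0)) (T.h (T.h (P (nat_lit 0)) (T.h (M (nat_lit 604497556115)) (T.h (P (nat_lit 0)) (M (nat_lit 31889304867559))))) (T.h (P (nat_lit 0)) (T.h (T.h (P (nat_lit 0)) (P (nat_lit 3257229258328))) (P (nat_lit 0)))))))) (T.h (T.h (T.h (P (nat_lit 315731868)) (T.h (P (nat_lit 0)) (T.h (M (nat_lit 122916198367)) (T.h (P (nat_lit 0)) (P (nat_lit 4745487774780)))))) (T.h (P (nat_lit 0)) (T.h (T.h (M (nat_lit 35231938395)) (T.h (P (nat_lit 0)) (M (nat_lit 3199359710419)))) (T.h (P (nat_lit 0)) (M (nat_lit 2258814362443)))))) (T.h (T.h (P (nat_lit 0)) (T.h (T.h (P (nat_lit 0)) (T.h (M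 (nat_lit 57397589471)) (T.h (P (nat_lit 0)) (M (nat_lit 50110067067179))))) (T.h (P (nat_lit 0)) (T.h (T.h (P (nat_lit 0)) (M (nat_lit 14575248641515))) (P (nat_lit 0)))))) (T.h (T.h (T.h (M (nat_lit 9214525143)) (T.h (P (nat_lit 0)) (P (nat_lit 3399413068688)))) (T.h (P (nat_lit 0)) (M (nat_lit 62837789895)))) (T.h (T.h (P (nat_lit 0)) (T.h (T.h (P (nat_lit 0)) (P (nat_lit 8274539775084))) (P (nat_lit 0)))) (P (nat_lit 356117349744))))))) (T.h (P (nat_lit 0)) (T.h (T.h (T.h (P (nat_lit 0)) (T.h (T.h (P (nat_lit 0)) (T.h (P (nat_lit 21412650584)) (T.h (P (nat_lit 0)) (P (nat_lit 432365200100))))) (T.h (P (nat_lit 0)) (T.h (T.h (P (nat_lit 0)) (M (nat_lit 384193447667))) (P (nat_lit 0)))))) (T.h (T.h (T.h (P (nat_lit 1577665820)) (T.h (P (nat_lit 0)) (T.h (M (nat_lit 143105412535)) (T.h (P (nat_lit 0)) (P (nat_lit 2467286574332)))))) (T.h (P (nat_lit 0)) (T.h (T.h (M (nat_lit 14716409891))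 (T.h (P (nat_lit 0)) (P (nat_lit 1959118488324)))) (T.h (P (nat_lit 0)) (M (nat_lit 2836147389019)))))) (T.h (T.h (P (nat_lit 0)) (T.h (T.h (P (nat_lit 0)) (P (nat_lit 418864981220))) (P (nat_lit 0)))) (T.h (T.h (T.h (P (nat_lit 7126922608)) (T.h (P (nat_lit 0)) (M (nat_lit 2583405958347)))) (T.h (P (nat_lit 0)) (P (nat_lit 2041933952936)))) (T.h (P (nat_lit 0)) (P (nat_lit 227502498704))))))) (P (nat_lit 0))))))))) (T.h (T.h (P (nat_lit 0)) (T.h (P (nat_lit 0)) (T.h (P (nat_lit 0)) (T.h (T.h (T.h (T.h (M (nat_lit 240952611)) (T.h (P (nat_lit 0)) (T.h (P (nat_lit 23955099200)) (T.h (P (nat_lit 0)) (T.h (M (nat_lit 115785857771)) (T.h (P (nat_lit 0)) (P (nat_lit 3120758784184)))))))) (T.h (P (nat_lit 0)) (T.h (T.h (P (nat_lit 24088657876)) (T.h (P (nat_lit 0)) (T.h (P (nat_lit 1726025247176)) (T.h (P (nat_lit 0)) (P (nat_lit 16395024796280)))))) (T.h (P (nat_lit 0)) (T.h (T.h (M (nat_lit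 130108224067)) (T.h (P (nat_lit 0)) (P (nat_lit 2702672493108)))) (T.h (P (nat_lit 0)) (P (nat_lit 928060151544)))))))) (T.h (T.h (P (nat_lit 0)) (T.h (T.h (P (nat_lit 0)) (T.h (P (nat_lit 132211322164)) (T.h (P (nat_lit 0)) (P (nat_lit 15982096147088))))) (T.h (P (nat_lit 0)) (T.h (T.h (P (nat_lit 0)) (P (nat_lit 4155598436848))) (P (nat_lit 0)))))) (T.h (T.h (T.h (M (nat_lit 2870013403)) (T.h (P (nat_lit 0)) (T.h (M (nat_lit 158122491143)) (T.h (P (nat_lit 0)) (M (nat_lit 19140825479327)))))) (T.h (P (nat_lit 0)) (T.h (T.h (M (nat_lit 72092093059)) (T.h (P (nat_lit 0)) (P (nat_lit 31634177829948)))) (T.h (P (nat_lit 0)) (M (nat_lit 16225615958179)))))) (T.h (T.h (P (nat_lit 0)) (T.h (T.h (P (nat_lit 0)) (M (nat_lit 4474343101239))) (P (nat_lit 0)))) (T.h (T.h (T.h (M (nat_lit 111682805863)) (T.h (P (nat_lit 0)) (M (nat_lit 7217337114931)))) (T.h (P (nat_lit 0)) (M (nat_lit 12035332563859))))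 (T.h (P (nat_lit 0)) (M (nat_lit 570382330911)))))))) (T.h (P (nat_lit 0)) (T.h (T.h (T.h (T.h (M (nat_lit 274552431)) (T.h (P (nat_lit 0)) (T.h (P (nat_lit 998927272)) (T.h (P (nat_lit 0)) (P (nat_lit 7482462901876)))))) (T.h (P (nat_lit 0)) (T.h (T.h (P (nat_lit 61491564484)) (T.h (P (nat_lit 0)) (P (nat_lit 1778903958204)))) (T.h (P (nat_lit 0)) (M (nat_lit 71344541823)))))) (T.h (T.h (P (nat_lit 0)) (T.h (T.h (P (nat_lit 0)) (T.h (P (nat_lit 291026119792)) (T.h (P (nat_lit 0)) (P (nat_lit 61342916579872))))) (T.h (P (nat_lit 0)) (T.h (T.h (P (nat_lit 0)) (M (nat_lit 2648321709895))) (P (nat_lit 0)))))) (T.h (T.h (T.h (P (nat_lit 9848416500)) (T.h (P (nat_lit 0)) (P (nat_lit 688899457336)))) (T.h (P (nat_lit 0)) (M (nat_lit 225655064951)))) (T.h (T.h (P (nat_lit 0)) (T.h (T.h (P (nat_lit 0)) (P (nat_lit 2550243782232))) (P (nat_lit 0)))) (M (nat_lit 202049537439)))))) (P (nat_lit 0))))))))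 en01_1))
def en01_3 : T ℤ := (T.h (T.h (T.h (T.h (P (nat_lit 0)) (T.h (T.h (P (nat_lit 879700096)) (T.h (P (nat_lit 0)) (T.h (M (nat_lit 28022295707)) (T.h (P (nat_lit 0)) (P (nat_lit 640123010020)))))) (T.h (P (nat_lit 0)) (T.h (T.h (M (nat_lit 42815398027)) (T.h (P (nat_lit 0)) (P (nat_lit 2943324322780)))) (T.h (P (nat_lit 0)) (P (nat_lit 468919726512))))))) (T.h (T.h (T.h (P (nat_lit 0)) (T.h (M (nat_lit 700437255)) (T.h (P (nat_lit 0)) (T.h (M (nat_lit 87304294823)) (T.h (P (nat_lit 0)) (P (nat_lit 149047614540))))))) (T.h (P (nat_lit 0)) (T.h (T.h (P (nat_lit 0)) (T.h (P (nat_lit 708801201884)) (T.h (P (nat_lit 0)) (P (nat_lit 3475358608680))))) (T.h (P (nat_lit 0)) (T.h (T.h (P (nat_lit 0)) (P (nat_lit 59789185396656))) (P (nat_lit 0))))))) (T.h (T.h (P (nat_lit 0)) (T.h (T.h (P (nat_lit 17397929780)) (T.h (P (nat_lit 0)) (M (nat_lit 1989595052447)))) (T.h (P (nat_lit 0)) (M (nat_lit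 2067715217815))))) (T.h (T.h (T.h (P (nat_lit 0)) (T.h (P (nat_lit 52095159556)) (T.h (P (nat_lit 0)) (P (nat_lit 512187418276))))) (T.h (P (nat_lit 0)) (T.h (T.h (P (nat_lit 0)) (P (nat_lit 21006929777512))) (P (nat_lit 0))))) (T.h (T.h (P (nat_lit 0)) (M (nat_lit 339024790871))) (T.h (T.h (T.h (P (nat_lit 0)) (M (nat_lit 2451059469815))) (P (nat_lit 0))) (P (nat_lit 0)))))))) (T.h (P (nat_lit 0)) (T.h (T.h (T.h (P (nat_lit 0)) (T.h (T.h (M (nat_lit 1360678343)) (T.h (P (nat_lit 0)) (T.h (M (nat_lit 340261977063)) (T.h (P (nat_lit 0)) (M (nat_lit 27527450039863)))))) (T.h (P (nat_lit 0)) (T.h (T.h (P (nat_lit 727237843572)) (T.h (P (nat_lit 0)) (M (nat_lit 39559011210863)))) (T.h (P (nat_lit 0)) (P (nat_lit 32103173122516))))))) (T.h (T.h (T.h (P (nat_lit 0)) (T.h (M (nat_lit 22879054187)) (T.h (P (nat_lit 0)) (P (nat_lit 452241159064))))) (T.h (P (nat_lit 0)) (T.h (T.h (P (nat_lit 0))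 (P (nat_lit 2440241216060))) (P (nat_lit 0))))) (T.h (T.h (P (nat_lit 0)) (T.h (T.h (M (nat_lit 371041385635)) (T.h (P (nat_lit 0)) (P (nat_lit 2762508245144)))) (T.h (P (nat_lit 0)) (P (nat_lit 28400773969380))))) (T.h (T.h (T.h (P (nat_lit 0)) (P (nat_lit 302697385976))) (P (nat_lit 0))) (T.h (T.h (P (nat_lit 0)) (P (nat_lit 2919659537564))) (P (nat_lit 0))))))) (P (nat_lit 0))))) (T.h (T.h (P (nat_lit 0)) (T.h (T.h (T.h (T.h (P (nat_lit 0)) (T.h (M (nat_lit 1564230595)) (T.h (P (nat_lit 0)) (T.h (M (nat_lit 19867817895)) (T.h (P (nat_lit 0)) (P (nat_lit 719224130748))))))) (T.h (P (nat_lit 0)) (T.h (T.h (P (nat_lit 0)) (T.h (M (nat_lit 571969753919)) (T.h (P (nat_lit 0)) (P (nat_lit 95379633032))))) (T.h (P (nat_lit 0)) (T.h (T.h (P (nat_lit 0)) (M (nat_lit 32694747301439))) (P (nat_lit 0))))))) (T.h (T.h (P (nat_lit 0)) (T.h (T.h (P (nat_lit 15546276904)) (T.h (P (nat_lit 0)) (P (nat_lit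 1600324383720)))) (T.h (P (nat_lit 0)) (M (nat_lit 14549804125911))))) (T.h (T.h (T.h (P (nat_lit 0)) (T.h (M (nat_lit 99512382815)) (T.h (P (nat_lit 0)) (M (nat_lit 8127743215703))))) (T.h (P (nat_lit 0)) (T.h (T.h (P (nat_lit 0)) (P (nat_lit 14683950378528))) (P (nat_lit 0))))) (T.h (T.h (P (nat_lit 0)) (M (nat_lit 337432401791))) (T.h (T.h (T.h (P (nat_lit 0)) (P (nat_lit 326733739932))) (P (nat_lit 0))) (P (nat_lit 0))))))) (P (nat_lit 0)))) (T.h (T.h (T.h (T.h (P (nat_lit 0)) (T.h (T.h (M (nat_lit 2895842351)) (T.h (P (nat_lit 0)) (T.h (M (nat_lit 43209498179)) (T.h (P (nat_lit 0)) (M (nat_lit 650508668187)))))) (T.h (P (nat_lit 0)) (T.h (T.h (M (nat_lit 19335977631)) (T.h (P (nat_lit 0)) (P (nat_lit 825934028136)))) (T.h (P (nat_lit 0)) (P (nat_lit 15231937610816))))))) (T.h (T.h (T.h (P (nat_lit 0)) (T.h (P (nat_lit 4837294752)) (T.h (P (nat_lit 0)) (P (nat_lit 165035169380)))))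 (T.h (P (nat_lit 0)) (T.h (T.h (P (nat_lit 0)) (M (nat_lit 1205384643539))) (P (nat_lit 0))))) (T.h (T.h (P (nat_lit 0)) (T.h (T.h (P (nat_lit 55826410928)) (T.h (P (nat_lit 0)) (M (nat_lit 6341172541943)))) (T.h (P (nat_lit 0)) (M (nat_lit 8561657333179))))) (T.h (T.h (T.h (P (nat_lit 0)) (M (nat_lit 402990232339))) (P (nat_lit 0))) (T.h (T.h (P (nat_lit 0)) (M (nat_lit 1854346115811))) (P (nat_lit 0))))))) (P (nat_lit 0))) (P (nat_lit 0)))))
def en01_4 : T ℤ := (T.h (T.h (P (nat_lit 0)) (T.h (P (nat_lit 0)) (T.h (T.h (T.h (P (nat_lit 0)) (T.h (T.h (P (nat_lit 1125541976)) (T.h (P (nat_lit 0)) (T.h (M (nat_lit 102405447291)) (T.h (P (nat_lit 0)) (M (nat_lit 1802583427019)))))) (T.h (P (nat_lit 0)) (T.h (T.h (M (nat_lit 110661965819)) (T.h (P (nat_lit 0)) (M (nat_lit 1299645032263)))) (T.h (P (nat_lit 0)) (P (nat_lit 1201250649036))))))) (T.h (T.h (T.h (P (nat_lit 0)) (T.h (M (nat_lit 18616958139))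 (T.h (P (nat_lit 0)) (T.h (P (nat_lit 58092664720)) (T.h (P (nat_lit 0)) (P (nat_lit 34146297824016))))))) (T.h (P (nat_lit 0)) (T.h (T.h (P (nat_lit 0)) (T.h (M (nat_lit 7518398777091)) (T.h (P (nat_lit 0)) (M (nat_lit 8526399227359))))) (T.h (P (nat_lit 0)) (T.h (T.h (P (nat_lit 0)) (M (nat_lit 34749920166199))) (P (nat_lit 0))))))) (T.h (T.h (P (nat_lit 0)) (T.h (T.h (M (nat_lit 86998258803)) (T.h (P (nat_lit 0)) (P (nat_lit 16472968138420)))) (T.h (P (nat_lit 0)) (P (nat_lit 2063871020932))))) (T.h (T.h (T.h (P (nat_lit 0)) (T.h (M (nat_lit 459976010023)) (T.h (P (nat_lit 0)) (M (nat_lit 6098901560591))))) (T.h (P (nat_lit 0)) (T.h (T.h (P (nat_lit 0)) (P (nat_lit 21837100597012))) (P (nat_lit 0))))) (T.h (T.h (P (nat_lit 0)) (P (nat_lit 5960117750064))) (T.h (T.h (T.h (P (nat_lit 0)) (M (nat_lit 5112433665671))) (P (nat_lit 0))) (P (nat_lit 0)))))))) (T.h (P (nat_lit 0)) (T.h (T.h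 (T.h (P (nat_lit 0)) (T.h (T.h (P (nat_lit 625989884)) (T.h (P (nat_lit 0)) (T.h (M (nat_lit 118503710491)) (T.h (P (nat_lit 0)) (M (nat_lit 18459149002291)))))) (T.h (P (nat_lit 0)) (T.h (T.h (M (nat_lit 226544324855)) (T.h (P (nat_lit 0)) (M (nat_lit 48896320218539)))) (T.h (P (nat_lit 0)) (P (nat_lit 953839489024))))))) (T.h (T.h (T.h (P (nat_lit 0)) (T.h (P (nat_lit 35767650908)) (T.h (P (nat_lit 0)) (P (nat_lit 235803069980))))) (T.h (P (nat_lit 0)) (T.h (T.h (P (nat_lit 0)) (M (nat_lit 61091456663))) (P (nat_lit 0))))) (T.h (T.h (P (nat_lit 0)) (T.h (T.h (P (nat_lit 258452460228)) (T.h (P (nat_lit 0)) (P (nat_lit 5039849148572)))) (T.h (P (nat_lit 0)) (M (nat_lit 4722516693503))))) (T.h (T.h (T.h (P (nat_lit 0)) (M (nat_lit 828810662007))) (P (nat_lit 0))) (T.h (T.h (P (nat_lit 0)) (P (nat_lit 2622777484252))) (P (nat_lit 0))))))) (P (nat_lit 0))))))) (T.h (T.h (P (nat_lit 0)) (T.h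 (T.h (T.h (T.h (P (nat_lit 0)) (T.h (P (nat_lit 5012720864)) (T.h (P (nat_lit 0)) (T.h (M (nat_lit 39230835879)) (T.h (P (nat_lit 0)) (P (nat_lit 1436602009864))))))) (T.h (P (nat_lit 0)) (T.h (T.h (P (nat_lit 0)) (T.h (M (nat_lit 290248590343)) (T.h (P (nat_lit 0)) (P (nat_lit 21882233956576))))) (T.h (P (nat_lit 0)) (T.h (T.h (P (nat_lit 0)) (P (nat_lit 9091475451008))) (P (nat_lit 0))))))) (T.h (T.h (P (nat_lit 0)) (T.h (T.h (P (nat_lit 18708805576)) (T.h (P (nat_lit 0)) (T.h (M (nat_lit 111687048383)) (T.h (P (nat_lit 0)) (P (nat_lit 41484866747624)))))) (T.h (P (nat_lit 0)) (T.h (T.h (M (nat_lit 385499261247)) (T.h (P (nat_lit 0)) (M (nat_lit 29201810871015)))) (T.h (P (nat_lit 0)) (P (nat_lit 34538084900576))))))) (T.h (T.h (T.h (P (nat_lit 0)) (T.h (P (nat_lit 91390517424)) (T.h (P (nat_lit 0)) (M (nat_lit 2514726761703))))) (T.h (P (nat_lit 0)) (T.h (T.h (P (nat_lit 0)) (M (nat_lit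 10522588957975))) (P (nat_lit 0))))) (T.h (T.h (P (nat_lit 0)) (T.h (T.h (P (nat_lit 20138860008)) (T.h (P (nat_lit 0)) (M (nat_lit 6860175980607)))) (T.h (P (nat_lit 0)) (P (nat_lit 2047950392136))))) (T.h (T.h (T.h (P (nat_lit 0)) (M (nat_lit 539468388647))) (P (nat_lit 0))) (T.h (T.h (P (nat_lit 0)) (M (nat_lit 10442489991407))) (P (nat_lit 0)))))))) (T.h (P (nat_lit 0)) (T.h (T.h (T.h (T.h (P (nat_lit 0)) (T.h (M (nat_lit 2274576651)) (T.h (P (nat_lit 0)) (T.h (P (nat_lit 86693667768)) (T.h (P (nat_lit 0)) (P (nat_lit 6950711100676))))))) (T.h (P (nat_lit 0)) (T.h (T.h (P (nat_lit 0)) (T.h (P (nat_lit 104020647776)) (T.h (P (nat_lit 0)) (M (nat_lit 37400814307511))))) (T.h (P (nat_lit 0)) (T.h (T.h (P (nat_lit 0)) (P (nat_lit 44215565245480))) (P (nat_lit 0))))))) (T.h (T.h (P (nat_lit 0)) (T.h (T.h (P (nat_lit 8127874176)) (T.h (P (nat_lit 0)) (P (nat_lit 958394446168)))) (T.h (P (nat_lit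 0)) (P (nat_lit 5404946579800))))) (T.h (T.h (T.h (P (nat_lit 0)) (T.h (P (nat_lit 87339736504)) (T.h (P (nat_lit 0)) (M (nat_lit 4327782115867))))) (T.h (P (nat_lit 0)) (T.h (T.h (P (nat_lit 0)) (M (nat_lit 20119421328647))) (P (nat_lit 0))))) (T.h (T.h (P (nat_lit 0)) (P (nat_lit 604550053784))) (T.h (T.h (T.h (P (nat_lit 0)) (P (nat_lit 2312953861800))) (P (nat_lit 0))) (P (nat_lit 0))))))) (P (nat_lit 0)))))) en01_3))
def en01_5 : T ℤ := (T.h (T.h (P (nat_lit 0)) (T.h (P (nat_lit 0)) (T.h (P (nat_lit 0)) (T.h (P (nat_lit 0)) (T.h (T.h (T.h (P (nat_lit 0)) (T.h (T.h (P (nat_lit 315731868)) (T.h (P (nat_lit 0)) (T.h (M (nat_lit 122916198367)) (T.h (P (nat_lit 0)) (P (nat_lit 4745487774780)))))) (T.h (P (nat_lit 0)) (T.h (T.h (M (nat_lit 9214525143)) (T.h (P (nat_lit 0)) (P (nat_lit 3399413068688)))) (T.h (P (nat_lit 0)) (P (nat_lit 356117349744))))))) (T.h (T.h (T.h (P (nat_lit 0)) (T.h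 (P (nat_lit 21274336216)) (T.h (P (nat_lit 0)) (T.h (M (nat_lit 927268703635)) (T.h (P (nat_lit 0)) (P (nat_lit 16516293637288))))))) (T.h (P (nat_lit 0)) (T.h (T.h (P (nat_lit 0)) (T.h (M (nat_lit 57397589471)) (T.h (P (nat_lit 0)) (M (nat_lit 50110067067179))))) (T.h (P (nat_lit 0)) (T.h (T.h (P (nat_lit 0)) (P (nat_lit 8274539775084))) (P (nat_lit 0))))))) (T.h (T.h (P (nat_lit 0)) (T.h (T.h (M (nat_lit 35231938395)) (T.h (P (nat_lit 0)) (M (nat_lit 3199359710419)))) (T.h (P (nat_lit 0)) (M (nat_lit 62837789895))))) (T.h (T.h (T.h (P (nat_lit 0)) (T.h (M (nat_lit 604497556115)) (T.h (P (nat_lit 0)) (M (nat_lit 31889304867559))))) (T.h (P (nat_lit 0)) (T.h (T.h (P (nat_lit 0)) (M (nat_lit 14575248641515))) (P (nat_lit 0))))) (T.h (T.h (P (nat_lit 0)) (M (nat_lit 2258814362443))) (T.h (T.h (T.h (P (nat_lit 0)) (P (nat_lit 3257229258328))) (P (nat_lit 0))) (P (nat_lit 0)))))))) (T.h (P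 (nat_lit 0)) (T.h (T.h (T.h (P (nat_lit 0)) (T.h (T.h (P (nat_lit 1577665820)) (T.h (P (nat_lit 0)) (T.h (M (nat_lit 143105412535)) (T.h (P (nat_lit 0)) (P (nat_lit 2467286574332)))))) (T.h (P (nat_lit 0)) (T.h (T.h (P (nat_lit 7126922608)) (T.h (P (nat_lit 0)) (M (nat_lit 2583405958347)))) (T.h (P (nat_lit 0)) (P (nat_lit 227502498704))))))) (T.h (T.h (T.h (P (nat_lit 0)) (T.h (P (nat_lit 21412650584)) (T.h (P (nat_lit 0)) (P (nat_lit 432365200100))))) (T.h (P (nat_lit 0)) (T.h (T.h (P (nat_lit 0)) (P (nat_lit 418864981220))) (P (nat_lit 0))))) (T.h (T.h (P (nat_lit 0)) (T.h (T.h (M (nat_lit 14716409891)) (T.h (P (nat_lit 0)) (P (nat_lit 1959118488324)))) (T.h (P (nat_lit 0)) (P (nat_lit 2041933952936))))) (T.h (T.h (T.h (P (nat_lit 0)) (M (nat_lit 384193447667))) (P (nat_lit 0))) (T.h (T.h (P (nat_lit 0)) (M (nat_lit 2836147389019))) (P (nat_lit 0))))))) (P (nat_lit 0))))))))) (T.h (T.h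 (P (nat_lit 0)) (T.h (P (nat_lit 0)) (T.h (P (nat_lit 0)) (T.h (T.h (T.h (T.h (P (nat_lit 0)) (T.h (P (nat_lit 3720186016)) (T.h (P (nat_lit 0)) (T.h (M (nat_lit 151641613007)) (T.h (P (nat_lit 0)) (P (nat_lit 1695679352080))))))) (T.h (P (nat_lit 0)) (T.h (T.h (P (nat_lit 0)) (T.h (M (nat_lit 135958288575)) (T.h (P (nat_lit 0)) (M (nat_lit 1282824399799))))) (T.h (P (nat_lit 0)) (T.h (T.h (P (nat_lit 0)) (P (nat_lit 4266391755928))) (P (nat_lit 0))))))) (T.h (T.h (P (nat_lit 0)) (T.h (T.h (M (nat_lit 32568198991)) (T.h (P (nat_lit 0)) (T.h (M (nat_lit 10079000012911)) (T.h (P (nat_lit 0)) (M (nat_lit 29678907463903)))))) (T.h (P (nat_lit 0)) (T.h (T.h (M (nat_lit 90131259151)) (T.h (P (nat_lit 0)) (P (nat_lit 5840403049592)))) (T.h (P (nat_lit 0)) (P (nat_lit 8877554766416))))))) (T.h (T.h (T.h (P (nat_lit 0)) (T.h (M (nat_lit 135958288575)) (T.h (P (nat_lit 0)) (M (nat_lit 1282824399799)))))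 (T.h (P (nat_lit 0)) (T.h (T.h (P (nat_lit 0)) (P (nat_lit 12668170811440))) (P (nat_lit 0))))) (T.h (T.h (P (nat_lit 0)) (T.h (T.h (M (nat_lit 90131259151)) (T.h (P (nat_lit 0)) (P (nat_lit 5840403049592)))) (T.h (P (nat_lit 0)) (M (nat_lit 18385159787519))))) (T.h (T.h (T.h (P (nat_lit 0)) (P (nat_lit 4266391755928))) (P (nat_lit 0))) (T.h (T.h (P (nat_lit 0)) (P (nat_lit 8877554766416))) (P (nat_lit 0)))))))) (T.h (P (nat_lit 0)) (T.h (T.h (T.h (T.h (P (nat_lit 0)) (T.h (P (nat_lit 5173349736)) (T.h (P (nat_lit 0)) (T.h (M (nat_lit 216861975119)) (T.h (P (nat_lit 0)) (M (nat_lit 16451894240415))))))) (T.h (P (nat_lit 0)) (T.h (T.h (P (nat_lit 0)) (T.h (P (nat_lit 72446598816)) (T.h (P (nat_lit 0)) (P (nat_lit 5646327650112))))) (T.h (P (nat_lit 0)) (T.h (T.h (P (nat_lit 0)) (M (nat_lit 3149552269167))) (P (nat_lit 0))))))) (T.h (T.h (P (nat_lit 0)) (T.h (T.h (M (nat_lit 65472194175))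 (T.h (P (nat_lit 0)) (P (nat_lit 1057063033296)))) (T.h (P (nat_lit 0)) (M (nat_lit 230060967327))))) (T.h (T.h (T.h (P (nat_lit 0)) (T.h (P (nat_lit 72446598816)) (T.h (P (nat_lit 0)) (P (nat_lit 5646327650112))))) (T.h (P (nat_lit 0)) (T.h (T.h (P (nat_lit 0)) (P (nat_lit 20619801060912))) (P (nat_lit 0))))) (T.h (T.h (P (nat_lit 0)) (M (nat_lit 230060967327))) (T.h (T.h (T.h (P (nat_lit 0)) (M (nat_lit 3149552269167))) (P (nat_lit 0))) (P (nat_lit 0))))))) (P (nat_lit 0)))))))) en01_4))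
def en01_6 : T ℤ := (T.h (T.h (T.h (T.h (P (nat_lit 0)) (T.h (T.h (P (nat_lit 0)) (T.h (P (nat_lit 773556572)) (T.h (P (nat_lit 0)) (T.h (M (nat_lit 29341806819)) (T.h (P (nat_lit 0)) (P (nat_lit 104055129860))))))) (T.h (P (nat_lit 0)) (T.h (T.h (P (nat_lit 0)) (T.h (P (nat_lit 89904171744)) (T.h (P (nat_lit 0)) (P (nat_lit 4043830387596))))) (T.h (P (nat_lit 0)) (T.h (T.h (P (nat_lit 0)) (M (nat_lit 7264737378171))) (P (nat_lit 0)))))))) (T.h (T.h (T.h (M (nat_lit 634822291)) (T.h (P (nat_lit 0)) (T.h (P (nat_lit 26360816196)) (T.h (P (nat_lit 0)) (M (nat_lit 798847968495)))))) (T.h (P (nat_lit 0)) (T.h (T.h (M (nat_lit 65691512815)) (T.h (P (nat_lit 0)) (M (nat_lit 680591041151)))) (T.h (P (nat_lit 0)) (P (nat_lit 1300803205540)))))) (T.h (T.h (P (nat_lit 0)) (T.h (T.h (P (nat_lit 0)) (T.h (M (nat_lit 317902062379)) (T.h (P (nat_lit 0)) (P (nat_lit 7806602046604))))) (T.h (P (nat_lit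 0)) (T.h (T.h (P (nat_lit 0)) (P (nat_lit 26964378051668))) (P (nat_lit 0)))))) (T.h (T.h (T.h (P (nat_lit 54760847260)) (T.h (P (nat_lit 0)) (M (nat_lit 1392830212103)))) (T.h (P (nat_lit 0)) (P (nat_lit 2832980165076)))) (T.h (T.h (P (nat_lit 0)) (T.h (T.h (P (nat_lit 0)) (M (nat_lit 10902250512743))) (P (nat_lit 0)))) (M (nat_lit 2434425594495))))))) (T.h (P (nat_lit 0)) (T.h (T.h (T.h (P (nat_lit 0)) (T.h (T.h (P (nat_lit 0)) (T.h (P (nat_lit 98023174944)) (T.h (P (nat_lit 0)) (P (nat_lit 4221244183268))))) (T.h (P (nat_lit 0)) (T.h (T.h (P (nat_lit 0)) (M (nat_lit 1789317969879))) (P (nat_lit 0)))))) (T.h (T.h (T.h (P (nat_lit 2150028556)) (T.h (P (nat_lit 0)) (T.h (P (nat_lit 1634556840848)) (T.h (P (nat_lit 0)) (M (nat_lit 5210871302471)))))) (T.h (P (nat_lit 0)) (T.h (T.h (M (nat_lit 1090953884283)) (T.h (P (nat_lit 0)) (M (nat_lit 2789524713743)))) (T.h (P (nat_lit 0)) (M (nat_lit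 10038517015107)))))) (T.h (T.h (P (nat_lit 0)) (T.h (T.h (P (nat_lit 0)) (P (nat_lit 4962642007084))) (P (nat_lit 0)))) (T.h (T.h (T.h (M (nat_lit 444843491131)) (T.h (P (nat_lit 0)) (M (nat_lit 5201440406575)))) (T.h (P (nat_lit 0)) (P (nat_lit 75779603692664)))) (T.h (P (nat_lit 0)) (P (nat_lit 7167686820336))))))) (P (nat_lit 0))))) (T.h (T.h (P (nat_lit 0)) (T.h (T.h (T.h (T.h (P (nat_lit 33624692)) (T.h (P (nat_lit 0)) (T.h (P (nat_lit 8983831060)) (T.h (P (nat_lit 0)) (P (nat_lit 101519081844)))))) (T.h (P (nat_lit 0)) (T.h (T.h (P (nat_lit 33863994464)) (T.h (P (nat_lit 0)) (P (nat_lit 875367708676)))) (T.h (P (nat_lit 0)) (P (nat_lit 2724341552680)))))) (T.h (T.h (P (nat_lit 0)) (T.h (T.h (P (nat_lit 0)) (T.h (P (nat_lit 543190623480)) (T.h (P (nat_lit 0)) (P (nat_lit 15839927064))))) (T.h (P (nat_lit 0)) (T.h (T.h (P (nat_lit 0)) (M (nat_lit 72761330461551))) (P (nat_lit 0))))))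 (T.h (T.h (T.h (M (nat_lit 21046446999)) (T.h (P (nat_lit 0)) (M (nat_lit 362885398559)))) (T.h (P (nat_lit 0)) (M (nat_lit 24125252710691)))) (T.h (T.h (P (nat_lit 0)) (T.h (T.h (P (nat_lit 0)) (M (nat_lit 7944550323191))) (P (nat_lit 0)))) (P (nat_lit 960168460028)))))) (P (nat_lit 0)))) (T.h (T.h (T.h (T.h (P (nat_lit 0)) (T.h (T.h (P (nat_lit 0)) (T.h (M (nat_lit 24946614619)) (T.h (P (nat_lit 0)) (P (nat_lit 510139218068))))) (T.h (P (nat_lit 0)) (T.h (T.h (P (nat_lit 0)) (P (nat_lit 7633949191492))) (P (nat_lit 0)))))) (T.h (T.h (T.h (P (nat_lit 3486188720)) (T.h (P (nat_lit 0)) (T.h (P (nat_lit 42879937796)) (T.h (P (nat_lit 0)) (M (nat_lit 1894490076687)))))) (T.h (P (nat_lit 0)) (T.h (T.h (P (nat_lit 1269811777044)) (T.h (P (nat_lit 0)) (P (nat_lit 5158326892416)))) (T.h (P (nat_lit 0)) (P (nat_lit 60852380344020)))))) (T.h (T.h (P (nat_lit 0)) (T.h (T.h (P (nat_lit 0)) (P (nat_lit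 1359106102380))) (P (nat_lit 0)))) (T.h (T.h (T.h (M (nat_lit 4197371503)) (T.h (P (nat_lit 0)) (P (nat_lit 2382065874532)))) (T.h (P (nat_lit 0)) (M (nat_lit 14103368136331)))) (T.h (P (nat_lit 0)) (M (nat_lit 1431108359487))))))) (P (nat_lit 0))) (P (nat_lit 0)))))
def en01_7 : T ℤ := (T.h (T.h (P (nat_lit 0)) (T.h (P (nat_lit 0)) (T.h (T.h (T.h (P (nat_lit 0)) (T.h (T.h (P (nat_lit 0)) (T.h (M (nat_lit 18616958139)) (T.h (P (nat_lit 0)) (T.h (P (nat_lit 58092664720)) (T.h (P (nat_lit 0)) (P (nat_lit 34146297824016))))))) (T.h (P (nat_lit 0)) (T.h (T.h (P (nat_lit 0)) (T.h (M (nat_lit 459976010023)) (T.h (P (nat_lit 0)) (M (nat_lit 6098901560591))))) (T.h (P (nat_lit 0)) (T.h (T.h (P (nat_lit 0)) (M (nat_lit 5112433665671))) (P (nat_lit 0)))))))) (T.h (T.h (T.h (P (nat_lit 1125541976)) (T.h (P (nat_lit 0)) (T.h (M (nat_lit 102405447291)) (T.h (P (nat_lit 0)) (M (nat_lit 1802583427019))))))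 (T.h (P (nat_lit 0)) (T.h (T.h (M (nat_lit 86998258803)) (T.h (P (nat_lit 0)) (P (nat_lit 16472968138420)))) (T.h (P (nat_lit 0)) (P (nat_lit 5960117750064)))))) (T.h (T.h (P (nat_lit 0)) (T.h (T.h (P (nat_lit 0)) (T.h (M (nat_lit 7518398777091)) (T.h (P (nat_lit 0)) (M (nat_lit 8526399227359))))) (T.h (P (nat_lit 0)) (T.h (T.h (P (nat_lit 0)) (P (nat_lit 21837100597012))) (P (nat_lit 0)))))) (T.h (T.h (T.h (M (nat_lit 110661965819)) (T.h (P (nat_lit 0)) (M (nat_lit 1299645032263)))) (T.h (P (nat_lit 0)) (P (nat_lit 2063871020932)))) (T.h (T.h (P (nat_lit 0)) (T.h (T.h (P (nat_lit 0)) (M (nat_lit 34749920166199))) (P (nat_lit 0)))) (P (nat_lit 1201250649036))))))) (T.h (P (nat_lit 0)) (T.h (T.h (T.h (P (nat_lit 0)) (T.h (T.h (P (nat_lit 0)) (T.h (P (nat_lit 35767650908)) (T.h (P (nat_lit 0)) (P (nat_lit 235803069980))))) (T.h (P (nat_lit 0)) (T.h (T.h (P (nat_lit 0)) (M (nat_lit 828810662007)))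 (P (nat_lit 0)))))) (T.h (T.h (T.h (P (nat_lit 625989884)) (T.h (P (nat_lit 0)) (T.h (M (nat_lit 118503710491)) (T.h (P (nat_lit 0)) (M (nat_lit 18459149002291)))))) (T.h (P (nat_lit 0)) (T.h (T.h (P (nat_lit 258452460228)) (T.h (P (nat_lit 0)) (P (nat_lit 5039849148572)))) (T.h (P (nat_lit 0)) (P (nat_lit 2622777484252)))))) (T.h (T.h (P (nat_lit 0)) (T.h (T.h (P (nat_lit 0)) (M (nat_lit 61091456663))) (P (nat_lit 0)))) (T.h (T.h (T.h (M (nat_lit 226544324855)) (T.h (P (nat_lit 0)) (M (nat_lit 48896320218539)))) (T.h (P (nat_lit 0)) (M (nat_lit 4722516693503)))) (T.h (P (nat_lit 0)) (P (nat_lit 953839489024))))))) (P (nat_lit 0))))))) (T.h (T.h (P (nat_lit 0)) (T.h (T.h (T.h (T.h (M (nat_lit 183699959)) (T.h (P (nat_lit 0)) (T.h (P (nat_lit 4289854488)) (T.h (P (nat_lit 0)) (T.h (M (nat_lit 788515321151)) (T.h (P (nat_lit 0)) (M (nat_lit 3069982897151)))))))) (T.h (P (nat_lit 0)) (T.h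 (T.h (P (nat_lit 1717054020)) (T.h (P (nat_lit 0)) (T.h (M (nat_lit 634131238595)) (T.h (P (nat_lit 0)) (M (nat_lit 20258882375231)))))) (T.h (P (nat_lit 0)) (T.h (T.h (P (nat_lit 129911464848)) (T.h (P (nat_lit 0)) (M (nat_lit 14156699214155)))) (T.h (P (nat_lit 0)) (P (nat_lit 7024722019968)))))))) (T.h (T.h (P (nat_lit 0)) (T.h (T.h (P (nat_lit 0)) (T.h (P (nat_lit 466072355256)) (T.h (P (nat_lit 0)) (M (nat_lit 29572569766031))))) (T.h (P (nat_lit 0)) (T.h (T.h (P (nat_lit 0)) (P (nat_lit 37317741171840))) (P (nat_lit 0)))))) (T.h (T.h (T.h (P (nat_lit 1717054020)) (T.h (P (nat_lit 0)) (T.h (M (nat_lit 634131238595)) (T.h (P (nat_lit 0)) (M (nat_lit 20258882375231)))))) (T.h (P (nat_lit 0)) (T.h (T.h (P (nat_lit 2701267874832)) (T.h (P (nat_lit 0)) (M (nat_lit 31484464921799)))) (T.h (P (nat_lit 0)) (P (nat_lit 31657657901748)))))) (T.h (T.h (P (nat_lit 0)) (T.h (T.h (P (nat_lit 0))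 (P (nat_lit 37317741171840))) (P (nat_lit 0)))) (T.h (T.h (T.h (P (nat_lit 129911464848)) (T.h (P (nat_lit 0)) (M (nat_lit 14156699214155)))) (T.h (P (nat_lit 0)) (P (nat_lit 31657657901748)))) (T.h (P (nat_lit 0)) (P (nat_lit 7024722019968)))))))) (T.h (P (nat_lit 0)) (T.h (T.h (T.h (T.h (P (nat_lit 475708624)) (T.h (P (nat_lit 0)) (T.h (P (nat_lit 98023174944)) (T.h (P (nat_lit 0)) (P (nat_lit 219691382280)))))) (T.h (P (nat_lit 0)) (T.h (T.h (P (nat_lit 82299572920)) (T.h (P (nat_lit 0)) (P (nat_lit 2127085053632)))) (T.h (P (nat_lit 0)) (M (nat_lit 2700450575871)))))) (T.h (T.h (P (nat_lit 0)) (T.h (T.h (P (nat_lit 0)) (T.h (P (nat_lit 1524829361600)) (T.h (P (nat_lit 0)) (M (nat_lit 3719366284991))))) (T.h (P (nat_lit 0)) (T.h (T.h (P (nat_lit 0)) (M (nat_lit 65697020036159))) (P (nat_lit 0)))))) (T.h (T.h (T.h (P (nat_lit 82299572920)) (T.h (P (nat_lit 0)) (P (nat_lit 2127085053632))))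 (T.h (P (nat_lit 0)) (P (nat_lit 5357714950224)))) (T.h (T.h (P (nat_lit 0)) (T.h (T.h (P (nat_lit 0)) (M (nat_lit 65697020036159))) (P (nat_lit 0)))) (M (nat_lit 2700450575871)))))) (P (nat_lit 0)))))) en01_6))
def en01_8 : T ℤ := (T.h (T.h (T.h (T.h (P (nat_lit 0)) (T.h (T.h (M (nat_lit 634822291)) (T.h (P (nat_lit 0)) (T.h (P (nat_lit 26360816196)) (T.h (P (nat_lit 0)) (M (nat_lit 798847968495)))))) (T.h (P (nat_lit 0)) (T.h (T.h (P (nat_lit 54760847260)) (T.h (P (nat_lit 0)) (M (nat_lit 1392830212103)))) (T.h (P (nat_lit 0)) (M (nat_lit 2434425594495))))))) (T.h (T.h (T.h (P (nat_lit 0)) (T.h (P (nat_lit 773556572)) (T.h (P (nat_lit 0)) (T.h (M (nat_lit 29341806819)) (T.h (P (nat_lit 0)) (P (nat_lit 104055129860))))))) (T.h (P (nat_lit 0)) (T.h (T.h (P (nat_lit 0)) (T.h (M (nat_lit 317902062379)) (T.h (P (nat_lit 0)) (P (nat_lit 7806602046604))))) (T.h (P (nat_lit 0)) (T.h (T.h (P (nat_lit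 0)) (M (nat_lit 10902250512743))) (P (nat_lit 0))))))) (T.h (T.h (P (nat_lit 0)) (T.h (T.h (M (nat_lit 65691512815)) (T.h (P (nat_lit 0)) (M (nat_lit 680591041151)))) (T.h (P (nat_lit 0)) (P (nat_lit 2832980165076))))) (T.h (T.h (T.h (P (nat_lit 0)) (T.h (P (nat_lit 89904171744)) (T.h (P (nat_lit 0)) (P (nat_lit 4043830387596))))) (T.h (P (nat_lit 0)) (T.h (T.h (P (nat_lit 0)) (P (nat_lit 26964378051668))) (P (nat_lit 0))))) (T.h (T.h (P (nat_lit 0)) (P (nat_lit 1300803205540))) (T.h (T.h (T.h (P (nat_lit 0)) (M (nat_lit 7264737378171))) (P (nat_lit 0))) (P (nat_lit 0)))))))) (T.h (P (nat_lit 0)) (T.h (T.h (T.h (P (nat_lit 0)) (T.h (T.h (P (nat_lit 2150028556)) (T.h (P (nat_lit 0)) (T.h (P (nat_lit 1634556840848)) (T.h (P (nat_lit 0)) (M (nat_lit 5210871302471)))))) (T.h (P (nat_lit 0)) (T.h (T.h (M (nat_lit 444843491131)) (T.h (P (nat_lit 0)) (M (nat_lit 5201440406575)))) (T.h (P (nat_lit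 0)) (P (nat_lit 7167686820336))))))) (T.h (T.h (T.h (P (nat_lit 0)) (T.h (P (nat_lit 98023174944)) (T.h (P (nat_lit 0)) (P (nat_lit 4221244183268))))) (T.h (P (nat_lit 0)) (T.h (T.h (P (nat_lit 0)) (P (nat_lit 4962642007084))) (P (nat_lit 0))))) (T.h (T.h (P (nat_lit 0)) (T.h (T.h (M (nat_lit 1090953884283)) (T.h (P (nat_lit 0)) (M (nat_lit 2789524713743)))) (T.h (P (nat_lit 0)) (P (nat_lit 75779603692664))))) (T.h (T.h (T.h (P (nat_lit 0)) (M (nat_lit 1789317969879))) (P (nat_lit 0))) (T.h (T.h (P (nat_lit 0)) (M (nat_lit 10038517015107))) (P (nat_lit 0))))))) (P (nat_lit 0))))) (T.h (T.h (P (nat_lit 0)) (T.h (T.h (T.h (T.h (P (nat_lit 0)) (T.h (P (nat_lit 3644316680)) (T.h (P (nat_lit 0)) (T.h (P (nat_lit 52929275568)) (T.h (P (nat_lit 0)) (M (nat_lit 1806686445151))))))) (T.h (P (nat_lit 0)) (T.h (T.h (P (nat_lit 0)) (T.h (P (nat_lit 60069812504)) (T.h (P (nat_lit 0)) (P (nat_lit 6754373362260)))))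 (T.h (P (nat_lit 0)) (T.h (T.h (P (nat_lit 0)) (P (nat_lit 977609682820))) (P (nat_lit 0))))))) (T.h (T.h (P (nat_lit 0)) (T.h (T.h (M (nat_lit 75421227743)) (T.h (P (nat_lit 0)) (M (nat_lit 2746916588111)))) (T.h (P (nat_lit 0)) (P (nat_lit 1609503327016))))) (T.h (T.h (T.h (P (nat_lit 0)) (T.h (P (nat_lit 60069812504)) (T.h (P (nat_lit 0)) (P (nat_lit 6754373362260))))) (T.h (P (nat_lit 0)) (T.h (T.h (P (nat_lit 0)) (P (nat_lit 32595700944384))) (P (nat_lit 0))))) (T.h (T.h (P (nat_lit 0)) (P (nat_lit 1609503327016))) (T.h (T.h (T.h (P (nat_lit 0)) (P (nat_lit 977609682820))) (P (nat_lit 0))) (P (nat_lit 0))))))) (P (nat_lit 0)))) (T.h (T.h (T.h (T.h (P (nat_lit 0)) (T.h (T.h (P (nat_lit 4867360676)) (T.h (P (nat_lit 0)) (T.h (P (nat_lit 380234304)) (T.h (P (nat_lit 0)) (M (nat_lit 4109311860167)))))) (T.h (P (nat_lit 0)) (T.h (T.h (M (nat_lit 915442992443)) (T.h (P (nat_lit 0)) (M (nat_lit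 2098920703199)))) (T.h (P (nat_lit 0)) (M (nat_lit 19640317711147))))))) (T.h (T.h (T.h (P (nat_lit 0)) (T.h (M (nat_lit 49666268631)) (T.h (P (nat_lit 0)) (P (nat_lit 491325128064))))) (T.h (P (nat_lit 0)) (T.h (T.h (P (nat_lit 0)) (M (nat_lit 7223518018027))) (P (nat_lit 0))))) (T.h (T.h (P (nat_lit 0)) (T.h (T.h (M (nat_lit 1038526473903)) (T.h (P (nat_lit 0)) (P (nat_lit 25241922720820)))) (T.h (P (nat_lit 0)) (P (nat_lit 13470483683376))))) (T.h (T.h (T.h (P (nat_lit 0)) (M (nat_lit 1269696835211))) (P (nat_lit 0))) (T.h (T.h (P (nat_lit 0)) (M (nat_lit 9704359078339))) (P (nat_lit 0))))))) (P (nat_lit 0))) (P (nat_lit 0)))))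
def en01_9 : T ℤ := (T.h (T.h (P (nat_lit 0)) (T.h (P (nat_lit 0)) (T.h (T.h (T.h (P (nat_lit 0)) (T.h (T.h (M (nat_lit 210299143)) (T.h (P (nat_lit 0)) (T.h (M (nat_lit 121936263535)) (T.h (P (nat_lit 0)) (M (nat_lit 4371671727707)))))) (T.h (P (nat_lit 0)) (T.h (T.h (M (nat_lit 1882876195)) (T.h (P (nat_lit 0)) (M (nat_lit 603797199843)))) (T.h (P (nat_lit 0)) (P (nat_lit 64442561220))))))) (T.h (T.h (T.h (P (nat_lit 0)) (T.h (P (nat_lit 27385078324)) (T.h (P (nat_lit 0)) (T.h (M (nat_lit 1126560325859)) (T.h (P (nat_lit 0)) (P (nat_lit 3881788220920))))))) (T.h (P (nat_lit 0)) (T.h (T.h (P (nat_lit 0)) (T.h (M (nat_lit 99802890143)) (T.h (P (nat_lit 0)) (M (nat_lit 37598835159175))))) (T.h (P (nat_lit 0)) (T.h (T.h (P (nat_lit 0)) (P (nat_lit 8297385599676))) (P (nat_lit 0))))))) (T.h (T.h (P (nat_lit 0)) (T.h (T.h (M (nat_lit 87510868899)) (T.h (P (nat_lit 0)) (M (nat_lit 8109264985315))))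 (T.h (P (nat_lit 0)) (P (nat_lit 4393753051024))))) (T.h (T.h (T.h (P (nat_lit 0)) (T.h (M (nat_lit 971776183511)) (T.h (P (nat_lit 0)) (M (nat_lit 72492553528491))))) (T.h (P (nat_lit 0)) (T.h (T.h (P (nat_lit 0)) (P (nat_lit 63526456181604))) (P (nat_lit 0))))) (T.h (T.h (P (nat_lit 0)) (P (nat_lit 7466305372136))) (T.h (T.h (T.h (P (nat_lit 0)) (P (nat_lit 2010107731552))) (P (nat_lit 0))) (P (nat_lit 0)))))))) (T.h (P (nat_lit 0)) (T.h (T.h (T.h (P (nat_lit 0)) (T.h (T.h (M (nat_lit 772622763)) (T.h (P (nat_lit 0)) (T.h (P (nat_lit 525427935416)) (T.h (P (nat_lit 0)) (M (nat_lit 8473575650535)))))) (T.h (P (nat_lit 0)) (T.h (T.h (P (nat_lit 41721799748)) (T.h (P (nat_lit 0)) (M (nat_lit 71000500943)))) (T.h (P (nat_lit 0)) (P (nat_lit 219218217028))))))) (T.h (T.h (T.h (P (nat_lit 0)) (T.h (M (nat_lit 92451741383)) (T.h (P (nat_lit 0)) (M (nat_lit 1206369615283))))) (T.h (P (nat_lit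 0)) (T.h (T.h (P (nat_lit 0)) (P (nat_lit 275968717888))) (P (nat_lit 0))))) (T.h (T.h (P (nat_lit 0)) (T.h (T.h (M (nat_lit 64126741035)) (T.h (P (nat_lit 0)) (M (nat_lit 26007970418827)))) (T.h (P (nat_lit 0)) (M (nat_lit 9154115418335))))) (T.h (T.h (T.h (P (nat_lit 0)) (M (nat_lit 6089980793291))) (P (nat_lit 0))) (T.h (T.h (P (nat_lit 0)) (P (nat_lit 1186521070896))) (P (nat_lit 0))))))) (P (nat_lit 0))))))) (T.h (T.h (P (nat_lit 0)) (T.h (T.h (T.h (T.h (P (nat_lit 0)) (T.h (P (nat_lit 5012720864)) (T.h (P (nat_lit 0)) (T.h (M (nat_lit 39230835879)) (T.h (P (nat_lit 0)) (P (nat_lit 1436602009864))))))) (T.h (P (nat_lit 0)) (T.h (T.h (P (nat_lit 0)) (T.h (P (nat_lit 91390517424)) (T.h (P (nat_lit 0)) (M (nat_lit 2514726761703))))) (T.h (P (nat_lit 0)) (T.h (T.h (P (nat_lit 0)) (M (nat_lit 539468388647))) (P (nat_lit 0))))))) (T.h (T.h (P (nat_lit 0)) (T.h (T.h (P (nat_lit 18708805576))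 (T.h (P (nat_lit 0)) (T.h (M (nat_lit 111687048383)) (T.h (P (nat_lit 0)) (P (nat_lit 41484866747624)))))) (T.h (P (nat_lit 0)) (T.h (T.h (P (nat_lit 20138860008)) (T.h (P (nat_lit 0)) (M (nat_lit 6860175980607)))) (T.h (P (nat_lit 0)) (M (nat_lit 10442489991407))))))) (T.h (T.h (T.h (P (nat_lit 0)) (T.h (M (nat_lit 290248590343)) (T.h (P (nat_lit 0)) (P (nat_lit 21882233956576))))) (T.h (P (nat_lit 0)) (T.h (T.h (P (nat_lit 0)) (M (nat_lit 10522588957975))) (P (nat_lit 0))))) (T.h (T.h (P (nat_lit 0)) (T.h (T.h (M (nat_lit 385499261247)) (T.h (P (nat_lit 0)) (M (nat_lit 29201810871015)))) (T.h (P (nat_lit 0)) (P (nat_lit 2047950392136))))) (T.h (T.h (T.h (P (nat_lit 0)) (P (nat_lit 9091475451008))) (P (nat_lit 0))) (T.h (T.h (P (nat_lit 0)) (P (nat_lit 34538084900576))) (P (nat_lit 0)))))))) (T.h (P (nat_lit 0)) (T.h (T.h (T.h (T.h (P (nat_lit 0)) (T.h (M (nat_lit 2274576651)) (T.h (P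 (nat_lit 0)) (T.h (P (nat_lit 86693667768)) (T.h (P (nat_lit 0)) (P (nat_lit 6950711100676))))))) (T.h (P (nat_lit 0)) (T.h (T.h (P (nat_lit 0)) (T.h (P (nat_lit 87339736504)) (T.h (P (nat_lit 0)) (M (nat_lit 4327782115867))))) (T.h (P (nat_lit 0)) (T.h (T.h (P (nat_lit 0)) (P (nat_lit 2312953861800))) (P (nat_lit 0))))))) (T.h (T.h (P (nat_lit 0)) (T.h (T.h (P (nat_lit 8127874176)) (T.h (P (nat_lit 0)) (P (nat_lit 958394446168)))) (T.h (P (nat_lit 0)) (P (nat_lit 604550053784))))) (T.h (T.h (T.h (P (nat_lit 0)) (T.h (P (nat_lit 104020647776)) (T.h (P (nat_lit 0)) (M (nat_lit 37400814307511))))) (T.h (P (nat_lit 0)) (T.h (T.h (P (nat_lit 0)) (M (nat_lit 20119421328647))) (P (nat_lit 0))))) (T.h (T.h (P (nat_lit 0)) (P (nat_lit 5404946579800))) (T.h (T.h (T.h (P (nat_lit 0)) (P (nat_lit 44215565245480))) (P (nat_lit 0))) (P (nat_lit 0))))))) (P (nat_lit 0)))))) en01_8))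
def en01_10 : T ℤ := (T.h (T.h (T.h (T.h (P (nat_lit 0)) (T.h (T.h (P (nat_lit 0)) (T.h (M (nat_lit 700437255)) (T.h (P (nat_lit 0)) (T.h (M (nat_lit 87304294823)) (T.h (P (nat_lit 0)) (P (nat_lit 149047614540))))))) (T.h (P (nat_lit 0)) (T.h (T.h (P (nat_lit 0)) (T.h (P (nat_lit 52095159556)) (T.h (P (nat_lit 0)) (P (nat_lit 512187418276))))) (T.h (P (nat_lit 0)) (T.h (T.h (P (nat_lit 0)) (M (nat_lit 2451059469815))) (P (nat_lit 0)))))))) (T.h (T.h (T.h (P (nat_lit 879700096)) (T.h (P (nat_lit 0)) (T.h (M (nat_lit 28022295707)) (T.h (P (nat_lit 0)) (P (nat_lit 640123010020)))))) (T.h (P (nat_lit 0)) (T.h (T.h (P (nat_lit 17397929780)) (T.h (P (nat_lit 0)) (M (nat_lit 1989595052447)))) (T.h (P (nat_lit 0)) (M (nat_lit 339024790871)))))) (T.h (T.h (P (nat_lit 0)) (T.h (T.h (P (nat_lit 0)) (T.h (P (nat_lit 708801201884)) (T.h (P (nat_lit 0)) (P (nat_lit 3475358608680))))) (T.h (P (nat_lit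 0)) (T.h (T.h (P (nat_lit 0)) (P (nat_lit 21006929777512))) (P (nat_lit 0)))))) (T.h (T.h (T.h (M (nat_lit 42815398027)) (T.h (P (nat_lit 0)) (P (nat_lit 2943324322780)))) (T.h (P (nat_lit 0)) (M (nat_lit 2067715217815)))) (T.h (T.h (P (nat_lit 0)) (T.h (T.h (P (nat_lit 0)) (P (nat_lit 59789185396656))) (P (nat_lit 0)))) (P (nat_lit 468919726512))))))) (T.h (P (nat_lit 0)) (T.h (T.h (T.h (P (nat_lit 0)) (T.h (T.h (P (nat_lit 0)) (T.h (M (nat_lit 22879054187)) (T.h (P (nat_lit 0)) (P (nat_lit 452241159064))))) (T.h (P (nat_lit 0)) (T.h (T.h (P (nat_lit 0)) (P (nat_lit 302697385976))) (P (nat_lit 0)))))) (T.h (T.h (T.h (M (nat_lit 1360678343)) (T.h (P (nat_lit 0)) (T.h (M (nat_lit 340261977063)) (T.h (P (nat_lit 0)) (M (nat_lit 27527450039863)))))) (T.h (P (nat_lit 0)) (T.h (T.h (M (nat_lit 371041385635)) (T.h (P (nat_lit 0)) (P (nat_lit 2762508245144)))) (T.h (P (nat_lit 0)) (P (nat_lit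 2919659537564)))))) (T.h (T.h (P (nat_lit 0)) (T.h (T.h (P (nat_lit 0)) (P (nat_lit 2440241216060))) (P (nat_lit 0)))) (T.h (T.h (T.h (P (nat_lit 727237843572)) (T.h (P (nat_lit 0)) (M (nat_lit 39559011210863)))) (T.h (P (nat_lit 0)) (P (nat_lit 28400773969380)))) (T.h (P (nat_lit 0)) (P (nat_lit 32103173122516))))))) (P (nat_lit 0))))) (T.h (T.h (P (nat_lit 0)) (T.h (T.h (T.h (T.h (P (nat_lit 33624692)) (T.h (P (nat_lit 0)) (T.h (P (nat_lit 8983831060)) (T.h (P (nat_lit 0)) (P (nat_lit 101519081844)))))) (T.h (P (nat_lit 0)) (T.h (T.h (M (nat_lit 21046446999)) (T.h (P (nat_lit 0)) (M (nat_lit 362885398559)))) (T.h (P (nat_lit 0)) (P (nat_lit 960168460028)))))) (T.h (T.h (P (nat_lit 0)) (T.h (T.h (P (nat_lit 0)) (T.h (P (nat_lit 543190623480)) (T.h (P (nat_lit 0)) (P (nat_lit 15839927064))))) (T.h (P (nat_lit 0)) (T.h (T.h (P (nat_lit 0)) (M (nat_lit 7944550323191))) (P (nat_lit 0))))))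 (T.h (T.h (T.h (P (nat_lit 33863994464)) (T.h (P (nat_lit 0)) (P (nat_lit 875367708676)))) (T.h (P (nat_lit 0)) (M (nat_lit 24125252710691)))) (T.h (T.h (P (nat_lit 0)) (T.h (T.h (P (nat_lit 0)) (M (nat_lit 72761330461551))) (P (nat_lit 0)))) (P (nat_lit 2724341552680)))))) (P (nat_lit 0)))) (T.h (T.h (T.h (T.h (P (nat_lit 0)) (T.h (T.h (P (nat_lit 0)) (T.h (M (nat_lit 49666268631)) (T.h (P (nat_lit 0)) (P (nat_lit 491325128064))))) (T.h (P (nat_lit 0)) (T.h (T.h (P (nat_lit 0)) (M (nat_lit 1269696835211))) (P (nat_lit 0)))))) (T.h (T.h (T.h (P (nat_lit 4867360676)) (T.h (P (nat_lit 0)) (T.h (P (nat_lit 380234304)) (T.h (P (nat_lit 0)) (M (nat_lit 4109311860167)))))) (T.h (P (nat_lit 0)) (T.h (T.h (M (nat_lit 1038526473903)) (T.h (P (nat_lit 0)) (P (nat_lit 25241922720820)))) (T.h (P (nat_lit 0)) (M (nat_lit 9704359078339)))))) (T.h (T.h (P (nat_lit 0)) (T.h (T.h (P (nat_lit 0)) (M (nat_lit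 7223518018027))) (P (nat_lit 0)))) (T.h (T.h (T.h (M (nat_lit 915442992443)) (T.h (P (nat_lit 0)) (M (nat_lit 2098920703199)))) (T.h (P (nat_lit 0)) (P (nat_lit 13470483683376)))) (T.h (P (nat_lit 0)) (M (nat_lit 19640317711147))))))) (P (nat_lit 0))) (P (nat_lit 0)))))
def en01_11 : T ℤ := (T.h (T.h (T.h (T.h (P (nat_lit 0)) (T.h (T.h (M (nat_lit 2665040819)) (T.h (P (nat_lit 0)) (T.h (P (nat_lit 13835712704)) (T.h (P (nat_lit 0)) (P (nat_lit 487707583768)))))) (T.h (P (nat_lit 0)) (T.h (T.h (P (nat_lit 18104526088)) (T.h (P (nat_lit 0)) (M (nat_lit 330422867075)))) (T.h (P (nat_lit 0)) (M (nat_lit 214805529019))))))) (T.h (T.h (T.h (P (nat_lit 0)) (T.h (P (nat_lit 4788166948)) (T.h (P (nat_lit 0)) (T.h (P (nat_lit 81349694684)) (T.h (P (nat_lit 0)) (P (nat_lit 25047164464))))))) (T.h (P (nat_lit 0)) (T.h (T.h (P (nat_lit 0)) (T.h (P (nat_lit 24929728864)) (T.h (P (nat_lit 0)) (P (nat_lit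 10823620184656))))) (T.h (P (nat_lit 0)) (T.h (T.h (P (nat_lit 0)) (P (nat_lit 2803738680544))) (P (nat_lit 0))))))) (T.h (T.h (P (nat_lit 0)) (T.h (T.h (M (nat_lit 54635593475)) (T.h (P (nat_lit 0)) (M (nat_lit 1425431093103)))) (T.h (P (nat_lit 0)) (M (nat_lit 1669649522435))))) (T.h (T.h (T.h (P (nat_lit 0)) (T.h (M (nat_lit 1218401895639)) (T.h (P (nat_lit 0)) (M (nat_lit 3455345427483))))) (T.h (P (nat_lit 0)) (T.h (T.h (P (nat_lit 0)) (P (nat_lit 18347629661824))) (P (nat_lit 0))))) (T.h (T.h (P (nat_lit 0)) (P (nat_lit 297538204404))) (T.h (T.h (T.h (P (nat_lit 0)) (P (nat_lit 52920439661816))) (P (nat_lit 0))) (P (nat_lit 0)))))))) (T.h (P (nat_lit 0)) (T.h (T.h (T.h (P (nat_lit 0)) (T.h (T.h (P (nat_lit 2027356392)) (T.h (P (nat_lit 0)) (T.h (P (nat_lit 153902303396)) (T.h (P (nat_lit 0)) (P (nat_lit 1509570376652)))))) (T.h (P (nat_lit 0)) (T.h (T.h (M (nat_lit 48434479879)) (T.h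 (P (nat_lit 0)) (M (nat_lit 3663916832339)))) (T.h (P (nat_lit 0)) (M (nat_lit 317621054943))))))) (T.h (T.h (T.h (P (nat_lit 0)) (T.h (P (nat_lit 50683910964)) (T.h (P (nat_lit 0)) (P (nat_lit 712629473164))))) (T.h (P (nat_lit 0)) (T.h (T.h (P (nat_lit 0)) (M (nat_lit 132089194995))) (P (nat_lit 0))))) (T.h (T.h (P (nat_lit 0)) (T.h (T.h (M (nat_lit 389724877923)) (T.h (P (nat_lit 0)) (P (nat_lit 78987310718208)))) (T.h (P (nat_lit 0)) (P (nat_lit 4998268820056))))) (T.h (T.h (T.h (P (nat_lit 0)) (P (nat_lit 23185023777556))) (P (nat_lit 0))) (T.h (T.h (P (nat_lit 0)) (P (nat_lit 39758439491888))) (P (nat_lit 0))))))) (P (nat_lit 0))))) (T.h (T.h (P (nat_lit 0)) (T.h (T.h (T.h (T.h (P (nat_lit 0)) (T.h (M (nat_lit 1564230595)) (T.h (P (nat_lit 0)) (T.h (M (nat_lit 19867817895)) (T.h (P (nat_lit 0)) (P (nat_lit 719224130748))))))) (T.h (P (nat_lit 0)) (T.h (T.h (P (nat_lit 0)) (T.h (M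 (nat_lit 99512382815)) (T.h (P (nat_lit 0)) (M (nat_lit 8127743215703))))) (T.h (P (nat_lit 0)) (T.h (T.h (P (nat_lit 0)) (P (nat_lit 326733739932))) (P (nat_lit 0))))))) (T.h (T.h (P (nat_lit 0)) (T.h (T.h (P (nat_lit 15546276904)) (T.h (P (nat_lit 0)) (P (nat_lit 1600324383720)))) (T.h (P (nat_lit 0)) (M (nat_lit 337432401791))))) (T.h (T.h (T.h (P (nat_lit 0)) (T.h (M (nat_lit 571969753919)) (T.h (P (nat_lit 0)) (P (nat_lit 95379633032))))) (T.h (P (nat_lit 0)) (T.h (T.h (P (nat_lit 0)) (P (nat_lit 14683950378528))) (P (nat_lit 0))))) (T.h (T.h (P (nat_lit 0)) (M (nat_lit 14549804125911))) (T.h (T.h (T.h (P (nat_lit 0)) (M (nat_lit 32694747301439))) (P (nat_lit 0))) (P (nat_lit 0))))))) (P (nat_lit 0)))) (T.h (T.h (T.h (T.h (P (nat_lit 0)) (T.h (T.h (P (nat_lit 3486188720)) (T.h (P (nat_lit 0)) (T.h (P (nat_lit 42879937796)) (T.h (P (nat_lit 0)) (M (nat_lit 1894490076687)))))) (T.h (P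 (nat_lit 0)) (T.h (T.h (M (nat_lit 4197371503)) (T.h (P (nat_lit 0)) (P (nat_lit 2382065874532)))) (T.h (P (nat_lit 0)) (M (nat_lit 1431108359487))))))) (T.h (T.h (T.h (P (nat_lit 0)) (T.h (M (nat_lit 24946614619)) (T.h (P (nat_lit 0)) (P (nat_lit 510139218068))))) (T.h (P (nat_lit 0)) (T.h (T.h (P (nat_lit 0)) (P (nat_lit 1359106102380))) (P (nat_lit 0))))) (T.h (T.h (P (nat_lit 0)) (T.h (T.h (P (nat_lit 1269811777044)) (T.h (P (nat_lit 0)) (P (nat_lit 5158326892416)))) (T.h (P (nat_lit 0)) (M (nat_lit 14103368136331))))) (T.h (T.h (T.h (P (nat_lit 0)) (P (nat_lit 7633949191492))) (P (nat_lit 0))) (T.h (T.h (P (nat_lit 0)) (P (nat_lit 60852380344020))) (P (nat_lit 0))))))) (P (nat_lit 0))) (P (nat_lit 0)))))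
def en01_12 : T ℤ := (T.h (T.h (T.h (P (nat_lit 0)) (T.h (T.h (T.h (T.h (P (nat_lit 168801204)) (T.h (P (nat_lit 0)) (T.h (M (nat_lit 12783515119)) (T.h (P (nat_lit 0)) (T.h (P (nat_lit 108026219616)) (T.h (P (nat_lit 0)) (M (nat_lit 692931580303)))))))) (T.h (P (nat_lit 0)) (T.h (T.h (M (nat_lit 4211300119)) (T.h (P (nat_lit 0)) (T.h (P (nat_lit 245636950104)) (T.h (P (nat_lit 0)) (P (nat_lit 14094456251532)))))) (T.h (P (nat_lit 0)) (T.h (T.h (P (nat_lit 80758052516)) (T.h (P (nat_lit 0)) (P (nat_lit 4663467679412)))) (T.h (P (nat_lit 0)) (P (nat_lit 231594800496)))))))) (T.h (T.h (P (nat_lit 0)) (T.h (T.h (P (nat_lit 0)) (T.h (M (nat_lit 225660035151)) (T.h (P (nat_lit 0)) (M (nat_lit 1163081922931))))) (T.h (P (nat_lit 0)) (T.h (T.h (P (nat_lit 0)) (M (nat_lit 497033376751))) (P (nat_lit 0)))))) (T.h (T.h (T.h (P (nat_lit 43086607304)) (T.h (P (nat_lit 0)) (T.h (M (nat_lit 1006892493899))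 (T.h (P (nat_lit 0)) (P (nat_lit 21612916015196)))))) (T.h (P (nat_lit 0)) (T.h (T.h (M (nat_lit 264144969259)) (T.h (P (nat_lit 0)) (P (nat_lit 2959540512544)))) (T.h (P (nat_lit 0)) (P (nat_lit 5662364367236)))))) (T.h (T.h (P (nat_lit 0)) (T.h (T.h (P (nat_lit 0)) (M (nat_lit 19830941100167))) (P (nat_lit 0)))) (T.h (T.h (T.h (M (nat_lit 398521681727)) (T.h (P (nat_lit 0)) (M (nat_lit 41997528371579)))) (T.h (P (nat_lit 0)) (M (nat_lit 7621107689599)))) (T.h (P (nat_lit 0)) (P (nat_lit 2207482068388)))))))) (T.h (P (nat_lit 0)) (T.h (T.h (T.h (T.h (M (nat_lit 366763063)) (T.h (P (nat_lit 0)) (T.h (M (nat_lit 42642810463)) (T.h (P (nat_lit 0)) (M (nat_lit 1765624774287)))))) (T.h (P (nat_lit 0)) (T.h (T.h (M (nat_lit 30685644627)) (T.h (P (nat_lit 0)) (M (nat_lit 541666024383)))) (T.h (P (nat_lit 0)) (P (nat_lit 180796062936)))))) (T.h (T.h (P (nat_lit 0)) (T.h (T.h (P (nat_lit 0)) (T.h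 (P (nat_lit 1018312100656)) (T.h (P (nat_lit 0)) (M (nat_lit 12749151774735))))) (T.h (P (nat_lit 0)) (T.h (T.h (P (nat_lit 0)) (M (nat_lit 38342114004799))) (P (nat_lit 0)))))) (T.h (T.h (T.h (M (nat_lit 73777555587)) (T.h (P (nat_lit 0)) (M (nat_lit 529647951255)))) (T.h (P (nat_lit 0)) (P (nat_lit 1881694990236)))) (T.h (T.h (P (nat_lit 0)) (T.h (T.h (P (nat_lit 0)) (M (nat_lit 54227150401887))) (P (nat_lit 0)))) (M (nat_lit 12563280487715)))))) (P (nat_lit 0)))))) en01_10) (T.h en01_11 (T.h (T.h (T.h (P (nat_lit 0)) (T.h (T.h (T.h (T.h (P (nat_lit 198939588)) (T.h (P (nat_lit 0)) (T.h (P (nat_lit 8862265612)) (T.h (P (nat_lit 0)) (M (nat_lit 221180621111)))))) (T.h (P (nat_lit 0)) (T.h (T.h (M (nat_lit 819707259)) (T.h (P (nat_lit 0)) (P (nat_lit 366482388364)))) (T.h (P (nat_lit 0)) (P (nat_lit 57614923908)))))) (T.h (T.h (P (nat_lit 0)) (T.h (T.h (P (nat_lit 0)) (T.h (M (nat_lit 243881700855))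 (T.h (P (nat_lit 0)) (P (nat_lit 3261263650568))))) (T.h (P (nat_lit 0)) (T.h (T.h (P (nat_lit 0)) (P (nat_lit 3078291033592))) (P (nat_lit 0)))))) (T.h (T.h (T.h (P (nat_lit 87815423152)) (T.h (P (nat_lit 0)) (P (nat_lit 766323311976)))) (T.h (P (nat_lit 0)) (P (nat_lit 1218649081332)))) (T.h (T.h (P (nat_lit 0)) (T.h (T.h (P (nat_lit 0)) (M (nat_lit 2520981888063))) (P (nat_lit 0)))) (P (nat_lit 4774665649376)))))) (P (nat_lit 0)))) (T.h (T.h (T.h (T.h (P (nat_lit 0)) (T.h (T.h (P (nat_lit 0)) (T.h (P (nat_lit 4837294752)) (T.h (P (nat_lit 0)) (P (nat_lit 165035169380))))) (T.h (P (nat_lit 0)) (T.h (T.h (P (nat_lit 0)) (M (nat_lit 402990232339))) (P (nat_lit 0)))))) (T.h (T.h (T.h (M (nat_lit 2895842351)) (T.h (P (nat_lit 0)) (T.h (M (nat_lit 43209498179)) (T.h (P (nat_lit 0)) (M (nat_lit 650508668187)))))) (T.h (P (nat_lit 0)) (T.h (T.h (P (nat_lit 55826410928)) (T.h (P (nat_lit 0))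 (M (nat_lit 6341172541943)))) (T.h (P (nat_lit 0)) (M (nat_lit 1854346115811)))))) (T.h (T.h (P (nat_lit 0)) (T.h (T.h (P (nat_lit 0)) (M (nat_lit 1205384643539))) (P (nat_lit 0)))) (T.h (T.h (T.h (M (nat_lit 19335977631)) (T.h (P (nat_lit 0)) (P (nat_lit 825934028136)))) (T.h (P (nat_lit 0)) (M (nat_lit 8561657333179)))) (T.h (P (nat_lit 0)) (P (nat_lit 15231937610816))))))) (P (nat_lit 0))) (P (nat_lit 0)))) (T.h (T.h (T.h (T.h (T.h (P (nat_lit 0)) (T.h (T.h (P (nat_lit 347108116)) (T.h (P (nat_lit 0)) (T.h (P (nat_lit 9806546496)) (T.h (P (nat_lit 0)) (P (nat_lit 142774333480)))))) (T.h (P (nat_lit 0)) (T.h (T.h (M (nat_lit 9067577203)) (T.h (P (nat_lit 0)) (P (nat_lit 79897918564)))) (T.h (P (nat_lit 0)) (P (nat_lit 124095884088))))))) (T.h (T.h (T.h (P (nat_lit 0)) (T.h (P (nat_lit 3424836896)) (T.h (P (nat_lit 0)) (P (nat_lit 151830820640))))) (T.h (P (nat_lit 0)) (T.h (T.h (P (nat_lit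 0)) (P (nat_lit 78556167952))) (P (nat_lit 0))))) (T.h (T.h (P (nat_lit 0)) (T.h (T.h (M (nat_lit 18912155095)) (T.h (P (nat_lit 0)) (M (nat_lit 456288630807)))) (T.h (P (nat_lit 0)) (M (nat_lit 700854148867))))) (T.h (T.h (T.h (P (nat_lit 0)) (M (nat_lit 768241844543))) (P (nat_lit 0))) (T.h (T.h (P (nat_lit 0)) (M (nat_lit 16742622136511))) (P (nat_lit 0))))))) (P (nat_lit 0))) (P (nat_lit 0))) (P (nat_lit 0))))))
def en01_13 : T ℤ := (T.h (T.h (T.h (P (nat_lit 0)) (T.h (P (nat_lit 0)) (T.h (P (nat_lit 0)) (T.h (P (nat_lit 0)) (T.h (P (nat_lit 0)) (T.h (T.h (T.h (T.h (P (nat_lit 55273816)) (T.h (P (nat_lit 0)) (T.h (P (nat_lit 17322401488)) (T.h (P (nat_lit 0)) (T.h (M (nat_lit 147883435215)) (T.h (P (nat_lit 0)) (P (nat_lit 1789847296568)))))))) (T.h (P (nat_lit 0)) (T.h (T.h (M (nat_lit 2935268191)) (T.h (P (nat_lit 0)) (T.h (M (nat_lit 46883362095)) (T.h (P (nat_lit 0)) (M (nat_lit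 11725429659523)))))) (T.h (P (nat_lit 0)) (T.h (T.h (P (nat_lit 8056659396)) (T.h (P (nat_lit 0)) (P (nat_lit 3159815343696)))) (T.h (P (nat_lit 0)) (M (nat_lit 224478116839)))))))) (T.h (T.h (P (nat_lit 0)) (T.h (T.h (P (nat_lit 0)) (T.h (M (nat_lit 59192523983)) (T.h (P (nat_lit 0)) (M (nat_lit 3079227471631))))) (T.h (P (nat_lit 0)) (T.h (T.h (P (nat_lit 0)) (M (nat_lit 382111399227))) (P (nat_lit 0)))))) (T.h (T.h (T.h (M (nat_lit 2935268191)) (T.h (P (nat_lit 0)) (T.h (M (nat_lit 46883362095)) (T.h (P (nat_lit 0)) (M (nat_lit 11725429659523)))))) (T.h (P (nat_lit 0)) (T.h (T.h (P (nat_lit 73185444832)) (T.h (P (nat_lit 0)) (M (nat_lit 915148071919)))) (T.h (P (nat_lit 0)) (P (nat_lit 3235704160704)))))) (T.h (T.h (P (nat_lit 0)) (T.h (T.h (P (nat_lit 0)) (M (nat_lit 382111399227))) (P (nat_lit 0)))) (T.h (T.h (T.h (P (nat_lit 8056659396)) (T.h (P (nat_lit 0)) (P (nat_lit 3159815343696))))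 (T.h (P (nat_lit 0)) (P (nat_lit 3235704160704)))) (T.h (P (nat_lit 0)) (M (nat_lit 224478116839)))))))) (T.h (P (nat_lit 0)) (T.h (T.h (T.h (T.h (P (nat_lit 51361456)) (T.h (P (nat_lit 0)) (T.h (P (nat_lit 7687544040)) (T.h (P (nat_lit 0)) (M (nat_lit 504198889567)))))) (T.h (P (nat_lit 0)) (T.h (T.h (M (nat_lit 1346702603)) (T.h (P (nat_lit 0)) (P (nat_lit 340571546336)))) (T.h (P (nat_lit 0)) (M (nat_lit 44609680299)))))) (T.h (T.h (P (nat_lit 0)) (T.h (T.h (P (nat_lit 0)) (T.h (P (nat_lit 31471198720)) (T.h (P (nat_lit 0)) (M (nat_lit 6791017811871))))) (T.h (P (nat_lit 0)) (T.h (T.h (P (nat_lit 0)) (M (nat_lit 2148808802199))) (P (nat_lit 0)))))) (T.h (T.h (T.h (M (nat_lit 1346702603)) (T.h (P (nat_lit 0)) (P (nat_lit 340571546336)))) (T.h (P (nat_lit 0)) (P (nat_lit 104216885664)))) (T.h (T.h (P (nat_lit 0)) (T.h (T.h (P (nat_lit 0)) (M (nat_lit 2148808802199))) (P (nat_lit 0))))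 (M (nat_lit 44609680299)))))) (P (nat_lit 0)))))))))) en01_2) (T.h en01_5 (T.h (T.h (T.h (P (nat_lit 0)) (T.h (P (nat_lit 0)) (T.h (P (nat_lit 0)) (T.h (T.h (T.h (T.h (M (nat_lit 240952611)) (T.h (P (nat_lit 0)) (T.h (P (nat_lit 23955099200)) (T.h (P (nat_lit 0)) (T.h (M (nat_lit 115785857771)) (T.h (P (nat_lit 0)) (P (nat_lit 3120758784184)))))))) (T.h (P (nat_lit 0)) (T.h (T.h (M (nat_lit 2870013403)) (T.h (P (nat_lit 0)) (T.h (M (nat_lit 158122491143)) (T.h (P (nat_lit 0)) (M (nat_lit 19140825479327)))))) (T.h (P (nat_lit 0)) (T.h (T.h (M (nat_lit 111682805863)) (T.h (P (nat_lit 0)) (M (nat_lit 7217337114931)))) (T.h (P (nat_lit 0)) (M (nat_lit 570382330911)))))))) (T.h (T.h (P (nat_lit 0)) (T.h (T.h (P (nat_lit 0)) (T.h (P (nat_lit 132211322164)) (T.h (P (nat_lit 0)) (P (nat_lit 15982096147088))))) (T.h (P (nat_lit 0)) (T.h (T.h (P (nat_lit 0)) (M (nat_lit 4474343101239))) (P (nat_lit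 0)))))) (T.h (T.h (T.h (P (nat_lit 24088657876)) (T.h (P (nat_lit 0)) (T.h (P (nat_lit 1726025247176)) (T.h (P (nat_lit 0)) (P (nat_lit 16395024796280)))))) (T.h (P (nat_lit 0)) (T.h (T.h (M (nat_lit 72092093059)) (T.h (P (nat_lit 0)) (P (nat_lit 31634177829948)))) (T.h (P (nat_lit 0)) (M (nat_lit 12035332563859)))))) (T.h (T.h (P (nat_lit 0)) (T.h (T.h (P (nat_lit 0)) (P (nat_lit 4155598436848))) (P (nat_lit 0)))) (T.h (T.h (T.h (M (nat_lit 130108224067)) (T.h (P (nat_lit 0)) (P (nat_lit 2702672493108)))) (T.h (P (nat_lit 0)) (M (nat_lit 16225615958179)))) (T.h (P (nat_lit 0)) (P (nat_lit 928060151544)))))))) (T.h (P (nat_lit 0)) (T.h (T.h (T.h (T.h (M (nat_lit 274552431)) (T.h (P (nat_lit 0)) (T.h (P (nat_lit 998927272)) (T.h (P (nat_lit 0)) (P (nat_lit 7482462901876)))))) (T.h (P (nat_lit 0)) (T.h (T.h (P (nat_lit 9848416500)) (T.h (P (nat_lit 0)) (P (nat_lit 688899457336)))) (T.h (P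 (nat_lit 0)) (M (nat_lit 202049537439)))))) (T.h (T.h (P (nat_lit 0)) (T.h (T.h (P (nat_lit 0)) (T.h (P (nat_lit 291026119792)) (T.h (P (nat_lit 0)) (P (nat_lit 61342916579872))))) (T.h (P (nat_lit 0)) (T.h (T.h (P (nat_lit 0)) (P (nat_lit 2550243782232))) (P (nat_lit 0)))))) (T.h (T.h (T.h (P (nat_lit 61491564484)) (T.h (P (nat_lit 0)) (P (nat_lit 1778903958204)))) (T.h (P (nat_lit 0)) (M (nat_lit 225655064951)))) (T.h (T.h (P (nat_lit 0)) (T.h (T.h (P (nat_lit 0)) (M (nat_lit 2648321709895))) (P (nat_lit 0)))) (M (nat_lit 71344541823)))))) (P (nat_lit 0)))))))) en01_7) (T.h en01_9 en01_12))))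

def n01 : T ℤ := en01_13

theorem h_n01 : chkT (c.Nn 0 1 ++ c.Nn 1 0) n01 = true := by decide +kernel


end Pool.Agent.TOPR.R61135
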